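import Pool.Agent.H98.MF.Sys
import Pool.Agent.H98.MF.C.Defs
import Pool.Agent.H98.ML.FDefs

/-!
# Project MK4 (MP_a3214d): frames of a number field (interface of the blocks C, L, N, D with
the blocks M and F)
-/

set_option autoImplicit false

open scoped BigOperators Pointwise
open NumberField IsDedekindDomain

namespace Pool.Agent.H98.MF

open Pool.Agent.H98.ML (Dt Ext Wt norb hind)

/-- a frame of a number field -/
structure Frm (k : Type) [Field k] [NumberField k] where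
  /-- the primes of the frame -/
  S : Finset (HeightOneSpectrum (𝓞 k))
  adm : Adm S
  /-- the system of primes -/
  sys : Sys
  /-- the primes outside `S` -/
  pl : sys.P → HeightOneSpectrum (𝓞 k)
  pl_inj : Function.Injective pl
  pl_iff : ∀ P, (∃ p, pl p = P) ↔ P ∉ S
  N_eq : ∀ p, sys.N p = nrm (pl p)
  /-- basis of the units -/
  u : Fin sys.m → kˣ
  /-- basis of the complement -/
  w : Fin sys.m → kˣ
  /-- the prime elements -/
  pi : sys.P → kˣ
  u_mem : ∀ j, u j ∈ US S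
  u_gen : ∀ x ∈ US S, ∃ c : Fin sys.m → ZMod 2, x * ∏ i, u i ^ (c i).val ∈ sqr (US S)
  u_ind : ∀ c : Fin sys.m → ZMod 2, IsSquare (∏ i, u i ^ (c i).val) → c = 0
  pi_self : ∀ p, ord (pl p) (pi p : k) = 1
  pi_other : ∀ p q, q ≠ p → ord (pl q) (pi p : k) = 0
  ty_eq : ∀ p j, sys.ty p j = qr (u j : k) (pl p)
  J_eq : ∀ p q, p ≠ q → sys.J p q = qr (pi p : k) (pl q)
  lam_eq : ∀ p, sys.lam p = qr (-1 : k) (pl p)
  loc : ∀ p, ∀ v ∈ pls S, LocP v ((pi p * ∏ j, w j ^ (sys.ty p j).val : kˣ) : k)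
  gen : ∀ c : Pl k → kˣ, ∃ y z : Fin sys.m → ZMod 2, ∀ v ∈ pls S,
    LocP v ((c v * (∏ j, u j ^ (y j).val) * ∏ j, w j ^ (z j).val : kˣ) : k)
  ind : ∀ y z : Fin sys.m → ZMod 2, (∀ v ∈ pls S,
    LocP v (((∏ j, u j ^ (y j).val) * ∏ j, w j ^ (z j).val : kˣ) : k)) → y = 0 ∧ z = 0
  hch : ∃ C : ℝ, ∀ x : ℝ, 2 ≤ x → ((sys.pr x).card : ℝ) ≤ C * x / Real.log x

section

variable {k : Type} [Field k] [NumberField k]

/-- decomposition groups -/
noncomputable def DecP : Pl k → Subgroup (Gm k)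
  | Sum.inl P => Dec P
  | Sum.inr φ => DecR φ

end

section

variable (k : Type) [Field k] [NumberField k]

/-- the local Kummer theory (F1, F2) -/
structure KIn : Prop where
  one : ∀ (v : Pl k) (a : kˣ), (∀ σ ∈ DecP v, chi (a : k) σ = 0) ↔ LocP v (a : k)
  two : ∀ (v : Pl k) (h : Gm k → ZMod 2), IsLocallyConstant h →
    (∀ σ ∈ DecP v, ∀ τ ∈ DecP v, h (σ * τ) = h σ + h τ) →
    ∃ c : kˣ, ∀ σ ∈ DecP v, h σ = chi (c : k) σ

/-- relative discriminant exponents and tame generators (block D) -/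
structure Rx where
  /-- the exponent of the relative discriminant of the fixed field -/
  rex : HeightOneSpectrum (𝓞 k) → Subgroup (Gm k) → ℕ
  /-- tame generators -/
  tau : HeightOneSpectrum (𝓞 k) → Gm k
  fin : ∀ U : Subgroup (Gm k), IsOpen (U : Set (Gm k)) → {P | rex P U ≠ 0}.Finite
  prod : ∀ U : Subgroup (Gm k), IsOpen (U : Set (Gm k)) →
    rdN (fld k U) = ∏ᶠ P, nrm P ^ rex P U
  loc : ∀ (G : Type) [Group G] [Finite G] (ρ ρ' : Gm k →* G) (H : Subgroup G),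
    IsLocallyConstant ρ → IsLocallyConstant ρ' → Function.Surjective ρ →
    Function.Surjective ρ' → ∀ P, (∀ σ ∈ Dec P, ρ σ = ρ' σ) →
    rex P (H.comap ρ) = rex P (H.comap ρ')
  disc : ∀ P, ord P (2 : k) = 0 → ∀ (U : Subgroup (Gm k)) [U.Normal],
    IsOpen (U : Set (Gm k)) → (∃ j, U.index = 2 ^ j) → ∀ W : Subgroup (Gm k), U ≤ W →
    rex P W + norb W (tau P) = W.index
  chi : ∀ P, ord P (2 : k) = 0 → ∀ a : kˣ, chi (a : k) (tau P) = ((ord P (a : k) : ℤ) : ZMod 2)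

end

end Pool.Agent.H98.MF
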