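import Pool.Agent.H98.MF.NSys
import Pool.Agent.H98.MF.Frm
import Pool.Agent.H98.MF.C.Cheb

/-!
# Project MK4 (MP_a3214d): frames of a number field exist
-/

set_option autoImplicit false

open scoped BigOperators Pointwise nonZeroDivisors
open NumberField IsDedekindDomain

namespace Pool.Agent.H98.MF

open Pool.Agent.H98.MK (sg)

section

variable {k : Type} [Field k] [NumberField k]

variable {S : Finset (HeightOneSpectrum (𝓞 k))}

/-- the class of `(y, z)` -/
noncomputable def clF (F : CFr S) (y z : Fin (mS S) → ZMod 2) : kˣ :=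
  (∏ j, F.u j ^ (y j).val) * ∏ j, F.w j ^ (z j).val

theorem NFrm_pow_add (a : kˣ) (x y : ZMod 2) :
    ∃ t : kˣ, a ^ x.val * a ^ y.val = a ^ (x + y).val * t ^ 2 := by
  revert x y
  have h : ∀ x y : ZMod 2, x.val + y.val = (x + y).val + ((x.val + y.val) / 2) * 2 := by decide
  intro x y
  obtain ⟨n, hn⟩ : ∃ n : ℕ, x.val + y.val = (x + y).val + n * 2 := ⟨_, h x y⟩
  exact ⟨a ^ n, by rw [← pow_add, hn, pow_add, pow_mul]⟩

theorem NFrm_prod_add {ι : Type} [Fintype ι] (a : ι → kˣ) (x y : ι → ZMod 2) :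
    ∃ t : kˣ, (∏ i, a i ^ (x i).val) * ∏ i, a i ^ (y i).val =
      (∏ i, a i ^ ((x + y) i).val) * t ^ 2 := by
  classical
  choose t ht using fun i => NFrm_pow_add (a i) (x i) (y i)
  refine ⟨∏ i, t i, ?_⟩
  rw [← Finset.prod_mul_distrib, ← Finset.prod_pow, ← Finset.prod_mul_distrib]
  exact Finset.prod_congr rfl fun i _ => ht i

theorem clF_mul (F : CFr S) (y z y' z' : Fin (mS S) → ZMod 2) :
    ∃ t : kˣ, clF F y z * clF F y' z' = clF F (y + y') (z + z') * t ^ 2 := by
  obtain ⟨t1, h1⟩ := NFrm_prod_add F.u y y'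
  obtain ⟨t2, h2⟩ := NFrm_prod_add F.w z z'
  refine ⟨t1 * t2, ?_⟩
  unfold clF
  rw [mul_mul_mul_comm, h1, h2, mul_pow, mul_mul_mul_comm]

/-- every class modulo local squares is the class of some `(y, z)` -/
theorem gen_of (hL : LIn k) (hi : CISt k) (hr : RecSt k) (hS : Adm S) (F : CFr S) (x : kˣ) :
    ∃ y z : Fin (mS S) → ZMod 2, x * clF F y z ∈ KS S := by
  classical
  have hidx : (KS S).index = 2 ^ (2 * mS S) := hi S hS
  have hfin : Finite (kˣ ⧸ KS S) := by
    refine Nat.finite_of_card_ne_zero ?_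
    show (KS S).index ≠ 0
    rw [hidx]
    positivity
  let f : (Fin (mS S) → ZMod 2) × (Fin (mS S) → ZMod 2) → kˣ ⧸ KS S :=
    fun p => QuotientGroup.mk (clF F p.1 p.2)
  have hinj : Function.Injective f := by
    rintro ⟨y, z⟩ ⟨y', z'⟩ h
    have h1 : (clF F y z)⁻¹ * clF F y' z' ∈ KS S := QuotientGroup.eq.1 h
    have h2 : clF F y z * clF F y' z' ∈ KS S := by
      have h3 : clF F y z * clF F y' z' = clF F y z ^ 2 * ((clF F y z)⁻¹ * clF F y' z') := by
        rw [pow_two, mul_assoc, mul_inv_cancel_left]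
      rw [h3]
      exact mul_mem (B.sq_mem_KS S _) h1
    obtain ⟨t, ht⟩ := clF_mul F y z y' z'
    rw [ht] at h2
    have h4 : clF F (y + y') (z + z') ∈ KS S := by
      have h5 := mul_mem h2 (inv_mem (B.sq_mem_KS S t))
      rwa [mul_inv_cancel_right] at h5
    obtain ⟨h6, h7⟩ := ind_of hL hr hS F _ _ h4
    have h8 : ∀ a b : Fin (mS S) → ZMod 2, a + b = 0 → a = b := by
      intro a b hab
      funext i
      have h9 := congrFun hab i
      have h10 : a i = - b i := eq_neg_of_add_eq_zero_left h9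
      rw [h10, ZMod.neg_eq_self_mod_two]
    rw [h8 _ _ h6, h8 _ _ h7]
  have hcard : Nat.card ((Fin (mS S) → ZMod 2) × (Fin (mS S) → ZMod 2)) =
      Nat.card (kˣ ⧸ KS S) := by
    have h1 : Nat.card (kˣ ⧸ KS S) = 2 ^ (2 * mS S) := hidx
    rw [h1, Nat.card_prod, Nat.card_fun]
    simp only [Nat.card_eq_fintype_card, ZMod.card, Fintype.card_fin]
    ring
  have hsurj : Function.Surjective f :=
    ((Nat.bijective_iff_injective_and_card f).2 ⟨hinj, hcard⟩).2
  obtain ⟨⟨y, z⟩, hyz⟩ := hsurj (QuotientGroup.mk x⁻¹)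
  refine ⟨y, z, ?_⟩
  have h1 : (clF F y z)⁻¹ * x⁻¹ ∈ KS S := QuotientGroup.eq.1 hyz
  have h2 := inv_mem h1
  rwa [mul_inv_rev, inv_inv, inv_inv] at h2

/-- frames exist -/
theorem frm_of (hL : LIn k) (h1 : C1St k) (hi : CISt k) (hr : RecSt k) (hf : FrSt k) :
    Nonempty (Frm k) := by
  classical
  obtain ⟨S, -, hS⟩ := h1 ∅
  obtain ⟨F⟩ := hf S hS
  obtain ⟨κ, C, A, δ, a1, a2, a3, a4, a5, a6, a7⟩ := exists_sysK hL hr hS F
  have hinj : Function.Injective
      (fun p : (mkSys hL hr hS F κ C A δ a1 a2 a3 a4 a5 a6 a7).P =>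
        (p.1 : HeightOneSpectrum (𝓞 k))) := fun p q h => Subtype.ext h
  refine ⟨{ S := S, adm := hS, sys := mkSys hL hr hS F κ C A δ a1 a2 a3 a4 a5 a6 a7,
            pl := fun p => p.1, pl_inj := hinj, pl_iff := ?_, N_eq := fun p => rfl,
            u := F.u, w := F.w, pi := F.ppi, u_mem := F.u_mem, u_gen := F.u_gen,
            u_ind := F.u_ind, pi_self := F.ord_self,
            pi_other := fun p q hne => F.ord_other p q.1 q.2 fun h => hne (Subtype.ext h),
            ty_eq := fun p j => rfl, J_eq := fun p q _ => rfl,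
            lam_eq := fun p => (B.qr_neg_one hL hS F p).symm,
            loc := ?_, gen := ?_, ind := ?_, hch := ?_ }⟩
  · intro P
    constructor
    · rintro ⟨p, rfl⟩
      exact p.2
    · intro hP
      exact ⟨⟨P, hP⟩, rfl⟩
  · intro p v hv
    rw [← hL.memLS v]
    have e1 : F.ppi p * ∏ j, F.w j ^ (B.tyF F p j).val =
        (F.ppi p / ∏ j, F.w j ^ (B.tyF F p j).val) * (∏ j, F.w j ^ (B.tyF F p j).val) ^ 2 := by
      rw [pow_two, ← mul_assoc, div_mul_cancel]
    have e2 : F.ppi p * ∏ j, F.w j ^ (B.tyF F p j).val ∈ LS v := by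
      rw [e1]
      exact mul_mem (F.loc p v hv) (B.sq_mem_LS v _)
    exact e2
  · intro c
    obtain ⟨x, hx⟩ := hL.weak (pls S) c
    obtain ⟨y, z, hyz⟩ := gen_of hL hi hr hS F x
    refine ⟨y, z, fun v hv => ?_⟩
    rw [← hL.memLS v]
    have e1 : c v * (∏ j, F.u j ^ (y j).val) * ∏ j, F.w j ^ (z j).val =
        (x / c v)⁻¹ * (x * clF F y z) := by
      unfold clF
      have e0 : ∀ c x A B : kˣ, c * A * B = (x / c)⁻¹ * (x * (A * B)) := by
        intro c x A B
        rw [inv_div, div_eq_mul_inv, mul_assoc, mul_assoc, inv_mul_cancel_left]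
      exact e0 _ _ _ _
    have e2 : c v * (∏ j, F.u j ^ (y j).val) * ∏ j, F.w j ^ (z j).val ∈ LS v := by
      rw [e1]
      exact mul_mem (inv_mem (hx v hv)) (B.mem_KS.1 hyz v hv)
    exact e2
  · intro y z h
    refine ind_of hL hr hS F y z (B.mem_KS.2 fun v hv => ?_)
    rw [hL.memLS v]
    exact h v hv
  · exact B.cheb _ _ hinj fun p => rfl

end

end Pool.Agent.H98.MF
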