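import Pool.Agent.H98.MF.MDefs

/-!
# Project MK4 (MP_a3214d): additivity of the quadratic characters
-/

set_option autoImplicit false

open scoped BigOperators Pointwise
open NumberField IsDedekindDomain Filter

namespace Pool.Agent.H98.MF

namespace M6a

section

variable {k : Type} [Field k] [NumberField k]

theorem sq_ne (a : kˣ) : sq (a : k) ≠ 0 := by
  intro h0
  have hs := sq_sq (a : k)
  rw [h0] at hs
  have h1 : algebraMap k (Om k) (a : k) ≠ 0 := by
    rw [Ne, map_eq_zero_iff _ (algebraMap k (Om k)).injective]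
    exact a.ne_zero
  apply h1
  rw [← hs]
  ring

/-- the sign of a class -/
noncomputable def sn (k : Type) [Field k] [NumberField k] (c : ZMod 2) : Om k :=
  if c = 0 then 1 else -1

theorem zmod_two (c : ZMod 2) : c = 0 ∨ c = 1 := by
  revert c
  decide

theorem sn_zero : sn k 0 = 1 := if_pos rfl

theorem sn_one : sn k 1 = -1 := if_neg (by decide)

theorem sn_add (c d : ZMod 2) : sn k (c + d) = sn k c * sn k d := by
  have h11 : (1 : ZMod 2) + 1 = 0 := by decide
  rcases zmod_two c with rfl | rfl <;> rcases zmod_two d with rfl | rfl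
  · rw [add_zero, sn_zero, mul_one]
  · rw [zero_add, sn_zero, one_mul]
  · rw [add_zero, sn_zero, mul_one]
  · rw [h11, sn_zero, sn_one, neg_mul_neg, mul_one]

theorem apply_sq (a : kˣ) (σ : Gm k) : σ (sq (a : k)) = sn k (chi (a : k) σ) * sq (a : k) := by
  have h2 : σ (sq (a : k)) ^ 2 = sq (a : k) ^ 2 := by
    rw [← map_pow, sq_sq, AlgEquiv.commutes]
  rcases sq_eq_sq_iff_eq_or_eq_neg.1 h2 with h | h
  · have h3 : chi (a : k) σ = 0 := if_pos h
    rw [h3, sn_zero, one_mul, h]
  · have h3 : chi (a : k) σ = 1 := if_neg (by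
      rw [h]
      intro h4
      exact sq_ne a (self_eq_neg.1 h4.symm))
    rw [h3, sn_one, h, neg_mul, one_mul]

theorem chi_of (a : kˣ) (σ : Gm k) (c : ZMod 2) (h : σ (sq (a : k)) = sn k c * sq (a : k)) :
    chi (a : k) σ = c := by
  rw [apply_sq] at h
  have h1 := mul_right_cancel₀ (sq_ne a) h
  have hne : (1 : Om k) ≠ -1 := fun h4 => one_ne_zero (self_eq_neg.1 h4)
  rcases zmod_two c with rfl | rfl <;> rcases zmod_two (chi (a : k) σ) with h2 | h2
  · exact h2
  · rw [h2, sn_zero, sn_one] at h1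
    exact absurd h1.symm hne
  · rw [h2, sn_zero, sn_one] at h1
    exact absurd h1 hne
  · exact h2

theorem chi_mul (a b : kˣ) (σ : Gm k) :
    chi ((a * b : kˣ) : k) σ = chi (a : k) σ + chi (b : k) σ := by
  apply chi_of
  have h1 : sq ((a * b : kˣ) : k) ^ 2 = (sq (a : k) * sq (b : k)) ^ 2 := by
    rw [sq_sq, mul_pow, sq_sq, sq_sq, Units.val_mul, map_mul]
  rw [sn_add]
  rcases sq_eq_sq_iff_eq_or_eq_neg.1 h1 with h | h
  · rw [h, map_mul, apply_sq, apply_sq]
    ring
  · rw [h, map_neg, map_mul, apply_sq, apply_sq]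
    ring

theorem chi_one (σ : Gm k) : chi ((1 : kˣ) : k) σ = 0 := by
  have h := chi_mul (k := k) 1 1 σ
  rw [mul_one] at h
  exact left_eq_add.mp h

theorem chi_pow (a : kˣ) (n : ℕ) (σ : Gm k) :
    chi ((a ^ n : kˣ) : k) σ = (n : ZMod 2) * chi (a : k) σ := by
  induction n with
  | zero => rw [pow_zero, chi_one, Nat.cast_zero, zero_mul]
  | succ n ih => rw [pow_succ, chi_mul, ih, Nat.cast_succ, add_mul, one_mul]

theorem chi_powv (a : kˣ) (c : ZMod 2) (σ : Gm k) :
    chi ((a ^ c.val : kˣ) : k) σ = c * chi (a : k) σ := by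
  rw [chi_pow, ZMod.natCast_zmod_val]

theorem chi_prod {ι : Type*} (s : Finset ι) (f : ι → kˣ) (σ : Gm k) :
    chi ((∏ i ∈ s, f i : kˣ) : k) σ = ∑ i ∈ s, chi (f i : k) σ := by
  classical
  induction s using Finset.induction_on with
  | empty => rw [Finset.prod_empty, Finset.sum_empty, chi_one]
  | insert i s hi ih => rw [Finset.prod_insert hi, Finset.sum_insert hi, chi_mul, ih]

theorem chi_prodv {ι : Type*} (s : Finset ι) (f : ι → kˣ) (c : ι → ZMod 2) (σ : Gm k) :
    chi ((∏ i ∈ s, f i ^ (c i).val : kˣ) : k) σ = ∑ i ∈ s, c i * chi (f i : k) σ := by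
  rw [chi_prod]
  exact Finset.sum_congr rfl fun i _ => chi_powv _ _ _

end

end M6a

end Pool.Agent.H98.MF
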