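import Pool.Agent.H98.MF.MDefs
import Pool.Agent.H98.MF.C.Bas
import Pool.Agent.H98.ML.LhTauA

/-!
# Project MK4, row M3: tame generators in the group
-/

set_option autoImplicit false

open scoped BigOperators Pointwise
open NumberField IsDedekindDomain Filter

namespace Pool.Agent.H98.MF

open Pool.Agent.H98.MK (sg)
open Pool.Agent.H98.ML (Dt Ext Wt norb hind)

namespace LTK

section

variable {k : Type} [Field k] [NumberField k]

theorem ord_two_nonneg (P : HeightOneSpectrum (𝓞 k)) : 0 ≤ ord P (2 : k) := by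
  have h : ∀ x : 𝓞 k, 0 ≤ ord P (x : k) := by
    intro x
    unfold ord
    have h1 : FractionalIdeal.spanSingleton (nonZeroDivisors (𝓞 k)) (x : k) =
        ((Ideal.span {x} : Ideal (𝓞 k)) : FractionalIdeal (nonZeroDivisors (𝓞 k)) k) := by
      rw [FractionalIdeal.coeIdeal_span_singleton]
    rw [h1]
    exact FractionalIdeal.count_coe_nonneg k P _
  have h2 := h (2 : 𝓞 k)
  have h3 : ((2 : 𝓞 k) : k) = 2 := map_ofNat (algebraMap (𝓞 k) k) 2
  rwa [h3] at h2

theorem ord_two_eq {S : Finset (HeightOneSpectrum (𝓞 k))} (hS : Adm S)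
    {P : HeightOneSpectrum (𝓞 k)} (hP : P ∉ S) : ord P (2 : k) = 0 := by
  by_contra h
  exact hP (hS.two P (lt_of_le_of_ne (ord_two_nonneg P) (Ne.symm h)))

theorem ker_index {D : Dt} (ρ : Gm k →* Ext D) : ∃ j, ρ.ker.index = 2 ^ j := by
  have h : ρ.ker.index ∣ 2 ^ (D.r + D.s) := by
    rw [Subgroup.index_ker]
    have h1 := Subgroup.card_subgroup_dvd_card ρ.range
    rwa [Pool.Agent.H98.ML.m3_card] at h1
  obtain ⟨j, -, hj⟩ := (Nat.dvd_prime_pow Nat.prime_two).1 h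
  exact ⟨j, hj⟩

theorem ker_open {D : Dt} (ρ : Gm k →* Ext D) (hρ : IsLocallyConstant ρ) :
    IsOpen (ρ.ker : Set (Gm k)) := by
  have h := hρ.isOpen_fiber (1 : Ext D)
  have h2 : (ρ.ker : Set (Gm k)) = {x | ρ x = 1} := by
    ext x
    exact MonoidHom.mem_ker
  rw [h2]
  exact h

end

end LTK

namespace Frm

variable {k : Type} [Field k] [NumberField k] (F : Frm k)

theorem ltk_notMem (p : F.sys.P) : F.pl p ∉ F.S := (F.pl_iff (F.pl p)).1 ⟨p, rfl⟩

theorem ltk_two (p : F.sys.P) : ord (F.pl p) (2 : k) = 0 :=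
  LTK.ord_two_eq F.adm (F.ltk_notMem p)

theorem ltk_chi (R : Rx k) (p : F.sys.P) (i : F.I) :
    chi (F.e i : k) (R.tau (F.pl p)) = ((ord (F.pl p) (F.e i : k) : ℤ) : ZMod 2) :=
  R.chi (F.pl p) (F.ltk_two p) (F.e i)

theorem ltk_chi_self (R : Rx k) (p : F.sys.P) :
    chi (F.e (Sum.inr p) : k) (R.tau (F.pl p)) = 1 := by
  rw [F.ltk_chi R p]
  have h : ord (F.pl p) (F.e (Sum.inr p) : k) = 1 := F.pi_self p
  rw [h]
  rfl

theorem ltk_chi_other (R : Rx k) (p : F.sys.P) (i : F.I) (hi : i ≠ Sum.inr p) :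
    chi (F.e i : k) (R.tau (F.pl p)) = 0 := by
  rw [F.ltk_chi R p]
  have h : ord (F.pl p) (F.e i : k) = 0 := by
    rcases i with j | q
    · exact B.mem_US.1 (F.u_mem j) (F.pl p) (F.ltk_notMem p)
    · exact F.pi_other q p fun h => hi (by rw [h])
  rw [h]
  rfl

theorem par_tau (R : Rx k) {r : ℕ} (x : F.I →₀ (Fin r → ZMod 2)) (p : F.sys.P) :
    F.par x (R.tau (F.pl p)) = x (Sum.inr p) := by
  unfold par Finsupp.sum
  rw [Finset.sum_eq_single (Sum.inr p)]
  · show chi (F.e (Sum.inr p) : k) (R.tau (F.pl p)) • x (Sum.inr p) = x (Sum.inr p)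
    rw [F.ltk_chi_self R p, one_smul]
  · intro i _ hip
    show chi (F.e i : k) (R.tau (F.pl p)) • x i = 0
    rw [F.ltk_chi_other R p i hip, zero_smul]
  · intro h
    show chi (F.e (Sum.inr p) : k) (R.tau (F.pl p)) • x (Sum.inr p) = 0
    rw [Finsupp.notMem_support_iff.1 h, smul_zero]

theorem lh_tau (R : Rx k) {D : Dt} {x : F.I →₀ D.V} {f : Gm k → D.Z} (h : F.IsLift D x f)
    (p : F.sys.P) : lh h (R.tau (F.pl p)) = ⟨x (Sum.inr p), f (R.tau (F.pl p))⟩ := by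
  apply Ext.ext
  · exact F.par_tau R x p
  · rfl

theorem rex_tau (R : Rx k) {D : Dt} (H0 : Subgroup (Ext D)) (ρ : Gm k →* Ext D)
    (hρ : IsLocallyConstant ρ) (hs : Function.Surjective ρ) (p : F.sys.P) :
    R.rex (F.pl p) (H0.comap ρ) = hind H0 (ρ (R.tau (F.pl p))) := by
  have h1 := R.disc (F.pl p) (F.ltk_two p) ρ.ker (LTK.ker_open ρ hρ) (LTK.ker_index ρ)
    (H0.comap ρ) (by
      intro x hx
      rw [Subgroup.mem_comap, MonoidHom.mem_ker.1 hx]
      exact H0.one_mem)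
  rw [Pool.Agent.H98.ML.m3_norb ρ hs, Subgroup.index_comap_of_surjective H0 hs] at h1
  unfold hind
  omega

theorem tau_finite (R : Rx k) {D : Dt} (ρ : Gm k →* Ext D) (hρ : IsLocallyConstant ρ) :
    {p : F.sys.P | ρ (R.tau (F.pl p)) ≠ 1}.Finite := by
  refine Set.Finite.subset
    ((R.fin ρ.ker (LTK.ker_open ρ hρ)).preimage F.pl_inj.injOn) fun p hp => ?_
  have h2 := R.disc (F.pl p) (F.ltk_two p) ρ.ker (LTK.ker_open ρ hρ) (LTK.ker_index ρ)
    ρ.ker le_rfl
  have h3 : norb ρ.ker (R.tau (F.pl p)) < ρ.ker.index := by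
    apply Pool.Agent.H98.ML.m3_norb_lt
    · obtain ⟨j, hj⟩ := LTK.ker_index ρ
      rw [hj]
      positivity
    · intro h
      exact hp (MonoidHom.mem_ker.1 h)
  show R.rex (F.pl p) ρ.ker ≠ 0
  omega

end Frm

end Pool.Agent.H98.MF
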