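import Pool.Agent.H98.MF.MDefs
import Pool.Agent.H98.MF.C.Bas
import Pool.Agent.H98.MF.L.ChiB

/-!
# Project MK4, row M1: Kummer parameters over a number field
-/

set_option autoImplicit false

open scoped BigOperators Pointwise
open NumberField IsDedekindDomain Filter

namespace Pool.Agent.H98.MF

open Pool.Agent.H98.MK (sg)
open Pool.Agent.H98.ML (Dt Ext Wt norb hind)

namespace ParK

variable {k : Type} [Field k] [NumberField k]

theorem two (x : ZMod 2) : x + x = 0 := CharTwo.add_self_eq_zero x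

theorem cases2 (x : ZMod 2) : x = 0 ∨ x = 1 := by
  revert x
  decide

/-- the kernel of an additive function -/
def ker (f : Gm k → ZMod 2) (ha : ∀ σ τ, f (σ * τ) = f σ + f τ) : Subgroup (Gm k) where
  carrier := {σ | f σ = 0}
  mul_mem' := by
    intro a b h1 h2
    simp only [Set.mem_ofPred_eq] at h1 h2 ⊢
    rw [ha, h1, h2, add_zero]
  one_mem' := by
    have h := ha 1 1
    rw [mul_one] at h
    simp only [Set.mem_ofPred_eq]
    exact (add_eq_left.mp h.symm)
  inv_mem' := by
    intro a h1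
    simp only [Set.mem_ofPred_eq] at h1 ⊢
    have h := ha 1 1
    rw [mul_one] at h
    have h0 : f 1 = 0 := add_eq_left.mp h.symm
    have h2 := ha a a⁻¹
    rw [mul_inv_cancel, h0, h1, zero_add] at h2
    exact h2.symm

/-- quadratic extensions: every locally constant homomorphism to `ZMod 2` is a `chi` -/
theorem exists_chi1 (f : Gm k → ZMod 2) (hf : IsLocallyConstant f)
    (ha : ∀ σ τ, f (σ * τ) = f σ + f τ) : ∃ d : kˣ, ∀ σ, f σ = chi (d : k) σ := by
  classical
  by_cases h0 : ∀ σ, f σ = 0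
  · refine ⟨1, fun σ => ?_⟩
    have h1 := chi_sq (1 : k) σ
    rw [one_pow] at h1
    rw [h0, Units.val_one, h1]
  push Not at h0
  obtain ⟨s, hs⟩ := h0
  have hs1 : f s = 1 := (cases2 _).resolve_left hs
  have f1 : f 1 = 0 := (ker f ha).one_mem
  have hclosed : IsClosed ((ker f ha : Subgroup (Gm k)) : Set (Gm k)) := by
    have h1 : ((ker f ha : Subgroup (Gm k)) : Set (Gm k)) = f ⁻¹' {0} := rfl
    rw [h1]
    exact (hf.isClopen_fiber 0).1
  have hgal := om_galois (k := k)
  let H : ClosedSubgroup (Gm k) := ⟨ker f ha, hclosed⟩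
  have hH : (IntermediateField.fixedField (H : Subgroup (Gm k))).fixingSubgroup =
      (H : Subgroup (Gm k)) :=
    InfiniteGalois.fixingSubgroup_fixedField H
  have hsH : s ∉ (IntermediateField.fixedField (H : Subgroup (Gm k))).fixingSubgroup := by
    rw [hH]
    intro h
    have h2 : f s = 0 := h
    rw [hs1] at h2
    exact one_ne_zero h2
  rw [IntermediateField.mem_fixingSubgroup_iff] at hsH
  push Not at hsH
  obtain ⟨y, hy, hsy⟩ := hsH
  have hfix : ∀ τ : Gm k, f τ = 0 → τ y = y := by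
    intro τ hτ
    rw [IntermediateField.mem_fixedField_iff] at hy
    exact hy τ hτ
  have finv : ∀ τ : Gm k, f τ⁻¹ = f τ := by
    intro τ
    have h2 := ha τ τ⁻¹
    rw [mul_inv_cancel, f1] at h2
    rcases cases2 (f τ) with h | h <;> rcases cases2 (f τ⁻¹) with h' | h' <;>
      rw [h, h'] at h2 <;> rw [h, h'] <;> revert h2 <;> decide
  set z : Om k := y - s y with hz
  have hz0 : z ≠ 0 := fun h => hsy (sub_eq_zero.mp h).symm
  have hsz : s z = -z := by
    have h1 : f (s * s) = 0 := by rw [ha, two]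
    have h2 := hfix _ h1
    rw [AlgEquiv.mul_apply] at h2
    rw [hz, map_sub, h2]
    ring
  have hz1 : ∀ τ : Gm k, f τ = 0 → τ z = z := by
    intro τ hτ
    have h1 : f (s⁻¹ * τ * s) = 0 := by
      rw [ha, ha, finv, hτ, add_zero, two]
    have h2 := hfix _ h1
    have h3 : τ (s y) = s y := by
      have h4 : τ (s y) = s ((s⁻¹ * τ * s) y) := by
        rw [← AlgEquiv.mul_apply, ← AlgEquiv.mul_apply, mul_assoc s⁻¹, mul_inv_cancel_left]
      rw [h4, h2]
    rw [hz, map_sub, h3, hfix τ hτ]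
  have hz2 : ∀ τ : Gm k, f τ = 1 → τ z = -z := by
    intro τ hτ
    have h1 : f (s⁻¹ * τ) = 0 := by rw [ha, finv, hs1, hτ, two]
    have h2 := hz1 _ h1
    have h3 : τ = s * (s⁻¹ * τ) := by rw [mul_inv_cancel_left]
    rw [h3, AlgEquiv.mul_apply, h2, hsz]
  have hrange : z ^ 2 ∈ Set.range (algebraMap k (Om k)) := by
    refine (InfiniteGalois.mem_range_algebraMap_iff_fixed (z ^ 2)).mpr fun τ => ?_
    rw [map_pow]
    rcases cases2 (f τ) with h | h
    · rw [hz1 τ h]
    · rw [hz2 τ h, neg_sq]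
  obtain ⟨d, hd⟩ := hrange
  have hd0 : d ≠ 0 := by
    rintro rfl
    rw [map_zero] at hd
    exact pow_ne_zero 2 hz0 hd.symm
  refine ⟨Units.mk0 d hd0, fun σ => ?_⟩
  rw [Units.val_mk0]
  rcases cases2 (f σ) with h | h
  · rw [h, (chi_eq_zero_iff hd.symm σ).mpr (hz1 σ h)]
  · rw [h, (chi_eq_one_iff hd0 hd.symm σ).mpr (hz2 σ h)]

/-- `chi` as a homomorphism on units -/
noncomputable def chH (σ : Gm k) : kˣ →* Multiplicative (ZMod 2) where
  toFun a := Multiplicative.ofAdd (chi (a : k) σ)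
  map_one' := by
    have h1 := chi_sq (1 : k) σ
    rw [one_pow] at h1
    rw [Units.val_one, h1]
    rfl
  map_mul' a b := by
    rw [Units.val_mul, chi_mul a.ne_zero b.ne_zero, ofAdd_add]

theorem chH_apply (σ : Gm k) (a : kˣ) : Multiplicative.toAdd (chH σ a) = chi (a : k) σ := rfl

theorem chu_mul (a b : kˣ) (σ : Gm k) :
    chi ((a * b : kˣ) : k) σ = chi (a : k) σ + chi (b : k) σ := by
  rw [Units.val_mul, chi_mul a.ne_zero b.ne_zero]

theorem chu_inv (a : kˣ) (σ : Gm k) : chi ((a⁻¹ : kˣ) : k) σ = chi (a : k) σ := by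
  rw [← chH_apply, ← chH_apply, map_inv, toAdd_inv, neg_eq_iff_add_eq_zero, two]

theorem chu_zpow (a : kˣ) (n : ℤ) (σ : Gm k) :
    chi ((a ^ n : kˣ) : k) σ = (n : ZMod 2) * chi (a : k) σ := by
  rw [← chH_apply, ← chH_apply, map_zpow, toAdd_zpow, zsmul_eq_mul]

theorem chu_pow (a : kˣ) (n : ℕ) (σ : Gm k) :
    chi ((a ^ n : kˣ) : k) σ = (n : ZMod 2) * chi (a : k) σ := by
  rw [← chH_apply, ← chH_apply, map_pow, toAdd_pow, nsmul_eq_mul]

theorem chu_prod {ι : Type} (s : Finset ι) (a : ι → kˣ) (σ : Gm k) :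
    chi ((∏ i ∈ s, a i : kˣ) : k) σ = ∑ i ∈ s, chi (a i : k) σ := by
  rw [← chH_apply, map_prod, toAdd_prod]
  rfl

theorem isSquare_of_chu {a : kˣ} (h : ∀ σ : Gm k, chi (a : k) σ = 0) : IsSquare a := by
  obtain ⟨b, hb⟩ := chi_isSquare h
  have hb0 : b ≠ 0 := by
    rintro rfl
    rw [mul_zero] at hb
    exact a.ne_zero hb
  exact ⟨Units.mk0 b hb0, Units.ext hb⟩

end ParK

namespace Frm

variable {k : Type} [Field k] [NumberField k] (F : Frm k)

theorem parK_ord_u (p : F.sys.P) (j : Fin F.sys.m) : ord (F.pl p) (F.u j : k) = 0 :=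
  B.mem_US.1 (F.u_mem j) _ ((F.pl_iff _).1 ⟨p, rfl⟩)

open Classical in
theorem parK_ord_e (p : F.sys.P) (i : F.I) :
    ord (F.pl p) (F.e i : k) = if i = Sum.inr p then 1 else 0 := by
  rcases i with j | q
  · rw [if_neg (by simp)]
    exact F.parK_ord_u p j
  · by_cases h : q = p
    · subst h
      rw [if_pos rfl]
      exact F.pi_self q
    · rw [if_neg (by simpa using h)]
      exact F.pi_other q p (Ne.symm h)

/-- independence -/
theorem parK_ind (s : Finset F.I) (h : ∀ σ : Gm k, ∑ i ∈ s, chi (F.e i : k) σ = 0) : s = ∅ := by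
  classical
  have h1 : IsSquare (∏ i ∈ s, F.e i) := by
    apply ParK.isSquare_of_chu
    intro σ
    rw [ParK.chu_prod, h σ]
  have h2 : ∀ p : F.sys.P, Sum.inr p ∉ s := by
    intro p hp
    obtain ⟨b, hb⟩ := h1
    have h3 : ord (F.pl p) ((∏ i ∈ s, F.e i : kˣ) : k) = 1 := by
      rw [B.ord_prod, Finset.sum_congr rfl fun i _ => F.parK_ord_e p i, Finset.sum_ite_eq']
      rw [if_pos hp]
    rw [hb, Units.val_mul, B.ord_mul _ b.ne_zero b.ne_zero] at h3
    omega
  have h4 : (∏ i ∈ s, F.e i) =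
      ∏ j : Fin F.sys.m, F.u j ^ ((if Sum.inl j ∈ s then 1 else 0 : ZMod 2)).val := by
    have h5 : s = (Finset.univ.filter fun j : Fin F.sys.m => (Sum.inl j : F.I) ∈ s).map
        ⟨Sum.inl, Sum.inl_injective⟩ := by
      ext i
      rw [Finset.mem_map]
      constructor
      · intro hi
        rcases i with j | p
        · exact ⟨j, Finset.mem_filter.2 ⟨Finset.mem_univ _, hi⟩, rfl⟩
        · exact absurd hi (h2 p)
      · rintro ⟨j, hj, rfl⟩
        exact (Finset.mem_filter.1 hj).2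
    conv_lhs => rw [h5]
    rw [Finset.prod_map, Finset.prod_filter]
    refine Finset.prod_congr rfl fun j _ => ?_
    split_ifs with hj
    · show F.u j = F.u j ^ (1 : ZMod 2).val
      rw [show (1 : ZMod 2).val = 1 from rfl, pow_one]
    · rw [ZMod.val_zero, pow_zero]
  rw [h4] at h1
  have h6 := F.u_ind _ h1
  rw [Finset.eq_empty_iff_forall_notMem]
  rintro (j | p) hi
  · have h7 := congrFun h6 j
    simp only [if_pos hi, Pi.zero_apply] at h7
    exact one_ne_zero h7
  · exact h2 p hi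

/-- all homomorphisms -/
theorem parK_ex (h : Gm k → ZMod 2) (hlc : IsLocallyConstant h)
    (hh : ∀ σ τ, h (σ * τ) = h σ + h τ) :
    ∃ y : F.I →₀ ZMod 2, ∀ σ, h σ = y.sum fun i v => chi (F.e i : k) σ * v := by
  classical
  obtain ⟨a, ha⟩ := ParK.exists_chi1 h hlc hh
  -- the primes outside `S`
  have hfin : {p : F.sys.P | ord (F.pl p) (a : k) ≠ 0}.Finite :=
    (B.ord_finite (a : k) a.ne_zero).preimage F.pl_inj.injOn
  set s : Finset F.sys.P := hfin.toFinset with hs
  have hmem : ∀ p, p ∈ s ↔ ord (F.pl p) (a : k) ≠ 0 := fun p => by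
    rw [hs, Set.Finite.mem_toFinset]
    rfl
  set n : F.sys.P → ℤ := fun p => ord (F.pl p) (a : k) with hn
  set b : kˣ := ∏ p ∈ s, F.pi p ^ n p with hb
  have hordb : ∀ p, ord (F.pl p) (b : k) = n p := by
    intro p
    rw [hb, B.ord_prod]
    have h1 : ∀ q ∈ s, ord (F.pl p) ((F.pi q ^ n q : kˣ) : k) = if q = p then n p else 0 := by
      intro q _
      rw [Units.val_zpow_eq_zpow_val, B.ord_zpow]
      split_ifs with hq
      · rw [hq, F.pi_self, mul_one]
      · rw [F.pi_other q p (Ne.symm hq), mul_zero]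
    rw [Finset.sum_congr rfl h1, Finset.sum_ite_eq']
    split_ifs with hp
    · rfl
    · rw [hmem, not_not] at hp
      exact hp.symm
  have hc : a * b⁻¹ ∈ US F.S := by
    rw [B.mem_US]
    intro Q hQ
    obtain ⟨p, rfl⟩ := (F.pl_iff Q).2 hQ
    rw [Units.val_mul, B.ord_mul _ a.ne_zero (Units.ne_zero _), Units.val_inv_eq_inv_val,
      B.ord_inv, hordb]
    simp [hn]
  obtain ⟨c, hc'⟩ := F.u_gen _ hc
  obtain ⟨d, -, hd⟩ := B.mem_sqr.1 hc'
  have key : ∀ σ : Gm k, chi (a : k) σ =
      ∑ j, chi (F.u j : k) σ * c j + ∑ p ∈ s, chi (F.pi p : k) σ * (n p : ZMod 2) := by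
    intro σ
    have h1 : chi ((a * b⁻¹ * ∏ i, F.u i ^ (c i).val : kˣ) : k) σ = 0 := by
      rw [← hd, Units.val_pow_eq_pow_val]
      exact chi_sq _ σ
    rw [ParK.chu_mul, ParK.chu_mul, ParK.chu_inv, ParK.chu_prod, ParK.chu_prod] at h1
    have h2 : ∑ i, chi ((F.u i ^ (c i).val : kˣ) : k) σ = ∑ j, chi (F.u j : k) σ * c j := by
      refine Finset.sum_congr rfl fun j _ => ?_
      rw [ParK.chu_pow, ZMod.natCast_val, ZMod.cast_id', id, mul_comm]
    have h3 : ∑ p ∈ s, chi ((F.pi p ^ n p : kˣ) : k) σ =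
        ∑ p ∈ s, chi (F.pi p : k) σ * (n p : ZMod 2) := by
      refine Finset.sum_congr rfl fun p _ => ?_
      rw [ParK.chu_zpow, mul_comm]
    rw [h2, h3] at h1
    have h4 : ∀ x y z : ZMod 2, x + y + z = 0 → x = z + y := by decide
    exact h4 _ _ _ h1
  refine ⟨Finsupp.onFinset (Finset.univ.disjSum s)
    (Sum.elim c fun p => (n p : ZMod 2)) ?_, fun σ => ?_⟩
  · rintro (j | p) hi
    · exact Finset.inl_mem_disjSum.2 (Finset.mem_univ j)
    · refine Finset.inr_mem_disjSum.2 ?_
      rw [hmem]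
      intro h0
      apply hi
      show ((n p : ℤ) : ZMod 2) = 0
      rw [hn]
      simp only [h0, Int.cast_zero]
  · rw [ha, key, Finsupp.onFinset_sum _ (fun i => mul_zero _), Finset.sum_disjSum]
    rfl

theorem parK_key {r : ℕ} (x : F.I →₀ (Fin r → ZMod 2))
    (l : (Fin r → ZMod 2) →ₗ[ZMod 2] ZMod 2) (h : ∀ σ : Gm k, l (F.par x σ) = 0) (i : F.I) :
    l (x i) = 0 := by
  classical
  have hS : (x.support.filter fun i => l (x i) = 1) = ∅ := by
    apply F.parK_ind
    intro σ
    rw [← h σ, par, Finsupp.sum, map_sum, Finset.sum_filter]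
    refine Finset.sum_congr rfl fun j _ => ?_
    rw [map_smul, smul_eq_mul]
    rcases ParK.cases2 (l (x j)) with hj | hj
    · rw [if_neg (by rw [hj]; exact zero_ne_one), hj, mul_zero]
    · rw [if_pos hj, hj, mul_one]
  rcases ParK.cases2 (l (x i)) with h0 | h0
  · exact h0
  · exfalso
    have h1 : i ∈ (x.support.filter fun i => l (x i) = 1) := by
      rw [Finset.mem_filter, Finsupp.mem_support_iff]
      refine ⟨fun h2 => ?_, h0⟩
      rw [h2, map_zero] at h0
      exact zero_ne_one h0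
    rw [hS] at h1
    exact absurd h1 (Finset.notMem_empty i)

theorem par_add {r : ℕ} (x y : F.I →₀ (Fin r → ZMod 2)) (σ : Gm k) :
    F.par (x + y) σ = F.par x σ + F.par y σ := by
  classical
  unfold par
  rw [Finsupp.sum_add_index']
  · intro i
    rw [smul_zero]
  · intro i v w
    rw [smul_add]

theorem par_exists {r : ℕ} (h : Gm k → (Fin r → ZMod 2)) (hlc : IsLocallyConstant h)
    (hh : ∀ σ τ, h (σ * τ) = h σ + h τ) : ∃ x : F.I →₀ (Fin r → ZMod 2), h = F.par x := by
  classical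
  have h1 : ∀ j : Fin r, ∃ y : F.I →₀ ZMod 2,
      ∀ σ, h σ j = y.sum fun i v => chi (F.e i : k) σ * v := fun j =>
    F.parK_ex (fun σ => h σ j) (hlc.comp fun v => v j) (fun σ τ => by rw [hh]; rfl)
  choose y hy using h1
  refine ⟨Finsupp.onFinset (Finset.univ.biUnion fun j => (y j).support) (fun i j => y j i) ?_,
    ?_⟩
  · intro i hi
    rw [Finset.mem_biUnion]
    by_contra h2
    apply hi
    funext j
    by_contra h3
    exact h2 ⟨j, Finset.mem_univ j, Finsupp.mem_support_iff.2 h3⟩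
  · funext σ j
    rw [hy, par, Finsupp.onFinset_sum _ (fun i => smul_zero _), Finset.sum_apply, Finsupp.sum]
    have hsub : (y j).support ⊆ Finset.univ.biUnion fun j => (y j).support :=
      Finset.subset_biUnion_of_mem (fun j => (y j).support) (Finset.mem_univ j)
    refine Finset.sum_subset hsub fun i _ hi => ?_
    rw [Finsupp.notMem_support_iff] at hi
    rw [hi, mul_zero]

theorem par_inj {r : ℕ} (x y : F.I →₀ (Fin r → ZMod 2)) (h : F.par x = F.par y) : x = y := by
  have h0 : ∀ v : Fin r → ZMod 2, v + v = 0 := by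
    intro v
    funext i
    exact ParK.two (v i)
  have h1 : x + y = 0 := by
    ext i j
    have h2 := F.parK_key (x + y) (LinearMap.proj j) (fun σ => by
      rw [F.par_add, h, h0, map_zero]) i
    exact h2
  have h2 : x = x + y + y := by
    ext i j
    rw [Finsupp.add_apply, Finsupp.add_apply, add_assoc, h0, add_zero]
  rw [h2, h1, zero_add]

theorem par_surj {r : ℕ} (x : F.I →₀ (Fin r → ZMod 2)) :
    Function.Surjective (F.par x) ↔ Submodule.span (ZMod 2) (Set.range x) = ⊤ := by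
  constructor
  · intro hs
    by_contra hne
    obtain ⟨l, hl, hle⟩ := Submodule.exists_le_ker_of_lt_top _ (lt_top_iff_ne_top.2 hne)
    apply hl
    ext1 v
    · obtain ⟨σ, hσ⟩ := hs (Pi.single v 1)
      have h1 : l (F.par x σ) = 0 := by
        rw [par, Finsupp.sum, map_sum]
        refine Finset.sum_eq_zero fun i _ => ?_
        rw [map_smul, show l (x i) = 0 from hle (Submodule.subset_span ⟨i, rfl⟩), smul_zero]
      rw [hσ] at h1
      ext
      simpa using h1
  · intro hs
    let R : Submodule (ZMod 2) (Fin r → ZMod 2) :=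
      { carrier := Set.range (F.par x)
        add_mem' := by
          rintro _ _ ⟨σ, rfl⟩ ⟨τ, rfl⟩
          exact ⟨σ * τ, F.par_hom x σ τ⟩
        zero_mem' := by
          refine ⟨1, ?_⟩
          have h1 := F.par_hom x 1 1
          rw [mul_one] at h1
          exact left_eq_add.1 h1
        smul_mem' := by
          rintro c _ ⟨σ, rfl⟩
          rcases ParK.cases2 c with hc | hc
          · refine ⟨1, ?_⟩
            have h1 := F.par_hom x 1 1
            rw [mul_one] at h1
            rw [hc, zero_smul]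
            exact left_eq_add.1 h1
          · rw [hc, one_smul]
            exact ⟨σ, rfl⟩ }
    have hR : R = ⊤ := by
      by_contra hne
      obtain ⟨l, hl, hle⟩ := Submodule.exists_le_ker_of_lt_top R (lt_top_iff_ne_top.2 hne)
      have h1 : ∀ i, l (x i) = 0 := F.parK_key x l fun σ => hle ⟨σ, rfl⟩
      have h2 : (⊤ : Submodule (ZMod 2) (Fin r → ZMod 2)) ≤ LinearMap.ker l := by
        rw [← hs, Submodule.span_le]
        rintro _ ⟨i, rfl⟩
        exact h1 i
      exact hl (LinearMap.ker_eq_top.1 (top_le_iff.1 h2))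
    intro v
    have hv : v ∈ R := by
      rw [hR]
      trivial
    exact hv

end Frm

end Pool.Agent.H98.MF
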