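import Pool.Agent.H98.MF.Sys

/-!
# Project MK4 (MP_a3214d), block SYS-T: definitions for the switching theorem
-/

set_option autoImplicit false

open scoped BigOperators

namespace Pool.Agent.H98.MF

open Pool.Agent.H98.MK (sg)
open Pool.Agent.H98.ML (Dt Ext Wt)

/-- the vectors of the elements of least index span -/
def MSp {D : Dt} (w : Wt D) : Prop :=
  Submodule.span (ZMod 2) {v : D.V | ∃ g : Ext D, g ≠ 1 ∧ w.ind g = w.m ∧ g.v = v} = ⊤

namespace Sys

variable (F : Sys) {D : Dt}

/-- configurations of size at most `Y` satisfying the local conditions -/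
def Cf (w : Wt D) (Y : ℝ) (a : Fin F.m → D.V) (x : Ext D → Finset F.P) : Prop :=
  x 1 = ∅ ∧ F.Dj x ∧ (∏ g, (F.nm (x g) : ℝ) ^ w.wt g) ≤ Y ∧
    ∀ g, ∀ p ∈ x g, F.okp a (F.mV x) g.v p

open Classical in
/-- the sum of a function over all configurations -/
noncomputable def Sg (w : Wt D) (Θ : (Fin F.m → D.V) → (Ext D → Finset F.P) → ℝ) (Y : ℝ) : ℝ :=
  ∑ a : Fin F.m → D.V, ∑ x ∈ Fintype.piFinset (fun _ : Ext D => F.bx Y),
    if F.Cf w Y a x then Θ a x else 0

open Classical in
/-- the function of the configuration attached to a function of the types -/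
noncomputable def ofT (θ : (Fin F.m → D.V) → (D.V → F.T) → Finset D.V → ℝ)
    (a : Fin F.m → D.V) (x : Ext D → Finset F.P) : ℝ :=
  θ a (fun v => F.tys (F.mV x v)) (Finset.univ.filter fun v => (F.mV x v).Nonempty)

open Classical in
/-- the primes of the class of `g` -/
noncomputable def cU (g : Ext D) (x : Ext D → Finset F.P) : Finset F.P :=
  (Finset.univ.filter fun h => IsConj g h).biUnion x

open Classical in
/-- moving the prime `p` from `g` to `g'` -/
noncomputable def mv (x : Ext D → Finset F.P) (g g' : Ext D) (p : F.P) : Ext D → Finset F.P :=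
  fun h => if h = g then (x h).erase p else if h = g' then insert p (x h) else x h

/-- the primes of the class of `g` are orthogonal to `c` -/
def Pc (g : Ext D) (c : F.T) (x : Ext D → Finset F.P) : Prop := ∀ p ∈ F.cU g x, c ⬝ᵥ F.ty p = 0

/-- the function `ε` changes by the character `c` when a prime of the class of `g0` is moved
by the central element `z'` -/
structure Swi (θ : (Fin F.m → D.V) → (D.V → F.T) → Finset D.V → ℝ) (g0 : Ext D) (z' : D.Z)
    (c : F.T) (ε : (Fin F.m → D.V) → (Ext D → Finset F.P) → ℝ) : Prop where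
  bd : ∀ a x, |ε a x| ≤ 1
  mv : ∀ a x, x 1 = ∅ → F.Dj x → (∀ g, ∀ p ∈ x g, F.okp a (F.mV x) g.v p) →
    F.ofT θ a x ≠ 0 → ∀ g p, IsConj g0 g → p ∈ x g →
      ε a (F.mv x g ⟨g.v, g.z + z'⟩ p) = (sg (c ⬝ᵥ F.ty p) : ℤ) * ε a x

open Classical in
/-- the extra characters -/
noncomputable def Xi (g0 : Ext D) (c : F.T) (g : Ext D) : Finset F.T :=
  if IsConj g0 g then {0, c} else {0}

end Sys

end Pool.Agent.H98.MF
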