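import Pool.Agent.H98.MF.Frm
import Pool.Agent.H98.MF.TDefs

/-!
# Project MK4 (MP_a3214d): definitions for the master formula over a number field
-/

set_option autoImplicit false

open scoped BigOperators Pointwise
open NumberField IsDedekindDomain

namespace Pool.Agent.H98.MF

open Pool.Agent.H98.MK (sg)
open Pool.Agent.H98.ML (Dt Ext Wt norb hind)

section

variable {k : Type} [Field k] [NumberField k]

theorem chiM_hom (a : kˣ) (σ τ : Gm k) : chi (a : k) (σ * τ) = chi (a : k) σ + chi (a : k) τ := by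
  have hs := sq_sq (a : k)
  have hne : sq (a : k) ≠ 0 := by
    intro h0
    rw [h0] at hs
    have h1 : algebraMap k (Om k) (a : k) ≠ 0 := by
      rw [Ne, map_eq_zero_iff _ (algebraMap k (Om k)).injective]
      exact a.ne_zero
    apply h1
    rw [← hs]
    ring
  have hsg : ∀ ρ : Gm k, ρ (sq (a : k)) = sq (a : k) ∨ ρ (sq (a : k)) = - sq (a : k) := by
    intro ρ
    have h2 : ρ (sq (a : k)) ^ 2 = sq (a : k) ^ 2 := by
      rw [← map_pow, hs, AlgEquiv.commutes]
    exact sq_eq_sq_iff_eq_or_eq_neg.1 h2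
  have hneg : - sq (a : k) ≠ sq (a : k) := by
    intro h3
    exact hne (self_eq_neg.1 h3.symm)
  have h00 : ∀ ρ : Gm k, ρ (sq (a : k)) = sq (a : k) → chi (a : k) ρ = 0 := fun ρ h => if_pos h
  have h11 : ∀ ρ : Gm k, ρ (sq (a : k)) = - sq (a : k) → chi (a : k) ρ = 1 := fun ρ h =>
    if_neg (by rw [h]; exact hneg)
  rcases hsg σ with h1 | h1 <;> rcases hsg τ with h2 | h2
  · rw [h00 σ h1, h00 τ h2, h00 (σ * τ) (by rw [AlgEquiv.mul_apply, h2, h1]), add_zero]
  · rw [h00 σ h1, h11 τ h2, h11 (σ * τ) (by rw [AlgEquiv.mul_apply, h2, map_neg, h1]), zero_add]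
  · rw [h11 σ h1, h00 τ h2, h11 (σ * τ) (by rw [AlgEquiv.mul_apply, h2, h1]), add_zero]
  · rw [h11 σ h1, h11 τ h2, h00 (σ * τ) (by rw [AlgEquiv.mul_apply, h2, map_neg, h1, neg_neg])]
    rfl

theorem chiM_lc (a : k) : IsLocallyConstant (chi a) := by
  rw [IsLocallyConstant.iff_exists_open]
  intro σ
  have h1 : FiniteDimensional k (IntermediateField.adjoin k {sq a}) :=
    IntermediateField.adjoin.finiteDimensional (Algebra.IsIntegral.isIntegral _)
  refine ⟨σ • ((IntermediateField.adjoin k {sq a}).fixingSubgroup : Set (Gm k)), ?_, ?_, ?_⟩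
  · exact (IntermediateField.fixingSubgroup_isOpen _).smul σ
  · exact ⟨1, Subgroup.one_mem _, by simp⟩
  · rintro _ ⟨τ, hτ, rfl⟩
    have h2 : τ (sq a) = sq a := by
      have h3 := (IntermediateField.mem_fixingSubgroup_iff _ τ).1 hτ (sq a)
        (IntermediateField.mem_adjoin_simple_self k (sq a))
      exact h3
    have h4 : (σ * τ) (sq a) = σ (sq a) := by rw [AlgEquiv.mul_apply, h2]
    show chi a (σ * τ) = chi a σ
    unfold chi
    rw [h4]

end

namespace Frm

variable {k : Type} [Field k] [NumberField k] (F : Frm k)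

/-- the index set of the basis of `k^*` modulo squares -/
abbrev I : Type := Fin F.sys.m ⊕ F.sys.P

/-- the basis -/
def e : F.I → kˣ := Sum.elim F.u F.pi

/-- the homomorphism attached to parameters -/
noncomputable def par {r : ℕ} (x : F.I →₀ (Fin r → ZMod 2)) (σ : Gm k) : Fin r → ZMod 2 :=
  x.sum fun i v => chi (F.e i : k) σ • v

/-- the homomorphism attached to coordinates for the units -/
noncomputable def parU {r : ℕ} (z : Fin F.sys.m → (Fin r → ZMod 2)) (σ : Gm k) :
    Fin r → ZMod 2 := ∑ j, chi (F.u j : k) σ • z j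

/-- the homomorphism attached to coordinates for the complement -/
noncomputable def parW {r : ℕ} (z : Fin F.sys.m → (Fin r → ZMod 2)) (σ : Gm k) :
    Fin r → ZMod 2 := ∑ j, chi (F.w j : k) σ • z j

theorem par_hom {r : ℕ} (x : F.I →₀ (Fin r → ZMod 2)) (σ τ : Gm k) :
    F.par x (σ * τ) = F.par x σ + F.par x τ := by
  unfold par Finsupp.sum
  rw [← Finset.sum_add_distrib]
  refine Finset.sum_congr rfl fun i _ => ?_
  show chi (F.e i : k) (σ * τ) • x i = chi (F.e i : k) σ • x i + chi (F.e i : k) τ • x i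
  rw [chiM_hom, add_smul]

theorem par_lc {r : ℕ} (x : F.I →₀ (Fin r → ZMod 2)) : IsLocallyConstant (F.par x) := by
  unfold par Finsupp.sum
  induction x.support using Finset.induction_on with
  | empty => exact IsLocallyConstant.const (0 : Fin r → ZMod 2)
  | insert i s hi ih =>
    simp only [Finset.sum_insert hi]
    exact ((chiM_lc (F.e i : k)).comp fun c => c • x i).add ih

/-- a lift of `par x` to the group -/
structure IsLift (D : Dt) (x : F.I →₀ D.V) (f : Gm k → D.Z) : Prop where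
  lc : IsLocallyConstant f
  hom : ∀ σ τ, f (σ * τ) = f σ + f τ + D.β (F.par x σ) (F.par x τ)

variable {F}

/-- the homomorphism attached to a lift -/
noncomputable def lh {D : Dt} {x : F.I →₀ D.V} {f : Gm k → D.Z} (h : F.IsLift D x f) :
    Gm k →* Ext D :=
  MonoidHom.mk' (fun σ => ⟨F.par x σ, f σ⟩) (fun σ τ => by
    apply Ext.ext
    · exact F.par_hom x σ τ
    · exact h.hom σ τ)

theorem IsLift.add {D : Dt} {x : F.I →₀ D.V} {f : Gm k → D.Z} (h : F.IsLift D x f)
    (z : F.I →₀ D.Z) : F.IsLift D x (fun σ => f σ + F.par z σ) := by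
  refine ⟨?_, fun σ τ => ?_⟩
  · exact h.lc.add (F.par_lc z)
  · rw [h.hom, F.par_hom z σ τ]
    abel

variable (F)

/-- the local condition at a prime outside `S` -/
def okx (D : Dt) (x : F.I →₀ D.V) (p : F.sys.P) : Prop :=
  (x.sum fun i v => (Sum.elim (F.sys.ty p) (fun q => F.sys.J q p) i) • D.B v (x (Sum.inr p))) =
    F.sys.lam p • D.q (x (Sum.inr p))

/-- a local lift at a place -/
def LocL (D : Dt) (x : F.I →₀ D.V) (v : Pl k) : Prop :=
  ∃ f : Gm k → D.Z, IsLocallyConstant f ∧ ∀ σ ∈ DecP v, ∀ τ ∈ DecP v,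
    f (σ * τ) = f σ + f τ + D.β (F.par x σ) (F.par x τ)

/-- the local conditions for the existence of a lift -/
def Sol (D : Dt) (x : F.I →₀ D.V) : Prop :=
  (∀ p, F.okx D x p) ∧ ∀ v ∈ pls F.S, F.LocL D x v

/-- the parameters of a configuration -/
noncomputable def xOf {D : Dt} (a : Fin F.sys.m → D.V) (x : Ext D → Finset F.sys.P) :
    F.I →₀ D.V :=
  ∑ j, Finsupp.single (Sum.inl j) (a j) + ∑ g, ∑ p ∈ x g, Finsupp.single (Sum.inr p) g.v

/-- the twists of a configuration -/
noncomputable def zOf {D : Dt} (b : Fin F.sys.m → D.Z) (x : Ext D → Finset F.sys.P) :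
    F.I →₀ D.Z :=
  ∑ j, Finsupp.single (Sum.inl j) (b j) + ∑ g, ∑ p ∈ x g, Finsupp.single (Sum.inr p) g.z

open Classical in
/-- the primes with a given nonzero vector -/
noncomputable def mX {D : Dt} (x : F.I →₀ D.V) (v : D.V) : Finset F.sys.P :=
  if v = 0 then ∅ else
    (x.support.preimage Sum.inr Sum.inr_injective.injOn).filter fun p => x (Sum.inr p) = v

/-- the local data of parameters -/
def Dat {D : Dt} (x : F.I →₀ D.V) (a : Fin F.sys.m → D.V) (δ : D.V → F.sys.T) : Prop :=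
  (∀ j, x (Sum.inl j) = a j) ∧ ∀ v, F.sys.tys (F.mX x v) = δ v

/-- solvability at the places of `S` as a function of the local data -/
def solS (D : Dt) (a : Fin F.sys.m → D.V) (δ : D.V → F.sys.T) : Prop :=
  ∃ x : F.I →₀ D.V, F.Dat x a δ ∧ ∀ v ∈ pls F.S, F.LocL D x v

/-- `h` and `h'` agree at all places of `S` -/
def EqS {r : ℕ} (h h' : Gm k → (Fin r → ZMod 2)) : Prop :=
  ∀ v ∈ pls F.S, ∀ σ ∈ DecP v, h σ = h' σ

/-- the part of the relative discriminant at the primes of `S` -/
noncomputable def qS {D : Dt} (R : Rx k) (H0 : Subgroup (Ext D)) (ρ : Gm k →* Ext D) : ℕ :=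
  ∏ P ∈ F.S, nrm P ^ R.rex P (H0.comap ρ)

/-- a normalised lift -/
structure IsNormal (R : Rx k) (D : Dt) (x : F.I →₀ D.V) (f : Gm k → D.Z) : Prop
    extends F.IsLift D x f where
  nor : ∀ p, f (R.tau (F.pl p)) = 0

/-- a configuration admissible for the count -/
def Good (D : Dt) (a : Fin F.sys.m → D.V) (x : Ext D → Finset F.sys.P) : Prop :=
  x 1 = ∅ ∧ F.sys.Dj x ∧ (∀ g, ∀ p ∈ x g, F.sys.okp a (F.sys.mV x) g.v p) ∧
    Submodule.span (ZMod 2) (Set.range (F.xOf a x)) = ⊤ ∧
    F.solS D a (fun v => F.sys.tys (F.sys.mV x v))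

end Frm

end Pool.Agent.H98.MF
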