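import Pool.Agent.H98.MF.MDefs
import Pool.Agent.H98.MF.C.H0
import Pool.Agent.H98.MF.C.Val

/-!
# Project MK4 (MP_a3214d), row M5a: lifts and sums of cup products
-/

set_option autoImplicit false

open scoped BigOperators Pointwise
open NumberField IsDedekindDomain Filter

namespace Pool.Agent.H98.MF

open Pool.Agent.H98.MK (sg)
open Pool.Agent.H98.ML (Dt Ext Wt norb hind)

namespace LT

theorem add_self (a : ZMod 2) : a + a = 0 := by
  revert a; decide

theorem zero_or_one (a : ZMod 2) : a = 0 ∨ a = 1 := by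
  revert a; decide

/-- additive functions on products of powers -/
theorem map_prod {G : Type} [CommGroup G] (φ : G → ZMod 2) (hφ : ∀ a b, φ (a * b) = φ a + φ b)
    {ι : Type} (s : Finset ι) (a : ι → G) (c : ι → ZMod 2) :
    φ (∏ i ∈ s, a i ^ (c i).val) = ∑ i ∈ s, c i * φ (a i) := by
  classical
  have h1 : φ 1 = 0 := by
    have h2 := hφ 1 1
    rw [mul_one] at h2
    exact left_eq_add.1 h2
  have h3 : ∀ (b : G) (d : ZMod 2), φ (b ^ d.val) = d * φ b := by
    intro b d
    rcases zero_or_one d with rfl | rfl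
    · rw [ZMod.val_zero, pow_zero, h1, zero_mul]
    · rw [ZMod.val_one, pow_one, one_mul]
  induction s using Finset.induction_on with
  | empty => rw [Finset.prod_empty, Finset.sum_empty, h1]
  | insert i s hi ih => rw [Finset.prod_insert hi, Finset.sum_insert hi, hφ, h3, ih]

/-- bilinear maps in coordinates -/
theorem bil {r s : ℕ}
    (β : (Fin r → ZMod 2) →ₗ[ZMod 2] (Fin r → ZMod 2) →ₗ[ZMod 2] (Fin s → ZMod 2))
    (v w : Fin r → ZMod 2) (t : Fin s) :
    β v w t = ∑ i, v i * ∑ l, β (Pi.single i 1) (Pi.single l 1) t * w l := by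
  have h1 : ∀ u : Fin r → ZMod 2, u = ∑ i, u i • (Pi.single i 1 : Fin r → ZMod 2) := by
    intro u
    funext j
    rw [Finset.sum_apply, Finset.sum_eq_single j]
    · simp
    · intro b _ hb
      rw [Pi.smul_apply, Pi.single_eq_of_ne hb.symm, smul_zero]
    · intro h
      exact absurd (Finset.mem_univ j) h
  have h2 : β v w = ∑ i, v i • ∑ l, w l • β (Pi.single i 1) (Pi.single l 1) := by
    conv_lhs => rw [h1 v]
    rw [map_sum, LinearMap.sum_apply]
    refine Finset.sum_congr rfl fun i _ => ?_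
    rw [map_smul, LinearMap.smul_apply]
    congr 1
    conv_lhs => rw [h1 w]
    rw [map_sum]
    refine Finset.sum_congr rfl fun l _ => ?_
    rw [map_smul]
  rw [h2, Finset.sum_apply]
  refine Finset.sum_congr rfl fun i _ => ?_
  rw [Pi.smul_apply, Finset.sum_apply, smul_eq_mul]
  congr 1
  refine Finset.sum_congr rfl fun l _ => ?_
  rw [Pi.smul_apply, smul_eq_mul, mul_comm]

end LT

namespace Frm

variable {k : Type} [Field k] [NumberField k] (F : Frm k)

/-- the coordinates of parameters as elements of the field -/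
noncomputable def AA {r : ℕ} (x : F.I →₀ (Fin r → ZMod 2)) (i : Fin r) : kˣ :=
  x.prod fun j v => F.e j ^ (v i).val

/-- the second entries of the sums of cup products -/
noncomputable def BB (D : Dt) (x : F.I →₀ D.V) (s : Fin D.s) (i : Fin D.r) : kˣ :=
  ∏ l : Fin D.r, F.AA x l ^ (D.β (Pi.single i 1) (Pi.single l 1) s).val

theorem map_AA {r : ℕ} (x : F.I →₀ (Fin r → ZMod 2)) (i : Fin r) (φ : kˣ → ZMod 2)
    (hφ : ∀ a b, φ (a * b) = φ a + φ b) :
    φ (F.AA x i) = ∑ j ∈ x.support, x j i * φ (F.e j) := by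
  unfold AA Finsupp.prod
  exact LT.map_prod φ hφ _ _ _

theorem map_BB (D : Dt) (x : F.I →₀ D.V) (s : Fin D.s) (i : Fin D.r) (φ : kˣ → ZMod 2)
    (hφ : ∀ a b, φ (a * b) = φ a + φ b) :
    φ (F.BB D x s i) = ∑ l, D.β (Pi.single i 1) (Pi.single l 1) s * φ (F.AA x l) := by
  unfold BB
  exact LT.map_prod φ hφ _ _ _

theorem par_apply {r : ℕ} (x : F.I →₀ (Fin r → ZMod 2)) (σ : Gm k) (i : Fin r) :
    F.par x σ i = chi (F.AA x i : k) σ := by
  rw [F.map_AA x i (fun a : kˣ => chi (a : k) σ) fun a b => B.chi_mul_units a b σ]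
  unfold par Finsupp.sum
  rw [Finset.sum_apply]
  refine Finset.sum_congr rfl fun j _ => ?_
  show (chi (F.e j : k) σ • x j) i = x j i * chi (F.e j : k) σ
  rw [Pi.smul_apply, smul_eq_mul, mul_comm]

theorem beta_par (D : Dt) (x : F.I →₀ D.V) (s : Fin D.s) (σ τ : Gm k) :
    D.β (F.par x σ) (F.par x τ) s =
      ∑ i, chi (F.AA x i : k) σ * chi (F.BB D x s i : k) τ := by
  rw [LT.bil D.β]
  refine Finset.sum_congr rfl fun i _ => ?_
  rw [F.par_apply]
  congr 1
  rw [F.map_BB D x s i (fun a : kˣ => chi (a : k) τ) fun a b => B.chi_mul_units a b τ]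
  refine Finset.sum_congr rfl fun l _ => ?_
  rw [F.par_apply]

/-- lifts on a subgroup -/
theorem sub_iff (D : Dt) (x : F.I →₀ D.V) (H : Subgroup (Gm k)) :
    (∃ f : Gm k → D.Z, IsLocallyConstant f ∧ ∀ σ ∈ H, ∀ τ ∈ H,
      f (σ * τ) = f σ + f τ + D.β (F.par x σ) (F.par x τ)) ↔
    ∀ s, Triv H (fun i => (F.AA x i : k)) (fun i => (F.BB D x s i : k)) := by
  constructor
  · rintro ⟨f, hf, h⟩ s
    refine ⟨fun σ => f σ s, hf.comp fun z => z s, fun σ hσ τ hτ => ?_⟩
    have h1 := congrFun (h σ hσ τ hτ) s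
    rw [← F.beta_par]
    exact h1
  · intro h
    choose f hf h using h
    refine ⟨fun σ s => f s σ, ?_, fun σ hσ τ hτ => ?_⟩
    · rw [IsLocallyConstant.iff_eventually_eq]
      intro σ
      have h1 : ∀ s : Fin D.s, ∀ᶠ τ in nhds σ, f s τ = f s σ := fun s =>
        (IsLocallyConstant.iff_eventually_eq (f s)).1 (hf s) σ
      filter_upwards [Filter.eventually_all.2 h1] with τ hτ
      funext s
      exact hτ s
    · funext s
      show f s (σ * τ) = f s σ + f s τ + D.β (F.par x σ) (F.par x τ) s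
      rw [h s σ hσ τ hτ, F.beta_par]

theorem locL_iff (D : Dt) (x : F.I →₀ D.V) (v : Pl k) :
    F.LocL D x v ↔
      ∀ s, Triv (DecP v) (fun i => (F.AA x i : k)) (fun i => (F.BB D x s i : k)) :=
  F.sub_iff D x (DecP v)

theorem lift_iff (D : Dt) (x : F.I →₀ D.V) :
    (∃ f, F.IsLift D x f) ↔
      ∀ s, Triv ⊤ (fun i => (F.AA x i : k)) (fun i => (F.BB D x s i : k)) := by
  rw [← F.sub_iff D x ⊤]
  constructor
  · rintro ⟨f, hf⟩
    exact ⟨f, hf.lc, fun σ _ τ _ => hf.hom σ τ⟩
  · rintro ⟨f, hf, h⟩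
    exact ⟨f, hf, fun σ τ => h σ (Subgroup.mem_top _) τ (Subgroup.mem_top _)⟩

theorem IsLift.locL {D : Dt} {x : F.I →₀ D.V} {f : Gm k → D.Z} (h : F.IsLift D x f)
    (v : Pl k) : F.LocL D x v :=
  ⟨f, h.lc, fun σ _ τ _ => h.hom σ τ⟩

/-! ### the primes outside `S` -/

theorem pl_notMem (p : F.sys.P) : F.pl p ∉ F.S := (F.pl_iff (F.pl p)).1 ⟨p, rfl⟩

theorem ord_pl_two (p : F.sys.P) : ord (F.pl p) (2 : k) = 0 := by
  have h1 : 0 ≤ ord (F.pl p) (2 : k) := by
    have h2 := B.ord_alg_nonneg (F.pl p) (2 : 𝓞 k)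
    rwa [map_ofNat] at h2
  by_contra h3
  exact F.pl_notMem p (F.adm.two (F.pl p) (lt_of_le_of_ne h1 (Ne.symm h3)))

theorem ord_pl_u (p : F.sys.P) (j : Fin F.sys.m) : ord (F.pl p) (F.u j : k) = 0 :=
  B.mem_US.1 (F.u_mem j) _ (F.pl_notMem p)

/-- the weights of the basis at a prime -/
def wgt (p : F.sys.P) : F.I → ZMod 2 := Sum.elim (F.sys.ty p) (fun q => F.sys.J q p)

theorem ord_e (p : F.sys.P) (j : F.I) (hj : j ≠ Sum.inr p) : ord (F.pl p) (F.e j : k) = 0 := by
  rcases j with j | q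
  · exact F.ord_pl_u p j
  · have hq : p ≠ q := fun h => hj (by rw [h])
    exact F.pi_other q p hq

theorem hs_e (hL : LIn k) (p : F.sys.P) (j j' : F.I) (hj : j ≠ Sum.inr p) :
    hs (F.pl p) (F.e j : k) (F.e j' : k) = if j' = Sum.inr p then F.wgt p j else 0 := by
  rw [hL.unt (F.pl p) (F.ord_pl_two p) _ _ (F.ord_e p j hj)]
  split_ifs with h
  · subst h
    have h1 : ord (F.pl p) (F.e (Sum.inr p) : k) = 1 := F.pi_self p
    rw [h1, Int.cast_one, one_mul]
    rcases j with j | q
    · exact (F.ty_eq p j).symm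
    · have hq : q ≠ p := fun h => hj (by rw [h])
      exact (F.J_eq q p hq).symm
  · rw [F.ord_e p j' h, Int.cast_zero, zero_mul]

theorem hs_symm (hL : LIn k) (P : HeightOneSpectrum (𝓞 k)) (a b : kˣ) :
    hs P (a : k) (b : k) = hs P (b : k) (a : k) := hL.symm (Sum.inl P) a b

theorem hs_mulR (hL : LIn k) (P : HeightOneSpectrum (𝓞 k)) (a b c : kˣ) :
    hs P (a : k) ((b * c : kˣ) : k) = hs P (a : k) (b : k) + hs P (a : k) (c : k) :=
  hL.mulR (Sum.inl P) a b c

theorem hs_mulL (hL : LIn k) (P : HeightOneSpectrum (𝓞 k)) (a b c : kˣ) :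
    hs P ((a * b : kˣ) : k) (c : k) = hs P (a : k) (c : k) + hs P (b : k) (c : k) := by
  rw [hs_symm hL, hs_mulR hL, hs_symm hL P c a, hs_symm hL P c b]

theorem hs_pi_pi (hL : LIn k) (p : F.sys.P) :
    hs (F.pl p) (F.e (Sum.inr p) : k) (F.e (Sum.inr p) : k) = F.sys.lam p := by
  have h1 : hs (F.pl p) (F.e (Sum.inr p) : k) ((-F.e (Sum.inr p) : kˣ) : k) = 0 := by
    refine hL.nm (Sum.inl (F.pl p)) _ _ 0 1 ?_
    rw [Units.val_neg]
    ring
  have h2 : F.e (Sum.inr p) = (-1) * (-F.e (Sum.inr p)) := by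
    rw [neg_mul_neg, one_mul]
  have h3 : hs (F.pl p) (F.e (Sum.inr p) : k) (F.e (Sum.inr p) : k) =
      hs (F.pl p) (F.e (Sum.inr p) : k) ((((-1) * (-F.e (Sum.inr p)) : kˣ)) : k) := by
    rw [← h2]
  rw [h3, hs_mulR hL, h1, add_zero, hs_symm hL]
  have h4 : ord (F.pl p) (((-1 : kˣ)) : k) = 0 := by
    rw [Units.val_neg, Units.val_one]
    exact B.ord_neg_one _
  have h5 : ord (F.pl p) (F.e (Sum.inr p) : k) = 1 := F.pi_self p
  rw [hL.unt (F.pl p) (F.ord_pl_two p) _ _ h4, h5, Int.cast_one, one_mul, F.lam_eq,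
    Units.val_neg, Units.val_one]

/-- the sum of the symbols at a prime outside `S` -/
theorem sum_hs (hL : LIn k) (D : Dt) (x : F.I →₀ D.V) (p : F.sys.P) (s : Fin D.s) :
    ∑ i, hs (F.pl p) (F.AA x i : k) (F.BB D x s i : k) =
      ((x.sum fun i v => F.wgt p i • D.B v (x (Sum.inr p))) +
        F.sys.lam p • D.q (x (Sum.inr p))) s := by
  classical
  set P : F.I := Sum.inr p with hP
  set h : F.I → F.I → ZMod 2 := fun j j' => hs (F.pl p) (F.e j : k) (F.e j' : k) with hh
  have e1 : ∀ i, hs (F.pl p) (F.AA x i : k) (F.BB D x s i : k) =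
      ∑ j ∈ x.support, ∑ j' ∈ x.support,
        h j j' * (x j i * ∑ l, D.β (Pi.single i 1) (Pi.single l 1) s * x j' l) := by
    intro i
    rw [F.map_AA x i (fun a : kˣ => hs (F.pl p) (a : k) (F.BB D x s i : k))
      fun a b => hs_mulL hL (F.pl p) a b _]
    refine Finset.sum_congr rfl fun j _ => ?_
    rw [F.map_BB D x s i (fun a : kˣ => hs (F.pl p) (F.e j : k) (a : k))
      fun a b => hs_mulR hL (F.pl p) _ a b]
    have e2 : ∀ l, hs (F.pl p) (F.e j : k) (F.AA x l : k) =
        ∑ j' ∈ x.support, x j' l * h j j' := fun l =>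
      F.map_AA x l (fun a : kˣ => hs (F.pl p) (F.e j : k) (a : k))
        fun a b => hs_mulR hL (F.pl p) _ a b
    simp only [e2, Finset.mul_sum]
    rw [Finset.sum_comm]
    refine Finset.sum_congr rfl fun j' _ => ?_
    refine Finset.sum_congr rfl fun l _ => ?_
    ring
  have e3 : ∑ i, hs (F.pl p) (F.AA x i : k) (F.BB D x s i : k) =
      ∑ j ∈ x.support, ∑ j' ∈ x.support, h j j' * D.β (x j) (x j') s := by
    simp only [e1]
    rw [Finset.sum_comm]
    refine Finset.sum_congr rfl fun j _ => ?_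
    rw [Finset.sum_comm]
    refine Finset.sum_congr rfl fun j' _ => ?_
    rw [LT.bil D.β, Finset.mul_sum]
  have hne : ∀ j j', j ≠ P → h j j' = if j' = P then F.wgt p j else 0 := fun j j' hj =>
    F.hs_e hL p j j' hj
  have hsy : ∀ j j', h j j' = h j' j := fun j j' => hs_symm hL _ _ _
  have hPP : h P P = F.sys.lam p := F.hs_pi_pi hL p
  -- values of the symbols on the basis
  have e4 : ∀ j j', h j j' = (if j' = P then F.wgt p j else 0) + (if j = P then F.wgt p j' else 0) +
      (if j = P ∧ j' = P then F.sys.lam p else 0) := by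
    intro j j'
    by_cases hj : j = P
    · by_cases hj' : j' = P
      · rw [hj, hj', hPP]
        simp [LT.add_self]
      · rw [hsy, hne j' j hj', if_pos hj]
        simp [hj, hj']
    · rw [hne j j' hj]
      simp [hj]
  rw [e3]
  -- extension of the sums to `insert P x.support`
  set T : Finset F.I := insert P x.support with hT
  have hsub : x.support ⊆ T := Finset.subset_insert _ _
  have hz : ∀ j, j ∉ x.support → x j = 0 := fun j hj => Finsupp.notMem_support_iff.1 hj
  have hPT : P ∈ T := Finset.mem_insert_self _ _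
  have e5 : ∑ j ∈ x.support, ∑ j' ∈ x.support, h j j' * D.β (x j) (x j') s =
      ∑ j ∈ T, ∑ j' ∈ T, h j j' * D.β (x j) (x j') s := by
    rw [Finset.sum_subset hsub]
    · refine Finset.sum_congr rfl fun j _ => ?_
      refine Finset.sum_subset hsub fun j' _ hj' => ?_
      rw [hz j' hj', map_zero, Pi.zero_apply, mul_zero]
    · intro j _ hj
      refine Finset.sum_eq_zero fun j' _ => ?_
      rw [hz j hj, map_zero, LinearMap.zero_apply, Pi.zero_apply, mul_zero]
  have e6 : (x.sum fun i v => F.wgt p i • D.B v (x P)) =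
      ∑ j ∈ T, F.wgt p j • D.B (x j) (x P) := by
    unfold Finsupp.sum
    refine Finset.sum_subset hsub fun j _ hj => ?_
    show F.wgt p j • D.B (x j) (x P) = 0
    rw [hz j hj]
    unfold Pool.Agent.H98.ML.Dt.B
    rw [map_zero, LinearMap.zero_apply, map_zero, add_zero, smul_zero]
  rw [e5, e6]
  have e7 : ∀ j ∈ T, ∑ j' ∈ T, h j j' * D.β (x j) (x j') s =
      F.wgt p j * D.β (x j) (x P) s +
      (if j = P then ∑ j' ∈ T, F.wgt p j' * D.β (x P) (x j') s +
        F.sys.lam p * D.β (x P) (x P) s else 0) := by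
    intro j _
    have f1 : ∀ j' ∈ T, h j j' * D.β (x j) (x j') s =
        (if j' = P then F.wgt p j * D.β (x j) (x P) s else 0) +
        ((if j = P then F.wgt p j' * D.β (x P) (x j') s else 0) +
        (if j' = P then (if j = P then F.sys.lam p * D.β (x P) (x P) s else 0) else 0)) := by
      intro j' _
      rw [e4]
      by_cases h1 : j = P <;> by_cases h2 : j' = P <;> (simp [h1, h2]; try ring)
    rw [Finset.sum_congr rfl f1, Finset.sum_add_distrib, Finset.sum_add_distrib,
      Finset.sum_ite_eq' T P, Finset.sum_ite_eq' T P, if_pos hPT, if_pos hPT]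
    congr 1
    by_cases h1 : j = P
    · simp only [if_pos h1]
    · simp only [if_neg h1, Finset.sum_const_zero, add_zero]
  rw [Finset.sum_congr rfl e7, Finset.sum_add_distrib, Finset.sum_ite_eq' T P, if_pos hPT,
    Pi.add_apply, Finset.sum_apply, Pi.smul_apply, smul_eq_mul, ← add_assoc,
    ← Finset.sum_add_distrib]
  congr 1
  refine Finset.sum_congr rfl fun j _ => ?_
  rw [Pi.smul_apply, smul_eq_mul]
  unfold Pool.Agent.H98.ML.Dt.B
  rw [Pi.add_apply, mul_add]

theorem okx_iff (hL : LIn k) (D : Dt) (x : F.I →₀ D.V) (p : F.sys.P) :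
    F.okx D x p ↔ ∀ s, ∑ i, hs (F.pl p) (F.AA x i : k) (F.BB D x s i : k) = 0 := by
  have h1 : F.okx D x p ↔ (x.sum fun i v => F.wgt p i • D.B v (x (Sum.inr p))) =
      F.sys.lam p • D.q (x (Sum.inr p)) := Iff.rfl
  have h2 : ∀ a b : D.Z, a = b ↔ a + b = 0 := by
    intro a b
    constructor
    · rintro rfl
      funext i
      exact LT.add_self _
    · intro h
      funext i
      have h3 := congrFun h i
      rw [Pi.add_apply, Pi.zero_apply] at h3
      have h4 : ∀ c d : ZMod 2, c + d = 0 → c = d := by decide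
      exact h4 _ _ h3
  rw [h1, h2]
  constructor
  · intro h s
    rw [F.sum_hs hL, h, Pi.zero_apply]
  · intro h
    funext s
    rw [← F.sum_hs hL, h s, Pi.zero_apply]

end Frm

end Pool.Agent.H98.MF
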