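import Pool.Agent.H98.MF.MDefs

/-!
# Project MK4 (MP_a3214d): coordinates at the places of a frame
-/

set_option autoImplicit false

open scoped BigOperators Pointwise
open NumberField IsDedekindDomain Filter

namespace Pool.Agent.H98.MF

open Pool.Agent.H98.MK (sg)
open Pool.Agent.H98.ML (Dt Ext Wt norb hind)

namespace CrdAux

variable {k : Type} [Field k] [NumberField k]

theorem add_self (x : ZMod 2) : x + x = 0 := by
  revert x
  decide

theorem sq_ne (a : kˣ) : sq (a : k) ≠ 0 := by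
  intro h0
  have hs := sq_sq (a : k)
  rw [h0] at hs
  have h1 : algebraMap k (Om k) (a : k) ≠ 0 := by
    rw [Ne, map_eq_zero_iff _ (algebraMap k (Om k)).injective]
    exact a.ne_zero
  apply h1
  rw [← hs]
  ring

/-- a square root is fixed if and only if the chosen one is -/
theorem chi_of_sq (a : kˣ) (s : Om k) (hs : s ^ 2 = algebraMap k (Om k) (a : k)) (σ : Gm k) :
    (σ s = s ↔ chi (a : k) σ = 0) ∧ (σ s = -s ↔ chi (a : k) σ = 1) := by
  have hne := sq_ne a
  have h0 : (s = sq (a : k)) ∨ (s = - sq (a : k)) := by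
    rw [← sq_eq_sq_iff_eq_or_eq_neg, hs, sq_sq]
  have hsg : σ (sq (a : k)) = sq (a : k) ∨ σ (sq (a : k)) = - sq (a : k) := by
    rw [← sq_eq_sq_iff_eq_or_eq_neg, ← map_pow, sq_sq, AlgEquiv.commutes]
  have hneg : - sq (a : k) ≠ sq (a : k) := fun h3 => hne (self_eq_neg.1 h3.symm)
  have key : (σ (sq (a : k)) = sq (a : k) ∧ chi (a : k) σ = 0) ∨
      (σ (sq (a : k)) = - sq (a : k) ∧ chi (a : k) σ = 1) := by
    rcases hsg with h | h
    · exact Or.inl ⟨h, if_pos h⟩
    · exact Or.inr ⟨h, if_neg (by rw [h]; exact hneg)⟩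
  rcases h0 with rfl | rfl <;> rcases key with ⟨h1, h2⟩ | ⟨h1, h2⟩
  · rw [h1, h2]
    exact ⟨by simp, by simp [hneg.symm]⟩
  · rw [h1, h2]
    exact ⟨by simp [hneg], by simp⟩
  · rw [map_neg, h1, h2, neg_neg]
    exact ⟨by simp, by simp [hneg]⟩
  · rw [map_neg, h1, h2, neg_neg]
    exact ⟨by simp [hneg.symm], by simp⟩

theorem chi_cases (a : kˣ) (σ : Gm k) :
    (σ (sq (a : k)) = sq (a : k) ∧ chi (a : k) σ = 0) ∨
      (σ (sq (a : k)) = - sq (a : k) ∧ chi (a : k) σ = 1) := by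
  have h := chi_of_sq a (sq (a : k)) (sq_sq _) σ
  have h2 : ∀ x : ZMod 2, x = 0 ∨ x = 1 := by decide
  rcases h2 (chi (a : k) σ) with h3 | h3
  · exact Or.inl ⟨h.1.2 h3, h3⟩
  · exact Or.inr ⟨h.2.2 h3, h3⟩

theorem chi_mul (a b : kˣ) (σ : Gm k) :
    chi ((a * b : kˣ) : k) σ = chi (a : k) σ + chi (b : k) σ := by
  have hs : (sq (a : k) * sq (b : k)) ^ 2 = algebraMap k (Om k) ((a * b : kˣ) : k) := by
    rw [mul_pow, sq_sq, sq_sq, Units.val_mul, map_mul]
  have h := chi_of_sq (a * b) _ hs σ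
  rw [map_mul] at h
  rcases chi_cases a σ with ⟨h1, h2⟩ | ⟨h1, h2⟩ <;> rcases chi_cases b σ with ⟨h3, h4⟩ | ⟨h3, h4⟩
  · rw [h2, h4, add_zero]
    exact h.1.1 (by rw [h1, h3])
  · rw [h2, h4, zero_add]
    exact h.2.1 (by rw [h1, h3]; ring)
  · rw [h2, h4, add_zero]
    exact h.2.1 (by rw [h1, h3]; ring)
  · rw [h2, h4, add_self]
    exact h.1.1 (by rw [h1, h3]; ring)

theorem chi_one (σ : Gm k) : chi ((1 : kˣ) : k) σ = 0 := by
  have h := chi_mul (1 : kˣ) 1 σ
  rw [mul_one] at h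
  exact left_eq_add.1 h

/-- the character as a homomorphism in the first variable -/
noncomputable def chiH (σ : Gm k) : kˣ →* Multiplicative (ZMod 2) where
  toFun a := Multiplicative.ofAdd (chi (a : k) σ)
  map_one' := by rw [chi_one]; rfl
  map_mul' a b := by rw [chi_mul]; rfl

theorem chi_prod {m : ℕ} (u : Fin m → kˣ) (y : Fin m → ZMod 2) (σ : Gm k) :
    chi ((∏ j, u j ^ (y j).val : kˣ) : k) σ = ∑ j, chi (u j : k) σ * y j := by
  have h1 : Multiplicative.toAdd (chiH σ (∏ j, u j ^ (y j).val)) =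
      ∑ j, Multiplicative.toAdd (chiH σ (u j ^ (y j).val)) := by
    rw [map_prod, toAdd_prod]
  have h2 : chi ((∏ j, u j ^ (y j).val : kˣ) : k) σ =
      Multiplicative.toAdd (chiH σ (∏ j, u j ^ (y j).val)) := rfl
  rw [h2, h1]
  refine Finset.sum_congr rfl fun j _ => ?_
  rw [map_pow, toAdd_pow]
  show (y j).val • chi (u j : k) σ = _
  rw [nsmul_eq_mul, ZMod.natCast_val, ZMod.cast_id, mul_comm]

end CrdAux

namespace Frm

variable {k : Type} [Field k] [NumberField k] (F : Frm k)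

theorem crd_aux_U {r : ℕ} (z : Fin F.sys.m → (Fin r → ZMod 2)) (σ : Gm k) (i : Fin r) :
    F.parU z σ i = ∑ j, chi (F.u j : k) σ * z j i := by
  unfold parU
  rw [Finset.sum_apply]
  exact Finset.sum_congr rfl fun j _ => rfl

theorem crd_aux_W {r : ℕ} (z : Fin F.sys.m → (Fin r → ZMod 2)) (σ : Gm k) (i : Fin r) :
    F.parW z σ i = ∑ j, chi (F.w j : k) σ * z j i := by
  unfold parW
  rw [Finset.sum_apply]
  exact Finset.sum_congr rfl fun j _ => rfl

/-- local coordinates -/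
theorem crd_exists (hK : KIn k) {r : ℕ} (h : Gm k → (Fin r → ZMod 2)) (hlc : IsLocallyConstant h)
    (hh : ∀ v ∈ pls F.S, ∀ σ ∈ DecP v, ∀ τ ∈ DecP v, h (σ * τ) = h σ + h τ) :
    ∃ z e : Fin F.sys.m → (Fin r → ZMod 2),
      F.EqS h (fun σ => F.parU z σ + F.parW e σ) := by
  classical
  have h1 : ∀ (i : Fin r) (v : Pl k), ∃ c : kˣ, v ∈ pls F.S →
      ∀ σ ∈ DecP v, h σ i = chi (c : k) σ := by
    intro i v
    by_cases hv : v ∈ pls F.S
    · obtain ⟨c, hc⟩ := hK.two v (fun σ => h σ i) (hlc.comp fun x => x i)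
        (fun σ hσ τ hτ => by
          show h (σ * τ) i = h σ i + h τ i
          rw [hh v hv σ hσ τ hτ]
          rfl)
      exact ⟨c, fun _ => hc⟩
    · exact ⟨1, fun h => absurd h hv⟩
  choose c hc using h1
  have h2 : ∀ i : Fin r, ∃ y z : Fin F.sys.m → ZMod 2, ∀ v ∈ pls F.S, ∀ σ ∈ DecP v,
      h σ i = ∑ j, chi (F.u j : k) σ * y j + ∑ j, chi (F.w j : k) σ * z j := by
    intro i
    obtain ⟨y, z, hyz⟩ := F.gen (c i)
    refine ⟨y, z, fun v hv σ hσ => ?_⟩
    have h3 := (hK.one v _).2 (hyz v hv) σ hσ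
    rw [CrdAux.chi_mul, CrdAux.chi_mul, CrdAux.chi_prod, CrdAux.chi_prod, ← hc i v hv σ hσ,
      add_assoc] at h3
    have h4 := CrdAux.add_self (h σ i)
    exact (add_left_cancel (h3.trans h4.symm)).symm
  choose y z hyz using h2
  refine ⟨fun j i => y i j, fun j i => z i j, fun v hv σ hσ => ?_⟩
  funext i
  show h σ i = F.parU (fun j i => y i j) σ i + F.parW (fun j i => z i j) σ i
  rw [crd_aux_U, crd_aux_W]
  exact hyz i v hv σ hσ

theorem crd_unique (hK : KIn k) {r : ℕ} (z e z' e' : Fin F.sys.m → (Fin r → ZMod 2))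
    (h : F.EqS (fun σ => F.parU z σ + F.parW e σ) (fun σ => F.parU z' σ + F.parW e' σ)) :
    z = z' ∧ e = e' := by
  have key : ∀ i : Fin r, (fun j => z j i + z' j i) = 0 ∧ (fun j => e j i + e' j i) = 0 := by
    intro i
    refine F.ind _ _ fun v hv => (hK.one v _).1 fun σ hσ => ?_
    have h1 : F.parU z σ i + F.parW e σ i = F.parU z' σ i + F.parW e' σ i :=
      congrFun (h v hv σ hσ) i
    rw [crd_aux_U, crd_aux_U, crd_aux_W, crd_aux_W] at h1
    rw [CrdAux.chi_mul, CrdAux.chi_prod, CrdAux.chi_prod]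
    have h2 : ∑ j, chi (F.u j : k) σ * (z j i + z' j i) =
        ∑ j, chi (F.u j : k) σ * z j i + ∑ j, chi (F.u j : k) σ * z' j i := by
      rw [← Finset.sum_add_distrib]
      exact Finset.sum_congr rfl fun j _ => mul_add _ _ _
    have h3 : ∑ j, chi (F.w j : k) σ * (e j i + e' j i) =
        ∑ j, chi (F.w j : k) σ * e j i + ∑ j, chi (F.w j : k) σ * e' j i := by
      rw [← Finset.sum_add_distrib]
      exact Finset.sum_congr rfl fun j _ => mul_add _ _ _
    rw [h2, h3, add_add_add_comm, h1]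
    exact CrdAux.add_self _
  have h5 : ∀ x y : ZMod 2, x + y = 0 → x = y := by decide
  constructor
  · funext j i
    exact h5 _ _ (congrFun (key i).1 j)
  · funext j i
    exact h5 _ _ (congrFun (key i).2 j)

end Frm

end Pool.Agent.H98.MF
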