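import Pool.Agent.H98.MF.NLog

set_option autoImplicit false

open scoped BigOperators Pointwise NNReal nonZeroDivisors

namespace Pool.Agent.H98.MF

variable (S : Pre)

private lemma nprm_bound (κ C δ : ℝ) (hδ : 0 < δ)
    (h : ∀ X : ℝ, 1 ≤ X → |((S.idl X).card : ℝ) - κ * X| ≤ C * X ^ (1 - δ)) :
    ∀ X : ℝ, 1 ≤ X → ((S.idl X).card : ℝ) ≤ (κ + |C|) * X := by
  intro X hX
  have h1 := (abs_le.1 (h X hX)).2
  have h2 : X ^ (1 - δ) ≤ X := by
    calc X ^ (1 - δ) ≤ X ^ (1 : ℝ) := Real.rpow_le_rpow_of_exponent_le hX (by linarith)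
      _ = X := Real.rpow_one X
  have h3 : 0 ≤ X ^ (1 - δ) := Real.rpow_nonneg (by linarith) _
  have h4 : C * X ^ (1 - δ) ≤ |C| * X :=
    (mul_le_mul_of_nonneg_right (le_abs_self C) h3).trans
      (mul_le_mul_of_nonneg_left h2 (abs_nonneg C))
  nlinarith

private lemma nprm_log {a b y : ℝ} (ha : 0 < a) (h1 : a ≤ y) (h2 : y ≤ b) :
    |Real.log y| ≤ |Real.log a| + |Real.log b| := by
  have hy : 0 < y := ha.trans_le h1
  have h3 : Real.log a ≤ Real.log y := Real.log_le_log ha h1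
  have h4 : Real.log y ≤ Real.log b := Real.log_le_log hy h2
  rw [abs_le]
  constructor
  · have := neg_abs_le (Real.log a)
    have := abs_nonneg (Real.log b)
    linarith
  · have := le_abs_self (Real.log b)
    have := abs_nonneg (Real.log a)
    linarith

theorem prm0_pre (κ C δ : ℝ) (hκ : 0 < κ) (hδ : 0 < δ) (hδ1 : δ ≤ 1)
    (h : ∀ X : ℝ, 1 ≤ X → |((S.idl X).card : ℝ) - κ * X| ≤ C * X ^ (1 - δ)) :
    ∃ K : ℝ, ∀ s : ℝ, 1 < s → s ≤ 2 →
      |∑' p : S.P, (S.N p : ℝ) ^ (-s) - Real.log (1 / (s - 1))| ≤ K := by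
  have hC₀ := nprm_bound S κ C δ hδ h
  obtain ⟨K, hK⟩ := log_L S (κ + |C|) hC₀
  set D : ℝ := |2 * C / δ| with hD
  have hD0 : 0 ≤ D := abs_nonneg _
  refine ⟨K + (|Real.log (κ / (D + 1))| + |Real.log (2 * κ + D)|), fun s hs hs2 => ?_⟩
  obtain ⟨hpos, hlog⟩ := hK (fun _ => 1) (fun _ => by simp) s hs
  have hprod : ∀ f : S.P →₀ ℕ, (f.prod fun (_ : S.P) (n : ℕ) => (1 : ℝ) ^ n) = 1 := by
    intro f
    simp [Finsupp.prod]
  simp only [hprod, one_mul] at hpos hlog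
  set L : ℝ := ∑' f : S.P →₀ ℕ, (S.nf f : ℝ) ^ (-s) with hL
  have habel := abel_nf S (fun _ => 1) (fun _ => by simp) (κ + |C|) hC₀ κ C δ hδ hδ1
    (fun X hX => by simpa using h X hX) s hs hs2
  simp only [one_mul] at habel
  rw [← hL] at habel
  have hs1 : 0 < s - 1 := by linarith
  have habel2 : |L - κ * s / (s - 1)| ≤ D := habel.trans (le_abs_self _)
  obtain ⟨hlo, hhi⟩ := abs_le.1 habel2
  have e1 : (s - 1) * (κ * s / (s - 1)) = κ * s := by
    field_simp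
  have hL1 : 1 ≤ L := by
    have h1 := (summable_nf S (κ + |C|) hC₀ s hs).le_tsum 0
      (fun f _ => Real.rpow_nonneg (Nat.cast_nonneg _) _)
    have h2 : ((S.nf (0 : S.P →₀ ℕ) : ℕ) : ℝ) ^ (-s) = 1 := by
      have h3 : S.nf (0 : S.P →₀ ℕ) = 1 := by
        unfold Pre.nf
        rw [Finsupp.prod_zero_index]
      rw [h3, Nat.cast_one, Real.one_rpow]
    rw [h2] at h1
    exact h1
  have hup : (s - 1) * L ≤ 2 * κ + D := by
    have h1 : (s - 1) * L ≤ (s - 1) * (κ * s / (s - 1) + D) :=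
      mul_le_mul_of_nonneg_left (by linarith) hs1.le
    rw [mul_add, e1] at h1
    nlinarith
  have hlow : κ / (D + 1) ≤ (s - 1) * L := by
    have hD1 : 0 < D + 1 := by linarith
    rcases le_or_gt (κ / (D + 1)) (s - 1) with h1 | h1
    · nlinarith
    · have h2 : (s - 1) * (κ * s / (s - 1) - D) ≤ (s - 1) * L :=
        mul_le_mul_of_nonneg_left (by linarith) hs1.le
      rw [mul_sub, e1] at h2
      have h3 : κ / (D + 1) = κ - D * (κ / (D + 1)) := by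
        field_simp
        ring
      have h4 : D * (s - 1) ≤ D * (κ / (D + 1)) := mul_le_mul_of_nonneg_left h1.le hD0
      nlinarith
  have hfin := nprm_log (div_pos hκ (by linarith : 0 < D + 1)) hlow hup
  have e2 : Real.log ((s - 1) * L) = Real.log L - Real.log (1 / (s - 1)) := by
    rw [Real.log_mul hs1.ne' hpos.ne', one_div, Real.log_inv]
    ring
  rw [e2] at hfin
  have e3 : ∑' p : S.P, (S.N p : ℝ) ^ (-s) - Real.log (1 / (s - 1)) =
      -(Real.log L - ∑' p : S.P, (S.N p : ℝ) ^ (-s)) + (Real.log L - Real.log (1 / (s - 1))) := by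
    ring
  rw [e3]
  refine (abs_add_le _ _).trans ?_
  rw [abs_neg]
  exact add_le_add hlog hfin

theorem upper_pre (C₀ : ℝ) (hC₀ : ∀ X : ℝ, 1 ≤ X → ((S.idl X).card : ℝ) ≤ C₀ * X)
    (x : S.P → ℝ) (hx : ∀ p, |x p| ≤ 1) (C δ : ℝ) (hδ : 0 < δ) (hδ1 : δ ≤ 1)
    (h : ∀ X : ℝ, 1 ≤ X → |∑ f ∈ S.idl X, (f.prod fun p n => x p ^ n)| ≤ C * X ^ (1 - δ)) :
    ∃ K : ℝ, ∀ s : ℝ, 1 < s → s ≤ 2 → ∑' p : S.P, x p * (S.N p : ℝ) ^ (-s) ≤ K := by
  obtain ⟨K, hK⟩ := log_L S C₀ hC₀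
  refine ⟨K + Real.log (2 * C / δ), fun s hs hs2 => ?_⟩
  obtain ⟨hpos, hlog⟩ := hK x hx s hs
  have hχ : ∀ f : S.P →₀ ℕ, |f.prod fun p n => x p ^ n| ≤ 1 := by
    intro f
    unfold Finsupp.prod
    rw [Finset.abs_prod]
    refine Finset.prod_le_one (fun p _ => abs_nonneg _) (fun p _ => ?_)
    rw [abs_pow]
    exact pow_le_one₀ (abs_nonneg _) (hx p)
  have habel := abel_nf S (fun f => f.prod fun p n => x p ^ n) hχ C₀ hC₀ 0 C δ hδ hδ1
    (fun X hX => by simpa using h X hX) s hs hs2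
  simp only [zero_mul, zero_div, sub_zero] at habel
  have h1 : Real.log (∑' f : S.P →₀ ℕ, (f.prod fun p n => x p ^ n) * (S.nf f : ℝ) ^ (-s)) ≤
      Real.log (2 * C / δ) := Real.log_le_log hpos ((le_abs_self _).trans habel)
  have h2 := (abs_le.1 hlog).1
  linarith

end Pool.Agent.H98.MF
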