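import Pool.Agent.H98.MF.NCntA
import Pool.Agent.H98.MF.NPrm

set_option autoImplicit false

open scoped BigOperators Pointwise NNReal nonZeroDivisors
open NumberField IsDedekindDomain

namespace Pool.Agent.H98.MF

private theorem nf_add_single (A : Pre) (p : A.P) (g : A.P →₀ ℕ) :
    A.nf (g + Finsupp.single p 1) = A.nf g * A.N p := by
  classical
  have h1 : (Finsupp.single p 1).prod (fun p k => A.N p ^ k) = A.N p := by
    rw [Finsupp.prod_single_index (h := fun (p : A.P) (k : ℕ) => A.N p ^ k) (pow_zero _), pow_one]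
  have h2 : (g + Finsupp.single p 1).prod (fun p k => A.N p ^ k) =
      g.prod (fun p k => A.N p ^ k) * (Finsupp.single p 1).prod (fun p k => A.N p ^ k) :=
    Finsupp.prod_add_index' (fun a => pow_zero _) (fun a m n => pow_add _ _ _)
  rw [h1] at h2
  exact h2

private theorem idl_split (A B : Pre) (e : B.P ↪ A.P) (p : A.P) (hr : Set.range e = {p}ᶜ)
    (hN : ∀ b, A.N (e b) = B.N b) (X : ℝ) :
    (A.idl X).card = (B.idl X).card + (A.idl (X / A.N p)).card := by
  classical
  have hp : (0 : ℝ) < A.N p := by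
    have := A.one_le_N p
    exact_mod_cast this
  rw [← Finset.card_filter_add_card_filter_not (s := A.idl X) (fun f => f p = 0)]
  congr 1
  · symm
    refine Finset.card_bij (fun f _ => Finsupp.embDomain e f) ?_ ?_ ?_
    · intro f hf
      rw [Finset.mem_filter, Pre.mem_idl]
      rw [Pre.mem_idl] at hf
      constructor
      · have h1 : A.nf (Finsupp.embDomain e f) = B.nf f := by
          unfold Pre.nf
          rw [Finsupp.prod_embDomain]
          simp only [hN]
        rw [h1]; exact hf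
      · refine Finsupp.embDomain_notin_range _ _ _ ?_
        rw [hr]; simp
    · intro f _ g _ h
      exact Finsupp.embDomain_injective e h
    · intro f hf
      rw [Finset.mem_filter, Pre.mem_idl] at hf
      have hs : (↑f.support : Set A.P) ⊆ Set.range e := by
        intro q hq
        rw [hr, Set.mem_compl_iff, Set.mem_singleton_iff]
        rintro rfl
        exact (Finsupp.mem_support_iff.mp hq) hf.2
      have h2 := Finsupp.embDomain_comapDomain hs
      refine ⟨Finsupp.comapDomain e f e.injective.injOn, ?_, h2⟩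
      rw [Pre.mem_idl]
      have h1 : A.nf (Finsupp.embDomain e (Finsupp.comapDomain e f e.injective.injOn)) =
          B.nf (Finsupp.comapDomain e f e.injective.injOn) := by
        unfold Pre.nf
        rw [Finsupp.prod_embDomain]
        simp only [hN]
      rw [← h1, h2]
      exact hf.1
  · symm
    refine Finset.card_bij (fun g _ => g + Finsupp.single p 1) ?_ ?_ ?_
    · intro g hg
      rw [Pre.mem_idl, le_div_iff₀ hp] at hg
      rw [Finset.mem_filter, Pre.mem_idl, nf_add_single]
      refine ⟨by push_cast; exact hg, ?_⟩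
      simp
    · intro f _ g _ h
      exact add_right_cancel h
    · intro f hf
      rw [Finset.mem_filter, Pre.mem_idl] at hf
      have h1 : Finsupp.single p 1 ≤ f := by
        rw [Finsupp.single_le_iff]
        exact Nat.one_le_iff_ne_zero.mpr hf.2
      have h2 : f - Finsupp.single p 1 + Finsupp.single p 1 = f := tsub_add_cancel_of_le h1
      refine ⟨f - Finsupp.single p 1, ?_, h2⟩
      rw [Pre.mem_idl, le_div_iff₀ hp]
      have h3 := nf_add_single A p (f - Finsupp.single p 1)
      rw [h2] at h3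
      have h4 := hf.1
      rw [h3] at h4
      push_cast at h4
      exact h4

private theorem idl_lt_one (A : Pre) (X : ℝ) (hX : X < 1) : (A.idl X).card = 0 := by
  rw [Finset.card_eq_zero, Finset.eq_empty_iff_forall_notMem]
  intro f hf
  rw [Pre.mem_idl] at hf
  have h1 : (1 : ℝ) ≤ A.nf f := by exact_mod_cast A.nf_pos f
  linarith

private theorem cnt_step (A B : Pre) (e : B.P ↪ A.P) (p : A.P) (hr : Set.range e = {p}ᶜ)
    (hN : ∀ b, A.N (e b) = B.N b) (κ C θ : ℝ) (hκ : 0 < κ) (hC : 0 ≤ C) (hθ : 0 ≤ θ)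
    (h : ∀ X : ℝ, 1 ≤ X → |((A.idl X).card : ℝ) - κ * X| ≤ C * X ^ θ) :
    ∀ X : ℝ, 1 ≤ X → |((B.idl X).card : ℝ) - κ * (1 - 1 / A.N p) * X| ≤ (2 * C + κ) * X ^ θ := by
  intro X hX
  have hp : (1 : ℝ) ≤ A.N p := by
    have := A.one_le_N p
    exact_mod_cast this
  have hp0 : (0 : ℝ) < A.N p := by linarith
  have h1 := idl_split A B e p hr hN X
  have h2 : ((B.idl X).card : ℝ) = (A.idl X).card - (A.idl (X / A.N p)).card := by
    rw [h1]; push_cast; ring
  have h3 : ((B.idl X).card : ℝ) - κ * (1 - 1 / A.N p) * X =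
      (((A.idl X).card : ℝ) - κ * X) - (((A.idl (X / A.N p)).card : ℝ) - κ * (X / A.N p)) := by
    rw [h2]; ring
  have hXθ : (1 : ℝ) ≤ X ^ θ := Real.one_le_rpow hX hθ
  have h4 : |((A.idl (X / A.N p)).card : ℝ) - κ * (X / A.N p)| ≤ (C + κ) * X ^ θ := by
    by_cases hc : 1 ≤ X / A.N p
    · refine (h _ hc).trans ?_
      have h5 : X / A.N p ≤ X := div_le_self (by linarith) hp
      have h6 : (X / A.N p) ^ θ ≤ X ^ θ := Real.rpow_le_rpow (by linarith) h5 hθ
      nlinarith [mul_le_mul_of_nonneg_left h6 hC]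
    · have hc' : X / A.N p < 1 := not_le.mp hc
      rw [idl_lt_one A _ hc', Nat.cast_zero, zero_sub, abs_neg,
        abs_of_nonneg (by positivity)]
      nlinarith [mul_nonneg hC (by linarith : (0 : ℝ) ≤ X ^ θ)]
  rw [h3]
  refine (abs_sub _ _).trans ?_
  nlinarith [h X hX]

variable {k : Type} [Field k] [NumberField k]

private theorem dim_ge_one : (1 : ℝ) ≤ (Module.finrank ℚ k : ℝ) := by
  have h : 0 < Module.finrank ℚ k := Module.finrank_pos
  exact_mod_cast h

private theorem exp_nonneg' : 0 ≤ 1 - 1 / (Module.finrank ℚ k : ℝ) := by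
  have h := dim_ge_one (k := k)
  have h1 : 1 / (Module.finrank ℚ k : ℝ) ≤ 1 := by
    rw [div_le_one (by linarith)]; exact h
  linarith

theorem cnt_S (S : Finset (HeightOneSpectrum (𝓞 k))) :
    ∃ κ : ℝ, 0 < κ ∧ ∃ C : ℝ, 0 ≤ C ∧ ∀ X : ℝ, 1 ≤ X →
    |(((preK S).idl X).card : ℝ) - κ * X| ≤ C * X ^ (1 - 1 / (Module.finrank ℚ k : ℝ)) := by
  classical
  induction S using Finset.induction_on with
  | empty => exact cnt_all
  | insert Q S hQ ih =>
    obtain ⟨κ, hκ, C, hC, h⟩ := ih
    have hN2 : (2 : ℝ) ≤ (preK S).N ⟨Q, hQ⟩ := by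
      have := (preK S).two_le ⟨Q, hQ⟩
      exact_mod_cast this
    have h1 : 1 / ((preK S).N ⟨Q, hQ⟩ : ℝ) ≤ 1 / 2 :=
      one_div_le_one_div_of_le (by norm_num) hN2
    refine ⟨κ * (1 - 1 / ((preK S).N ⟨Q, hQ⟩ : ℝ)), mul_pos hκ (by linarith), 2 * C + κ,
      by linarith, ?_⟩
    let e : (preK (insert Q S)).P ↪ (preK S).P :=
      ⟨fun R => ⟨R.1, fun hR => R.2 (Finset.mem_insert_of_mem hR)⟩, by
        intro R R' hRR
        have h2 := congrArg (fun z : (preK S).P => z.1) hRR
        exact Subtype.ext h2⟩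
    refine cnt_step (preK S) (preK (insert Q S)) e ⟨Q, hQ⟩ ?_ (fun b => rfl) κ C _ hκ hC
      exp_nonneg' h
    ext R
    constructor
    · rintro ⟨R', rfl⟩
      rw [Set.mem_compl_iff, Set.mem_singleton_iff]
      intro h2
      have h3 : R'.1 = Q := congrArg Subtype.val h2
      exact R'.2 (by rw [h3]; exact Finset.mem_insert_self _ _)
    · intro h2
      rw [Set.mem_compl_iff, Set.mem_singleton_iff] at h2
      refine ⟨⟨R.1, ?_⟩, rfl⟩
      rw [Finset.mem_insert, not_or]
      exact ⟨fun h3 => h2 (Subtype.ext h3), R.2⟩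

theorem prm0_S (S : Finset (HeightOneSpectrum (𝓞 k))) :
    ∃ K : ℝ, ∀ s : ℝ, 1 < s → s ≤ 2 →
      |∑' p : (preK S).P, ((preK S).N p : ℝ) ^ (-s) - Real.log (1 / (s - 1))| ≤ K := by
  obtain ⟨κ, hκ, C, -, h⟩ := cnt_S (k := k) S
  have h1 := dim_ge_one (k := k)
  refine prm0_pre (preK S) κ C (1 / (Module.finrank ℚ k : ℝ)) hκ (by positivity) ?_ h
  rw [div_le_one (by linarith)]
  exact h1

end Pool.Agent.H98.MF
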