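import Pool.Agent.H98.MF.NChi
import Pool.Agent.H98.MF.NCntS
import Pool.Agent.H98.MF.NPrm
import Pool.Agent.H98.MF.C.Bas
import Pool.Agent.H98.MF.L.Sqr

/-!
# Project MK4 (MP_a3214d), block N: functionals killing the `S`-units
-/

set_option autoImplicit false

open scoped BigOperators Pointwise NNReal nonZeroDivisors
open NumberField IsDedekindDomain

namespace Pool.Agent.H98.MF

open Pool.Agent.H98.MK (sg)

variable {k : Type} [Field k] [NumberField k]

private theorem npsi_expand (S : Finset (HeightOneSpectrum (𝓞 k))) (hS : PrS S)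
    (ψ : kˣ →* Multiplicative (ZMod 2)) (hψ : Fnl S ψ) (x : kˣ)
    (T : Finset (HeightOneSpectrum (𝓞 k))) (hT : ∀ Q, Q ∉ S → Q ∉ T → ord Q (x : k) = 0)
    (hTS : ∀ Q ∈ T, Q ∉ S) :
    val2 ψ x = ∑ Q ∈ T, ((ord Q (x : k) : ℤ) : ZMod 2) * val2 ψ (gen S Q) := by
  have h1 := hψ.unit _ (B.exists_unit_mul hS x T hT hTS)
  rw [map_mul, map_inv, map_prod] at h1
  have h2 : ψ x = ∏ Q ∈ T, ψ (gen S Q ^ (ord Q (x : k))) := by
    rw [mul_inv_eq_one] at h1
    exact h1
  unfold val2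
  rw [h2, toAdd_prod]
  refine Finset.sum_congr rfl fun Q _ => ?_
  rw [map_zpow, toAdd_zpow, zsmul_eq_mul]

private theorem npsi_expand' (S : Finset (HeightOneSpectrum (𝓞 k))) (hS : PrS S)
    (ψ : kˣ →* Multiplicative (ZMod 2)) (hψ : Fnl S ψ) (x : kˣ) :
    val2 ψ x = ∑ᶠ Q : (preK S).P, ((ord Q.1 (x : k) : ℤ) : ZMod 2) * val2 ψ (gen S Q.1) := by
  classical
  set T0 := (B.ord_finite (x : k) x.ne_zero).toFinset with hT0
  have h0 : ∀ Q, Q ∈ T0 ↔ ord Q (x : k) ≠ 0 := fun Q => by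
    rw [hT0, Set.Finite.mem_toFinset]
    exact Iff.rfl
  rw [npsi_expand S hS ψ hψ x (T0.filter fun Q => Q ∉ S)
    (fun Q hQ hQT => by
      by_contra h
      exact hQT (Finset.mem_filter.2 ⟨(h0 Q).2 h, hQ⟩))
    (fun Q hQ => (Finset.mem_filter.1 hQ).2)]
  have h1 := Finset.sum_subtype_eq_sum_filter (s := T0) (p := fun Q => Q ∉ S)
    (fun Q => ((ord Q (x : k) : ℤ) : ZMod 2) * val2 ψ (gen S Q))
  rw [← h1]
  symm
  refine finsum_eq_sum_of_support_subset _ ?_
  intro Q hQ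
  refine Finset.mem_coe.2 (Finset.mem_subtype.2 ((h0 Q.1).2 fun h => ?_))
  rw [Function.mem_support] at hQ
  apply hQ
  rw [h]
  simp

/-- near `1` everything is a local square at the primes of `S` -/
theorem Fnl_loc (S : Finset (HeightOneSpectrum (𝓞 k))) (hS : PrS S)
    (ψ : kˣ →* Multiplicative (ZMod 2)) (hψ : Fnl S ψ) :
    ∃ n : ℕ, Loc S n ∅ (fun Q : (preK S).P => val2 ψ (gen S Q.1)) := by
  classical
  refine ⟨∑ Q ∈ S, (2 * ord Q (2 : k) + 1).toNat, ?_⟩
  intro γ hγ hpos hloc _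
  set g : kˣ := Units.mk0 γ hγ with hg
  have hK : g ∈ KS S := by
    refine B.mem_KS.2 fun v hv => ?_
    rcases v with Q | φ
    · have hQ := B.inl_mem_pls.1 hv
      refine Subgroup.subset_closure ?_
      show LocSq Q γ
      refine locSq_of_prec Q 1 ?_
      rw [one_pow, mul_one]
      rcases hloc Q hQ with h | h
      · exact Or.inl h
      · right
        refine le_trans ((Int.self_le_toNat _).trans ?_) h
        exact_mod_cast Finset.single_le_sum
          (f := fun Q : HeightOneSpectrum (𝓞 k) => (2 * ord Q (2 : k) + 1).toNat)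
          (fun Q _ => Nat.zero_le _) hQ
    · exact Subgroup.subset_closure (hpos φ)
  have h1 : val2 ψ g = 0 := by
    unfold val2
    rw [hψ.loc g hK]
    rfl
  rw [npsi_expand' S hS ψ hψ g] at h1
  rw [← h1]
  refine finsum_congr fun Q => ?_
  rw [if_neg (Finset.notMem_empty Q)]
  rfl

/-- N2 of the plan -/
theorem Fnl_upper (S : Finset (HeightOneSpectrum (𝓞 k))) (hS : PrS S)
    (ψ : kˣ →* Multiplicative (ZMod 2)) (hψ : Fnl S ψ) (hne : ψ ≠ 1) :
    ∃ K : ℝ, ∀ s : ℝ, 1 < s → s ≤ 2 →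
      ∑' Q : (preK S).P, (if val2 ψ (gen S Q.1) = 0 then (1 : ℝ) else -1) *
        (nrm Q.1 : ℝ) ^ (-s) ≤ K := by
  classical
  obtain ⟨n, hn⟩ := Fnl_loc S hS ψ hψ
  obtain ⟨C, A, hC, hA, hchi⟩ := chi_bound S hS n
  set g : (preK S).P → ZMod 2 := fun Q => val2 ψ (gen S Q.1) with hg
  have hex : ∃ p : (preK S).P, p ∉ (∅ : Finset (preK S).P) ∧ g p ≠ 0 := by
    by_contra hcon
    push Not at hcon
    apply hne
    refine MonoidHom.ext fun x => ?_
    have h1 := npsi_expand' S hS ψ hψ x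
    have h2 : ∀ Q : (preK S).P, ((ord Q.1 (x : k) : ℤ) : ZMod 2) * val2 ψ (gen S Q.1) = 0 := by
      intro Q
      have h3 : val2 ψ (gen S Q.1) = 0 := hcon Q (Finset.notMem_empty Q)
      rw [h3, mul_zero]
    rw [finsum_congr h2, finsum_zero] at h1
    exact h1
  have hb := hchi ∅ g hn hex
  obtain ⟨κ, hκ, C', hC', hcnt⟩ := cnt_S S
  have hd : (0 : ℝ) < Module.finrank ℚ k := by exact_mod_cast Module.finrank_pos
  have hd1 : (1 : ℝ) ≤ Module.finrank ℚ k := by exact_mod_cast Module.finrank_pos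
  have hδ0 : 0 < 1 / (Module.finrank ℚ k : ℝ) := by positivity
  have hδ1 : 1 / (Module.finrank ℚ k : ℝ) ≤ 1 := by
    rw [div_le_one hd]
    exact hd1
  have hC0 : ∀ X : ℝ, 1 ≤ X → (((preK S).idl X).card : ℝ) ≤ (κ + C') * X := by
    intro X hX
    have h1 := (abs_le.1 (hcnt X hX)).2
    have h2 : X ^ (1 - 1 / (Module.finrank ℚ k : ℝ)) ≤ X := by
      have h3 : X ^ (1 - 1 / (Module.finrank ℚ k : ℝ)) ≤ X ^ (1 : ℝ) :=
        Real.rpow_le_rpow_of_exponent_le hX (by linarith)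
      rwa [Real.rpow_one] at h3
    have h4 := mul_le_mul_of_nonneg_left h2 hC'
    linarith
  have hchp : ∀ p : (preK S).P, (preK S).chp ∅ g p = sg (g p) := by
    intro p
    unfold Pre.chp
    rw [if_neg (Finset.notMem_empty p)]
  have hx : ∀ p : (preK S).P, |(((preK S).chp ∅ g p : ℤ) : ℝ)| ≤ 1 := by
    intro p
    rw [hchp p]
    unfold sg
    split_ifs <;> simp
  obtain ⟨K, hK⟩ := upper_pre (preK S) (κ + C') hC0
    (fun p => (((preK S).chp ∅ g p : ℤ) : ℝ)) hx C (1 / (Module.finrank ℚ k : ℝ)) hδ0 hδ1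
    (by
      intro X hX
      have h1 := hb X hX
      have h2 : ((preK S).nm (∅ : Finset (preK S).P) : ℝ) = 1 := by
        unfold Pre.nm
        simp
      rw [h2, Real.one_rpow, mul_one] at h1
      refine le_of_eq_of_le ?_ h1
      congr 1
      refine Finset.sum_congr rfl fun f _ => ?_
      rw [chv_eq_prod]
      unfold Finsupp.prod
      push_cast
      rfl)
  refine ⟨K, fun s hs1 hs2 => ?_⟩
  refine le_of_eq_of_le (tsum_congr fun Q => ?_) (hK s hs1 hs2)
  rw [hchp Q]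
  have h1 : (nrm Q.1 : ℝ) = ((preK S).N Q : ℝ) := rfl
  rw [h1]
  congr 1
  unfold sg
  by_cases h : g Q = 0
  · have h' : val2 ψ (gen S Q.1) = 0 := h
    rw [if_pos h', if_pos h]
    simp
  · have h' : ¬ val2 ψ (gen S Q.1) = 0 := h
    rw [if_neg h', if_neg h]
    simp

end Pool.Agent.H98.MF
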