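import Pool.Agent.H98.MF.NSplA

/-!
# Project MK4 (MP_a3214d), block N: the split primes of a quadratic extension have density one half
-/

set_option autoImplicit false

open scoped BigOperators Pointwise NNReal nonZeroDivisors
open NumberField IsDedekindDomain

namespace Pool.Agent.H98.MF

variable {k : Type} [Field k] [NumberField k]

theorem nsb_locSq_mul (P : HeightOneSpectrum (𝓞 k)) (a m : k) (hm : m ≠ 0) :
    LocSq P (a * m ^ 2) ↔ LocSq P a := by
  constructor
  · intro h n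
    obtain ⟨c, hc⟩ := h n
    refine ⟨m * c, ?_⟩
    have e : a * (m * c) ^ 2 = a * m ^ 2 * c ^ 2 := by ring
    rw [e]
    exact hc
  · intro h n
    obtain ⟨c, hc⟩ := h n
    refine ⟨c / m, ?_⟩
    have e : a * m ^ 2 * (c / m) ^ 2 = a * c ^ 2 := by field_simp
    rw [e]
    exact hc

/-- the sum over the split primes as an indicator sum -/
theorem nsb_ind (a : k) (s : ℝ) :
    ∑' Q : {Q : HeightOneSpectrum (𝓞 k) // LocSq Q a}, (nrm Q.1 : ℝ) ^ (-s) =
      ∑' Q : HeightOneSpectrum (𝓞 k),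
        {Q : HeightOneSpectrum (𝓞 k) | LocSq Q a}.indicator (fun Q => (nrm Q : ℝ) ^ (-s)) Q :=
  tsum_subtype {Q : HeightOneSpectrum (𝓞 k) | LocSq Q a} fun Q => (nrm Q : ℝ) ^ (-s)

theorem nsb_int (b : 𝓞 k) (hns : ¬ IsSquare (b : k)) :
    ∃ K : ℝ, ∀ s : ℝ, 1 < s → s ≤ 2 →
      |∑' Q : {Q : HeightOneSpectrum (𝓞 k) // LocSq Q (b : k)}, (nrm Q.1 : ℝ) ^ (-s) -
        1 / 2 * Real.log (1 / (s - 1))| ≤ K := by
  classical
  set f : Polynomial k := Polynomial.X ^ 2 - Polynomial.C (b : k) with hf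
  have hdeg : f.natDegree = 2 := Polynomial.natDegree_X_pow_sub_C
  have hirr : Irreducible f := by
    refine Polynomial.irreducible_of_degree_le_three_of_not_isRoot ?_ fun x hx => hns ⟨x, ?_⟩
    · rw [hdeg]
      decide
    · rw [Polynomial.IsRoot.def, hf] at hx
      simp only [Polynomial.eval_sub, Polynomial.eval_pow, Polynomial.eval_X,
        Polynomial.eval_C] at hx
      rw [← pow_two]
      exact (sub_eq_zero.1 hx).symm
  have : Fact (Irreducible f) := ⟨hirr⟩
  have hfin : Module.Finite k (AdjoinRoot f) := (AdjoinRoot.powerBasis hirr.ne_zero).finite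
  have : NumberField (AdjoinRoot f) := NumberField.of_module_finite k (AdjoinRoot f)
  have hrank : Module.finrank k (AdjoinRoot f) = 2 := by
    rw [(AdjoinRoot.powerBasis hirr.ne_zero).finrank, AdjoinRoot.powerBasis_dim, hdeg]
  have hroot : (AdjoinRoot.root f) ^ 2 = algebraMap k (AdjoinRoot f) (b : k) := by
    have h1 := AdjoinRoot.eval₂_root f
    rw [hf] at h1
    simp only [Polynomial.eval₂_sub, Polynomial.eval₂_pow, Polynomial.eval₂_X,
      Polynomial.eval₂_C] at h1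
    exact sub_eq_zero.1 h1
  have hint : IsIntegral ℤ (AdjoinRoot.root f) := by
    refine IsIntegral.of_pow (n := 2) (by norm_num) ?_
    rw [hroot]
    exact (RingOfIntegers.isIntegral_coe b).algebraMap
  set w : 𝓞 (AdjoinRoot f) := ⟨AdjoinRoot.root f, hint⟩ with hw
  have hw2 : w ^ 2 = algebraMap (𝓞 k) (𝓞 (AdjoinRoot f)) b := by
    apply RingOfIntegers.ext
    exact hroot
  obtain ⟨K1, h1⟩ := quad_compare (AdjoinRoot f) hrank b w hw2 hns
  obtain ⟨K2, h2⟩ := prm0_k (k := AdjoinRoot f)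
  refine ⟨(K1 + K2) / 2, fun s hs hs2 => ?_⟩
  have e1 := abs_le.1 (h1 s hs hs2)
  have e2 := abs_le.1 (h2 s hs hs2)
  rw [abs_le]
  constructor <;> linarith [e1.1, e1.2, e2.1, e2.2]

/-- N4 of the plan -/
theorem split_sum (a : k) (ha : a ≠ 0) (hns : ¬ IsSquare a) :
    ∃ K : ℝ, ∀ s : ℝ, 1 < s → s ≤ 2 →
      |∑' Q : {Q : HeightOneSpectrum (𝓞 k) // LocSq Q a}, (nrm Q.1 : ℝ) ^ (-s) -
        1 / 2 * Real.log (1 / (s - 1))| ≤ K := by
  obtain ⟨x, y, hy, hxy⟩ := IsFractionRing.div_surjective (A := 𝓞 k) a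
  have hy0 : (y : k) ≠ 0 := by
    rw [Ne, RingOfIntegers.coe_eq_zero_iff]
    exact nonZeroDivisors.ne_zero hy
  have hb : ((x * y : 𝓞 k) : k) = a * (y : k) ^ 2 := by
    rw [← hxy]
    show algebraMap (𝓞 k) k (x * y) = _
    rw [map_mul]
    field_simp
  have hnb : ¬ IsSquare ((x * y : 𝓞 k) : k) := by
    rintro ⟨c, hc⟩
    refine hns ⟨c / y, ?_⟩
    rw [hb] at hc
    field_simp
    rw [pow_two c, ← hc]
  obtain ⟨K, hK⟩ := nsb_int (x * y) hnb
  refine ⟨K, fun s hs hs2 => ?_⟩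
  have h1 := hK s hs hs2
  rw [nsb_ind] at h1 ⊢
  have h2 : {Q : HeightOneSpectrum (𝓞 k) | LocSq Q a} =
      {Q : HeightOneSpectrum (𝓞 k) | LocSq Q ((x * y : 𝓞 k) : k)} := by
    ext Q
    rw [Set.mem_ofPred_eq, Set.mem_ofPred_eq, hb, nsb_locSq_mul Q a _ hy0]
  rw [h2]
  exact h1

open Classical in
/-- the axiom `prm` of `Sys` -/
theorem prm_S (S : Finset (HeightOneSpectrum (𝓞 k))) (y : Finset (preK S).P) (a : k)
    (ha : a ≠ 0) (hns : ¬ IsSquare a) :
    ∃ K : ℝ, ∀ s : ℝ, 1 < s → s ≤ 2 →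
      |∑' p : (preK S).P, (if p ∈ y then (0 : ℝ) else if LocSq p.1 a then 1 else -1) *
        ((preK S).N p : ℝ) ^ (-s)| ≤ K := by
  obtain ⟨K1, h1⟩ := split_sum a ha hns
  obtain ⟨K2, h2⟩ := prm0_k (k := k)
  set T : Finset (HeightOneSpectrum (𝓞 k)) := S ∪ y.image (fun p => p.1) with hT
  refine ⟨2 * K1 + K2 + T.card, fun s hs hs2 => ?_⟩
  have hsm := summable_nrm (k := k) s hs
  set A : Set (HeightOneSpectrum (𝓞 k)) := {Q | LocSq Q a} with hA
  set N : HeightOneSpectrum (𝓞 k) → ℝ := fun Q => (nrm Q : ℝ) ^ (-s) with hN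
  have hN0 : ∀ Q, 0 ≤ N Q := fun Q => Real.rpow_nonneg (Nat.cast_nonneg _) _
  have hN1 : ∀ Q, N Q ≤ 1 := fun Q => by
    have h3 : (1 : ℝ) ≤ (nrm Q : ℝ) := by
      have := two_le_absNorm Q
      have h4 : 1 ≤ nrm Q := by
        unfold nrm
        omega
      exact_mod_cast h4
    exact Real.rpow_le_one_of_one_le_of_nonpos h3 (by linarith)
  have e1 := abs_le.1 (h1 s hs hs2)
  have e2 := abs_le.1 (h2 s hs hs2)
  rw [nsb_ind] at e1
  set F : HeightOneSpectrum (𝓞 k) → ℝ := fun Q => 2 * A.indicator N Q - N Q with hF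
  have hsmA : Summable (A.indicator N) := hsm.indicator A
  have hsmF : Summable F := (hsmA.mul_left 2).sub hsm
  have hFval : ∀ Q, F Q = (if LocSq Q a then (1 : ℝ) else -1) * N Q := by
    intro Q
    by_cases hQ : Q ∈ A
    · have hQ' : LocSq Q a := hQ
      rw [if_pos hQ', hF]
      simp only
      rw [Set.indicator_of_mem hQ]
      ring
    · have hQ' : ¬ LocSq Q a := hQ
      rw [if_neg hQ', hF]
      simp only
      rw [Set.indicator_of_notMem hQ]
      ring
  have hFabs : ∀ Q, |F Q| ≤ 1 := by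
    intro Q
    rw [hFval, abs_mul, abs_of_nonneg (hN0 Q)]
    have h3 : |(if LocSq Q a then (1 : ℝ) else -1)| = 1 := by split_ifs <;> simp
    rw [h3, one_mul]
    exact hN1 Q
  have hFsum : ∑' Q, F Q = 2 * ∑' Q, A.indicator N Q - ∑' Q, N Q := by
    rw [hF, (hsmA.mul_left 2).tsum_sub hsm, tsum_mul_left]
  have hmain : ∑' p : (preK S).P, (if p ∈ y then (0 : ℝ) else if LocSq p.1 a then 1 else -1) *
        ((preK S).N p : ℝ) ^ (-s) = ∑' Q, F Q - ∑ Q ∈ T, F Q := by
    have h3 : ∑' p : (preK S).P, (if p ∈ y then (0 : ℝ) else if LocSq p.1 a then 1 else -1) *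
        ((preK S).N p : ℝ) ^ (-s) =
        ∑' p : {Q : HeightOneSpectrum (𝓞 k) // Q ∉ S},
          ((T : Set (HeightOneSpectrum (𝓞 k)))ᶜ.indicator F) p.1 := by
      refine tsum_congr fun p => ?_
      by_cases hp : p ∈ y
      · rw [if_pos hp, zero_mul, Set.indicator_of_notMem]
        intro h4
        apply h4
        rw [Finset.mem_coe, hT, Finset.mem_union]
        exact Or.inr (Finset.mem_image.2 ⟨p, hp, rfl⟩)
      · rw [if_neg hp, Set.indicator_of_mem, hFval]
        · rfl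
        · intro h4
          rw [Finset.mem_coe, hT, Finset.mem_union] at h4
          rcases h4 with h4 | h4
          · exact p.2 h4
          · obtain ⟨q, hq, hqp⟩ := Finset.mem_image.1 h4
            exact hp (Subtype.ext hqp ▸ hq)
    have h4 : ∑' p : {Q : HeightOneSpectrum (𝓞 k) // Q ∉ S},
          ((T : Set (HeightOneSpectrum (𝓞 k)))ᶜ.indicator F) p.1 =
        ∑' Q, ((T : Set (HeightOneSpectrum (𝓞 k)))ᶜ.indicator F) Q := by
      have h5 := tsum_subtype {Q : HeightOneSpectrum (𝓞 k) | Q ∉ S}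
        ((T : Set (HeightOneSpectrum (𝓞 k)))ᶜ.indicator F)
      refine h5.trans (tsum_congr fun Q => ?_)
      by_cases hQ : Q ∈ {Q : HeightOneSpectrum (𝓞 k) | Q ∉ S}
      · rw [Set.indicator_of_mem hQ]
      · rw [Set.indicator_of_notMem hQ, Set.indicator_of_notMem]
        intro h6
        apply h6
        rw [Finset.mem_coe, hT, Finset.mem_union]
        exact Or.inl (not_not.1 hQ)
    have h5 : ∑' Q, ((T : Set (HeightOneSpectrum (𝓞 k)))ᶜ.indicator F) Q =
        ∑' Q, F Q - ∑ Q ∈ T, F Q := by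
      have h6 : ∀ Q, ((T : Set (HeightOneSpectrum (𝓞 k)))ᶜ.indicator F) Q =
          F Q - (T : Set (HeightOneSpectrum (𝓞 k))).indicator F Q := by
        intro Q
        by_cases hQ : Q ∈ (T : Set (HeightOneSpectrum (𝓞 k)))
        · rw [Set.indicator_of_notMem (Set.notMem_compl_iff.2 hQ), Set.indicator_of_mem hQ, sub_self]
        · rw [Set.indicator_of_mem (Set.mem_compl hQ), Set.indicator_of_notMem hQ, sub_zero]
      have h7 : ∑' Q, (T : Set (HeightOneSpectrum (𝓞 k))).indicator F Q = ∑ Q ∈ T, F Q := by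
        rw [tsum_eq_sum (s := T)]
        · exact Finset.sum_congr rfl fun Q hQ => Set.indicator_of_mem (Finset.mem_coe.2 hQ) F
        · intro Q hQ
          exact Set.indicator_of_notMem (fun h => hQ (Finset.mem_coe.1 h)) F
      rw [tsum_congr h6, hsmF.tsum_sub (hsmF.indicator _), h7]
    rw [h3, h4, h5]
  have hTsum : |∑ Q ∈ T, F Q| ≤ T.card := by
    calc |∑ Q ∈ T, F Q| ≤ ∑ Q ∈ T, |F Q| := Finset.abs_sum_le_sum_abs _ _
      _ ≤ ∑ _Q ∈ T, (1 : ℝ) := Finset.sum_le_sum fun Q _ => hFabs Q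
      _ = T.card := by simp
  have e3 := abs_le.1 hTsum
  rw [hmain, hFsum, abs_le]
  constructor <;> linarith [e1.1, e1.2, e2.1, e2.2, e3.1, e3.2]

/-- infinitely many inert primes -/
theorem exists_inert (T : Finset (HeightOneSpectrum (𝓞 k))) (a : k) (ha : a ≠ 0)
    (hns : ¬ IsSquare a) : ∃ Q : HeightOneSpectrum (𝓞 k), Q ∉ T ∧ ¬ LocSq Q a := by
  classical
  by_contra hcon
  push Not at hcon
  obtain ⟨K1, h1⟩ := split_sum a ha hns
  obtain ⟨K2, h2⟩ := prm0_k (k := k)
  set M : ℝ := 2 * (|K1| + |K2| + T.card) + 1 with hM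
  have hM0 : 0 ≤ M := by positivity
  set s : ℝ := 1 + Real.exp (-M) with hs
  have hpos := Real.exp_pos (-M)
  have hs1 : 1 < s := by linarith
  have hs2 : s ≤ 2 := by
    have : Real.exp (-M) ≤ 1 := Real.exp_le_one_iff.2 (by linarith)
    linarith
  have hlog : Real.log (1 / (s - 1)) = M := by
    rw [hs, add_sub_cancel_left, one_div, Real.log_inv, Real.log_exp, neg_neg]
  have hsm := summable_nrm (k := k) s hs1
  set A : Set (HeightOneSpectrum (𝓞 k)) := {Q | LocSq Q a} with hA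
  set N : HeightOneSpectrum (𝓞 k) → ℝ := fun Q => (nrm Q : ℝ) ^ (-s) with hN
  have hN0 : ∀ Q, 0 ≤ N Q := fun Q => Real.rpow_nonneg (Nat.cast_nonneg _) _
  have hN1 : ∀ Q, N Q ≤ 1 := fun Q => by
    have h3 : (1 : ℝ) ≤ (nrm Q : ℝ) := by
      have := two_le_absNorm Q
      have h4 : 1 ≤ nrm Q := by
        unfold nrm
        omega
      exact_mod_cast h4
    exact Real.rpow_le_one_of_one_le_of_nonpos h3 (by linarith)
  have e1 := abs_le.1 (h1 s hs1 hs2)
  have e2 := abs_le.1 (h2 s hs1 hs2)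
  rw [nsb_ind] at e1
  rw [hlog] at e1 e2
  have h3 : ∑' Q, N Q ≤ ∑' Q, A.indicator N Q + T.card := by
    have h4 : ∀ Q, N Q ≤ A.indicator N Q + (T : Set (HeightOneSpectrum (𝓞 k))).indicator
        (fun _ => (1 : ℝ)) Q := by
      intro Q
      by_cases hQ : Q ∈ (T : Set (HeightOneSpectrum (𝓞 k)))
      · rw [Set.indicator_of_mem hQ]
        have h5 : 0 ≤ A.indicator N Q := Set.indicator_nonneg (fun Q _ => hN0 Q) Q
        linarith [hN1 Q]
      · have hQA : Q ∈ A := hcon Q fun h => hQ (Finset.mem_coe.2 h)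
        rw [Set.indicator_of_mem hQA, Set.indicator_of_notMem hQ, add_zero]
    have h6 : Summable ((T : Set (HeightOneSpectrum (𝓞 k))).indicator (fun _ => (1 : ℝ))) := by
      refine summable_of_hasFiniteSupport (T.finite_toSet.subset ?_)
      intro Q hQ
      by_contra hc
      exact hQ (Set.indicator_of_notMem hc _)
    have h7 : ∑' Q, (T : Set (HeightOneSpectrum (𝓞 k))).indicator (fun _ => (1 : ℝ)) Q =
        T.card := by
      rw [tsum_eq_sum (s := T)]
      · rw [Finset.sum_congr rfl fun Q hQ => Set.indicator_of_mem (Finset.mem_coe.2 hQ) _]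
        simp
      · intro Q hQ
        exact Set.indicator_of_notMem (fun h => hQ (Finset.mem_coe.1 h)) _
    have h8 := hsm.tsum_le_tsum h4 ((hsm.indicator A).add h6)
    rw [(hsm.indicator A).tsum_add h6, h7] at h8
    exact h8
  have h9 := le_abs_self K1
  have h10 := le_abs_self K2
  linarith [e1.1, e1.2, e2.1, e2.2]

end Pool.Agent.H98.MF
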