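import Pool.Agent.H98.MF.C.Stm
import Pool.Agent.H98.MF.NPsi
import Pool.Agent.H98.MF.NSplB

set_option autoImplicit false

open scoped BigOperators Pointwise NNReal nonZeroDivisors
open NumberField IsDedekindDomain

namespace Pool.Agent.H98.MF

/-- the results of block N used in block C -/
theorem nin (k : Type) [Field k] [NumberField k] : NIn k where
  n2 := by
    intro S hS ψ hψ hne
    obtain ⟨K, hK⟩ := Fnl_upper S hS.prS ψ hψ hne
    refine ⟨K, fun s hs hs' => le_trans (le_of_eq ?_) (hK s hs hs')⟩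
    refine tsum_congr fun Q => ?_
    have h1 : ψ (gen S Q.1) = 1 ↔ val2 ψ (gen S Q.1) = 0 := by
      unfold val2
      rw [toAdd_eq_zero]
    by_cases h : ψ (gen S Q.1) = 1
    · rw [if_pos h, if_pos (h1.1 h)]
    · rw [if_neg h, if_neg (fun h2 => h (h1.2 h2))]
  sm := summable_nrm
  n4 := prm0_k
  n4a := by
    intro a ha
    refine split_sum (a : k) a.ne_zero ?_
    rintro ⟨c, hc⟩
    have hc0 : c ≠ 0 := by
      rintro rfl
      exact a.ne_zero (by rw [hc, mul_zero])
    exact ha ⟨Units.mk0 c hc0, Units.ext (by rw [Units.val_mul, Units.val_mk0, hc])⟩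

end Pool.Agent.H98.MF
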