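import Pool.Agent.H98.MF.SBase

/-!
# Project MK4 (MP_a3214d), block SYS, row A1: counting ideals and sets of primes
-/

set_option autoImplicit false

open scoped BigOperators

namespace Pool.Agent.H98.MF

open Pool.Agent.H98.MK (sg)

theorem card_idl_le (F : Sys) : ∃ C : ℝ, ∀ t : ℝ, 1 ≤ t → ((F.idl t).card : ℝ) ≤ C * t := by
  refine ⟨F.κ + F.C, fun t ht => ?_⟩
  have h1 := (abs_le.1 (F.cnt' t ht)).2
  have h2 : t ^ (1 - F.dl) ≤ t := by
    have h3 : t ^ (1 - F.dl) ≤ t ^ (1 : ℝ) :=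
      Real.rpow_le_rpow_of_exponent_le ht (by linarith [F.dl_pos])
    rwa [Real.rpow_one] at h3
  have h4 := mul_le_mul_of_nonneg_left h2 F.C_nonneg
  linarith

theorem a1_card_bx_le_idl (S : Pre) (t : ℝ) : (S.bx t).card ≤ (S.idl t).card := by
  refine Finset.card_le_card_of_injOn S.idf ?_ ?_
  · intro x hx
    have h1 := S.mem_bx.1 (Finset.mem_coe.1 hx)
    refine Finset.mem_coe.2 (S.mem_idl.2 ?_)
    rw [S.nf_idf]
    exact h1
  · intro x _ y _ h
    exact S.idf_inj h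

theorem card_bx_le (F : Sys) : ∃ C : ℝ, ∀ t : ℝ, 1 ≤ t → ((F.bx t).card : ℝ) ≤ C * t := by
  obtain ⟨C, hC⟩ := card_idl_le F
  exact ⟨C, fun t ht => le_trans (by exact_mod_cast a1_card_bx_le_idl F.toPre t) (hC t ht)⟩

theorem a1_card_pr_le_bx (S : Pre) {t : ℝ} (ht : 0 ≤ t) : (S.pr t).card ≤ (S.bx t).card := by
  refine Finset.card_le_card_of_injOn (fun p => ({p} : Finset S.P)) ?_ ?_
  · intro p hp
    have h1 := (S.mem_pr ht).1 (Finset.mem_coe.1 hp)
    refine Finset.mem_coe.2 (S.mem_bx.2 ?_)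
    show ((S.nm {p} : ℕ) : ℝ) ≤ t
    unfold Pre.nm
    rw [Finset.prod_singleton]
    exact h1
  · intro p _ q _ h
    exact Finset.singleton_injective h

theorem summable_N (F : Sys) (s : ℝ) (hs : 1 < s) :
    Summable fun p : F.P => (F.N p : ℝ) ^ (-s) := by
  obtain ⟨C, hC⟩ := card_bx_le F
  have hC0 : 0 ≤ C := by
    have h1 := hC 1 le_rfl
    have h2 : (0 : ℝ) ≤ ((F.bx 1).card : ℝ) := Nat.cast_nonneg _
    linarith
  set r : ℝ := (2 : ℝ) ^ (1 - s) with hr
  have hr0 : 0 < r := Real.rpow_pos_of_pos two_pos _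
  have hr1 : r < 1 := Real.rpow_lt_one_of_one_lt_of_neg one_lt_two (by linarith)
  refine summable_of_sum_le (c := 2 * C * (1 - r)⁻¹)
    (fun p => Real.rpow_nonneg (Nat.cast_nonneg _) _) fun u => ?_
  set K : ℕ := u.sup (fun p => Nat.log 2 (F.N p)) + 1 with hK
  have hmap : ∀ p ∈ u, Nat.log 2 (F.N p) ∈ Finset.range K := fun p hp =>
    Finset.mem_range.2 (Nat.lt_succ_of_le (Finset.le_sup (f := fun p => Nat.log 2 (F.N p)) hp))
  rw [← Finset.sum_fiberwise_of_maps_to hmap]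
  have hfib : ∀ k ∈ Finset.range K,
      ∑ p ∈ u.filter (fun p => Nat.log 2 (F.N p) = k), (F.N p : ℝ) ^ (-s) ≤ 2 * C * r ^ k := by
    intro k _
    have hterm : ∀ p ∈ u.filter (fun p => Nat.log 2 (F.N p) = k),
        (F.N p : ℝ) ^ (-s) ≤ ((2 : ℝ) ^ k) ^ (-s) := by
      intro p hp
      have h1 := (Finset.mem_filter.1 hp).2
      have h2 : 2 ^ k ≤ F.N p := by
        rw [← h1]
        exact Nat.pow_log_le_self 2 (by have := F.two_le p; omega)
      have h3 : (2 : ℝ) ^ k ≤ F.N p := by exact_mod_cast h2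
      exact Real.rpow_le_rpow_of_nonpos (by positivity) h3 (by linarith)
    have hcard : ((u.filter (fun p => Nat.log 2 (F.N p) = k)).card : ℝ) ≤ C * 2 ^ (k + 1) := by
      have h1 : u.filter (fun p => Nat.log 2 (F.N p) = k) ⊆ F.pr (2 ^ (k + 1)) := by
        intro p hp
        have h1 := (Finset.mem_filter.1 hp).2
        rw [F.mem_pr (by positivity)]
        have h2 : F.N p < 2 ^ (k + 1) := by
          rw [← h1]
          exact Nat.lt_pow_succ_log_self (by norm_num) _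
        exact_mod_cast h2.le
      have h2 : (u.filter (fun p => Nat.log 2 (F.N p) = k)).card ≤ (F.bx (2 ^ (k + 1))).card :=
        (Finset.card_le_card h1).trans (a1_card_pr_le_bx F.toPre (by positivity))
      refine le_trans (by exact_mod_cast h2) (hC (2 ^ (k + 1)) ?_)
      exact one_le_pow₀ (by norm_num)
    calc ∑ p ∈ u.filter (fun p => Nat.log 2 (F.N p) = k), (F.N p : ℝ) ^ (-s)
        ≤ (u.filter (fun p => Nat.log 2 (F.N p) = k)).card • ((2 : ℝ) ^ k) ^ (-s) :=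
          Finset.sum_le_card_nsmul _ _ _ hterm
      _ = ((u.filter (fun p => Nat.log 2 (F.N p) = k)).card : ℝ) * ((2 : ℝ) ^ k) ^ (-s) := by
          rw [nsmul_eq_mul]
      _ ≤ (C * 2 ^ (k + 1)) * ((2 : ℝ) ^ k) ^ (-s) :=
          mul_le_mul_of_nonneg_right hcard (Real.rpow_nonneg (by positivity) _)
      _ = 2 * C * r ^ k := by
          have h1 : r ^ k = (2 : ℝ) ^ k * ((2 : ℝ) ^ k) ^ (-s) := by
            rw [hr, ← Real.rpow_natCast ((2 : ℝ) ^ (1 - s)) k, ← Real.rpow_mul two_pos.le,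
              ← Real.rpow_natCast (2 : ℝ) k, ← Real.rpow_mul two_pos.le,
              ← Real.rpow_add two_pos]
            congr 1
            ring
          rw [h1, pow_succ]
          ring
  refine (Finset.sum_le_sum hfib).trans ?_
  rw [← Finset.mul_sum]
  refine mul_le_mul_of_nonneg_left ?_ (by positivity)
  have h1 := (summable_geometric_of_lt_one hr0.le hr1).sum_le_tsum (Finset.range K)
    (fun k _ => pow_nonneg hr0.le k)
  rwa [tsum_geometric_of_lt_one hr0.le hr1] at h1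

theorem sum_prod_le (S : Pre) (g : S.P → ℝ) (hg : ∀ p, 0 ≤ g p) (hs : Summable g) (t : ℝ) :
    ∑ x ∈ S.bx t, ∏ p ∈ x, g p ≤ Real.exp (∑' p, g p) := by
  have h1 : ∑ x ∈ S.bx t, ∏ p ∈ x, g p ≤ ∑ x ∈ (S.pr t).powerset, ∏ p ∈ x, g p :=
    Finset.sum_le_sum_of_subset_of_nonneg (Finset.filter_subset _ _)
      fun x _ _ => Finset.prod_nonneg fun p _ => hg p
  refine h1.trans ?_
  rw [← Finset.prod_one_add]
  calc ∏ p ∈ S.pr t, (1 + g p) ≤ ∏ p ∈ S.pr t, Real.exp (g p) :=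
        Finset.prod_le_prod (fun p _ => by linarith [hg p])
          fun p _ => by linarith [Real.add_one_le_exp (g p)]
    _ = Real.exp (∑ p ∈ S.pr t, g p) := (Real.exp_sum _ _).symm
    _ ≤ Real.exp (∑' p, g p) := Real.exp_le_exp.2 (hs.sum_le_tsum _ fun p _ => hg p)

end Pool.Agent.H98.MF
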