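import Pool.Agent.H98.MF.SPDefs
import Pool.Agent.H98.MF.SCount

/-!
# Project MK4 (MP_a3214d), block SYS: density of classes of primes, auxiliary primes
-/

set_option autoImplicit false

open scoped BigOperators

namespace Pool.Agent.H98.MF

open Pool.Agent.H98.MK (sg)
open Pool.Agent.H98.ML (Dt Ext Wt)

/-- a sum of signs over all types -/
theorem cls_sum_T {m : ℕ} (w : Fin m → ZMod 2) :
    ∑ c : Fin m → ZMod 2, sg (c ⬝ᵥ w) = if w = 0 then 2 ^ m else 0 := by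
  classical
  have h1 : ∀ c : Fin m → ZMod 2, sg (c ⬝ᵥ w) = ∏ i, sg (c i * w i) := fun c => sg_sum _ _
  have h2 : ∑ c : Fin m → ZMod 2, sg (c ⬝ᵥ w) = ∏ i, ∑ b : ZMod 2, sg (b * w i) := by
    rw [Finset.prod_univ_sum, Fintype.piFinset_univ]
    exact Finset.sum_congr rfl fun c _ => h1 c
  have h3 : ∀ a : ZMod 2, ∑ b : ZMod 2, sg (b * a) = if a = 0 then 2 else 0 := by decide
  rw [h2]
  split_ifs with h
  · subst h
    have h4 : ∀ i ∈ (Finset.univ : Finset (Fin m)),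
        ∑ b : ZMod 2, sg (b * (0 : Fin m → ZMod 2) i) = 2 := fun i _ => (h3 _).trans (if_pos rfl)
    rw [Finset.prod_congr rfl h4, Finset.prod_const, Finset.card_univ, Fintype.card_fin]
  · obtain ⟨i, hi⟩ := Function.ne_iff.1 h
    exact Finset.prod_eq_zero (Finset.mem_univ i) ((h3 _).trans (if_neg hi))

/-- a sum of signs over all subsets -/
theorem cls_sum_y {P : Type} (z : Finset P) (f : P → ZMod 2) :
    ∑ y ∈ z.powerset, sg (∑ q ∈ y, f q) = if ∀ q ∈ z, f q = 0 then 2 ^ z.card else 0 := by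
  classical
  have h1 : ∑ y ∈ z.powerset, sg (∑ q ∈ y, f q) = ∏ q ∈ z, (1 + sg (f q)) := by
    rw [Finset.prod_one_add]
    exact Finset.sum_congr rfl fun y _ => sg_sum _ _
  have h2 : ∀ a : ZMod 2, 1 + sg a = if a = 0 then 2 else 0 := by decide
  rw [h1]
  split_ifs with h
  · rw [Finset.prod_congr rfl fun q hq => (h2 _).trans (if_pos (h q hq)), Finset.prod_const]
  · push Not at h
    obtain ⟨q, hq, hq1⟩ := h
    exact Finset.prod_eq_zero hq ((h2 _).trans (if_neg hq1))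

/-- the indicator of a class of primes -/
theorem cls_ind (F : Sys) (z : Finset F.P) (e : F.P → ZMod 2) (t : F.T) (p : F.P) :
    (if F.ty p = t ∧ ∀ q ∈ z, F.J q p = e q then (1 : ℝ) else 0) =
      (1 / 2 ^ (z.card + F.m)) * ∑ y ∈ z.powerset, ∑ c : F.T,
        ((sg (∑ q ∈ y, e q + c ⬝ᵥ t) : ℤ) : ℝ) * ((sg (F.ex y c p) : ℤ) : ℝ) := by
  have h1 : ∀ (y : Finset F.P) (c : F.T),
      ((sg (∑ q ∈ y, e q + c ⬝ᵥ t) : ℤ) : ℝ) * ((sg (F.ex y c p) : ℤ) : ℝ) =
      ((sg (∑ q ∈ y, (e q + F.J q p)) * sg (c ⬝ᵥ (t + F.ty p)) : ℤ) : ℝ) := by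
    intro y c
    rw [← Int.cast_mul, ← sg_add, ← sg_add]
    congr 2
    unfold Sys.ex
    rw [Finset.sum_add_distrib, dotProduct_add]
    ring
  have h2 : (∑ y ∈ z.powerset, ∑ c : F.T,
        ((sg (∑ q ∈ y, e q + c ⬝ᵥ t) : ℤ) : ℝ) * ((sg (F.ex y c p) : ℤ) : ℝ)) =
      (((∑ y ∈ z.powerset, sg (∑ q ∈ y, (e q + F.J q p))) *
        ∑ c : F.T, sg (c ⬝ᵥ (t + F.ty p)) : ℤ) : ℝ) := by
    rw [Finset.sum_mul_sum, Int.cast_sum]
    refine Finset.sum_congr rfl fun y _ => ?_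
    rw [Int.cast_sum]
    exact Finset.sum_congr rfl fun c _ => h1 y c
  rw [h2, cls_sum_y, cls_sum_T]
  have h3 : (t + F.ty p = 0) ↔ F.ty p = t := by
    constructor
    · intro h
      funext i
      have := congrFun h i
      exact (CharTwo.add_eq_zero.1 this).symm
    · rintro rfl
      funext i
      exact CharTwo.add_self_eq_zero _
  have h4 : (∀ q ∈ z, e q + F.J q p = 0) ↔ ∀ q ∈ z, F.J q p = e q :=
    forall₂_congr fun q _ => CharTwo.add_eq_zero.trans eq_comm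
  rw [if_congr h4 rfl rfl, if_congr h3 rfl rfl]
  by_cases ha : ∀ q ∈ z, F.J q p = e q
  · by_cases hb : F.ty p = t
    · rw [if_pos ⟨hb, ha⟩, if_pos ha, if_pos hb]
      push_cast
      rw [← pow_add, one_div, inv_mul_cancel₀ (pow_ne_zero _ two_ne_zero)]
    · rw [if_neg fun h => hb h.1, if_neg hb]
      simp
  · rw [if_neg fun h => ha h.2, if_neg ha]
    simp

theorem cls_N_le (F : Sys) (p : F.P) {s : ℝ} (hs : 1 < s) : (F.N p : ℝ) ^ (-s) ≤ 1 := by
  have h2 : (2 : ℝ) ≤ F.N p := by exact_mod_cast F.two_le p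
  exact Real.rpow_le_one_of_one_le_of_nonpos (by linarith) (by linarith)

theorem cls_N_nonneg (F : Sys) (p : F.P) (s : ℝ) : 0 ≤ (F.N p : ℝ) ^ (-s) :=
  Real.rpow_nonneg (Nat.cast_nonneg _) _

/-- a bounded coefficient gives a summable series -/
theorem cls_summable (F : Sys) (a : F.P → ℝ) (ha : ∀ p, |a p| ≤ 1) {s : ℝ} (hs : 1 < s) :
    Summable fun p : F.P => a p * (F.N p : ℝ) ^ (-s) := by
  refine Summable.of_norm_bounded (summable_N F s hs) fun p => ?_
  rw [Real.norm_eq_abs, abs_mul, abs_of_nonneg (cls_N_nonneg F p s)]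
  exact mul_le_of_le_one_left (cls_N_nonneg F p s) (ha p)

/-- one character -/
theorem cls_one (F : Sys) (z y : Finset F.P) (hy : y ⊆ z) (c : F.T) : ∃ K : ℝ, ∀ s : ℝ, 1 < s →
    s ≤ 2 →
    |∑' p : F.P, (if p ∈ z then 0 else ((sg (F.ex y c p) : ℤ) : ℝ)) * (F.N p : ℝ) ^ (-s) -
      (if y = ∅ ∧ c = 0 then Real.log (1 / (s - 1)) else 0)| ≤ K := by
  have hK : ∃ K : ℝ, ∀ s : ℝ, 1 < s → s ≤ 2 →
      |∑' p : F.P, (F.toPre.chp y (F.ex y c) p : ℝ) * (F.N p : ℝ) ^ (-s) -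
      (if y = ∅ ∧ c = 0 then Real.log (1 / (s - 1)) else 0)| ≤ K := by
    by_cases h : y = ∅ ∧ c = 0
    · obtain ⟨K, hK⟩ := F.prm0
      refine ⟨K, fun s h1 h2 => ?_⟩
      rw [if_pos h]
      have h3 : ∀ p, (F.toPre.chp y (F.ex y c) p : ℝ) * (F.N p : ℝ) ^ (-s) =
          (F.N p : ℝ) ^ (-s) := by
        intro p
        obtain ⟨rfl, rfl⟩ := h
        unfold Pre.chp Sys.ex
        rw [if_neg (Finset.notMem_empty p), Finset.sum_empty, zero_dotProduct, add_zero, sg_zero,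
          Int.cast_one, one_mul]
      rw [tsum_congr h3]
      exact hK s h1 h2
    · have h' : y.Nonempty ∨ c ≠ 0 := by
        rcases y.eq_empty_or_nonempty with h3 | h3
        · exact Or.inr fun h4 => h ⟨h3, h4⟩
        · exact Or.inl h3
      obtain ⟨K, hK⟩ := F.prm y c h'
      refine ⟨K, fun s h1 h2 => ?_⟩
      rw [if_neg h, sub_zero]
      exact hK s h1 h2
  obtain ⟨K, hK⟩ := hK
  refine ⟨z.card + K, fun s h1 h2 => ?_⟩
  have hb : ∀ p, |(if p ∈ z then 0 else ((sg (F.ex y c p) : ℤ) : ℝ))| ≤ 1 := by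
    intro p
    split_ifs
    · simp
    · exact (abs_sgr _).le
  have ha : ∀ p, |(F.toPre.chp y (F.ex y c) p : ℝ)| ≤ 1 := by
    intro p
    unfold Pre.chp
    split_ifs
    · simp
    · exact (abs_sgr _).le
  have h5 : |∑' p : F.P, (if p ∈ z then 0 else ((sg (F.ex y c p) : ℤ) : ℝ)) *
        (F.N p : ℝ) ^ (-s) -
      ∑' p : F.P, (F.toPre.chp y (F.ex y c) p : ℝ) * (F.N p : ℝ) ^ (-s)| ≤ z.card := by
    rw [← (cls_summable F _ hb h1).tsum_sub (cls_summable F _ ha h1)]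
    rw [tsum_eq_sum (s := z)]
    · refine (Finset.abs_sum_le_sum_abs _ _).trans ?_
      have h6 : ∀ p ∈ z, |(if p ∈ z then 0 else ((sg (F.ex y c p) : ℤ) : ℝ)) *
          (F.N p : ℝ) ^ (-s) - (F.toPre.chp y (F.ex y c) p : ℝ) * (F.N p : ℝ) ^ (-s)| ≤ 1 := by
        intro p hp
        rw [if_pos hp, zero_mul, zero_sub, abs_neg, abs_mul,
          abs_of_nonneg (cls_N_nonneg F p s)]
        exact mul_le_one₀ (ha p) (cls_N_nonneg F p s) (cls_N_le F p h1)
      refine (Finset.sum_le_sum h6).trans ?_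
      simp
    · intro p hp
      unfold Pre.chp
      rw [if_neg fun h => hp (hy h), if_neg hp, sub_self]
  have h7 := hK s h1 h2
  refine (abs_sub_le _ _ _).trans (add_le_add h5 h7)

/-- the density of a class of primes -/
theorem class_sum (F : Sys) (z : Finset F.P) (e : F.P → ZMod 2) (t : F.T) : ∃ K : ℝ,
    ∀ s : ℝ, 1 < s → s ≤ 2 →
      |∑' p : F.P, (if p ∉ z ∧ F.ty p = t ∧ ∀ q ∈ z, F.J q p = e q
          then (F.N p : ℝ) ^ (-s) else 0) -
        (1 / 2 ^ (z.card + F.m)) * Real.log (1 / (s - 1))| ≤ K := by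
  have hK : ∀ yc : Finset F.P × F.T, ∃ K : ℝ, yc.1 ⊆ z → ∀ s : ℝ, 1 < s → s ≤ 2 →
    |∑' p : F.P, (if p ∈ z then 0 else ((sg (F.ex yc.1 yc.2 p) : ℤ) : ℝ)) *
        (F.N p : ℝ) ^ (-s) -
      (if yc.1 = ∅ ∧ yc.2 = 0 then Real.log (1 / (s - 1)) else 0)| ≤ K := by
    intro yc
    by_cases hy : yc.1 ⊆ z
    · obtain ⟨K, hK⟩ := cls_one F z yc.1 hy yc.2
      exact ⟨K, fun _ => hK⟩
    · exact ⟨0, fun h => absurd h hy⟩
  choose K hK using hK
  refine ⟨(1 / 2 ^ (z.card + F.m)) * ∑ yc ∈ z.powerset ×ˢ (Finset.univ : Finset F.T), K yc,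
    fun s h1 h2 => ?_⟩
  have hb : ∀ (yc : Finset F.P × F.T) (p : F.P),
      |(if p ∈ z then 0 else ((sg (F.ex yc.1 yc.2 p) : ℤ) : ℝ))| ≤ 1 := by
    intro yc p
    split_ifs
    · simp
    · exact (abs_sgr _).le
  have h3 : ∑' p : F.P, (if p ∉ z ∧ F.ty p = t ∧ ∀ q ∈ z, F.J q p = e q
          then (F.N p : ℝ) ^ (-s) else 0) =
      (1 / 2 ^ (z.card + F.m)) * ∑ yc ∈ z.powerset ×ˢ (Finset.univ : Finset F.T),
        ((sg (∑ q ∈ yc.1, e q + yc.2 ⬝ᵥ t) : ℤ) : ℝ) *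
        ∑' p : F.P, (if p ∈ z then 0 else ((sg (F.ex yc.1 yc.2 p) : ℤ) : ℝ)) *
          (F.N p : ℝ) ^ (-s) := by
    have h4 : ∀ p : F.P, (if p ∉ z ∧ F.ty p = t ∧ ∀ q ∈ z, F.J q p = e q
          then (F.N p : ℝ) ^ (-s) else 0) =
        (1 / 2 ^ (z.card + F.m)) * ∑ yc ∈ z.powerset ×ˢ (Finset.univ : Finset F.T),
        ((sg (∑ q ∈ yc.1, e q + yc.2 ⬝ᵥ t) : ℤ) : ℝ) *
          ((if p ∈ z then 0 else ((sg (F.ex yc.1 yc.2 p) : ℤ) : ℝ)) *
          (F.N p : ℝ) ^ (-s)) := by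
      intro p
      by_cases hp : p ∈ z
      · rw [if_neg fun h => h.1 hp]
        simp [hp]
      · have h5 := cls_ind F z e t p
        rw [← Finset.sum_product'] at h5
        have h6 : (if p ∉ z ∧ F.ty p = t ∧ ∀ q ∈ z, F.J q p = e q
            then (F.N p : ℝ) ^ (-s) else 0) =
            (if F.ty p = t ∧ ∀ q ∈ z, F.J q p = e q then (1 : ℝ) else 0) *
              (F.N p : ℝ) ^ (-s) := by
          by_cases h7 : F.ty p = t ∧ ∀ q ∈ z, F.J q p = e q
          · rw [if_pos ⟨hp, h7⟩, if_pos h7, one_mul]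
          · rw [if_neg fun h => h7 h.2, if_neg h7, zero_mul]
        rw [h6, h5, mul_assoc, Finset.sum_mul]
        congr 1
        refine Finset.sum_congr rfl fun yc _ => ?_
        rw [if_neg hp, mul_assoc]
    rw [tsum_congr h4, tsum_mul_left, Summable.tsum_finsetSum]
    · congr 1
      exact Finset.sum_congr rfl fun yc _ => tsum_mul_left
    · intro yc _
      exact (cls_summable F _ (hb yc) h1).mul_left _
  have h8 : Real.log (1 / (s - 1)) = ∑ yc ∈ z.powerset ×ˢ (Finset.univ : Finset F.T),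
      ((sg (∑ q ∈ yc.1, e q + yc.2 ⬝ᵥ t) : ℤ) : ℝ) *
        (if yc.1 = ∅ ∧ yc.2 = 0 then Real.log (1 / (s - 1)) else 0) := by
    rw [Finset.sum_eq_single (∅, 0)]
    · rw [if_pos ⟨rfl, rfl⟩, Finset.sum_empty, zero_dotProduct, add_zero, sg_zero,
        Int.cast_one, one_mul]
    · intro yc _ h
      rw [if_neg fun h9 => h (Prod.ext h9.1 h9.2), mul_zero]
    · intro h
      exact absurd (Finset.mem_product.2 ⟨Finset.empty_mem_powerset z, Finset.mem_univ _⟩) h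
  have h9 : ∀ a : ℝ, a * Real.log (1 / (s - 1)) = a *
      ∑ yc ∈ z.powerset ×ˢ (Finset.univ : Finset F.T),
      ((sg (∑ q ∈ yc.1, e q + yc.2 ⬝ᵥ t) : ℤ) : ℝ) *
        (if yc.1 = ∅ ∧ yc.2 = 0 then Real.log (1 / (s - 1)) else 0) := fun a => by
    rw [← h8]
  rw [h3, h9, ← mul_sub, abs_mul, abs_of_nonneg (by positivity : (0 : ℝ) ≤
    1 / 2 ^ (z.card + F.m)), ← Finset.sum_sub_distrib]
  refine mul_le_mul_of_nonneg_left ?_ (by positivity)
  refine (Finset.abs_sum_le_sum_abs _ _).trans (Finset.sum_le_sum fun yc hyc => ?_)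
  rw [← mul_sub, abs_mul, abs_sgr, one_mul]
  exact hK yc (Finset.mem_powerset.1 (Finset.mem_product.1 hyc).1) s h1 h2

/-- there are new primes in the trivial class -/
theorem cls_new (F : Sys) (z : Finset F.P) :
    ∃ p : F.P, p ∉ z ∧ F.ty p = 0 ∧ ∀ q ∈ z, F.J q p = 0 := by
  classical
  by_contra hne
  push Not at hne
  obtain ⟨K, hK⟩ := class_sum F z 0 0
  set M : ℝ := 2 ^ (z.card + F.m)
  have hM0 : 0 < M := by positivity
  have hu : 0 < (|K| + 1) * M := by positivity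
  have h1 : Real.exp (-((|K| + 1) * M)) ≤ 1 := Real.exp_le_one_iff.2 (by linarith)
  have h2 := hK (1 + Real.exp (-((|K| + 1) * M))) (by linarith [Real.exp_pos (-((|K| + 1) * M))])
    (by linarith)
  have h3 : ∀ p : F.P, (if p ∉ z ∧ F.ty p = 0 ∧ ∀ q ∈ z, F.J q p = (0 : F.P → ZMod 2) q
      then (F.N p : ℝ) ^ (-(1 + Real.exp (-((|K| + 1) * M)))) else 0) = 0 := by
    intro p
    rw [if_neg]
    rintro ⟨h4, h5, h6⟩
    obtain ⟨q, hq, hq1⟩ := hne p h4 h5
    exact hq1 (h6 q hq)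
  rw [tsum_congr h3, tsum_zero, zero_sub, abs_neg, add_sub_cancel_left, one_div, one_div,
    ← Real.exp_neg, neg_neg, Real.log_exp, mul_comm _ M, inv_mul_cancel_left₀ hM0.ne'] at h2
  have h7 := le_abs_self (|K| + 1)
  have h8 := le_abs_self K
  linarith

theorem cls_primes (F : Sys) (r : ℕ) : ∃ p : Fin r → F.P, (∀ k, F.ty (p k) = 0) ∧
    Function.Injective p ∧ ∀ k l, k ≠ l → F.J (p k) (p l) = 0 := by
  classical
  induction r with
  | zero => exact ⟨fun k => k.elim0, fun k => k.elim0, fun k => k.elim0, fun k => k.elim0⟩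
  | succ r ih =>
    obtain ⟨p, h1, h3, h4⟩ := ih
    obtain ⟨q, hq1, hq2, hq3⟩ := cls_new F (Finset.univ.image p)
    have hJ : ∀ l, F.J (p l) q = 0 := fun l =>
      hq3 _ (Finset.mem_image_of_mem _ (Finset.mem_univ _))
    have hne : ∀ l, p l ≠ q := fun l h =>
      hq1 (h ▸ Finset.mem_image_of_mem _ (Finset.mem_univ _))
    have hJ' : ∀ l, F.J q (p l) = 0 := by
      intro l
      have h5 := F.recip q (p l) (hne l).symm
      rwa [hJ l, add_zero, hq2, dotProduct_zero, zero_mul] at h5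
    refine ⟨Fin.cons q p, ?_, ?_, ?_⟩
    · intro k
      refine Fin.cases ?_ (fun k => ?_) k
      · exact hq2
      · exact h1 k
    · rw [Fin.cons_injective_iff]
      refine ⟨?_, h3⟩
      rintro ⟨l, hl⟩
      exact hne l hl
    · intro k l
      refine Fin.cases ?_ (fun k => ?_) k
      · refine Fin.cases ?_ (fun l => ?_) l
        · intro h
          exact absurd rfl h
        · intro _
          exact hJ' l
      · refine Fin.cases ?_ (fun l => ?_) l
        · intro _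
          exact hJ k
        · intro h
          exact h4 k l fun e => h (by rw [e])

theorem exists_Pr (F : Sys) (D : Dt) : Nonempty (Pr F D) := by
  obtain ⟨p, h1, h3, h4⟩ := cls_primes F D.r
  exact ⟨⟨p, h1, h3, h4⟩⟩

end Pool.Agent.H98.MF
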