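import Pool.Agent.H98.MF.SBase

/-!
# Project MK4 (MP_a3214d), block SYS: character sums over ideals prime to a set of primes
-/

set_option autoImplicit false

open scoped BigOperators

namespace Pool.Agent.H98.MF

open Pool.Agent.H98.MK (sg)

namespace Sys

variable (F : Sys)

/-- the support after multiplication by a prime -/
theorem cop_support_add (f : F.P →₀ ℕ) (p : F.P) :
    (f + Finsupp.single p 1).support = insert p f.support := by
  ext q
  rw [Finset.mem_insert, Finsupp.mem_support_iff, Finsupp.mem_support_iff, Finsupp.add_apply]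
  by_cases h : q = p
  · subst h
    rw [Finsupp.single_eq_same]
    simp
  · rw [Finsupp.single_eq_of_ne h, add_zero]
    simp [h]

/-- multiplicativity of the characters -/
theorem cop_chv_add (y : Finset F.P) (g : F.P → ZMod 2) (f : F.P →₀ ℕ) (p : F.P) :
    F.chv y g (f + Finsupp.single p 1) = F.chp y g p * F.chv y g f := by
  unfold Pre.chv Pre.chp
  have h1 : ((f + Finsupp.single p 1).sum fun p k => ((k : ℕ) : ZMod 2) * g p) =
      g p + f.sum fun p k => ((k : ℕ) : ZMod 2) * g p := by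
    rw [Finsupp.sum_add_index' (fun a => by simp) (fun a b c => by push_cast; ring),
      Finsupp.sum_single_index (by simp), add_comm]
    simp
  simp only [F.cop_support_add, Finset.disjoint_insert_left, h1, sg_add]
  by_cases h2 : p ∈ y <;> by_cases h3 : Disjoint f.support y <;> simp [h2, h3]

/-- the sum over the ideals prime to `z` -/
noncomputable def copS (u : (F.P →₀ ℕ) → ℝ) (z : Finset F.P) (X : ℝ) : ℝ :=
  ∑ f ∈ F.idl X, (if Disjoint f.support z then u f else 0)

/-- the recursion -/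
theorem copS_insert (u : (F.P →₀ ℕ) → ℝ) (a : F.P → ℝ)
    (hu : ∀ f p, u (f + Finsupp.single p 1) = a p * u f) (z : Finset F.P) (p : F.P)
    (hp : p ∉ z) (X : ℝ) :
    F.copS u (insert p z) X = F.copS u z X - a p * F.copS u z (X / F.N p) := by
  have hN : (0 : ℝ) < F.N p := by exact_mod_cast F.one_le_N p
  have h1 : a p * F.copS u z (X / F.N p) =
      ∑ f ∈ (F.idl X).filter (fun f => p ∈ f.support), (if Disjoint f.support z then u f else 0) := by
    unfold copS
    rw [Finset.mul_sum]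
    refine Finset.sum_bij' (fun f _ => f + Finsupp.single p 1) (fun f _ => f - Finsupp.single p 1)
      ?_ ?_ ?_ ?_ ?_
    · intro f hf
      rw [Finset.mem_filter, Pre.mem_idl, Pre.nf_add, Pre.nf_single, pow_one, F.cop_support_add]
      refine ⟨?_, Finset.mem_insert_self _ _⟩
      rw [Pre.mem_idl, le_div_iff₀ hN] at hf
      push_cast
      exact hf
    · intro f hf
      rw [Finset.mem_filter, Pre.mem_idl] at hf
      have h2 : f - Finsupp.single p 1 + Finsupp.single p 1 = f := by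
        refine tsub_add_cancel_of_le ?_
        rw [Finsupp.single_le_iff]
        exact Nat.one_le_iff_ne_zero.2 (Finsupp.mem_support_iff.1 hf.2)
      rw [Pre.mem_idl, le_div_iff₀ hN]
      have h3 : F.nf f = F.nf (f - Finsupp.single p 1) * F.N p := by
        conv_lhs => rw [← h2]
        rw [Pre.nf_add, Pre.nf_single, pow_one]
      rw [← Nat.cast_mul, ← h3]
      exact hf.1
    · intro f hf
      exact add_tsub_cancel_right _ _
    · intro f hf
      rw [Finset.mem_filter, Pre.mem_idl] at hf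
      refine tsub_add_cancel_of_le ?_
      rw [Finsupp.single_le_iff]
      exact Nat.one_le_iff_ne_zero.2 (Finsupp.mem_support_iff.1 hf.2)
    · intro f hf
      simp only [F.cop_support_add, Finset.disjoint_insert_left, hu]
      by_cases h2 : Disjoint f.support z <;> simp [h2, hp]
  rw [h1, Finset.sum_filter]
  unfold copS
  rw [← Finset.sum_sub_distrib]
  refine Finset.sum_congr rfl fun f _ => ?_
  simp only [Finset.disjoint_insert_right]
  by_cases h2 : Disjoint f.support z <;> by_cases h3 : p ∈ f.support <;> simp [h2, h3]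

theorem cop_idl_empty {X : ℝ} (hX : X < 1) : F.idl X = ∅ := by
  rw [Finset.eq_empty_iff_forall_notMem]
  intro f hf
  rw [Pre.mem_idl] at hf
  have h1 : (1 : ℝ) ≤ F.nf f := by exact_mod_cast F.nf_pos f
  linarith

/-- the factor of `hs` -/
theorem cop_factor (p : F.P) :
    1 + (F.N p : ℝ) ^ (-(1 - F.dl)) ≤ (1 - (F.N p : ℝ) ^ (-(1 / 2) : ℝ))⁻¹ := by
  have h2 : (2 : ℝ) ≤ F.N p := by exact_mod_cast F.two_le p
  have h1 : (F.N p : ℝ) ^ (-(1 / 2) : ℝ) < 1 :=
    Real.rpow_lt_one_of_one_lt_of_neg (by linarith) (by norm_num)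
  have h3 : (F.N p : ℝ) ^ (-(1 - F.dl)) ≤ (F.N p : ℝ) ^ (-(1 / 2) : ℝ) :=
    Real.rpow_le_rpow_of_exponent_le (by linarith) (by linarith [F.dl_le])
  rw [le_inv_comm₀ (by positivity) (by linarith), inv_eq_one_div,
    le_div_iff₀ (by positivity)]
  nlinarith [Real.rpow_nonneg (by linarith : (0 : ℝ) ≤ F.N p) (-(1 / 2) : ℝ)]

/-- the general estimate -/
theorem cop_gen (u : (F.P →₀ ℕ) → ℝ) (a : F.P → ℝ) (κ B : ℝ) (hB : 0 ≤ B)
    (hu : ∀ f p, u (f + Finsupp.single p 1) = a p * u f) (ha : ∀ p, |a p| ≤ 1)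
    (hκ : ∀ p, κ * a p = κ)
    (h : ∀ X : ℝ, 0 < X → |∑ f ∈ F.idl X, u f - κ * X| ≤ B * X ^ (1 - F.dl))
    (z : Finset F.P) : ∀ X : ℝ, 0 < X →
    |F.copS u z X - κ * (∏ p ∈ z, (1 - 1 / (F.N p : ℝ))) * X| ≤
      B * F.hs z * X ^ (1 - F.dl) := by
  induction z using Finset.induction_on with
  | empty =>
    intro X hX
    have h1 : F.copS u ∅ X = ∑ f ∈ F.idl X, u f := by
      unfold copS
      exact Finset.sum_congr rfl fun f _ => by simp
    rw [h1, Finset.prod_empty, mul_one]
    unfold Pre.hs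
    rw [Finset.prod_empty, mul_one]
    exact h X hX
  | insert p z hp ih =>
    intro X hX
    have hN : (0 : ℝ) < F.N p := by exact_mod_cast F.one_le_N p
    rw [F.copS_insert u a hu z p hp X, Finset.prod_insert hp]
    have h1 := ih X hX
    have h2 := ih (X / F.N p) (div_pos hX hN)
    have h3 : F.hs (insert p z) = (1 - (F.N p : ℝ) ^ (-(1 / 2) : ℝ))⁻¹ * F.hs z := by
      unfold Pre.hs
      rw [Finset.prod_insert hp]
    have h4 : F.copS u z X - a p * F.copS u z (X / F.N p) -
        κ * ((1 - 1 / (F.N p : ℝ)) * ∏ q ∈ z, (1 - 1 / (F.N q : ℝ))) * X =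
        (F.copS u z X - κ * (∏ q ∈ z, (1 - 1 / (F.N q : ℝ))) * X) -
        a p * (F.copS u z (X / F.N p) -
          κ * (∏ q ∈ z, (1 - 1 / (F.N q : ℝ))) * (X / F.N p)) := by
      have h5 := hκ p
      have h6 : a p * (κ * (∏ q ∈ z, (1 - 1 / (F.N q : ℝ))) * (X / F.N p)) =
          (κ * a p) * (∏ q ∈ z, (1 - 1 / (F.N q : ℝ))) * (X / F.N p) := by ring
      rw [mul_sub, h6, h5]
      ring
    have h7 : (X / F.N p) ^ (1 - F.dl) = X ^ (1 - F.dl) * (F.N p : ℝ) ^ (-(1 - F.dl)) := by
      rw [Real.div_rpow hX.le hN.le, Real.rpow_neg hN.le, div_eq_mul_inv]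
    have h8 : 0 ≤ B * F.hs z * X ^ (1 - F.dl) :=
      mul_nonneg (mul_nonneg hB (le_trans zero_le_one (F.one_le_hs z))) (Real.rpow_nonneg hX.le _)
    rw [h4]
    refine (abs_sub _ _).trans ?_
    rw [abs_mul]
    calc |F.copS u z X - κ * (∏ q ∈ z, (1 - 1 / (F.N q : ℝ))) * X| +
          |a p| * |F.copS u z (X / F.N p) -
            κ * (∏ q ∈ z, (1 - 1 / (F.N q : ℝ))) * (X / F.N p)|
        ≤ B * F.hs z * X ^ (1 - F.dl) +
          1 * (B * F.hs z * (X / F.N p) ^ (1 - F.dl)) := by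
          refine add_le_add h1 (mul_le_mul (ha p) h2 (abs_nonneg _) zero_le_one)
      _ = B * F.hs z * X ^ (1 - F.dl) * (1 + (F.N p : ℝ) ^ (-(1 - F.dl))) := by
          rw [h7]
          ring
      _ ≤ B * F.hs z * X ^ (1 - F.dl) * (1 - (F.N p : ℝ) ^ (-(1 / 2) : ℝ))⁻¹ :=
          mul_le_mul_of_nonneg_left (F.cop_factor p) h8
      _ = B * F.hs (insert p z) * X ^ (1 - F.dl) := by
          rw [h3]
          ring

end Sys

theorem chr_cop (F : Sys) : ∃ C : ℝ, 0 ≤ C ∧ ∀ (y z : Finset F.P) (c : F.T),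
    (y.Nonempty ∨ c ≠ 0) → ∀ X : ℝ, 1 ≤ X →
    |∑ f ∈ F.idl X, (if Disjoint f.support z then (F.chv y (F.ex y c) f : ℝ) else 0)| ≤
      C * (F.nm y : ℝ) ^ F.A * F.hs z * X ^ (1 - F.dl) := by
  refine ⟨F.C, F.C_nonneg, fun y z c hyc X hX => ?_⟩
  have hB : 0 ≤ F.C * (F.nm y : ℝ) ^ F.A :=
    mul_nonneg F.C_nonneg (Real.rpow_nonneg (Nat.cast_nonneg _) _)
  have h1 := F.cop_gen (fun f => (F.chv y (F.ex y c) f : ℝ))
    (fun p => (F.chp y (F.ex y c) p : ℝ)) 0 (F.C * (F.nm y : ℝ) ^ F.A) hB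
    (fun f p => by rw [F.cop_chv_add]; push_cast; ring)
    (fun p => by
      unfold Pre.chp
      split_ifs
      · simp
      · exact (abs_sgr _).le)
    (fun p => by simp)
    (fun X hX => by
      rcases lt_or_ge X 1 with h1 | h1
      · rw [F.cop_idl_empty h1, Finset.sum_empty, zero_mul, sub_zero, abs_zero]
        exact mul_nonneg hB (Real.rpow_nonneg hX.le _)
      · rw [zero_mul, sub_zero]
        exact F.chr' y c hyc X h1)
    z X (by linarith)
  rw [zero_mul, zero_mul, sub_zero] at h1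
  exact h1

theorem cnt_cop (F : Sys) : ∃ C : ℝ, 0 ≤ C ∧ ∀ (z : Finset F.P) (X : ℝ), 1 ≤ X →
    |(((F.idl X).filter fun f => Disjoint f.support z).card : ℝ) -
      F.κ * (∏ p ∈ z, (1 - 1 / (F.N p : ℝ))) * X| ≤ C * F.hs z * X ^ (1 - F.dl) := by
  have hB : 0 ≤ max F.C F.κ := le_max_of_le_left F.C_nonneg
  refine ⟨max F.C F.κ, hB, fun z X hX => ?_⟩
  have h1 := F.cop_gen (fun _ => 1) (fun _ => 1) F.κ (max F.C F.κ) hB
    (fun f p => by norm_num) (fun p => by norm_num) (fun p => mul_one _)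
    (fun X hX => by
      rw [Finset.sum_const, nsmul_eq_mul, mul_one]
      rcases lt_or_ge X 1 with h1 | h1
      · rw [F.cop_idl_empty h1, Finset.card_empty, Nat.cast_zero, zero_sub, abs_neg,
          abs_of_nonneg (mul_nonneg F.κ_pos.le hX.le)]
        refine mul_le_mul (le_max_right _ _) ?_ hX.le hB
        have h2 : X ^ (1 : ℝ) ≤ X ^ (1 - F.dl) :=
          Real.rpow_le_rpow_of_exponent_ge hX h1.le (by linarith [F.dl_pos])
        rwa [Real.rpow_one] at h2
      · exact (F.cnt' X h1).trans (mul_le_mul_of_nonneg_right (le_max_left _ _)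
          (Real.rpow_nonneg hX.le _)))
    z X (by linarith)
  have h2 : F.copS (fun _ => 1) z X =
      (((F.idl X).filter fun f => Disjoint f.support z).card : ℝ) := by
    unfold Sys.copS
    rw [← Finset.sum_filter, Finset.sum_const, nsmul_eq_mul, mul_one]
  rw [h2] at h1
  exact h1

end Pool.Agent.H98.MF
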