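import Pool.Agent.H98.MF.SBase

/-!
# Project MK4 (MP_a3214d), row A6: sums over squarefree ideals from sums over all ideals
-/

set_option autoImplicit false

open scoped BigOperators

namespace Pool.Agent.H98.MF

open Pool.Agent.H98.MK (sg)

namespace SqfAux

variable (S : Pre)

/-- the primes of exponent at least two -/
noncomputable def dd (h : S.P →₀ ℕ) : Finset S.P := h.support.filter fun p => 2 ≤ h p

/-- the summand -/
noncomputable def gg (y w : Finset S.P) (g : S.P → ZMod 2) (d : Finset S.P)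
    (f : S.P →₀ ℕ) : ℝ :=
  if Disjoint d (y ∪ w) then (-1 : ℝ) ^ d.card *
    (if Disjoint f.support w then (S.chv y g f : ℝ) else 0) else 0

theorem nf_two (d : Finset S.P) : S.nf (2 • S.idf d) = S.nm d ^ 2 := by
  rw [two_smul, S.nf_add, S.nf_idf, sq]

theorem two_apply (d : Finset S.P) (p : S.P) :
    (2 • S.idf d) p = if p ∈ d then 2 else 0 := by
  rw [Finsupp.smul_apply, S.idf_apply]
  split_ifs <;> rfl

theorem mem_dd {h : S.P →₀ ℕ} {p : S.P} : p ∈ dd S h ↔ 2 ≤ h p := by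
  unfold dd
  rw [Finset.mem_filter, Finsupp.mem_support_iff]
  exact ⟨fun h1 => h1.2, fun h1 => ⟨by omega, h1⟩⟩

theorem le_of_sub {h : S.P →₀ ℕ} {d : Finset S.P} (hd : d ⊆ dd S h) : 2 • S.idf d ≤ h := by
  intro p
  rw [two_apply]
  split_ifs with h1
  · exact (mem_dd S).1 (hd h1)
  · exact Nat.zero_le _

theorem nf_sub {h : S.P →₀ ℕ} {d : Finset S.P} (hd : d ⊆ dd S h) :
    (S.nf (h - 2 • S.idf d) : ℝ) * (S.nm d : ℝ) ^ 2 = S.nf h := by
  have h4 : h - 2 • S.idf d + 2 • S.idf d = h := tsub_add_cancel_of_le (le_of_sub S hd)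
  have h6 : S.nf (h - 2 • S.idf d + 2 • S.idf d) = S.nf (h - 2 • S.idf d) * S.nm d ^ 2 := by
    rw [S.nf_add, nf_two]
  rw [h4] at h6
  rw [h6]
  push_cast
  rfl

theorem sum_gg (y w : Finset S.P) (g : S.P → ZMod 2) (t : ℝ) :
    ∑ d ∈ S.bx (Real.sqrt t), (if Disjoint d (y ∪ w) then (-1 : ℝ) ^ d.card *
        ∑ f ∈ S.idl (t / (S.nm d : ℝ) ^ 2),
          (if Disjoint f.support w then (S.chv y g f : ℝ) else 0) else 0) =
      ∑ d ∈ S.bx (Real.sqrt t), ∑ f ∈ S.idl (t / (S.nm d : ℝ) ^ 2), gg S y w g d f := by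
  refine Finset.sum_congr rfl fun d _ => ?_
  unfold gg
  split_ifs with h
  · rw [Finset.mul_sum]
  · rw [Finset.sum_const_zero]

theorem mem_one {t : ℝ} {d : Finset S.P} {f : S.P →₀ ℕ}
    (h : f ∈ S.idl (t / (S.nm d : ℝ) ^ 2)) :
    f + 2 • S.idf d ∈ S.idl t ∧ d ⊆ dd S (f + 2 • S.idf d) := by
  have h2' : (S.nf f : ℝ) ≤ t / (S.nm d : ℝ) ^ 2 := S.mem_idl.1 h
  have h3 : (0 : ℝ) < (S.nm d : ℝ) ^ 2 := pow_pos (S.nm_posr d) 2
  rw [le_div_iff₀ h3] at h2'
  refine ⟨?_, ?_⟩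
  · rw [S.mem_idl, S.nf_add, nf_two]
    push_cast
    exact h2'
  · intro p hp
    rw [mem_dd, Finsupp.add_apply, two_apply, if_pos hp]
    omega

theorem mem_two {t : ℝ} {d : Finset S.P} {h : S.P →₀ ℕ} (h1 : h ∈ S.idl t) (h2 : d ⊆ dd S h) :
    d ∈ S.bx (Real.sqrt t) ∧ h - 2 • S.idf d ∈ S.idl (t / (S.nm d : ℝ) ^ 2) := by
  have h1' : (S.nf h : ℝ) ≤ t := S.mem_idl.1 h1
  have h5 := nf_sub S h2
  have h3 : (0 : ℝ) < (S.nm d : ℝ) ^ 2 := pow_pos (S.nm_posr d) 2
  have h7 : (1 : ℝ) ≤ S.nf (h - 2 • S.idf d) := Nat.one_le_cast.2 (S.nf_pos _)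
  refine ⟨?_, ?_⟩
  · rw [S.mem_bx]
    refine Real.le_sqrt_of_sq_le ?_
    have h8 := le_mul_of_one_le_left h3.le h7
    rw [h5] at h8
    exact h8.trans h1'
  · rw [S.mem_idl, le_div_iff₀ h3, h5]
    exact h1'

theorem sum_swap (y w : Finset S.P) (g : S.P → ZMod 2) (t : ℝ) :
    ∑ d ∈ S.bx (Real.sqrt t), ∑ f ∈ S.idl (t / (S.nm d : ℝ) ^ 2), gg S y w g d f =
      ∑ h ∈ S.idl t, ∑ d ∈ (dd S h).powerset, gg S y w g d (h - 2 • S.idf d) := by
  rw [Finset.sum_sigma', Finset.sum_sigma']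
  refine Finset.sum_nbij' (fun a => ⟨a.2 + 2 • S.idf a.1, a.1⟩)
    (fun b => ⟨b.2, b.1 - 2 • S.idf b.2⟩) ?_ ?_ ?_ ?_ ?_
  · rintro ⟨d, f⟩ ha
    have h2 := mem_one S (Finset.mem_sigma.1 ha).2
    exact Finset.mem_sigma.2 ⟨h2.1, Finset.mem_powerset.2 h2.2⟩
  · rintro ⟨h, d⟩ hb
    have hb' := Finset.mem_sigma.1 hb
    have h2 := mem_two S hb'.1 (Finset.mem_powerset.1 hb'.2)
    exact Finset.mem_sigma.2 ⟨h2.1, h2.2⟩
  · rintro ⟨d, f⟩ _
    show (⟨d, f + 2 • S.idf d - 2 • S.idf d⟩ : Sigma fun _ : Finset S.P => S.P →₀ ℕ) = ⟨d, f⟩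
    rw [add_tsub_cancel_right]
  · rintro ⟨h, d⟩ hb
    have h2' : d ⊆ dd S h := Finset.mem_powerset.1 (Finset.mem_sigma.1 hb).2
    show (⟨h - 2 • S.idf d + 2 • S.idf d, d⟩ : Sigma fun _ : S.P →₀ ℕ => Finset S.P) = ⟨h, d⟩
    rw [tsub_add_cancel_of_le (le_of_sub S h2')]
  · rintro ⟨d, f⟩ _
    show gg S y w g d f = gg S y w g d (f + 2 • S.idf d - 2 • S.idf d)
    rw [add_tsub_cancel_right]

theorem alt_sum (s : Finset S.P) :
    ∑ d ∈ s.powerset, (-1 : ℝ) ^ d.card = if s = ∅ then 1 else 0 := by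
  have h : ((∑ d ∈ s.powerset, (-1 : ℤ) ^ d.card : ℤ) : ℝ) =
      (((if s = ∅ then 1 else 0 : ℤ)) : ℝ) := by
    rw [Finset.sum_powerset_neg_one_pow_card (x := s)]
  rw [Int.cast_sum] at h
  rw [show (∑ d ∈ s.powerset, (-1 : ℝ) ^ d.card) =
    ∑ d ∈ s.powerset, (((-1 : ℤ) ^ d.card : ℤ) : ℝ) from
    Finset.sum_congr rfl fun d _ => by push_cast; rfl, h]
  split_ifs <;> norm_num

theorem sum_sub (g : S.P → ZMod 2) {h : S.P →₀ ℕ} {d : Finset S.P} (hd : d ⊆ dd S h) :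
    (h - 2 • S.idf d).sum (fun p k => (k : ZMod 2) * g p) =
      h.sum (fun p k => (k : ZMod 2) * g p) := by
  classical
  have h4 : h - 2 • S.idf d + 2 • S.idf d = h := tsub_add_cancel_of_le (le_of_sub S hd)
  have hz : ∀ p : S.P, ((0 : ℕ) : ZMod 2) * g p = 0 := fun p => by
    rw [Nat.cast_zero, zero_mul]
  have ha : ∀ (p : S.P) (a b : ℕ), ((a + b : ℕ) : ZMod 2) * g p =
      (a : ZMod 2) * g p + (b : ZMod 2) * g p := fun p a b => by
    rw [Nat.cast_add, add_mul]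
  have h5 : (2 • S.idf d).sum (fun p (k : ℕ) => (k : ZMod 2) * g p) = 0 := by
    unfold Finsupp.sum
    refine Finset.sum_eq_zero fun p _ => ?_
    show (((2 • S.idf d) p : ℕ) : ZMod 2) * g p = 0
    rw [two_apply]
    split_ifs
    · have h6 : ((2 : ℕ) : ZMod 2) = 0 := by decide
      rw [h6, zero_mul]
    · rw [Nat.cast_zero, zero_mul]
  have h6 : (h - 2 • S.idf d + 2 • S.idf d).sum (fun p (k : ℕ) => (k : ZMod 2) * g p) =
      (h - 2 • S.idf d).sum (fun p (k : ℕ) => (k : ZMod 2) * g p) +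
      (2 • S.idf d).sum (fun p (k : ℕ) => (k : ZMod 2) * g p) :=
    Finsupp.sum_add_index' (h := fun p (k : ℕ) => (k : ZMod 2) * g p) hz ha
  rw [h4, h5, add_zero] at h6
  exact h6.symm

theorem inner (y w : Finset S.P) (g : S.P → ZMod 2) (h : S.P →₀ ℕ) :
    ∑ d ∈ (dd S h).powerset, gg S y w g d (h - 2 • S.idf d) =
      if dd S h = ∅ then (if Disjoint h.support (y ∪ w)
        then ((sg (∑ p ∈ h.support, g p) : ℤ) : ℝ) else 0) else 0 := by
  by_cases hd : Disjoint h.support (y ∪ w)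
  · have h1 : ∀ d ∈ (dd S h).powerset, gg S y w g d (h - 2 • S.idf d) =
        (-1 : ℝ) ^ d.card *
          ((sg (h.sum (fun p k => (k : ZMod 2) * g p)) : ℤ) : ℝ) := by
      intro d hd1
      have hd2 : d ⊆ dd S h := Finset.mem_powerset.1 hd1
      have hd3 : d ⊆ h.support := fun p hp => (Finset.mem_filter.1 (hd2 hp)).1
      have hs : (h - 2 • S.idf d).support ⊆ h.support := by
        intro p hp
        rw [Finsupp.mem_support_iff] at hp ⊢
        intro h0
        apply hp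
        rw [Finsupp.tsub_apply, h0, Nat.zero_sub]
      have h2 : Disjoint (h - 2 • S.idf d).support (y ∪ w) := Finset.disjoint_of_subset_left hs hd
      unfold gg
      rw [if_pos (Finset.disjoint_of_subset_left hd3 hd),
        if_pos (Finset.disjoint_of_subset_right Finset.subset_union_right h2)]
      unfold Pre.chv
      rw [if_pos (Finset.disjoint_of_subset_right Finset.subset_union_left h2),
        sum_sub S g hd2]
    rw [Finset.sum_congr rfl h1, ← Finset.sum_mul, alt_sum]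
    by_cases h0 : dd S h = ∅
    · rw [if_pos h0, if_pos h0, if_pos hd, one_mul]
      have h3 : h.sum (fun p k => (k : ZMod 2) * g p) = ∑ p ∈ h.support, g p := by
        unfold Finsupp.sum
        refine Finset.sum_congr rfl fun p hp => ?_
        have h4 : h p ≠ 0 := Finsupp.mem_support_iff.1 hp
        have h5 : ¬ 2 ≤ h p := fun h6 => by
          have h7 : p ∈ dd S h := (mem_dd S).2 h6
          rw [h0] at h7
          exact absurd h7 (Finset.notMem_empty p)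
        have h8 : h p = 1 := by omega
        show ((h p : ℕ) : ZMod 2) * g p = g p
        rw [h8, Nat.cast_one, one_mul]
      rw [h3]
    · rw [if_neg h0, if_neg h0, zero_mul]
  · rw [if_neg hd, ite_self]
    refine Finset.sum_eq_zero fun d _ => ?_
    obtain ⟨p, hp1, hp2⟩ := Finset.not_disjoint_iff.1 hd
    unfold gg
    split_ifs with h1 h2
    · have h3 : p ∉ d := fun h4 => Finset.disjoint_left.1 h1 h4 hp2
      have h5 : p ∈ (h - 2 • S.idf d).support := by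
        rw [Finsupp.mem_support_iff, Finsupp.tsub_apply, two_apply, if_neg h3, Nat.sub_zero]
        exact Finsupp.mem_support_iff.1 hp1
      have h6 : p ∉ w := fun h7 => Finset.disjoint_left.1 h2 h5 h7
      have h8 : p ∈ y := (Finset.mem_union.1 hp2).resolve_right h6
      have h9 : ¬ Disjoint (h - 2 • S.idf d).support y := fun h10 =>
        Finset.disjoint_left.1 h10 h5 h8
      unfold Pre.chv
      rw [if_neg h9, Int.cast_zero, mul_zero]
    · rw [mul_zero]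
    · rfl

theorem sum_lhs (y w : Finset S.P) (g : S.P → ZMod 2) (t : ℝ) :
    ∑ x ∈ S.bx t, (if Disjoint x (y ∪ w) then ((sg (∑ p ∈ x, g p) : ℤ) : ℝ) else 0) =
      ∑ h ∈ S.idl t, (if dd S h = ∅ then (if Disjoint h.support (y ∪ w)
        then ((sg (∑ p ∈ h.support, g p) : ℤ) : ℝ) else 0) else 0) := by
  have h0 : ∀ h : S.P →₀ ℕ, dd S h = ∅ → S.idf h.support = h := by
    intro h hh
    ext p
    rw [S.idf_apply]
    have h5 : ¬ 2 ≤ h p := fun h6 => by
      have h7 : p ∈ dd S h := (mem_dd S).2 h6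
      rw [hh] at h7
      exact absurd h7 (Finset.notMem_empty p)
    split_ifs with h1
    · have h2 : h p ≠ 0 := Finsupp.mem_support_iff.1 h1
      omega
    · exact (Finsupp.notMem_support_iff.1 h1).symm
  rw [← Finset.sum_filter (s := S.idl t) (p := fun h => dd S h = ∅)]
  refine Finset.sum_nbij' (fun x => S.idf x) (fun h => h.support) ?_ ?_ ?_ ?_ ?_
  · intro x hx
    rw [Finset.mem_filter, S.mem_idl]
    refine ⟨?_, ?_⟩
    · show ((S.nf (S.idf x) : ℕ) : ℝ) ≤ t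
      rw [S.nf_idf]
      exact S.mem_bx.1 hx
    · refine Finset.eq_empty_of_forall_notMem fun p hp => ?_
      have h1 := (mem_dd S).1 hp
      rw [S.idf_apply] at h1
      split_ifs at h1 <;> omega
  · intro h hh
    rw [Finset.mem_filter, S.mem_idl] at hh
    rw [S.mem_bx]
    show ((S.nm h.support : ℕ) : ℝ) ≤ t
    rw [← S.nf_idf, h0 h hh.2]
    exact hh.1
  · intro x _
    exact S.idf_support x
  · intro h hh
    exact h0 h (Finset.mem_filter.1 hh).2
  · intro x _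
    show _ = if Disjoint (S.idf x).support (y ∪ w)
      then ((sg (∑ p ∈ (S.idf x).support, g p) : ℤ) : ℝ) else 0
    rw [S.idf_support]

end SqfAux

theorem sqf_ident (S : Pre) (y w : Finset S.P) (g : S.P → ZMod 2) (t : ℝ) (ht : 0 ≤ t) :
    ∑ x ∈ S.bx t, (if Disjoint x (y ∪ w) then ((sg (∑ p ∈ x, g p) : ℤ) : ℝ) else 0) =
      ∑ d ∈ S.bx (Real.sqrt t), (if Disjoint d (y ∪ w) then (-1 : ℝ) ^ d.card *
        ∑ f ∈ S.idl (t / (S.nm d : ℝ) ^ 2),
          (if Disjoint f.support w then (S.chv y g f : ℝ) else 0) else 0) := by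
  rw [SqfAux.sum_gg, SqfAux.sum_swap, SqfAux.sum_lhs]
  exact Finset.sum_congr rfl fun h _ => (SqfAux.inner S y w g h).symm

end Pool.Agent.H98.MF
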