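import Pool.Agent.H98.MF.SHs
import Pool.Agent.H98.MF.SCop
import Pool.Agent.H98.MF.SSqf

/-!
# Project MK4 (MP_a3214d), row A7: character sums over sets of primes
-/

set_option autoImplicit false

open scoped BigOperators

namespace Pool.Agent.H98.MF

open Pool.Agent.H98.MK (sg)

theorem chr_sqf (F : Sys) : ∃ C : ℝ, 0 ≤ C ∧ ∀ (y z : Finset F.P) (c : F.T),
    (y.Nonempty ∨ c ≠ 0) → ∀ t : ℝ, 1 ≤ t →
    |∑ x ∈ F.bx t, (if Disjoint x (y ∪ z)
      then ((sg (F.JJ x y + c ⬝ᵥ F.tys x) : ℤ) : ℝ) else 0)| ≤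
      C * (F.nm y : ℝ) ^ F.A * F.hs z * t ^ (1 - F.dl) := by
  obtain ⟨C1, hC1, h1⟩ := chr_cop F
  have hs1 : 1 < 2 * (1 - F.dl) := by linarith [F.dl_le]
  obtain ⟨C2, h2⟩ := hs_tail F 1 zero_le_one 0 (2 * (1 - F.dl)) hs1
  refine ⟨C1 * max C2 0, mul_nonneg hC1 (le_max_right _ _), ?_⟩
  intro y z c hyc t ht
  have ht0 : 0 ≤ t := by linarith
  have e1 : ∀ x : Finset F.P, F.JJ x y + c ⬝ᵥ F.tys x = ∑ p ∈ x, F.ex y c p := fun x =>
    (F.sum_ex y c x).symm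
  simp only [e1]
  rw [sqf_ident F.toPre y z (F.ex y c) t ht0]
  have hA : 0 ≤ (F.nm y : ℝ) ^ F.A := Real.rpow_nonneg (Nat.cast_nonneg _) _
  have hz : 0 ≤ F.hs z := le_trans zero_le_one (F.one_le_hs z)
  calc |∑ d ∈ F.bx (Real.sqrt t), (if Disjoint d (y ∪ z) then (-1 : ℝ) ^ d.card *
        ∑ f ∈ F.idl (t / (F.nm d : ℝ) ^ 2),
          (if Disjoint f.support z then (F.chv y (F.ex y c) f : ℝ) else 0) else 0)|
      ≤ ∑ d ∈ F.bx (Real.sqrt t), |(if Disjoint d (y ∪ z) then (-1 : ℝ) ^ d.card *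
        ∑ f ∈ F.idl (t / (F.nm d : ℝ) ^ 2),
          (if Disjoint f.support z then (F.chv y (F.ex y c) f : ℝ) else 0) else 0)| :=
        Finset.abs_sum_le_sum_abs _ _
    _ ≤ ∑ d ∈ F.bx (Real.sqrt t), C1 * (F.nm y : ℝ) ^ F.A * F.hs z * t ^ (1 - F.dl) *
          (F.nm d : ℝ) ^ (-(2 * (1 - F.dl))) := by
        apply Finset.sum_le_sum
        intro d hd
        have hn : (0 : ℝ) < F.nm d := F.nm_posr d
        have hd1 : (F.nm d : ℝ) ^ 2 ≤ t := by
          have h3 := F.mem_bx.1 hd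
          calc (F.nm d : ℝ) ^ 2 ≤ (Real.sqrt t) ^ 2 := by gcongr
            _ = t := Real.sq_sqrt ht0
        have hX : 1 ≤ t / (F.nm d : ℝ) ^ 2 := (one_le_div (by positivity)).2 hd1
        have e2 : (t / (F.nm d : ℝ) ^ 2) ^ (1 - F.dl) =
            t ^ (1 - F.dl) * (F.nm d : ℝ) ^ (-(2 * (1 - F.dl))) := by
          rw [Real.div_rpow ht0 (by positivity), Real.rpow_neg hn.le, div_eq_mul_inv,
            Real.rpow_mul hn.le]
          norm_num
        have h4 := h1 y z c hyc (t / (F.nm d : ℝ) ^ 2) hX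
        rw [e2] at h4
        have hR : 0 ≤ C1 * (F.nm y : ℝ) ^ F.A * F.hs z * t ^ (1 - F.dl) *
          (F.nm d : ℝ) ^ (-(2 * (1 - F.dl))) := by positivity
        split_ifs with hd2
        · rw [abs_mul, abs_pow, abs_neg, abs_one, one_pow, one_mul]
          calc _ ≤ _ := h4
            _ = _ := by ring
        · rw [abs_zero]; exact hR
    _ = C1 * (F.nm y : ℝ) ^ F.A * F.hs z * t ^ (1 - F.dl) *
          ∑ d ∈ F.bx (Real.sqrt t), (F.nm d : ℝ) ^ (-(2 * (1 - F.dl))) := by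
        rw [Finset.mul_sum]
    _ ≤ C1 * (F.nm y : ℝ) ^ F.A * F.hs z * t ^ (1 - F.dl) * max C2 0 := by
        apply mul_le_mul_of_nonneg_left _ (by positivity)
        have h5 := h2 (Real.sqrt t)
        simp only [one_pow, pow_zero, mul_one, one_mul] at h5
        exact h5.trans (le_max_left _ _)
    _ = C1 * max C2 0 * (F.nm y : ℝ) ^ F.A * F.hs z * t ^ (1 - F.dl) := by ring

end Pool.Agent.H98.MF
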