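import Pool.Agent.H98.MF.MDefs
import Pool.Agent.H98.MF.C.Stm
import Pool.Agent.H98.MF.D.RdN
import Pool.Agent.H98.MF.L.Fld

/-!
# Project MK4 (MP_a3214d), row MF-F1: fields and homomorphisms over a number field
-/

set_option autoImplicit false

open scoped BigOperators Pointwise
open NumberField IsDedekindDomain Filter

namespace Pool.Agent.H98.MF

open Pool.Agent.H98.MK (sg)
open Pool.Agent.H98.ML (Dt Ext Wt norb hind)

section

variable {k : Type} [Field k] [NumberField k]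

noncomputable def ch4Perm (M : IntermediateField k (Om k)) (n : ℕ) (e : (M →ₐ[k] (Om k)) ≃ Fin n) :
    (Gm k) →* Equiv.Perm (Fin n) where
  toFun σ :=
    { toFun := fun i => e (σ.toAlgHom.comp (e.symm i))
      invFun := fun i => e ((σ⁻¹).toAlgHom.comp (e.symm i))
      left_inv := fun i => by
        simp only [Equiv.symm_apply_apply]
        refine (Equiv.eq_symm_apply e).1 ?_
        ext x
        exact σ.symm_apply_apply _
      right_inv := fun i => by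
        simp only [Equiv.symm_apply_apply]
        refine (Equiv.eq_symm_apply e).1 ?_
        ext x
        exact σ.apply_symm_apply _ }
  map_one' := by
    ext i
    change ((e ((1 : (Gm k)).toAlgHom.comp (e.symm i)) : Fin n) : ℕ) = (i : ℕ)
    have h : ((1 : (Gm k)).toAlgHom.comp (e.symm i)) = e.symm i := by
      ext x
      rfl
    rw [h, Equiv.apply_symm_apply]
  map_mul' := fun σ τ => by
    ext i
    change ((e ((σ * τ : (Gm k)).toAlgHom.comp (e.symm i)) : Fin n) : ℕ) =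
      ((e (σ.toAlgHom.comp (e.symm (e (τ.toAlgHom.comp (e.symm i))))) : Fin n) : ℕ)
    rw [Equiv.symm_apply_apply]
    have h : ((σ * τ : (Gm k)).toAlgHom.comp (e.symm i)) =
        σ.toAlgHom.comp (τ.toAlgHom.comp (e.symm i)) := by
      ext x
      rfl
    rw [h]

theorem ch4Perm_apply (M : IntermediateField k (Om k)) (n : ℕ) (e : (M →ₐ[k] (Om k)) ≃ Fin n)
    (σ : (Gm k)) (φ : M →ₐ[k] (Om k)) : ch4Perm M n e σ (e φ) = e (σ.toAlgHom.comp φ) := by
  change e (σ.toAlgHom.comp (e.symm (e φ))) = _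
  rw [Equiv.symm_apply_apply]

/-! ### automorphisms extending embeddings and isomorphisms -/

theorem ch4_nf {M : IntermediateField k (Om k)} (hM : FiniteDimensional k M) : NumberField M := by
  have h2 : FiniteDimensional ℚ M := Module.Finite.trans (R := ℚ) k M
  exact { to_charZero := inferInstance, to_finiteDimensional := h2 }

/-- every embedding of an intermediate field extends to an automorphism -/
theorem ch4_lift (M : IntermediateField k (Om k)) (φ : M →ₐ[k] (Om k)) :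
    ∃ τ : (Gm k), ∀ x : M, τ (x : (Om k)) = φ x := by
  have h1 : ∀ x : M, (φ.liftNormal (Om k) : (Om k) →ₐ[k] (Om k)) (x : (Om k)) = φ x := fun x =>
    φ.liftNormal_commutes (Om k) x
  exact ⟨AlgEquiv.ofBijective (φ.liftNormal (Om k)) (AlgHom.normal_bijective k (Om k) (Om k) _), h1⟩

/-- the fixing subgroup of an isomorphic field is a conjugate -/
theorem ch4_conj_of_iso {U W : Subgroup (Gm k)} (hU : IsOpen (U : Set (Gm k)))
    (hW : IsOpen (W : Set (Gm k))) (f : fld k U ≃ₐ[k] fld k W) :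
    ∃ τ : (Gm k), ∀ σ : (Gm k), σ ∈ U ↔ τ * σ * τ⁻¹ ∈ W := by
  obtain ⟨τ, hτ⟩ := ch4_lift (fld k U) ((fld k W).val.comp f.toAlgHom)
  have hτ' : ∀ x : fld k U, τ (x : (Om k)) = ((f x : fld k W) : (Om k)) := hτ
  refine ⟨τ, fun σ => ?_⟩
  conv_lhs => rw [← fldK_fixing U hU]
  conv_rhs => rw [← fldK_fixing W hW]
  rw [IntermediateField.mem_fixingSubgroup_iff, IntermediateField.mem_fixingSubgroup_iff]
  constructor
  · intro h y hy
    have h1 : τ (f.symm ⟨y, hy⟩ : fld k U) = y := by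
      rw [hτ', AlgEquiv.apply_symm_apply]
    have h2 : τ⁻¹ y = ((f.symm ⟨y, hy⟩ : fld k U) : (Om k)) := by
      conv_lhs => rw [← h1]
      exact τ.symm_apply_apply _
    change τ (σ (τ⁻¹ y)) = y
    rw [h2, h _ (f.symm ⟨y, hy⟩).2, h1]
  · intro h x hx
    have h1 : τ (σ (τ⁻¹ (τ x))) = τ x := by
      have h3 := h (τ x) (by
        have h4 := hτ' ⟨x, hx⟩
        rw [show τ x = ((f ⟨x, hx⟩ : fld k W) : (Om k)) from h4]
        exact (f ⟨x, hx⟩).2)
      exact h3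
    have h2 : τ⁻¹ (τ x) = x := τ.symm_apply_apply x
    rw [h2] at h1
    exact τ.injective h1

/-- conjugate subgroups have isomorphic fixed fields -/
theorem ch4_iso_of_conj {U W : Subgroup (Gm k)} (τ : (Gm k))
    (h : ∀ σ : (Gm k), σ ∈ U ↔ τ * σ * τ⁻¹ ∈ W) : Nonempty (fld k U ≃ₐ[k] fld k W) := by
  have h1 : ∀ x : fld k U, τ (x : (Om k)) ∈ fld k W := by
    intro x
    refine (IntermediateField.mem_fixedField_iff W _).2 fun σ hσ => ?_
    have h2 : τ⁻¹ * σ * τ ∈ U := by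
      rw [h]
      have : τ * (τ⁻¹ * σ * τ) * τ⁻¹ = σ := by group
      rw [this]
      exact hσ
    have h3 := (IntermediateField.mem_fixedField_iff U _).1 x.2 _ h2
    have h4 : τ⁻¹ (σ (τ (x : (Om k)))) = (x : (Om k)) := h3
    have h5 : τ (τ⁻¹ (σ (τ (x : (Om k))))) = σ (τ (x : (Om k))) := τ.apply_symm_apply _
    rw [← h5, h4]
  have h1' : ∀ y : fld k W, τ⁻¹ (y : (Om k)) ∈ fld k U := by
    intro y
    refine (IntermediateField.mem_fixedField_iff U _).2 fun σ hσ => ?_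
    have h2 : τ * σ * τ⁻¹ ∈ W := (h σ).1 hσ
    have h3 := (IntermediateField.mem_fixedField_iff W _).1 y.2 _ h2
    have h4 : τ (σ (τ⁻¹ (y : (Om k)))) = (y : (Om k)) := h3
    have h5 : τ⁻¹ (τ (σ (τ⁻¹ (y : (Om k))))) = σ (τ⁻¹ (y : (Om k))) := τ.symm_apply_apply _
    rw [← h5, h4]
  let f : fld k U →ₐ[k] fld k W :=
    ((τ.toAlgHom.comp (fld k U).val).codRestrict (fld k W).toSubalgebra h1)
  refine ⟨AlgEquiv.ofBijective f ⟨f.injective, fun y => ⟨⟨τ⁻¹ (y : (Om k)), h1' y⟩, ?_⟩⟩⟩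
  apply Subtype.ext
  exact τ.apply_symm_apply _

/-- the discriminant is an invariant -/
theorem ch4_rd_congr {K L : IntermediateField k (Om k)} (hK : FiniteDimensional k K)
    (f : K ≃ₐ[k] L) : rdN K = rdN L := by
  have hL : FiniteDimensional k L := f.toLinearEquiv.finiteDimensional
  have nK : NumberField K := ch4_nf hK
  have nL : NumberField L := ch4_nf hL
  have h1 := (rdN_natAbs K).2
  have h2 := (rdN_natAbs L).2
  rw [NumberField.discr_eq_discr_of_algEquiv K (f.restrictScalars ℚ),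
    LinearEquiv.finrank_eq f.toLinearEquiv, h2] at h1
  have h3 : 0 < (discr k).natAbs ^ Module.finrank k L :=
    pow_pos (Int.natAbs_pos.2 (discr_ne_zero k)) _
  exact (Nat.eq_of_mul_eq_mul_left h3 h1).symm

theorem ch4_disc (M : IntermediateField k (AlgebraicClosure k)) (hfd : FiniteDimensional k M)
    (n : ℕ) (hn : Module.finrank k M = n) (B : ℝ) :
    (∃ h : NumberField M,
      ((|@NumberField.discr M _ h| : ℤ) : ℝ) ≤ B * ((|NumberField.discr k| : ℤ) : ℝ) ^ n) ↔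
    (rdN M : ℝ) ≤ B := by
  have hNF : NumberField M := ch4_nf hfd
  have h1 := (rdN_natAbs (k := k) M).2
  rw [hn] at h1
  have h0 : (0 : ℝ) < ((|NumberField.discr k| : ℤ) : ℝ) ^ n := by
    refine pow_pos ?_ _
    exact_mod_cast abs_pos.2 (discr_ne_zero k)
  have h2 : ((|@NumberField.discr M _ hNF| : ℤ) : ℝ) =
      ((|NumberField.discr k| : ℤ) : ℝ) ^ n * (rdN M : ℝ) := by
    rw [← Nat.cast_natAbs, ← Nat.cast_natAbs, h1]
    push_cast
    rfl
  have h3 : ((|@NumberField.discr M _ hNF| : ℤ) : ℝ) ≤ B * ((|NumberField.discr k| : ℤ) : ℝ) ^ n ↔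
      (rdN M : ℝ) ≤ B := by
    rw [h2, mul_comm B, mul_le_mul_iff_right₀ h0]
  rw [← h3]
  exact ⟨fun ⟨_, h⟩ => h, fun h => ⟨hNF, h⟩⟩

/-! ### the two conditions on fields -/

/-- the condition on the embeddings -/
def Ch4Emb (n : ℕ) (G : Subgroup (Equiv.Perm (Fin n))) (M : IntermediateField k (Om k)) : Prop :=
  ∃ e : (M →ₐ[k] (Om k)) ≃ Fin n, ∀ π : Equiv.Perm (Fin n),
    π ∈ G ↔ ∃ σ : (Gm k), ∀ φ : M →ₐ[k] (Om k), e (σ.toAlgHom.comp φ) = π (e φ)

section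

variable {n : ℕ} {G : Subgroup (Equiv.Perm (Fin n))}

/-- the stabilizer pulled back -/
noncomputable abbrev ch4U (i0 : Fin n) (ρ : (Gm k) →* G) : Subgroup (Gm k) :=
  (MulAction.stabilizer G i0).comap ρ

theorem ch4_mem (i0 : Fin n) (ρ : (Gm k) →* G) (σ : (Gm k)) :
    σ ∈ ch4U i0 ρ ↔ (ρ σ : Equiv.Perm (Fin n)) i0 = i0 := Iff.rfl

theorem ch4_open (i0 : Fin n) (ρ : (Gm k) →* G) (hl : IsLocallyConstant ρ) :
    IsOpen (ch4U i0 ρ : Set (Gm k)) :=
  hl (MulAction.stabilizer G i0 : Set G)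

theorem ch4_finrank (htr : MulAction.IsPretransitive G (Fin n)) (i0 : Fin n) (ρ : (Gm k) →* G)
    (hs : Function.Surjective ρ) (hl : IsLocallyConstant ρ) :
    Module.finrank k (fld k (ch4U i0 ρ)) = n := by
  rw [fldK_finrank _ (ch4_open i0 ρ hl), Subgroup.index_comap_of_surjective _ hs,
    MulAction.index_stabilizer_of_transitive, Nat.card_eq_fintype_card, Fintype.card_fin]

theorem ch4_emb (htr : MulAction.IsPretransitive G (Fin n)) (i0 : Fin n) (ρ : (Gm k) →* G)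
    (hs : Function.Surjective ρ) (hl : IsLocallyConstant ρ) :
    Ch4Emb n G (fld k (ch4U i0 ρ)) := by
  set M := fld k (ch4U i0 ρ) with hM
  have hfix : M.fixingSubgroup = ch4U i0 ρ := fldK_fixing _ (ch4_open i0 ρ hl)
  choose T hT using ch4_lift M
  let e0 : (M →ₐ[k] (Om k)) → Fin n := fun φ => (ρ (T φ) : Equiv.Perm (Fin n)) i0
  -- independence of the lift
  have key : ∀ (φ : M →ₐ[k] (Om k)) (τ : (Gm k)), (∀ x : M, τ (x : (Om k)) = φ x) →
      e0 φ = (ρ τ : Equiv.Perm (Fin n)) i0 := by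
    intro φ τ hτ
    have h1 : (T φ)⁻¹ * τ ∈ ch4U i0 ρ := by
      rw [← hfix, IntermediateField.mem_fixingSubgroup_iff]
      intro x hx
      change (T φ)⁻¹ (τ x) = x
      have h2 : τ x = (T φ) x := by
        rw [show τ x = φ ⟨x, hx⟩ from hτ ⟨x, hx⟩, show (T φ) x = φ ⟨x, hx⟩ from hT φ ⟨x, hx⟩]
      rw [h2]
      exact (T φ).symm_apply_apply x
    rw [ch4_mem, map_mul, map_inv] at h1
    have h2 : ((ρ (T φ) : Equiv.Perm (Fin n)))⁻¹ ((ρ τ : Equiv.Perm (Fin n)) i0) = i0 := h1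
    rw [Equiv.Perm.inv_eq_iff_eq] at h2
    exact h2.symm
  have hinj : Function.Injective e0 := by
    intro φ φ' h
    have h1 : (T φ)⁻¹ * T φ' ∈ ch4U i0 ρ := by
      rw [ch4_mem, map_mul, map_inv]
      change ((ρ (T φ) : Equiv.Perm (Fin n)))⁻¹ ((ρ (T φ') : Equiv.Perm (Fin n)) i0) = i0
      rw [Equiv.Perm.inv_eq_iff_eq]
      exact h.symm
    rw [← hfix, IntermediateField.mem_fixingSubgroup_iff] at h1
    ext x
    have h2 : (T φ)⁻¹ (T φ' (x : (Om k))) = (x : (Om k)) := h1 x x.2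
    have h3 : T φ ((T φ)⁻¹ (T φ' (x : (Om k)))) = T φ' (x : (Om k)) := (T φ).apply_symm_apply _
    rw [← hT φ x, ← hT φ' x, ← h3, h2]
  have hsurj : Function.Surjective e0 := by
    intro j
    obtain ⟨g, hg⟩ := htr.exists_smul_eq i0 j
    obtain ⟨τ, rfl⟩ := hs g
    refine ⟨τ.toAlgHom.comp M.val, ?_⟩
    rw [key _ τ (fun x => rfl)]
    exact hg
  let e : (M →ₐ[k] (Om k)) ≃ Fin n := Equiv.ofBijective e0 ⟨hinj, hsurj⟩
  have hcomp : ∀ (σ : (Gm k)) (φ : M →ₐ[k] (Om k)),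
      e (σ.toAlgHom.comp φ) = (ρ σ : Equiv.Perm (Fin n)) (e φ) := by
    intro σ φ
    change e0 (σ.toAlgHom.comp φ) = (ρ σ : Equiv.Perm (Fin n)) (e0 φ)
    rw [key _ (σ * T φ) (fun x => by
      change σ (T φ (x : (Om k))) = σ (φ x)
      rw [hT φ x]), map_mul]
    rfl
  refine ⟨e, fun π => ⟨fun hπ => ?_, ?_⟩⟩
  · obtain ⟨σ, hσ⟩ := hs ⟨π, hπ⟩
    refine ⟨σ, fun φ => ?_⟩
    rw [hcomp, hσ]
  · rintro ⟨σ, hσ⟩
    have h1 : π = (ρ σ : Equiv.Perm (Fin n)) := by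
      ext i
      obtain ⟨φ, rfl⟩ := e.surjective i
      rw [← hcomp, hσ]
    rw [h1]
    exact (ρ σ).2

/-- every field of the frozen statement comes from a surjection -/
theorem ch4_exists (i0 : Fin n) (M : IntermediateField k (Om k)) (hfd : FiniteDimensional k M)
    (he : Ch4Emb n G M) :
    ∃ ρ : (Gm k) →* G, Function.Surjective ρ ∧ IsLocallyConstant ρ ∧
      Nonempty (fld k (ch4U i0 ρ) ≃ₐ[k] M) := by
  obtain ⟨e, he⟩ := he
  set P := ch4Perm M n e with hP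
  have hPG : ∀ σ, P σ ∈ G := fun σ =>
    (he _).2 ⟨σ, fun φ => (ch4Perm_apply M n e σ φ).symm⟩
  have hGP : ∀ π ∈ G, ∃ σ, P σ = π := by
    intro π hπ
    obtain ⟨σ, hσ⟩ := (he _).1 hπ
    refine ⟨σ, ?_⟩
    ext i
    obtain ⟨φ, rfl⟩ := e.surjective i
    rw [hP, ch4Perm_apply, hσ]
  let ρ : (Gm k) →* G := P.codRestrict G hPG
  have hρ : ∀ σ (φ : M →ₐ[k] (Om k)), (ρ σ : Equiv.Perm (Fin n)) (e φ) = e (σ.toAlgHom.comp φ) :=
    fun σ φ => ch4Perm_apply M n e σ φ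
  have hs : Function.Surjective ρ := by
    rintro ⟨π, hπ⟩
    obtain ⟨σ, hσ⟩ := hGP π hπ
    exact ⟨σ, Subtype.ext hσ⟩
  have hfixφ : ∀ (φ : M →ₐ[k] (Om k)) (σ : (Gm k)),
      σ ∈ φ.fieldRange.fixingSubgroup ↔ σ.toAlgHom.comp φ = φ := by
    intro φ σ
    rw [IntermediateField.mem_fixingSubgroup_iff]
    constructor
    · intro h
      ext x
      exact h (φ x) ⟨x, rfl⟩
    · rintro h y ⟨x, rfl⟩
      exact DFunLike.congr_fun h x
  have hl : IsLocallyConstant ρ := by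
    apply lc_of_ker_openK
    have hfin : Finite (M →ₐ[k] (Om k)) := Finite.of_equiv _ e.symm
    have h1 : (ρ.ker : Set (Gm k)) = ⋂ φ : M →ₐ[k] (Om k), (φ.fieldRange.fixingSubgroup : Set (Gm k)) := by
      ext σ
      rw [Set.mem_iInter]
      constructor
      · intro h φ
        have h2 : ρ σ = 1 := h
        rw [SetLike.mem_coe, hfixφ]
        apply e.injective
        rw [← hρ, h2]
        rfl
      · intro h
        have h2 : ρ σ = 1 := by
          apply Subtype.ext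
          ext i
          obtain ⟨φ, rfl⟩ := e.surjective i
          rw [hρ, (hfixφ φ σ).1 (h φ)]
          rfl
        exact h2
    rw [h1]
    refine isOpen_iInter_of_finite fun φ => ?_
    have hf : FiniteDimensional k φ.fieldRange :=
      (AlgEquiv.ofInjectiveField φ).toLinearEquiv.finiteDimensional
    exact IntermediateField.fixingSubgroup_isOpen _
  refine ⟨ρ, hs, hl, ?_⟩
  have h1 : ch4U i0 ρ = (e.symm i0).fieldRange.fixingSubgroup := by
    ext σ
    rw [ch4_mem, hfixφ]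
    constructor
    · intro h
      apply e.injective
      rw [← hρ, Equiv.apply_symm_apply, h]
    · intro h
      have h2 := hρ σ (e.symm i0)
      rw [h, Equiv.apply_symm_apply] at h2
      exact h2
  have h2 : fld k (ch4U i0 ρ) = (e.symm i0).fieldRange := by
    rw [h1]
    exact InfiniteGalois.fixedField_fixingSubgroup _
  rw [h2]
  exact ⟨(AlgEquiv.ofInjectiveField (e.symm i0)).symm⟩

theorem ch4_core (htr : MulAction.IsPretransitive G (Fin n)) (i0 : Fin n) (x : G)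
    (h : ∀ g : G, g * x * g⁻¹ ∈ MulAction.stabilizer G i0) : x = 1 := by
  apply Subtype.ext
  ext i
  obtain ⟨g, hg⟩ := htr.exists_smul_eq i i0
  have hg' : (g : Equiv.Perm (Fin n)) i = i0 := hg
  have h1 : (g : Equiv.Perm (Fin n)) ((x : Equiv.Perm (Fin n))
      ((g : Equiv.Perm (Fin n))⁻¹ i0)) = i0 := h g
  have h2 : (g : Equiv.Perm (Fin n))⁻¹ i0 = i := by
    rw [Equiv.Perm.inv_eq_iff_eq]
    exact hg'.symm
  rw [h2, ← hg'] at h1
  have h3 := (g : Equiv.Perm (Fin n)).injective h1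
  rw [h3]
  rfl

theorem ch4_ker_le (htr : MulAction.IsPretransitive G (Fin n)) (i0 : Fin n) {ρ ρ' : (Gm k) →* G}
    (hs' : Function.Surjective ρ') (τ : (Gm k))
    (h : ∀ σ : (Gm k), σ ∈ ch4U i0 ρ → τ * σ * τ⁻¹ ∈ ch4U i0 ρ') : ρ.ker ≤ ρ'.ker := by
  intro σ hσ
  rw [MonoidHom.mem_ker] at hσ ⊢
  refine ch4_core htr i0 _ fun g => ?_
  obtain ⟨η, rfl⟩ := hs' g
  have h1 : (τ⁻¹ * η) * σ * (τ⁻¹ * η)⁻¹ ∈ ch4U i0 ρ := by
    rw [ch4_mem, map_mul, map_mul, hσ, mul_one, map_inv, mul_inv_cancel]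
    rfl
  have h2 := h _ h1
  have h3 : τ * ((τ⁻¹ * η) * σ * (τ⁻¹ * η)⁻¹) * τ⁻¹ = η * σ * η⁻¹ := by group
  rw [h3] at h2
  have h4 : ρ' (η * σ * η⁻¹) ∈ MulAction.stabilizer G i0 := h2
  rw [map_mul, map_mul, map_inv] at h4
  exact h4

theorem ch4_ker (htr : MulAction.IsPretransitive G (Fin n)) (i0 : Fin n) {ρ ρ' : (Gm k) →* G}
    (hs : Function.Surjective ρ) (hs' : Function.Surjective ρ') (τ : (Gm k))
    (h : ∀ σ : (Gm k), σ ∈ ch4U i0 ρ ↔ τ * σ * τ⁻¹ ∈ ch4U i0 ρ') : ρ.ker = ρ'.ker := by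
  refine le_antisymm (ch4_ker_le htr i0 hs' τ fun σ => (h σ).1)
    (ch4_ker_le htr i0 hs τ⁻¹ fun σ hσ => ?_)
  rw [h]
  have h3 : τ * (τ⁻¹ * σ * τ⁻¹⁻¹) * τ⁻¹ = σ := by group
  rw [h3]
  exact hσ

theorem ch4_twist (i0 : Fin n) (ρ : (Gm k) →* G) (hs : Function.Surjective ρ) (α : MulAut G)
    (hα : ∃ g : G, ∀ x : G, x ∈ MulAction.stabilizer G i0 ↔
          g * α x * g⁻¹ ∈ MulAction.stabilizer G i0) :
    ∃ τ : (Gm k), ∀ σ : (Gm k), σ ∈ ch4U i0 ρ ↔
      τ * σ * τ⁻¹ ∈ ch4U i0 ((α : G ≃* G).toMonoidHom.comp ρ) := by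
  obtain ⟨g, hg⟩ := hα
  obtain ⟨y, rfl⟩ := (α : G ≃* G).surjective g
  obtain ⟨τ, rfl⟩ := hs y
  refine ⟨τ, fun σ => ?_⟩
  have h1 : ((α : G ≃* G).toMonoidHom.comp ρ) (τ * σ * τ⁻¹) =
      α (ρ τ) * α (ρ σ) * (α (ρ τ))⁻¹ := by
    change α (ρ (τ * σ * τ⁻¹)) = _
    rw [map_mul, map_mul, map_inv, map_mul, map_mul, map_inv]
  change ρ σ ∈ MulAction.stabilizer G i0 ↔
    ((α : G ≃* G).toMonoidHom.comp ρ) (τ * σ * τ⁻¹) ∈ MulAction.stabilizer G i0
  rw [h1]
  exact hg (ρ σ)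

end

end

end Pool.Agent.H98.MF
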