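import Pool.Agent.H98.MF.MDefs
import Pool.Agent.H98.MF.C.Stm
import Pool.Agent.H98.MF.D.RdN
import Pool.Agent.H98.MF.L.Fld
import Pool.Agent.H98.MF.CountHoms4_a

/-!
# Project MK4 (MP_a3214d), row MF-F1: the frozen count over k in terms of homomorphisms
-/

set_option autoImplicit false

open scoped BigOperators Pointwise
open NumberField IsDedekindDomain Filter

namespace Pool.Agent.H98.MF

open Pool.Agent.H98.MK (sg)
open Pool.Agent.H98.ML (Dt Ext Wt norb hind)

section

variable {k : Type} [Field k] [NumberField k]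

variable {n : ℕ} {G : Subgroup (Equiv.Perm (Fin n))}

/-- the counting argument for an arbitrary description of the condition -/
theorem ch4_main (htr : MulAction.IsPretransitive G (Fin n)) (i0 : Fin n) (B : ℝ)
    (P : IntermediateField k (Om k) → Prop)
    (hP : ∀ M, P M ↔ FiniteDimensional k M ∧ Module.finrank k M = n ∧ Ch4Emb n G M ∧
      (rdN M : ℝ) ≤ B) :
    Nat.card (Quot (fun L L' : {M : IntermediateField k (Om k) // P M} =>
        Nonempty (L.1 ≃ₐ[k] L'.1))) *
      Nat.card {α : MulAut G // ∃ g : G, ∀ x : G, x ∈ MulAction.stabilizer G i0 ↔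
          g * α x * g⁻¹ ∈ MulAction.stabilizer G i0} =
      Nat.card {ρ : (Gm k) →* G // Function.Surjective ρ ∧ IsLocallyConstant ρ ∧
        (rdN (fld k ((MulAction.stabilizer G i0).comap ρ)) : ℝ) ≤ B} := by
  classical
  let r : {M : IntermediateField k (Om k) // P M} → {M : IntermediateField k (Om k) // P M} → Prop :=
    fun L L' => Nonempty (L.1 ≃ₐ[k] L'.1)
  have hr : Equivalence r :=
    ⟨fun _ => ⟨AlgEquiv.refl⟩, fun ⟨f⟩ => ⟨f.symm⟩, fun ⟨f⟩ ⟨g⟩ => ⟨f.trans g⟩⟩
  let A := {α : MulAut G // ∃ g : G, ∀ x : G, x ∈ MulAction.stabilizer G i0 ↔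
          g * α x * g⁻¹ ∈ MulAction.stabilizer G i0}
  let T := {ρ : (Gm k) →* G // Function.Surjective ρ ∧ IsLocallyConstant ρ ∧
        (rdN (fld k (ch4U i0 ρ)) : ℝ) ≤ B}
  let F : T → Quot r := fun t => Quot.mk r ⟨fld k (ch4U i0 t.1),
    (hP _).2 ⟨fldK_finite _ (ch4_open i0 t.1 t.2.2.1),
      ch4_finrank htr i0 t.1 t.2.1 t.2.2.1, ch4_emb htr i0 t.1 t.2.1 t.2.2.1, t.2.2.2⟩⟩
  have hF : Function.Surjective F := by
    rintro ⟨⟨M, hM⟩⟩
    obtain ⟨hfd, hn, he, hd⟩ := (hP M).1 hM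
    obtain ⟨ρ, hs, hl, ⟨f⟩⟩ := ch4_exists i0 M hfd he
    have h1 : rdN (fld k (ch4U i0 ρ)) = rdN M :=
      ch4_rd_congr (fldK_finite _ (ch4_open i0 ρ hl)) f
    refine ⟨⟨ρ, hs, hl, by rw [h1]; exact hd⟩, ?_⟩
    exact Quot.sound ⟨f⟩
  have hFiso : ∀ t t' : T, F t = F t' → Nonempty (fld k (ch4U i0 t.1) ≃ₐ[k] fld k (ch4U i0 t'.1)) :=
    fun t t' h => (hr.eqvGen_iff).1 (Quot.eqvGen_exact h)
  choose R hR using hF
  have htw : ∀ (t : T) (α : A), (Nonempty (fld k (ch4U i0 t.1) ≃ₐ[k]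
      fld k (ch4U i0 ((α.1 : G ≃* G).toMonoidHom.comp t.1)))) := by
    intro t α
    obtain ⟨τ, hτ⟩ := ch4_twist i0 t.1 t.2.1 α.1 α.2
    exact ch4_iso_of_conj τ hτ
  let tw : T → A → T := fun t α => ⟨(α.1 : G ≃* G).toMonoidHom.comp t.1,
    (α.1 : G ≃* G).surjective.comp t.2.1, t.2.2.1.comp _, by
      rw [← ch4_rd_congr (fldK_finite _ (ch4_open i0 t.1 t.2.2.1))
        (htw t α).some]
      exact t.2.2.2⟩
  have hFtw : ∀ t α, F (tw t α) = F t := by
    intro t α
    obtain ⟨f⟩ := htw t α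
    exact Quot.sound ⟨f.symm⟩
  let ψ : Quot r × A → T := fun x => tw (R x.1) x.2
  have hψ : Function.Bijective ψ := by
    constructor
    · rintro ⟨c, α⟩ ⟨c', α'⟩ h
      have h1 : F (tw (R c) α) = F (tw (R c') α') := congrArg F h
      rw [hFtw, hFtw, hR, hR] at h1
      subst h1
      have h2 : (tw (R c) α).1 = (tw (R c) α').1 := congrArg Subtype.val h
      have h3 : α = α' := by
        apply Subtype.ext
        apply MulEquiv.ext
        intro x
        obtain ⟨σ, rfl⟩ := (R c).2.1 x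
        exact DFunLike.congr_fun h2 σ
      rw [h3]
    · intro t
      set s : T := R (F t) with hs
      have h1 : F s = F t := hR (F t)
      obtain ⟨f⟩ := hFiso s t h1
      obtain ⟨τ, hτ⟩ := ch4_conj_of_iso (ch4_open i0 s.1 s.2.2.1) (ch4_open i0 t.1 t.2.2.1) f
      have hk := ch4_ker htr i0 s.2.1 t.2.1 τ hτ
      let a : G ≃* G := (QuotientGroup.quotientKerEquivOfSurjective s.1 s.2.1).symm.trans
        ((QuotientGroup.quotientMulEquivOfEq hk).trans
          (QuotientGroup.quotientKerEquivOfSurjective t.1 t.2.1))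
      have ha : ∀ σ, a (s.1 σ) = t.1 σ := by
        intro σ
        have h2 : (QuotientGroup.quotientKerEquivOfSurjective s.1 s.2.1).symm (s.1 σ) =
            (QuotientGroup.mk σ : (Gm k) ⧸ s.1.ker) := by
          rw [MulEquiv.symm_apply_eq]
          rfl
        change QuotientGroup.quotientKerEquivOfSurjective t.1 t.2.1
          (QuotientGroup.quotientMulEquivOfEq hk
            ((QuotientGroup.quotientKerEquivOfSurjective s.1 s.2.1).symm (s.1 σ))) = t.1 σ
        rw [h2]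
        rfl
      refine ⟨(F t, ⟨a, t.1 τ, fun x => ?_⟩), ?_⟩
      · obtain ⟨σ, rfl⟩ := s.2.1 x
        rw [ha]
        have h3 : t.1 τ * t.1 σ * (t.1 τ)⁻¹ = t.1 (τ * σ * τ⁻¹) := by
          rw [map_mul, map_mul, map_inv]
        rw [h3]
        exact hτ σ
      · apply Subtype.ext
        apply MonoidHom.ext
        intro σ
        exact ha σ
  have h1 := Nat.card_congr (Equiv.ofBijective ψ hψ)
  rw [Nat.card_prod] at h1
  exact h1

end

/-- the frozen count in terms of homomorphisms -/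
theorem count_homs4 (k : Type) [Field k] [NumberField k] (n : ℕ)
    (G : Subgroup (Equiv.Perm (Fin n)))
    (htr : MulAction.IsPretransitive G (Fin n)) (i0 : Fin n) (B : ℝ) :
    Nat.card (Quot (fun L L' : {M : IntermediateField k (AlgebraicClosure k) //
            Module.finrank k M = n ∧
            (∃ e : (M →ₐ[k] AlgebraicClosure k) ≃ Fin n, ∀ π : Equiv.Perm (Fin n),
               π ∈ G ↔ ∃ σ : AlgebraicClosure k ≃ₐ[k] AlgebraicClosure k,
                 ∀ φ : M →ₐ[k] AlgebraicClosure k, e (σ.toAlgHom.comp φ) = π (e φ)) ∧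
            ∃ h : NumberField M,
              ((|@NumberField.discr M _ h| : ℤ) : ℝ) ≤ B * ((|NumberField.discr k| : ℤ) : ℝ) ^ n}
          => Nonempty (L.1 ≃ₐ[k] L'.1))) *
        Nat.card {α : MulAut G // ∃ g : G, ∀ x : G, x ∈ MulAction.stabilizer G i0 ↔
          g * α x * g⁻¹ ∈ MulAction.stabilizer G i0} =
      Nat.card {ρ : Gm k →* G // Function.Surjective ρ ∧ IsLocallyConstant ρ ∧
        (rdN (fld k ((MulAction.stabilizer G i0).comap ρ)) : ℝ) ≤ B} := by
  have hn : 0 < n := by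
    have := i0.2
    omega
  refine ch4_main htr i0 B (fun M : IntermediateField k (AlgebraicClosure k) =>
            Module.finrank k M = n ∧
            (∃ e : (M →ₐ[k] AlgebraicClosure k) ≃ Fin n, ∀ π : Equiv.Perm (Fin n),
               π ∈ G ↔ ∃ σ : AlgebraicClosure k ≃ₐ[k] AlgebraicClosure k,
                 ∀ φ : M →ₐ[k] AlgebraicClosure k, e (σ.toAlgHom.comp φ) = π (e φ)) ∧
            ∃ h : NumberField M,
              ((|@NumberField.discr M _ h| : ℤ) : ℝ) ≤
                B * ((|NumberField.discr k| : ℤ) : ℝ) ^ n) (fun M => ?_)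
  constructor
  · rintro ⟨h1, h2, h3⟩
    have hfd : FiniteDimensional k M := Module.finite_of_finrank_pos (by rw [h1]; exact hn)
    exact ⟨hfd, h1, h2, (ch4_disc M hfd n h1 B).1 h3⟩
  · rintro ⟨hfd, h1, h2, h3⟩
    exact ⟨h1, h2, (ch4_disc M hfd n h1 B).2 h3⟩

end Pool.Agent.H98.MF
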