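import Pool.Agent.H98.MF.NFrm
import Pool.Agent.H98.MF.NNin
import Pool.Agent.H98.MF.C.Main

/-!
# Project MK4 (MP_a3214d): every number field has a frame
-/

set_option autoImplicit false

namespace Pool.Agent.H98.MF

theorem exists_frm (k : Type) [Field k] [NumberField k] : Nonempty (Frm k) :=
  frm_of (B.lin k) (B.c1 k) (B.ci k (B.lin k)) (B.recSt (nin k)) (B.frSt (nin k))

end Pool.Agent.H98.MF
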