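import Pool.Agent.H98.MF.SCntSqf1
import Pool.Agent.H98.MF.SCount
import Pool.Agent.H98.MF.SCop
import Pool.Agent.H98.MF.SSqf

/-!
# Project MK4 (MP_a3214d), row A8: counting sets of primes prime to `z`
-/

set_option autoImplicit false

open scoped BigOperators
open Filter

namespace Pool.Agent.H98.MF

open Pool.Agent.H98.MK (sg)
open Pool.Agent.H98.ML (Dt Ext Wt)

theorem cnt_sqf (F : Sys) : ∃ κ C : ℝ, 0 < κ ∧ ∀ (z : Finset F.P) (t : ℝ), 1 ≤ t →
    |(((F.bx t).filter fun x => Disjoint x z).card : ℝ) -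
      κ * (∏ p ∈ z, (1 + 1 / (F.N p : ℝ))⁻¹) * t| ≤ C * F.hs z * t ^ (1 - F.dl) :=
  cnt_sqf_of F (cnt_cop F) (fun y w g t ht => sqf_ident F.toPre y w g t ht)
    (summable_N F (3 / 2) (by norm_num))

end Pool.Agent.H98.MF
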