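import Pool.Agent.H98.MF.STransfer
import Pool.Agent.H98.ML.RSum

/-!
# Project MK4 (MP_a3214d), block SYS: weighted tuples
-/

set_option autoImplicit false

open scoped BigOperators

namespace Pool.Agent.H98.MF

theorem rsu_ph_nonneg (S : Pre) (h : Finset S.P → ℝ) (hh : ∀ x, 0 ≤ h x) (n : ℕ) :
    0 ≤ S.ph h n :=
  Finset.sum_nonneg fun x _ => hh x

theorem rsu_ph_sum (S : Pre) (h : Finset S.P → ℝ)
    (C0 : ℝ) (hs : ∀ t : ℝ, 1 ≤ t → ∑ x ∈ S.bx t, h x ≤ C0 * t) (t : ℝ) (ht : 1 ≤ t) :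
    ∑ n ∈ Finset.Icc 1 ⌊t⌋₊, S.ph h n ≤ C0 * t := by
  have h1 := sum_bx S h (fun _ => 1) t
  simp only [mul_one] at h1
  rw [← h1]
  exact hs t ht

open Classical in
theorem rs_sum (S : Pre) {κ : Type} [Fintype κ] (h : Finset S.P → ℝ) (hh : ∀ x, 0 ≤ h x)
    (C0 : ℝ) (hs : ∀ t : ℝ, 1 ≤ t → ∑ x ∈ S.bx t, h x ≤ C0 * t) :
    ∃ C : ℝ, ∀ Y H : ℝ, 1 ≤ Y → 1 ≤ H →
      ∑ r ∈ Fintype.piFinset (fun _ : κ => S.bx Y),
        (if ∏ i, (S.nm (r i) : ℝ) ≤ Y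
          then (∏ i, h (r i)) * min (Y / ∏ i, (S.nm (r i) : ℝ)) H else 0) ≤
      C * Y * (1 + Real.log Y) ^ (Fintype.card κ - 1) * (1 + Real.log H) := by
  obtain ⟨C, hC⟩ := ML.rs_sum (κ := κ) (S.ph h) (rsu_ph_nonneg S h hh) C0 (rsu_ph_sum S h C0 hs)
  refine ⟨C, fun Y H hY hH => ?_⟩
  have h1 := sum_tuple S (fun _ : κ => h)
    (fun n => if ∏ i, (n i : ℝ) ≤ Y then min (Y / ∏ i, (n i : ℝ)) H else 0) Y
  have h2 := hC Y H hY hH
  have h3 : ∑ r ∈ Fintype.piFinset (fun _ : κ => S.bx Y),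
        (if ∏ i, (S.nm (r i) : ℝ) ≤ Y
          then (∏ i, h (r i)) * min (Y / ∏ i, (S.nm (r i) : ℝ)) H else 0) =
      ∑ r ∈ Fintype.piFinset (fun _ : κ => Finset.Icc 1 ⌊Y⌋₊),
        (if ∏ i, (r i : ℝ) ≤ Y then (∏ i, S.ph h (r i)) * min (Y / ∏ i, (r i : ℝ)) H else 0) := by
    calc _ = ∑ x ∈ Fintype.piFinset (fun _ : κ => S.bx Y), (∏ i, h (x i)) *
          (if ∏ i, (S.nm (x i) : ℝ) ≤ Y then min (Y / ∏ i, (S.nm (x i) : ℝ)) H else 0) := by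
          refine Finset.sum_congr rfl fun x _ => ?_
          split_ifs
          · rfl
          · rw [mul_zero]
      _ = _ := h1
      _ = _ := by
          refine Finset.sum_congr rfl fun x _ => ?_
          split_ifs
          · rfl
          · rw [mul_zero]
  rw [h3]
  exact h2

open Classical in
theorem tp_le (S : Pre) {κ : Type} [Fintype κ] (h : Finset S.P → ℝ) (hh : ∀ x, 0 ≤ h x)
    (C0 : ℝ) (hs : ∀ t : ℝ, 1 ≤ t → ∑ x ∈ S.bx t, h x ≤ C0 * t) :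
    ∃ C : ℝ, ∀ Y : ℝ, 1 ≤ Y →
      ∑ r ∈ Fintype.piFinset (fun _ : κ => S.bx Y),
        (if ∏ i, (S.nm (r i) : ℝ) ≤ Y then ∏ i, h (r i) else 0) ≤
      C * Y * (1 + Real.log Y) ^ (Fintype.card κ - 1) := by
  obtain ⟨C, hC⟩ := rs_sum S (κ := κ) h hh C0 hs
  refine ⟨C, fun Y hY => ?_⟩
  have h1 := hC Y 1 hY le_rfl
  rw [Real.log_one, add_zero, mul_one] at h1
  refine le_trans (le_of_eq ?_) h1
  refine Finset.sum_congr rfl fun r _ => ?_
  split_ifs with h2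
  · have h3 : 0 < ∏ i, (S.nm (r i) : ℝ) := Finset.prod_pos fun i _ => S.nm_posr (r i)
    rw [min_eq_right (by rw [le_div_iff₀ h3, one_mul]; exact h2), mul_one]
  · rfl

theorem harm_le (S : Pre) (h : Finset S.P → ℝ) (hh : ∀ x, 0 ≤ h x)
    (C0 : ℝ) (hs : ∀ t : ℝ, 1 ≤ t → ∑ x ∈ S.bx t, h x ≤ C0 * t) :
    ∃ C : ℝ, ∀ t w : ℝ, 1 ≤ t → 1 ≤ w →
      ∑ x ∈ S.bx t, h x * (S.nm x : ℝ) ^ (-w) ≤ C * (1 + Real.log t) := by
  refine ⟨4 * C0, fun t w ht hw => ?_⟩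
  have h1 := ML.rs_S (rsu_ph_nonneg S h hh) (rsu_ph_sum S h C0 hs) ht
  have h2 := sum_bx S h (fun n => 1 / (n : ℝ)) t
  refine le_trans ?_ h1
  have h3 : ∑ n ∈ Finset.Icc 1 ⌊t⌋₊, S.ph h n / (n : ℝ) =
      ∑ n ∈ Finset.Icc 1 ⌊t⌋₊, S.ph h n * (1 / (n : ℝ)) :=
    Finset.sum_congr rfl fun n _ => div_eq_mul_one_div _ _
  rw [h3, ← h2]
  refine Finset.sum_le_sum fun x _ => mul_le_mul_of_nonneg_left ?_ (hh x)
  have h4 := Real.rpow_le_rpow_of_exponent_le (S.one_le_nmr x) (neg_le_neg hw)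
  rw [Real.rpow_neg_one] at h4
  rw [one_div]
  exact h4

/-- one dyadic block -/
theorem rsu_block (S : Pre) (h : Finset S.P → ℝ) (hh : ∀ x, 0 ≤ h x)
    (C0 : ℝ) (hs : ∀ t : ℝ, 1 ≤ t → ∑ x ∈ S.bx t, h x ≤ C0 * t) (w : ℝ) (P t : ℝ)
    (hP : 1 ≤ P) (j : ℕ) :
    ∑ x ∈ S.bx t, (if (S.nm x : ℝ) ≤ P * 2 ^ (j + 1) then h x * (P * 2 ^ j) ^ (-w) else 0) ≤
      2 * C0 * P ^ (-(w - 1)) * ((2 : ℝ) ^ (-(w - 1))) ^ j := by
  have hP0 : 0 < P := by linarith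
  have h2 : (0 : ℝ) < P * 2 ^ j := by positivity
  rw [← Finset.sum_filter, ← Finset.sum_mul]
  have h3 : (S.bx t).filter (fun x => (S.nm x : ℝ) ≤ P * 2 ^ (j + 1)) ⊆
      S.bx (P * 2 ^ (j + 1)) := by
    intro x hx
    rw [Finset.mem_filter] at hx
    exact S.mem_bx.2 hx.2
  have h5 : (1 : ℝ) ≤ P * 2 ^ (j + 1) := by
    have h6 : (1 : ℝ) ≤ 2 ^ (j + 1) := one_le_pow₀ (by norm_num)
    nlinarith
  have h4 := (Finset.sum_le_sum_of_subset_of_nonneg h3 fun x _ _ => hh x).trans (hs _ h5)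
  refine (mul_le_mul_of_nonneg_right h4 (Real.rpow_nonneg h2.le _)).trans (le_of_eq ?_)
  have e1 : (P * 2 ^ j) ^ (-w) = (P * 2 ^ j) ^ (-(w - 1)) * (P * 2 ^ j)⁻¹ := by
    rw [← Real.rpow_neg_one, ← Real.rpow_add h2]
    congr 1
    ring
  have e2 : (P * (2 : ℝ) ^ j) ^ (-(w - 1)) = P ^ (-(w - 1)) * ((2 : ℝ) ^ (-(w - 1))) ^ j := by
    rw [Real.mul_rpow hP0.le (by positivity), ← Real.rpow_natCast 2 j, ← Real.rpow_mul (by norm_num),
      mul_comm (j : ℝ), Real.rpow_mul (by norm_num), Real.rpow_natCast]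
  rw [e1, e2, pow_succ]
  field_simp

theorem tail_le (S : Pre) (h : Finset S.P → ℝ) (hh : ∀ x, 0 ≤ h x)
    (C0 : ℝ) (hs : ∀ t : ℝ, 1 ≤ t → ∑ x ∈ S.bx t, h x ≤ C0 * t) (w : ℝ) (hw : 1 < w) :
    ∃ C : ℝ, ∀ P t : ℝ, 1 ≤ P →
      ∑ x ∈ S.bx t, (if P < S.nm x then h x * (S.nm x : ℝ) ^ (-w) else 0) ≤
        C * P ^ (-(w - 1)) := by
  have hC0 : 0 ≤ C0 := by
    have h1 := hs 1 le_rfl
    rw [mul_one] at h1
    exact (Finset.sum_nonneg fun x _ => hh x).trans h1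
  set ρ : ℝ := (2 : ℝ) ^ (-(w - 1)) with hρ
  have hρ0 : 0 ≤ ρ := Real.rpow_nonneg (by norm_num) _
  have hρ1 : ρ < 1 := Real.rpow_lt_one_of_one_lt_of_neg (by norm_num) (by linarith)
  refine ⟨2 * C0 * (1 - ρ)⁻¹, fun P t hP => ?_⟩
  have hP0 : 0 < P := by linarith
  obtain ⟨J, hJ⟩ := pow_unbounded_of_one_lt t (by norm_num : (1 : ℝ) < 2)
  have h1 : ∀ x ∈ S.bx t, (if P < S.nm x then h x * (S.nm x : ℝ) ^ (-w) else 0) ≤
      ∑ j ∈ Finset.range (J + 1),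
        (if (S.nm x : ℝ) ≤ P * 2 ^ (j + 1) then h x * (P * 2 ^ j) ^ (-w) else 0) := by
    intro x hx
    have hnn : ∀ j ∈ Finset.range (J + 1), (0 : ℝ) ≤
        (if (S.nm x : ℝ) ≤ P * 2 ^ (j + 1) then h x * (P * 2 ^ j) ^ (-w) else 0) := by
      intro j _
      split_ifs
      · exact mul_nonneg (hh x) (Real.rpow_nonneg (by positivity) _)
      · exact le_rfl
    by_cases hx1 : P < S.nm x
    · rw [if_pos hx1]
      have hex : ∃ j : ℕ, (S.nm x : ℝ) ≤ P * 2 ^ (j + 1) := by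
        refine ⟨J, ?_⟩
        have h3 := S.mem_bx.1 hx
        have h4 : (2 : ℝ) ^ J ≤ 2 ^ (J + 1) := pow_le_pow_right₀ (by norm_num) (by omega)
        have h5 : (0 : ℝ) < 2 ^ (J + 1) := by positivity
        nlinarith
      classical
      have hj1 := Nat.find_spec hex
      have hj2 : Nat.find hex ∈ Finset.range (J + 1) := by
        rw [Finset.mem_range]
        have h3 : Nat.find hex ≤ J := by
          refine Nat.find_min' hex ?_
          have h3 := S.mem_bx.1 hx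
          have h4 : (2 : ℝ) ^ J ≤ 2 ^ (J + 1) := pow_le_pow_right₀ (by norm_num) (by omega)
          have h5 : (0 : ℝ) < 2 ^ (J + 1) := by positivity
          nlinarith
        omega
      have hj3 : P * 2 ^ (Nat.find hex) ≤ S.nm x := by
        rcases Nat.eq_zero_or_pos (Nat.find hex) with h0 | h0
        · rw [h0, pow_zero, mul_one]
          exact hx1.le
        · have h3 := Nat.find_min hex (m := Nat.find hex - 1) (by omega)
          rw [Nat.sub_add_cancel h0] at h3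
          exact (not_le.1 h3).le
      refine le_trans ?_ (Finset.single_le_sum hnn hj2)
      rw [if_pos hj1]
      refine mul_le_mul_of_nonneg_left ?_ (hh x)
      exact Real.rpow_le_rpow_of_nonpos (by positivity) hj3 (by linarith)
    · rw [if_neg hx1]
      exact Finset.sum_nonneg hnn
  calc _ ≤ _ := Finset.sum_le_sum h1
    _ = ∑ j ∈ Finset.range (J + 1), ∑ x ∈ S.bx t,
        (if (S.nm x : ℝ) ≤ P * 2 ^ (j + 1) then h x * (P * 2 ^ j) ^ (-w) else 0) :=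
        Finset.sum_comm
    _ ≤ ∑ j ∈ Finset.range (J + 1), 2 * C0 * P ^ (-(w - 1)) * ρ ^ j :=
        Finset.sum_le_sum fun j _ => rsu_block S h hh C0 hs w P t hP j
    _ = 2 * C0 * P ^ (-(w - 1)) * ∑ j ∈ Finset.range (J + 1), ρ ^ j := by rw [Finset.mul_sum]
    _ ≤ 2 * C0 * P ^ (-(w - 1)) * (1 - ρ)⁻¹ := by
        refine mul_le_mul_of_nonneg_left ?_ (mul_nonneg (by positivity)
          (Real.rpow_nonneg hP0.le _))
        have h2 := (summable_geometric_of_lt_one hρ0 hρ1).sum_le_tsum (Finset.range (J + 1))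
          (fun j _ => pow_nonneg hρ0 j)
        rwa [tsum_geometric_of_lt_one hρ0 hρ1] at h2
    _ = _ := by ring

end Pool.Agent.H98.MF
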