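import Pool.Agent.H98.MF.SHs0
import Pool.Agent.H98.MF.SCount
import Pool.Agent.H98.MF.SRSum

/-!
# Project MK4 (MP_a3214d), block SYS: sums of the loss function `hs`
-/

set_option autoImplicit false

open scoped BigOperators

namespace Pool.Agent.H98.MF

theorem hs_tail (F : Sys) (B : ℝ) (hB : 0 ≤ B) (j : ℕ) (s : ℝ) (hs : 1 < s) :
    ∃ C : ℝ, ∀ t : ℝ, ∑ x ∈ F.bx t, B ^ x.card * F.hs x ^ j * (F.nm x : ℝ) ^ (-s) ≤ C := by
  set g : F.P → ℝ := fun p => B * F.shf p ^ j * (F.N p : ℝ) ^ (-s) with hg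
  have hg0 : ∀ p, 0 ≤ g p := fun p =>
    mul_nonneg (mul_nonneg hB (pow_nonneg (zero_le_one.trans (F.sh_one_le p)) _))
      (Real.rpow_nonneg (Nat.cast_nonneg _) _)
  have hgs : Summable g := by
    refine Summable.of_nonneg_of_le hg0 (fun p => ?_) ((summable_N F s hs).mul_left (B * 4 ^ j))
    refine mul_le_mul_of_nonneg_right ?_ (Real.rpow_nonneg (Nat.cast_nonneg _) _)
    refine mul_le_mul_of_nonneg_left ?_ hB
    exact pow_le_pow_left₀ (zero_le_one.trans (F.sh_one_le p)) (F.sh_le_four p) _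
  refine ⟨Real.exp (∑' p, g p), fun t => ?_⟩
  refine le_trans (le_of_eq ?_) (sum_prod_le F.toPre g hg0 hgs t)
  refine Finset.sum_congr rfl fun x _ => ?_
  rw [F.sh_hs, F.sh_nm_rpow, ← Finset.prod_const, ← Finset.prod_mul_distrib,
    ← Finset.prod_mul_distrib]

/-- the sums without loss -/
theorem sh_base (F : Sys) (k : ℕ) (hk : 1 ≤ k) : ∃ C : ℝ, 0 ≤ C ∧ ∀ t : ℝ, 1 ≤ t →
    ∑ x ∈ F.bx t, (k : ℝ) ^ x.card ≤ C * t * (1 + Real.log t) ^ (k - 1) := by
  obtain ⟨C0, hC0⟩ := card_bx_le F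
  have hone : ∀ t : ℝ, 1 ≤ t → ∑ x ∈ F.bx t, (1 : ℝ) ≤ C0 * t := by
    intro t ht
    have := hC0 t ht
    simpa using this
  obtain ⟨C1, hC1⟩ := harm_le F.toPre (fun _ => 1) (fun _ => zero_le_one) C0 hone
  have hC1' : 0 ≤ C1 := by
    have h1 := hC1 1 1 le_rfl le_rfl
    have h2 : (0 : ℝ) ≤ ∑ x ∈ F.bx 1, (1 : ℝ) * (F.nm x : ℝ) ^ (-(1 : ℝ)) :=
      Finset.sum_nonneg fun x _ => by positivity
    rw [Real.log_one, add_zero, mul_one] at h1
    exact h2.trans h1
  have hC0' : 0 ≤ C0 := by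
    have h1 := hC0 1 le_rfl
    have h2 : (0 : ℝ) ≤ (F.bx 1).card := Nat.cast_nonneg _
    linarith
  induction k, hk using Nat.le_induction with
  | base =>
    refine ⟨C0, hC0', fun t ht => ?_⟩
    have := hone t ht
    simpa using this
  | succ k hk ih =>
    obtain ⟨C, hC, h⟩ := ih
    refine ⟨C * C1, mul_nonneg hC hC1', fun t ht => ?_⟩
    have hlog : 0 ≤ Real.log t := Real.log_nonneg ht
    have e1 : ∀ x : Finset F.P, (((k + 1 : ℕ) : ℝ)) ^ x.card =
        ∑ y ∈ x.powerset, (k : ℝ) ^ (x \ y).card := by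
      intro x
      have h1 := Finset.sum_pow_mul_eq_add_pow (1 : ℝ) (k : ℝ) x
      push_cast
      rw [add_comm (k : ℝ) 1, ← h1]
      refine Finset.sum_congr rfl fun y hy => ?_
      rw [one_pow, one_mul, Finset.card_sdiff_of_subset (Finset.mem_powerset.1 hy)]
    calc ∑ x ∈ F.bx t, (((k + 1 : ℕ) : ℝ)) ^ x.card
        = ∑ x ∈ F.bx t, ∑ y ∈ x.powerset, (k : ℝ) ^ (x \ y).card :=
          Finset.sum_congr rfl fun x _ => e1 x
      _ ≤ ∑ y ∈ F.bx t, ∑ z ∈ F.bx (t / F.nm y), (k : ℝ) ^ z.card :=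
          F.sh_double (fun _ z => (k : ℝ) ^ z.card) (fun _ _ => by positivity) t
      _ ≤ ∑ y ∈ F.bx t, (C * t * (1 + Real.log t) ^ (k - 1)) * (1 * (F.nm y : ℝ) ^ (-(1 : ℝ))) := by
          refine Finset.sum_le_sum fun y hy => ?_
          have hy1 : (F.nm y : ℝ) ≤ t := F.mem_bx.1 hy
          have hy2 : (1 : ℝ) ≤ F.nm y := F.one_le_nmr y
          have hy3 : (1 : ℝ) ≤ t / F.nm y := by rwa [le_div_iff₀ (F.nm_posr y), one_mul]
          refine (h _ hy3).trans ?_
          rw [one_mul, Real.rpow_neg_one]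
          have h5 : t / F.nm y ≤ t := div_le_self (by linarith) hy2
          have h6 : Real.log (t / F.nm y) ≤ Real.log t := Real.log_le_log (by linarith) h5
          have h7 : (1 + Real.log (t / F.nm y)) ^ (k - 1) ≤ (1 + Real.log t) ^ (k - 1) :=
            pow_le_pow_left₀ (by linarith [Real.log_nonneg hy3]) (by linarith) _
          have h8 : C * (t / F.nm y) * (1 + Real.log (t / F.nm y)) ^ (k - 1) ≤
              C * (t / F.nm y) * (1 + Real.log t) ^ (k - 1) :=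
            mul_le_mul_of_nonneg_left h7 (mul_nonneg hC (by linarith))
          refine h8.trans (le_of_eq ?_)
          rw [div_eq_mul_inv]
          ring
      _ ≤ (C * t * (1 + Real.log t) ^ (k - 1)) * (C1 * (1 + Real.log t)) := by
          rw [← Finset.mul_sum]
          refine mul_le_mul_of_nonneg_left (hC1 t 1 ht le_rfl) ?_
          exact mul_nonneg (mul_nonneg hC (by linarith)) (by positivity)
      _ = C * C1 * t * (1 + Real.log t) ^ (k + 1 - 1) := by
          have h9 : k + 1 - 1 = (k - 1) + 1 := by omega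
          rw [h9, pow_succ]
          ring

theorem hs_sum (F : Sys) (k j : ℕ) (hk : 1 ≤ k) : ∃ C : ℝ, ∀ t : ℝ, 1 ≤ t →
    ∑ x ∈ F.bx t, (k : ℝ) ^ x.card * F.hs x ^ j ≤ C * t * (1 + Real.log t) ^ (k - 1) := by
  obtain ⟨C, hC, hbase⟩ := sh_base F k hk
  obtain ⟨D, hD, hu⟩ := F.sh_pow_sub_one j
  set u : F.P → ℝ := fun p => F.shf p ^ j - 1 with hudef
  have hu0 : ∀ p, 0 ≤ u p := fun p => sub_nonneg.2 (one_le_pow₀ (F.sh_one_le p))
  set g : F.P → ℝ := fun p => k * u p * (F.N p : ℝ) ^ (-(1 : ℝ)) with hg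
  have hg0 : ∀ p, 0 ≤ g p := fun p =>
    mul_nonneg (mul_nonneg (Nat.cast_nonneg _) (hu0 p)) (Real.rpow_nonneg (Nat.cast_nonneg _) _)
  have hgs : Summable g := by
    refine Summable.of_nonneg_of_le hg0 (fun p => ?_)
      ((summable_N F (3 / 2) (by norm_num)).mul_left (k * D))
    have hN : (0 : ℝ) < F.N p := by
      have := F.one_le_N p
      exact_mod_cast (by omega : 0 < F.N p)
    have e1 : (F.N p : ℝ) ^ (-(3 / 2) : ℝ) =
        (F.N p : ℝ) ^ (-(1 / 2) : ℝ) * (F.N p : ℝ) ^ (-(1 : ℝ)) := by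
      rw [← Real.rpow_add hN]
      norm_num
    rw [e1, ← mul_assoc]
    refine mul_le_mul_of_nonneg_right ?_ (Real.rpow_nonneg (Nat.cast_nonneg _) _)
    rw [mul_assoc]
    exact mul_le_mul_of_nonneg_left (hu p) (Nat.cast_nonneg _)
  refine ⟨C * Real.exp (∑' p, g p), fun t ht => ?_⟩
  have hlog : 0 ≤ Real.log t := Real.log_nonneg ht
  have e2 : ∀ x : Finset F.P, (k : ℝ) ^ x.card * F.hs x ^ j =
      ∑ y ∈ x.powerset, ((k : ℝ) ^ y.card * ∏ p ∈ y, u p) * (k : ℝ) ^ (x \ y).card := by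
    intro x
    have h1 : F.hs x ^ j = ∑ y ∈ x.powerset, ∏ p ∈ y, u p := by
      rw [F.sh_hs]
      have h2 : ∏ p ∈ x, F.shf p ^ j = ∏ p ∈ x, (1 + u p) :=
        Finset.prod_congr rfl fun p _ => by simp [hudef]
      rw [h2, Finset.prod_one_add]
    rw [h1, Finset.mul_sum]
    refine Finset.sum_congr rfl fun y hy => ?_
    have h3 : y.card + (x \ y).card = x.card := by
      rw [add_comm]
      exact Finset.card_sdiff_add_card_eq_card (Finset.mem_powerset.1 hy)
    rw [← h3, pow_add]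
    ring
  calc ∑ x ∈ F.bx t, (k : ℝ) ^ x.card * F.hs x ^ j
      = ∑ x ∈ F.bx t, ∑ y ∈ x.powerset,
          ((k : ℝ) ^ y.card * ∏ p ∈ y, u p) * (k : ℝ) ^ (x \ y).card :=
        Finset.sum_congr rfl fun x _ => e2 x
    _ ≤ ∑ y ∈ F.bx t, ∑ z ∈ F.bx (t / F.nm y),
          ((k : ℝ) ^ y.card * ∏ p ∈ y, u p) * (k : ℝ) ^ z.card := by
        refine F.sh_double (fun y z => ((k : ℝ) ^ y.card * ∏ p ∈ y, u p) * (k : ℝ) ^ z.card)
          (fun y z => ?_) t
        exact mul_nonneg (mul_nonneg (by positivity) (Finset.prod_nonneg fun p _ => hu0 p))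
          (by positivity)
    _ ≤ ∑ y ∈ F.bx t, (C * t * (1 + Real.log t) ^ (k - 1)) * ∏ p ∈ y, g p := by
        refine Finset.sum_le_sum fun y hy => ?_
        have hy1 : (F.nm y : ℝ) ≤ t := F.mem_bx.1 hy
        have hy2 : (1 : ℝ) ≤ F.nm y := F.one_le_nmr y
        have hy3 : (1 : ℝ) ≤ t / F.nm y := by rwa [le_div_iff₀ (F.nm_posr y), one_mul]
        have h5 : t / F.nm y ≤ t := div_le_self (by linarith) hy2
        have h6 : Real.log (t / F.nm y) ≤ Real.log t := Real.log_le_log (by linarith) h5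
        have h7 : (1 + Real.log (t / F.nm y)) ^ (k - 1) ≤ (1 + Real.log t) ^ (k - 1) :=
          pow_le_pow_left₀ (by linarith [Real.log_nonneg hy3]) (by linarith) _
        have h8 : C * (t / F.nm y) * (1 + Real.log (t / F.nm y)) ^ (k - 1) ≤
            C * (t / F.nm y) * (1 + Real.log t) ^ (k - 1) :=
          mul_le_mul_of_nonneg_left h7 (mul_nonneg hC (by linarith))
        have h9 : ∏ p ∈ y, g p = ((k : ℝ) ^ y.card * ∏ p ∈ y, u p) * (F.nm y : ℝ)⁻¹ := by
          rw [hg, Finset.prod_mul_distrib, Finset.prod_mul_distrib, Finset.prod_const,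
            ← F.sh_nm_rpow, Real.rpow_neg_one]
        rw [← Finset.mul_sum, h9]
        have h10 : 0 ≤ (k : ℝ) ^ y.card * ∏ p ∈ y, u p :=
          mul_nonneg (by positivity) (Finset.prod_nonneg fun p _ => hu0 p)
        calc ((k : ℝ) ^ y.card * ∏ p ∈ y, u p) * ∑ z ∈ F.bx (t / F.nm y), (k : ℝ) ^ z.card
            ≤ ((k : ℝ) ^ y.card * ∏ p ∈ y, u p) *
                (C * (t / F.nm y) * (1 + Real.log t) ^ (k - 1)) :=
              mul_le_mul_of_nonneg_left ((hbase _ hy3).trans h8) h10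
          _ = (C * t * (1 + Real.log t) ^ (k - 1)) *
                (((k : ℝ) ^ y.card * ∏ p ∈ y, u p) * (F.nm y : ℝ)⁻¹) := by
              rw [div_eq_mul_inv]
              ring
    _ ≤ (C * t * (1 + Real.log t) ^ (k - 1)) * Real.exp (∑' p, g p) := by
        rw [← Finset.mul_sum]
        refine mul_le_mul_of_nonneg_left (sum_prod_le F.toPre g hg0 hgs t) ?_
        exact mul_nonneg (mul_nonneg hC (by linarith)) (by positivity)
    _ = C * Real.exp (∑' p, g p) * t * (1 + Real.log t) ^ (k - 1) := by ring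

end Pool.Agent.H98.MF
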