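import Pool.Agent.H98.MF.SPairs0
import Pool.Agent.H98.MF.SHs

/-!
# Project MK4 (MP_a3214d), row A9: coincidences of `k`-fold products
-/

set_option autoImplicit false

open scoped BigOperators
open Filter

namespace Pool.Agent.H98.MF

open Pool.Agent.H98.MK (sg)
open Pool.Agent.H98.ML (Dt Ext Wt)

open Classical in
theorem pairs (F : Sys) (k : ℕ) : ∃ (C : ℝ) (E : ℕ), ∀ M : ℝ, 1 ≤ M →
    ((((Fintype.piFinset fun _ : Fin k => F.bx M) ×ˢ (Fintype.piFinset fun _ : Fin k => F.bx M)).filter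
      fun z => ∑ i, F.idf (z.1 i) = ∑ i, F.idf (z.2 i)).card : ℝ) ≤
      C * M ^ k * (1 + Real.log M) ^ E :=
  pairs_of F k (hs_sum F (2 ^ k) 0 Nat.one_le_two_pow)

end Pool.Agent.H98.MF
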