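import Pool.Agent.H98.MF.SSieve0
import Pool.Agent.H98.MF.SCount
import Pool.Agent.H98.MF.SHs
import Pool.Agent.H98.MF.SCop

/-!
# Project MK4 (MP_a3214d), row A10: mean square over ideals
-/

set_option autoImplicit false

open scoped BigOperators
open Filter

namespace Pool.Agent.H98.MF

open Pool.Agent.H98.MK (sg)
open Pool.Agent.H98.ML (Dt Ext Wt)

theorem sieve (F : Sys) : ∃ C : ℝ, ∀ (X K : ℝ) (b : Finset F.P → ℝ), 1 ≤ X → 1 ≤ K →
    (∀ y, |b y| ≤ 1) →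
    ∑ f ∈ F.idl X, (∑ y ∈ F.bx K, b y * (F.chv y (F.ex y 0) f : ℝ)) ^ 2 ≤
      C * (X * K + K ^ (2 * F.A + 2) * X ^ (1 - F.dl)) := by
  refine sieve_of F (chr_cop F) (card_idl_le F) (card_bx_le F) ?_
  obtain ⟨C, hC⟩ := hs_sum F 1 1 le_rfl
  refine ⟨C, fun t ht => ?_⟩
  have h := hC t ht
  simpa using h

end Pool.Agent.H98.MF
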