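import Pool.Agent.H98.MF.SBox1
import Pool.Agent.H98.MF.SCount
import Pool.Agent.H98.MF.SPairs
import Pool.Agent.H98.MF.SSieve

/-!
# Project MK4 (MP_a3214d), row A11: bilinear sums over boxes
-/

set_option autoImplicit false

open scoped BigOperators
open Filter

namespace Pool.Agent.H98.MF

open Pool.Agent.H98.MK (sg)
open Pool.Agent.H98.ML (Dt Ext Wt)

theorem box (F : Sys) : ∃ (C : ℝ) (E : ℕ), ∀ (M K : ℝ) (a b : Finset F.P → ℝ), 1 ≤ K → K ≤ M →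
    (∀ x, |a x| ≤ 1) → (∀ y, |b y| ≤ 1) →
    |∑ x ∈ F.bx M, ∑ y ∈ F.bx K, (if Disjoint x y then a x * b y * (F.jj x y : ℝ) else 0)| ≤
      C * M * K ^ (1 - 2 * F.c0) * (1 + Real.log M) ^ E := by
  obtain ⟨C1, E1, h1⟩ := pairs F F.kk
  obtain ⟨C2, h2⟩ := sieve F
  exact box_of F (card_bx_le F) ⟨|C1| * (2 * |C2|), E1, by positivity,
    fun M K a hK hKM ha => a11_moment F F.kk F.kk_mul C1 E1 h1 C2 h2 M K a hK hKM ha⟩

end Pool.Agent.H98.MF
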