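import Pool.Agent.H98.MF.SBoxSym1
import Pool.Agent.H98.MF.SBox

/-!
# Project MK4 (MP_a3214d), row A12: bilinear bound for boxes, symmetric form
-/

set_option autoImplicit false

open scoped BigOperators
open Filter

namespace Pool.Agent.H98.MF

open Pool.Agent.H98.MK (sg)
open Pool.Agent.H98.ML (Dt Ext Wt)

theorem box_sym (F : Sys) : ∃ (C : ℝ) (E : ℕ), ∀ (M K P : ℝ) (a b : Finset F.P → ℝ), 1 ≤ P →
    P ≤ M → P ≤ K → (∀ x, |a x| ≤ 1) → (∀ y, |b y| ≤ 1) →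
    |∑ x ∈ F.bx M, ∑ y ∈ F.bx K, (if Disjoint x y then a x * b y * (F.jj x y : ℝ) else 0)| ≤
      C * (M * K) * P ^ (-(2 * F.c0)) * (1 + Real.log (M * K)) ^ E :=
  box_sym_of F (box F)

end Pool.Agent.H98.MF
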