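import Pool.Agent.H98.MF.Sys

/-!
# Project MK4 (MP_a3214d), block SYS: basic lemmas and definitions for the analytic part
-/

set_option autoImplicit false

open scoped BigOperators

namespace Pool.Agent.H98.MF

open Pool.Agent.H98.MK (sg)
open Pool.Agent.H98.ML (Dt Ext Wt)

/-! ### signs -/

theorem zm2 (t : ZMod 2) : t = 0 ∨ t = 1 := by
  revert t; decide

theorem sg_zero : sg 0 = 1 := rfl

theorem sg_one : sg 1 = -1 := by decide

theorem sg_add (a b : ZMod 2) : sg (a + b) = sg a * sg b := by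
  revert a b; decide

theorem sg_mul_self (a : ZMod 2) : sg a * sg a = 1 := by
  revert a; decide

theorem sg_sum {ι : Type*} (s : Finset ι) (f : ι → ZMod 2) :
    sg (∑ i ∈ s, f i) = ∏ i ∈ s, sg (f i) := by
  classical
  induction s using Finset.induction_on with
  | empty => rfl
  | insert a s ha ih => rw [Finset.sum_insert ha, Finset.prod_insert ha, sg_add, ih]

theorem abs_sg (a : ZMod 2) : |sg a| = 1 := by
  revert a; decide

theorem abs_sgr (a : ZMod 2) : |((sg a : ℤ) : ℝ)| = 1 := by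
  have h := abs_sg a
  rw [← Int.cast_abs, h, Int.cast_one]

theorem sg_mul (a b : ZMod 2) : sg (a * b) =
    1 - 2 * (if a = 1 then 1 else 0) * (if b = 1 then 1 else 0) := by
  revert a b; decide

/-- the product of signs is `1 - 2 [a][b]`, expanded in characters -/
theorem two_sg_mul (a b : ZMod 2) : 2 * sg (a * b) = 1 + sg a + sg b - sg a * sg b := by
  revert a b; decide

namespace Pre

variable (S : Pre)

/-! ### norms -/

theorem nm_empty : S.nm ∅ = 1 := rfl

theorem one_le_nm (x : Finset S.P) : 1 ≤ S.nm x :=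
  Finset.one_le_prod' fun p _ => S.one_le_N p

theorem nm_pos (x : Finset S.P) : 0 < S.nm x := S.one_le_nm x

theorem nm_posr (x : Finset S.P) : (0 : ℝ) < S.nm x := by exact_mod_cast S.nm_pos x

theorem one_le_nmr (x : Finset S.P) : (1 : ℝ) ≤ S.nm x := by exact_mod_cast S.one_le_nm x

theorem pow_card_le_nm (x : Finset S.P) : 2 ^ x.card ≤ S.nm x := by
  unfold nm
  rw [← Finset.prod_const]
  exact Finset.prod_le_prod' fun p _ => S.two_le p

theorem nm_mono {x y : Finset S.P} (h : x ⊆ y) : S.nm x ≤ S.nm y :=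
  Finset.prod_le_prod_of_subset_of_one_le' h fun p _ _ => S.one_le_N p

theorem N_le_nm {x : Finset S.P} {p : S.P} (h : p ∈ x) : S.N p ≤ S.nm x := by
  have h1 := S.nm_mono (Finset.singleton_subset_iff.2 h)
  unfold nm at h1
  rwa [Finset.prod_singleton] at h1

theorem two_le_nm {x : Finset S.P} (h : x.Nonempty) : 2 ≤ S.nm x := by
  obtain ⟨p, hp⟩ := h
  exact (S.two_le p).trans (S.N_le_nm hp)

theorem nm_eq_one {x : Finset S.P} : S.nm x = 1 ↔ x = ∅ := by
  constructor
  · intro h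
    rcases x.eq_empty_or_nonempty with h1 | h1
    · exact h1
    · have := S.two_le_nm h1
      omega
  · rintro rfl
    rfl

theorem nm_union {x y : Finset S.P} (h : Disjoint x y) : S.nm (x ∪ y) = S.nm x * S.nm y :=
  Finset.prod_union h

theorem nm_union_le (x y : Finset S.P) : S.nm (x ∪ y) ≤ S.nm x * S.nm y := by
  rw [← Finset.union_sdiff_self_eq_union, S.nm_union Finset.disjoint_sdiff]
  exact Nat.mul_le_mul_left _ (S.nm_mono Finset.sdiff_subset)

theorem nm_insert {p : S.P} {x : Finset S.P} (h : p ∉ x) : S.nm (insert p x) = S.N p * S.nm x :=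
  Finset.prod_insert h

theorem nm_biUnion {ι : Type*} (s : Finset ι) (x : ι → Finset S.P)
    (h : ∀ i ∈ s, ∀ j ∈ s, i ≠ j → Disjoint (x i) (x j)) :
    S.nm (s.biUnion x) = ∏ i ∈ s, S.nm (x i) := by
  unfold nm
  exact Finset.prod_biUnion fun i hi j hj hij => h i hi j hj hij

theorem mem_bx {t : ℝ} {x : Finset S.P} : x ∈ S.bx t ↔ (S.nm x : ℝ) ≤ t := by
  unfold bx
  rw [Finset.mem_filter, Finset.mem_powerset]
  refine ⟨fun h => h.2, fun h => ⟨fun p hp => ?_, h⟩⟩
  have h1 : (0 : ℝ) ≤ t := le_trans (Nat.cast_nonneg _) h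
  rw [S.mem_pr h1]
  exact le_trans (by exact_mod_cast S.N_le_nm hp) h

theorem bx_mono {s t : ℝ} (h : s ≤ t) : S.bx s ⊆ S.bx t := fun _ hx =>
  S.mem_bx.2 ((S.mem_bx.1 hx).trans h)

theorem empty_mem_bx {t : ℝ} (h : 1 ≤ t) : ∅ ∈ S.bx t := by
  rw [S.mem_bx, S.nm_empty, Nat.cast_one]
  exact h

theorem nf_zero : S.nf 0 = 1 := by
  unfold nf
  exact Finsupp.prod_zero_index

theorem nf_add (f g : S.P →₀ ℕ) : S.nf (f + g) = S.nf f * S.nf g := by
  classical
  unfold nf
  exact Finsupp.prod_add_index' (fun p => pow_zero _) fun p a b => pow_add _ _ _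

theorem nf_single (p : S.P) (k : ℕ) : S.nf (Finsupp.single p k) = S.N p ^ k := by
  unfold nf
  exact Finsupp.prod_single_index (pow_zero _)

theorem zero_mem_idl {X : ℝ} (h : 1 ≤ X) : 0 ∈ S.idl X := by
  rw [S.mem_idl, S.nf_zero, Nat.cast_one]
  exact h

/-! ### definitions for the analytic part -/

/-- the loss from coprimality conditions -/
noncomputable def hs (x : Finset S.P) : ℝ := ∏ p ∈ x, (1 - (S.N p : ℝ) ^ (-(1 / 2) : ℝ))⁻¹

/-- push-forward of a function of finite sets of primes along the norm -/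
noncomputable def ph (h : Finset S.P → ℝ) (n : ℕ) : ℝ :=
  ∑ x ∈ (S.bx n).filter (fun x => S.nm x = n), h x

/-- the ideal of a finite set of primes -/
noncomputable def idf (x : Finset S.P) : S.P →₀ ℕ := Finsupp.indicator x fun _ _ => 1

/-- tuples of nonempty disjoint sets of primes, prime to `z` -/
noncomputable def NN (k : ℕ) (z : Finset S.P) (Y : ℝ) : ℕ :=
  ((Fintype.piFinset fun _ : Fin k => (S.bx Y).erase ∅).filter fun x =>
    (∀ i j, i ≠ j → Disjoint (x i) (x j)) ∧ (∀ i, Disjoint (x i) z) ∧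
      ((∏ i, S.nm (x i) : ℕ) : ℝ) ≤ Y).card

theorem idf_apply (x : Finset S.P) (p : S.P) : S.idf x p = if p ∈ x then 1 else 0 := by
  unfold idf
  rw [Finsupp.indicator_apply]
  split_ifs <;> rfl

theorem idf_support (x : Finset S.P) : (S.idf x).support = x := by
  ext p
  rw [Finsupp.mem_support_iff, S.idf_apply]
  split_ifs with h
  · exact ⟨fun _ => h, fun _ => one_ne_zero⟩
  · exact ⟨fun h1 => absurd rfl h1, fun h1 => absurd h1 h⟩

theorem nf_idf (x : Finset S.P) : S.nf (S.idf x) = S.nm x := by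
  unfold nf nm Finsupp.prod
  rw [S.idf_support]
  refine Finset.prod_congr rfl fun p hp => ?_
  rw [S.idf_apply, if_pos hp]
  exact pow_one _

theorem idf_inj {x y : Finset S.P} (h : S.idf x = S.idf y) : x = y := by
  rw [← S.idf_support x, h, S.idf_support]

theorem one_le_hs_factor (p : S.P) : 1 ≤ (1 - (S.N p : ℝ) ^ (-(1 / 2) : ℝ))⁻¹ := by
  have h2 : (2 : ℝ) ≤ S.N p := by exact_mod_cast S.two_le p
  have h1 : (S.N p : ℝ) ^ (-(1 / 2) : ℝ) < 1 :=
    Real.rpow_lt_one_of_one_lt_of_neg (by linarith) (by norm_num)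
  have h0 : 0 ≤ (S.N p : ℝ) ^ (-(1 / 2) : ℝ) := Real.rpow_nonneg (by linarith) _
  rw [le_inv_comm₀ one_pos (by linarith), inv_one]
  linarith

theorem one_le_hs (x : Finset S.P) : 1 ≤ S.hs x := by
  unfold hs
  exact Finset.one_le_prod fun p _ => S.one_le_hs_factor p

theorem hs_mono {x y : Finset S.P} (h : x ⊆ y) : S.hs x ≤ S.hs y := by
  unfold hs
  rw [← Finset.prod_sdiff h]
  refine le_mul_of_one_le_left (le_trans zero_le_one (S.one_le_hs x)) ?_
  exact Finset.one_le_prod fun p _ => S.one_le_hs_factor p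

theorem hs_union_le (x y : Finset S.P) : S.hs (x ∪ y) ≤ S.hs x * S.hs y := by
  rw [← Finset.union_sdiff_self_eq_union]
  unfold hs
  rw [Finset.prod_union Finset.disjoint_sdiff]
  exact mul_le_mul_of_nonneg_left (S.hs_mono Finset.sdiff_subset)
    (le_trans zero_le_one (S.one_le_hs x))

end Pre

namespace Sys

variable (F : Sys)

/-- the saving, at most `1/4` -/
noncomputable def dl : ℝ := min F.δ (1 / 4)

/-- the number of factors in Hölder's inequality -/
noncomputable def kk : ℕ := ⌈(2 * F.A + 1) / F.dl⌉₊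

/-- the saving in the bilinear estimate -/
noncomputable def c0 : ℝ := 1 / (4 * F.kk)

theorem dl_pos : 0 < F.dl := lt_min F.δ_pos (by norm_num)

theorem dl_le : F.dl ≤ 1 / 4 := min_le_right _ _

theorem dl_le' : F.dl ≤ F.δ := min_le_left _ _

theorem kk_ge : (2 * F.A + 1) / F.dl ≤ F.kk := Nat.le_ceil _

theorem kk_mul : 2 * F.A + 1 ≤ F.kk * F.dl := by
  have := F.kk_ge
  rwa [div_le_iff₀ F.dl_pos] at this

theorem four_le_kk : 4 ≤ F.kk := by
  have h1 := F.kk_mul
  have h2 := F.dl_le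
  have h3 := F.A_nonneg
  have h4 : (4 : ℝ) ≤ F.kk := by
    by_contra h
    push Not at h
    have h5 : (F.kk : ℝ) * F.dl ≤ F.kk * (1 / 4) :=
      mul_le_mul_of_nonneg_left h2 (Nat.cast_nonneg _)
    linarith
  exact_mod_cast h4

theorem c0_pos : 0 < F.c0 := by
  unfold c0
  have h : (4 : ℝ) ≤ F.kk := by exact_mod_cast F.four_le_kk
  positivity

theorem c0_le : F.c0 ≤ 1 / 16 := by
  unfold c0
  have h : (4 : ℝ) ≤ F.kk := by exact_mod_cast F.four_le_kk
  exact one_div_le_one_div_of_le (by norm_num) (by linarith)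

/-- the saving is at most `dl / 4` -/
theorem c0_le_dl : F.c0 ≤ F.dl / 4 := by
  unfold c0
  have h : (4 : ℝ) ≤ F.kk := by exact_mod_cast F.four_le_kk
  have h1 := F.kk_mul
  have h3 := F.A_nonneg
  rw [div_le_div_iff₀ (by linarith) (by norm_num)]
  nlinarith

theorem cnt' (X : ℝ) (hX : 1 ≤ X) :
    |((F.idl X).card : ℝ) - F.κ * X| ≤ F.C * X ^ (1 - F.dl) :=
  (F.cnt X hX).trans (mul_le_mul_of_nonneg_left
    (Real.rpow_le_rpow_of_exponent_le hX (by linarith [F.dl_le'])) F.C_nonneg)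

theorem chr' (y : Finset F.P) (c : F.T) (h : y.Nonempty ∨ c ≠ 0) (X : ℝ) (hX : 1 ≤ X) :
    |∑ f ∈ F.idl X, (F.chv y (F.ex y c) f : ℝ)| ≤
      F.C * (F.nm y : ℝ) ^ F.A * X ^ (1 - F.dl) :=
  (F.chr y c h X hX).trans (mul_le_mul_of_nonneg_left
    (Real.rpow_le_rpow_of_exponent_le hX (by linarith [F.dl_le']))
    (mul_nonneg F.C_nonneg (Real.rpow_nonneg (Nat.cast_nonneg _) _)))

/-! ### symbols -/

theorem tys_empty : F.tys ∅ = 0 := rfl

theorem tys_union {x y : Finset F.P} (h : Disjoint x y) : F.tys (x ∪ y) = F.tys x + F.tys y :=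
  Finset.sum_union h

theorem tys_biUnion {ι : Type*} (s : Finset ι) (x : ι → Finset F.P)
    (h : ∀ i ∈ s, ∀ j ∈ s, i ≠ j → Disjoint (x i) (x j)) :
    F.tys (s.biUnion x) = ∑ i ∈ s, F.tys (x i) := by
  unfold tys
  exact Finset.sum_biUnion fun i hi j hj hij => h i hi j hj hij

theorem dot_tys (c : F.T) (x : Finset F.P) : c ⬝ᵥ F.tys x = ∑ p ∈ x, c ⬝ᵥ F.ty p := by
  unfold tys
  rw [dotProduct_sum]

theorem ps_empty (c : F.T) : F.ps c ∅ = 1 := by
  unfold ps
  rw [F.tys_empty, dotProduct_zero]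
  rfl

theorem ps_zero (x : Finset F.P) : F.ps 0 x = 1 := by
  unfold ps
  rw [zero_dotProduct]
  rfl

theorem ps_union (c : F.T) {x y : Finset F.P} (h : Disjoint x y) :
    F.ps c (x ∪ y) = F.ps c x * F.ps c y := by
  unfold ps
  rw [F.tys_union h, dotProduct_add, sg_add]

theorem abs_ps (c : F.T) (x : Finset F.P) : |(F.ps c x : ℝ)| = 1 := abs_sgr _

theorem JJ_empty_left (y : Finset F.P) : F.JJ ∅ y = 0 := rfl

theorem JJ_empty_right (x : Finset F.P) : F.JJ x ∅ = 0 := by
  unfold JJ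
  simp

theorem JJ_union_left {x x' : Finset F.P} (y : Finset F.P) (h : Disjoint x x') :
    F.JJ (x ∪ x') y = F.JJ x y + F.JJ x' y :=
  Finset.sum_union h

theorem JJ_union_right (x : Finset F.P) {y y' : Finset F.P} (h : Disjoint y y') :
    F.JJ x (y ∪ y') = F.JJ x y + F.JJ x y' := by
  unfold JJ
  rw [← Finset.sum_add_distrib]
  exact Finset.sum_congr rfl fun p _ => Finset.sum_union (f := fun q => F.J q p) h

theorem JJ_biUnion_right {ι : Type*} (x : Finset F.P) (s : Finset ι) (y : ι → Finset F.P)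
    (h : ∀ i ∈ s, ∀ j ∈ s, i ≠ j → Disjoint (y i) (y j)) :
    F.JJ x (s.biUnion y) = ∑ i ∈ s, F.JJ x (y i) := by
  unfold JJ
  exact (Finset.sum_congr rfl fun p _ =>
    Finset.sum_biUnion (f := fun q => F.J q p) fun i hi j hj hij => h i hi j hj hij).trans
      Finset.sum_comm

theorem JJ_biUnion_left {ι : Type*} (s : Finset ι) (x : ι → Finset F.P) (y : Finset F.P)
    (h : ∀ i ∈ s, ∀ j ∈ s, i ≠ j → Disjoint (x i) (x j)) :
    F.JJ (s.biUnion x) y = ∑ i ∈ s, F.JJ (x i) y := by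
  unfold JJ
  exact Finset.sum_biUnion fun i hi j hj hij => h i hi j hj hij

theorem JJ_recip {x y : Finset F.P} (h : Disjoint x y) :
    F.JJ x y + F.JJ y x = (F.l ⬝ᵥ F.tys x) * (F.l ⬝ᵥ F.tys y) := by
  have h1 : F.JJ y x = ∑ p ∈ x, ∑ q ∈ y, F.J p q := by
    unfold JJ
    exact Finset.sum_comm
  rw [h1]
  unfold JJ
  rw [← Finset.sum_add_distrib, F.dot_tys, F.dot_tys, Finset.sum_mul]
  refine Finset.sum_congr rfl fun p hp => ?_
  rw [← Finset.sum_add_distrib, Finset.mul_sum]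
  refine Finset.sum_congr rfl fun q hq => ?_
  have hne : p ≠ q := fun h2 => Finset.disjoint_left.1 h hp (h2 ▸ hq)
  rw [add_comm]
  exact F.recip p q hne

theorem jj_recip {x y : Finset F.P} (h : Disjoint x y) :
    F.jj x y = F.jj y x * sg ((F.l ⬝ᵥ F.tys x) * (F.l ⬝ᵥ F.tys y)) := by
  unfold jj
  rw [← F.JJ_recip h, ← sg_add]
  congr 1
  have h2 : F.JJ y x + (F.JJ x y + F.JJ y x) = F.JJ x y + (F.JJ y x + F.JJ y x) := by ring
  rw [h2, CharTwo.add_self_eq_zero, add_zero]

theorem jj_empty_left (y : Finset F.P) : F.jj ∅ y = 1 := rfl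

theorem jj_empty_right (x : Finset F.P) : F.jj x ∅ = 1 := by
  unfold jj
  rw [F.JJ_empty_right]
  rfl

theorem abs_jj (x y : Finset F.P) : |(F.jj x y : ℝ)| = 1 := abs_sgr _

theorem abs_jp {ι : Type} [Fintype ι] (L : ι → ι → Prop) (x : ι → Finset F.P) :
    |(F.jp L x : ℝ)| = 1 := by
  unfold jp
  push_cast
  rw [Finset.abs_prod]
  refine Finset.prod_eq_one fun i _ => ?_
  rw [Finset.abs_prod]
  refine Finset.prod_eq_one fun j _ => ?_
  split_ifs
  · exact F.abs_jj _ _
  · simp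

theorem sum_ex (y : Finset F.P) (c : F.T) (x : Finset F.P) :
    ∑ p ∈ x, F.ex y c p = F.JJ x y + c ⬝ᵥ F.tys x := by
  unfold ex JJ
  rw [F.dot_tys, Finset.sum_add_distrib]

end Sys

end Pool.Agent.H98.MF
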