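import Pool.Agent.H98.MF.HomParamK
import Pool.Agent.H98.MF.LhTauK

/-!
# Project MK4, row MF-M4: normalised lifts over a number field (helper78)
-/

set_option autoImplicit false

open scoped BigOperators Pointwise
open NumberField IsDedekindDomain Filter

namespace Pool.Agent.H98.MF

open Pool.Agent.H98.MK (sg)
open Pool.Agent.H98.ML (Dt Ext Wt norb hind)

namespace Frm

variable {k : Type} [Field k] [NumberField k] (F : Frm k)

theorem exists_normal_of (R : Rx k)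
    (par_tau : ∀ {r : ℕ} (x : F.I →₀ (Fin r → ZMod 2)) (p : F.sys.P),
      F.par x (R.tau (F.pl p)) = x (Sum.inr p))
    (lh_lc : ∀ {D : Dt} {x : F.I →₀ D.V} {f : Gm k → D.Z} (h : F.IsLift D x f),
      IsLocallyConstant (lh h))
    (tau_finite : ∀ {D : Dt} (ρ : Gm k →* Ext D), IsLocallyConstant ρ →
      {p : F.sys.P | ρ (R.tau (F.pl p)) ≠ 1}.Finite)
    {D : Dt} {x : F.I →₀ D.V} {f : Gm k → D.Z}
    (h : F.IsLift D x f) : ∃ f' : Gm k → D.Z, F.IsNormal R D x f' := by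
  classical
  have hfin : {p : F.sys.P | f (R.tau (F.pl p)) ≠ 0}.Finite := by
    refine (tau_finite (lh h) (lh_lc h)).subset fun p hp hp1 => hp ?_
    have h1 := congrArg Ext.z hp1
    exact h1
  let z0 : F.sys.P →₀ D.Z := Finsupp.onFinset hfin.toFinset
    (fun p => f (R.tau (F.pl p))) fun p hp => by
      rw [Set.Finite.mem_toFinset]
      exact hp
  let z : F.I →₀ D.Z := Finsupp.embDomain ⟨Sum.inr, Sum.inr_injective⟩ z0
  have hz : ∀ p, z (Sum.inr p) = f (R.tau (F.pl p)) := fun p =>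
    (Finsupp.embDomain_apply_self ⟨Sum.inr, Sum.inr_injective⟩ z0 p).trans rfl
  refine ⟨fun σ => f σ + F.par z σ, ⟨h.add z, fun p => ?_⟩⟩
  show f (R.tau (F.pl p)) + F.par z (R.tau (F.pl p)) = 0
  rw [par_tau, hz]
  exact Ext.two_Z _

theorem par_eq_parU {r : ℕ} (z : F.I →₀ (Fin r → ZMod 2)) (hz : ∀ p, z (Sum.inr p) = 0)
    (σ : Gm k) : F.par z σ = F.parU (fun j => z (Sum.inl j)) σ := by
  classical
  unfold par parU
  rw [Finsupp.sum_of_support_subset z
    (s := (Finset.univ : Finset (Fin F.sys.m)).map ⟨Sum.inl, Sum.inl_injective⟩)]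
  · rw [Finset.sum_map]
    rfl
  · intro i hi
    rw [Finsupp.mem_support_iff] at hi
    rcases i with j | p
    · exact Finset.mem_map.2 ⟨j, Finset.mem_univ _, rfl⟩
    · exact absurd (hz p) hi
  · intro i _
    rw [smul_zero]

theorem normal_diff_of (R : Rx k)
    (lift_diff : ∀ {D : Dt} {x : F.I →₀ D.V} {f f' : Gm k → D.Z}, F.IsLift D x f →
      F.IsLift D x f' → ∃ z : F.I →₀ D.Z, ∀ σ, f' σ = f σ + F.par z σ)
    (par_tau : ∀ {r : ℕ} (x : F.I →₀ (Fin r → ZMod 2)) (p : F.sys.P),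
      F.par x (R.tau (F.pl p)) = x (Sum.inr p))
    {D : Dt} {x : F.I →₀ D.V} {f f' : Gm k → D.Z}
    (h : F.IsNormal R D x f) (h' : F.IsNormal R D x f') :
    ∃ z : Fin F.sys.m → D.Z, ∀ σ, f' σ = f σ + F.parU z σ := by
  obtain ⟨z, hz⟩ := lift_diff h.toIsLift h'.toIsLift
  refine ⟨fun j => z (Sum.inl j), fun σ => ?_⟩
  rw [hz σ, F.par_eq_parU z (fun p => ?_) σ]
  have h1 := hz (R.tau (F.pl p))
  rw [h.nor, h'.nor, par_tau, zero_add] at h1
  exact h1.symm

theorem exists_normal (R : Rx k) {D : Dt} {x : F.I →₀ D.V} {f : Gm k → D.Z}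
    (h : F.IsLift D x f) : ∃ f' : Gm k → D.Z, F.IsNormal R D x f' :=
  F.exists_normal_of R (fun x p => F.par_tau R x p) (fun h => F.lh_lc h)
    (fun ρ hρ => F.tau_finite R ρ hρ) h

theorem normal_diff (R : Rx k) {D : Dt} {x : F.I →₀ D.V} {f f' : Gm k → D.Z}
    (h : F.IsNormal R D x f) (h' : F.IsNormal R D x f') :
    ∃ z : Fin F.sys.m → D.Z, ∀ σ, f' σ = f σ + F.parU z σ :=
  F.normal_diff_of R (fun h h' => F.lift_diff h h') (fun x p => F.par_tau R x p) h h'

end Frm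

end Pool.Agent.H98.MF
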