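import Pool.Agent.H98.MF.ChiM

/-!
# Project MK4 (MP_a3214d), row M6a: local data of parameters
-/

set_option autoImplicit false

open scoped BigOperators Pointwise
open NumberField IsDedekindDomain Filter

namespace Pool.Agent.H98.MF

open Pool.Agent.H98.MK (sg)
open Pool.Agent.H98.ML (Dt Ext Wt norb hind)

namespace Frm

variable {k : Type} [Field k] [NumberField k] (F : Frm k)

theorem m6a_two {a b : ZMod 2} (h : a + b = 0) : a = b := by
  revert a b
  decide

/-- the character of a prime on the decomposition groups of the places of `S` -/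
theorem m6a_chi_pi (hK : KIn k) (p : F.sys.P) {v : Pl k} (hv : v ∈ pls F.S) {σ : Gm k}
    (hσ : σ ∈ DecP v) :
    chi (F.pi p : k) σ = ∑ j, F.sys.ty p j * chi (F.w j : k) σ := by
  have h := (hK.one v (F.pi p * ∏ j, F.w j ^ (F.sys.ty p j).val)).2 (F.loc p v hv) σ hσ
  rw [M6a.chi_mul, M6a.chi_prodv] at h
  exact m6a_two h

/-- the local coordinates of the character of a prime -/
theorem pi_loc (hK : KIn k) {r : ℕ} (p : F.sys.P) (z : Fin r → ZMod 2) :
    F.EqS (fun σ => chi (F.pi p : k) σ • z) (F.parW fun j => F.sys.ty p j • z) := by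
  intro v hv σ hσ
  show chi (F.pi p : k) σ • z = ∑ j, chi (F.w j : k) σ • (F.sys.ty p j • z)
  rw [F.m6a_chi_pi hK p hv hσ, Finset.sum_smul]
  refine Finset.sum_congr rfl fun j _ => ?_
  rw [smul_smul, mul_comm]

theorem m6a_mX_zero {D : Dt} (x : F.I →₀ D.V) : F.mX x 0 = ∅ := if_pos rfl

theorem m6a_mem {D : Dt} (x : F.I →₀ D.V) {v : D.V} (hv : v ≠ 0) (p : F.sys.P) :
    p ∈ F.mX x v ↔ x (Sum.inr p) = v := by
  unfold mX
  rw [if_neg hv, Finset.mem_filter, Finset.mem_preimage, Finsupp.mem_support_iff]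
  constructor
  · exact fun h => h.2
  · exact fun h => ⟨by rw [h]; exact hv, h⟩

/-- the value of the homomorphism at the places of `S` in terms of the local data -/
theorem m6a_par (hK : KIn k) {D : Dt} {x : F.I →₀ D.V} {a : Fin F.sys.m → D.V}
    {δ : D.V → F.sys.T} (h : F.Dat x a δ) {v : Pl k} (hv : v ∈ pls F.S) {σ : Gm k}
    (hσ : σ ∈ DecP v) :
    F.par x σ = ∑ j, chi (F.u j : k) σ • a j +
      ∑ u : D.V, ∑ j, (δ u j * chi (F.w j : k) σ) • u := by
  classical
  -- the support
  set s : Finset F.sys.P := x.support.preimage Sum.inr Sum.inr_injective.injOn with hs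
  have h1 : F.par x σ = ∑ j : Fin F.sys.m, chi (F.u j : k) σ • x (Sum.inl j) +
      ∑ p ∈ s, chi (F.pi p : k) σ • x (Sum.inr p) := by
    have h2 : F.par x σ = ∑ i ∈ (Finset.univ : Finset (Fin F.sys.m)).disjSum s,
        chi (F.e i : k) σ • x i := by
      unfold par Finsupp.sum
      refine Finset.sum_subset ?_ ?_
      · intro i hi
        rcases i with j | p
        · exact Finset.inl_mem_disjSum.2 (Finset.mem_univ j)
        · exact Finset.inr_mem_disjSum.2 (Finset.mem_preimage.2 hi)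
      · intro i _ hi
        rw [Finsupp.notMem_support_iff.1 hi]
        exact smul_zero _
    rw [h2, Finset.sum_disjSum]
    rfl
  rw [h1]
  congr 1
  · exact Finset.sum_congr rfl fun j _ => by rw [h.1 j]
  · -- regroup
    have h3 : ∑ p ∈ s, chi (F.pi p : k) σ • x (Sum.inr p) =
        ∑ u : D.V, ∑ p ∈ s.filter (fun p => x (Sum.inr p) = u),
          chi (F.pi p : k) σ • x (Sum.inr p) :=
      (Finset.sum_fiberwise s (fun p => x (Sum.inr p)) _).symm
    rw [h3]
    refine Finset.sum_congr rfl fun u _ => ?_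
    by_cases hu : u = 0
    · subst hu
      rw [Finset.sum_eq_zero, Finset.sum_eq_zero]
      · intro j _
        rw [smul_zero]
      · intro p hp
        rw [(Finset.mem_filter.1 hp).2, smul_zero]
    · have h4 : s.filter (fun p => x (Sum.inr p) = u) = F.mX x u := by
        ext p
        rw [F.m6a_mem x hu, Finset.mem_filter, hs, Finset.mem_preimage, Finsupp.mem_support_iff]
        constructor
        · exact fun h => h.2
        · exact fun h => ⟨by rw [h]; exact hu, h⟩
      rw [h4, ← h.2 u]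
      have h5 : ∑ p ∈ F.mX x u, chi (F.pi p : k) σ • x (Sum.inr p) =
          ∑ p ∈ F.mX x u, ∑ j, (F.sys.ty p j * chi (F.w j : k) σ) • u := by
        refine Finset.sum_congr rfl fun p hp => ?_
        rw [(F.m6a_mem x hu p).1 hp, F.m6a_chi_pi hK p hv hσ, Finset.sum_smul]
      rw [h5, Finset.sum_comm]
      refine Finset.sum_congr rfl fun j _ => ?_
      rw [← Finset.sum_smul, ← Finset.sum_mul]
      unfold Sys.tys
      rw [Finset.sum_apply]

theorem par_data (hK : KIn k) {D : Dt} {x x' : F.I →₀ D.V} {a : Fin F.sys.m → D.V}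
    {δ : D.V → F.sys.T} (h : F.Dat x a δ) (h' : F.Dat x' a δ) :
    F.EqS (F.par x) (F.par x') := by
  intro v hv σ hσ
  rw [F.m6a_par hK h hv hσ, F.m6a_par hK h' hv hσ]

theorem m6a_locL {D : Dt} {x x' : F.I →₀ D.V} {v : Pl k}
    (he : ∀ σ ∈ DecP v, F.par x σ = F.par x' σ) (h : F.LocL D x v) : F.LocL D x' v := by
  obtain ⟨f, hf, h1⟩ := h
  refine ⟨f, hf, fun σ hσ τ hτ => ?_⟩
  rw [h1 σ hσ τ hτ, he σ hσ, he τ hτ]

theorem locL_data (hK : KIn k) {D : Dt} {x : F.I →₀ D.V} {a : Fin F.sys.m → D.V}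
    {δ : D.V → F.sys.T} (h : F.Dat x a δ) :
    (∀ v ∈ pls F.S, F.LocL D x v) ↔ F.solS D a δ := by
  constructor
  · exact fun h1 => ⟨x, h, h1⟩
  · rintro ⟨x', h', h1⟩ v hv
    exact F.m6a_locL (F.par_data hK h' h v hv) (h1 v hv)

theorem solS_zero (D : Dt) : F.solS D 0 0 := by
  refine ⟨0, ⟨fun j => rfl, fun v => ?_⟩, fun v _ => ?_⟩
  · have h1 : F.mX (0 : F.I →₀ D.V) v = ∅ := by
      by_cases hv : v = 0
      · subst hv
        exact F.m6a_mX_zero 0
      · refine Finset.eq_empty_of_forall_notMem fun p hp => ?_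
        exact hv ((F.m6a_mem 0 hv p).1 hp).symm
    rw [h1]
    rfl
  · refine ⟨fun _ => 0, IsLocallyConstant.const 0, fun σ _ τ _ => ?_⟩
    have h1 : ∀ σ, F.par (0 : F.I →₀ D.V) σ = 0 := fun σ => Finsupp.sum_zero_index
    rw [h1, map_zero, LinearMap.zero_apply, add_zero, add_zero]

end Frm

end Pool.Agent.H98.MF
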