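import Pool.Agent.H98.MF.NK

/-!
# MK4, block N: Abel summation over the ideals (helper63)
-/

set_option autoImplicit false

open scoped BigOperators Pointwise NNReal nonZeroDivisors

namespace Pool.Agent.H98.MF

variable (S : Pre)

private theorem na_countable_P : Countable S.P := by
  have h : (Set.univ : Set S.P) = ⋃ X : ℕ, {p : S.P | S.N p ≤ X} := by
    ext p
    simp only [Set.mem_univ, Set.mem_iUnion, Set.mem_ofPred_eq, true_iff]
    exact ⟨S.N p, le_rfl⟩
  have h2 : (Set.univ : Set S.P).Countable := by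
    rw [h]
    exact Set.countable_iUnion fun X => (S.fin X).countable
  exact Set.countable_univ_iff.1 h2

private theorem na_one_le (f : S.P →₀ ℕ) : (1 : ℝ) ≤ S.nf f := by
  exact_mod_cast S.nf_pos f

/-- the integral representation of `n ^ (-s)` -/
private theorem na_int (n s : ℝ) (hn : 1 ≤ n) (hs : 1 < s) :
    MeasureTheory.IntegrableOn (fun t : ℝ => if n ≤ t then s * t ^ (-s - 1) else 0) (Set.Ioi 1) ∧
      ∫ t in Set.Ioi (1 : ℝ), (if n ≤ t then s * t ^ (-s - 1) else 0) = n ^ (-s) := by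
  have hn0 : 0 < n := by linarith
  have e1 : (fun t : ℝ => if n ≤ t then s * t ^ (-s - 1) else 0) =
      (Set.Ici n).indicator (fun t : ℝ => s * t ^ (-s - 1)) := by
    ext t
    simp only [Set.indicator_apply, Set.mem_Ici]
  have hint : MeasureTheory.IntegrableOn (fun t : ℝ => s * t ^ (-s - 1)) (Set.Ioi n) :=
    (integrableOn_Ioi_rpow_of_lt (by linarith) hn0).const_mul s
  have hval : ∫ t in Set.Ioi n, s * t ^ (-s - 1) = n ^ (-s) := by
    rw [MeasureTheory.integral_const_mul, integral_Ioi_rpow_of_lt (by linarith) hn0]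
    have e2 : -s - 1 + 1 = -s := by ring
    rw [e2]
    field_simp
  rw [e1]
  constructor
  · have h1 : MeasureTheory.IntegrableOn (fun t : ℝ => s * t ^ (-s - 1)) (Set.Ici n) :=
      (integrableOn_Ici_iff_integrableOn_Ioi enorm_ne_top).2 hint
    exact (h1.integrable_indicator measurableSet_Ici).integrableOn
  · rw [MeasureTheory.setIntegral_indicator measurableSet_Ici]
    rcases eq_or_lt_of_le hn with h | h
    · have e3 : Set.Ioi (1 : ℝ) ∩ Set.Ici n = Set.Ioi n := by
        rw [← h]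
        ext t
        simp only [Set.mem_inter_iff, Set.mem_Ioi, Set.mem_Ici]
        constructor
        · exact fun h => h.1
        · exact fun h => ⟨h, h.le⟩
      rw [e3, hval]
    · have e3 : Set.Ioi (1 : ℝ) ∩ Set.Ici n = Set.Ici n := by
        ext t
        simp only [Set.mem_inter_iff, Set.mem_Ioi, Set.mem_Ici]
        constructor
        · exact fun h => h.2
        · exact fun h2 => ⟨lt_of_lt_of_le h h2, h2⟩
      rw [e3, MeasureTheory.integral_Ici_eq_integral_Ioi, hval]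

private theorem na_sum (t : ℝ) (F : Finset (S.P →₀ ℕ)) (c : ℝ) (hc : 0 ≤ c) :
    ∑ f ∈ F, (if (S.nf f : ℝ) ≤ t then c else 0) ≤ (S.idl t).card * c := by
  classical
  rw [← Finset.sum_filter, Finset.sum_const, nsmul_eq_mul]
  refine mul_le_mul_of_nonneg_right ?_ hc
  have h : (F.filter fun f => (S.nf f : ℝ) ≤ t) ⊆ S.idl t := by
    intro f hf
    rw [S.mem_idl]
    exact (Finset.mem_filter.1 hf).2
  exact_mod_cast Finset.card_le_card h

theorem summable_nf (C : ℝ) (hC : ∀ X : ℝ, 1 ≤ X → ((S.idl X).card : ℝ) ≤ C * X) (s : ℝ)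
    (hs : 1 < s) : Summable fun f : S.P →₀ ℕ => (S.nf f : ℝ) ^ (-s) := by
  have hI : MeasureTheory.IntegrableOn (fun t : ℝ => C * s * t ^ (-s)) (Set.Ioi 1) :=
    (integrableOn_Ioi_rpow_of_lt (by linarith) one_pos).const_mul (C * s)
  refine summable_of_sum_le (c := ∫ t in Set.Ioi (1 : ℝ), C * s * t ^ (-s)) ?_ ?_
  · intro f
    positivity
  · intro F
    have h1 : ∑ f ∈ F, (S.nf f : ℝ) ^ (-s) =
        ∫ t in Set.Ioi (1 : ℝ), ∑ f ∈ F, (if (S.nf f : ℝ) ≤ t then s * t ^ (-s - 1) else 0) := by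
      rw [MeasureTheory.integral_finsetSum]
      · exact Finset.sum_congr rfl fun f _ => ((na_int _ s (na_one_le S f) hs).2).symm
      · intro f _
        exact (na_int _ s (na_one_le S f) hs).1
    rw [h1]
    refine MeasureTheory.setIntegral_mono_on ?_ hI measurableSet_Ioi ?_
    · exact MeasureTheory.integrable_finsetSum _ fun f _ => (na_int _ s (na_one_le S f) hs).1
    · intro t ht
      have ht1 : 1 < t := ht
      have ht0 : 0 < t := by linarith
      have h2 : 0 ≤ s * t ^ (-s - 1) := by positivity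
      refine (na_sum S t F _ h2).trans ?_
      calc ((S.idl t).card : ℝ) * (s * t ^ (-s - 1)) ≤ (C * t) * (s * t ^ (-s - 1)) :=
            mul_le_mul_of_nonneg_right (hC t ht1.le) h2
        _ = C * s * t ^ (-s) := by
            have e : t ^ (-s) = t * t ^ (-s - 1) := by
              have : -s = 1 + (-s - 1) := by ring
              nth_rw 1 [this]
              rw [Real.rpow_add ht0, Real.rpow_one]
            rw [e]
            ring

theorem abel_nf (χ : (S.P →₀ ℕ) → ℝ) (hχ : ∀ f, |χ f| ≤ 1) (C₀ : ℝ)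
    (hC₀ : ∀ X : ℝ, 1 ≤ X → ((S.idl X).card : ℝ) ≤ C₀ * X) (A C δ : ℝ) (hδ : 0 < δ) (hδ1 : δ ≤ 1)
    (h : ∀ X : ℝ, 1 ≤ X → |∑ f ∈ S.idl X, χ f - A * X| ≤ C * X ^ (1 - δ)) (s : ℝ)
    (hs : 1 < s) (hs2 : s ≤ 2) :
    |∑' f : S.P →₀ ℕ, χ f * (S.nf f : ℝ) ^ (-s) - A * s / (s - 1)| ≤ 2 * C / δ := by
  have hcP := na_countable_P S
  have hC : 0 ≤ C := by
    have h1 := h 1 le_rfl
    rw [Real.one_rpow, mul_one, mul_one] at h1
    exact (abs_nonneg _).trans h1
  let G : (S.P →₀ ℕ) → ℝ → ℝ := fun f t =>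
    χ f * (if (S.nf f : ℝ) ≤ t then s * t ^ (-s - 1) else 0)
  have hGi : ∀ f, MeasureTheory.IntegrableOn (G f) (Set.Ioi 1) := fun f =>
    (na_int _ s (na_one_le S f) hs).1.const_mul (χ f)
  have hGv : ∀ f, ∫ t in Set.Ioi (1 : ℝ), G f t = χ f * (S.nf f : ℝ) ^ (-s) := by
    intro f
    rw [MeasureTheory.integral_const_mul, (na_int _ s (na_one_le S f) hs).2]
  have hGn : ∀ f, ∫ t in Set.Ioi (1 : ℝ), ‖G f t‖ ≤ (S.nf f : ℝ) ^ (-s) := by
    intro f
    rw [← (na_int _ s (na_one_le S f) hs).2]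
    refine MeasureTheory.setIntegral_mono_on (hGi f).norm (na_int _ s (na_one_le S f) hs).1
      measurableSet_Ioi ?_
    intro t ht
    have ht1 : 1 < t := ht
    have ht0 : 0 < t := by linarith
    have h2 : 0 ≤ (if (S.nf f : ℝ) ≤ t then s * t ^ (-s - 1) else 0) := by
      split_ifs
      · positivity
      · exact le_rfl
    simp only [G]
    rw [norm_mul, Real.norm_eq_abs, Real.norm_eq_abs, abs_of_nonneg h2]
    exact mul_le_of_le_one_left h2 (hχ f)
  have hsum : Summable fun f => ∫ t in Set.Ioi (1 : ℝ), ‖G f t‖ := by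
    refine Summable.of_nonneg_of_le ?_ hGn (summable_nf S C₀ hC₀ s hs)
    intro f
    exact MeasureTheory.integral_nonneg fun t => norm_nonneg _
  have hHS := MeasureTheory.hasSum_integral_of_summable_integral_norm hGi hsum
  have e1 : ∑' f : S.P →₀ ℕ, χ f * (S.nf f : ℝ) ^ (-s) =
      ∫ t in Set.Ioi (1 : ℝ), ∑' f, G f t := by
    rw [← hHS.tsum_eq]
    exact tsum_congr fun f => (hGv f).symm
  have e2 : ∀ t : ℝ, ∑' f, G f t = (∑ f ∈ S.idl t, χ f) * (s * t ^ (-s - 1)) := by
    intro t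
    rw [tsum_eq_sum (s := S.idl t)]
    · rw [Finset.sum_mul]
      refine Finset.sum_congr rfl fun f hf => ?_
      simp only [G]
      rw [if_pos (S.mem_idl.1 hf)]
    · intro f hf
      simp only [G]
      rw [if_neg (fun h3 => hf (S.mem_idl.2 h3)), mul_zero]
  have hA : ∫ t in Set.Ioi (1 : ℝ), A * s * t ^ (-s) = A * s / (s - 1) := by
    rw [MeasureTheory.integral_const_mul, integral_Ioi_rpow_of_lt (by linarith) one_pos,
      Real.one_rpow]
    have h3 : -s + 1 = -(s - 1) := by ring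
    have h4 : s - 1 ≠ 0 := by linarith
    rw [h3]
    field_simp
  have hAi : MeasureTheory.IntegrableOn (fun t : ℝ => A * s * t ^ (-s)) (Set.Ioi 1) :=
    (integrableOn_Ioi_rpow_of_lt (by linarith) one_pos).const_mul (A * s)
  have hTs : ∀ t : ℝ, HasSum (fun f => G f t) (∑' f, G f t) := by
    intro t
    refine (summable_of_ne_finset_zero (s := S.idl t) ?_).hasSum
    intro f hf
    simp only [G]
    rw [if_neg (fun h3 => hf (S.mem_idl.2 h3)), mul_zero]
  have hTm : MeasureTheory.AEStronglyMeasurable (fun t : ℝ => ∑' f, G f t)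
      (MeasureTheory.volume.restrict (Set.Ioi 1)) := by
    refine aestronglyMeasurable_of_tendsto_ae (Filter.atTop : Filter (Finset (S.P →₀ ℕ)))
      (f := fun F t => ∑ f ∈ F, G f t) ?_ (Filter.Eventually.of_forall fun t => ?_)
    · intro F
      exact (MeasureTheory.integrable_finsetSum F fun f _ => hGi f).aestronglyMeasurable
    · exact hTs t
  have hCi : MeasureTheory.IntegrableOn (fun t : ℝ => C₀ * s * t ^ (-s)) (Set.Ioi 1) :=
    (integrableOn_Ioi_rpow_of_lt (by linarith) one_pos).const_mul (C₀ * s)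
  have hTi : MeasureTheory.IntegrableOn (fun t : ℝ => ∑' f, G f t) (Set.Ioi 1) := by
    refine MeasureTheory.Integrable.mono' hCi hTm ?_
    refine (MeasureTheory.ae_restrict_iff' measurableSet_Ioi).2 (Filter.Eventually.of_forall ?_)
    intro t ht
    have ht1 : 1 < t := ht
    have ht0 : 0 < t := by linarith
    have e3 : t ^ (-s) = t * t ^ (-s - 1) := by
      have : -s = 1 + (-s - 1) := by ring
      nth_rw 1 [this]
      rw [Real.rpow_add ht0, Real.rpow_one]
    have h6 : 0 ≤ s * t ^ (-s - 1) := by positivity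
    rw [e2, e3, Real.norm_eq_abs, abs_mul, abs_of_nonneg h6]
    have h7 : |∑ f ∈ S.idl t, χ f| ≤ C₀ * t := by
      calc |∑ f ∈ S.idl t, χ f| ≤ ∑ f ∈ S.idl t, |χ f| := Finset.abs_sum_le_sum_abs _ _
        _ ≤ ∑ f ∈ S.idl t, (1 : ℝ) := Finset.sum_le_sum fun f _ => hχ f
        _ = ((S.idl t).card : ℝ) := by simp
        _ ≤ C₀ * t := hC₀ t ht1.le
    calc _ ≤ (C₀ * t) * (s * t ^ (-s - 1)) := mul_le_mul_of_nonneg_right h7 h6
      _ = _ := by ring
  have hBi : MeasureTheory.IntegrableOn (fun t : ℝ => C * s * t ^ (-s - δ)) (Set.Ioi 1) :=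
    (integrableOn_Ioi_rpow_of_lt (by linarith) one_pos).const_mul (C * s)
  rw [e1, ← hA, ← MeasureTheory.integral_sub hTi hAi, ← Real.norm_eq_abs]
  have h5 : ‖∫ t in Set.Ioi (1 : ℝ), (∑' f, G f t - A * s * t ^ (-s))‖ ≤
      ∫ t in Set.Ioi (1 : ℝ), C * s * t ^ (-s - δ) := by
    refine MeasureTheory.norm_integral_le_of_norm_le hBi ?_
    refine (MeasureTheory.ae_restrict_iff' measurableSet_Ioi).2 (Filter.Eventually.of_forall ?_)
    intro t ht
    have ht1 : 1 < t := ht
    have ht0 : 0 < t := by linarith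
    have e3 : t ^ (-s) = t * t ^ (-s - 1) := by
      have : -s = 1 + (-s - 1) := by ring
      nth_rw 1 [this]
      rw [Real.rpow_add ht0, Real.rpow_one]
    have e4 : t ^ (-s - δ) = t ^ (1 - δ) * t ^ (-s - 1) := by
      rw [← Real.rpow_add ht0]
      congr 1
      ring
    have h6 : 0 ≤ s * t ^ (-s - 1) := by positivity
    have e5 : ∑' f, G f t - A * s * t ^ (-s) =
        (∑ f ∈ S.idl t, χ f - A * t) * (s * t ^ (-s - 1)) := by
      rw [e2, e3]
      ring
    rw [e5, e4, Real.norm_eq_abs, abs_mul, abs_of_nonneg h6]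
    calc _ ≤ (C * t ^ (1 - δ)) * (s * t ^ (-s - 1)) :=
          mul_le_mul_of_nonneg_right (h t ht1.le) h6
      _ = _ := by ring
  refine h5.trans ?_
  rw [MeasureTheory.integral_const_mul, integral_Ioi_rpow_of_lt (by linarith) one_pos,
    Real.one_rpow]
  have e6 : -s - δ + 1 = -(s - 1 + δ) := by ring
  rw [e6, neg_div_neg_eq]
  have h7 : 0 < s - 1 + δ := by linarith
  rw [mul_one_div, div_le_div_iff₀ h7 hδ]
  have h8 : C * s * δ ≤ C * 2 * (s - 1 + δ) := by
    have h9 : s * δ ≤ 2 * (s - 1 + δ) := by nlinarith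
    nlinarith
  linarith

end Pool.Agent.H98.MF
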