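import Pool.Agent.H98.MF.NEul
import Pool.Agent.H98.MF.NAbel

/-!
# Project MK4 (MP_a3214d), block N, row NLog: the logarithm of the Euler product
-/

set_option autoImplicit false

open scoped BigOperators Pointwise NNReal nonZeroDivisors

namespace Pool.Agent.H98.MF

variable (S : Pre)

private theorem NLog_nf_single (p : S.P) : S.nf (Finsupp.single p 1) = S.N p := by
  unfold Pre.nf
  rw [Finsupp.prod_single_index (h := fun p k => S.N p ^ k) (pow_zero _), pow_one]

theorem pre_summable_N (C : ℝ) (hC : ∀ X : ℝ, 1 ≤ X → ((S.idl X).card : ℝ) ≤ C * X) (s : ℝ)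
    (hs : 1 < s) : Summable fun p : S.P => (S.N p : ℝ) ^ (-s) := by
  have h := summable_nf S C hC s hs
  have hinj : Function.Injective fun p : S.P => (Finsupp.single p 1 : S.P →₀ ℕ) :=
    Finsupp.single_left_injective one_ne_zero
  have h2 := h.comp_injective hinj
  refine h2.congr fun p => ?_
  simp only [Function.comp_apply, NLog_nf_single]

private theorem NLog_log (u : ℝ) (hu : |u| ≤ 1 / 2) :
    |-Real.log (1 - u) - u| ≤ 2 * u ^ 2 := by
  have h1 : |u| < 1 := lt_of_le_of_lt hu (by norm_num)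
  have h := Real.abs_log_sub_add_sum_range_le h1 1
  simp only [Finset.range_one, Finset.sum_singleton, zero_add, pow_one, Nat.cast_zero, div_one,
    Nat.reduceAdd, sq_abs] at h
  have e : -Real.log (1 - u) - u = -(u + Real.log (1 - u)) := by ring
  rw [e, abs_neg]
  refine h.trans ?_
  rw [div_le_iff₀ (by linarith)]
  nlinarith [sq_nonneg u]

private theorem NLog_two (p : S.P) : (2 : ℝ) ≤ S.N p := by exact_mod_cast S.two_le p

private theorem NLog_wt_pos (p : S.P) (s : ℝ) : 0 < (S.N p : ℝ) ^ (-s) :=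
  Real.rpow_pos_of_pos (lt_of_lt_of_le two_pos (NLog_two S p)) _

private theorem NLog_wt_le (p : S.P) {s : ℝ} (hs : 1 < s) : (S.N p : ℝ) ^ (-s) ≤ 1 / 2 := by
  have h2 := NLog_two S p
  calc (S.N p : ℝ) ^ (-s) ≤ (S.N p : ℝ) ^ (-1 : ℝ) :=
        Real.rpow_le_rpow_of_exponent_le (by linarith) (by linarith)
    _ = (S.N p : ℝ)⁻¹ := Real.rpow_neg_one _
    _ ≤ 1 / 2 := by
        rw [one_div]
        exact inv_anti₀ two_pos h2

private theorem NLog_prod_abs (x : S.P → ℝ) (hx : ∀ p, |x p| ≤ 1) (f : S.P →₀ ℕ) :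
    |f.prod fun p n => x p ^ n| ≤ 1 := by
  unfold Finsupp.prod
  rw [Finset.abs_prod]
  refine Finset.prod_le_one (fun p _ => abs_nonneg _) fun p _ => ?_
  rw [abs_pow]
  exact pow_le_one₀ (abs_nonneg _) (hx p)

theorem log_L (C : ℝ) (hC : ∀ X : ℝ, 1 ≤ X → ((S.idl X).card : ℝ) ≤ C * X) :
    ∃ K : ℝ, ∀ (x : S.P → ℝ), (∀ p, |x p| ≤ 1) → ∀ s : ℝ, 1 < s →
      0 < ∑' f : S.P →₀ ℕ, (f.prod fun p n => x p ^ n) * (S.nf f : ℝ) ^ (-s) ∧
      |Real.log (∑' f : S.P →₀ ℕ, (f.prod fun p n => x p ^ n) * (S.nf f : ℝ) ^ (-s)) -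
        ∑' p : S.P, x p * (S.N p : ℝ) ^ (-s)| ≤ K := by
  classical
  have hsum2 := pre_summable_N S C hC 2 (by norm_num)
  refine ⟨2 * ∑' p : S.P, (S.N p : ℝ) ^ (-2 : ℝ), fun x hx s hs => ?_⟩
  set K : ℝ := 2 * ∑' p : S.P, (S.N p : ℝ) ^ (-2 : ℝ) with hK
  set u : S.P → ℝ := fun p => x p * (S.N p : ℝ) ^ (-s) with hu
  set F : (S.P →₀ ℕ) → ℝ := fun f => (f.prod fun p n => x p ^ n) * (S.nf f : ℝ) ^ (-s) with hF
  have hsN := pre_summable_N S C hC s hs
  have hsf := summable_nf S C hC s hs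
  have hu_le : ∀ p, |u p| ≤ (S.N p : ℝ) ^ (-s) := fun p => by
    rw [hu, abs_mul, abs_of_pos (NLog_wt_pos S p s)]
    calc |x p| * (S.N p : ℝ) ^ (-s) ≤ 1 * (S.N p : ℝ) ^ (-s) :=
          mul_le_mul_of_nonneg_right (hx p) (NLog_wt_pos S p s).le
      _ = _ := one_mul _
  have hu_half : ∀ p, |u p| ≤ 1 / 2 := fun p => (hu_le p).trans (NLog_wt_le S p hs)
  have hu_sq : ∀ p, u p ^ 2 ≤ (S.N p : ℝ) ^ (-2 : ℝ) := by
    intro p
    rw [← sq_abs]
    have h2 := NLog_two S p
    calc |u p| ^ 2 ≤ ((S.N p : ℝ) ^ (-s)) ^ 2 := pow_le_pow_left₀ (abs_nonneg _) (hu_le p) 2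
      _ ≤ ((S.N p : ℝ) ^ (-1 : ℝ)) ^ 2 := by
          refine pow_le_pow_left₀ (NLog_wt_pos S p s).le ?_ 2
          exact Real.rpow_le_rpow_of_exponent_le (by linarith) (by linarith)
      _ = (S.N p : ℝ) ^ (-2 : ℝ) := by
          rw [← Real.rpow_natCast, ← Real.rpow_mul (by linarith)]
          norm_num
  have hsu : Summable u := Summable.of_norm_bounded hsN fun p => by
    rw [Real.norm_eq_abs]; exact hu_le p
  -- finite products
  let E : Finset S.P → ℝ := fun T => ∏ p ∈ T, (1 - u p)⁻¹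
  have hEpos : ∀ T, 0 < E T := fun T => Finset.prod_pos fun p _ => by
    have := hu_half p
    rw [abs_le] at this
    exact inv_pos.mpr (by linarith [this.2])
  have hElog : ∀ T, |Real.log (E T) - ∑ p ∈ T, u p| ≤ K := by
    intro T
    have h1 : Real.log (E T) = ∑ p ∈ T, -Real.log (1 - u p) := by
      rw [Real.log_prod]
      · exact Finset.sum_congr rfl fun p _ => Real.log_inv _
      · intro p _
        have := hu_half p
        rw [abs_le] at this
        exact (inv_pos.mpr (by linarith [this.2] : (0 : ℝ) < 1 - u p)).ne'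
    rw [h1, ← Finset.sum_sub_distrib]
    refine (Finset.abs_sum_le_sum_abs _ _).trans ?_
    calc ∑ p ∈ T, |-Real.log (1 - u p) - u p| ≤ ∑ p ∈ T, 2 * (S.N p : ℝ) ^ (-2 : ℝ) :=
          Finset.sum_le_sum fun p _ => (NLog_log (u p) (hu_half p)).trans (by linarith [hu_sq p])
      _ = 2 * ∑ p ∈ T, (S.N p : ℝ) ^ (-2 : ℝ) := by rw [Finset.mul_sum]
      _ ≤ K := by
          rw [hK]
          refine mul_le_mul_of_nonneg_left ?_ (by norm_num)
          exact hsum2.sum_le_tsum T fun p _ => (NLog_wt_pos S p 2).le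
  -- the limit of the finite products
  have hElim : Filter.Tendsto E Filter.atTop (nhds (∑' f, F f)) := by
    have h1 : ∀ T, E T = ∑' f : S.P →₀ ℕ, if f.support ⊆ T then F f else 0 := by
      intro T
      have h2 := (euler_fin S x hx s (by linarith) T).2
      have h3 : E T = ∏ p ∈ T, (1 - x p * (S.N p : ℝ) ^ (-s))⁻¹ := rfl
      rw [h3, ← h2]
      have h4 := tsum_subtype {f : S.P →₀ ℕ | f.support ⊆ T} F
      refine h4.trans (tsum_congr fun f => ?_)
      rw [Set.indicator_apply]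
      rfl
    rw [show E = fun T => ∑' f : S.P →₀ ℕ, if f.support ⊆ T then F f else 0 from funext h1]
    refine tendsto_tsum_of_dominated_convergence hsf (fun f => ?_) (Filter.Eventually.of_forall
      fun T f => ?_)
    · refine tendsto_const_nhds.congr' ?_
      filter_upwards [Filter.eventually_ge_atTop f.support] with T hT
      rw [if_pos hT]
    · have hpos : (0 : ℝ) < (S.nf f : ℝ) ^ (-s) :=
        Real.rpow_pos_of_pos (by exact_mod_cast S.nf_pos f) _
      split_ifs
      · rw [hF, Real.norm_eq_abs, abs_mul, abs_of_pos hpos]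
        calc _ ≤ 1 * (S.nf f : ℝ) ^ (-s) :=
              mul_le_mul_of_nonneg_right (NLog_prod_abs S x hx f) hpos.le
          _ = _ := one_mul _
      · rw [norm_zero]
        exact hpos.le
  have hulim : Filter.Tendsto (fun T : Finset S.P => ∑ p ∈ T, u p) Filter.atTop
      (nhds (∑' p, u p)) := hsu.hasSum
  have hlow : Real.exp (∑' p, u p - K) ≤ ∑' f, F f := by
    refine le_of_tendsto_of_tendsto ((Real.continuous_exp.tendsto _).comp
      (hulim.sub_const K)) hElim (Filter.Eventually.of_forall fun T => ?_)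
    show Real.exp (∑ p ∈ T, u p - K) ≤ E T
    rw [← Real.le_log_iff_exp_le (hEpos T)]
    have := hElog T
    rw [abs_le] at this
    linarith [this.1]
  have hup : ∑' f, F f ≤ Real.exp (∑' p, u p + K) := by
    refine le_of_tendsto_of_tendsto hElim ((Real.continuous_exp.tendsto _).comp
      (hulim.add_const K)) (Filter.Eventually.of_forall fun T => ?_)
    show E T ≤ Real.exp (∑ p ∈ T, u p + K)
    rw [← Real.log_le_iff_le_exp (hEpos T)]
    have := hElog T
    rw [abs_le] at this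
    linarith [this.2]
  have hLpos : 0 < ∑' f, F f := lt_of_lt_of_le (Real.exp_pos _) hlow
  refine ⟨hLpos, ?_⟩
  rw [abs_le]
  constructor
  · have := (Real.le_log_iff_exp_le hLpos).2 hlow
    linarith
  · have := (Real.log_le_iff_le_exp hLpos).2 hup
    linarith

end Pool.Agent.H98.MF
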