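import Pool.Agent.H98.MF.TDefs

/-!
# Project MK4 (MP_a3214d), block SYS-T: moving a prime
-/

set_option autoImplicit false

open scoped BigOperators

open Filter

namespace Pool.Agent.H98.MF

open Pool.Agent.H98.MK (sg)
open Pool.Agent.H98.ML (Dt Ext Wt)

namespace Sys

variable (F : Sys) {D : Dt}

/-! ### conjugacy -/

/-- conjugation -/
theorem t1_conj (g : Ext D) (u : D.V) :
    (⟨u, 0⟩ : Ext D) * g * (⟨u, 0⟩ : Ext D)⁻¹ = ⟨g.v, g.z + D.B g.v u⟩ := by
  apply Ext.ext
  · simp only [Ext.mul_v, Ext.inv_v]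
    have h := Ext.two_V u
    calc u + g.v + u = (u + u) + g.v := by abel
      _ = g.v := by rw [h, zero_add]
  · simp only [Ext.mul_z, Ext.inv_z, Ext.mul_v, Dt.B, map_add, LinearMap.add_apply]
    have h := Ext.two_Z (D.β u u)
    calc (0 : D.Z) + g.z + D.β u g.v + (0 + D.β u u) + (D.β u u + D.β g.v u)
        = g.z + (D.β g.v u + D.β u g.v) + (D.β u u + D.β u u) := by abel
      _ = g.z + (D.β g.v u + D.β u g.v) := by rw [h, add_zero]

theorem t1_conj_v {g h : Ext D} (hc : IsConj g h) : h.v = g.v := by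
  obtain ⟨c, hc⟩ := isConj_iff.1 hc
  rw [← hc]
  simp only [Ext.mul_v, Ext.inv_v]
  have h := Ext.two_V c.v
  calc c.v + g.v + c.v = (c.v + c.v) + g.v := by abel
    _ = g.v := by rw [h, zero_add]

theorem t1_move {g0 g : Ext D} (w0 : D.V) (hc : IsConj g0 g) :
    IsConj g0 ⟨g.v, g.z + D.B g0.v w0⟩ := by
  refine hc.trans ?_
  rw [isConj_iff]
  refine ⟨⟨w0, 0⟩, ?_⟩
  rw [t1_conj, t1_conj_v hc]

theorem t1_ne_one {g0 g : Ext D} (h1 : g0 ≠ 1) (hc : IsConj g0 g) : g ≠ 1 := by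
  rintro rfl
  exact h1 (isConj_one_right.1 hc.symm |>.symm ▸ rfl)

theorem t1_ind (w : Wt D) {g0 g : Ext D} (hc : IsConj g0 g) : w.ind g = w.ind g0 := by
  obtain ⟨c, hc⟩ := isConj_iff.1 hc
  rw [← hc, w.conj]

theorem t1_wt (w : Wt D) {g0 g : Ext D} (h1 : g0 ≠ 1) (hg : w.ind g0 = w.m)
    (hc : IsConj g0 g) : w.wt g = 1 := by
  unfold Wt.wt
  rw [if_neg (t1_ne_one h1 hc), t1_ind w hc, hg]
  exact div_self (by have := w.pos; positivity)

theorem t1_wt_nonneg (w : Wt D) (g : Ext D) : 0 ≤ w.wt g := by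
  unfold Wt.wt
  split_ifs
  · norm_num
  · positivity

/-! ### the move -/

section

variable {F}
variable {x : Ext D → Finset F.P} {g g' : Ext D} {p : F.P}

theorem t1_mv_mem (hne : g ≠ g') (hp : p ∈ x g) (hd : F.Dj x) (h : Ext D) (q : F.P) :
    q ∈ F.mv x g g' p h ↔ (q ≠ p ∧ q ∈ x h) ∨ (q = p ∧ h = g') := by
  classical
  unfold mv
  by_cases h1 : h = g
  · subst h1
    rw [if_pos rfl, Finset.mem_erase]
    constructor
    · intro h; exact Or.inl h
    · rintro (h | h)
      · exact h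
      · exact absurd h.2 hne
  · rw [if_neg h1]
    by_cases h2 : h = g'
    · subst h2
      rw [if_pos rfl, Finset.mem_insert]
      by_cases h3 : q = p
      · simp [h3]
      · simp [h3]
    · rw [if_neg h2]
      constructor
      · intro hq
        refine Or.inl ⟨?_, hq⟩
        rintro rfl
        exact Finset.disjoint_left.1 (hd h g h1) hq hp
      · rintro (h | h)
        · exact h.2
        · exact absurd h.2 h2

theorem t1_notMem (hd : F.Dj x) (hp : p ∈ x g) {h : Ext D} (hh : h ≠ g) : p ∉ x h :=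
  fun hq => Finset.disjoint_left.1 (hd h g hh) hq hp

theorem t1_bi (hne : g ≠ g') (hp : p ∈ x g) (hd : F.Dj x) (s : Finset (Ext D))
    (hs : g ∈ s ↔ g' ∈ s) : s.biUnion (F.mv x g g' p) = s.biUnion x := by
  classical
  ext q
  simp only [Finset.mem_biUnion]
  constructor
  · rintro ⟨h, hh, hq⟩
    rcases (t1_mv_mem hne hp hd h q).1 hq with h1 | h1
    · exact ⟨h, hh, h1.2⟩
    · refine ⟨g, ?_, by rw [h1.1]; exact hp⟩
      rw [h1.2] at hh
      exact hs.2 hh
  · rintro ⟨h, hh, hq⟩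
    by_cases h1 : q = p
    · have h2 : h = g := by
        by_contra h3
        rw [h1] at hq
        exact t1_notMem hd hp h3 hq
      refine ⟨g', hs.1 (h2 ▸ hh), (t1_mv_mem hne hp hd g' q).2 (Or.inr ⟨h1, rfl⟩)⟩
    · exact ⟨h, hh, (t1_mv_mem hne hp hd h q).2 (Or.inl ⟨h1, hq⟩)⟩

theorem t1_mV (hne : g ≠ g') (hv : g'.v = g.v) (hp : p ∈ x g) (hd : F.Dj x) :
    F.mV (F.mv x g g' p) = F.mV x := by
  classical
  funext v
  unfold mV
  by_cases h0 : v = 0
  · rw [if_pos h0, if_pos h0]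
  · rw [if_neg h0, if_neg h0]
    refine t1_bi hne hp hd _ ?_
    simp only [Finset.mem_filter, Finset.mem_univ, true_and, hv]

theorem t1_cU {g0 : Ext D} (hne : g ≠ g') (hg : IsConj g0 g) (hg' : IsConj g0 g')
    (hp : p ∈ x g) (hd : F.Dj x) : F.cU g0 (F.mv x g g' p) = F.cU g0 x := by
  classical
  unfold cU
  refine t1_bi hne hp hd _ ?_
  simp only [Finset.mem_filter, Finset.mem_univ, true_and, hg, hg']

theorem t1_Dj (hne : g ≠ g') (hp : p ∈ x g) (hd : F.Dj x) : F.Dj (F.mv x g g' p) := by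
  intro i j hij
  rw [Finset.disjoint_left]
  intro q h1 h2
  rcases (t1_mv_mem hne hp hd i q).1 h1 with h3 | h3 <;>
    rcases (t1_mv_mem hne hp hd j q).1 h2 with h4 | h4
  · exact Finset.disjoint_left.1 (hd i j hij) h3.2 h4.2
  · exact h3.1 h4.1
  · exact h4.1 h3.1
  · exact hij (h3.2.trans h4.2.symm)

theorem t1_inv (hne : g ≠ g') (hp : p ∈ x g) (hd : F.Dj x) :
    F.mv (F.mv x g g' p) g' g p = x := by
  have hp' : p ∈ F.mv x g g' p g' := (t1_mv_mem hne hp hd g' p).2 (Or.inr ⟨rfl, rfl⟩)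
  have hd' := t1_Dj hne hp hd
  funext h
  ext q
  rw [t1_mv_mem hne.symm hp' hd', t1_mv_mem hne hp hd]
  constructor
  · rintro (⟨h1, h2 | h2⟩ | ⟨h1, h2⟩)
    · exact h2.2
    · exact absurd h2.1 h1
    · rw [h1, h2]; exact hp
  · intro hq
    by_cases h1 : q = p
    · refine Or.inr ⟨h1, ?_⟩
      by_contra h3
      rw [h1] at hq
      exact t1_notMem hd hp h3 hq
    · exact Or.inl ⟨h1, Or.inl ⟨h1, hq⟩⟩

theorem t1_nm_pos (y : Finset F.P) : (1 : ℝ) ≤ F.nm y := by
  have h : 1 ≤ F.nm y := Nat.succ_le_of_lt (Finset.prod_pos fun p _ => F.one_le_N p)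
  exact_mod_cast h

theorem t1_size (w : Wt D) (hne : g ≠ g') (hp : p ∈ x g) (hd : F.Dj x)
    (hw : w.wt g = 1) (hw' : w.wt g' = 1) :
    ∏ h, (F.nm (F.mv x g g' p h) : ℝ) ^ w.wt h = ∏ h, (F.nm (x h) : ℝ) ^ w.wt h := by
  classical
  have hN : (F.N p : ℝ) ≠ 0 := by
    have := F.one_le_N p
    have h1 : F.N p ≠ 0 := by omega
    exact_mod_cast h1
  have key : ∀ h, (F.nm (F.mv x g g' p h) : ℝ) ^ w.wt h =
      (F.nm (x h) : ℝ) ^ w.wt h * (if h = g then (F.N p : ℝ)⁻¹ else 1) *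
        (if h = g' then (F.N p : ℝ) else 1) := by
    intro h
    by_cases h1 : h = g
    · subst h1
      rw [if_pos rfl, if_neg hne, hw, Real.rpow_one, Real.rpow_one, mul_one]
      have h2 : F.mv x h g' p h = (x h).erase p := by unfold mv; rw [if_pos rfl]
      rw [h2]
      have h3 : F.nm (x h) = F.N p * F.nm ((x h).erase p) := (Finset.mul_prod_erase _ _ hp).symm
      rw [h3]
      push_cast
      field_simp
    · rw [if_neg h1, mul_one]
      by_cases h2 : h = g'
      · subst h2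
        rw [if_pos rfl, hw', Real.rpow_one, Real.rpow_one]
        have h3 : F.mv x g h p h = insert p (x h) := by
          unfold mv; rw [if_neg h1, if_pos rfl]
        rw [h3]
        have h4 : F.nm (insert p (x h)) = F.N p * F.nm (x h) :=
          Finset.prod_insert (t1_notMem hd hp h1)
        rw [h4]
        push_cast
        ring
      · rw [if_neg h2, mul_one]
        have h3 : F.mv x g g' p h = x h := by
          unfold mv; rw [if_neg h1, if_neg h2]
        rw [h3]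
  rw [Finset.prod_congr rfl fun h _ => key h, Finset.prod_mul_distrib, Finset.prod_mul_distrib,
    Finset.prod_ite_eq' Finset.univ g, Finset.prod_ite_eq' Finset.univ g',
    if_pos (Finset.mem_univ _), if_pos (Finset.mem_univ _), mul_assoc, inv_mul_cancel₀ hN, mul_one]

theorem t1_Cf (w : Wt D) {Y : ℝ} {a : Fin F.m → D.V} (hne : g ≠ g') (hv : g'.v = g.v)
    (hp : p ∈ x g) (hw : w.wt g = 1) (hw' : w.wt g' = 1) (h1 : g ≠ 1) (h1' : g' ≠ 1)
    (hC : F.Cf w Y a x) : F.Cf w Y a (F.mv x g g' p) := by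
  obtain ⟨c1, hd, c3, c4⟩ := hC
  refine ⟨?_, t1_Dj hne hp hd, ?_, ?_⟩
  · unfold mv
    rw [if_neg h1.symm, if_neg h1'.symm]
    exact c1
  · rw [t1_size w hne hp hd hw hw']
    exact c3
  · intro h q hq
    rw [t1_mV hne hv hp hd]
    rcases (t1_mv_mem hne hp hd h q).1 hq with h3 | h3
    · exact c4 h q h3.2
    · rw [h3.1, h3.2, hv]
      exact c4 g p hp

theorem t1_bx (w : Wt D) {Y : ℝ} {a : Fin F.m → D.V} (hne : g ≠ g')
    (hp : p ∈ x g) (hw : w.wt g = 1) (hw' : w.wt g' = 1)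
    (hC : F.Cf w Y a x) (hx : x ∈ Fintype.piFinset (fun _ : Ext D => F.bx Y)) :
    F.mv x g g' p ∈ Fintype.piFinset (fun _ : Ext D => F.bx Y) := by
  classical
  obtain ⟨c1, hd, c3, c4⟩ := hC
  rw [Fintype.mem_piFinset] at hx ⊢
  have hb : ∀ h, x h ⊆ F.pr Y ∧ (F.nm (x h) : ℝ) ≤ Y := by
    intro h
    have := hx h
    unfold Pre.bx at this
    rw [Finset.mem_filter, Finset.mem_powerset] at this
    exact this
  have hsz := t1_size w hne hp hd hw hw'
  intro h
  unfold Pre.bx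
  rw [Finset.mem_filter, Finset.mem_powerset]
  refine ⟨?_, ?_⟩
  · intro q hq
    rcases (t1_mv_mem hne hp hd h q).1 hq with h3 | h3
    · exact (hb h).1 h3.2
    · rw [h3.1]; exact (hb g).1 hp
  · by_cases h2 : h = g'
    · have h3 : (F.nm (F.mv x g g' p h) : ℝ) ^ w.wt h ≤
          ∏ h, (F.nm (F.mv x g g' p h) : ℝ) ^ w.wt h := by
        have h5 : ∀ i, (1 : ℝ) ≤ (F.nm (F.mv x g g' p i) : ℝ) ^ w.wt i := fun i =>
          Real.one_le_rpow (t1_nm_pos _) (t1_wt_nonneg w i)
        rw [← Finset.mul_prod_erase Finset.univ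
          (fun i => (F.nm (F.mv x g g' p i) : ℝ) ^ w.wt i) (Finset.mem_univ h)]
        refine le_mul_of_one_le_right (zero_le_one.trans (h5 h)) ?_
        calc (1 : ℝ) = ∏ _i ∈ Finset.univ.erase h, (1 : ℝ) := Finset.prod_const_one.symm
          _ ≤ _ := Finset.prod_le_prod (fun _ _ => zero_le_one) (fun i _ => h5 i)
      rw [hsz] at h3
      have h4 : w.wt h = 1 := by rw [h2]; exact hw'
      rw [h4, Real.rpow_one] at h3
      exact h3.trans c3
    · by_cases h1 : h = g
      · have h3 : F.mv x g g' p h = (x h).erase p := by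
          unfold mv; rw [if_pos h1]
        rw [h3]
        refine le_trans ?_ (hb h).2
        have h4 : F.nm ((x h).erase p) ≤ F.nm (x h) :=
          Finset.prod_le_prod_of_subset_of_one_le' (Finset.erase_subset _ _)
            (fun i _ _ => F.one_le_N i)
        exact_mod_cast h4
      · have h3 : F.mv x g g' p h = x h := by
          unfold mv; rw [if_neg h1, if_neg h2]
        rw [h3]
        exact (hb h).2

end

end Sys

end Pool.Agent.H98.MF
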