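import Pool.Agent.H98.MF.MDefs
import Pool.Agent.H98.MF.Switch1a

/-!
# Project MK4 (MP_a3214d), row MF-M9: the invariants of configurations, from the other rows
(helper81)
-/

set_option autoImplicit false

open scoped BigOperators Pointwise
open NumberField IsDedekindDomain Filter

namespace Pool.Agent.H98.MF

open Pool.Agent.H98.MK (sg)
open Pool.Agent.H98.ML (Dt Ext Wt norb hind)

namespace Frm

variable {k : Type} [Field k] [NumberField k] (F : Frm k)

/-- the results of the other rows used here -/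
structure InvIn (R : Rx k) (D : Dt) : Prop where
  normal : ∀ {x : F.I →₀ D.V} {f : Gm k → D.Z}, F.IsLift D x f →
    ∃ f' : Gm k → D.Z, F.IsNormal R D x f'
  embed : ∀ {x : F.I →₀ D.V}, F.Sol D x → ∃ f : Gm k → D.Z, F.IsLift D x f
  par_data : ∀ {x x' : F.I →₀ D.V} {a : Fin F.sys.m → D.V} {δ : D.V → F.sys.T},
    F.Dat x a δ → F.Dat x' a δ → F.EqS (F.par x) (F.par x')
  locL_data : ∀ {x : F.I →₀ D.V} {a : Fin F.sys.m → D.V} {δ : D.V → F.sys.T},
    F.Dat x a δ → ((∀ v ∈ pls F.S, F.LocL D x v) ↔ F.solS D a δ)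
  crd_exists : ∀ (h : Gm k → D.Z), IsLocallyConstant h →
    (∀ v ∈ pls F.S, ∀ σ ∈ DecP v, ∀ τ ∈ DecP v, h (σ * τ) = h σ + h τ) →
    ∃ z e : Fin F.sys.m → D.Z, F.EqS h (fun σ => F.parU z σ + F.parW e σ)
  crd_unique : ∀ z e z' e' : Fin F.sys.m → D.Z,
    F.EqS (fun σ => F.parU z σ + F.parW e σ) (fun σ => F.parU z' σ + F.parW e' σ) →
    z = z' ∧ e = e'
  pi_loc : ∀ (p : F.sys.P) (z : D.Z),
    F.EqS (fun σ => chi (F.pi p : k) σ • z) (F.parW fun j => F.sys.ty p j • z)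
  conf_data : ∀ (a : Fin F.sys.m → D.V) (y : Ext D → Finset F.sys.P), y 1 = ∅ → F.sys.Dj y →
    F.Dat (F.xOf a y) a (fun v => F.sys.tys (F.sys.mV y v)) ∧
      ((∀ p, F.okx D (F.xOf a y) p) ↔ ∀ g, ∀ p ∈ y g, F.sys.okp a (F.sys.mV y) g.v p)
  conf_move : ∀ (a : Fin F.sys.m → D.V) (b : Fin F.sys.m → D.Z)
    (y : Ext D → Finset F.sys.P), y 1 = ∅ → F.sys.Dj y → ∀ (g : Ext D) (p : F.sys.P),
    p ∈ y g → ∀ z' : D.Z, z' ≠ 0 →
    F.xOf a (F.sys.mv y g ⟨g.v, g.z + z'⟩ p) = F.xOf a y ∧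
      F.zOf b (F.sys.mv y g ⟨g.v, g.z + z'⟩ p) = F.zOf b y + Finsupp.single (Sum.inr p) z'
  exists_x0 : ∃ y : Ext D → Finset F.sys.P, F.Good D 0 y ∧
    ∀ v, F.sys.tys (F.sys.mV y v) = 0
  lh_surj : ∀ {x : F.I →₀ D.V} {f : Gm k → D.Z} (h : F.IsLift D x f),
    Function.Surjective (lh h) ↔ Submodule.span (ZMod 2) (Set.range x) = ⊤
  lh_lc : ∀ {x : F.I →₀ D.V} {f : Gm k → D.Z} (h : F.IsLift D x f),
    IsLocallyConstant (lh h)

namespace Inv

variable {F} {R : Rx k} {D : Dt}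

/-! ### linearity -/

theorem par_add {r : ℕ} (x y : F.I →₀ (Fin r → ZMod 2)) (σ : Gm k) :
    F.par (x + y) σ = F.par x σ + F.par y σ := by
  classical
  unfold par
  exact Finsupp.sum_add_index' (fun i => smul_zero _) (fun i v w => smul_add _ _ _)

theorem par_single {r : ℕ} (i : F.I) (v : Fin r → ZMod 2) (σ : Gm k) :
    F.par (Finsupp.single i v) σ = chi (F.e i : k) σ • v := by
  classical
  unfold par
  exact Finsupp.sum_single_index (smul_zero _)

theorem par_zero {r : ℕ} (σ : Gm k) : F.par (0 : F.I →₀ (Fin r → ZMod 2)) σ = 0 := by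
  unfold par
  exact Finsupp.sum_zero_index

theorem par_sum {r : ℕ} {ι : Type} (s : Finset ι) (x : ι → F.I →₀ (Fin r → ZMod 2)) (σ : Gm k) :
    F.par (∑ i ∈ s, x i) σ = ∑ i ∈ s, F.par (x i) σ := by
  classical
  induction s using Finset.induction_on with
  | empty => rw [Finset.sum_empty, Finset.sum_empty, par_zero]
  | insert i s hi ih => rw [Finset.sum_insert hi, Finset.sum_insert hi, par_add, ih]

theorem parU_add {r : ℕ} (b c : Fin F.sys.m → (Fin r → ZMod 2)) (σ : Gm k) :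
    F.parU (b + c) σ = F.parU b σ + F.parU c σ := by
  unfold parU
  rw [← Finset.sum_add_distrib]
  refine Finset.sum_congr rfl fun j _ => ?_
  rw [Pi.add_apply, smul_add]

theorem parW_add {r : ℕ} (b c : Fin F.sys.m → (Fin r → ZMod 2)) (σ : Gm k) :
    F.parW (b + c) σ = F.parW b σ + F.parW c σ := by
  unfold parW
  rw [← Finset.sum_add_distrib]
  refine Finset.sum_congr rfl fun j _ => ?_
  rw [Pi.add_apply, smul_add]

theorem par_zOf (b : Fin F.sys.m → D.Z) (y : Ext D → Finset F.sys.P) (σ : Gm k) :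
    F.par (F.zOf b y) σ = F.par (F.zOf 0 y) σ + F.parU b σ := by
  classical
  have h1 : F.zOf b y = F.zOf 0 y + ∑ j, Finsupp.single (Sum.inl j) (b j) := by
    unfold zOf
    have h0 : ∑ j : Fin F.sys.m, (Finsupp.single (Sum.inl j) ((0 : Fin F.sys.m → D.Z) j) :
        F.I →₀ D.Z) = 0 := Finset.sum_eq_zero fun j _ => by
      rw [Pi.zero_apply, Finsupp.single_zero]
    rw [h0, zero_add, add_comm]
  rw [h1, par_add, par_sum]
  congr 1
  unfold parU
  exact Finset.sum_congr rfl fun j _ => par_single _ _ _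

/-! ### the definitions -/

open Classical in
/-- the normal lift -/
noncomputable def nf (R : Rx k) (D : Dt) (x : F.I →₀ D.V) : Gm k → D.Z :=
  if h : ∃ f, F.IsNormal R D x f then h.choose else 0

theorem nf_spec (I : F.InvIn R D) {x : F.I →₀ D.V} (hx : F.Sol D x) :
    F.IsNormal R D x (nf R D x) := by
  obtain ⟨f, hf⟩ := I.embed hx
  have h := I.normal hf
  unfold nf
  rw [dif_pos h]
  exact h.choose_spec

variable (F) in
open Classical in
/-- the base point of the data -/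
noncomputable def x0 (D : Dt) (a : Fin F.sys.m → D.V) (δ : D.V → F.sys.T) : F.I →₀ D.V :=
  if h : ∃ x : F.I →₀ D.V, F.Sol D x ∧ F.Dat x a δ then h.choose else 0

theorem x0_spec {a : Fin F.sys.m → D.V} {δ : D.V → F.sys.T} {x : F.I →₀ D.V} (h1 : F.Sol D x)
    (h2 : F.Dat x a δ) : F.Sol D (x0 F D a δ) ∧ F.Dat (x0 F D a δ) a δ := by
  have h : ∃ x : F.I →₀ D.V, F.Sol D x ∧ F.Dat x a δ := ⟨x, h1, h2⟩
  unfold x0
  rw [dif_pos h]
  exact h.choose_spec

/-- the local coordinates of a lift -/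
def Cr (R : Rx k) (D : Dt) (a : Fin F.sys.m → D.V) (δ : D.V → F.sys.T)
    (c e : Fin F.sys.m → D.Z) (f : Gm k → D.Z) : Prop :=
  F.EqS f (fun σ => nf R D (x0 F D a δ) σ + (F.parU c σ + F.parW e σ))

/-- the types of a configuration -/
noncomputable def dl (y : Ext D → Finset F.sys.P) : D.V → F.sys.T := fun v => F.sys.tys (F.sys.mV y v)

/-- the lift of a configuration -/
noncomputable def fy (R : Rx k) (a : Fin F.sys.m → D.V) (y : Ext D → Finset F.sys.P) :
    Gm k → D.Z := fun σ => nf R D (F.xOf a y) σ + F.par (F.zOf 0 y) σ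

open Classical in
/-- the coordinates of a configuration -/
noncomputable def EE (R : Rx k) (D : Dt) (a : Fin F.sys.m → D.V) (y : Ext D → Finset F.sys.P) :
    Fin F.sys.m → D.Z :=
  if h : ∃ e, ∃ c, Cr R D a (dl y) c e (fy R a y) then h.choose else 0

/-- the part at `S` of given data -/
def TP (R : Rx k) (H0 : Subgroup (Ext D)) (a : Fin F.sys.m → D.V) (δ : D.V → F.sys.T)
    (c e : Fin F.sys.m → D.Z) (n : ℕ) : Prop :=
  ∃ (x : F.I →₀ D.V) (f : Gm k → D.Z) (hl : F.IsLift D x f),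
    Submodule.span (ZMod 2) (Set.range x) = ⊤ ∧ F.Dat x a δ ∧ Cr R D a δ c e f ∧
      F.qS R H0 (lh hl) = n

open Classical in
/-- the part at `S` of given data -/
noncomputable def tp (R : Rx k) (H0 : Subgroup (Ext D)) (a : Fin F.sys.m → D.V)
    (δ : D.V → F.sys.T) (c e : Fin F.sys.m → D.Z) : ℕ :=
  if h : ∃ n, TP R H0 a δ c e n then h.choose else 0

instance : Finite (Ext D) := Finite.of_fintype _

theorem TP_unique (I : F.InvIn R D) {H0 : Subgroup (Ext D)} {a : Fin F.sys.m → D.V}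
    {δ : D.V → F.sys.T} {c e : Fin F.sys.m → D.Z} {n n' : ℕ} (h : TP R H0 a δ c e n)
    (h' : TP R H0 a δ c e n') : n = n' := by
  obtain ⟨x, f, hl, h1, h2, h3, rfl⟩ := h
  obtain ⟨x', f', hl', h1', h2', h3', rfl⟩ := h'
  unfold qS
  refine Finset.prod_congr rfl fun P hP => ?_
  congr 1
  refine R.loc (Ext D) (lh hl) (lh hl') H0 (I.lh_lc hl) (I.lh_lc hl') ((I.lh_surj hl).2 h1)
    ((I.lh_surj hl').2 h1') P fun σ hσ => ?_
  have hv : (Sum.inl P : Pl k) ∈ pls F.S := Finset.inl_mem_disjSum.2 hP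
  apply Ext.ext
  · exact I.par_data h2 h2' _ hv σ hσ
  · exact (h3 _ hv σ hσ).trans (h3' _ hv σ hσ).symm

theorem tp_eq (I : F.InvIn R D) {H0 : Subgroup (Ext D)} {a : Fin F.sys.m → D.V}
    {δ : D.V → F.sys.T} {c e : Fin F.sys.m → D.Z} {n : ℕ} (h : TP R H0 a δ c e n) :
    tp R H0 a δ c e = n := by
  have h' : ∃ n, TP R H0 a δ c e n := ⟨n, h⟩
  unfold tp
  rw [dif_pos h']
  exact TP_unique I h'.choose_spec h

/-! ### good configurations -/

theorem good_sol (I : F.InvIn R D) {a : Fin F.sys.m → D.V} {y : Ext D → Finset F.sys.P}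
    (h : F.Good D a y) : F.Sol D (F.xOf a y) ∧ F.Dat (F.xOf a y) a (dl y) := by
  obtain ⟨h1, h2, h3, -, h5⟩ := h
  have h6 := I.conf_data a y h1 h2
  exact ⟨⟨h6.2.2 h3, (I.locL_data h6.1).2 h5⟩, h6.1⟩

theorem good_crd (I : F.InvIn R D) {a : Fin F.sys.m → D.V} {y : Ext D → Finset F.sys.P}
    (h : F.Good D a y) : ∃ e, ∃ c, Cr R D a (dl y) c e (fy R a y) := by
  obtain ⟨h1, h2⟩ := good_sol I h
  obtain ⟨h3, h4⟩ := x0_spec h1 h2
  have l1 := nf_spec I h1
  have l2 := nf_spec I h3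
  have l3 : F.IsLift D (F.xOf a y) (fy R a y) := l1.toIsLift.add (F.zOf 0 y)
  have hpar := I.par_data h2 h4
  set g : Gm k → D.Z := fun σ => fy R a y σ + nf R D (x0 F D a (dl y)) σ with hg
  have hlc : IsLocallyConstant g := l3.lc.add l2.toIsLift.lc
  obtain ⟨c, e, hce⟩ := I.crd_exists g hlc (by
    intro v hv σ hσ τ hτ
    rw [hg]
    simp only
    rw [l3.hom, l2.toIsLift.hom, hpar v hv σ hσ, hpar v hv τ hτ]
    have h5 := Ext.two_Z (D := D) (D.β (F.par (x0 F D a (dl y)) σ) (F.par (x0 F D a (dl y)) τ))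
    calc _ = fy R a y σ + nf R D (x0 F D a (dl y)) σ +
          (fy R a y τ + nf R D (x0 F D a (dl y)) τ) +
          (D.β (F.par (x0 F D a (dl y)) σ) (F.par (x0 F D a (dl y)) τ) +
            D.β (F.par (x0 F D a (dl y)) σ) (F.par (x0 F D a (dl y)) τ)) := by abel
      _ = _ := by rw [h5, add_zero])
  refine ⟨e, c, fun v hv σ hσ => ?_⟩
  have h6 := hce v hv σ hσ
  rw [hg] at h6
  simp only at h6
  simp only
  rw [← h6]
  have h7 := Ext.two_Z (D := D) (nf R D (x0 F D a (dl y)) σ)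
  calc fy R a y σ = fy R a y σ + (nf R D (x0 F D a (dl y)) σ + nf R D (x0 F D a (dl y)) σ) := by
        rw [h7, add_zero]
    _ = _ := by abel

theorem EE_spec (I : F.InvIn R D) {a : Fin F.sys.m → D.V} {y : Ext D → Finset F.sys.P}
    (h : F.Good D a y) : ∃ c, Cr R D a (dl y) c (EE R D a y) (fy R a y) := by
  have h' := good_crd I h
  unfold EE
  rw [dif_pos h']
  exact h'.choose_spec

theorem Cr_unique (I : F.InvIn R D) {a : Fin F.sys.m → D.V} {δ : D.V → F.sys.T}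
    {c e c' e' : Fin F.sys.m → D.Z} {f : Gm k → D.Z} (h : Cr R D a δ c e f)
    (h' : Cr R D a δ c' e' f) : c = c' ∧ e = e' := by
  refine I.crd_unique c e c' e' fun v hv σ hσ => ?_
  have h1 := h v hv σ hσ
  have h2 := h' v hv σ hσ
  exact add_left_cancel (h1.symm.trans h2)

theorem EE_eq (I : F.InvIn R D) {a : Fin F.sys.m → D.V} {y : Ext D → Finset F.sys.P}
    {c e : Fin F.sys.m → D.Z} (h : Cr R D a (dl y) c e (fy R a y)) : EE R D a y = e := by
  have h' : ∃ e, ∃ c, Cr R D a (dl y) c e (fy R a y) := ⟨e, c, h⟩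
  obtain ⟨c', hc'⟩ := h'.choose_spec
  have h1 : EE R D a y = h'.choose := by
    unfold EE
    rw [dif_pos h']
  rw [h1]
  exact (Cr_unique I hc' h).2

/-- the effect of a move -/
theorem EE_move (I : F.InvIn R D) {a : Fin F.sys.m → D.V} {y : Ext D → Finset F.sys.P}
    (h : F.Good D a y) (g : Ext D) (p : F.sys.P) (hp : p ∈ y g) (z' : D.Z) (hz : z' ≠ 0) :
    EE R D a (F.sys.mv y g ⟨g.v, g.z + z'⟩ p) = fun j => EE R D a y j + F.sys.ty p j • z' := by
  obtain ⟨c, hc⟩ := EE_spec I h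
  have hne : g ≠ (⟨g.v, g.z + z'⟩ : Ext D) := by
    intro h0
    have h1 := congrArg Ext.z h0
    have h2 : g.z = g.z + z' := h1
    exact hz (left_eq_add.1 h2)
  have hmV : F.sys.mV (F.sys.mv y g ⟨g.v, g.z + z'⟩ p) = F.sys.mV y :=
    F.sys.t1_mV hne rfl hp h.2.1
  have hdl : dl (F.sys.mv y g ⟨g.v, g.z + z'⟩ p) = dl y := by
    unfold dl
    rw [hmV]
  obtain ⟨hx, hzz⟩ := I.conf_move a 0 y h.1 h.2.1 g p hp z' hz
  have key : Cr R D a (dl (F.sys.mv y g ⟨g.v, g.z + z'⟩ p)) c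
      (EE R D a y + fun j => F.sys.ty p j • z') (fy R a (F.sys.mv y g ⟨g.v, g.z + z'⟩ p)) := by
    rw [hdl]
    intro v hv σ hσ
    have h1 := hc v hv σ hσ
    have h2 := I.pi_loc p z' v hv σ hσ
    simp only at h1 h2
    unfold fy at h1 ⊢
    simp only
    rw [hx, hzz, par_add, par_single, ← add_assoc, h1, parW_add, ← h2]
    show _ + chi (F.pi p : k) σ • z' = _
    abel
  exact EE_eq I key

theorem nrm_pos (P : HeightOneSpectrum (𝓞 k)) : 0 < nrm P := by
  unfold nrm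
  rw [Nat.pos_iff_ne_zero, Ne, Ideal.absNorm_eq_zero_iff]
  exact P.ne_bot

theorem qS_pos (H0 : Subgroup (Ext D)) (ρ : Gm k →* Ext D) : 0 < F.qS R H0 ρ := by
  unfold qS
  exact Finset.prod_pos fun P _ => pow_pos (nrm_pos P) _

/-- the part at `S` of the lifts of a configuration -/
theorem qS_eq (I : F.InvIn R D) {a : Fin F.sys.m → D.V} {y : Ext D → Finset F.sys.P}
    (H0 : Subgroup (Ext D)) (hg : F.Good D a y) {c : Fin F.sys.m → D.Z}
    (hc : Cr R D a (dl y) c (EE R D a y) (fy R a y))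
    (h : F.IsNormal R D (F.xOf a y) (nf R D (F.xOf a y))) (b : Fin F.sys.m → D.Z) :
    tp R H0 a (dl y) (c + b) (EE R D a y) =
      F.qS R H0 (lh (h.toIsLift.add (F.zOf b y))) := by
  refine tp_eq I ⟨F.xOf a y, _, h.toIsLift.add (F.zOf b y), hg.2.2.2.1, (good_sol I hg).2, ?_,
    rfl⟩
  intro v hv σ hσ
  have h1 := hc v hv σ hσ
  simp only at h1 ⊢
  unfold fy at h1
  rw [par_zOf, ← add_assoc, h1, parU_add]
  abel

open Classical in
/-- **Row MF-M9** from the other rows. -/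
theorem exists_inv_of (I : F.InvIn R D) (H0 : Subgroup (Ext D)) :
    ∃ (nf : (F.I →₀ D.V) → Gm k → D.Z) (Q : Finset ℕ)
      (Nt : ℕ → (Fin F.sys.m → D.V) → (D.V → F.sys.T) → (Fin F.sys.m → D.Z) → ℕ)
      (E : (Fin F.sys.m → D.V) → (Ext D → Finset F.sys.P) → (Fin F.sys.m → D.Z)),
      (∀ q ∈ Q, 0 < q) ∧
      (∃ q ∈ Q, ∃ e, 1 ≤ Nt q 0 0 e) ∧
      (∀ a y, F.Good D a y → ∀ g p, p ∈ y g → ∀ z' : D.Z, z' ≠ 0 →
        E a (F.sys.mv y g ⟨g.v, g.z + z'⟩ p) = fun j => E a y j + F.sys.ty p j • z') ∧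
      (∀ x, F.Sol D x → F.IsNormal R D x (nf x)) ∧
      ∀ a y, F.Good D a y → ∀ h : F.IsNormal R D (F.xOf a y) (nf (F.xOf a y)),
        (∀ b, F.qS R H0 (lh (h.toIsLift.add (F.zOf b y))) ∈ Q) ∧
        ∀ q ∈ Q, Nat.card {b : Fin F.sys.m → D.Z //
          F.qS R H0 (lh (h.toIsLift.add (F.zOf b y))) = q} =
            Nt q a (fun v => F.sys.tys (F.sys.mV y v)) (E a y) := by
  let Q : Finset ℕ := ((Finset.univ : Finset ((Fin F.sys.m → D.V) × (D.V → F.sys.T) ×
    (Fin F.sys.m → D.Z) × (Fin F.sys.m → D.Z))).image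
      fun t => tp R H0 t.1 t.2.1 t.2.2.1 t.2.2.2).filter fun q => 0 < q
  have hQ : ∀ (a : Fin F.sys.m → D.V) (δ : D.V → F.sys.T) (c e : Fin F.sys.m → D.Z),
      0 < tp R H0 a δ c e → tp R H0 a δ c e ∈ Q := by
    intro a δ c e h
    rw [Finset.mem_filter]
    exact ⟨Finset.mem_image.2 ⟨(a, δ, c, e), Finset.mem_univ _, rfl⟩, h⟩
  let Nt : ℕ → (Fin F.sys.m → D.V) → (D.V → F.sys.T) → (Fin F.sys.m → D.Z) → ℕ :=
    fun q a δ e => Nat.card {c : Fin F.sys.m → D.Z // tp R H0 a δ c e = q}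
  have main : ∀ a y, F.Good D a y → ∀ h : F.IsNormal R D (F.xOf a y) (nf R D (F.xOf a y)),
        (∀ b, F.qS R H0 (lh (h.toIsLift.add (F.zOf b y))) ∈ Q) ∧
        ∀ q ∈ Q, Nat.card {b : Fin F.sys.m → D.Z //
          F.qS R H0 (lh (h.toIsLift.add (F.zOf b y))) = q} =
            Nt q a (fun v => F.sys.tys (F.sys.mV y v)) (EE R D a y) := by
    intro a y hg h
    obtain ⟨c, hc⟩ := EE_spec I hg
    have key := qS_eq I H0 hg hc h
    refine ⟨fun b => ?_, fun q _ => ?_⟩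
    · rw [← key b]
      refine hQ _ _ _ _ ?_
      rw [key b]
      exact qS_pos H0 _
    · refine Nat.card_congr ((Equiv.addLeft c).subtypeEquiv fun b => ?_)
      rw [← key b]
      rfl
  refine ⟨nf R D, Q, Nt, EE R D, fun q hq => (Finset.mem_filter.1 hq).2, ?_, ?_, ?_, main⟩
  · obtain ⟨y, hy, hty⟩ := I.exists_x0
    have hsol := (good_sol I hy).1
    have hn := nf_spec I hsol
    obtain ⟨c, hc⟩ := EE_spec I hy
    have key := qS_eq I H0 hy hc hn 0
    have h0 : (dl y : D.V → F.sys.T) = 0 := by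
      funext v
      exact hty v
    refine ⟨_, (main 0 y hy hn).1 0, EE R D 0 y, ?_⟩
    rw [← key, h0]
    have : Nonempty {c' : Fin F.sys.m → D.Z // tp R H0 0 0 c' (EE R D 0 y)
        = tp R H0 0 0 (c + 0) (EE R D 0 y)} := ⟨⟨c + 0, rfl⟩⟩
    exact Nat.card_pos
  · intro a y hg g p hp z' hz
    exact EE_move I hg g p hp z' hz
  · intro x hx
    exact nf_spec I hx

end Inv

end Frm

end Pool.Agent.H98.MF
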