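import Pool.Agent.H98.MF.SBase

/-!
# Project MK4 (MP_a3214d), row A11: bilinear sums over boxes, from the sieve and the count of
coincidences
-/

set_option autoImplicit false

open scoped BigOperators
open Filter

namespace Pool.Agent.H98.MF

open Pool.Agent.H98.MK (sg)
open Pool.Agent.H98.ML (Dt Ext Wt)

/-! ### the character of an ideal -/

theorem a11_chv_add (S : Pre) (y : Finset S.P) (g : S.P → ZMod 2) (f f' : S.P →₀ ℕ) :
    S.chv y g (f + f') = S.chv y g f * S.chv y g f' := by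
  classical
  have hsup : (f + f').support = f.support ∪ f'.support := by
    ext p
    simp only [Finsupp.mem_support_iff, Finsupp.add_apply, Finset.mem_union]
    omega
  have hsum : ((f + f').sum fun p k => (k : ZMod 2) * g p) =
      (f.sum fun p k => (k : ZMod 2) * g p) + f'.sum fun p k => (k : ZMod 2) * g p :=
    Finsupp.sum_add_index' (fun p => by simp) fun p a b => by push_cast; ring
  unfold Pre.chv
  rw [hsum]
  by_cases h1 : Disjoint f.support y
  · by_cases h2 : Disjoint f'.support y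
    · rw [if_pos h1, if_pos h2, if_pos, sg_add]
      rw [hsup]
      exact Finset.disjoint_union_left.2 ⟨h1, h2⟩
    · rw [if_neg h2, mul_zero, if_neg]
      intro h
      rw [hsup] at h
      exact h2 (Finset.disjoint_union_left.1 h).2
  · rw [if_neg h1, zero_mul, if_neg]
    intro h
    rw [hsup] at h
    exact h1 (Finset.disjoint_union_left.1 h).1

theorem a11_chv_zero (S : Pre) (y : Finset S.P) (g : S.P → ZMod 2) : S.chv y g 0 = 1 := by
  unfold Pre.chv
  simp [sg_zero]

theorem a11_chv_sum (S : Pre) (y : Finset S.P) (g : S.P → ZMod 2) {ι : Type} (s : Finset ι)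
    (f : ι → S.P →₀ ℕ) : S.chv y g (∑ i ∈ s, f i) = ∏ i ∈ s, S.chv y g (f i) := by
  classical
  induction s using Finset.induction_on with
  | empty => simp [a11_chv_zero]
  | insert a s ha ih => rw [Finset.sum_insert ha, Finset.prod_insert ha, a11_chv_add, ih]

theorem a11_nf_sum (S : Pre) {ι : Type} (s : Finset ι) (f : ι → S.P →₀ ℕ) :
    S.nf (∑ i ∈ s, f i) = ∏ i ∈ s, S.nf (f i) := by
  classical
  induction s using Finset.induction_on with
  | empty => simp [S.nf_zero]
  | insert a s ha ih => rw [Finset.sum_insert ha, Finset.prod_insert ha, S.nf_add, ih]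

theorem a11_chv_idf (F : Sys) (x y : Finset F.P) :
    F.chv y (F.ex y 0) (F.idf x) = if Disjoint x y then F.jj x y else 0 := by
  have h1 : ((F.idf x).sum fun p k => (k : ZMod 2) * F.ex y 0 p) = F.JJ x y := by
    unfold Finsupp.sum
    rw [F.idf_support]
    have h2 := F.sum_ex y 0 x
    rw [zero_dotProduct, add_zero] at h2
    rw [← h2]
    refine Finset.sum_congr rfl fun p hp => ?_
    rw [F.idf_apply, if_pos hp]
    change ((1 : ℕ) : ZMod 2) * F.ex y 0 p = F.ex y 0 p
    rw [Nat.cast_one, one_mul]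
  unfold Pre.chv
  rw [F.idf_support, h1]
  rfl

/-! ### the power of the sum -/

/-- the tuples -/
noncomputable abbrev a11_T (F : Sys) (k : ℕ) (M : ℝ) : Finset (Fin k → Finset F.P) :=
  Fintype.piFinset fun _ : Fin k => F.bx M

open Classical in
/-- the coefficients of the power of the sum -/
noncomputable def a11_A (F : Sys) (k : ℕ) (M : ℝ) (a : Finset F.P → ℝ) (f : F.P →₀ ℕ) : ℝ :=
  ∑ z ∈ (a11_T F k M).filter (fun z => ∑ i, F.idf (z i) = f), ∏ i, a (z i)

theorem a11_mem (F : Sys) (k : ℕ) (M : ℝ) (z : Fin k → Finset F.P) (hz : z ∈ a11_T F k M) :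
    ∑ i, F.idf (z i) ∈ F.idl (M ^ k) := by
  rw [F.mem_idl, a11_nf_sum]
  push_cast
  have h := Fintype.mem_piFinset.1 hz
  calc ∏ i, (F.nf (F.idf (z i)) : ℝ) ≤ ∏ _i : Fin k, M := by
        refine Finset.prod_le_prod (fun i _ => Nat.cast_nonneg _) fun i _ => ?_
        rw [F.nf_idf]
        exact F.mem_bx.1 (h i)
    _ = M ^ k := by simp

theorem a11_pow (F : Sys) (k : ℕ) (M : ℝ) (y : Finset F.P) (a : Finset F.P → ℝ) :
    (∑ x ∈ F.bx M, a x * (F.chv y (F.ex y 0) (F.idf x) : ℝ)) ^ k =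
      ∑ f ∈ F.idl (M ^ k), a11_A F k M a f * (F.chv y (F.ex y 0) f : ℝ) := by
  classical
  have h1 : (∑ x ∈ F.bx M, a x * (F.chv y (F.ex y 0) (F.idf x) : ℝ)) ^ k =
      ∏ _i : Fin k, ∑ x ∈ F.bx M, a x * (F.chv y (F.ex y 0) (F.idf x) : ℝ) := by
    simp
  rw [h1, Finset.prod_univ_sum]
  rw [← Finset.sum_fiberwise_of_maps_to (g := fun z : Fin k → Finset F.P => ∑ i, F.idf (z i))
    (t := F.idl (M ^ k)) (fun z hz => a11_mem F k M z hz)]
  refine Finset.sum_congr rfl fun f _ => ?_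
  rw [a11_A, Finset.sum_mul]
  refine Finset.sum_congr (by congr) fun z hz => ?_
  have hf : ∑ i, F.idf (z i) = f := (Finset.mem_filter.1 hz).2
  rw [Finset.prod_mul_distrib, ← hf, a11_chv_sum]
  push_cast
  rfl

open Classical in
theorem a11_abs (F : Sys) (k : ℕ) (M : ℝ) (a : Finset F.P → ℝ) (ha : ∀ x, |a x| ≤ 1)
    (f : F.P →₀ ℕ) : |a11_A F k M a f| ≤
      (((a11_T F k M).filter (fun z => ∑ i, F.idf (z i) = f)).card : ℝ) := by
  rw [a11_A]
  refine (Finset.abs_sum_le_sum_abs _ _).trans ?_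
  rw [Finset.card_eq_sum_ones]
  push_cast
  refine Finset.sum_le_sum fun z _ => ?_
  rw [Finset.abs_prod]
  exact Finset.prod_le_one (fun i _ => abs_nonneg _) fun i _ => ha _

open Classical in
theorem a11_pairs (F : Sys) (k : ℕ) (M : ℝ) :
    ((((a11_T F k M) ×ˢ (a11_T F k M)).filter
      (fun z => ∑ i, F.idf (z.1 i) = ∑ i, F.idf (z.2 i))).card : ℝ) =
    ∑ f ∈ F.idl (M ^ k),
      (((a11_T F k M).filter (fun z => ∑ i, F.idf (z i) = f)).card : ℝ) ^ 2 := by
  have h := Finset.card_eq_sum_card_fiberwise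
    (s := ((a11_T F k M) ×ˢ (a11_T F k M)).filter
      (fun z => ∑ i, F.idf (z.1 i) = ∑ i, F.idf (z.2 i)))
    (f := fun z : (Fin k → Finset F.P) × (Fin k → Finset F.P) => ∑ i, F.idf (z.1 i))
    (t := F.idl (M ^ k))
    (fun z hz => a11_mem F k M z.1
      (Finset.mem_product.1 (Finset.mem_filter.1 hz).1).1)
  rw [h]
  push_cast
  refine Finset.sum_congr rfl fun f _ => ?_
  rw [sq, ← Nat.cast_mul, ← Finset.card_product]
  congr 2
  ext z
  simp only [Finset.mem_filter, Finset.mem_product]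
  constructor
  · rintro ⟨⟨⟨h1, h2⟩, h3⟩, h4⟩
    exact ⟨⟨h1, h4⟩, h2, by rw [← h3, h4]⟩
  · rintro ⟨⟨h1, h4⟩, h2, h5⟩
    exact ⟨⟨⟨h1, h2⟩, by rw [h4, h5]⟩, h4⟩

end Pool.Agent.H98.MF
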