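import Pool.Agent.H98.MF.NK

/-!
# Project MK4 (MP_a3214d), block N: ideals prime to `S` and exponent functions
-/

set_option autoImplicit false

open scoped BigOperators Pointwise NNReal nonZeroDivisors
open NumberField IsDedekindDomain

namespace Pool.Agent.H98.MF

variable {k : Type} [Field k] [NumberField k]

namespace NIdfA

/-- exponent of an ideal at a prime -/
noncomputable def cn (v : HeightOneSpectrum (𝓞 k)) (I : Ideal (𝓞 k)) : ℤ :=
  FractionalIdeal.count k v (I : FractionalIdeal (𝓞 k)⁰ k)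

theorem coe_ne {I : Ideal (𝓞 k)} (hI : I ≠ ⊥) : (I : FractionalIdeal (𝓞 k)⁰ k) ≠ 0 :=
  FractionalIdeal.coeIdeal_ne_zero.2 hI

theorem cn_mul (v : HeightOneSpectrum (𝓞 k)) {I J : Ideal (𝓞 k)} (hI : I ≠ ⊥) (hJ : J ≠ ⊥) :
    cn v (I * J) = cn v I + cn v J := by
  unfold cn
  rw [FractionalIdeal.coeIdeal_mul, FractionalIdeal.count_mul k v (coe_ne hI) (coe_ne hJ)]

theorem cn_nonneg (v : HeightOneSpectrum (𝓞 k)) (I : Ideal (𝓞 k)) : 0 ≤ cn v I :=
  FractionalIdeal.count_coe_nonneg k v I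

theorem le_iff (v : HeightOneSpectrum (𝓞 k)) {I : Ideal (𝓞 k)} (hI : I ≠ ⊥) :
    I ≤ v.asIdeal ↔ cn v I ≠ 0 := by
  classical
  unfold cn
  rw [FractionalIdeal.count_coe k v hI, ← Ideal.dvd_iff_le, Ne, Nat.cast_eq_zero]
  exact (Associates.count_ne_zero_iff_dvd hI v.irreducible).symm

theorem ext_cn {I J : Ideal (𝓞 k)} (hI : I ≠ ⊥) (hJ : J ≠ ⊥) (h : ∀ v, cn v I = cn v J) :
    I = J := by
  have h1 := FractionalIdeal.finprod_heightOneSpectrum_factorization' k (coe_ne hI)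
  have h2 := FractionalIdeal.finprod_heightOneSpectrum_factorization' k (coe_ne hJ)
  have h3 : (I : FractionalIdeal (𝓞 k)⁰ k) = J := by
    rw [← h1, ← h2]
    refine finprod_congr fun v => ?_
    have h4 : FractionalIdeal.count k v (I : FractionalIdeal (𝓞 k)⁰ k) =
        FractionalIdeal.count k v (J : FractionalIdeal (𝓞 k)⁰ k) := h v
    rw [h4]
  exact FractionalIdeal.coeIdeal_inj.1 h3

theorem cn_prod (S : Finset (HeightOneSpectrum (𝓞 k))) (f : (preK S).P →₀ ℕ)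
    (v : HeightOneSpectrum (𝓞 k)) : cn v (idf S f) =
      ∑ Q ∈ f.support, (f Q : ℤ) *
        FractionalIdeal.count k v (Q.1.asIdeal : FractionalIdeal (𝓞 k)⁰ k) := by
  have h1 : ((idf S f : Ideal (𝓞 k)) : FractionalIdeal (𝓞 k)⁰ k) =
      ∏ Q ∈ f.support, (Q.1.asIdeal : FractionalIdeal (𝓞 k)⁰ k) ^ f Q := by
    unfold idf Finsupp.prod
    have h2 := map_prod (FractionalIdeal.coeIdealHom (𝓞 k)⁰ k)
      (fun Q : (preK S).P => Q.1.asIdeal ^ f Q) f.support
    simp only [map_pow] at h2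
    exact h2
  unfold cn
  rw [h1, FractionalIdeal.count_prod k v]
  · exact Finset.sum_congr rfl fun Q _ => FractionalIdeal.count_pow k v _ _
  · exact fun Q _ => pow_ne_zero _ (coe_ne Q.1.ne_bot)

theorem cn_idf (S : Finset (HeightOneSpectrum (𝓞 k))) (f : (preK S).P →₀ ℕ)
    (Q : (preK S).P) : cn Q.1 (idf S f) = f Q := by
  classical
  rw [cn_prod, Finset.sum_eq_single Q]
  · rw [FractionalIdeal.count_self, mul_one]
  · intro Q' _ hne
    have h1 : Q'.1 ≠ Q.1 := fun h => hne (Subtype.ext h)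
    rw [FractionalIdeal.count_maximal_coprime k Q.1 h1, mul_zero]
  · intro hQ
    rw [Finsupp.notMem_support_iff.1 hQ, Nat.cast_zero, zero_mul]

theorem cn_idf_mem (S : Finset (HeightOneSpectrum (𝓞 k))) (f : (preK S).P →₀ ℕ)
    {v : HeightOneSpectrum (𝓞 k)} (hv : v ∈ S) : cn v (idf S f) = 0 := by
  rw [cn_prod]
  refine Finset.sum_eq_zero fun Q _ => ?_
  have h1 : Q.1 ≠ v := fun h => Q.2 (h ▸ hv)
  rw [FractionalIdeal.count_maximal_coprime k v h1, mul_zero]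

end NIdfA

open NIdfA

theorem idf_ne_bot (S : Finset (HeightOneSpectrum (𝓞 k))) (f : (preK S).P →₀ ℕ) :
    idf S f ≠ ⊥ := by
  unfold idf Finsupp.prod
  exact Finset.prod_ne_zero_iff.2 fun Q _ => pow_ne_zero _ Q.1.ne_bot

theorem absNorm_idf (S : Finset (HeightOneSpectrum (𝓞 k))) (f : (preK S).P →₀ ℕ) :
    Ideal.absNorm (idf S f) = (preK S).nf f := by
  unfold idf Pre.nf Finsupp.prod
  rw [map_prod]
  refine Finset.prod_congr rfl fun Q _ => ?_
  rw [map_pow]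
  rfl

theorem idf_add (S : Finset (HeightOneSpectrum (𝓞 k))) (f g : (preK S).P →₀ ℕ) :
    idf S (f + g) = idf S f * idf S g := by
  classical
  unfold idf
  exact Finsupp.prod_add_index' (fun Q => pow_zero _) (fun Q a b => pow_add _ _ _)

theorem idf_injective (S : Finset (HeightOneSpectrum (𝓞 k))) :
    Function.Injective (idf S) := by
  intro f g h
  ext Q
  have h1 := cn_idf S f Q
  have h2 := cn_idf S g Q
  rw [h, h2] at h1
  exact_mod_cast h1.symm

theorem idf_surj (S : Finset (HeightOneSpectrum (𝓞 k))) (I : Ideal (𝓞 k)) (hI : I ≠ ⊥) :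
    (∃ f, idf S f = I) ↔ ∀ Q ∈ S, ¬ I ≤ Q.asIdeal := by
  constructor
  · rintro ⟨f, rfl⟩ Q hQ h
    exact (le_iff Q hI).1 h (cn_idf_mem S f hQ)
  · intro h
    have hfin : {Q : (preK S).P | (cn Q.1 I).toNat ≠ 0}.Finite := by
      have h1 := FractionalIdeal.finite_factors (I : FractionalIdeal (𝓞 k)⁰ k)
      rw [Filter.eventually_cofinite] at h1
      refine Set.Finite.of_finite_image (f := fun Q : (preK S).P => Q.1) (h1.subset ?_) ?_
      · rintro _ ⟨Q, hQ, rfl⟩ h2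
        apply hQ
        have h3 : cn Q.1 I = 0 := h2
        rw [h3, Int.toNat_zero]
      · intro P _ Q _ h
        exact Subtype.ext h
    refine ⟨Finsupp.ofSupportFinite (fun Q => (cn Q.1 I).toNat) hfin, ?_⟩
    refine ext_cn (idf_ne_bot S _) hI fun v => ?_
    by_cases hv : v ∈ S
    · rw [cn_idf_mem S _ hv]
      by_contra h2
      exact h v hv ((le_iff v hI).2 fun h3 => h2 h3.symm)
    · have h2 := cn_idf S (Finsupp.ofSupportFinite (fun Q => (cn Q.1 I).toNat) hfin) ⟨v, hv⟩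
      rw [Finsupp.ofSupportFinite_coe] at h2
      exact h2.trans (Int.toNat_of_nonneg (cn_nonneg v I))

theorem idf_le (S : Finset (HeightOneSpectrum (𝓞 k))) (f : (preK S).P →₀ ℕ) (Q : (preK S).P) :
    idf S f ≤ Q.1.asIdeal ↔ Q ∈ f.support := by
  rw [le_iff Q.1 (idf_ne_bot S f), cn_idf, Finsupp.mem_support_iff, Ne, Nat.cast_eq_zero]

theorem sum_idl (S : Finset (HeightOneSpectrum (𝓞 k))) (G : Ideal (𝓞 k) → ℝ) (X : ℝ) :
    ∑ f ∈ (preK S).idl X, G (idf S f) =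
      ∑ᶠ I ∈ {I ∈ IdLe k X | ∀ Q ∈ S, ¬ I ≤ Q.asIdeal}, G I := by
  rw [← finsum_mem_coe_finset]
  refine finsum_mem_eq_of_bijOn (idf S) ⟨?_, ?_, ?_⟩ fun f _ => rfl
  · intro f hf
    have hf' := (preK S).mem_idl.1 (Finset.mem_coe.1 hf)
    refine ⟨⟨idf_ne_bot S f, ?_⟩, (idf_surj S _ (idf_ne_bot S f)).1 ⟨f, rfl⟩⟩
    rw [absNorm_idf]
    exact hf'
  · exact (idf_injective S).injOn
  · rintro I ⟨⟨hI, hX⟩, hS⟩
    obtain ⟨f, rfl⟩ := (idf_surj S I hI).2 hS
    refine ⟨f, ?_, rfl⟩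
    rw [Finset.mem_coe, Pre.mem_idl, ← absNorm_idf]
    exact hX

/-- the exponents of a principal ideal outside `S` -/
theorem ord_idf (S : Finset (HeightOneSpectrum (𝓞 k))) (f : (preK S).P →₀ ℕ) (J : Ideal (𝓞 k))
    (hJ : J ≠ ⊥) (hJS : ∀ Q : HeightOneSpectrum (𝓞 k), Q ∉ S → ¬ J ≤ Q.asIdeal) (α : 𝓞 k)
    (hα : Ideal.span {α} = idf S f * J) (Q : (preK S).P) :
    ord Q.1 (α : k) = f Q := by
  have h1 : ord Q.1 (α : k) = cn Q.1 (Ideal.span {α}) := by
    unfold ord cn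
    rw [FractionalIdeal.coeIdeal_span_singleton]
  have h2 : cn Q.1 J = 0 := by
    by_contra h
    exact hJS Q.1 Q.2 ((le_iff Q.1 hJ).2 h)
  rw [h1, hα, cn_mul Q.1 (idf_ne_bot S f) hJ, cn_idf, h2, add_zero]

end Pool.Agent.H98.MF
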