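import Pool.Agent.H98.MF.NK
import Pool.Agent.H98.MF.C.Bas

/-!
# Project MK4 (MP_a3214d), block N: exponents of integral elements
-/

set_option autoImplicit false

open scoped BigOperators Pointwise NNReal nonZeroDivisors
open NumberField IsDedekindDomain

namespace Pool.Agent.H98.MF

variable {k : Type} [Field k] [NumberField k]

/-- the exponent of an integral ideal -/
theorem N_cnt_le_iff (P : HeightOneSpectrum (𝓞 k)) (J : Ideal (𝓞 k)) (hJ : J ≠ ⊥) (n : ℕ) :
    (n : ℤ) ≤ FractionalIdeal.count k P (J : FractionalIdeal (𝓞 k)⁰ k) ↔ J ≤ P.asIdeal ^ n := by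
  classical
  rw [FractionalIdeal.count_coe k P hJ, Nat.cast_le, ← Associates.prime_pow_dvd_iff_le
    (Associates.mk_ne_zero.mpr hJ) P.associates_irreducible, ← Associates.mk_pow,
    Associates.mk_le_mk_iff_dvd, Ideal.dvd_iff_le]

theorem N_ord_eq (P : HeightOneSpectrum (𝓞 k)) (α : 𝓞 k) :
    ord P (α : k) =
      FractionalIdeal.count k P ((Ideal.span {α} : Ideal (𝓞 k)) : FractionalIdeal (𝓞 k)⁰ k) := by
  unfold ord
  rw [FractionalIdeal.coeIdeal_span_singleton]

/-- exponents at least `n` -/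
theorem N_le_ord_iff (P : HeightOneSpectrum (𝓞 k)) (α : 𝓞 k) (hα : α ≠ 0) (n : ℕ) :
    (n : ℤ) ≤ ord P (α : k) ↔ α ∈ P.asIdeal ^ n := by
  rw [N_ord_eq, N_cnt_le_iff P _ (by rwa [Ne, Ideal.span_singleton_eq_bot]),
    Ideal.span_singleton_le_iff_mem]

theorem N_ord_nonneg (P : HeightOneSpectrum (𝓞 k)) (α : 𝓞 k) : 0 ≤ ord P (α : k) := by
  rw [N_ord_eq]
  exact FractionalIdeal.count_coe_nonneg k P _

/-- congruence modulo `P^n J` and quotients -/
theorem ord_quot (P : HeightOneSpectrum (𝓞 k)) (n : ℕ) (hn : 1 ≤ n) (J : Ideal (𝓞 k))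
    (hJ : J ≠ ⊥) (α β : 𝓞 k) (_hα : α ≠ 0) (hβ : β ≠ 0) (hαJ : α ∈ J)
    (hαβ : α - β ∈ P.asIdeal ^ n * J) :
    (Ideal.span {α} ≤ P.asIdeal * J ↔ Ideal.span {β} ≤ P.asIdeal * J) ∧
    (¬ Ideal.span {β} ≤ P.asIdeal * J →
      ((α : k) / (β : k) = 1 ∨ (n : ℤ) ≤ ord P ((α : k) / (β : k) - 1))) := by
  classical
  have h1 : α - β ∈ P.asIdeal * J :=
    Ideal.mul_mono_left (Ideal.pow_le_self (Nat.one_le_iff_ne_zero.1 hn)) hαβ
  refine ⟨?_, fun hb => ?_⟩
  · rw [Ideal.span_singleton_le_iff_mem, Ideal.span_singleton_le_iff_mem]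
    constructor
    · intro h
      have h2 := (P.asIdeal * J).sub_mem h h1
      rwa [sub_sub_cancel] at h2
    · intro h
      have h2 := (P.asIdeal * J).add_mem h1 h
      rwa [sub_add_cancel] at h2
  · by_cases hab : α = β
    · left
      rw [hab]
      exact div_self (fun h => hβ (RingOfIntegers.coe_eq_zero_iff.1 h))
    right
    have hβk : (β : k) ≠ 0 := fun h => hβ (RingOfIntegers.coe_eq_zero_iff.1 h)
    have hd : α - β ≠ 0 := sub_ne_zero.2 hab
    have hdk : ((α - β : 𝓞 k) : k) ≠ 0 := fun h => hd (RingOfIntegers.coe_eq_zero_iff.1 h)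
    have h2 : (α : k) / (β : k) - 1 = ((α - β : 𝓞 k) : k) / (β : k) := by
      have e : ((α - β : 𝓞 k) : k) = (α : k) - (β : k) := rfl
      rw [e, sub_div, div_self hβk]
    rw [h2, B.ord_div P hdk hβk]
    -- exponent of `β`
    have hβJ : β ∈ J := by
      have h3 : α - β ∈ J := Ideal.mul_le_right hαβ
      have h4 := J.sub_mem hαJ h3
      rwa [sub_sub_cancel] at h4
    obtain ⟨I, hI⟩ := Ideal.dvd_iff_le.2 ((Ideal.span_singleton_le_iff_mem J).2 hβJ)
    have hI0 : I ≠ ⊥ := by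
      rintro rfl
      rw [Ideal.mul_bot, Ideal.span_singleton_eq_bot] at hI
      exact hβ hI
    have hJ' : ((J : Ideal (𝓞 k)) : FractionalIdeal (𝓞 k)⁰ k) ≠ 0 :=
      FractionalIdeal.coeIdeal_ne_zero.2 hJ
    have hI' : ((I : Ideal (𝓞 k)) : FractionalIdeal (𝓞 k)⁰ k) ≠ 0 :=
      FractionalIdeal.coeIdeal_ne_zero.2 hI0
    have h4 : ord P (β : k) = FractionalIdeal.count k P (J : FractionalIdeal (𝓞 k)⁰ k) +
        FractionalIdeal.count k P (I : FractionalIdeal (𝓞 k)⁰ k) := by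
      rw [N_ord_eq, hI, FractionalIdeal.coeIdeal_mul, FractionalIdeal.count_mul k P hJ' hI']
    have h5 : FractionalIdeal.count k P (I : FractionalIdeal (𝓞 k)⁰ k) < 1 := by
      by_contra h
      rw [not_lt] at h
      have h6 := (N_cnt_le_iff P I hI0 1).1 (by exact_mod_cast h)
      rw [pow_one] at h6
      apply hb
      rw [hI, mul_comm]
      exact Ideal.mul_mono_left h6
    have h7 : (n : ℤ) + FractionalIdeal.count k P (J : FractionalIdeal (𝓞 k)⁰ k) ≤
        ord P ((α - β : 𝓞 k) : k) := by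
      rw [N_ord_eq]
      have h8 : (Ideal.span {α - β} : Ideal (𝓞 k)) ≤ P.asIdeal ^ n * J :=
        (Ideal.span_singleton_le_iff_mem _).2 hαβ
      have h9 : ((Ideal.span {α - β} : Ideal (𝓞 k)) : FractionalIdeal (𝓞 k)⁰ k) ≠ 0 :=
        FractionalIdeal.coeIdeal_ne_zero.2 (by
          rw [Ne, Ideal.span_singleton_eq_bot]; exact hd)
      have h10 := FractionalIdeal.count_mono (K := k) P h9
        ((FractionalIdeal.coeIdeal_le_coeIdeal k).2 h8)
      rw [FractionalIdeal.coeIdeal_mul, FractionalIdeal.coeIdeal_pow,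
        FractionalIdeal.count_mul k P (pow_ne_zero n (FractionalIdeal.coeIdeal_ne_zero.2 P.ne_bot))
          hJ', FractionalIdeal.count_pow_self] at h10
      exact h10
    linarith

end Pool.Agent.H98.MF
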