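import Mathlib

/-!
# Project MK4 (MP_a3214d): basic definitions over a number field
-/

set_option autoImplicit false

open scoped BigOperators Pointwise
open NumberField IsDedekindDomain

namespace Pool.Agent.H98.MF

/-- sign to additive notation -/
def lg (x : ℤ) : ZMod 2 := if x = -1 then 1 else 0

section

variable (k : Type) [Field k] [NumberField k]

abbrev Om : Type := AlgebraicClosure k

abbrev Gm : Type := Om k ≃ₐ[k] Om k

/-- the field cut out by a subgroup -/
noncomputable abbrev fld (U : Subgroup (Gm k)) : IntermediateField k (Om k) :=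
  IntermediateField.fixedField U

end

section

variable {k : Type} [Field k] [NumberField k]

/-- a square root -/
noncomputable def sq (a : k) : Om k :=
  Classical.choose (IsAlgClosed.exists_pow_nat_eq (algebraMap k (Om k) a) (n := 2) two_pos)

theorem sq_sq (a : k) : sq a ^ 2 = algebraMap k (Om k) a :=
  Classical.choose_spec (IsAlgClosed.exists_pow_nat_eq (algebraMap k (Om k) a) (n := 2) two_pos)

open Classical in
/-- the quadratic character -/
noncomputable def chi (a : k) (σ : Gm k) : ZMod 2 := if σ (sq a) = sq a then 0 else 1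

/-- the exponent of a prime -/
noncomputable def ord (P : HeightOneSpectrum (𝓞 k)) (a : k) : ℤ :=
  FractionalIdeal.count k P (FractionalIdeal.spanSingleton (nonZeroDivisors (𝓞 k)) a)

/-- local squares -/
def LocSq (P : HeightOneSpectrum (𝓞 k)) (a : k) : Prop :=
  ∀ n : ℕ, ∃ c : k, a * c ^ 2 = 1 ∨ (n : ℤ) ≤ ord P (a * c ^ 2 - 1)

/-- local norms from the field of the square root of `a` -/
def LocNm (P : HeightOneSpectrum (𝓞 k)) (a b : k) : Prop :=
  ∀ n : ℕ, ∃ x y : k, b * (x ^ 2 - a * y ^ 2) = 1 ∨
    (n : ℤ) ≤ ord P (b * (x ^ 2 - a * y ^ 2) - 1)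

open Classical in
/-- the Hilbert symbol at a prime -/
noncomputable def hs (P : HeightOneSpectrum (𝓞 k)) (a b : k) : ZMod 2 :=
  if LocNm P a b then 0 else 1

open Classical in
/-- the Hilbert symbol at a real place -/
noncomputable def hsR (φ : k →+* ℝ) (a b : k) : ZMod 2 := if φ a < 0 ∧ φ b < 0 then 1 else 0

/-- quadratic residue symbol in additive notation, for a unit `a` at an odd prime -/
noncomputable def qr (a : k) (P : HeightOneSpectrum (𝓞 k)) : ZMod 2 := by
  classical exact if LocSq P a then 0 else 1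

open Classical in
/-- a prime of the ring of all algebraic integers above `P` -/
noncomputable def top (P : HeightOneSpectrum (𝓞 k)) : Ideal (𝓞 (Om k)) :=
  if h : ∃ Q : Ideal (𝓞 (Om k)), Q.IsPrime ∧ Q.comap (algebraMap (𝓞 k) (𝓞 (Om k))) = P.asIdeal
  then h.choose else ⊥

/-- the decomposition group -/
noncomputable def Dec (P : HeightOneSpectrum (𝓞 k)) : Subgroup (Gm k) :=
  MulAction.stabilizer (Gm k) (top P)

open Classical in
/-- a complex conjugation -/
noncomputable def cconj (φ : k →+* ℝ) : Gm k :=
  if h : ∃ c : Gm k, c * c = 1 ∧ ∀ a : k, a ≠ 0 → chi a c = if φ a < 0 then 1 else 0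
  then h.choose else 1

/-- the decomposition group of a real place -/
noncomputable def DecR (φ : k →+* ℝ) : Subgroup (Gm k) := Subgroup.zpowers (cconj φ)

/-- the sum of the cup products is a coboundary on `D` -/
def Triv (D : Subgroup (Gm k)) {r : ℕ} (a b : Fin r → k) : Prop :=
  ∃ f : Gm k → ZMod 2, IsLocallyConstant f ∧ ∀ σ ∈ D, ∀ τ ∈ D,
    f (σ * τ) = f σ + f τ + ∑ i, chi (a i) σ * chi (b i) τ

/-- every prime outside `S` is principal up to `S` -/
def PrS (S : Finset (HeightOneSpectrum (𝓞 k))) : Prop :=
  ∀ P : HeightOneSpectrum (𝓞 k), P ∉ S → ∃ a : k, a ≠ 0 ∧ ord P a = 1 ∧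
    ∀ Q : HeightOneSpectrum (𝓞 k), Q ∉ S → Q ≠ P → ord Q a = 0

/-- `S`-units -/
def SUn (S : Finset (HeightOneSpectrum (𝓞 k))) (a : k) : Prop :=
  a ≠ 0 ∧ ∀ Q : HeightOneSpectrum (𝓞 k), Q ∉ S → ord Q a = 0

/-- `S` contains the primes above two and `O_S` is principal -/
structure Adm (S : Finset (HeightOneSpectrum (𝓞 k))) : Prop where
  two : ∀ P : HeightOneSpectrum (𝓞 k), 0 < ord P (2 : k) → P ∈ S
  prS : PrS S

/-- the norm of the relative discriminant of a subfield -/
noncomputable def rdN (K : IntermediateField k (Om k)) : ℕ := by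
  classical exact if h : NumberField K then
    (@NumberField.discr K _ h).natAbs / (NumberField.discr k).natAbs ^ Module.finrank k K else 0

end

end Pool.Agent.H98.MF
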