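import Pool.Agent.H98.MF.NDefs
import Pool.Agent.H98.MF.Base

set_option autoImplicit false

open scoped BigOperators Pointwise NNReal nonZeroDivisors
open NumberField IsDedekindDomain

namespace Pool.Agent.H98.MF

variable (K : Type) [Field K] [NumberField K]

/-- a prime as a nonzero ideal -/
private def nrepsQ {K : Type} [Field K] [NumberField K] (Q : HeightOneSpectrum (𝓞 K)) :
    (Ideal (𝓞 K))⁰ :=
  ⟨Q.asIdeal, mem_nonZeroDivisors_of_ne_zero Q.ne_bot⟩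

/-- the classes of the ideals composed of primes of `S` -/
private def nrepsSub (S : Finset (HeightOneSpectrum (𝓞 K))) : Submonoid (ClassGroup (𝓞 K)) where
  carrier := {c | ∃ J : (Ideal (𝓞 K))⁰, ClassGroup.mk0 J = c ∧
    ∀ Q : HeightOneSpectrum (𝓞 K), Q ∉ S → ¬ (J : Ideal (𝓞 K)) ≤ Q.asIdeal}
  one_mem' := ⟨1, map_one _, fun Q _ h => Q.isPrime.ne_top (top_le_iff.1 (by simpa using h))⟩
  mul_mem' := by
    rintro _ _ ⟨J, rfl, hJ⟩ ⟨J', rfl, hJ'⟩
    refine ⟨J * J', map_mul _ _ _, fun Q hQ h => ?_⟩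
    rcases (Q.isPrime.mul_le).1 h with h | h
    · exact hJ Q hQ h
    · exact hJ' Q hQ h

private theorem nreps_inv (S : Finset (HeightOneSpectrum (𝓞 K))) {c : ClassGroup (𝓞 K)}
    (hc : c ∈ nrepsSub K S) : c⁻¹ ∈ nrepsSub K S := by
  have h1 : 0 < orderOf c := orderOf_pos c
  have h2 : c⁻¹ = c ^ (orderOf c - 1) := by
    rw [inv_eq_iff_mul_eq_one, ← pow_succ', Nat.sub_add_cancel h1, pow_orderOf_eq_one]
  rw [h2]
  exact Submonoid.pow_mem _ hc _

private theorem nreps_zpow (S : Finset (HeightOneSpectrum (𝓞 K))) {c : ClassGroup (𝓞 K)}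
    (hc : c ∈ nrepsSub K S) (n : ℤ) : c ^ n ∈ nrepsSub K S := by
  rcases n with n | n
  · rw [Int.ofNat_eq_natCast, zpow_natCast]
    exact Submonoid.pow_mem _ hc _
  · rw [zpow_negSucc]
    exact nreps_inv K S (Submonoid.pow_mem _ hc _)

private theorem nreps_mem (S : Finset (HeightOneSpectrum (𝓞 K))) (P : HeightOneSpectrum (𝓞 K))
    (hP : P ∈ S) : ClassGroup.mk0 (nrepsQ P) ∈ nrepsSub K S := by
  refine ⟨nrepsQ P, rfl, fun Q hQ h => ?_⟩
  have h1 : P.asIdeal = Q.asIdeal := P.isMaximal.eq_of_le Q.isPrime.ne_top h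
  exact hQ (HeightOneSpectrum.ext h1 ▸ hP)

private theorem nreps_notMem (S : Finset (HeightOneSpectrum (𝓞 K))) (hS : PrS S)
    (P : HeightOneSpectrum (𝓞 K)) (hP : P ∉ S) :
    ClassGroup.mk0 (nrepsQ P) ∈ nrepsSub K S := by
  classical
  obtain ⟨a, ha, haP, haQ⟩ := hS P hP
  have hne : FractionalIdeal.spanSingleton (nonZeroDivisors (𝓞 K)) a ≠ 0 := by
    rwa [Ne, FractionalIdeal.spanSingleton_eq_zero_iff]
  have h1 := FractionalIdeal.finprod_heightOneSpectrum_factorization' K hne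
  have h2 : toPrincipalIdeal (𝓞 K) K (Units.mk0 a ha) =
      ∏ Q ∈ insert P S, (FractionalIdeal.mk0 K (nrepsQ Q)) ^ (ord Q a) := by
    rw [toPrincipalIdeal_eq_iff, Units.val_mk0, ← h1,
      finprod_eq_prod_of_mulSupport_subset (s := insert P S)]
    · rw [Units.coe_prod]
      refine Finset.prod_congr rfl fun Q _ => ?_
      rw [Units.val_zpow_eq_zpow_val]
      rfl
    · intro Q hQ
      rw [Function.mem_mulSupport] at hQ
      by_contra hcon
      rw [Finset.mem_coe, Finset.mem_insert, not_or] at hcon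
      apply hQ
      have h3 : FractionalIdeal.count K Q
          (FractionalIdeal.spanSingleton (nonZeroDivisors (𝓞 K)) a) = 0 := haQ Q hcon.2 hcon.1
      rw [h3, zpow_zero]
  have h4 : ClassGroup.mk K (toPrincipalIdeal (𝓞 K) K (Units.mk0 a ha)) = 1 := by
    rw [ClassGroup.mk_eq_one_iff]
    exact ⟨⟨a, by rw [coe_toPrincipalIdeal, Units.val_mk0, FractionalIdeal.coe_spanSingleton]⟩⟩
  rw [h2, map_prod, Finset.prod_insert hP] at h4
  simp only [map_zpow, ClassGroup.mk_mk0] at h4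
  rw [haP, zpow_one] at h4
  rw [eq_inv_of_mul_eq_one_left h4]
  refine nreps_inv K S (Submonoid.prod_mem _ fun Q hQ => ?_)
  exact nreps_zpow K S (nreps_mem K S Q hQ) _

private theorem nreps_all (S : Finset (HeightOneSpectrum (𝓞 K))) (hS : PrS S)
    (I : Ideal (𝓞 K)) (hI : I ∈ (Ideal (𝓞 K))⁰) :
    ClassGroup.mk0 ⟨I, hI⟩ ∈ nrepsSub K S := by
  have key : ∀ I : Ideal (𝓞 K), ∀ hI : I ∈ (Ideal (𝓞 K))⁰,
      ClassGroup.mk0 ⟨I, hI⟩ ∈ nrepsSub K S := by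
    intro I
    induction I using UniqueFactorizationMonoid.induction_on_prime with
    | h₁ =>
      intro hI
      exact absurd rfl (nonZeroDivisors.ne_zero hI)
    | h₂ x hx =>
      intro hI
      have h1 : (⟨x, hI⟩ : (Ideal (𝓞 K))⁰) = 1 := by
        apply Subtype.ext
        have h2 : x = ⊤ := Ideal.isUnit_iff.1 hx
        rw [← Ideal.one_eq_top] at h2
        exact h2
      rw [h1, map_one]
      exact Submonoid.one_mem _
    | h₃ J p hJ hp ih =>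
      intro hI
      have hJ' : J ∈ (Ideal (𝓞 K))⁰ := mem_nonZeroDivisors_of_ne_zero hJ
      have hp' : p ∈ (Ideal (𝓞 K))⁰ := mem_nonZeroDivisors_of_ne_zero hp.ne_zero
      have h1 : (⟨p * J, hI⟩ : (Ideal (𝓞 K))⁰) = ⟨p, hp'⟩ * ⟨J, hJ'⟩ := rfl
      rw [h1, map_mul]
      refine Submonoid.mul_mem _ ?_ (ih hJ')
      have hpp : p.IsPrime := Ideal.isPrime_of_prime hp
      by_cases hpS : (⟨p, hpp, hp.ne_zero⟩ : HeightOneSpectrum (𝓞 K)) ∈ S
      · exact nreps_mem K S _ hpS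
      · exact nreps_notMem K S hS _ hpS
  exact key I hI

theorem reps_exist (S : Finset (HeightOneSpectrum (𝓞 K))) (hS : PrS S) :
    ∃ R : Finset (Ideal (𝓞 K)), Reps R ∧
      ∀ J ∈ R, ∀ Q : HeightOneSpectrum (𝓞 K), Q ∉ S → ¬ J ≤ Q.asIdeal := by
  classical
  have hall : ∀ c : ClassGroup (𝓞 K), ∃ J : (Ideal (𝓞 K))⁰, ClassGroup.mk0 J = c ∧
      ∀ Q : HeightOneSpectrum (𝓞 K), Q ∉ S → ¬ (J : Ideal (𝓞 K)) ≤ Q.asIdeal := by
    intro c
    obtain ⟨I, rfl⟩ := ClassGroup.mk0_surjective c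
    exact nreps_all K S hS I.1 I.2
  choose f hf1 hf2 using hall
  have hcop : ∀ (J I : (Ideal (𝓞 K))⁰), CoP (J : Ideal (𝓞 K)) (I : Ideal (𝓞 K)) ↔
      ClassGroup.mk0 J = (ClassGroup.mk0 I)⁻¹ := by
    intro J I
    rw [eq_inv_iff_mul_eq_one, mul_comm, ← map_mul]
    have h1 : I * J = (⟨(I : Ideal (𝓞 K)) * J, (I * J).2⟩ : (Ideal (𝓞 K))⁰) := rfl
    rw [h1, ClassGroup.mk0_eq_one_iff, Submodule.isPrincipal_iff]
    rfl
  refine ⟨Finset.univ.image (fun c => (f c : Ideal (𝓞 K))), ⟨?_, ?_⟩, ?_⟩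
  · intro J hJ
    rw [Finset.mem_image] at hJ
    obtain ⟨c, _, rfl⟩ := hJ
    exact nonZeroDivisors.coe_ne_zero _
  · intro I hI
    have hI' : I ∈ (Ideal (𝓞 K))⁰ := mem_nonZeroDivisors_of_ne_zero hI
    refine ⟨f (ClassGroup.mk0 ⟨I, hI'⟩)⁻¹, ⟨?_, ?_⟩, ?_⟩
    · rw [Finset.mem_image]
      exact ⟨_, Finset.mem_univ _, rfl⟩
    · exact (hcop (f (ClassGroup.mk0 ⟨I, hI'⟩)⁻¹) ⟨I, hI'⟩).2 (hf1 _)
    · rintro J ⟨hJ, hJI⟩
      rw [Finset.mem_image] at hJ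
      obtain ⟨c, _, rfl⟩ := hJ
      have h1 := (hcop (f c) ⟨I, hI'⟩).1 hJI
      rw [hf1] at h1
      rw [h1]
  · intro J hJ
    rw [Finset.mem_image] at hJ
    obtain ⟨c, _, rfl⟩ := hJ
    exact hf2 c

end Pool.Agent.H98.MF
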