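import Pool.Agent.H98.MF.NDefs

/-!
# Project MK4 (MP_a3214d), block N, row NFin: finiteness of the sets of ideals and of integers
of the fundamental cone
-/

set_option autoImplicit false

open scoped BigOperators Pointwise NNReal nonZeroDivisors
open NumberField NumberField.mixedEmbedding NumberField.InfinitePlace MeasureTheory

namespace Pool.Agent.H98.MF

variable (K : Type) [Field K] [NumberField K]

theorem finite_IdLe (X : ℝ) : (IdLe K X).Finite := by
  refine (Ideal.finite_setOfPred_absNorm_le (S := 𝓞 K) ⌊X⌋₊).subset ?_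
  rintro I ⟨_, hI⟩
  exact Nat.le_floor hI

private theorem absNorm_of_cone {X : ℝ} {α : 𝓞 K} (h : α ∈ Cone (K := K) X) :
    Ideal.absNorm (Ideal.span {α}) ≤ ⌊X⌋₊ := by
  refine Nat.le_floor ?_
  have h2 := h.2
  rw [mixedEmbedding.norm_eq_norm] at h2
  rw [Ideal.absNorm_span_singleton, Nat.cast_natAbs]
  have h3 : ((|Algebra.norm ℤ α| : ℤ) : ℝ) = ((|(Algebra.norm ℚ (α : K))| : ℚ) : ℝ) := by
    rw [← Algebra.coe_norm_int, ← Int.cast_abs, Rat.cast_intCast]
  rw [h3]
  exact h2

private theorem mem_int {X : ℝ} {α : 𝓞 K} (h : α ∈ Cone (K := K) X) :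
    mixedEmbedding K (α : K) ∈ fundamentalCone.integerSet K :=
  fundamentalCone.mem_integerSet.mpr ⟨h.1, α, rfl⟩

theorem finite_Cone (X : ℝ) : (Cone (K := K) X).Finite := by
  have hF : Finite {I : Ideal (𝓞 K) | Ideal.absNorm I ≤ ⌊X⌋₊} :=
    (Ideal.finite_setOfPred_absNorm_le (S := 𝓞 K) ⌊X⌋₊).to_subtype
  let f : Cone (K := K) X → {I : Ideal (𝓞 K) | Ideal.absNorm I ≤ ⌊X⌋₊} × Units.torsion K :=
    fun α => (⟨Ideal.span {α.1}, absNorm_of_cone K α.2⟩,
      (fundamentalCone.integerSetEquiv K ⟨mixedEmbedding K (α.1 : K), mem_int K α.2⟩).2)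
  have hf : Function.Injective f := by
    rintro ⟨α, hα⟩ ⟨β, hβ⟩ h
    have h1 : Ideal.span {α} = Ideal.span {β} := congrArg Subtype.val (congrArg Prod.fst h)
    have h2 := congrArg Prod.snd h
    have h3 : fundamentalCone.integerSetEquiv K ⟨mixedEmbedding K (α : K), mem_int K hα⟩
        = fundamentalCone.integerSetEquiv K ⟨mixedEmbedding K (β : K), mem_int K hβ⟩ := by
      refine Prod.ext ?_ h2
      apply Subtype.ext
      apply Subtype.ext
      rw [fundamentalCone.integerSetEquiv_apply_fst, fundamentalCone.integerSetEquiv_apply_fst,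
        fundamentalCone.preimageOfMemIntegerSet_mixedEmbedding,
        fundamentalCone.preimageOfMemIntegerSet_mixedEmbedding, h1]
    have h4 := congrArg Subtype.val ((fundamentalCone.integerSetEquiv K).injective h3)
    have h5 : (α : K) = (β : K) := mixedEmbedding_injective K h4
    exact Subtype.ext (RingOfIntegers.coe_injective h5)
  exact Set.finite_coe_iff.mp (Finite.of_injective f hf)

theorem coset_top (a : 𝓞 K) (X : ℝ) :
    Cone (K := K) X = ⋃ s : Set (RP K), coset ⊤ a s X := by
  ext α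
  simp only [Set.mem_iUnion]
  constructor
  · intro h
    exact ⟨sgnN α, h, Submodule.mem_top, rfl⟩
  · rintro ⟨s, h, _, _⟩
    exact h

end Pool.Agent.H98.MF
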