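import Pool.Agent.H98.MF.NK

/-!
# Project MK4 (MP_a3214d), block N: multiplicativity of `chv`, finite Euler products
-/

set_option autoImplicit false

open scoped BigOperators Pointwise NNReal nonZeroDivisors

namespace Pool.Agent.H98.MF

open Pool.Agent.H98.MK (sg)

variable (S : Pre)

private theorem eul_sg_add (a b : ZMod 2) : sg (a + b) = sg a * sg b := by
  revert a b; decide

private theorem eul_sg_natmul (k : ℕ) (a : ZMod 2) : sg ((k : ZMod 2) * a) = sg a ^ k := by
  induction k with
  | zero =>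
    rw [Nat.cast_zero, zero_mul, pow_zero]
    rfl
  | succ k ih =>
    rw [Nat.cast_succ, add_mul, one_mul, eul_sg_add, ih, pow_succ]

private theorem eul_sg_sum {ι : Type} (s : Finset ι) (f : ι → ZMod 2) :
    sg (∑ i ∈ s, f i) = ∏ i ∈ s, sg (f i) := by
  classical
  induction s using Finset.induction_on with
  | empty => rfl
  | insert a s ha ih => rw [Finset.sum_insert ha, Finset.prod_insert ha, eul_sg_add, ih]

theorem chv_eq_prod (y : Finset S.P) (g : S.P → ZMod 2) (f : S.P →₀ ℕ) :
    S.chv y g f = f.prod fun p n => (S.chp y g p) ^ n := by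
  unfold Pre.chv
  by_cases h : Disjoint f.support y
  · rw [if_pos h]
    unfold Finsupp.sum Finsupp.prod
    rw [eul_sg_sum]
    refine Finset.prod_congr rfl fun p hp => ?_
    have h1 : p ∉ y := Finset.disjoint_left.1 h hp
    unfold Pre.chp
    beta_reduce
    rw [if_neg h1, eul_sg_natmul]
  · rw [if_neg h]
    rw [Finset.not_disjoint_iff] at h
    obtain ⟨p, hp, hpy⟩ := h
    unfold Finsupp.prod
    symm
    refine Finset.prod_eq_zero hp ?_
    unfold Pre.chp
    beta_reduce
    rw [if_pos hpy]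
    exact zero_pow (Finsupp.mem_support_iff.1 hp)

theorem nf_add (f g : S.P →₀ ℕ) : S.nf (f + g) = S.nf f * S.nf g := by
  classical
  unfold Pre.nf
  exact Finsupp.prod_add_index' (fun p => pow_zero _) fun p a b => pow_add _ _ _

theorem chv_add (y : Finset S.P) (g : S.P → ZMod 2) (f f' : S.P →₀ ℕ) :
    S.chv y g (f + f') = S.chv y g f * S.chv y g f' := by
  classical
  rw [chv_eq_prod, chv_eq_prod, chv_eq_prod]
  exact Finsupp.prod_add_index' (fun p => pow_zero _) fun p a b => pow_add _ _ _

section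

variable {P : Type}

open Classical in
/-- splitting off one prime -/
private noncomputable def eulEquiv (p : P) (T : Finset P) (hp : p ∉ T) :
    {f : P →₀ ℕ // f.support ⊆ insert p T} ≃ {f : P →₀ ℕ // f.support ⊆ T} × ℕ where
  toFun f := (⟨f.1.erase p, fun q hq => by
    rw [Finsupp.support_erase, Finset.mem_erase] at hq
    exact (Finset.mem_insert.1 (f.2 hq.2)).resolve_left hq.1⟩, f.1 p)
  invFun z := ⟨z.1.1 + Finsupp.single p z.2, fun q hq => by
    have h1 := Finsupp.support_add hq
    rw [Finset.mem_union] at h1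
    rcases h1 with h1 | h1
    · exact Finset.mem_insert_of_mem (z.1.2 h1)
    · have h2 := Finsupp.support_single_subset h1
      rw [Finset.mem_singleton] at h2
      rw [h2]
      exact Finset.mem_insert_self _ _⟩
  left_inv f := by
    apply Subtype.ext
    exact Finsupp.erase_add_single p f.1
  right_inv z := by
    obtain ⟨⟨f, hf⟩, n⟩ := z
    have h0 : f p = 0 := by
      by_contra h
      exact hp (hf (Finsupp.mem_support_iff.2 h))
    have h1 : (f + Finsupp.single p n) p = n := by
      rw [Finsupp.add_apply, h0, zero_add, Finsupp.single_eq_same]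
    have h2 : (f + Finsupp.single p n).erase p = f := by
      rw [Finsupp.erase_add, Finsupp.erase_single, add_zero]
      exact Finsupp.erase_of_notMem_support (Finsupp.notMem_support_iff.2 h0)
    simp only [h1, h2]

private theorem eul_prod_split (c : P → ℝ) (p : P) (f : P →₀ ℕ) :
    (f.prod fun q n => c q ^ n) = ((f.erase p).prod fun q n => c q ^ n) * c p ^ f p := by
  classical
  conv_lhs => rw [← Finsupp.erase_add_single p f]
  rw [Finsupp.prod_add_index' (fun q => pow_zero _) fun q a b => pow_add _ _ _,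
    Finsupp.prod_single_index (h := fun q n => c q ^ n) (pow_zero _)]

private theorem eul_gen (c : P → ℝ) (hc : ∀ p, |c p| < 1) (T : Finset P) :
    HasSum (fun f : {f : P →₀ ℕ // f.support ⊆ T} => f.1.prod fun p n => c p ^ n)
      (∏ p ∈ T, (1 - c p)⁻¹) := by
  classical
  induction T using Finset.induction_on with
  | empty =>
    have h1 : ∀ f : {f : P →₀ ℕ // f.support ⊆ (∅ : Finset P)}, f = ⟨0, by simp⟩ := by
      rintro ⟨f, hf⟩
      apply Subtype.ext
      exact Finsupp.support_eq_empty.1 (Finset.subset_empty.1 hf)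
    rw [Finset.prod_empty]
    have h2 := hasSum_single (f := fun f : {f : P →₀ ℕ // f.support ⊆ (∅ : Finset P)} =>
      f.1.prod fun p n => c p ^ n) ⟨0, by simp⟩ (fun f hf => absurd (h1 f) hf)
    simpa using h2
  | insert p T hp ih =>
    have hg : HasSum (fun n : ℕ => c p ^ n) (1 - c p)⁻¹ := hasSum_geometric_of_abs_lt_one (hc p)
    have hn1 : Summable fun f : {f : P →₀ ℕ // f.support ⊆ T} =>
        ‖f.1.prod fun p n => c p ^ n‖ := ih.summable.norm
    have hn2 : Summable fun n : ℕ => ‖c p ^ n‖ := hg.summable.norm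
    have h3 := summable_mul_of_summable_norm hn1 hn2
    have h4 := tsum_mul_tsum_of_summable_norm hn1 hn2
    rw [ih.tsum_eq, hg.tsum_eq] at h4
    have h5 := h3.hasSum
    rw [← h4] at h5
    rw [Finset.prod_insert hp, mul_comm]
    have h6 := (eulEquiv p T hp).hasSum_iff.2 h5
    have h7 : (fun f : {f : P →₀ ℕ // f.support ⊆ insert p T} => f.1.prod fun p n => c p ^ n) =
        (fun z : {f : P →₀ ℕ // f.support ⊆ T} × ℕ =>
          (z.1.1.prod fun p n => c p ^ n) * c p ^ z.2) ∘ (eulEquiv p T hp) := by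
      funext f
      exact eul_prod_split c p f.1
    rw [h7]
    exact h6

end

/-- Euler product over finitely many primes -/
theorem euler_fin (x : S.P → ℝ) (hx : ∀ p, |x p| ≤ 1) (s : ℝ) (hs : 0 < s) (T : Finset S.P) :
    Summable (fun f : {f : S.P →₀ ℕ // f.support ⊆ T} =>
      (f.1.prod fun p n => x p ^ n) * (S.nf f.1 : ℝ) ^ (-s)) ∧
    ∑' f : {f : S.P →₀ ℕ // f.support ⊆ T},
      (f.1.prod fun p n => x p ^ n) * (S.nf f.1 : ℝ) ^ (-s) =
      ∏ p ∈ T, (1 - x p * (S.N p : ℝ) ^ (-s))⁻¹ := by
  have hc : ∀ p, |x p * (S.N p : ℝ) ^ (-s)| < 1 := by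
    intro p
    have h2 : (2 : ℝ) ≤ S.N p := by exact_mod_cast S.two_le p
    have h1 : (S.N p : ℝ) ^ (-s) < 1 := Real.rpow_lt_one_of_one_lt_of_neg (by linarith) (by linarith)
    have h0 : 0 ≤ (S.N p : ℝ) ^ (-s) := Real.rpow_nonneg (by linarith) _
    rw [abs_mul, abs_of_nonneg h0]
    calc |x p| * (S.N p : ℝ) ^ (-s) ≤ 1 * (S.N p : ℝ) ^ (-s) :=
          mul_le_mul_of_nonneg_right (hx p) h0
      _ < 1 := by rw [one_mul]; exact h1
  have h := eul_gen (fun p => x p * (S.N p : ℝ) ^ (-s)) hc T
  have he : (fun f : {f : S.P →₀ ℕ // f.support ⊆ T} =>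
      (f.1.prod fun p n => x p ^ n) * (S.nf f.1 : ℝ) ^ (-s)) =
      fun f : {f : S.P →₀ ℕ // f.support ⊆ T} =>
        f.1.prod fun p n => (x p * (S.N p : ℝ) ^ (-s)) ^ n := by
    funext f
    have h1 : (S.nf f.1 : ℝ) ^ (-s) = f.1.prod fun p n => ((S.N p : ℝ) ^ (-s)) ^ n := by
      unfold Pre.nf Finsupp.prod
      push_cast
      rw [← Real.finsetProd_rpow _ _ fun p _ => by positivity]
      refine Finset.prod_congr rfl fun p _ => ?_
      rw [← Real.rpow_natCast, ← Real.rpow_natCast, ← Real.rpow_mul (Nat.cast_nonneg _),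
        ← Real.rpow_mul (Nat.cast_nonneg _), mul_comm]
    rw [h1]
    unfold Finsupp.prod
    rw [← Finset.prod_mul_distrib]
    refine Finset.prod_congr rfl fun p _ => ?_
    beta_reduce
    rw [mul_pow]
  rw [he]
  exact ⟨h.summable, h.tsum_eq⟩

end Pool.Agent.H98.MF
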