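import Pool.Agent.H98.MF.NMain
import Pool.Agent.H98.MF.NFin

/-!
# MK4, block N: cancellation for completely multiplicative functions (helper63)
-/

set_option autoImplicit false

open scoped BigOperators Pointwise NNReal nonZeroDivisors
open NumberField NumberField.mixedEmbedding NumberField.InfinitePlace MeasureTheory

namespace Pool.Agent.H98.MF

variable (K : Type) [Field K] [NumberField K]

private theorem nv_norm_pos {B : Ideal (𝓞 K)} (hB : B ≠ ⊥) : (0 : ℝ) < (Ideal.absNorm B : ℝ) := by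
  have h : Ideal.absNorm B ≠ 0 := by
    rw [Ne, Ideal.absNorm_eq_zero_iff]
    exact hB
  exact_mod_cast Nat.pos_of_ne_zero h

private theorem nv_abs_sub (x y : ℝ) : |x - y| ≤ |x| + |y| := by
  have h := abs_add_le x (-y)
  rwa [abs_neg, ← sub_eq_add_neg] at h

private theorem nv_image (B : Ideal (𝓞 K)) (hB : B ≠ ⊥) (X : ℝ) :
    {I ∈ IdLe K X | B ∣ I} = (fun I => B * I) '' IdLe K (X / Ideal.absNorm B) := by
  have hN := nv_norm_pos K hB
  ext I
  constructor
  · rintro ⟨⟨h1, h2⟩, J, rfl⟩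
    refine ⟨J, ⟨?_, ?_⟩, rfl⟩
    · rintro rfl
      exact h1 (by simp)
    · rw [le_div_iff₀ hN]
      rw [map_mul] at h2
      push_cast at h2
      linarith
  · rintro ⟨J, ⟨h1, h2⟩, rfl⟩
    refine ⟨⟨?_, ?_⟩, dvd_mul_right _ _⟩
    · exact mul_ne_zero hB h1
    · rw [le_div_iff₀ hN] at h2
      simp only [map_mul]
      push_cast
      linarith

/-- a linear function bounded by a smaller power vanishes -/
private theorem nv_zero (c C X₀ : ℝ) (d : ℕ) (hd : 0 < d)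
    (h : ∀ X : ℝ, X₀ ≤ X → 1 ≤ X → |c * X| ≤ C * X ^ (1 - 1 / (d : ℝ))) : c = 0 := by
  by_contra hc
  have hc' : 0 < |c| := abs_pos.2 hc
  have hd' : (0 : ℝ) < 1 / (d : ℝ) := by positivity
  -- X ^ (1/d) ≤ C / |c|
  have h1 : ∀ X : ℝ, X₀ ≤ X → 1 ≤ X → X ^ (1 / (d : ℝ)) ≤ C / |c| := by
    intro X hX0 hX
    have hXp : 0 < X := by linarith
    have h2 := h X hX0 hX
    have h3 : X ^ (1 - 1 / (d : ℝ)) * X ^ (1 / (d : ℝ)) = X := by
      rw [← Real.rpow_add hXp]
      simp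
    have h4 : 0 < X ^ (1 - 1 / (d : ℝ)) := Real.rpow_pos_of_pos hXp _
    rw [abs_mul, abs_of_pos hXp] at h2
    rw [le_div_iff₀ hc']
    have h5 : X ^ (1 - 1 / (d : ℝ)) * (X ^ (1 / (d : ℝ)) * |c|) ≤ X ^ (1 - 1 / (d : ℝ)) * C := by
      calc X ^ (1 - 1 / (d : ℝ)) * (X ^ (1 / (d : ℝ)) * |c|)
          = (X ^ (1 - 1 / (d : ℝ)) * X ^ (1 / (d : ℝ))) * |c| := by ring
        _ = X * |c| := by rw [h3]
        _ ≤ X ^ (1 - 1 / (d : ℝ)) * C := by linarith
    exact le_of_mul_le_mul_left h5 h4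
  have h2 := (tendsto_rpow_atTop hd').eventually (Filter.eventually_gt_atTop (C / |c|))
  obtain ⟨X, ⟨h3, h4⟩, h5⟩ :=
    ((h2.and (Filter.eventually_ge_atTop X₀)).and (Filter.eventually_ge_atTop (1 : ℝ))).exists
  exact absurd (h1 X h4 h5) (not_le.2 h3)

theorem main_vanish (R : Finset (Ideal (𝓞 K))) (hR : Reps R) :
    ∃ C : ℝ, 0 ≤ C ∧ ∀ (M : Ideal (𝓞 K)), M ≠ ⊥ → ∀ F : Ideal (𝓞 K) → ℝ, (∀ I, |F I| ≤ 1) →
      (∀ J ∈ R, PER J M F) → (∀ I I' : Ideal (𝓞 K), I ≠ ⊥ → I' ≠ ⊥ → F (I * I') = F I * F I') →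
      (∃ B : Ideal (𝓞 K), B ≠ ⊥ ∧ IsCoprime B M ∧ F B ≠ 1) → ∀ X : ℝ, 1 ≤ X →
        |∑ᶠ I ∈ IdLe K X, F I| ≤
          C * (Ideal.absNorm M : ℝ) ^ (Module.finrank ℚ K + 1) *
            X ^ (1 - 1 / (Module.finrank ℚ K : ℝ)) := by
  obtain ⟨C, hC0, hC⟩ := main_count K R hR
  refine ⟨C, hC0, ?_⟩
  intro M hM F hF hP hmul hBex X hX
  obtain ⟨B, hB, hBM, hFB⟩ := hBex
  obtain ⟨A, hA⟩ := hC M hM F hF hP
  have hN := nv_norm_pos K hB
  have hN1 : (1 : ℝ) ≤ Ideal.absNorm B := by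
    have : 0 < Ideal.absNorm B := by exact_mod_cast hN
    exact_mod_cast this
  have htop : IsCoprime (⊤ : Ideal (𝓞 K)) M := by
    rw [Ideal.isCoprime_iff_sup_eq]
    simp
  have hset : ∀ Y : ℝ, {I ∈ IdLe K Y | (⊤ : Ideal (𝓞 K)) ∣ I} = IdLe K Y := by
    intro Y
    ext I
    constructor
    · intro h
      exact h.1
    · intro h
      refine ⟨h, ?_⟩
      rw [← Ideal.one_eq_top]
      exact one_dvd I
  have hT : ∀ Y : ℝ, 1 ≤ Y → |∑ᶠ I ∈ IdLe K Y, F I - A * Y| ≤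
      C * (Ideal.absNorm M : ℝ) ^ (Module.finrank ℚ K + 1) *
        Y ^ (1 - 1 / (Module.finrank ℚ K : ℝ)) := by
    intro Y hY
    have h := hA ⊤ top_ne_bot htop Y hY
    rw [hset] at h
    simpa using h
  have hd : 0 < Module.finrank ℚ K := Module.finrank_pos
  have hexp : (0 : ℝ) ≤ 1 - 1 / (Module.finrank ℚ K : ℝ) := by
    have h1 : (1 : ℝ) ≤ Module.finrank ℚ K := by exact_mod_cast hd
    have h2 : 1 / (Module.finrank ℚ K : ℝ) ≤ 1 := by
      rw [div_le_one (by linarith)]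
      exact h1
    linarith
  have hS : ∀ Y : ℝ, ∑ᶠ I ∈ {I ∈ IdLe K Y | B ∣ I}, F I =
      F B * ∑ᶠ I ∈ IdLe K (Y / Ideal.absNorm B), F I := by
    intro Y
    rw [nv_image K B hB, finsum_mem_image, mul_finsum_mem]
    · refine finsum_mem_congr rfl fun I hI => ?_
      exact hmul B I hB hI.1
    · intro I _ I' _ h
      exact mul_left_cancel₀ hB h
  have hA0 : A = 0 := by
    have h1 : A * (1 - F B) / Ideal.absNorm B = 0 := by
      refine nv_zero _ (C * ((Ideal.absNorm B : ℝ) * Ideal.absNorm M) ^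
        (Module.finrank ℚ K + 1) + C * (Ideal.absNorm M : ℝ) ^ (Module.finrank ℚ K + 1))
        (Ideal.absNorm B) (Module.finrank ℚ K) hd ?_
      intro Y hY0 hY
      have hY1 : 1 ≤ Y / Ideal.absNorm B := by
        rw [le_div_iff₀ hN]
        linarith
      have h2 := hA B hB hBM Y hY
      have h3 := hT (Y / Ideal.absNorm B) hY1
      rw [hS] at h2
      have h4 : |F B * (∑ᶠ I ∈ IdLe K (Y / Ideal.absNorm B), F I -
          A * (Y / Ideal.absNorm B))| ≤ C * (Ideal.absNorm M : ℝ) ^ (Module.finrank ℚ K + 1) *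
            (Y / Ideal.absNorm B) ^ (1 - 1 / (Module.finrank ℚ K : ℝ)) := by
        rw [abs_mul]
        calc _ ≤ 1 * _ := mul_le_mul_of_nonneg_right (hF B) (abs_nonneg _)
          _ ≤ _ := by rw [one_mul]; exact h3
      have h5 : (Y / Ideal.absNorm B) ^ (1 - 1 / (Module.finrank ℚ K : ℝ)) ≤
          Y ^ (1 - 1 / (Module.finrank ℚ K : ℝ)) := by
        refine Real.rpow_le_rpow (by positivity) ?_ hexp
        exact div_le_self (by linarith) hN1
      have h6 : C * (Ideal.absNorm M : ℝ) ^ (Module.finrank ℚ K + 1) *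
            (Y / Ideal.absNorm B) ^ (1 - 1 / (Module.finrank ℚ K : ℝ)) ≤
          C * (Ideal.absNorm M : ℝ) ^ (Module.finrank ℚ K + 1) *
            Y ^ (1 - 1 / (Module.finrank ℚ K : ℝ)) :=
        mul_le_mul_of_nonneg_left h5 (by positivity)
      have h7 : A * (1 - F B) / Ideal.absNorm B * Y =
          F B * (∑ᶠ I ∈ IdLe K (Y / Ideal.absNorm B), F I - A * (Y / Ideal.absNorm B)) -
          (F B * ∑ᶠ I ∈ IdLe K (Y / Ideal.absNorm B), F I - A * Y / Ideal.absNorm B) := by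
        field_simp
        ring
      rw [h7]
      refine le_trans (nv_abs_sub _ _) ?_
      have := add_le_add (h4.trans h6) h2
      rw [add_mul]
      linarith
    have h2 : A * (1 - F B) = 0 := by
      rcases div_eq_zero_iff.1 h1 with h | h
      · exact h
      · exact absurd h hN.ne'
    rcases mul_eq_zero.1 h2 with h | h
    · exact h
    · exact absurd (by linarith) hFB
  have h := hT X hX
  rw [hA0, zero_mul, sub_zero] at h
  exact h

end Pool.Agent.H98.MF
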