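import Pool.Agent.H98.MF.NPer
import Pool.Agent.H98.MF.NVan
import Pool.Agent.H98.MF.NReps
import Pool.Agent.H98.MF.NIdf
import Pool.Agent.H98.MF.NEul

/-!
# Project MK4 (MP_a3214d), block N: power saving for character sums
-/

set_option autoImplicit false

open scoped BigOperators Pointwise NNReal nonZeroDivisors
open NumberField IsDedekindDomain

namespace Pool.Agent.H98.MF

open Pool.Agent.H98.MK (sg)

variable {k : Type} [Field k] [NumberField k]

theorem nchi_FI_idf (S : Finset (HeightOneSpectrum (𝓞 k))) (y : Finset (preK S).P)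
    (g : (preK S).P → ZMod 2) (f : (preK S).P →₀ ℕ) :
    FI S y g (idf S f) = ((preK S).chv y g f : ℝ) := by
  have h : ∃ f', idf S f' = idf S f := ⟨f, rfl⟩
  unfold FI
  rw [dif_pos h, idf_injective S h.choose_spec]

theorem nchi_FI_zero (S : Finset (HeightOneSpectrum (𝓞 k))) (y : Finset (preK S).P)
    (g : (preK S).P → ZMod 2) (I : Ideal (𝓞 k)) (h : ¬ ∃ f, idf S f = I) : FI S y g I = 0 := by
  unfold FI
  rw [dif_neg h]

theorem nchi_abs_chv (T : Pre) (y : Finset T.P) (g : T.P → ZMod 2) (f : T.P →₀ ℕ) :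
    |(T.chv y g f : ℝ)| ≤ 1 := by
  have h : ∀ a : ZMod 2, |sg a| = 1 := by decide
  unfold Pre.chv
  split_ifs with h1
  · rw [← Int.cast_abs, h, Int.cast_one]
  · simp

theorem nchi_abs_FI (S : Finset (HeightOneSpectrum (𝓞 k))) (y : Finset (preK S).P)
    (g : (preK S).P → ZMod 2) (I : Ideal (𝓞 k)) : |FI S y g I| ≤ 1 := by
  by_cases h : ∃ f, idf S f = I
  · obtain ⟨f, rfl⟩ := h
    rw [nchi_FI_idf]
    exact nchi_abs_chv _ y g f
  · rw [nchi_FI_zero S y g I h, abs_zero]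
    exact zero_le_one

theorem nchi_FI_mul (S : Finset (HeightOneSpectrum (𝓞 k))) (y : Finset (preK S).P)
    (g : (preK S).P → ZMod 2) (I I' : Ideal (𝓞 k)) (hI : I ≠ ⊥) (hI' : I' ≠ ⊥) :
    FI S y g (I * I') = FI S y g I * FI S y g I' := by
  have hm : I * I' ≠ ⊥ := mul_ne_zero hI hI'
  by_cases h : ∃ f, idf S f = I
  · by_cases h' : ∃ f, idf S f = I'
    · obtain ⟨f, rfl⟩ := h
      obtain ⟨f', rfl⟩ := h'
      rw [← idf_add, nchi_FI_idf, nchi_FI_idf, nchi_FI_idf, chv_add, Int.cast_mul]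
    · have h2 : ¬ ∃ f, idf S f = I * I' := by
        rw [idf_surj S _ hI'] at h'
        rw [idf_surj S _ hm]
        push Not at h' ⊢
        obtain ⟨Q, hQ, hQ'⟩ := h'
        exact ⟨Q, hQ, Ideal.mul_le_right.trans hQ'⟩
      rw [nchi_FI_zero S y g _ h', nchi_FI_zero S y g _ h2, mul_zero]
  · have h2 : ¬ ∃ f, idf S f = I * I' := by
      rw [idf_surj S _ hI] at h
      rw [idf_surj S _ hm]
      push Not at h ⊢
      obtain ⟨Q, hQ, hQ'⟩ := h
      exact ⟨Q, hQ, Ideal.mul_le_left.trans hQ'⟩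
    rw [nchi_FI_zero S y g _ h, nchi_FI_zero S y g _ h2, zero_mul]

theorem nchi_idf_single (S : Finset (HeightOneSpectrum (𝓞 k))) (p : (preK S).P) :
    idf S (Finsupp.single p 1) = p.1.asIdeal :=
  (Finsupp.prod_single_index (h := fun (Q : (preK S).P) (n : ℕ) => Q.1.asIdeal ^ n)
    (pow_zero p.1.asIdeal)).trans (pow_one p.1.asIdeal)

theorem nchi_coprime (P Q : HeightOneSpectrum (𝓞 k)) (h : P ≠ Q) :
    IsCoprime P.asIdeal Q.asIdeal := by
  have := P.isMaximal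
  have := Q.isMaximal
  exact Ideal.isCoprime_of_isMaximal fun h1 => h (HeightOneSpectrum.ext h1)

theorem nchi_FI_single (S : Finset (HeightOneSpectrum (𝓞 k))) (y : Finset (preK S).P)
    (g : (preK S).P → ZMod 2) (p : (preK S).P) (hp : p ∉ y) (hg : g p ≠ 0) :
    FI S y g (idf S (Finsupp.single p 1)) ≠ 1 := by
  have h1 : g p = 1 := by
    have h : ∀ a : ZMod 2, a ≠ 0 → a = 1 := by decide
    exact h _ hg
  rw [nchi_FI_idf]
  unfold Pre.chv
  rw [if_pos, Finsupp.sum_single_index, h1]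
  · have h2 : sg (((1 : ℕ) : ZMod 2) * 1) = -1 := by decide
    rw [h2]
    norm_num
  · simp
  · rw [Finset.disjoint_left]
    intro q hq
    have := Finsupp.support_single_subset hq
    rw [Finset.mem_singleton] at this
    rw [this]
    exact hp

theorem nchi_norm_MI (S : Finset (HeightOneSpectrum (𝓞 k))) (n : ℕ) (y : Finset (preK S).P) :
    Ideal.absNorm (MI S n y) =
      Ideal.absNorm (∏ Q ∈ S, Q.asIdeal ^ (n + 1)) * (preK S).nm y := by
  unfold MI Pre.nm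
  rw [map_mul, map_prod Ideal.absNorm (fun Q : (preK S).P => Q.1.asIdeal) y]
  rfl

theorem nchi_MI_ne (S : Finset (HeightOneSpectrum (𝓞 k))) (n : ℕ) (y : Finset (preK S).P) :
    MI S n y ≠ ⊥ := by
  unfold MI
  refine mul_ne_zero (Finset.prod_ne_zero_iff.2 fun Q _ => pow_ne_zero _ Q.ne_bot)
    (Finset.prod_ne_zero_iff.2 fun Q _ => Q.1.ne_bot)

theorem nchi_sum (S : Finset (HeightOneSpectrum (𝓞 k))) (y : Finset (preK S).P)
    (g : (preK S).P → ZMod 2) (X : ℝ) :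
    ∑ f ∈ (preK S).idl X, ((preK S).chv y g f : ℝ) = ∑ᶠ I ∈ IdLe k X, FI S y g I := by
  classical
  have h1 : ∑ f ∈ (preK S).idl X, ((preK S).chv y g f : ℝ) =
      ∑ f ∈ (preK S).idl X, FI S y g (idf S f) :=
    Finset.sum_congr rfl fun f _ => (nchi_FI_idf S y g f).symm
  rw [h1, sum_idl]
  refine finsum_congr fun I => ?_
  by_cases h : ∃ f, idf S f = I
  · have hI : I ≠ ⊥ := by
      obtain ⟨f, rfl⟩ := h
      exact idf_ne_bot S f
    have h2 := (idf_surj S I hI).1 h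
    by_cases h3 : I ∈ IdLe k X
    · rw [finsum_eq_if, finsum_eq_if, if_pos h3, if_pos ⟨h3, h2⟩]
    · rw [finsum_eq_if, finsum_eq_if, if_neg h3, if_neg fun h4 => h3 h4.1]
  · rw [nchi_FI_zero S y g I h]
    simp

theorem chi_bound (S : Finset (HeightOneSpectrum (𝓞 k))) (hS : PrS S) (n : ℕ) :
    ∃ C A : ℝ, 0 ≤ C ∧ 0 ≤ A ∧ ∀ (y : Finset (preK S).P) (g : (preK S).P → ZMod 2),
      Loc S n y g → (∃ p, p ∉ y ∧ g p ≠ 0) → ∀ X : ℝ, 1 ≤ X →
        |∑ f ∈ (preK S).idl X, ((preK S).chv y g f : ℝ)| ≤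
          C * ((preK S).nm y : ℝ) ^ A * X ^ (1 - 1 / (Module.finrank ℚ k : ℝ)) := by
  obtain ⟨R, hR, hRS⟩ := reps_exist k S hS
  obtain ⟨C, hC, h⟩ := main_vanish k R hR
  refine ⟨C * (Ideal.absNorm (∏ Q ∈ S, Q.asIdeal ^ (n + 1)) : ℝ) ^ (Module.finrank ℚ k + 1),
    ((Module.finrank ℚ k + 1 : ℕ) : ℝ), mul_nonneg hC (pow_nonneg (Nat.cast_nonneg _) _),
    Nat.cast_nonneg _, ?_⟩
  intro y g hL hp X hX
  obtain ⟨p, hp, hg⟩ := hp
  rw [nchi_sum]
  have h1 := h (MI S n y) (nchi_MI_ne S n y) (FI S y g) (nchi_abs_FI S y g)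
    (fun J hJ => FI_per S n y g hL J (hR.1 J hJ) (hRS J hJ))
    (fun I I' hI hI' => nchi_FI_mul S y g I I' hI hI') ?_ X hX
  · refine h1.trans (le_of_eq ?_)
    rw [nchi_norm_MI, Nat.cast_mul, mul_pow, Real.rpow_natCast]
    ring
  · refine ⟨idf S (Finsupp.single p 1), idf_ne_bot S _, ?_, nchi_FI_single S y g p hp hg⟩
    rw [nchi_idf_single]
    unfold MI
    refine IsCoprime.mul_right (IsCoprime.prod_right fun Q hQ => IsCoprime.pow_right ?_)
      (IsCoprime.prod_right fun Q hQ => ?_)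
    · exact nchi_coprime _ _ fun h2 => p.2 (h2 ▸ hQ)
    · exact nchi_coprime _ _ fun h2 => hp (by rw [Subtype.ext h2]; exact hQ)

end Pool.Agent.H98.MF
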