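import Pool.Agent.H98.MF.NK

set_option autoImplicit false

open scoped BigOperators Pointwise NNReal nonZeroDivisors
open NumberField IsDedekindDomain

namespace Pool.Agent.H98.MF

variable {k : Type} [Field k] [NumberField k]

omit [NumberField k] in
private theorem pa_image (L : Type) [Field L] [NumberField L] [Algebra k L]
    (Q : HeightOneSpectrum (𝓞 k)) :
    (fun P : HeightOneSpectrum (𝓞 L) => P.asIdeal) ''
      {P : HeightOneSpectrum (𝓞 L) |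
        P.asIdeal.comap (algebraMap (𝓞 k) (𝓞 L)) = Q.asIdeal} =
    Q.asIdeal.primesOver (𝓞 L) := by
  ext P
  constructor
  · rintro ⟨P, hP, rfl⟩
    exact ⟨P.isPrime, ⟨hP.symm⟩⟩
  · rintro ⟨h1, h2⟩
    have h3 : P ≠ ⊥ := by
      rintro rfl
      have h4 : Q.asIdeal = Ideal.comap (algebraMap (𝓞 k) (𝓞 L)) ⊥ := h2.over
      rw [← RingHom.ker_eq_comap_bot] at h4
      rw [(RingHom.injective_iff_ker_eq_bot _).mp
        (FaithfulSMul.algebraMap_injective (𝓞 k) (𝓞 L))] at h4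
      exact Q.ne_bot h4
    exact ⟨⟨P, h1, h3⟩, h2.over.symm, rfl⟩

omit [NumberField k] in
private theorem pa_ncard (L : Type) [Field L] [NumberField L] [Algebra k L]
    (Q : HeightOneSpectrum (𝓞 k)) :
      {P : HeightOneSpectrum (𝓞 L) |
        P.asIdeal.comap (algebraMap (𝓞 k) (𝓞 L)) = Q.asIdeal}.ncard =
    (Q.asIdeal.primesOver (𝓞 L)).ncard := by
  rw [← pa_image L Q, Set.ncard_image_of_injective _ (fun P P' h => HeightOneSpectrum.ext h)]

private theorem pa_fin (L : Type) [Field L] [NumberField L] [Algebra k L]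
    [FiniteDimensional k L] (Q : HeightOneSpectrum (𝓞 k)) :
    (Q.asIdeal.primesOver (𝓞 L)).Finite := by
  have := Q.isPrime
  exact Algebra.QuasiFinite.finite_primesOver _

private theorem pa_sum (L : Type) [Field L] [NumberField L] [Algebra k L]
    [FiniteDimensional k L] (hL : Module.finrank k L = 2) (Q : HeightOneSpectrum (𝓞 k))
    [Fintype (Q.asIdeal.primesOver (𝓞 L))] :
    ∑ q : Q.asIdeal.primesOver (𝓞 L), q.1.ramificationIdx (𝓞 k) * q.1.inertiaDeg (𝓞 k) = 2 := by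
  have := Q.isPrime
  rw [Ideal.sum_ramification_inertia_eq_finrank]
  rw [← hL]
  exact Eq.symm (IsFractionRing.finrank_eq (𝓞 k) k (𝓞 L) L)

private theorem pa_pos (L : Type) [Field L] [NumberField L] [Algebra k L]
    [FiniteDimensional k L] (Q : HeightOneSpectrum (𝓞 k))
    (q : Q.asIdeal.primesOver (𝓞 L)) :
    1 ≤ q.1.ramificationIdx (𝓞 k) ∧ 1 ≤ q.1.inertiaDeg (𝓞 k) := by
  have := Q.isPrime
  have h1 : q.1.IsPrime := q.2.1
  have h2 : q.1.LiesOver Q.asIdeal := q.2.2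
  refine ⟨?_, Ideal.inertiaDeg_pos _ _⟩
  exact Ideal.ramificationIdx_pos _ _

private theorem pa_two {ι : Type} [Fintype ι] (g : ι → ℕ) (h1 : ∀ i, 1 ≤ g i)
    (h2 : ∑ i, g i = 2) :
    Fintype.card ι ≤ 2 ∧ (Fintype.card ι = 2 → ∀ i, g i = 1) ∧ ∀ i, g i ≤ 2 := by
  have h3 : ∑ i, (g i - 1) + Fintype.card ι = 2 := by
    rw [← h2, ← Finset.card_univ, Finset.card_eq_sum_ones, ← Finset.sum_add_distrib]
    exact Finset.sum_congr rfl fun i _ => Nat.sub_add_cancel (h1 i)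
  refine ⟨by omega, fun h i => ?_, fun i => ?_⟩
  · have h4 : ∑ i, (g i - 1) = 0 := by omega
    have h5 := (Finset.sum_eq_zero_iff.mp h4) i (Finset.mem_univ i)
    have := h1 i
    omega
  · rw [← h2]
    exact Finset.single_le_sum (f := g) (fun _ _ => Nat.zero_le _) (Finset.mem_univ i)

/-- at most two primes above any prime, of norm at least the norm below -/
theorem primes_above_le (L : Type) [Field L] [NumberField L] [Algebra k L]
    [FiniteDimensional k L] (hL : Module.finrank k L = 2) (Q : HeightOneSpectrum (𝓞 k)) :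
    {P : HeightOneSpectrum (𝓞 L) |
      P.asIdeal.comap (algebraMap (𝓞 k) (𝓞 L)) = Q.asIdeal}.Finite ∧
    {P : HeightOneSpectrum (𝓞 L) |
      P.asIdeal.comap (algebraMap (𝓞 k) (𝓞 L)) = Q.asIdeal}.ncard ≤ 2 ∧
    ∀ P : HeightOneSpectrum (𝓞 L), P.asIdeal.comap (algebraMap (𝓞 k) (𝓞 L)) = Q.asIdeal →
      Ideal.absNorm Q.asIdeal ≤ Ideal.absNorm P.asIdeal := by
  have hf := pa_fin L Q
  let _ : Fintype (Q.asIdeal.primesOver (𝓞 L)) := hf.fintype
  refine ⟨?_, ?_, ?_⟩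
  · refine Set.Finite.of_finite_image (f := fun P => P.asIdeal) ?_
      (fun P _ P' _ h => HeightOneSpectrum.ext h)
    rw [pa_image L Q]
    exact hf
  · rw [pa_ncard L Q]
    have h := (pa_two _ (fun q => Nat.mul_le_mul (pa_pos L Q q).1 (pa_pos L Q q).2)
      (pa_sum L hL Q)).1
    rwa [← Nat.card_eq_fintype_card, Nat.card_coe_set_eq] at h
  · intro P hP
    have h1 : P.asIdeal.LiesOver Q.asIdeal := ⟨hP.symm⟩
    have h2 := P.isPrime
    have h3 := Q.isPrime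
    rw [← Ideal.absNorm_pow_inertiaDeg Q.asIdeal P.asIdeal]
    refine Nat.le_self_pow ?_ _
    have h4 : 0 < P.asIdeal.inertiaDeg (𝓞 k) := Ideal.inertiaDeg_pos _ _
    omega

private theorem pa_conj (L : Type) [Field L] [NumberField L] [Algebra k L]
    [FiniteDimensional k L] (hL : Module.finrank k L = 2) (a : k) (w : L)
    (hw : w ^ 2 = algebraMap k L a) (hns : ¬ IsSquare a) : ∃ σ : L ≃ₐ[k] L, σ w = -w := by
  have : Algebra.IsQuadraticExtension k L := ⟨hL⟩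
  have : IsGalois k L := inferInstance
  by_contra hcon
  push Not at hcon
  have h1 : ∀ σ : L ≃ₐ[k] L, σ w = w := by
    intro σ
    have h2 : (σ w) ^ 2 = w ^ 2 := by
      rw [← map_pow, hw, AlgEquiv.commutes]
    rcases sq_eq_sq_iff_eq_or_eq_neg.mp h2 with h | h
    · exact h
    · exact absurd h (hcon σ)
  obtain ⟨b, hb⟩ := (IsGalois.mem_range_algebraMap_iff_fixed (F := k) w).mpr h1
  refine hns ⟨b, ?_⟩
  apply (algebraMap k L).injective
  rw [map_mul, hb, ← hw, pow_two]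

private theorem pa_deg (L : Type) [Field L] [NumberField L] [Algebra k L]
    [FiniteDimensional k L] (a : 𝓞 k) (w : 𝓞 L)
    (hw : w ^ 2 = algebraMap (𝓞 k) (𝓞 L) a)
    (Q : HeightOneSpectrum (𝓞 k)) (P : HeightOneSpectrum (𝓞 L))
    (hP : P.asIdeal.comap (algebraMap (𝓞 k) (𝓞 L)) = Q.asIdeal)
    (hN : Ideal.absNorm P.asIdeal = Ideal.absNorm Q.asIdeal) :
    ∃ c : 𝓞 k, a - c ^ 2 ∈ Q.asIdeal := by
  have fQ : Finite (𝓞 k ⧸ Q.asIdeal) := Ideal.finiteQuotientOfFreeOfNeBot _ Q.ne_bot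
  have fP : Finite (𝓞 L ⧸ P.asIdeal) := Ideal.finiteQuotientOfFreeOfNeBot _ P.ne_bot
  let F : (𝓞 k ⧸ Q.asIdeal) →+* (𝓞 L ⧸ P.asIdeal) :=
    Ideal.quotientMap P.asIdeal (algebraMap (𝓞 k) (𝓞 L)) hP.symm.le
  have hF : Function.Injective F := Ideal.quotientMap_injective' hP.le
  rw [Ideal.absNorm_apply, Ideal.absNorm_apply, Submodule.cardQuot_apply,
    Submodule.cardQuot_apply] at hN
  have hb : Function.Bijective F :=
    hF.bijective_of_nat_card_le hN.le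
  obtain ⟨x, hx⟩ := hb.2 (Ideal.Quotient.mk _ w)
  obtain ⟨c, rfl⟩ := Ideal.Quotient.mk_surjective x
  refine ⟨c, ?_⟩
  rw [Ideal.quotientMap_mk] at hx
  rw [← hP, Ideal.mem_comap, map_sub, map_pow, ← hw]
  have h1 : algebraMap (𝓞 k) (𝓞 L) c - w ∈ P.asIdeal := Ideal.Quotient.eq.mp hx
  have h2 : w ^ 2 - algebraMap (𝓞 k) (𝓞 L) c ^ 2 =
      (-(w + algebraMap (𝓞 k) (𝓞 L) c)) * (algebraMap (𝓞 k) (𝓞 L) c - w) := by ring
  rw [h2]
  exact Ideal.mul_mem_left _ _ h1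

private theorem pa_card (L : Type) [Field L] [NumberField L] [Algebra k L]
    [FiniteDimensional k L] (hL : Module.finrank k L = 2) (a : 𝓞 k) (w : 𝓞 L)
    (hw : w ^ 2 = algebraMap (𝓞 k) (𝓞 L) a) (hns : ¬ IsSquare (a : k))
    (Q : HeightOneSpectrum (𝓞 k)) (h2 : (2 : 𝓞 k) ∉ Q.asIdeal) (ha : a ∉ Q.asIdeal)
    (c : 𝓞 k) (hc : a - c ^ 2 ∈ Q.asIdeal) (q0 : Q.asIdeal.primesOver (𝓞 L)) :
    ∃ q1 : Q.asIdeal.primesOver (𝓞 L), q1 ≠ q0 := by
  have hQ := Q.isPrime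
  have hp0 : q0.1.IsPrime := q0.2.1
  have hl0 : q0.1.LiesOver Q.asIdeal := q0.2.2
  obtain ⟨σ, hσ⟩ := pa_conj L hL (a : k) (w : L) (by
    have h := congrArg (algebraMap (𝓞 L) L) hw
    rw [map_pow] at h
    exact h) hns
  let τ : 𝓞 L →+* 𝓞 L := (RingOfIntegers.mapRingEquiv σ.toRingEquiv : 𝓞 L ≃+* 𝓞 L)
  have hτa : ∀ x : 𝓞 k, τ (algebraMap _ _ x) = algebraMap _ _ x := by
    intro x
    apply RingOfIntegers.ext
    exact σ.commutes (x : k)
  have hτw : τ w = -w := by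
    apply RingOfIntegers.ext
    exact hσ
  have hmem : ∀ x : 𝓞 k, x ∈ Q.asIdeal ↔ algebraMap (𝓞 k) (𝓞 L) x ∈ q0.1 := fun x =>
    Ideal.mem_of_liesOver q0.1 Q.asIdeal x
  have hcQ : ∀ e : 𝓞 k, a - e ^ 2 ∈ Q.asIdeal → (2 * e) ∉ Q.asIdeal := by
    intro e he h
    rcases hQ.mem_or_mem h with h | h
    · exact h2 h
    · refine ha ?_
      have h3 : a = (a - e ^ 2) + e * e := by ring
      rw [h3]
      exact Ideal.add_mem _ he (Ideal.mul_mem_left _ _ h)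
  obtain ⟨e, he, hwe⟩ : ∃ e : 𝓞 k, a - e ^ 2 ∈ Q.asIdeal ∧
      w - algebraMap (𝓞 k) (𝓞 L) e ∈ q0.1 := by
    have h3 : (w - algebraMap (𝓞 k) (𝓞 L) c) * (w + algebraMap (𝓞 k) (𝓞 L) c) ∈ q0.1 := by
      have h4 : (w - algebraMap (𝓞 k) (𝓞 L) c) * (w + algebraMap (𝓞 k) (𝓞 L) c) =
          algebraMap (𝓞 k) (𝓞 L) (a - c ^ 2) := by
        rw [map_sub, map_pow, ← hw]; ring
      rw [h4]
      exact (hmem _).mp hc
    rcases hp0.mem_or_mem h3 with h | h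
    · exact ⟨c, hc, h⟩
    · refine ⟨-c, by rwa [neg_sq], ?_⟩
      rw [map_neg, sub_neg_eq_add]
      exact h
  have hp1 : (q0.1.comap τ).IsPrime := Ideal.comap_isPrime _ _
  have hl1 : (q0.1.comap τ).LiesOver Q.asIdeal := by
    constructor
    ext x
    rw [hmem x]
    show _ ↔ algebraMap (𝓞 k) (𝓞 L) x ∈ q0.1.comap τ
    rw [Ideal.mem_comap, hτa]
  refine ⟨⟨q0.1.comap τ, hp1, hl1⟩, ?_⟩
  intro heq
  have h5 : q0.1.comap τ = q0.1 := congrArg Subtype.val heq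
  have h6 : w - algebraMap (𝓞 k) (𝓞 L) e ∈ q0.1.comap τ := by rw [h5]; exact hwe
  rw [Ideal.mem_comap, map_sub, hτw, hτa] at h6
  have h7 := Ideal.add_mem _ h6 hwe
  refine hcQ e he ((hmem _).mpr ?_)
  have h8 : algebraMap (𝓞 k) (𝓞 L) (2 * e) =
      -(-w - algebraMap (𝓞 k) (𝓞 L) e + (w - algebraMap (𝓞 k) (𝓞 L) e)) := by
    rw [map_mul, map_ofNat]; ring
  rw [h8]
  exact (Ideal.neg_mem_iff _).mpr h7

/-- the primes of a quadratic extension above a good prime -/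
theorem primes_above (L : Type) [Field L] [NumberField L] [Algebra k L] [FiniteDimensional k L]
    (hL : Module.finrank k L = 2) (a : 𝓞 k) (w : 𝓞 L)
    (hw : w ^ 2 = algebraMap (𝓞 k) (𝓞 L) a) (hns : ¬ IsSquare (a : k))
    (Q : HeightOneSpectrum (𝓞 k)) (h2 : (2 : 𝓞 k) ∉ Q.asIdeal) (ha : a ∉ Q.asIdeal) :
    ((∃ c : 𝓞 k, a - c ^ 2 ∈ Q.asIdeal) →
      {P : HeightOneSpectrum (𝓞 L) | P.asIdeal.comap (algebraMap (𝓞 k) (𝓞 L)) = Q.asIdeal}.ncard = 2 ∧
      ∀ P : HeightOneSpectrum (𝓞 L), P.asIdeal.comap (algebraMap (𝓞 k) (𝓞 L)) = Q.asIdeal →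
        Ideal.absNorm P.asIdeal = Ideal.absNorm Q.asIdeal) ∧
    ((¬ ∃ c : 𝓞 k, a - c ^ 2 ∈ Q.asIdeal) →
      ∀ P : HeightOneSpectrum (𝓞 L), P.asIdeal.comap (algebraMap (𝓞 k) (𝓞 L)) = Q.asIdeal →
        Ideal.absNorm P.asIdeal = Ideal.absNorm Q.asIdeal ^ 2) := by
  classical
  have hQ := Q.isPrime
  have hf := pa_fin L Q
  let _ : Fintype (Q.asIdeal.primesOver (𝓞 L)) := hf.fintype
  have hsum := pa_sum L hL Q
  obtain ⟨t1, t2, t3⟩ := pa_two _ (fun q => Nat.mul_le_mul (pa_pos L Q q).1 (pa_pos L Q q).2)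
    hsum
  constructor
  · rintro ⟨c, hc⟩
    have h3 : Fintype.card (Q.asIdeal.primesOver (𝓞 L)) = 2 := by
      have h4 : 1 < Fintype.card (Q.asIdeal.primesOver (𝓞 L)) := by
        have h5 : Nonempty (Q.asIdeal.primesOver (𝓞 L)) := by
          by_contra hne
          rw [not_nonempty_iff] at hne
          rw [Finset.univ_eq_empty, Finset.sum_empty] at hsum
          omega
        obtain ⟨q0⟩ := h5
        obtain ⟨q1, h6⟩ := pa_card L hL a w hw hns Q h2 ha c hc q0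
        exact Fintype.one_lt_card_iff.mpr ⟨q1, q0, h6⟩
      omega
    refine ⟨by rw [pa_ncard L Q, ← Nat.card_coe_set_eq, Nat.card_eq_fintype_card, h3], ?_⟩
    intro P hP
    have h4 := t2 h3 ⟨P.asIdeal, P.isPrime, ⟨hP.symm⟩⟩
    have h5 : P.asIdeal.inertiaDeg (𝓞 k) = 1 := Nat.eq_one_of_mul_eq_one_left h4
    have h6 : P.asIdeal.LiesOver Q.asIdeal := ⟨hP.symm⟩
    have h7 := P.isPrime
    rw [← Ideal.absNorm_pow_inertiaDeg Q.asIdeal P.asIdeal, h5, pow_one]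
  · intro hno P hP
    have h6 : P.asIdeal.LiesOver Q.asIdeal := ⟨hP.symm⟩
    have h7 := P.isPrime
    have h4 := t3 ⟨P.asIdeal, P.isPrime, ⟨hP.symm⟩⟩
    have h8 := pa_pos L Q ⟨P.asIdeal, P.isPrime, ⟨hP.symm⟩⟩
    have h9 : P.asIdeal.inertiaDeg (𝓞 k) ≠ 1 := by
      intro h10
      refine hno (pa_deg L a w hw Q P hP ?_)
      rw [← Ideal.absNorm_pow_inertiaDeg Q.asIdeal P.asIdeal, h10, pow_one]
    have h10 : P.asIdeal.inertiaDeg (𝓞 k) = 2 := by
      have h11 : P.asIdeal.inertiaDeg (𝓞 k) ≤ 2 :=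
        le_trans (Nat.le_mul_of_pos_left _ h8.1) h4
      have h12 : 1 ≤ P.asIdeal.inertiaDeg (𝓞 k) := h8.2
      omega
    rw [← Ideal.absNorm_pow_inertiaDeg Q.asIdeal P.asIdeal, h10]

end Pool.Agent.H98.MF
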