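import Pool.Agent.H98.MF.NSpl
import Pool.Agent.H98.MF.NSplP
import Pool.Agent.H98.MF.NCntS
import Pool.Agent.H98.MF.NPrm

/-!
# MK4, block N: sums over the primes of a quadratic extension (helper63)
-/

set_option autoImplicit false

open scoped BigOperators Pointwise NNReal nonZeroDivisors
open NumberField IsDedekindDomain

namespace Pool.Agent.H98.MF

variable {k : Type} [Field k] [NumberField k]

private noncomputable def nsE : (preK (∅ : Finset (HeightOneSpectrum (𝓞 k)))).P ≃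
    HeightOneSpectrum (𝓞 k) :=
  Equiv.subtypeUnivEquiv (fun Q => Finset.notMem_empty Q)

private theorem nsE_N (p : (preK (∅ : Finset (HeightOneSpectrum (𝓞 k)))).P) :
    nrm (nsE p) = (preK (∅ : Finset (HeightOneSpectrum (𝓞 k)))).N p := rfl

theorem summable_nrm (s : ℝ) (hs : 1 < s) :
    Summable fun Q : HeightOneSpectrum (𝓞 k) => (nrm Q : ℝ) ^ (-s) := by
  obtain ⟨κ, hκ, C, hC, h⟩ := cnt_S (∅ : Finset (HeightOneSpectrum (𝓞 k)))
  have hn : 0 < (Module.finrank ℚ k : ℝ) := by exact_mod_cast Module.finrank_pos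
  have h1 := pre_summable_N (preK (∅ : Finset (HeightOneSpectrum (𝓞 k)))) (κ + C) ?_ s hs
  · exact (nsE.summable_iff (f := fun Q : HeightOneSpectrum (𝓞 k) => (nrm Q : ℝ) ^ (-s))).1 h1
  · intro X hX
    have h2 := (abs_le.1 (h X hX)).2
    have h3 : X ^ (1 - 1 / (Module.finrank ℚ k : ℝ)) ≤ X := by
      nth_rw 2 [← Real.rpow_one X]
      refine Real.rpow_le_rpow_of_exponent_le hX ?_
      have : 0 ≤ 1 / (Module.finrank ℚ k : ℝ) := by positivity
      linarith
    nlinarith

theorem prm0_k : ∃ K : ℝ, ∀ s : ℝ, 1 < s → s ≤ 2 →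
      |∑' Q : HeightOneSpectrum (𝓞 k), (nrm Q : ℝ) ^ (-s) - Real.log (1 / (s - 1))| ≤ K := by
  obtain ⟨K, hK⟩ := prm0_S (∅ : Finset (HeightOneSpectrum (𝓞 k)))
  refine ⟨K, fun s h1 h2 => ?_⟩
  rw [← nsE.tsum_eq (fun Q : HeightOneSpectrum (𝓞 k) => (nrm Q : ℝ) ^ (-s))]
  exact hK s h1 h2

/-- finitely many primes contain a given nonzero element -/
private theorem ns_fin (b : 𝓞 k) (hb : b ≠ 0) :
    {Q : HeightOneSpectrum (𝓞 k) | b ∈ Q.asIdeal}.Finite := by
  have h := Ideal.finite_factors (R := 𝓞 k) (I := Ideal.span {b})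
    (by rwa [Ne, Ideal.zero_eq_bot, Ideal.span_singleton_eq_bot])
  refine h.subset fun Q hQ => ?_
  rw [Set.mem_ofPred_eq] at hQ ⊢
  rwa [Ideal.dvd_span_singleton]

private theorem ns_pow_le (n : ℕ) (hn : 1 ≤ n) (s : ℝ) (hs : 1 < s) : (n : ℝ) ^ (-s) ≤ 1 := by
  have h1 : (1 : ℝ) ≤ n := by exact_mod_cast hn
  exact Real.rpow_le_one_of_one_le_of_nonpos h1 (by linarith)

/-- the comparison of the sums over the primes of `L` and of `k` -/
theorem quad_compare (L : Type) [Field L] [NumberField L] [Algebra k L] [FiniteDimensional k L]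
    (hL : Module.finrank k L = 2) (a : 𝓞 k) (w : 𝓞 L)
    (hw : w ^ 2 = algebraMap (𝓞 k) (𝓞 L) a) (hns : ¬ IsSquare (a : k)) :
    ∃ K : ℝ, ∀ s : ℝ, 1 < s → s ≤ 2 →
      |∑' P : HeightOneSpectrum (𝓞 L), (nrm P : ℝ) ^ (-s) -
        2 * ∑' Q : {Q : HeightOneSpectrum (𝓞 k) // LocSq Q (a : k)}, (nrm Q.1 : ℝ) ^ (-s)| ≤ K := by
  classical
  have ha0 : a ≠ 0 := by
    rintro rfl
    exact hns ⟨0, by simp⟩
  let g : HeightOneSpectrum (𝓞 L) → HeightOneSpectrum (𝓞 k) := fun P => P.under (𝓞 k)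
  have hg : ∀ Q, g ⁻¹' {Q} = {P : HeightOneSpectrum (𝓞 L) |
      P.asIdeal.comap (algebraMap (𝓞 k) (𝓞 L)) = Q.asIdeal} := by
    intro Q
    ext P
    simp only [Set.mem_preimage, Set.mem_singleton_iff, Set.mem_ofPred_eq, g]
    constructor
    · rintro rfl
      rfl
    · intro h
      exact HeightOneSpectrum.ext h
  have hgf : ∀ Q, (g ⁻¹' {Q}).Finite := fun Q => by
    rw [hg]; exact (primes_above_le L hL Q).1
  have hgc : ∀ Q, (g ⁻¹' {Q}).ncard ≤ 2 := fun Q => by
    rw [hg]; exact (primes_above_le L hL Q).2.1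
  -- the fibre sums
  let F : ℝ → HeightOneSpectrum (𝓞 k) → ℝ := fun s Q =>
    ∑' P : g ⁻¹' {Q}, (nrm P.1 : ℝ) ^ (-s)
  have hFs : ∀ s Q, F s Q = ∑ P ∈ (hgf Q).toFinset, (nrm P : ℝ) ^ (-s) := by
    intro s Q
    simp only [F]
    rw [tsum_subtype (g ⁻¹' {Q}) (fun P : HeightOneSpectrum (𝓞 L) => (nrm P : ℝ) ^ (-s)),
      tsum_eq_sum (s := (hgf Q).toFinset)]
    · refine Finset.sum_congr rfl fun P hP => ?_
      rw [Set.indicator_of_mem ((hgf Q).mem_toFinset.1 hP)]
    · intro P hP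
      rw [Set.indicator_of_notMem (fun h => hP ((hgf Q).mem_toFinset.2 h))]
  have hcard : ∀ Q, (((hgf Q).toFinset.card : ℕ) : ℝ) ≤ 2 := by
    intro Q
    have := hgc Q
    rw [Set.ncard_eq_toFinset_card _ (hgf Q)] at this
    exact_mod_cast this
  let H : ℝ → HeightOneSpectrum (𝓞 k) → ℝ := fun s Q =>
    if LocSq Q (a : k) then 2 * (nrm Q : ℝ) ^ (-s) else 0
  let bad : HeightOneSpectrum (𝓞 k) → Prop := fun Q => (2 : 𝓞 k) ∈ Q.asIdeal ∨ a ∈ Q.asIdeal
  have hbad : {Q | bad Q}.Finite := by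
    refine ((ns_fin (2 : 𝓞 k) two_ne_zero).union (ns_fin a ha0)).subset ?_
    intro Q hQ
    exact hQ
  let B : HeightOneSpectrum (𝓞 k) → ℝ := fun Q =>
    (if bad Q then 2 else 0) + 2 * (nrm Q : ℝ) ^ (-(2 : ℝ))
  have hB : Summable B := by
    refine Summable.add ?_ ((summable_nrm 2 (by norm_num)).mul_left 2)
    refine summable_of_ne_finset_zero (s := hbad.toFinset) fun Q hQ => ?_
    have hQ2 : ¬ bad Q := fun h => hQ (hbad.mem_toFinset.2 h)
    rw [if_neg hQ2]
  have hpos : ∀ (Q : HeightOneSpectrum (𝓞 k)) (s : ℝ), 0 ≤ (nrm Q : ℝ) ^ (-s) := fun Q s =>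
    Real.rpow_nonneg (Nat.cast_nonneg _) _
  have hposL : ∀ (Q : HeightOneSpectrum (𝓞 L)) (s : ℝ), 0 ≤ (nrm Q : ℝ) ^ (-s) := fun Q s =>
    Real.rpow_nonneg (Nat.cast_nonneg _) _
  have hone : ∀ Q : HeightOneSpectrum (𝓞 k), 1 ≤ nrm Q := fun Q =>
    (two_le_absNorm Q).trans' (by norm_num)
  have honeL : ∀ Q : HeightOneSpectrum (𝓞 L), 1 ≤ nrm Q := fun Q =>
    (two_le_absNorm Q).trans' (by norm_num)
  have key : ∀ s : ℝ, 1 < s → s ≤ 2 → ∀ Q, |F s Q - H s Q| ≤ B Q := by
    intro s hs _ Q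
    have hF0 : 0 ≤ F s Q := by
      rw [hFs]
      exact Finset.sum_nonneg fun P _ => hposL P s
    by_cases hb : bad Q
    · have h1 : F s Q ≤ 2 := by
        rw [hFs]
        refine (Finset.sum_le_card_nsmul _ _ 1 fun P _ => ns_pow_le _ (honeL P) s hs).trans ?_
        rw [nsmul_eq_mul, mul_one]
        exact hcard Q
      have h2 : 0 ≤ H s Q ∧ H s Q ≤ 2 := by
        simp only [H]
        have h3 := ns_pow_le _ (hone Q) s hs
        have h4 := hpos Q s
        split_ifs
        · constructor <;> linarith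
        · constructor <;> norm_num
      have h5 : 2 ≤ B Q := by
        simp only [B]
        rw [if_pos hb]
        have := hpos Q 2
        linarith
      rw [abs_le]
      constructor <;> linarith [h2.1, h2.2]
    · have hb1 : (2 : 𝓞 k) ∉ Q.asIdeal := fun h => hb (Or.inl h)
      have hb2 : a ∉ Q.asIdeal := fun h => hb (Or.inr h)
      have hres : LocSq Q (a : k) ↔ ∃ c : 𝓞 k, a - c ^ 2 ∈ Q.asIdeal := by
        refine locSq_iff_residue Q ?_ a hb2
        have h1 := N_ord_nonneg Q (2 : 𝓞 k)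
        have h2 : ¬ ((1 : ℕ) : ℤ) ≤ ord Q ((2 : 𝓞 k) : k) := by
          rw [N_le_ord_iff Q (2 : 𝓞 k) two_ne_zero 1, pow_one]
          exact hb1
        have h3 : ((2 : 𝓞 k) : k) = 2 := rfl
        rw [h3] at h1 h2
        rw [Nat.cast_one] at h2
        omega
      obtain ⟨hsp, hin⟩ := primes_above L hL a w hw hns Q hb1 hb2
      by_cases hloc : LocSq Q (a : k)
      · obtain ⟨h1, h2⟩ := hsp (hres.1 hloc)
        have h3 : F s Q = H s Q := by
          rw [hFs]
          simp only [H]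
          rw [if_pos hloc]
          have h4 : ∀ P ∈ (hgf Q).toFinset, (nrm P : ℝ) ^ (-s) = (nrm Q : ℝ) ^ (-s) := by
            intro P hP
            have h5 : P ∈ g ⁻¹' {Q} := (hgf Q).mem_toFinset.1 hP
            rw [hg] at h5
            have h6 : nrm P = nrm Q := h2 P h5
            rw [h6]
          rw [Finset.sum_congr rfl h4, Finset.sum_const, nsmul_eq_mul]
          have h7 : (hgf Q).toFinset.card = 2 := by
            rw [← Set.ncard_eq_toFinset_card _ (hgf Q), hg]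
            exact h1
          rw [h7]
          norm_num
        rw [h3, sub_self, abs_zero]
        simp only [B]
        rw [if_neg hb]
        have := hpos Q 2
        linarith
      · have h1 := hin (fun h => hloc (hres.2 h))
        have h2 : H s Q = 0 := by
          simp only [H]
          rw [if_neg hloc]
        rw [h2, sub_zero, abs_of_nonneg hF0, hFs]
        simp only [B]
        rw [if_neg hb, zero_add]
        have h3 : ∀ P ∈ (hgf Q).toFinset, (nrm P : ℝ) ^ (-s) ≤ (nrm Q : ℝ) ^ (-(2 : ℝ)) := by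
          intro P hP
          have h5 : P ∈ g ⁻¹' {Q} := (hgf Q).mem_toFinset.1 hP
          rw [hg] at h5
          have h6 : nrm P = nrm Q ^ 2 := h1 P h5
          rw [h6, Nat.cast_pow, ← Real.rpow_natCast, ← Real.rpow_mul (Nat.cast_nonneg _)]
          refine Real.rpow_le_rpow_of_exponent_le ?_ ?_
          · exact_mod_cast hone Q
          · push_cast
            linarith
        refine (Finset.sum_le_card_nsmul _ _ _ h3).trans ?_
        rw [nsmul_eq_mul]
        exact mul_le_mul_of_nonneg_right (hcard Q) (hpos Q 2)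
  refine ⟨∑' Q, B Q, fun s hs hs2 => ?_⟩
  have e1 : ∑' P : HeightOneSpectrum (𝓞 L), (nrm P : ℝ) ^ (-s) = ∑' Q, F s Q :=
    ((summable_nrm (k := L) s hs).hasSum.tsum_fiberwise g).tsum_eq.symm
  have hFsum : Summable (F s) := ((summable_nrm (k := L) s hs).hasSum.tsum_fiberwise g).summable
  have e2 : 2 * ∑' Q : {Q : HeightOneSpectrum (𝓞 k) // LocSq Q (a : k)}, (nrm Q.1 : ℝ) ^ (-s) =
      ∑' Q, H s Q := by
    rw [← tsum_mul_left]
    have := tsum_subtype {Q : HeightOneSpectrum (𝓞 k) | LocSq Q (a : k)}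
      (fun Q => 2 * (nrm Q : ℝ) ^ (-s))
    refine this.trans (tsum_congr fun Q => ?_)
    simp only [H, Set.indicator_apply, Set.mem_ofPred_eq]
  have hHsum : Summable (H s) := by
    refine Summable.of_nonneg_of_le (fun Q => ?_) (fun Q => ?_)
      ((summable_nrm (k := k) s hs).mul_left 2)
    · simp only [H]
      have := hpos Q s
      split_ifs
      · linarith
      · exact le_rfl
    · simp only [H]
      have := hpos Q s
      split_ifs
      · exact le_rfl
      · linarith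
  rw [e1, e2, ← hFsum.tsum_sub hHsum, ← Real.norm_eq_abs]
  exact tsum_of_norm_bounded hB.hasSum fun Q => key s hs hs2 Q

end Pool.Agent.H98.MF
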