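import Pool.Agent.H98.MF.NClass

/-!
# MK4, block N: sums of periodic functions over all ideals (helper4)
-/

set_option autoImplicit false

open scoped BigOperators Pointwise NNReal nonZeroDivisors
open NumberField NumberField.mixedEmbedding NumberField.InfinitePlace MeasureTheory

namespace Pool.Agent.H98.MF

variable (K : Type) [Field K] [NumberField K]

theorem main_count (R : Finset (Ideal (𝓞 K))) (hR : Reps R) :
    ∃ C : ℝ, 0 ≤ C ∧ ∀ (M : Ideal (𝓞 K)), M ≠ ⊥ → ∀ F : Ideal (𝓞 K) → ℝ, (∀ I, |F I| ≤ 1) →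
      (∀ J ∈ R, PER J M F) → ∃ A : ℝ, ∀ (B : Ideal (𝓞 K)), B ≠ ⊥ → IsCoprime B M →
        ∀ X : ℝ, 1 ≤ X →
        |∑ᶠ I ∈ {I ∈ IdLe K X | B ∣ I}, F I - A * X / Ideal.absNorm B| ≤
          C * ((Ideal.absNorm B : ℝ) * Ideal.absNorm M) ^ (Module.finrank ℚ K + 1) *
            X ^ (1 - 1 / (Module.finrank ℚ K : ℝ)) := by
  classical
  have h := fun J : R => class_count K (J : Ideal (𝓞 K)) (hR.1 J J.2)
  choose C hC0 hC using h
  refine ⟨∑ J, C J, Finset.sum_nonneg fun J _ => hC0 J, ?_⟩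
  intro M hM F hF hP
  have h2 := fun J : R => hC J M hM F hF (hP J J.2)
  choose A hA using h2
  refine ⟨∑ J, A J, ?_⟩
  intro B hB hBM X hX
  have hset : {I ∈ IdLe K X | B ∣ I} =
      ⋃ J : R, {I ∈ IdLe K X | CoP (J : Ideal (𝓞 K)) I ∧ B ∣ I} := by
    ext I
    rw [Set.mem_iUnion]
    constructor
    · intro h
      obtain ⟨J, ⟨h3, h4⟩, -⟩ := hR.2 I h.1.1
      exact ⟨⟨J, h3⟩, h.1, h4, h.2⟩
    · rintro ⟨J, h3, -, h5⟩
      exact ⟨h3, h5⟩
  have hdis : Pairwise (Function.onFun Disjoint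
      fun J : R => {I ∈ IdLe K X | CoP (J : Ideal (𝓞 K)) I ∧ B ∣ I}) := by
    intro J J' hJ
    rw [Function.onFun, Set.disjoint_left]
    rintro I ⟨h3, h4, -⟩ ⟨-, h5, -⟩
    obtain ⟨J0, -, h6⟩ := hR.2 I h3.1
    apply hJ
    apply Subtype.ext
    rw [h6 J ⟨J.2, h4⟩, h6 J' ⟨J'.2, h5⟩]
  rw [hset, finsum_mem_iUnion hdis (fun J => (finite_IdLe K X).subset fun I h => h.1),
    finsum_eq_sum_of_fintype]
  have e1 : (∑ J, A J) * X / (Ideal.absNorm B : ℝ) = ∑ J, A J * X / (Ideal.absNorm B : ℝ) := by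
    rw [Finset.sum_mul, Finset.sum_div]
  rw [e1, ← Finset.sum_sub_distrib, Finset.sum_mul, Finset.sum_mul]
  refine (Finset.abs_sum_le_sum_abs _ _).trans (Finset.sum_le_sum fun J _ => ?_)
  exact hA J B hB hBM X hX

end Pool.Agent.H98.MF
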