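import Pool.Agent.H98.MF.NK

/-!
# Project MK4, block N: finite sets of primes with principal complement
-/

set_option autoImplicit false

open scoped BigOperators Pointwise NNReal nonZeroDivisors
open NumberField IsDedekindDomain

namespace Pool.Agent.H98.MF

variable {k : Type} [Field k] [NumberField k]

/-- for some finite set every prime outside is principal up to the set -/
theorem exists_PrS (T : Finset (HeightOneSpectrum (𝓞 k))) :
    ∃ S : Finset (HeightOneSpectrum (𝓞 k)), T ⊆ S ∧ PrS S := by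
  classical
  -- representatives of the ideal classes
  have hsurj : ∀ c : ClassGroup (𝓞 k), ∃ I : (Ideal (𝓞 k))⁰, ClassGroup.mk0 I = c :=
    ClassGroup.mk0_surjective
  choose I hI using hsurj
  have hfin : ∀ c : ClassGroup (𝓞 k), {P : HeightOneSpectrum (𝓞 k) |
      FractionalIdeal.count k P ((I c : Ideal (𝓞 k)) : FractionalIdeal (𝓞 k)⁰ k) ≠ 0}.Finite := by
    intro c
    have h := FractionalIdeal.finite_factors
      ((I c : Ideal (𝓞 k)) : FractionalIdeal (𝓞 k)⁰ k)
    simpa [Filter.eventually_cofinite] using h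
  refine ⟨T ∪ (Finset.univ : Finset (ClassGroup (𝓞 k))).biUnion fun c => (hfin c).toFinset,
    Finset.subset_union_left, fun P hP => ?_⟩
  have hcount : ∀ Q : HeightOneSpectrum (𝓞 k),
      Q ∉ T ∪ (Finset.univ : Finset (ClassGroup (𝓞 k))).biUnion (fun c => (hfin c).toFinset) →
      ∀ c, FractionalIdeal.count k Q ((I c : Ideal (𝓞 k)) : FractionalIdeal (𝓞 k)⁰ k) = 0 := by
    intro Q hQ c
    by_contra h
    exact hQ (Finset.mem_union_right _ (Finset.mem_biUnion.2
      ⟨c, Finset.mem_univ c, (Set.Finite.mem_toFinset _).2 h⟩))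
  have hPne : P.asIdeal ∈ (Ideal (𝓞 k))⁰ := mem_nonZeroDivisors_of_ne_zero P.ne_bot
  obtain ⟨c, hc⟩ : ∃ c : ClassGroup (𝓞 k), ClassGroup.mk0 ⟨P.asIdeal, hPne⟩ * c = 1 :=
    ⟨(ClassGroup.mk0 ⟨P.asIdeal, hPne⟩)⁻¹, mul_inv_cancel _⟩
  have h1 : ClassGroup.mk0 (⟨P.asIdeal, hPne⟩ * I c) = 1 := by
    rw [← hI c, ← map_mul] at hc
    exact hc
  have key : ∀ x : (Ideal (𝓞 k))⁰, ClassGroup.mk0 x = 1 → (x : Ideal (𝓞 k)).IsPrincipal :=
    fun x hx => (ClassGroup.mk0_eq_one_iff x.2).1 hx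
  have h2 := key _ h1
  rw [Submonoid.coe_mul] at h2
  obtain ⟨a, ha⟩ := h2
  have ha' : P.asIdeal * (I c : Ideal (𝓞 k)) = Ideal.span {a} := ha
  have hIne : (I c : Ideal (𝓞 k)) ≠ 0 := nonZeroDivisors.ne_zero (I c).2
  have hane : a ≠ 0 := by
    rintro rfl
    rw [Ideal.span_singleton_zero] at ha'
    exact (mul_ne_zero P.ne_bot hIne) ha'
  have hord : ∀ Q : HeightOneSpectrum (𝓞 k), ord Q (algebraMap (𝓞 k) k a) =
      FractionalIdeal.count k Q (P.asIdeal : FractionalIdeal (𝓞 k)⁰ k) +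
        FractionalIdeal.count k Q ((I c : Ideal (𝓞 k)) : FractionalIdeal (𝓞 k)⁰ k) := by
    intro Q
    unfold ord
    rw [← FractionalIdeal.coeIdeal_span_singleton, ← ha', FractionalIdeal.coeIdeal_mul,
      FractionalIdeal.count_mul k Q (FractionalIdeal.coeIdeal_ne_zero.2 P.ne_bot)
        (FractionalIdeal.coeIdeal_ne_zero.2 hIne)]
  refine ⟨algebraMap (𝓞 k) k a, ?_, ?_, ?_⟩
  · rw [Ne, FaithfulSMul.algebraMap_eq_zero_iff]
    exact hane
  · rw [hord, hcount P hP c, FractionalIdeal.count_self, add_zero]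
  · intro Q hQ hne
    rw [hord, hcount Q hQ c, FractionalIdeal.count_maximal_coprime k Q hne.symm, add_zero]

end Pool.Agent.H98.MF
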