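import Pool.Agent.H98.MF.NDefs

set_option autoImplicit false

open scoped BigOperators Pointwise NNReal nonZeroDivisors
open NumberField NumberField.mixedEmbedding NumberField.InfinitePlace MeasureTheory

namespace Pool.Agent.H98.MF

variable (K : Type) [Field K] [NumberField K]

private theorem normLeOne_symm (x : mixedSpace K) : x ∈ fundamentalCone.normLeOne K ↔
    (fun w ↦ ‖x.1 w‖, x.2) ∈ fundamentalCone.normLeOne K := by
  have h1 : ∀ w : InfinitePlace K, normAtPlace w x =
      normAtPlace w ((fun w ↦ ‖x.1 w‖, x.2) : mixedSpace K) := by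
    intro w
    rcases isReal_or_isComplex w with hw | hw
    · rw [normAtPlace_apply_of_isReal hw, normAtPlace_apply_of_isReal hw]
      simp
    · rw [normAtPlace_apply_of_isComplex hw, normAtPlace_apply_of_isComplex hw]
  rw [fundamentalCone.mem_normLeOne, fundamentalCone.mem_normLeOne,
    mixedEmbedding.norm_eq_of_normAtPlace_eq h1]
  constructor
  · rintro ⟨h2, h3⟩
    exact ⟨fundamentalCone.mem_of_normAtPlace_eq h2 (fun w => (h1 w).symm), h3⟩
  · rintro ⟨h2, h3⟩
    exact ⟨fundamentalCone.mem_of_normAtPlace_eq h2 h1, h3⟩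

private theorem mem_DN_iff (s : Set (RP K)) (y : mixedSpace K) : y ∈ DN K s ↔
    y ∈ fundamentalCone.normLeOne K ∧ ∀ w, w ∈ s ↔ y.1 w < 0 := by
  have hne : y ∈ fundamentalCone.normLeOne K → ∀ w : RP K, y.1 w ≠ 0 := by
    intro h w hw
    have h1 := fundamentalCone.normAtPlace_pos_of_mem ((fundamentalCone.mem_normLeOne (K := K)).1 h).1 w.1
    rw [normAtPlace_apply_of_isReal w.2] at h1
    rw [show y.1 ⟨w.1, w.2⟩ = 0 from hw, norm_zero] at h1
    exact lt_irrefl _ h1
  have hsub : y ∈ DN K s → y ∈ fundamentalCone.normLeOne K := by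
    rintro ⟨z, hz, rfl⟩
    have h1 : ∀ w : InfinitePlace K, normAtPlace w z = normAtPlace w (negAt s z) := fun w =>
      (normAtPlace_negAt s z w).symm
    have h2 := (fundamentalCone.mem_normLeOne (K := K)).1 hz.1
    rw [fundamentalCone.mem_normLeOne]
    refine ⟨fundamentalCone.mem_of_normAtPlace_eq h2.1 (fun w => (h1 w).symm), ?_⟩
    rw [norm_negAt]
    exact h2.2
  constructor
  · intro h
    refine ⟨hsub h, fun w => ?_⟩
    have h3 := (mem_negAt_plusPart_of_mem _ (normLeOne_symm K) (hsub h) (hne (hsub h))).1 h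
    constructor
    · exact h3.1 w
    · intro hw
      by_contra hws
      exact lt_asymm hw (h3.2 w hws)
  · rintro ⟨h, hs⟩
    refine (mem_negAt_plusPart_of_mem _ (normLeOne_symm K) h (hne h)).2 ⟨fun w hw => (hs w).1 hw,
      fun w hw => ?_⟩
    have h4 : ¬ y.1 w < 0 := fun h5 => hw ((hs w).2 h5)
    exact lt_of_le_of_ne (not_lt.1 h4) (hne h w).symm

theorem mem_smul_DN (s : Set (RP K)) (T : ℝ) (hT : 0 < T) (α : 𝓞 K) :
    mixedEmbedding K (α : K) ∈ T • DN K s ↔
      α ∈ Cone (T ^ Module.finrank ℚ K) ∧ sgnN α = s := by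
  rw [Set.mem_smul_set_iff_inv_smul_mem₀ hT.ne', mem_DN_iff, fundamentalCone.mem_normLeOne]
  have hTi : (0 : ℝ) < T⁻¹ := inv_pos.2 hT
  rw [fundamentalCone.smul_mem_iff_mem hTi.ne', mixedEmbedding.norm_smul, abs_of_pos hTi]
  have h1 : T⁻¹ ^ Module.finrank ℚ K * mixedEmbedding.norm (mixedEmbedding K (α : K)) ≤ 1 ↔
      mixedEmbedding.norm (mixedEmbedding K (α : K)) ≤ T ^ Module.finrank ℚ K := by
    rw [inv_pow, inv_mul_le_iff₀ (by positivity), mul_one]
  rw [h1]
  have h2 : (∀ w, w ∈ s ↔ (T⁻¹ • mixedEmbedding K (α : K)).1 w < 0) ↔ sgnN α = s := by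
    have h3 : ∀ w : RP K, (T⁻¹ • mixedEmbedding K (α : K)).1 w < 0 ↔
        (mixedEmbedding K (α : K)).1 w < 0 := by
      intro w
      change T⁻¹ * (mixedEmbedding K (α : K)).1 w < 0 ↔ _
      constructor
      · intro h
        by_contra h4
        exact absurd (mul_nonneg hTi.le (not_lt.1 h4)) (not_le.2 h)
      · intro h
        exact mul_neg_of_pos_of_neg hTi h
    constructor
    · intro h
      ext w
      rw [h w, h3 w]
      rfl
    · rintro rfl w
      rw [h3 w]
      rfl
  rw [h2]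
  rfl

end Pool.Agent.H98.MF
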