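import Pool.Agent.H98.MF.NCnt
import Pool.Agent.H98.MF.NSmul

/-!
# MK4, block N: counting in cosets of ideals (helper4)
-/

set_option autoImplicit false

open scoped BigOperators Pointwise NNReal nonZeroDivisors
open NumberField NumberField.mixedEmbedding NumberField.InfinitePlace MeasureTheory

namespace Pool.Agent.H98.MF

variable (K : Type) [Field K] [NumberField K]

private theorem card_rel (I : Ideal (𝓞 K)) (hI : I ≠ ⊥) :
    ((Ideal.span {((Ideal.absNorm I : ℕ) : 𝓞 K)}).toAddSubgroup.addSubgroupOf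
      I.toAddSubgroup).index = (Ideal.absNorm I) ^ (Module.finrank ℚ K - 1) := by
  have hn : Ideal.absNorm I ≠ 0 := fun h => hI (Ideal.absNorm_eq_zero_iff.1 h)
  have hle : (Ideal.span {((Ideal.absNorm I : ℕ) : 𝓞 K)}).toAddSubgroup ≤ I.toAddSubgroup := by
    have : Ideal.span {((Ideal.absNorm I : ℕ) : 𝓞 K)} ≤ I := by
      rw [Ideal.span_singleton_le_iff_mem]
      exact Ideal.absNorm_mem I
    exact this
  have h1 := AddSubgroup.relIndex_mul_index hle
  have h2 : I.toAddSubgroup.index = Ideal.absNorm I := by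
    rw [Ideal.absNorm_apply]
    rfl
  have h3 : (Ideal.span {((Ideal.absNorm I : ℕ) : 𝓞 K)}).toAddSubgroup.index =
      (Ideal.absNorm I) ^ (Module.finrank ℚ K) := by
    have h4 := Ideal.absNorm_span_natCast (S := 𝓞 K) (Ideal.absNorm I)
    rw [Ideal.absNorm_apply, RingOfIntegers.rank] at h4
    exact h4
  rw [h2, h3] at h1
  have hd : 0 < Module.finrank ℚ K := Module.finrank_pos
  have h5 : (Ideal.absNorm I) ^ (Module.finrank ℚ K) =
      (Ideal.absNorm I) ^ (Module.finrank ℚ K - 1) * Ideal.absNorm I := by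
    rw [← pow_succ, Nat.sub_add_cancel hd]
  rw [h5] at h1
  exact Nat.eq_of_mul_eq_mul_right (Nat.pos_of_ne_zero hn) h1

theorem coset_count :
    ∃ κ : ℝ, 0 < κ ∧ ∃ C : ℝ, 0 ≤ C ∧ ∀ (I : Ideal (𝓞 K)), I ≠ ⊥ →
      ∀ (a : 𝓞 K) (s : Set (RP K)) (X : ℝ), 1 ≤ X → (coset I a s X).Finite ∧
      |((coset I a s X).ncard : ℝ) - κ * X / Ideal.absNorm I| ≤
        C * (Ideal.absNorm I : ℝ) ^ Module.finrank ℚ K *
          X ^ (1 - 1 / (Module.finrank ℚ K : ℝ)) := by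
  classical
  obtain ⟨κ, hκ, C, hC⟩ := count_n K
  refine ⟨κ, hκ, 2 * |C|, by positivity, fun I hI a s X hX => ?_⟩
  have hd : 0 < Module.finrank ℚ K := Module.finrank_pos
  have hdR : (0 : ℝ) < (Module.finrank ℚ K : ℝ) := by exact_mod_cast hd
  have hn0 : Ideal.absNorm I ≠ 0 := fun h => hI (Ideal.absNorm_eq_zero_iff.1 h)
  have hn1 : 1 ≤ Ideal.absNorm I := Nat.one_le_iff_ne_zero.2 hn0
  have hidx := card_rel K I hI
  set d := Module.finrank ℚ K with hd_def
  set n := Ideal.absNorm I with hn_def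
  have hX0 : 0 < X := lt_of_lt_of_le one_pos hX
  set T := X ^ (1 / (d : ℝ)) with hT_def
  have hT1 : 1 ≤ T := Real.one_le_rpow hX (by positivity)
  have hT0 : 0 < T := lt_of_lt_of_le one_pos hT1
  have hTd : T ^ d = X := by
    rw [hT_def, ← Real.rpow_natCast, ← Real.rpow_mul hX0.le, one_div,
      inv_mul_cancel₀ hdR.ne', Real.rpow_one]
  have hTd1 : T ^ (d - 1) = X ^ (1 - 1 / (d : ℝ)) := by
    rw [hT_def, ← Real.rpow_natCast, ← Real.rpow_mul hX0.le, Nat.cast_sub hd, Nat.cast_one]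
    congr 1
    field_simp
  set N : AddSubgroup (𝓞 K) := (Ideal.span {((n : ℕ) : 𝓞 K)}).toAddSubgroup with hN
  set H : AddSubgroup (𝓞 K) := I.toAddSubgroup with hH
  set U := H ⧸ (N.addSubgroupOf H) with hU
  have hcardU : Nat.card U = n ^ (d - 1) := by
    rw [← hidx, AddSubgroup.index_eq_card]
  have : Finite U := by
    apply Nat.finite_of_card_ne_zero
    rw [hcardU]
    positivity
  have : Fintype U := Fintype.ofFinite U
  have hNI : ∀ β : 𝓞 K, (n : 𝓞 K) ∣ β → β ∈ I := by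
    intro β hβ
    obtain ⟨c, rfl⟩ := hβ
    exact I.mul_mem_right c (Ideal.absNorm_mem I)
  have hset : coset I a s X = ⋃ u : U, {α : 𝓞 K | (n : 𝓞 K) ∣ α - (a + ((u.out : H) : 𝓞 K)) ∧
      mixedEmbedding K (α : K) ∈ T • DN K s} := by
    ext α
    rw [Set.mem_iUnion]
    have h1 := mem_smul_DN K s T hT0 α
    rw [← hd_def, hTd] at h1
    constructor
    · rintro ⟨h2, h3, h4⟩
      refine ⟨QuotientAddGroup.mk (⟨α - a, h3⟩ : H), ?_, h1.2 ⟨h2, h4⟩⟩
      have h5 := QuotientAddGroup.mk_out_eq_add (N.addSubgroupOf H) (⟨α - a, h3⟩ : H)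
      obtain ⟨c, hc⟩ := h5
      have h6 : ((c : H) : 𝓞 K) ∈ N := c.2
      have h7 : (n : 𝓞 K) ∣ ((c : H) : 𝓞 K) := Ideal.mem_span_singleton.1 h6
      rw [hc]
      have h8 : α - (a + (((⟨α - a, h3⟩ : H) + (c : H) : H) : 𝓞 K)) = -((c : H) : 𝓞 K) := by
        rw [AddSubgroup.coe_add]
        ring
      rw [h8]
      exact (dvd_neg).2 h7
    · rintro ⟨u, h2, h3⟩
      obtain ⟨h4, h5⟩ := h1.1 h3
      refine ⟨h4, ?_, h5⟩
      have h6 : α - a = (α - (a + ((u.out : H) : 𝓞 K))) + ((u.out : H) : 𝓞 K) := by ring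
      rw [h6]
      exact I.add_mem (hNI _ h2) (u.out : H).2
  have hdis : Pairwise (Function.onFun Disjoint fun u : U =>
      {α : 𝓞 K | (n : 𝓞 K) ∣ α - (a + ((u.out : H) : 𝓞 K)) ∧
        mixedEmbedding K (α : K) ∈ T • DN K s}) := by
    intro u u' huu
    rw [Function.onFun, Set.disjoint_left]
    rintro α ⟨h2, -⟩ ⟨h3, -⟩
    apply huu
    have h4 : (n : 𝓞 K) ∣ -((u.out : H) : 𝓞 K) + ((u'.out : H) : 𝓞 K) := by
      have h5 := dvd_sub h2 h3
      have h6 : α - (a + ((u.out : H) : 𝓞 K)) - (α - (a + ((u'.out : H) : 𝓞 K))) =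
        -((u.out : H) : 𝓞 K) + ((u'.out : H) : 𝓞 K) := by ring
      rwa [h6] at h5
    rw [← QuotientAddGroup.out_eq' u, ← QuotientAddGroup.out_eq' u', QuotientAddGroup.eq]
    show ((-(u.out : H) + (u'.out : H) : H) : 𝓞 K) ∈ N
    rw [AddSubgroup.coe_add, AddSubgroup.coe_neg]
    exact Ideal.mem_span_singleton.2 h4
  have hfin := fun u : U => (hC n hn1 (a + ((u.out : H) : 𝓞 K)) s T hT0).1
  have hbd := fun u : U => (hC n hn1 (a + ((u.out : H) : 𝓞 K)) s T hT0).2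
  have hone : ∀ S : Set (𝓞 K), S.Finite → ∑ᶠ x ∈ S, (1 : ℝ) = S.ncard := by
    intro S hS
    rw [finsum_mem_eq_finite_toFinset_sum _ hS, Finset.sum_const, nsmul_eq_mul, mul_one,
      Set.ncard_eq_toFinset_card S hS]
  have hfinAll : (coset I a s X).Finite := by
    rw [hset]
    exact Set.finite_iUnion hfin
  refine ⟨hfinAll, ?_⟩
  have hcount : ((coset I a s X).ncard : ℝ) = ∑ u : U,
      (({α : 𝓞 K | (n : 𝓞 K) ∣ α - (a + ((u.out : H) : 𝓞 K)) ∧
        mixedEmbedding K (α : K) ∈ T • DN K s}.ncard : ℕ) : ℝ) := by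
    rw [← hone _ hfinAll, hset, finsum_mem_iUnion hdis hfin, finsum_eq_sum_of_fintype]
    exact Finset.sum_congr rfl fun u _ => hone _ (hfin u)
  have hnR : (0 : ℝ) < (n : ℝ) := by exact_mod_cast hn1
  have hn1R : (1 : ℝ) ≤ (n : ℝ) := by exact_mod_cast hn1
  have hmain : κ * X / (n : ℝ) = ∑ _u : U, κ * (T / n) ^ d := by
    rw [Finset.sum_const, Finset.card_univ, ← Nat.card_eq_fintype_card, hcardU, nsmul_eq_mul,
      div_pow, hTd]
    have h5 : (n : ℝ) ^ d = (n : ℝ) ^ (d - 1) * n := by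
      rw [← pow_succ, Nat.sub_add_cancel hd]
    rw [h5]
    push_cast
    field_simp
  rw [hcount, hmain, ← Finset.sum_sub_distrib]
  refine (Finset.abs_sum_le_sum_abs _ _).trans ?_
  have h6 : ∀ u ∈ (Finset.univ : Finset U),
      |(({α : 𝓞 K | (n : 𝓞 K) ∣ α - (a + ((u.out : H) : 𝓞 K)) ∧
        mixedEmbedding K (α : K) ∈ T • DN K s}.ncard : ℕ) : ℝ) - κ * (T / n) ^ d| ≤
      2 * |C| * T ^ (d - 1) := by
    intro u _
    refine (hbd u).trans ?_
    have h7 : (T / n) ^ (d - 1) ≤ T ^ (d - 1) :=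
      pow_le_pow_left₀ (by positivity) (div_le_self hT0.le hn1R) _
    have h8 : 1 ≤ T ^ (d - 1) := one_le_pow₀ hT1
    have h9 : 0 ≤ (T / n) ^ (d - 1) := by positivity
    calc C * (1 + (T / n) ^ (d - 1)) ≤ |C| * (1 + (T / n) ^ (d - 1)) :=
          mul_le_mul_of_nonneg_right (le_abs_self C) (by linarith)
      _ ≤ |C| * (2 * T ^ (d - 1)) := mul_le_mul_of_nonneg_left (by linarith) (abs_nonneg C)
      _ = 2 * |C| * T ^ (d - 1) := by ring
  refine (Finset.sum_le_sum h6).trans ?_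
  rw [Finset.sum_const, Finset.card_univ, ← Nat.card_eq_fintype_card, hcardU, nsmul_eq_mul,
    ← hTd1]
  push_cast
  have h10 : (n : ℝ) ^ (d - 1) ≤ (n : ℝ) ^ d := pow_le_pow_right₀ hn1R (Nat.sub_le _ _)
  have h11 : 0 ≤ 2 * |C| * T ^ (d - 1) := by positivity
  calc (n : ℝ) ^ (d - 1) * (2 * |C| * T ^ (d - 1)) ≤ (n : ℝ) ^ d * (2 * |C| * T ^ (d - 1)) :=
        mul_le_mul_of_nonneg_right h10 h11
    _ = 2 * |C| * (n : ℝ) ^ d * T ^ (d - 1) := by ring

end Pool.Agent.H98.MF
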