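import Pool.Agent.H98.MF.NFin

/-!
# MK4, block N: sums over ideals in a class and sums over integers of the cone (helper4)
-/

set_option autoImplicit false

open scoped BigOperators Pointwise NNReal nonZeroDivisors
open NumberField NumberField.mixedEmbedding NumberField.InfinitePlace MeasureTheory

namespace Pool.Agent.H98.MF

variable (K : Type) [Field K] [NumberField K]

private theorem norm_emb (α : 𝓞 K) : mixedEmbedding.norm (mixedEmbedding K (α : K)) =
    (Ideal.absNorm (Ideal.span {α}) : ℝ) := by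
  rw [norm_eq_norm, Ideal.absNorm_span_singleton, ← Algebra.coe_norm_int, Nat.cast_natAbs,
    Int.cast_abs, Rat.cast_abs, Rat.cast_intCast]

private theorem ne_zero_of_cone {α : 𝓞 K}
    (h : mixedEmbedding K (α : K) ∈ fundamentalCone K) : α ≠ 0 := by
  rintro rfl
  apply h.2
  simp

/-- a nonzero principal ideal has exactly `torsionOrder K` generators in the cone -/
private theorem card_gen (γ : 𝓞 K) (hγ : γ ≠ 0) :
    {α : 𝓞 K | mixedEmbedding K (α : K) ∈ fundamentalCone K ∧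
      Ideal.span {α} = Ideal.span {γ}}.ncard = Units.torsionOrder K := by
  have hn : mixedEmbedding.norm (mixedEmbedding K (γ : K)) ≠ 0 := by
    rw [norm_emb]
    have : Ideal.span {γ} ≠ ⊥ := by
      rwa [Ne, Ideal.span_singleton_eq_bot]
    exact_mod_cast fun h => this (Ideal.absNorm_eq_zero_iff.1 h)
  obtain ⟨u, hu⟩ := fundamentalCone.exists_unit_smul_mem hn
  have e1 : ∀ v : (𝓞 K)ˣ, v • mixedEmbedding K (γ : K) =
      mixedEmbedding K (((v : 𝓞 K) * γ : 𝓞 K) : K) := by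
    intro v
    rw [unitSMul_smul, ← map_mul]
    rfl
  have hset : {α : 𝓞 K | mixedEmbedding K (α : K) ∈ fundamentalCone K ∧
      Ideal.span {α} = Ideal.span {γ}} =
      (fun ζ : Units.torsion K => (((ζ : (𝓞 K)ˣ) * u : (𝓞 K)ˣ) : 𝓞 K) * γ) '' Set.univ := by
    ext α
    constructor
    · rintro ⟨h1, h2⟩
      rw [Ideal.span_singleton_eq_span_singleton] at h2
      obtain ⟨v, hv⟩ := h2.symm
      have h3 : (v * u⁻¹) • (u • mixedEmbedding K (γ : K)) ∈ fundamentalCone K := by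
        rw [smul_smul, inv_mul_cancel_right, e1, mul_comm, hv]
        exact h1
      rw [fundamentalCone.unit_smul_mem_iff_mem_torsion hu] at h3
      refine ⟨⟨v * u⁻¹, h3⟩, Set.mem_univ _, ?_⟩
      show ((v * u⁻¹ * u : (𝓞 K)ˣ) : 𝓞 K) * γ = α
      rw [inv_mul_cancel_right, mul_comm, hv]
    · rintro ⟨ζ, -, rfl⟩
      constructor
      · show mixedEmbedding K (((((ζ : (𝓞 K)ˣ) * u : (𝓞 K)ˣ) : 𝓞 K) * γ : 𝓞 K) : K) ∈ _
        rw [← e1, mul_smul]
        exact (fundamentalCone.unit_smul_mem_iff_mem_torsion hu _).2 ζ.2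
      · rw [Ideal.span_singleton_eq_span_singleton]
        refine Associated.symm ⟨(ζ : (𝓞 K)ˣ) * u, ?_⟩
        rw [mul_comm]
  rw [hset, Set.ncard_image_of_injective, Set.ncard_univ]
  · rfl
  · intro a b hab
    have h1 : (((a : (𝓞 K)ˣ) * u : (𝓞 K)ˣ) : 𝓞 K) = (((b : (𝓞 K)ˣ) * u : (𝓞 K)ˣ) : 𝓞 K) :=
      mul_right_cancel₀ hγ hab
    have h2 : (a : (𝓞 K)ˣ) * u = (b : (𝓞 K)ˣ) * u := Units.ext h1
    exact Subtype.ext (mul_right_cancel h2)

private theorem cof_eq {J : Ideal (𝓞 K)} (hJ : J ≠ ⊥) {α : 𝓞 K} {I : Ideal (𝓞 K)}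
    (h : Ideal.span {α} = I * J) : cof J α = I := by
  have hex : ∃ I : Ideal (𝓞 K), Ideal.span {α} = I * J := ⟨I, h⟩
  rw [cof, dif_pos hex]
  exact (mul_right_cancel₀ hJ (h.symm.trans hex.choose_spec)).symm

private theorem exists_cof {J : Ideal (𝓞 K)} {α : 𝓞 K} (h : α ∈ J) :
    ∃ I : Ideal (𝓞 K), Ideal.span {α} = I * J := by
  have h1 : J ∣ Ideal.span {α} := by
    rw [Ideal.dvd_span_singleton]
    exact h
  obtain ⟨I, hI⟩ := h1
  exact ⟨I, by rw [hI, mul_comm]⟩

theorem elem_sum (J : Ideal (𝓞 K)) (hJ : J ≠ ⊥) (G : Ideal (𝓞 K) → ℝ) (X : ℝ) :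
    (Units.torsionOrder K : ℝ) * ∑ᶠ I ∈ {I ∈ IdLe K X | CoP J I}, G I =
      ∑ᶠ α ∈ {α ∈ Cone (K := K) (X * Ideal.absNorm J) | α ∈ J}, G (cof J α) := by
  classical
  have hB : {I ∈ IdLe K X | CoP J I}.Finite := (finite_IdLe K X).subset fun I h => h.1
  have hA : {α ∈ Cone (K := K) (X * Ideal.absNorm J) | α ∈ J}.Finite :=
    (finite_Cone K _).subset fun α h => h.1
  have hNJ : 0 < (Ideal.absNorm J : ℝ) := by
    have : Ideal.absNorm J ≠ 0 := fun h => hJ (Ideal.absNorm_eq_zero_iff.1 h)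
    positivity
  rw [finsum_mem_eq_finite_toFinset_sum _ hB, finsum_mem_eq_finite_toFinset_sum _ hA]
  have hmaps : ∀ α ∈ hA.toFinset, cof J α ∈ hB.toFinset := by
    intro α hα
    rw [Set.Finite.mem_toFinset] at hα ⊢
    obtain ⟨⟨h1, h2⟩, h3⟩ := hα
    obtain ⟨I, hI⟩ := exists_cof K h3
    rw [cof_eq K hJ hI]
    have h4 := ne_zero_of_cone K h1
    refine ⟨⟨?_, ?_⟩, ⟨α, hI.symm⟩⟩
    · rintro rfl
      rw [Ideal.bot_mul, Ideal.span_singleton_eq_bot] at hI
      exact h4 hI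
    · rw [norm_emb, hI, map_mul, Nat.cast_mul] at h2
      exact le_of_mul_le_mul_right h2 hNJ
  rw [← Finset.sum_fiberwise_of_maps_to hmaps, Finset.mul_sum]
  apply Finset.sum_congr rfl
  intro I hI
  rw [Set.Finite.mem_toFinset] at hI
  obtain ⟨⟨h1, h2⟩, ⟨γ, h3⟩⟩ := hI
  have hγ : γ ≠ 0 := by
    rintro rfl
    rw [Ideal.span_singleton_zero, Ideal.mul_eq_bot] at h3
    exact h3.elim h1 hJ
  have e1 : ∀ α ∈ hA.toFinset.filter (fun α => cof J α = I), G (cof J α) = G I := by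
    intro α hα
    rw [(Finset.mem_filter.1 hα).2]
  rw [Finset.sum_congr rfl e1, Finset.sum_const, nsmul_eq_mul]
  have hcard : Units.torsionOrder K = (hA.toFinset.filter (fun α => cof J α = I)).card := by
    rw [← card_gen K γ hγ, ← Set.ncard_coe_finset]
    congr 1
    ext α
    rw [Finset.mem_coe, Finset.mem_filter, Set.Finite.mem_toFinset, Set.mem_ofPred_eq,
      Set.mem_ofPred_eq]
    constructor
    · rintro ⟨h4, h5⟩
      have h7 : α ∈ J := by
        have h6 : α ∈ I * J := by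
          rw [h3, ← h5]
          exact Ideal.mem_span_singleton_self α
        have h10 : I * J ≤ J := Ideal.mul_le_right
        exact h10 h6
      have h8 : mixedEmbedding.norm (mixedEmbedding K (α : K)) ≤ X * (Ideal.absNorm J : ℝ) := by
        rw [norm_emb, h5, ← h3, map_mul, Nat.cast_mul]
        exact mul_le_mul_of_nonneg_right h2 hNJ.le
      have h9 : cof J α = I := cof_eq K hJ (h5.trans h3.symm)
      exact And.intro (And.intro (And.intro h4 h8) h7) h9
    · rintro ⟨⟨⟨h4, _⟩, h5⟩, h6⟩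
      obtain ⟨I', hI'⟩ := exists_cof K h5
      rw [cof_eq K hJ hI'] at h6
      rw [h6] at hI'
      exact And.intro h4 (hI'.trans h3)
  rw [hcard]

end Pool.Agent.H98.MF
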