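import Mathlib

/-!
# Project MK4 (MP_a3214d), block N: definitions for the ideal counting
-/

set_option autoImplicit false

open scoped BigOperators Pointwise NNReal nonZeroDivisors
open NumberField NumberField.mixedEmbedding NumberField.InfinitePlace MeasureTheory

namespace Pool.Agent.H98.MF

/-- the set can be covered by `O(t^(-m))` closed balls of radius `t` -/
def Thin {E : Type} [PseudoMetricSpace E] (m : ℕ) (D : Set E) : Prop :=
  ∃ C : ℝ, ∀ t : ℝ, 0 < t → t ≤ 1 → ∃ A : Finset E,
    (A.card : ℝ) * t ^ m ≤ C ∧ D ⊆ ⋃ x ∈ A, Metric.closedBall x t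

/-- the closed cell with corner `y + t z` -/
def cellC {ι : Type} (y : ι → ℝ) (t : ℝ) (z : ι → ℤ) : Set (ι → ℝ) :=
  {x | ∀ i, y i + t * z i ≤ x i ∧ x i ≤ y i + t * (z i + 1)}

/-- the half open cell with corner `y + t z` -/
def cellO {ι : Type} (y : ι → ℝ) (t : ℝ) (z : ι → ℤ) : Set (ι → ℝ) :=
  {x | ∀ i, y i + t * z i ≤ x i ∧ x i < y i + t * (z i + 1)}

/-- the integral vectors `z` with `y + t z` in `D` -/
def lpts {ι : Type} (D : Set (ι → ℝ)) (y : ι → ℝ) (t : ℝ) : Set (ι → ℤ) :=
  {z | (fun i => y i + t * (z i : ℝ)) ∈ D}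

/-- the cells meeting the frontier of `D` -/
def bcells {ι : Type} (D : Set (ι → ℝ)) (y : ι → ℝ) (t : ℝ) : Set (ι → ℤ) :=
  {z | (cellC y t z ∩ frontier D).Nonempty}

section

variable (K : Type) [Field K] [NumberField K]

/-- real places -/
abbrev RP : Type := {w : InfinitePlace K // IsReal w}

open Classical in
/-- the parametrisation of the closure of the positive part of `normLeOne` -/
noncomputable def phiN (s : InfinitePlace K → ℝ) (θ : {w : InfinitePlace K // IsComplex w} → ℝ) :
    mixedSpace K :=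
  (fun w => s (NumberField.Units.dirichletUnitTheorem.w₀ (K := K)) *
      fundamentalCone.expMapBasis
        (Function.update s (NumberField.Units.dirichletUnitTheorem.w₀ (K := K)) 0) w.1,
   fun w => ((s (NumberField.Units.dirichletUnitTheorem.w₀ (K := K)) *
      fundamentalCone.expMapBasis
        (Function.update s (NumberField.Units.dirichletUnitTheorem.w₀ (K := K)) 0) w.1 : ℝ) : ℂ) *
      Complex.exp (2 * Real.pi * Complex.I * (θ w : ℂ)))

open Classical in
/-- the faces of the parametrisation -/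
noncomputable def faceN (w₁ : InfinitePlace K) (b : Bool)
    (x : ({w : InfinitePlace K // w ≠ w₁} ⊕ {w : InfinitePlace K // IsComplex w}) → ℝ) :
    mixedSpace K :=
  phiN K (fun w => if h : w = w₁ then (if b then 1 else 0) else x (Sum.inl ⟨w, h⟩))
    (fun w => x (Sum.inr w))

/-- the part of the fundamental domain of norm `≤ 1` with signs given by `s` -/
def DN (s : Set (RP K)) : Set (mixedSpace K) := negAt s '' (plusPart (fundamentalCone.normLeOne K))

variable {K}

/-- the set of real places where `α` is negative -/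
def sgnN (α : 𝓞 K) : Set (RP K) := {w | (mixedEmbedding K (α : K)).1 w < 0}

/-- the algebraic integers in the fundamental cone of norm at most `X` -/
def Cone (X : ℝ) : Set (𝓞 K) :=
  {α | mixedEmbedding K (α : K) ∈ fundamentalCone K ∧
    mixedEmbedding.norm (mixedEmbedding K (α : K)) ≤ X}

/-- the integers of the cone in a residue class with given signs -/
def coset (I : Ideal (𝓞 K)) (a : 𝓞 K) (s : Set (RP K)) (X : ℝ) : Set (𝓞 K) :=
  {α | α ∈ Cone X ∧ α - a ∈ I ∧ sgnN α = s}

/-- nonzero ideals of norm at most `X` -/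
def IdLe (K : Type) [Field K] [NumberField K] (X : ℝ) : Set (Ideal (𝓞 K)) :=
  {I | I ≠ ⊥ ∧ (Ideal.absNorm I : ℝ) ≤ X}

/-- `I * J` is principal -/
def CoP (J I : Ideal (𝓞 K)) : Prop := ∃ α : 𝓞 K, I * J = Ideal.span {α}

open Classical in
/-- the cofactor of `J` in the principal ideal of `α` -/
noncomputable def cof (J : Ideal (𝓞 K)) (α : 𝓞 K) : Ideal (𝓞 K) :=
  if h : ∃ I : Ideal (𝓞 K), Ideal.span {α} = I * J then h.choose else ⊥

/-- periodicity with respect to the class of `J` and the modulus `M` -/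
def PER (J M : Ideal (𝓞 K)) (F : Ideal (𝓞 K) → ℝ) : Prop :=
  ∀ α β : 𝓞 K, α ≠ 0 → β ≠ 0 → α ∈ J → α - β ∈ M * J → sgnN α = sgnN β →
    F (cof J α) = F (cof J β)

/-- one ideal in each class -/
def Reps (R : Finset (Ideal (𝓞 K))) : Prop :=
  (∀ J ∈ R, J ≠ ⊥) ∧ ∀ I : Ideal (𝓞 K), I ≠ ⊥ → ∃! J, J ∈ R ∧ CoP J I

end

end Pool.Agent.H98.MF
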