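import Pool.Agent.H98.MF.SPDefs
import Pool.Agent.H98.ML.FXSmall

/-!
# Project MK4 (MP_a3214d), row MF-P4: the expansion of the summand of `FX`
-/

set_option autoImplicit false

open scoped BigOperators
open Filter

namespace Pool.Agent.H98.MF

open Pool.Agent.H98.MK (sg)
open Pool.Agent.H98.ML (Dt Ext Wt fsK fs_B_sum)

/-! ### sums over pairs -/

theorem sx_sum_ord {ι : Type} [Fintype ι] (e : ι → ℕ) (he : Function.Injective e)
    (f : ι → ι → ZMod 2) (h : ∀ i, f i i = 0) :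
    ∑ i, ∑ j, f i j = ∑ i, ∑ j, (if e i < e j then f i j + f j i else 0) := by
  have h1 : ∀ i j, f i j = (if e i < e j then f i j else 0) + (if e j < e i then f i j else 0) := by
    intro i j
    rcases lt_trichotomy (e i) (e j) with h2 | h2 | h2
    · rw [if_pos h2, if_neg h2.le.not_gt, add_zero]
    · rw [he h2, h j]
      simp
    · rw [if_neg h2.le.not_gt, if_pos h2, zero_add]
  have h2 : ∀ i j, (if e i < e j then f i j + f j i else 0) =
      (if e i < e j then f i j else 0) + (if e i < e j then f j i else 0) := by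
    intro i j
    split_ifs
    · rfl
    · rw [add_zero]
  have h3 : (∑ i, ∑ j, (if e i < e j then f j i else 0)) =
      ∑ i, ∑ j, (if e j < e i then f i j else 0) := Finset.sum_comm
  simp only [h2, Finset.sum_add_distrib]
  rw [h3, ← Finset.sum_add_distrib]
  refine Finset.sum_congr rfl fun i _ => ?_
  rw [← Finset.sum_add_distrib]
  exact Finset.sum_congr rfl fun j _ => h1 i j

/-- the order of the indices -/
noncomputable def sxo (D : Dt) (i : D.P) : ℕ := Fintype.equivFin D.P i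

theorem sxo_inj (D : Dt) : Function.Injective (sxo D) := by
  intro i j h
  exact (Fintype.equivFin D.P).injective (Fin.ext h)

theorem sx_e_self (D : Dt) (i : D.P) : D.e i i = 0 := by
  unfold Dt.e Dt.B
  rw [Ext.two_Z, dotProduct_zero]

open Classical in
/-- the exponent of the reciprocity sign -/
noncomputable def sxE (F : Sys) (D : Dt) (u : D.P → F.T) : ZMod 2 :=
  ∑ i, ∑ j, if sxo D i < sxo D j ∧ D.e i j = 1 ∧ D.e j i = 1
    then (F.l ⬝ᵥ u i) * (F.l ⬝ᵥ u j) else 0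

theorem sx_jp (F : Sys) {ι : Type} [Fintype ι] (L : ι → ι → Prop) (x : ι → Finset F.P) :
    F.jp L x = (open Classical in sg (∑ i, ∑ j, if L i j then F.JJ (x i) (x j) else 0)) := by
  classical
  unfold Sys.jp
  rw [sg_sum]
  refine Finset.prod_congr rfl fun i _ => ?_
  rw [sg_sum]
  refine Finset.prod_congr rfl fun j _ => ?_
  split_ifs
  · rfl
  · rfl

theorem sx_sgn (F : Sys) {D : Dt} (x : D.P → Finset F.P) (hd : F.Dj x) :
    sg (∑ i, ∑ j, D.e i j * F.JJ (x i) (x j)) =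
      F.jp D.L x * sg (sxE F D fun i => F.tys (x i)) := by
  classical
  rw [sx_jp, ← sg_add]
  congr 1
  have h1 : ∀ i j, D.e i j * F.JJ (x i) (x j) = (if D.L i j then F.JJ (x i) (x j) else 0) +
      (if D.e i j = 1 ∧ D.e j i = 1 then F.JJ (x i) (x j) else 0) := by
    intro i j
    unfold Dt.L
    rcases zm2 (D.e i j) with h | h <;> rcases zm2 (D.e j i) with h' | h' <;> rw [h, h'] <;> simp
  have h2 := sx_sum_ord (sxo D) (sxo_inj D)
    (fun i j => if D.e i j = 1 ∧ D.e j i = 1 then F.JJ (x i) (x j) else 0)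
    (fun i => by
      show (if D.e i i = 1 ∧ D.e i i = 1 then F.JJ (x i) (x i) else 0) = 0
      rw [sx_e_self, if_neg (by decide)])
  simp only [h1, Finset.sum_add_distrib]
  rw [h2]
  congr 1
  unfold sxE
  refine Finset.sum_congr rfl fun i _ => Finset.sum_congr rfl fun j _ => ?_
  by_cases ho : sxo D i < sxo D j
  · by_cases he : D.e i j = 1 ∧ D.e j i = 1
    · rw [if_pos ho, if_pos he, if_pos ⟨he.2, he.1⟩, if_pos ⟨ho, he⟩]
      refine F.JJ_recip (hd i j ?_)
      rintro rfl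
      exact lt_irrefl _ ho
    · rw [if_pos ho, if_neg he, if_neg (fun h => he ⟨h.2, h.1⟩), if_neg (fun h => he h.2), add_zero]
  · rw [if_neg ho, if_neg (fun h => ho h.1)]

/-! ### Fourier inversion -/

theorem sx_char_sum {κ : Type} [Fintype κ] [DecidableEq κ] (w : κ → ZMod 2) :
    ∑ c : κ → ZMod 2, ((sg (c ⬝ᵥ w) : ℤ) : ℝ) = if w = 0 then 2 ^ Fintype.card κ else 0 := by
  have h1 : ∀ c : κ → ZMod 2, ((sg (c ⬝ᵥ w) : ℤ) : ℝ) = ∏ k, ((sg (c k * w k) : ℤ) : ℝ) := by
    intro c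
    unfold dotProduct
    rw [sg_sum, Int.cast_prod]
  have h2 : ∏ k, ∑ t : ZMod 2, ((sg (t * w k) : ℤ) : ℝ) =
      ∑ c : κ → ZMod 2, ∏ k, ((sg (c k * w k) : ℤ) : ℝ) := by
    rw [Finset.prod_univ_sum, Fintype.piFinset_univ]
  have h4 : ∀ t : ZMod 2, (∑ s : ZMod 2, ((sg (s * t) : ℤ) : ℝ)) = if t = 0 then 2 else 0 := by
    intro t
    have h5 : (∑ s : ZMod 2, (sg (s * t) : ℤ)) = if t = 0 then 2 else 0 := by
      revert t
      decide
    rw [← Int.cast_sum, h5]
    split_ifs <;> norm_num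
  rw [Finset.sum_congr rfl fun c _ => h1 c, ← h2]
  by_cases hw : w = 0
  · rw [if_pos hw, Finset.prod_congr rfl fun k _ => by rw [h4, hw, Pi.zero_apply, if_pos rfl],
      Finset.prod_const, Finset.card_univ]
  · rw [if_neg hw]
    obtain ⟨k, hk⟩ := Function.ne_iff.1 hw
    refine Finset.prod_eq_zero (Finset.mem_univ k) ?_
    rw [h4]
    exact if_neg hk

/-- the Fourier coefficients -/
noncomputable def sxF {κ : Type} [Fintype κ] [DecidableEq κ] (G : (κ → ZMod 2) → ℝ)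
    (c : κ → ZMod 2) : ℝ :=
  (1 / 2) ^ Fintype.card κ * ∑ u : κ → ZMod 2, G u * ((sg (c ⬝ᵥ u) : ℤ) : ℝ)

theorem sx_fourier {κ : Type} [Fintype κ] [DecidableEq κ] (G : (κ → ZMod 2) → ℝ)
    (u : κ → ZMod 2) : G u = ∑ c : κ → ZMod 2, sxF G c * ((sg (c ⬝ᵥ u) : ℤ) : ℝ) := by
  unfold sxF
  have h1 : ∀ c : κ → ZMod 2, (1 / 2 : ℝ) ^ Fintype.card κ *
      (∑ v : κ → ZMod 2, G v * ((sg (c ⬝ᵥ v) : ℤ) : ℝ)) * ((sg (c ⬝ᵥ u) : ℤ) : ℝ) =
      ∑ v : κ → ZMod 2, (1 / 2 : ℝ) ^ Fintype.card κ * G v * ((sg (c ⬝ᵥ (v + u)) : ℤ) : ℝ) := by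
    intro c
    rw [Finset.mul_sum, Finset.sum_mul]
    refine Finset.sum_congr rfl fun v _ => ?_
    rw [dotProduct_add, sg_add, Int.cast_mul]
    ring
  rw [Finset.sum_congr rfl fun c _ => h1 c, Finset.sum_comm]
  have h2 : ∀ v : κ → ZMod 2, (∑ c : κ → ZMod 2,
      (1 / 2 : ℝ) ^ Fintype.card κ * G v * ((sg (c ⬝ᵥ (v + u)) : ℤ) : ℝ)) =
      if v = u then G u else 0 := by
    intro v
    rw [← Finset.mul_sum, sx_char_sum]
    have h3 : v + u = 0 ↔ v = u := by
      rw [add_eq_zero_iff_eq_neg]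
      have h4 : -u = u := by
        funext k
        rw [Pi.neg_apply]
        exact CharTwo.neg_eq _
      rw [h4]
    by_cases h : v = u
    · rw [if_pos (h3.2 h), if_pos h, h]
      have h5 : ((1 / 2 : ℝ)) ^ Fintype.card κ * 2 ^ Fintype.card κ = 1 := by
        rw [← mul_pow]
        norm_num
      calc (1 / 2 : ℝ) ^ Fintype.card κ * G u * 2 ^ Fintype.card κ
          = ((1 / 2 : ℝ) ^ Fintype.card κ * 2 ^ Fintype.card κ) * G u := by ring
        _ = G u := by rw [h5, one_mul]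
    · rw [if_neg (fun h' => h (h3.1 h')), if_neg h, mul_zero]
  rw [Finset.sum_congr rfl fun v _ => h2 v, Finset.sum_ite_eq' Finset.univ u fun _ => G u,
    if_pos (Finset.mem_univ u)]

/-! ### the types -/

open Classical in
/-- the function of the types -/
noncomputable def sxG (F : Sys) (D : Dt) (u : D.P × Fin F.m → ZMod 2) : ℝ :=
  ((sg (sxE F D fun i k => u (i, k)) : ℤ) : ℝ) *
    if ∀ v : D.V, v ≠ 0 → ∑ i ∈ Finset.univ.filter (fun i : D.P => i.1.v = v),
      (fun k => u (i, k) : F.T) = 0 then 1 else 0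

theorem sx_tys_mP (F : Sys) {D : Dt} (x : D.P → Finset F.P) (hd : F.Dj x) (v : D.V)
    (hv : v ≠ 0) : F.tys (F.mP x v) =
      (open Classical in ∑ i ∈ Finset.univ.filter (fun i : D.P => i.1.v = v), F.tys (x i)) := by
  classical
  unfold Sys.mP
  rw [if_neg hv]
  exact F.tys_biUnion _ _ fun i _ j _ hij => hd i j hij

open Classical in
theorem sx_types (F : Sys) {D : Dt} (x : D.P → Finset F.P) (hd : F.Dj x) :
    ((sg (∑ i, ∑ j, D.e i j * F.JJ (x i) (x j)) : ℤ) : ℝ) *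
      (if ∀ v : D.V, F.tys (F.mP x v) = 0 then 1 else 0) =
    ∑ c : D.P × Fin F.m → ZMod 2, sxF (sxG F D) c *
      (((∏ i : D.P, F.ps (fun k => c (i, k)) (x i) : ℤ) : ℝ) * (F.jp D.L x : ℝ)) := by
  have h1 := sx_fourier (sxG F D) fun a => F.tys (x a.1) a.2
  have h2 : ∀ c : D.P × Fin F.m → ZMod 2,
      sg (c ⬝ᵥ fun a => F.tys (x a.1) a.2) = ∏ i : D.P, F.ps (fun k => c (i, k)) (x i) := by
    intro c
    unfold Sys.ps
    rw [← sg_sum]
    congr 1
    unfold dotProduct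
    exact Fintype.sum_prod_type _
  have h3 : sxG F D (fun a => F.tys (x a.1) a.2) =
      ((sg (sxE F D fun i => F.tys (x i)) : ℤ) : ℝ) *
      (if ∀ v : D.V, F.tys (F.mP x v) = 0 then 1 else 0) := by
    unfold sxG
    congr 1
    have h4 : (∀ v : D.V, v ≠ 0 → ∑ i ∈ Finset.univ.filter (fun i : D.P => i.1.v = v),
        (fun k => F.tys (x i) k : F.T) = 0) ↔ ∀ v : D.V, F.tys (F.mP x v) = 0 := by
      constructor
      · intro h v
        by_cases hv : v = 0
        · unfold Sys.mP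
          rw [if_pos hv]
          rfl
        · rw [sx_tys_mP F x hd v hv]
          exact h v hv
      · intro h v hv
        rw [← h v, sx_tys_mP F x hd v hv]
    by_cases h5 : ∀ v : D.V, F.tys (F.mP x v) = 0
    · rw [if_pos h5]
      exact if_pos (h4.2 h5)
    · rw [if_neg h5]
      exact if_neg fun h => h5 (h4.1 h)
  rw [h3] at h1
  rw [sx_sgn F x hd, Int.cast_mul, mul_assoc, h1, Finset.mul_sum]
  refine Finset.sum_congr rfl fun c _ => ?_
  rw [h2]
  ring

/-! ### the residue conditions at the auxiliary primes -/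

theorem sx_JJ_single (F : Sys) {D : Dt} (π : Pr F D) (x : Finset F.P) (k : Fin D.r) :
    F.JJ x {π.p k} = F.frobs π x k := by
  unfold Sys.JJ Sys.frobs Sys.frob
  rw [Finset.sum_apply]
  refine Finset.sum_congr rfl fun p _ => ?_
  rw [Finset.sum_singleton]

theorem sx_frobs_mP (F : Sys) {D : Dt} (π : Pr F D) (x : D.P → Finset F.P) (hd : F.Dj x)
    (v : D.V) : F.frobs π (F.mP x v) =
      (open Classical in if v = 0 then 0 else
        ∑ i ∈ Finset.univ.filter (fun i : D.P => i.1.v = v), F.frobs π (x i)) := by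
  classical
  unfold Sys.mP
  by_cases hv : v = 0
  · rw [if_pos hv, if_pos hv]
    rfl
  · rw [if_neg hv, if_neg hv]
    unfold Sys.frobs
    exact Finset.sum_biUnion fun i _ j _ hij => hd i j hij

open Classical in
theorem sx_T (F : Sys) {D : Dt} (π : Pr F D) (x : D.P → Finset F.P) (hd : F.Dj x)
    (T : Finset (D.V × Fin D.r)) :
    ∑ a ∈ T, F.frobs π (F.mP x a.1) a.2 =
      ∑ i : D.P, ∑ k, if i.1.v ≠ 0 ∧ (i.1.v, k) ∈ T then F.frobs π (x i) k else 0 := by
  have h1 : ∑ a ∈ T, F.frobs π (F.mP x a.1) a.2 =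
      ∑ v : D.V, ∑ k, if (v, k) ∈ T then F.frobs π (F.mP x v) k else 0 := by
    rw [← Fintype.sum_prod_type (fun a : D.V × Fin D.r =>
      if a ∈ T then F.frobs π (F.mP x a.1) a.2 else 0), Finset.sum_ite_mem, Finset.univ_inter]
  have h2 : (∑ i : D.P, ∑ k, if i.1.v ≠ 0 ∧ (i.1.v, k) ∈ T then F.frobs π (x i) k else 0) =
      ∑ v : D.V, ∑ i ∈ Finset.univ.filter (fun i : D.P => i.1.v = v),
        ∑ k, if i.1.v ≠ 0 ∧ (i.1.v, k) ∈ T then F.frobs π (x i) k else 0 :=
    (Finset.sum_fiberwise Finset.univ (fun i : D.P => i.1.v) _).symm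
  rw [h1, h2]
  refine Finset.sum_congr rfl fun v _ => ?_
  rw [Finset.sum_comm]
  refine Finset.sum_congr rfl fun k _ => ?_
  rw [sx_frobs_mP F π x hd v]
  by_cases hv : v = 0
  · rw [if_pos hv]
    symm
    have h3 : ∀ i ∈ Finset.univ.filter (fun i : D.P => i.1.v = v),
        (if i.1.v ≠ 0 ∧ (i.1.v, k) ∈ T then F.frobs π (x i) k else 0) = 0 := by
      intro i hi
      rw [Finset.mem_filter] at hi
      rw [if_neg]
      rintro ⟨h4, -⟩
      exact h4 (hi.2.trans hv)
    rw [Finset.sum_eq_zero h3]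
    split_ifs <;> rfl
  · rw [if_neg hv]
    by_cases hT : (v, k) ∈ T
    · rw [if_pos hT, Finset.sum_apply]
      refine Finset.sum_congr rfl fun i hi => ?_
      rw [Finset.mem_filter] at hi
      rw [if_pos]
      rw [hi.2]
      exact ⟨hv, hT⟩
    · rw [if_neg hT]
      symm
      refine Finset.sum_eq_zero fun i hi => ?_
      rw [Finset.mem_filter] at hi
      rw [if_neg]
      rw [hi.2]
      exact fun h => hT h.2

open Classical in
theorem sx_sgn2 (F : Sys) {D : Dt} (π : Pr F D) (x : D.P → Finset F.P) :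
    ∑ i : D.P, i.2 ⬝ᵥ D.B i.1.v (F.frobs π (x i)) =
      ∑ i : D.P, ∑ k, if i.2 ⬝ᵥ D.B i.1.v (Pi.single k 1) = 1 then F.frobs π (x i) k else 0 := by
  refine Finset.sum_congr rfl fun i _ => ?_
  rw [fs_B_sum, dotProduct_sum]
  refine Finset.sum_congr rfl fun k _ => ?_
  rw [dotProduct_smul, smul_eq_mul]
  rcases zm2 (i.2 ⬝ᵥ D.B i.1.v (Pi.single k 1)) with h | h
  · rw [h, mul_zero, if_neg (by decide)]
  · rw [h, mul_one, if_pos rfl]

open Classical in
/-- the residue conditions at the auxiliary primes together with the signs -/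
theorem sx_res (F : Sys) {D : Dt} (π : Pr F D) (x : D.P → Finset F.P) (hd : F.Dj x) :
    (if ∀ v : D.V, F.frobs π (F.mP x v) = 0 then (1 : ℝ) else 0) *
      ((sg (∑ i : D.P, i.2 ⬝ᵥ D.B i.1.v (F.frobs π (x i))) : ℤ) : ℝ) =
    ∑ T : Finset (D.V × Fin D.r), (1 / 2 : ℝ) ^ (Fintype.card (D.V × Fin D.r)) *
      ((∏ i : D.P, ∏ k, if fsK T i k then F.jj (x i) {π.p k} else 1 : ℤ) : ℝ) := by
  have h1 : (if ∀ v : D.V, F.frobs π (F.mP x v) = 0 then (1 : ℝ) else 0) =
      ∏ a : D.V × Fin D.r, ((1 / 2 : ℝ) * (1 + ((sg (F.frobs π (F.mP x a.1) a.2) : ℤ) : ℝ))) := by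
    by_cases h : ∀ v : D.V, F.frobs π (F.mP x v) = 0
    · rw [if_pos h]
      symm
      refine Finset.prod_eq_one fun a _ => ?_
      rw [h a.1, Pi.zero_apply, sg_zero]
      norm_num
    · rw [if_neg h]
      push Not at h
      obtain ⟨v, hk⟩ := h
      obtain ⟨k, hk⟩ := Function.ne_iff.1 hk
      symm
      refine Finset.prod_eq_zero (Finset.mem_univ (v, k)) ?_
      rcases zm2 (F.frobs π (F.mP x v) k) with h2 | h2
      · exact absurd h2 hk
      · simp only [h2]
        rw [sg_one]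
        norm_num
  rw [h1, Finset.prod_mul_distrib, Finset.prod_const, Finset.card_univ, Finset.prod_one_add,
    Finset.mul_sum, Finset.sum_mul, Finset.powerset_univ]
  refine Finset.sum_congr rfl fun T _ => ?_
  rw [mul_assoc]
  congr 1
  have h2 : (∏ a ∈ T, ((sg (F.frobs π (F.mP x a.1) a.2) : ℤ) : ℝ)) =
      ((sg (∑ a ∈ T, F.frobs π (F.mP x a.1) a.2) : ℤ) : ℝ) := by
    rw [sg_sum]
    push_cast
    rfl
  rw [h2, ← Int.cast_mul, ← sg_add, sx_T F π x hd T, sx_sgn2 F π x, ← Finset.sum_add_distrib,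
    sg_sum]
  congr 1
  refine Finset.prod_congr rfl fun i _ => ?_
  rw [← Finset.sum_add_distrib, sg_sum]
  refine Finset.prod_congr rfl fun k _ => ?_
  unfold fsK Sys.jj
  rw [sx_JJ_single]
  have hc : F.frobs π (x i) k + F.frobs π (x i) k = 0 := CharTwo.add_self_eq_zero _
  by_cases hA : i.1.v ≠ 0 ∧ (i.1.v, k) ∈ T
  · by_cases hB : i.2 ⬝ᵥ D.B i.1.v (Pi.single k 1) = 1
    · rw [if_pos hA, if_pos hB, if_neg (fun h => h (iff_of_true hA hB)), hc, sg_zero]
    · rw [if_pos hA, if_neg hB, if_pos (fun h => hB (h.1 hA)), add_zero]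
  · by_cases hB : i.2 ⬝ᵥ D.B i.1.v (Pi.single k 1) = 1
    · rw [if_neg hA, if_pos hB, if_pos (fun h => hA (h.2 hB)), zero_add]
    · rw [if_neg hA, if_neg hB, if_neg (fun h => h (iff_of_false hA hB)), add_zero, sg_zero]

end Pool.Agent.H98.MF
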