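import Pool.Agent.H98.MF.MDefs
import Pool.Agent.H98.ML.HomParam2

/-!
# Project MK4 (MP_a3214d), row M2: homomorphisms to `Ext D` over a number field, the part
independent of Kummer theory
-/

set_option autoImplicit false

open scoped BigOperators Pointwise
open NumberField IsDedekindDomain Filter

namespace Pool.Agent.H98.MF

open Pool.Agent.H98.MK (sg)
open Pool.Agent.H98.ML (Dt Ext Wt norb hind)

namespace Frm

variable {k : Type} [Field k] [NumberField k] (F : Frm k)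

theorem lh_lc {D : Dt} {x : F.I →₀ D.V} {f : Gm k → D.Z} (h : F.IsLift D x f) :
    IsLocallyConstant (lh h) :=
  IsLocallyConstant.comp₂ (F.par_lc x) h.lc (fun a b => (⟨a, b⟩ : Ext D))

theorem hom_param_of (D : Dt)
    (hpe : ∀ h : Gm k → (Fin D.r → ZMod 2), IsLocallyConstant h →
      (∀ σ τ, h (σ * τ) = h σ + h τ) → ∃ x : F.I →₀ (Fin D.r → ZMod 2), h = F.par x)
    (ρ : Gm k →* Ext D) (hρ : IsLocallyConstant ρ) :
    ∃ (x : F.I →₀ D.V) (f : Gm k → D.Z) (h : F.IsLift D x f), ρ = lh h := by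
  obtain ⟨x, hxf⟩ := hpe (fun σ => (ρ σ).v) (hρ.comp (fun y => y.v))
    (fun σ τ => by rw [map_mul]; rfl)
  have hx2 : ∀ σ, F.par x σ = (ρ σ).v := fun σ => (congrFun hxf σ).symm
  have h : F.IsLift D x (fun σ => (ρ σ).z) := by
    refine ⟨hρ.comp (fun y => y.z), fun σ τ => ?_⟩
    rw [map_mul, hx2, hx2]
    rfl
  refine ⟨x, fun σ => (ρ σ).z, h, ?_⟩
  apply MonoidHom.ext
  intro σ
  apply Ext.ext
  · exact (hx2 σ).symm
  · rfl

theorem lh_inj_of {D : Dt} (hpi : ∀ x y : F.I →₀ (Fin D.r → ZMod 2), F.par x = F.par y → x = y)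
    {x x' : F.I →₀ D.V} {f f' : Gm k → D.Z} (h : F.IsLift D x f)
    (h' : F.IsLift D x' f') (he : lh h = lh h') : x = x' ∧ f = f' := by
  have h1 : ∀ σ, (⟨F.par x σ, f σ⟩ : Ext D) = ⟨F.par x' σ, f' σ⟩ := fun σ =>
    DFunLike.congr_fun he σ
  refine ⟨hpi x x' (funext fun σ => congrArg Ext.v (h1 σ)), funext fun σ => ?_⟩
  exact congrArg Ext.z (h1 σ)

theorem lift_diff_of {D : Dt}
    (hpe : ∀ h : Gm k → (Fin D.s → ZMod 2), IsLocallyConstant h →
      (∀ σ τ, h (σ * τ) = h σ + h τ) → ∃ x : F.I →₀ (Fin D.s → ZMod 2), h = F.par x)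
    {x : F.I →₀ D.V} {f f' : Gm k → D.Z} (h : F.IsLift D x f)
    (h' : F.IsLift D x f') : ∃ z : F.I →₀ D.Z, ∀ σ, f' σ = f σ + F.par z σ := by
  obtain ⟨z, hzf⟩ := hpe (fun σ => f σ + f' σ)
    (IsLocallyConstant.comp₂ h.lc h'.lc (fun a b => a + b)) (fun σ τ => by
      have h1 := Pool.Agent.H98.ML.l1_two (D.β (F.par x σ) (F.par x τ))
      calc f (σ * τ) + f' (σ * τ)
          = (f σ + f' σ) + (f τ + f' τ) +
            (D.β (F.par x σ) (F.par x τ) + D.β (F.par x σ) (F.par x τ)) := by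
              rw [h.hom, h'.hom]; abel
        _ = (f σ + f' σ) + (f τ + f' τ) := by rw [h1, add_zero])
  refine ⟨z, fun σ => ?_⟩
  rw [← congrFun hzf σ, ← add_assoc, Pool.Agent.H98.ML.l1_two, zero_add]

theorem ker_index {D : Dt} (ρ : Gm k →* Ext D) : ∃ j, ρ.ker.index = 2 ^ j := by
  have h1 : ρ.ker.index ∣ 2 ^ (D.r + D.s) := by
    rw [Subgroup.index_ker]
    have h2 := Subgroup.card_subgroup_dvd_card ρ.range
    rw [Pool.Agent.H98.ML.card_ext D] at h2
    exact h2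
  obtain ⟨j, -, hj⟩ := (Nat.dvd_prime_pow Nat.prime_two).1 h1
  exact ⟨j, hj⟩

theorem lh_surj_iff_par {D : Dt} {x : F.I →₀ D.V} {f : Gm k → D.Z} (h : F.IsLift D x f) :
    Function.Surjective (lh h) ↔ Function.Surjective (F.par x) := by
  constructor
  · intro hs v
    obtain ⟨σ, hσ⟩ := hs ⟨v, 0⟩
    exact ⟨σ, congrArg Ext.v hσ⟩
  · intro hs
    rw [← MonoidHom.range_eq_top]
    refine Pool.Agent.H98.ML.l1_top _ fun v => ?_
    obtain ⟨σ, hσ⟩ := hs v
    refine ⟨f σ, ⟨σ, ?_⟩⟩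
    apply Ext.ext
    · exact hσ
    · rfl

theorem lh_surj_of {D : Dt}
    (hps : ∀ x : F.I →₀ (Fin D.r → ZMod 2), Function.Surjective (F.par x) ↔
      Submodule.span (ZMod 2) (Set.range x) = ⊤)
    {x : F.I →₀ D.V} {f : Gm k → D.Z} (h : F.IsLift D x f) :
    Function.Surjective (lh h) ↔ Submodule.span (ZMod 2) (Set.range x) = ⊤ :=
  (F.lh_surj_iff_par h).trans (hps x)

end Frm

end Pool.Agent.H98.MF
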