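import Pool.Agent.H98.ML.Defs

/-!
# Project MK4 (MP_a3214d), block SYS: systems of primes with quadratic symbols
-/

set_option autoImplicit false

open scoped BigOperators

namespace Pool.Agent.H98.MF

open Pool.Agent.H98.MK (sg)
open Pool.Agent.H98.ML (Dt Ext Wt)

/-- a set of primes with norms -/
structure Pre where
  /-- the primes -/
  P : Type
  /-- the norm -/
  N : P → ℕ
  two_le : ∀ p, 2 ≤ N p
  fin : ∀ X : ℕ, {p : P | N p ≤ X}.Finite

namespace Pre

variable (S : Pre)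

noncomputable instance : DecidableEq S.P := Classical.decEq _

/-- primes of norm at most `X` -/
noncomputable def pr (X : ℝ) : Finset S.P := (S.fin ⌊X⌋₊).toFinset

theorem mem_pr {X : ℝ} (hX : 0 ≤ X) {p : S.P} : p ∈ S.pr X ↔ (S.N p : ℝ) ≤ X := by
  unfold pr
  rw [Set.Finite.mem_toFinset]
  exact Nat.le_floor_iff hX

/-- the norm of a finite set of primes -/
noncomputable def nm (x : Finset S.P) : ℕ := ∏ p ∈ x, S.N p

/-- finite sets of primes of norm at most `t` -/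
noncomputable def bx (t : ℝ) : Finset (Finset S.P) :=
  (S.pr t).powerset.filter fun x => (S.nm x : ℝ) ≤ t

/-- the norm of an ideal -/
noncomputable def nf (f : S.P →₀ ℕ) : ℕ := f.prod fun p k => S.N p ^ k

theorem one_le_N (p : S.P) : 1 ≤ S.N p := (S.two_le p).trans' (by norm_num)

theorem nf_pos (f : S.P →₀ ℕ) : 0 < S.nf f :=
  Finset.prod_pos fun p _ => pow_pos (S.one_le_N p) _

theorem pow_le_nf (f : S.P →₀ ℕ) (p : S.P) : S.N p ^ f p ≤ S.nf f := by
  by_cases hp : p ∈ f.support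
  · unfold nf Finsupp.prod
    exact Finset.single_le_prod' (f := fun p => S.N p ^ f p)
      (fun q _ => Nat.one_le_pow _ _ (S.one_le_N q)) hp
  · rw [Finsupp.notMem_support_iff.1 hp, pow_zero]
    exact S.nf_pos f

theorem finite_nf (X : ℝ) : {f : S.P →₀ ℕ | (S.nf f : ℝ) ≤ X}.Finite := by
  classical
  rcases lt_or_ge X 0 with hX | hX
  · refine Set.Finite.subset Set.finite_empty fun f hf => ?_
    have h1 : (0 : ℝ) ≤ S.nf f := Nat.cast_nonneg _
    have h2 : (S.nf f : ℝ) ≤ X := hf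
    linarith
  refine Set.Finite.subset (Finset.finite_toSet
    ((S.pr X).finsupp fun _ => Finset.range (⌊X⌋₊ + 1))) fun f hf => ?_
  have hf1 : (S.nf f : ℝ) ≤ X := hf
  have hf2 : S.nf f ≤ ⌊X⌋₊ := Nat.le_floor hf1
  rw [Finset.mem_coe, Finset.mem_finsupp_iff]
  have h3 : ∀ p, f p ≤ ⌊X⌋₊ := fun p => by
    have h4 : f p < S.N p ^ f p := Nat.lt_pow_self (S.two_le p)
    exact (h4.le.trans (S.pow_le_nf f p)).trans hf2
  refine ⟨fun p hp => ?_, fun p _ => Finset.mem_range.2 (Nat.lt_succ_of_le (h3 p))⟩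
  rw [S.mem_pr hX]
  have h5 : f p ≠ 0 := Finsupp.mem_support_iff.1 (Finset.mem_coe.1 hp)
  have h6 : S.N p ≤ S.N p ^ f p := Nat.le_self_pow h5 _
  exact le_trans (by exact_mod_cast h6.trans (S.pow_le_nf f p)) hf1

/-- ideals of norm at most `X` -/
noncomputable def idl (X : ℝ) : Finset (S.P →₀ ℕ) := (S.finite_nf X).toFinset

theorem mem_idl {X : ℝ} {f : S.P →₀ ℕ} : f ∈ S.idl X ↔ (S.nf f : ℝ) ≤ X := by
  unfold idl
  rw [Set.Finite.mem_toFinset]
  rfl

/-- the completely multiplicative function attached to `g`, zero on ideals meeting `y` -/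
noncomputable def chv (y : Finset S.P) (g : S.P → ZMod 2) (f : S.P →₀ ℕ) : ℤ :=
  if Disjoint f.support y then sg (f.sum fun p k => (k : ZMod 2) * g p) else 0

/-- the value at a prime of the same function -/
noncomputable def chp (y : Finset S.P) (g : S.P → ZMod 2) (p : S.P) : ℤ :=
  if p ∈ y then 0 else sg (g p)

end Pre

/-- systems of primes with quadratic symbols: `J p q` is the symbol of the generator of `p`
at `q`, `ty p` the symbols of the `S`-units at `p`, `l` the class of `-1` -/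
structure Sys extends Pre where
  /-- the number of `S`-units modulo squares -/
  m : ℕ
  /-- the symbols of the units -/
  ty : P → (Fin m → ZMod 2)
  /-- the coordinates of `-1` -/
  l : Fin m → ZMod 2
  /-- the symbols of the primes -/
  J : P → P → ZMod 2
  recip : ∀ p q, p ≠ q → J p q + J q p = (l ⬝ᵥ ty p) * (l ⬝ᵥ ty q)
  /-- density -/
  κ : ℝ
  /-- constant -/
  C : ℝ
  /-- exponent of the modulus -/
  A : ℝ
  /-- saving -/
  δ : ℝ
  κ_pos : 0 < κ
  C_nonneg : 0 ≤ C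
  A_nonneg : 0 ≤ A
  δ_pos : 0 < δ
  δ_le : δ ≤ 1
  cnt : ∀ X : ℝ, 1 ≤ X → |((toPre.idl X).card : ℝ) - κ * X| ≤ C * X ^ (1 - δ)
  chr : ∀ (y : Finset P) (c : Fin m → ZMod 2), (y.Nonempty ∨ c ≠ 0) → ∀ X : ℝ, 1 ≤ X →
    |∑ f ∈ toPre.idl X, (toPre.chv y (fun p => ∑ q ∈ y, J q p + c ⬝ᵥ ty p) f : ℝ)| ≤
      C * (toPre.nm y : ℝ) ^ A * X ^ (1 - δ)
  prm0 : ∃ K : ℝ, ∀ s : ℝ, 1 < s → s ≤ 2 →
    |∑' p : P, (N p : ℝ) ^ (-s) - Real.log (1 / (s - 1))| ≤ K
  prm : ∀ (y : Finset P) (c : Fin m → ZMod 2), (y.Nonempty ∨ c ≠ 0) →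
    ∃ K : ℝ, ∀ s : ℝ, 1 < s → s ≤ 2 →
      |∑' p : P, (toPre.chp y (fun p => ∑ q ∈ y, J q p + c ⬝ᵥ ty p) p : ℝ) *
        (N p : ℝ) ^ (-s)| ≤ K

namespace Sys

variable (F : Sys)

/-- types -/
abbrev T : Type := Fin F.m → ZMod 2

/-- the symbol of `-1` -/
def lam (p : F.P) : ZMod 2 := F.l ⬝ᵥ F.ty p

/-- the exponent of the character of `(y, c)` at `p` -/
def ex (y : Finset F.P) (c : F.T) (p : F.P) : ZMod 2 := ∑ q ∈ y, F.J q p + c ⬝ᵥ F.ty p

/-- the exponent of the symbol of `y` at `x` -/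
def JJ (x y : Finset F.P) : ZMod 2 := ∑ p ∈ x, ∑ q ∈ y, F.J q p

/-- the symbol of `y` at `x` -/
def jj (x y : Finset F.P) : ℤ := sg (F.JJ x y)

/-- the type of a finite set of primes -/
def tys (x : Finset F.P) : F.T := ∑ p ∈ x, F.ty p

/-- the one-variable characters -/
def ps (c : F.T) (x : Finset F.P) : ℤ := sg (c ⬝ᵥ F.tys x)

open Classical in
/-- the product of the symbols -/
noncomputable def jp {ι : Type} [Fintype ι] (L : ι → ι → Prop) (x : ι → Finset F.P) : ℤ :=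
  ∏ i, ∏ j, if L i j then F.jj (x i) (x j) else 1

/-- pairwise disjoint -/
def Dj {ι : Type} (x : ι → Finset F.P) : Prop := ∀ i j, i ≠ j → Disjoint (x i) (x j)

open Classical in
/-- the sums with arbitrary one-variable weights and size exponents `w` -/
noncomputable def GW {ι : Type} [Fintype ι] (w : ι → ℝ) (L : ι → ι → Prop)
    (a : ι → Finset F.P → ℝ) (Y : ℝ) : ℝ :=
  ∑ x ∈ Fintype.piFinset (fun _ : ι => F.bx Y),
    if F.Dj x ∧ ∏ i, (F.nm (x i) : ℝ) ^ w i ≤ Y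
    then (∏ i, a i (x i)) * (F.jp L x : ℝ) else 0

/-- free indices -/
def Free {ι : Type} (w : ι → ℝ) (L : ι → ι → Prop) (c : ι → F.T) (i : ι) : Prop :=
  w i = 1 ∧ c i = 0 ∧ ∀ j, ¬ L i j ∧ ¬ L j i

/-! ### the sums of project MK4 -/

variable {D : Dt}

/-- the local condition at a prime `p` with vector `v` -/
def okp (a : Fin F.m → D.V) (μ : D.V → Finset F.P) (v : D.V) (p : F.P) : Prop :=
  ∑ u : D.V, (∑ q ∈ μ u, F.J q p) • D.B u v + ∑ j, F.ty p j • D.B (a j) v = F.lam p • D.q v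

open Classical in
/-- the primes with a given nonzero vector -/
noncomputable def mV (x : Ext D → Finset F.P) (v : D.V) : Finset F.P :=
  if v = 0 then ∅ else (Finset.univ.filter fun g : Ext D => g.v = v).biUnion x

open Classical in
/-- the sum over all parameters of size at most `Y` -/
noncomputable def S (w : Wt D) (θ : (Fin F.m → D.V) → (D.V → F.T) → Finset D.V → ℝ)
    (Y : ℝ) : ℝ :=
  ∑ a : Fin F.m → D.V, ∑ x ∈ Fintype.piFinset (fun _ : Ext D => F.bx Y),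
    if x 1 = ∅ ∧ F.Dj x ∧ (∏ g, (F.nm (x g) : ℝ) ^ w.wt g) ≤ Y ∧
      ∀ g, ∀ p ∈ x g, F.okp a (F.mV x) g.v p
    then θ a (fun v => F.tys (F.mV x v)) (Finset.univ.filter fun v => (F.mV x v).Nonempty)
    else 0

open Classical in
/-- the same sum with extra characters -/
noncomputable def Sx (w : Wt D) (Ξ : Ext D → Finset F.T)
    (θ : (Fin F.m → D.V) → (D.V → F.T) → Finset D.V → ℝ) (Y : ℝ) : ℝ :=
  ∑ a : Fin F.m → D.V, ∑ x ∈ Fintype.piFinset (fun _ : Ext D => F.bx Y),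
    if x 1 = ∅ ∧ F.Dj x ∧ (∏ g, (F.nm (x g) : ℝ) ^ w.wt g) ≤ Y ∧
      ∀ g, ∀ p ∈ x g, F.okp a (F.mV x) g.v p
    then (∏ g, ∏ p ∈ x g, ((∑ ξ ∈ Ξ g, sg (ξ ⬝ᵥ F.ty p) : ℤ) : ℝ)) *
      θ a (fun v => F.tys (F.mV x v)) (Finset.univ.filter fun v => (F.mV x v).Nonempty)
    else 0

/-- the parameters span -/
def Span (a : Fin F.m → D.V) (Q : Finset D.V) : Prop :=
  Submodule.span (ZMod 2) (Set.range a ∪ (Q : Set D.V)) = ⊤

/-! ### the expansion -/

/-- all indices: a group element, a dual vector, an extra character -/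
abbrev IX (D : Dt) : Type := D.P × F.T

open Classical in
/-- the primes with a given nonzero vector, expanded variables -/
noncomputable def mof (x : F.IX D → Finset F.P) (v : D.V) : Finset F.P :=
  if v = 0 then ∅ else (Finset.univ.filter fun i : F.IX D => i.1.1.v = v).biUnion x

/-- the sign of an expanded term -/
def sgn (a : Fin F.m → D.V) (x : F.IX D → Finset F.P) : ℤ :=
  sg (∑ i, ∑ j, D.e i.1 j.1 * F.JJ (x i) (x j) +
    ∑ i, (F.l ⬝ᵥ F.tys (x i)) * (i.1.2 ⬝ᵥ D.q i.1.1.v) +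
    ∑ i, ∑ k, F.tys (x i) k * (i.1.2 ⬝ᵥ D.B (a k) i.1.1.v) +
    ∑ i, i.2 ⬝ᵥ F.tys (x i))

open Classical in
/-- vectors in a support -/
noncomputable def supV (σ : Finset (F.IX D)) : Finset D.V :=
  Finset.univ.filter fun v => v ≠ 0 ∧ ∃ i ∈ σ, i.1.1.v = v

open Classical in
/-- the function of the types -/
noncomputable def Psi (θ : (Fin F.m → D.V) → (D.V → F.T) → Finset D.V → ℝ)
    (a : Fin F.m → D.V) (σ : Finset (F.IX D)) (u : F.IX D → F.T) : ℝ :=
  ((sg (∑ i, ∑ j, (if Fintype.equivFin D.V i.1.1.v < Fintype.equivFin D.V j.1.1.v ∧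
        D.e i.1 j.1 = 1 ∧ D.e j.1 i.1 = 1 then (F.l ⬝ᵥ u i) * (F.l ⬝ᵥ u j) else 0) +
      ∑ i, (F.l ⬝ᵥ u i) * (i.1.2 ⬝ᵥ D.q i.1.1.v) +
      ∑ i, ∑ k, u i k * (i.1.2 ⬝ᵥ D.B (a k) i.1.1.v) +
      ∑ i, i.2 ⬝ᵥ u i) : ℤ) : ℝ) *
  θ a (fun v => if v = 0 then 0 else ∑ i ∈ Finset.univ.filter (fun i : F.IX D => i.1.1.v = v), u i)
    (F.supV σ)

open Classical in
/-- types on the support, `0` elsewhere -/
noncomputable def UT (σ : Finset (F.IX D)) : Finset (F.IX D → F.T) :=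
  Fintype.piFinset (fun i : F.IX D => if i ∈ σ then Finset.univ else {0})

/-- the Fourier coefficient -/
noncomputable def coef (θ : (Fin F.m → D.V) → (D.V → F.T) → Finset D.V → ℝ)
    (a : Fin F.m → D.V) (σ : Finset (F.IX D)) (c : F.IX D → F.T) : ℝ :=
  (1 / 2 ^ F.m) ^ σ.card *
    ∑ u ∈ F.UT σ, F.Psi θ a σ u * ((sg (∑ i ∈ σ, c i ⬝ᵥ u i) : ℤ) : ℝ)

open Classical in
/-- the active indices -/
noncomputable def act (w : Wt D) (Ξ : Ext D → Finset F.T) : Finset (F.IX D) :=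
  Finset.univ.filter fun i => i.1 ∈ w.act ∧ i.2 ∈ Ξ i.1.1

/-- the coefficient of the indices of larger weight -/
noncomputable def kap (w : Wt D) (i : F.IX D) (x : Finset F.P) : ℝ :=
  if w.ind i.1.1 = w.m then 1 else (1 / 2 ^ D.s) ^ x.card

/-- the one-variable weights -/
noncomputable def aw (w : Wt D) (c : F.IX D → F.T) (i : F.IX D) (x : Finset F.P) : ℝ :=
  if x.Nonempty then (F.ps (c i) x : ℝ) * F.kap w i x else 0

/-- the basic sum of a support -/
noncomputable def TS (w : Wt D) (σ : Finset (F.IX D)) (c : F.IX D → F.T) (Y : ℝ) : ℝ :=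
  F.GW (ι := {i // i ∈ σ}) (fun i => w.wt i.1.1.1) (fun i j => D.L i.1.1 j.1.1)
    (fun i x => F.aw w c i.1 x) Y

open Classical in
/-- the free indices -/
noncomputable def R (w : Wt D) (σ : Finset (F.IX D)) (c : F.IX D → F.T) : Finset (F.IX D) :=
  σ.filter fun i => w.ind i.1.1 = w.m ∧ c i = 0 ∧ ∀ j ∈ σ, D.e i.1 j.1 = D.e j.1 i.1

open Classical in
/-- sums over the tuples with exact support `σ` -/
noncomputable def SX (w : Wt D) (σ : Finset (F.IX D)) (Y : ℝ)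
    (h : (F.IX D → Finset F.P) → ℝ) : ℝ :=
  ∑ x ∈ Fintype.piFinset (fun i : F.IX D => if i ∈ σ then (F.bx Y).erase ∅ else {∅}),
    if F.Dj x ∧ ∏ i, (F.nm (x i) : ℝ) ^ w.wt i.1.1 ≤ Y then h x else 0

end Sys

end Pool.Agent.H98.MF
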