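import Pool.Agent.H98.MF.NDefs
import Pool.Agent.H98.MF.C.Defs
import Pool.Agent.H98.MF.Sys

/-!
# Project MK4 (MP_a3214d), block N: the primes of a number field outside a finite set
-/

set_option autoImplicit false

open scoped BigOperators Pointwise NNReal nonZeroDivisors
open NumberField IsDedekindDomain

namespace Pool.Agent.H98.MF

section

variable {k : Type} [Field k] [NumberField k]

theorem two_le_absNorm (Q : HeightOneSpectrum (𝓞 k)) : 2 ≤ Ideal.absNorm Q.asIdeal := by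
  have h1 : Ideal.absNorm Q.asIdeal ≠ 0 := by
    rw [Ne, Ideal.absNorm_eq_zero_iff]; exact Q.ne_bot
  have h2 : Ideal.absNorm Q.asIdeal ≠ 1 := by
    rw [Ne, Ideal.absNorm_eq_one_iff]; exact Q.isPrime.ne_top
  omega

theorem finite_primes (S : Finset (HeightOneSpectrum (𝓞 k))) (X : ℕ) :
    {Q : {Q : HeightOneSpectrum (𝓞 k) // Q ∉ S} | Ideal.absNorm Q.1.asIdeal ≤ X}.Finite := by
  have h := Ideal.finite_setOfPred_absNorm_le (S := 𝓞 k) X
  refine Set.Finite.of_finite_image (f := fun Q => Q.1.asIdeal) (h.subset ?_) ?_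
  · rintro _ ⟨Q, hQ, rfl⟩
    exact hQ
  · intro P _ Q _ h
    exact Subtype.ext (HeightOneSpectrum.ext h)

/-- the primes outside `S` with their norms -/
noncomputable def preK (S : Finset (HeightOneSpectrum (𝓞 k))) : Pre where
  P := {Q : HeightOneSpectrum (𝓞 k) // Q ∉ S}
  N := fun Q => Ideal.absNorm Q.1.asIdeal
  two_le := fun Q => two_le_absNorm Q.1
  fin := finite_primes S

/-- the ideal with given exponents -/
noncomputable def idf (S : Finset (HeightOneSpectrum (𝓞 k))) (f : (preK S).P →₀ ℕ) :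
    Ideal (𝓞 k) :=
  f.prod fun Q n => Q.1.asIdeal ^ n

/-- `g` is trivial on totally positive elements close to `1` at `S` and `y` -/
def Loc (S : Finset (HeightOneSpectrum (𝓞 k))) (n : ℕ) (y : Finset (preK S).P)
    (g : (preK S).P → ZMod 2) : Prop :=
  ∀ γ : k, γ ≠ 0 → (∀ φ : k →+* ℝ, 0 < φ γ) →
    (∀ Q ∈ S, γ = 1 ∨ (n : ℤ) ≤ ord Q (γ - 1)) →
    (∀ Q ∈ y, γ = 1 ∨ 1 ≤ ord Q.1 (γ - 1)) →
    ∑ᶠ Q : (preK S).P, ((if Q ∈ y then 0 else ord Q.1 γ : ℤ) : ZMod 2) * g Q = 0

open Classical in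
/-- the function on ideals attached to `g`, zero on ideals meeting `S` or `y` -/
noncomputable def FI (S : Finset (HeightOneSpectrum (𝓞 k))) (y : Finset (preK S).P)
    (g : (preK S).P → ZMod 2) (I : Ideal (𝓞 k)) : ℝ :=
  if h : ∃ f, idf S f = I then ((preK S).chv y g h.choose : ℝ) else 0

/-- the modulus -/
noncomputable def MI (S : Finset (HeightOneSpectrum (𝓞 k))) (n : ℕ) (y : Finset (preK S).P) :
    Ideal (𝓞 k) :=
  (∏ Q ∈ S, Q.asIdeal ^ (n + 1)) * ∏ Q ∈ y, Q.1.asIdeal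

end

end Pool.Agent.H98.MF
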