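import Pool.Agent.H98.ML.HindPerm

/-!
# Project MK4 (MP_a3214d): 2-groups of class two generated by elements of least index
-/

set_option autoImplicit false

open scoped commutatorElement

namespace Pool.Agent.H98.MF.GT

/-- the central elements of square one -/
def CK (G : Type) [Group G] : Subgroup G where
  carrier := {c | (∀ y, c * y = y * c) ∧ c * c = 1}
  mul_mem' := by
    rintro a b ⟨h1, h2⟩ ⟨h3, h4⟩
    refine ⟨fun y => ?_, ?_⟩
    · rw [mul_assoc, h3, ← mul_assoc, h1, mul_assoc]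
    · calc a * b * (a * b) = a * (b * a) * b := by group
        _ = a * (a * b) * b := by rw [h3 a]
        _ = (a * a) * (b * b) := by group
        _ = 1 := by rw [h2, h4, one_mul]
  one_mem' := ⟨fun y => by rw [one_mul, mul_one], by rw [one_mul]⟩
  inv_mem' := by
    rintro a ⟨h1, h2⟩
    have h3 : a⁻¹ = a := inv_eq_of_mul_eq_one_left h2
    rw [h3]
    exact ⟨h1, h2⟩

/-- the commutator with an element of square one -/
theorem comm_mem {G : Type} [Group G] (hcl : ∀ x y z : G, ⁅⁅x, y⁆, z⁆ = 1) (x t : G)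
    (ht : t * t = 1) : ⁅x, t⁆ ∈ CK G := by
  have hc : ∀ y, ⁅x, t⁆ * y = y * ⁅x, t⁆ := fun y => commutatorElement_eq_one_iff_mul_comm.1
    (hcl x t y)
  refine ⟨hc, ?_⟩
  have ht' : t⁻¹ = t := inv_eq_of_mul_eq_one_left ht
  have h1 : ⁅x, t⁆ = x * t * x⁻¹ * t := by rw [commutatorElement_def, ht']
  calc ⁅x, t⁆ * ⁅x, t⁆ = ⁅x, t⁆ * (x * t * x⁻¹ * t) := by rw [← h1]
    _ = ⁅x, t⁆ * (x * t * x⁻¹) * t := by group
    _ = (x * t * x⁻¹) * ⁅x, t⁆ * t := by rw [hc]
    _ = (x * t * x⁻¹) * (x * t * x⁻¹ * t) * t := by rw [h1]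
    _ = x * (t * t) * x⁻¹ * (t * t) := by group
    _ = 1 := by rw [ht]; group

/-- squares in a group of class two generated by elements of square one -/
theorem sq_mem {G : Type} [Group G] (hcl : ∀ x y z : G, ⁅⁅x, y⁆, z⁆ = 1) (T : Set G)
    (hT : ∀ t ∈ T, t * t = 1) (hgen : Subgroup.closure T = ⊤) (x : G) : x * x ∈ CK G := by
  have hx : x ∈ Subgroup.closure T := by rw [hgen]; exact Subgroup.mem_top x
  induction hx using Subgroup.closure_induction_right with
  | one => rw [one_mul]; exact (CK G).one_mem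
  | mul_right a _ t ht ih =>
    have h1 : a * t * (a * t) = (a * a) * (⁅a⁻¹, t⁆ * (t * t)) := by
      rw [commutatorElement_def]
      group
    rw [h1, hT t ht, mul_one]
    exact (CK G).mul_mem ih (comm_mem hcl a⁻¹ t (hT t ht))
  | mul_inv_cancel a _ t ht ih =>
    have ht' : t⁻¹ = t := inv_eq_of_mul_eq_one_left (hT t ht)
    rw [ht']
    have h1 : a * t * (a * t) = (a * a) * (⁅a⁻¹, t⁆ * (t * t)) := by
      rw [commutatorElement_def]
      group
    rw [h1, hT t ht, mul_one]
    exact (CK G).mul_mem ih (comm_mem hcl a⁻¹ t (hT t ht))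

/-- the index as number of orbits -/
theorem norb_lt {G : Type} [Group G] [Finite G] (H : Subgroup G) (g : G) (j : ℕ)
    (hj : orderOf g = 2 ^ j) (x : G) (hx : (x : G ⧸ H) ≠ g • (x : G ⧸ H)) :
    Pool.Agent.H98.ML.norb H g < Pool.Agent.H98.ML.norb H (g * g) := by
  classical
  unfold Pool.Agent.H98.ML.norb
  let f : MulAction.orbitRel.Quotient (Subgroup.zpowers (g * g)) (G ⧸ H) →
      MulAction.orbitRel.Quotient (Subgroup.zpowers g) (G ⧸ H) :=
    Quotient.map' id (fun a b hab => by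
      obtain ⟨⟨u, hu⟩, huv⟩ := hab
      obtain ⟨i, rfl⟩ := Subgroup.mem_zpowers_iff.1 hu
      refine ⟨⟨(g * g) ^ i, ?_⟩, huv⟩
      refine Subgroup.zpow_mem _ ?_ i
      exact Subgroup.mul_mem _ (Subgroup.mem_zpowers g) (Subgroup.mem_zpowers g))
  have hsurj : Function.Surjective f := by
    intro c
    induction c using Quotient.inductionOn' with
    | h a => exact ⟨Quotient.mk'' a, rfl⟩
  have hninj : ¬ Function.Injective f := by
    intro hinj
    have h1 : f (Quotient.mk'' (x : G ⧸ H)) = f (Quotient.mk'' (g • (x : G ⧸ H))) := by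
      refine Quotient.sound' ?_
      exact ⟨⟨g⁻¹, Subgroup.inv_mem _ (Subgroup.mem_zpowers g)⟩, by
        show g⁻¹ • g • (x : G ⧸ H) = (x : G ⧸ H)
        rw [inv_smul_smul]⟩
    have h2 := Quotient.exact' (hinj h1)
    obtain ⟨⟨u, hu⟩, huv⟩ := h2
    obtain ⟨i, rfl⟩ := Subgroup.mem_zpowers_iff.1 hu
    have h3 : (g * g) ^ i • g • (x : G ⧸ H) = (x : G ⧸ H) := huv
    have h4' : g ^ (2 * i + 1) = (g * g) ^ i * g := by
      rw [zpow_add, zpow_one, zpow_mul]
      norm_cast
      rw [pow_two]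
    have h4 : g ^ (2 * i + 1) • (x : G ⧸ H) = (x : G ⧸ H) := by
      rw [h4', mul_smul, h3]
    have h5 : g ∈ Subgroup.zpowers (g ^ (2 * i + 1)) := by
      have hcop : IsCoprime (2 * i + 1) ((2 ^ j : ℕ) : ℤ) := by
        push_cast
        exact IsCoprime.pow_right ⟨1, -i, by ring⟩
      obtain ⟨a, b, hab⟩ := hcop
      refine Subgroup.mem_zpowers_iff.2 ⟨a, ?_⟩
      rw [← zpow_mul]
      have h6 : (2 * i + 1) * a = 1 - b * ((2 ^ j : ℕ) : ℤ) := by linarith
      rw [h6, zpow_sub, zpow_one, mul_comm b, zpow_mul, zpow_natCast, ← hj, pow_orderOf_eq_one,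
        one_zpow, inv_one, mul_one]
    obtain ⟨a, ha⟩ := Subgroup.mem_zpowers_iff.1 h5
    have h7 : ∀ a : ℤ, (g ^ (2 * i + 1)) ^ a • (x : G ⧸ H) = (x : G ⧸ H) := fun a =>
      (Subgroup.zpow_mem (MulAction.stabilizer G (x : G ⧸ H)) h4 a)
    apply hx
    conv_rhs => rw [← ha]
    exact (h7 a).symm
  refine lt_of_le_of_ne (Nat.card_le_card_of_surjective f hsurj) fun hcard => hninj ?_
  obtain ⟨e⟩ := Finite.card_eq.1 hcard.symm
  exact (Finite.injective_iff_surjective_of_equiv e).2 hsurj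

/-- elements of least index of a transitive 2-group are involutions -/
theorem sq_eq_one (n : ℕ) (G : Subgroup (Equiv.Perm (Fin n)))
    (htr : MulAction.IsPretransitive G (Fin n)) (h2 : IsPGroup 2 G) (m : ℕ)
    (hm : IsLeast {j | ∃ g ∈ G, g ≠ 1 ∧ g.support.card - Multiset.card g.cycleType = j} m)
    (g : G) (hg1 : g ≠ 1)
    (hgm : (g : Equiv.Perm (Fin n)).support.card -
      Multiset.card (g : Equiv.Perm (Fin n)).cycleType = m) : g * g = 1 := by
  classical
  by_contra hne
  have h1 : ∃ i : Fin n, (g : Equiv.Perm (Fin n)) i ≠ i := by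
    by_contra hcon
    push Not at hcon
    exact hg1 (Subtype.ext (Equiv.ext hcon))
  obtain ⟨i, hi⟩ := h1
  set H := MulAction.stabilizer G i with hH
  obtain ⟨j, hj⟩ := (IsPGroup.iff_orderOf.1 h2) g
  have h3 : Pool.Agent.H98.ML.norb H g < Pool.Agent.H98.ML.norb H (g * g) := by
    refine norb_lt H g j hj 1 fun hx => hi ?_
    have h4 : ((1 : G) : G ⧸ H) = ((g : G) : G ⧸ H) := by
      rw [hx]
      show ((g * 1 : G) : G ⧸ H) = _
      rw [mul_one]
    rw [QuotientGroup.eq, inv_one, one_mul] at h4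
    exact h4
  have h5 : Pool.Agent.H98.ML.norb H (g * g) ≤ H.index := by
    unfold Pool.Agent.H98.ML.norb Subgroup.index
    exact Nat.card_le_card_of_surjective _ Quotient.mk''_surjective
  have h6 := Pool.Agent.H98.ML.hind_perm n G htr i g
  have h7 := Pool.Agent.H98.ML.hind_perm n G htr i (g * g)
  rw [hgm] at h6
  have h8 : m ≤ ((g * g : G) : Equiv.Perm (Fin n)).support.card -
      Multiset.card ((g * g : G) : Equiv.Perm (Fin n)).cycleType :=
    hm.2 ⟨_, (g * g).2, fun h => hne (Subtype.ext h), rfl⟩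
  rw [← h7, ← h6] at h8
  unfold Pool.Agent.H98.ML.hind at h8
  rw [← hH] at h8
  omega

/-- transitive 2-groups of class two generated by their elements of least index -/
theorem class_two (n : ℕ) (G : Subgroup (Equiv.Perm (Fin n)))
    (htr : MulAction.IsPretransitive G (Fin n)) (h2 : IsPGroup 2 G)
    (hcl : commutator G ≤ Subgroup.center G) (m : ℕ)
    (hm : IsLeast {j | ∃ g ∈ G, g ≠ 1 ∧ g.support.card - Multiset.card g.cycleType = j} m)
    (hgen : Subgroup.closure {g : Equiv.Perm (Fin n) | g ∈ G ∧ g ≠ 1 ∧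
      g.support.card - Multiset.card g.cycleType = m} = G) :
    (∀ x : G, x ^ 4 = 1) ∧ ∀ x y : G, x ^ 2 * y = y * x ^ 2 := by
  have hcl' : ∀ x y z : G, ⁅⁅x, y⁆, z⁆ = 1 := fun x y z => by
    rw [commutatorElement_eq_one_iff_mul_comm]
    have h1 : ⁅x, y⁆ ∈ Subgroup.center G := hcl (Subgroup.commutator_mem_commutator
      (Subgroup.mem_top x) (Subgroup.mem_top y))
    exact (Subgroup.mem_center_iff.1 h1 z).symm
  set T : Set G := {g | g ≠ 1 ∧ (g : Equiv.Perm (Fin n)).support.card -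
      Multiset.card (g : Equiv.Perm (Fin n)).cycleType = m} with hT
  have h3 : Subgroup.closure T = ⊤ := by
    have h4 : (Subgroup.closure T).map G.subtype = (⊤ : Subgroup G).map G.subtype := by
      rw [MonoidHom.map_closure, ← MonoidHom.range_eq_map, Subgroup.range_subtype]
      conv_rhs => rw [← hgen]
      congr 1
      ext g
      constructor
      · rintro ⟨g, ⟨h5, h6⟩, rfl⟩
        exact ⟨g.2, fun h => h5 (Subtype.ext h), h6⟩
      · rintro ⟨h5, h6, h7⟩
        exact ⟨⟨g, h5⟩, ⟨fun h => h6 (congrArg Subtype.val h), h7⟩, rfl⟩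
    exact Subgroup.map_injective (Subgroup.subtype_injective G) h4
  have h4 : ∀ x : G, x * x ∈ CK G := fun x => sq_mem hcl' T
    (fun t ht => sq_eq_one n G htr h2 m hm t ht.1 ht.2) h3 x
  refine ⟨fun x => ?_, fun x y => ?_⟩
  · have h5 := (h4 x).2
    calc x ^ 4 = x * x * (x * x) := by simp only [pow_succ, pow_zero, one_mul, mul_assoc]
      _ = 1 := h5
  · rw [pow_two]
    exact (h4 x).1 y

end Pool.Agent.H98.MF.GT
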