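import Pool.Agent.H98.MF.MDefs

/-!
# Project MK4 (MP_a3214d), row M7: configurations and parameters
-/

set_option autoImplicit false

open scoped BigOperators Pointwise
open NumberField IsDedekindDomain Filter

namespace Pool.Agent.H98.MF

open Pool.Agent.H98.MK (sg)
open Pool.Agent.H98.ML (Dt Ext Wt norb hind)

namespace CfAux

section vals

variable {m : ℕ} {P E W : Type} [Fintype E] [AddCommMonoid W]

/-- the finitely supported function of a family of finite sets -/
noncomputable def cf (a : Fin m → W) (φ : E → W) (y : E → Finset P) : (Fin m ⊕ P) →₀ W :=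
  ∑ j, Finsupp.single (Sum.inl j) (a j) + ∑ g, ∑ p ∈ y g, Finsupp.single (Sum.inr p) (φ g)

theorem cf_inl (a : Fin m → W) (φ : E → W) (y : E → Finset P) (j : Fin m) :
    cf a φ y (Sum.inl j) = a j := by
  classical
  unfold cf
  rw [Finsupp.add_apply, Finsupp.finsetSum_apply, Finsupp.finsetSum_apply]
  have h1 : ∑ i, (Finsupp.single (Sum.inl i) (a i) : (Fin m ⊕ P) →₀ W) (Sum.inl j) = a j := by
    rw [Finset.sum_eq_single j]
    · rw [Finsupp.single_eq_same]
    · intro i _ hi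
      exact Finsupp.single_eq_of_ne fun h => hi (Sum.inl.inj h).symm
    · intro h
      exact absurd (Finset.mem_univ j) h
  have h2 : ∑ g, (∑ p ∈ y g, (Finsupp.single (Sum.inr p) (φ g) : (Fin m ⊕ P) →₀ W))
      (Sum.inl j) = 0 := by
    refine Finset.sum_eq_zero fun g _ => ?_
    rw [Finsupp.finsetSum_apply]
    exact Finset.sum_eq_zero fun p _ => Finsupp.single_eq_of_ne fun h => by cases h
  rw [h1, h2, add_zero]

open Classical in
theorem cf_inr (a : Fin m → W) (φ : E → W) (y : E → Finset P) (p : P) :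
    cf a φ y (Sum.inr p) = ∑ g, if p ∈ y g then φ g else 0 := by
  unfold cf
  rw [Finsupp.add_apply, Finsupp.finsetSum_apply, Finsupp.finsetSum_apply]
  have h1 : ∑ i, (Finsupp.single (Sum.inl i) (a i) : (Fin m ⊕ P) →₀ W) (Sum.inr p) = 0 :=
    Finset.sum_eq_zero fun i _ => Finsupp.single_eq_of_ne fun h => by cases h
  rw [h1, zero_add]
  refine Finset.sum_congr rfl fun g _ => ?_
  rw [Finsupp.finsetSum_apply]
  split_ifs with h
  · rw [Finset.sum_eq_single p]
    · rw [Finsupp.single_eq_same]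
    · intro q _ hq
      exact Finsupp.single_eq_of_ne fun h => hq (Sum.inr.inj h).symm
    · intro h2
      exact absurd h h2
  · exact Finset.sum_eq_zero fun q hq => Finsupp.single_eq_of_ne fun h2 =>
      h (by rw [Sum.inr.inj h2]; exact hq)

theorem cf_of_mem (a : Fin m → W) (φ : E → W) {y : E → Finset P}
    (hD : ∀ g h, g ≠ h → Disjoint (y g) (y h)) {g : E} {p : P} (hp : p ∈ y g) :
    cf a φ y (Sum.inr p) = φ g := by
  classical
  rw [cf_inr, Finset.sum_eq_single g]
  · rw [if_pos hp]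
  · intro h _ hh
    rw [if_neg]
    exact fun h1 => Finset.disjoint_left.1 (hD h g hh) h1 hp
  · intro h
    exact absurd (Finset.mem_univ g) h

theorem cf_of_not (a : Fin m → W) (φ : E → W) {y : E → Finset P} {p : P}
    (hp : ∀ g, p ∉ y g) : cf a φ y (Sum.inr p) = 0 := by
  classical
  rw [cf_inr]
  exact Finset.sum_eq_zero fun g _ => if_neg (hp g)

theorem cf_sum {Z : Type} [AddCommMonoid Z] (a : Fin m → W) (φ : E → W) (y : E → Finset P)
    (f : (Fin m ⊕ P) → W → Z) (h0 : ∀ i, f i 0 = 0)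
    (ha : ∀ i v w, f i (v + w) = f i v + f i w) :
    (cf a φ y).sum f = ∑ j, f (Sum.inl j) (a j) + ∑ g, ∑ p ∈ y g, f (Sum.inr p) (φ g) := by
  classical
  unfold cf
  rw [Finsupp.sum_add_index' h0 ha, ← Finsupp.sum_finsetSum_index h0 ha,
    ← Finsupp.sum_finsetSum_index h0 ha]
  congr 1
  · exact Finset.sum_congr rfl fun j _ => Finsupp.sum_single_index (h0 _)
  · refine Finset.sum_congr rfl fun g _ => ?_
    rw [← Finsupp.sum_finsetSum_index h0 ha]
    exact Finset.sum_congr rfl fun p _ => Finsupp.sum_single_index (h0 _)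

end vals

theorem B_zero_left (D : Dt) (w : D.V) : D.B 0 w = 0 := by
  unfold Dt.B
  rw [map_zero, map_zero, LinearMap.zero_apply, add_zero]

theorem B_zero_right (D : Dt) (w : D.V) : D.B w 0 = 0 := by
  unfold Dt.B
  rw [map_zero, map_zero, LinearMap.zero_apply, add_zero]

theorem B_add_left (D : Dt) (u v w : D.V) : D.B (u + v) w = D.B u w + D.B v w := by
  unfold Dt.B
  rw [map_add, map_add, LinearMap.add_apply]
  abel

theorem ext_ne_one {D : Dt} {g : Ext D} : g ≠ 1 ↔ g.v ≠ 0 ∨ g.z ≠ 0 := by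
  rw [← not_and_or]
  refine not_congr ⟨fun h => ?_, fun h => ?_⟩
  · rw [h]
    exact ⟨rfl, rfl⟩
  · exact Ext.ext h.1 h.2

section frm

variable {k : Type} [Field k] [NumberField k] (F : Frm k) {D : Dt}

theorem x_inl (a : Fin F.sys.m → D.V) (y : Ext D → Finset F.sys.P) (j : Fin F.sys.m) :
    F.xOf a y (Sum.inl j) = a j := cf_inl a (fun g : Ext D => g.v) y j

theorem z_inl (b : Fin F.sys.m → D.Z) (y : Ext D → Finset F.sys.P) (j : Fin F.sys.m) :
    F.zOf b y (Sum.inl j) = b j := cf_inl b (fun g : Ext D => g.z) y j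

theorem x_mem (a : Fin F.sys.m → D.V) {y : Ext D → Finset F.sys.P} (hD : F.sys.Dj y)
    {g : Ext D} {p : F.sys.P} (hp : p ∈ y g) : F.xOf a y (Sum.inr p) = g.v :=
  cf_of_mem a (fun g : Ext D => g.v) hD hp

theorem z_mem (b : Fin F.sys.m → D.Z) {y : Ext D → Finset F.sys.P} (hD : F.sys.Dj y)
    {g : Ext D} {p : F.sys.P} (hp : p ∈ y g) : F.zOf b y (Sum.inr p) = g.z :=
  cf_of_mem b (fun g : Ext D => g.z) hD hp

theorem x_not (a : Fin F.sys.m → D.V) {y : Ext D → Finset F.sys.P} {p : F.sys.P}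
    (hp : ∀ g, p ∉ y g) : F.xOf a y (Sum.inr p) = 0 :=
  cf_of_not a (fun g : Ext D => g.v) hp

theorem z_not (b : Fin F.sys.m → D.Z) {y : Ext D → Finset F.sys.P} {p : F.sys.P}
    (hp : ∀ g, p ∉ y g) : F.zOf b y (Sum.inr p) = 0 :=
  cf_of_not b (fun g : Ext D => g.z) hp

open Classical in
/-- the sets of primes of a pair of parameters -/
noncomputable def ys (x : F.I →₀ D.V) (z : F.I →₀ D.Z) (g : Ext D) : Finset F.sys.P :=
  if g = 1 then ∅ else
    (((x.support.preimage Sum.inr Sum.inr_injective.injOn) ∪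
      (z.support.preimage Sum.inr Sum.inr_injective.injOn)).filter fun p =>
        x (Sum.inr p) = g.v ∧ z (Sum.inr p) = g.z)

theorem mem_ys {x : F.I →₀ D.V} {z : F.I →₀ D.Z} {g : Ext D} {p : F.sys.P} :
    p ∈ ys F x z g ↔ g ≠ 1 ∧ x (Sum.inr p) = g.v ∧ z (Sum.inr p) = g.z := by
  classical
  unfold ys
  split_ifs with h
  · exact ⟨fun h1 => absurd h1 (Finset.notMem_empty p), fun h1 => absurd h h1.1⟩
  · rw [Finset.mem_filter, Finset.mem_union, Finset.mem_preimage, Finset.mem_preimage,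
      Finsupp.mem_support_iff, Finsupp.mem_support_iff]
    refine ⟨fun h1 => ⟨h, h1.2⟩, fun h1 => ⟨?_, h1.2⟩⟩
    rw [h1.2.1, h1.2.2]
    exact ext_ne_one.1 h

theorem mem_mX {x : F.I →₀ D.V} {v : D.V} {p : F.sys.P} :
    p ∈ F.mX x v ↔ v ≠ 0 ∧ x (Sum.inr p) = v := by
  classical
  unfold Frm.mX
  split_ifs with h
  · exact ⟨fun h1 => absurd h1 (Finset.notMem_empty p), fun h1 => absurd h h1.1⟩
  · rw [Finset.mem_filter, Finset.mem_preimage, Finsupp.mem_support_iff]
    refine ⟨fun h1 => ⟨h, h1.2⟩, fun h1 => ⟨?_, h1.2⟩⟩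
    rw [h1.2]
    exact h

theorem mem_mV {S : Sys} {y : Ext D → Finset S.P} {v : D.V} {p : S.P} :
    p ∈ S.mV y v ↔ v ≠ 0 ∧ ∃ g, g.v = v ∧ p ∈ y g := by
  classical
  unfold Sys.mV
  split_ifs with h
  · exact ⟨fun h1 => absurd h1 (Finset.notMem_empty p), fun h1 => absurd h h1.1⟩
  · rw [Finset.mem_biUnion]
    constructor
    · rintro ⟨g, hg, hp⟩
      exact ⟨h, g, (Finset.mem_filter.1 hg).2, hp⟩
    · rintro ⟨_, g, hg, hp⟩
      exact ⟨g, Finset.mem_filter.2 ⟨Finset.mem_univ g, hg⟩, hp⟩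

theorem mX_eq (a : Fin F.sys.m → D.V) {y : Ext D → Finset F.sys.P} (hD : F.sys.Dj y)
    (v : D.V) : F.mX (F.xOf a y) v = F.sys.mV y v := by
  ext p
  rw [mem_mX, mem_mV]
  constructor
  · rintro ⟨h1, h2⟩
    refine ⟨h1, ?_⟩
    by_contra h3
    push Not at h3
    by_cases h4 : ∃ g, p ∈ y g
    · obtain ⟨g, hg⟩ := h4
      rw [x_mem F a hD hg] at h2
      exact h3 g h2 hg
    · push Not at h4
      rw [x_not F a h4] at h2
      exact h1 h2.symm
  · rintro ⟨h1, g, h2, h3⟩
    exact ⟨h1, by rw [x_mem F a hD h3, h2]⟩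

theorem sum_mV {S : Sys} {y : Ext D → Finset S.P} (hD : S.Dj y) {Z : Type} [AddCommMonoid Z]
    (c : S.P → D.V → Z) (hc : ∀ p, c p 0 = 0) :
    ∑ g, ∑ p ∈ y g, c p g.v = ∑ u : D.V, ∑ p ∈ S.mV y u, c p u := by
  classical
  rw [← Finset.sum_fiberwise_of_maps_to (s := Finset.univ) (t := Finset.univ)
    (g := fun g : Ext D => g.v) (fun g _ => Finset.mem_univ g.v)]
  refine Finset.sum_congr rfl fun u _ => ?_
  by_cases hu : u = 0
  · have h1 : S.mV y u = ∅ := by
      unfold Sys.mV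
      rw [if_pos hu]
    rw [h1, Finset.sum_empty]
    refine Finset.sum_eq_zero fun g hg => Finset.sum_eq_zero fun p _ => ?_
    rw [(Finset.mem_filter.1 hg).2, hu, hc]
  · have h1 : S.mV y u = (Finset.univ.filter fun g : Ext D => g.v = u).biUnion y := by
      ext p
      rw [mem_mV, Finset.mem_biUnion]
      constructor
      · rintro ⟨_, g, hg, hp⟩
        exact ⟨g, Finset.mem_filter.2 ⟨Finset.mem_univ g, hg⟩, hp⟩
      · rintro ⟨g, hg, hp⟩
        exact ⟨hu, g, (Finset.mem_filter.1 hg).2, hp⟩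
    rw [h1, Finset.sum_biUnion fun g _ h _ hgh => hD g h hgh]
    refine Finset.sum_congr rfl fun g hg => Finset.sum_congr rfl fun p _ => ?_
    rw [(Finset.mem_filter.1 hg).2]

theorem okx_iff (a : Fin F.sys.m → D.V) {y : Ext D → Finset F.sys.P} (hD : F.sys.Dj y)
    (p : F.sys.P) : F.okx D (F.xOf a y) p ↔
      F.sys.okp a (F.sys.mV y) (F.xOf a y (Sum.inr p)) p := by
  set w : D.V := F.xOf a y (Sum.inr p) with hw
  have h1 : ((F.xOf a y).sum fun i v =>
      (Sum.elim (F.sys.ty p) (fun q => F.sys.J q p) i) • D.B v w) =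
      ∑ j, F.sys.ty p j • D.B (a j) w + ∑ g : Ext D, ∑ q ∈ y g, F.sys.J q p • D.B g.v w := by
    have h2 := cf_sum a (fun g : Ext D => g.v) y
      (fun i v => (Sum.elim (F.sys.ty p) (fun q => F.sys.J q p) i) • D.B v w)
      (fun i => by
        show _ • D.B 0 w = 0
        rw [B_zero_left, smul_zero])
      (fun i u v => by
        show _ • D.B (u + v) w = _ • D.B u w + _ • D.B v w
        rw [B_add_left, smul_add])
    exact h2
  have h3 : ∑ g : Ext D, ∑ q ∈ y g, F.sys.J q p • D.B g.v w =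
      ∑ u : D.V, (∑ q ∈ F.sys.mV y u, F.sys.J q p) • D.B u w := by
    rw [sum_mV hD (fun q v => F.sys.J q p • D.B v w) fun q => by
      rw [B_zero_left, smul_zero]]
    refine Finset.sum_congr rfl fun u _ => ?_
    rw [Finset.sum_smul]
  unfold Frm.okx Sys.okp
  rw [← hw, h1, h3, add_comm]

theorem okp_zero {S : Sys} (a : Fin S.m → D.V) (μ : D.V → Finset S.P) (p : S.P) :
    S.okp a μ 0 p := by
  unfold Sys.okp
  have h1 : D.q 0 = 0 := by
    unfold Dt.q
    rw [map_zero]
  rw [h1, smul_zero]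
  have h2 : ∑ u : D.V, (∑ q ∈ μ u, S.J q p) • D.B u 0 = 0 :=
    Finset.sum_eq_zero fun u _ => by rw [B_zero_right, smul_zero]
  have h3 : ∑ j, S.ty p j • D.B (a j) 0 = 0 :=
    Finset.sum_eq_zero fun u _ => by rw [B_zero_right, smul_zero]
  rw [h2, h3, add_zero]

open Classical in
theorem cf_mv {W : Type} [AddCommMonoid W] (S : Sys) (a : Fin S.m → W) (φ : Ext D → W)
    {y : Ext D → Finset S.P} (hD : S.Dj y) {g g' : Ext D} (hg : g' ≠ g) {p : S.P}
    (hp : p ∈ y g) :
    (∀ j, cf a φ (S.mv y g g' p) (Sum.inl j) = a j) ∧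
    cf a φ (S.mv y g g' p) (Sum.inr p) = φ g' ∧
    ∀ q, q ≠ p → cf a φ (S.mv y g g' p) (Sum.inr q) = cf a φ y (Sum.inr q) := by
  have hm : ∀ h q, q ∈ S.mv y g g' p h ↔ (h = g ∧ q ∈ y h ∧ q ≠ p) ∨
      (h ≠ g ∧ h = g' ∧ (q = p ∨ q ∈ y h)) ∨ (h ≠ g ∧ h ≠ g' ∧ q ∈ y h) := by
    intro h q
    unfold Sys.mv
    by_cases h1 : h = g
    · rw [if_pos h1, Finset.mem_erase]
      tauto
    · rw [if_neg h1]
      by_cases h2 : h = g'
      · rw [if_pos h2, Finset.mem_insert]
        tauto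
      · rw [if_neg h2]
        tauto
  refine ⟨fun j => cf_inl _ _ _ j, ?_, ?_⟩
  · rw [cf_inr, Finset.sum_eq_single g']
    · rw [if_pos ((hm g' p).2 (Or.inr (Or.inl ⟨hg, rfl, Or.inl rfl⟩)))]
    · intro h _ hh
      rw [if_neg]
      rw [hm]
      rintro (⟨_, _, h3⟩ | ⟨_, h3, _⟩ | ⟨h3, _, h4⟩)
      · exact h3 rfl
      · exact hh h3
      · exact Finset.disjoint_left.1 (hD h g h3) h4 hp
    · intro h
      exact absurd (Finset.mem_univ g') h
  · intro q hq
    rw [cf_inr, cf_inr]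
    refine Finset.sum_congr rfl fun h _ => ?_
    have h1 : q ∈ S.mv y g g' p h ↔ q ∈ y h := by
      rw [hm]
      tauto
    by_cases h2 : q ∈ y h
    · rw [if_pos (h1.2 h2), if_pos h2]
    · rw [if_neg (fun h3 => h2 (h1.1 h3)), if_neg h2]

end frm

end CfAux

open CfAux

namespace Frm

variable {k : Type} [Field k] [NumberField k] (F : Frm k)

theorem conf_bij {D : Dt} (x : F.I →₀ D.V) (z : F.I →₀ D.Z) :
    ∃! w : ((Fin F.sys.m → D.V) × (Fin F.sys.m → D.Z)) × (Ext D → Finset F.sys.P),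
      w.2 1 = ∅ ∧ F.sys.Dj w.2 ∧ x = F.xOf w.1.1 w.2 ∧ z = F.zOf w.1.2 w.2 := by
  have hD : F.sys.Dj (ys F x z) := by
    intro g h hgh
    rw [Finset.disjoint_left]
    intro p h1 h2
    rw [mem_ys] at h1 h2
    exact hgh (Ext.ext (h1.2.1.symm.trans h2.2.1) (h1.2.2.symm.trans h2.2.2))
  refine ⟨((fun j => x (Sum.inl j), fun j => z (Sum.inl j)), ys F x z), ⟨?_, hD, ?_, ?_⟩, ?_⟩
  · show ys F x z 1 = ∅
    refine Finset.eq_empty_of_forall_notMem fun p hp => ?_
    exact ((mem_ys F).1 hp).1 rfl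
  · show x = F.xOf (fun j => x (Sum.inl j)) (ys F x z)
    ext i : 1
    rcases i with j | p
    · rw [x_inl]
    · by_cases h1 : ∃ g, p ∈ ys F x z g
      · obtain ⟨g, hg⟩ := h1
        rw [x_mem F _ hD hg]
        exact ((mem_ys F).1 hg).2.1
      · push Not at h1
        rw [x_not F _ h1]
        by_contra h2
        refine h1 ⟨x (Sum.inr p), z (Sum.inr p)⟩ ((mem_ys F).2 ⟨?_, rfl, rfl⟩)
        exact ext_ne_one.2 (Or.inl h2)
  · show z = F.zOf (fun j => z (Sum.inl j)) (ys F x z)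
    ext i : 1
    rcases i with j | p
    · rw [z_inl]
    · by_cases h1 : ∃ g, p ∈ ys F x z g
      · obtain ⟨g, hg⟩ := h1
        rw [z_mem F _ hD hg]
        exact ((mem_ys F).1 hg).2.2
      · push Not at h1
        rw [z_not F _ h1]
        by_contra h2
        refine h1 ⟨x (Sum.inr p), z (Sum.inr p)⟩ ((mem_ys F).2 ⟨?_, rfl, rfl⟩)
        exact ext_ne_one.2 (Or.inr h2)
  · rintro ⟨⟨a, b⟩, y⟩ ⟨h1, h2, h3, h4⟩
    have h1' : y 1 = ∅ := h1
    have h2' : F.sys.Dj y := h2
    have h3' : x = F.xOf a y := h3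
    have h4' : z = F.zOf b y := h4
    have ea : a = fun j => x (Sum.inl j) := by
      funext j
      rw [h3', x_inl]
    have eb : b = fun j => z (Sum.inl j) := by
      funext j
      rw [h4', z_inl]
    have ey : y = ys F x z := by
      funext g
      ext p
      rw [mem_ys]
      constructor
      · intro hp
        refine ⟨?_, ?_, ?_⟩
        · rintro rfl
          rw [h1'] at hp
          exact absurd hp (Finset.notMem_empty p)
        · rw [h3', x_mem F a h2' hp]
        · rw [h4', z_mem F b h2' hp]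
      · rintro ⟨hg, hx, hz⟩
        by_cases h5 : ∃ h, p ∈ y h
        · obtain ⟨h, hh⟩ := h5
          rw [h3', x_mem F a h2' hh] at hx
          rw [h4', z_mem F b h2' hh] at hz
          have h6 : h = g := Ext.ext hx hz
          rw [← h6]
          exact hh
        · push Not at h5
          rw [h3', x_not F a h5] at hx
          rw [h4', z_not F b h5] at hz
          exact absurd (Ext.ext hx.symm hz.symm) hg
    rw [ea, eb, ey]

theorem conf_data {D : Dt} (a : Fin F.sys.m → D.V) (y : Ext D → Finset F.sys.P)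
    (h1 : y 1 = ∅) (hD : F.sys.Dj y) :
    F.Dat (F.xOf a y) a (fun v => F.sys.tys (F.sys.mV y v)) ∧
      ((∀ p, F.okx D (F.xOf a y) p) ↔ ∀ g, ∀ p ∈ y g, F.sys.okp a (F.sys.mV y) g.v p) := by
  refine ⟨⟨fun j => x_inl F a y j, fun v => ?_⟩, ?_, ?_⟩
  · rw [mX_eq F a hD v]
  · intro h g p hp
    have h2 := (okx_iff F a hD p).1 (h p)
    rw [x_mem F a hD hp] at h2
    exact h2
  · intro h p
    rw [okx_iff F a hD p]
    by_cases h5 : ∃ g, p ∈ y g
    · obtain ⟨g, hg⟩ := h5
      rw [x_mem F a hD hg]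
      exact h g p hg
    · push Not at h5
      rw [x_not F a h5]
      exact okp_zero a _ p

theorem conf_move {D : Dt} (a : Fin F.sys.m → D.V) (b : Fin F.sys.m → D.Z)
    (y : Ext D → Finset F.sys.P)
    (h1 : y 1 = ∅) (hD : F.sys.Dj y) (g : Ext D) (p : F.sys.P) (hp : p ∈ y g) (z' : D.Z)
    (hz : z' ≠ 0) :
    F.xOf a (F.sys.mv y g ⟨g.v, g.z + z'⟩ p) = F.xOf a y ∧
      F.zOf b (F.sys.mv y g ⟨g.v, g.z + z'⟩ p) = F.zOf b y + Finsupp.single (Sum.inr p) z' := by
  have hg : (⟨g.v, g.z + z'⟩ : Ext D) ≠ g := by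
    intro h
    have h2 : g.z + z' = g.z := congrArg Ext.z h
    exact hz (by simpa using h2)
  constructor
  · obtain ⟨e1, e2, e3⟩ := cf_mv F.sys a (fun g : Ext D => g.v) hD hg hp
    ext i : 1
    rcases i with j | q
    · rw [x_inl, x_inl]
    · by_cases hq : q = p
      · rw [hq, x_mem F a hD hp]
        exact e2
      · exact e3 q hq
  · obtain ⟨e1, e2, e3⟩ := cf_mv F.sys b (fun g : Ext D => g.z) hD hg hp
    ext i : 1
    rw [Finsupp.add_apply]
    rcases i with j | q
    · rw [z_inl, z_inl, Finsupp.single_eq_of_ne (fun h => by cases h), add_zero]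
    · by_cases hq : q = p
      · rw [hq, z_mem F b hD hp, Finsupp.single_eq_same]
        exact e2
      · rw [Finsupp.single_eq_of_ne (fun h => hq (Sum.inr.inj h)), add_zero]
        exact e3 q hq

theorem span_conf {D : Dt} (a : Fin F.sys.m → D.V) (y : Ext D → Finset F.sys.P)
    (h1 : y 1 = ∅) (hD : F.sys.Dj y) :
    Submodule.span (ZMod 2) (Set.range (F.xOf a y)) = ⊤ ↔
      F.sys.Span a (Finset.univ.filter fun v => (F.sys.mV y v).Nonempty) := by
  unfold Sys.Span
  have h : Submodule.span (ZMod 2) (Set.range (F.xOf a y)) =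
      Submodule.span (ZMod 2) (Set.range a ∪
        ((Finset.univ.filter fun v => (F.sys.mV y v).Nonempty : Finset D.V) : Set D.V)) := by
    apply le_antisymm
    · rw [Submodule.span_le]
      rintro _ ⟨i, rfl⟩
      rcases i with j | p
      · rw [x_inl]
        exact Submodule.subset_span (Or.inl ⟨j, rfl⟩)
      · by_cases h5 : ∃ g, p ∈ y g
        · obtain ⟨g, hg⟩ := h5
          rw [x_mem F a hD hg]
          by_cases h6 : g.v = 0
          · rw [h6]
            exact Submodule.zero_mem _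
          · refine Submodule.subset_span (Or.inr ?_)
            rw [Finset.mem_coe, Finset.mem_filter]
            exact ⟨Finset.mem_univ _, p, mem_mV.2 ⟨h6, g, rfl, hg⟩⟩
        · push Not at h5
          rw [x_not F a h5]
          exact Submodule.zero_mem _
    · rw [Submodule.span_le]
      rintro v (⟨j, rfl⟩ | hv)
      · exact Submodule.subset_span ⟨Sum.inl j, x_inl F a y j⟩
      · rw [Finset.mem_coe, Finset.mem_filter] at hv
        obtain ⟨_, p, hp⟩ := hv
        obtain ⟨_, g, hg, hp'⟩ := mem_mV.1 hp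
        exact Submodule.subset_span ⟨Sum.inr p, by rw [x_mem F a hD hp', hg]⟩
  rw [h]

end Frm

end Pool.Agent.H98.MF
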