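import Pool.Agent.H98.MF.MDefs
import Pool.Agent.H98.MF.C.Stm

/-!
# Project MK4 (MP_a3214d): the embedding theorem over `k`, from the local conditions
-/

set_option autoImplicit false

open scoped BigOperators Pointwise
open NumberField IsDedekindDomain Filter

namespace Pool.Agent.H98.MF

open Pool.Agent.H98.MK (sg)
open Pool.Agent.H98.ML (Dt Ext Wt norb hind)

namespace Frm

variable {k : Type} [Field k] [NumberField k] (F : Frm k)

theorem m5b_inl {S : Finset (HeightOneSpectrum (𝓞 k))} {P : HeightOneSpectrum (𝓞 k)}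
    (hP : P ∈ S) : (Sum.inl P : Pl k) ∈ pls S :=
  Finset.inl_mem_disjSum.2 hP

theorem m5b_inr (S : Finset (HeightOneSpectrum (𝓞 k))) (φ : k →+* ℝ) :
    (Sum.inr φ : Pl k) ∈ pls S :=
  Finset.inr_mem_disjSum.2 (Finset.mem_univ φ)

theorem embed4_of (hL : LIn k) (hH : HPSt k) {D : Dt} {x : F.I →₀ D.V}
    {r s : ℕ} (A : Fin r → kˣ) (B : Fin s → Fin r → kˣ)
    (loc : ∀ v : Pl k, F.LocL D x v ↔
      ∀ t, Triv (DecP v) (fun i => (A i : k)) (fun i => (B t i : k)))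
    (lif : (∃ f : Gm k → D.Z, F.IsLift D x f) ↔
      ∀ t, Triv ⊤ (fun i => (A i : k)) (fun i => (B t i : k)))
    (okx : ∀ p, F.okx D x p ↔ ∀ t, ∑ i, hs (F.pl p) (A i : k) (B t i : k) = 0)
    (h : F.Sol D x) : ∃ f : Gm k → D.Z, F.IsLift D x f := by
  refine lif.2 fun t => hH r A (B t) (fun P => ?_) (fun φ => ?_)
  · by_cases hP : P ∈ F.S
    · exact (loc (Sum.inl P)).1 (h.2 _ (m5b_inl hP)) t
    · obtain ⟨p, rfl⟩ := (F.pl_iff P).2 hP
      exact (hL.triv (F.pl p) A (B t)).2 ((okx p).1 (h.1 p) t)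
  · exact (loc (Sum.inr φ)).1 (h.2 _ (m5b_inr F.S φ)) t

end Frm

end Pool.Agent.H98.MF
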