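import Pool.Agent.H98.MF.LocTriv
import Pool.Agent.H98.MF.EmbedKA

/-!
# Project MK4 (MP_a3214d), row M5b: the embedding theorem over `k`
-/

set_option autoImplicit false

open scoped BigOperators Pointwise
open NumberField IsDedekindDomain Filter

namespace Pool.Agent.H98.MF

open Pool.Agent.H98.MK (sg)
open Pool.Agent.H98.ML (Dt Ext Wt norb hind)

namespace Frm

variable {k : Type} [Field k] [NumberField k] (F : Frm k)

theorem embed4 (hL : LIn k) (hH : HPSt k) {D : Dt} {x : F.I →₀ D.V} (h : F.Sol D x) :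
    ∃ f : Gm k → D.Z, F.IsLift D x f :=
  F.embed4_of hL hH (F.AA x) (F.BB D x) (F.locL_iff D x) (F.lift_iff D x)
    (fun p => F.okx_iff hL D x p) h

end Frm

end Pool.Agent.H98.MF
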