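import Pool.Agent.H98.MF.MDefs
import Pool.Agent.H98.MF.SClassSum

/-!
# Project MK4, row MF-M8: a configuration with trivial local data (helper78)
-/

set_option autoImplicit false

open scoped BigOperators Pointwise
open NumberField IsDedekindDomain Filter

namespace Pool.Agent.H98.MF

open Pool.Agent.H98.MK (sg)
open Pool.Agent.H98.ML (Dt Ext Wt norb hind)

namespace Frm

variable {k : Type} [Field k] [NumberField k] (F : Frm k)

/-- the element of the group attached to a unit vector -/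
def x0g {D : Dt} (i : Fin D.r) : Ext D := ⟨Pi.single i 1, 0⟩

theorem x0g_inj {D : Dt} {i j : Fin D.r} (h : (x0g i : Ext D) = x0g j) : i = j := by
  by_contra hij
  have h1 := congrFun (congrArg Ext.v h) i
  simp only [x0g, Pi.single_eq_same, Pi.single_eq_of_ne hij] at h1
  exact one_ne_zero h1

theorem x0g_ne {D : Dt} (i : Fin D.r) : (1 : Ext D) ≠ x0g i := by
  intro h
  have h1 := congrFun (congrArg Ext.v h) i
  simp only [x0g, Pi.single_eq_same, Ext.one_v, Pi.zero_apply] at h1
  exact zero_ne_one h1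

open Classical in
/-- the configuration of the auxiliary primes -/
noncomputable def x0y {D : Dt} (π : Pr F.sys D) (g : Ext D) : Finset F.sys.P :=
  (Finset.univ.filter fun i => g = x0g i).image π.p

theorem x0_mem {D : Dt} (π : Pr F.sys D) (g : Ext D) (p : F.sys.P) :
    p ∈ F.x0y π g ↔ ∃ i, g = x0g i ∧ π.p i = p := by
  classical
  unfold x0y
  simp only [Finset.mem_image, Finset.mem_filter, Finset.mem_univ, true_and]

theorem x0_mV {D : Dt} (π : Pr F.sys D) (v : D.V) (p : F.sys.P)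
    (h : p ∈ F.sys.mV (F.x0y π) v) : ∃ i, v = Pi.single i 1 ∧ π.p i = p := by
  classical
  unfold Sys.mV at h
  split_ifs at h with hv
  · exact absurd h (Finset.notMem_empty _)
  · obtain ⟨g, hg, hp⟩ := Finset.mem_biUnion.1 h
    obtain ⟨i, rfl, hi⟩ := (F.x0_mem π g p).1 hp
    exact ⟨i, (Finset.mem_filter.1 hg).2.symm, hi⟩

theorem x0_val {D : Dt} (π : Pr F.sys D) (i : Fin D.r) :
    F.xOf (fun _ => (0 : D.V)) (F.x0y π) (Sum.inr (π.p i)) = Pi.single i 1 := by
  classical
  unfold xOf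
  rw [Finsupp.add_apply, Finsupp.finsetSum_apply, Finsupp.finsetSum_apply]
  have h1 : ∀ j ∈ (Finset.univ : Finset (Fin F.sys.m)),
      (Finsupp.single (Sum.inl j : F.I) (0 : D.V)) (Sum.inr (π.p i)) = 0 := fun j _ => by
    rw [Finsupp.single_zero, Finsupp.zero_apply]
  rw [Finset.sum_eq_zero h1, zero_add, Finset.sum_eq_single (x0g i)]
  · rw [Finsupp.finsetSum_apply, Finset.sum_eq_single_of_mem (π.p i)
      ((F.x0_mem π _ _).2 ⟨i, rfl, rfl⟩)]
    · exact Finsupp.single_eq_same
    · intro q _ hq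
      exact Finsupp.single_eq_of_ne (fun h => hq (Sum.inr_injective h).symm)
  · intro g _ hg
    rw [Finsupp.finsetSum_apply]
    refine Finset.sum_eq_zero fun q hq => ?_
    obtain ⟨j, rfl, hj⟩ := (F.x0_mem π g q).1 hq
    refine Finsupp.single_eq_of_ne (fun h => hg ?_)
    rw [← hj] at h
    rw [π.inj (Sum.inr_injective h)]
  · intro h
    exact absurd (Finset.mem_univ _) h

theorem x0_solS (D : Dt) : F.solS D (fun _ => 0) (fun _ => 0) := by
  classical
  refine ⟨0, ⟨fun j => rfl, fun v => ?_⟩, fun v _ => ?_⟩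
  · unfold mX
    split_ifs with hv
    · rfl
    · have h1 : ((0 : F.I →₀ D.V).support.preimage Sum.inr Sum.inr_injective.injOn).filter
          (fun p : F.sys.P => (0 : F.I →₀ D.V) (Sum.inr p) = v) = ∅ := by
        refine Finset.filter_eq_empty_iff.2 fun p hp => ?_
        simp at hp
      rw [h1]
      rfl
  · refine ⟨fun _ => 0, IsLocallyConstant.const 0, fun σ _ τ _ => ?_⟩
    have h1 : ∀ σ : Gm k, F.par (0 : F.I →₀ D.V) σ = 0 := fun σ => by
      unfold par
      exact Finsupp.sum_zero_index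
    rw [h1, h1, map_zero, add_zero, add_zero]

theorem exists_x0 (D : Dt) : ∃ y : Ext D → Finset F.sys.P, F.Good D 0 y ∧
    ∀ v, F.sys.tys (F.sys.mV y v) = 0 := by
  classical
  obtain ⟨π⟩ := exists_Pr F.sys D
  have hty : ∀ v, F.sys.tys (F.sys.mV (F.x0y π) v) = 0 := by
    intro v
    unfold Sys.tys
    refine Finset.sum_eq_zero fun p hp => ?_
    obtain ⟨i, -, rfl⟩ := F.x0_mV π v p hp
    exact π.ty i
  refine ⟨F.x0y π, ⟨?_, ?_, ?_, ?_, ?_⟩, hty⟩
  · refine Finset.eq_empty_of_forall_notMem fun p hp => ?_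
    obtain ⟨i, hi, -⟩ := (F.x0_mem π _ _).1 hp
    exact x0g_ne i hi
  · intro g g' hgg
    rw [Finset.disjoint_left]
    intro p hp hp'
    obtain ⟨i, rfl, hi⟩ := (F.x0_mem π _ _).1 hp
    obtain ⟨j, rfl, hj⟩ := (F.x0_mem π _ _).1 hp'
    exact hgg (by rw [π.inj (hi.trans hj.symm)])
  · intro g p hp
    obtain ⟨i, rfl, rfl⟩ := (F.x0_mem π _ _).1 hp
    unfold Sys.okp
    have h1 : F.sys.lam (π.p i) = 0 := by
      unfold Sys.lam
      rw [π.ty i, dotProduct_zero]
    have h2 : ∀ j ∈ (Finset.univ : Finset (Fin F.sys.m)),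
        F.sys.ty (π.p i) j • D.B ((0 : Fin F.sys.m → D.V) j) (x0g i : Ext D).v = 0 := by
      intro j _
      rw [π.ty i, Pi.zero_apply, zero_smul]
    rw [h1, zero_smul, Finset.sum_eq_zero h2, add_zero]
    refine Finset.sum_eq_zero fun u _ => ?_
    by_cases hu : u = Pi.single i 1
    · subst hu
      have h3 : D.B (Pi.single i 1) (x0g i : Ext D).v = 0 := Ext.two_Z _
      rw [h3, smul_zero]
    · have h4 : ∑ q ∈ F.sys.mV (F.x0y π) u, F.sys.J q (π.p i) = 0 := by
        refine Finset.sum_eq_zero fun q hq => ?_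
        obtain ⟨j, hj, rfl⟩ := F.x0_mV π u q hq
        refine π.res j i fun h => hu ?_
        rw [hj, h]
      rw [h4, zero_smul]
  · rw [eq_top_iff, ← (Pi.basisFun (ZMod 2) (Fin D.r)).span_eq]
    refine Submodule.span_mono ?_
    rintro _ ⟨i, rfl⟩
    refine ⟨Sum.inr (π.p i), ?_⟩
    rw [Pi.basisFun_apply]
    exact F.x0_val π i
  · have h5 : (fun v => F.sys.tys (F.sys.mV (F.x0y π) v)) = fun _ => 0 := funext hty
    rw [h5]
    exact F.x0_solS D

end Frm

end Pool.Agent.H98.MF
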