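import Pool.Agent.H98.MF.HomParamK0
import Pool.Agent.H98.MF.ParK

/-!
# Project MK4 (MP_a3214d), row M2: homomorphisms to `Ext D` over a number field
-/

set_option autoImplicit false

open scoped BigOperators Pointwise
open NumberField IsDedekindDomain Filter

namespace Pool.Agent.H98.MF

open Pool.Agent.H98.MK (sg)
open Pool.Agent.H98.ML (Dt Ext Wt norb hind)

namespace Frm

variable {k : Type} [Field k] [NumberField k] (F : Frm k)

theorem hom_param (D : Dt) (ρ : Gm k →* Ext D) (hρ : IsLocallyConstant ρ) :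
    ∃ (x : F.I →₀ D.V) (f : Gm k → D.Z) (h : F.IsLift D x f), ρ = lh h :=
  F.hom_param_of D (fun h hlc hh => F.par_exists h hlc hh) ρ hρ

theorem lh_inj {D : Dt} {x x' : F.I →₀ D.V} {f f' : Gm k → D.Z} (h : F.IsLift D x f)
    (h' : F.IsLift D x' f') (he : lh h = lh h') : x = x' ∧ f = f' :=
  F.lh_inj_of (fun x y hxy => F.par_inj x y hxy) h h' he

theorem lift_diff {D : Dt} {x : F.I →₀ D.V} {f f' : Gm k → D.Z} (h : F.IsLift D x f)
    (h' : F.IsLift D x f') : ∃ z : F.I →₀ D.Z, ∀ σ, f' σ = f σ + F.par z σ :=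
  F.lift_diff_of (fun h hlc hh => F.par_exists h hlc hh) h h'

theorem lh_surj {D : Dt} {x : F.I →₀ D.V} {f : Gm k → D.Z} (h : F.IsLift D x f) :
    Function.Surjective (lh h) ↔ Submodule.span (ZMod 2) (Set.range x) = ⊤ :=
  F.lh_surj_of (fun x => F.par_surj x) h

end Frm

end Pool.Agent.H98.MF
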