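import Pool.Agent.H98.MF.ExistsInvA
import Pool.Agent.H98.MF.EmbedK
import Pool.Agent.H98.MF.LocData
import Pool.Agent.H98.MF.Crd
import Pool.Agent.H98.MF.Conf
import Pool.Agent.H98.MF.ExistsX0K
import Pool.Agent.H98.MF.NormalK
import Pool.Agent.H98.MF.HomParamK

/-!
# Project MK4 (MP_a3214d), row MF-M9: the invariants of configurations (helper81)
-/

set_option autoImplicit false

open scoped BigOperators Pointwise
open NumberField IsDedekindDomain Filter

namespace Pool.Agent.H98.MF

open Pool.Agent.H98.MK (sg)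
open Pool.Agent.H98.ML (Dt Ext Wt norb hind)

namespace Frm

variable {k : Type} [Field k] [NumberField k] (F : Frm k)

/-- the results of the other rows -/
theorem invIn (R : Rx k) (hK : KIn k) (hL : LIn k) (hH : HPSt k) (D : Dt) : F.InvIn R D where
  normal := fun h => F.exists_normal R h
  embed := fun h => F.embed4 hL hH h
  par_data := fun h h' => F.par_data hK h h'
  locL_data := fun h => F.locL_data hK h
  crd_exists := fun h h1 h2 => F.crd_exists hK h h1 h2
  crd_unique := fun z e z' e' h => F.crd_unique hK z e z' e' h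
  pi_loc := fun p z => F.pi_loc hK p z
  conf_data := fun a y h1 hD => F.conf_data a y h1 hD
  conf_move := fun a b y h1 hD g p hp z' hz => F.conf_move a b y h1 hD g p hp z' hz
  exists_x0 := F.exists_x0 D
  lh_surj := fun h => F.lh_surj h
  lh_lc := fun h => F.lh_lc h

open Classical in
/-- the invariants of configurations and the number of unit twists with a given part at `S` -/
theorem exists_inv (R : Rx k) (hK : KIn k) (hL : LIn k) (hH : HPSt k) (D : Dt)
    (H0 : Subgroup (Ext D)) :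
    ∃ (nf : (F.I →₀ D.V) → Gm k → D.Z) (Q : Finset ℕ)
      (Nt : ℕ → (Fin F.sys.m → D.V) → (D.V → F.sys.T) → (Fin F.sys.m → D.Z) → ℕ)
      (E : (Fin F.sys.m → D.V) → (Ext D → Finset F.sys.P) → (Fin F.sys.m → D.Z)),
      (∀ q ∈ Q, 0 < q) ∧
      (∃ q ∈ Q, ∃ e, 1 ≤ Nt q 0 0 e) ∧
      (∀ a y, F.Good D a y → ∀ g p, p ∈ y g → ∀ z' : D.Z, z' ≠ 0 →
        E a (F.sys.mv y g ⟨g.v, g.z + z'⟩ p) = fun j => E a y j + F.sys.ty p j • z') ∧
      (∀ x, F.Sol D x → F.IsNormal R D x (nf x)) ∧
      ∀ a y, F.Good D a y → ∀ h : F.IsNormal R D (F.xOf a y) (nf (F.xOf a y)),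
        (∀ b, F.qS R H0 (lh (h.toIsLift.add (F.zOf b y))) ∈ Q) ∧
        ∀ q ∈ Q, Nat.card {b : Fin F.sys.m → D.Z //
          F.qS R H0 (lh (h.toIsLift.add (F.zOf b y))) = q} =
            Nt q a (fun v => F.sys.tys (F.sys.mV y v)) (E a y) :=
  Inv.exists_inv_of (F.invIn R hK hL hH D) H0

end Frm

end Pool.Agent.H98.MF
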