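import Pool.Agent.H98.MF.UDefs
import Pool.Agent.H98.MF.ExistsInv

/-!
# Project MK5 (MP_a3214d), row MF-U5: invariants of configurations, units and unramified classes
-/

set_option autoImplicit false

open scoped BigOperators Pointwise
open NumberField IsDedekindDomain Filter

namespace Pool.Agent.H98.MF

open Pool.Agent.H98.MK (sg)
open Pool.Agent.H98.ML (Dt Ext Wt norb hind)

namespace Inv5

open Pool.Agent.H98.MF.Frm Pool.Agent.H98.MF.Frm.Inv

section

variable {k : Type} [Field k] [NumberField k] {F : Frm k} {R : Rx k} {D : Dt}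

/-- coordinates of a lift on the elements which act trivially on the unramified quadratic
extensions at the primes of `S` -/
def CrU (U : Ur k) (R : Rx k) (D : Dt) (a : Fin F.sys.m → D.V) (δ : D.V → F.sys.T)
    (c : Fin F.sys.m → D.Z) (f : Gm k → D.Z) : Prop :=
  ∀ P ∈ F.S, ∀ σ ∈ Dec P, chi (U.ur P : k) σ = 0 →
    f σ = nf R D (x0 F D a δ) σ + F.parU c σ

theorem parW_eq {U : Ur k} (hU : UnU U F) : ∃ C : (Fin F.sys.m → D.Z) → (Fin F.sys.m → D.Z),
    ∀ e, ∀ P ∈ F.S, ∀ σ ∈ Dec P, chi (U.ur P : k) σ = 0 →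
      F.parW e σ = F.parU (C e) σ := by
  choose c hc using fun j => hU (F.w j)
  refine ⟨fun e i => ∑ j, c j i • e j, fun e P hP σ hσ h0 => ?_⟩
  unfold parW parU
  calc ∑ j, chi (F.w j : k) σ • e j
      = ∑ j, ∑ i, (c j i * chi (F.u i : k) σ) • e j := by
        refine Finset.sum_congr rfl fun j _ => ?_
        rw [hc j P hP σ hσ h0, Finset.sum_smul]
    _ = ∑ i, ∑ j, (c j i * chi (F.u i : k) σ) • e j := Finset.sum_comm
    _ = ∑ i, chi (F.u i : k) σ • ∑ j, c j i • e j := by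
        refine Finset.sum_congr rfl fun i _ => ?_
        rw [Finset.smul_sum]
        refine Finset.sum_congr rfl fun j _ => ?_
        rw [smul_smul, mul_comm]

/-- the part at `S` of given data -/
def TPU (U : Ur k) (R : Rx k) (H0 : Subgroup (Ext D)) (a : Fin F.sys.m → D.V)
    (δ : D.V → F.sys.T) (c : Fin F.sys.m → D.Z) (n : ℕ) : Prop :=
  ∃ (x : F.I →₀ D.V) (f : Gm k → D.Z) (hl : F.IsLift D x f),
    Submodule.span (ZMod 2) (Set.range x) = ⊤ ∧ F.Dat x a δ ∧ CrU U R D a δ c f ∧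
      F.qS R H0 (lh hl) = n

open Classical in
/-- the part at `S` of given data -/
noncomputable def tpU (U : Ur k) (R : Rx k) (H0 : Subgroup (Ext D)) (a : Fin F.sys.m → D.V)
    (δ : D.V → F.sys.T) (c : Fin F.sys.m → D.Z) : ℕ :=
  if h : ∃ n, TPU U R H0 a δ c n then h.choose else 0

theorem TPU_unique {U : Ur k} (hR : RxU U R) (I : F.InvIn R D) {H0 : Subgroup (Ext D)}
    {a : Fin F.sys.m → D.V} {δ : D.V → F.sys.T} {c : Fin F.sys.m → D.Z} {n n' : ℕ}
    (h : TPU U R H0 a δ c n) (h' : TPU U R H0 a δ c n') : n = n' := by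
  obtain ⟨x, f, hl, h1, h2, h3, rfl⟩ := h
  obtain ⟨x', f', hl', h1', h2', h3', rfl⟩ := h'
  unfold qS
  refine Finset.prod_congr rfl fun P hP => ?_
  congr 1
  refine hR (Ext D) (lh hl) (lh hl') H0 (I.lh_lc hl) (I.lh_lc hl') ((I.lh_surj hl).2 h1)
    ((I.lh_surj hl').2 h1') P fun σ hσ h0 => ?_
  have hv : (Sum.inl P : Pl k) ∈ pls F.S := Finset.inl_mem_disjSum.2 hP
  apply Ext.ext
  · exact I.par_data h2 h2' _ hv σ hσ
  · exact (h3 P hP σ hσ h0).trans (h3' P hP σ hσ h0).symm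

theorem tpU_eq {U : Ur k} (hR : RxU U R) (I : F.InvIn R D) {H0 : Subgroup (Ext D)}
    {a : Fin F.sys.m → D.V} {δ : D.V → F.sys.T} {c : Fin F.sys.m → D.Z} {n : ℕ}
    (h : TPU U R H0 a δ c n) : tpU U R H0 a δ c = n := by
  have h' : ∃ n, TPU U R H0 a δ c n := ⟨n, h⟩
  unfold tpU
  rw [dif_pos h']
  exact TPU_unique hR I h'.choose_spec h

/-- the coordinates of a configuration -/
theorem crdU {U : Ur k} (hU : UnU U F) (I : F.InvIn R D) {a : Fin F.sys.m → D.V}
    {y : Ext D → Finset F.sys.P} (h : F.Good D a y) :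
    ∃ c, CrU U R D a (dl y) c (fy R a y) := by
  obtain ⟨C, hC⟩ := parW_eq (D := D) hU
  obtain ⟨c, hc⟩ := EE_spec I h
  refine ⟨c + C (EE R D a y), fun P hP σ hσ h0 => ?_⟩
  have hv : (Sum.inl P : Pl k) ∈ pls F.S := Finset.inl_mem_disjSum.2 hP
  have h1 := hc _ hv σ hσ
  simp only at h1
  rw [h1, hC _ P hP σ hσ h0, parU_add]

/-- the part at `S` of the lifts of a configuration -/
theorem qS_eqU {U : Ur k} (hR : RxU U R) (I : F.InvIn R D) {a : Fin F.sys.m → D.V}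
    {y : Ext D → Finset F.sys.P} (H0 : Subgroup (Ext D)) (hg : F.Good D a y)
    {c : Fin F.sys.m → D.Z} (hc : CrU U R D a (dl y) c (fy R a y))
    (h : F.IsNormal R D (F.xOf a y) (nf R D (F.xOf a y))) (b : Fin F.sys.m → D.Z) :
    tpU U R H0 a (dl y) (c + b) = F.qS R H0 (lh (h.toIsLift.add (F.zOf b y))) := by
  refine tpU_eq hR I ⟨F.xOf a y, _, h.toIsLift.add (F.zOf b y), hg.2.2.2.1, (good_sol I hg).2, ?_,
    rfl⟩
  intro P hP σ hσ h0
  have h1 := hc P hP σ hσ h0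
  unfold fy at h1
  show nf R D (F.xOf a y) σ + F.par (F.zOf b y) σ =
    nf R D (x0 F D a (dl y)) σ + F.parU (c + b) σ
  rw [par_zOf, ← add_assoc, h1, parU_add]
  abel

open Classical in
/-- the invariants from the other rows -/
theorem exists_inv5_of {U : Ur k} (hU : UnU U F) (hR : RxU U R) (I : F.InvIn R D)
    (H0 : Subgroup (Ext D)) :
    ∃ (nf : (F.I →₀ D.V) → Gm k → D.Z) (Q : Finset ℕ)
      (Nt : ℕ → (Fin F.sys.m → D.V) → (D.V → F.sys.T) → ℕ),
      (∀ q ∈ Q, 0 < q) ∧ (∃ q ∈ Q, 1 ≤ Nt q 0 0) ∧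
      (∀ x, F.Sol D x → F.IsNormal R D x (nf x)) ∧
      ∀ a y, F.Good D a y → ∀ h : F.IsNormal R D (F.xOf a y) (nf (F.xOf a y)),
        (∀ b, F.qS R H0 (Frm.lh (h.toIsLift.add (F.zOf b y))) ∈ Q) ∧
        ∀ q ∈ Q, Nat.card {b : Fin F.sys.m → D.Z //
          F.qS R H0 (Frm.lh (h.toIsLift.add (F.zOf b y))) = q} =
            Nt q a (fun v => F.sys.tys (F.sys.mV y v)) := by
  let Q : Finset ℕ := ((Finset.univ : Finset ((Fin F.sys.m → D.V) × (D.V → F.sys.T) ×
    (Fin F.sys.m → D.Z))).image fun t => tpU U R H0 t.1 t.2.1 t.2.2).filter fun q => 0 < q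
  have hQ : ∀ (a : Fin F.sys.m → D.V) (δ : D.V → F.sys.T) (c : Fin F.sys.m → D.Z),
      0 < tpU U R H0 a δ c → tpU U R H0 a δ c ∈ Q := by
    intro a δ c h
    rw [Finset.mem_filter]
    exact ⟨Finset.mem_image.2 ⟨(a, δ, c), Finset.mem_univ _, rfl⟩, h⟩
  let Nt : ℕ → (Fin F.sys.m → D.V) → (D.V → F.sys.T) → ℕ :=
    fun q a δ => Nat.card {c : Fin F.sys.m → D.Z // tpU U R H0 a δ c = q}
  have main : ∀ a y, F.Good D a y → ∀ h : F.IsNormal R D (F.xOf a y) (nf R D (F.xOf a y)),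
        (∀ b, F.qS R H0 (lh (h.toIsLift.add (F.zOf b y))) ∈ Q) ∧
        ∀ q ∈ Q, Nat.card {b : Fin F.sys.m → D.Z //
          F.qS R H0 (lh (h.toIsLift.add (F.zOf b y))) = q} =
            Nt q a (fun v => F.sys.tys (F.sys.mV y v)) := by
    intro a y hg h
    obtain ⟨c, hc⟩ := crdU hU I hg
    have key := qS_eqU hR I H0 hg hc h
    refine ⟨fun b => ?_, fun q _ => ?_⟩
    · rw [← key b]
      refine hQ _ _ _ ?_
      rw [key b]
      exact qS_pos H0 _
    · refine Nat.card_congr ((Equiv.addLeft c).subtypeEquiv fun b => ?_)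
      rw [← key b]
      rfl
  refine ⟨nf R D, Q, Nt, fun q hq => (Finset.mem_filter.1 hq).2, ?_, ?_, main⟩
  · obtain ⟨y, hy, hty⟩ := I.exists_x0
    have hsol := (good_sol I hy).1
    have hn := nf_spec I hsol
    obtain ⟨c, hc⟩ := crdU hU I hy
    have key := qS_eqU hR I H0 hy hc hn 0
    have h0 : (dl y : D.V → F.sys.T) = 0 := by
      funext v
      exact hty v
    refine ⟨_, (main 0 y hy hn).1 0, ?_⟩
    rw [← key, h0]
    have : Nonempty {c' : Fin F.sys.m → D.Z // tpU U R H0 0 0 c' = tpU U R H0 0 0 (c + 0)} :=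
      ⟨⟨c + 0, rfl⟩⟩
    exact Nat.card_pos
  · intro x hx
    exact nf_spec I hx

end

end Inv5

section

variable {k : Type} [Field k] [NumberField k]

open Classical in
/-- the invariants of configurations when every class is the class of a unit up to unramified
classes -/
theorem exists_inv5 (F : Frm k) (U : Ur k) (hU : UnU U F) (R : Rx k) (hR : RxU U R)
    (hK : KIn k) (hL : LIn k) (hH : HPSt k) (D : Dt) (H0 : Subgroup (Ext D)) :
    ∃ (nf : (F.I →₀ D.V) → Gm k → D.Z) (Q : Finset ℕ)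
      (Nt : ℕ → (Fin F.sys.m → D.V) → (D.V → F.sys.T) → ℕ),
      (∀ q ∈ Q, 0 < q) ∧ (∃ q ∈ Q, 1 ≤ Nt q 0 0) ∧
      (∀ x, F.Sol D x → F.IsNormal R D x (nf x)) ∧
      ∀ a y, F.Good D a y → ∀ h : F.IsNormal R D (F.xOf a y) (nf (F.xOf a y)),
        (∀ b, F.qS R H0 (Frm.lh (h.toIsLift.add (F.zOf b y))) ∈ Q) ∧
        ∀ q ∈ Q, Nat.card {b : Fin F.sys.m → D.Z //
          F.qS R H0 (Frm.lh (h.toIsLift.add (F.zOf b y))) = q} =
            Nt q a (fun v => F.sys.tys (F.sys.mV y v)) :=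
  Inv5.exists_inv5_of hU hR (F.invIn R hK hL hH D) H0

end

end Pool.Agent.H98.MF
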