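import Pool.Agent.H98.MF.TDefs

/-!
# Project MK4, row F2: nontrivial characters move
-/

set_option autoImplicit false

open scoped BigOperators

namespace Pool.Agent.H98.MF

open Pool.Agent.H98.MK (sg)
open Pool.Agent.H98.ML (Dt Ext Wt)

/-- nontrivial characters move -/
theorem exists_move {D : Dt} (w : Wt D) (hM : MSp w) (ξ : D.Z) (hξ : ξ ≠ 0) :
    ∃ (g0 : Ext D) (w0 : D.V), g0 ≠ 1 ∧ w.ind g0 = w.m ∧ ξ ⬝ᵥ D.B g0.v w0 ≠ 0 := by
  by_contra hcon
  push Not at hcon
  have hB : ∀ v w0 : D.V, ξ ⬝ᵥ D.B v w0 = 0 := by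
    intro v w0
    have hv : v ∈ Submodule.span (ZMod 2)
        {v : D.V | ∃ g : Ext D, g ≠ 1 ∧ w.ind g = w.m ∧ g.v = v} := by
      have h1 : Submodule.span (ZMod 2)
        {v : D.V | ∃ g : Ext D, g ≠ 1 ∧ w.ind g = w.m ∧ g.v = v} = ⊤ := hM
      rw [h1]
      trivial
    induction hv using Submodule.span_induction with
    | mem x hx =>
      obtain ⟨g, h1, h2, rfl⟩ := hx
      exact hcon g w0 h1 h2
    | zero =>
      unfold Dt.B
      simp
    | add x y _ _ hx hy =>
      have h1 : D.B (x + y) w0 = D.B x w0 + D.B y w0 := by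
        unfold Dt.B
        rw [map_add, LinearMap.add_apply, map_add]
        abel
      rw [h1, dotProduct_add, hx, hy, add_zero]
    | smul c x _ hx =>
      have h1 : D.B (c • x) w0 = c • D.B x w0 := by
        unfold Dt.B
        rw [map_smul, LinearMap.smul_apply, map_smul, smul_add]
      rw [h1, dotProduct_smul, hx, smul_zero]
  have hq : ∀ v : D.V, ξ ⬝ᵥ D.q v = 0 := by
    intro v
    have hv : v ∈ Submodule.span (ZMod 2)
        {v : D.V | ∃ g : Ext D, g ≠ 1 ∧ w.ind g = w.m ∧ g.v = v} := by
      have h1 : Submodule.span (ZMod 2)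
        {v : D.V | ∃ g : Ext D, g ≠ 1 ∧ w.ind g = w.m ∧ g.v = v} = ⊤ := hM
      rw [h1]
      trivial
    induction hv using Submodule.span_induction with
    | mem x hx =>
      obtain ⟨g, h1, h2, rfl⟩ := hx
      have h3 : g * g = 1 := by
        by_contra h4
        have h5 := w.sqr g h4
        omega
      have h4 : (g * g).z = 0 := by
        rw [h3]
        rfl
      rw [Ext.mul_z, Ext.two_Z, zero_add] at h4
      unfold Dt.q
      rw [h4, dotProduct_zero]
    | zero =>
      unfold Dt.q
      simp
    | add x y _ _ hx hy =>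
      have h1 : D.q (x + y) = D.q x + D.q y + D.B x y := by
        unfold Dt.q Dt.B
        simp only [map_add, LinearMap.add_apply]
        abel
      rw [h1, dotProduct_add, dotProduct_add, hx, hy, hB, add_zero, add_zero]
    | smul c x _ hx =>
      have h1 : D.q (c • x) = c • c • D.q x := by
        unfold Dt.q
        simp only [map_smul, LinearMap.smul_apply]
      rw [h1, dotProduct_smul, dotProduct_smul, hx, smul_zero, smul_zero]
  apply hξ
  funext i
  have hz : ∀ z : D.Z, ξ ⬝ᵥ z = 0 := by
    intro z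
    have hz : z ∈ Submodule.span (ZMod 2) (Set.range fun v : Fin D.r → ZMod 2 => D.β v v) := by
      rw [D.spz]
      trivial
    induction hz using Submodule.span_induction with
    | mem x hx =>
      obtain ⟨v, rfl⟩ := hx
      exact hq v
    | zero => exact dotProduct_zero _
    | add x y _ _ hx hy => rw [dotProduct_add, hx, hy, add_zero]
    | smul c x _ hx => rw [dotProduct_smul, hx, smul_zero]
  have h1 := hz (Pi.single i 1)
  rw [dotProduct_single, mul_one] at h1
  exact h1

end Pool.Agent.H98.MF
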