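import Pool.Agent.H98.MF.UDefs
import Pool.Agent.H98.MF.L.Quad
import Pool.Agent.H98.MF.L.Hs

/-!
# Project MK5 (MP_a3214d): inertia fixes the root of the unramified class
-/

set_option autoImplicit false

open scoped BigOperators Pointwise
open NumberField IsDedekindDomain Filter

namespace Pool.Agent.H98.MF

open Pool.Agent.H98.MK (sg)
open Pool.Agent.H98.ML (Dt Ext Wt norb hind)

section

variable {k : Type} [Field k] [NumberField k]

/-- the unramified class is not a square at `P` -/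
private theorem ui_notSq (U : Ur k) (P : HeightOneSpectrum (𝓞 k)) : ¬ LocSq P (U.ur P : k) := by
  intro h
  obtain ⟨π, hπ⟩ := exists_unif P
  have hπ0 : (π : k) ≠ 0 := by
    intro h0
    rw [h0, ord_zero] at hπ
    exact zero_ne_one hπ
  have h1 := U.pair P (Units.mk0 (π : k) hπ0)
  rw [Units.val_mk0, h.hs_left hπ0, hπ] at h1
  exact absurd h1 (by decide)

variable {L : Type} [Field L] [NumberField L] [Algebra k L]

/-- the case of a quadratic extension: no ramified conjugation -/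
private theorem ui_quad (U : Ur k) (P : HeightOneSpectrum (𝓞 k)) {s : L}
    (hs : s ^ 2 = algebraMap k L (U.ur P : k)) (hL : Module.finrank k L = 2)
    (Q : HeightOneSpectrum (𝓞 L)) (hQ : Over P Q) (σ : L ≃ₐ[k] L) (hσ : σ s = -s)
    (hin : ∀ x : 𝓞 L, qxR σ x - x ∈ Q.asIdeal) : False := by
  have ha : (U.ur P : k) ≠ 0 := (U.ur P).ne_zero
  have hn := ui_notSq U P
  have hns := not_isSquare_of_not_locSq ha hn
  obtain ⟨σ', hσ', hσσ, hall⟩ := qx_conj hs hns hL
  have hs0 : s ≠ 0 := by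
    intro h0
    rw [h0] at hs
    have h1 : algebraMap k L (U.ur P : k) = 0 := by rw [← hs]; ring
    exact ha ((map_eq_zero (algebraMap k L)).1 h1)
  have hσ1 : σ ≠ 1 := by
    rintro rfl
    have h1 : s = -s := hσ
    exact hs0 (self_eq_neg.1 h1)
  have heq : σ' = σ := ((hall σ).resolve_left hσ1).symm
  subst heq
  have hcj : cj σ' Q = Q := by
    by_contra h
    exact hn (locSq_of_cj_ne hs hns hL σ' hσ' hQ h)
  have hu : ∀ Q' : HeightOneSpectrum (𝓞 L), Over P Q' → Q' = Q := by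
    intro Q' h'
    rcases over_conj hs hns hL σ' hσ' hall hQ h' with h | h
    · exact h
    · rw [h, hcj]
  have hef := ef_of_unique hL hQ hu
  have : Algebra.IsQuadraticExtension k L := { finrank_eq_two' := hL }
  have : FiniteDimensional k L := inferInstance
  -- the inertia group has two elements
  have hQp : Q.asIdeal.IsPrime := Q.isPrime
  have hunder : Q.asIdeal.under (𝓞 k) = P.asIdeal := hQ
  have hp0 : (Q.asIdeal.under (𝓞 k)) ≠ ⊥ := by
    rw [hunder]
    exact P.ne_bot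
  have hmax0 : (Q.asIdeal.under (𝓞 k)).IsMaximal := Ideal.IsPrime.isMaximal inferInstance hp0
  have hfin0 : Finite (𝓞 k ⧸ Q.asIdeal.under (𝓞 k)) :=
    Ring.HasFiniteQuotients.finiteQuotient hp0
  have e1 : Nat.card (Q.asIdeal.inertia (L ≃ₐ[k] L)) = Q.asIdeal.ramificationIdx (𝓞 k) := by
    rw [Ideal.card_inertia_eq_ramificationIdxIn (Q.asIdeal.under (𝓞 k)) Q.asIdeal,
      Ideal.ramificationIdxIn_eq_ramificationIdx (Q.asIdeal.under (𝓞 k)) Q.asIdeal (L ≃ₐ[k] L)]
  have hσI : σ' ∈ Q.asIdeal.inertia (L ≃ₐ[k] L) := fun x => hin x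
  have hcard : Nat.card (Q.asIdeal.inertia (L ≃ₐ[k] L)) ≠ 1 := by
    intro h1
    rw [Subgroup.card_eq_one] at h1
    rw [h1, Subgroup.mem_bot] at hσI
    exact hσ1 hσI
  have e7 : P.asIdeal.ramificationIdx' Q.asIdeal = Q.asIdeal.ramificationIdx (𝓞 k) := by
    rw [← hunder, Ideal.ramificationIdx'_eq_ramificationIdx _ _ hp0]
  have he : P.asIdeal.ramificationIdx' Q.asIdeal = 2 := by
    have h1 : P.asIdeal.ramificationIdx' Q.asIdeal ∣ 2 := ⟨_, hef.symm⟩
    rcases (Nat.dvd_prime Nat.prime_two).1 h1 with h2 | h2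
    · exfalso
      rw [e1, ← e7, h2] at hcard
      exact hcard rfl
    · exact h2
  -- the norm of a uniformizer
  obtain ⟨π, hπ⟩ := exists_unif Q
  have hπ0 : (π : L) ≠ 0 := by
    intro h0
    rw [h0, ord_zero] at hπ
    exact zero_ne_one hπ
  have hnm := qx_norm hs hns hL σ' hσ' hall (π : L)
  have hσπ : σ' (π : L) ≠ 0 := by
    rw [Ne, map_eq_zero_iff σ' σ'.injective]
    exact hπ0
  have ho : ord Q (algebraMap k L (Algebra.norm k (π : L))) = 2 := by
    rw [hnm, ord_mul Q hπ0 hσπ, ← ord_cj, hcj, hπ]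
    norm_num
  rw [hQ.ord_map, he] at ho
  obtain ⟨x, y, hxy⟩ := qx_repr hs hns hL (π : L)
  rw [hxy, qx_norm_form hs hns hL] at ho
  have ho1 : ord P (x ^ 2 - (U.ur P : k) * y ^ 2) = 1 := by
    push_cast at ho
    linarith
  have hb0 : x ^ 2 - (U.ur P : k) * y ^ 2 ≠ 0 := by
    intro h0
    rw [h0, ord_zero] at ho1
    exact zero_ne_one ho1
  have h1 := U.pair P (Units.mk0 _ hb0)
  rw [Units.val_mk0, hs_norm P hb0, ho1] at h1
  exact absurd h1 (by decide)

/-- the unramified class is fixed by inertia -/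
theorem ur_inertia (U : Ur k) (P : HeightOneSpectrum (𝓞 k)) (M : Type) [Field M]
    [NumberField M] [Algebra k M] [IsGalois k M] (Q : Ideal (𝓞 M)) [Q.IsPrime]
    (hQ : Q.comap (algebraMap (𝓞 k) (𝓞 M)) = P.asIdeal) (y : M)
    (hy : y ^ 2 = algebraMap k M (U.ur P : k)) (τ : M ≃ₐ[k] M)
    (hτ : τ ∈ Q.inertia (M ≃ₐ[k] M)) : τ y = y := by
  have h0 : (τ y) ^ 2 = y ^ 2 := by
    rw [← map_pow, hy, AlgEquiv.commutes]
  rcases sq_eq_sq_iff_eq_or_eq_neg.1 h0 with h | h
  · exact h
  exfalso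
  have ha : (U.ur P : k) ≠ 0 := (U.ur P).ne_zero
  have hn := ui_notSq U P
  have hns := not_isSquare_of_not_locSq ha hn
  let F : IntermediateField k M := IntermediateField.adjoin k {y}
  have hyF : y ∈ F := IntermediateField.mem_adjoin_simple_self k y
  have hs : (⟨y, hyF⟩ : F) ^ 2 = algebraMap k F (U.ur P : k) := by
    apply Subtype.ext
    change y ^ 2 = algebraMap k M (U.ur P : k)
    exact hy
  have hirr : Irreducible (Polynomial.X ^ 2 - Polynomial.C (U.ur P : k)) := by
    apply X_pow_sub_C_irreducible_of_prime Nat.prime_two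
    intro b hb
    exact hns ⟨b, by rw [← hb, pow_two]⟩
  have hmin : Polynomial.X ^ 2 - Polynomial.C (U.ur P : k) = minpoly k y := by
    apply minpoly.eq_of_irreducible_of_monic hirr
    · rw [map_sub, map_pow, Polynomial.aeval_X, Polynomial.aeval_C, hy, sub_self]
    · exact Polynomial.monic_X_pow_sub_C _ two_ne_zero
  have hL : Module.finrank k F = 2 := by
    have h1 := IntermediateField.adjoin.finrank (K := k) (x := y)
      (Algebra.IsIntegral.isIntegral y)
    rw [← hmin, Polynomial.natDegree_X_pow_sub_C] at h1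
    exact h1
  have hcomap : (Q.under (𝓞 F)).comap (algebraMap (𝓞 k) (𝓞 F)) = P.asIdeal := by
    rw [← hQ, Ideal.under, Ideal.comap_comap]
    rfl
  have hPF0 : (Q.under (𝓞 F)) ≠ ⊥ := by
    intro h
    rw [h] at hcomap
    apply P.ne_bot
    rw [← hcomap, eq_bot_iff]
    intro x hx
    rw [Ideal.mem_comap, Ideal.mem_bot] at hx
    rw [Ideal.mem_bot]
    exact (map_eq_zero_iff _ (FaithfulSMul.algebraMap_injective (𝓞 k) (𝓞 F))).1 hx
  obtain ⟨σ, hσ, _, _⟩ := qx_conj hs hns hL
  refine ui_quad U P hs hL ⟨Q.under (𝓞 F), inferInstance, hPF0⟩ hcomap σ hσ ?_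
  intro x
  have h1 : τ • (algebraMap (𝓞 F) (𝓞 M) x) - algebraMap (𝓞 F) (𝓞 M) x ∈ Q := hτ _
  have h2 : τ • (algebraMap (𝓞 F) (𝓞 M) x) = algebraMap (𝓞 F) (𝓞 M) (qxR σ x) := by
    apply RingOfIntegers.ext
    change τ (((x : F) : M)) = ((σ (x : F) : F) : M)
    obtain ⟨u, v, huv⟩ := qx_repr hs hns hL (x : F)
    have h3 : σ (x : F) = algebraMap k F u - algebraMap k F v * ⟨y, hyF⟩ := by
      rw [huv, map_add, map_mul, AlgEquiv.commutes, AlgEquiv.commutes, hσ]
      ring
    rw [h3, huv]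
    change τ (algebraMap k M u + algebraMap k M v * y) = algebraMap k M u - algebraMap k M v * y
    rw [map_add, map_mul, AlgEquiv.commutes, AlgEquiv.commutes, h]
    ring
  rw [h2, ← map_sub] at h1
  exact h1

end

end Pool.Agent.H98.MF
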