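import Pool.Agent.H98.MF.UDefs
import Pool.Agent.H98.MF.D.ExRx
import Pool.Agent.H98.MF.UrInertia

/-!
# Project MK5 (MP_a3214d): exponents and the unramified class
-/

set_option autoImplicit false

open scoped BigOperators Pointwise
open NumberField IsDedekindDomain Filter

namespace Pool.Agent.H98.MF

open Pool.Agent.H98.MK (sg)
open Pool.Agent.H98.ML (Dt Ext Wt norb hind)

section

variable {k : Type} [Field k] [NumberField k]

namespace H64U

/-- the data of `exists_rx` with explicit exponents -/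
theorem rx_data (k : Type) [Field k] [NumberField k] :
    ∃ R : Rx k, ∀ P U, R.rex P U = rexp P (fld k U) := by
  refine ⟨{
    rex := fun P U => rexp P (fld k U)
    tau := tauK
    fin := fun U _ => rexp_finite (fld k U)
    prod := fun U hU => ?_
    loc := fun G _ _ ρ ρ' H hc hc' hs hs' P h => ?_
    disc := fun P h2 U hn hU hj W hUW => ?_
    chi := fun P h2 a => ?_ }, fun P U => rfl⟩
  · have := fldK_finite U hU
    exact rdN_eq (fld k U)
  · refine rexp_dec P H ρ ρ' (ker_openK ρ hc) (ker_openK ρ' hc') hs hs' 1 fun σ hσ => ?_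
    rw [h σ hσ, one_mul, inv_one, mul_one]
  · obtain ⟨φ, hφ⟩ := tauK_spec P h2
    exact hφ.disc U hn hU hj W hUW
  · obtain ⟨φ, hφ⟩ := tauK_spec P h2
    rcases Int.even_or_odd (ord P (a : k)) with he | ho
    · rw [(hφ.chi0 (a : k) a.ne_zero he).1]
      exact ((ZMod.intCast_eq_zero_iff_even).2 he).symm
    · rw [hφ.chi1 (a : k) ho]
      exact ((ZMod.intCast_eq_one_iff_odd).2 ho).symm

/-- the quadratic character as a homomorphism -/
noncomputable def chiH (a : kˣ) : Gm k →* Multiplicative (ZMod 2) :=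
  MonoidHom.mk' (fun σ => Multiplicative.ofAdd (chi (a : k) σ)) (fun σ τ => by
    rw [chiM_hom, ofAdd_add])

theorem chiH_apply (a : kˣ) (σ : Gm k) : chiH a σ = Multiplicative.ofAdd (chi (a : k) σ) := rfl

theorem mem_chiH (a : kˣ) (σ : Gm k) : σ ∈ (chiH a).ker ↔ chi (a : k) σ = 0 := by
  rw [MonoidHom.mem_ker, chiH_apply, ofAdd_eq_one]

theorem chi_zero_iff (a : k) (σ : Gm k) : chi a σ = 0 ↔ σ (sq a) = sq a := by
  unfold chi
  split_ifs with h
  · simp [h]
  · simp [h]

/-- exponents agree when the homomorphisms agree on the inertia group -/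
theorem rexp_ur (U : Ur k)
    (hin : ∀ (P : HeightOneSpectrum (𝓞 k)) (M : Type) [Field M]
      [NumberField M] [Algebra k M] [IsGalois k M] (Q : Ideal (𝓞 M)) [Q.IsPrime],
      Q.comap (algebraMap (𝓞 k) (𝓞 M)) = P.asIdeal → ∀ y : M,
      y ^ 2 = algebraMap k M (U.ur P : k) → ∀ τ : M ≃ₐ[k] M,
      τ ∈ Q.inertia (M ≃ₐ[k] M) → τ y = y)
    (P : HeightOneSpectrum (𝓞 k)) {Γ : Type} [Group Γ] [Finite Γ] (H : Subgroup Γ)
    (ρ ρ' : Gm k →* Γ) (ho : IsOpen (ρ.ker : Set (Gm k))) (ho' : IsOpen (ρ'.ker : Set (Gm k)))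
    (hρ : Function.Surjective ρ) (hρ' : Function.Surjective ρ')
    (h : ∀ σ ∈ Dec P, chi (U.ur P : k) σ = 0 → ρ σ = ρ' σ) :
    rexp P (fld k (H.comap ρ)) = rexp P (fld k (H.comap ρ')) := by
  classical
  set W : Subgroup (Gm k) := (ρ.ker ⊓ ρ'.ker) ⊓ (chiH (U.ur P)).ker with hWdef
  have hoc : IsOpen ((chiH (U.ur P)).ker : Set (Gm k)) := by
    apply ker_openK
    exact (chiM_lc (U.ur P : k)).comp Multiplicative.ofAdd
  have hW : IsOpen (W : Set (Gm k)) := by
    rw [hWdef, Subgroup.coe_inf, Subgroup.coe_inf]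
    exact (ho.inter ho').inter hoc
  have hWn : W.Normal := inferInstance
  have hnf := fldK_nf W hW
  have hgal := fldK_galois W hW
  have hfd := fldK_finite W hW
  obtain ⟨π, hπ, hker, hres⟩ := exists_resK W hW
  have hle : π.ker ≤ ρ.ker := by
    rw [hker]
    exact inf_le_left.trans inf_le_left
  have hle' : π.ker ≤ ρ'.ker := by
    rw [hker]
    exact inf_le_left.trans inf_le_right
  set r : ((fld k W) ≃ₐ[k] (fld k W)) →* Γ := π.liftOfSurjective hπ ⟨ρ, hle⟩ with hr
  set r' : ((fld k W) ≃ₐ[k] (fld k W)) →* Γ := π.liftOfSurjective hπ ⟨ρ', hle'⟩ with hr'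
  have hrπ : ∀ σ, r (π σ) = ρ σ := fun σ =>
    MonoidHom.liftOfRightInverse_comp_apply π _ (Function.rightInverse_surjInv hπ) ⟨ρ, hle⟩ σ
  have hrπ' : ∀ σ, r' (π σ) = ρ' σ := fun σ =>
    MonoidHom.liftOfRightInverse_comp_apply π _ (Function.rightInverse_surjInv hπ) ⟨ρ', hle'⟩ σ
  have hrs : Function.Surjective r := fun x => by
    obtain ⟨σ, rfl⟩ := hρ x
    exact ⟨π σ, hrπ σ⟩
  have hrs' : Function.Surjective r' := fun x => by
    obtain ⟨σ, rfl⟩ := hρ' x
    exact ⟨π σ, hrπ' σ⟩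
  have hQp : (low P (fld k W)).IsPrime := low_prime P (fld k W)
  have hQ := low_comap P (fld k W)
  have key : ∀ (ρ0 : Gm k →* Γ) (r0 : ((fld k W) ≃ₐ[k] (fld k W)) →* Γ),
      (∀ σ, r0 (π σ) = ρ0 σ) → W ≤ H.comap ρ0 →
      rexp P (fld k (H.comap ρ0)) = rex P (IntermediateField.fixedField (H.comap r0)) := by
    intro ρ0 r0 h0 hU0
    refine rexp_sub P W _ (fun x => ?_) hU0
    rw [IntermediateField.mem_fixedField_iff]
    constructor
    · intro h1 σ hσ
      have h2 := h1 (π σ) (by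
        rw [Subgroup.mem_comap, h0]
        exact hσ)
      rw [← hres σ x, h2]
    · intro h1 s hs
      obtain ⟨σ, rfl⟩ := hπ s
      apply Subtype.ext
      rw [hres σ x]
      refine h1 σ ?_
      rw [Subgroup.mem_comap, ← h0]
      exact hs
  have hk1 := key ρ r hrπ (by
    intro u hu
    rw [Subgroup.mem_comap, (MonoidHom.mem_ker).1 (show u ∈ ρ.ker from hu.1.1)]
    exact H.one_mem)
  have hk2 := key ρ' r' hrπ' (by
    intro u hu
    rw [Subgroup.mem_comap, (MonoidHom.mem_ker).1 (show u ∈ ρ'.ker from hu.1.2)]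
    exact H.one_mem)
  rw [hk1, hk2]
  refine rd_compare P (low P (fld k W)) hQ H r r' hrs hrs' _ _
    (IntermediateField.fixingSubgroup_fixedField _) (IntermediateField.fixingSubgroup_fixedField _)
    1 ?_
  intro s hs
  have hst : s ∈ MulAction.stabilizer ((fld k W) ≃ₐ[k] (fld k W)) (low P (fld k W)) :=
    Ideal.inertia_le_stabilizer _ hs
  obtain ⟨σ, hσ, hσs⟩ := dec_surj P (fld k W) s hst
  have h3 : π σ = s := by
    rw [← hσs]
    apply AlgEquiv.ext
    intro x
    apply Subtype.ext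
    rw [hres σ x]
    exact (AlgEquiv.restrictNormal_commutes σ (fld k W) x).symm
  -- the root of the unramified class
  have hmem : sq (U.ur P : k) ∈ fld k W := by
    refine (IntermediateField.mem_fixedField_iff W _).2 fun f hf => ?_
    exact (chi_zero_iff _ _).1 ((mem_chiH _ _).1 hf.2)
  have hroot := hin P (fld k W) (low P (fld k W)) hQ ⟨sq (U.ur P : k), hmem⟩
    (by
      apply Subtype.ext
      exact sq_sq (U.ur P : k)) s hs
  have hchi : chi (U.ur P : k) σ = 0 := by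
    rw [chi_zero_iff]
    have h4 := hres σ ⟨sq (U.ur P : k), hmem⟩
    rw [h3, hroot] at h4
    exact h4.symm
  rw [← h3, hrπ, hrπ', h σ hσ hchi, one_mul, inv_one, mul_one]

end H64U

/-- exponents depend only on the restriction to the inertia group: form with hypothesis -/
theorem exists_rxu_of (U : Ur k)
    (hin : ∀ (P : HeightOneSpectrum (𝓞 k)) (M : Type) [Field M]
      [NumberField M] [Algebra k M] [IsGalois k M] (Q : Ideal (𝓞 M)) [Q.IsPrime],
      Q.comap (algebraMap (𝓞 k) (𝓞 M)) = P.asIdeal → ∀ y : M,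
      y ^ 2 = algebraMap k M (U.ur P : k) → ∀ τ : M ≃ₐ[k] M,
      τ ∈ Q.inertia (M ≃ₐ[k] M) → τ y = y) :
    ∃ R : Rx k, RxU U R := by
  obtain ⟨R, hR⟩ := H64U.rx_data k
  refine ⟨R, ?_⟩
  intro G _ _ ρ ρ' H hc hc' hs hs' P h
  rw [hR, hR]
  exact H64U.rexp_ur U hin P H ρ ρ' (ker_openK ρ hc) (ker_openK ρ' hc') hs hs' h

theorem exists_rxu (U : Ur k) : ∃ R : Rx k, RxU U R := by
  refine exists_rxu_of U ?_
  intro P M _ _ _ _ Q _ hQ y hy τ hτ
  exact ur_inertia U P M Q hQ y hy τ hτ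

end

end Pool.Agent.H98.MF
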