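import Pool.Agent.H98.MF.UDefs
import Pool.Agent.H98.MF.C.Bas
import Pool.Agent.H98.MF.C.Val

/-!
# Project MK5 (MP_a3214d): the unramified class
-/

set_option autoImplicit false

open scoped BigOperators Pointwise
open NumberField IsDedekindDomain Filter

namespace Pool.Agent.H98.MF

open Pool.Agent.H98.MK (sg)
open Pool.Agent.H98.ML (Dt Ext Wt norb hind)

namespace EUr

/-- a homomorphism to `ZMod 2` trivial on `L` as a linear form on the quotient -/
noncomputable def lin {A : Type} [CommGroup A] (L : Subgroup A)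
    [Module (ZMod 2) (Additive (A ⧸ L))] (g : A →* Multiplicative (ZMod 2))
    (hg : ∀ a ∈ L, g a = 1) : Additive (A ⧸ L) →ₗ[ZMod 2] ZMod 2 :=
  AddMonoidHom.toZModLinearMap 2 (MonoidHom.toAdditiveLeft (QuotientGroup.lift L g hg))

theorem lin_apply {A : Type} [CommGroup A] (L : Subgroup A)
    [Module (ZMod 2) (Additive (A ⧸ L))] (g : A →* Multiplicative (ZMod 2))
    (hg : ∀ a ∈ L, g a = 1) (a : A) :
    lin L g hg (Additive.ofMul (a : A ⧸ L)) = Multiplicative.toAdd (g a) := rfl

/-- a pairing with radical `L` of finite index gives all functionals trivial on `L` -/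
theorem dual {A : Type} [CommGroup A] (L : Subgroup A) (hfin : L.index ≠ 0)
    (hsq : ∀ a : A, a ^ 2 ∈ L) (B : A → A →* Multiplicative (ZMod 2))
    (hmul : ∀ a b c, B (a * b) c = B a c * B b c) (hsymm : ∀ a b, B a b = B b a)
    (hrad : ∀ a, (∀ b, B a b = 1) ↔ a ∈ L) (ψ : A →* Multiplicative (ZMod 2))
    (hψ : ∀ a ∈ L, ψ a = 1) : ∃ a, ∀ b, B a b = ψ b := by
  classical
  have : L.FiniteIndex := ⟨hfin⟩
  have : Finite (A ⧸ L) := Subgroup.finite_quotient_of_finiteIndex
  let _ : Module (ZMod 2) (Additive (A ⧸ L)) := AddCommGroup.zmodModule (by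
    intro x
    obtain ⟨q, rfl⟩ := Additive.ofMul.surjective x
    obtain ⟨a, rfl⟩ := QuotientGroup.mk_surjective q
    rw [← ofMul_pow, ← QuotientGroup.mk_pow, (QuotientGroup.eq_one_iff _).2 (hsq a)]
    rfl)
  have : Finite (Additive (A ⧸ L)) := inferInstanceAs (Finite (A ⧸ L))
  have : Module.Finite (ZMod 2) (Additive (A ⧸ L)) := Module.Finite.of_finite
  have htriv : ∀ a, ∀ b ∈ L, B a b = 1 := fun a b hb => by
    rw [hsymm]
    exact (hrad b).2 hb a
  set T : (A ⧸ L) → (Additive (A ⧸ L) →ₗ[ZMod 2] ZMod 2) :=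
    fun q => lin L (B q.out) (htriv _) with hT
  have hinj : Function.Injective T := by
    intro q q' h
    have h1 : q.out / q'.out ∈ L := by
      rw [← hrad]
      intro b
      have h2 : Multiplicative.toAdd (B q.out b) = Multiplicative.toAdd (B q'.out b) := by
        have h3 := congrArg (fun f => f (Additive.ofMul (b : A ⧸ L))) h
        exact h3
      have h4 : B q.out b = B q'.out b := h2
      have h5 := hmul (q.out / q'.out) q'.out b
      rw [div_mul_cancel, h4] at h5
      exact (mul_eq_right.1 h5.symm)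
    have h6 : ((q.out : A) : A ⧸ L) = ((q'.out : A) : A ⧸ L) := by
      rw [QuotientGroup.eq_iff_div_mem]
      exact h1
    rwa [QuotientGroup.out_eq', QuotientGroup.out_eq'] at h6
  have hcard : Nat.card (A ⧸ L) = Nat.card (Additive (A ⧸ L) →ₗ[ZMod 2] ZMod 2) := by
    have h1 : Nat.card (Additive (A ⧸ L)) =
        Nat.card (ZMod 2) ^ Module.finrank (ZMod 2) (Additive (A ⧸ L)) :=
      Module.natCard_eq_pow_finrank
    have h2 : Nat.card (Module.Dual (ZMod 2) (Additive (A ⧸ L))) =
        Nat.card (ZMod 2) ^ Module.finrank (ZMod 2) (Module.Dual (ZMod 2) (Additive (A ⧸ L))) :=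
      Module.natCard_eq_pow_finrank
    rw [Subspace.dual_finrank_eq] at h2
    exact h1.trans h2.symm
  have : Finite (Additive (A ⧸ L) →ₗ[ZMod 2] ZMod 2) :=
    Nat.finite_of_card_ne_zero (by rw [← hcard]; exact Nat.card_pos.ne')
  have hsurj : Function.Surjective T :=
    ((Nat.bijective_iff_injective_and_card T).2 ⟨hinj, hcard⟩).2
  obtain ⟨q, hq⟩ := hsurj (lin L ψ hψ)
  refine ⟨q.out, fun b => ?_⟩
  have h3 := congrArg (fun f => f (Additive.ofMul (b : A ⧸ L))) hq
  exact h3

section

variable {k : Type} [Field k] [NumberField k]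

/-- the symbol as a homomorphism -/
noncomputable def bh (hL : LIn k) (P : HeightOneSpectrum (𝓞 k)) (a : kˣ) :
    kˣ →* Multiplicative (ZMod 2) :=
  MonoidHom.mk' (fun b => Multiplicative.ofAdd (hs P (a : k) (b : k))) (by
    intro b c
    have h := hL.mulR (Sum.inl P) a b c
    exact congrArg Multiplicative.ofAdd h)

/-- the order mod 2 as a homomorphism -/
noncomputable def oh (P : HeightOneSpectrum (𝓞 k)) : kˣ →* Multiplicative (ZMod 2) :=
  MonoidHom.mk' (fun b => Multiplicative.ofAdd (((ord P (b : k) : ℤ) : ZMod 2))) (by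
    intro b c
    have h := B.ord_mul P b.ne_zero c.ne_zero
    have h2 : ((ord P ((b * c : kˣ) : k) : ℤ) : ZMod 2) =
        ((ord P (b : k) : ℤ) : ZMod 2) + ((ord P (c : k) : ℤ) : ZMod 2) := by
      rw [Units.val_mul, h]
      push_cast
      rfl
    exact congrArg Multiplicative.ofAdd h2)

theorem ex (hL : LIn k) (P : HeightOneSpectrum (𝓞 k)) :
    ∃ a : kˣ, ∀ b : kˣ, hs P (a : k) (b : k) = ((ord P (b : k) : ℤ) : ZMod 2) := by
  have hsy : ∀ a b : kˣ, hs P (a : k) (b : k) = hs P (b : k) (a : k) :=
    fun a b => hL.symm (Sum.inl P) a b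
  obtain ⟨a, ha⟩ := dual (LS (Sum.inl P : Pl k))
    (by
      rw [hL.idxP P]
      have : 0 < nrm P := by
        unfold nrm
        exact Nat.pos_of_ne_zero (fun h0 => by
          rw [Ideal.absNorm_eq_zero_iff] at h0
          exact P.ne_bot h0)
      positivity)
    (fun a => B.sq_mem_LS _ a) (bh hL P)
    (by
      intro a b c
      have h1 := hL.mulR (Sum.inl P) c a b
      have h2 : hs P ((a * b : kˣ) : k) (c : k) = hs P (a : k) (c : k) + hs P (b : k) (c : k) := by
        rw [hsy (a * b) c, hsy a c, hsy b c]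
        exact h1
      exact congrArg Multiplicative.ofAdd h2)
    (by
      intro a b
      exact congrArg Multiplicative.ofAdd (hsy a b))
    (by
      intro a
      rw [hL.memLS, ← hL.nd]
      constructor
      · intro h b
        exact congrArg Multiplicative.toAdd (h b)
      · intro h b
        exact congrArg Multiplicative.ofAdd (h b))
    (oh P)
    (by
      intro a ha
      rw [hL.memLS] at ha
      have h1 := B.LocSq_even P a.ne_zero ha
      obtain ⟨n, hn⟩ := h1
      have h2 : ((ord P (a : k) : ℤ) : ZMod 2) = 0 := by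
        rw [hn]
        push_cast
        exact CharTwo.add_self_eq_zero _
      exact congrArg Multiplicative.ofAdd h2)
  exact ⟨a, fun b => congrArg Multiplicative.toAdd (ha b)⟩

end

end EUr

section

variable {k : Type} [Field k] [NumberField k]

theorem exists_ur (hL : LIn k) : Nonempty (Ur k) := by
  choose u hu using EUr.ex hL
  exact ⟨⟨u, hu⟩⟩

end

end Pool.Agent.H98.MF
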