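import Pool.Agent.H98.MF.SBase

/-!
# Project MK4, row A16: summation over the other variables
-/

set_option autoImplicit false

open scoped BigOperators

namespace Pool.Agent.H98.MF

open Pool.Agent.H98.MK (sg)
open Pool.Agent.H98.ML (Dt Ext Wt)

theorem b16_C0 (S : Pre) {h : Finset S.P → ℝ} (hh : ∀ x, 0 ≤ h x) {C0 : ℝ}
    (hs : ∀ t : ℝ, 1 ≤ t → ∑ x ∈ S.bx t, h x ≤ C0 * t) : 0 ≤ C0 := by
  have h1 := hs 1 le_rfl
  rw [mul_one] at h1
  exact (Finset.sum_nonneg fun _ _ => hh _).trans h1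

open Classical in
/-- the bound of row A3 for the sum over the free variables -/
def b16_RS (S : Pre) (κ : Type) [Fintype κ] (h : Finset S.P → ℝ) (C : ℝ) : Prop :=
  ∀ Y H : ℝ, 1 ≤ Y → 1 ≤ H →
    ∑ r ∈ Fintype.piFinset (fun _ : κ => S.bx Y),
      (if ∏ i, (S.nm (r i) : ℝ) ≤ Y
        then (∏ i, h (r i)) * min (Y / ∏ i, (S.nm (r i) : ℝ)) H else 0) ≤
    C * Y * (1 + Real.log Y) ^ (Fintype.card κ - 1) * (1 + Real.log H)

open Classical in
/-- the sum over the free variables with a smaller bound -/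
theorem b16_rs (S : Pre) {κ : Type} [Fintype κ] (h : Finset S.P → ℝ) (C : ℝ)
    (hrs : b16_RS S κ h C)
    (Y Y1 H : ℝ) (hY : 1 ≤ Y) (hY1 : 0 ≤ Y1) (hYY : Y1 ≤ Y) (hH : 1 ≤ H) :
    ∑ r ∈ Fintype.piFinset (fun _ : κ => S.bx Y),
        (if ∏ i, (S.nm (r i) : ℝ) ≤ Y1
          then (∏ i, h (r i)) * min (Y1 / ∏ i, (S.nm (r i) : ℝ)) H else 0) ≤
      |C| * Y1 * (1 + Real.log Y) ^ (Fintype.card κ - 1) * (1 + Real.log H) := by
  have hlY : 0 ≤ Real.log Y := Real.log_nonneg hY
  have hlH : 0 ≤ Real.log H := Real.log_nonneg hH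
  rcases lt_or_ge Y1 1 with h1 | h1
  · rw [Finset.sum_eq_zero]
    · positivity
    · intro r _
      rw [if_neg]
      intro h2
      have h3 : (1 : ℝ) ≤ ∏ i, (S.nm (r i) : ℝ) := Finset.one_le_prod fun j _ => S.one_le_nmr _
      linarith
  · have e : ∑ r ∈ Fintype.piFinset (fun _ : κ => S.bx Y),
        (if ∏ i, (S.nm (r i) : ℝ) ≤ Y1
          then (∏ i, h (r i)) * min (Y1 / ∏ i, (S.nm (r i) : ℝ)) H else 0) =
        ∑ r ∈ Fintype.piFinset (fun _ : κ => S.bx Y1),
        (if ∏ i, (S.nm (r i) : ℝ) ≤ Y1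
          then (∏ i, h (r i)) * min (Y1 / ∏ i, (S.nm (r i) : ℝ)) H else 0) := by
      symm
      refine Finset.sum_subset (Fintype.piFinset_subset _ _ fun _ => S.bx_mono hYY) ?_
      intro r hr hr'
      rw [if_neg]
      intro h2
      apply hr'
      rw [Fintype.mem_piFinset] at hr ⊢
      intro j
      rw [S.mem_bx]
      refine le_trans ?_ h2
      have h3 : (S.nm (r j) : ℝ) * 1 ≤
          (S.nm (r j) : ℝ) * ∏ i ∈ Finset.univ.erase j, (S.nm (r i) : ℝ) := by
        refine mul_le_mul_of_nonneg_left ?_ (Nat.cast_nonneg _)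
        exact Finset.one_le_prod fun j _ => S.one_le_nmr _
      rw [mul_one, Finset.mul_prod_erase Finset.univ (fun i => (S.nm (r i) : ℝ))
        (Finset.mem_univ j)] at h3
      exact h3
    rw [e]
    refine (hrs Y1 H h1 hH).trans ?_
    have h2 : 0 ≤ Real.log Y1 := Real.log_nonneg h1
    have h3 : Real.log Y1 ≤ Real.log Y := Real.log_le_log (by linarith) hYY
    have h4 := le_abs_self C
    gcongr

open Classical in
/-- splitting a sum over tuples -/
theorem b16_psplit {α : Type} {ι : Type} [Fintype ι] (R : ι → Prop) (S : ι → Finset α)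
    (F : (ι → α) → ℝ) :
    ∑ z ∈ Fintype.piFinset S, F z =
      ∑ s ∈ Fintype.piFinset (fun j : {j // ¬ R j} => S j),
        ∑ r ∈ Fintype.piFinset (fun j : {j // R j} => S j),
          F ((Equiv.piEquivPiSubtypeProd R (fun _ => α)).symm (r, s)) := by
  rw [← Finset.sum_product_right']
  refine Finset.sum_equiv (Equiv.piEquivPiSubtypeProd R (fun _ => α)) ?_ ?_
  · intro z
    simp only [Fintype.mem_piFinset, Finset.mem_product, Equiv.piEquivPiSubtypeProd_apply]
    constructor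
    · intro h
      exact ⟨fun j => h j, fun j => h j⟩
    · rintro ⟨h1, h2⟩ j
      by_cases hj : R j
      · exact h1 ⟨j, hj⟩
      · exact h2 ⟨j, hj⟩
  · intro z _
    congr 1
    exact ((Equiv.piEquivPiSubtypeProd R (fun _ => α)).symm_apply_apply z).symm

open Classical in
theorem b16_prod {α : Type} {ι : Type} [Fintype ι] (R : ι → Prop) (f : ι → α → ℝ)
    (r : {j // R j} → α) (s : {j // ¬ R j} → α) :
    ∏ j, f j ((Equiv.piEquivPiSubtypeProd R (fun _ => α)).symm (r, s) j) =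
      (∏ j, f j.1 (r j)) * ∏ j, f j.1 (s j) := by
  rw [← Fintype.prod_subtype_mul_prod_subtype R]
  congr 1
  · refine Finset.prod_congr rfl fun j _ => ?_
    rw [Equiv.piEquivPiSubtypeProd_symm_apply]
    simp [j.2]
  · refine Finset.prod_congr rfl fun j _ => ?_
    rw [Equiv.piEquivPiSubtypeProd_symm_apply]
    simp [j.2]

open Classical in
theorem b16_sum (S : Pre) {ι : Type} [Fintype ι] (w : ι → ℝ) (hw : ∀ i, 1 ≤ w i)
    (R : ι → Prop) (hR : ∀ i, R i → w i = 1) (i : ι) (hiR : ¬ R i)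
    (h : Finset S.P → ℝ) (hh : ∀ x, 0 ≤ h x) (hh1 : h ∅ = 1) (C : ℝ)
    (hrs : b16_RS S {j // R j} h C)
    (C1 : ℝ) (hha : ∀ t : ℝ, 1 ≤ t → ∑ x ∈ S.bx t, h x / (S.nm x : ℝ) ≤ C1 * (1 + Real.log t)) :
    ∃ C : ℝ, 0 ≤ C ∧ ∀ Y K D : ℝ, 1 ≤ Y → 1 ≤ K → 0 ≤ D →
      ∑ z ∈ Fintype.piFinset (fun j : ι => if j = i then ({∅} : Finset (Finset S.P)) else
        S.bx Y),
        (if (∀ j, ¬ R j → (S.nm (z j) : ℝ) ≤ 2 * K) ∧ ∏ j, (S.nm (z j) : ℝ) ^ w j ≤ Y then
          D * ((∏ j, h (z j)) * min (Y / ∏ j, (S.nm (z j) : ℝ) ^ w j) (2 * K)) else 0) ≤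
      D * (C * Y * (1 + Real.log Y) ^ (Nat.card {l // R l} - 1) *
        (1 + Real.log K) ^ (Fintype.card ι + 1)) := by
  have hC1 : 0 ≤ C1 := by
    have h1 := hha 1 le_rfl
    rw [Real.log_one, add_zero, mul_one] at h1
    exact (Finset.sum_nonneg fun x _ => div_nonneg (hh x) (Nat.cast_nonneg _)).trans h1
  refine ⟨|C| * 2 * ((1 + C1) * 2) ^ (Fintype.card {j // ¬ R j}), by positivity, ?_⟩
  intro Y K D hY hK hD
  have hlY : 0 ≤ Real.log Y := Real.log_nonneg hY
  have hlK : 0 ≤ Real.log K := Real.log_nonneg hK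
  have hK0 : 0 < K := by linarith
  have hY0 : 0 < Y := by linarith
  have h2K : (1 : ℝ) ≤ 2 * K := by linarith
  have hl2K : 1 + Real.log (2 * K) ≤ 2 * (1 + Real.log K) := by
    rw [Real.log_mul (by norm_num) hK0.ne']
    have := Real.log_two_lt_d9
    linarith
  have hl2K0 : 0 ≤ Real.log (2 * K) := Real.log_nonneg h2K
  rw [b16_psplit R]
  obtain ⟨A, hA⟩ : ∃ A : ({j // ¬ R j} → Finset S.P) → ℝ, A = fun s =>
    |C| * (Y / ∏ j, (S.nm (s j) : ℝ) ^ w j.1) * (1 + Real.log Y) ^ (Fintype.card {j // R j} - 1) *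
      (1 + Real.log (2 * K)) := ⟨_, rfl⟩
  have step1 : ∀ s ∈ Fintype.piFinset (fun j : {j // ¬ R j} =>
      if j.1 = i then ({∅} : Finset (Finset S.P)) else S.bx Y),
      ∑ r ∈ Fintype.piFinset (fun j : {j // R j} =>
        if j.1 = i then ({∅} : Finset (Finset S.P)) else S.bx Y),
        (if (∀ j, ¬ R j →
            (S.nm ((Equiv.piEquivPiSubtypeProd R (fun _ => Finset S.P)).symm (r, s) j) : ℝ) ≤
            2 * K) ∧
            ∏ j, (S.nm ((Equiv.piEquivPiSubtypeProd R (fun _ => Finset S.P)).symm (r, s) j) : ℝ) ^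
              w j ≤ Y then
          D * ((∏ j, h ((Equiv.piEquivPiSubtypeProd R (fun _ => Finset S.P)).symm (r, s) j)) *
            min (Y / ∏ j,
              (S.nm ((Equiv.piEquivPiSubtypeProd R (fun _ => Finset S.P)).symm (r, s) j) : ℝ) ^
              w j) (2 * K)) else 0) ≤
      if ∀ j, (S.nm (s j) : ℝ) ≤ 2 * K then D * (∏ j, h (s j)) * A s else 0 := by
    intro s hs'
    have hsr : ∀ j, (1 : ℝ) ≤ S.nm (s j) := fun j => S.one_le_nmr _
    obtain ⟨W, hW⟩ : ∃ W : ℝ, W = ∏ j, (S.nm (s j) : ℝ) ^ w j.1 := ⟨_, rfl⟩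
    have hW1 : 1 ≤ W := by
      rw [hW]
      exact Finset.one_le_prod fun j _ => Real.one_le_rpow (hsr j) (by linarith [hw j.1])
    have hW0 : 0 < W := by linarith
    obtain ⟨G, hG⟩ : ∃ G : ℝ, G = ∏ j, h (s j) := ⟨_, rfl⟩
    have hG0 : 0 ≤ G := by
      rw [hG]
      exact Finset.prod_nonneg fun j _ => hh _
    have eS : (fun j : {j // R j} => if j.1 = i then ({∅} : Finset (Finset S.P)) else
        S.bx Y) = fun _ => S.bx Y := by
      funext j
      rw [if_neg]
      intro hj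
      exact hiR (hj ▸ j.2)
    rw [eS]
    have et : ∀ r ∈ Fintype.piFinset (fun _ : {j // R j} => S.bx Y),
        (if (∀ j, ¬ R j →
            (S.nm ((Equiv.piEquivPiSubtypeProd R (fun _ => Finset S.P)).symm (r, s) j) : ℝ) ≤
            2 * K) ∧
            ∏ j, (S.nm ((Equiv.piEquivPiSubtypeProd R (fun _ => Finset S.P)).symm (r, s) j) : ℝ) ^
              w j ≤ Y then
          D * ((∏ j, h ((Equiv.piEquivPiSubtypeProd R (fun _ => Finset S.P)).symm (r, s) j)) *
            min (Y / ∏ j,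
              (S.nm ((Equiv.piEquivPiSubtypeProd R (fun _ => Finset S.P)).symm (r, s) j) : ℝ) ^
              w j) (2 * K)) else 0) =
        if ∀ j, (S.nm (s j) : ℝ) ≤ 2 * K then (D * G) * (if ∏ j, (S.nm (r j) : ℝ) ≤ Y / W then
          (∏ j, h (r j)) * min (Y / W / ∏ j, (S.nm (r j) : ℝ)) (2 * K) else 0) else 0 := by
      intro r hr
      have e1 : ∏ j, (S.nm ((Equiv.piEquivPiSubtypeProd R (fun _ => Finset S.P)).symm (r, s) j) :
          ℝ) ^ w j = (∏ j, (S.nm (r j) : ℝ)) * W := by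
        rw [b16_prod R (fun j x => (S.nm x : ℝ) ^ w j) r s, hW]
        congr 1
        refine Finset.prod_congr rfl fun j _ => ?_
        rw [hR _ j.2, Real.rpow_one]
      have e2 : ∏ j, h ((Equiv.piEquivPiSubtypeProd R (fun _ => Finset S.P)).symm (r, s) j) =
          (∏ j, h (r j)) * G := by
        rw [b16_prod R (fun _ x => h x) r s, hG]
      have e3 : (∀ j, ¬ R j →
          (S.nm ((Equiv.piEquivPiSubtypeProd R (fun _ => Finset S.P)).symm (r, s) j) : ℝ) ≤
            2 * K) ↔ ∀ j, (S.nm (s j) : ℝ) ≤ 2 * K := by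
        constructor
        · intro h1 j
          have h2 := h1 j.1 j.2
          rw [Equiv.piEquivPiSubtypeProd_symm_apply] at h2
          simpa [j.2] using h2
        · intro h1 j hj
          have h2 := h1 ⟨j, hj⟩
          rw [Equiv.piEquivPiSubtypeProd_symm_apply]
          simpa [hj] using h2
      have e4 : (∏ j, (S.nm (r j) : ℝ)) * W ≤ Y ↔ ∏ j, (S.nm (r j) : ℝ) ≤ Y / W :=
        (le_div_iff₀ hW0).symm
      have e5 : Y / ((∏ j, (S.nm (r j) : ℝ)) * W) = Y / W / ∏ j, (S.nm (r j) : ℝ) := by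
        rw [div_div, mul_comm]
      rw [e1, e2, e5]
      by_cases c1 : ∀ j, (S.nm (s j) : ℝ) ≤ 2 * K
      · by_cases c2 : ∏ j, (S.nm (r j) : ℝ) ≤ Y / W
        · rw [if_pos ⟨e3.2 c1, e4.2 c2⟩, if_pos c1, if_pos c2]
          ring
        · rw [if_neg (fun h1 => c2 (e4.1 h1.2)), if_pos c1, if_neg c2, mul_zero]
      · rw [if_neg (fun h1 => c1 (e3.1 h1.1)), if_neg c1]
    rw [Finset.sum_congr rfl et]
    by_cases c1 : ∀ j, (S.nm (s j) : ℝ) ≤ 2 * K
    · rw [if_pos c1]
      simp only [if_pos c1]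
      rw [← Finset.mul_sum, ← hG]
      refine mul_le_mul_of_nonneg_left ?_ (mul_nonneg hD hG0)
      rw [hA]
      simp only
      rw [← hW]
      refine (le_of_eq (Finset.sum_congr ?_ fun _ _ => rfl)).trans
        (b16_rs S h C hrs Y (Y / W) (2 * K) hY (by positivity) (div_le_self hY0.le hW1) h2K)
      ext r
      simp only [Fintype.mem_piFinset]
    · rw [if_neg c1]
      simp only [if_neg c1]
      rw [Finset.sum_const_zero]
  refine (Finset.sum_le_sum step1).trans ?_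
  have step2 : ∑ s ∈ Fintype.piFinset (fun j : {j // ¬ R j} =>
      if j.1 = i then ({∅} : Finset (Finset S.P)) else S.bx Y),
      (if ∀ j, (S.nm (s j) : ℝ) ≤ 2 * K then D * (∏ j, h (s j)) * A s else 0) ≤
      ∑ s ∈ Fintype.piFinset (fun j : {j // ¬ R j} =>
      if j.1 = i then ({∅} : Finset (Finset S.P)) else S.bx (2 * K)),
      D * (|C| * Y * (1 + Real.log Y) ^ (Fintype.card {j // R j} - 1) *
      (1 + Real.log (2 * K))) * ∏ j, h (s j) / (S.nm (s j) : ℝ) := by
    rw [← Finset.sum_filter]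
    have hsub : (Fintype.piFinset (fun j : {j // ¬ R j} =>
        if j.1 = i then ({∅} : Finset (Finset S.P)) else S.bx Y)).filter
        (fun s => ∀ j, (S.nm (s j) : ℝ) ≤ 2 * K) ⊆ Fintype.piFinset (fun j : {j // ¬ R j} =>
        if j.1 = i then ({∅} : Finset (Finset S.P)) else S.bx (2 * K)) := by
      intro s hs'
      rw [Finset.mem_filter, Fintype.mem_piFinset] at hs'
      rw [Fintype.mem_piFinset]
      intro j
      have h1 := hs'.1 j
      by_cases hj : j.1 = i
      · rw [if_pos hj] at h1 ⊢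
        exact h1
      · rw [if_neg hj, S.mem_bx]
        exact hs'.2 j
    refine (Finset.sum_le_sum (f := fun s => D * (∏ j, h (s j)) * A s) (g := fun s =>
      D * (|C| * Y * (1 + Real.log Y) ^ (Fintype.card {j // R j} - 1) *
      (1 + Real.log (2 * K))) * ∏ j, h (s j) / (S.nm (s j) : ℝ)) fun s hs' => ?_).trans
      (Finset.sum_le_sum_of_subset_of_nonneg hsub fun s _ _ => ?_)
    · have hsr : ∀ j, (1 : ℝ) ≤ S.nm (s j) := fun j => S.one_le_nmr _
      have hp0 : (0 : ℝ) < ∏ j, (S.nm (s j) : ℝ) := Finset.prod_pos fun j _ => S.nm_posr _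
      have hpW : ∏ j, (S.nm (s j) : ℝ) ≤ ∏ j, (S.nm (s j) : ℝ) ^ w j.1 := by
        refine Finset.prod_le_prod (fun j _ => Nat.cast_nonneg _) fun j _ => ?_
        calc (S.nm (s j) : ℝ) = (S.nm (s j) : ℝ) ^ (1 : ℝ) := (Real.rpow_one _).symm
          _ ≤ _ := Real.rpow_le_rpow_of_exponent_le (hsr j) (hw j)
      have hG0 : 0 ≤ ∏ j, h (s j) := Finset.prod_nonneg fun j _ => hh _
      have h1 : Y / ∏ j, (S.nm (s j) : ℝ) ^ w j.1 ≤ Y / ∏ j, (S.nm (s j) : ℝ) :=
        div_le_div_of_nonneg_left hY0.le hp0 hpW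
      rw [hA]
      simp only
      rw [Finset.prod_div_distrib]
      calc D * (∏ j, h (s j)) * (|C| * (Y / ∏ j, (S.nm (s j) : ℝ) ^ w j.1) *
            (1 + Real.log Y) ^ (Fintype.card {j // R j} - 1) * (1 + Real.log (2 * K)))
          ≤ D * (∏ j, h (s j)) * (|C| * (Y / ∏ j, (S.nm (s j) : ℝ)) *
            (1 + Real.log Y) ^ (Fintype.card {j // R j} - 1) * (1 + Real.log (2 * K))) := by
            gcongr
        _ = _ := by ring
    · have : 0 ≤ ∏ j, h (s j) / (S.nm (s j) : ℝ) := Finset.prod_nonneg fun j _ =>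
        div_nonneg (hh _) (Nat.cast_nonneg _)
      positivity
  refine step2.trans ?_
  rw [← Finset.mul_sum]
  have h2 := Finset.prod_univ_sum (fun j : {j // ¬ R j} =>
    if j.1 = i then ({∅} : Finset (Finset S.P)) else S.bx (2 * K))
    (fun _ n => h n / (S.nm n : ℝ))
  rw [← h2]
  have hB1 : 1 ≤ (1 + C1) * 2 * (1 + Real.log K) := by
    have h3 : 1 ≤ (1 + C1) * 2 := by linarith
    have h4 : 1 ≤ 1 + Real.log K := by linarith
    exact one_le_mul_of_one_le_of_one_le h3 h4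
  have h3 : ∏ j : {j // ¬ R j}, ∑ n ∈ (if j.1 = i then ({∅} : Finset (Finset S.P)) else
      S.bx (2 * K)), h n / (S.nm n : ℝ) ≤
      ((1 + C1) * 2 * (1 + Real.log K)) ^ (Fintype.card {j // ¬ R j}) := by
    calc _ ≤ ∏ _j : {j // ¬ R j}, ((1 + C1) * 2 * (1 + Real.log K)) := by
          refine Finset.prod_le_prod (fun j _ => Finset.sum_nonneg fun n _ =>
            div_nonneg (hh _) (Nat.cast_nonneg _)) fun j _ => ?_
          by_cases hj : j.1 = i
          · rw [if_pos hj, Finset.sum_singleton, hh1, S.nm_empty, Nat.cast_one, div_one]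
            exact hB1
          · rw [if_neg hj]
            refine (hha (2 * K) h2K).trans ?_
            have h4 : 0 ≤ 1 + Real.log (2 * K) := by linarith
            calc C1 * (1 + Real.log (2 * K)) ≤ (1 + C1) * (2 * (1 + Real.log K)) := by
                  refine mul_le_mul (by linarith) hl2K h4 (by linarith)
              _ = _ := by ring
      _ = _ := by rw [Finset.prod_const, Finset.card_univ]
  have h4 : Fintype.card {j // ¬ R j} ≤ Fintype.card ι := Fintype.card_subtype_le _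
  have h5 : (1 + Real.log K) * (1 + Real.log K) ^ (Fintype.card {j // ¬ R j}) ≤
      (1 + Real.log K) ^ (Fintype.card ι + 1) := by
    rw [← pow_succ']
    exact pow_le_pow_right₀ (by linarith) (by omega)
  rw [Nat.card_eq_fintype_card]
  obtain ⟨E, hE⟩ : ∃ E : ℝ, E = (1 + Real.log Y) ^ (Fintype.card {j // R j} - 1) := ⟨_, rfl⟩
  have hE0 : 0 ≤ E := by rw [hE]; positivity
  rw [← hE]
  calc D * (|C| * Y * E * (1 + Real.log (2 * K))) * _
      ≤ D * (|C| * Y * E * (2 * (1 + Real.log K))) *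
        ((1 + C1) * 2 * (1 + Real.log K)) ^ (Fintype.card {j // ¬ R j}) := by
        refine mul_le_mul ?_ h3 ?_ ?_
        · gcongr
        · exact Finset.prod_nonneg fun j _ => Finset.sum_nonneg fun n _ =>
            div_nonneg (hh _) (Nat.cast_nonneg _)
        · positivity
    _ = D * (|C| * 2 * ((1 + C1) * 2) ^ (Fintype.card {j // ¬ R j}) * Y * E) *
        ((1 + Real.log K) * (1 + Real.log K) ^ (Fintype.card {j // ¬ R j})) := by
        rw [mul_pow ((1 + C1) * 2)]
        ring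
    _ ≤ D * (|C| * 2 * ((1 + C1) * 2) ^ (Fintype.card {j // ¬ R j}) * Y * E) *
        (1 + Real.log K) ^ (Fintype.card ι + 1) := by
        refine mul_le_mul_of_nonneg_left h5 (by positivity)
    _ = _ := by ring

end Pool.Agent.H98.MF
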