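import Pool.Agent.H98.MF.SGWChar2
import Pool.Agent.H98.MF.SGWChar3
import Pool.Agent.H98.MF.SRSum
import Pool.Agent.H98.MF.SHs
import Pool.Agent.H98.MF.SChrSqf

/-!
# Project MK4, row A16: a nontrivial character in a large variable
-/

set_option autoImplicit false

open scoped BigOperators

namespace Pool.Agent.H98.MF

open Pool.Agent.H98.MK (sg)
open Pool.Agent.H98.ML (Dt Ext Wt)

open Classical in
theorem GW_char (F : Sys) {ι : Type} [Fintype ι] (w : ι → ℝ) (hw : ∀ i, 1 ≤ w i)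
    (L : ι → ι → Prop) (hL : ∀ i j, L i j → ¬ L j i) (R : ι → Prop)
    (hR : ∀ i, R i → w i = 1 ∧ ∀ j, ¬ L i j ∧ ¬ L j i)
    (i : ι) (hi : w i = 1) (hiR : ¬ R i) (c : F.T) (hc : c ≠ 0 ∨ ∃ j, L i j ∨ L j i) :
    ∃ C : ℝ, ∃ k : ℕ, ∀ (a : ι → Finset F.P → ℝ) (P K M Y : ℝ), (∀ l x, |a l x| ≤ 1) →
      1 ≤ P → 1 ≤ K → K ≤ M → 1 ≤ Y →
      (∀ l, ¬ R l → l ≠ i → ∀ x, a l x ≠ 0 → (F.nm x : ℝ) ≤ M) →
      (∀ x, a i x = if K < F.nm x ∧ (F.nm x : ℝ) ≤ 2 * K then (F.ps c x : ℝ) else 0) →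
      (∀ j, L i j ∨ L j i → ∀ x, a j x ≠ 0 → x.Nonempty ∧ (F.nm x : ℝ) ≤ P) →
      |F.GW w L a Y| ≤ C * Y * (1 + Real.log Y) ^ (Nat.card {l // R l} - 1) *
        (P ^ (F.A * Fintype.card ι) * K ^ (-F.dl)) * (1 + Real.log M) ^ k := by
  have hh : ∀ x, 0 ≤ F.hs x := fun x => le_trans zero_le_one (F.one_le_hs x)
  obtain ⟨Ch, hCh⟩ := hs_sum F 1 1 le_rfl
  have hs : ∀ t : ℝ, 1 ≤ t → ∑ x ∈ F.bx t, F.hs x ≤ Ch * t := by
    intro t ht
    have h1 := hCh t ht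
    simpa using h1
  obtain ⟨Cr, hCr⟩ := rs_sum F.toPre (κ := {j // R j}) F.hs hh Ch hs
  obtain ⟨C1, hC1⟩ := harm_le F.toPre F.hs hh Ch hs
  have hha : ∀ t : ℝ, 1 ≤ t →
      ∑ x ∈ F.bx t, F.hs x / (F.nm x : ℝ) ≤ C1 * (1 + Real.log t) := by
    intro t ht
    refine le_trans (le_of_eq ?_) (hC1 t 1 ht le_rfl)
    refine Finset.sum_congr rfl fun x _ => ?_
    rw [Real.rpow_neg_one, div_eq_mul_inv]
  obtain ⟨C, -, hC⟩ := b16_sum F.toPre w hw R (fun j hj => (hR j hj).1) i hiR F.hs hh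
    (by simp [Pre.hs]) Cr hCr C1 hha
  obtain ⟨C2, hC20, hC2⟩ := chr_sqf F
  refine ⟨2 * C2 * C, Fintype.card ι + 1, ?_⟩
  intro a P K M Y ha hP hK hKM hY haR hai haj
  have hK0 : 0 < K := by linarith
  have hP0 : 0 < P := by linarith
  have hD : 0 ≤ 2 * C2 * (P ^ (F.A * Fintype.card ι) * K ^ (-F.dl)) := by positivity
  unfold Sys.GW
  rw [b16_split i (∅ : Finset F.P)]
  refine (Finset.abs_sum_le_sum_abs _ _).trans ?_
  refine (Finset.sum_le_sum (g := fun z =>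
      if (∀ j, ¬ R j → (F.nm (z j) : ℝ) ≤ 2 * M) ∧ ∏ j, (F.nm (z j) : ℝ) ^ w j ≤ Y then
      (2 * C2 * (P ^ (F.A * Fintype.card ι) * K ^ (-F.dl))) *
        ((∏ j, F.hs (z j)) * min (Y / ∏ j, (F.nm (z j) : ℝ) ^ w j) (2 * M)) else 0)
      fun z hz => ?_).trans ?_
  · rw [Fintype.mem_piFinset] at hz
    have hzi : z i = ∅ := by
      have := hz i
      rw [if_pos rfl, Finset.mem_singleton] at this
      exact this
    exact b16_term F C2 hC20 hC2 w hw L hL R i hi c hc a P K M Y ha hP hK hKM hY haR hai haj z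
      hzi _
  · refine (hC Y M _ hY (hK.trans hKM) hD).trans (le_of_eq ?_)
    ring

end Pool.Agent.H98.MF
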