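import Pool.Agent.H98.MF.SBilin1
import Pool.Agent.H98.MF.SBoxSym
import Pool.Agent.H98.MF.SCntSqf
import Pool.Agent.H98.MF.SCount
import Pool.Agent.H98.MF.SRSum

/-!
# Project MK4 (MP_a3214d), row A13: bilinear sums over hyperbolas
-/

set_option autoImplicit false

open scoped BigOperators

namespace Pool.Agent.H98.MF

/-- Row A13. -/
theorem bilin (F : Sys) : ∃ (C : ℝ) (E : ℕ), ∀ (P X : ℝ) (a b : Finset F.P → ℝ), 1 ≤ P →
    1 ≤ X → (∀ x, |a x| ≤ 1) → (∀ y, |b y| ≤ 1) → (∀ x, a x ≠ 0 → P < F.nm x) →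
    (∀ y, b y ≠ 0 → P < F.nm y) →
    |∑ x ∈ F.bx X, ∑ y ∈ F.bx X, (if Disjoint x y ∧ (F.nm x * F.nm y : ℝ) ≤ X
      then a x * b y * (F.jj x y : ℝ) else 0)| ≤
      C * X * P ^ (-F.c0) * (1 + Real.log X) ^ E := by
  obtain ⟨C0, hC0⟩ := card_bx_le F
  obtain ⟨H, hH⟩ := harm_le F.toPre (fun _ => 1) (fun _ => zero_le_one) C0 (fun t ht => by
    rw [Finset.sum_const, nsmul_eq_mul, mul_one]
    exact hC0 t ht)
  refine bilin_of F (cnt_sqf F) ⟨H, fun t ht => ?_⟩ (box_sym F)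
  refine le_trans (le_of_eq ?_) (hH t 1 ht le_rfl)
  refine Finset.sum_congr rfl fun y _ => ?_
  rw [one_mul, Real.rpow_neg_one]

end Pool.Agent.H98.MF
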