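import Pool.Agent.H98.MF.SGWPair4
import Pool.Agent.H98.MF.SCount
import Pool.Agent.H98.MF.SRSum
import Pool.Agent.H98.MF.SBilin

/-!
# Project MK4, row A14: a linked pair of large variables
-/

set_option autoImplicit false

open scoped BigOperators

namespace Pool.Agent.H98.MF

open Pool.Agent.H98.MK (sg)

theorem GW_pair (F : Sys) {ι : Type} [Fintype ι] (w : ι → ℝ) (hw : ∀ i, 1 ≤ w i)
    (L : ι → ι → Prop) (hL : ∀ i j, L i j → ¬ L j i) (R : ι → Prop)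
    (hR : ∀ i, R i → w i = 1 ∧ ∀ j, ¬ L i j ∧ ¬ L j i)
    (i j : ι) (hij : L i j) (hi : w i = 1) (hj : w j = 1) :
    ∃ C : ℝ, ∃ k : ℕ, ∀ (a : ι → Finset F.P → ℝ) (P M Y : ℝ), (∀ l x, |a l x| ≤ 1) → 1 ≤ P →
      1 ≤ M → 1 ≤ Y → (∀ l, ¬ R l → ∀ x, a l x ≠ 0 → (F.nm x : ℝ) ≤ M) →
      (∀ x, a i x ≠ 0 → P < F.nm x) → (∀ x, a j x ≠ 0 → P < F.nm x) →
      |F.GW w L a Y| ≤ C * Y * (1 + Real.log Y) ^ (Nat.card {l // R l} - 1) *
        P ^ (-F.c0) * (1 + Real.log M) ^ k :=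
  GW_pair_of F (card_bx_le F) (fun _κ _ h hh C0 hs => rs_sum F.toPre h hh C0 hs)
    (fun h hh C0 hs => harm_le F.toPre h hh C0 hs) (bilin F) w hw L hL R hR i j hij hi hj

end Pool.Agent.H98.MF
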