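import Pool.Agent.H98.MF.GWSparse3
import Pool.Agent.H98.MF.SGWPair
import Pool.Agent.H98.MF.SGWChar

/-!
# Project MK4 (MP_a3214d), block SYS-T: sums with sparse variables
-/

set_option autoImplicit false

open scoped BigOperators

open Filter

namespace Pool.Agent.H98.MF

open Pool.Agent.H98.MK (sg)
open Pool.Agent.H98.ML (Dt Ext Wt)

namespace Sys

variable (F : Sys) {D : Dt}

open Classical in
/-- sums with sparse variables -/
theorem GW_sparse (hch : ∃ C : ℝ, ∀ x : ℝ, 2 ≤ x → ((F.pr x).card : ℝ) ≤ C * x / Real.log x)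
    {ι : Type} [Fintype ι] (w : ι → ℝ) (hw : ∀ i, 1 ≤ w i) (L : ι → ι → Prop)
    (hL : ∀ i j, L i j → ¬ L j i) (E : ι → Prop) (hE : ∃ i, E i) (hEw : ∀ i, E i → w i = 1)
    (h : ℕ) (c : ι → F.T) (a : ι → Finset F.P → ℝ) (ha : ∀ l x, |a l x| ≤ 1)
    (ha2 : ∀ l x, a l x ≠ 0 → x.Nonempty) (hsp : ∀ l, E l → ∀ x, a l x ≠ 0 → x.card ≤ h)
    (hiso : ∀ i, ¬ E i → w i = 1 → ∀ x, a i x = if x.Nonempty then (F.ps (c i) x : ℝ) else 0) :
    ∃ C : ℝ, ∀ Y : ℝ, 1 ≤ Y → |F.GW w L a Y| ≤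
      C * Y * (1 + Real.log Y) ^ (Nat.card {l // ¬ E l ∧ F.Free w L c l} - 1) *
        (1 + Real.log Y) ^ (1 / 2 : ℝ) := by
  refine F.GW_sparse_of hch w hw L hL E h c a ha ha2 hsp hiso ?_ ?_
  · intro i j hij hi hj
    exact GW_pair F w hw L hL _ (fun l hl => ⟨hl.2.1, hl.2.2.2⟩) i j hij hi hj
  · intro i hi hF hd
    exact GW_char F w hw L hL _ (fun l hl => ⟨hl.2.1, hl.2.2.2⟩) i hi hF (c i) hd

end Sys

end Pool.Agent.H98.MF
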