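import Pool.Agent.H98.MF.SPDefs

/-!
# Project MK4 (MP_a3214d), block SYS, row E5: free indices
-/

set_option autoImplicit false

open scoped BigOperators

namespace Pool.Agent.H98.MF

open Pool.Agent.H98.MK (sg)
open Pool.Agent.H98.ML (Dt Ext Wt)

section aux

variable {ι M : Type} [AddCommGroup M]

open Classical in
/-- `t` at two indices -/
noncomputable def rk_s (i i' : ι) (t : M) (j : ι) : M := if j = i ∨ j = i' then t else 0

theorem rk_s_of {i i' : ι} {t : M} {j : ι} (h : j = i ∨ j = i') : rk_s i i' t j = t := by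
  unfold rk_s
  rw [if_pos h]

theorem rk_s_not {i i' : ι} {t : M} {j : ι} (h : ¬ (j = i ∨ j = i')) : rk_s i i' t j = 0 := by
  unfold rk_s
  rw [if_neg h]

/-- change of a linear part -/
theorem rk_lin [Fintype ι] {i i' : ι} (hne : i ≠ i') (t : M) (u : ι → M) (G : ι → M → ZMod 2)
    (hG : ∀ j x y, G j (x + y) = G j x + G j y) :
    ∑ j, G j (u j + rk_s i i' t j) = ∑ j, G j (u j) + (G i t + G i' t) := by
  have h0 : ∀ j, G j 0 = 0 := fun j => by
    have := hG j 0 0
    rw [add_zero] at this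
    exact left_eq_add.mp this
  have h1 : ∑ j, G j (rk_s i i' t j) = G i t + G i' t := by
    rw [Fintype.sum_eq_add i i' hne, rk_s_of (Or.inl rfl), rk_s_of (Or.inr rfl)]
    intro j hj
    rw [rk_s_not (by rintro (h | h); exacts [hj.1 h, hj.2 h]), h0]
  rw [← h1, ← Finset.sum_add_distrib]
  exact Finset.sum_congr rfl fun j _ => hG j _ _

/-- the quadratic part does not change -/
theorem rk_quad [Fintype ι] {σ : Finset ι} {i i' : ι} (hne : i ≠ i') (t : ZMod 2) (U : ι → ZMod 2)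
    (hU : ∀ k, k ∉ σ → U k = 0) (C : ι → ι → Prop) [∀ j k, Decidable (C j k)]
    (h0 : ∀ j k, (j = i ∨ j = i') → (k = i ∨ k = i') → ¬ C j k)
    (h1 : ∀ k ∈ σ, (C i k ↔ C i' k)) (h2 : ∀ k ∈ σ, (C k i ↔ C k i')) :
    (∑ j, ∑ k, if C j k then (U j + rk_s i i' t j) * (U k + rk_s i i' t k) else 0) =
      ∑ j, ∑ k, if C j k then U j * U k else 0 := by
  have e1 : ∀ j k, (if C j k then (U j + rk_s i i' t j) * (U k + rk_s i i' t k) else 0) =
      (if C j k then U j * U k else 0) + ((if C j k then rk_s i i' t j * U k else 0) +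
        (if C j k then U j * rk_s i i' t k else 0)) := by
    intro j k
    by_cases hC : C j k
    · rw [if_pos hC, if_pos hC, if_pos hC, if_pos hC]
      have h3 : rk_s i i' t j * rk_s i i' t k = 0 := by
        by_cases hj : j = i ∨ j = i'
        · by_cases hk : k = i ∨ k = i'
          · exact absurd hC (h0 j k hj hk)
          · rw [rk_s_not (t := t) hk, mul_zero]
        · rw [rk_s_not (t := t) hj, zero_mul]
      linear_combination h3
    · rw [if_neg hC, if_neg hC, if_neg hC, if_neg hC, add_zero, add_zero]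
  have e2 : ∑ j, ∑ k, (if C j k then rk_s i i' t j * U k else 0) = 0 := by
    rw [Finset.sum_comm]
    refine Finset.sum_eq_zero fun k _ => ?_
    rw [Fintype.sum_eq_add i i' hne]
    · rw [rk_s_of (Or.inl rfl), rk_s_of (Or.inr rfl)]
      by_cases hk : k ∈ σ
      · by_cases hC : C i k
        · rw [if_pos hC, if_pos ((h1 k hk).1 hC)]
          exact CharTwo.add_self_eq_zero _
        · rw [if_neg hC, if_neg fun h => hC ((h1 k hk).2 h), add_zero]
      · rw [hU k hk, mul_zero, ite_self, ite_self, add_zero]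
    · intro j hj
      rw [rk_s_not (by rintro (h | h); exacts [hj.1 h, hj.2 h]), zero_mul, ite_self]
  have e3 : ∑ j, ∑ k, (if C j k then U j * rk_s i i' t k else 0) = 0 := by
    refine Finset.sum_eq_zero fun j _ => ?_
    rw [Fintype.sum_eq_add i i' hne]
    · rw [rk_s_of (Or.inl rfl), rk_s_of (Or.inr rfl)]
      by_cases hk : j ∈ σ
      · by_cases hC : C j i
        · rw [if_pos hC, if_pos ((h2 j hk).1 hC)]
          exact CharTwo.add_self_eq_zero _
        · rw [if_neg hC, if_neg fun h => hC ((h2 j hk).2 h), add_zero]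
      · rw [hU j hk, zero_mul, ite_self, ite_self, add_zero]
    · intro k hk
      rw [rk_s_not (by rintro (h | h); exacts [hk.1 h, hk.2 h]), mul_zero, ite_self]
  calc (∑ j, ∑ k, if C j k then (U j + rk_s i i' t j) * (U k + rk_s i i' t k) else 0)
      = ∑ j, ∑ k, (if C j k then U j * U k else 0) +
        (∑ j, ∑ k, (if C j k then rk_s i i' t j * U k else 0) +
          ∑ j, ∑ k, (if C j k then U j * rk_s i i' t k else 0)) := by
        rw [← Finset.sum_add_distrib, ← Finset.sum_add_distrib]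
        refine Finset.sum_congr rfl fun j _ => ?_
        rw [← Finset.sum_add_distrib, ← Finset.sum_add_distrib]
        exact Finset.sum_congr rfl fun k _ => e1 j k
    _ = _ := by rw [e2, e3, add_zero, add_zero]

end aux

variable (F : Sys) {D : Dt} (w : Wt D)

theorem rk_mem_R {σ : Finset (F.IX D)} {c : F.IX D → F.T} {i : F.IX D} :
    i ∈ F.R w σ c ↔ i ∈ σ ∧ w.ind i.1.1 = w.m ∧ c i = 0 ∧ ∀ j ∈ σ, D.e i.1 j.1 = D.e j.1 i.1 := by
  simp only [Sys.R, Finset.mem_filter]

theorem rk_q {w : Wt D} {g : Ext D} (h : w.ind g = w.m) : D.q g.v = 0 := by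
  have h1 : g * g = 1 := by
    by_contra h2
    have := w.sqr g h2
    omega
  have h2 : (g * g).z = 0 := by rw [h1]; rfl
  rw [Ext.mul_z, Ext.two_Z, zero_add] at h2
  exact h2

theorem rk_B_comm (v x : D.V) : D.B v x = D.B x v := add_comm _ _

theorem rk_B_add (v x y : D.V) : D.B v (x + y) = D.B v x + D.B v y := by
  unfold Dt.B
  rw [map_add, map_add, LinearMap.add_apply]
  abel

theorem rk_B_zero (v : D.V) : D.B v 0 = 0 := by
  unfold Dt.B
  rw [map_zero, map_zero, LinearMap.zero_apply, add_zero]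

theorem rk_B_smul (v x : D.V) (t : ZMod 2) : D.B v (t • x) = t • D.B v x := by
  unfold Dt.B
  rw [map_smul, map_smul, LinearMap.smul_apply, smul_add]

open Classical in
/-- change of the function of the types -/
theorem rk_psi (θ : (Fin F.m → D.V) → (D.V → F.T) → Finset D.V → ℝ) (a : Fin F.m → D.V)
    {σ : Finset (F.IX D)} {i i' : F.IX D} (hi : i ∈ σ) (hi' : i' ∈ σ) (hne : i ≠ i')
    (hv : i.1.1.v = i'.1.1.v) (hq : D.q i.1.1.v = 0)
    (he : ∀ j ∈ σ, D.e i.1 j.1 = D.e i'.1 j.1) (t : F.T) (u : F.IX D → F.T) (hu : u ∈ F.UT σ) :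
    F.Psi θ a σ (fun j => u j + rk_s i i' t j) =
      ((sg (∑ k, t k * ((i.1.2 + i'.1.2) ⬝ᵥ D.B (a k) i.1.1.v) + (i.2 + i'.2) ⬝ᵥ t) : ℤ) : ℝ) *
        F.Psi θ a σ u := by
  have hu0 : ∀ k, k ∉ σ → u k = 0 := by
    intro k hk
    have h1 := Fintype.mem_piFinset.1 hu k
    rw [if_neg hk] at h1
    exact Finset.mem_singleton.1 h1
  have hθ : (fun v => if v = 0 then (0 : F.T) else
        ∑ j ∈ Finset.univ.filter (fun j : F.IX D => j.1.1.v = v), (u j + rk_s i i' t j)) =
      fun v => if v = 0 then 0 else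
        ∑ j ∈ Finset.univ.filter (fun j : F.IX D => j.1.1.v = v), u j := by
    funext v
    by_cases h0 : v = 0
    · rw [if_pos h0, if_pos h0]
    rw [if_neg h0, if_neg h0, Finset.sum_add_distrib]
    have h1 : ∑ j ∈ Finset.univ.filter (fun j : F.IX D => j.1.1.v = v), rk_s i i' t j = 0 := by
      by_cases h2 : i.1.1.v = v
      · rw [Finset.sum_filter, Fintype.sum_eq_add i i' hne, if_pos h2, if_pos (hv ▸ h2),
          rk_s_of (Or.inl rfl), rk_s_of (Or.inr rfl)]
        · funext k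
          exact CharTwo.add_self_eq_zero _
        · intro j hj
          rw [rk_s_not (by rintro (h | h); exacts [hj.1 h, hj.2 h]), ite_self]
      · refine Finset.sum_eq_zero fun j hj => rk_s_not ?_
        rintro (h | h)
        · exact h2 (h ▸ (Finset.mem_filter.1 hj).2)
        · exact h2 (hv ▸ h ▸ (Finset.mem_filter.1 hj).2)
    rw [h1, add_zero]
  have hl : ∀ j, F.l ⬝ᵥ (u j + rk_s i i' t j) = F.l ⬝ᵥ u j + rk_s i i' (F.l ⬝ᵥ t) j := by
    intro j
    rw [dotProduct_add]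
    congr 1
    by_cases h : j = i ∨ j = i'
    · rw [rk_s_of h, rk_s_of h]
    · rw [rk_s_not h, rk_s_not h, dotProduct_zero]
  have hquad : (∑ j : F.IX D, ∑ k : F.IX D,
      (if Fintype.equivFin D.V j.1.1.v < Fintype.equivFin D.V k.1.1.v ∧
        D.e j.1 k.1 = 1 ∧ D.e k.1 j.1 = 1 then
          (F.l ⬝ᵥ (u j + rk_s i i' t j)) * (F.l ⬝ᵥ (u k + rk_s i i' t k)) else 0)) =
      ∑ j : F.IX D, ∑ k : F.IX D,
      (if Fintype.equivFin D.V j.1.1.v < Fintype.equivFin D.V k.1.1.v ∧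
        D.e j.1 k.1 = 1 ∧ D.e k.1 j.1 = 1 then (F.l ⬝ᵥ u j) * (F.l ⬝ᵥ u k) else 0) := by
    simp only [hl]
    refine rk_quad (σ := σ) hne (F.l ⬝ᵥ t) (fun j => F.l ⬝ᵥ u j)
      (fun k hk => by rw [hu0 k hk, dotProduct_zero])
      (fun j k : F.IX D => Fintype.equivFin D.V j.1.1.v < Fintype.equivFin D.V k.1.1.v ∧
        D.e j.1 k.1 = 1 ∧ D.e k.1 j.1 = 1) ?_ ?_ ?_
    · rintro j k hj hk ⟨h1, -⟩
      have h2 : j.1.1.v = k.1.1.v := by
        rcases hj with rfl | rfl <;> rcases hk with rfl | rfl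
        · rfl
        · exact hv
        · exact hv.symm
        · rfl
      rw [h2] at h1
      exact lt_irrefl _ h1
    · intro k hk
      have h3 : D.e k.1 i.1 = D.e k.1 i'.1 := by
        unfold Dt.e
        rw [hv]
      show (_ ∧ _ ∧ _) ↔ (_ ∧ _ ∧ _)
      rw [← hv, he k hk, h3]
    · intro k hk
      have h3 : D.e k.1 i.1 = D.e k.1 i'.1 := by
        unfold Dt.e
        rw [hv]
      show (_ ∧ _ ∧ _) ↔ (_ ∧ _ ∧ _)
      rw [← hv, he k hk, h3]
  have hlin1 := rk_lin hne t u (fun j x => (F.l ⬝ᵥ x) * (j.1.2 ⬝ᵥ D.q j.1.1.v))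
    (fun j x y => by rw [dotProduct_add, add_mul])
  have hlin2 := rk_lin hne t u (fun j x => ∑ k, x k * (j.1.2 ⬝ᵥ D.B (a k) j.1.1.v))
    (fun j x y => by
      rw [← Finset.sum_add_distrib]
      exact Finset.sum_congr rfl fun k _ => by rw [Pi.add_apply, add_mul])
  have hlin3 := rk_lin hne t u (fun j x => j.2 ⬝ᵥ x) (fun j x y => dotProduct_add _ _ _)
  unfold Sys.Psi
  rw [hθ, hquad, hlin1, hlin2, hlin3, ← mul_assoc, ← Int.cast_mul, ← sg_add]
  congr 3
  rw [← hv, hq, dotProduct_zero, mul_zero, dotProduct_zero, mul_zero, add_zero, add_zero]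
  have h4 : ∑ k, t k * ((i.1.2 + i'.1.2) ⬝ᵥ D.B (a k) i.1.1.v) =
      ∑ k, t k * (i.1.2 ⬝ᵥ D.B (a k) i.1.1.v) + ∑ k, t k * (i'.1.2 ⬝ᵥ D.B (a k) i.1.1.v) := by
    rw [← Finset.sum_add_distrib]
    exact Finset.sum_congr rfl fun k _ => by rw [add_dotProduct, mul_add]
  rw [h4, add_dotProduct]
  ring

theorem R_key (F : Sys) {D : Dt} (w : Wt D)
    (θ : (Fin F.m → D.V) → (D.V → F.T) → Finset D.V → ℝ) (a : Fin F.m → D.V)
    (σ : Finset (F.IX D)) (c : F.IX D → F.T) (hc : F.coef θ a σ c ≠ 0) (i i' : F.IX D)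
    (hi : i ∈ F.R w σ c) (hi' : i' ∈ F.R w σ c) (hv : i.1.1.v = i'.1.1.v) :
    (∀ k, (i.1.2 + i'.1.2) ⬝ᵥ D.B (a k) i.1.1.v = i.2 k + i'.2 k) ∧
      ∀ v ∈ F.supV σ, (i.1.2 + i'.1.2) ⬝ᵥ D.B i.1.1.v v = 0 := by
  classical
  by_cases hne : i = i'
  · subst hne
    refine ⟨fun k => ?_, fun v _ => ?_⟩
    · rw [Ext.two_Z, zero_dotProduct]
      exact (CharTwo.add_self_eq_zero _).symm
    · rw [Ext.two_Z, zero_dotProduct]
  rw [rk_mem_R] at hi hi'
  have he : ∀ j ∈ σ, D.e i.1 j.1 = D.e i'.1 j.1 := by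
    intro j hj
    rw [hi.2.2.2 j hj, hi'.2.2.2 j hj]
    unfold Dt.e
    rw [hv]
  have key : ∀ t : F.T, ∑ k, t k * ((i.1.2 + i'.1.2) ⬝ᵥ D.B (a k) i.1.1.v) +
      (i.2 + i'.2) ⬝ᵥ t = 0 := by
    intro t
    set e : ZMod 2 := ∑ k, t k * ((i.1.2 + i'.1.2) ⬝ᵥ D.B (a k) i.1.1.v) +
      (i.2 + i'.2) ⬝ᵥ t with hedef
    have h1 : F.coef θ a σ c = ((sg e : ℤ) : ℝ) * F.coef θ a σ c := by
      have h2 : ∑ u ∈ F.UT σ, F.Psi θ a σ u * ((sg (∑ i ∈ σ, c i ⬝ᵥ u i) : ℤ) : ℝ) =
          ((sg e : ℤ) : ℝ) *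
            ∑ u ∈ F.UT σ, F.Psi θ a σ u * ((sg (∑ i ∈ σ, c i ⬝ᵥ u i) : ℤ) : ℝ) := by
        rw [Finset.mul_sum]
        have hmem : ∀ u ∈ F.UT σ, (fun j => u j + rk_s i i' t j) ∈ F.UT σ := by
          intro u hu
          refine Fintype.mem_piFinset.2 fun j => ?_
          have h3 := Fintype.mem_piFinset.1 hu j
          by_cases hj : j ∈ σ
          · rw [if_pos hj]
            exact Finset.mem_univ _
          · rw [if_neg hj] at h3 ⊢
            rw [Finset.mem_singleton] at h3 ⊢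
            rw [h3, rk_s_not (by rintro (h | h); exacts [hj (h ▸ hi.1), hj (h ▸ hi'.1)]),
              add_zero]
        have hinv : ∀ u : F.IX D → F.T,
            (fun j => (fun j => u j + rk_s i i' t j) j + rk_s i i' t j) = u := by
          intro u
          funext j k
          simp only [Pi.add_apply]
          rw [add_assoc, CharTwo.add_self_eq_zero, add_zero]
        refine Finset.sum_nbij' (fun u => fun j => u j + rk_s i i' t j)
          (fun u => fun j => u j + rk_s i i' t j) hmem hmem (fun u _ => hinv u)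
          (fun u _ => hinv u) ?_
        intro u hu
        rw [rk_psi F θ a hi.1 hi'.1 hne hv (rk_q hi.2.1) he t u hu, ← hedef, ← mul_assoc,
          ← mul_assoc, ← Int.cast_mul, sg_mul_self, Int.cast_one, one_mul]
        congr 3
        refine Finset.sum_congr rfl fun k _ => ?_
        by_cases hk : k = i ∨ k = i'
        · have h3 : c k = 0 := by
            rcases hk with rfl | rfl
            · exact hi.2.2.1
            · exact hi'.2.2.1
          rw [h3, zero_dotProduct, zero_dotProduct]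
        · show c k ⬝ᵥ u k = c k ⬝ᵥ (u k + rk_s i i' t k)
          rw [rk_s_not hk, add_zero]
      unfold Sys.coef
      rw [mul_left_comm, ← h2]
    rcases zm2 e with h | h
    · exact h
    · exfalso
      rw [h, sg_one] at h1
      push_cast at h1
      apply hc
      linarith
  refine ⟨fun k => ?_, fun v hv2 => ?_⟩
  · have h1 := key (Pi.single k 1)
    rw [dotProduct_single, mul_one, Finset.sum_eq_single k, Pi.single_eq_same, one_mul,
      Pi.add_apply] at h1
    · exact CharTwo.add_eq_zero.1 h1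
    · intro j _ hj
      rw [Pi.single_eq_of_ne hj, zero_mul]
    · intro h
      exact absurd (Finset.mem_univ k) h
  · unfold Sys.supV at hv2
    obtain ⟨-, -, j, hj, rfl⟩ := Finset.mem_filter.1 hv2
    have h1 := he j hj
    unfold Dt.e at h1
    rw [add_dotProduct, h1, ← hv]
    exact CharTwo.add_self_eq_zero _

theorem R_le (F : Sys) {D : Dt} (w : Wt D)
    (θ : (Fin F.m → D.V) → (D.V → F.T) → Finset D.V → ℝ) (a : Fin F.m → D.V)
    (σ : Finset (F.IX D)) (hσ : σ ⊆ F.act w (fun _ => {0})) (c : F.IX D → F.T)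
    (hc : F.coef θ a σ c ≠ 0) (hs : F.Span a (F.supV σ)) : (F.R w σ c).card ≤ w.b := by
  classical
  have hact : ∀ i ∈ F.R w σ c, i.1.1 ≠ 1 ∧ D.crep i.1.1 = i.1.1 ∧
      D.zrep i.1.1.v i.1.2 = i.1.2 ∧ i.2 = 0 := by
    intro i hi
    rw [rk_mem_R] at hi
    have h1 := hσ hi.1
    unfold Sys.act at h1
    have h2 := (Finset.mem_filter.1 h1).2
    have h3 := h2.1
    unfold Wt.act at h3
    have h4 := (Finset.mem_filter.1 h3).2
    exact ⟨h4.1, (h4.2 hi.2.1).1, (h4.2 hi.2.1).2, Finset.mem_singleton.1 h2.2⟩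
  let f : {i // i ∈ F.R w σ c} → {c : ConjClasses (Ext D) // ∃ g : Ext D,
      ConjClasses.mk g = c ∧ g ≠ 1 ∧ w.ind g = w.m} :=
    fun i => ⟨ConjClasses.mk i.1.1.1, i.1.1.1, rfl, (hact i.1 i.2).1,
      ((rk_mem_R F w).mp i.2).2.1⟩
  have hf : Function.Injective f := by
    rintro ⟨i, hi⟩ ⟨j, hj⟩ h
    have h1 : ConjClasses.mk i.1.1 = ConjClasses.mk j.1.1 := congrArg Subtype.val h
    have h2 : i.1.1 = j.1.1 := by
      rw [← (hact i hi).2.1, ← (hact j hj).2.1]
      unfold Dt.crep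
      rw [h1]
    have hk := R_key F w θ a σ c hc i j hi hj (by rw [h2])
    have h3 : i.1.2 + j.1.2 ∈ D.Av i.1.1.v := by
      intro x
      have hx : x ∈ Submodule.span (ZMod 2) (Set.range a ∪ (F.supV σ : Set D.V)) := by
        rw [show Submodule.span (ZMod 2) (Set.range a ∪ (F.supV σ : Set D.V)) = ⊤ from hs]
        trivial
      induction hx using Submodule.span_induction with
      | mem x hx =>
        rcases hx with ⟨k, rfl⟩ | hx
        · rw [rk_B_comm, hk.1 k, (hact i hi).2.2.2, (hact j hj).2.2.2]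
          exact add_zero _
        · exact hk.2 x hx
      | zero => rw [rk_B_zero, dotProduct_zero]
      | add x y _ _ hx hy => rw [rk_B_add, dotProduct_add, hx, hy, add_zero]
      | smul x y _ hy => rw [rk_B_smul, dotProduct_smul, hy, smul_zero]
    have h4 : i.1.2 - j.1.2 ∈ D.Av i.1.1.v := by
      have h5 : i.1.2 - j.1.2 = i.1.2 + j.1.2 := by
        rw [sub_eq_iff_eq_add, add_assoc, Ext.two_Z, add_zero]
      rw [h5]
      exact h3
    have h5 : i.1.2 = j.1.2 := by
      rw [← (hact i hi).2.2.1, ← (hact j hj).2.2.1, ← h2]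
      unfold Dt.zrep
      rw [(Submodule.Quotient.eq _).mpr h4]
    have h6 : i.2 = j.2 := by rw [(hact i hi).2.2.2, (hact j hj).2.2.2]
    exact Subtype.ext (Prod.ext (Prod.ext h2 h5) h6)
  have hcard : (F.R w σ c).card = Nat.card {i // i ∈ F.R w σ c} :=
    (Nat.card_eq_finsetCard _).symm
  have hfin : Finite {c : ConjClasses (Ext D) // ∃ g : Ext D,
      ConjClasses.mk g = c ∧ g ≠ 1 ∧ w.ind g = w.m} := inferInstance
  rw [hcard]
  exact Nat.card_le_card_of_injective f hf

end Pool.Agent.H98.MF
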