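import Pool.Agent.H98.MF.TDefs
import Pool.Agent.H98.MF.SRKey

/-!
# Project MK4 (MP_a3214d), block SYS-T, row T2: free indices with extra characters
-/

set_option autoImplicit false

open scoped BigOperators
open Filter

namespace Pool.Agent.H98.MF

open Pool.Agent.H98.MK (sg)
open Pool.Agent.H98.ML (Dt Ext Wt)

namespace Sys

variable (F : Sys) {D : Dt}

theorem rx_conj_v {g h : Ext D} (hgh : IsConj g h) : h.v = g.v := by
  obtain ⟨x, rfl⟩ := isConj_iff.1 hgh
  simp only [Ext.mul_v, Ext.inv_v]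
  rw [add_right_comm, Ext.two_V, zero_add]

theorem rx_crep (g : Ext D) : IsConj (D.crep g) g := by
  rw [← ConjClasses.mk_eq_mk_iff_isConj]
  exact Quotient.out_eq _

open Classical in
/-- the classes of least index -/
noncomputable def rxCl (w : Wt D) : Finset (ConjClasses (Ext D)) :=
  Finset.univ.filter fun c => ∃ g : Ext D, ConjClasses.mk g = c ∧ g ≠ 1 ∧ w.ind g = w.m

theorem rx_card (w : Wt D) : (rxCl w).card = w.b := by
  classical
  unfold rxCl Wt.b
  rw [Nat.card_eq_fintype_card, Fintype.card_subtype]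

section

variable {F} {w : Wt D} {Ξ : Ext D → Finset F.T} {σ : Finset (F.IX D)} {c : F.IX D → F.T}

theorem rx_act (hσ : σ ⊆ F.act w Ξ) {i : F.IX D} (hi : i ∈ F.R w σ c) :
    i.1.1 ≠ 1 ∧ D.crep i.1.1 = i.1.1 ∧ D.zrep i.1.1.v i.1.2 = i.1.2 ∧ i.2 ∈ Ξ i.1.1 ∧
      w.ind i.1.1 = w.m := by
  rw [rk_mem_R] at hi
  have h1 := hσ hi.1
  unfold Sys.act at h1
  have h2 := (Finset.mem_filter.1 h1).2
  have h3 := h2.1
  unfold Wt.act at h3
  have h4 := (Finset.mem_filter.1 h3).2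
  exact ⟨h4.1, (h4.2 hi.2.1).1, (h4.2 hi.2.1).2, h2.2, hi.2.1⟩

theorem rx_mem (hσ : σ ⊆ F.act w Ξ) {i : F.IX D} (hi : i ∈ F.R w σ c) :
    ConjClasses.mk i.1.1 ∈ rxCl w := by
  classical
  have h := rx_act hσ hi
  unfold rxCl
  exact Finset.mem_filter.2 ⟨Finset.mem_univ _, i.1.1, rfl, h.1, h.2.2.2.2⟩

theorem rx_eq (hσ : σ ⊆ F.act w Ξ) {i j : F.IX D} (hi : i ∈ F.R w σ c) (hj : j ∈ F.R w σ c)
    (h : ConjClasses.mk i.1.1 = ConjClasses.mk j.1.1) : i.1.1 = j.1.1 := by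
  rw [← (rx_act hσ hi).2.1, ← (rx_act hσ hj).2.1]
  unfold Dt.crep
  rw [h]

/-- two free indices in the same class with the same character are equal -/
theorem rx_inj (hσ : σ ⊆ F.act w Ξ)
    {θ : (Fin F.m → D.V) → (D.V → F.T) → Finset D.V → ℝ} {a : Fin F.m → D.V}
    (hc : F.coef θ a σ c ≠ 0) (hs : F.Span a (F.supV σ)) {i j : F.IX D}
    (hi : i ∈ F.R w σ c) (hj : j ∈ F.R w σ c)
    (h : ConjClasses.mk i.1.1 = ConjClasses.mk j.1.1) (h' : i.2 = j.2) : i = j := by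
  have h2 := rx_eq hσ hi hj h
  have hk := R_key F w θ a σ c hc i j hi hj (by rw [h2])
  have h3 : i.1.2 + j.1.2 ∈ D.Av i.1.1.v := by
    intro x
    have hx : x ∈ Submodule.span (ZMod 2) (Set.range a ∪ (F.supV σ : Set D.V)) := by
      rw [show Submodule.span (ZMod 2) (Set.range a ∪ (F.supV σ : Set D.V)) = ⊤ from hs]
      trivial
    induction hx using Submodule.span_induction with
    | mem x hx =>
      rcases hx with ⟨k, rfl⟩ | hx
      · rw [rk_B_comm, hk.1 k, h']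
        exact CharTwo.add_self_eq_zero _
      · exact hk.2 x hx
    | zero => rw [rk_B_zero, dotProduct_zero]
    | add x y _ _ hx hy => rw [rk_B_add, dotProduct_add, hx, hy, add_zero]
    | smul x y _ hy => rw [rk_B_smul, dotProduct_smul, hy, smul_zero]
  have h4 : i.1.2 - j.1.2 ∈ D.Av i.1.1.v := by
    have h5 : i.1.2 - j.1.2 = i.1.2 + j.1.2 := by
      rw [sub_eq_iff_eq_add, add_assoc, Ext.two_Z, add_zero]
    rw [h5]
    exact h3
  have h5 : i.1.2 = j.1.2 := by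
    rw [← (rx_act hσ hi).2.2.1, ← (rx_act hσ hj).2.2.1, ← h2]
    unfold Dt.zrep
    rw [(Submodule.Quotient.eq _).mpr h4]
  exact Prod.ext (Prod.ext h2 h5) h'

end

open Classical in
/-- one class less -/
theorem R_le_out (w : Wt D)
    (θ : (Fin F.m → D.V) → (D.V → F.T) → Finset D.V → ℝ) (a : Fin F.m → D.V) (g0 : Ext D)
    (h1 : g0 ≠ 1) (hg : w.ind g0 = w.m)
    (σ : Finset (F.IX D)) (hσ : σ ⊆ F.act w (fun _ => {0})) (c : F.IX D → F.T)
    (hc : F.coef θ a σ c ≠ 0) (hs : F.Span a (F.supV σ)) :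
    ((F.R w σ c).filter fun i => ¬ IsConj g0 i.1.1).card ≤ w.b - 1 := by
  have hmem : ConjClasses.mk g0 ∈ rxCl w := by
    unfold rxCl
    exact Finset.mem_filter.2 ⟨Finset.mem_univ _, g0, rfl, h1, hg⟩
  rw [← rx_card w, ← Finset.card_erase_of_mem hmem]
  refine Finset.card_le_card_of_injOn (fun i => ConjClasses.mk i.1.1) ?_ ?_
  · intro i hi
    have h2 := Finset.mem_filter.1 (Finset.mem_coe.1 hi)
    refine Finset.mem_coe.2 (Finset.mem_erase.2 ⟨fun h3 => h2.2 ?_, rx_mem hσ h2.1⟩)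
    exact (ConjClasses.mk_eq_mk_iff_isConj.1 h3).symm
  · intro i hi j hj h
    have h2 := (Finset.mem_filter.1 (Finset.mem_coe.1 hi)).1
    have h3 := (Finset.mem_filter.1 (Finset.mem_coe.1 hj)).1
    have h4 : i.2 = 0 := Finset.mem_singleton.1 (rx_act hσ h2).2.2.2.1
    have h5 : j.2 = 0 := Finset.mem_singleton.1 (rx_act hσ h3).2.2.2.1
    exact rx_inj hσ hc hs h2 h3 h (h4.trans h5.symm)

theorem R_le_x (w : Wt D) (hM : MSp w)
    (θ : (Fin F.m → D.V) → (D.V → F.T) → Finset D.V → ℝ) (a : Fin F.m → D.V) (g0 : Ext D)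
    (h1 : g0 ≠ 1) (hg : w.ind g0 = w.m) (c0 : F.T) (hc0 : c0 ≠ 0)
    (σ : Finset (F.IX D)) (hσ : σ ⊆ F.act w (F.Xi g0 c0)) (c : F.IX D → F.T)
    (hc : F.coef θ a σ c ≠ 0) (hs : F.Span a (F.supV σ)) :
    (F.R w σ c).card ≤ w.b := by
  classical
  have hxi : ∀ i ∈ F.R w σ c, i.2 ≠ 0 → i.2 = c0 ∧ IsConj g0 i.1.1 := by
    intro i hi h0
    have h2 := (rx_act hσ hi).2.2.2.1
    unfold Sys.Xi at h2
    by_cases h3 : IsConj g0 i.1.1
    · rw [if_pos h3, Finset.mem_insert, Finset.mem_singleton] at h2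
      exact ⟨h2.resolve_left h0, h3⟩
    · rw [if_neg h3, Finset.mem_singleton] at h2
      exact absurd h2 h0
  set R0 := (F.R w σ c).filter fun i => i.2 = 0 with hR0
  set R1 := (F.R w σ c).filter fun i => ¬ i.2 = 0 with hR1
  have hsum : (F.R w σ c).card = R0.card + R1.card := by
    rw [hR0, hR1, Finset.card_filter_add_card_filter_not]
  have hmaps : Set.MapsTo (fun i : F.IX D => ConjClasses.mk i.1.1) R0 (rxCl w) := fun i hi =>
    Finset.mem_coe.2 (rx_mem hσ (Finset.mem_filter.1 (Finset.mem_coe.1 hi)).1)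
  have hinj : Set.InjOn (fun i : F.IX D => ConjClasses.mk i.1.1) R0 := by
    intro i hi j hj h
    have h2 := Finset.mem_filter.1 (Finset.mem_coe.1 hi)
    have h3 := Finset.mem_filter.1 (Finset.mem_coe.1 hj)
    exact rx_inj hσ hc hs h2.1 h3.1 h (h2.2.trans h3.2.symm)
  have hR0le : R0.card ≤ w.b := by
    rw [← rx_card w]
    exact Finset.card_le_card_of_injOn _ hmaps hinj
  have hR1le : R1.card ≤ 1 := by
    rw [Finset.card_le_one]
    intro i hi j hj
    have h2 := Finset.mem_filter.1 hi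
    have h3 := Finset.mem_filter.1 hj
    have h4 := hxi i h2.1 h2.2
    have h5 := hxi j h3.1 h3.2
    exact rx_inj hσ hc hs h2.1 h3.1
      (ConjClasses.mk_eq_mk_iff_isConj.2 (h4.2.symm.trans h5.2)) (h4.1.trans h5.1.symm)
  by_contra hcon
  push Not at hcon
  have hb0 : R0.card = w.b := by omega
  have hb1 : R1.Nonempty := by
    rw [← Finset.card_pos]
    omega
  have himg : R0.image (fun i : F.IX D => ConjClasses.mk i.1.1) = rxCl w := by
    refine Finset.eq_of_subset_of_card_le (fun x hx => ?_) ?_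
    · obtain ⟨i, hi, rfl⟩ := Finset.mem_image.1 hx
      exact hmaps (Finset.mem_coe.2 hi)
    · rw [Finset.card_image_of_injOn hinj, rx_card, hb0]
  -- every class of least index has a free index with trivial character
  have hall : ∀ g : Ext D, g ≠ 1 → w.ind g = w.m → ∃ i ∈ R0, IsConj i.1.1 g := by
    intro g hg1 hg2
    have h2 : ConjClasses.mk g ∈ rxCl w := by
      unfold rxCl
      exact Finset.mem_filter.2 ⟨Finset.mem_univ _, g, rfl, hg1, hg2⟩
    rw [← himg] at h2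
    obtain ⟨i, hi, h3⟩ := Finset.mem_image.1 h2
    exact ⟨i, hi, ConjClasses.mk_eq_mk_iff_isConj.1 h3⟩
  obtain ⟨i1, hi1⟩ := hb1
  have hi1' := Finset.mem_filter.1 hi1
  have hx1 := hxi i1 hi1'.1 hi1'.2
  obtain ⟨i0, hi0, hcj⟩ := hall g0 h1 hg
  have hi0' := Finset.mem_filter.1 hi0
  have heq : i0.1.1 = i1.1.1 :=
    rx_eq hσ hi0'.1 hi1'.1 (ConjClasses.mk_eq_mk_iff_isConj.2 (hcj.trans hx1.2))
  have hk := R_key F w θ a σ c hc i0 i1 hi0'.1 hi1'.1 (by rw [heq])
  have hd : ∀ u : D.V, (i0.1.2 + i1.1.2) ⬝ᵥ D.B i0.1.1.v u = 0 := by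
    intro u
    have hu : u ∈ Submodule.span (ZMod 2)
        {v : D.V | ∃ g : Ext D, g ≠ 1 ∧ w.ind g = w.m ∧ g.v = v} := by
      rw [show Submodule.span (ZMod 2)
        {v : D.V | ∃ g : Ext D, g ≠ 1 ∧ w.ind g = w.m ∧ g.v = v} = ⊤ from hM]
      trivial
    induction hu using Submodule.span_induction with
    | mem x hx =>
      obtain ⟨g, hg1, hg2, rfl⟩ := hx
      by_cases h0 : g.v = 0
      · rw [h0, rk_B_zero, dotProduct_zero]
      · obtain ⟨i, hi, h3⟩ := hall g hg1 hg2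
        refine hk.2 _ ?_
        unfold Sys.supV
        refine Finset.mem_filter.2 ⟨Finset.mem_univ _, h0, i, ?_, (rx_conj_v h3).symm⟩
        exact ((rk_mem_R F w).1 (Finset.mem_filter.1 hi).1).1
    | zero => rw [rk_B_zero, dotProduct_zero]
    | add x y _ _ hx hy => rw [rk_B_add, dotProduct_add, hx, hy, add_zero]
    | smul x y _ hy => rw [rk_B_smul, dotProduct_smul, hy, smul_zero]
  apply hc0
  funext k
  have h3 := hk.1 k
  rw [rk_B_comm, hd, hi0'.2, hx1.1, Pi.zero_apply, zero_add] at h3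
  exact h3.symm

end Sys

end Pool.Agent.H98.MF
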