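import Pool.Agent.H98.MF.SExpSign

/-!
# Project MK4 (MP_a3214d), row MF-E1, part 3: the expansion over the active indices (helper64)
-/

set_option autoImplicit false

open scoped BigOperators

namespace Pool.Agent.H98.MF

open Pool.Agent.H98.MK (sg sum_sg)
open Pool.Agent.H98.ML (Dt Ext Wt x2_crep x2_crep_congr x2_conj_v x2_conj_ind x2_conj_one
  x2_wt_ge x2_wt_conj x2_q x2_B_symm x2_B_self x2_B_zero_left x2_mem_act)

open Classical in
/-- local factors of the parameters -/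
noncomputable def e1f1 (F : Sys) {D : Dt} (Ξ : Ext D → Finset F.T) (a : Fin F.m → D.V)
    (M : D.V → Finset F.P) (g : Ext D) (p : F.P) : ℝ :=
  if g = 1 then 0 else if F.okp a M g.v p then ((∑ ξ ∈ Ξ g, sg (ξ ⬝ᵥ F.ty p) : ℤ) : ℝ) else 0

open Classical in
/-- local factors of the expanded variables -/
noncomputable def e1f2 (F : Sys) {D : Dt} (w : Wt D) (Ξ : Ext D → Finset F.T)
    (a : Fin F.m → D.V) (M : D.V → Finset F.P) (i : F.IX D) (p : F.P) : ℝ :=
  if i ∈ F.act w Ξ then (if w.ind i.1.1 = w.m then 1 else 1 / 2 ^ D.s) *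
    (sg (i.1.2 ⬝ᵥ e1X F a M p i.1.1.v + i.2 ⬝ᵥ F.ty p) : ℝ) else 0

theorem e1_mem_act (F : Sys) {D : Dt} (w : Wt D) (Ξ : Ext D → Finset F.T) (i : F.IX D) :
    i ∈ F.act w Ξ ↔ i.1 ∈ w.act ∧ i.2 ∈ Ξ i.1.1 := by
  unfold Sys.act
  rw [Finset.mem_filter]
  simp only [Finset.mem_univ, true_and]

theorem e1_fibx (F : Sys) {D : Dt} [DecidableEq (Ext D)] (f : F.IX D → ℝ) (g : Ext D) :
    ∑ k ∈ Finset.univ.filter (fun k : F.IX D => k.1.1 = g), f k =
      ∑ ζ : D.Z, ∑ ξ : F.T, f ((g, ζ), ξ) := by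
  rw [← Finset.sum_product']
  refine Finset.sum_bij' (fun k _ => (k.1.2, k.2)) (fun y _ => ((g, y.1), y.2)) ?_ ?_ ?_ ?_ ?_
  · intro k _
    simp
  · intro y _
    exact Finset.mem_filter.2 ⟨Finset.mem_univ _, rfl⟩
  · rintro ⟨⟨h, ζ⟩, ξ⟩ hk
    have h1 : h = g := (Finset.mem_filter.1 hk).2
    subst h1
    rfl
  · intro y _
    rfl
  · rintro ⟨⟨h, ζ⟩, ξ⟩ hk
    have h1 : h = g := (Finset.mem_filter.1 hk).2
    subst h1
    rfl

theorem e1_local (F : Sys) {D : Dt} (w : Wt D) (Ξ : Ext D → Finset F.T)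
    (hΞ : ∀ g h, IsConj g h → Ξ g = Ξ h) (a : Fin F.m → D.V) (M : D.V → Finset F.P)
    [DecidableEq (Ext D)] (g : Ext D) (p : F.P) :
    ∑ k ∈ Finset.univ.filter (fun k : Ext D => e1pi w k = g), e1f1 F Ξ a M k p =
      ∑ k ∈ Finset.univ.filter (fun k : F.IX D => k.1.1 = g), e1f2 F w Ξ a M k p := by
  classical
  rw [e1_fibx]
  have h0 := e1_local0 w (e1X F a M p) (e1_X_iso F a M p) g
  have hL : ∑ k ∈ Finset.univ.filter (fun k : Ext D => e1pi w k = g), e1f1 F Ξ a M k p =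
      (∑ k ∈ Finset.univ.filter (fun k : Ext D => e1pi w k = g),
        (if k = 1 then (0 : ℝ) else if e1X F a M p k.v = 0 then 1 else 0)) *
        ((∑ ξ ∈ Ξ g, sg (ξ ⬝ᵥ F.ty p) : ℤ) : ℝ) := by
    rw [Finset.sum_mul]
    refine Finset.sum_congr rfl fun k hk => ?_
    have h1 := e1_pi_conj w k
    rw [(Finset.mem_filter.1 hk).2] at h1
    unfold e1f1
    by_cases hk1 : k = 1
    · rw [if_pos hk1, if_pos hk1, zero_mul]
    · rw [if_neg hk1, if_neg hk1, hΞ k g h1]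
      by_cases h2 : e1X F a M p k.v = 0
      · rw [if_pos h2, if_pos ((e1_okp F a M k.v p).2 h2), one_mul]
      · rw [if_neg h2, if_neg fun h3 => h2 ((e1_okp F a M k.v p).1 h3), zero_mul]
  have hR : ∑ ζ : D.Z, ∑ ξ : F.T, e1f2 F w Ξ a M ((g, ζ), ξ) p =
      (∑ ζ : D.Z, (if (g, ζ) ∈ w.act then (if w.ind g = w.m then 1 else 1 / 2 ^ D.s) *
        (sg (ζ ⬝ᵥ e1X F a M p g.v) : ℝ) else 0)) *
        ((∑ ξ ∈ Ξ g, sg (ξ ⬝ᵥ F.ty p) : ℤ) : ℝ) := by
    rw [Finset.sum_mul]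
    refine Finset.sum_congr rfl fun ζ _ => ?_
    push_cast
    rw [Finset.mul_sum, ← Finset.sum_filter_add_sum_filter_not Finset.univ (fun ξ => ξ ∈ Ξ g)]
    rw [Finset.filter_univ_mem]
    have h3 : ∑ ξ ∈ Finset.univ.filter (fun ξ => ξ ∉ Ξ g), e1f2 F w Ξ a M ((g, ζ), ξ) p = 0 := by
      refine Finset.sum_eq_zero fun ξ hξ => ?_
      unfold e1f2
      rw [if_neg]
      rw [e1_mem_act]
      exact fun h => (Finset.mem_filter.1 hξ).2 h.2
    rw [h3, add_zero]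
    refine Finset.sum_congr rfl fun ξ hξ => ?_
    unfold e1f2
    by_cases h4 : (g, ζ) ∈ w.act
    · rw [if_pos h4, if_pos ((e1_mem_act F w Ξ ((g, ζ), ξ)).2 ⟨h4, hξ⟩)]
      show (if w.ind g = w.m then (1 : ℝ) else 1 / 2 ^ D.s) *
        (sg (ζ ⬝ᵥ e1X F a M p g.v + ξ ⬝ᵥ F.ty p) : ℝ) = _
      rw [sg_add]
      push_cast
      rw [mul_assoc]
    · rw [if_neg h4, zero_mul, if_neg]
      rw [e1_mem_act]
      exact fun h => h4 h.1
  rw [hL, hR]
  congr 1
  refine Eq.trans ?_ (h0.trans ?_)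
  · congr!
  · congr!

open Classical in
/-- the product of finite sets does not depend on the instance -/
theorem e1_pi_inst {α : Type*} {β : α → Type*} (i1 i2 : DecidableEq α) [Fintype α]
    (s : ∀ a, Finset (β a)) :
    @Fintype.piFinset α i1 _ β s = @Fintype.piFinset α i2 _ β s := by
  rw [Subsingleton.elim i1 i2]

/-- the common factor -/
noncomputable def e1Phi (F : Sys) {D : Dt} (w : Wt D)
    (Θ : (Fin F.m → D.V) → (Ext D → Finset F.P) → ℝ) (Y : ℝ) (a : Fin F.m → D.V)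
    (X : Ext D → Finset F.P) : ℝ :=
  if ∏ g, (F.nm (X g) : ℝ) ^ w.wt g ≤ Y then Θ a X else 0

open Classical in
theorem e1_left (F : Sys) {D : Dt} (w : Wt D) (Ξ : Ext D → Finset F.T)
    (Θ : (Fin F.m → D.V) → (Ext D → Finset F.P) → ℝ) (Y : ℝ) (a : Fin F.m → D.V)
    (x : Ext D → Finset F.P) :
    (if x 1 = ∅ ∧ F.Dj x ∧ (∏ g, (F.nm (x g) : ℝ) ^ w.wt g) ≤ Y ∧
      ∀ g, ∀ p ∈ x g, F.okp a (F.mV x) g.v p
    then (∏ g, ∏ p ∈ x g, ((∑ ξ ∈ Ξ g, sg (ξ ⬝ᵥ F.ty p) : ℤ) : ℝ)) * Θ a (F.cls w x)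
    else 0) = if F.Dj x then
      (∏ k, ∏ p ∈ x k, e1f1 F Ξ a (F.mV (F.psh (e1pi w) x)) k p) *
        e1Phi F w Θ Y a (F.psh (e1pi w) x) else 0 := by
  by_cases hd : F.Dj x
  · rw [if_pos hd]
    unfold e1Phi
    have hs : ∏ g, (F.nm (F.psh (e1pi w) x g) : ℝ) ^ w.wt g = ∏ g, (F.nm (x g) : ℝ) ^ w.wt g := by
      rw [e1_size F w _ x hd]
      exact Finset.prod_congr rfl fun k _ => by rw [x2_wt_conj w (e1_pi_conj w k)]
    rw [hs, e1_cls, mV_cls]
    by_cases hY : ∏ g, (F.nm (x g) : ℝ) ^ w.wt g ≤ Y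
    · rw [if_pos hY]
      by_cases hc : x 1 = ∅ ∧ ∀ g, ∀ p ∈ x g, F.okp a (F.mV x) g.v p
      · rw [if_pos ⟨hc.1, hd, hY, hc.2⟩]
        congr 1
        refine Finset.prod_congr rfl fun k _ => Finset.prod_congr rfl fun p hp => ?_
        unfold e1f1
        have hk : k ≠ 1 := by
          rintro rfl
          rw [hc.1] at hp
          exact Finset.notMem_empty _ hp
        rw [if_neg hk, if_pos (hc.2 k p hp)]
      · rw [if_neg fun h' => hc ⟨h'.1, h'.2.2.2⟩]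
        have h1 : ∏ k, ∏ p ∈ x k, e1f1 F Ξ a (F.mV x) k p = 0 := by
          by_contra hne
          refine hc ⟨?_, ?_⟩
          · by_contra h2
            obtain ⟨p, hp⟩ := Finset.nonempty_iff_ne_empty.2 h2
            have h4 := Finset.prod_ne_zero_iff.1 (Finset.prod_ne_zero_iff.1 hne 1
              (Finset.mem_univ 1)) p hp
            unfold e1f1 at h4
            rw [if_pos rfl] at h4
            exact h4 rfl
          · intro g p hp
            by_contra h2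
            have h4 := Finset.prod_ne_zero_iff.1 (Finset.prod_ne_zero_iff.1 hne g
              (Finset.mem_univ g)) p hp
            unfold e1f1 at h4
            rw [if_neg h2, ite_self] at h4
            exact h4 rfl
        rw [h1, zero_mul]
    · rw [if_neg hY, mul_zero, if_neg fun h' => hY h'.2.2.1]
  · rw [if_neg hd, if_neg fun h' => hd h'.2.1]

open Classical in
theorem e1_right (F : Sys) {D : Dt} (w : Wt D) (Ξ : Ext D → Finset F.T)
    (Θ : (Fin F.m → D.V) → (Ext D → Finset F.P) → ℝ) (Y : ℝ) (a : Fin F.m → D.V)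
    (x : F.IX D → Finset F.P) :
    (if (∀ i, i ∉ F.act w Ξ → x i = ∅) ∧ F.Dj x ∧
          ∏ i, (F.nm (x i) : ℝ) ^ w.wt i.1.1 ≤ Y
        then (F.sgn a x : ℝ) * (∏ i ∈ F.act w Ξ, F.kap w i (x i)) * Θ a (F.clx x)
        else 0) = if F.Dj x then
      (∏ k, ∏ p ∈ x k, e1f2 F w Ξ a (F.mV (F.psh (fun i : F.IX D => i.1.1) x)) k p) *
        e1Phi F w Θ Y a (F.psh (fun i : F.IX D => i.1.1) x) else 0 := by
  by_cases hd : F.Dj x
  · rw [if_pos hd]
    unfold e1Phi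
    rw [e1_size F w _ x hd, e1_clx, mV_clx]
    by_cases hY : ∏ i, (F.nm (x i) : ℝ) ^ w.wt i.1.1 ≤ Y
    · rw [if_pos hY]
      by_cases hc : ∀ i, i ∉ F.act w Ξ → x i = ∅
      · rw [if_pos ⟨hc, hd, hY⟩]
        congr 1
        rw [← e1_sign F a x hd]
        have h2 : ∀ k : F.IX D, ∏ p ∈ x k, e1f2 F w Ξ a (F.mof x) k p =
            ((∏ p ∈ x k, sg (k.1.2 ⬝ᵥ e1X F a (F.mof x) p k.1.1.v + k.2 ⬝ᵥ F.ty p) : ℤ) : ℝ) *
              (if k ∈ F.act w Ξ then F.kap w k (x k) else 1) := by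
          intro k
          by_cases hk : k ∈ F.act w Ξ
          · rw [if_pos hk]
            unfold e1f2 Sys.kap
            rw [Finset.prod_congr rfl fun p _ => if_pos hk, Finset.prod_mul_distrib,
              Finset.prod_const]
            rw [mul_comm]
            push_cast
            congr 1
            split_ifs
            · rw [one_pow]
            · rfl
          · rw [if_neg hk, hc k hk]
            simp
        rw [Finset.prod_congr rfl fun k _ => h2 k, Finset.prod_mul_distrib]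
        push_cast
        congr 1
        rw [Finset.prod_ite_mem, Finset.univ_inter]
      · rw [if_neg fun h' => hc h'.1]
        push Not at hc
        obtain ⟨i, hi, hx⟩ := hc
        obtain ⟨p, hp⟩ := hx
        have h5 : e1f2 F w Ξ a (F.mof x) i p = 0 := by
          unfold e1f2
          rw [if_neg hi]
        rw [Finset.prod_eq_zero (Finset.mem_univ i) (Finset.prod_eq_zero hp h5), zero_mul]
    · rw [if_neg hY, mul_zero, if_neg fun h' => hY h'.2.2]
  · rw [if_neg hd, if_neg fun h' => hd h'.2.1]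

open Classical in
theorem expand_gen (F : Sys) {D : Dt} (w : Wt D) (Ξ : Ext D → Finset F.T)
    (hΞ : ∀ g h, IsConj g h → Ξ g = Ξ h)
    (Θ : (Fin F.m → D.V) → (Ext D → Finset F.P) → ℝ) (Y : ℝ) :
    F.SΘ w Ξ Θ Y = ∑ a : Fin F.m → D.V,
      ∑ x ∈ Fintype.piFinset (fun _ : F.IX D => F.bx Y),
        if (∀ i, i ∉ F.act w Ξ → x i = ∅) ∧ F.Dj x ∧
          ∏ i, (F.nm (x i) : ℝ) ^ w.wt i.1.1 ≤ Y
        then (F.sgn a x : ℝ) * (∏ i ∈ F.act w Ξ, F.kap w i (x i)) * Θ a (F.clx x)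
        else 0 := by
  unfold Sys.SΘ
  refine Finset.sum_congr rfl fun a _ => ?_
  have hΦ : ∀ X, e1Phi F w Θ Y a X ≠ 0 → ∀ k, X k ∈ F.bx Y := by
    intro X hX k
    by_contra hc
    refine hX ?_
    unfold e1Phi
    rw [if_neg fun h => hc (e1_box F w Y X h k)]
  have e1 := exp_gen F (e1pi w) (fun X k p => e1f1 F Ξ a (F.mV X) k p)
    (e1Phi F w Θ Y a) Y hΦ
  have e2 := exp_gen F (fun i : F.IX D => i.1.1) (fun X k p => e1f2 F w Ξ a (F.mV X) k p)
    (e1Phi F w Θ Y a) Y hΦ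
  refine Eq.trans ?_ (e1.trans (Eq.trans ?_ (e2.symm.trans ?_)))
  · refine Finset.sum_congr ?_ fun x _ => ?_
    · exact e1_pi_inst _ _ _
    · exact e1_left F w Ξ Θ Y a x
  · refine Finset.sum_congr (e1_pi_inst _ _ _) fun X _ => ?_
    by_cases hd : F.Dj X
    · rw [if_pos hd, if_pos hd]
      congr 1
      refine Finset.prod_congr rfl fun g _ => Finset.prod_congr rfl fun p _ => ?_
      convert e1_local F w Ξ hΞ a (F.mV X) g p
    · rw [if_neg hd, if_neg hd]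
  · refine Finset.sum_congr ?_ fun x _ => ?_
    · exact e1_pi_inst _ _ _
    · exact (e1_right F w Ξ Θ Y a x).symm

end Pool.Agent.H98.MF
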