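import Pool.Agent.H98.MF.SBase

/-!
# Project MK4 (MP_a3214d), block SYS: push-forward along the norm
-/

set_option autoImplicit false

open scoped BigOperators

namespace Pool.Agent.H98.MF

open Pool.Agent.H98.MK (sg)

/-- the sets of primes of norm `n` -/
theorem tr_filter (S : Pre) (t : ℝ) (n : ℕ) (hn : n ∈ Finset.Icc 1 ⌊t⌋₊) :
    (S.bx t).filter (fun x => S.nm x = n) = (S.bx n).filter (fun x => S.nm x = n) := by
  rw [Finset.mem_Icc] at hn
  have h1 : (n : ℝ) ≤ t := (Nat.le_floor_iff' (by omega)).1 hn.2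
  ext x
  rw [Finset.mem_filter, Finset.mem_filter, S.mem_bx, S.mem_bx]
  constructor
  · rintro ⟨_, h⟩
    exact ⟨by rw [h], h⟩
  · rintro ⟨_, h⟩
    exact ⟨by rw [h]; exact h1, h⟩

theorem tr_mem (S : Pre) (t : ℝ) (x : Finset S.P) (hx : x ∈ S.bx t) :
    S.nm x ∈ Finset.Icc 1 ⌊t⌋₊ := by
  rw [Finset.mem_Icc]
  exact ⟨S.one_le_nm x, Nat.le_floor (S.mem_bx.1 hx)⟩

theorem sum_bx (S : Pre) (h : Finset S.P → ℝ) (φ : ℕ → ℝ) (t : ℝ) :
    ∑ x ∈ S.bx t, h x * φ (S.nm x) = ∑ n ∈ Finset.Icc 1 ⌊t⌋₊, S.ph h n * φ n := by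
  rw [← Finset.sum_fiberwise_of_maps_to (fun x hx => tr_mem S t x hx)
    (fun x => h x * φ (S.nm x))]
  refine Finset.sum_congr rfl fun n hn => ?_
  rw [tr_filter S t n hn]
  unfold Pre.ph
  rw [Finset.sum_mul]
  refine Finset.sum_congr rfl fun x hx => ?_
  rw [(Finset.mem_filter.1 hx).2]

open Classical in
theorem sum_tuple (S : Pre) {κ : Type} [Fintype κ] (h : κ → Finset S.P → ℝ)
    (Φ : (κ → ℕ) → ℝ) (Y : ℝ) :
    ∑ x ∈ Fintype.piFinset (fun _ : κ => S.bx Y), (∏ i, h i (x i)) * Φ (fun i => S.nm (x i)) =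
      ∑ n ∈ Fintype.piFinset (fun _ : κ => Finset.Icc 1 ⌊Y⌋₊), (∏ i, S.ph (h i) (n i)) * Φ n := by
  rw [← Finset.sum_fiberwise_of_maps_to (s := Fintype.piFinset (fun _ : κ => S.bx Y))
    (t := Fintype.piFinset (fun _ : κ => Finset.Icc 1 ⌊Y⌋₊)) (g := fun x i => S.nm (x i))
    (fun x hx => by
      rw [Fintype.mem_piFinset] at hx ⊢
      exact fun i => tr_mem S Y (x i) (hx i))
    (fun x => (∏ i, h i (x i)) * Φ (fun i => S.nm (x i)))]
  refine Finset.sum_congr rfl fun n hn => ?_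
  rw [Fintype.mem_piFinset] at hn
  have h1 : (Fintype.piFinset (fun _ : κ => S.bx Y)).filter (fun x => (fun i => S.nm (x i)) = n) =
      Fintype.piFinset (fun i : κ => (S.bx (n i)).filter (fun x => S.nm x = n i)) := by
    ext x
    rw [Finset.mem_filter, Fintype.mem_piFinset, Fintype.mem_piFinset]
    constructor
    · rintro ⟨h2, h3⟩ i
      rw [← tr_filter S Y (n i) (hn i), Finset.mem_filter]
      exact ⟨h2 i, congrFun h3 i⟩
    · intro h2
      have h3 : ∀ i, x i ∈ (S.bx Y).filter (fun x => S.nm x = n i) := fun i => by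
        rw [tr_filter S Y (n i) (hn i)]
        exact h2 i
      exact ⟨fun i => (Finset.mem_filter.1 (h3 i)).1,
        funext fun i => (Finset.mem_filter.1 (h3 i)).2⟩
  rw [h1]
  unfold Pre.ph
  rw [Finset.prod_univ_sum, Finset.sum_mul]
  refine Finset.sum_congr rfl fun x hx => ?_
  rw [Fintype.mem_piFinset] at hx
  have h4 : (fun i => S.nm (x i)) = n := funext fun i => (Finset.mem_filter.1 (hx i)).2
  rw [h4]

end Pool.Agent.H98.MF
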