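import Pool.Agent.H98.MF.SCount
import Pool.Agent.H98.MF.STransfer
import Pool.Agent.H98.ML.GWAn

/-!
# Project MK4 (MP_a3214d), block SYS, row A15: a large variable of weight larger than one
-/

set_option autoImplicit false

open scoped BigOperators

namespace Pool.Agent.H98.MF

open Pool.Agent.H98.MK (sg a3_harm)
open Pool.Agent.H98.ML (a4_tail a4_prod)

/-- comparison of a sum over sets of primes with the sum over integers -/
theorem a15_cmp (S : Pre) (C0 : ℝ) (hC : ∀ t : ℝ, 1 ≤ t → ((S.bx t).card : ℝ) ≤ C0 * t)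
    (φ : ℕ → ℝ) (h0 : ∀ n, 1 ≤ n → 0 ≤ φ n) (hφ : ∀ n, 1 ≤ n → φ (n + 1) ≤ φ n) (t : ℝ) :
    ∑ x ∈ S.bx t, φ (S.nm x) ≤ C0 * ∑ n ∈ Finset.Icc 1 ⌊t⌋₊, φ n := by
  have h1 := sum_bx S (fun _ => 1) φ t
  simp only [one_mul] at h1
  rw [h1]
  set a : ℕ → ℝ := fun n => S.ph (fun _ => 1) n with ha
  set H : ℕ → ℝ := fun N => ∑ n ∈ Finset.Icc 1 N, a n with hH
  have hHN : ∀ N : ℕ, 1 ≤ N → H N ≤ C0 * N := by
    intro N hN
    have h2 := sum_bx S (fun _ => 1) (fun _ => 1) (N : ℝ)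
    simp only [mul_one, Finset.sum_const, nsmul_eq_mul, Nat.floor_natCast] at h2
    have h3 : H N = ((S.bx (N : ℝ)).card : ℝ) := h2.symm
    rw [h3]
    exact hC N (by exact_mod_cast hN)
  have key : ∀ N : ℕ, ∑ n ∈ Finset.Icc 1 N, a n * φ n + (C0 * N - H N) * φ N ≤
      C0 * ∑ n ∈ Finset.Icc 1 N, φ n := by
    intro N
    induction N with
    | zero => simp [hH]
    | succ N ih =>
      have e1 : ∑ n ∈ Finset.Icc 1 (N + 1), a n * φ n =
          ∑ n ∈ Finset.Icc 1 N, a n * φ n + a (N + 1) * φ (N + 1) :=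
        Finset.sum_Icc_succ_top (by omega) _
      have e2 : H (N + 1) = H N + a (N + 1) := Finset.sum_Icc_succ_top (by omega) _
      have e3 : ∑ n ∈ Finset.Icc 1 (N + 1), φ n = ∑ n ∈ Finset.Icc 1 N, φ n + φ (N + 1) :=
        Finset.sum_Icc_succ_top (by omega) _
      have e4 : (C0 * N - H N) * φ (N + 1) ≤ (C0 * N - H N) * φ N := by
        rcases Nat.eq_zero_or_pos N with h | h
        · subst h
          simp [hH]
        · exact mul_le_mul_of_nonneg_left (hφ N h) (by linarith [hHN N h])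
      rw [e1, e2, e3]
      push_cast
      nlinarith [ih, e4]
  have h2 := key ⌊t⌋₊
  rcases Nat.eq_zero_or_pos ⌊t⌋₊ with h | h
  · rw [h]
    simp
  · have h3 : 0 ≤ (C0 * (⌊t⌋₊ : ℝ) - H ⌊t⌋₊) * φ ⌊t⌋₊ :=
      mul_nonneg (by linarith [hHN _ h]) (h0 _ h)
    linarith

theorem a15_harm (S : Pre) (C0 : ℝ) (hC0 : 0 ≤ C0)
    (hC : ∀ t : ℝ, 1 ≤ t → ((S.bx t).card : ℝ) ≤ C0 * t) (t : ℝ) (ht : 1 ≤ t) :
    ∑ x ∈ S.bx t, (S.nm x : ℝ)⁻¹ ≤ C0 * (1 + Real.log t) := by
  refine (a15_cmp S C0 hC (fun n => (n : ℝ)⁻¹) (fun n _ => by positivity) ?_ t).trans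
    (mul_le_mul_of_nonneg_left (a3_harm t ht) hC0)
  intro n hn
  have hn0 : (0 : ℝ) < n := by exact_mod_cast hn
  push_cast
  exact inv_anti₀ hn0 (by linarith)

theorem a15_tail (S : Pre) (C0 : ℝ) (hC0 : 0 ≤ C0)
    (hC : ∀ t : ℝ, 1 ≤ t → ((S.bx t).card : ℝ) ≤ C0 * t) (s : ℝ) (hs : 0 < s) (P t : ℝ)
    (hP : 1 ≤ P) :
    ∑ x ∈ S.bx t, (if P < S.nm x then (S.nm x : ℝ) ^ (-(s + 1)) else 0) ≤
      C0 * ((1 + 1 / s * 2 ^ s) * P ^ (-s)) := by
  have hP0 : 0 < P := by linarith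
  have hmax : ∀ n : ℕ, 0 < max P (n : ℝ) := fun n => lt_of_lt_of_le hP0 (le_max_left _ _)
  have h1 : ∑ x ∈ S.bx t, (if P < S.nm x then (S.nm x : ℝ) ^ (-(s + 1)) else 0) ≤
      ∑ x ∈ S.bx t, (max P (S.nm x : ℝ)) ^ (-(s + 1)) := by
    refine Finset.sum_le_sum fun x _ => ?_
    split_ifs with h
    · rw [max_eq_right h.le]
    · exact (Real.rpow_pos_of_pos (hmax _) _).le
  refine h1.trans ((a15_cmp S C0 hC (fun n => (max P (n : ℝ)) ^ (-(s + 1)))
    (fun n _ => (Real.rpow_pos_of_pos (hmax n) _).le) ?_ t).trans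
    (mul_le_mul_of_nonneg_left ?_ hC0))
  · intro n _
    refine Real.rpow_le_rpow_of_nonpos (hmax n) (max_le_max le_rfl ?_) (by linarith)
    push_cast
    linarith
  · have h2 : ∑ n ∈ Finset.Icc 1 ⌊t⌋₊, (max P (n : ℝ)) ^ (-(s + 1)) ≤
        ∑ n ∈ Finset.Icc 1 ⌊t⌋₊, (if (n : ℝ) ≤ P then P ^ (-(s + 1)) else 0) +
        ∑ n ∈ Finset.Icc 1 ⌊t⌋₊, (if P < (n : ℝ) then (n : ℝ) ^ (-(s + 1)) else 0) := by
      rw [← Finset.sum_add_distrib]
      refine Finset.sum_le_sum fun n _ => ?_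
      rcases le_or_gt (n : ℝ) P with h | h
      · rw [if_pos h, if_neg (not_lt.2 h), max_eq_left h, add_zero]
      · rw [if_neg (not_le.2 h), if_pos h, max_eq_right h.le, zero_add]
    have h3 : ∑ n ∈ Finset.Icc 1 ⌊t⌋₊, (if (n : ℝ) ≤ P then P ^ (-(s + 1)) else 0) ≤
        P ^ (-s) := by
      rw [← Finset.sum_filter, Finset.sum_const, nsmul_eq_mul]
      have h4 : ((Finset.Icc 1 ⌊t⌋₊).filter (fun n : ℕ => (n : ℝ) ≤ P)).card ≤ ⌊P⌋₊ := by
        have h5 : (Finset.Icc 1 ⌊P⌋₊).card = ⌊P⌋₊ := by simp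
        rw [← h5]
        refine Finset.card_le_card fun n hn => ?_
        obtain ⟨h6, h7⟩ := Finset.mem_filter.1 hn
        exact Finset.mem_Icc.2 ⟨(Finset.mem_Icc.1 h6).1, Nat.le_floor h7⟩
      have h5 : (((Finset.Icc 1 ⌊t⌋₊).filter (fun n : ℕ => (n : ℝ) ≤ P)).card : ℝ) ≤ P :=
        le_trans (by exact_mod_cast h4) (Nat.floor_le hP0.le)
      have h6 : P * P ^ (-(s + 1)) = P ^ (-s) := by
        have h7 : P ^ (1 + -(s + 1)) = P ^ (1 : ℝ) * P ^ (-(s + 1)) := Real.rpow_add hP0 _ _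
        rw [Real.rpow_one] at h7
        rw [← h7]
        congr 1
        ring
      rw [← h6]
      exact mul_le_mul_of_nonneg_right h5 (Real.rpow_nonneg hP0.le _)
    have h4 := a4_tail s hs P hP ⌊t⌋₊
    linarith

theorem a15_card (S : Pre) (C0 : ℝ) (hC0 : 0 ≤ C0)
    (hC : ∀ t : ℝ, 1 ≤ t → ((S.bx t).card : ℝ) ≤ C0 * t) (t : ℝ) (ht : 0 ≤ t) :
    ((S.bx t).card : ℝ) ≤ C0 * t := by
  rcases le_or_gt 1 t with h | h
  · exact hC t h
  · have h1 : S.bx t = ∅ := by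
      refine Finset.eq_empty_of_forall_notMem fun x hx => ?_
      have h2 := S.mem_bx.1 hx
      have h3 := S.one_le_nmr x
      linarith
    rw [h1]
    simp only [Finset.card_empty, Nat.cast_zero]
    positivity

open Classical in
/-- counting with one distinguished variable of weight one -/
theorem a15_count (S : Pre) (C0 : ℝ) (hC0 : 0 ≤ C0)
    (hC : ∀ t : ℝ, 1 ≤ t → ((S.bx t).card : ℝ) ≤ C0 * t)
    {ι : Type} [Fintype ι] (w : ι → ℝ) (r : ι) (hr : w r = 1)
    (b : ι → Finset S.P → ℝ) (hb : ∀ j n, 0 ≤ b j n ∧ b j n ≤ 1) (Y : ℝ) (hY : 1 ≤ Y) :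
    ∑ x ∈ Fintype.piFinset (fun _ : ι => S.bx Y),
      (if ∏ j, (S.nm (x j) : ℝ) ^ w j ≤ Y then ∏ j, b j (x j) else 0) ≤
    C0 * Y * ∏ j ∈ Finset.univ.erase r, ∑ x ∈ S.bx Y, b j x * (S.nm x : ℝ) ^ (-(w j)) := by
  set D := Fintype.piFinset (fun _ : ι => S.bx Y) with hD
  set T := Fintype.piFinset (fun j : ι => if j = r then ({∅} : Finset (Finset S.P)) else S.bx Y)
    with hT
  set c : ι → Finset S.P → ℝ := fun j n => if j = r then 1 else b j n * (S.nm n : ℝ) ^ (-(w j))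
    with hc
  have hmap : ∀ x ∈ D, Function.update x r ∅ ∈ T := by
    intro x hx
    rw [hT, Fintype.mem_piFinset]
    intro j
    by_cases hj : j = r
    · subst hj
      simp
    · rw [if_neg hj, Function.update_of_ne hj]
      exact Fintype.mem_piFinset.1 hx j
  rw [← Finset.sum_fiberwise_of_maps_to hmap]
  have hfib : ∀ y ∈ T, ∑ x ∈ D with Function.update x r ∅ = y,
      (if ∏ j, (S.nm (x j) : ℝ) ^ w j ≤ Y then ∏ j, b j (x j) else 0) ≤
        C0 * Y * ∏ j, c j (y j) := by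
    intro y hy
    have hy1 : ∀ j, (0 : ℝ) < S.nm (y j) := fun j => S.nm_posr _
    set β : ℝ := ∏ j ∈ Finset.univ.erase r, b j (y j) with hβ
    set Q : ℝ := ∏ j ∈ Finset.univ.erase r, (S.nm (y j) : ℝ) ^ w j with hQ
    have hQ0 : 0 < Q := Finset.prod_pos fun j _ => Real.rpow_pos_of_pos (hy1 j) _
    have hβ0 : 0 ≤ β := Finset.prod_nonneg fun j _ => (hb j _).1
    have hcQ : ∏ j, c j (y j) = β / Q := by
      rw [← Finset.mul_prod_erase Finset.univ (fun j => c j (y j)) (Finset.mem_univ r)]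
      have h1 : c r (y r) = 1 := by simp [hc]
      rw [h1, one_mul, hβ, hQ, ← Finset.prod_div_distrib]
      refine Finset.prod_congr rfl fun j hj => ?_
      have hj1 : j ≠ r := (Finset.mem_erase.1 hj).1
      simp only [hc, if_neg hj1]
      rw [Real.rpow_neg (hy1 j).le, div_eq_mul_inv]
    have hx : ∀ x ∈ D.filter (fun x => Function.update x r ∅ = y),
        (if ∏ j, (S.nm (x j) : ℝ) ^ w j ≤ Y then ∏ j, b j (x j) else 0) ≤
          if (S.nm (x r) : ℝ) ≤ Y / Q then β else 0 := by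
      intro x hx
      obtain ⟨h1, h2⟩ := Finset.mem_filter.1 hx
      have h3 : ∀ j, j ≠ r → x j = y j := fun j hj => by
        rw [← h2, Function.update_of_ne hj]
      have h4 : ∏ j, (S.nm (x j) : ℝ) ^ w j = (S.nm (x r) : ℝ) * Q := by
        rw [← Finset.mul_prod_erase Finset.univ (fun j => (S.nm (x j) : ℝ) ^ w j)
          (Finset.mem_univ r), hr, Real.rpow_one, hQ]
        congr 1
        refine Finset.prod_congr rfl fun j hj => ?_
        rw [h3 j (Finset.mem_erase.1 hj).1]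
      have h5 : ∏ j, b j (x j) = b r (x r) * β := by
        rw [← Finset.mul_prod_erase Finset.univ (fun j => b j (x j)) (Finset.mem_univ r), hβ]
        congr 1
        refine Finset.prod_congr rfl fun j hj => ?_
        rw [h3 j (Finset.mem_erase.1 hj).1]
      rw [h4, h5]
      have h6 : (S.nm (x r) : ℝ) * Q ≤ Y ↔ (S.nm (x r) : ℝ) ≤ Y / Q := by rw [le_div_iff₀ hQ0]
      by_cases h7 : (S.nm (x r) : ℝ) * Q ≤ Y
      · rw [if_pos h7, if_pos (h6.1 h7)]
        exact mul_le_of_le_one_left hβ0 (hb r _).2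
      · rw [if_neg h7]
        split_ifs
        · exact hβ0
        · exact le_rfl
    refine (Finset.sum_le_sum hx).trans ?_
    rw [← Finset.sum_filter, Finset.sum_const, nsmul_eq_mul, hcQ]
    have hcard : ((D.filter (fun x => Function.update x r ∅ = y)).filter
        (fun x => (S.nm (x r) : ℝ) ≤ Y / Q)).card ≤ (S.bx (Y / Q)).card := by
      refine Finset.card_le_card_of_injOn (fun x => x r) ?_ ?_
      · intro x hx
        obtain ⟨h2, h3⟩ := Finset.mem_filter.1 (Finset.mem_coe.1 hx)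
        exact Finset.mem_coe.2 (S.mem_bx.2 h3)
      · intro x hx x' hx' hxx
        obtain ⟨h2, h3⟩ := Finset.mem_filter.1 (Finset.mem_coe.1 hx)
        obtain ⟨h4, h5⟩ := Finset.mem_filter.1 h2
        obtain ⟨h2', h3'⟩ := Finset.mem_filter.1 (Finset.mem_coe.1 hx')
        obtain ⟨h4', h5'⟩ := Finset.mem_filter.1 h2'
        funext j
        by_cases hj : j = r
        · subst hj
          exact hxx
        · have h6 : Function.update x r ∅ j = Function.update x' r ∅ j := by rw [h5, h5']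
          rwa [Function.update_of_ne hj, Function.update_of_ne hj] at h6
    have hYQ : 0 ≤ Y / Q := by positivity
    calc (((D.filter (fun x => Function.update x r ∅ = y)).filter
        (fun x => (S.nm (x r) : ℝ) ≤ Y / Q)).card : ℝ) * β ≤ ((S.bx (Y / Q)).card : ℝ) * β := by
          refine mul_le_mul_of_nonneg_right ?_ hβ0
          exact_mod_cast hcard
      _ ≤ C0 * (Y / Q) * β :=
          mul_le_mul_of_nonneg_right (a15_card S C0 hC0 hC _ hYQ) hβ0
      _ = C0 * Y * (β / Q) := by ring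
  refine (Finset.sum_le_sum hfib).trans ?_
  rw [← Finset.mul_sum]
  refine mul_le_mul_of_nonneg_left (le_of_eq ?_) (by positivity)
  rw [hT, ← Finset.prod_univ_sum
    (fun j : ι => if j = r then ({∅} : Finset (Finset S.P)) else S.bx Y) (fun j n => c j n),
    ← Finset.mul_prod_erase Finset.univ _ (Finset.mem_univ r)]
  have h1 : ∑ n ∈ (if r = r then ({∅} : Finset (Finset S.P)) else S.bx Y), c r n = 1 := by
    simp [hc]
  rw [h1, one_mul]
  refine Finset.prod_congr rfl fun j hj => ?_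
  have hj1 : j ≠ r := (Finset.mem_erase.1 hj).1
  rw [if_neg hj1]
  refine Finset.sum_congr rfl fun n _ => ?_
  simp only [hc, if_neg hj1]

open Classical in
/-- counting without a distinguished variable -/
theorem a15_count0 (S : Pre) {ι : Type} [Fintype ι] (w : ι → ℝ)
    (b : ι → Finset S.P → ℝ) (hb : ∀ j n, 0 ≤ b j n ∧ b j n ≤ 1) (Y : ℝ) (hY : 1 ≤ Y) :
    ∑ x ∈ Fintype.piFinset (fun _ : ι => S.bx Y),
      (if ∏ j, (S.nm (x j) : ℝ) ^ w j ≤ Y then ∏ j, b j (x j) else 0) ≤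
    Y * ∏ j, ∑ x ∈ S.bx Y, b j x * (S.nm x : ℝ) ^ (-(w j)) := by
  rw [Finset.prod_univ_sum (fun _ : ι => S.bx Y)
    (fun j n => b j n * (S.nm n : ℝ) ^ (-(w j))), Finset.mul_sum]
  refine Finset.sum_le_sum fun x hx => ?_
  have hx1 : ∀ j, (0 : ℝ) < S.nm (x j) := fun j => S.nm_posr _
  have hQ0 : 0 < ∏ j, (S.nm (x j) : ℝ) ^ w j :=
    Finset.prod_pos fun j _ => Real.rpow_pos_of_pos (hx1 j) _
  have hβ0 : 0 ≤ ∏ j, b j (x j) := Finset.prod_nonneg fun j _ => (hb j _).1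
  have h1 : ∏ j, b j (x j) * (S.nm (x j) : ℝ) ^ (-(w j)) =
      (∏ j, b j (x j)) / ∏ j, (S.nm (x j) : ℝ) ^ w j := by
    rw [← Finset.prod_div_distrib]
    refine Finset.prod_congr rfl fun j _ => ?_
    rw [Real.rpow_neg (hx1 j).le, div_eq_mul_inv]
  rw [h1]
  split_ifs with h
  · calc ∏ j, b j (x j) = 1 * ∏ j, b j (x j) := (one_mul _).symm
      _ ≤ (Y / ∏ j, (S.nm (x j) : ℝ) ^ w j) * ∏ j, b j (x j) := by
          refine mul_le_mul_of_nonneg_right ?_ hβ0
          rw [le_div_iff₀ hQ0, one_mul]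
          exact h
      _ = _ := by ring
  · have : 0 ≤ Y := by linarith
    positivity

theorem GW_an (F : Sys) {ι : Type} [Fintype ι] (w : ι → ℝ) (hw : ∀ i, 1 ≤ w i)
    (L : ι → ι → Prop) (R : ι → Prop) (hR : ∀ i, R i → w i = 1) (i : ι) (hi : 1 < w i) :
    ∃ C : ℝ, ∃ k : ℕ, ∀ (a : ι → Finset F.P → ℝ) (P M Y : ℝ), (∀ l x, |a l x| ≤ 1) → 1 ≤ P →
      1 ≤ M → 1 ≤ Y → (∀ l, ¬ R l → ∀ x, a l x ≠ 0 → (F.nm x : ℝ) ≤ M) →
      (∀ x, a i x ≠ 0 → P < F.nm x) →
      |F.GW w L a Y| ≤ C * Y * (1 + Real.log Y) ^ (Nat.card {l // R l} - 1) *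
        P ^ (-(w i - 1)) * (1 + Real.log M) ^ k := by
  classical
  obtain ⟨C1, hC1⟩ := card_bx_le F
  set C0 : ℝ := max C1 1 with hC0d
  have hC01 : 1 ≤ C0 := le_max_right _ _
  have hC00 : 0 ≤ C0 := by linarith
  have hC0 : ∀ t : ℝ, 1 ≤ t → ((F.bx t).card : ℝ) ≤ C0 * t := fun t ht =>
    (hC1 t ht).trans (mul_le_mul_of_nonneg_right (le_max_left _ _) (by linarith))
  have hs : 0 < w i - 1 := by linarith
  have hiR : ¬ R i := fun h => by
    have := hR i h
    linarith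
  set e : ℕ := Nat.card {l // R l} - 1 with he
  refine ⟨C0 * (C0 * (1 + 1 / (w i - 1) * 2 ^ (w i - 1)) * (C0 ^ e * C0 ^ Fintype.card ι)),
    Fintype.card ι, fun a P M Y ha hP hM hY haM haP => ?_⟩
  have hP0 : 0 < P := by linarith
  set b : ι → Finset F.P → ℝ := fun j n => if a j n = 0 then 0 else 1 with hbd
  have hb : ∀ j n, 0 ≤ b j n ∧ b j n ≤ 1 := by
    intro j n
    simp only [hbd]
    split_ifs <;> norm_num
  have hab : ∀ j n, |a j n| ≤ b j n := by
    intro j n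
    simp only [hbd]
    split_ifs with h
    · rw [h, abs_zero]
    · exact ha j n
  set s : ι → ℝ := fun j => ∑ x ∈ F.bx Y, b j x * (F.nm x : ℝ) ^ (-(w j)) with hsd
  have hnn : ∀ (j : ι) (x : Finset F.P), 0 ≤ (F.nm x : ℝ) ^ (-(w j)) := fun j x =>
    Real.rpow_nonneg (F.nm_posr x).le _
  have hs0 : ∀ j, 0 ≤ s j := fun j => Finset.sum_nonneg fun n _ =>
    mul_nonneg (hb j n).1 (hnn j n)
  have hlY : 0 ≤ Real.log Y := Real.log_nonneg hY
  have hlM : 0 ≤ Real.log M := Real.log_nonneg hM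
  have hinv : ∀ (j : ι) (x : Finset F.P), (F.nm x : ℝ) ^ (-(w j)) ≤ ((F.nm x : ℝ))⁻¹ := by
    intro j x
    rw [← Real.rpow_neg_one]
    exact Real.rpow_le_rpow_of_exponent_le (F.one_le_nmr x) (by linarith [hw j])
  have h1 : ∀ j, s j ≤ C0 * (1 + Real.log Y) := by
    intro j
    refine le_trans (Finset.sum_le_sum fun n hn => ?_) (a15_harm F.toPre C0 hC00 hC0 Y hY)
    calc b j n * (F.nm n : ℝ) ^ (-(w j)) ≤ 1 * (F.nm n : ℝ) ^ (-(w j)) :=
          mul_le_mul_of_nonneg_right (hb j n).2 (hnn j n)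
      _ = (F.nm n : ℝ) ^ (-(w j)) := one_mul _
      _ ≤ _ := hinv j n
  have h2 : ∀ j, ¬ R j → s j ≤ C0 * (1 + Real.log M) := by
    intro j hj
    refine le_trans ?_ (a15_harm F.toPre C0 hC00 hC0 M hM)
    have h3 : ∀ n ∈ F.bx Y, b j n * (F.nm n : ℝ) ^ (-(w j)) ≤
        if n ∈ F.bx M then ((F.nm n : ℝ))⁻¹ else 0 := by
      intro n _
      have h5 : (0 : ℝ) ≤ ((F.nm n : ℝ))⁻¹ := by positivity
      simp only [hbd]
      by_cases h0 : a j n = 0
      · rw [if_pos h0, zero_mul]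
        split_ifs
        · exact h5
        · exact le_rfl
      · rw [if_neg h0, one_mul, if_pos (F.mem_bx.2 (haM j hj n h0))]
        exact hinv j n
    refine (Finset.sum_le_sum h3).trans ?_
    rw [← Finset.sum_filter]
    refine Finset.sum_le_sum_of_subset_of_nonneg ?_ fun n _ _ => by positivity
    intro n hn
    exact (Finset.mem_filter.1 hn).2
  have h3 : s i ≤ C0 * (1 + 1 / (w i - 1) * 2 ^ (w i - 1)) * P ^ (-(w i - 1)) := by
    have h4 := a15_tail F.toPre C0 hC00 hC0 (w i - 1) hs P Y hP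
    rw [mul_assoc]
    refine le_trans (Finset.sum_le_sum fun n hn => ?_) h4
    simp only [hbd]
    by_cases h0 : a i n = 0
    · rw [if_pos h0, zero_mul]
      split_ifs
      · exact Real.rpow_nonneg (F.nm_posr n).le _
      · exact le_rfl
    · rw [if_neg h0, one_mul, if_pos (haP n h0), sub_add_cancel]
  have hG : |F.GW w L a Y| ≤ ∑ x ∈ Fintype.piFinset (fun _ : ι => F.bx Y),
      (if ∏ j, (F.nm (x j) : ℝ) ^ w j ≤ Y then ∏ j, b j (x j) else 0) := by
    unfold Sys.GW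
    refine (Finset.abs_sum_le_sum_abs _ _).trans (Finset.sum_le_sum fun x _ => ?_)
    have hnn : 0 ≤ ∏ j, b j (x j) := Finset.prod_nonneg fun j _ => (hb j _).1
    by_cases hc : F.Dj x ∧ ∏ i, (F.nm (x i) : ℝ) ^ w i ≤ Y
    · rw [if_pos hc, if_pos hc.2, abs_mul, Finset.abs_prod]
      calc (∏ j, |a j (x j)|) * |(F.jp L x : ℝ)| ≤ (∏ j, b j (x j)) * 1 :=
            mul_le_mul (Finset.prod_le_prod (fun j _ => abs_nonneg _) fun j _ => hab j _)
              (F.abs_jp L x).le (abs_nonneg _) hnn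
        _ = _ := mul_one _
    · rw [if_neg hc, abs_zero]
      split_ifs
      · exact hnn
      · exact le_rfl
  refine hG.trans ?_
  have hE : 0 ≤ C0 * (1 + 1 / (w i - 1) * 2 ^ (w i - 1)) * P ^ (-(w i - 1)) := by positivity
  have hY0 : 0 ≤ Y := by linarith
  have hA1 : 1 ≤ C0 * (1 + Real.log Y) := by nlinarith
  have hB1 : 1 ≤ C0 * (1 + Real.log M) := by nlinarith
  by_cases hex : ∃ r, R r
  · obtain ⟨r, hr⟩ := hex
    refine (a15_count F.toPre C0 hC00 hC0 w r (hR r hr) b hb Y hY).trans ?_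
    have hir : i ≠ r := fun h => hiR (h ▸ hr)
    have hcard : ((Finset.univ.erase r).filter (fun j => R j)).card ≤ e := by
      rw [he, Nat.card_eq_fintype_card, Fintype.card_subtype]
      have e1 : (Finset.univ.erase r).filter (fun j => R j) =
          (Finset.univ.filter (fun j => R j)).erase r := by
        ext j
        simp only [Finset.mem_filter, Finset.mem_erase, Finset.mem_univ, and_true, true_and]
      rw [e1, Finset.card_erase_of_mem (by simp [hr])]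
    have h4 := a4_prod R i (C0 * (1 + Real.log Y)) (C0 * (1 + Real.log M)) _ hA1 hB1
      hE s hs0 (Finset.univ.erase r) (Finset.mem_erase.2 ⟨hir, Finset.mem_univ i⟩)
      e hcard (fun j _ _ => h1 j) (fun j _ hj => h2 j hj) h3
    calc C0 * Y * ∏ j ∈ Finset.univ.erase r, s j ≤ C0 * Y * _ :=
          mul_le_mul_of_nonneg_left h4 (by positivity)
      _ = _ := by rw [mul_pow, mul_pow]; ring
  · push Not at hex
    refine (a15_count0 F.toPre w b hb Y hY).trans ?_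
    have hcard : (Finset.univ.filter (fun j => R j)).card ≤ e := by
      rw [Finset.filter_false_of_mem fun j _ => hex j]
      simp
    have h4 := a4_prod R i (C0 * (1 + Real.log Y)) (C0 * (1 + Real.log M)) _ hA1 hB1
      hE s hs0 Finset.univ (Finset.mem_univ i)
      e hcard (fun j _ _ => h1 j) (fun j _ hj => h2 j hj) h3
    have h5 : Y * ∏ j, s j ≤ C0 * Y * ∏ j, s j := by
      have h6 : 0 ≤ Y * ∏ j, s j := mul_nonneg hY0 (Finset.prod_nonneg fun j _ => hs0 j)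
      nlinarith
    refine h5.trans ?_
    calc C0 * Y * ∏ j, s j ≤ C0 * Y * _ := mul_le_mul_of_nonneg_left h4 (by positivity)
      _ = _ := by rw [mul_pow, mul_pow]; ring

end Pool.Agent.H98.MF
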