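import Pool.Agent.H98.MF.SGWBlock2
import Pool.Agent.H98.MF.SGWPair
import Pool.Agent.H98.MF.SGWAn
import Pool.Agent.H98.MF.SGWChar

/-!
# Project MK4 (MP_a3214d), row A21: the dyadic block of the largest non-free variable
-/

set_option autoImplicit false

open scoped BigOperators

namespace Pool.Agent.H98.MF

open Classical in
/-- the part where the largest variable outside the free ones lies in `(M, 2M]` -/
theorem GW_block (F : Sys) {ι : Type} [Fintype ι] (w : ι → ℝ) (hw : ∀ i, 1 ≤ w i)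
    (L : ι → ι → Prop) (hL : ∀ i j, L i j → ¬ L j i) (c : ι → F.T)
    (a : ι → Finset F.P → ℝ) (ha : ∀ l x, |a l x| ≤ 1) (ha2 : ∀ l x, a l x ≠ 0 → x.Nonempty)
    (hiso : ∀ i, w i = 1 → ∀ x, a i x = if x.Nonempty then (F.ps (c i) x : ℝ) else 0) :
    ∃ C : ℝ, ∀ M Y : ℝ, 1 ≤ M → 1 ≤ Y →
      |F.GW w L (fun l x => if ¬ F.Free w L c l ∧ 2 * M < F.nm x then 0 else a l x) Y -
        F.GW w L (fun l x => if ¬ F.Free w L c l ∧ M < F.nm x then 0 else a l x) Y| ≤
      C * Y * (1 + Real.log Y) ^ (Nat.card {l // F.Free w L c l} - 1) *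
        (1 + Real.log M) ^ (-2 : ℝ) := by
  refine gb_block F w hw L hL c a ha ha2 hiso ?_ ?_ ?_
  · intro i j hij hi hj
    exact GW_pair F w hw L hL (F.Free w L c) (fun l hl => ⟨hl.1, hl.2.2⟩) i j hij hi hj
  · intro i hi
    exact GW_an F w hw L (F.Free w L c) (fun l hl => hl.1) i hi
  · intro i hi hF d hd
    exact GW_char F w hw L hL (F.Free w L c) (fun l hl => ⟨hl.1, hl.2.2⟩) i hi hF d hd

end Pool.Agent.H98.MF
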