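import Pool.Agent.H98.MF.SCntPsi2
import Pool.Agent.H98.MF.SHs
import Pool.Agent.H98.MF.SCntSqf

/-!
# Project MK4 (MP_a3214d), block SYS: weighted counting of finite sets of primes
-/

set_option autoImplicit false

open scoped BigOperators
open Filter

namespace Pool.Agent.H98.MF

theorem cnt_psi (F : Sys) (ψ : F.P → ℝ) (h0 : ∀ p, 0 ≤ ψ p ∧ ψ p ≤ 1) (B : ℝ)
    (hB : ∀ p, 1 - ψ p ≤ B / F.N p) : ∃ κ C : ℝ, 0 ≤ κ ∧ ∀ (z : Finset F.P) (t : ℝ), 1 ≤ t →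
    |∑ x ∈ F.bx t, (if Disjoint x z then ∏ p ∈ x, ψ p else 0) -
      κ * (∏ p ∈ z, (1 + ψ p / (F.N p : ℝ))⁻¹) * t| ≤ C * F.hs z * t ^ (1 - F.dl) :=
  cnt_psi_of F (cnt_sqf F) (hs_tail F) ψ h0 B hB

end Pool.Agent.H98.MF
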