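import Pool.Agent.H98.MF.SAsyPsi2
import Pool.Agent.H98.MF.SCntPsi
import Pool.Agent.H98.MF.SHs

/-!
# Project MK4 (MP_a3214d), block SYS: the asymptotics of weighted sums of `(k + 1) ^ card`
-/

set_option autoImplicit false

open scoped BigOperators
open Filter

namespace Pool.Agent.H98.MF

theorem asy_psi (F : Sys) (k : ℕ) (ψ : F.P → ℝ) (h0 : ∀ p, 0 ≤ ψ p ∧ ψ p ≤ 1) (B : ℝ)
    (hB : ∀ p, 1 - ψ p ≤ B / F.N p) (z : Finset F.P) : ∃ C : ℝ,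
    Tendsto (fun Y : ℝ => (∑ x ∈ F.bx Y, (if Disjoint x z
      then ((k : ℝ) + 1) ^ x.card * ∏ p ∈ x, ψ p else 0)) / (Y * Real.log Y ^ k))
      atTop (nhds C) :=
  asy_psi_of F (fun ψ h0 B hB => cnt_psi F ψ h0 B hB) (fun k j hk => hs_sum F k j hk) k ψ h0 B hB z

end Pool.Agent.H98.MF
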