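import Pool.Agent.H98.MF.SNN0
import Pool.Agent.H98.MF.SAsyPsi

/-!
# Project MK4 (MP_a3214d), block SYS: tuples of nonempty disjoint sets of primes
-/

set_option autoImplicit false

open scoped BigOperators
open Filter

namespace Pool.Agent.H98.MF

theorem NN_asymp (F : Sys) (k : ℕ) (z : Finset F.P) : ∃ C : ℝ,
    Tendsto (fun Y : ℝ => (F.NN (k + 1) z Y : ℝ) / (Y * Real.log Y ^ k)) atTop (nhds C) :=
  NN_asymp_of F z (fun j => asy_psi F j (fun _ => 1) (fun _ => ⟨zero_le_one, le_rfl⟩) 0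
    (fun p => by simp) z) k

end Pool.Agent.H98.MF
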