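import Pool.Agent.H98.MF.SGWLim0
import Pool.Agent.H98.MF.SNN

/-!
# Project MK4 (MP_a3214d), block SYS, row A20: bounded non-free variables
-/

set_option autoImplicit false

open scoped BigOperators
open Filter

namespace Pool.Agent.H98.MF

/-- The sums with bounded non-free variables. -/
theorem GW_lim (F : Sys) {ι : Type} [Fintype ι] (w : ι → ℝ) (hw : ∀ i, 1 ≤ w i)
    (L : ι → ι → Prop) (R : ι → Prop) (hR : ∀ i, R i → w i = 1 ∧ ∀ j, ¬ L i j ∧ ¬ L j i)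
    (a : ι → Finset F.P → ℝ) (K : ℝ)
    (hK : ∀ l, ¬ R l → ∀ x, a l x ≠ 0 → (F.nm x : ℝ) ≤ K)
    (haR : ∀ l, R l → ∀ x, a l x = if x = ∅ then 0 else 1) :
    (∀ k, Nat.card {l // R l} = k + 1 → ∃ C : ℝ,
      Tendsto (fun Y : ℝ => F.GW w L a Y / (Y * Real.log Y ^ k)) atTop (nhds C)) ∧
    (Nat.card {l // R l} = 0 → Tendsto (fun Y : ℝ => F.GW w L a Y / Y) atTop (nhds 0)) :=
  GW_lim_of F (NN_asymp F) w hw L R hR a K hK haR

end Pool.Agent.H98.MF
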