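import Pool.Agent.H98.MF.SATSOf
import Pool.Agent.H98.MF.SGWLim
import Pool.Agent.H98.MF.SGWBlock

/-!
# Project MK4 (MP_a3214d), row A22: convergence of all basic sums
-/

set_option autoImplicit false

open scoped BigOperators
open Filter

namespace Pool.Agent.H98.MF

open Classical in
theorem ATS (F : Sys) {ι : Type} [Fintype ι] (w : ι → ℝ) (hw : ∀ i, 1 ≤ w i)
    (L : ι → ι → Prop) (hL : ∀ i j, L i j → ¬ L j i) (c : ι → F.T)
    (a : ι → Finset F.P → ℝ) (ha : ∀ l x, |a l x| ≤ 1) (ha2 : ∀ l x, a l x ≠ 0 → x.Nonempty)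
    (hiso : ∀ i, w i = 1 → ∀ x, a i x = if x.Nonempty then (F.ps (c i) x : ℝ) else 0) :
    (∀ k, Nat.card {l // F.Free w L c l} = k + 1 → ∃ C : ℝ,
      Tendsto (fun Y : ℝ => F.GW w L a Y / (Y * Real.log Y ^ k)) atTop (nhds C)) ∧
    (Nat.card {l // F.Free w L c l} = 0 →
      Tendsto (fun Y : ℝ => F.GW w L a Y / Y) atTop (nhds 0)) :=
  ATS_of F (fun w hw L R hR a K hK haR => GW_lim F w hw L R hR a K hK haR) w hw L c a ha2 hiso
    (GW_block F w hw L hL c a ha ha2 hiso)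

end Pool.Agent.H98.MF
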