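import Pool.Agent.H98.MF.STSLim0
import Pool.Agent.H98.MF.SATS

/-!
# Project MK4 (MP_a3214d), row E6: limits of the basic sums
-/

set_option autoImplicit false

open scoped BigOperators
open Filter

namespace Pool.Agent.H98.MF

open Pool.Agent.H98.ML (Dt Ext Wt)

theorem TS_lim (F : Sys) {D : Dt} (w : Wt D) (Ξ : Ext D → Finset F.T) (σ : Finset (F.IX D))
    (hσ : σ ⊆ F.act w Ξ) (c : F.IX D → F.T) (n : ℕ) (hn : (F.R w σ c).card ≤ n + 1) :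
    ∃ C : ℝ, Tendsto (fun Y : ℝ => F.TS w σ c Y / (Y * Real.log Y ^ n)) atTop (nhds C) :=
  TS_lim_of F (fun _ _ w hw L hL c a ha ha2 hiso => ATS F w hw L hL c a ha ha2 hiso)
    w Ξ σ hσ c n hn

theorem TS_le (F : Sys) {D : Dt} (w : Wt D) (Ξ : Ext D → Finset F.T) (σ : Finset (F.IX D))
    (hσ : σ ⊆ F.act w Ξ) (c : F.IX D → F.T) (n : ℕ) (hn : (F.R w σ c).card ≤ n + 1) :
    ∃ C : ℝ, ∀ Y : ℝ, 1 ≤ Y → |F.TS w σ c Y| ≤ C * Y * (1 + Real.log Y) ^ n :=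
  TS_le_of F w σ c n (TS_lim F w Ξ σ hσ c n hn)

end Pool.Agent.H98.MF
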