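import Pool.Agent.H98.MF.FewSmallOf
import Pool.Agent.H98.MF.SExpandG
import Pool.Agent.H98.MF.RLeX
import Pool.Agent.H98.MF.GWSparse
import Pool.Agent.H98.MF.STSLim

/-!
# Project MK4 (MP_a3214d), row T4: configurations with few primes in a class
-/

set_option autoImplicit false

open scoped BigOperators
open Filter

namespace Pool.Agent.H98.MF

open Pool.Agent.H98.MK (sg)
open Pool.Agent.H98.ML (Dt Ext Wt)

namespace Sys

variable (F : Sys) {D : Dt}

open Classical in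
/-- configurations with few primes in the class of `g0` are rare -/
theorem few_small
    (hch : ∃ C : ℝ, ∀ x : ℝ, 2 ≤ x → ((F.pr x).card : ℝ) ≤ C * x / Real.log x)
    (w : Wt D) (θ : (Fin F.m → D.V) → (D.V → F.T) → Finset D.V → ℝ)
    (hθ : ∀ a δ Q, θ a δ Q ≠ 0 → F.Span a Q) (hb : 2 ≤ w.b) (g0 : Ext D)
    (h1 : g0 ≠ 1) (hg : w.ind g0 = w.m) (h : ℕ) :
    Tendsto (fun Y : ℝ => F.Sg w
      (fun a x => if (F.cU g0 x).card ≤ h then F.ofT θ a x else 0) Y /
        (Y * Real.log Y ^ (w.b - 1))) atTop (nhds 0) := by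
  refine F.few_small_of w θ hθ hb g0 h1 hg h (fun Θ Y => ?_) (fun a σ hσ c hc hs => ?_)
    (fun ι _ w' hw L hL E hE hEw h c a ha ha2 hsp hiso => ?_) (fun σ hσ c n hn => ?_)
  · exact expand_gen F w (fun _ => {0}) (fun _ _ _ => rfl) Θ Y
  · exact F.R_le_out w θ a g0 h1 hg σ hσ c hc hs
  · exact F.GW_sparse hch w' hw L hL E hE hEw h c a ha ha2 hsp hiso
  · exact TS_le F w (fun _ => {0}) σ hσ c n hn

end Sys

end Pool.Agent.H98.MF
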