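import Pool.Agent.H98.MF.SPDefs

/-!
# Project MK4 (MP_a3214d), block SYS: unions over classes
-/

set_option autoImplicit false

open scoped BigOperators

namespace Pool.Agent.H98.MF

open Pool.Agent.H98.MK (sg)
open Pool.Agent.H98.ML (Dt Ext Wt)

namespace Sys

variable (F : Sys) {D : Dt}

open Classical in
/-- unions of the variables over the classes of least index (placed at the representative) -/
noncomputable def cls (w : Wt D) (x : Ext D → Finset F.P) (g : Ext D) : Finset F.P :=
  if w.ind g = w.m then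
    (if D.crep g = g then (Finset.univ.filter fun h : Ext D => IsConj h g).biUnion x else ∅)
  else x g

open Classical in
/-- unions of the expanded variables over a group element -/
noncomputable def clx (x : F.IX D → Finset F.P) (g : Ext D) : Finset F.P :=
  (Finset.univ.filter fun i : F.IX D => i.1.1 = g).biUnion x

open Classical in
/-- the sum with a general class function -/
noncomputable def SΘ (w : Wt D) (Ξ : Ext D → Finset F.T)
    (Θ : (Fin F.m → D.V) → (Ext D → Finset F.P) → ℝ) (Y : ℝ) : ℝ :=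
  ∑ a : Fin F.m → D.V, ∑ x ∈ Fintype.piFinset (fun _ : Ext D => F.bx Y),
    if x 1 = ∅ ∧ F.Dj x ∧ (∏ g, (F.nm (x g) : ℝ) ^ w.wt g) ≤ Y ∧
      ∀ g, ∀ p ∈ x g, F.okp a (F.mV x) g.v p
    then (∏ g, ∏ p ∈ x g, ((∑ ξ ∈ Ξ g, sg (ξ ⬝ᵥ F.ty p) : ℤ) : ℝ)) * Θ a (F.cls w x)
    else 0

end Sys

end Pool.Agent.H98.MF
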