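import Pool.Agent.H98.MF.SPDefs

/-!
# Project MK4 (MP_a3214d), block SYS, row E3: the sign of a term
-/

set_option autoImplicit false

open scoped BigOperators

namespace Pool.Agent.H98.MF

open Pool.Agent.H98.MK (sg)
open Pool.Agent.H98.ML (Dt Ext Wt)

theorem sp_B (D : Dt) (v : D.V) : D.B v v = 0 := by
  unfold Dt.B
  exact Ext.two_Z _

theorem sp_e (D : Dt) (i j : D.P) (h : i.1.v = j.1.v) : D.e i j = 0 := by
  unfold Dt.e
  rw [h, sp_B, dotProduct_zero]

/-- the product of the symbols as a sign -/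
theorem sp_jp (F : Sys) {ι : Type} [Fintype ι] (L : ι → ι → Prop) [∀ i j, Decidable (L i j)]
    (x : ι → Finset F.P) :
    F.jp L x = sg (∑ i, ∑ j, if L i j then F.JJ (x i) (x j) else 0) := by
  unfold Sys.jp
  rw [sg_sum]
  refine Finset.prod_congr rfl fun i _ => ?_
  rw [sg_sum]
  refine Finset.prod_congr rfl fun j _ => ?_
  by_cases h : L i j
  · rw [if_pos h, if_pos h]
    rfl
  · rw [if_neg h, if_neg h, sg_zero]

open Classical in
/-- the quadratic part -/
theorem sp_quad (F : Sys) {D : Dt} (x : F.IX D → Finset F.P) (hd : F.Dj x) :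
    ∑ i, ∑ j, D.e i.1 j.1 * F.JJ (x i) (x j) =
      (∑ i, ∑ j, (if Fintype.equivFin D.V i.1.1.v < Fintype.equivFin D.V j.1.1.v ∧
        D.e i.1 j.1 = 1 ∧ D.e j.1 i.1 = 1
          then (F.l ⬝ᵥ F.tys (x i)) * (F.l ⬝ᵥ F.tys (x j)) else 0)) +
      ∑ i, ∑ j, (if D.L i.1 j.1 then F.JJ (x i) (x j) else 0) := by
  set lt : F.IX D → F.IX D → Prop := fun i j =>
    Fintype.equivFin D.V i.1.1.v < Fintype.equivFin D.V j.1.1.v with hlt
  have h1 : ∀ i j : F.IX D, D.e i.1 j.1 * F.JJ (x i) (x j) =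
      ((if lt i j ∧ D.e i.1 j.1 = 1 ∧ D.e j.1 i.1 = 1 then F.JJ (x i) (x j) else 0) +
      (if lt j i ∧ D.e j.1 i.1 = 1 ∧ D.e i.1 j.1 = 1 then F.JJ (x i) (x j) else 0)) +
      (if D.L i.1 j.1 then F.JJ (x i) (x j) else 0) := by
    intro i j
    by_cases he : D.e i.1 j.1 = 1
    · rw [he, one_mul]
      by_cases he' : D.e j.1 i.1 = 1
      · have hL : ¬ D.L i.1 j.1 := fun h => by
          rw [h.2] at he'
          exact zero_ne_one he'
        have hne : i.1.1.v ≠ j.1.1.v := fun h => by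
          rw [sp_e D i.1 j.1 h] at he
          exact zero_ne_one he
        have hne' : Fintype.equivFin D.V i.1.1.v ≠ Fintype.equivFin D.V j.1.1.v := fun h =>
          hne ((Fintype.equivFin D.V).injective h)
        rcases lt_or_gt_of_ne hne' with h | h
        · have h' : ¬ lt j i := not_lt.2 h.le
          rw [if_pos ⟨h, rfl, he'⟩, if_neg (fun h => h' h.1), if_neg hL, add_zero, add_zero]
        · have h' : ¬ lt i j := not_lt.2 (le_of_lt h)
          rw [if_neg (fun h => h' h.1), if_pos ⟨h, he', rfl⟩, if_neg hL, add_zero, zero_add]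
      · have he0 : D.e j.1 i.1 = 0 := by
          rcases zm2 (D.e j.1 i.1) with h | h
          · exact h
          · exact absurd h he'
        rw [if_neg (fun h => he' h.2.2), if_neg (fun h => he' h.2.1),
          if_pos (show D.L i.1 j.1 from ⟨he, he0⟩), add_zero, zero_add]
    · have hL : ¬ D.L i.1 j.1 := fun h => he h.1
      have he0 : D.e i.1 j.1 = 0 := by
        rcases zm2 (D.e i.1 j.1) with h | h
        · exact h
        · exact absurd h he
      rw [if_neg (fun h => he h.2.1), if_neg (fun h => he h.2.2), if_neg hL, he0, zero_mul,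
        add_zero, add_zero]
  simp_rw [h1, Finset.sum_add_distrib]
  congr 1
  rw [Finset.sum_comm (f := fun i j =>
    if lt j i ∧ D.e j.1 i.1 = 1 ∧ D.e i.1 j.1 = 1 then F.JJ (x i) (x j) else 0),
    ← Finset.sum_add_distrib]
  refine Finset.sum_congr rfl fun i _ => ?_
  rw [← Finset.sum_add_distrib]
  refine Finset.sum_congr rfl fun j _ => ?_
  by_cases h : lt i j ∧ D.e i.1 j.1 = 1 ∧ D.e j.1 i.1 = 1
  · rw [if_pos h, if_pos h, if_pos h]
    refine F.JJ_recip (hd i j ?_)
    rintro rfl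
    exact lt_irrefl _ h.1
  · rw [if_neg h, if_neg h, if_neg h, add_zero]

open Classical in
theorem sgn_psi (F : Sys) {D : Dt} (θ : (Fin F.m → D.V) → (D.V → F.T) → Finset D.V → ℝ)
    (a : Fin F.m → D.V) (σ : Finset (F.IX D)) (x : F.IX D → Finset F.P)
    (hx : ∀ i, (x i).Nonempty ↔ i ∈ σ) (hd : F.Dj x) :
    (F.sgn a x : ℝ) * θ a (fun v => F.tys (F.mof x v))
        (Finset.univ.filter fun v => (F.mof x v).Nonempty) =
      F.Psi θ a σ (fun i => F.tys (x i)) * (F.jp (fun i j : F.IX D => D.L i.1 j.1) x : ℝ) := by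
  have hmof : (fun v => F.tys (F.mof x v)) =
      fun v => if v = 0 then 0 else
        ∑ i ∈ Finset.univ.filter (fun i : F.IX D => i.1.1.v = v), F.tys (x i) := by
    funext v
    unfold Sys.mof
    split_ifs
    · exact F.tys_empty
    · exact F.tys_biUnion _ _ fun i _ j _ hij => hd i j hij
  have hsup : (Finset.univ.filter fun v => (F.mof x v).Nonempty) = F.supV σ := by
    ext v
    unfold Sys.supV Sys.mof
    rw [Finset.mem_filter, Finset.mem_filter]
    refine and_congr_right fun _ => ?_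
    by_cases hv : v = 0
    · rw [if_pos hv]
      simp [hv]
    · rw [if_neg hv]
      constructor
      · rintro ⟨p, hp⟩
        obtain ⟨i, hi, hpi⟩ := Finset.mem_biUnion.1 hp
        exact ⟨hv, i, (hx i).1 ⟨p, hpi⟩, (Finset.mem_filter.1 hi).2⟩
      · rintro ⟨-, i, hi, hiv⟩
        obtain ⟨p, hp⟩ := (hx i).2 hi
        exact ⟨p, Finset.mem_biUnion.2 ⟨i, Finset.mem_filter.2 ⟨Finset.mem_univ _, hiv⟩, hp⟩⟩
  rw [hmof, hsup, sp_jp]
  unfold Sys.sgn Sys.Psi
  rw [mul_right_comm, ← Int.cast_mul, ← sg_add, sp_quad F x hd]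
  congr 3
  ring

end Pool.Agent.H98.MF
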