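import Pool.Agent.H98.MF.SPDefs

/-!
# Project MK4 (MP_a3214d), block SYS, row E2: exact supports, Fourier inversion, basic sums
-/

set_option autoImplicit false

open scoped BigOperators

namespace Pool.Agent.H98.MF

open Pool.Agent.H98.MK (sg)
open Pool.Agent.H98.ML (Dt Ext Wt)

private theorem ss_mem {α : Type} (i1 : DecidableEq α) [Fintype α] {δ : α → Type}
    (t : ∀ a, Finset (δ a)) (f : ∀ a, δ a) :
    f ∈ @Fintype.piFinset α i1 _ δ t ↔ ∀ a, f a ∈ t a := Fintype.mem_piFinset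

open Classical in
theorem split_supp (F : Sys) {D : Dt} (w : Wt D) (A : Finset (F.IX D)) (Y : ℝ) (hY : 1 ≤ Y)
    (h : (F.IX D → Finset F.P) → ℝ) :
    ∑ x ∈ Fintype.piFinset (fun _ : F.IX D => F.bx Y),
        (if (∀ i, i ∉ A → x i = ∅) ∧ F.Dj x ∧ ∏ i, (F.nm (x i) : ℝ) ^ w.wt i.1.1 ≤ Y
          then h x else 0) =
      ∑ σ ∈ A.powerset, F.SX w σ Y h := by
  have hN : ∅ ∈ F.bx Y := F.empty_mem_bx hY
  set f : (F.IX D → Finset F.P) → ℝ := fun x =>
    if F.Dj x ∧ ∏ i, (F.nm (x i) : ℝ) ^ w.wt i.1.1 ≤ Y then h x else 0 with hf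
  have h1 : ∑ x ∈ Fintype.piFinset (fun _ : F.IX D => F.bx Y),
        (if (∀ i, i ∉ A → x i = ∅) ∧ F.Dj x ∧ ∏ i, (F.nm (x i) : ℝ) ^ w.wt i.1.1 ≤ Y
          then h x else 0) =
      ∑ x ∈ (Fintype.piFinset (fun _ : F.IX D => F.bx Y)).filter
        (fun x => ∀ i, i ∉ A → x i = ∅), f x := by
    rw [Finset.sum_filter]
    refine Finset.sum_congr rfl fun x _ => ?_
    by_cases hx : ∀ i, i ∉ A → x i = ∅
    · rw [if_pos hx]
      by_cases hc : F.Dj x ∧ ∏ i, (F.nm (x i) : ℝ) ^ w.wt i.1.1 ≤ Y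
      · rw [if_pos ⟨hx, hc⟩, hf]
        exact (if_pos hc).symm
      · rw [if_neg (fun h => hc h.2), hf]
        exact (if_neg hc).symm
    · rw [if_neg hx, if_neg (fun hc => hx hc.1)]
  rw [h1, ← Finset.sum_fiberwise_of_maps_to
    (t := A.powerset)
    (g := fun x : F.IX D → Finset F.P => Finset.univ.filter fun i => x i ≠ ∅)]
  · refine Finset.sum_congr rfl fun σ hσ => ?_
    unfold Sys.SX
    have h0 := Finset.mem_powerset.1 hσ
    refine Finset.sum_congr ?_ fun x _ => rfl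
    ext x
    rw [Finset.mem_filter, Finset.mem_filter, ss_mem, ss_mem]
    constructor
    · rintro ⟨⟨hx, -⟩, rfl⟩ i
      have hi := hx i
      by_cases hi1 : x i = ∅
      · rw [if_neg (by simp [hi1]), Finset.mem_singleton]
        exact hi1
      · rw [if_pos (by simp [hi1]), Finset.mem_erase]
        exact ⟨hi1, hi⟩
    · intro hx
      refine ⟨⟨fun i => ?_, fun i hi' => ?_⟩, ?_⟩
      · have hi := hx i
        by_cases hs : i ∈ σ
        · rw [if_pos hs, Finset.mem_erase] at hi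
          exact hi.2
        · rw [if_neg hs, Finset.mem_singleton] at hi
          rw [hi]
          exact hN
      · have hi := hx i
        have hs : i ∉ σ := fun hc => hi' (h0 hc)
        rwa [if_neg hs, Finset.mem_singleton] at hi
      · ext i
        simp only [Finset.mem_filter, Finset.mem_univ, true_and]
        have hi := hx i
        by_cases hs : i ∈ σ
        · rw [if_pos hs, Finset.mem_erase] at hi
          simp only [hs, iff_true]
          exact hi.1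
        · rw [if_neg hs, Finset.mem_singleton] at hi
          simp [hs, hi]
  · intro x hx
    rw [Finset.mem_powerset]
    intro i hi
    by_contra hc
    exact (Finset.mem_filter.1 hi).2 ((Finset.mem_filter.1 hx).2 i hc)

/-- orthogonality of the characters of `(ℤ/2)^m` -/
private theorem ss_orth {m : ℕ} (u w : Fin m → ZMod 2) :
    ∑ c : Fin m → ZMod 2, sg (c ⬝ᵥ w) * sg (c ⬝ᵥ u) = if w = u then 2 ^ m else 0 := by
  classical
  have h1 : ∀ c : Fin m → ZMod 2, sg (c ⬝ᵥ w) * sg (c ⬝ᵥ u) =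
      ∏ j : Fin m, sg (c j * (w j + u j)) := by
    intro c
    rw [← sg_add, ← sg_sum, ← dotProduct_add]
    rfl
  rw [Finset.sum_congr rfl fun c _ => h1 c]
  have h2 := (Finset.prod_univ_sum (fun _ : Fin m => (Finset.univ : Finset (ZMod 2)))
    (fun j x => sg (x * (w j + u j)))).symm
  rw [Fintype.piFinset_univ] at h2
  rw [h2]
  have h3 : ∀ a b : ZMod 2, ∑ x : ZMod 2, sg (x * (a + b)) = if a = b then 2 else 0 := by decide
  rw [Finset.prod_congr rfl fun j _ => h3 (w j) (u j)]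
  by_cases h : w = u
  · subst h
    simp
  · rw [if_neg h]
    have h4 : ∃ i, w i ≠ u i := by
      by_contra h5
      push Not at h5
      exact h (funext h5)
    obtain ⟨i, hi⟩ := h4
    exact Finset.prod_eq_zero (Finset.mem_univ i) (if_neg hi)

/-- the sum over the characters supported in `σ` -/
private theorem ss_sum (F : Sys) {D : Dt} (σ : Finset (F.IX D)) (u w : F.IX D → F.T)
    (hu : u ∈ F.UT σ) (hw : w ∈ F.UT σ) :
    ∑ c ∈ F.UT σ, sg (∑ i ∈ σ, c i ⬝ᵥ w i) * sg (∑ i ∈ σ, c i ⬝ᵥ u i) =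
      if w = u then (2 ^ F.m) ^ σ.card else 0 := by
  classical
  have h1 : ∀ c : F.IX D → F.T, sg (∑ i ∈ σ, c i ⬝ᵥ w i) * sg (∑ i ∈ σ, c i ⬝ᵥ u i) =
      ∏ i : F.IX D, (if i ∈ σ then sg (c i ⬝ᵥ w i) * sg (c i ⬝ᵥ u i) else 1) := by
    intro c
    rw [sg_sum, sg_sum, ← Finset.prod_mul_distrib, Finset.prod_ite_mem, Finset.univ_inter]
  have h2 : ∑ c ∈ F.UT σ, sg (∑ i ∈ σ, c i ⬝ᵥ w i) * sg (∑ i ∈ σ, c i ⬝ᵥ u i) =
      ∏ i : F.IX D, ∑ e ∈ (if i ∈ σ then (Finset.univ : Finset F.T) else {0}),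
        (if i ∈ σ then sg (e ⬝ᵥ w i) * sg (e ⬝ᵥ u i) else 1) := by
    rw [Finset.prod_univ_sum]
    refine Finset.sum_congr ?_ fun c _ => h1 c
    ext c
    unfold Sys.UT
    rw [ss_mem]
  have hu' := (ss_mem _ _ _).1 hu
  have hw' := (ss_mem _ _ _).1 hw
  have h3 : ∀ i : F.IX D, ∑ e ∈ (if i ∈ σ then (Finset.univ : Finset F.T) else {0}),
        (if i ∈ σ then sg (e ⬝ᵥ w i) * sg (e ⬝ᵥ u i) else 1) =
      if i ∈ σ then (if w i = u i then 2 ^ F.m else 0) else 1 := by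
    intro i
    by_cases hi : i ∈ σ
    · simp only [hi, if_true]
      exact ss_orth (u i) (w i)
    · simp [hi]
  rw [h2, Finset.prod_congr rfl fun i _ => h3 i]
  by_cases h : w = u
  · subst h
    rw [if_pos rfl, Finset.prod_ite_mem, Finset.univ_inter]
    simp
  · rw [if_neg h]
    have h4 : ∃ i, w i ≠ u i := by
      by_contra h5
      push Not at h5
      exact h (funext h5)
    obtain ⟨i, hi⟩ := h4
    refine Finset.prod_eq_zero (Finset.mem_univ i) ?_
    have hiσ : i ∈ σ := by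
      by_contra h6
      have a1 := hu' i
      have a2 := hw' i
      rw [if_neg h6, Finset.mem_singleton] at a1 a2
      exact hi (by rw [a1, a2])
    rw [if_pos hiσ, if_neg hi]

theorem fourier (F : Sys) {D : Dt} (σ : Finset (F.IX D)) (f : (F.IX D → F.T) → ℝ)
    (u : F.IX D → F.T) (hu : u ∈ F.UT σ) :
    f u = ∑ c ∈ F.UT σ, ((1 / 2 ^ F.m) ^ σ.card *
      ∑ u' ∈ F.UT σ, f u' * ((sg (∑ i ∈ σ, c i ⬝ᵥ u' i) : ℤ) : ℝ)) *
        ((sg (∑ i ∈ σ, c i ⬝ᵥ u i) : ℤ) : ℝ) := by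
  classical
  have h1 : ∑ c ∈ F.UT σ, ((1 / 2 ^ F.m) ^ σ.card *
      ∑ u' ∈ F.UT σ, f u' * ((sg (∑ i ∈ σ, c i ⬝ᵥ u' i) : ℤ) : ℝ)) *
        ((sg (∑ i ∈ σ, c i ⬝ᵥ u i) : ℤ) : ℝ) =
      (1 / 2 ^ F.m : ℝ) ^ σ.card * ∑ w ∈ F.UT σ, f w *
        ((∑ c ∈ F.UT σ, sg (∑ i ∈ σ, c i ⬝ᵥ w i) * sg (∑ i ∈ σ, c i ⬝ᵥ u i) : ℤ) : ℝ) := by
    rw [Finset.mul_sum]
    have h2 : ∀ w ∈ F.UT σ, (1 / 2 ^ F.m : ℝ) ^ σ.card * (f w *
        ((∑ c ∈ F.UT σ, sg (∑ i ∈ σ, c i ⬝ᵥ w i) * sg (∑ i ∈ σ, c i ⬝ᵥ u i) : ℤ) : ℝ)) =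
        ∑ c ∈ F.UT σ, (1 / 2 ^ F.m : ℝ) ^ σ.card *
          (f w * ((sg (∑ i ∈ σ, c i ⬝ᵥ w i) : ℤ) : ℝ)) *
          ((sg (∑ i ∈ σ, c i ⬝ᵥ u i) : ℤ) : ℝ) := by
      intro w _
      rw [Int.cast_sum, Finset.mul_sum, Finset.mul_sum]
      refine Finset.sum_congr rfl fun c _ => ?_
      rw [Int.cast_mul]
      ring
    rw [Finset.sum_congr rfl h2, Finset.sum_comm]
    refine Finset.sum_congr rfl fun c _ => ?_
    rw [Finset.mul_sum, Finset.sum_mul]
  rw [h1]
  have h3 : ∑ w ∈ F.UT σ, f w *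
        ((∑ c ∈ F.UT σ, sg (∑ i ∈ σ, c i ⬝ᵥ w i) * sg (∑ i ∈ σ, c i ⬝ᵥ u i) : ℤ) : ℝ) =
      f u * (2 ^ F.m) ^ σ.card := by
    rw [Finset.sum_eq_single_of_mem u hu]
    · rw [ss_sum F σ u u hu hu, if_pos rfl]
      push_cast
      ring
    · intro w hw hne
      rw [ss_sum F σ u w hu hw, if_neg hne]
      simp
  rw [h3]
  have h4 : (1 / 2 ^ F.m : ℝ) ^ σ.card * (f u * (2 ^ F.m) ^ σ.card) =
      f u * ((1 / 2 ^ F.m) * 2 ^ F.m) ^ σ.card := by
    rw [mul_pow]
    ring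
  rw [h4, one_div, inv_mul_cancel₀ (by positivity), one_pow, mul_one]

/-- the basic sum only involves nonempty variables -/
private theorem ss_TS (F : Sys) {D : Dt} (w : Wt D) (σ : Finset (F.IX D)) (c : F.IX D → F.T)
    (Y : ℝ) :
    F.TS w σ c Y = ∑ x ∈ @Fintype.piFinset {i // i ∈ σ} (Classical.decEq _) _ _
        (fun _ : {i // i ∈ σ} => (F.bx Y).erase ∅),
      @ite ℝ (F.Dj x ∧ ∏ i, (F.nm (x i) : ℝ) ^ w.wt i.1.1.1 ≤ Y)
        (Classical.propDecidable _)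
        ((∏ i : {i // i ∈ σ}, F.aw w c i.1 (x i)) *
          (F.jp (fun i j : {i // i ∈ σ} => D.L i.1.1 j.1.1) x : ℝ)) 0 := by
  classical
  unfold Sys.TS Sys.GW
  symm
  refine Finset.sum_subset_zero_on_sdiff ?_ ?_ ?_
  · intro x hx
    have hx := (ss_mem _ _ _).1 hx
    exact (ss_mem _ _ _).2 fun i => Finset.mem_of_mem_erase (hx i)
  · intro x hx
    have hx1 := (ss_mem _ _ _).1 (Finset.mem_sdiff.1 hx).1
    have hx2 : ¬ ∀ i, x i ∈ (F.bx Y).erase ∅ := fun hc =>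
      (Finset.mem_sdiff.1 hx).2 ((ss_mem _ _ _).2 hc)
    push Not at hx2
    obtain ⟨i, hi⟩ := hx2
    have h1 : x i = ∅ := by
      by_contra hc
      exact hi (Finset.mem_erase.2 ⟨hc, hx1 i⟩)
    have h2 : ∏ i : {i // i ∈ σ}, F.aw w c i.1 (x i) = 0 := by
      refine Finset.prod_eq_zero (Finset.mem_univ i) ?_
      unfold Sys.aw
      exact if_neg (by rw [h1]; exact Finset.not_nonempty_empty)
    rw [h2, zero_mul]
    split_ifs <;> rfl
  · intro x _
    by_cases hc : F.Dj x ∧ ∏ i : {i // i ∈ σ}, (F.nm (x i) : ℝ) ^ w.wt i.1.1.1 ≤ Y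
    · rw [if_pos hc, if_pos hc]
    · rw [if_neg hc, if_neg hc]

theorem SX_TS (F : Sys) {D : Dt} (w : Wt D) (Ξ : Ext D → Finset F.T) (σ : Finset (F.IX D))
    (hσ : σ ⊆ F.act w Ξ) (c : F.IX D → F.T) (Y : ℝ) :
    F.SX w σ Y (fun x => ((sg (∑ i ∈ σ, c i ⬝ᵥ F.tys (x i)) : ℤ) : ℝ) *
      (∏ i ∈ F.act w Ξ, F.kap w i (x i)) * (F.jp (fun i j : F.IX D => D.L i.1 j.1) x : ℝ)) =
      F.TS w σ c Y := by
  classical
  rw [ss_TS]
  unfold Sys.SX
  refine Finset.sum_bij' (fun x _ => fun i : {i // i ∈ σ} => x i.1)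
    (fun y _ => fun i => if h : i ∈ σ then y ⟨i, h⟩ else ∅) ?_ ?_ ?_ ?_ ?_
  · intro x hx
    have hx' := (ss_mem _ _ _).1 hx
    refine (ss_mem _ _ _).2 fun i => ?_
    have := hx' i.1
    rwa [if_pos i.2] at this
  · intro y hy
    have hy := (ss_mem _ _ _).1 hy
    refine (ss_mem _ _ _).2 fun i => ?_
    by_cases h : i ∈ σ
    · rw [if_pos h]
      simp only [h, dif_pos]
      exact hy ⟨i, h⟩
    · rw [if_neg h]
      simp [h]
  · intro x hx
    funext i
    by_cases h : i ∈ σ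
    · simp [h]
    · have := (ss_mem _ _ _).1 hx i
      rw [if_neg h, Finset.mem_singleton] at this
      simp [h, this]
  · intro y _
    funext i
    simp
  · intro x hx
    have hx0 := (ss_mem _ _ _).1 hx
    have hx1 : ∀ i, i ∉ σ → x i = ∅ := by
      intro i h
      have := hx0 i
      rwa [if_neg h, Finset.mem_singleton] at this
    have hx2 : ∀ i, i ∈ σ → (x i).Nonempty := by
      intro i h
      have := hx0 i
      rw [if_pos h, Finset.mem_erase] at this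
      exact Finset.nonempty_iff_ne_empty.2 this.1
    have e1 : F.Dj x ↔ F.Dj (fun i : {i // i ∈ σ} => x i.1) := by
      constructor
      · intro h i j hij
        exact h i.1 j.1 fun hc => hij (Subtype.ext hc)
      · intro h i j hij
        by_cases hi : i ∈ σ
        · by_cases hj : j ∈ σ
          · exact h ⟨i, hi⟩ ⟨j, hj⟩ fun hc => hij (congrArg Subtype.val hc)
          · rw [hx1 j hj]
            exact Finset.disjoint_empty_right _
        · rw [hx1 i hi]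
          exact Finset.disjoint_empty_left _
    have e2 : ∏ i, (F.nm (x i) : ℝ) ^ w.wt i.1.1 =
        ∏ i : {i // i ∈ σ}, (F.nm (x i.1) : ℝ) ^ w.wt i.1.1.1 := by
      rw [Finset.prod_coe_sort σ fun i => (F.nm (x i) : ℝ) ^ w.wt i.1.1]
      refine (Finset.prod_subset (Finset.subset_univ σ) fun i _ h => ?_).symm
      rw [hx1 i h, F.nm_empty, Nat.cast_one, Real.one_rpow]
    rw [e2]
    by_cases hc : F.Dj x ∧
        ∏ i : {i // i ∈ σ}, (F.nm (x i.1) : ℝ) ^ w.wt i.1.1.1 ≤ Y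
    · rw [if_pos hc, if_pos ⟨e1.1 hc.1, hc.2⟩]
      have g0 : ∏ i ∈ F.act w Ξ, F.kap w i (x i) = ∏ i ∈ σ, F.kap w i (x i) := by
        refine (Finset.prod_subset hσ fun i _ h => ?_).symm
        rw [hx1 i h]
        unfold Sys.kap
        rw [Finset.card_empty, pow_zero]
        split_ifs <;> rfl
      have g1 : ((sg (∑ i ∈ σ, c i ⬝ᵥ F.tys (x i)) : ℤ) : ℝ) *
          ∏ i ∈ F.act w Ξ, F.kap w i (x i) =
          ∏ i : {i // i ∈ σ}, F.aw w c i.1 (x i.1) := by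
        rw [g0, sg_sum, Int.cast_prod, ← Finset.prod_mul_distrib,
          ← Finset.prod_coe_sort σ fun i =>
            ((sg (c i ⬝ᵥ F.tys (x i)) : ℤ) : ℝ) * F.kap w i (x i)]
        refine Finset.prod_congr rfl fun i _ => ?_
        unfold Sys.aw Sys.ps
        rw [if_pos (hx2 i.1 i.2)]
      have g2 : F.jp (fun i j : F.IX D => D.L i.1 j.1) x =
          F.jp (fun i j : {i // i ∈ σ} => D.L i.1.1 j.1.1) fun i => x i.1 := by
        unfold Sys.jp
        have b1 : ∀ i, i ∉ σ →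
            (∏ j, if D.L i.1 j.1 then F.jj (x i) (x j) else 1) = 1 := by
          intro i h
          refine Finset.prod_eq_one fun j _ => ?_
          rw [hx1 i h, F.jj_empty_left]
          split_ifs <;> rfl
        have b2 : ∀ i, (∏ j, if D.L i.1 j.1 then F.jj (x i) (x j) else 1) =
            ∏ j : {j // j ∈ σ}, if D.L i.1 j.1.1 then F.jj (x i) (x j.1) else 1 := by
          intro i
          rw [Finset.prod_coe_sort σ fun j => if D.L i.1 j.1 then F.jj (x i) (x j) else 1]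
          refine (Finset.prod_subset (Finset.subset_univ σ) fun j _ h => ?_).symm
          rw [hx1 j h, F.jj_empty_right]
          split_ifs <;> rfl
        rw [← Finset.prod_subset (Finset.subset_univ σ) fun i _ h => b1 i h,
          ← Finset.prod_coe_sort σ fun i =>
            ∏ j, if D.L i.1 j.1 then F.jj (x i) (x j) else 1]
        exact Finset.prod_congr rfl fun i _ => b2 i.1
      beta_reduce
      rw [g1, g2]
    · rw [if_neg hc, if_neg fun h => hc ⟨e1.2 h.1, h.2⟩]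

end Pool.Agent.H98.MF
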