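import Pool.Agent.H98.MF.TDefs
import Pool.Agent.H98.MF.SCls
import Pool.Agent.H98.MF.SSplit
import Pool.Agent.H98.MF.SSgnPsi
import Pool.Agent.H98.ML.ExpLoc

/-!
# Project MK4 (MP_a3214d), row T4: configurations with few primes in a class (preparations)
-/

set_option autoImplicit false

open scoped BigOperators
open Filter

namespace Pool.Agent.H98.MF

open Pool.Agent.H98.MK (sg)
open Pool.Agent.H98.ML (Dt Ext Wt x2_crep x2_crep_congr x2_conj_v x2_conj_ind x2_conj_one x2_wt_ge)

theorem fw_mem {α : Type} (i1 : DecidableEq α) [Fintype α] {δ : α → Type}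
    (t : ∀ a, Finset (δ a)) (f : ∀ a, δ a) :
    f ∈ @Fintype.piFinset α i1 _ δ t ↔ ∀ a, f a ∈ t a := Fintype.mem_piFinset

open Classical in
/-- tuples of values with bounded sum -/
noncomputable def fwTup {I : Type} [Fintype I] (E : Finset I) (h : ℕ) : Finset (I → ℕ) :=
  (Fintype.piFinset (fun i => if i ∈ E then Finset.range (h + 1) else {0})).filter
    (fun t => ∑ i ∈ E, t i ≤ h)

/-- the indicator of a bounded sum as a sum over the tuples of values -/
theorem fw_ind {I : Type} [Fintype I] (E : Finset I) (n : I → ℕ) (h : ℕ) :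
    (if ∑ i ∈ E, n i ≤ h then (1 : ℝ) else 0) =
      ∑ t ∈ fwTup E h, ∏ i ∈ E, (if n i = t i then (1 : ℝ) else 0) := by
  classical
  unfold fwTup
  by_cases hn : ∑ i ∈ E, n i ≤ h
  · rw [if_pos hn, Finset.sum_eq_single (fun i => if i ∈ E then n i else 0)]
    · symm
      refine Finset.prod_eq_one fun i hi => ?_
      exact if_pos (if_pos hi).symm
    · intro t ht hne
      rw [Finset.mem_filter, Fintype.mem_piFinset] at ht
      have h1 : ∃ i ∈ E, n i ≠ t i := by
        by_contra hcon
        push Not at hcon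
        apply hne
        funext i
        by_cases hi : i ∈ E
        · rw [if_pos hi, hcon i hi]
        · rw [if_neg hi]
          have h2 := ht.1 i
          rwa [if_neg hi, Finset.mem_singleton] at h2
      obtain ⟨i, hi, hni⟩ := h1
      exact Finset.prod_eq_zero hi (if_neg hni)
    · intro hne
      exfalso
      apply hne
      rw [Finset.mem_filter, Fintype.mem_piFinset]
      constructor
      · intro i
        by_cases hi : i ∈ E
        · rw [if_pos hi, if_pos hi, Finset.mem_range]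
          have h3 : n i ≤ ∑ j ∈ E, n j := Finset.single_le_sum (fun j _ => Nat.zero_le _) hi
          omega
        · rw [if_neg hi, if_neg hi, Finset.mem_singleton]
      · calc ∑ i ∈ E, (if i ∈ E then n i else 0) = ∑ i ∈ E, n i :=
              Finset.sum_congr rfl fun i hi => if_pos hi
          _ ≤ h := hn
  · rw [if_neg hn]
    symm
    refine Finset.sum_eq_zero fun t ht => ?_
    rw [Finset.mem_filter] at ht
    have h1 : ∃ i ∈ E, n i ≠ t i := by
      by_contra hcon
      push Not at hcon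
      exact hn (by rw [Finset.sum_congr rfl hcon]; exact ht.2)
    obtain ⟨i, hi, hni⟩ := h1
    exact Finset.prod_eq_zero hi (if_neg hni)

namespace Sys

variable (F : Sys) {D : Dt}

/-- `GW` with weights vanishing at the empty set -/
private theorem fw_GW (w : Wt D) (σ : Finset (F.IX D)) (b : F.IX D → Finset F.P → ℝ) (Y : ℝ) :
    F.GW (ι := {i // i ∈ σ}) (fun i => w.wt i.1.1.1) (fun i j => D.L i.1.1 j.1.1)
      (fun i x => if x.Nonempty then b i.1 x else 0) Y =
    ∑ x ∈ @Fintype.piFinset {i // i ∈ σ} (Classical.decEq _) _ _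
        (fun _ : {i // i ∈ σ} => (F.bx Y).erase ∅),
      @ite ℝ (F.Dj x ∧ ∏ i, (F.nm (x i) : ℝ) ^ w.wt i.1.1.1 ≤ Y)
        (Classical.propDecidable _)
        ((∏ i : {i // i ∈ σ}, (if (x i).Nonempty then b i.1 (x i) else 0)) *
          (F.jp (fun i j : {i // i ∈ σ} => D.L i.1.1 j.1.1) x : ℝ)) 0 := by
  classical
  unfold Sys.GW
  symm
  refine Finset.sum_subset_zero_on_sdiff ?_ ?_ ?_
  · intro x hx
    have hx := (fw_mem _ _ _).1 hx
    exact (fw_mem _ _ _).2 fun i => Finset.mem_of_mem_erase (hx i)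
  · intro x hx
    have hx1 := (fw_mem _ _ _).1 (Finset.mem_sdiff.1 hx).1
    have hx2 : ¬ ∀ i, x i ∈ (F.bx Y).erase ∅ := fun hc =>
      (Finset.mem_sdiff.1 hx).2 ((fw_mem _ _ _).2 hc)
    push Not at hx2
    obtain ⟨i, hi⟩ := hx2
    have h1 : x i = ∅ := by
      by_contra hc
      exact hi (Finset.mem_erase.2 ⟨hc, hx1 i⟩)
    have h2 : ∏ i : {i // i ∈ σ}, (if (x i).Nonempty then b i.1 (x i) else 0) = 0 := by
      refine Finset.prod_eq_zero (Finset.mem_univ i) ?_
      exact if_neg (by rw [h1]; exact Finset.not_nonempty_empty)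
    rw [h2, zero_mul]
    split_ifs <;> rfl
  · intro x _
    by_cases hc : F.Dj x ∧ ∏ i : {i // i ∈ σ}, (F.nm (x i) : ℝ) ^ w.wt i.1.1.1 ≤ Y
    · rw [if_pos hc, if_pos hc]
    · rw [if_neg hc, if_neg hc]

/-- sums over exact supports of products of one-variable functions -/
theorem fw_SX (w : Wt D) (σ : Finset (F.IX D)) (b : F.IX D → Finset F.P → ℝ) (Y : ℝ) :
    F.SX w σ Y (fun x => (∏ i ∈ σ, b i (x i)) *
      (F.jp (fun i j : F.IX D => D.L i.1 j.1) x : ℝ)) =
      F.GW (ι := {i // i ∈ σ}) (fun i => w.wt i.1.1.1) (fun i j => D.L i.1.1 j.1.1)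
        (fun i x => if x.Nonempty then b i.1 x else 0) Y := by
  classical
  rw [F.fw_GW]
  unfold Sys.SX
  refine Finset.sum_bij' (fun x _ => fun i : {i // i ∈ σ} => x i.1)
    (fun y _ => fun i => if h : i ∈ σ then y ⟨i, h⟩ else ∅) ?_ ?_ ?_ ?_ ?_
  · intro x hx
    have hx' := (fw_mem _ _ _).1 hx
    refine (fw_mem _ _ _).2 fun i => ?_
    have := hx' i.1
    rwa [if_pos i.2] at this
  · intro y hy
    have hy := (fw_mem _ _ _).1 hy
    refine (fw_mem _ _ _).2 fun i => ?_
    by_cases h : i ∈ σ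
    · rw [if_pos h]
      simp only [h, dif_pos]
      exact hy ⟨i, h⟩
    · rw [if_neg h]
      simp [h]
  · intro x hx
    funext i
    by_cases h : i ∈ σ
    · simp [h]
    · have := (fw_mem _ _ _).1 hx i
      rw [if_neg h, Finset.mem_singleton] at this
      simp [h, this]
  · intro y _
    funext i
    simp
  · intro x hx
    have hx0 := (fw_mem _ _ _).1 hx
    have hx1 : ∀ i, i ∉ σ → x i = ∅ := by
      intro i h
      have := hx0 i
      rwa [if_neg h, Finset.mem_singleton] at this
    have hx2 : ∀ i, i ∈ σ → (x i).Nonempty := by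
      intro i h
      have := hx0 i
      rw [if_pos h, Finset.mem_erase] at this
      exact Finset.nonempty_iff_ne_empty.2 this.1
    have e1 : F.Dj x ↔ F.Dj (fun i : {i // i ∈ σ} => x i.1) := by
      constructor
      · intro h i j hij
        exact h i.1 j.1 fun hc => hij (Subtype.ext hc)
      · intro h i j hij
        by_cases hi : i ∈ σ
        · by_cases hj : j ∈ σ
          · exact h ⟨i, hi⟩ ⟨j, hj⟩ fun hc => hij (congrArg Subtype.val hc)
          · rw [hx1 j hj]
            exact Finset.disjoint_empty_right _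
        · rw [hx1 i hi]
          exact Finset.disjoint_empty_left _
    have e2 : ∏ i, (F.nm (x i) : ℝ) ^ w.wt i.1.1 =
        ∏ i : {i // i ∈ σ}, (F.nm (x i.1) : ℝ) ^ w.wt i.1.1.1 := by
      rw [Finset.prod_coe_sort σ fun i => (F.nm (x i) : ℝ) ^ w.wt i.1.1]
      refine (Finset.prod_subset (Finset.subset_univ σ) fun i _ h => ?_).symm
      rw [hx1 i h, F.nm_empty, Nat.cast_one, Real.one_rpow]
    rw [e2]
    by_cases hc : F.Dj x ∧
        ∏ i : {i // i ∈ σ}, (F.nm (x i.1) : ℝ) ^ w.wt i.1.1.1 ≤ Y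
    · rw [if_pos hc, if_pos ⟨e1.1 hc.1, hc.2⟩]
      have g1 : ∏ i ∈ σ, b i (x i) =
          ∏ i : {i // i ∈ σ}, (if (x i.1).Nonempty then b i.1 (x i.1) else 0) := by
        rw [← Finset.prod_coe_sort σ fun i => b i (x i)]
        refine Finset.prod_congr rfl fun i _ => ?_
        rw [if_pos (hx2 i.1 i.2)]
      have g2 : F.jp (fun i j : F.IX D => D.L i.1 j.1) x =
          F.jp (fun i j : {i // i ∈ σ} => D.L i.1.1 j.1.1) fun i => x i.1 := by
        unfold Sys.jp
        have b1 : ∀ i, i ∉ σ →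
            (∏ j, if D.L i.1 j.1 then F.jj (x i) (x j) else 1) = 1 := by
          intro i h
          refine Finset.prod_eq_one fun j _ => ?_
          rw [hx1 i h, F.jj_empty_left]
          split_ifs <;> rfl
        have b2 : ∀ i, (∏ j, if D.L i.1 j.1 then F.jj (x i) (x j) else 1) =
            ∏ j : {j // j ∈ σ}, if D.L i.1 j.1.1 then F.jj (x i) (x j.1) else 1 := by
          intro i
          rw [Finset.prod_coe_sort σ fun j => if D.L i.1 j.1 then F.jj (x i) (x j) else 1]
          refine (Finset.prod_subset (Finset.subset_univ σ) fun j _ h => ?_).symm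
          rw [hx1 j h, F.jj_empty_right]
          split_ifs <;> rfl
        rw [← Finset.prod_subset (Finset.subset_univ σ) fun i _ h => b1 i h,
          ← Finset.prod_coe_sort σ fun i =>
            ∏ j, if D.L i.1 j.1 then F.jj (x i) (x j) else 1]
        exact Finset.prod_congr rfl fun i _ => b2 i.1
      beta_reduce
      rw [g1, g2]
    · rw [if_neg hc, if_neg fun h => hc ⟨e1.2 h.1, h.2⟩]

/-! ### classes -/

/-- the unions over vectors are unchanged -/
theorem fw_mV_cls (w : Wt D) (x : Ext D → Finset F.P) (v : D.V) :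
    F.mV (F.cls w x) v = F.mV x v := by
  classical
  unfold Sys.mV
  by_cases hv : v = 0
  · rw [if_pos hv, if_pos hv]
  rw [if_neg hv, if_neg hv]
  ext p
  rw [Finset.mem_biUnion, Finset.mem_biUnion]
  constructor
  · rintro ⟨g, hg, hp⟩
    rw [Finset.mem_filter] at hg
    unfold Sys.cls at hp
    by_cases h1 : w.ind g = w.m
    · rw [if_pos h1] at hp
      by_cases h2 : D.crep g = g
      · rw [if_pos h2, Finset.mem_biUnion] at hp
        obtain ⟨k, hk, hpk⟩ := hp
        rw [Finset.mem_filter] at hk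
        refine ⟨k, Finset.mem_filter.2 ⟨Finset.mem_univ _, ?_⟩, hpk⟩
        rw [← x2_conj_v hk.2]
        exact hg.2
      · rw [if_neg h2] at hp
        exact absurd hp (Finset.notMem_empty _)
    · rw [if_neg h1] at hp
      exact ⟨g, Finset.mem_filter.2 ⟨Finset.mem_univ _, hg.2⟩, hp⟩
  · rintro ⟨g, hg, hp⟩
    rw [Finset.mem_filter] at hg
    by_cases h1 : w.ind g = w.m
    · refine ⟨D.crep g, Finset.mem_filter.2 ⟨Finset.mem_univ _, ?_⟩, ?_⟩
      · rw [x2_conj_v (x2_crep g)]
        exact hg.2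
      · unfold Sys.cls
        rw [if_pos (by rw [x2_conj_ind w (x2_crep g)]; exact h1),
          if_pos (x2_crep_congr (x2_crep g)).symm, Finset.mem_biUnion]
        exact ⟨g, Finset.mem_filter.2 ⟨Finset.mem_univ _, x2_crep g⟩, hp⟩
    · refine ⟨g, Finset.mem_filter.2 ⟨Finset.mem_univ _, hg.2⟩, ?_⟩
      unfold Sys.cls
      rw [if_neg h1]
      exact hp

theorem fw_cls_crep (w : Wt D) (g0 : Ext D) (hg : w.ind g0 = w.m) (x : Ext D → Finset F.P) :
    F.cls w x (D.crep g0) = F.cU g0 x := by
  classical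
  unfold Sys.cls Sys.cU
  rw [if_pos (by rw [x2_conj_ind w (x2_crep g0)]; exact hg),
    if_pos (x2_crep_congr (x2_crep g0)).symm]
  congr 1
  ext k
  rw [Finset.mem_filter, Finset.mem_filter]
  refine and_congr_right fun _ => ?_
  constructor
  · intro h
    exact (x2_crep g0).trans h.symm
  · intro h
    exact h.symm.trans (x2_crep g0)

theorem fw_mV_clx (x : F.IX D → Finset F.P) (v : D.V) : F.mV (F.clx x) v = F.mof x v := by
  classical
  unfold Sys.mV Sys.mof
  by_cases hv : v = 0
  · rw [if_pos hv, if_pos hv]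
  rw [if_neg hv, if_neg hv]
  ext p
  unfold Sys.clx
  simp only [Finset.mem_biUnion, Finset.mem_filter, Finset.mem_univ, true_and]
  constructor
  · rintro ⟨g, hg, i, hi, hp⟩
    exact ⟨i, by rw [hi]; exact hg, hp⟩
  · rintro ⟨i, hi, hp⟩
    exact ⟨i.1.1, hi, i, rfl, hp⟩

open Classical in
theorem fw_card_clx (x : F.IX D → Finset F.P) (hd : F.Dj x) (G : Ext D) :
    (F.clx x G).card = ∑ i ∈ Finset.univ.filter (fun i : F.IX D => i.1.1 = G), (x i).card := by
  unfold Sys.clx
  exact Finset.card_biUnion fun i _ j _ hij => hd i j hij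

/-- the function of the configuration with few primes at a representative -/
noncomputable def fwT (θ : (Fin F.m → D.V) → (D.V → F.T) → Finset D.V → ℝ) (G : Ext D) (h : ℕ)
    (a : Fin F.m → D.V) (X : Ext D → Finset F.P) : ℝ :=
  if (X G).card ≤ h then F.ofT θ a X else 0

open Classical in
theorem fw_Sg (w : Wt D) (θ : (Fin F.m → D.V) → (D.V → F.T) → Finset D.V → ℝ) (g0 : Ext D)
    (hg : w.ind g0 = w.m) (h : ℕ) (Y : ℝ) :
    F.Sg w (fun a x => if (F.cU g0 x).card ≤ h then F.ofT θ a x else 0) Y =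
      F.SΘ w (fun _ => {0}) (F.fwT θ (D.crep g0) h) Y := by
  unfold Sys.Sg Sys.SΘ
  refine Finset.sum_congr rfl fun a _ => Finset.sum_congr rfl fun x _ => ?_
  have h1 : (∏ g : Ext D, ∏ p ∈ x g,
      ((∑ ξ ∈ ({0} : Finset F.T), sg (ξ ⬝ᵥ F.ty p) : ℤ) : ℝ)) = 1 := by
    refine Finset.prod_eq_one fun g _ => Finset.prod_eq_one fun p _ => ?_
    rw [Finset.sum_singleton, zero_dotProduct, sg_zero, Int.cast_one]
  have h2 : F.fwT θ (D.crep g0) h a (F.cls w x) =
      if (F.cU g0 x).card ≤ h then F.ofT θ a x else 0 := by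
    unfold Sys.fwT
    rw [F.fw_cls_crep w g0 hg]
    unfold Sys.ofT
    simp only [F.fw_mV_cls]
  rw [h1, one_mul, h2]
  by_cases hc : F.Cf w Y a x
  · rw [if_pos hc]
    exact (if_pos hc).symm
  · rw [if_neg hc]
    exact (if_neg hc).symm

end Sys

end Pool.Agent.H98.MF
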