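import Pool.Agent.H98.MF.FewSmallA

/-!
# Project MK4 (MP_a3214d), row T4: configurations with few primes in a class (expansion)
-/

set_option autoImplicit false

open scoped BigOperators
open Filter

namespace Pool.Agent.H98.MF

open Pool.Agent.H98.MK (sg)
open Pool.Agent.H98.ML (Dt Ext Wt x2_crep x2_crep_congr x2_conj_v x2_conj_ind x2_conj_one x2_wt_ge)

namespace Sys

variable (F : Sys) {D : Dt}

/-- the indices over the representative -/
noncomputable def fwE (σ : Finset (F.IX D)) (G : Ext D) : Finset (F.IX D) :=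
  σ.filter fun i => i.1.1 = G

/-- the numbers of primes -/
noncomputable def fwTs (σ : Finset (F.IX D)) (G : Ext D) (h : ℕ) : Finset (F.IX D → ℕ) :=
  fwTup (F.fwE σ G) h

/-- one-variable factor -/
noncomputable def fwb (w : Wt D) (c : F.IX D → F.T) (G : Ext D) (t : F.IX D → ℕ)
    (i : F.IX D) (x : Finset F.P) : ℝ :=
  (F.ps (c i) x : ℝ) * F.kap w i x * (if i.1.1 = G then (if x.card = t i then 1 else 0) else 1)

theorem fw_prod (w : Wt D) (σ : Finset (F.IX D)) (c : F.IX D → F.T) (G : Ext D)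
    (t : F.IX D → ℕ) (x : F.IX D → Finset F.P) :
    ∏ i ∈ σ, F.fwb w c G t i (x i) =
      ((sg (∑ i ∈ σ, c i ⬝ᵥ F.tys (x i)) : ℤ) : ℝ) * (∏ i ∈ σ, F.kap w i (x i)) *
        ∏ i ∈ F.fwE σ G, (if (x i).card = t i then (1 : ℝ) else 0) := by
  classical
  unfold Sys.fwb Sys.fwE
  rw [Finset.prod_mul_distrib, Finset.prod_mul_distrib, Finset.prod_filter, sg_sum,
    Int.cast_prod]
  rfl

open Classical in
theorem fw_pt (w : Wt D) (A : Finset (F.IX D))
    (θ : (Fin F.m → D.V) → (D.V → F.T) → Finset D.V → ℝ) (G : Ext D) (h : ℕ)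
    (a : Fin F.m → D.V) (σ : Finset (F.IX D)) (hσ : σ ⊆ A) (x : F.IX D → Finset F.P)
    (hx : ∀ i, (x i).Nonempty ↔ i ∈ σ) (hd : F.Dj x) :
    (F.sgn a x : ℝ) * (∏ i ∈ A, F.kap w i (x i)) * F.fwT θ G h a (F.clx x) =
      ∑ c ∈ F.UT σ, ∑ t ∈ F.fwTs σ G h, F.coef θ a σ c *
        ((∏ i ∈ σ, F.fwb w c G t i (x i)) *
          (F.jp (fun i j : F.IX D => D.L i.1 j.1) x : ℝ)) := by
  have hx1 : ∀ i, i ∉ σ → x i = ∅ := fun i hi =>
    Finset.not_nonempty_iff_eq_empty.1 fun h1 => hi ((hx i).1 h1)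
  have h0 : (F.clx x G).card = ∑ i ∈ F.fwE σ G, (x i).card := by
    rw [F.fw_card_clx x hd G]
    unfold Sys.fwE
    symm
    refine Finset.sum_subset ?_ ?_
    · intro i hi
      rw [Finset.mem_filter] at hi ⊢
      exact ⟨Finset.mem_univ _, hi.2⟩
    · intro i hi hi'
      rw [Finset.mem_filter] at hi hi'
      rw [hx1 i (fun h1 => hi' ⟨h1, hi.2⟩), Finset.card_empty]
  have h1 : F.fwT θ G h a (F.clx x) =
      (if ∑ i ∈ F.fwE σ G, (x i).card ≤ h then (1 : ℝ) else 0) *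
        θ a (fun v => F.tys (F.mof x v))
          (Finset.univ.filter fun v => (F.mof x v).Nonempty) := by
    unfold Sys.fwT Sys.ofT
    rw [h0]
    simp only [F.fw_mV_clx]
    split_ifs
    · rw [one_mul]
    · rw [zero_mul]
  have h2 := sgn_psi F θ a σ x hx hd
  have hu : (fun i => F.tys (x i)) ∈ F.UT σ := by
    unfold Sys.UT
    rw [fw_mem]
    intro i
    by_cases hi : i ∈ σ
    · rw [if_pos hi]
      exact Finset.mem_univ _
    · rw [if_neg hi, Finset.mem_singleton, hx1 i hi]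
      rfl
  have h3 := fourier F σ (F.Psi θ a σ) (fun i => F.tys (x i)) hu
  have h4 := fw_ind (F.fwE σ G) (fun i => (x i).card) h
  have h5 : ∏ i ∈ A, F.kap w i (x i) = ∏ i ∈ σ, F.kap w i (x i) := by
    refine (Finset.prod_subset hσ fun i _ hi => ?_).symm
    rw [hx1 i hi]
    unfold Sys.kap
    rw [Finset.card_empty, pow_zero]
    split_ifs <;> rfl
  calc (F.sgn a x : ℝ) * (∏ i ∈ A, F.kap w i (x i)) * F.fwT θ G h a (F.clx x)
      = ((F.sgn a x : ℝ) * θ a (fun v => F.tys (F.mof x v))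
          (Finset.univ.filter fun v => (F.mof x v).Nonempty)) *
        (∏ i ∈ σ, F.kap w i (x i)) *
        (if ∑ i ∈ F.fwE σ G, (x i).card ≤ h then (1 : ℝ) else 0) := by
        rw [h1, h5]
        ring
    _ = (∑ c ∈ F.UT σ, F.coef θ a σ c *
          ((sg (∑ i ∈ σ, c i ⬝ᵥ F.tys (x i)) : ℤ) : ℝ)) *
        (F.jp (fun i j : F.IX D => D.L i.1 j.1) x : ℝ) * (∏ i ∈ σ, F.kap w i (x i)) *
        (∑ t ∈ F.fwTs σ G h, ∏ i ∈ F.fwE σ G, (if (x i).card = t i then (1 : ℝ) else 0)) := by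
        rw [h2, h3, h4]
        unfold Sys.coef Sys.fwTs
        rfl
    _ = _ := by
        rw [Finset.sum_mul, Finset.sum_mul, Finset.sum_mul]
        refine Finset.sum_congr rfl fun c _ => ?_
        rw [Finset.mul_sum]
        refine Finset.sum_congr rfl fun t _ => ?_
        rw [F.fw_prod w σ c G t x]
        ring

/-- the expansion of a support -/
theorem fw_SX_eq (w : Wt D) (A : Finset (F.IX D))
    (θ : (Fin F.m → D.V) → (D.V → F.T) → Finset D.V → ℝ) (G : Ext D) (h : ℕ)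
    (a : Fin F.m → D.V) (σ : Finset (F.IX D)) (hσ : σ ⊆ A) (Y : ℝ) :
    F.SX w σ Y (fun x => (F.sgn a x : ℝ) * (∏ i ∈ A, F.kap w i (x i)) *
        F.fwT θ G h a (F.clx x)) =
      ∑ c ∈ F.UT σ, ∑ t ∈ F.fwTs σ G h, F.coef θ a σ c *
        F.GW (ι := {i // i ∈ σ}) (fun i => w.wt i.1.1.1) (fun i j => D.L i.1.1 j.1.1)
          (fun i x => if x.Nonempty then F.fwb w c G t i.1 x else 0) Y := by
  classical
  have h1 : ∀ c ∈ F.UT σ, ∀ t ∈ F.fwTs σ G h, F.coef θ a σ c *
        F.GW (ι := {i // i ∈ σ}) (fun i => w.wt i.1.1.1) (fun i j => D.L i.1.1 j.1.1)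
          (fun i x => if x.Nonempty then F.fwb w c G t i.1 x else 0) Y =
      ∑ x ∈ Fintype.piFinset (fun i : F.IX D => if i ∈ σ then (F.bx Y).erase ∅ else {∅}),
        F.coef θ a σ c * (if F.Dj x ∧ ∏ i, (F.nm (x i) : ℝ) ^ w.wt i.1.1 ≤ Y
          then (∏ i ∈ σ, F.fwb w c G t i (x i)) *
            (F.jp (fun i j : F.IX D => D.L i.1 j.1) x : ℝ) else 0) := by
    intro c _ t _
    rw [← F.fw_SX w σ (F.fwb w c G t) Y]
    unfold Sys.SX
    rw [Finset.mul_sum]
  rw [Finset.sum_congr rfl fun c hc => Finset.sum_congr rfl fun t ht => h1 c hc t ht]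
  rw [Finset.sum_congr rfl fun c _ => Finset.sum_comm, Finset.sum_comm]
  unfold Sys.SX
  refine Finset.sum_congr (by ext x; simp only [fw_mem]) ?_
  · intro x hx
    have hx0 := (fw_mem _ _ _).1 hx
    by_cases hc : F.Dj x ∧ ∏ i, (F.nm (x i) : ℝ) ^ w.wt i.1.1 ≤ Y
    · rw [if_pos hc]
      beta_reduce
      have h2 : ∀ i, (x i).Nonempty ↔ i ∈ σ := by
        intro i
        have h3 := hx0 i
        by_cases hi : i ∈ σ
        · rw [if_pos hi, Finset.mem_erase] at h3
          exact ⟨fun _ => hi, fun _ => Finset.nonempty_iff_ne_empty.2 h3.1⟩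
        · rw [if_neg hi, Finset.mem_singleton] at h3
          rw [h3]
          exact ⟨fun h4 => absurd h4 Finset.not_nonempty_empty, fun h4 => absurd h4 hi⟩
      rw [F.fw_pt w A θ G h a σ hσ x h2 hc.1]
      refine Finset.sum_congr rfl fun c _ => Finset.sum_congr rfl fun t _ => ?_
      rw [if_pos hc]
    · rw [if_neg hc]
      symm
      refine Finset.sum_eq_zero fun c _ => Finset.sum_eq_zero fun t _ => ?_
      rw [if_neg hc, mul_zero]

end Sys

end Pool.Agent.H98.MF
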