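import Pool.Agent.H98.MF.FewSmallB

/-!
# Project MK4 (MP_a3214d), row T4: configurations with few primes in a class (limits)
-/

set_option autoImplicit false

open scoped BigOperators
open Filter

namespace Pool.Agent.H98.MF

open Pool.Agent.H98.MK (sg)
open Pool.Agent.H98.ML (Dt Ext Wt x2_crep x2_crep_congr x2_conj_v x2_conj_ind x2_conj_one x2_wt_ge)

theorem fw_tend (f : ℝ → ℝ) (C : ℝ) (n : ℕ) (hf : ∀ Y : ℝ, 1 ≤ Y →
    |f Y| ≤ C * Y * (1 + Real.log Y) ^ n * (1 + Real.log Y) ^ (1 / 2 : ℝ)) :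
    Tendsto (fun Y : ℝ => f Y / (Y * Real.log Y ^ (n + 1))) atTop (nhds 0) := by
  have h1 : Tendsto (fun Y : ℝ => |C| * 2 ^ (n + 1) * (Real.log Y) ^ (-(1 / 2) : ℝ)) atTop
      (nhds 0) := by
    have h2 := ((tendsto_rpow_neg_atTop (y := 1 / 2) (by norm_num)).comp
      Real.tendsto_log_atTop).const_mul (|C| * 2 ^ (n + 1))
    rw [mul_zero] at h2
    exact h2
  refine squeeze_zero_norm' ?_ h1
  filter_upwards [eventually_ge_atTop (Real.exp 1)] with Y hY
  have hY0 : 0 < Y := lt_of_lt_of_le (Real.exp_pos 1) hY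
  have hL : 1 ≤ Real.log Y := by rwa [Real.le_log_iff_exp_le hY0]
  have hY1 : 1 ≤ Y := le_trans (Real.one_le_exp (by norm_num)) hY
  have hf1 := hf Y hY1
  set l : ℝ := Real.log Y with hl
  have hl0 : 0 < l := by linarith
  have h2 : (1 + l) ^ n ≤ 2 ^ n * l ^ n := by
    rw [← mul_pow]
    exact pow_le_pow_left₀ (by linarith) (by linarith) n
  have h3 : (1 + l) ^ (1 / 2 : ℝ) ≤ 2 * l ^ (1 / 2 : ℝ) := by
    calc (1 + l) ^ (1 / 2 : ℝ) ≤ (4 * l) ^ (1 / 2 : ℝ) :=
          Real.rpow_le_rpow (by linarith) (by linarith) (by norm_num)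
      _ = 2 * l ^ (1 / 2 : ℝ) := by
        rw [Real.mul_rpow (by norm_num) hl0.le]
        congr 1
        rw [show (4 : ℝ) = 2 ^ (2 : ℝ) by norm_num, ← Real.rpow_mul (by norm_num)]
        norm_num
  have h4 : l ^ (1 / 2 : ℝ) = l ^ (-(1 / 2) : ℝ) * l := by
    rw [← Real.rpow_add_one hl0.ne']
    norm_num
  have h5 : |f Y| ≤ |C| * 2 ^ (n + 1) * l ^ (-(1 / 2) : ℝ) * (Y * l ^ (n + 1)) := by
    calc |f Y| ≤ C * Y * (1 + l) ^ n * (1 + l) ^ (1 / 2 : ℝ) := hf1
      _ ≤ |C| * Y * (1 + l) ^ n * (1 + l) ^ (1 / 2 : ℝ) := by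
        have := le_abs_self C
        gcongr
      _ ≤ |C| * Y * (2 ^ n * l ^ n) * (2 * l ^ (1 / 2 : ℝ)) := by
        have h6 : 0 ≤ |C| * Y := by positivity
        gcongr
      _ = |C| * 2 ^ (n + 1) * l ^ (-(1 / 2) : ℝ) * (Y * l ^ (n + 1)) := by
        rw [h4]
        ring
  rw [Real.norm_eq_abs, abs_div, abs_of_pos (show 0 < Y * l ^ (n + 1) by positivity),
    div_le_iff₀ (by positivity)]
  exact h5

namespace Sys

variable (F : Sys) {D : Dt}

theorem fw_abs_kap (w : Wt D) (i : F.IX D) (x : Finset F.P) :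
    0 ≤ F.kap w i x ∧ F.kap w i x ≤ 1 := by
  unfold Sys.kap
  split_ifs
  · exact ⟨zero_le_one, le_rfl⟩
  · constructor
    · positivity
    · refine pow_le_one₀ (by positivity) ?_
      rw [div_le_one (by positivity)]
      exact one_le_pow₀ (by norm_num)

theorem fw_abs_b (w : Wt D) (c : F.IX D → F.T) (G : Ext D) (t : F.IX D → ℕ) (i : F.IX D)
    (x : Finset F.P) : |F.fwb w c G t i x| ≤ 1 := by
  unfold Sys.fwb
  obtain ⟨h1, h2⟩ := F.fw_abs_kap w i x
  rw [abs_mul, abs_mul, F.abs_ps, one_mul, abs_of_nonneg h1]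
  split_ifs
  · rw [abs_one, mul_one]
    exact h2
  · rw [abs_zero, mul_zero]
    exact zero_le_one
  · rw [abs_one, mul_one]
    exact h2

theorem fw_wt_one (w : Wt D) {g : Ext D} (h1 : g ≠ 1) : w.wt g = 1 ↔ w.ind g = w.m := by
  unfold Wt.wt
  rw [if_neg h1]
  have hm : (w.m : ℝ) ≠ 0 := by
    have := w.pos
    positivity
  rw [div_eq_one_iff_eq hm]
  norm_cast

/-- the number of free indices outside the class -/
theorem fw_count (w : Wt D) (σ : Finset (F.IX D)) (hσ : σ ⊆ F.act w (fun _ => {0}))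
    (c : F.IX D → F.T) (g0 : Ext D) :
    Nat.card {l : {i // i ∈ σ} // ¬ l.1.1.1 = D.crep g0 ∧
      F.Free (fun i : {i // i ∈ σ} => w.wt i.1.1.1) (fun i j => D.L i.1.1 j.1.1)
        (fun i => c i.1) l} ≤
      ((F.R w σ c).filter fun i => ¬ IsConj g0 i.1.1).card := by
  classical
  rw [Nat.card_eq_fintype_card, Fintype.card_subtype]
  refine Finset.card_le_card_of_injOn (fun l => l.1) ?_ ?_
  · intro l hl
    rw [Finset.mem_coe, Finset.mem_filter] at hl
    obtain ⟨-, hl1, hl2, hl3, hl4⟩ := hl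
    have hact := hσ l.2
    unfold Sys.act Wt.act at hact
    rw [Finset.mem_filter, Finset.mem_filter] at hact
    obtain ⟨-, ⟨-, hne, hcr⟩, -⟩ := hact
    have hind : w.ind l.1.1.1 = w.m := (fw_wt_one w hne).1 hl2
    rw [Finset.mem_coe, Finset.mem_filter]
    refine ⟨?_, ?_⟩
    · unfold Sys.R
      rw [Finset.mem_filter]
      refine ⟨l.2, hind, hl3, fun j hj => ?_⟩
      have h5 := hl4 ⟨j, hj⟩
      unfold Dt.L at h5
      have h6 : ∀ p q : ZMod 2, (¬ (p = 1 ∧ q = 0) ∧ ¬ (q = 1 ∧ p = 0)) → p = q := by decide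
      exact h6 _ _ h5
    · intro hcj
      apply hl1
      rw [x2_crep_congr hcj]
      exact (hcr hind).1.symm
  · intro l _ l' _ hll
    exact Subtype.ext hll

/-- one term of the expansion -/
theorem fw_term (w : Wt D) (hb : 2 ≤ w.b) (g0 : Ext D)
    (h1 : g0 ≠ 1) (hg : w.ind g0 = w.m) (h : ℕ)
    (σ : Finset (F.IX D)) (hσ : σ ⊆ F.act w (fun _ => {0})) (c : F.IX D → F.T)
    (t : F.IX D → ℕ) (ht : t ∈ F.fwTs σ (D.crep g0) h)
    (hR : (@Finset.filter _ (fun i : F.IX D => ¬ IsConj g0 i.1.1)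
      (fun _ => Classical.propDecidable _) (F.R w σ c)).card ≤ w.b - 1)
    (hGW : ∀ (ι : Type) [Fintype ι] (w' : ι → ℝ), (∀ i, 1 ≤ w' i) → ∀ (L : ι → ι → Prop),
      (∀ i j, L i j → ¬ L j i) → ∀ E : ι → Prop, (∃ i, E i) → (∀ i, E i → w' i = 1) →
      ∀ (h : ℕ) (c : ι → F.T) (a : ι → Finset F.P → ℝ), (∀ l x, |a l x| ≤ 1) →
      (∀ l x, a l x ≠ 0 → x.Nonempty) → (∀ l, E l → ∀ x, a l x ≠ 0 → x.card ≤ h) →
      (∀ i, ¬ E i → w' i = 1 → ∀ x, a i x = if x.Nonempty then (F.ps (c i) x : ℝ) else 0) →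
      ∃ C : ℝ, ∀ Y : ℝ, 1 ≤ Y → |F.GW w' L a Y| ≤
        C * Y * (1 + Real.log Y) ^ (Nat.card {l // ¬ E l ∧ F.Free w' L c l} - 1) *
          (1 + Real.log Y) ^ (1 / 2 : ℝ))
    (hTS : ∀ n : ℕ, (F.R w σ c).card ≤ n + 1 → ∃ C : ℝ, ∀ Y : ℝ, 1 ≤ Y →
      |F.TS w σ c Y| ≤ C * Y * (1 + Real.log Y) ^ n) :
    Tendsto (fun Y : ℝ => F.GW (ι := {i // i ∈ σ}) (fun i => w.wt i.1.1.1)
      (fun i j => D.L i.1.1 j.1.1)
      (fun i x => if x.Nonempty then F.fwb w c (D.crep g0) t i.1 x else 0) Y /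
        (Y * Real.log Y ^ (w.b - 1))) atTop (nhds 0) := by
  classical
  have hG1 : D.crep g0 ≠ 1 := fun h2 => h1 ((x2_conj_one (x2_crep g0)).1 h2)
  have hGm : w.ind (D.crep g0) = w.m := by
    rw [x2_conj_ind w (x2_crep g0)]
    exact hg
  have hne : ∀ i ∈ σ, i.1.1 ≠ 1 ∧ (w.ind i.1.1 = w.m → D.crep i.1.1 = i.1.1) := by
    intro i hi
    have hact := hσ hi
    unfold Sys.act Wt.act at hact
    rw [Finset.mem_filter, Finset.mem_filter] at hact
    obtain ⟨-, ⟨-, hne, hcr⟩, -⟩ := hact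
    exact ⟨hne, fun h2 => (hcr h2).1⟩
  have hb' : w.b - 1 = (w.b - 2) + 1 := by omega
  rw [hb']
  by_cases hE : ∃ i ∈ σ, i.1.1 = D.crep g0
  · obtain ⟨i0, hi0, hi0'⟩ := hE
    obtain ⟨C, hC⟩ := hGW {i // i ∈ σ} (fun i => w.wt i.1.1.1) (fun i => x2_wt_ge w _)
      (fun i j => D.L i.1.1 j.1.1)
      (fun i j h2 h3 => by
        unfold Dt.L at h2 h3
        rw [h2.2] at h3
        exact absurd h3.1 (by decide))
      (fun i => i.1.1.1 = D.crep g0) ⟨⟨i0, hi0⟩, hi0'⟩
      (fun i hi => by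
        have hi' : i.1.1.1 = D.crep g0 := hi
        show w.wt i.1.1.1 = 1
        rw [hi', fw_wt_one w hG1]
        exact hGm) h (fun i => c i.1)
      (fun i x => if x.Nonempty then F.fwb w c (D.crep g0) t i.1 x else 0)
      (fun i x => by
        split_ifs
        · exact F.fw_abs_b w c _ t i.1 x
        · rw [abs_zero]
          exact zero_le_one)
      (fun i x hx => by
        by_contra h2
        exact hx (if_neg h2))
      (fun i hi x hx => by
        by_cases h2 : x.Nonempty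
        · simp only [h2, if_true] at hx
          unfold Sys.fwb at hx
          rw [if_pos hi] at hx
          by_cases h3 : x.card = t i.1
          · unfold Sys.fwTs fwTup at ht
            have h4 := (fw_mem _ _ _).1 (Finset.mem_filter.1 ht).1 i.1
            have h5 : i.1 ∈ F.fwE σ (D.crep g0) := by
              unfold Sys.fwE
              exact Finset.mem_filter.2 ⟨i.2, hi⟩
            rw [if_pos h5, Finset.mem_range] at h4
            omega
          · rw [if_neg h3, mul_zero] at hx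
            exact absurd rfl hx
        · exact absurd (if_neg h2) hx)
      (fun i hi hw x => by
        by_cases h2 : x.Nonempty
        · simp only [h2, if_true]
          unfold Sys.fwb Sys.kap
          rw [if_neg hi, if_pos ((fw_wt_one w (hne i.1 i.2).1).1 hw), mul_one, mul_one]
        · simp only [h2, if_false])
    refine fw_tend _ |C| (w.b - 2) fun Y hY => ?_
    have hl : 0 ≤ Real.log Y := Real.log_nonneg hY
    have h3 : Nat.card {l : {i // i ∈ σ} // ¬ l.1.1.1 = D.crep g0 ∧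
        F.Free (fun i : {i // i ∈ σ} => w.wt i.1.1.1) (fun i j => D.L i.1.1 j.1.1)
          (fun i => c i.1) l} - 1 ≤ w.b - 2 := by
      have h4 := F.fw_count w σ hσ c g0
      have h5 : ((F.R w σ c).filter fun i => ¬ IsConj g0 i.1.1).card ≤ w.b - 1 := by
        convert hR
      omega
    refine (hC Y hY).trans ?_
    have h6 : (1 + Real.log Y) ^ (Nat.card {l : {i // i ∈ σ} // ¬ l.1.1.1 = D.crep g0 ∧
        F.Free (fun i : {i // i ∈ σ} => w.wt i.1.1.1) (fun i j => D.L i.1.1 j.1.1)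
          (fun i => c i.1) l} - 1) ≤ (1 + Real.log Y) ^ (w.b - 2) :=
      pow_le_pow_right₀ (by linarith) h3
    have h7 : C * Y ≤ |C| * Y := mul_le_mul_of_nonneg_right (le_abs_self C) (by linarith)
    have h8 : (0 : ℝ) ≤ |C| * Y := mul_nonneg (abs_nonneg _) (by linarith)
    refine mul_le_mul_of_nonneg_right ?_ (Real.rpow_nonneg (by linarith) _)
    exact mul_le_mul h7 h6 (pow_nonneg (by linarith) _) h8
  · push Not at hE
    have hRc : (F.R w σ c).card ≤ (w.b - 2) + 1 := by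
      have h2 : (F.R w σ c).filter (fun i => ¬ IsConj g0 i.1.1) = F.R w σ c := by
        rw [Finset.filter_eq_self]
        intro i hi hcj
        unfold Sys.R at hi
        rw [Finset.mem_filter] at hi
        apply hE i hi.1
        rw [x2_crep_congr hcj]
        exact ((hne i hi.1).2 hi.2.1).symm
      have h5 : ((F.R w σ c).filter fun i => ¬ IsConj g0 i.1.1).card ≤ w.b - 1 := by
        convert hR
      rw [h2] at h5
      omega
    obtain ⟨C, hC⟩ := hTS (w.b - 2) hRc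
    refine fw_tend _ C (w.b - 2) fun Y hY => ?_
    have hl : 0 ≤ Real.log Y := Real.log_nonneg hY
    have h3 : F.GW (ι := {i // i ∈ σ}) (fun i => w.wt i.1.1.1) (fun i j => D.L i.1.1 j.1.1)
        (fun i x => if x.Nonempty then F.fwb w c (D.crep g0) t i.1 x else 0) Y =
        F.TS w σ c Y := by
      unfold Sys.TS
      congr 1
      funext i x
      unfold Sys.aw Sys.fwb
      rw [if_neg (hE i.1 i.2), mul_one]
    rw [h3]
    refine (hC Y hY).trans ?_
    have h4 : (1 : ℝ) ≤ (1 + Real.log Y) ^ (1 / 2 : ℝ) :=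
      Real.one_le_rpow (by linarith) (by norm_num)
    have h5 : 0 ≤ C * Y * (1 + Real.log Y) ^ (w.b - 2) := (abs_nonneg _).trans (hC Y hY)
    exact le_mul_of_one_le_right h5 h4

end Sys

end Pool.Agent.H98.MF
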