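import Pool.Agent.H98.MF.FewSmallC

/-!
# Project MK4 (MP_a3214d), row T4: configurations with few primes in a class
-/

set_option autoImplicit false

open scoped BigOperators
open Filter

namespace Pool.Agent.H98.MF

open Pool.Agent.H98.MK (sg)
open Pool.Agent.H98.ML (Dt Ext Wt)

theorem fw_sum0 {ι : Type} (s : Finset ι) (f : ι → ℝ → ℝ)
    (hf : ∀ i ∈ s, Tendsto (f i) atTop (nhds 0)) :
    Tendsto (fun Y => ∑ i ∈ s, f i Y) atTop (nhds 0) := by
  have h := tendsto_finset_sum s hf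
  rwa [Finset.sum_const_zero] at h

namespace Sys

variable (F : Sys) {D : Dt}

open Classical in
/-- a nonzero coefficient has a spanning support -/
theorem fw_span (θ : (Fin F.m → D.V) → (D.V → F.T) → Finset D.V → ℝ)
    (hθ : ∀ a δ Q, θ a δ Q ≠ 0 → F.Span a Q) (a : Fin F.m → D.V) (σ : Finset (F.IX D))
    (c : F.IX D → F.T) (hc : F.coef θ a σ c ≠ 0) : F.Span a (F.supV σ) := by
  unfold Sys.coef at hc
  have h1 := (mul_ne_zero_iff.1 hc).2
  obtain ⟨u, -, hu⟩ := Finset.exists_ne_zero_of_sum_ne_zero h1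
  have h2 := (mul_ne_zero_iff.1 hu).1
  unfold Sys.Psi at h2
  exact hθ _ _ _ (mul_ne_zero_iff.1 h2).2

open Classical in
/-- configurations with few primes in the class of `g0` are rare (from the other rows) -/
theorem few_small_of
    (w : Wt D) (θ : (Fin F.m → D.V) → (D.V → F.T) → Finset D.V → ℝ)
    (hθ : ∀ a δ Q, θ a δ Q ≠ 0 → F.Span a Q) (hb : 2 ≤ w.b) (g0 : Ext D)
    (h1 : g0 ≠ 1) (hg : w.ind g0 = w.m) (h : ℕ)
    (hexp : ∀ (Θ : (Fin F.m → D.V) → (Ext D → Finset F.P) → ℝ) (Y : ℝ),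
      F.SΘ w (fun _ => {0}) Θ Y = ∑ a : Fin F.m → D.V,
        ∑ x ∈ Fintype.piFinset (fun _ : F.IX D => F.bx Y),
          if (∀ i, i ∉ F.act w (fun _ => {0}) → x i = ∅) ∧ F.Dj x ∧
            ∏ i, (F.nm (x i) : ℝ) ^ w.wt i.1.1 ≤ Y
          then (F.sgn a x : ℝ) * (∏ i ∈ F.act w (fun _ => {0}), F.kap w i (x i)) * Θ a (F.clx x)
          else 0)
    (hR : ∀ (a : Fin F.m → D.V) (σ : Finset (F.IX D)), σ ⊆ F.act w (fun _ => {0}) →
      ∀ c : F.IX D → F.T, F.coef θ a σ c ≠ 0 → F.Span a (F.supV σ) →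
      ((F.R w σ c).filter fun i => ¬ IsConj g0 i.1.1).card ≤ w.b - 1)
    (hGW : ∀ (ι : Type) [Fintype ι] (w' : ι → ℝ), (∀ i, 1 ≤ w' i) → ∀ (L : ι → ι → Prop),
      (∀ i j, L i j → ¬ L j i) → ∀ E : ι → Prop, (∃ i, E i) → (∀ i, E i → w' i = 1) →
      ∀ (h : ℕ) (c : ι → F.T) (a : ι → Finset F.P → ℝ), (∀ l x, |a l x| ≤ 1) →
      (∀ l x, a l x ≠ 0 → x.Nonempty) → (∀ l, E l → ∀ x, a l x ≠ 0 → x.card ≤ h) →
      (∀ i, ¬ E i → w' i = 1 → ∀ x, a i x = if x.Nonempty then (F.ps (c i) x : ℝ) else 0) →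
      ∃ C : ℝ, ∀ Y : ℝ, 1 ≤ Y → |F.GW w' L a Y| ≤
        C * Y * (1 + Real.log Y) ^ (Nat.card {l // ¬ E l ∧ F.Free w' L c l} - 1) *
          (1 + Real.log Y) ^ (1 / 2 : ℝ))
    (hTS : ∀ σ : Finset (F.IX D), σ ⊆ F.act w (fun _ => {0}) → ∀ (c : F.IX D → F.T) (n : ℕ),
      (F.R w σ c).card ≤ n + 1 → ∃ C : ℝ, ∀ Y : ℝ, 1 ≤ Y →
      |F.TS w σ c Y| ≤ C * Y * (1 + Real.log Y) ^ n) :
    Tendsto (fun Y : ℝ => F.Sg w
      (fun a x => if (F.cU g0 x).card ≤ h then F.ofT θ a x else 0) Y /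
        (Y * Real.log Y ^ (w.b - 1))) atTop (nhds 0) := by
  have hmain : ∀ Y : ℝ, 1 ≤ Y → F.Sg w
      (fun a x => if (F.cU g0 x).card ≤ h then F.ofT θ a x else 0) Y =
      ∑ a : Fin F.m → D.V, ∑ σ ∈ (F.act w (fun _ => {0})).powerset, ∑ c ∈ F.UT σ,
        ∑ t ∈ F.fwTs σ (D.crep g0) h, F.coef θ a σ c *
          F.GW (ι := {i // i ∈ σ}) (fun i => w.wt i.1.1.1) (fun i j => D.L i.1.1 j.1.1)
            (fun i x => if x.Nonempty then F.fwb w c (D.crep g0) t i.1 x else 0) Y := by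
    intro Y hY
    rw [F.fw_Sg w θ g0 hg h Y, hexp]
    refine Finset.sum_congr rfl fun a _ => ?_
    rw [split_supp F w (F.act w (fun _ => {0})) Y hY
      (fun x => (F.sgn a x : ℝ) * (∏ i ∈ F.act w (fun _ => {0}), F.kap w i (x i)) *
        F.fwT θ (D.crep g0) h a (F.clx x))]
    refine Finset.sum_congr rfl fun σ hσ => ?_
    exact F.fw_SX_eq w _ θ (D.crep g0) h a σ (Finset.mem_powerset.1 hσ) Y
  have hlim : Tendsto (fun Y : ℝ => ∑ a : Fin F.m → D.V,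
      ∑ σ ∈ (F.act w (fun _ => {0})).powerset, ∑ c ∈ F.UT σ,
        ∑ t ∈ F.fwTs σ (D.crep g0) h, F.coef θ a σ c *
          (F.GW (ι := {i // i ∈ σ}) (fun i => w.wt i.1.1.1) (fun i j => D.L i.1.1 j.1.1)
            (fun i x => if x.Nonempty then F.fwb w c (D.crep g0) t i.1 x else 0) Y /
            (Y * Real.log Y ^ (w.b - 1)))) atTop (nhds 0) := by
    refine fw_sum0 _ _ fun a _ => fw_sum0 _ _ fun σ hσ =>
      fw_sum0 _ _ fun c _ => fw_sum0 _ _ fun t ht => ?_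
    have hσ' := Finset.mem_powerset.1 hσ
    by_cases hc : F.coef θ a σ c = 0
    · simp only [hc, zero_mul]
      exact tendsto_const_nhds
    · have h2 := hR a σ hσ' c hc (F.fw_span θ hθ a σ c hc)
      have h3 := F.fw_term w hb g0 h1 hg h σ hσ' c t ht (by convert h2) hGW (hTS σ hσ' c)
      have h4 := h3.const_mul (F.coef θ a σ c)
      rw [mul_zero] at h4
      exact h4
  refine hlim.congr' ?_
  filter_upwards [eventually_ge_atTop 1] with Y hY
  rw [hmain Y hY, Finset.sum_div]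
  refine Finset.sum_congr rfl fun a _ => ?_
  rw [Finset.sum_div]
  refine Finset.sum_congr rfl fun σ _ => ?_
  rw [Finset.sum_div]
  refine Finset.sum_congr rfl fun c _ => ?_
  rw [Finset.sum_div]
  refine Finset.sum_congr rfl fun t _ => ?_
  rw [mul_div_assoc]

end Sys

end Pool.Agent.H98.MF
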