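import Pool.Agent.H98.MF.MainAlg4C
import Pool.Agent.H98.MF.ExistsInv

/-!
# Project MK4, row M10: the master formula over a number field
-/

set_option autoImplicit false

open scoped BigOperators Pointwise
open NumberField IsDedekindDomain Filter

namespace Pool.Agent.H98.MF

open Pool.Agent.H98.MK (sg)
open Pool.Agent.H98.ML (Dt Ext Wt norb hind)

namespace Frm

variable {k : Type} [Field k] [NumberField k] (F : Frm k)

open Classical in
theorem main_alg4 (R : Rx k) (hK : KIn k) (hL : LIn k) (hH : HPSt k) (D : Dt)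
    (H0 : Subgroup (Ext D)) (w : Wt D) (hw : w.ind = hind H0) :
    ∃ (Q : Finset ℕ)
      (Nt : ℕ → (Fin F.sys.m → D.V) → (D.V → F.sys.T) → (Fin F.sys.m → D.Z) → ℕ)
      (E : (Fin F.sys.m → D.V) → (Ext D → Finset F.sys.P) → (Fin F.sys.m → D.Z)),
      (∀ q ∈ Q, 0 < q) ∧
      (∃ q ∈ Q, ∃ e, 1 ≤ Nt q 0 0 e) ∧
      (∀ a y, F.Good D a y → ∀ g p, p ∈ y g → ∀ z' : D.Z, z' ≠ 0 →
        E a (F.sys.mv y g ⟨g.v, g.z + z'⟩ p) = fun j => E a y j + F.sys.ty p j • z') ∧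
      ∀ X : ℝ, 1 ≤ X →
        (Nat.card {ρ : Gm k →* Ext D // Function.Surjective ρ ∧ IsLocallyConstant ρ ∧
          (rdN (fld k (H0.comap ρ)) : ℝ) ≤ X} : ℝ) =
        ∑ q ∈ Q, F.sys.Sg w (fun a y => if F.Good D a y then
          (Nt q a (fun v => F.sys.tys (F.sys.mV y v)) (E a y) : ℝ) else 0)
            ((X / q) ^ (1 / w.m : ℝ)) :=
  F.main_alg4_of R D H0 w hw (F.m10_hyp R hK hL D H0 (F.exists_inv R hK hL hH D H0))

end Frm

end Pool.Agent.H98.MF
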