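import Pool.Agent.H98.MF.SExpandG

/-!
# Project MK4 (MP_a3214d), row MF-E1: the expansion over the active indices (helper64)
-/

set_option autoImplicit false

open scoped BigOperators

namespace Pool.Agent.H98.MF

open Pool.Agent.H98.MK (sg)
open Pool.Agent.H98.ML (Dt Ext Wt)

open Classical in
/-- the sum `Sx` as a sum with a class function -/
theorem Sx_eq_SΘ (F : Sys) {D : Dt} (w : Wt D) (Ξ : Ext D → Finset F.T)
    (θ : (Fin F.m → D.V) → (D.V → F.T) → Finset D.V → ℝ) (Y : ℝ) :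
    F.Sx w Ξ θ Y = F.SΘ w Ξ (fun a X => θ a (fun v => F.tys (F.mV X v))
      (Finset.univ.filter fun v => (F.mV X v).Nonempty)) Y := by
  unfold Sys.Sx Sys.SΘ
  refine Finset.sum_congr rfl fun a _ => Finset.sum_congr rfl fun x _ => ?_
  simp only [mV_cls]

open Classical in
theorem expand (F : Sys) {D : Dt} (w : Wt D) (Ξ : Ext D → Finset F.T)
    (hΞ : ∀ g h, IsConj g h → Ξ g = Ξ h)
    (θ : (Fin F.m → D.V) → (D.V → F.T) → Finset D.V → ℝ) (Y : ℝ) :
    F.Sx w Ξ θ Y = ∑ a : Fin F.m → D.V,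
      ∑ x ∈ Fintype.piFinset (fun _ : F.IX D => F.bx Y),
        if (∀ i, i ∉ F.act w Ξ → x i = ∅) ∧ F.Dj x ∧
          ∏ i, (F.nm (x i) : ℝ) ^ w.wt i.1.1 ≤ Y
        then (F.sgn a x : ℝ) * (∏ i ∈ F.act w Ξ, F.kap w i (x i)) *
          θ a (fun v => F.tys (F.mof x v)) (Finset.univ.filter fun v => (F.mof x v).Nonempty)
        else 0 := by
  rw [Sx_eq_SΘ, expand_gen F w Ξ hΞ]
  refine Finset.sum_congr rfl fun a _ => Finset.sum_congr rfl fun x _ => ?_
  simp only [mV_clx]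

end Pool.Agent.H98.MF
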