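import Pool.Agent.H98.MF.SSxAux
import Pool.Agent.H98.MF.SExpand
import Pool.Agent.H98.MF.SSplit

/-!
# Project MK4 (MP_a3214d), block SYS, row E4: the sum is a finite combination of the basic sums
-/

set_option autoImplicit false

open scoped BigOperators

namespace Pool.Agent.H98.MF

open Pool.Agent.H98.MK (sg)
open Pool.Agent.H98.ML (Dt Ext Wt)

theorem Sx_expand (F : Sys) {D : Dt} (w : Wt D) (Ξ : Ext D → Finset F.T)
    (hΞ : ∀ g h, IsConj g h → Ξ g = Ξ h)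
    (θ : (Fin F.m → D.V) → (D.V → F.T) → Finset D.V → ℝ) (Y : ℝ) (hY : 1 ≤ Y) :
    F.Sx w Ξ θ Y = ∑ a : Fin F.m → D.V, ∑ σ ∈ (F.act w Ξ).powerset,
      ∑ c ∈ F.UT σ, F.coef θ a σ c * F.TS w σ c Y :=
  Sx_expand_of F w Ξ θ Y (expand F w Ξ hΞ θ Y) (fun h => split_supp F w _ Y hY h)
    (fun σ f u hu => fourier F σ f u hu) (fun σ hσ c => SX_TS F w Ξ σ hσ c Y)

end Pool.Agent.H98.MF
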