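import Pool.Agent.H98.MF.SMainAn0
import Pool.Agent.H98.MF.STSLim
import Pool.Agent.H98.MF.SSxExpand
import Pool.Agent.H98.MF.SRKey
import Pool.Agent.H98.ML.CardConj

/-!
# Project MK4 (MP_a3214d), row E7: convergence of the main sum
-/

set_option autoImplicit false

open scoped BigOperators
open Filter

namespace Pool.Agent.H98.MF

open Pool.Agent.H98.ML (Dt Ext Wt)

theorem main_an (F : Sys) {D : Dt} (w : Wt D)
    (θ : (Fin F.m → D.V) → (D.V → F.T) → Finset D.V → ℝ)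
    (hθ : ∀ a δ Q, θ a δ Q ≠ 0 → F.Span a Q) :
    ∃ C : ℝ, Tendsto (fun Y : ℝ => F.S w θ Y / (Y * Real.log Y ^ (w.b - 1))) atTop (nhds C) :=
  main_an_of F w θ
    (fun Y hY => by rw [S_eq_Sx, Sx_expand F w (fun _ => {0}) (fun _ _ _ => rfl) θ Y hY])
    (fun a σ hσ c hc hs => R_le F w θ a σ hσ c hc hs)
    (fun σ hσ c n hn => TS_lim F w (fun _ => {0}) σ hσ c n hn)
    (Pool.Agent.H98.ML.b_pos2 w) hθ

end Pool.Agent.H98.MF
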