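import Pool.Agent.H98.MF.SFXSmallC
import Pool.Agent.H98.MF.SATS

/-!
# Project MK4 (MP_a3214d), row MF-P4: supports without main term
-/

set_option autoImplicit false

open scoped BigOperators
open Filter

namespace Pool.Agent.H98.MF

open Pool.Agent.H98.ML (Dt Ext Wt)

theorem FX_small (F : Sys) {D : Dt} (w : Wt D) (π : Pr F D)
    (σ : Finset D.P) (hσ : σ ⊆ w.actM) (hS : ¬ w.Sb σ) :
    Tendsto (fun Y : ℝ => F.FX π σ Y / (Y * Real.log Y ^ (w.b - 1))) atTop (nhds 0) :=
  FX_small_of F (fun _ι _ w hw L hL c a ha ha2 hiso => ATS F w hw L hL c a ha ha2 hiso)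
    w π σ hσ hS

end Pool.Agent.H98.MF
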