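import Pool.Agent.H98.MF.SBase
import Pool.Agent.H98.MF.SCount
import Pool.Agent.H98.MF.STransfer
import Pool.Agent.H98.ML.PosAnA

/-!
# Project MK4 (MP_a3214d), row P8: a lower bound for sums of multiplicative functions
-/

set_option autoImplicit false

open scoped BigOperators
open Finset Filter

namespace Pool.Agent.H98.MF

namespace MLow

variable (F : Sys)

/-- the multiplicative weight on finite sets of primes disjoint from `z` -/
noncomputable def gz (h : F.P → ℝ) (z x : Finset F.P) : ℝ :=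
  if Disjoint x z then ∏ p ∈ x, h p else 0

variable {F}

theorem gz_nonneg {h : F.P → ℝ} (h0 : ∀ p, 0 ≤ h p) (z x : Finset F.P) : 0 ≤ gz F h z x := by
  unfold gz
  split_ifs
  · exact prod_nonneg fun p _ => h0 p
  · exact le_rfl

theorem ph_nonneg {h : F.P → ℝ} (h0 : ∀ p, 0 ≤ h p) (z : Finset F.P) (n : ℕ) :
    0 ≤ F.ph (gz F h z) n := by
  unfold Pre.ph
  exact sum_nonneg fun x _ => gz_nonneg h0 z x

theorem sum_gz (h : F.P → ℝ) (z : Finset F.P) (Y : ℝ) :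
    ∑ x ∈ F.bx Y, gz F h z x = ∑ n ∈ Icc 1 ⌊Y⌋₊, F.ph (gz F h z) n := by
  have h1 := sum_bx F.toPre (gz F h z) (fun _ => 1) Y
  simpa only [mul_one] using h1

theorem rp_nonneg (p : F.P) (s : ℝ) : 0 ≤ (F.N p : ℝ) ^ s := Real.rpow_nonneg (Nat.cast_nonneg _) _

theorem prod_le {h : F.P → ℝ} (h0 : ∀ p, 0 ≤ h p) (z P : Finset F.P) (hP : Disjoint P z)
    (s : ℝ) :
    ∏ p ∈ P, (1 + h p * (F.N p : ℝ) ^ (-s)) ≤
      ∑ n ∈ Icc 1 (F.nm P), F.ph (gz F h z) n * (n : ℝ) ^ (-s) := by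
  rw [prod_one_add]
  have h1 : ∀ t ∈ P.powerset, ∏ p ∈ t, (h p * (F.N p : ℝ) ^ (-s)) =
      gz F h z t * (F.nm t : ℝ) ^ (-s) := by
    intro t ht
    have ht' := mem_powerset.1 ht
    unfold gz Pre.nm
    rw [if_pos (disjoint_of_subset_left ht' hP), prod_mul_distrib, Nat.cast_prod,
      Real.finsetProd_rpow _ _ (fun p _ => Nat.cast_nonneg _)]
  rw [sum_congr rfl h1]
  have h2 := sum_bx F.toPre (gz F h z) (fun n => (n : ℝ) ^ (-s)) (F.nm P : ℝ)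
  rw [Nat.floor_natCast] at h2
  rw [← h2]
  refine sum_le_sum_of_subset_of_nonneg ?_ fun x _ _ =>
    mul_nonneg (gz_nonneg h0 z x) (Real.rpow_nonneg (Nat.cast_nonneg _) _)
  intro t ht
  rw [F.mem_bx]
  exact_mod_cast F.nm_mono (mem_powerset.1 ht)

/-- lower bound for a finite Euler product -/
theorem exp_prod {P : Finset F.P} {x : F.P → ℝ} (hx : ∀ p ∈ P, 0 ≤ x p) :
    Real.exp (∑ p ∈ P, x p - (∑ p ∈ P, x p ^ 2) / 2) ≤ ∏ p ∈ P, (1 + x p) := by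
  rw [sum_div, ← sum_sub_distrib, Real.exp_sum]
  exact prod_le_prod (fun p _ => (Real.exp_pos _).le) fun p hp => ML.pa_exp_le (hx p hp)

theorem summ {h : F.P → ℝ} {H : ℝ} (h0 : ∀ p, 0 ≤ h p) (hH : ∀ p, h p ≤ H) {s : ℝ}
    (hs : 1 < s) : Summable fun p : F.P => h p * (F.N p : ℝ) ^ (-s) := by
  refine Summable.of_nonneg_of_le (fun p => mul_nonneg (h0 p) (rp_nonneg p _)) (fun p => ?_)
    ((summable_N F s hs).mul_left H)
  exact mul_le_mul_of_nonneg_right (hH p) (rp_nonneg p _)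

theorem one_le_Nr (p : F.P) : (1 : ℝ) ≤ F.N p := by exact_mod_cast F.one_le_N p

/-- the primes outside `z` carry almost the whole sum -/
theorem fin_set (z : Finset F.P) {h : F.P → ℝ} {H : ℝ} (h0 : ∀ p, 0 ≤ h p)
    (hH : ∀ p, h p ≤ H) {s : ℝ} (hs : 1 < s) {L : ℝ}
    (hL : L ≤ ∑' p : F.P, h p * (F.N p : ℝ) ^ (-s)) :
    ∃ P : Finset F.P, Disjoint P z ∧
      L - z.card * H - 1 ≤ ∑ p ∈ P, h p * (F.N p : ℝ) ^ (-s) := by
  have hsum := (summ h0 hH hs).hasSum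
  have h1 : ∀ᶠ A : Finset F.P in atTop, L - 1 < ∑ p ∈ A, h p * (F.N p : ℝ) ^ (-s) :=
    hsum.eventually (lt_mem_nhds (by linarith))
  obtain ⟨A, hA⟩ := h1.exists
  refine ⟨A \ z, sdiff_disjoint, ?_⟩
  have h2 : ∑ p ∈ A, h p * (F.N p : ℝ) ^ (-s) ≤
      ∑ p ∈ A \ z, h p * (F.N p : ℝ) ^ (-s) + ∑ p ∈ z, h p * (F.N p : ℝ) ^ (-s) := by
    rw [← sum_union sdiff_disjoint]
    refine sum_le_sum_of_subset_of_nonneg ?_ fun p _ _ => mul_nonneg (h0 p) (rp_nonneg p _)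
    rw [sdiff_union_self_eq_union]
    exact subset_union_left
  have h3 : ∑ p ∈ z, h p * (F.N p : ℝ) ^ (-s) ≤ z.card * H := by
    rw [← nsmul_eq_mul]
    refine sum_le_card_nsmul _ _ _ fun p _ => ?_
    have h4 : (F.N p : ℝ) ^ (-s) ≤ 1 :=
      Real.rpow_le_one_of_one_le_of_nonpos (one_le_Nr p) (by linarith)
    calc h p * (F.N p : ℝ) ^ (-s) ≤ h p * 1 := mul_le_mul_of_nonneg_left h4 (h0 p)
      _ ≤ H := by rw [mul_one]; exact hH p
  linarith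

theorem sq_le {h : F.P → ℝ} {H : ℝ} (h0 : ∀ p, 0 ≤ h p) (hH : ∀ p, h p ≤ H) (hH0 : 0 ≤ H)
    {s : ℝ} (hs : 1 < s) (P : Finset F.P) :
    ∑ p ∈ P, (h p * (F.N p : ℝ) ^ (-s)) ^ 2 ≤ H ^ 2 * ∑' p : F.P, (F.N p : ℝ) ^ (-(2 : ℝ)) := by
  have h1 : ∑ p ∈ P, (h p * (F.N p : ℝ) ^ (-s)) ^ 2 ≤
      ∑ p ∈ P, H ^ 2 * (F.N p : ℝ) ^ (-(2 : ℝ)) := by
    refine sum_le_sum fun p _ => ?_
    rw [mul_pow]
    have h2 : h p ^ 2 ≤ H ^ 2 := pow_le_pow_left₀ (h0 p) (hH p) 2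
    have h3 : ((F.N p : ℝ) ^ (-s)) ^ 2 ≤ (F.N p : ℝ) ^ (-(2 : ℝ)) := by
      rw [← Real.rpow_natCast, ← Real.rpow_mul (Nat.cast_nonneg _)]
      refine Real.rpow_le_rpow_of_exponent_le (one_le_Nr p) ?_
      push_cast
      linarith
    exact mul_le_mul h2 h3 (pow_nonneg (rp_nonneg p _) 2) (pow_nonneg hH0 2)
  refine h1.trans ?_
  rw [← mul_sum]
  refine mul_le_mul_of_nonneg_left ?_ (sq_nonneg H)
  exact (summable_N F 2 (by norm_num)).sum_le_tsum P fun p _ => rp_nonneg p _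

end MLow

open MLow

theorem mult_low (F : Sys) (h : F.P → ℝ) (h0 : ∀ p, 0 ≤ h p) (B : ℝ) (hB : ∀ p, h p ≤ B)
    (b : ℕ) (hb : 1 ≤ b) (K : ℝ)
    (hm : ∀ s : ℝ, 1 < s → s ≤ 2 →
      b * Real.log (1 / (s - 1)) - K ≤ ∑' p : F.P, h p * (F.N p : ℝ) ^ (-s))
    (z : Finset F.P) :
    ∃ c : ℝ, 0 < c ∧ ∀ Y0 : ℝ, ∃ Y : ℝ, Y0 ≤ Y ∧ c * (Y * Real.log Y ^ (b - 1)) ≤
      ∑ x ∈ F.bx Y, (if Disjoint x z then ∏ p ∈ x, h p else 0) := by
  obtain ⟨b', rfl⟩ := Nat.exists_eq_add_of_le' hb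
  rw [Nat.add_sub_cancel]
  set H : ℝ := |B| with hHd
  have hH : ∀ p, h p ≤ H := fun p => (hB p).trans (le_abs_self B)
  have hH0 : 0 ≤ H := abs_nonneg B
  set Z : ℝ := ∑' p : F.P, (F.N p : ℝ) ^ (-(2 : ℝ)) with hZ
  set κ : ℝ := Real.exp (-K - z.card * H - 1 - H ^ 2 * Z / 2) with hκ
  have hκ0 : 0 < κ := Real.exp_pos _
  set K0 : ℝ := Real.exp 1 * (b'.factorial * 2 ^ (b' + 1)) with hK0
  have hK00 : 0 < K0 := by
    have h1 : (0 : ℝ) < b'.factorial := by exact_mod_cast b'.factorial_pos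
    have h2 := Real.exp_pos 1
    positivity
  refine ⟨κ / (2 * K0), by positivity, ?_⟩
  by_contra hcon
  push Not at hcon
  obtain ⟨Y0, hY0⟩ := hcon
  obtain ⟨k0, hk0⟩ := exists_nat_ge Y0
  set c : ℝ := κ / (2 * K0) with hc
  have hc0 : 0 < c := by positivity
  set f : ℕ → ℝ := fun n => F.ph (gz F h z) n with hfd
  have hf : ∀ n, 0 ≤ f n := fun n => ph_nonneg h0 z n
  have hk : ∀ k : ℕ, k0 ≤ k → ∑ n ∈ Icc 1 ⌊Real.exp ((k : ℝ) + 1)⌋₊, f n ≤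
      c * (Real.exp ((k : ℝ) + 1) * ((k : ℝ) + 1) ^ b') := by
    intro k hk
    have h1 : Y0 ≤ Real.exp ((k : ℝ) + 1) := by
      have h2 := Real.add_one_le_exp ((k : ℝ) + 1)
      have h3 : (k0 : ℝ) ≤ k := by exact_mod_cast hk
      linarith
    have h4 := (hY0 _ h1).le
    have h5 := sum_gz (F := F) h z (Real.exp ((k : ℝ) + 1))
    unfold gz at h5
    rw [Real.log_exp, h5] at h4
    exact h4
  set C1 : ℝ := ∑ n ∈ Icc 1 ⌊Real.exp (k0 : ℝ)⌋₊, f n with hC1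
  have hC10 : 0 ≤ C1 := sum_nonneg fun n _ => hf n
  have main : ∀ s : ℝ, 1 < s → s ≤ 2 → κ * (1 / (s - 1)) ^ (b' + 1) ≤
      C1 + κ / 2 * (1 / (s - 1)) ^ (b' + 1) := by
    intro s hs hs2
    obtain ⟨P, hP, hPs⟩ := fin_set z h0 hH hs (hm s hs hs2)
    have h1 := ML.pa_upper hf b' hc0.le k0 hk hs hs2 (F.nm P)
    have h2 := prod_le h0 z P hP s
    have h3 := exp_prod (P := P) (x := fun p => h p * (F.N p : ℝ) ^ (-s)) fun p _ =>
      mul_nonneg (h0 p) (rp_nonneg p _)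
    have h4 := sq_le h0 hH hH0 hs P
    have hpos : 0 < 1 / (s - 1) := by
      have h5 : 0 < s - 1 := by linarith
      positivity
    have h5 : κ * (1 / (s - 1)) ^ (b' + 1) ≤
        Real.exp (∑ p ∈ P, h p * (F.N p : ℝ) ^ (-s) -
          (∑ p ∈ P, (h p * (F.N p : ℝ) ^ (-s)) ^ 2) / 2) := by
      have h6 : (1 / (s - 1)) ^ (b' + 1) =
          Real.exp (((b' + 1 : ℕ) : ℝ) * Real.log (1 / (s - 1))) := by
        rw [Real.exp_nat_mul, Real.exp_log hpos]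
      rw [h6, hκ, ← Real.exp_add]
      refine Real.exp_le_exp.2 ?_
      have h8 : (∑ p ∈ P, (h p * (F.N p : ℝ) ^ (-s)) ^ 2) / 2 ≤ H ^ 2 * Z / 2 := by linarith
      linarith
    have h9 : c * (Real.exp 1 * (b'.factorial * 2 ^ (b' + 1) / (s - 1) ^ (b' + 1))) =
        κ / 2 * (1 / (s - 1)) ^ (b' + 1) := by
      have h10 : (s - 1) ^ (b' + 1) ≠ 0 := pow_ne_zero _ (by linarith)
      have h11 : (b'.factorial : ℝ) ≠ 0 := by exact_mod_cast b'.factorial_ne_zero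
      have h12 := (Real.exp_pos 1).ne'
      rw [hc, hK0, div_pow, one_pow]
      field_simp
    rw [h9] at h1
    exact h5.trans (h3.trans (h2.trans h1))
  -- a contradiction for `s` close to one
  set u : ℝ := 2 * C1 / κ + 2 with hu
  have hu0 : 2 ≤ u := by
    have h1 : 0 ≤ 2 * C1 / κ := by positivity
    linarith
  have h1 := main (1 + 1 / u) (by
    have h2 : 0 < 1 / u := by positivity
    linarith) (by
    have h2 : 1 / u ≤ 1 := by
      rw [div_le_one (by linarith)]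
      linarith
    linarith)
  have e1 : 1 / (1 + 1 / u - 1) = u := by
    rw [add_sub_cancel_left, one_div_one_div]
  rw [e1] at h1
  have h2 : u ≤ u ^ (b' + 1) := by
    calc u = u ^ 1 := (pow_one u).symm
      _ ≤ u ^ (b' + 1) := pow_le_pow_right₀ (by linarith) (by omega)
  have h3 : κ / 2 * u ^ (b' + 1) ≤ C1 := by linarith
  have h4 : κ / 2 * u ≤ C1 := (mul_le_mul_of_nonneg_left h2 (by positivity)).trans h3
  have h5 : κ / 2 * u = C1 + κ := by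
    rw [hu]
    field_simp
  linarith

end Pool.Agent.H98.MF
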