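import Pool.Agent.H98.MF.SGGLow2
import Pool.Agent.H98.MF.SMultLow
import Pool.Agent.H98.ML.FFMean
import Pool.Agent.H98.ML.CardConj

/-!
# Project MK4 (MP_a3214d), block SYS, row P9: lower bound for the main part
-/

set_option autoImplicit false

open scoped BigOperators

namespace Pool.Agent.H98.MF

open Pool.Agent.H98.MK (sg)
open Pool.Agent.H98.ML (Dt Ext Wt ff_mean b_pos2)

variable {D : Dt}

open Classical in
/-- the part of the sum with given data -/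
noncomputable def ggT (F : Sys) (w : Wt D) (π : Pr F D) (ρ : (D.V → F.T) × (D.V → D.V))
    (y0 : Ext D → Finset F.P) (Y : ℝ) (y : Ext D → Finset F.P) : ℝ :=
  if ggdat F π y = ρ ∧ GGd F w π y ∧ (∀ g g', Disjoint (y g) (y0 g')) ∧
    (∏ g, (F.nm (y g) : ℝ)) ≤ Y then ggw F w π y else 0

theorem ggT_nonneg (F : Sys) (w : Wt D) (π : Pr F D) (ρ : (D.V → F.T) × (D.V → D.V))
    (y0 : Ext D → Finset F.P) (Y : ℝ) (y : Ext D → Finset F.P) : 0 ≤ ggT F w π ρ y0 Y y := by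
  unfold ggT
  split_ifs
  · exact ggw_nonneg F w π y
  · exact le_rfl

/-- one value of the data -/
theorem ggT_le (F : Sys) (w : Wt D) (π : Pr F D) (ρ : (D.V → F.T) × (D.V → D.V))
    (y0 : Ext D → Finset F.P)
    (hy0 : (∃ y, GGd F w π y ∧ ggw F w π y ≠ 0 ∧ ggdat F π y = ρ) →
        GGd F w π y0 ∧ ggw F w π y0 ≠ 0 ∧ ggdat F π y0 = ρ) (A Y : ℝ) (hY : 0 ≤ Y)
    (hA : (∏ g, (F.nm (y0 g) : ℝ)) ≤ A) :
    ∑ y ∈ Fintype.piFinset (fun _ : Ext D => F.bx Y), ggT F w π ρ y0 Y y ≤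
      F.GG w π (A * Y) := by
  by_cases hr : ∃ y, GGd F w π y ∧ ggw F w π y ≠ 0 ∧ ggdat F π y = ρ
  · obtain ⟨g1, g2, g3⟩ := hy0 hr
    exact ggl_fib F w π ρ y0 g1 g2 g3 A Y hY hA
  · rw [Finset.sum_eq_zero]
    · exact ggl_GG_nonneg F w π _
    · intro y _
      unfold ggT
      by_cases h6 : ggw F w π y = 0
      · rw [h6, ite_self]
      · exact if_neg fun h7 => hr ⟨y, h7.2.1, h6, h7.1⟩

open Classical in
/-- all values of the data -/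
theorem ggT_ge (F : Sys) (w : Wt D) (π : Pr F D)
    (y0 : (D.V → F.T) × (D.V → D.V) → Ext D → Finset F.P) (z : Finset F.P)
    (h1 : ∀ k, π.p k ∈ z) (h2 : ∀ ρ g, y0 ρ g ⊆ z) (Y : ℝ) (y : Ext D → Finset F.P)
    (i : Decidable ((∀ g, g ∉ w.Mr → y g = ∅) ∧ F.Dj y ∧ (∀ g, Disjoint (y g) z) ∧
        (∏ g, (F.nm (y g) : ℝ)) ≤ Y)) :
    @ite ℝ ((∀ g, g ∉ w.Mr → y g = ∅) ∧ F.Dj y ∧ (∀ g, Disjoint (y g) z) ∧
        (∏ g, (F.nm (y g) : ℝ)) ≤ Y) i (∏ g, ∏ p ∈ y g, w.ff g.v (F.frob π p)) 0 ≤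
      ∑ ρ : (D.V → F.T) × (D.V → D.V), ggT F w π ρ (y0 ρ) Y y := by
  split_ifs with hc
  · obtain ⟨c1, c2, c3, c4⟩ := hc
    have hG : GGd F w π y := by
      refine ⟨fun g hg => c1 g fun hg' => hg ?_, c2, fun i k hk => ?_⟩
      · unfold Wt.Mr at hg'
        exact (Finset.mem_filter.1 hg').2
      · exact Finset.disjoint_left.1 (c3 i) hk (h1 k)
    have hdis : ∀ g g', Disjoint (y g) (y0 (ggdat F π y) g') := fun g g' =>
      (c3 g).mono_right (h2 _ _)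
    have h6 : ggT F w π (ggdat F π y) (y0 (ggdat F π y)) Y y = ggw F w π y :=
      if_pos ⟨rfl, hG, hdis, c4⟩
    have h7 := Finset.single_le_sum (f := fun ρ => ggT F w π ρ (y0 ρ) Y y)
      (fun ρ _ => ggT_nonneg F w π ρ (y0 ρ) Y y) (Finset.mem_univ (ggdat F π y))
    exact le_trans (le_of_eq h6.symm) h7
  · exact Finset.sum_nonneg fun ρ _ => ggT_nonneg F w π ρ (y0 ρ) Y y

/-- a finite choice of tuples -/
theorem ggl_choice (F : Sys) {R : Type} (Q : R → (Ext D → Finset F.P) → Prop) :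
    ∃ y0 : R → Ext D → Finset F.P, ∀ ρ, (∃ y, Q ρ y) → Q ρ (y0 ρ) := by
  classical
  refine ⟨fun ρ => if h : ∃ y, Q ρ y then h.choose else fun _ => ∅, fun ρ h => ?_⟩
  show Q ρ (if h : ∃ y, Q ρ y then h.choose else fun _ => ∅)
  rw [dif_pos h]
  exact h.choose_spec

/-- bounds for finitely many tuples -/
theorem ggl_bounds (F : Sys) (π : Pr F D) {R : Type} [Fintype R]
    (y0 : R → Ext D → Finset F.P) : ∃ A : ℝ, 1 ≤ A ∧
      (∀ ρ, ∏ g, (F.nm (y0 ρ g) : ℝ) ≤ A) ∧ ∃ z : Finset F.P, (∀ k, π.p k ∈ z) ∧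
      ∀ ρ g, y0 ρ g ⊆ z := by
  classical
  have h1 : ∀ ρ, 1 ≤ ∏ g, (F.nm (y0 ρ g) : ℝ) := fun ρ =>
    Finset.one_le_prod fun g _ => F.one_le_nmr _
  refine ⟨∏ ρ, ∏ g, (F.nm (y0 ρ g) : ℝ), Finset.one_le_prod fun ρ _ => h1 ρ, fun ρ => ?_,
    (Finset.univ.image π.p) ∪ Finset.univ.biUnion fun ρ => Finset.univ.biUnion (y0 ρ),
    fun k => Finset.mem_union_left _ (Finset.mem_image_of_mem _ (Finset.mem_univ k)),
    fun ρ g p hp => Finset.mem_union_right _ (Finset.mem_biUnion.2 ⟨ρ, Finset.mem_univ _,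
      Finset.mem_biUnion.2 ⟨g, Finset.mem_univ _, hp⟩⟩)⟩
  rw [← Finset.mul_prod_erase Finset.univ _ (Finset.mem_univ ρ)]
  exact le_mul_of_one_le_right (le_trans zero_le_one (h1 ρ))
    (Finset.one_le_prod fun i _ => h1 i)

/-- interchange of the sums -/
theorem ggl_swap {R Y : Type} [Fintype R] (s : Finset Y) (T : R → Y → ℝ) (B : ℝ)
    (h : ∀ ρ, ∑ y ∈ s, T ρ y ≤ B) : ∑ y ∈ s, ∑ ρ, T ρ y ≤ (Fintype.card R : ℝ) * B := by
  rw [Finset.sum_comm]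
  refine (Finset.sum_le_sum fun ρ _ => h ρ).trans (le_of_eq ?_)
  rw [Finset.sum_const, Finset.card_univ, nsmul_eq_mul]

/-- the unconditioned sum is bounded by the conditioned one -/
theorem ggl_remove (F : Sys) (w : Wt D) (π : Pr F D) : ∃ z : Finset F.P, ∃ A : ℝ, 1 ≤ A ∧
    ∃ E : ℝ, 0 < E ∧ ∀ Y : ℝ, 0 ≤ Y →
    (∑ x ∈ F.bx Y, if Disjoint x z then ∏ p ∈ x, F.ggh w π p else 0) ≤
      E * F.GG w π (A * Y) := by
  classical
  obtain ⟨y0, hy0⟩ := ggl_choice F (R := (D.V → F.T) × (D.V → D.V))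
    (fun ρ y => GGd F w π y ∧ ggw F w π y ≠ 0 ∧ ggdat F π y = ρ)
  obtain ⟨A, hA1, hle, z, hz1, hz2⟩ := ggl_bounds F π y0
  refine ⟨z, A, hA1, (Fintype.card ((D.V → F.T) × (D.V → D.V)) : ℝ),
    Nat.cast_pos.2 Fintype.card_pos, fun Y hY => ?_⟩
  have e2 := ggl_tuples2 F w.Mr (fun g p => w.ff g.v (F.frob π p)) z Y
  refine ((le_of_eq e2).trans (Finset.sum_le_sum fun y _ =>
    ggT_ge F w π y0 z hz1 hz2 Y y _)).trans ?_
  exact ggl_swap _ (fun ρ y => ggT F w π ρ (y0 ρ) Y y) _ fun ρ =>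
    ggT_le F w π ρ (y0 ρ) (hy0 ρ) A Y hY (hle ρ)

theorem GG_lower (F : Sys) {D : Dt} (w : Wt D) (π : Pr F D) : ∃ c : ℝ, 0 < c ∧ ∀ Y0 : ℝ,
    ∃ Y : ℝ, Y0 ≤ Y ∧ c * (Y * Real.log Y ^ (w.b - 1)) ≤ F.GG w π Y := by
  obtain ⟨z, A, hA, E, hE, hY⟩ := ggl_remove F w π
  obtain ⟨K, hK⟩ := ggl_mean F w π (ff_mean w)
  obtain ⟨c, hc, h⟩ := mult_low F (F.ggh w π) (ggl_nonneg F w π)
    (∑ g ∈ w.Mr, ∑ κ : D.V, w.ff g.v κ) (ggl_bdd F w π) w.b (b_pos2 w) K hK z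
  refine ⟨c / (E * A * 2 ^ (w.b - 1)), by positivity, fun Y0 => ?_⟩
  obtain ⟨Y, h1, h2⟩ := h (max Y0 A)
  have hY0 : Y0 ≤ Y := (le_max_left _ _).trans h1
  have hAY : A ≤ Y := (le_max_right _ _).trans h1
  have hY1 : 1 ≤ Y := hA.trans hAY
  have hYp : 0 < Y := by linarith
  have hAp : 0 < A := by linarith
  refine ⟨A * Y, hY0.trans (le_mul_of_one_le_left hYp.le hA), ?_⟩
  have h3 := h2.trans (hY Y hYp.le)
  have hl : Real.log (A * Y) ≤ 2 * Real.log Y := by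
    rw [Real.log_mul hAp.ne' hYp.ne']
    have := Real.log_le_log hAp hAY
    linarith
  have hl0 : 0 ≤ Real.log (A * Y) := Real.log_nonneg (by nlinarith)
  have hl1 : Real.log (A * Y) ^ (w.b - 1) ≤ 2 ^ (w.b - 1) * Real.log Y ^ (w.b - 1) := by
    rw [← mul_pow]
    exact pow_le_pow_left₀ hl0 hl _
  calc c / (E * A * 2 ^ (w.b - 1)) * (A * Y * Real.log (A * Y) ^ (w.b - 1))
      ≤ c / (E * A * 2 ^ (w.b - 1)) * (A * Y * (2 ^ (w.b - 1) * Real.log Y ^ (w.b - 1))) := by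
        gcongr
    _ = (c * (Y * Real.log Y ^ (w.b - 1))) / E := by
        field_simp
    _ ≤ (E * F.GG w π (A * Y)) / E := div_le_div_of_nonneg_right h3 hE.le
    _ = F.GG w π (A * Y) := by
        field_simp

end Pool.Agent.H98.MF
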