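import Pool.Agent.H98.MF.SMainPosOf
import Pool.Agent.H98.MF.SFXSmall
import Pool.Agent.H98.MF.SGGLower

/-!
# Project MK4 (MP_a3214d), row MF-P10: positivity (helper91)
-/

set_option autoImplicit false

open scoped BigOperators
open Filter

namespace Pool.Agent.H98.MF

open Pool.Agent.H98.MK (sg)
open Pool.Agent.H98.ML (Dt Ext Wt)

theorem main_pos (F : Sys) {D : Dt} (w : Wt D)
    (θ : (Fin F.m → D.V) → (D.V → F.T) → Finset D.V → ℝ) (h0 : ∀ a δ Q, 0 ≤ θ a δ Q)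
    (h1 : ∀ Q, F.Span (fun _ => (0 : D.V)) Q → 1 ≤ θ (fun _ => 0) (fun _ => 0) Q) :
    ∃ c : ℝ, 0 < c ∧ ∀ Y0 : ℝ, ∃ Y : ℝ, Y0 ≤ Y ∧
      c * (Y * Real.log Y ^ (w.b - 1)) ≤ F.S w θ Y :=
  main_pos_of F w θ h0 h1 (fun π σ h2 h3 => FX_small F w π σ h2 h3) (fun π => GG_lower F w π)

end Pool.Agent.H98.MF
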