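import Pool.Agent.H98.MF.RLeX
import Pool.Agent.H98.MF.SSxExpand
import Pool.Agent.H98.MF.STSLim
import Pool.Agent.H98.ML.CardConj

/-!
# Project MK4 (MP_a3214d), block SYS-T, row T2: bound for the sum with extra characters
-/

set_option autoImplicit false

open scoped BigOperators
open Filter

namespace Pool.Agent.H98.MF

open Pool.Agent.H98.MK (sg)
open Pool.Agent.H98.ML (Dt Ext Wt)

namespace Sys

variable (F : Sys) {D : Dt}

/-- a nonzero coefficient has a spanning support -/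
theorem sb_span (θ : (Fin F.m → D.V) → (D.V → F.T) → Finset D.V → ℝ)
    (hθ : ∀ a δ Q, θ a δ Q ≠ 0 → F.Span a Q) {a : Fin F.m → D.V} {σ : Finset (F.IX D)}
    {c : F.IX D → F.T} (hc : F.coef θ a σ c ≠ 0) : F.Span a (F.supV σ) := by
  classical
  by_contra hs
  apply hc
  unfold Sys.coef
  rw [Finset.sum_eq_zero, mul_zero]
  intro u _
  unfold Sys.Psi
  have h1 : ∀ δ, θ a δ (F.supV σ) = 0 := fun δ => by
    by_contra h2
    exact hs (hθ _ _ _ h2)
  rw [h1, mul_zero, zero_mul]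

theorem sb_Xi (g0 : Ext D) (c0 : F.T) (g h : Ext D) (hgh : IsConj g h) :
    F.Xi g0 c0 g = F.Xi g0 c0 h := by
  classical
  unfold Sys.Xi
  by_cases h1 : IsConj g0 g
  · rw [if_pos h1, if_pos (h1.trans hgh)]
  · rw [if_neg h1, if_neg fun h2 => h1 (h2.trans hgh.symm)]

theorem Sx_bd (w : Wt D) (hM : MSp w)
    (θ : (Fin F.m → D.V) → (D.V → F.T) → Finset D.V → ℝ)
    (hθ : ∀ a δ Q, θ a δ Q ≠ 0 → F.Span a Q) (g0 : Ext D)
    (h1 : g0 ≠ 1) (hg : w.ind g0 = w.m) (c0 : F.T) (hc0 : c0 ≠ 0) :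
    ∃ C : ℝ, ∀ᶠ Y : ℝ in atTop,
      |F.Sx w (F.Xi g0 c0) θ Y| ≤ C * (Y * Real.log Y ^ (w.b - 1)) := by
  classical
  have hb := Pool.Agent.H98.ML.b_pos2 w
  have key : ∀ (a : Fin F.m → D.V) (σ : Finset (F.IX D)) (c : F.IX D → F.T),
      ∃ C : ℝ, 0 ≤ C ∧ (σ ∈ (F.act w (F.Xi g0 c0)).powerset → ∀ Y : ℝ, 1 ≤ Y →
        |F.coef θ a σ c * F.TS w σ c Y| ≤ C * (Y * (1 + Real.log Y) ^ (w.b - 1))) := by
    intro a σ c
    by_cases hσ : σ ∈ (F.act w (F.Xi g0 c0)).powerset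
    · by_cases hc : F.coef θ a σ c = 0
      · refine ⟨0, le_rfl, fun _ Y _ => ?_⟩
        rw [hc, zero_mul, zero_mul, abs_zero]
      · have hR := F.R_le_x w hM θ a g0 h1 hg c0 hc0 σ (Finset.mem_powerset.1 hσ) c hc
          (F.sb_span θ hθ hc)
        obtain ⟨C, hC⟩ := TS_le F w (F.Xi g0 c0) σ (Finset.mem_powerset.1 hσ) c (w.b - 1)
          (by omega)
        refine ⟨|F.coef θ a σ c| * |C|, by positivity, fun _ Y hY => ?_⟩
        have hl : 0 ≤ Real.log Y := Real.log_nonneg hY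
        rw [abs_mul]
        calc |F.coef θ a σ c| * |F.TS w σ c Y|
            ≤ |F.coef θ a σ c| * (C * Y * (1 + Real.log Y) ^ (w.b - 1)) :=
              mul_le_mul_of_nonneg_left (hC Y hY) (abs_nonneg _)
          _ ≤ |F.coef θ a σ c| * (|C| * Y * (1 + Real.log Y) ^ (w.b - 1)) := by
              refine mul_le_mul_of_nonneg_left ?_ (abs_nonneg _)
              refine mul_le_mul_of_nonneg_right ?_ (by positivity)
              exact mul_le_mul_of_nonneg_right (le_abs_self C) (by linarith)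
          _ = _ := by ring
    · exact ⟨0, le_rfl, fun h => absurd h hσ⟩
  choose K hK0 hK using key
  refine ⟨(∑ a : Fin F.m → D.V, ∑ σ ∈ (F.act w (F.Xi g0 c0)).powerset,
    ∑ c ∈ F.UT σ, K a σ c) * 2 ^ (w.b - 1), ?_⟩
  filter_upwards [eventually_ge_atTop (Real.exp 1)] with Y hY
  have hY1 : 1 ≤ Y := le_trans (Real.one_le_exp zero_le_one) hY
  have hY0 : 0 < Y := by linarith
  have hl : 1 ≤ Real.log Y := by
    rw [Real.le_log_iff_exp_le hY0]
    exact hY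
  have hpow : (1 + Real.log Y) ^ (w.b - 1) ≤ 2 ^ (w.b - 1) * Real.log Y ^ (w.b - 1) := by
    rw [← mul_pow]
    exact pow_le_pow_left₀ (by linarith) (by linarith) _
  have hKsum : 0 ≤ ∑ a : Fin F.m → D.V, ∑ σ ∈ (F.act w (F.Xi g0 c0)).powerset,
      ∑ c ∈ F.UT σ, K a σ c :=
    Finset.sum_nonneg fun a _ => Finset.sum_nonneg fun σ _ => Finset.sum_nonneg fun c _ =>
      hK0 a σ c
  rw [Sx_expand F w (F.Xi g0 c0) (F.sb_Xi g0 c0) θ Y hY1]
  calc |∑ a : Fin F.m → D.V, ∑ σ ∈ (F.act w (F.Xi g0 c0)).powerset,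
        ∑ c ∈ F.UT σ, F.coef θ a σ c * F.TS w σ c Y|
      ≤ ∑ a : Fin F.m → D.V, ∑ σ ∈ (F.act w (F.Xi g0 c0)).powerset,
        ∑ c ∈ F.UT σ, K a σ c * (Y * (1 + Real.log Y) ^ (w.b - 1)) := by
        refine (Finset.abs_sum_le_sum_abs _ _).trans (Finset.sum_le_sum fun a _ => ?_)
        refine (Finset.abs_sum_le_sum_abs _ _).trans (Finset.sum_le_sum fun σ hσ => ?_)
        refine (Finset.abs_sum_le_sum_abs _ _).trans (Finset.sum_le_sum fun c _ => ?_)
        exact hK a σ c hσ Y hY1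
    _ = (∑ a : Fin F.m → D.V, ∑ σ ∈ (F.act w (F.Xi g0 c0)).powerset,
        ∑ c ∈ F.UT σ, K a σ c) * (Y * (1 + Real.log Y) ^ (w.b - 1)) := by
        simp only [Finset.sum_mul]
    _ ≤ (∑ a : Fin F.m → D.V, ∑ σ ∈ (F.act w (F.Xi g0 c0)).powerset,
        ∑ c ∈ F.UT σ, K a σ c) * (Y * (2 ^ (w.b - 1) * Real.log Y ^ (w.b - 1))) := by
        refine mul_le_mul_of_nonneg_left ?_ hKsum
        exact mul_le_mul_of_nonneg_left hpow hY0.le
    _ = _ := by ring

end Sys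

end Pool.Agent.H98.MF
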