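import Pool.Agent.H98.MF.SwitchOf
import Pool.Agent.H98.MF.SxBd
import Pool.Agent.H98.MF.FewSmall

/-!
# Project MK4 (MP_a3214d), block SYS-T: the switching theorem
-/

set_option autoImplicit false

open scoped BigOperators

open Filter

namespace Pool.Agent.H98.MF

open Pool.Agent.H98.MK (sg)
open Pool.Agent.H98.ML (Dt Ext Wt)

namespace Sys

variable (F : Sys) {D : Dt}

/-- the switching theorem -/
theorem switch (hch : ∃ C : ℝ, ∀ x : ℝ, 2 ≤ x → ((F.pr x).card : ℝ) ≤ C * x / Real.log x)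
    (w : Wt D) (hM : MSp w) (θ : (Fin F.m → D.V) → (D.V → F.T) → Finset D.V → ℝ)
    (hθ : ∀ a δ Q, θ a δ Q ≠ 0 → F.Span a Q) (g0 : Ext D) (h1 : g0 ≠ 1)
    (hg : w.ind g0 = w.m) (w0 : D.V) (hz : D.B g0.v w0 ≠ 0) (c : F.T) (hc : c ≠ 0)
    (ε : (Fin F.m → D.V) → (Ext D → Finset F.P) → ℝ) (hε : F.Swi θ g0 (D.B g0.v w0) c ε) :
    Tendsto (fun Y : ℝ => F.Sg w (fun a x => F.ofT θ a x * ε a x) Y /
      (Y * Real.log Y ^ (w.b - 1))) atTop (nhds 0) :=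
  F.switch_of w θ hθ g0 h1 hg w0 hz c hc ε hε
    (fun θ' hθ' => F.Sx_bd w hM θ' hθ' g0 h1 hg c hc)
    (fun θ' hθ' h => F.few_small hch w θ' hθ' (two_le_b w hM g0 w0 hz) g0 h1 hg h)

end Sys

end Pool.Agent.H98.MF
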