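import Pool.Agent.H98.MF.MainDat4C
import Pool.Agent.H98.MF.MainAlg4
import Pool.Agent.H98.MF.Switch
import Pool.Agent.H98.MF.SMainAn
import Pool.Agent.H98.MF.SMainPos

/-!
# Project MK4, row F2: the count for the data over a number field
-/

set_option autoImplicit false

open scoped BigOperators Pointwise Topology
open NumberField IsDedekindDomain Filter

namespace Pool.Agent.H98.MF

open Pool.Agent.H98.MK (sg)
open Pool.Agent.H98.ML (Dt Ext Wt norb hind)

/-- the count for the data over a number field -/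
theorem main_dat4 {k : Type} [Field k] [NumberField k] (F : Frm k) (R : Rx k) (hK : KIn k)
    (hL : LIn k) (hH : HPSt k) (D : Dt) (H0 : Subgroup (Ext D)) (w : Wt D)
    (hw : w.ind = hind H0) (hM : MSp w) :
    ∃ C : ℝ, 0 < C ∧ Tendsto (fun X : ℝ =>
      (Nat.card {ρ : Gm k →* Ext D // Function.Surjective ρ ∧ IsLocallyConstant ρ ∧
        (rdN (fld k (H0.comap ρ)) : ℝ) ≤ X} : ℝ) /
          (X ^ (1 / w.m : ℝ) * Real.log X ^ (w.b - 1))) atTop (nhds C) :=
  F.main_dat4_of H0 w hM (F.main_alg4 R hK hL hH D H0 w hw)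
    (fun θ hθ g0 h1 hg w0 hz c hc ε hε => F.sys.switch F.hch w hM θ hθ g0 h1 hg w0 hz c hc ε hε)
    (fun θ hθ => main_an F.sys w θ hθ) (fun θ h0 h1 => main_pos F.sys w θ h0 h1)

end Pool.Agent.H98.MF
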