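import Pool.Agent.H98.MF.Final4A
import Pool.Agent.H98.MF.MainDat4

/-!
# Project MK4 (MP_a3214d), row F3: the final count over a number field
-/

set_option autoImplicit false

open scoped BigOperators Pointwise
open NumberField IsDedekindDomain Filter

namespace Pool.Agent.H98.MF

open Pool.Agent.H98.MK (sg)
open Pool.Agent.H98.ML (Dt Ext Wt norb hind)

/-- the final count over a number field -/
theorem final4 (k : Type) [Field k] [NumberField k] (n : ℕ) (G : Subgroup (Equiv.Perm (Fin n)))
    (hne : G ≠ ⊥) (htr : MulAction.IsPretransitive G (Fin n))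
    (h4 : ∀ x : G, x ^ 4 = 1) (hc : ∀ x y : G, x ^ 2 * y = y * x ^ 2) (m : ℕ)
    (hm : IsLeast {j | ∃ g ∈ G, g ≠ 1 ∧ g.support.card - Multiset.card g.cycleType = j} m)
    (hgen : Subgroup.closure {g : Equiv.Perm (Fin n) | g ∈ G ∧ g ≠ 1 ∧
      g.support.card - Multiset.card g.cycleType = m} = G) :
    ∃ c : ℝ, 0 < c ∧
      Asymptotics.IsEquivalent Filter.atTop
        (fun B : ℝ => ((Nat.card (Quot (fun L L' : {M : IntermediateField k (AlgebraicClosure k) //
            Module.finrank k M = n ∧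
            (∃ e : (M →ₐ[k] AlgebraicClosure k) ≃ Fin n, ∀ π : Equiv.Perm (Fin n),
               π ∈ G ↔ ∃ σ : AlgebraicClosure k ≃ₐ[k] AlgebraicClosure k,
                 ∀ φ : M →ₐ[k] AlgebraicClosure k, e (σ.toAlgHom.comp φ) = π (e φ)) ∧
            ∃ h : NumberField M,
              ((|@NumberField.discr M _ h| : ℤ) : ℝ) ≤ B * ((|NumberField.discr k| : ℤ) : ℝ) ^ n}
          => Nonempty (L.1 ≃ₐ[k] L'.1))) : ℕ) : ℝ))
        (fun B : ℝ => c * B ^ (1 / m : ℝ) * Real.log B ^
          (Nat.card {c : ConjClasses G // ∃ g : G, ConjClasses.mk g = c ∧ g ≠ 1 ∧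
            (g : Equiv.Perm (Fin n)).support.card -
              Multiset.card (g : Equiv.Perm (Fin n)).cycleType = m} - 1)) :=
  final4_of2 k (fun F R hK hL hH D H0 w hw hM => main_dat4 F R hK hL hH D H0 w hw hM)
    n G hne htr h4 hc m hm hgen

end Pool.Agent.H98.MF
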