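import Pool.Agent.H98.MF.Final4Of
import Pool.Agent.H98.MF.CountHoms4
import Pool.Agent.H98.MF.NEnd
import Pool.Agent.H98.MF.L.KIn
import Pool.Agent.H98.MF.D.ExRx

/-!
# Project MK4 (MP_a3214d), row F3: the interface of the count over a number field
-/

set_option autoImplicit false

open scoped BigOperators Pointwise
open NumberField IsDedekindDomain Filter

namespace Pool.Agent.H98.MF

open Pool.Agent.H98.MK (sg)
open Pool.Agent.H98.ML (Dt Ext Wt norb hind)

/-- the final count over a number field, from the count for a frame -/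
theorem final4_of2 (k : Type) [Field k] [NumberField k]
    (hmain : ∀ (_ : Frm k) (_ : Rx k), KIn k → LIn k → HPSt k → ∀ (D : Dt)
      (H0 : Subgroup (Ext D)) (w : Wt D), w.ind = hind H0 → MSp w →
      ∃ C : ℝ, 0 < C ∧ Tendsto (fun X : ℝ =>
        (Nat.card {ρ : Gm k →* Ext D // Function.Surjective ρ ∧ IsLocallyConstant ρ ∧
          (rdN (fld k (H0.comap ρ)) : ℝ) ≤ X} : ℝ) /
            (X ^ (1 / w.m : ℝ) * Real.log X ^ (w.b - 1))) atTop (nhds C))
    (n : ℕ) (G : Subgroup (Equiv.Perm (Fin n)))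
    (hne : G ≠ ⊥) (htr : MulAction.IsPretransitive G (Fin n))
    (h4 : ∀ x : G, x ^ 4 = 1) (hc : ∀ x y : G, x ^ 2 * y = y * x ^ 2) (m : ℕ)
    (hm : IsLeast {j | ∃ g ∈ G, g ≠ 1 ∧ g.support.card - Multiset.card g.cycleType = j} m)
    (hgen : Subgroup.closure {g : Equiv.Perm (Fin n) | g ∈ G ∧ g ≠ 1 ∧
      g.support.card - Multiset.card g.cycleType = m} = G) :
    ∃ c : ℝ, 0 < c ∧
      Asymptotics.IsEquivalent Filter.atTop
        (fun B : ℝ => ((Nat.card (Quot (fun L L' : {M : IntermediateField k (AlgebraicClosure k) //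
            Module.finrank k M = n ∧
            (∃ e : (M →ₐ[k] AlgebraicClosure k) ≃ Fin n, ∀ π : Equiv.Perm (Fin n),
               π ∈ G ↔ ∃ σ : AlgebraicClosure k ≃ₐ[k] AlgebraicClosure k,
                 ∀ φ : M →ₐ[k] AlgebraicClosure k, e (σ.toAlgHom.comp φ) = π (e φ)) ∧
            ∃ h : NumberField M,
              ((|@NumberField.discr M _ h| : ℤ) : ℝ) ≤ B * ((|NumberField.discr k| : ℤ) : ℝ) ^ n}
          => Nonempty (L.1 ≃ₐ[k] L'.1))) : ℕ) : ℝ))
        (fun B : ℝ => c * B ^ (1 / m : ℝ) * Real.log B ^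
          (Nat.card {c : ConjClasses G // ∃ g : G, ConjClasses.mk g = c ∧ g ≠ 1 ∧
            (g : Equiv.Perm (Fin n)).support.card -
              Multiset.card (g : Equiv.Perm (Fin n)).cycleType = m} - 1)) := by
  obtain ⟨F⟩ := exists_frm k
  obtain ⟨R⟩ := exists_rx k
  exact final4_of k (fun D H0 w hw hM => hmain F R (kin k) (B.lin k) (B.hpSt (nin k)) D H0 w hw hM)
    (fun n G htr i0 B => count_homs4 k n G htr i0 B) n G hne htr h4 hc m hm hgen

end Pool.Agent.H98.MF
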