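import Pool.Agent.H98.MF.Switch1a

/-!
# Project MK4 (MP_a3214d), block SYS-T: cancellation by switching
-/

set_option autoImplicit false

open scoped BigOperators

open Filter

namespace Pool.Agent.H98.MF

open Pool.Agent.H98.MK (sg)
open Pool.Agent.H98.ML (Dt Ext Wt)

namespace Sys

variable (F : Sys) {D : Dt}

theorem S_eq_Sg (w : Wt D) (θ : (Fin F.m → D.V) → (D.V → F.T) → Finset D.V → ℝ) (Y : ℝ) :
    F.S w θ Y = F.Sg w (F.ofT θ) Y := by
  classical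
  unfold S Sg
  refine Finset.sum_congr rfl fun a _ => Finset.sum_congr rfl fun x _ => ?_
  refine if_congr Iff.rfl rfl rfl

/-! ### the cancellation -/

private theorem t1_Pc {g0 : Ext D} {c : F.T} {x x' : Ext D → Finset F.P}
    (h : F.cU g0 x' = F.cU g0 x) : F.Pc g0 c x' ↔ F.Pc g0 c x := by
  unfold Pc; rw [h]

private theorem t1_ofT (θ : (Fin F.m → D.V) → (D.V → F.T) → Finset D.V → ℝ)
    {a : Fin F.m → D.V} {x x' : Ext D → Finset F.P}
    (h : F.mV x' = F.mV x) : F.ofT θ a x' = F.ofT θ a x := by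
  unfold ofT; rw [h]

private theorem t1_exp {g0 : Ext D} {c : F.T} {x : Ext D → Finset F.P} (h : ¬ F.Pc g0 c x) :
    ∃ p, p ∈ F.cU g0 x ∧ c ⬝ᵥ F.ty p ≠ 0 := by
  unfold Pc at h
  push Not at h
  exact h

private theorem t1_exg {g0 : Ext D} {x : Ext D → Finset F.P} {p : F.P} (h : p ∈ F.cU g0 x) :
    ∃ g, IsConj g0 g ∧ p ∈ x g := by
  classical
  unfold cU at h
  obtain ⟨g, h1, h2⟩ := Finset.mem_biUnion.1 h
  exact ⟨g, (Finset.mem_filter.1 h1).2, h2⟩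

/-- the chosen prime depends on the set only -/
private noncomputable def t1_p (c : F.T) (s : Finset F.P) (h : ∃ p, p ∈ s ∧ c ⬝ᵥ F.ty p ≠ 0) :
    F.P := h.choose

private theorem t1_p_congr (c : F.T) {s s' : Finset F.P} (e : s' = s)
    (h : ∃ p, p ∈ s ∧ c ⬝ᵥ F.ty p ≠ 0) (h' : ∃ p, p ∈ s' ∧ c ⬝ᵥ F.ty p ≠ 0) :
    F.t1_p c s' h' = F.t1_p c s h := by
  subst e; rfl

open Classical in
/-- configurations without the orthogonality cancel -/
theorem sw_prop (w : Wt D) (θ : (Fin F.m → D.V) → (D.V → F.T) → Finset D.V → ℝ)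
    (g0 : Ext D) (h1 : g0 ≠ 1) (hg : w.ind g0 = w.m) (w0 : D.V) (hz : D.B g0.v w0 ≠ 0) (c : F.T)
    (ε : (Fin F.m → D.V) → (Ext D → Finset F.P) → ℝ) (hε : F.Swi θ g0 (D.B g0.v w0) c ε)
    (Y : ℝ) :
    F.Sg w (fun a x => F.ofT θ a x * ε a x) Y =
      F.Sg w (fun a x => if F.Pc g0 c x then F.ofT θ a x * ε a x else 0) Y := by
  unfold Sg
  refine Finset.sum_congr rfl fun a _ => ?_
  rw [← sub_eq_zero, ← Finset.sum_sub_distrib]
  have hstep : ∀ x ∈ Fintype.piFinset (fun _ : Ext D => F.bx Y),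
      ((if F.Cf w Y a x then F.ofT θ a x * ε a x else 0) -
        (if F.Cf w Y a x then (if F.Pc g0 c x then F.ofT θ a x * ε a x else 0) else 0)) =
      if F.Cf w Y a x ∧ ¬ F.Pc g0 c x then F.ofT θ a x * ε a x else 0 := by
    intro x _
    by_cases hC : F.Cf w Y a x
    · by_cases hP : F.Pc g0 c x
      · simp [hC, hP]
      · simp [hC, hP]
    · simp [hC]
  rw [Finset.sum_congr rfl hstep, ← Finset.sum_filter]
  set s := (Fintype.piFinset (fun _ : Ext D => F.bx Y)).filter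
    (fun x => F.Cf w Y a x ∧ ¬ F.Pc g0 c x) with hs
  have hmem : ∀ x, x ∈ s ↔ x ∈ Fintype.piFinset (fun _ : Ext D => F.bx Y) ∧ F.Cf w Y a x ∧
      ¬ F.Pc g0 c x := fun x => Finset.mem_filter
  -- the data of the move
  have hp : ∀ x (hx : x ∈ s), F.t1_p c (F.cU g0 x) (F.t1_exp ((hmem x).1 hx).2.2) ∈ F.cU g0 x ∧
      c ⬝ᵥ F.ty (F.t1_p c (F.cU g0 x) (F.t1_exp ((hmem x).1 hx).2.2)) ≠ 0 :=
    fun x hx => (F.t1_exp ((hmem x).1 hx).2.2).choose_spec
  let pp : ∀ x, x ∈ s → F.P := fun x hx =>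
    F.t1_p c (F.cU g0 x) (F.t1_exp ((hmem x).1 hx).2.2)
  have hpp : ∀ x hx, pp x hx ∈ F.cU g0 x ∧ c ⬝ᵥ F.ty (pp x hx) ≠ 0 := hp
  let gg : ∀ x, x ∈ s → Ext D := fun x hx => (F.t1_exg (hpp x hx).1).choose
  have hgg : ∀ x hx, IsConj g0 (gg x hx) ∧ pp x hx ∈ x (gg x hx) := fun x hx =>
    (F.t1_exg (hpp x hx).1).choose_spec
  let up : Ext D → Ext D := fun g => ⟨g.v, g.z + D.B g0.v w0⟩
  have hup : ∀ g, up (up g) = g := by
    intro g
    apply Ext.ext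
    · rfl
    · show g.z + D.B g0.v w0 + D.B g0.v w0 = g.z
      rw [add_assoc, Ext.two_Z, add_zero]
  have hupne : ∀ g, g ≠ up g := by
    intro g h
    have h2 : g.z = g.z + D.B g0.v w0 := congrArg Ext.z h
    exact hz (left_eq_add.1 h2)
  let T : ∀ x, x ∈ s → (Ext D → Finset F.P) := fun x hx =>
    F.mv x (gg x hx) (up (gg x hx)) (pp x hx)
  have hfac : ∀ x (hx : x ∈ s), F.Dj x ∧ IsConj g0 (up (gg x hx)) ∧ w.wt (gg x hx) = 1 ∧
      w.wt (up (gg x hx)) = 1 ∧ gg x hx ≠ 1 ∧ up (gg x hx) ≠ 1 := by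
    intro x hx
    have hc := (hgg x hx).1
    have hc' := t1_move w0 hc
    exact ⟨((hmem x).1 hx).2.1.2.1, hc', t1_wt w h1 hg hc, t1_wt w h1 hg hc', t1_ne_one h1 hc,
      t1_ne_one h1 hc'⟩
  have hTcU : ∀ x hx, F.cU g0 (T x hx) = F.cU g0 x := fun x hx =>
    t1_cU (hupne _) (hgg x hx).1 (hfac x hx).2.1 (hgg x hx).2 (hfac x hx).1
  have hTmV : ∀ x hx, F.mV (T x hx) = F.mV x := fun x hx =>
    t1_mV (hupne _) rfl (hgg x hx).2 (hfac x hx).1
  have hTs : ∀ x hx, T x hx ∈ s := by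
    intro x hx
    obtain ⟨hb, hC, hP⟩ := (hmem x).1 hx
    obtain ⟨f1, f2, f3, f4, f5, f6⟩ := hfac x hx
    refine (hmem _).2 ⟨t1_bx w (hupne _) (hgg x hx).2 f3 f4 hC hb,
      t1_Cf w (hupne _) rfl (hgg x hx).2 f3 f4 f5 f6 hC, ?_⟩
    rw [F.t1_Pc (hTcU x hx)]
    exact hP
  refine Finset.sum_involution T ?_ ?_ hTs ?_
  · intro x hx
    obtain ⟨hb, hC, hP⟩ := (hmem x).1 hx
    rw [F.t1_ofT θ (hTmV x hx)]
    by_cases h0 : F.ofT θ a x = 0
    · rw [h0]; ring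
    · have h2 := hε.mv a x hC.1 hC.2.1 hC.2.2.2 h0 (gg x hx) (pp x hx) (hgg x hx).1 (hgg x hx).2
      have h3 : (sg (c ⬝ᵥ F.ty (pp x hx)) : ℤ) = -1 := by
        unfold sg
        rw [if_neg (hpp x hx).2]
      rw [h3] at h2
      have h4 : ε a (T x hx) = ((-1 : ℤ) : ℝ) * ε a x := h2
      rw [h4]
      push_cast
      ring
  · intro x hx _ h
    have h2 : pp x hx ∈ T x hx (gg x hx) := by
      rw [h]; exact (hgg x hx).2
    rcases (t1_mv_mem (hupne _) (hgg x hx).2 (hfac x hx).1 _ _).1 h2 with h3 | h3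
    · exact h3.1 rfl
    · exact hupne _ h3.2
  · intro x hx
    have hx' := hTs x hx
    obtain ⟨f1, f2, f3, f4, f5, f6⟩ := hfac x hx
    have e1 : pp (T x hx) hx' = pp x hx := F.t1_p_congr c (hTcU x hx) _ _
    have h2 : pp x hx ∈ T x hx (up (gg x hx)) :=
      (t1_mv_mem (hupne _) (hgg x hx).2 f1 _ _).2 (Or.inr ⟨rfl, rfl⟩)
    have e2 : gg (T x hx) hx' = up (gg x hx) := by
      by_contra hne
      have h3 := (hgg (T x hx) hx').2
      rw [e1] at h3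
      exact Finset.disjoint_left.1 ((hfac (T x hx) hx').1 _ _ hne) h3 h2
    show F.mv (T x hx) (gg (T x hx) hx') (up (gg (T x hx) hx')) (pp (T x hx) hx') = x
    rw [e1, e2, hup]
    exact t1_inv (hupne _) (hgg x hx).2 f1

open Classical in
theorem Sx_pc (w : Wt D) (θ : (Fin F.m → D.V) → (D.V → F.T) → Finset D.V → ℝ) (g0 : Ext D)
    (c : F.T) (hc : c ≠ 0) (Y : ℝ) :
    F.Sx w (F.Xi g0 c) θ Y =
      F.Sg w (fun a x => if F.Pc g0 c x then 2 ^ (F.cU g0 x).card * F.ofT θ a x else 0) Y := by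
  unfold Sx Sg
  refine Finset.sum_congr rfl fun a _ => Finset.sum_congr rfl fun x _ => ?_
  by_cases hC : F.Cf w Y a x
  · have hC' : x 1 = ∅ ∧ F.Dj x ∧ (∏ g, (F.nm (x g) : ℝ) ^ w.wt g) ≤ Y ∧
      ∀ g, ∀ p ∈ x g, F.okp a (F.mV x) g.v p := hC
    rw [if_pos hC', if_pos hC]
    have h1 : ∀ g, ∀ p ∈ x g, ((∑ ξ ∈ F.Xi g0 c g, sg (ξ ⬝ᵥ F.ty p) : ℤ) : ℝ) =
        if IsConj g0 g then (if c ⬝ᵥ F.ty p = 0 then 2 else 0) else 1 := by
      intro g p _
      unfold Xi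
      by_cases hg : IsConj g0 g
      · rw [if_pos hg, if_pos hg, Finset.sum_pair (Ne.symm hc), zero_dotProduct]
        unfold sg
        rw [if_pos rfl]
        by_cases h0 : c ⬝ᵥ F.ty p = 0
        · rw [if_pos h0, if_pos h0]; norm_num
        · rw [if_neg h0, if_neg h0]; norm_num
      · rw [if_neg hg, if_neg hg, Finset.sum_singleton, zero_dotProduct]
        unfold sg
        rw [if_pos rfl]; norm_num
    have h2 : (∏ g, ∏ p ∈ x g, ((∑ ξ ∈ F.Xi g0 c g, sg (ξ ⬝ᵥ F.ty p) : ℤ) : ℝ)) =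
        ∏ p ∈ F.cU g0 x, (if c ⬝ᵥ F.ty p = 0 then (2 : ℝ) else 0) := by
      rw [Finset.prod_congr rfl fun g _ => Finset.prod_congr rfl (h1 g)]
      unfold cU
      rw [Finset.prod_biUnion (fun i _ j _ hij => hC'.2.1 i j hij), Finset.prod_filter]
      refine Finset.prod_congr rfl fun g _ => ?_
      by_cases hg : IsConj g0 g
      · simp only [if_pos hg]
      · simp only [if_neg hg, Finset.prod_const_one]
    rw [h2]
    beta_reduce
    by_cases hP : F.Pc g0 c x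
    · rw [if_pos hP, Finset.prod_congr rfl (fun p hp => if_pos (hP p hp)), Finset.prod_const]
      rfl
    · rw [if_neg hP]
      obtain ⟨p, hp, hp'⟩ := F.t1_exp hP
      rw [Finset.prod_eq_zero hp (if_neg hp'), zero_mul]
  · have hC' : ¬ (x 1 = ∅ ∧ F.Dj x ∧ (∏ g, (F.nm (x g) : ℝ) ^ w.wt g) ≤ Y ∧
      ∀ g, ∀ p ∈ x g, F.okp a (F.mV x) g.v p) := hC
    rw [if_neg hC', if_neg hC]

theorem two_le_b (w : Wt D) (hM : MSp w) (g0 : Ext D) (w0 : D.V) (hz : D.B g0.v w0 ≠ 0) :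
    2 ≤ w.b := by
  classical
  by_contra hb
  have hb1 : w.b ≤ 1 := by omega
  obtain ⟨g1, hg1, hm1⟩ := w.att
  have hfin : Finite {c : ConjClasses (Ext D) //
      ∃ g : Ext D, ConjClasses.mk g = c ∧ g ≠ 1 ∧ w.ind g = w.m} := Subtype.finite
  have hsub : Subsingleton {c : ConjClasses (Ext D) //
      ∃ g : Ext D, ConjClasses.mk g = c ∧ g ≠ 1 ∧ w.ind g = w.m} := by
    rw [← Finite.card_le_one_iff_subsingleton]
    exact hb1
  have hv : ∀ g : Ext D, g ≠ 1 → w.ind g = w.m → g.v = g1.v := by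
    intro g h2 h3
    have h4 := hsub.elim ⟨ConjClasses.mk g1, g1, rfl, hg1, hm1⟩ ⟨ConjClasses.mk g, g, rfl, h2, h3⟩
    have h5 : ConjClasses.mk g1 = ConjClasses.mk g := congrArg Subtype.val h4
    exact t1_conj_v (ConjClasses.mk_eq_mk_iff_isConj.1 h5)
  have hspan : Submodule.span (ZMod 2) {g1.v} = ⊤ := by
    rw [← top_le_iff, ← hM]
    refine Submodule.span_mono ?_
    rintro v ⟨g, h2, h3, h4⟩
    rw [← h4, hv g h2 h3]
    exact Set.mem_singleton _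
  have h2 : g0.v ∈ Submodule.span (ZMod 2) {g1.v} := by rw [hspan]; trivial
  have h3 : w0 ∈ Submodule.span (ZMod 2) {g1.v} := by rw [hspan]; trivial
  obtain ⟨a, ha⟩ := Submodule.mem_span_singleton.1 h2
  obtain ⟨b, hb⟩ := Submodule.mem_span_singleton.1 h3
  apply hz
  rw [← ha, ← hb]
  unfold Dt.B
  simp only [map_smul, LinearMap.smul_apply, smul_smul]
  rw [mul_comm b a]
  exact Ext.two_Z _

end Sys

end Pool.Agent.H98.MF
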