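import Pool.Agent.H98.MF.ExistsInv5
import Pool.Agent.H98.MF.MainAlg4
import Pool.Agent.H98.MF.Switch1

/-!
# Project MK5 (MP_a3214d), row MF-U5: the master formula with units and unramified classes
-/

set_option autoImplicit false

open scoped BigOperators Pointwise
open NumberField IsDedekindDomain Filter

namespace Pool.Agent.H98.MF

open Pool.Agent.H98.MK (sg)
open Pool.Agent.H98.ML (Dt Ext Wt norb hind)

namespace MA5

theorem Sg_congr (S : Sys) {D : Dt} (w : Wt D) (Y : ℝ)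
    {Θ Θ' : (Fin S.m → D.V) → (Ext D → Finset S.P) → ℝ}
    (h : ∀ a x, S.Cf w Y a x → Θ a x = Θ' a x) : S.Sg w Θ Y = S.Sg w Θ' Y := by
  classical
  unfold Sys.Sg
  refine Finset.sum_congr rfl fun a _ => Finset.sum_congr rfl fun x _ => ?_
  by_cases hc : S.Cf w Y a x
  · rw [if_pos hc, if_pos hc, h a x hc]
  · rw [if_neg hc, if_neg hc]

theorem good_iff {k : Type} [Field k] [NumberField k] (F : Frm k) {D : Dt}
    {a : Fin F.sys.m → D.V} {x : Ext D → Finset F.sys.P}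
    (h1 : x 1 = ∅) (h2 : F.sys.Dj x) (h3 : ∀ g, ∀ p ∈ x g, F.sys.okp a (F.sys.mV x) g.v p) :
    F.Good D a x ↔ F.sys.Span a (Finset.univ.filter fun v => (F.sys.mV x v).Nonempty) ∧
      F.solS D a (fun v => F.sys.tys (F.sys.mV x v)) := by
  rw [← F.span_conf a x h1 h2]
  constructor
  · rintro ⟨_, _, _, h4, h5⟩
    exact ⟨h4, h5⟩
  · rintro ⟨h4, h5⟩
    exact ⟨h1, h2, h3, h4, h5⟩

open Classical in
theorem main_alg5_of {k : Type} [Field k] [NumberField k] (F : Frm k) (R : Rx k) (D : Dt)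
    (H0 : Subgroup (Ext D)) (w : Wt D) (hw : w.ind = hind H0) (hh : F.M10Hyp R D H0)
    (inv : ∃ (nf : (F.I →₀ D.V) → Gm k → D.Z) (Q : Finset ℕ)
      (Nt : ℕ → (Fin F.sys.m → D.V) → (D.V → F.sys.T) → ℕ),
      (∀ q ∈ Q, 0 < q) ∧ (∃ q ∈ Q, 1 ≤ Nt q 0 0) ∧
      (∀ x, F.Sol D x → F.IsNormal R D x (nf x)) ∧
      ∀ a y, F.Good D a y → ∀ h : F.IsNormal R D (F.xOf a y) (nf (F.xOf a y)),
        (∀ b, F.qS R H0 (Frm.lh (h.toIsLift.add (F.zOf b y))) ∈ Q) ∧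
        ∀ q ∈ Q, Nat.card {b : Fin F.sys.m → D.Z //
          F.qS R H0 (Frm.lh (h.toIsLift.add (F.zOf b y))) = q} =
            Nt q a (fun v => F.sys.tys (F.sys.mV y v))) :
    ∃ (Q : Finset ℕ) (Nt : ℕ → (Fin F.sys.m → D.V) → (D.V → F.sys.T) → ℕ),
      (∀ q ∈ Q, 0 < q) ∧ (∃ q ∈ Q, 1 ≤ Nt q 0 0) ∧
      ∀ X : ℝ, 1 ≤ X →
        (Nat.card {ρ : Gm k →* Ext D // Function.Surjective ρ ∧ IsLocallyConstant ρ ∧
          (rdN (fld k (H0.comap ρ)) : ℝ) ≤ X} : ℝ) =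
        ∑ q ∈ Q, F.sys.Sg w (fun a y => if F.Good D a y then
          (Nt q a (fun v => F.sys.tys (F.sys.mV y v)) : ℝ) else 0)
            ((X / q) ^ (1 / w.m : ℝ)) := by
  obtain ⟨nf, Q, Nt, hQ, hpos, hnf, hmain⟩ := inv
  refine ⟨Q, Nt, hQ, hpos, fun X hX => ?_⟩
  have hqf : ∃ qf : (Fin F.sys.m → D.V) → (Fin F.sys.m → D.Z) → (Ext D → Finset F.sys.P) → ℕ,
      ∀ a b y (h : F.Good D a y), qf a b y =
        F.qS R H0 (Frm.lh ((hnf _ (F.m10_sol hh h)).toIsLift.add (F.zOf b y))) := by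
    refine ⟨fun a b y => if h : F.Good D a y then
      F.qS R H0 (Frm.lh ((hnf _ (F.m10_sol hh h)).toIsLift.add (F.zOf b y))) else 0,
      fun a b y h => ?_⟩
    simp only [dif_pos h]
  obtain ⟨qf, hqf⟩ := hqf
  have hcount := MA4.count F.sys H0 w hw (fun a y => F.Good D a y)
    (fun a y h => ⟨h.1, h.2.1, h.2.2.1⟩) qf Q hQ
    (fun q a y => Nt q a (fun v => F.sys.tys (F.sys.mV y v)))
    (fun a y h b => by
      rw [hqf a b y h]
      exact (hmain a y h (hnf _ (F.m10_sol hh h))).1 b)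
    (fun a y h q hq => by
      rw [← (hmain a y h (hnf _ (F.m10_sol hh h))).2 q hq]
      refine Nat.card_congr (Equiv.subtypeEquivRight fun b => ?_)
      rw [hqf a b y h]) X hX
  rw [← hcount]
  congr 1
  symm
  have hrd : ∀ a b y (h : F.Good D a y),
      rdN (fld k (H0.comap (Frm.lh ((hnf _ (F.m10_sol hh h)).toIsLift.add (F.zOf b y))))) =
        qf a b y * ∏ g, F.sys.nm (y g) ^ hind H0 g := by
    intro a b y h
    rw [hqf a b y h]
    exact hh.rd (hnf _ (F.m10_sol hh h)) a b y h.1 h.2.1 rfl h.2.2.2.1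
  refine Nat.card_congr (Equiv.ofBijective
    (fun t => ⟨Frm.lh ((hnf _ (F.m10_sol hh t.2.1)).toIsLift.add (F.zOf t.1.1.2 t.1.2)),
      (hh.lh_surj _).2 t.2.1.2.2.2.1, hh.lh_lc _, ?_⟩) ⟨?_, ?_⟩)
  · rw [hrd t.1.1.1 t.1.1.2 t.1.2 t.2.1]
    exact t.2.2
  · rintro ⟨⟨⟨a, b⟩, y⟩, hg, hX1⟩ ⟨⟨⟨a', b'⟩, y'⟩, hg', hX1'⟩ he
    have h1 := congrArg Subtype.val he
    simp only at h1 hg hg'
    obtain ⟨h2, h3⟩ := hh.lh_inj _ _ h1
    have h4 : F.par (F.zOf b y) = F.par (F.zOf b' y') := by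
      funext σ
      have h5 : nf (F.xOf a y) σ + F.par (F.zOf b y) σ =
          nf (F.xOf a' y') σ + F.par (F.zOf b' y') σ := congrFun h3 σ
      rw [← h2] at h5
      exact add_left_cancel h5
    have h5 := hh.par_inj _ _ h4
    obtain ⟨u, -, hu⟩ := F.conf_bij (F.xOf a y) (F.zOf b y)
    have h6 := hu ((a, b), y) ⟨hg.1, hg.2.1, rfl, rfl⟩
    have h7 := hu ((a', b'), y') ⟨hg'.1, hg'.2.1, h2, h5⟩
    apply Subtype.ext
    exact h6.trans h7.symm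
  · rintro ⟨ρ, hsur, hlc, hX1⟩
    obtain ⟨x, f, h, rfl⟩ := hh.hom_param ρ hlc
    have hs := hh.nec h
    obtain ⟨z, hfz⟩ := hh.lift_diff (hnf x hs).toIsLift h
    have hf : f = fun σ => nf x σ + F.par z σ := funext hfz
    subst hf
    have hsp := (hh.lh_surj h).1 hsur
    obtain ⟨⟨⟨a, b⟩, y⟩, ⟨h1, h2, h3, h4⟩, -⟩ := F.conf_bij x z
    simp only at h1 h2 h3 h4
    subst h3 h4
    have hg : F.Good D a y := F.m10_good h1 h2 hs hsp
    refine ⟨⟨((a, b), y), hg, ?_⟩, rfl⟩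
    have h5 := hrd a b y hg
    rw [← h5]
    exact hX1

end MA5

section

variable {k : Type} [Field k] [NumberField k]

open Classical in
/-- the master formula when every class is the class of a unit up to unramified classes -/
theorem main_alg5 (F : Frm k) (U : Ur k) (hU : UnU U F) (R : Rx k) (hR : RxU U R)
    (hK : KIn k) (hL : LIn k) (hH : HPSt k) (D : Dt)
    (H0 : Subgroup (Ext D)) (w : Wt D) (hw : w.ind = hind H0) :
    ∃ (Q : Finset ℕ) (Nt : ℕ → (Fin F.sys.m → D.V) → (D.V → F.sys.T) → ℕ),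
      (∀ q ∈ Q, 0 < q) ∧ (∃ q ∈ Q, 1 ≤ Nt q 0 0) ∧
      ∀ X : ℝ, 1 ≤ X →
        (Nat.card {ρ : Gm k →* Ext D // Function.Surjective ρ ∧ IsLocallyConstant ρ ∧
          (rdN (fld k (H0.comap ρ)) : ℝ) ≤ X} : ℝ) =
        ∑ q ∈ Q, F.sys.S w (fun a δ P => if F.sys.Span a P ∧ F.solS D a δ then
          (Nt q a δ : ℝ) else 0) ((X / q) ^ (1 / w.m : ℝ)) := by
  obtain ⟨Q, Nt, hQ, hpos, hmain⟩ := MA5.main_alg5_of F R D H0 w hw
    (F.m10_hyp R hK hL D H0 (F.exists_inv R hK hL hH D H0))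
    (exists_inv5 F U hU R hR hK hL hH D H0)
  refine ⟨Q, Nt, hQ, hpos, fun X hX => ?_⟩
  rw [hmain X hX]
  refine Finset.sum_congr rfl fun q _ => ?_
  rw [Sys.S_eq_Sg]
  refine MA5.Sg_congr F.sys w _ fun a x hc => ?_
  have hg := MA5.good_iff F hc.1 hc.2.1 hc.2.2.2
  unfold Sys.ofT
  by_cases h : F.Good D a x
  · rw [if_pos h]
    exact (if_pos (hg.1 h)).symm
  · rw [if_neg h]
    exact (if_neg (fun h1 => h (hg.2 h1))).symm

end

end Pool.Agent.H98.MF
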