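import Pool.Agent.H98.MF.MainDat5Of
import Pool.Agent.H98.MF.MainAlg5

/-!
# Project MK5, row U6: the count for the data over a field with odd narrow class number
-/

set_option autoImplicit false

open scoped BigOperators Pointwise Topology
open NumberField IsDedekindDomain Filter

namespace Pool.Agent.H98.MF

open Pool.Agent.H98.MK (sg)
open Pool.Agent.H98.ML (Dt Ext Wt norb hind)

section

variable {k : Type} [Field k] [NumberField k]

/-- the count for the data over a field with odd narrow class number -/
theorem main_dat5 (F : Frm k) (U : Ur k) (hU : UnU U F) (R : Rx k) (hR : RxU U R) (hK : KIn k)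
    (hL : LIn k) (hH : HPSt k) (D : Dt) (H0 : Subgroup (Ext D)) (w : Wt D)
    (hw : w.ind = hind H0) :
    ∃ C : ℝ, 0 < C ∧ Tendsto (fun X : ℝ =>
      (Nat.card {ρ : Gm k →* Ext D // Function.Surjective ρ ∧ IsLocallyConstant ρ ∧
        (rdN (fld k (H0.comap ρ)) : ℝ) ≤ X} : ℝ) /
          (X ^ (1 / w.m : ℝ) * Real.log X ^ (w.b - 1))) atTop (nhds C) :=
  F.main_dat5_of H0 w (main_alg5 F U hU R hR hK hL hH D H0 w hw)

end

end Pool.Agent.H98.MF
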