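import Pool.Agent.H98.MF.MDefs
import Pool.Agent.H98.MF.C.Stm

/-!
# Project MK5 (MP_a3214d): fields with odd class number whose totally positive units are squares
-/

set_option autoImplicit false

open scoped BigOperators Pointwise
open NumberField IsDedekindDomain

namespace Pool.Agent.H98.MF

open Pool.Agent.H98.ML (Dt Ext Wt norb hind)

section

variable (k : Type) [Field k] [NumberField k]

/-- the class of the unramified quadratic extension at every prime -/
structure Ur where
  /-- the element -/
  ur : HeightOneSpectrum (𝓞 k) → kˣ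
  pair : ∀ (P : HeightOneSpectrum (𝓞 k)) (b : kˣ),
    hs P (ur P : k) (b : k) = ((ord P (b : k) : ℤ) : ZMod 2)

variable {k}

/-- exponents depend only on the restriction to the elements of `Dec P` acting trivially on the
unramified quadratic extension -/
def RxU (U : Ur k) (R : Rx k) : Prop :=
  ∀ (G : Type) [Group G] [Finite G] (ρ ρ' : Gm k →* G) (H : Subgroup G),
    IsLocallyConstant ρ → IsLocallyConstant ρ' → Function.Surjective ρ →
    Function.Surjective ρ' → ∀ P, (∀ σ ∈ Dec P, chi (U.ur P : k) σ = 0 → ρ σ = ρ' σ) →
    R.rex P (H.comap ρ) = R.rex P (H.comap ρ')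

/-- every class is the class of a unit up to classes unramified at the primes of `S` -/
def UnU (U : Ur k) (F : Frm k) : Prop :=
  ∀ x : kˣ, ∃ c : Fin F.sys.m → ZMod 2, ∀ P ∈ F.S, ∀ σ ∈ Dec P, chi (U.ur P : k) σ = 0 →
    chi (x : k) σ = ∑ j, c j * chi (F.u j : k) σ

end

end Pool.Agent.H98.MF
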