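import Pool.Agent.H98.MF.UDefs
import Pool.Agent.H98.MF.C.C2
import Pool.Agent.H98.MF.L.KIn
import Pool.Agent.H98.MF.ChiM

/-!
# Project MK5 (MP_a3214d): units and unramified classes (row MF-U4)
-/

set_option autoImplicit false

open scoped BigOperators Pointwise
open NumberField IsDedekindDomain Filter

namespace Pool.Agent.H98.MF

open Pool.Agent.H98.MK (sg)
open Pool.Agent.H98.ML (Dt Ext Wt norb hind)

namespace UnUA

open B M6a

section

variable {k : Type} [Field k] [NumberField k]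

/-! ### A power of a prime with exponent the class number is principal -/

theorem gen_pow (P : HeightOneSpectrum (𝓞 k)) : ∃ a : kˣ,
    ord P (a : k) = (NumberField.classNumber k : ℕ) ∧
    ∀ Q : HeightOneSpectrum (𝓞 k), Q ≠ P → ord Q (a : k) = 0 := by
  have hP : P.asIdeal ∈ nonZeroDivisors (Ideal (𝓞 k)) := mem_nonZeroDivisors_of_ne_zero P.ne_bot
  set n := NumberField.classNumber k with hn
  have hcard : n = Nat.card (ClassGroup (𝓞 k)) := by
    rw [hn, Nat.card_eq_fintype_card]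
    rfl
  have h1 : (P.asIdeal ^ n).IsPrincipal := by
    rw [← ClassGroup.mk0_eq_one_iff (pow_mem hP n)]
    have h2 : ClassGroup.mk0 (⟨P.asIdeal ^ n, pow_mem hP n⟩ : nonZeroDivisors (Ideal (𝓞 k))) =
        ClassGroup.mk0 ⟨P.asIdeal, hP⟩ ^ n := by
      rw [← map_pow]
      rfl
    rw [h2, hcard]
    exact pow_card_eq_one'
  obtain ⟨x, hx⟩ := h1.principal
  rw [Ideal.submodule_span_eq] at hx
  have hx0 : x ≠ 0 := by
    rintro rfl
    rw [Ideal.span_singleton_zero] at hx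
    exact pow_ne_zero n P.ne_bot hx
  have hxk : algebraMap (𝓞 k) k x ≠ 0 := by
    intro h
    exact hx0 (FaithfulSMul.algebraMap_injective (𝓞 k) k (by rw [h, map_zero]))
  have ho : ∀ Q : HeightOneSpectrum (𝓞 k), ord Q (algebraMap (𝓞 k) k x) =
      n * FractionalIdeal.count k Q (P.asIdeal : FractionalIdeal (nonZeroDivisors (𝓞 k)) k) := by
    intro Q
    unfold ord
    rw [← FractionalIdeal.coeIdeal_span_singleton, ← hx, FractionalIdeal.coeIdeal_pow,
      FractionalIdeal.count_pow]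
  refine ⟨Units.mk0 _ hxk, ?_, fun Q hQ => ?_⟩
  · rw [Units.val_mk0, ho, FractionalIdeal.count_self, mul_one]
  · rw [Units.val_mk0, ho, FractionalIdeal.count_maximal_coprime k Q (Ne.symm hQ), mul_zero]

/-- an element with even exponents is a unit times a square, if the class number is odd -/
theorem even_ord (hcl : Odd (NumberField.classNumber k)) (a : kˣ)
    (h : ∀ Q : HeightOneSpectrum (𝓞 k), Even (ord Q (a : k))) :
    ∃ e ∈ US (∅ : Finset (HeightOneSpectrum (𝓞 k))), ∃ t : kˣ, a = e * t ^ 2 := by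
  classical
  choose g hg hg' using gen_pow (k := k)
  set T := (B.ord_finite (a : k) a.ne_zero).toFinset with hT
  set n := NumberField.classNumber k with hn
  set s : kˣ := ∏ Q ∈ T, g Q ^ (ord Q (a : k) / 2) with hs
  have hord : ∀ R : HeightOneSpectrum (𝓞 k), 2 * ord R (s : k) = n * ord R (a : k) := by
    intro R
    have h0 : ∀ y : kˣ, ∀ m : ℤ, ord R ((y ^ m : kˣ) : k) = m * ord R (y : k) := fun y m => by
      rw [Units.val_zpow_eq_zpow_val, ord_zpow]
    rw [hs, ord_prod]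
    simp only [h0]
    obtain ⟨c, hc⟩ := h R
    by_cases hR : R ∈ T
    · rw [Finset.sum_eq_single R]
      · rw [hg, hc]
        have : (c + c) / 2 = c := by omega
        rw [this]
        ring
      · intro Q _ hne
        rw [hg' Q R (Ne.symm hne), mul_zero]
      · intro h'
        exact absurd hR h'
    · have hR0 : ord R (a : k) = 0 := by
        by_contra hne
        exact hR ((Set.Finite.mem_toFinset _).2 hne)
      rw [Finset.sum_eq_zero, hR0, mul_zero, mul_zero]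
      intro Q hQ
      rw [hg' Q R (fun h' => hR (h' ▸ hQ)), mul_zero]
  obtain ⟨m, hm⟩ := hcl
  refine ⟨a ^ n * (s ^ 2)⁻¹, mem_US.2 fun R _ => ?_, s * (a ^ m)⁻¹, ?_⟩
  · rw [Units.val_mul, ord_mul R (Units.ne_zero _) (Units.ne_zero _), Units.val_inv_eq_inv_val,
      ord_inv, Units.val_pow_eq_pow_val, Units.val_pow_eq_pow_val, ord_pow, ord_pow]
    have := hord R
    push_cast
    linarith
  · have h1 : a ^ n = a * (a ^ m) ^ 2 := by
      rw [hm, pow_succ, mul_comm, mul_comm 2 m, pow_mul]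
    rw [h1, mul_pow, inv_pow]
    group

/-! ### The subgroup of the classes unramified at the primes of `S` -/

variable (U : Ur k) (F : Frm k)

/-- unramified at the primes of `S` -/
def A : Subgroup kˣ := ⨅ P ∈ F.S, (LS (Sum.inl P : Pl k) ⊔ Subgroup.zpowers (U.ur P))

theorem mem_A {x : kˣ} : x ∈ A U F ↔
    ∀ P ∈ F.S, x ∈ LS (Sum.inl P : Pl k) ⊔ Subgroup.zpowers (U.ur P) := by
  unfold A
  simp only [Subgroup.mem_iInf]

variable {U F}

theorem hv_LS (hL : LIn k) (v : Pl k) (a x : kˣ) (hx : x ∈ LS v) :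
    hv v (a : k) (x : k) = 0 := by
  rw [hL.symm]
  exact (hL.nd v x).2 ((hL.memLS v x).1 hx) a

theorem chi_LS {P : HeightOneSpectrum (𝓞 k)} {x : kˣ} (hL : LIn k)
    (hx : x ∈ LS (Sum.inl P : Pl k)) {σ : Gm k} (hσ : σ ∈ Dec P) : chi (x : k) σ = 0 :=
  ((kin k).one (Sum.inl P) x).2 ((hL.memLS _ x).1 hx) σ hσ

theorem zero_of_add {z : ZMod 2} : z + z = 0 := by
  revert z
  decide

theorem chi_zpow (a : kˣ) (n : ℤ) (σ : Gm k) (h : chi (a : k) σ = 0) :
    chi ((a ^ n : kˣ) : k) σ = 0 := by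
  cases n with
  | ofNat n =>
    rw [Int.ofNat_eq_natCast, zpow_natCast, M6a.chi_pow, h, mul_zero]
  | negSucc n =>
    have h1 := M6a.chi_mul (a ^ (n + 1)) (a ^ (Int.negSucc n)) σ
    rw [zpow_negSucc, mul_inv_cancel, M6a.chi_one, M6a.chi_pow, h, mul_zero, zero_add] at h1
    rw [zpow_negSucc]
    exact h1.symm

theorem chi_A (hL : LIn k) {x : kˣ} (hx : x ∈ A U F) {P : HeightOneSpectrum (𝓞 k)}
    (hP : P ∈ F.S) {σ : Gm k} (hσ : σ ∈ Dec P) (hu : chi (U.ur P : k) σ = 0) :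
    chi (x : k) σ = 0 := by
  obtain ⟨l, hl, z, hz, rfl⟩ := Subgroup.mem_sup.1 ((mem_A U F).1 hx P hP)
  obtain ⟨n, rfl⟩ := Subgroup.mem_zpowers_iff.1 hz
  rw [M6a.chi_mul, chi_LS hL hl hσ, zero_add]
  exact chi_zpow _ _ _ hu

theorem exists_char {G : Type} [CommGroup G] (hG : ∀ g : G, g ^ 2 = 1) {x : G} (hx : x ≠ 1) :
    ∃ ψ : G →* Multiplicative (ZMod 2), ψ x ≠ 1 := by
  letI : Module (ZMod 2) (Additive G) := AddCommGroup.zmodModule (fun v => hG (Additive.toMul v))
  have h4 := mt (Module.forall_dual_apply_eq_zero_iff (ZMod 2) (Additive.ofMul x)).1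
    (fun h3 => hx h3)
  push Not at h4
  obtain ⟨f, hf⟩ := h4
  refine ⟨AddMonoidHom.toMultiplicativeRight f.toAddMonoidHom, fun h5 => hf h5⟩

/-- a subgroup which contains the squares is the intersection of kernels -/
theorem exists_psi (H : Subgroup kˣ) (hH : ∀ x : kˣ, x ^ 2 ∈ H) {x : kˣ} (hx : x ∉ H) :
    ∃ ψ : kˣ →* Multiplicative (ZMod 2), (∀ y ∈ H, ψ y = 1) ∧ ψ x ≠ 1 := by
  obtain ⟨ψ, hψ⟩ := exists_char (G := kˣ ⧸ H) (fun g => by
    obtain ⟨y, rfl⟩ := QuotientGroup.mk_surjective g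
    rw [← QuotientGroup.mk_pow, QuotientGroup.eq_one_iff]
    exact hH y) (x := QuotientGroup.mk x) (fun h => hx ((QuotientGroup.eq_one_iff x).1 h))
  refine ⟨ψ.comp (QuotientGroup.mk' H), fun y hy => ?_, hψ⟩
  rw [MonoidHom.comp_apply, QuotientGroup.mk'_apply, (QuotientGroup.eq_one_iff y).2 hy, map_one]

/-- everything is an `S`-unit times a class unramified at `S` -/
theorem sup_top (hL : LIn k) (hD : DuSt k) (hcl : Odd (NumberField.classNumber k))
    (hu : ∀ ε : (𝓞 k)ˣ, (∀ φ : k →+* ℝ, 0 < φ ((ε : 𝓞 k) : k)) → IsSquare ε)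
    (U : Ur k) (F : Frm k) (x : kˣ) : x ∈ US F.S ⊔ A U F := by
  classical
  by_contra hx
  have hLA : ∀ y : kˣ, (∀ P ∈ F.S, y ∈ LS (Sum.inl P : Pl k) ∨ y / U.ur P ∈ LS (Sum.inl P : Pl k)) →
      y ∈ A U F := by
    intro y hy
    refine (mem_A U F).2 fun P hP => ?_
    rcases hy P hP with h | h
    · exact Subgroup.mem_sup_left h
    · have h1 := Subgroup.mul_mem_sup h (Subgroup.mem_zpowers (U.ur P))
      rwa [div_mul_cancel] at h1
  obtain ⟨ψ, hψ, hψx⟩ := exists_psi (US F.S ⊔ A U F) (fun y => Subgroup.mem_sup_right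
    (hLA _ fun P _ => Or.inl (sq_mem_LS _ y))) hx
  have hψA : ∀ y ∈ A U F, ψ y = 1 := fun y hy => hψ y (Subgroup.mem_sup_right hy)
  have hF : Fnl F.S ψ := ⟨fun y hy => hψ y (Subgroup.mem_sup_left hy), fun y hy =>
    hψA y (hLA y fun P hP => Or.inl (mem_KS.1 hy _ (inl_mem_pls.2 hP)))⟩
  obtain ⟨a, haU, ha⟩ := hD F.S F.adm ψ hF
  -- the exponents at the primes of `S`
  have hS : ∀ P ∈ F.S, Even (ord P (a : k)) := by
    intro P hP
    obtain ⟨y, hy⟩ := hL.weak (pls F.S) (fun v => if v = Sum.inl P then U.ur P else 1)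
    have hyP : y / U.ur P ∈ LS (Sum.inl P : Pl k) := by
      have h1 := hy _ (inl_mem_pls.2 hP)
      rwa [if_pos rfl] at h1
    have hyv : ∀ v ∈ pls F.S, v ≠ Sum.inl P → y ∈ LS v := by
      intro v hv hne
      have h1 := hy v hv
      rwa [if_neg hne, div_one] at h1
    have hyA : y ∈ A U F := hLA y fun Q hQ => by
      by_cases h : Q = P
      · rw [h]
        exact Or.inr hyP
      · exact Or.inl (hyv _ (inl_mem_pls.2 hQ) (fun h' => h (Sum.inl_injective h')))
    have h1 := ha y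
    have h2 : val2 ψ y = 0 := by
      unfold val2
      rw [hψA y hyA]
      rfl
    rw [h2, Finset.sum_eq_single (Sum.inl P : Pl k)] at h1
    · have h3 : y = U.ur P * (y / U.ur P) := by rw [mul_div_cancel]
      rw [h3, hL.mulR, hv_LS hL _ _ _ hyP, add_zero, hL.symm] at h1
      have h4 : hv (Sum.inl P : Pl k) (U.ur P : k) (a : k) = ((ord P (a : k) : ℤ) : ZMod 2) :=
        U.pair P a
      rw [h4] at h1
      have h5 := (ZMod.intCast_zmod_eq_zero_iff_dvd (ord P (a : k)) 2).1 h1.symm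
      exact even_iff_two_dvd.2 (by exact_mod_cast h5)
    · intro v hv hne
      exact hv_LS hL v a y (hyv v hv hne)
    · intro h'
      exact absurd (inl_mem_pls.2 hP) h'
  have hall : ∀ Q : HeightOneSpectrum (𝓞 k), Even (ord Q (a : k)) := by
    intro Q
    by_cases hQ : Q ∈ F.S
    · exact hS Q hQ
    · rw [mem_US.1 haU Q hQ]
      exact Even.zero
  -- the signs
  have hpos : ∀ φ : k →+* ℝ, 0 < φ (a : k) := by
    intro φ
    obtain ⟨y, hy⟩ := hL.weak (pls F.S) (fun v => if v = Sum.inr φ then -1 else 1)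
    have hyφ : φ (y : k) < 0 := by
      have h1 := hy _ (inr_mem_pls F.S φ)
      rw [if_pos rfl] at h1
      have h2 : LocP (Sum.inr φ : Pl k) ((y / -1 : kˣ) : k) := (hL.memLS _ _).1 h1
      have h3 : 0 < φ ((y / -1 : kˣ) : k) := h2
      rw [Units.val_div_eq_div_val, Units.val_neg, Units.val_one, div_neg, div_one, map_neg] at h3
      linarith
    have hyv : ∀ v ∈ pls F.S, v ≠ Sum.inr φ → y ∈ LS v := by
      intro v hv hne
      have h1 := hy v hv
      rwa [if_neg hne, div_one] at h1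
    have hyA : y ∈ A U F := hLA y fun Q hQ =>
      Or.inl (hyv _ (inl_mem_pls.2 hQ) (fun h' => by cases h'))
    have h1 := ha y
    have h2 : val2 ψ y = 0 := by
      unfold val2
      rw [hψA y hyA]
      rfl
    rw [h2, Finset.sum_eq_single (Sum.inr φ : Pl k)] at h1
    · have h3 : hv (Sum.inr φ : Pl k) (a : k) (y : k) =
          if φ (a : k) < 0 ∧ φ (y : k) < 0 then 1 else 0 := rfl
      rw [h3] at h1
      by_contra hcon
      have h4 : φ (a : k) < 0 :=
        lt_of_le_of_ne (not_lt.1 hcon) ((map_ne_zero φ).2 a.ne_zero)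
      rw [if_pos ⟨h4, hyφ⟩] at h1
      exact zero_ne_one h1
    · intro v hv hne
      exact hv_LS hL v a y (hyv v hv hne)
    · intro h'
      exact absurd (inr_mem_pls F.S φ) h'
  -- `a` is a square
  obtain ⟨e, he, t, het⟩ := even_ord hcl a hall
  rw [c2_US_empty] at he
  obtain ⟨ε, -, hε⟩ := he
  have hεk : ((ε : 𝓞 k) : k) = (e : k) := by
    rw [← hε]
    rfl
  have hεpos : ∀ φ : k →+* ℝ, 0 < φ ((ε : 𝓞 k) : k) := by
    intro φ
    rw [hεk]
    have h1 := hpos φ
    rw [het, Units.val_mul, Units.val_pow_eq_pow_val, map_mul, map_pow] at h1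
    have h2 : φ (t : k) ≠ 0 := (map_ne_zero φ).2 t.ne_zero
    have h3 : 0 < φ (t : k) ^ 2 := by positivity
    exact (pos_iff_pos_of_mul_pos h1).2 h3
  obtain ⟨η, hη⟩ := hu ε hεpos
  set η' : kˣ := Units.map (algebraMap (𝓞 k) k : 𝓞 k →* k) η with hη'
  have ha2 : a = (η' * t) ^ 2 := by
    rw [het, mul_pow, ← hε, hη, map_mul, ← hη', pow_two η']
  have hzero : val2 ψ x = 0 := by
    rw [ha x]
    refine Finset.sum_eq_zero fun v _ => ?_
    rw [hL.symm]
    exact hv_LS hL v x a (by rw [ha2]; exact sq_mem_LS v _)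
  apply hψx
  exact hzero

end

end UnUA

section

variable {k : Type} [Field k] [NumberField k]

open B M6a in
theorem unu (hL : LIn k) (hD : DuSt k) (hcl : Odd (NumberField.classNumber k))
    (hu : ∀ ε : (𝓞 k)ˣ, (∀ φ : k →+* ℝ, 0 < φ ((ε : 𝓞 k) : k)) → IsSquare ε)
    (U : Ur k) (F : Frm k) : UnU U F := by
  intro x
  obtain ⟨y, hy, z, hz, hyz⟩ := Subgroup.mem_sup.1 (UnUA.sup_top hL hD hcl hu U F x)
  obtain ⟨c, hc⟩ := F.u_gen y hy
  refine ⟨c, fun P hP σ hσ hur => ?_⟩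
  rw [← hyz, M6a.chi_mul, UnUA.chi_A hL hz hP hσ hur, add_zero]
  obtain ⟨b, -, hb⟩ := mem_sqr.1 hc
  have h1 : chi ((y * ∏ i, F.u i ^ (c i).val : kˣ) : k) σ = 0 := by
    rw [← hb, M6a.chi_pow, Nat.cast_ofNat]
    have : (2 : ZMod 2) = 0 := rfl
    rw [this, zero_mul]
  rw [M6a.chi_mul, M6a.chi_prod] at h1
  simp only [chi_powv] at h1
  have h2 : chi (y : k) σ = chi (y : k) σ + ((∑ j, c j * chi (F.u j : k) σ) +
      ∑ j, c j * chi (F.u j : k) σ) := by
    rw [UnUA.zero_of_add, add_zero]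
  rw [h2, ← add_assoc, h1, zero_add]

end

end Pool.Agent.H98.MF
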