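import Pool.Agent.H98.MF.Final5Of2
import Pool.Agent.H98.MF.MainDat4
import Pool.Agent.H98.MF.MainDat5
import Pool.Agent.H98.MF.ExistsUr
import Pool.Agent.H98.MF.ExistsRxU
import Pool.Agent.H98.MF.UnUThm
import Pool.Agent.H98.MF.UDefs

/-!
# Project MK5 (MP_a3214d), row U7: the final theorem over a number field, both cases

`G` is a transitive permutation group of degree `n` in which fourth powers are trivial and squares
are central. The count of the extensions with group `G` is asymptotic to the predicted main term if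
the elements of minimal index generate `G`, or if the class number of `k` is odd and every totally
positive unit of `k` is a square.
-/

set_option autoImplicit false

open scoped BigOperators Pointwise
open NumberField IsDedekindDomain Filter

namespace Pool.Agent.H98.MF

open Pool.Agent.H98.ML (Dt Ext Wt norb hind)

/-- the final count over a number field, both cases -/
theorem final5 (k : Type) [Field k] [NumberField k] (n : ℕ) (G : Subgroup (Equiv.Perm (Fin n)))
    (hne : G ≠ ⊥) (htr : MulAction.IsPretransitive G (Fin n))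
    (h4 : ∀ x : G, x ^ 4 = 1) (hc : ∀ x y : G, x ^ 2 * y = y * x ^ 2) (m : ℕ)
    (hm : IsLeast {j | ∃ g ∈ G, g ≠ 1 ∧ g.support.card - Multiset.card g.cycleType = j} m)
    (hk : Subgroup.closure {g : Equiv.Perm (Fin n) | g ∈ G ∧ g ≠ 1 ∧
        g.support.card - Multiset.card g.cycleType = m} = G ∨
      Odd (NumberField.classNumber k) ∧
        ∀ ε : (𝓞 k)ˣ, (∀ φ : k →+* ℝ, 0 < φ ((ε : 𝓞 k) : k)) → IsSquare ε) :
    ∃ c : ℝ, 0 < c ∧
      Asymptotics.IsEquivalent Filter.atTop
        (fun B : ℝ => ((Nat.card (Quot (fun L L' : {M : IntermediateField k (AlgebraicClosure k) //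
            Module.finrank k M = n ∧
            (∃ e : (M →ₐ[k] AlgebraicClosure k) ≃ Fin n, ∀ π : Equiv.Perm (Fin n),
               π ∈ G ↔ ∃ σ : AlgebraicClosure k ≃ₐ[k] AlgebraicClosure k,
                 ∀ φ : M →ₐ[k] AlgebraicClosure k, e (σ.toAlgHom.comp φ) = π (e φ)) ∧
            ∃ h : NumberField M,
              ((|@NumberField.discr M _ h| : ℤ) : ℝ) ≤ B * ((|NumberField.discr k| : ℤ) : ℝ) ^ n}
          => Nonempty (L.1 ≃ₐ[k] L'.1))) : ℕ) : ℝ))
        (fun B : ℝ => c * B ^ (1 / m : ℝ) * Real.log B ^
          (Nat.card {c : ConjClasses G // ∃ g : G, ConjClasses.mk g = c ∧ g ≠ 1 ∧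
            (g : Equiv.Perm (Fin n)).support.card -
              Multiset.card (g : Equiv.Perm (Fin n)).cycleType = m} - 1)) :=
  final5_of2 k
    (fun F R hK hL hH D H0 w hw hM => main_dat4 F R hK hL hH D H0 w hw hM)
    (fun F U hU R hR hK hL hH D H0 w hw => main_dat5 F U hU R hR hK hL hH D H0 w hw)
    (fun hL => exists_ur hL) (fun U => exists_rxu U)
    (fun hL hD hcl hu U F => unu hL hD hcl hu U F)
    n G hne htr h4 hc m hm hk

end Pool.Agent.H98.MF
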