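import Pool.Agent.H98.MF.UDefs
import Pool.Agent.H98.MF.Final4Of

/-!
# Project MK5 (MP_a3214d), row U7: the final count over a number field in both cases, from the
other rows
-/

set_option autoImplicit false

open scoped BigOperators Pointwise
open NumberField IsDedekindDomain Filter

namespace Pool.Agent.H98.MF

open Pool.Agent.H98.ML (Dt Ext Wt norb hind)

/-- the final count over a number field, from the count of the homomorphisms for all data and the
reduction to them -/
theorem final5_core (k : Type) [Field k] [NumberField k]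
    (hmain : ∀ (D : Dt) (H0 : Subgroup (Ext D)) (w : Wt D), w.ind = hind H0 →
      ∃ C : ℝ, 0 < C ∧ Tendsto (fun X : ℝ =>
        (Nat.card {ρ : Gm k →* Ext D // Function.Surjective ρ ∧ IsLocallyConstant ρ ∧
          (rdN (fld k (H0.comap ρ)) : ℝ) ≤ X} : ℝ) /
            (X ^ (1 / w.m : ℝ) * Real.log X ^ (w.b - 1))) atTop (nhds C))
    (hcount : ∀ (n : ℕ) (G : Subgroup (Equiv.Perm (Fin n))),
      MulAction.IsPretransitive G (Fin n) → ∀ (i0 : Fin n) (B : ℝ),
      Nat.card (Quot (fun L L' : {M : IntermediateField k (AlgebraicClosure k) //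
            Module.finrank k M = n ∧
            (∃ e : (M →ₐ[k] AlgebraicClosure k) ≃ Fin n, ∀ π : Equiv.Perm (Fin n),
               π ∈ G ↔ ∃ σ : AlgebraicClosure k ≃ₐ[k] AlgebraicClosure k,
                 ∀ φ : M →ₐ[k] AlgebraicClosure k, e (σ.toAlgHom.comp φ) = π (e φ)) ∧
            ∃ h : NumberField M,
              ((|@NumberField.discr M _ h| : ℤ) : ℝ) ≤ B * ((|NumberField.discr k| : ℤ) : ℝ) ^ n}
          => Nonempty (L.1 ≃ₐ[k] L'.1))) *
        Nat.card {α : MulAut G // ∃ g : G, ∀ x : G, x ∈ MulAction.stabilizer G i0 ↔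
          g * α x * g⁻¹ ∈ MulAction.stabilizer G i0} =
      Nat.card {ρ : Gm k →* G // Function.Surjective ρ ∧ IsLocallyConstant ρ ∧
        (rdN (fld k ((MulAction.stabilizer G i0).comap ρ)) : ℝ) ≤ B})
    (n : ℕ) (G : Subgroup (Equiv.Perm (Fin n)))
    (hne : G ≠ ⊥) (htr : MulAction.IsPretransitive G (Fin n))
    (h4 : ∀ x : G, x ^ 4 = 1) (hc : ∀ x y : G, x ^ 2 * y = y * x ^ 2) (m : ℕ)
    (hm : IsLeast {j | ∃ g ∈ G, g ≠ 1 ∧ g.support.card - Multiset.card g.cycleType = j} m) :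
    ∃ c : ℝ, 0 < c ∧
      Asymptotics.IsEquivalent Filter.atTop
        (fun B : ℝ => ((Nat.card (Quot (fun L L' : {M : IntermediateField k (AlgebraicClosure k) //
            Module.finrank k M = n ∧
            (∃ e : (M →ₐ[k] AlgebraicClosure k) ≃ Fin n, ∀ π : Equiv.Perm (Fin n),
               π ∈ G ↔ ∃ σ : AlgebraicClosure k ≃ₐ[k] AlgebraicClosure k,
                 ∀ φ : M →ₐ[k] AlgebraicClosure k, e (σ.toAlgHom.comp φ) = π (e φ)) ∧
            ∃ h : NumberField M,
              ((|@NumberField.discr M _ h| : ℤ) : ℝ) ≤ B * ((|NumberField.discr k| : ℤ) : ℝ) ^ n}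
          => Nonempty (L.1 ≃ₐ[k] L'.1))) : ℕ) : ℝ))
        (fun B : ℝ => c * B ^ (1 / m : ℝ) * Real.log B ^
          (Nat.card {c : ConjClasses G // ∃ g : G, ConjClasses.mk g = c ∧ g ≠ 1 ∧
            (g : Equiv.Perm (Fin n)).support.card -
              Multiset.card (g : Equiv.Perm (Fin n)).cycleType = m} - 1)) := by
  have hG : Nontrivial G := (Subgroup.nontrivial_iff_ne_bot G).2 hne
  obtain ⟨D, ⟨e⟩⟩ := Pool.Agent.H98.ML.struct2 G h4 hc
  have hnt : Nontrivial (Ext D) := e.symm.toEquiv.nontrivial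
  have hn0 : n ≠ 0 := by
    rintro rfl
    obtain ⟨x, y, hxy⟩ := hG
    exact hxy (Subsingleton.elim x y)
  let i0 : Fin n := ⟨0, Nat.pos_of_ne_zero hn0⟩
  obtain ⟨w, hw⟩ := Pool.Agent.H98.ML.exists_wt D ((MulAction.stabilizer G i0).comap e.symm.toMonoidHom) (by
    rw [eq_bot_iff]
    intro x hx
    rw [Subgroup.mem_bot]
    have h1 : ∀ b : Ext D, b * x * b⁻¹ ∈
        (MulAction.stabilizer G i0).comap e.symm.toMonoidHom := hx
    have h2 : e.symm x = 1 := by
      apply Pool.Agent.H98.ML.f2_core G htr i0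
      intro g
      have h3 := h1 (e g)
      have h4 : e.symm (e g * x * (e g)⁻¹) ∈ MulAction.stabilizer G i0 := h3
      rwa [map_mul, map_mul, map_inv, e.symm_apply_apply] at h4
    exact (MulEquiv.map_eq_one_iff e.symm).1 h2)
  have hind1 : ∀ g : G, w.ind (e g) =
      (g : Equiv.Perm (Fin n)).support.card -
        Multiset.card (g : Equiv.Perm (Fin n)).cycleType := by
    intro g
    rw [hw, Pool.Agent.H98.ML.f2_hind_comap, Pool.Agent.H98.ML.hind_perm n G htr i0]
  have hm1 : w.m = m := by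
    have hl : IsLeast {j | ∃ g ∈ G, g ≠ 1 ∧ g.support.card - Multiset.card g.cycleType = j}
        w.m := by
      constructor
      · obtain ⟨g, hg, hgm⟩ := w.att
        refine ⟨(e.symm g : G), (e.symm g).2, ?_, ?_⟩
        · intro h
          apply hg
          have h' : e.symm g = 1 := Subtype.ext h
          exact (MulEquiv.map_eq_one_iff e.symm).1 h'
        · rw [← hind1 (e.symm g), e.apply_symm_apply]
          exact hgm
      · rintro j ⟨g, hg, hg1, rfl⟩
        have h1 := w.min (e ⟨g, hg⟩) (fun h => hg1 (by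
          have h2 := (MulEquiv.map_eq_one_iff e).1 h
          exact congrArg Subtype.val h2))
        rw [hind1] at h1
        exact h1
    exact hl.unique hm
  have hb : Nat.card {c : ConjClasses G // ∃ g : G, ConjClasses.mk g = c ∧ g ≠ 1 ∧
      (g : Equiv.Perm (Fin n)).support.card -
        Multiset.card (g : Equiv.Perm (Fin n)).cycleType = m} = w.b := by
    unfold Wt.b
    rw [← Pool.Agent.H98.ML.f2_classes e w.ind w.m, hm1]
    simp only [hind1]
  obtain ⟨C, hC, hlim⟩ := hmain D _ w hw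
  have hA0 : 0 < Nat.card {α : MulAut G // ∃ g : G, ∀ x : G,
      x ∈ MulAction.stabilizer G i0 ↔ g * α x * g⁻¹ ∈ MulAction.stabilizer G i0} := by
    have : Finite (MulAut G) := inferInstanceAs (Finite (G ≃* G))
    have : Nonempty {α : MulAut G // ∃ g : G, ∀ x : G,
        x ∈ MulAction.stabilizer G i0 ↔ g * α x * g⁻¹ ∈ MulAction.stabilizer G i0} :=
      ⟨⟨1, 1, fun x => by
        rw [one_mul, inv_one, mul_one]
        exact Iff.rfl⟩⟩
    exact Nat.card_pos
  have hA : (0 : ℝ) < Nat.card {α : MulAut G // ∃ g : G, ∀ x : G,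
      x ∈ MulAction.stabilizer G i0 ↔ g * α x * g⁻¹ ∈ MulAction.stabilizer G i0} := by
    exact_mod_cast hA0
  rw [hb, ← hm1]
  refine ⟨C / Nat.card {α : MulAut G // ∃ g : G, ∀ x : G,
      x ∈ MulAction.stabilizer G i0 ↔ g * α x * g⁻¹ ∈ MulAction.stabilizer G i0},
    by positivity, ?_⟩
  apply Pool.Agent.H98.MK.equiv_of_ratio _ _ _ _ (by positivity)
  refine (hlim.div_const (Nat.card {α : MulAut G // ∃ g : G, ∀ x : G,
      x ∈ MulAction.stabilizer G i0 ↔
        g * α x * g⁻¹ ∈ MulAction.stabilizer G i0} : ℝ)).congr ?_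
  intro B
  rw [← f4_homs e, ← hcount n G htr i0 B]
  push_cast
  rw [div_right_comm, mul_div_assoc, div_self hA.ne', mul_one]

/-- the final count over a number field in both cases, from the counts of the homomorphisms and
the reduction to them -/
theorem final5_of (k : Type) [Field k] [NumberField k]
    (hmain4 : ∀ (D : Dt) (H0 : Subgroup (Ext D)) (w : Wt D), w.ind = hind H0 → MSp w →
      ∃ C : ℝ, 0 < C ∧ Tendsto (fun X : ℝ =>
        (Nat.card {ρ : Gm k →* Ext D // Function.Surjective ρ ∧ IsLocallyConstant ρ ∧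
          (rdN (fld k (H0.comap ρ)) : ℝ) ≤ X} : ℝ) /
            (X ^ (1 / w.m : ℝ) * Real.log X ^ (w.b - 1))) atTop (nhds C))
    (hmain5 : Odd (NumberField.classNumber k) →
      (∀ ε : (𝓞 k)ˣ, (∀ φ : k →+* ℝ, 0 < φ ((ε : 𝓞 k) : k)) → IsSquare ε) →
      ∀ (D : Dt) (H0 : Subgroup (Ext D)) (w : Wt D), w.ind = hind H0 →
      ∃ C : ℝ, 0 < C ∧ Tendsto (fun X : ℝ =>
        (Nat.card {ρ : Gm k →* Ext D // Function.Surjective ρ ∧ IsLocallyConstant ρ ∧
          (rdN (fld k (H0.comap ρ)) : ℝ) ≤ X} : ℝ) /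
            (X ^ (1 / w.m : ℝ) * Real.log X ^ (w.b - 1))) atTop (nhds C))
    (hcount : ∀ (n : ℕ) (G : Subgroup (Equiv.Perm (Fin n))),
      MulAction.IsPretransitive G (Fin n) → ∀ (i0 : Fin n) (B : ℝ),
      Nat.card (Quot (fun L L' : {M : IntermediateField k (AlgebraicClosure k) //
            Module.finrank k M = n ∧
            (∃ e : (M →ₐ[k] AlgebraicClosure k) ≃ Fin n, ∀ π : Equiv.Perm (Fin n),
               π ∈ G ↔ ∃ σ : AlgebraicClosure k ≃ₐ[k] AlgebraicClosure k,
                 ∀ φ : M →ₐ[k] AlgebraicClosure k, e (σ.toAlgHom.comp φ) = π (e φ)) ∧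
            ∃ h : NumberField M,
              ((|@NumberField.discr M _ h| : ℤ) : ℝ) ≤ B * ((|NumberField.discr k| : ℤ) : ℝ) ^ n}
          => Nonempty (L.1 ≃ₐ[k] L'.1))) *
        Nat.card {α : MulAut G // ∃ g : G, ∀ x : G, x ∈ MulAction.stabilizer G i0 ↔
          g * α x * g⁻¹ ∈ MulAction.stabilizer G i0} =
      Nat.card {ρ : Gm k →* G // Function.Surjective ρ ∧ IsLocallyConstant ρ ∧
        (rdN (fld k ((MulAction.stabilizer G i0).comap ρ)) : ℝ) ≤ B})
    (n : ℕ) (G : Subgroup (Equiv.Perm (Fin n)))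
    (hne : G ≠ ⊥) (htr : MulAction.IsPretransitive G (Fin n))
    (h4 : ∀ x : G, x ^ 4 = 1) (hc : ∀ x y : G, x ^ 2 * y = y * x ^ 2) (m : ℕ)
    (hm : IsLeast {j | ∃ g ∈ G, g ≠ 1 ∧ g.support.card - Multiset.card g.cycleType = j} m)
    (hk : Subgroup.closure {g : Equiv.Perm (Fin n) | g ∈ G ∧ g ≠ 1 ∧
        g.support.card - Multiset.card g.cycleType = m} = G ∨
      Odd (NumberField.classNumber k) ∧
        ∀ ε : (𝓞 k)ˣ, (∀ φ : k →+* ℝ, 0 < φ ((ε : 𝓞 k) : k)) → IsSquare ε) :
    ∃ c : ℝ, 0 < c ∧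
      Asymptotics.IsEquivalent Filter.atTop
        (fun B : ℝ => ((Nat.card (Quot (fun L L' : {M : IntermediateField k (AlgebraicClosure k) //
            Module.finrank k M = n ∧
            (∃ e : (M →ₐ[k] AlgebraicClosure k) ≃ Fin n, ∀ π : Equiv.Perm (Fin n),
               π ∈ G ↔ ∃ σ : AlgebraicClosure k ≃ₐ[k] AlgebraicClosure k,
                 ∀ φ : M →ₐ[k] AlgebraicClosure k, e (σ.toAlgHom.comp φ) = π (e φ)) ∧
            ∃ h : NumberField M,
              ((|@NumberField.discr M _ h| : ℤ) : ℝ) ≤ B * ((|NumberField.discr k| : ℤ) : ℝ) ^ n}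
          => Nonempty (L.1 ≃ₐ[k] L'.1))) : ℕ) : ℝ))
        (fun B : ℝ => c * B ^ (1 / m : ℝ) * Real.log B ^
          (Nat.card {c : ConjClasses G // ∃ g : G, ConjClasses.mk g = c ∧ g ≠ 1 ∧
            (g : Equiv.Perm (Fin n)).support.card -
              Multiset.card (g : Equiv.Perm (Fin n)).cycleType = m} - 1)) := by
  rcases hk with hgen | ⟨hcl, hu⟩
  · exact final4_of k hmain4 hcount n G hne htr h4 hc m hm hgen
  · exact final5_core k (hmain5 hcl hu) hcount n G hne htr h4 hc m hm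

end Pool.Agent.H98.MF
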