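import Pool.Agent.H98.MF.GWTriv
import Pool.Agent.H98.MF.SGWBlock1

/-!
# Project MK4 (MP_a3214d), block SYS-T: sums with sparse variables, pieces
-/

set_option autoImplicit false

open scoped BigOperators

open Filter

namespace Pool.Agent.H98.MF

open Pool.Agent.H98.MK (sg)
open Pool.Agent.H98.ML (Dt Ext Wt)

namespace Sys

variable (F : Sys) {D : Dt}

/-- the bound for a nontrivial character in a large variable -/
def T3Char {ι : Type} [Fintype ι] (w : ι → ℝ) (L : ι → ι → Prop) (R : ι → Prop)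
    (c : ι → F.T) : Prop :=
  ∀ i, w i = 1 → ¬ R i → (c i ≠ 0 ∨ ∃ j, L i j ∨ L j i) →
    ∃ C : ℝ, ∃ k : ℕ, ∀ (a : ι → Finset F.P → ℝ) (P K M Y : ℝ), (∀ l x, |a l x| ≤ 1) →
      1 ≤ P → 1 ≤ K → K ≤ M → 1 ≤ Y →
      (∀ l, ¬ R l → l ≠ i → ∀ x, a l x ≠ 0 → (F.nm x : ℝ) ≤ M) →
      (∀ x, a i x = if K < F.nm x ∧ (F.nm x : ℝ) ≤ 2 * K then (F.ps (c i) x : ℝ) else 0) →
      (∀ j, L i j ∨ L j i → ∀ x, a j x ≠ 0 → x.Nonempty ∧ (F.nm x : ℝ) ≤ P) →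
      |F.GW w L a Y| ≤ C * Y * (1 + Real.log Y) ^ (Nat.card {l // R l} - 1) *
        (P ^ (F.A * Fintype.card ι) * K ^ (-F.dl)) * (1 + Real.log M) ^ k

/-- the bound for a linked pair of large variables -/
def T3Pair {ι : Type} [Fintype ι] (w : ι → ℝ) (L : ι → ι → Prop) (R : ι → Prop) : Prop :=
  ∀ i j, L i j → w i = 1 → w j = 1 →
    ∃ C : ℝ, ∃ k : ℕ, ∀ (a : ι → Finset F.P → ℝ) (P M Y : ℝ), (∀ l x, |a l x| ≤ 1) → 1 ≤ P →
      1 ≤ M → 1 ≤ Y → (∀ l, ¬ R l → ∀ x, a l x ≠ 0 → (F.nm x : ℝ) ≤ M) →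
      (∀ x, a i x ≠ 0 → P < F.nm x) → (∀ x, a j x ≠ 0 → P < F.nm x) →
      |F.GW w L a Y| ≤ C * Y * (1 + Real.log Y) ^ (Nat.card {l // R l} - 1) *
        P ^ (-F.c0) * (1 + Real.log M) ^ k

/-! ### real estimates -/

theorem t3_r1 (δ : ℝ) (hδ : 0 < δ) (s : ℝ) (hs : 0 < s) (n : ℕ) :
    ∃ C : ℝ, 0 ≤ C ∧ ∀ t K : ℝ, 1 ≤ t → Real.exp (t ^ δ) ≤ K →
      K ^ (-s) * t ^ n ≤ C * t ^ (-2 : ℝ) := by
  obtain ⟨m, hm⟩ := exists_nat_ge (((n : ℝ) + 2) / δ)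
  refine ⟨m.factorial / s ^ m, by positivity, fun t K ht hK => ?_⟩
  have t0 : 0 < t := by linarith
  set u : ℝ := t ^ δ with hu
  have u0 : 0 < u := Real.rpow_pos_of_pos t0 _
  have h1 : K ^ (-s) ≤ (Real.exp (s * u))⁻¹ := by
    have h2 : K ^ (-s) ≤ (Real.exp u) ^ (-s) :=
      Real.rpow_le_rpow_of_nonpos (Real.exp_pos u) hK (by linarith)
    refine h2.trans (le_of_eq ?_)
    rw [← Real.exp_mul, ← Real.exp_neg]
    congr 1
    ring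
  have h3 := Real.pow_div_factorial_le_exp (s * u) (by positivity) m
  have h4 : (Real.exp (s * u))⁻¹ ≤ m.factorial / s ^ m * (u ^ m)⁻¹ := by
    have h5 : (0 : ℝ) < (s * u) ^ m / m.factorial := by positivity
    have h6 := inv_anti₀ h5 h3
    refine h6.trans (le_of_eq ?_)
    rw [mul_pow]
    field_simp
  have h7 : (u ^ m)⁻¹ ≤ t ^ (-((n : ℝ) + 2)) := by
    rw [Real.rpow_neg t0.le]
    refine inv_anti₀ (Real.rpow_pos_of_pos t0 _) ?_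
    rw [hu, ← Real.rpow_natCast (t ^ δ) m, ← Real.rpow_mul t0.le]
    refine Real.rpow_le_rpow_of_exponent_le ht ?_
    rw [div_le_iff₀ hδ] at hm
    linarith
  have h8 : t ^ (-((n : ℝ) + 2)) * t ^ n = t ^ (-2 : ℝ) := by
    rw [← Real.rpow_natCast t n, ← Real.rpow_add t0]
    congr 1
    ring
  calc K ^ (-s) * t ^ n ≤ (m.factorial / s ^ m * (u ^ m)⁻¹) * t ^ n :=
        mul_le_mul_of_nonneg_right (h1.trans h4) (by positivity)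
    _ ≤ (m.factorial / s ^ m * t ^ (-((n : ℝ) + 2))) * t ^ n :=
        mul_le_mul_of_nonneg_right (mul_le_mul_of_nonneg_left h7 (by positivity)) (by positivity)
    _ = m.factorial / s ^ m * (t ^ (-((n : ℝ) + 2)) * t ^ n) := by ring
    _ = m.factorial / s ^ m * t ^ (-2 : ℝ) := by rw [h8]

/-! ### one large linked variable -/

/-- the standing conditions for a piece -/
structure T3Ok {ι : Type} (R : ι → Prop) (α : ι → Finset F.P → ℝ) (t M Y : ℝ) : Prop where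
  one : ∀ l x, |α l x| ≤ 1
  two : ∀ l x, α l x ≠ 0 → x.Nonempty
  t1 : 1 ≤ t
  M1 : 1 ≤ M
  Mt : 1 + Real.log M ≤ 2 * t
  Y1 : 1 ≤ Y
  sup : ∀ l, ¬ R l → ∀ x, α l x ≠ 0 → (F.nm x : ℝ) ≤ M

/-- the wanted bound, without the constant -/
noncomputable def t3B {ι : Type} (R : ι → Prop) (t Y : ℝ) : ℝ :=
  Y * (1 + Real.log Y) ^ (Nat.card {l // R l} - 1) * t ^ (-2 : ℝ)

theorem t3_YE {Y : ℝ} (hY : 1 ≤ Y) (n : ℕ) : 0 ≤ Y * (1 + Real.log Y) ^ n := by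
  have := Real.log_nonneg hY
  positivity

theorem t3B_nonneg {ι : Type} (R : ι → Prop) {t Y : ℝ} (ht : 1 ≤ t) (hY : 1 ≤ Y) :
    0 ≤ t3B R t Y := by
  have h2 := t3_YE hY (Nat.card {l // R l} - 1)
  unfold t3B
  exact mul_nonneg h2 (Real.rpow_nonneg (by linarith) _)

theorem t3_close {v C Y E X Q C' s : ℝ} (hYE : 0 ≤ Y * E) (h : v ≤ C * Y * E * X * Q)
    (hXQ : 0 ≤ X * Q) (h2 : X * Q ≤ C' * s) : v ≤ |C| * C' * (Y * E * s) := by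
  calc v ≤ C * Y * E * X * Q := h
    _ = C * (Y * E * (X * Q)) := by ring
    _ ≤ |C| * (Y * E * (X * Q)) :=
        mul_le_mul_of_nonneg_right (le_abs_self C) (mul_nonneg hYE hXQ)
    _ ≤ |C| * (Y * E * (C' * s)) :=
        mul_le_mul_of_nonneg_left (mul_le_mul_of_nonneg_left h2 hYE) (abs_nonneg C)
    _ = _ := by ring

theorem t3_logM {t M : ℝ} (hM : 1 ≤ M) (h : 1 + Real.log M ≤ 2 * t) (k : ℕ) :
    (1 + Real.log M) ^ k ≤ 2 ^ k * t ^ k := by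
  have hl : 0 ≤ Real.log M := Real.log_nonneg hM
  rw [← mul_pow]
  exact pow_le_pow_left₀ (by linarith) h k

theorem t3_an {ι : Type} [Fintype ι] (w : ι → ℝ) (hw : ∀ i, 1 ≤ w i) (L : ι → ι → Prop)
    (R : ι → Prop) (hR : ∀ i, R i → w i = 1) (j : ι) (hj : 1 < w j) :
    ∃ A₀ : ℕ, ∀ A : ℕ, A₀ ≤ A → ∃ C : ℝ, 0 ≤ C ∧ ∀ (α : ι → Finset F.P → ℝ) (t M Y : ℝ),
      F.T3Ok R α t M Y → (∀ x, α j x ≠ 0 → t ^ A < F.nm x) →
      |F.GW w L α Y| ≤ C * t3B R t Y := by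
  obtain ⟨C, k, h⟩ := GW_an F w hw L R hR j hj
  obtain ⟨A₀, hA₀⟩ := exists_nat_ge (((k : ℝ) + 2) / (w j - 1))
  refine ⟨A₀, fun A hA => ⟨|C| * 2 ^ k, by positivity, fun α t M Y ho hα => ?_⟩⟩
  have ht := ho.t1
  have h1 := h α (t ^ A) M Y ho.one (one_le_pow₀ ht) ho.M1 ho.Y1 ho.sup hα
  have hAr : (k : ℝ) + 2 ≤ A * (w j - 1) := by
    rw [div_le_iff₀ (by linarith)] at hA₀
    refine hA₀.trans (mul_le_mul_of_nonneg_right (by exact_mod_cast hA) (by linarith))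
  have hlM : 0 ≤ Real.log M := Real.log_nonneg ho.M1
  have hX : 0 ≤ (t ^ A) ^ (-(w j - 1)) := Real.rpow_nonneg (by positivity) _
  refine t3_close (t3_YE ho.Y1 _) h1 (mul_nonneg hX (pow_nonneg (by linarith) _)) ?_
  calc (t ^ A) ^ (-(w j - 1)) * (1 + Real.log M) ^ k
      ≤ (t ^ A) ^ (-(w j - 1)) * (2 ^ k * t ^ k) :=
        mul_le_mul_of_nonneg_left (t3_logM ho.M1 ho.Mt k) hX
    _ = 2 ^ k * ((t ^ A) ^ (-(w j - 1)) * t ^ k) := by ring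
    _ ≤ 2 ^ k * t ^ (-2 : ℝ) :=
        mul_le_mul_of_nonneg_left (gb_r2 ht hAr) (by positivity)

theorem t3_an' {ι : Type} [Fintype ι] (w : ι → ℝ) (hw : ∀ i, 1 ≤ w i) (L : ι → ι → Prop)
    (R : ι → Prop) (hR : ∀ i, R i → w i = 1) (δ : ℝ) (hδ : 0 < δ) (j : ι) (hj : 1 < w j) :
    ∃ C : ℝ, 0 ≤ C ∧ ∀ (α : ι → Finset F.P → ℝ) (t K M Y : ℝ),
      F.T3Ok R α t M Y → Real.exp (t ^ δ) ≤ K → (∀ x, α j x ≠ 0 → K < F.nm x) →
      |F.GW w L α Y| ≤ C * t3B R t Y := by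
  obtain ⟨C, k, h⟩ := GW_an F w hw L R hR j hj
  obtain ⟨C', hC', h'⟩ := t3_r1 δ hδ (w j - 1) (by linarith) k
  refine ⟨|C| * (2 ^ k * C'), by positivity, fun α t K M Y ho hK hα => ?_⟩
  have ht := ho.t1
  have ht0 : 0 < t := by linarith
  have hK1 : 1 ≤ K := le_trans (Real.one_le_exp (Real.rpow_pos_of_pos ht0 _).le) hK
  have h1 := h α K M Y ho.one hK1 ho.M1 ho.Y1 ho.sup hα
  have hlM : 0 ≤ Real.log M := Real.log_nonneg ho.M1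
  have hX : 0 ≤ K ^ (-(w j - 1)) := Real.rpow_nonneg (by linarith) _
  refine t3_close (t3_YE ho.Y1 _) h1 (mul_nonneg hX (pow_nonneg (by linarith) _)) ?_
  calc K ^ (-(w j - 1)) * (1 + Real.log M) ^ k
      ≤ K ^ (-(w j - 1)) * (2 ^ k * t ^ k) :=
        mul_le_mul_of_nonneg_left (t3_logM ho.M1 ho.Mt k) hX
    _ = 2 ^ k * (K ^ (-(w j - 1)) * t ^ k) := by ring
    _ ≤ 2 ^ k * (C' * t ^ (-2 : ℝ)) :=
        mul_le_mul_of_nonneg_left (h' t K ht hK) (by positivity)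
    _ = _ := by ring

theorem t3_pair {ι : Type} [Fintype ι] (w : ι → ℝ) (L : ι → ι → Prop) (R : ι → Prop)
    (hpair : F.T3Pair w L R) (δ : ℝ) (hδ : 0 < δ) (i j : ι) (hij : L i j ∨ L j i) (hi : w i = 1) (hj : w j = 1) :
    ∃ A₀ : ℕ, ∀ A : ℕ, A₀ ≤ A → ∃ C : ℝ, 0 ≤ C ∧ ∀ (α : ι → Finset F.P → ℝ) (t K M Y : ℝ),
      F.T3Ok R α t M Y → Real.exp (t ^ δ) ≤ K → (∀ x, α i x ≠ 0 → K < F.nm x) →
      (∀ x, α j x ≠ 0 → t ^ A < F.nm x) →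
      |F.GW w L α Y| ≤ C * t3B R t Y := by
  obtain ⟨C, k, h⟩ : ∃ C : ℝ, ∃ k : ℕ, ∀ (a : ι → Finset F.P → ℝ) (P M Y : ℝ),
      (∀ l x, |a l x| ≤ 1) → 1 ≤ P → 1 ≤ M → 1 ≤ Y →
      (∀ l, ¬ R l → ∀ x, a l x ≠ 0 → (F.nm x : ℝ) ≤ M) →
      (∀ x, a i x ≠ 0 → P < F.nm x) → (∀ x, a j x ≠ 0 → P < F.nm x) →
      |F.GW w L a Y| ≤ C * Y * (1 + Real.log Y) ^ (Nat.card {l // R l} - 1) *
        P ^ (-F.c0) * (1 + Real.log M) ^ k := by
    rcases hij with hij | hij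
    · exact hpair i j hij hi hj
    · obtain ⟨C, k, h⟩ := hpair j i hij hj hi
      exact ⟨C, k, fun a P M Y h1 h2 h3 h4 h5 h6 h7 => h a P M Y h1 h2 h3 h4 h5 h7 h6⟩
  obtain ⟨C', hC', h'⟩ := t3_r1 δ hδ F.c0 F.c0_pos k
  obtain ⟨A₀, hA₀⟩ := exists_nat_ge (((k : ℝ) + 2) / F.c0)
  refine ⟨A₀, fun A hA => ⟨|C| * (2 ^ k * (1 + C')), by positivity,
    fun α t K M Y ho hK hαi hαj => ?_⟩⟩
  have ht := ho.t1
  have ht0 : 0 < t := by linarith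
  have hK1 : 1 ≤ K := le_trans (Real.one_le_exp (Real.rpow_pos_of_pos ht0 _).le) hK
  have hP1 : 1 ≤ t ^ A := one_le_pow₀ ht
  have h1 := h α (min (t ^ A) K) M Y ho.one (le_min hP1 hK1)
    ho.M1 ho.Y1 ho.sup (fun n hn => lt_of_le_of_lt (min_le_right _ _) (hαi n hn))
    (fun n hn => lt_of_le_of_lt (min_le_left _ _) (hαj n hn))
  have hAr : (k : ℝ) + 2 ≤ A * F.c0 := by
    rw [div_le_iff₀ F.c0_pos] at hA₀
    refine hA₀.trans (mul_le_mul_of_nonneg_right (by exact_mod_cast hA) F.c0_pos.le)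
  have hlM : 0 ≤ Real.log M := Real.log_nonneg ho.M1
  have hmin : 0 < min (t ^ A) K := lt_min (by linarith) (by linarith)
  have hX : 0 ≤ (min (t ^ A) K) ^ (-F.c0) := Real.rpow_nonneg hmin.le _
  refine t3_close (t3_YE ho.Y1 _) h1 (mul_nonneg hX (pow_nonneg (by linarith) _)) ?_
  have hX2 : (min (t ^ A) K) ^ (-F.c0) * t ^ k ≤ (1 + C') * t ^ (-2 : ℝ) := by
    have hs : 0 ≤ t ^ (-2 : ℝ) := Real.rpow_nonneg (by linarith) _
    have h2 : (t ^ A) ^ (-F.c0) * t ^ k ≤ t ^ (-2 : ℝ) := gb_r2 ht hAr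
    have h3 := h' t K ht hK
    rcases min_choice (t ^ A) K with h4 | h4
    · rw [h4]
      nlinarith
    · rw [h4]
      nlinarith
  calc (min (t ^ A) K) ^ (-F.c0) * (1 + Real.log M) ^ k
      ≤ (min (t ^ A) K) ^ (-F.c0) * (2 ^ k * t ^ k) :=
        mul_le_mul_of_nonneg_left (t3_logM ho.M1 ho.Mt k) hX
    _ = 2 ^ k * ((min (t ^ A) K) ^ (-F.c0) * t ^ k) := by ring
    _ ≤ 2 ^ k * ((1 + C') * t ^ (-2 : ℝ)) :=
        mul_le_mul_of_nonneg_left hX2 (by positivity)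
    _ = _ := by ring

/-! ### all linked variables small -/

open Classical in
theorem t3_char {ι : Type} [Fintype ι] (w : ι → ℝ) (L : ι → ι → Prop) (R : ι → Prop)
    (c : ι → F.T) (hchar : F.T3Char w L R c) (δ : ℝ) (hδ : 0 < δ) (i : ι) (hi : w i = 1)
    (hF : ¬ R i) (hd : c i ≠ 0 ∨ ∃ j, L i j ∨ L j i) (A : ℕ) :
    ∃ C : ℝ, 0 ≤ C ∧ ∀ (α : ι → Finset F.P → ℝ) (t K M Y : ℝ),
      F.T3Ok R α t M Y → Real.exp (t ^ δ) ≤ K → K ≤ M →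
      (∀ x, α i x = if K < F.nm x ∧ (F.nm x : ℝ) ≤ 2 * K then (F.ps (c i) x : ℝ) else 0) →
      (∀ j, L i j ∨ L j i → ∀ x, α j x ≠ 0 → (F.nm x : ℝ) ≤ t ^ A) →
      |F.GW w L α Y| ≤ C * t3B R t Y := by
  obtain ⟨C, k, h⟩ := hchar i hi hF hd
  obtain ⟨N, hN⟩ := exists_nat_ge ((A : ℝ) * (F.A * Fintype.card ι))
  obtain ⟨C', hC', h'⟩ := t3_r1 δ hδ F.dl F.dl_pos (N + k)
  refine ⟨|C| * (2 ^ k * C'), by positivity, fun α t K M Y ho hK hKM hαi hαj => ?_⟩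
  have ht := ho.t1
  have ht0 : 0 < t := by linarith
  have hK1 : 1 ≤ K := le_trans (Real.one_le_exp (Real.rpow_pos_of_pos ht0 _).le) hK
  have hP1 : 1 ≤ t ^ A := one_le_pow₀ ht
  have h1 := h α (t ^ A) K M Y ho.one hP1 hK1 hKM ho.Y1
    (fun l hl _ x hx => ho.sup l hl x hx) hαi
    (fun j hj n hn => ⟨ho.two j n hn, hαj j hj n hn⟩)
  have hlM : 0 ≤ Real.log M := Real.log_nonneg ho.M1
  have hKd : 0 ≤ K ^ (-F.dl) := Real.rpow_nonneg (by linarith) _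
  have hX : 0 ≤ (t ^ A) ^ (F.A * Fintype.card ι) * K ^ (-F.dl) :=
    mul_nonneg (Real.rpow_nonneg (by positivity) _) hKd
  refine t3_close (t3_YE ho.Y1 _) h1 (mul_nonneg hX (pow_nonneg (by linarith) _)) ?_
  have h2 : (t ^ A) ^ (F.A * Fintype.card ι) ≤ t ^ N := by
    rw [← Real.rpow_natCast t A, ← Real.rpow_mul ht0.le, ← Real.rpow_natCast t N]
    exact Real.rpow_le_rpow_of_exponent_le ht hN
  calc (t ^ A) ^ (F.A * Fintype.card ι) * K ^ (-F.dl) * (1 + Real.log M) ^ k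
      ≤ t ^ N * K ^ (-F.dl) * (2 ^ k * t ^ k) :=
        mul_le_mul (mul_le_mul_of_nonneg_right h2 hKd) (t3_logM ho.M1 ho.Mt k)
          (pow_nonneg (by linarith) _) (mul_nonneg (by positivity) hKd)
    _ = 2 ^ k * (K ^ (-F.dl) * t ^ (N + k)) := by
        rw [pow_add]
        ring
    _ ≤ 2 ^ k * (C' * t ^ (-2 : ℝ)) :=
        mul_le_mul_of_nonneg_left (h' t K ht hK) (by positivity)
    _ = _ := by ring

end Sys

end Pool.Agent.H98.MF
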