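import Pool.Agent.H98.MF.SparseSum0

/-!
# Project MK4 (MP_a3214d), block SYS-T: reciprocals of the norms of sets with few primes
-/

set_option autoImplicit false

open scoped BigOperators

open Filter

namespace Pool.Agent.H98.MF

open Pool.Agent.H98.MK (sg)
open Pool.Agent.H98.ML (Dt Ext Wt)

namespace Sys

variable (F : Sys) {D : Dt}

theorem ss_top (C : ℝ) (hC0 : 0 ≤ C) (hC : ∀ X : ℝ, 1 ≤ X →
      (∑ p ∈ (F.pr (2 * X)).filter (fun p => X < F.N p), (1 / F.N p : ℝ)) ≤
        C / Real.log (2 * X)) (h : ℕ) (M : ℝ) (hM : 1 ≤ M) :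
    (∑ x ∈ (F.bx (2 * M)).filter (fun x => x.card ≤ h + 1 ∧ M < F.nm x), (1 / F.nm x : ℝ)) ≤
      C * (h + 3) / (1 + Real.log M) * F.ssA h (2 * M) := by
  have hlM : 0 ≤ Real.log M := Real.log_nonneg hM
  have hl2 : 0 < Real.log 2 := Real.log_pos (by norm_num)
  have hD : 0 ≤ C * (h + 3) / (1 + Real.log M) := by positivity
  have h1 := F.ss_split ((F.bx (2 * M)).filter (fun x => x.card ≤ h + 1 ∧ M < F.nm x))
    ((F.pr (2 * M) ×ˢ (F.bx (2 * M)).filter (fun x => x.card ≤ h)).filter
      (fun q => M < F.N q.1 * F.nm q.2 ∧ (F.N q.1 * F.nm q.2 : ℝ) ≤ 2 * M ∧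
        M < (F.N q.1 : ℝ) ^ (h + 1))) (by
      intro x hx
      rw [Finset.mem_filter] at hx
      obtain ⟨hx1, hx2, hx3⟩ := hx
      rw [F.mem_bx] at hx1
      have hne : x.Nonempty := by
        rw [Finset.nonempty_iff_ne_empty]
        rintro rfl
        rw [F.nm_empty] at hx3
        push_cast at hx3
        linarith
      obtain ⟨p, hp, hpmax⟩ := Finset.exists_max_image x (fun p => F.N p) hne
      have hmul : F.nm x = F.N p * F.nm (x.erase p) := by
        conv_lhs => rw [← Finset.insert_erase hp]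
        exact F.nm_insert (Finset.notMem_erase p x)
      have hpow : F.nm x ≤ F.N p ^ (h + 1) := by
        have h2 : F.nm x ≤ F.N p ^ x.card := by
          unfold Pre.nm
          exact Finset.prod_le_pow_card x _ _ hpmax
        exact h2.trans (Nat.pow_le_pow_right (F.one_le_N p) hx2)
      refine ⟨(p, x.erase p), ?_, Finset.notMem_erase p x, Finset.insert_erase hp⟩
      rw [Finset.mem_filter, Finset.mem_product, Finset.mem_filter, F.mem_bx,
        F.mem_pr (by linarith)]
      refine ⟨⟨le_trans (by exact_mod_cast F.N_le_nm hp) hx1,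
        le_trans (by exact_mod_cast F.nm_mono (Finset.erase_subset p x)) hx1, ?_⟩, ?_, ?_, ?_⟩
      · show (x.erase p).card ≤ h
        rw [Finset.card_erase_of_mem hp]
        omega
      · show M < F.N p * F.nm (x.erase p)
        rw [hmul] at hx3
        push_cast at hx3
        exact hx3
      · show (F.N p * F.nm (x.erase p) : ℝ) ≤ 2 * M
        rw [hmul] at hx1
        push_cast at hx1
        exact hx1
      · show M < (F.N p : ℝ) ^ (h + 1)
        exact lt_of_lt_of_le hx3 (by exact_mod_cast hpow))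
  refine h1.trans ?_
  rw [Finset.sum_filter, Finset.sum_product_right]
  unfold ssA
  rw [Finset.mul_sum]
  refine Finset.sum_le_sum fun x hx => ?_
  dsimp only
  have hn := F.nm_posr x
  have h2 : (∑ p ∈ F.pr (2 * M), if M < F.N p * F.nm x ∧ (F.N p * F.nm x : ℝ) ≤ 2 * M ∧
        M < (F.N p : ℝ) ^ (h + 1) then (1 / F.N p : ℝ) * (1 / F.nm x) else 0) =
      (∑ p ∈ (F.pr (2 * M)).filter (fun p => M < F.N p * F.nm x ∧
        (F.N p * F.nm x : ℝ) ≤ 2 * M ∧ M < (F.N p : ℝ) ^ (h + 1)), (1 / F.N p : ℝ)) *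
        (1 / F.nm x) := by
    rw [Finset.sum_filter, Finset.sum_mul]
    refine Finset.sum_congr rfl fun p _ => ?_
    split_ifs <;> ring
  rw [h2]
  refine mul_le_mul_of_nonneg_right ?_ (by positivity)
  rcases Finset.eq_empty_or_nonempty ((F.pr (2 * M)).filter (fun p => M < F.N p * F.nm x ∧
        (F.N p * F.nm x : ℝ) ≤ 2 * M ∧ M < (F.N p : ℝ) ^ (h + 1))) with h3 | ⟨p, hp⟩
  · rw [h3, Finset.sum_empty]
    exact hD
  rw [Finset.mem_filter] at hp
  obtain ⟨_, _, hp2, hp3⟩ := hp
  have hp4 : (2 : ℝ) ≤ F.N p := by exact_mod_cast F.two_le p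
  have hX : 1 ≤ M / F.nm x := by
    rw [le_div_iff₀ hn]
    nlinarith
  have hNp : (F.N p : ℝ) ≤ 2 * (M / F.nm x) := by
    rw [mul_div_assoc', le_div_iff₀ hn]
    exact hp2
  have hsub : (F.pr (2 * M)).filter (fun p => M < F.N p * F.nm x ∧
        (F.N p * F.nm x : ℝ) ≤ 2 * M ∧ M < (F.N p : ℝ) ^ (h + 1)) ⊆
      (F.pr (2 * (M / F.nm x))).filter (fun p => M / F.nm x < F.N p) := by
    intro q hq
    rw [Finset.mem_filter] at hq
    obtain ⟨_, hq1, hq2, _⟩ := hq
    rw [Finset.mem_filter, F.mem_pr (by linarith)]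
    refine ⟨?_, ?_⟩
    · rw [mul_div_assoc', le_div_iff₀ hn]
      exact hq2
    · rw [div_lt_iff₀ hn]
      exact hq1
  refine (Finset.sum_le_sum_of_subset_of_nonneg hsub fun q _ _ => by positivity).trans ?_
  refine (hC _ hX).trans ?_
  have hl : 0 < Real.log (2 * (M / F.nm x)) := Real.log_pos (by linarith)
  have hl1 : Real.log 2 ≤ Real.log (2 * (M / F.nm x)) :=
    Real.log_le_log (by norm_num) (by linarith)
  have hl3 : Real.log M ≤ (h + 1) * Real.log (2 * (M / F.nm x)) := by
    have h4 : Real.log M ≤ Real.log ((F.N p : ℝ) ^ (h + 1)) :=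
      Real.log_le_log (by linarith) hp3.le
    rw [Real.log_pow] at h4
    push_cast at h4
    have h5 : Real.log (F.N p) ≤ Real.log (2 * (M / F.nm x)) :=
      Real.log_le_log (by linarith) hNp
    have h6 : (h + 1 : ℝ) * Real.log (F.N p) ≤ (h + 1) * Real.log (2 * (M / F.nm x)) :=
      mul_le_mul_of_nonneg_left h5 (by positivity)
    linarith
  rw [div_le_div_iff₀ hl (by linarith)]
  have h7 : 1 + Real.log M ≤ (h + 3) * Real.log (2 * (M / F.nm x)) := by
    have := Real.log_two_gt_d9
    nlinarith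
  calc C * (1 + Real.log M) ≤ C * ((h + 3) * Real.log (2 * (M / F.nm x))) :=
        mul_le_mul_of_nonneg_left h7 hC0
    _ = C * (h + 3) * Real.log (2 * (M / F.nm x)) := by ring

/-- reciprocals of the norms of sets with few primes -/
theorem sparse_sum (hch : ∃ C : ℝ, ∀ x : ℝ, 2 ≤ x → ((F.pr x).card : ℝ) ≤ C * x / Real.log x)
    (h : ℕ) : ∃ C : ℝ, ∀ M : ℝ, 1 ≤ M →
      (∑ x ∈ (F.bx M).filter (fun x => x.card ≤ h), (1 / F.nm x : ℝ)) ≤
        C * (1 + Real.log (1 + Real.log M)) ^ h ∧
      (∑ x ∈ (F.bx (2 * M)).filter (fun x => x.card ≤ h ∧ M < F.nm x), (1 / F.nm x : ℝ)) ≤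
        C * (1 + Real.log (1 + Real.log M)) ^ h / (1 + Real.log M) := by
  obtain ⟨C1, hC10, hC1⟩ := F.ss_dyad hch
  obtain ⟨C2, hC20, hC2⟩ := F.ss_prime hch
  have hA : ∀ k : ℕ, ∀ M : ℝ, 1 ≤ M →
      F.ssA k M ≤ (1 + C2) ^ k * (1 + Real.log (1 + Real.log M)) ^ k := by
    intro k M hM
    have hlM : 0 ≤ Real.log M := Real.log_nonneg hM
    have hL : 0 ≤ Real.log (1 + Real.log M) := Real.log_nonneg (by linarith)
    rw [← mul_pow]
    refine (F.ssA_le k M hM).trans (pow_le_pow_left₀ (by linarith [F.ssP_nonneg M]) ?_ k)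
    have := hC2 M hM
    nlinarith
  have hnn : ∀ k : ℕ, 0 ≤ (1 + C2) ^ k := fun k => by positivity
  refine ⟨(1 + C2) ^ h + C1 * (h + 2) * ((1 + C2) ^ h * 2 ^ h), fun M hM => ?_⟩
  have hlM : 0 ≤ Real.log M := Real.log_nonneg hM
  have hL : 0 ≤ Real.log (1 + Real.log M) := Real.log_nonneg (by linarith)
  have hLp : ∀ k : ℕ, 1 ≤ (1 + Real.log (1 + Real.log M)) ^ k := fun k =>
    one_le_pow₀ (by linarith)
  have hE : 0 ≤ C1 * (h + 2) * ((1 + C2) ^ h * 2 ^ h) := by positivity
  constructor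
  · refine (hA h M hM).trans ?_
    exact mul_le_mul_of_nonneg_right (by linarith) (le_trans zero_le_one (hLp h))
  · rcases h with _ | h
    · have h1 : (F.bx (2 * M)).filter (fun x => x.card ≤ 0 ∧ M < F.nm x) = ∅ := by
        rw [Finset.eq_empty_iff_forall_notMem]
        intro x hx
        rw [Finset.mem_filter] at hx
        obtain ⟨_, hx1, hx2⟩ := hx
        rw [Finset.card_eq_zero.1 (Nat.le_zero.1 hx1), F.nm_empty] at hx2
        push_cast at hx2
        linarith
      rw [h1, Finset.sum_empty]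
      positivity
    · have h1 := F.ss_top C1 hC10 hC1 h M hM
      have h2 := hA h (2 * M) (by linarith)
      have h3 : 1 + Real.log (1 + Real.log (2 * M)) ≤ 2 * (1 + Real.log (1 + Real.log M)) := by
        have h4 : 1 + Real.log (2 * M) ≤ 2 * (1 + Real.log M) := by
          rw [Real.log_mul (by norm_num) (by linarith)]
          have := Real.log_two_lt_d9
          linarith
        have h5 : Real.log (1 + Real.log (2 * M)) ≤ Real.log (2 * (1 + Real.log M)) := by
          refine Real.log_le_log ?_ h4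
          have : 0 ≤ Real.log (2 * M) := Real.log_nonneg (by linarith)
          linarith
        have h6 : Real.log (2 * (1 + Real.log M)) = Real.log 2 + Real.log (1 + Real.log M) :=
          Real.log_mul (by norm_num) (by linarith)
        rw [h6] at h5
        have := Real.log_two_lt_d9
        linarith
      have h30 : 0 ≤ 1 + Real.log (1 + Real.log (2 * M)) := by
        have : 0 ≤ Real.log (2 * M) := Real.log_nonneg (by linarith)
        have := Real.log_nonneg (x := 1 + Real.log (2 * M)) (by linarith)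
        linarith
      have h4 : F.ssA h (2 * M) ≤
          (1 + C2) ^ h * (2 * (1 + Real.log (1 + Real.log M))) ^ h :=
        h2.trans (mul_le_mul_of_nonneg_left (pow_le_pow_left₀ h30 h3 h) (hnn h))
      have h5 : F.ssA h (2 * M) ≤ (1 + C2) ^ (h + 1) * 2 ^ (h + 1) *
          (1 + Real.log (1 + Real.log M)) ^ (h + 1) := by
        refine h4.trans ?_
        rw [mul_pow, ← mul_assoc]
        have h6 : (1 + C2) ^ h ≤ (1 + C2) ^ (h + 1) := pow_le_pow_right₀ (by linarith) (by omega)
        have h7 : (2 : ℝ) ^ h ≤ 2 ^ (h + 1) := pow_le_pow_right₀ (by norm_num) (by omega)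
        have h8 : (1 + Real.log (1 + Real.log M)) ^ h ≤ (1 + Real.log (1 + Real.log M)) ^ (h + 1) :=
          pow_le_pow_right₀ (by linarith) (by omega)
        exact mul_le_mul (mul_le_mul h6 h7 (by positivity) (hnn _)) h8 (by positivity)
          (by positivity)
      refine h1.trans ?_
      rw [div_mul_eq_mul_div]
      refine div_le_div_of_nonneg_right ?_ (by linarith)
      have h9 : C1 * (h + 3) * F.ssA h (2 * M) ≤ C1 * (h + 3) * ((1 + C2) ^ (h + 1) *
          2 ^ (h + 1) * (1 + Real.log (1 + Real.log M)) ^ (h + 1)) :=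
        mul_le_mul_of_nonneg_left h5 (by positivity)
      refine h9.trans ?_
      have h10 : 0 ≤ (1 + C2) ^ (h + 1) * (1 + Real.log (1 + Real.log M)) ^ (h + 1) :=
        mul_nonneg (hnn _) (le_trans zero_le_one (hLp _))
      push_cast
      nlinarith

end Sys

end Pool.Agent.H98.MF
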