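import Pool.Agent.H98.MF.GWSparse2
import Pool.Agent.H98.MF.SparseSum

/-!
# Project MK4 (MP_a3214d), block SYS-T: sums with sparse variables, assembly
-/

set_option autoImplicit false

open scoped BigOperators

open Filter

namespace Pool.Agent.H98.MF

open Pool.Agent.H98.MK (sg)
open Pool.Agent.H98.ML (Dt Ext Wt)

namespace Sys

variable (F : Sys) {D : Dt}

theorem t3_congr {ι : Type} [Fintype ι] (w : ι → ℝ) (L : ι → ι → Prop)
    (a b : ι → Finset F.P → ℝ) (Y : ℝ) (h : ∀ l, ∀ x ∈ F.bx Y, a l x = b l x) :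
    F.GW w L a Y = F.GW w L b Y := by
  classical
  unfold Sys.GW
  refine Finset.sum_congr rfl fun x hx => ?_
  have h1 : ∏ i, a i (x i) = ∏ i, b i (x i) :=
    Finset.prod_congr rfl fun i _ => h i _ (Fintype.mem_piFinset.1 hx i)
  rw [h1]

theorem t3_log (N : ℕ) : ∃ C : ℝ, 1 ≤ C ∧ ∀ t : ℝ, 1 ≤ t →
    (1 + Real.log t) ^ N ≤ C * t ^ (1 / 4 : ℝ) := by
  set ε : ℝ := 1 / (4 * (N + 1)) with hε
  have hε0 : 0 < ε := by positivity
  refine ⟨(1 + 1 / ε) ^ N, one_le_pow₀ (by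
    have : 0 < 1 / ε := by positivity
    linarith), fun t ht => ?_⟩
  have ht0 : 0 < t := by linarith
  have hl : 0 ≤ Real.log t := Real.log_nonneg ht
  have h1 := Real.log_le_rpow_div ht0.le hε0
  have h2 : 1 ≤ t ^ ε := Real.one_le_rpow ht hε0.le
  have h3 : 1 + Real.log t ≤ (1 + 1 / ε) * t ^ ε := by
    have : t ^ ε / ε = 1 / ε * t ^ ε := by ring
    rw [this] at h1
    linarith
  refine (pow_le_pow_left₀ (by linarith) h3 N).trans ?_
  rw [mul_pow]
  refine mul_le_mul_of_nonneg_left ?_ (by positivity)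
  rw [← Real.rpow_natCast (t ^ ε) N, ← Real.rpow_mul ht0.le]
  refine Real.rpow_le_rpow_of_exponent_le ht ?_
  rw [hε, one_div_mul_eq_div, div_le_div_iff₀ (by positivity) (by norm_num)]
  linarith

theorem t3_number {Y : ℝ} (hY : 1 ≤ Y) : ∃ I : ℕ, Y ≤ 2 ^ I ∧ (I : ℝ) ≤ 2 * (1 + Real.log Y) := by
  have hl2 : 0 < Real.log 2 := Real.log_pos (by norm_num)
  have hlY : 0 ≤ Real.log Y := Real.log_nonneg hY
  refine ⟨⌈Real.log Y / Real.log 2⌉₊, ?_, ?_⟩
  · have h1 : Real.log Y / Real.log 2 ≤ ⌈Real.log Y / Real.log 2⌉₊ := Nat.le_ceil _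
    rw [div_le_iff₀ hl2] at h1
    rw [← Real.log_le_log_iff (by linarith) (by positivity), Real.log_pow]
    exact h1
  · have h9 : (⌈Real.log Y / Real.log 2⌉₊ : ℝ) < Real.log Y / Real.log 2 + 1 :=
      Nat.ceil_lt_add_one (by positivity)
    have h10 : Real.log Y / Real.log 2 ≤ 2 * Real.log Y := by
      rw [div_le_iff₀ hl2]
      have := Real.log_two_gt_d9
      nlinarith
    linarith

open Classical in
/-- sums with sparse variables, abstract form -/
theorem t3_main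
    (hch : ∃ C : ℝ, ∀ x : ℝ, 2 ≤ x → ((F.pr x).card : ℝ) ≤ C * x / Real.log x)
    {ι : Type} [Fintype ι] (w : ι → ℝ) (hw : ∀ i, 1 ≤ w i) (L : ι → ι → Prop)
    (hL : ∀ i j, L i j → ¬ L j i) (E : ι → Prop)
    (h : ℕ) (c : ι → F.T) (a : ι → Finset F.P → ℝ) (ha : ∀ l x, |a l x| ≤ 1)
    (ha2 : ∀ l x, a l x ≠ 0 → x.Nonempty) (hsp : ∀ l, E l → ∀ x, a l x ≠ 0 → x.card ≤ h)
    (hiso : ∀ i, ¬ E i → w i = 1 → ∀ x, a i x = if x.Nonempty then (F.ps (c i) x : ℝ) else 0)
    (R A : ι → Prop) (hpair : F.T3Pair w L R) (hchar : F.T3Char w L R c)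
    (hR1 : ∀ i, R i → w i = 1) (hAR : ∀ l, A l → ¬ R l) (hAE : ∀ l, A l → ¬ E l)
    (hd : ∀ l, A l → w l = 1 → (c l ≠ 0 ∨ ∃ j, L l j ∨ L j l))
    (hRA : ∀ l, ¬ R l → ¬ A l → E l) :
    ∃ C : ℝ, ∀ Y : ℝ, 1 ≤ Y → |F.GW w L a Y| ≤
      C * Y * (1 + Real.log Y) ^ (Nat.card {l // R l} - 1) *
        (1 + Real.log Y) ^ (1 / 2 : ℝ) := by
  set n : ℕ := Fintype.card ι with hn
  set δ : ℝ := 1 / (4 * (n + 1)) with hδd
  have hδ : 0 < δ := by positivity
  obtain ⟨C1, hC10, hC1⟩ := F.t3_block w hw L hL R hR1 c hpair hchar δ hδ A hAR hd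
  obtain ⟨C2, hC2⟩ := F.GW_triv w hw L R hR1
  obtain ⟨C3, hC3⟩ := F.sparse_sum hch h
  obtain ⟨C4, hC4⟩ := card_bx_le F
  set C0 : ℝ := max C4 1 with hC0d
  have hC01 : 1 ≤ C0 := le_max_right _ _
  have hC00 : 0 ≤ C0 := by linarith
  have hC0 : ∀ t : ℝ, 1 ≤ t → ((F.bx t).card : ℝ) ≤ C0 * t := fun t ht =>
    (hC4 t ht).trans (mul_le_mul_of_nonneg_right (le_max_left _ _) (by linarith))
  set Cs : ℝ := max C3 1 with hCsd
  have hCs1 : 1 ≤ Cs := le_max_right _ _
  obtain ⟨C5, hC51, hC5⟩ := t3_log (h * n)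
  refine ⟨|C2| * ((2 * C0 * Cs) ^ n * C5) + 2 * C1, fun Y hY => ?_⟩
  have hlY : 0 ≤ Real.log Y := Real.log_nonneg hY
  set t : ℝ := 1 + Real.log Y with htd
  have ht : 1 ≤ t := by linarith
  have ht0 : 0 < t := by linarith
  have hlt : 0 ≤ Real.log t := Real.log_nonneg ht
  set r : ℕ := Nat.card {l // R l} - 1 with hr
  have htd1 : 1 ≤ t ^ δ := Real.one_le_rpow ht hδ.le
  set K0 : ℝ := Real.exp (t ^ δ) with hK0
  have hK01 : 1 ≤ K0 := Real.one_le_exp (by linarith)
  -- the cut at `2Y`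
  set a' : ι → Finset F.P → ℝ := fun l x => if E l ∧ 2 * Y < F.nm x then 0 else a l x with ha'
  have ha'0 : ∀ l x, a' l x ≠ 0 → a' l x = a l x := by
    intro l x h1
    simp only [ha'] at h1 ⊢
    split_ifs at h1 ⊢ <;> first | rfl | exact absurd rfl h1
  have ha'1 : ∀ l x, |a' l x| ≤ 1 := by
    intro l x
    by_cases h1 : a' l x = 0
    · rw [h1, abs_zero]
      exact zero_le_one
    · rw [ha'0 l x h1]
      exact ha l x
  have ha'2 : ∀ l x, a' l x ≠ 0 → x.Nonempty := fun l x h1 =>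
    ha2 l x (by rw [← ha'0 l x h1]; exact h1)
  have ha'E : ∀ l, E l → ∀ x, a' l x ≠ 0 → (F.nm x : ℝ) ≤ 2 * Y := by
    intro l hl x h1
    by_contra h2
    push Not at h2
    apply h1
    simp only [ha', if_pos (And.intro hl h2)]
  have ha'iso : ∀ i, A i → w i = 1 → ∀ x, a' i x =
      if x.Nonempty then (F.ps (c i) x : ℝ) else 0 := by
    intro i hi hwi x
    have h1 : ¬ (E i ∧ 2 * Y < F.nm x) := fun h2 => hAE i hi h2.1
    simp only [ha', if_neg h1]
    exact hiso i (hAE i hi) hwi x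
  have hGa : F.GW w L a Y = F.GW w L a' Y := by
    refine F.t3_congr w L a a' Y fun l x hx => ?_
    have h1 := F.mem_bx.1 hx
    have h2 : ¬ (E l ∧ 2 * Y < F.nm x) := fun h3 => by linarith [h3.2]
    simp only [ha', if_neg h2]
  set G : ℝ → ℝ := fun T => F.GW w L (fun l x => if A l ∧ T < F.nm x then 0 else a' l x) Y
    with hG
  have hGbig : ∀ T : ℝ, Y ≤ T → G T = F.GW w L a' Y := by
    intro T hT
    refine F.t3_congr w L _ a' Y fun l x hx => ?_
    have h1 := F.mem_bx.1 hx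
    have h2 : ¬ (A l ∧ T < F.nm x) := fun h3 => by linarith [h3.2]
    simp only [if_neg h2]
  have hB : 0 ≤ t3B R t Y := t3B_nonneg R ht hY
  have hstep : ∀ K : ℝ, K0 ≤ K → |G (2 * K) - G K| ≤ C1 * t3B R t Y := by
    intro K hK
    by_cases hKY : K ≤ Y
    · refine hC1 a' t K (2 * Y) Y ha'1 ha'2 ha'iso ht ?_ hY hK (by linarith) ?_
      · rw [Real.log_mul (by norm_num) (by linarith)]
        have := Real.log_two_lt_d9
        linarith
      · intro l h1 h2 x hx
        exact ha'E l (hRA l h1 h2) x hx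
    · push Not at hKY
      rw [hGbig K hKY.le, hGbig (2 * K) (by linarith), sub_self, abs_zero]
      exact mul_nonneg hC10 hB
  have hsteps : ∀ I : ℕ, |G (K0 * 2 ^ I) - G K0| ≤ I * (C1 * t3B R t Y) := by
    intro I
    induction I with
    | zero => simp
    | succ I ih =>
      have h1 := hstep (K0 * 2 ^ I) (le_mul_of_one_le_right (by linarith)
        (one_le_pow₀ (by norm_num)))
      have h2 : K0 * 2 ^ (I + 1) = 2 * (K0 * 2 ^ I) := by ring
      rw [h2]
      have h3 := abs_sub_le (G (2 * (K0 * 2 ^ I))) (G (K0 * 2 ^ I)) (G K0)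
      push_cast
      linarith
  obtain ⟨I, hI1, hI2⟩ := t3_number hY
  have hI := hsteps I
  have hlast : G (K0 * 2 ^ I) = F.GW w L a' Y := by
    refine hGbig _ (hI1.trans ?_)
    exact le_mul_of_one_le_left (by positivity) hK01
  -- the main part
  have hmain : |G K0| ≤ |C2| * ((2 * C0 * Cs) ^ n * C5) * (Y * t ^ r * t ^ (1 / 2 : ℝ)) := by
    have hCst : 1 ≤ Cs * (1 + Real.log t) ^ h := by
      have h1 : (1 : ℝ) ≤ (1 + Real.log t) ^ h := one_le_pow₀ (by linarith)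
      nlinarith
    have hC0t : 1 ≤ 2 * C0 * t ^ δ := by nlinarith
    have h1 := hC2 (fun l x => if A l ∧ K0 < F.nm x then 0 else a' l x)
      (fun _ => (2 * C0 * t ^ δ) * (Cs * (1 + Real.log t) ^ h)) Y ?_ ?_ hY
    · refine h1.trans ?_
      rw [Finset.prod_const, ← htd]
      have h2 : ((2 * C0 * t ^ δ) * (Cs * (1 + Real.log t) ^ h)) ^
          (Finset.univ.filter (fun l => ¬ R l)).card ≤
          ((2 * C0 * t ^ δ) * (Cs * (1 + Real.log t) ^ h)) ^ n :=
        pow_le_pow_right₀ (by nlinarith) (Finset.card_le_univ _)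
      have h3 : ((2 * C0 * t ^ δ) * (Cs * (1 + Real.log t) ^ h)) ^ n ≤
          (2 * C0 * Cs) ^ n * C5 * t ^ (1 / 2 : ℝ) := by
        have h4 : ((2 * C0 * t ^ δ) * (Cs * (1 + Real.log t) ^ h)) ^ n =
            (2 * C0 * Cs) ^ n * ((t ^ δ) ^ n * (1 + Real.log t) ^ (h * n)) := by
          rw [pow_mul]
          ring
        rw [h4, mul_assoc ((2 * C0 * Cs) ^ n) C5]
        refine mul_le_mul_of_nonneg_left ?_ (by positivity)
        have h5 : (t ^ δ) ^ n ≤ t ^ (1 / 4 : ℝ) := by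
          rw [← Real.rpow_natCast (t ^ δ) n, ← Real.rpow_mul ht0.le]
          refine Real.rpow_le_rpow_of_exponent_le ht ?_
          rw [hδd, one_div_mul_eq_div, div_le_div_iff₀ (by positivity) (by norm_num)]
          linarith
        have h6 := hC5 t ht
        have h7 : t ^ (1 / 2 : ℝ) = t ^ (1 / 4 : ℝ) * t ^ (1 / 4 : ℝ) := by
          rw [← Real.rpow_add ht0]
          norm_num
        have h8 : 0 ≤ t ^ (1 / 4 : ℝ) := Real.rpow_nonneg ht0.le _
        have h9 : 0 ≤ (1 + Real.log t) ^ (h * n) := by positivity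
        calc (t ^ δ) ^ n * (1 + Real.log t) ^ (h * n) ≤
              t ^ (1 / 4 : ℝ) * (C5 * t ^ (1 / 4 : ℝ)) := mul_le_mul h5 h6 h9 h8
          _ = C5 * t ^ (1 / 2 : ℝ) := by
              rw [h7]
              ring
      have h4 : 0 ≤ Y * t ^ r := by positivity
      calc C2 * Y * t ^ r * ((2 * C0 * t ^ δ) * (Cs * (1 + Real.log t) ^ h)) ^
            (Finset.univ.filter (fun l => ¬ R l)).card
          ≤ |C2| * (Y * t ^ r) * ((2 * C0 * t ^ δ) * (Cs * (1 + Real.log t) ^ h)) ^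
            (Finset.univ.filter (fun l => ¬ R l)).card := by
            rw [mul_assoc C2]
            refine mul_le_mul_of_nonneg_right
              (mul_le_mul_of_nonneg_right (le_abs_self C2) h4) (by positivity)
        _ ≤ |C2| * (Y * t ^ r) * ((2 * C0 * Cs) ^ n * C5 * t ^ (1 / 2 : ℝ)) :=
            mul_le_mul_of_nonneg_left (h2.trans h3) (by positivity)
        _ = _ := by ring
    · intro l x
      split_ifs
      · rw [abs_zero]
        exact zero_le_one
      · exact ha'1 l x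
    · intro l hl
      by_cases hAl : A l
      · have h2 : ∑ x ∈ F.bx Y, |(if A l ∧ K0 < F.nm x then (0 : ℝ) else a' l x)| / F.nm x ≤
            ∑ x ∈ F.bx K0, (F.nm x : ℝ)⁻¹ := by
          have h3 : ∀ x ∈ F.bx Y, |(if A l ∧ K0 < F.nm x then (0 : ℝ) else a' l x)| / F.nm x ≤
              if x ∈ F.bx K0 then (F.nm x : ℝ)⁻¹ else 0 := by
            intro x _
            have hp := F.nm_posr x
            by_cases h4 : (F.nm x : ℝ) ≤ K0
            · rw [if_neg (fun h5 => absurd h4 (not_le.2 h5.2)), if_pos (F.mem_bx.2 h4),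
                div_eq_mul_inv]
              exact mul_le_of_le_one_left (by positivity) (ha'1 l x)
            · rw [if_pos ⟨hAl, not_le.1 h4⟩, abs_zero, zero_div]
              split_ifs
              · positivity
              · exact le_rfl
          refine (Finset.sum_le_sum h3).trans ?_
          rw [← Finset.sum_filter]
          refine Finset.sum_le_sum_of_subset_of_nonneg ?_ fun n _ _ => by positivity
          intro x hx
          exact (Finset.mem_filter.1 hx).2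
        have h3 := a15_harm F.toPre C0 hC00 hC0 K0 hK01
        have h4 : Real.log K0 = t ^ δ := Real.log_exp _
        rw [h4] at h3
        have h5 : C0 * (1 + t ^ δ) ≤ 2 * C0 * t ^ δ := by nlinarith
        have h6 : 0 ≤ 2 * C0 * t ^ δ := by linarith
        have h7 : 2 * C0 * t ^ δ ≤ (2 * C0 * t ^ δ) * (Cs * (1 + Real.log t) ^ h) :=
          le_mul_of_one_le_right h6 hCst
        linarith
      · have hEl : E l := hRA l hl hAl
        have h2 : ∑ x ∈ F.bx Y, |(if A l ∧ K0 < F.nm x then (0 : ℝ) else a' l x)| / F.nm x ≤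
            ∑ x ∈ (F.bx Y).filter (fun x => x.card ≤ h), (1 / F.nm x : ℝ) := by
          rw [Finset.sum_filter]
          refine Finset.sum_le_sum fun x _ => ?_
          have hp := F.nm_posr x
          rw [if_neg (fun h5 => hAl h5.1)]
          by_cases h4 : x.card ≤ h
          · rw [if_pos h4]
            exact div_le_div_of_nonneg_right (ha'1 l x) hp.le
          · rw [if_neg h4]
            have h5 : a' l x = 0 := by
              by_contra h6
              exact h4 (hsp l hEl x (by rw [← ha'0 l x h6]; exact h6))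
            rw [h5, abs_zero, zero_div]
        have h3 := (hC3 Y hY).1
        have h4 : 0 ≤ (1 + Real.log t) ^ h := by positivity
        have h5 : C3 * (1 + Real.log t) ^ h ≤ Cs * (1 + Real.log t) ^ h :=
          mul_le_mul_of_nonneg_right (le_max_left _ _) h4
        have h6 : Cs * (1 + Real.log t) ^ h ≤ (2 * C0 * t ^ δ) * (Cs * (1 + Real.log t) ^ h) :=
          le_mul_of_one_le_left (by linarith) hC0t
        exact h2.trans (h3.trans (h5.trans h6))
  have hend : (I : ℝ) * (C1 * t3B R t Y) ≤ 2 * C1 * (Y * t ^ r * t ^ (1 / 2 : ℝ)) := by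
    have h1 : t3B R t Y = Y * t ^ r * t ^ (-2 : ℝ) := rfl
    have h2 : (I : ℝ) * (C1 * t3B R t Y) ≤ 2 * t * (C1 * t3B R t Y) :=
      mul_le_mul_of_nonneg_right hI2 (mul_nonneg hC10 hB)
    refine h2.trans ?_
    have h3 : t * t ^ (-2 : ℝ) ≤ t ^ (1 / 2 : ℝ) := by
      have h4 : t * t ^ (-2 : ℝ) = t ^ (-1 : ℝ) := by
        have h5 : t ^ (1 + -2 : ℝ) = t ^ (1 : ℝ) * t ^ (-2 : ℝ) := Real.rpow_add ht0 _ _
        rw [Real.rpow_one] at h5
        rw [← h5]
        norm_num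
      rw [h4]
      exact Real.rpow_le_rpow_of_exponent_le ht (by norm_num)
    have h4 : 0 ≤ Y * t ^ r := by positivity
    calc 2 * t * (C1 * t3B R t Y) = 2 * C1 * (Y * t ^ r) * (t * t ^ (-2 : ℝ)) := by
          rw [h1]
          ring
      _ ≤ 2 * C1 * (Y * t ^ r) * t ^ (1 / 2 : ℝ) :=
          mul_le_mul_of_nonneg_left h3 (by positivity)
      _ = _ := by ring
  rw [hGa, ← hlast]
  have h1 : |G (K0 * 2 ^ I)| ≤ |G (K0 * 2 ^ I) - G K0| + |G K0| := by
    have := abs_add_le (G (K0 * 2 ^ I) - G K0) (G K0)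
    rwa [sub_add_cancel] at this
  calc |G (K0 * 2 ^ I)| ≤ |G (K0 * 2 ^ I) - G K0| + |G K0| := h1
    _ ≤ 2 * C1 * (Y * t ^ r * t ^ (1 / 2 : ℝ)) +
        |C2| * ((2 * C0 * Cs) ^ n * C5) * (Y * t ^ r * t ^ (1 / 2 : ℝ)) :=
        add_le_add (hI.trans hend) hmain
    _ = _ := by ring

open Classical in
/-- sums with sparse variables, from the bounds for large variables -/
theorem GW_sparse_of
    (hch : ∃ C : ℝ, ∀ x : ℝ, 2 ≤ x → ((F.pr x).card : ℝ) ≤ C * x / Real.log x)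
    {ι : Type} [Fintype ι] (w : ι → ℝ) (hw : ∀ i, 1 ≤ w i) (L : ι → ι → Prop)
    (hL : ∀ i j, L i j → ¬ L j i) (E : ι → Prop)
    (h : ℕ) (c : ι → F.T) (a : ι → Finset F.P → ℝ) (ha : ∀ l x, |a l x| ≤ 1)
    (ha2 : ∀ l x, a l x ≠ 0 → x.Nonempty) (hsp : ∀ l, E l → ∀ x, a l x ≠ 0 → x.card ≤ h)
    (hiso : ∀ i, ¬ E i → w i = 1 → ∀ x, a i x = if x.Nonempty then (F.ps (c i) x : ℝ) else 0)
    (hpair : F.T3Pair w L (fun l => ¬ E l ∧ F.Free w L c l))
    (hchar : F.T3Char w L (fun l => ¬ E l ∧ F.Free w L c l) c) :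
    ∃ C : ℝ, ∀ Y : ℝ, 1 ≤ Y → |F.GW w L a Y| ≤
      C * Y * (1 + Real.log Y) ^ (Nat.card {l // ¬ E l ∧ F.Free w L c l} - 1) *
        (1 + Real.log Y) ^ (1 / 2 : ℝ) := by
  refine F.t3_main hch w hw L hL E h c a ha ha2 hsp hiso (fun l => ¬ E l ∧ F.Free w L c l)
    (fun l => ¬ E l ∧ ¬ F.Free w L c l) hpair hchar (fun i hi => hi.2.1)
    (fun l hl hr => hl.2 hr.2) (fun l hl => hl.1) (fun l hl hwl => ?_) (fun l h1 h2 => ?_)
  · by_contra hcon
    push Not at hcon
    exact hl.2 ⟨hwl, hcon.1, fun j => hcon.2 j⟩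
  · by_contra h3
    exact h2 ⟨h3, fun h4 => h1 ⟨h3, h4⟩⟩

end Sys

end Pool.Agent.H98.MF
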