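import Pool.Agent.H98.MF.TDefs
import Pool.Agent.H98.MF.SGWAn

/-!
# Project MK4 (MP_a3214d), block SYS-T: the trivial bound for sums with one-variable weights
-/

set_option autoImplicit false

open scoped BigOperators

open Filter

namespace Pool.Agent.H98.MF

open Pool.Agent.H98.MK (sg)
open Pool.Agent.H98.ML (Dt Ext Wt)

namespace Sys

variable (F : Sys) {D : Dt}

open Classical in
/-- the product of the bounds -/
theorem t3_prod {ι : Type} [Fintype ι] (R : ι → Prop) (A : ℝ) (hA : 1 ≤ A) (s B : ι → ℝ)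
    (hs0 : ∀ j, 0 ≤ s j) (T : Finset ι) (hT : ∀ l, ¬ R l → l ∈ T) (e : ℕ)
    (he : (T.filter (fun j => R j)).card ≤ e) (h1 : ∀ j, R j → s j ≤ A)
    (h2 : ∀ j, ¬ R j → s j ≤ B j) :
    ∏ j ∈ T, s j ≤ A ^ e * ∏ l ∈ Finset.univ.filter (fun l => ¬ R l), B l := by
  rw [← Finset.prod_filter_mul_prod_filter_not T (fun j => R j)]
  have h3 : T.filter (fun j => ¬ R j) = Finset.univ.filter (fun l => ¬ R l) := by
    ext l
    simp only [Finset.mem_filter, Finset.mem_univ, true_and, and_iff_right_iff_imp]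
    exact hT l
  rw [h3]
  refine mul_le_mul ?_ ?_ (Finset.prod_nonneg fun j _ => hs0 j) (by positivity)
  · refine (Finset.prod_le_prod (fun j _ => hs0 j) fun j hj => h1 j
      (Finset.mem_filter.1 hj).2).trans ?_
    rw [Finset.prod_const]
    exact pow_le_pow_right₀ hA he
  · exact Finset.prod_le_prod (fun j _ => hs0 j) fun j hj => h2 j (Finset.mem_filter.1 hj).2

open Classical in
/-- the trivial bound -/
theorem GW_triv {ι : Type} [Fintype ι] (w : ι → ℝ) (hw : ∀ i, 1 ≤ w i) (L : ι → ι → Prop)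
    (R : ι → Prop) (hR : ∀ i, R i → w i = 1) :
    ∃ C : ℝ, ∀ (a : ι → Finset F.P → ℝ) (B : ι → ℝ) (Y : ℝ), (∀ l x, |a l x| ≤ 1) →
      (∀ l, ¬ R l → ∑ x ∈ F.bx Y, |a l x| / F.nm x ≤ B l) → 1 ≤ Y →
      |F.GW w L a Y| ≤ C * Y * (1 + Real.log Y) ^ (Nat.card {l // R l} - 1) *
        ∏ l ∈ Finset.univ.filter (fun l => ¬ R l), B l := by
  obtain ⟨C1, hC1⟩ := card_bx_le F
  set C0 : ℝ := max C1 1 with hC0d
  have hC01 : 1 ≤ C0 := le_max_right _ _
  have hC00 : 0 ≤ C0 := by linarith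
  have hC0 : ∀ t : ℝ, 1 ≤ t → ((F.bx t).card : ℝ) ≤ C0 * t := fun t ht =>
    (hC1 t ht).trans (mul_le_mul_of_nonneg_right (le_max_left _ _) (by linarith))
  set e : ℕ := Nat.card {l // R l} - 1 with he
  refine ⟨C0 * C0 ^ e, fun a B Y ha hB hY => ?_⟩
  set b : ι → Finset F.P → ℝ := fun j n => |a j n| with hbd
  have hb : ∀ j n, 0 ≤ b j n ∧ b j n ≤ 1 := fun j n => ⟨abs_nonneg _, ha j n⟩
  set s : ι → ℝ := fun j => ∑ x ∈ F.bx Y, b j x * (F.nm x : ℝ) ^ (-(w j)) with hsd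
  have hnn : ∀ (j : ι) (x : Finset F.P), 0 ≤ (F.nm x : ℝ) ^ (-(w j)) := fun j x =>
    Real.rpow_nonneg (F.nm_posr x).le _
  have hs0 : ∀ j, 0 ≤ s j := fun j => Finset.sum_nonneg fun n _ =>
    mul_nonneg (hb j n).1 (hnn j n)
  have hlY : 0 ≤ Real.log Y := Real.log_nonneg hY
  have hinv : ∀ (j : ι) (x : Finset F.P), (F.nm x : ℝ) ^ (-(w j)) ≤ ((F.nm x : ℝ))⁻¹ := by
    intro j x
    rw [← Real.rpow_neg_one]
    exact Real.rpow_le_rpow_of_exponent_le (F.one_le_nmr x) (by linarith [hw j])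
  have h1 : ∀ j, R j → s j ≤ C0 * (1 + Real.log Y) := by
    intro j _
    refine le_trans (Finset.sum_le_sum fun n hn => ?_) (a15_harm F.toPre C0 hC00 hC0 Y hY)
    calc b j n * (F.nm n : ℝ) ^ (-(w j)) ≤ 1 * (F.nm n : ℝ) ^ (-(w j)) :=
          mul_le_mul_of_nonneg_right (hb j n).2 (hnn j n)
      _ = (F.nm n : ℝ) ^ (-(w j)) := one_mul _
      _ ≤ _ := hinv j n
  have h2 : ∀ j, ¬ R j → s j ≤ B j := by
    intro j hj
    refine le_trans (Finset.sum_le_sum fun n _ => ?_) (hB j hj)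
    rw [div_eq_mul_inv]
    exact mul_le_mul_of_nonneg_left (hinv j n) (hb j n).1
  have hG : |F.GW w L a Y| ≤ ∑ x ∈ Fintype.piFinset (fun _ : ι => F.bx Y),
      (if ∏ j, (F.nm (x j) : ℝ) ^ w j ≤ Y then ∏ j, b j (x j) else 0) := by
    unfold Sys.GW
    refine (Finset.abs_sum_le_sum_abs _ _).trans (Finset.sum_le_sum fun x _ => ?_)
    have hnn : 0 ≤ ∏ j, b j (x j) := Finset.prod_nonneg fun j _ => (hb j _).1
    by_cases hc : F.Dj x ∧ ∏ i, (F.nm (x i) : ℝ) ^ w i ≤ Y
    · rw [if_pos hc, if_pos hc.2, abs_mul, Finset.abs_prod, F.abs_jp L x, mul_one]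
    · rw [if_neg hc, abs_zero]
      split_ifs
      · exact hnn
      · exact le_rfl
  refine hG.trans ?_
  have hY0 : 0 ≤ Y := by linarith
  have hA1 : 1 ≤ C0 * (1 + Real.log Y) := by nlinarith
  by_cases hex : ∃ r, R r
  · obtain ⟨r, hr⟩ := hex
    refine (a15_count F.toPre C0 hC00 hC0 w r (hR r hr) b hb Y hY).trans ?_
    have hcard : ((Finset.univ.erase r).filter (fun j => R j)).card ≤ e := by
      rw [he, Nat.card_eq_fintype_card, Fintype.card_subtype]
      have e1 : (Finset.univ.erase r).filter (fun j => R j) =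
          (Finset.univ.filter (fun j => R j)).erase r := by
        ext j
        simp only [Finset.mem_filter, Finset.mem_erase, Finset.mem_univ, and_true, true_and]
      rw [e1, Finset.card_erase_of_mem (by simp [hr])]
    have h4 := t3_prod R (C0 * (1 + Real.log Y)) hA1 s B hs0 (Finset.univ.erase r)
      (fun l hl => Finset.mem_erase.2 ⟨fun h => hl (h ▸ hr), Finset.mem_univ l⟩) e hcard h1 h2
    calc C0 * Y * ∏ j ∈ Finset.univ.erase r, s j ≤ C0 * Y * _ :=
          mul_le_mul_of_nonneg_left h4 (by positivity)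
      _ = _ := by rw [mul_pow]; ring
  · push Not at hex
    refine (a15_count0 F.toPre w b hb Y hY).trans ?_
    have hcard : (Finset.univ.filter (fun j => R j)).card ≤ e := by
      rw [Finset.filter_false_of_mem fun j _ => hex j]
      simp
    have h4 := t3_prod R (C0 * (1 + Real.log Y)) hA1 s B hs0 Finset.univ
      (fun l _ => Finset.mem_univ l) e hcard h1 h2
    have h5 : Y * ∏ j, s j ≤ C0 * Y * ∏ j, s j := by
      have h6 : 0 ≤ Y * ∏ j, s j := mul_nonneg hY0 (Finset.prod_nonneg fun j _ => hs0 j)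
      nlinarith
    refine h5.trans ?_
    calc C0 * Y * ∏ j, s j ≤ C0 * Y * _ := mul_le_mul_of_nonneg_left h4 (by positivity)
      _ = _ := by rw [mul_pow]; ring

end Sys

end Pool.Agent.H98.MF
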