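import Pool.Agent.H98.MF.SBase
import Pool.Agent.H98.MF.TDefs
import Pool.Agent.H98.ML.FDefs

/-!
# Project MK4, row M10: the counting core of the master formula
-/

set_option autoImplicit false

open scoped BigOperators

namespace Pool.Agent.H98.MF

open Pool.Agent.H98.MK (sg)
open Pool.Agent.H98.ML (Dt Ext Wt norb hind)

namespace MA4

theorem one_le {ι : Type} (s : Finset ι) (f : ι → ℝ) (h : ∀ i, 1 ≤ f i) :
    1 ≤ ∏ i ∈ s, f i := by
  calc (1:ℝ) = ∏ i ∈ s, (1:ℝ) := by rw [Finset.prod_const_one]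
    _ ≤ _ := Finset.prod_le_prod (fun _ _ => zero_le_one) fun i _ => h i

theorem single_le {ι : Type} (s : Finset ι) (f : ι → ℝ) (h : ∀ i, 1 ≤ f i) {j : ι}
    (hj : j ∈ s) : f j ≤ ∏ i ∈ s, f i := by
  classical
  rw [← Finset.mul_prod_erase s f hj]
  exact le_mul_of_one_le_right (by linarith [h j]) (one_le _ f h)

/-- regrouping by the value of a function -/
theorem group {ι : Type} [Fintype ι] (c : ι → ℕ) (Q : Finset ℕ) (hc : ∀ z, c z ∈ Q)
    (f : ℕ → ℝ) : ∑ z, f (c z) = ∑ t ∈ Q, (Nat.card {z // c z = t} : ℝ) * f t := by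
  classical
  rw [← Finset.sum_fiberwise_of_maps_to (s := Finset.univ) (t := Q) (g := c)
    (fun z _ => hc z)]
  refine Finset.sum_congr rfl fun t _ => ?_
  rw [Finset.sum_congr rfl (g := fun _ => f t) (fun z hz => by rw [(Finset.mem_filter.1 hz).2]),
    Finset.sum_const, nsmul_eq_mul, Nat.card_eq_fintype_card, Fintype.card_subtype]

variable {D : Dt}

theorem size_iff (H0 : Subgroup (Ext D)) (w : Wt D) (hw : w.ind = hind H0)
    (n : Ext D → ℕ) (h1 : n 1 = 1) (q : ℕ) (hq : 0 < q) {X : ℝ} (hX : 1 ≤ X) :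
    (((q * ∏ g, n g ^ hind H0 g : ℕ) : ℝ) ≤ X) ↔
      ∏ g, (n g : ℝ) ^ w.wt g ≤ (X / q) ^ (1 / w.m : ℝ) := by
  have hm : (0:ℝ) < w.m := by exact_mod_cast w.pos
  have hX0 : 0 < X := by linarith
  have hq0 : (0:ℝ) < q := by exact_mod_cast hq
  set P : ℝ := ∏ g, (n g : ℝ) ^ w.wt g with hP
  have hP0 : 0 ≤ P := Finset.prod_nonneg fun v _ => Real.rpow_nonneg (Nat.cast_nonneg _) _
  have hY0 : 0 ≤ (X / q) ^ (1 / w.m : ℝ) := by positivity
  rw [← Real.rpow_le_rpow_iff hP0 hY0 hm]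
  have e1 : ((X / q) ^ (1 / w.m : ℝ)) ^ (w.m : ℝ) = X / q := by
    rw [← Real.rpow_mul (by positivity)]
    have e2 : (1 / w.m : ℝ) * (w.m : ℝ) = 1 := by field_simp
    rw [e2, Real.rpow_one]
  have e4 : P ^ (w.m : ℝ) = ((∏ g, n g ^ hind H0 g : ℕ) : ℝ) := by
    rw [hP, ← Real.finsetProd_rpow _ _ (fun v _ => Real.rpow_nonneg (Nat.cast_nonneg _) _)]
    push_cast
    refine Finset.prod_congr rfl fun g _ => ?_
    rw [← Real.rpow_mul (Nat.cast_nonneg _)]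
    by_cases hg : g = 1
    · rw [hg, h1]
      simp
    · unfold Wt.wt
      rw [if_neg hg, div_mul_cancel₀ _ hm.ne', Real.rpow_natCast, hw]
  rw [e1, e4, le_div_iff₀ hq0, mul_comm]
  push_cast
  rw [mul_comm]

theorem one_le_wt (w : Wt D) (g : Ext D) : 1 ≤ w.wt g := by
  have hp : (0:ℝ) < w.m := by exact_mod_cast w.pos
  unfold Wt.wt
  split_ifs with hg
  · exact le_rfl
  · rw [le_div_iff₀ hp, one_mul]
    exact_mod_cast w.min g hg

/-- the variables are bounded by the size -/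
theorem le_size (w : Wt D) (n : Ext D → ℕ) (hm : ∀ g, 1 ≤ n g) {Y : ℝ}
    (h : ∏ g, (n g : ℝ) ^ w.wt g ≤ Y) (g : Ext D) : (n g : ℝ) ≤ Y := by
  have h1 : ∀ g, 1 ≤ (n g : ℝ) := fun g => by exact_mod_cast hm g
  have h3 : ∀ g, (n g : ℝ) ≤ (n g : ℝ) ^ w.wt g := by
    intro g
    calc (n g : ℝ) = (n g : ℝ) ^ (1:ℝ) := (Real.rpow_one _).symm
      _ ≤ _ := Real.rpow_le_rpow_of_exponent_le (h1 g) (one_le_wt w g)
  calc (n g : ℝ) ≤ (n g : ℝ) ^ w.wt g := h3 g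
    _ ≤ ∏ g, (n g : ℝ) ^ w.wt g :=
      single_le _ _ (fun g => (h1 g).trans (h3 g)) (Finset.mem_univ g)
    _ ≤ Y := h

variable (S : Sys)

open Classical in
/-- enlarging the box -/
theorem Sg_box (w : Wt D) (Θ : (Fin S.m → D.V) → (Ext D → Finset S.P) → ℝ) (Y Y0 : ℝ)
    (h : Y ≤ Y0) : S.Sg w Θ Y = ∑ a : Fin S.m → D.V,
      ∑ x ∈ Fintype.piFinset (fun _ : Ext D => S.bx Y0), if S.Cf w Y a x then Θ a x else 0 := by
  unfold Sys.Sg
  refine Finset.sum_congr rfl fun a _ => ?_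
  refine Finset.sum_subset (Fintype.piFinset_subset _ _ fun _ => S.bx_mono h) fun x _ hx => ?_
  rw [if_neg]
  intro hc
  apply hx
  rw [Fintype.mem_piFinset]
  intro g
  rw [S.mem_bx]
  exact le_size w (fun g => S.nm (x g)) (fun g => S.one_le_nm (x g)) hc.2.2.1 g

open Classical in
/-- the counting core of the master formula -/
theorem count (H0 : Subgroup (Ext D)) (w : Wt D) (hw : w.ind = hind H0)
    (Gd : (Fin S.m → D.V) → (Ext D → Finset S.P) → Prop)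
    (hG : ∀ a y, Gd a y → y 1 = ∅ ∧ S.Dj y ∧ ∀ g, ∀ p ∈ y g, S.okp a (S.mV y) g.v p)
    (qf : (Fin S.m → D.V) → (Fin S.m → D.Z) → (Ext D → Finset S.P) → ℕ)
    (Q : Finset ℕ) (hQ : ∀ q ∈ Q, 0 < q)
    (Nt : ℕ → (Fin S.m → D.V) → (Ext D → Finset S.P) → ℕ)
    (h1 : ∀ a y, Gd a y → ∀ b, qf a b y ∈ Q)
    (h2 : ∀ a y, Gd a y → ∀ q ∈ Q, Nat.card {b // qf a b y = q} = Nt q a y)
    (X : ℝ) (hX : 1 ≤ X) :
    (Nat.card {t : ((Fin S.m → D.V) × (Fin S.m → D.Z)) × (Ext D → Finset S.P) //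
      Gd t.1.1 t.2 ∧ ((qf t.1.1 t.1.2 t.2 * ∏ g, S.nm (t.2 g) ^ hind H0 g : ℕ) : ℝ) ≤ X} : ℝ) =
    ∑ q ∈ Q, S.Sg w (fun a y => if Gd a y then (Nt q a y : ℝ) else 0)
      ((X / q) ^ (1 / w.m : ℝ)) := by
  have hX0 : (0:ℝ) < X := by linarith
  have hmp : (0:ℝ) < w.m := by exact_mod_cast w.pos
  set Y0 : ℝ := X ^ (1 / w.m : ℝ) with hY0
  have hY : ∀ q ∈ Q, (X / q) ^ (1 / w.m : ℝ) ≤ Y0 := by
    intro q hq
    have hq1 : (1:ℝ) ≤ q := by exact_mod_cast hQ q hq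
    apply Real.rpow_le_rpow (by positivity) (div_le_self hX0.le hq1) (by positivity)
  set PM := Fintype.piFinset (fun _ : Ext D => S.bx Y0) with hPM
  have hn1 : ∀ a y, Gd a y → S.nm (y 1) = 1 := by
    intro a y h
    rw [(hG a y h).1]
    rfl
  set T : Finset (((Fin S.m → D.V) × (Fin S.m → D.Z)) × (Ext D → Finset S.P)) :=
    (Finset.univ ×ˢ PM).filter fun t =>
      Gd t.1.1 t.2 ∧ ((qf t.1.1 t.1.2 t.2 * ∏ g, S.nm (t.2 g) ^ hind H0 g : ℕ) : ℝ) ≤ X with hT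
  have hc : Nat.card {t : ((Fin S.m → D.V) × (Fin S.m → D.Z)) × (Ext D → Finset S.P) //
      Gd t.1.1 t.2 ∧ ((qf t.1.1 t.1.2 t.2 * ∏ g, S.nm (t.2 g) ^ hind H0 g : ℕ) : ℝ) ≤ X} =
      T.card := by
    apply Nat.subtype_card
    intro t
    rw [hT, Finset.mem_filter, Finset.mem_product]
    refine ⟨fun h => h.2, fun h => ⟨⟨Finset.mem_univ _, ?_⟩, h⟩⟩
    rw [hPM, Fintype.mem_piFinset]
    intro g
    rw [S.mem_bx]
    have hq := h1 t.1.1 t.2 h.1 t.1.2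
    have h3 := (size_iff H0 w hw (fun g => S.nm (t.2 g)) (hn1 _ _ h.1) _ (hQ _ hq) hX).1 h.2
    exact le_size w (fun g => S.nm (t.2 g)) (fun g => S.one_le_nm (t.2 g)) (h3.trans (hY _ hq)) g
  rw [hc, hT, Finset.card_filter, Finset.sum_product, Fintype.sum_prod_type]
  push_cast
  have hR : ∀ q ∈ Q, S.Sg w (fun a y => if Gd a y then (Nt q a y : ℝ) else 0)
      ((X / q) ^ (1 / w.m : ℝ)) = ∑ a : Fin S.m → D.V, ∑ y ∈ PM,
        if S.Cf w ((X / q) ^ (1 / w.m : ℝ)) a y then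
          (if Gd a y then (Nt q a y : ℝ) else 0) else 0 := by
    intro q hq
    exact Sg_box S w _ _ _ (hY q hq)
  rw [Finset.sum_congr rfl hR]
  conv_rhs => rw [Finset.sum_comm]
  refine Finset.sum_congr rfl fun a _ => ?_
  conv_lhs => rw [Finset.sum_comm]
  conv_rhs => rw [Finset.sum_comm]
  refine Finset.sum_congr rfl fun y _ => ?_
  by_cases hg : Gd a y
  · have h3 := group (fun b => qf a b y) Q (h1 a y hg)
      (fun q => if ((q * ∏ g, S.nm (y g) ^ hind H0 g : ℕ) : ℝ) ≤ X then (1 : ℝ) else 0)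
    have h4 : ∀ b : Fin S.m → D.Z, (if Gd a y ∧ ((qf a b y : ℝ) *
        ∏ g, (S.nm (y g) : ℝ) ^ hind H0 g) ≤ X then (1 : ℝ) else 0) =
        if ((qf a b y * ∏ g, S.nm (y g) ^ hind H0 g : ℕ) : ℝ) ≤ X then (1 : ℝ) else 0 := by
      intro b
      push_cast
      simp only [hg, true_and]
    rw [Finset.sum_congr rfl fun b _ => h4 b, h3]
    refine Finset.sum_congr rfl fun q hq => ?_
    rw [h2 a y hg q hq, if_pos hg]
    have h5 := size_iff H0 w hw (fun g => S.nm (y g)) (hn1 _ _ hg) q (hQ q hq) hX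
    obtain ⟨g1, g2, g3⟩ := hG a y hg
    by_cases h6 : ((q * ∏ g, S.nm (y g) ^ hind H0 g : ℕ) : ℝ) ≤ X
    · rw [if_pos h6, if_pos ⟨g1, g2, h5.1 h6, g3⟩, mul_one]
    · rw [if_neg h6, if_neg (fun hc => h6 (h5.2 hc.2.2.1)), mul_zero]
  · simp only [hg, false_and, if_false, Finset.sum_const_zero, ite_self]

end MA4

end Pool.Agent.H98.MF
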