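import Pool.Agent.H98.MF.MainAlg4A
import Pool.Agent.H98.MF.MDefs
import Pool.Agent.H98.MF.C.Stm
import Pool.Agent.H98.MF.Conf

/-!
# Project MK4, row M10: the master formula over a number field, from the statements of the rows
-/

set_option autoImplicit false

open scoped BigOperators Pointwise
open NumberField IsDedekindDomain Filter

namespace Pool.Agent.H98.MF

open Pool.Agent.H98.MK (sg)
open Pool.Agent.H98.ML (Dt Ext Wt norb hind)

namespace Frm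

variable {k : Type} [Field k] [NumberField k] (F : Frm k)

open Classical in
/-- the statements of the rows M1, M2, M4, M5, M6, M9 used in the row M10 -/
structure M10Hyp (R : Rx k) (D : Dt) (H0 : Subgroup (Ext D)) : Prop where
  par_inj : ∀ z z' : F.I →₀ D.Z, F.par z = F.par z' → z = z'
  hom_param : ∀ ρ : Gm k →* Ext D, IsLocallyConstant ρ →
    ∃ (x : F.I →₀ D.V) (f : Gm k → D.Z) (h : F.IsLift D x f), ρ = lh h
  lh_inj : ∀ {x x' : F.I →₀ D.V} {f f' : Gm k → D.Z} (h : F.IsLift D x f)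
    (h' : F.IsLift D x' f'), lh h = lh h' → x = x' ∧ f = f'
  lift_diff : ∀ {x : F.I →₀ D.V} {f f' : Gm k → D.Z}, F.IsLift D x f → F.IsLift D x f' →
    ∃ z : F.I →₀ D.Z, ∀ σ, f' σ = f σ + F.par z σ
  lh_surj : ∀ {x : F.I →₀ D.V} {f : Gm k → D.Z} (h : F.IsLift D x f),
    Function.Surjective (lh h) ↔ Submodule.span (ZMod 2) (Set.range x) = ⊤
  lh_lc : ∀ {x : F.I →₀ D.V} {f : Gm k → D.Z} (h : F.IsLift D x f), IsLocallyConstant (lh h)
  nec : ∀ {x : F.I →₀ D.V} {f : Gm k → D.Z}, F.IsLift D x f → F.Sol D x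
  locL : ∀ {x : F.I →₀ D.V} {a : Fin F.sys.m → D.V} {δ : D.V → F.sys.T}, F.Dat x a δ →
    ((∀ v ∈ pls F.S, F.LocL D x v) ↔ F.solS D a δ)
  rd : ∀ {x : F.I →₀ D.V} {f : Gm k → D.Z} (h : F.IsNormal R D x f)
    (a : Fin F.sys.m → D.V) (b : Fin F.sys.m → D.Z) (y : Ext D → Finset F.sys.P),
    y 1 = ∅ → F.sys.Dj y → x = F.xOf a y → Submodule.span (ZMod 2) (Set.range x) = ⊤ →
    rdN (fld k (H0.comap (lh (h.toIsLift.add (F.zOf b y))))) =
      F.qS R H0 (lh (h.toIsLift.add (F.zOf b y))) * ∏ g, F.sys.nm (y g) ^ hind H0 g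
  inv : ∃ (nf : (F.I →₀ D.V) → Gm k → D.Z) (Q : Finset ℕ)
      (Nt : ℕ → (Fin F.sys.m → D.V) → (D.V → F.sys.T) → (Fin F.sys.m → D.Z) → ℕ)
      (E : (Fin F.sys.m → D.V) → (Ext D → Finset F.sys.P) → (Fin F.sys.m → D.Z)),
      (∀ q ∈ Q, 0 < q) ∧
      (∃ q ∈ Q, ∃ e, 1 ≤ Nt q 0 0 e) ∧
      (∀ a y, F.Good D a y → ∀ g p, p ∈ y g → ∀ z' : D.Z, z' ≠ 0 →
        E a (F.sys.mv y g ⟨g.v, g.z + z'⟩ p) = fun j => E a y j + F.sys.ty p j • z') ∧
      (∀ x, F.Sol D x → F.IsNormal R D x (nf x)) ∧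
      ∀ a y, F.Good D a y → ∀ h : F.IsNormal R D (F.xOf a y) (nf (F.xOf a y)),
        (∀ b, F.qS R H0 (lh (h.toIsLift.add (F.zOf b y))) ∈ Q) ∧
        ∀ q ∈ Q, Nat.card {b : Fin F.sys.m → D.Z //
          F.qS R H0 (lh (h.toIsLift.add (F.zOf b y))) = q} =
            Nt q a (fun v => F.sys.tys (F.sys.mV y v)) (E a y)

/-- the data of a good configuration are solvable -/
theorem m10_sol {R : Rx k} {D : Dt} {H0 : Subgroup (Ext D)} (hh : F.M10Hyp R D H0)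
    {a : Fin F.sys.m → D.V} {y : Ext D → Finset F.sys.P} (h : F.Good D a y) :
    F.Sol D (F.xOf a y) := by
  obtain ⟨h1, h2, h3, h4, h5⟩ := h
  obtain ⟨h6, h7⟩ := F.conf_data a y h1 h2
  exact ⟨h7.2 h3, (hh.locL h6).2 h5⟩

theorem m10_good {D : Dt} {a : Fin F.sys.m → D.V} {y : Ext D → Finset F.sys.P}
    (h1 : y 1 = ∅) (h2 : F.sys.Dj y) (h : F.Sol D (F.xOf a y))
    (hs : Submodule.span (ZMod 2) (Set.range (F.xOf a y)) = ⊤) : F.Good D a y := by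
  obtain ⟨h6, h7⟩ := F.conf_data a y h1 h2
  exact ⟨h1, h2, h7.1 h.1, hs, F.xOf a y, h6, h.2⟩

open Classical in
theorem main_alg4_of (R : Rx k) (D : Dt) (H0 : Subgroup (Ext D)) (w : Wt D)
    (hw : w.ind = hind H0) (hh : F.M10Hyp R D H0) :
    ∃ (Q : Finset ℕ)
      (Nt : ℕ → (Fin F.sys.m → D.V) → (D.V → F.sys.T) → (Fin F.sys.m → D.Z) → ℕ)
      (E : (Fin F.sys.m → D.V) → (Ext D → Finset F.sys.P) → (Fin F.sys.m → D.Z)),
      (∀ q ∈ Q, 0 < q) ∧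
      (∃ q ∈ Q, ∃ e, 1 ≤ Nt q 0 0 e) ∧
      (∀ a y, F.Good D a y → ∀ g p, p ∈ y g → ∀ z' : D.Z, z' ≠ 0 →
        E a (F.sys.mv y g ⟨g.v, g.z + z'⟩ p) = fun j => E a y j + F.sys.ty p j • z') ∧
      ∀ X : ℝ, 1 ≤ X →
        (Nat.card {ρ : Gm k →* Ext D // Function.Surjective ρ ∧ IsLocallyConstant ρ ∧
          (rdN (fld k (H0.comap ρ)) : ℝ) ≤ X} : ℝ) =
        ∑ q ∈ Q, F.sys.Sg w (fun a y => if F.Good D a y then
          (Nt q a (fun v => F.sys.tys (F.sys.mV y v)) (E a y) : ℝ) else 0)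
            ((X / q) ^ (1 / w.m : ℝ)) := by
  obtain ⟨nf, Q, Nt, E, hQ, hpos, hE, hnf, hmain⟩ := hh.inv
  refine ⟨Q, Nt, E, hQ, hpos, hE, fun X hX => ?_⟩
  have hqf : ∃ qf : (Fin F.sys.m → D.V) → (Fin F.sys.m → D.Z) → (Ext D → Finset F.sys.P) → ℕ,
      ∀ a b y (h : F.Good D a y), qf a b y =
        F.qS R H0 (lh ((hnf _ (F.m10_sol hh h)).toIsLift.add (F.zOf b y))) := by
    refine ⟨fun a b y => if h : F.Good D a y then
      F.qS R H0 (lh ((hnf _ (F.m10_sol hh h)).toIsLift.add (F.zOf b y))) else 0,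
      fun a b y h => ?_⟩
    simp only [dif_pos h]
  obtain ⟨qf, hqf⟩ := hqf
  have hcount := MA4.count F.sys H0 w hw (fun a y => F.Good D a y)
    (fun a y h => ⟨h.1, h.2.1, h.2.2.1⟩) qf Q hQ
    (fun q a y => Nt q a (fun v => F.sys.tys (F.sys.mV y v)) (E a y))
    (fun a y h b => by
      rw [hqf a b y h]
      exact (hmain a y h (hnf _ (F.m10_sol hh h))).1 b)
    (fun a y h q hq => by
      rw [← (hmain a y h (hnf _ (F.m10_sol hh h))).2 q hq]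
      refine Nat.card_congr (Equiv.subtypeEquivRight fun b => ?_)
      rw [hqf a b y h]) X hX
  rw [← hcount]
  congr 1
  symm
  have hrd : ∀ a b y (h : F.Good D a y),
      rdN (fld k (H0.comap (lh ((hnf _ (F.m10_sol hh h)).toIsLift.add (F.zOf b y))))) =
        qf a b y * ∏ g, F.sys.nm (y g) ^ hind H0 g := by
    intro a b y h
    rw [hqf a b y h]
    exact hh.rd (hnf _ (F.m10_sol hh h)) a b y h.1 h.2.1 rfl h.2.2.2.1
  refine Nat.card_congr (Equiv.ofBijective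
    (fun t => ⟨lh ((hnf _ (F.m10_sol hh t.2.1)).toIsLift.add (F.zOf t.1.1.2 t.1.2)),
      (hh.lh_surj _).2 t.2.1.2.2.2.1, hh.lh_lc _, ?_⟩) ⟨?_, ?_⟩)
  · rw [hrd t.1.1.1 t.1.1.2 t.1.2 t.2.1]
    exact t.2.2
  · rintro ⟨⟨⟨a, b⟩, y⟩, hg, hX1⟩ ⟨⟨⟨a', b'⟩, y'⟩, hg', hX1'⟩ he
    have h1 := congrArg Subtype.val he
    simp only at h1 hg hg'
    obtain ⟨h2, h3⟩ := hh.lh_inj _ _ h1
    have h4 : F.par (F.zOf b y) = F.par (F.zOf b' y') := by
      funext σ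
      have h5 : nf (F.xOf a y) σ + F.par (F.zOf b y) σ =
          nf (F.xOf a' y') σ + F.par (F.zOf b' y') σ := congrFun h3 σ
      rw [← h2] at h5
      exact add_left_cancel h5
    have h5 := hh.par_inj _ _ h4
    obtain ⟨u, -, hu⟩ := F.conf_bij (F.xOf a y) (F.zOf b y)
    have h6 := hu ((a, b), y) ⟨hg.1, hg.2.1, rfl, rfl⟩
    have h7 := hu ((a', b'), y') ⟨hg'.1, hg'.2.1, h2, h5⟩
    apply Subtype.ext
    exact h6.trans h7.symm
  · rintro ⟨ρ, hsur, hlc, hX1⟩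
    obtain ⟨x, f, h, rfl⟩ := hh.hom_param ρ hlc
    have hs := hh.nec h
    obtain ⟨z, hfz⟩ := hh.lift_diff (hnf x hs).toIsLift h
    have hf : f = fun σ => nf x σ + F.par z σ := funext hfz
    subst hf
    have hsp := (hh.lh_surj h).1 hsur
    obtain ⟨⟨⟨a, b⟩, y⟩, ⟨h1, h2, h3, h4⟩, -⟩ := F.conf_bij x z
    simp only at h1 h2 h3 h4
    subst h3 h4
    have hg : F.Good D a y := F.m10_good h1 h2 hs hsp
    refine ⟨⟨((a, b), y), hg, ?_⟩, rfl⟩
    have h5 := hrd a b y hg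
    rw [← h5]
    exact hX1

end Frm

end Pool.Agent.H98.MF
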