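import Pool.Agent.H98.MF.LocTriv

/-!
# Project MK4 (MP_a3214d), row M5a: necessity of the local conditions over a number field
-/

set_option autoImplicit false

open scoped BigOperators Pointwise
open NumberField IsDedekindDomain Filter

namespace Pool.Agent.H98.MF

open Pool.Agent.H98.MK (sg)
open Pool.Agent.H98.ML (Dt Ext Wt norb hind)

namespace Frm

variable {k : Type} [Field k] [NumberField k] (F : Frm k)

theorem nec4 (hL : LIn k) {D : Dt} {x : F.I →₀ D.V} {f : Gm k → D.Z} (h : F.IsLift D x f) :
    F.Sol D x := by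
  refine ⟨fun p => ?_, fun v _ => h.locL F v⟩
  rw [F.okx_iff hL]
  intro s
  rw [← hL.triv]
  exact (F.locL_iff D x (Sum.inl (F.pl p))).1 (h.locL F _) s

end Frm

end Pool.Agent.H98.MF
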