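import Pool.Agent.H98.MF.NormalK
import Pool.Agent.H98.ML.CountParamOf

/-!
# Project MK4, row MF-M4: the relative discriminant of a configuration (helper78)
-/

set_option autoImplicit false

open scoped BigOperators Pointwise
open NumberField IsDedekindDomain Filter

namespace Pool.Agent.H98.MF

open Pool.Agent.H98.MK (sg)
open Pool.Agent.H98.ML (Dt Ext Wt norb hind)

namespace Frm

variable {k : Type} [Field k] [NumberField k] (F : Frm k)

/-- the values at the primes of a sum of single values -/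
theorem rd_sum_inr {D : Dt} {r : ℕ} (a : Fin F.sys.m → (Fin r → ZMod 2))
    (c : Ext D → (Fin r → ZMod 2)) (y : Ext D → Finset F.sys.P) (p : F.sys.P) :
    ((∑ j, Finsupp.single (Sum.inl j : F.I) (a j) +
      ∑ g, ∑ q ∈ y g, Finsupp.single (Sum.inr q : F.I) (c g) : F.I →₀ (Fin r → ZMod 2)))
        (Sum.inr p) = ∑ g, if p ∈ y g then c g else 0 := by
  classical
  rw [Finsupp.add_apply, Finsupp.finsetSum_apply, Finsupp.finsetSum_apply]
  have h1 : ∀ j ∈ (Finset.univ : Finset (Fin F.sys.m)),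
      (Finsupp.single (Sum.inl j : F.I) (a j)) (Sum.inr p) = 0 := fun j _ =>
    Finsupp.single_eq_of_ne (by simp)
  rw [Finset.sum_eq_zero h1, zero_add]
  refine Finset.sum_congr rfl fun g _ => ?_
  rw [Finsupp.finsetSum_apply]
  by_cases hp : p ∈ y g
  · rw [if_pos hp, Finset.sum_eq_single_of_mem p hp]
    · exact Finsupp.single_eq_same
    · intro q _ hq
      exact Finsupp.single_eq_of_ne (fun h => hq (Sum.inr_injective h).symm)
  · rw [if_neg hp]
    refine Finset.sum_eq_zero fun q hq => ?_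
    refine Finsupp.single_eq_of_ne (fun h => hp ?_)
    rw [Sum.inr_injective h]
    exact hq

theorem rd_mem {D : Dt} {r : ℕ} (c : Ext D → (Fin r → ZMod 2)) (y : Ext D → Finset F.sys.P)
    (hD : F.sys.Dj y) (g : Ext D) (p : F.sys.P) (hp : p ∈ y g) :
    (∑ g, if p ∈ y g then c g else 0) = c g := by
  classical
  rw [Finset.sum_eq_single g]
  · exact if_pos hp
  · intro g' _ hg'
    exact if_neg fun h => Finset.disjoint_left.1 (hD g' g hg') h hp
  · intro h
    exact absurd (Finset.mem_univ g) h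

theorem rd_notMem {D : Dt} {r : ℕ} (c : Ext D → (Fin r → ZMod 2))
    (y : Ext D → Finset F.sys.P) (p : F.sys.P) (hp : ∀ g, p ∉ y g) :
    (∑ g, if p ∈ y g then c g else 0) = 0 := by
  classical
  exact Finset.sum_eq_zero fun g _ => if_neg (hp g)

theorem rd_param_of (R : Rx k)
    (lh_surj : ∀ {D : Dt} {x : F.I →₀ D.V} {f : Gm k → D.Z} (h : F.IsLift D x f),
      Function.Surjective (lh h) ↔ Submodule.span (ZMod 2) (Set.range x) = ⊤)
    (lh_lc : ∀ {D : Dt} {x : F.I →₀ D.V} {f : Gm k → D.Z} (h : F.IsLift D x f),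
      IsLocallyConstant (lh h))
    (par_tau : ∀ {r : ℕ} (x : F.I →₀ (Fin r → ZMod 2)) (p : F.sys.P),
      F.par x (R.tau (F.pl p)) = x (Sum.inr p))
    (lh_tau : ∀ {D : Dt} {x : F.I →₀ D.V} {f : Gm k → D.Z} (h : F.IsLift D x f)
      (p : F.sys.P), lh h (R.tau (F.pl p)) = ⟨x (Sum.inr p), f (R.tau (F.pl p))⟩)
    (rex_tau : ∀ {D : Dt} (H0 : Subgroup (Ext D)) (ρ : Gm k →* Ext D),
      IsLocallyConstant ρ → Function.Surjective ρ → ∀ p : F.sys.P,
      R.rex (F.pl p) (H0.comap ρ) = hind H0 (ρ (R.tau (F.pl p))))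
    {D : Dt} (H0 : Subgroup (Ext D)) {x : F.I →₀ D.V}
    {f : Gm k → D.Z} (h : F.IsNormal R D x f)
    (a : Fin F.sys.m → D.V) (b : Fin F.sys.m → D.Z) (y : Ext D → Finset F.sys.P)
    (_h1 : y 1 = ∅) (hD : F.sys.Dj y) (hx : x = F.xOf a y)
    (hs : Submodule.span (ZMod 2) (Set.range x) = ⊤) :
    rdN (fld k (H0.comap (lh (h.toIsLift.add (F.zOf b y))))) =
      F.qS R H0 (lh (h.toIsLift.add (F.zOf b y))) * ∏ g, F.sys.nm (y g) ^ hind H0 g := by
  classical
  have hl := h.toIsLift.add (F.zOf b y)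
  set ρ : Gm k →* Ext D := lh (h.toIsLift.add (F.zOf b y)) with hρ
  have hlc : IsLocallyConstant ρ := lh_lc hl
  have hsu : Function.Surjective ρ := (lh_surj hl).2 hs
  have hopen : IsOpen ((H0.comap ρ : Subgroup (Gm k)) : Set (Gm k)) := hlc (H0 : Set (Ext D))
  have htau : ∀ p : F.sys.P, ρ (R.tau (F.pl p)) =
      ⟨∑ g, (if p ∈ y g then g.v else 0), ∑ g, if p ∈ y g then g.z else 0⟩ := by
    intro p
    rw [hρ, lh_tau]
    apply Ext.ext
    · show x (Sum.inr p) = _
      rw [hx]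
      exact F.rd_sum_inr a (fun g => g.v) y p
    · show f (R.tau (F.pl p)) + F.par (F.zOf b y) (R.tau (F.pl p)) = _
      rw [h.nor, zero_add, par_tau]
      exact F.rd_sum_inr b (fun g => g.z) y p
  have hrex : ∀ g, ∀ p ∈ y g, R.rex (F.pl p) (H0.comap ρ) = hind H0 g := by
    intro g p hp
    rw [rex_tau H0 ρ hlc hsu, htau, F.rd_mem (fun g : Ext D => g.v) y hD g p hp,
      F.rd_mem (fun g : Ext D => g.z) y hD g p hp]
  have hrex0 : ∀ p, (∀ g, p ∉ y g) → R.rex (F.pl p) (H0.comap ρ) = 0 := by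
    intro p hp
    rw [rex_tau H0 ρ hlc hsu, htau, F.rd_notMem (fun g : Ext D => g.v) y p hp,
      F.rd_notMem (fun g : Ext D => g.z) y p hp]
    exact Pool.Agent.H98.ML.m7_hind_one H0
  rw [R.prod _ hopen]
  set X : Finset F.sys.P := Finset.univ.biUnion y with hX
  rw [finprod_eq_prod_of_mulSupport_subset (s := F.S ∪ X.map ⟨F.pl, F.pl_inj⟩)]
  · have hdis : Disjoint F.S (X.map ⟨F.pl, F.pl_inj⟩) := by
      rw [Finset.disjoint_left]
      intro P hP hP'
      obtain ⟨p, -, rfl⟩ := Finset.mem_map.1 hP'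
      exact (F.pl_iff _).1 ⟨p, rfl⟩ hP
    rw [Finset.prod_union hdis, Finset.prod_map, hX, Finset.prod_biUnion]
    · unfold qS
      congr 1
      refine Finset.prod_congr rfl fun g _ => ?_
      unfold Pre.nm
      rw [← Finset.prod_pow]
      refine Finset.prod_congr rfl fun p hp => ?_
      show nrm (F.pl p) ^ R.rex (F.pl p) (H0.comap ρ) = _
      rw [hrex g p hp, F.N_eq]
    · intro g _ g' _ hgg
      exact hD g g' hgg
  · intro P hP
    rw [Function.mem_mulSupport] at hP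
    rw [Finset.mem_coe, Finset.mem_union]
    by_contra hcon
    rw [not_or] at hcon
    obtain ⟨p, rfl⟩ := (F.pl_iff P).2 hcon.1
    refine hP ?_
    rw [hrex0 p, pow_zero]
    intro g hg
    exact hcon.2 (Finset.mem_map.2 ⟨p, Finset.mem_biUnion.2 ⟨g, Finset.mem_univ _, hg⟩, rfl⟩)

/-- the relative discriminant of a field given by a normal lift and a twist -/
theorem rd_param (R : Rx k) {D : Dt} (H0 : Subgroup (Ext D)) {x : F.I →₀ D.V}
    {f : Gm k → D.Z} (h : F.IsNormal R D x f)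
    (a : Fin F.sys.m → D.V) (b : Fin F.sys.m → D.Z) (y : Ext D → Finset F.sys.P)
    (h1 : y 1 = ∅) (hD : F.sys.Dj y) (hx : x = F.xOf a y)
    (hs : Submodule.span (ZMod 2) (Set.range x) = ⊤) :
    rdN (fld k (H0.comap (lh (h.toIsLift.add (F.zOf b y))))) =
      F.qS R H0 (lh (h.toIsLift.add (F.zOf b y))) * ∏ g, F.sys.nm (y g) ^ hind H0 g :=
  F.rd_param_of R (fun h => F.lh_surj h) (fun h => F.lh_lc h) (fun x p => F.par_tau R x p)
    (fun h p => F.lh_tau R h p) (fun H0 ρ hρ hs p => F.rex_tau R H0 ρ hρ hs p) H0 h a b y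
    h1 hD hx hs

end Frm

end Pool.Agent.H98.MF
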