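import Pool.Agent.H98.MF.MainAlg4B
import Pool.Agent.H98.MF.ParK
import Pool.Agent.H98.MF.HomParamK0
import Pool.Agent.H98.MF.LhTauK
import Pool.Agent.H98.MF.RdParam
import Pool.Agent.H98.MF.NecK
import Pool.Agent.H98.MF.LocData

/-!
# Project MK4, row M10: the hypotheses of the master formula, except for row M9
-/

set_option autoImplicit false

open scoped BigOperators Pointwise
open NumberField IsDedekindDomain Filter

namespace Pool.Agent.H98.MF

open Pool.Agent.H98.MK (sg)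
open Pool.Agent.H98.ML (Dt Ext Wt norb hind)

namespace Frm

variable {k : Type} [Field k] [NumberField k] (F : Frm k)

open Classical in
theorem m10_hyp (R : Rx k) (hK : KIn k) (hL : LIn k) (D : Dt) (H0 : Subgroup (Ext D))
    (inv : ∃ (nf : (F.I →₀ D.V) → Gm k → D.Z) (Q : Finset ℕ)
      (Nt : ℕ → (Fin F.sys.m → D.V) → (D.V → F.sys.T) → (Fin F.sys.m → D.Z) → ℕ)
      (E : (Fin F.sys.m → D.V) → (Ext D → Finset F.sys.P) → (Fin F.sys.m → D.Z)),
      (∀ q ∈ Q, 0 < q) ∧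
      (∃ q ∈ Q, ∃ e, 1 ≤ Nt q 0 0 e) ∧
      (∀ a y, F.Good D a y → ∀ g p, p ∈ y g → ∀ z' : D.Z, z' ≠ 0 →
        E a (F.sys.mv y g ⟨g.v, g.z + z'⟩ p) = fun j => E a y j + F.sys.ty p j • z') ∧
      (∀ x, F.Sol D x → F.IsNormal R D x (nf x)) ∧
      ∀ a y, F.Good D a y → ∀ h : F.IsNormal R D (F.xOf a y) (nf (F.xOf a y)),
        (∀ b, F.qS R H0 (lh (h.toIsLift.add (F.zOf b y))) ∈ Q) ∧
        ∀ q ∈ Q, Nat.card {b : Fin F.sys.m → D.Z //
          F.qS R H0 (lh (h.toIsLift.add (F.zOf b y))) = q} =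
            Nt q a (fun v => F.sys.tys (F.sys.mV y v)) (E a y)) : F.M10Hyp R D H0 where
  par_inj := fun z z' h => F.par_inj z z' h
  hom_param := fun ρ hρ => F.hom_param_of D (fun h h1 h2 => F.par_exists h h1 h2) ρ hρ
  lh_inj := fun h h' he => F.lh_inj_of (fun x y hxy => F.par_inj x y hxy) h h' he
  lift_diff := fun h h' => F.lift_diff_of (fun g h1 h2 => F.par_exists g h1 h2) h h'
  lh_surj := fun h => F.lh_surj_of (fun x => F.par_surj x) h
  lh_lc := fun h => F.lh_lc h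
  nec := fun h => F.nec4 hL h
  locL := fun h => F.locL_data hK h
  rd := fun h a b y h1 h2 h3 h4 => F.rd_param_of R
    (fun h => F.lh_surj_of (fun x => F.par_surj x) h) (fun h => F.lh_lc h)
    (fun x p => F.par_tau R x p) (fun h p => F.lh_tau R h p)
    (fun H0 ρ h1 h2 p => F.rex_tau R H0 ρ h1 h2 p) H0 h a b y h1 h2 h3 h4
  inv := inv

end Frm

end Pool.Agent.H98.MF
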