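import Pool.Agent.H98.MF.SBase
import Pool.Agent.H98.MF.TDefs

/-!
# Project MK4, row F2: Fourier expansion on the invariants, change of scale
-/

set_option autoImplicit false

open scoped BigOperators
open Filter Topology

namespace Pool.Agent.H98.MF

open Pool.Agent.H98.MK (sg)
open Pool.Agent.H98.ML (Dt Ext Wt)

namespace MD4

/-! ### Fourier expansion -/

section

variable {m s : ℕ}

/-- the pairing -/
def pr (ξ e : Fin m → (Fin s → ZMod 2)) : ZMod 2 := ∑ j, ξ j ⬝ᵥ e j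

theorem pr_add_left (ξ η e : Fin m → (Fin s → ZMod 2)) : pr (ξ + η) e = pr ξ e + pr η e := by
  unfold pr
  rw [← Finset.sum_add_distrib]
  refine Finset.sum_congr rfl fun j _ => ?_
  rw [Pi.add_apply, add_dotProduct]

theorem pr_add_right (ξ e e' : Fin m → (Fin s → ZMod 2)) : pr ξ (e + e') = pr ξ e + pr ξ e' := by
  unfold pr
  rw [← Finset.sum_add_distrib]
  refine Finset.sum_congr rfl fun j _ => ?_
  rw [Pi.add_apply, dotProduct_add]

theorem pr_zero_left (e : Fin m → (Fin s → ZMod 2)) : pr 0 e = 0 := by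
  unfold pr
  exact Finset.sum_eq_zero fun j _ => by rw [Pi.zero_apply, zero_dotProduct]

theorem exists_pr (e : Fin m → (Fin s → ZMod 2)) (he : e ≠ 0) :
    ∃ ξ : Fin m → (Fin s → ZMod 2), pr ξ e = 1 := by
  have h1 : ∃ j, e j ≠ 0 := by
    by_contra h
    push Not at h
    exact he (funext h)
  obtain ⟨j, hj⟩ := h1
  have h2 : ∃ i, e j i ≠ 0 := by
    by_contra h
    push Not at h
    exact hj (funext h)
  obtain ⟨i, hi⟩ := h2
  refine ⟨Pi.single j (Pi.single i 1), ?_⟩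
  unfold pr
  rw [Finset.sum_eq_single j]
  · rw [Pi.single_eq_same, single_dotProduct, one_mul]
    rcases zm2 (e j i) with h | h
    · exact absurd h hi
    · exact h
  · intro j' _ hj'
    rw [Pi.single_eq_of_ne hj', zero_dotProduct]
  · intro h
    exact absurd (Finset.mem_univ j) h

theorem orth (e : Fin m → (Fin s → ZMod 2)) (he : e ≠ 0) :
    ∑ ξ : Fin m → (Fin s → ZMod 2), sg (pr ξ e) = 0 := by
  obtain ⟨ξ0, h0⟩ := exists_pr e he
  have h1 : ∑ ξ : Fin m → (Fin s → ZMod 2), sg (pr (ξ + ξ0) e) =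
      ∑ ξ : Fin m → (Fin s → ZMod 2), sg (pr ξ e) :=
    Fintype.sum_equiv (Equiv.addRight ξ0) _ _ fun ξ => rfl
  have h2 : ∑ ξ : Fin m → (Fin s → ZMod 2), sg (pr (ξ + ξ0) e) =
      - ∑ ξ : Fin m → (Fin s → ZMod 2), sg (pr ξ e) := by
    rw [← Finset.sum_neg_distrib]
    refine Finset.sum_congr rfl fun ξ _ => ?_
    rw [pr_add_left, h0, sg_add, sg_one]
    ring
  rw [h1] at h2
  linarith

theorem add_eq_zero (e e' : Fin m → (Fin s → ZMod 2)) (h : e + e' = 0) : e = e' := by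
  funext j i
  have h1 : e j i + e' j i = 0 := congrFun (congrFun h j) i
  have h2 : ∀ a b : ZMod 2, a + b = 0 → a = b := by decide
  exact h2 _ _ h1

theorem add_self (e : Fin m → (Fin s → ZMod 2)) : e + e = 0 := by
  funext j i
  exact CharTwo.add_self_eq_zero (e j i)

/-- Fourier inversion -/
theorem inversion (f : (Fin m → (Fin s → ZMod 2)) → ℝ) (e : Fin m → (Fin s → ZMod 2)) :
    ∑ ξ : Fin m → (Fin s → ZMod 2), (∑ e' : Fin m → (Fin s → ZMod 2),
      f e' * ((sg (pr ξ e') : ℤ) : ℝ)) * ((sg (pr ξ e) : ℤ) : ℝ) =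
      (Fintype.card (Fin m → (Fin s → ZMod 2)) : ℝ) * f e := by
  have h1 : ∀ ξ : Fin m → (Fin s → ZMod 2), (∑ e' : Fin m → (Fin s → ZMod 2),
      f e' * ((sg (pr ξ e') : ℤ) : ℝ)) * ((sg (pr ξ e) : ℤ) : ℝ) =
      ∑ e' : Fin m → (Fin s → ZMod 2), f e' * ((sg (pr ξ (e' + e)) : ℤ) : ℝ) := by
    intro ξ
    rw [Finset.sum_mul]
    refine Finset.sum_congr rfl fun e' _ => ?_
    rw [pr_add_right, sg_add, Int.cast_mul, mul_assoc]
  rw [Finset.sum_congr rfl fun ξ _ => h1 ξ, Finset.sum_comm, Finset.sum_eq_single e]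
  · rw [add_self]
    have h2 : ∀ ξ : Fin m → (Fin s → ZMod 2), f e * ((sg (pr ξ 0) : ℤ) : ℝ) = f e := by
      intro ξ
      have h3 : pr ξ 0 = 0 := by
        unfold pr
        exact Finset.sum_eq_zero fun j _ => by rw [Pi.zero_apply, dotProduct_zero]
      rw [h3, sg_zero, Int.cast_one, mul_one]
    rw [Finset.sum_congr rfl fun ξ _ => h2 ξ, Finset.sum_const, nsmul_eq_mul, Finset.card_univ]
  · intro e' _ he'
    have h2 := orth (e' + e) fun h => he' (add_eq_zero e' e h)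
    rw [← Finset.mul_sum, ← Int.cast_sum, h2, Int.cast_zero, mul_zero]
  · intro h
    exact absurd (Finset.mem_univ e) h

end

/-! ### the sums -/

section

variable (F : Sys) {D : Dt}

theorem Sg_congr (w : Wt D) {Θ Θ' : (Fin F.m → D.V) → (Ext D → Finset F.P) → ℝ} (Y : ℝ)
    (h : ∀ a x, F.Cf w Y a x → Θ a x = Θ' a x) : F.Sg w Θ Y = F.Sg w Θ' Y := by
  unfold Sys.Sg
  refine Finset.sum_congr rfl fun a _ => Finset.sum_congr rfl fun x _ => ?_
  by_cases hc : F.Cf w Y a x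
  · rw [if_pos hc, if_pos hc, h a x hc]
  · rw [if_neg hc, if_neg hc]

theorem Sg_mul (w : Wt D) (Θ : (Fin F.m → D.V) → (Ext D → Finset F.P) → ℝ) (c Y : ℝ) :
    F.Sg w (fun a x => c * Θ a x) Y = c * F.Sg w Θ Y := by
  unfold Sys.Sg
  rw [Finset.mul_sum]
  refine Finset.sum_congr rfl fun a _ => ?_
  rw [Finset.mul_sum]
  refine Finset.sum_congr rfl fun x _ => ?_
  split_ifs
  · rfl
  · rw [mul_zero]

theorem Sg_sum {ι : Type} (s : Finset ι) (w : Wt D)
    (Θ : ι → (Fin F.m → D.V) → (Ext D → Finset F.P) → ℝ) (Y : ℝ) :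
    F.Sg w (fun a x => ∑ i ∈ s, Θ i a x) Y = ∑ i ∈ s, F.Sg w (Θ i) Y := by
  unfold Sys.Sg
  conv_rhs => rw [Finset.sum_comm]
  refine Finset.sum_congr rfl fun a _ => ?_
  conv_rhs => rw [Finset.sum_comm]
  refine Finset.sum_congr rfl fun x _ => ?_
  split_ifs
  · rfl
  · rw [Finset.sum_const_zero]

theorem S_nonneg (w : Wt D) (θ : (Fin F.m → D.V) → (D.V → F.T) → Finset D.V → ℝ)
    (h : ∀ a δ Q, 0 ≤ θ a δ Q) (Y : ℝ) : 0 ≤ F.S w θ Y := by
  unfold Sys.S
  refine Finset.sum_nonneg fun a _ => Finset.sum_nonneg fun x _ => ?_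
  split_ifs
  · exact h _ _ _
  · exact le_rfl

end

/-! ### change of scale -/

/-- change of scale in an asymptotic formula -/
theorem scale (f : ℝ → ℝ) (k : ℕ) (C α κ : ℝ) (hα : 0 < α) (hκ : 0 < κ)
    (hf : Tendsto (fun Y : ℝ => f Y / (Y * Real.log Y ^ k)) atTop (𝓝 C)) :
    Tendsto (fun X : ℝ => f (X ^ α * κ) / (X ^ α * Real.log X ^ k)) atTop
      (𝓝 (C * κ * α ^ k)) := by
  have hY : Tendsto (fun X : ℝ => X ^ α * κ) atTop atTop :=
    (tendsto_rpow_atTop hα).atTop_mul_const hκ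
  have h1 := hf.comp hY
  have h2 : Tendsto (fun X : ℝ => Real.log (X ^ α * κ) / Real.log X) atTop (𝓝 α) := by
    have h3 : Tendsto (fun X : ℝ => α + Real.log κ / Real.log X) atTop (𝓝 (α + 0)) :=
      tendsto_const_nhds.add (Tendsto.div_atTop tendsto_const_nhds Real.tendsto_log_atTop)
    rw [add_zero] at h3
    refine h3.congr' ?_
    filter_upwards [eventually_gt_atTop (1 : ℝ)] with X hX
    have hlX : Real.log X ≠ 0 := (Real.log_pos hX).ne'
    have hX0 : 0 < X := by linarith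
    rw [Real.log_mul (Real.rpow_pos_of_pos hX0 α).ne' hκ.ne', Real.log_rpow hX0]
    field_simp
  have h4 := (h1.mul_const κ).mul (h2.pow k)
  refine h4.congr' ?_
  have hlY : Tendsto (fun X : ℝ => Real.log (X ^ α * κ)) atTop atTop :=
    Real.tendsto_log_atTop.comp hY
  filter_upwards [eventually_gt_atTop (1 : ℝ), hlY.eventually_gt_atTop 0] with X hX hX2
  have hlX : Real.log X ≠ 0 := (Real.log_pos hX).ne'
  have hX0 : 0 < X := by linarith
  have hXa : X ^ α ≠ 0 := (Real.rpow_pos_of_pos hX0 α).ne'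
  have hL : Real.log (X ^ α * κ) ≠ 0 := hX2.ne'
  simp only [Function.comp_apply]
  rw [div_pow]
  field_simp

/-- a limit with large values is positive -/
theorem lim_pos (f : ℝ → ℝ) (k : ℕ) (C : ℝ)
    (hf : Tendsto (fun Y : ℝ => f Y / (Y * Real.log Y ^ k)) atTop (𝓝 C))
    (h : ∃ c : ℝ, 0 < c ∧ ∀ Y0 : ℝ, ∃ Y : ℝ, Y0 ≤ Y ∧ c * (Y * Real.log Y ^ k) ≤ f Y) :
    0 < C := by
  obtain ⟨c, hc, h⟩ := h
  by_contra hC
  push Not at hC
  have h1 : ∀ᶠ Y : ℝ in atTop, f Y / (Y * Real.log Y ^ k) < c :=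
    hf.eventually_lt_const (lt_of_le_of_lt hC hc)
  obtain ⟨Y1, hY1⟩ := Filter.eventually_atTop.1 h1
  obtain ⟨Y, hY, hY2⟩ := h (max Y1 3)
  have h3 : Y1 ≤ Y := (le_max_left _ _).trans hY
  have h4 : 3 ≤ Y := (le_max_right _ _).trans hY
  have h5 := hY1 Y h3
  have h6 : 0 < Y * Real.log Y ^ k :=
    mul_pos (by linarith) (pow_pos (Real.log_pos (by linarith)) _)
  rw [div_lt_iff₀ h6] at h5
  linarith

end MD4

end Pool.Agent.H98.MF
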