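import Pool.Agent.H98.MF.MainDat4A
import Pool.Agent.H98.MF.ExistsMove
import Pool.Agent.H98.MF.Switch1
import Pool.Agent.H98.MF.Conf
import Pool.Agent.H98.MF.LocData
import Pool.Agent.H98.MF.C.Stm

/-!
# Project MK4, row F2: the count for the data, from the master formula, the switching theorem
and the analytic theorems
-/

set_option autoImplicit false

open scoped BigOperators Pointwise Topology
open NumberField IsDedekindDomain Filter

namespace Pool.Agent.H98.MF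

open Pool.Agent.H98.MK (sg)
open Pool.Agent.H98.ML (Dt Ext Wt norb hind)

/-- statement of the switching theorem for a system -/
def SwitchSt (F : Sys) (D : Dt) (w : Wt D) : Prop :=
  ∀ (θ : (Fin F.m → D.V) → (D.V → F.T) → Finset D.V → ℝ)
    (_ : ∀ a δ Q, θ a δ Q ≠ 0 → F.Span a Q) (g0 : Ext D) (_ : g0 ≠ 1)
    (_ : w.ind g0 = w.m) (w0 : D.V) (_ : D.B g0.v w0 ≠ 0) (c : F.T) (_ : c ≠ 0)
    (ε : (Fin F.m → D.V) → (Ext D → Finset F.P) → ℝ) (_ : F.Swi θ g0 (D.B g0.v w0) c ε),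
    Tendsto (fun Y : ℝ => F.Sg w (fun a x => F.ofT θ a x * ε a x) Y /
      (Y * Real.log Y ^ (w.b - 1))) atTop (nhds 0)

/-- statement of the analytic theorem for a system -/
def MainAnSt (F : Sys) (D : Dt) (w : Wt D) : Prop :=
  ∀ (θ : (Fin F.m → D.V) → (D.V → F.T) → Finset D.V → ℝ)
    (_ : ∀ a δ Q, θ a δ Q ≠ 0 → F.Span a Q),
    ∃ C : ℝ, Tendsto (fun Y : ℝ => F.S w θ Y / (Y * Real.log Y ^ (w.b - 1))) atTop (nhds C)

/-- statement of the positivity theorem for a system -/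
def MainPosSt (F : Sys) (D : Dt) (w : Wt D) : Prop :=
  ∀ (θ : (Fin F.m → D.V) → (D.V → F.T) → Finset D.V → ℝ) (_ : ∀ a δ Q, 0 ≤ θ a δ Q)
    (_ : ∀ Q, F.Span (fun _ => (0 : D.V)) Q → 1 ≤ θ (fun _ => 0) (fun _ => 0) Q),
    ∃ c : ℝ, 0 < c ∧ ∀ Y0 : ℝ, ∃ Y : ℝ, Y0 ≤ Y ∧
      c * (Y * Real.log Y ^ (w.b - 1)) ≤ F.S w θ Y

namespace Frm

variable {k : Type} [Field k] [NumberField k] (F : Frm k)

open Classical in
/-- Fourier coefficients of the multiplicities -/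
noncomputable def m4th {D : Dt}
    (N : (Fin F.sys.m → D.V) → (D.V → F.sys.T) → (Fin F.sys.m → D.Z) → ℕ)
    (ξ : Fin F.sys.m → D.Z) (a : Fin F.sys.m → D.V) (δ : D.V → F.sys.T) (P : Finset D.V) : ℝ :=
  if F.sys.Span a P ∧ F.solS D a δ
  then ∑ e : Fin F.sys.m → D.Z, (N a δ e : ℝ) * ((sg (MD4.pr ξ e) : ℤ) : ℝ) else 0

theorem m4th_span {D : Dt}
    (N : (Fin F.sys.m → D.V) → (D.V → F.sys.T) → (Fin F.sys.m → D.Z) → ℕ)
    (ξ : Fin F.sys.m → D.Z) (a : Fin F.sys.m → D.V) (δ : D.V → F.sys.T) (P : Finset D.V)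
    (h : F.m4th N ξ a δ P ≠ 0) : F.sys.Span a P ∧ F.solS D a δ := by
  by_contra hc
  apply h
  unfold m4th
  rw [if_neg hc]

theorem m4_good {D : Dt} {a : Fin F.sys.m → D.V} {x : Ext D → Finset F.sys.P}
    (h1 : x 1 = ∅) (h2 : F.sys.Dj x) (h3 : ∀ g, ∀ p ∈ x g, F.sys.okp a (F.sys.mV x) g.v p) :
    F.Good D a x ↔ F.sys.Span a (Finset.univ.filter fun v => (F.sys.mV x v).Nonempty) ∧
      F.solS D a (fun v => F.sys.tys (F.sys.mV x v)) := by
  rw [← F.span_conf a x h1 h2]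
  constructor
  · rintro ⟨_, _, _, h4, h5⟩
    exact ⟨h4, h5⟩
  · rintro ⟨h4, h5⟩
    exact ⟨h1, h2, h3, h4, h5⟩

open Classical in
/-- the Fourier expansion of the sum -/
theorem m4_expand {D : Dt} (w : Wt D)
    (N : (Fin F.sys.m → D.V) → (D.V → F.sys.T) → (Fin F.sys.m → D.Z) → ℕ)
    (E : (Fin F.sys.m → D.V) → (Ext D → Finset F.sys.P) → (Fin F.sys.m → D.Z)) (Y : ℝ) :
    (Fintype.card (Fin F.sys.m → D.Z) : ℝ) * F.sys.Sg w (fun a y => if F.Good D a y then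
      (N a (fun v => F.sys.tys (F.sys.mV y v)) (E a y) : ℝ) else 0) Y =
    ∑ ξ : Fin F.sys.m → D.Z, F.sys.Sg w (fun a y => F.sys.ofT (F.m4th N ξ) a y *
      ((sg (MD4.pr ξ (E a y)) : ℤ) : ℝ)) Y := by
  rw [← MD4.Sg_mul, ← MD4.Sg_sum]
  refine MD4.Sg_congr F.sys w Y fun a x hc => ?_
  have hg := F.m4_good hc.1 hc.2.1 hc.2.2.2
  by_cases h : F.Good D a x
  · rw [if_pos h]
    refine (MD4.inversion (fun e => (N a (fun v => F.sys.tys (F.sys.mV x v)) e : ℝ))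
      (E a x)).symm.trans ?_
    refine Finset.sum_congr rfl fun ξ _ => ?_
    congr 1
    unfold Sys.ofT m4th
    rw [if_pos (hg.1 h)]
  · rw [if_neg h, mul_zero]
    symm
    refine Finset.sum_eq_zero fun ξ _ => ?_
    have h1 : F.sys.ofT (F.m4th N ξ) a x = 0 := by
      unfold Sys.ofT m4th
      rw [if_neg fun h' => h (hg.2 h')]
    rw [h1, zero_mul]

/-- nonzero frequencies are negligible -/
theorem m4_small {D : Dt} (w : Wt D) (hM : MSp w) (hsw : SwitchSt F.sys D w)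
    (N : (Fin F.sys.m → D.V) → (D.V → F.sys.T) → (Fin F.sys.m → D.Z) → ℕ)
    (E : (Fin F.sys.m → D.V) → (Ext D → Finset F.sys.P) → (Fin F.sys.m → D.Z))
    (hE : ∀ a y, F.Good D a y → ∀ g p, p ∈ y g → ∀ z' : D.Z, z' ≠ 0 →
        E a (F.sys.mv y g ⟨g.v, g.z + z'⟩ p) = fun j => E a y j + F.sys.ty p j • z')
    (ξ : Fin F.sys.m → D.Z) (hξ : ξ ≠ 0) :
    Tendsto (fun Y : ℝ => F.sys.Sg w (fun a y => F.sys.ofT (F.m4th N ξ) a y *
      ((sg (MD4.pr ξ (E a y)) : ℤ) : ℝ)) Y / (Y * Real.log Y ^ (w.b - 1))) atTop (nhds 0) := by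
  have h1 : ∃ j, ξ j ≠ 0 := by
    by_contra h
    push Not at h
    exact hξ (funext h)
  obtain ⟨j, hj⟩ := h1
  obtain ⟨g0, w0, hg0, hg1, hg2⟩ := exists_move w hM (ξ j) hj
  have hB : D.B g0.v w0 ≠ 0 := by
    intro h
    apply hg2
    rw [h, dotProduct_zero]
  refine hsw (F.m4th N ξ) (fun a δ Q h => (F.m4th_span N ξ a δ Q h).1) g0 hg0 hg1 w0 hB
    (fun j => ξ j ⬝ᵥ D.B g0.v w0) ?_ (fun a y => ((sg (MD4.pr ξ (E a y)) : ℤ) : ℝ)) ?_
  · intro h
    exact hg2 (congrFun h j)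
  · refine ⟨fun a x => (abs_sgr _).le, ?_⟩
    intro a x hx1 hxD hxo hne g p hcj hp
    have hgood : F.Good D a x := (F.m4_good hx1 hxD hxo).2 (F.m4th_span N ξ _ _ _ hne)
    rw [hE a x hgood g p hp _ hB, ← Int.cast_mul, ← sg_add]
    congr 2
    unfold MD4.pr
    simp only [dotProduct_add, dotProduct_smul, Finset.sum_add_distrib, smul_eq_mul]
    rw [add_comm]
    congr 1
    unfold dotProduct
    exact Finset.sum_congr rfl fun i _ => mul_comm _ _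

end Frm

end Pool.Agent.H98.MF
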