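import Pool.Agent.H98.MF.MainDat4B

/-!
# Project MK4, row F2: the count for the data, from the master formula, the switching theorem
and the analytic theorems (assembly)
-/

set_option autoImplicit false

open scoped BigOperators Pointwise Topology
open NumberField IsDedekindDomain Filter

namespace Pool.Agent.H98.MF

open Pool.Agent.H98.MK (sg)
open Pool.Agent.H98.ML (Dt Ext Wt norb hind)

namespace Frm

variable {k : Type} [Field k] [NumberField k] (F : Frm k)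

theorem m4_zero_nonneg {D : Dt}
    (N : (Fin F.sys.m → D.V) → (D.V → F.sys.T) → (Fin F.sys.m → D.Z) → ℕ)
    (a : Fin F.sys.m → D.V) (δ : D.V → F.sys.T) (P : Finset D.V) : 0 ≤ F.m4th N 0 a δ P := by
  unfold m4th
  split_ifs
  · refine Finset.sum_nonneg fun e _ => ?_
    rw [MD4.pr_zero_left, sg_zero, Int.cast_one, mul_one]
    exact Nat.cast_nonneg _
  · exact le_rfl

/-- the term of the frequency zero -/
theorem m4_zero_eq {D : Dt} (w : Wt D)
    (N : (Fin F.sys.m → D.V) → (D.V → F.sys.T) → (Fin F.sys.m → D.Z) → ℕ)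
    (E : (Fin F.sys.m → D.V) → (Ext D → Finset F.sys.P) → (Fin F.sys.m → D.Z)) (Y : ℝ) :
    F.sys.Sg w (fun a y => F.sys.ofT (F.m4th N 0) a y *
      ((sg (MD4.pr 0 (E a y)) : ℤ) : ℝ)) Y = F.sys.S w (F.m4th N 0) Y := by
  rw [F.sys.S_eq_Sg]
  refine MD4.Sg_congr F.sys w Y fun a x _ => ?_
  rw [MD4.pr_zero_left, sg_zero, Int.cast_one, mul_one]

open Classical in
/-- the limit of the sum of one part -/
theorem m4_part {D : Dt} (w : Wt D) (hM : MSp w) (hsw : SwitchSt F.sys D w)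
    (han : MainAnSt F.sys D w) (hpos : MainPosSt F.sys D w)
    (N : (Fin F.sys.m → D.V) → (D.V → F.sys.T) → (Fin F.sys.m → D.Z) → ℕ)
    (E : (Fin F.sys.m → D.V) → (Ext D → Finset F.sys.P) → (Fin F.sys.m → D.Z))
    (hE : ∀ a y, F.Good D a y → ∀ g p, p ∈ y g → ∀ z' : D.Z, z' ≠ 0 →
        E a (F.sys.mv y g ⟨g.v, g.z + z'⟩ p) = fun j => E a y j + F.sys.ty p j • z') :
    ∃ C : ℝ, 0 ≤ C ∧ ((∃ e, 1 ≤ N 0 0 e) → 0 < C) ∧
      Tendsto (fun Y : ℝ => F.sys.Sg w (fun a y => if F.Good D a y then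
        (N a (fun v => F.sys.tys (F.sys.mV y v)) (E a y) : ℝ) else 0) Y /
          (Y * Real.log Y ^ (w.b - 1))) atTop (nhds C) := by
  obtain ⟨C0, hC0⟩ := han (F.m4th N 0) fun a δ Q h => (F.m4th_span N 0 a δ Q h).1
  set A : ℝ := (Fintype.card (Fin F.sys.m → D.Z) : ℝ) with hA
  have hApos : 0 < A := by
    rw [hA]
    exact_mod_cast Fintype.card_pos
  have hlim : Tendsto (fun Y : ℝ => ∑ ξ : Fin F.sys.m → D.Z,
      F.sys.Sg w (fun a y => F.sys.ofT (F.m4th N ξ) a y *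
      ((sg (MD4.pr ξ (E a y)) : ℤ) : ℝ)) Y / (Y * Real.log Y ^ (w.b - 1))) atTop
      (nhds (∑ ξ : Fin F.sys.m → D.Z, if ξ = 0 then C0 else 0)) := by
    refine tendsto_finsetSum _ fun ξ _ => ?_
    by_cases hξ : ξ = 0
    · rw [if_pos hξ, hξ]
      simp only [F.m4_zero_eq w N E]
      exact hC0
    · rw [if_neg hξ]
      exact F.m4_small w hM hsw N E hE ξ hξ
  rw [Finset.sum_ite_eq' Finset.univ (0 : Fin F.sys.m → D.Z), if_pos (Finset.mem_univ _)] at hlim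
  have hlim2 : Tendsto (fun Y : ℝ => F.sys.Sg w (fun a y => if F.Good D a y then
        (N a (fun v => F.sys.tys (F.sys.mV y v)) (E a y) : ℝ) else 0) Y /
          (Y * Real.log Y ^ (w.b - 1))) atTop (nhds (C0 / A)) := by
    refine (hlim.div_const A).congr fun Y => ?_
    rw [← Finset.sum_div, ← F.m4_expand w N E Y, ← hA]
    field_simp
  have hC0n : 0 ≤ C0 := by
    apply ge_of_tendsto hC0
    filter_upwards [eventually_ge_atTop (1 : ℝ)] with Y hY
    apply div_nonneg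
    · exact MD4.S_nonneg F.sys w _ (F.m4_zero_nonneg N) Y
    · exact mul_nonneg (by linarith) (pow_nonneg (Real.log_nonneg hY) _)
  refine ⟨C0 / A, div_nonneg hC0n hApos.le, ?_, hlim2⟩
  rintro ⟨e, he⟩
  refine div_pos ?_ hApos
  refine MD4.lim_pos _ _ _ hC0 (hpos (F.m4th N 0) (F.m4_zero_nonneg N) fun Q hQ => ?_)
  unfold m4th
  rw [if_pos ⟨hQ, F.solS_zero D⟩]
  have h1 : ∀ e' : Fin F.sys.m → D.Z, 0 ≤ (N (fun _ => 0) (fun _ => 0) e' : ℝ) *
      ((sg (MD4.pr 0 e') : ℤ) : ℝ) := by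
    intro e'
    rw [MD4.pr_zero_left, sg_zero, Int.cast_one, mul_one]
    exact Nat.cast_nonneg _
  have h2 := Finset.single_le_sum (fun e' _ => h1 e') (Finset.mem_univ e)
  refine le_trans ?_ h2
  rw [MD4.pr_zero_left, sg_zero, Int.cast_one, mul_one]
  exact_mod_cast he

open Classical in
/-- the count for the data over a number field -/
theorem main_dat4_of {D : Dt} (H0 : Subgroup (Ext D)) (w : Wt D) (hM : MSp w)
    (halg : ∃ (Q : Finset ℕ)
      (Nt : ℕ → (Fin F.sys.m → D.V) → (D.V → F.sys.T) → (Fin F.sys.m → D.Z) → ℕ)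
      (E : (Fin F.sys.m → D.V) → (Ext D → Finset F.sys.P) → (Fin F.sys.m → D.Z)),
      (∀ q ∈ Q, 0 < q) ∧
      (∃ q ∈ Q, ∃ e, 1 ≤ Nt q 0 0 e) ∧
      (∀ a y, F.Good D a y → ∀ g p, p ∈ y g → ∀ z' : D.Z, z' ≠ 0 →
        E a (F.sys.mv y g ⟨g.v, g.z + z'⟩ p) = fun j => E a y j + F.sys.ty p j • z') ∧
      ∀ X : ℝ, 1 ≤ X →
        (Nat.card {ρ : Gm k →* Ext D // Function.Surjective ρ ∧ IsLocallyConstant ρ ∧
          (rdN (fld k (H0.comap ρ)) : ℝ) ≤ X} : ℝ) =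
        ∑ q ∈ Q, F.sys.Sg w (fun a y => if F.Good D a y then
          (Nt q a (fun v => F.sys.tys (F.sys.mV y v)) (E a y) : ℝ) else 0)
            ((X / q) ^ (1 / w.m : ℝ)))
    (hsw : SwitchSt F.sys D w) (han : MainAnSt F.sys D w) (hpos : MainPosSt F.sys D w) :
    ∃ C : ℝ, 0 < C ∧ Tendsto (fun X : ℝ =>
      (Nat.card {ρ : Gm k →* Ext D // Function.Surjective ρ ∧ IsLocallyConstant ρ ∧
        (rdN (fld k (H0.comap ρ)) : ℝ) ≤ X} : ℝ) /
          (X ^ (1 / w.m : ℝ) * Real.log X ^ (w.b - 1))) atTop (nhds C) := by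
  obtain ⟨Q, Nt, E, hQ, ⟨q0, hq0, e0, he0⟩, hE, halg⟩ := halg
  have hm : (0 : ℝ) < w.m := by exact_mod_cast w.pos
  have hα : (0 : ℝ) < 1 / w.m := by positivity
  have h1 : ∀ q, ∃ C : ℝ, 0 ≤ C ∧ ((∃ e, 1 ≤ Nt q 0 0 e) → 0 < C) ∧
      Tendsto (fun Y : ℝ => F.sys.Sg w (fun a y => if F.Good D a y then
        (Nt q a (fun v => F.sys.tys (F.sys.mV y v)) (E a y) : ℝ) else 0) Y /
          (Y * Real.log Y ^ (w.b - 1))) atTop (nhds C) :=
    fun q => F.m4_part w hM hsw han hpos (Nt q) E hE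
  choose C hC0 hCp hC using h1
  set κ : ℕ → ℝ := fun q => ((q : ℝ) ^ (1 / w.m : ℝ))⁻¹ with hκ
  have hκ0 : ∀ q ∈ Q, 0 < κ q := fun q hq => by
    have h2 : (0 : ℝ) < q := by exact_mod_cast hQ q hq
    exact inv_pos.2 (Real.rpow_pos_of_pos h2 _)
  refine ⟨∑ q ∈ Q, C q * κ q * (1 / w.m : ℝ) ^ (w.b - 1), ?_, ?_⟩
  · apply Finset.sum_pos'
    · intro q hq
      have := hC0 q
      have := hκ0 q hq
      positivity
    · refine ⟨q0, hq0, ?_⟩
      have := hκ0 q0 hq0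
      have := hCp q0 ⟨e0, he0⟩
      positivity
  · have h2 : Tendsto (fun X : ℝ => ∑ q ∈ Q,
        F.sys.Sg w (fun a y => if F.Good D a y then
        (Nt q a (fun v => F.sys.tys (F.sys.mV y v)) (E a y) : ℝ) else 0)
          (X ^ (1 / w.m : ℝ) * κ q) / (X ^ (1 / w.m : ℝ) * Real.log X ^ (w.b - 1))) atTop
        (nhds (∑ q ∈ Q, C q * κ q * (1 / w.m : ℝ) ^ (w.b - 1))) :=
      tendsto_finsetSum _ fun q hq => MD4.scale _ _ _ _ _ hα (hκ0 q hq) (hC q)
    refine h2.congr' ?_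
    filter_upwards [eventually_ge_atTop (1 : ℝ)] with X hX
    rw [halg X hX, Finset.sum_div]
    refine Finset.sum_congr rfl fun q _ => ?_
    have h3 : (X / q) ^ (1 / w.m : ℝ) = X ^ (1 / w.m : ℝ) * κ q := by
      rw [Real.div_rpow (by linarith) (Nat.cast_nonneg _), div_eq_mul_inv]
    rw [h3]

end Frm

end Pool.Agent.H98.MF
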