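import Pool.Agent.H98.MF.MainDat4B
import Pool.Agent.H98.MF.SMainAn
import Pool.Agent.H98.MF.SMainPos
import Pool.Agent.H98.MF.UDefs

/-!
# Project MK5, row U6: the count for the data, from the master formula and the analytic theorems
-/

set_option autoImplicit false

open scoped BigOperators Pointwise Topology
open NumberField IsDedekindDomain Filter

namespace Pool.Agent.H98.MF

open Pool.Agent.H98.MK (sg)
open Pool.Agent.H98.ML (Dt Ext Wt norb hind)

namespace Frm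

variable {k : Type} [Field k] [NumberField k] (F : Frm k)

open Classical in
/-- the multiplicities supported on the solvable data -/
noncomputable def m5th {D : Dt} (N : (Fin F.sys.m → D.V) → (D.V → F.sys.T) → ℕ)
    (a : Fin F.sys.m → D.V) (δ : D.V → F.sys.T) (P : Finset D.V) : ℝ :=
  if F.sys.Span a P ∧ F.solS D a δ then (N a δ : ℝ) else 0

theorem m5th_nonneg {D : Dt} (N : (Fin F.sys.m → D.V) → (D.V → F.sys.T) → ℕ)
    (a : Fin F.sys.m → D.V) (δ : D.V → F.sys.T) (P : Finset D.V) : 0 ≤ F.m5th N a δ P := by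
  unfold m5th
  split_ifs
  · exact Nat.cast_nonneg _
  · exact le_rfl

theorem m5th_span {D : Dt} (N : (Fin F.sys.m → D.V) → (D.V → F.sys.T) → ℕ)
    (a : Fin F.sys.m → D.V) (δ : D.V → F.sys.T) (P : Finset D.V) (h : F.m5th N a δ P ≠ 0) :
    F.sys.Span a P := by
  by_contra hc
  apply h
  unfold m5th
  rw [if_neg fun h' => hc h'.1]

/-- the limit of the sum of one part -/
theorem m5_part {D : Dt} (w : Wt D) (N : (Fin F.sys.m → D.V) → (D.V → F.sys.T) → ℕ) :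
    ∃ C : ℝ, 0 ≤ C ∧ (1 ≤ N 0 0 → 0 < C) ∧
      Tendsto (fun Y : ℝ => F.sys.S w (F.m5th N) Y / (Y * Real.log Y ^ (w.b - 1)))
        atTop (nhds C) := by
  obtain ⟨C0, hC0⟩ := main_an F.sys w (F.m5th N) fun a δ Q h => F.m5th_span N a δ Q h
  refine ⟨C0, ?_, ?_, hC0⟩
  · apply ge_of_tendsto hC0
    filter_upwards [eventually_ge_atTop (1 : ℝ)] with Y hY
    apply div_nonneg
    · exact MD4.S_nonneg F.sys w _ (F.m5th_nonneg N) Y
    · exact mul_nonneg (by linarith) (pow_nonneg (Real.log_nonneg hY) _)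
  · intro he
    refine MD4.lim_pos _ _ _ hC0 (main_pos F.sys w (F.m5th N) (F.m5th_nonneg N) fun Q hQ => ?_)
    unfold m5th
    rw [if_pos ⟨hQ, F.solS_zero D⟩]
    exact_mod_cast he

open Classical in
/-- the count for the data over a number field, all frequencies zero -/
theorem main_dat5_of {D : Dt} (H0 : Subgroup (Ext D)) (w : Wt D)
    (halg : ∃ (Q : Finset ℕ) (Nt : ℕ → (Fin F.sys.m → D.V) → (D.V → F.sys.T) → ℕ),
      (∀ q ∈ Q, 0 < q) ∧ (∃ q ∈ Q, 1 ≤ Nt q 0 0) ∧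
      ∀ X : ℝ, 1 ≤ X →
        (Nat.card {ρ : Gm k →* Ext D // Function.Surjective ρ ∧ IsLocallyConstant ρ ∧
          (rdN (fld k (H0.comap ρ)) : ℝ) ≤ X} : ℝ) =
        ∑ q ∈ Q, F.sys.S w (fun a δ P => if F.sys.Span a P ∧ F.solS D a δ then
          (Nt q a δ : ℝ) else 0) ((X / q) ^ (1 / w.m : ℝ))) :
    ∃ C : ℝ, 0 < C ∧ Tendsto (fun X : ℝ =>
      (Nat.card {ρ : Gm k →* Ext D // Function.Surjective ρ ∧ IsLocallyConstant ρ ∧
        (rdN (fld k (H0.comap ρ)) : ℝ) ≤ X} : ℝ) /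
          (X ^ (1 / w.m : ℝ) * Real.log X ^ (w.b - 1))) atTop (nhds C) := by
  obtain ⟨Q, Nt, hQ, ⟨q0, hq0, he0⟩, halg⟩ := halg
  have hm : (0 : ℝ) < w.m := by exact_mod_cast w.pos
  have hα : (0 : ℝ) < 1 / w.m := by positivity
  have h1 : ∀ q, ∃ C : ℝ, 0 ≤ C ∧ (1 ≤ Nt q 0 0 → 0 < C) ∧
      Tendsto (fun Y : ℝ => F.sys.S w (F.m5th (Nt q)) Y / (Y * Real.log Y ^ (w.b - 1)))
        atTop (nhds C) := fun q => F.m5_part w (Nt q)
  choose C hC0 hCp hC using h1
  set κ : ℕ → ℝ := fun q => ((q : ℝ) ^ (1 / w.m : ℝ))⁻¹ with hκ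
  have hκ0 : ∀ q ∈ Q, 0 < κ q := fun q hq => by
    have h2 : (0 : ℝ) < q := by exact_mod_cast hQ q hq
    exact inv_pos.2 (Real.rpow_pos_of_pos h2 _)
  refine ⟨∑ q ∈ Q, C q * κ q * (1 / w.m : ℝ) ^ (w.b - 1), ?_, ?_⟩
  · apply Finset.sum_pos'
    · intro q hq
      have := hC0 q
      have := hκ0 q hq
      positivity
    · refine ⟨q0, hq0, ?_⟩
      have := hκ0 q0 hq0
      have := hCp q0 he0
      positivity
  · have h2 : Tendsto (fun X : ℝ => ∑ q ∈ Q,
        F.sys.S w (F.m5th (Nt q)) (X ^ (1 / w.m : ℝ) * κ q) /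
          (X ^ (1 / w.m : ℝ) * Real.log X ^ (w.b - 1))) atTop
        (nhds (∑ q ∈ Q, C q * κ q * (1 / w.m : ℝ) ^ (w.b - 1))) :=
      tendsto_finsetSum _ fun q hq => MD4.scale _ _ _ _ _ hα (hκ0 q hq) (hC q)
    refine h2.congr' ?_
    filter_upwards [eventually_ge_atTop (1 : ℝ)] with X hX
    rw [halg X hX, Finset.sum_div]
    refine Finset.sum_congr rfl fun q _ => ?_
    have h3 : (X / q) ^ (1 / w.m : ℝ) = X ^ (1 / w.m : ℝ) * κ q := by
      rw [Real.div_rpow (by linarith) (Nat.cast_nonneg _), div_eq_mul_inv]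
    rw [h3]
    rfl

end Frm

end Pool.Agent.H98.MF
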