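import Pool.Agent.H98.MF.NDefs

set_option autoImplicit false

open scoped BigOperators Pointwise NNReal nonZeroDivisors
open NumberField NumberField.mixedEmbedding NumberField.InfinitePlace MeasureTheory

namespace Pool.Agent.H98.MF

private theorem cell_ball_sub {ι : Type} [Fintype ι] [DecidableEq ι] (x y : ι → ℝ) (t : ℝ)
    (ht : 0 < t) :
    {z : ι → ℤ | (cellC y t z ∩ Metric.closedBall x t).Nonempty} ⊆
      ((Fintype.piFinset fun i => Finset.Icc ⌈(x i - y i) / t - 2⌉ ⌊(x i - y i) / t + 1⌋ :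
        Finset (ι → ℤ)) : Set (ι → ℤ)) := by
  rintro z ⟨p, hp, hpx⟩
  rw [Finset.mem_coe, Fintype.mem_piFinset]
  intro i
  have h1 := (hp i).1
  have h2 := (hp i).2
  have h3 : dist (p i) (x i) ≤ t := (dist_le_pi_dist p x i).trans (Metric.mem_closedBall.1 hpx)
  rw [Real.dist_eq, abs_le] at h3
  have e : t * ((x i - y i) / t) = x i - y i := mul_div_cancel₀ _ ht.ne'
  rw [Finset.mem_Icc]
  constructor
  · rw [Int.ceil_le]
    by_contra hc
    push Not at hc
    have := mul_lt_mul_of_pos_left hc ht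
    have e2 : t * ((x i - y i) / t - 2) = x i - y i - 2 * t := by rw [mul_sub, e]; ring
    rw [e2] at this
    nlinarith
  · rw [Int.le_floor]
    by_contra hc
    push Not at hc
    have := mul_lt_mul_of_pos_left hc ht
    have e2 : t * ((x i - y i) / t + 1) = x i - y i + t := by rw [mul_add, e]; ring
    rw [e2] at this
    nlinarith

private theorem cell_card_four (a : ℝ) : (Finset.Icc ⌈a - 2⌉ ⌊a + 1⌋).card ≤ 4 := by
  rw [Int.card_Icc]
  have h1 : (⌊a + 1⌋ : ℝ) ≤ a + 1 := Int.floor_le _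
  have h2 : a - 2 ≤ (⌈a - 2⌉ : ℝ) := Int.le_ceil _
  have h3 : ((⌊a + 1⌋ - ⌈a - 2⌉ : ℤ) : ℝ) ≤ ((3 : ℤ) : ℝ) := by
    push_cast
    linarith
  have h4 : ⌊a + 1⌋ - ⌈a - 2⌉ ≤ 3 := Int.cast_le.1 h3
  omega

theorem cell_ball {ι : Type} [Fintype ι] (x y : ι → ℝ) (t : ℝ) (ht : 0 < t) :
    {z : ι → ℤ | (cellC y t z ∩ Metric.closedBall x t).Nonempty}.Finite ∧
    {z : ι → ℤ | (cellC y t z ∩ Metric.closedBall x t).Nonempty}.ncard
      ≤ 4 ^ Fintype.card ι := by
  classical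
  have hs := cell_ball_sub x y t ht
  refine ⟨(Finset.finite_toSet _).subset hs, ?_⟩
  refine (Set.ncard_le_ncard hs (Finset.finite_toSet _)).trans ?_
  rw [Set.ncard_coe_finset, Fintype.card_piFinset]
  refine (Finset.prod_le_pow_card _ _ 4 fun i _ => cell_card_four _).trans ?_
  rw [Finset.card_univ]

theorem bcells_le {ι : Type} [Fintype ι] (D : Set (ι → ℝ)) (m : ℕ) (hD : Thin m (frontier D)) :
    ∃ C : ℝ, ∀ (y : ι → ℝ) (t : ℝ), 0 < t → t ≤ 1 →
      (bcells D y t).Finite ∧ ((bcells D y t).ncard : ℝ) * t ^ m ≤ C := by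
  classical
  obtain ⟨C, hC⟩ := hD
  refine ⟨4 ^ Fintype.card ι * C, fun y t ht ht1 => ?_⟩
  obtain ⟨A, hA, hcov⟩ := hC t ht ht1
  set F : Finset (ι → ℤ) := A.biUnion fun x => (cell_ball x y t ht).1.toFinset with hF
  have hsub : bcells D y t ⊆ (F : Set (ι → ℤ)) := by
    rintro z ⟨p, hp, hpf⟩
    have := hcov hpf
    rw [Set.mem_iUnion₂] at this
    obtain ⟨x, hx, hpx⟩ := this
    rw [hF, Finset.coe_biUnion, Set.mem_iUnion₂]
    refine ⟨x, hx, ?_⟩
    rw [Finset.mem_coe, Set.Finite.mem_toFinset]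
    exact ⟨p, hp, hpx⟩
  refine ⟨(Finset.finite_toSet _).subset hsub, ?_⟩
  have h1 : (bcells D y t).ncard ≤ A.card * 4 ^ Fintype.card ι := by
    refine (Set.ncard_le_ncard hsub (Finset.finite_toSet _)).trans ?_
    rw [Set.ncard_coe_finset]
    refine Finset.card_biUnion_le_card_mul _ _ _ fun x _ => ?_
    rw [← Set.ncard_eq_toFinset_card _ (cell_ball x y t ht).1]
    exact (cell_ball x y t ht).2
  have h2 : ((bcells D y t).ncard : ℝ) ≤ A.card * 4 ^ Fintype.card ι := by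
    exact_mod_cast h1
  have h3 : 0 ≤ t ^ m := pow_nonneg ht.le m
  calc ((bcells D y t).ncard : ℝ) * t ^ m ≤ (A.card * 4 ^ Fintype.card ι) * t ^ m :=
        mul_le_mul_of_nonneg_right h2 h3
    _ = 4 ^ Fintype.card ι * (A.card * t ^ m) := by ring
    _ ≤ 4 ^ Fintype.card ι * C := mul_le_mul_of_nonneg_left hA (by positivity)

theorem cell_frontier {ι : Type} [Fintype ι] (D : Set (ι → ℝ)) (y : ι → ℝ) (t : ℝ) (ht : 0 < t)
    (z : ι → ℤ) (h1 : (cellO y t z ∩ D).Nonempty) (h2 : ¬ cellO y t z ⊆ D) :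
    z ∈ bcells D y t := by
  have hc : Convex ℝ (cellO y t z) := by
    have : cellO y t z = Set.univ.pi fun i => Set.Ico (y i + t * z i) (y i + t * (z i + 1)) := by
      ext x
      simp only [cellO, Set.mem_ofPred_eq, Set.mem_pi, Set.mem_univ, true_implies, Set.mem_Ico]
    rw [this]
    exact convex_pi fun i _ => convex_Ico _ _
  rw [Set.not_subset] at h2
  obtain ⟨p, hp, hpD⟩ := h2
  by_contra hz
  have hno : ∀ q ∈ cellO y t z, q ∉ closure D ∨ q ∈ interior D := by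
    intro q hq
    by_contra hcon
    push Not at hcon
    exact hz ⟨q, fun i => ⟨(hq i).1, (hq i).2.le⟩, hcon.1, hcon.2⟩
  obtain ⟨q, hq, hqD⟩ := h1
  obtain ⟨r, -, hr1, hr2⟩ := hc.isPreconnected (interior D) (closure D)ᶜ isOpen_interior
    isClosed_closure.isOpen_compl (fun q hq => (hno q hq).symm)
    ⟨q, hq, (hno q hq).resolve_left fun h => h (subset_closure hqD)⟩
    ⟨p, hp, (hno p hp).resolve_right fun h => hpD (interior_subset h)⟩
  exact hr2 (interior_subset_closure hr1)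

end Pool.Agent.H98.MF
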