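import Pool.Agent.H98.MF.NK

/-!
# MK4, block N: Chebyshev's upper bound for the primes of a number field (helper63)
-/

set_option autoImplicit false

open scoped BigOperators Pointwise NNReal nonZeroDivisors
open NumberField IsDedekindDomain

namespace Pool.Agent.H98.MF

variable {k : Type} [Field k] [NumberField k]

/-- the rational prime below -/
private noncomputable def nchP (Q : HeightOneSpectrum (𝓞 k)) : ℕ :=
  Ideal.absNorm (Ideal.under ℤ Q.asIdeal)

omit [NumberField k] in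
private theorem nchP_prime (Q : HeightOneSpectrum (𝓞 k)) : (nchP Q).Prime := by
  have : NeZero Q.asIdeal := ⟨Q.ne_bot⟩
  exact Nat.absNorm_under_prime Q.asIdeal

private theorem nchP_dvd (Q : HeightOneSpectrum (𝓞 k)) : nchP Q ∣ Ideal.absNorm Q.asIdeal :=
  Int.absNorm_under_dvd_absNorm Q.asIdeal

private theorem nch_pos (Q : HeightOneSpectrum (𝓞 k)) : 0 < Ideal.absNorm Q.asIdeal :=
  lt_of_lt_of_le two_pos (two_le_absNorm Q)

private theorem nch_fib (p : ℕ) (T : Finset (HeightOneSpectrum (𝓞 k)))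
    (hp : p.Prime) (hT : ∀ Q ∈ T, nchP Q = p) : T.card ≤ Module.finrank ℤ (𝓞 k) := by
  classical
  have h1 : (∏ Q ∈ T, Q.asIdeal) ∣ Ideal.span {(p : 𝓞 k)} := by
    refine Finset.prod_dvd_of_coprime ?_ ?_
    · intro Q _ R _ hQR
      exact Ideal.isCoprime_of_isMaximal (fun h => hQR (HeightOneSpectrum.ext h))
    · intro Q hQ
      rw [Ideal.dvd_span_singleton, ← hT Q hQ]
      exact Int.absNorm_under_mem Q.asIdeal
  have h2 : ∏ Q ∈ T, Ideal.absNorm Q.asIdeal ∣ p ^ Module.finrank ℤ (𝓞 k) := by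
    rw [← Ideal.absNorm_span_natCast, ← map_prod]
    exact map_dvd _ h1
  have h3 : p ^ T.card ≤ ∏ Q ∈ T, Ideal.absNorm Q.asIdeal := by
    refine Finset.pow_card_le_prod T _ p fun Q hQ => ?_
    rw [← hT Q hQ]
    exact Nat.le_of_dvd (nch_pos Q) (nchP_dvd Q)
  have h4 : p ^ T.card ≤ p ^ Module.finrank ℤ (𝓞 k) :=
    h3.trans (Nat.le_of_dvd (pow_pos hp.pos _) h2)
  exact (Nat.pow_le_pow_iff_right hp.one_lt).1 h4

private theorem nch_pi (x : ℝ) (hx : 2 ≤ x) :
    (Nat.primeCounting ⌊x⌋₊ : ℝ) ≤ (2 * Real.log 4 + 2) * x / Real.log x := by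
  have h1 := Chebyshev.pi_le_log4_mul_div (x := x) (by linarith)
  have hx0 : 0 < x := by linarith
  have hlog : 0 < Real.log x := Real.log_pos (by linarith)
  have h2 : Real.log √x = Real.log x / 2 := Real.log_sqrt hx0.le
  have hs : 0 < √x := Real.sqrt_pos.2 hx0
  have h3 : Real.log x ≤ 2 * √x := by
    have := Real.log_le_sub_one_of_pos hs
    linarith
  have h4 : √x ≤ 2 * x / Real.log x := by
    rw [le_div_iff₀ hlog]
    have h5 : √x * √x = x := Real.mul_self_sqrt hx0.le
    calc √x * Real.log x ≤ √x * (2 * √x) := mul_le_mul_of_nonneg_left h3 hs.le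
      _ = 2 * x := by rw [← h5]; ring_nf; rw [Real.sq_sqrt hx0.le, Real.sq_sqrt (by positivity)]
  refine h1.trans ?_
  rw [h2]
  have h6 : (2 * Real.log 4 + 2) * x / Real.log x =
      Real.log 4 * x / (Real.log x / 2) + 2 * x / Real.log x := by
    field_simp
  rw [h6]
  linarith

/-- Chebyshev's upper bound for the primes of a number field -/
theorem cheb_S (S : Finset (HeightOneSpectrum (𝓞 k))) :
    ∃ C : ℝ, ∀ x : ℝ, 2 ≤ x → (((preK S).pr x).card : ℝ) ≤ C * x / Real.log x := by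
  classical
  refine ⟨Module.finrank ℤ (𝓞 k) * (2 * Real.log 4 + 2), fun x hx => ?_⟩
  have hx0 : 0 ≤ x := by linarith
  have h1 : ((preK S).pr x).card ≤ Module.finrank ℤ (𝓞 k) * (Nat.primesLE ⌊x⌋₊).card := by
    refine Finset.card_le_mul_card_image_of_maps_to (f := fun Q : (preK S).P => nchP Q.1) ?_ _ ?_
    · intro Q hQ
      rw [Nat.mem_primesLE]
      refine ⟨?_, nchP_prime Q.1⟩
      have h2 := ((preK S).mem_pr hx0).1 hQ
      have h3 : (preK S).N Q ≤ ⌊x⌋₊ := Nat.le_floor h2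
      exact (Nat.le_of_dvd (nch_pos Q.1) (nchP_dvd Q.1)).trans h3
    · intro p hp
      let e : (preK S).P ↪ HeightOneSpectrum (𝓞 k) := ⟨fun Q => Q.1, Subtype.val_injective⟩
      have h4 := nch_fib p ((((preK S).pr x).filter fun Q : (preK S).P => nchP Q.1 = p).map e)
        (Nat.prime_of_mem_primesLE hp) ?_
      · rwa [Finset.card_map] at h4
      · intro Q hQ
        obtain ⟨R, hR, rfl⟩ := Finset.mem_map.1 hQ
        exact (Finset.mem_filter.1 hR).2
  rw [Nat.primesLE_card_eq_primeCounting] at h1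
  have h5 : (((preK S).pr x).card : ℝ) ≤
      (Module.finrank ℤ (𝓞 k) : ℝ) * (Nat.primeCounting ⌊x⌋₊ : ℝ) := by exact_mod_cast h1
  refine h5.trans ?_
  refine (mul_le_mul_of_nonneg_left (nch_pi x hx) (Nat.cast_nonneg _)).trans (le_of_eq ?_)
  ring

end Pool.Agent.H98.MF
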