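import Pool.Agent.H98.MF.NElem
import Pool.Agent.H98.MF.NCos

/-! # class_count: sums of periodic functions over the ideals of a class -/

set_option autoImplicit false

open scoped BigOperators Pointwise NNReal nonZeroDivisors
open NumberField NumberField.mixedEmbedding NumberField.InfinitePlace MeasureTheory

namespace Pool.Agent.H98.MF

variable (K : Type) [Field K] [NumberField K]

private lemma ncl_cone_ne {X : ℝ} {α : 𝓞 K} (h : α ∈ Cone (K := K) X) : α ≠ 0 := by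
  rintro rfl
  apply h.1.2
  simp

omit [NumberField K] in
private lemma ncl_mul_le_l (I J : Ideal (𝓞 K)) : I * J ≤ J := Ideal.mul_le_right

omit [NumberField K] in
private lemma ncl_mul_le_r (I J : Ideal (𝓞 K)) : I * J ≤ I := Ideal.mul_le_left

omit [NumberField K] in
private lemma ncl_mono {I I' J : Ideal (𝓞 K)} (h : I ≤ I') : I * J ≤ I' * J :=
  Ideal.mul_mono h le_rfl

private lemma ncl_cof {J : Ideal (𝓞 K)} {α : 𝓞 K} (h : α ∈ J) :
    Ideal.span {α} = cof J α * J := by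
  have h1 : ∃ I : Ideal (𝓞 K), Ideal.span {α} = I * J := by
    have h2 : J ∣ Ideal.span {α} := by
      rw [Ideal.dvd_iff_le, Ideal.span_singleton_le_iff_mem]
      exact h
    obtain ⟨I, hI⟩ := h2
    exact ⟨I, by rw [hI, mul_comm]⟩
  unfold cof
  rw [dif_pos h1]
  exact h1.choose_spec

private lemma ncl_dvd {J B : Ideal (𝓞 K)} (hJ : J ≠ ⊥) {α : 𝓞 K} (h : α ∈ J) :
    B ∣ cof J α ↔ α ∈ B * J := by
  rw [← Ideal.span_singleton_le_iff_mem, ← Ideal.dvd_iff_le, ncl_cof K h]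
  exact (mul_dvd_mul_iff_right hJ).symm

open Classical in
/-- the value of `F` on the residue class and sign -/
private noncomputable def nclVal (J M : Ideal (𝓞 K)) (F : Ideal (𝓞 K) → ℝ)
    (p : (𝓞 K ⧸ (M * J)) × Set (RP K)) : ℝ :=
  if h : ∃ α : 𝓞 K, α ≠ 0 ∧ α ∈ J ∧ Ideal.Quotient.mk (M * J) α = p.1 ∧ sgnN α = p.2 then
    F (cof J h.choose) else 0

omit [NumberField K] in
private lemma nclVal_eq {J M : Ideal (𝓞 K)} {F : Ideal (𝓞 K) → ℝ} (hP : PER J M F)
    {α : 𝓞 K} (h0 : α ≠ 0) (hJ : α ∈ J) :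
    nclVal K J M F (Ideal.Quotient.mk (M * J) α, sgnN α) = F (cof J α) := by
  have h : ∃ β : 𝓞 K, β ≠ 0 ∧ β ∈ J ∧ Ideal.Quotient.mk (M * J) β =
      Ideal.Quotient.mk (M * J) α ∧ sgnN β = sgnN α := ⟨α, h0, hJ, rfl, rfl⟩
  unfold nclVal
  rw [dif_pos h]
  obtain ⟨h1, h2, h3, h4⟩ := h.choose_spec
  exact hP _ _ h1 h0 h2 (Ideal.Quotient.eq.1 h3) h4

omit [NumberField K] in
private lemma nclVal_le {J M : Ideal (𝓞 K)} {F : Ideal (𝓞 K) → ℝ} (hF : ∀ I, |F I| ≤ 1)
    (p : (𝓞 K ⧸ (M * J)) × Set (RP K)) : |nclVal K J M F p| ≤ 1 := by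
  unfold nclVal
  split_ifs with h
  · exact hF _
  · simp

private lemma ncl_sum1 (J B : Ideal (𝓞 K)) (F : Ideal (𝓞 K) → ℝ) (X : ℝ) :
    ∑ᶠ I ∈ {I ∈ IdLe K X | CoP J I ∧ B ∣ I}, F I =
      ∑ᶠ I ∈ {I ∈ IdLe K X | CoP J I}, (Set.indicator {I | B ∣ I} F) I := by
  apply finsum_congr
  intro I
  rw [finsum_eq_indicator_apply, finsum_eq_indicator_apply, Set.indicator_indicator]
  congr 1
  ext x
  simp only [Set.mem_ofPred_eq, Set.mem_inter_iff]
  tauto

private lemma ncl_sum2 (J B : Ideal (𝓞 K)) (hJ : J ≠ ⊥) (F : Ideal (𝓞 K) → ℝ) (X : ℝ) :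
    ∑ᶠ α ∈ {α ∈ Cone (K := K) X | α ∈ J}, (Set.indicator {I | B ∣ I} F) (cof J α) =
      ∑ᶠ α ∈ {α ∈ Cone (K := K) X | α ∈ B * J}, F (cof J α) := by
  apply finsum_congr
  intro α
  rw [finsum_eq_indicator_apply {α ∈ Cone (K := K) X | α ∈ J}
      (fun α => (Set.indicator {I | B ∣ I} F) (cof J α)) α,
    finsum_eq_indicator_apply {α ∈ Cone (K := K) X | α ∈ B * J} (fun α => F (cof J α)) α]
  by_cases h : α ∈ Cone (K := K) X
  · by_cases h1 : α ∈ J
    · by_cases h2 : α ∈ B * J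
      · rw [Set.indicator_of_mem (show α ∈ {α ∈ Cone (K := K) X | α ∈ J} from ⟨h, h1⟩),
          Set.indicator_of_mem (show α ∈ {α ∈ Cone (K := K) X | α ∈ B * J} from ⟨h, h2⟩),
          Set.indicator_of_mem (show cof J α ∈ {I | B ∣ I} from (ncl_dvd K hJ h1).2 h2)]
      · rw [Set.indicator_of_mem (show α ∈ {α ∈ Cone (K := K) X | α ∈ J} from ⟨h, h1⟩),
          Set.indicator_of_notMem (show α ∉ {α ∈ Cone (K := K) X | α ∈ B * J} from
            fun h3 => h2 h3.2),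
          Set.indicator_of_notMem (show cof J α ∉ {I | B ∣ I} from
            fun h3 => h2 ((ncl_dvd K hJ h1).1 h3))]
    · rw [Set.indicator_of_notMem (show α ∉ {α ∈ Cone (K := K) X | α ∈ J} from
            fun h3 => h1 h3.2),
          Set.indicator_of_notMem (show α ∉ {α ∈ Cone (K := K) X | α ∈ B * J} from
            fun h3 => h1 (ncl_mul_le_l K B J h3.2))]
  · rw [Set.indicator_of_notMem (show α ∉ {α ∈ Cone (K := K) X | α ∈ J} from
            fun h3 => h h3.1),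
          Set.indicator_of_notMem (show α ∉ {α ∈ Cone (K := K) X | α ∈ B * J} from
            fun h3 => h h3.1)]

open Classical in
/-- the fibres are cosets -/
private lemma ncl_fib (J M B : Ideal (𝓞 K)) (hc : IsCoprime B M) (X : ℝ)
    (hfin : {α ∈ Cone (K := K) X | α ∈ B * J}.Finite)
    (p : (𝓞 K ⧸ (M * J)) × Set (RP K)) {b : 𝓞 K} (hb : b ∈ J)
    (hbp : Ideal.Quotient.mk (M * J) b = p.1) :
    ∃ a : 𝓞 K, (((hfin.toFinset).filter
      (fun α => (Ideal.Quotient.mk (M * J) α, sgnN α) = p) : Finset (𝓞 K)) : Set (𝓞 K)) =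
      coset (B * M * J) a p.2 X := by
  -- a in BJ, a = b mod MJ
  have h1 : b ∈ B * J ⊔ M * J := by
    rw [← Ideal.sup_mul, Ideal.isCoprime_iff_sup_eq.1 hc]
    simpa using hb
  obtain ⟨a, ha, c, hc', hac⟩ := Submodule.mem_sup.1 h1
  have hab : Ideal.Quotient.mk (M * J) a = Ideal.Quotient.mk (M * J) b := by
    rw [Ideal.Quotient.eq, ← hac]
    have : a - (a + c) = - c := by ring
    rw [this]
    exact (M * J).neg_mem hc'
  have hBM : ∀ x : 𝓞 K, x ∈ B * M * J ↔ x ∈ B * J ∧ x ∈ M * J := by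
    intro x
    constructor
    · intro hx
      refine ⟨?_, ?_⟩
      · exact ncl_mono K (ncl_mul_le_r K B M) hx
      · exact ncl_mono K (ncl_mul_le_l K B M) hx
    · rintro ⟨hx1, hx2⟩
      have hsup := Ideal.isCoprime_iff_sup_eq.1 hc
      have h3 : (1 : 𝓞 K) ∈ B ⊔ M := by rw [hsup]; trivial
      obtain ⟨u, hu, v, hv, huv⟩ := Submodule.mem_sup.1 h3
      have h4 : x = u * x + v * x := by rw [← add_mul, huv, one_mul]
      rw [h4]
      refine (B * M * J).add_mem ?_ ?_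
      · have := Ideal.mul_mem_mul hu hx2
        rwa [← mul_assoc] at this
      · have := Ideal.mul_mem_mul hv hx1
        rwa [← mul_assoc, mul_comm M B] at this
  refine ⟨a, ?_⟩
  ext α
  simp only [Finset.coe_filter, Set.Finite.mem_toFinset, Set.mem_ofPred_eq, coset]
  constructor
  · rintro ⟨⟨h2, h3⟩, h4⟩
    have h5 : Ideal.Quotient.mk (M * J) α = p.1 := by rw [← h4]
    have h6 : sgnN α = p.2 := by rw [← h4]
    refine ⟨h2, (hBM _).2 ⟨(B * J).sub_mem h3 ha, ?_⟩, h6⟩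
    rw [← Ideal.Quotient.eq, hab, hbp, h5]
  · rintro ⟨h2, h3, h4⟩
    obtain ⟨h5, h6⟩ := (hBM _).1 h3
    refine ⟨⟨h2, ?_⟩, ?_⟩
    · have : α = (α - a) + a := by ring
      rw [this]
      exact (B * J).add_mem h5 ha
    · have h7 : Ideal.Quotient.mk (M * J) α = p.1 := by
        rw [← hbp, ← hab, Ideal.Quotient.eq]; exact h6
      exact Prod.ext h7 h4

theorem class_count (J : Ideal (𝓞 K)) (hJ : J ≠ ⊥) :
    ∃ C : ℝ, 0 ≤ C ∧ ∀ (M : Ideal (𝓞 K)), M ≠ ⊥ → ∀ F : Ideal (𝓞 K) → ℝ, (∀ I, |F I| ≤ 1) →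
      PER J M F → ∃ A : ℝ, ∀ (B : Ideal (𝓞 K)), B ≠ ⊥ → IsCoprime B M → ∀ X : ℝ, 1 ≤ X →
        |∑ᶠ I ∈ {I ∈ IdLe K X | CoP J I ∧ B ∣ I}, F I - A * X / Ideal.absNorm B| ≤
          C * ((Ideal.absNorm B : ℝ) * Ideal.absNorm M) ^ (Module.finrank ℚ K + 1) *
            X ^ (1 - 1 / (Module.finrank ℚ K : ℝ)) := by
  classical
  obtain ⟨κ, hκ, C, hC, hcos⟩ := coset_count K
  have hnorm : ∀ I : Ideal (𝓞 K), I ≠ ⊥ → (1 : ℝ) ≤ (Ideal.absNorm I : ℝ) := by
    intro I hI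
    exact_mod_cast Nat.one_le_iff_ne_zero.2 (fun h => hI (Ideal.absNorm_eq_zero_iff.1 h))
  have hJ1 := hnorm J hJ
  have hd : 1 ≤ Module.finrank ℚ K := Module.finrank_pos
  set d := Module.finrank ℚ K with hddef
  set e : ℝ := 1 - 1 / (d : ℝ) with hedef
  have he : 0 ≤ e := by
    rw [hedef]
    have : 1 / (d : ℝ) ≤ 1 := by
      rw [div_le_one (by positivity)]
      exact_mod_cast hd
    linarith
  let _ : Fintype (Set (RP K)) := Fintype.ofFinite _
  set S : ℝ := (Fintype.card (Set (RP K)) : ℝ) with hS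
  set nJ : ℝ := (Ideal.absNorm J : ℝ) with hnJ
  refine ⟨S * C * nJ ^ (d + 1) * nJ ^ e, by positivity, ?_⟩
  intro M hM F hF hP
  have hM1 := hnorm M hM
  set nM : ℝ := (Ideal.absNorm M : ℝ) with hnM
  have hMJ : M * J ≠ ⊥ := mul_ne_zero hM hJ
  let _ : Fintype (𝓞 K ⧸ (M * J)) := @Fintype.ofFinite _ (Ideal.finiteQuotientOfFreeOfNeBot _ hMJ)
  have hcardQ : (Fintype.card (𝓞 K ⧸ (M * J)) : ℝ) = nM * nJ := by
    have : Ideal.absNorm (M * J) = Fintype.card (𝓞 K ⧸ (M * J)) := by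
      rw [Ideal.absNorm_apply, Submodule.cardQuot_apply, Nat.card_eq_fintype_card]
    rw [← this, map_mul]
    push_cast
    rfl
  set w : ℝ := (Units.torsionOrder K : ℝ) with hw
  have hw1 : 1 ≤ w := by
    rw [hw]
    exact_mod_cast Nat.one_le_iff_ne_zero.2 (Units.torsionOrder_ne_zero K)
  refine ⟨κ / (w * nM) * ∑ p, nclVal K J M F p, ?_⟩
  intro B hB hBM X hX
  have hB1 := hnorm B hB
  set nB : ℝ := (Ideal.absNorm B : ℝ) with hnB
  have hXJ : 1 ≤ X * nJ := by nlinarith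
  have hfin : {α ∈ Cone (K := K) (X * Ideal.absNorm J) | α ∈ B * J}.Finite :=
    (finite_Cone K _).subset (fun x hx => hx.1)
  -- the sum
  have hsum : w * ∑ᶠ I ∈ {I ∈ IdLe K X | CoP J I ∧ B ∣ I}, F I =
      ∑ p : (𝓞 K ⧸ (M * J)) × Set (RP K), nclVal K J M F p *
        ((((hfin.toFinset).filter
      (fun α => (Ideal.Quotient.mk (M * J) α, sgnN α) = p) : Finset (𝓞 K)).card : ℕ) : ℝ) := by
    rw [ncl_sum1, hw, elem_sum K J hJ, ncl_sum2 K J B hJ, finsum_mem_eq_finite_toFinset_sum _ hfin,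
      ← Finset.sum_fiberwise hfin.toFinset
        (fun α => ((Ideal.Quotient.mk (M * J) α, sgnN α) : (𝓞 K ⧸ (M * J)) × Set (RP K)))]
    apply Finset.sum_congr rfl
    intro p _
    rw [Finset.sum_congr rfl (g := fun _ => nclVal K J M F p)]
    · rw [Finset.sum_const, nsmul_eq_mul, mul_comm]
    · intro α hα
      rw [Finset.mem_filter, Set.Finite.mem_toFinset] at hα
      rw [← hα.2, nclVal_eq K hP (ncl_cone_ne K hα.1.1) (ncl_mul_le_l K B J hα.1.2)]
  set E : ℝ := C * (nB * nM * nJ) ^ d * (X * nJ) ^ e with hE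
  have hE0 : 0 ≤ E := by positivity
  have hterm : ∀ p : (𝓞 K ⧸ (M * J)) × Set (RP K),
      |nclVal K J M F p * ((((hfin.toFinset).filter
      (fun α => (Ideal.Quotient.mk (M * J) α, sgnN α) = p) : Finset (𝓞 K)).card : ℕ) : ℝ) -
        nclVal K J M F p * (κ * X / (nB * nM))| ≤ E := by
    intro p
    by_cases hp : ∃ b ∈ J, Ideal.Quotient.mk (M * J) b = p.1
    · obtain ⟨b, hb, hbp⟩ := hp
      obtain ⟨a, ha⟩ := ncl_fib K J M B hBM (X * Ideal.absNorm J) hfin p hb hbp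
      have h1 := (hcos (B * M * J) (mul_ne_zero (mul_ne_zero hB hM) hJ) a p.2
        (X * Ideal.absNorm J) hXJ).2
      rw [← ha, Set.ncard_coe_finset] at h1
      have h2 : ((Ideal.absNorm (B * M * J) : ℕ) : ℝ) = nB * nM * nJ := by
        rw [map_mul, map_mul]
        push_cast
        rfl
      rw [h2] at h1
      have h3 : κ * (X * (Ideal.absNorm J : ℝ)) / (nB * nM * nJ) = κ * X / (nB * nM) := by
        rw [← hnJ]
        field_simp
      rw [h3] at h1
      rw [← mul_sub, abs_mul]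
      calc _ ≤ 1 * E := by
            apply mul_le_mul (nclVal_le K hF p) h1 (abs_nonneg _) zero_le_one
        _ = E := one_mul _
    · have h0 : nclVal K J M F p = 0 := by
        unfold nclVal
        rw [dif_neg]
        rintro ⟨α, _, h1, h2, _⟩
        exact hp ⟨α, h1, h2⟩
      rw [h0]
      simpa using hE0
  have htot : |w * ∑ᶠ I ∈ {I ∈ IdLe K X | CoP J I ∧ B ∣ I}, F I -
      (∑ p, nclVal K J M F p) * (κ * X / (nB * nM))| ≤ (nM * nJ) * S * E := by
    rw [hsum, Finset.sum_mul, ← Finset.sum_sub_distrib]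
    calc _ ≤ ∑ p : (𝓞 K ⧸ (M * J)) × Set (RP K), |nclVal K J M F p *
        ((((hfin.toFinset).filter
      (fun α => (Ideal.Quotient.mk (M * J) α, sgnN α) = p) : Finset (𝓞 K)).card : ℕ) : ℝ) -
        nclVal K J M F p * (κ * X / (nB * nM))| := Finset.abs_sum_le_sum_abs _ _
      _ ≤ ∑ p : (𝓞 K ⧸ (M * J)) × Set (RP K), E := Finset.sum_le_sum (fun p _ => hterm p)
      _ = (nM * nJ) * S * E := by
        rw [Finset.sum_const, nsmul_eq_mul, Finset.card_univ, Fintype.card_prod]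
        push_cast
        rw [hcardQ]
  have hfinal : w * (∑ᶠ I ∈ {I ∈ IdLe K X | CoP J I ∧ B ∣ I}, F I -
      κ / (w * nM) * (∑ p, nclVal K J M F p) * X / nB) =
      w * ∑ᶠ I ∈ {I ∈ IdLe K X | CoP J I ∧ B ∣ I}, F I -
      (∑ p, nclVal K J M F p) * (κ * X / (nB * nM)) := by
    rw [mul_sub]
    congr 1
    have : w ≠ 0 := by positivity
    field_simp
  have h5 : |∑ᶠ I ∈ {I ∈ IdLe K X | CoP J I ∧ B ∣ I}, F I -
      κ / (w * nM) * (∑ p, nclVal K J M F p) * X / nB| ≤ (nM * nJ) * S * E := by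
    rw [← hfinal, abs_mul, abs_of_nonneg (by linarith : 0 ≤ w)] at htot
    refine le_trans ?_ htot
    exact le_mul_of_one_le_left (abs_nonneg _) hw1
  refine h5.trans ?_
  have h6 : (X * nJ) ^ e = X ^ e * nJ ^ e :=
    Real.mul_rpow (by linarith) (by linarith)
  have h7 : nM * nJ * S * E = S * C * nJ ^ (d + 1) * nJ ^ e * (nM * (nB * nM) ^ d) * X ^ e := by
    rw [hE, h6]
    ring
  rw [h7]
  have h8 : nM * (nB * nM) ^ d ≤ (nB * nM) ^ (d + 1) := by
    rw [pow_succ, mul_comm ((nB * nM) ^ d)]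
    apply mul_le_mul_of_nonneg_right _ (by positivity)
    nlinarith
  gcongr

end Pool.Agent.H98.MF
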