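import Pool.Agent.H98.MF.NDefs

/-!
# Project MK4 (MP_a3214d), block N: the faces of the parametrisation are Lipschitz
-/

set_option autoImplicit false

open scoped BigOperators Pointwise NNReal nonZeroDivisors
open NumberField NumberField.mixedEmbedding NumberField.InfinitePlace MeasureTheory

namespace Pool.Agent.H98.MF

theorem lip_of_contDiff {κ : Type} [Fintype κ] {E : Type} [NormedAddCommGroup E]
    [NormedSpace ℝ E] (f : (κ → ℝ) → E) (hf : ContDiff ℝ 1 f) :
    ∃ L : ℝ≥0, LipschitzOnWith L f (Set.Icc 0 1) :=
  hf.contDiffOn.exists_lipschitzOnWith one_ne_zero (convex_Icc 0 1) isCompact_Icc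

variable (K : Type) [Field K] [NumberField K]

private theorem nface_expMapBasis (w : InfinitePlace K) :
    ContDiff ℝ 1 (fun x : InfinitePlace K → ℝ => fundamentalCone.expMapBasis x w) := by
  have h : (fun x : InfinitePlace K → ℝ => fundamentalCone.expMapBasis x w) =
      fun x => Real.exp ((w.mult : ℝ)⁻¹ *
        ((fundamentalCone.completeBasis K).equivFunL.symm x) w) := by
    funext x
    rw [fundamentalCone.expMapBasis_apply, fundamentalCone.expMap_apply]
    rfl
  rw [h]
  refine Real.contDiff_exp.comp (contDiff_const.mul ?_)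
  exact (contDiff_apply ℝ ℝ w).comp
    ((fundamentalCone.completeBasis K).equivFunL.symm.contDiff)

open Classical in
theorem contDiff_faceN (w₁ : InfinitePlace K) (b : Bool) : ContDiff ℝ 1 (faceN K w₁ b) := by
  have hs : ∀ w : InfinitePlace K, ContDiff ℝ 1
      (fun x : ({w : InfinitePlace K // w ≠ w₁} ⊕ {w : InfinitePlace K // IsComplex w}) → ℝ =>
        (if h : w = w₁ then (if b then (1 : ℝ) else 0) else x (Sum.inl ⟨w, h⟩))) := by
    intro w
    by_cases h : w = w₁
    · simp only [h, dite_true]
      exact contDiff_const
    · simp only [h, dite_false]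
      exact contDiff_apply ℝ ℝ _
  have hr : ∀ w : InfinitePlace K, ContDiff ℝ 1
      (fun x : ({w : InfinitePlace K // w ≠ w₁} ⊕ {w : InfinitePlace K // IsComplex w}) → ℝ =>
        (if h : NumberField.Units.dirichletUnitTheorem.w₀ (K := K) = w₁ then
          (if b then (1 : ℝ) else 0) else
          x (Sum.inl ⟨NumberField.Units.dirichletUnitTheorem.w₀ (K := K), h⟩)) *
        fundamentalCone.expMapBasis
          (Function.update (fun w => if h : w = w₁ then (if b then (1 : ℝ) else 0) else
            x (Sum.inl ⟨w, h⟩)) (NumberField.Units.dirichletUnitTheorem.w₀ (K := K)) 0) w) := by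
    intro w
    refine (hs _).mul ((nface_expMapBasis K w).comp ?_)
    rw [contDiff_pi]
    intro v
    by_cases hv : v = NumberField.Units.dirichletUnitTheorem.w₀ (K := K)
    · subst hv
      simp only [Function.update_self]
      exact contDiff_const
    · simp only [Function.update_of_ne hv]
      exact hs v
  unfold faceN phiN
  refine ContDiff.prodMk ?_ ?_
  · rw [contDiff_pi]
    intro w
    exact hr w.1
  · rw [contDiff_pi]
    intro w
    refine (Complex.ofRealCLM.contDiff.comp (hr w.1)).mul ?_
    refine Complex.contDiff_exp.comp (contDiff_const.mul ?_)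
    exact Complex.ofRealCLM.contDiff.comp (contDiff_apply ℝ ℝ _)

end Pool.Agent.H98.MF
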