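import Pool.Agent.H98.MF.NDefs

/-!
# Project MK4 (MP_a3214d), row MF-NFront: the frontier of the positive part of `normLeOne K`
-/

set_option autoImplicit false

open scoped BigOperators Pointwise NNReal nonZeroDivisors
open NumberField NumberField.mixedEmbedding NumberField.InfinitePlace MeasureTheory

namespace Pool.Agent.H98.MF

variable (K : Type) [Field K] [NumberField K]

/-- the angle of a complex number in `[0,1]` -/
private theorem NFront_angle (z : ℂ) : ∃ θ : ℝ, 0 ≤ θ ∧ θ ≤ 1 ∧
    ((‖z‖ : ℝ) : ℂ) * Complex.exp (2 * Real.pi * Complex.I * (θ : ℂ)) = z := by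
  have hpi : 0 < Real.pi := Real.pi_pos
  have hpi' : (Real.pi : ℂ) ≠ 0 := by exact_mod_cast hpi.ne'
  have h1 := Complex.neg_pi_lt_arg z
  have h2 := Complex.arg_le_pi z
  by_cases h : 0 ≤ z.arg
  · refine ⟨z.arg / (2 * Real.pi), by positivity, ?_, ?_⟩
    · rw [div_le_one (by positivity)]
      linarith
    · have : (2 * Real.pi * Complex.I * ((z.arg / (2 * Real.pi) : ℝ) : ℂ)) = z.arg * Complex.I := by
        push_cast
        field_simp
      rw [this]
      exact Complex.norm_mul_exp_arg_mul_I z
  · push Not at h
    refine ⟨z.arg / (2 * Real.pi) + 1, ?_, ?_, ?_⟩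
    · rw [← sub_le_iff_le_add, zero_sub, le_div_iff₀ (by positivity)]
      linarith
    · have : z.arg / (2 * Real.pi) ≤ 0 := div_nonpos_of_nonpos_of_nonneg h.le (by positivity)
      linarith
    · have : (2 * Real.pi * Complex.I * ((z.arg / (2 * Real.pi) + 1 : ℝ) : ℂ)) =
          z.arg * Complex.I + 2 * Real.pi * Complex.I := by
        push_cast
        field_simp
      rw [this, Complex.exp_add, Complex.exp_two_pi_mul_I, mul_one]
      exact Complex.norm_mul_exp_arg_mul_I z

open Classical in
theorem frontier_plus :
    frontier (plusPart (fundamentalCone.normLeOne K)) ⊆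
      ⋃ w₁ : InfinitePlace K, ⋃ b : Bool, faceN K w₁ b '' Set.Icc 0 1 := by
  intro x hx
  have hcl : x ∈ closure (plusPart (fundamentalCone.normLeOne K)) := frontier_subset_closure hx
  have hint : x ∉ interior (plusPart (fundamentalCone.normLeOne K)) := hx.2
  have h1 : x ∈ closure (fundamentalCone.normLeOne K) := closure_mono Set.inter_subset_left hcl
  have h2 : ∀ w, 0 ≤ x.1 w := by
    have hc : IsClosed {y : mixedSpace K | ∀ w, 0 ≤ y.1 w} := by
      have : {y : mixedSpace K | ∀ w, 0 ≤ y.1 w} = ⋂ w, {y : mixedSpace K | 0 ≤ y.1 w} := by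
        ext y; simp
      rw [this]
      exact isClosed_iInter fun w => isClosed_le continuous_const
        ((continuous_apply w).comp continuous_fst)
    have hs : plusPart (fundamentalCone.normLeOne K) ⊆ {y : mixedSpace K | ∀ w, 0 ≤ y.1 w} :=
      fun y hy w => (hy.2 w).le
    exact hc.closure_subset_iff.mpr hs hcl
  obtain ⟨c, hc, ⟨_, ⟨y, hy, rfl⟩, hxy⟩⟩ := fundamentalCone.closure_normLeOne_subset K h1
  have hy0 : y Units.dirichletUnitTheorem.w₀ = 0 := by
    simpa using hy Units.dirichletUnitTheorem.w₀ (Set.mem_univ _)
  have hy1 : ∀ w, w ≠ Units.dirichletUnitTheorem.w₀ → y w ∈ Set.Icc (0 : ℝ) 1 := fun w hw => by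
    simpa [hw] using hy w (Set.mem_univ _)
  have hn : ∀ w, normAtPlace w x = c * fundamentalCone.expMapBasis y w := fun w => by
    have := congrFun hxy w
    simpa using this.symm
  set s : InfinitePlace K → ℝ := Function.update y Units.dirichletUnitTheorem.w₀ c with hs
  have hs0 : s Units.dirichletUnitTheorem.w₀ = c := by rw [hs]; simp
  have hsu : Function.update s Units.dirichletUnitTheorem.w₀ 0 = y := by
    rw [hs, Function.update_idem, ← hy0, Function.update_eq_self]
  choose θ hθ0 hθ1 hθ using fun w : {w : InfinitePlace K // IsComplex w} => NFront_angle (x.2 w)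
  have hphi : phiN K s θ = x := by
    refine Prod.ext ?_ ?_
    · funext w
      show s Units.dirichletUnitTheorem.w₀ * fundamentalCone.expMapBasis
        (Function.update s Units.dirichletUnitTheorem.w₀ 0) w.1 = x.1 w
      rw [hs0, hsu, ← hn w.1, normAtPlace_apply_of_isReal w.2, Real.norm_of_nonneg (h2 _)]
    · funext w
      show ((s Units.dirichletUnitTheorem.w₀ * fundamentalCone.expMapBasis
        (Function.update s Units.dirichletUnitTheorem.w₀ 0) w.1 : ℝ) : ℂ) *
          Complex.exp (2 * Real.pi * Complex.I * (θ w : ℂ)) = x.2 w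
      rw [hs0, hsu, ← hn w.1, normAtPlace_apply_of_isComplex w.2]
      exact hθ w
  have hsIcc : ∀ w, 0 ≤ s w ∧ s w ≤ 1 := by
    intro w
    by_cases hw : w = Units.dirichletUnitTheorem.w₀
    · rw [hw, hs0]; exact hc
    · rw [hs, Function.update_of_ne hw]; exact hy1 w hw
  by_cases hex : ∃ w₁ : InfinitePlace K, ∃ b : Bool, s w₁ = if b then 1 else 0
  · obtain ⟨w₁, b, hb⟩ := hex
    refine Set.mem_iUnion.mpr ⟨w₁, Set.mem_iUnion.mpr ⟨b, ?_⟩⟩
    refine ⟨Sum.elim (fun w => s w.1) θ, ⟨?_, ?_⟩, ?_⟩
    · rintro (w | w)
      · exact (hsIcc w.1).1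
      · exact hθ0 w
    · rintro (w | w)
      · exact (hsIcc w.1).2
      · exact hθ1 w
    · rw [← hphi]
      show phiN K _ _ = _
      congr 1
      funext w
      by_cases hw : w = w₁
      · subst hw
        simp [hb]
      · simp [hw]
  · exfalso
    push Not at hex
    apply hint
    have hc0 : 0 < c := lt_of_le_of_ne hc.1 fun h => by
      have := hex Units.dirichletUnitTheorem.w₀ false
      rw [hs0] at this
      simp [← h] at this
    have hc1 : c < 1 := lt_of_le_of_ne hc.2 fun h => by
      have := hex Units.dirichletUnitTheorem.w₀ true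
      rw [hs0] at this
      simp [h] at this
    have hyI : ∀ w, w ≠ Units.dirichletUnitTheorem.w₀ → y w ∈ Set.Ioo (0 : ℝ) 1 := by
      intro w hw
      have e : s w = y w := by rw [hs, Function.update_of_ne hw]
      refine ⟨lt_of_le_of_ne (hy1 w hw).1 fun h => ?_, lt_of_le_of_ne (hy1 w hw).2 fun h => ?_⟩
      · have := hex w false
        rw [e] at this
        simp [← h] at this
      · have := hex w true
        rw [e] at this
        simp [h] at this
    rw [plusPart, interior_inter]
    refine ⟨?_, ?_⟩
    · apply fundamentalCone.subset_interior_normLeOne K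
      refine ⟨Function.update y Units.dirichletUnitTheorem.w₀ (Real.log c), ?_, ?_⟩
      · rw [fundamentalCone.interior_paramSet]
        intro w _
        by_cases hw : w = Units.dirichletUnitTheorem.w₀
        · subst hw
          simpa using Real.log_neg hc0 hc1
        · simpa [hw] using hyI w hw
      · rw [fundamentalCone.expMapBasis_apply'']
        have e1 : (fun i => if i = Units.dirichletUnitTheorem.w₀ then (0 : ℝ) else
            Function.update y Units.dirichletUnitTheorem.w₀ (Real.log c) i) = y := by
          funext i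
          by_cases hi : i = Units.dirichletUnitTheorem.w₀
          · subst hi
            simp [hy0]
          · simp [hi]
        rw [e1, Function.update_self, Real.exp_log hc0]
        exact hxy
    · have ho : IsOpen {y : mixedSpace K | ∀ w, 0 < y.1 w} := by
        have : {y : mixedSpace K | ∀ w, 0 < y.1 w} = ⋂ w, {y : mixedSpace K | 0 < y.1 w} := by
          ext y; simp
        rw [this]
        exact isOpen_iInter_of_finite fun w => isOpen_lt continuous_const
          ((continuous_apply w).comp continuous_fst)
      rw [ho.interior_eq]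
      intro w
      have h3 := hn w.1
      rw [normAtPlace_apply_of_isReal w.2, Real.norm_of_nonneg (h2 _)] at h3
      rw [show x.1 w = _ from h3]
      exact mul_pos hc0 (fundamentalCone.expMapBasis_pos _ _)

end Pool.Agent.H98.MF
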