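import Pool.Agent.H98.MF.NThin
import Pool.Agent.H98.MF.NFace
import Pool.Agent.H98.MF.NFront

set_option autoImplicit false

open scoped BigOperators Pointwise NNReal nonZeroDivisors
open NumberField NumberField.mixedEmbedding NumberField.InfinitePlace MeasureTheory

namespace Pool.Agent.H98.MF

variable (K : Type) [Field K] [NumberField K]

open Classical in
private theorem card_face (w₁ : InfinitePlace K) :
    Fintype.card ({w : InfinitePlace K // w ≠ w₁} ⊕ {w : InfinitePlace K // IsComplex w}) =
      Module.finrank ℚ K - 1 := by
  have h1 := InfinitePlace.card_add_two_mul_card_eq_rank K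
  have h2 := InfinitePlace.card_eq_nrRealPlaces_add_nrComplexPlaces K
  have h3 : Fintype.card {w : InfinitePlace K // w ≠ w₁} = Fintype.card (InfinitePlace K) - 1 := by
    simp [Fintype.card_subtype_compl]
  have h4 : 0 < Fintype.card (InfinitePlace K) := Fintype.card_pos_iff.2 ⟨w₁⟩
  have h5 : Fintype.card {w : InfinitePlace K // IsComplex w} = nrComplexPlaces K := rfl
  rw [Fintype.card_sum, h3, h5]
  omega

open Classical in
theorem thin_DN (s : Set (RP K)) : Thin (Module.finrank ℚ K - 1) (frontier (DN K s)) := by
  have h0 : Thin (Module.finrank ℚ K - 1) (frontier (plusPart (fundamentalCone.normLeOne K))) := by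
    refine thin_mono (frontier_plus K) ?_
    refine thin_iUnion _ fun w₁ => ?_
    refine thin_iUnion _ fun b => ?_
    obtain ⟨L, hL⟩ := lip_of_contDiff (faceN K w₁ b) (contDiff_faceN K w₁ b)
    exact thin_lip _ L hL _ (card_face K w₁)
  have h1 : frontier (DN K s) =
      negAt s '' frontier (plusPart (fundamentalCone.normLeOne K)) :=
    ((negAt s).toHomeomorph.image_frontier _).symm
  rw [h1]
  exact thin_image _ _ (negAt s).toContinuousLinearMap.lipschitz h0

end Pool.Agent.H98.MF
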