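import Pool.Agent.H98.MF.NLat
import Pool.Agent.H98.MF.NDN

set_option autoImplicit false

open scoped BigOperators Pointwise NNReal nonZeroDivisors
open NumberField NumberField.mixedEmbedding NumberField.InfinitePlace MeasureTheory

namespace Pool.Agent.H98.MF

variable (K : Type) [Field K] [NumberField K]

private theorem ncnt_symm (x : mixedSpace K) : x ∈ fundamentalCone.normLeOne K ↔
    (fun w ↦ ‖x.1 w‖, x.2) ∈ fundamentalCone.normLeOne K := by
  have h1 : ∀ w : InfinitePlace K, normAtPlace w x =
      normAtPlace w ((fun w ↦ ‖x.1 w‖, x.2) : mixedSpace K) := by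
    intro w
    rcases isReal_or_isComplex w with hw | hw
    · rw [normAtPlace_apply_of_isReal hw, normAtPlace_apply_of_isReal hw]
      simp
    · rw [normAtPlace_apply_of_isComplex hw, normAtPlace_apply_of_isComplex hw]
  rw [fundamentalCone.mem_normLeOne, fundamentalCone.mem_normLeOne,
    mixedEmbedding.norm_eq_of_normAtPlace_eq h1]
  constructor
  · rintro ⟨h2, h3⟩
    exact ⟨fundamentalCone.mem_of_normAtPlace_eq h2 (fun w => (h1 w).symm), h3⟩
  · rintro ⟨h2, h3⟩
    exact ⟨fundamentalCone.mem_of_normAtPlace_eq h2 h1, h3⟩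

private noncomputable abbrev nE : mixedSpace K ≃L[ℝ]
    (Module.Free.ChooseBasisIndex ℤ (𝓞 K) → ℝ) := (latticeBasis K).equivFunL

open Classical in
private theorem ncnt_vol : ∃ κ : ℝ, 0 < κ ∧ ∀ s : Set (RP K),
    (volume (nE K '' DN K s)).toReal = κ := by
  classical
  set P : Set (mixedSpace K) := plusPart (fundamentalCone.normLeOne K) with hP
  have hPm : MeasurableSet P := measurableSet_plusPart (fundamentalCone.measurableSet_normLeOne K)
  have hv1 : volume (fundamentalCone.normLeOne K) = 2 ^ nrRealPlaces K * volume P :=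
    volume_eq_two_pow_mul_volume_plusPart (ncnt_symm K)
      (fundamentalCone.measurableSet_normLeOne K)
  have hv2 := fundamentalCone.volume_normLeOne K
  have hP0 : volume P ≠ 0 := by
    intro h0
    rw [h0, mul_zero] at hv1
    rw [hv1] at hv2
    have h3 : (0 : ENNReal) < 2 ^ nrRealPlaces K * NNReal.pi ^ nrComplexPlaces K *
        ENNReal.ofReal (Units.regulator K) := by
      have h4 : (0 : ENNReal) < ENNReal.ofReal (Units.regulator K) :=
        ENNReal.ofReal_pos.2 (Units.regulator_pos K)
      have h5 : (0 : ENNReal) < 2 ^ nrRealPlaces K := by positivity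
      have h6 : (0 : ENNReal) < NNReal.pi ^ nrComplexPlaces K := by
        have : (NNReal.pi : ENNReal) ≠ 0 := by
          simp [NNReal.pi_ne_zero]
        exact pos_iff_ne_zero.2 (pow_ne_zero _ this)
      exact ENNReal.mul_pos (mul_ne_zero h5.ne' h6.ne') h4.ne'
    rw [← hv2] at h3
    exact lt_irrefl _ h3
  have hbP : Bornology.IsBounded P :=
    (fundamentalCone.isBounded_normLeOne K).subset (fun x hx => hx.1)
  have hPt : volume P ≠ ⊤ := hbP.measure_lt_top.ne
  set ν : Measure (mixedSpace K) := Measure.map (nE K).symm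
    (volume : Measure (Module.Free.ChooseBasisIndex ℤ (𝓞 K) → ℝ)) with hν
  have hνA : ν.IsAddHaarMeasure := by
    rw [hν]
    infer_instance
  have hsm : ν = Measure.addHaarScalarFactor ν volume • (volume : Measure (mixedSpace K)) :=
    Measure.isAddLeftInvariant_eq_smul ν volume
  have hc : 0 < Measure.addHaarScalarFactor ν (volume : Measure (mixedSpace K)) :=
    Measure.addHaarScalarFactor_pos_of_isAddHaarMeasure ν volume
  have hν1 : ∀ A : Set (mixedSpace K), MeasurableSet A → volume (nE K '' A) = ν A := by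
    intro A hA
    rw [hν, Measure.map_apply (nE K).symm.continuous.measurable hA]
    congr 1
    ext x
    constructor
    · rintro ⟨y, hy, rfl⟩
      simpa using hy
    · intro hx
      exact ⟨(nE K).symm x, hx, by simp⟩
  refine ⟨(Measure.addHaarScalarFactor ν (volume : Measure (mixedSpace K)) : ℝ) *
    (volume P).toReal, mul_pos (by exact_mod_cast hc) (ENNReal.toReal_pos hP0 hPt), fun s => ?_⟩
  have hm : MeasurableSet (DN K s) :=
    measurableSet_negAt_plusPart s _ (fundamentalCone.measurableSet_normLeOne K)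
  have h7 : volume (DN K s) = volume P :=
    volume_negAt_plusPart (fundamentalCone.measurableSet_normLeOne K)
  rw [hν1 _ hm]
  conv_lhs => rw [hsm]
  rw [Measure.smul_apply, h7, ENNReal.smul_def, smul_eq_mul, ENNReal.toReal_mul]
  rfl

private theorem ncnt_card : Fintype.card (Module.Free.ChooseBasisIndex ℤ (𝓞 K)) =
    Module.finrank ℚ K := by
  rw [← Module.finrank_eq_card_chooseBasisIndex, RingOfIntegers.rank]

private theorem ncnt_emb (β : 𝓞 K) (i : Module.Free.ChooseBasisIndex ℤ (𝓞 K)) :
    nE K (mixedEmbedding K (β : K)) i = ((RingOfIntegers.basis K).repr β i : ℝ) := by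
  change (latticeBasis K).repr (mixedEmbedding K (β : K)) i = _
  rw [latticeBasis_repr_apply]
  have h := integralBasis_repr_apply K β i
  have h2 : (integralBasis K).repr (β : K) i = (((RingOfIntegers.basis K).repr β i : ℤ) : ℚ) := h
  rw [h2]
  simp

theorem count_n :
    ∃ κ : ℝ, 0 < κ ∧ ∃ C : ℝ, ∀ (n : ℕ), 1 ≤ n → ∀ (a : 𝓞 K) (s : Set (RP K)) (T : ℝ), 0 < T →
      {α : 𝓞 K | (n : 𝓞 K) ∣ α - a ∧ mixedEmbedding K (α : K) ∈ T • DN K s}.Finite ∧
      |({α : 𝓞 K | (n : 𝓞 K) ∣ α - a ∧ mixedEmbedding K (α : K) ∈ T • DN K s}.ncard : ℝ)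
        - κ * (T / n) ^ Module.finrank ℚ K| ≤ C * (1 + (T / n) ^ (Module.finrank ℚ K - 1)) := by
  classical
  obtain ⟨κ, hκ, hvol⟩ := ncnt_vol K
  have hlat : ∀ s : Set (RP K), ∃ C : ℝ, ∀ (y : Module.Free.ChooseBasisIndex ℤ (𝓞 K) → ℝ) (t : ℝ),
      0 < t → (lpts (nE K '' DN K s) y t).Finite ∧
      |((lpts (nE K '' DN K s) y t).ncard : ℝ) -
        (volume (nE K '' DN K s)).toReal / t ^ Fintype.card (Module.Free.ChooseBasisIndex ℤ (𝓞 K))|
        ≤ C * (1 + (1 / t) ^ (Module.finrank ℚ K - 1)) := by
    intro s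
    have hm : MeasurableSet (DN K s) :=
      measurableSet_negAt_plusPart s _ (fundamentalCone.measurableSet_normLeOne K)
    have hb0 : Bornology.IsBounded (DN K s) := by
      have hbP : Bornology.IsBounded (plusPart (fundamentalCone.normLeOne K)) :=
        (fundamentalCone.isBounded_normLeOne K).subset (fun x hx => hx.1)
      exact (negAt s).toContinuousLinearMap.lipschitz.isBounded_image hbP
    have hb : Bornology.IsBounded (nE K '' DN K s) :=
      (nE K).toContinuousLinearMap.lipschitz.isBounded_image hb0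
    have hme : MeasurableSet (nE K '' DN K s) :=
      (nE K).toHomeomorph.measurableEmbedding.measurableSet_image.2 hm
    have hfr : frontier (nE K '' DN K s) = nE K '' frontier (DN K s) :=
      ((nE K).toHomeomorph.image_frontier _).symm
    refine lattice_count _ hb hme _ ?_
    rw [hfr]
    exact thin_image _ _ (nE K).toContinuousLinearMap.lipschitz (thin_DN K s)
  choose C hC using hlat
  refine ⟨κ, hκ, ∑ s : Set (RP K), |C s|, fun n hn a s T hT => ?_⟩
  have hn0 : (0 : ℝ) < n := by exact_mod_cast hn
  set t : ℝ := n / T with ht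
  have ht0 : 0 < t := div_pos hn0 hT
  set y : Module.Free.ChooseBasisIndex ℤ (𝓞 K) → ℝ :=
    fun i => nE K (mixedEmbedding K (a : K)) i / T with hy
  obtain ⟨hfin, hest⟩ := hC s y t ht0
  set φ : (Module.Free.ChooseBasisIndex ℤ (𝓞 K) → ℤ) → 𝓞 K :=
    fun z => a + (n : 𝓞 K) * (RingOfIntegers.basis K).equivFun.symm z with hφ
  have hnK : (n : 𝓞 K) ≠ 0 := by
    exact_mod_cast (by omega : n ≠ 0)
  have hinj : Function.Injective φ := by
    intro z z' h
    have h1 : (n : 𝓞 K) * (RingOfIntegers.basis K).equivFun.symm z =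
        (n : 𝓞 K) * (RingOfIntegers.basis K).equivFun.symm z' := add_left_cancel h
    exact (RingOfIntegers.basis K).equivFun.symm.injective (mul_left_cancel₀ hnK h1)
  have himg : {α : 𝓞 K | (n : 𝓞 K) ∣ α - a ∧ mixedEmbedding K (α : K) ∈ T • DN K s} =
      φ '' lpts (nE K '' DN K s) y t := by
    have hkey : ∀ z, mixedEmbedding K ((φ z : 𝓞 K) : K) ∈ T • DN K s ↔
        z ∈ lpts (nE K '' DN K s) y t := by
      intro z
      have h1 : nE K (T⁻¹ • mixedEmbedding K ((φ z : 𝓞 K) : K)) =
          fun i => y i + t * (z i : ℝ) := by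
        ext i
        have h2 : ((φ z : 𝓞 K) : K) = (a : K) +
            (n : K) * (((RingOfIntegers.basis K).equivFun.symm z : 𝓞 K) : K) := by
          simp [hφ]
        have h3 : mixedEmbedding K ((φ z : 𝓞 K) : K) = mixedEmbedding K (a : K) +
            (n : ℝ) • mixedEmbedding K (((RingOfIntegers.basis K).equivFun.symm z : 𝓞 K) : K) := by
          rw [h2, map_add, map_mul, map_natCast]
          rw [← nsmul_eq_mul, Nat.cast_smul_eq_nsmul]
        rw [h3, map_smul, map_add, map_smul]
        have h4 : nE K (mixedEmbedding K (((RingOfIntegers.basis K).equivFun.symm z : 𝓞 K) : K)) i =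
            (z i : ℝ) := by
          rw [ncnt_emb]
          have h5 : (RingOfIntegers.basis K).repr ((RingOfIntegers.basis K).equivFun.symm z) i
              = z i := by
            have := congrFun ((RingOfIntegers.basis K).equivFun.apply_symm_apply z) i
            simpa using this
          rw [h5]
        simp only [Pi.smul_apply, Pi.add_apply, smul_eq_mul]
        rw [h4, hy, ht]
        field_simp
      rw [Set.mem_smul_set_iff_inv_smul_mem₀ hT.ne']
      change _ ↔ (fun i => y i + t * (z i : ℝ)) ∈ nE K '' DN K s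
      rw [← h1]
      constructor
      · intro h
        exact ⟨_, h, rfl⟩
      · rintro ⟨w, hw, hw2⟩
        rwa [← (nE K).injective hw2]
    ext α
    constructor
    · rintro ⟨⟨β, hβ⟩, h2⟩
      have h3 : φ ((RingOfIntegers.basis K).equivFun β) = α := by
        simp only [hφ]
        rw [LinearEquiv.symm_apply_apply, ← hβ]
        ring
      refine ⟨_, ?_, h3⟩
      rw [← hkey, h3]
      exact h2
    · rintro ⟨z, hz, rfl⟩
      refine ⟨?_, (hkey z).2 hz⟩
      refine ⟨(RingOfIntegers.basis K).equivFun.symm z, ?_⟩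
      simp [hφ]
  rw [himg, Set.ncard_image_of_injective _ hinj]
  refine ⟨hfin.image _, ?_⟩
  rw [hvol s, ncnt_card] at hest
  have h8 : κ / t ^ Module.finrank ℚ K = κ * (T / n) ^ Module.finrank ℚ K := by
    rw [ht, div_pow, div_pow]
    field_simp
  have h9 : (1 : ℝ) / t = T / n := by
    rw [ht, one_div_div]
  rw [h8, h9] at hest
  refine hest.trans (mul_le_mul_of_nonneg_right ?_ (by positivity))
  exact (le_abs_self _).trans (Finset.single_le_sum (f := fun s => |C s|)
    (fun i _ => abs_nonneg _) (Finset.mem_univ s))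

end Pool.Agent.H98.MF
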