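import Pool.Agent.H98.MF.NMain
import Pool.Agent.H98.MF.NReps
import Pool.Agent.H98.MF.NIdf
import Pool.Agent.H98.MF.NPrS

/-!
# Project MK4 (MP_a3214d), block N: counting all ideals with power saving
-/

set_option autoImplicit false

open scoped BigOperators Pointwise NNReal nonZeroDivisors
open NumberField IsDedekindDomain

namespace Pool.Agent.H98.MF

variable {k : Type} [Field k] [NumberField k]

theorem cntA_card (X : ℝ) :
    (((preK (∅ : Finset (HeightOneSpectrum (𝓞 k)))).idl X).card : ℝ) =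
      ∑ᶠ I ∈ {I ∈ IdLe k X | (⊤ : Ideal (𝓞 k)) ∣ I}, (1 : ℝ) := by
  have h := sum_idl (∅ : Finset (HeightOneSpectrum (𝓞 k))) (fun _ => (1 : ℝ)) X
  rw [Finset.sum_const, nsmul_eq_mul, mul_one] at h
  rw [h]
  have hs : {I ∈ IdLe k X | ∀ Q ∈ (∅ : Finset (HeightOneSpectrum (𝓞 k))), ¬ I ≤ Q.asIdeal} =
      {I ∈ IdLe k X | (⊤ : Ideal (𝓞 k)) ∣ I} := by
    rw [← Ideal.one_eq_top]
    ext I
    simp
  rw [hs]

theorem cntA_natCard (X : ℝ) :
    (((preK (∅ : Finset (HeightOneSpectrum (𝓞 k)))).idl X).card : ℝ) =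
      (Nat.card {I : (Ideal (𝓞 k))⁰ // (Ideal.absNorm (I : Ideal (𝓞 k)) : ℝ) ≤ X} : ℝ) := by
  have h := sum_idl (∅ : Finset (HeightOneSpectrum (𝓞 k))) (fun _ => (1 : ℝ)) X
  rw [Finset.sum_const, nsmul_eq_mul, mul_one] at h
  rw [h]
  have hs : {I ∈ IdLe k X | ∀ Q ∈ (∅ : Finset (HeightOneSpectrum (𝓞 k))), ¬ I ≤ Q.asIdeal} =
      IdLe k X := by
    ext I
    simp
  rw [hs]
  have e : {I : (Ideal (𝓞 k))⁰ // (Ideal.absNorm (I : Ideal (𝓞 k)) : ℝ) ≤ X} ≃ IdLe k X :=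
    { toFun := fun I => ⟨I.1.1, mem_nonZeroDivisors_iff_ne_zero.1 I.1.2, I.2⟩
      invFun := fun I => ⟨⟨I.1, mem_nonZeroDivisors_iff_ne_zero.2 I.2.1⟩, I.2.2⟩
      left_inv := fun I => rfl
      right_inv := fun I => rfl }
  rw [Nat.card_congr e]
  have hfin : (IdLe k X).Finite := by
    refine (Ideal.finite_setOfPred_absNorm_le (S := 𝓞 k) ⌊X⌋₊).subset ?_
    rintro I ⟨_, hI⟩
    exact Nat.le_floor hI
  rw [finsum_mem_eq_finite_toFinset_sum _ hfin, Finset.sum_const, nsmul_eq_mul, mul_one,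
    Nat.card_coe_set_eq, Set.ncard_eq_toFinset_card _ hfin]

theorem cnt_all : ∃ κ : ℝ, 0 < κ ∧ ∃ C : ℝ, 0 ≤ C ∧ ∀ X : ℝ, 1 ≤ X →
    |(((preK (∅ : Finset (HeightOneSpectrum (𝓞 k)))).idl X).card : ℝ) - κ * X| ≤
      C * X ^ (1 - 1 / (Module.finrank ℚ k : ℝ)) := by
  obtain ⟨S, _, hS⟩ := exists_PrS (∅ : Finset (HeightOneSpectrum (𝓞 k)))
  obtain ⟨R, hR, _⟩ := reps_exist k S hS
  obtain ⟨C, hC, hm⟩ := main_count k R hR
  obtain ⟨A, hA⟩ := hm ⊤ top_ne_bot (fun _ => 1) (fun _ => by simp)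
    (fun J _ α β _ _ _ _ _ => rfl)
  have key : ∀ X : ℝ, 1 ≤ X →
      |(((preK (∅ : Finset (HeightOneSpectrum (𝓞 k)))).idl X).card : ℝ) - A * X| ≤
      C * X ^ (1 - 1 / (Module.finrank ℚ k : ℝ)) := by
    intro X hX
    have h := hA ⊤ top_ne_bot (by rw [← Ideal.one_eq_top]; exact isCoprime_one_left) X hX
    rw [cntA_card X]
    rw [Ideal.absNorm_top] at h
    simpa using h
  have hn : (0 : ℝ) < Module.finrank ℚ k := Nat.cast_pos.2 Module.finrank_pos
  refine ⟨A, ?_, C, hC, key⟩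
  have hlim : Filter.Tendsto (fun X : ℝ =>
      (((preK (∅ : Finset (HeightOneSpectrum (𝓞 k)))).idl X).card : ℝ) / X) Filter.atTop
      (nhds A) := by
    rw [tendsto_iff_dist_tendsto_zero]
    have h0 : Filter.Tendsto (fun X : ℝ => C * X ^ (-(1 / (Module.finrank ℚ k : ℝ))))
        Filter.atTop (nhds 0) := by
      have := (tendsto_rpow_neg_atTop (y := 1 / (Module.finrank ℚ k : ℝ)) (by positivity)).const_mul C
      simpa using this
    refine squeeze_zero' (Filter.Eventually.of_forall fun X => dist_nonneg) ?_ h0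
    filter_upwards [Filter.eventually_ge_atTop (1 : ℝ)] with X hX
    have hX0 : 0 < X := by linarith
    have h := key X hX
    rw [Real.dist_eq]
    have e1 : (((preK (∅ : Finset (HeightOneSpectrum (𝓞 k)))).idl X).card : ℝ) / X - A =
        ((((preK (∅ : Finset (HeightOneSpectrum (𝓞 k)))).idl X).card : ℝ) - A * X) / X := by
      field_simp
    rw [e1, abs_div, abs_of_pos hX0, div_le_iff₀ hX0]
    refine h.trans (le_of_eq ?_)
    rw [mul_assoc]
    congr 1
    rw [sub_eq_neg_add, Real.rpow_add hX0, Real.rpow_one]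
  have hlim2 := NumberField.Ideal.tendsto_norm_le_div_atTop₀ k
  have hlim3 : Filter.Tendsto (fun X : ℝ =>
      (((preK (∅ : Finset (HeightOneSpectrum (𝓞 k)))).idl X).card : ℝ) / X) Filter.atTop
      (nhds ((2 ^ InfinitePlace.nrRealPlaces k * (2 * Real.pi) ^ InfinitePlace.nrComplexPlaces k *
        Units.regulator k * classNumber k) /
            (Units.torsionOrder k * Real.sqrt |(discr k : ℝ)|))) := by
    refine Filter.Tendsto.congr' ?_ hlim2
    exact Filter.Eventually.of_forall fun X => by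
      change _ = (((preK (∅ : Finset (HeightOneSpectrum (𝓞 k)))).idl X).card : ℝ) / X
      rw [cntA_natCard X]
  rw [tendsto_nhds_unique hlim hlim3]
  have h1 : (0 : ℝ) < Units.regulator k := Units.regulator_pos k
  have h2 : (0 : ℝ) < classNumber k := Nat.cast_pos.2 (classNumber_pos k)
  have h3 : (0 : ℝ) < Units.torsionOrder k := Nat.cast_pos.2 (Units.torsionOrder_pos k)
  have h4 : (0 : ℝ) < |(discr k : ℝ)| := abs_pos.2 (Int.cast_ne_zero.2 (discr_ne_zero k))
  have h5 : 0 < Real.sqrt |(discr k : ℝ)| := Real.sqrt_pos.2 h4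
  have h6 := Real.pi_pos
  positivity

end Pool.Agent.H98.MF
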