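import Pool.Agent.H98.MF.NVol

/-!
# Project MK4 (MP_a3214d), block N: lattice points in a bounded set with thin frontier
-/

set_option autoImplicit false

open scoped BigOperators Pointwise NNReal nonZeroDivisors
open NumberField NumberField.mixedEmbedding NumberField.InfinitePlace MeasureTheory

namespace Pool.Agent.H98.MF

theorem big_t {ι : Type} [Fintype ι] (D : Set (ι → ℝ)) (hb : Bornology.IsBounded D) :
    ∃ C : ℝ, ∀ (y : ι → ℝ) (t : ℝ), 1 ≤ t →
      (lpts D y t).Finite ∧ ((lpts D y t).ncard : ℝ) ≤ C := by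
  classical
  obtain ⟨R0, hR0⟩ := hb.subset_closedBall (0 : ι → ℝ)
  set R : ℝ := max R0 0 with hR
  have hRn : 0 ≤ R := le_max_right _ _
  have hD : ∀ x ∈ D, ∀ i, |x i| ≤ R := by
    intro x hx i
    have h1 := hR0 hx
    rw [Metric.mem_closedBall, dist_zero_right] at h1
    calc |x i| = ‖x i‖ := (Real.norm_eq_abs _).symm
      _ ≤ ‖x‖ := norm_le_pi_norm x i
      _ ≤ R0 := h1
      _ ≤ R := le_max_left _ _
  refine ⟨(2 * R + 1) ^ Fintype.card ι, fun y t ht => ?_⟩
  have ht0 : 0 < t := by linarith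
  set B : Finset (ι → ℤ) :=
    Fintype.piFinset fun i => Finset.Icc ⌈(-R - y i) / t⌉ ⌊(R - y i) / t⌋ with hB
  have hsub : lpts D y t ⊆ (B : Set (ι → ℤ)) := by
    intro z hz
    rw [Finset.mem_coe, hB, Fintype.mem_piFinset]
    intro i
    have h1 := hD _ hz i
    rw [abs_le] at h1
    rw [Finset.mem_Icc]
    constructor
    · rw [Int.ceil_le, div_le_iff₀ ht0]
      nlinarith [h1.1]
    · rw [Int.le_floor, le_div_iff₀ ht0]
      nlinarith [h1.2]
  refine ⟨B.finite_toSet.subset hsub, ?_⟩
  have h1 : (lpts D y t).ncard ≤ B.card := by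
    rw [← Set.ncard_coe_finset]
    exact Set.ncard_le_ncard hsub B.finite_toSet
  have h2 : (B.card : ℝ) ≤ (2 * R + 1) ^ Fintype.card ι := by
    rw [hB, Fintype.card_piFinset, Nat.cast_prod]
    calc ∏ i, ((Finset.Icc ⌈(-R - y i) / t⌉ ⌊(R - y i) / t⌋).card : ℝ)
        ≤ ∏ _i : ι, (2 * R + 1) := by
          refine Finset.prod_le_prod (fun i _ => Nat.cast_nonneg _) fun i _ => ?_
          rw [Int.card_Icc]
          have h3 : (((⌊(R - y i) / t⌋ + 1 - ⌈(-R - y i) / t⌉).toNat : ℕ) : ℝ) =
              ((max (⌊(R - y i) / t⌋ + 1 - ⌈(-R - y i) / t⌉) 0 : ℤ) : ℝ) := by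
            rw [← Int.toNat_eq_max]
            norm_cast
          rw [h3, Int.cast_max]
          apply max_le
          · push_cast
            have h4 := Int.floor_le ((R - y i) / t)
            have h5 := Int.le_ceil ((-R - y i) / t)
            have h6 : (R - y i) / t - (-R - y i) / t = 2 * R / t := by ring
            have h7 : 2 * R / t ≤ 2 * R := div_le_self (by linarith) ht
            linarith
          · push_cast
            linarith
      _ = (2 * R + 1) ^ Fintype.card ι := by
          rw [Finset.prod_const, Finset.card_univ]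
  calc ((lpts D y t).ncard : ℝ) ≤ (B.card : ℝ) := by exact_mod_cast h1
    _ ≤ _ := h2

theorem lattice_count {ι : Type} [Fintype ι] (D : Set (ι → ℝ)) (hb : Bornology.IsBounded D)
    (hm : MeasurableSet D) (m : ℕ) (hD : Thin m (frontier D)) :
    ∃ C : ℝ, ∀ (y : ι → ℝ) (t : ℝ), 0 < t → (lpts D y t).Finite ∧
      |((lpts D y t).ncard : ℝ) - (volume D).toReal / t ^ Fintype.card ι|
        ≤ C * (1 + (1 / t) ^ m) := by
  obtain ⟨C1, h1⟩ := bcells_le D m hD
  obtain ⟨C2, h2⟩ := big_t D hb
  have hv : 0 ≤ (volume D).toReal := ENNReal.toReal_nonneg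
  refine ⟨|C1| + |C2| + (volume D).toReal, fun y t ht => ?_⟩
  have hp : 0 ≤ (1 / t) ^ m := by positivity
  rcases le_or_gt t 1 with ht1 | ht1
  · obtain ⟨h3, h4⟩ := h1 y t ht ht1
    obtain ⟨h5, h6⟩ := count_vol D hb hm y t ht h3
    refine ⟨h5, h6.trans ?_⟩
    have h7 : ((bcells D y t).ncard : ℝ) ≤ C1 * (1 / t) ^ m := by
      have h8 : 0 < t ^ m := by positivity
      rw [one_div, inv_pow, ← div_eq_mul_inv, le_div_iff₀ h8]
      exact h4
    calc ((bcells D y t).ncard : ℝ) ≤ C1 * (1 / t) ^ m := h7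
      _ ≤ |C1| * (1 / t) ^ m := by gcongr; exact le_abs_self _
      _ ≤ (|C1| + |C2| + (volume D).toReal) * (1 + (1 / t) ^ m) := by
          apply mul_le_mul
          · linarith [abs_nonneg C2]
          · linarith
          · exact hp
          · positivity
  · obtain ⟨h3, h4⟩ := h2 y t ht1.le
    refine ⟨h3, ?_⟩
    have h5 : (volume D).toReal / t ^ Fintype.card ι ≤ (volume D).toReal :=
      div_le_self hv (one_le_pow₀ ht1.le)
    have h6 : 0 ≤ (volume D).toReal / t ^ Fintype.card ι := by positivity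
    have h7 : (0 : ℝ) ≤ ((lpts D y t).ncard : ℝ) := Nat.cast_nonneg _
    calc |((lpts D y t).ncard : ℝ) - (volume D).toReal / t ^ Fintype.card ι|
        ≤ |C1| + |C2| + (volume D).toReal := by
          rw [abs_le]
          constructor
          · linarith [abs_nonneg C1, abs_nonneg C2]
          · linarith [abs_nonneg C1, le_abs_self C2]
      _ = (|C1| + |C2| + (volume D).toReal) * 1 := (mul_one _).symm
      _ ≤ _ := by
          apply mul_le_mul_of_nonneg_left
          · linarith
          · positivity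

end Pool.Agent.H98.MF
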