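import Pool.Agent.H98.MF.NIdf
import Pool.Agent.H98.MF.NOrd
import Pool.Agent.H98.MF.C.Bas

/-!
# Project MK4 (MP_a3214d), block N: periodicity of the character sums
-/

set_option autoImplicit false

open scoped BigOperators Pointwise NNReal nonZeroDivisors
open NumberField IsDedekindDomain

namespace Pool.Agent.H98.MF

variable {k : Type} [Field k] [NumberField k]

private theorem nper_cof (J : Ideal (𝓞 k)) (α : 𝓞 k) (hα : α ∈ J) :
    Ideal.span {α} = cof J α * J := by
  have h : ∃ I : Ideal (𝓞 k), Ideal.span {α} = I * J := by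
    have h1 : J ∣ Ideal.span {α} := by
      rw [Ideal.dvd_span_singleton]
      exact hα
    obtain ⟨I, hI⟩ := h1
    exact ⟨I, by rw [hI, mul_comm]⟩
  unfold cof
  rw [dif_pos h]
  exact h.choose_spec

private theorem nper_le_iff {I J P : Ideal (𝓞 k)} (hJ : J ≠ ⊥) : I * J ≤ P * J ↔ I ≤ P := by
  rw [← Ideal.dvd_iff_le, ← Ideal.dvd_iff_le]
  exact mul_dvd_mul_iff_right hJ

omit [NumberField k] in
/-- real embeddings and signs -/
private theorem nper_sign {α β : 𝓞 k} (hα : α ≠ 0) (hβ : β ≠ 0) (h : sgnN α = sgnN β)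
    (φ : k →+* ℝ) : 0 < φ ((α : k) / (β : k)) := by
  have hα' : (α : k) ≠ 0 := by
    rw [Ne, FaithfulSMul.algebraMap_eq_zero_iff]
    exact hα
  have hβ' : (β : k) ≠ 0 := by
    rw [Ne, FaithfulSMul.algebraMap_eq_zero_iff]
    exact hβ
  have hreal : ComplexEmbedding.IsReal (Complex.ofRealHom.comp φ) := by
    rw [ComplexEmbedding.isReal_iff]
    ext x
    simp [ComplexEmbedding.conjugate]
  have hw : InfinitePlace.IsReal (InfinitePlace.mk (Complex.ofRealHom.comp φ)) :=
    InfinitePlace.isReal_mk_iff.2 hreal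
  have hemb : ∀ x : k, InfinitePlace.embedding_of_isReal hw x = φ x := by
    intro x
    have h1 := InfinitePlace.embedding_of_isReal_apply hw x
    rw [InfinitePlace.embedding_mk_eq_of_isReal hreal] at h1
    exact Complex.ofReal_injective h1
  have hmem : ∀ γ : 𝓞 k, (⟨InfinitePlace.mk (Complex.ofRealHom.comp φ), hw⟩ : RP k) ∈ sgnN γ ↔
      φ (γ : k) < 0 := by
    intro γ
    unfold sgnN
    rw [Set.mem_ofPred_eq, mixedEmbedding.mixedEmbedding_apply_isReal, hemb]
  have h2 : φ (α : k) < 0 ↔ φ (β : k) < 0 := by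
    rw [← hmem, ← hmem, h]
  have h3 : φ (α : k) ≠ 0 := (map_ne_zero φ).2 hα'
  have h4 : φ (β : k) ≠ 0 := (map_ne_zero φ).2 hβ'
  rw [map_div₀]
  rcases lt_or_gt_of_ne h3 with h5 | h5
  · exact div_pos_of_neg_of_neg h5 (h2.1 h5)
  · have h6 : ¬ φ (β : k) < 0 := fun h7 => absurd (h2.2 h7) (not_lt.2 h5.le)
    exact div_pos h5 (lt_of_le_of_ne (not_lt.1 h6) h4.symm)

theorem FI_per (S : Finset (HeightOneSpectrum (𝓞 k))) (n : ℕ) (y : Finset (preK S).P)
    (g : (preK S).P → ZMod 2) (h : Loc S n y g) (J : Ideal (𝓞 k)) (hJ : J ≠ ⊥)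
    (hJS : ∀ Q : HeightOneSpectrum (𝓞 k), Q ∉ S → ¬ J ≤ Q.asIdeal) :
    PER J (MI S n y) (FI S y g) := by
  classical
  intro α β hα hβ hαJ hαβ hs
  have hα' : (α : k) ≠ 0 := by
    rw [Ne, FaithfulSMul.algebraMap_eq_zero_iff]
    exact hα
  have hβ' : (β : k) ≠ 0 := by
    rw [Ne, FaithfulSMul.algebraMap_eq_zero_iff]
    exact hβ
  have hβJ : β ∈ J := by
    have h0 : MI S n y * J ≤ J := Ideal.mul_le_right
    have h1 : α - β ∈ J := h0 hαβ
    have h2 : α - (α - β) ∈ J := J.sub_mem hαJ h1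
    rwa [sub_sub_cancel] at h2
  have hcα := nper_cof J α hαJ
  have hcβ := nper_cof J β hβJ
  have hneα : cof J α ≠ ⊥ := by
    intro h0
    rw [h0, Ideal.bot_mul] at hcα
    exact hα (Ideal.span_singleton_eq_bot.1 hcα)
  have hneβ : cof J β ≠ ⊥ := by
    intro h0
    rw [h0, Ideal.bot_mul] at hcβ
    exact hβ (Ideal.span_singleton_eq_bot.1 hcβ)
  -- the congruences at a prime dividing the modulus
  have hcong : ∀ (Q : HeightOneSpectrum (𝓞 k)) (a : ℕ), 1 ≤ a →
      MI S n y ≤ Q.asIdeal ^ a →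
      (cof J α ≤ Q.asIdeal ↔ cof J β ≤ Q.asIdeal) ∧
      (¬ cof J β ≤ Q.asIdeal →
        ((α : k) / (β : k) = 1 ∨ (a : ℤ) ≤ ord Q ((α : k) / (β : k) - 1))) := by
    intro Q a ha hM
    have h0 : MI S n y * J ≤ Q.asIdeal ^ a * J := Ideal.mul_mono_left hM
    have h1 := ord_quot Q a ha J hJ α β hα hβ hαJ (h0 hαβ)
    rw [hcα, hcβ, nper_le_iff hJ, nper_le_iff hJ] at h1
    exact h1
  have hMS : ∀ Q ∈ S, MI S n y ≤ Q.asIdeal ^ (n + 1) := by
    intro Q hQ
    unfold MI
    refine Ideal.mul_le_left.trans ?_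
    rw [← Ideal.dvd_iff_le]
    exact Finset.dvd_prod_of_mem (fun Q : HeightOneSpectrum (𝓞 k) => Q.asIdeal ^ (n + 1)) hQ
  have hMy : ∀ Q ∈ y, MI S n y ≤ Q.1.asIdeal ^ 1 := by
    intro Q hQ
    unfold MI
    rw [pow_one]
    refine Ideal.mul_le_right.trans ?_
    rw [← Ideal.dvd_iff_le]
    exact Finset.dvd_prod_of_mem (fun Q : (preK S).P => Q.1.asIdeal) hQ
  have hS1 : ∀ Q ∈ S, (cof J α ≤ Q.asIdeal ↔ cof J β ≤ Q.asIdeal) := fun Q hQ =>
    (hcong Q (n + 1) (by omega) (hMS Q hQ)).1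
  by_cases hA : ∀ Q ∈ S, ¬ cof J α ≤ Q.asIdeal
  · have hB : ∀ Q ∈ S, ¬ cof J β ≤ Q.asIdeal := fun Q hQ h0 => hA Q hQ ((hS1 Q hQ).2 h0)
    have hfα : ∃ f, idf S f = cof J α := (idf_surj S _ hneα).2 hA
    have hfβ : ∃ f, idf S f = cof J β := (idf_surj S _ hneβ).2 hB
    unfold FI
    rw [dif_pos hfα, dif_pos hfβ]
    obtain hf := hfα.choose_spec
    obtain hf' := hfβ.choose_spec
    generalize hfα.choose = f at hf
    generalize hfβ.choose = f' at hf'
    have hyd : ∀ Q ∈ y, (Q ∈ f.support ↔ Q ∈ f'.support) := by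
      intro Q hQ
      rw [← idf_le, ← idf_le, hf, hf']
      exact (hcong Q.1 1 le_rfl (hMy Q hQ)).1
    have hdisj : Disjoint f.support y ↔ Disjoint f'.support y := by
      rw [Finset.disjoint_right, Finset.disjoint_right]
      constructor
      · intro h1 Q hQ h2
        exact h1 hQ ((hyd Q hQ).2 h2)
      · intro h1 Q hQ h2
        exact h1 hQ ((hyd Q hQ).1 h2)
    unfold Pre.chv
    by_cases hd : Disjoint f.support y
    · have hd' := hdisj.1 hd
      rw [if_pos hd, if_pos hd']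
      have hloc := h ((α : k) / (β : k)) (div_ne_zero hα' hβ') (nper_sign hα hβ hs)
        (fun Q hQ => by
          rcases (hcong Q (n + 1) (by omega) (hMS Q hQ)).2 (hB Q hQ) with h1 | h1
          · exact Or.inl h1
          · right
            push_cast at h1
            linarith)
        (fun Q hQ => by
          have h0 : ¬ cof J β ≤ Q.1.asIdeal := by
            rw [← hf', idf_le]
            exact Finset.disjoint_right.1 hd' hQ
          rcases (hcong Q.1 1 le_rfl (hMy Q hQ)).2 h0 with h1 | h1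
          · exact Or.inl h1
          · right
            exact_mod_cast h1)
      have hord : ∀ Q : (preK S).P, ord Q.1 ((α : k) / (β : k)) = (f Q : ℤ) - (f' Q : ℤ) := by
        intro Q
        rw [B.ord_div Q.1 hα' hβ', ord_idf S f J hJ hJS α (by rw [hf]; exact hcα) Q,
          ord_idf S f' J hJ hJS β (by rw [hf']; exact hcβ) Q]
      have hterm : ∀ Q : (preK S).P,
          ((if Q ∈ y then 0 else ord Q.1 ((α : k) / (β : k)) : ℤ) : ZMod 2) * g Q =
            (f Q : ZMod 2) * g Q - (f' Q : ZMod 2) * g Q := by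
        intro Q
        by_cases hQ : Q ∈ y
        · have h1 : f Q = 0 := Finsupp.notMem_support_iff.1 (Finset.disjoint_right.1 hd hQ)
          have h2 : f' Q = 0 := Finsupp.notMem_support_iff.1 (Finset.disjoint_right.1 hd' hQ)
          rw [if_pos hQ, h1, h2]
          simp
        · rw [if_neg hQ, hord]
          push_cast
          ring
      have hsum : ∑ᶠ Q : (preK S).P,
          ((if Q ∈ y then 0 else ord Q.1 ((α : k) / (β : k)) : ℤ) : ZMod 2) * g Q =
            ∑ Q ∈ f.support ∪ f'.support, ((f Q : ZMod 2) * g Q - (f' Q : ZMod 2) * g Q) := by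
        rw [finsum_eq_sum_of_support_subset (s := f.support ∪ f'.support)]
        · exact Finset.sum_congr rfl fun Q _ => hterm Q
        · intro Q hQ
          rw [Function.mem_support, hterm] at hQ
          by_contra hcon
          rw [Finset.mem_coe, Finset.mem_union, not_or] at hcon
          apply hQ
          rw [Finsupp.notMem_support_iff.1 hcon.1, Finsupp.notMem_support_iff.1 hcon.2]
          simp
      rw [hsum, Finset.sum_sub_distrib, sub_eq_zero] at hloc
      have h1 : f.sum (fun p m => (m : ZMod 2) * g p) =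
          ∑ Q ∈ f.support ∪ f'.support, (f Q : ZMod 2) * g Q :=
        Finsupp.sum_of_support_subset f Finset.subset_union_left _ (by simp)
      have h2 : f'.sum (fun p m => (m : ZMod 2) * g p) =
          ∑ Q ∈ f.support ∪ f'.support, (f' Q : ZMod 2) * g Q :=
        Finsupp.sum_of_support_subset f' Finset.subset_union_right _ (by simp)
      rw [h1, h2, hloc]
    · rw [if_neg hd, if_neg (fun h0 => hd (hdisj.2 h0))]
  · have hB : ¬ ∀ Q ∈ S, ¬ cof J β ≤ Q.asIdeal := by
      intro h0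
      exact hA fun Q hQ h1 => h0 Q hQ ((hS1 Q hQ).1 h1)
    unfold FI
    rw [dif_neg (fun h0 => hA ((idf_surj S _ hneα).1 h0)),
      dif_neg (fun h0 => hB ((idf_surj S _ hneβ).1 h0))]

end Pool.Agent.H98.MF
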