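import Pool.Agent.H98.MF.NOrd
import Pool.Agent.H98.MF.L.Sqr

/-!
# Project MK4 (MP_a3214d), block N: local squares at odd primes
-/

set_option autoImplicit false

open scoped BigOperators Pointwise NNReal nonZeroDivisors
open NumberField IsDedekindDomain

namespace Pool.Agent.H98.MF

variable {k : Type} [Field k] [NumberField k]

section

variable {P : HeightOneSpectrum (𝓞 k)}

private theorem N_odd_mem_iff (a : 𝓞 k) : a ∈ P.asIdeal ↔ (a = 0 ∨ 1 ≤ ord P (a : k)) := by
  have h := le_ord_iff P a 1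
  rw [pow_one, Nat.cast_one] at h
  exact h.symm

private theorem N_odd_notMem (a : 𝓞 k) (ha : a ∉ P.asIdeal) : (a : k) ≠ 0 ∧ ord P (a : k) = 0 := by
  rw [N_odd_mem_iff, not_or] at ha
  have h := ord_int_nonneg P a
  refine ⟨fun h0 => ha.1 ?_, by omega⟩
  exact_mod_cast h0

private theorem N_odd_sq (h2 : ord P (2 : k) = 0) {a c : k} (hc : c ≠ 0)
    (h : a = c ^ 2 ∨ 2 * ord P c + 1 ≤ ord P (a - c ^ 2)) : LocSq P a := by
  by_cases h0 : a = c ^ 2
  · rw [h0]
    exact locSq_sq P hc
  · have h1 := h.resolve_left h0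
    apply locSq_of_prec P c⁻¹
    right
    rw [h2]
    have h3 : a * c⁻¹ ^ 2 - 1 = (a - c ^ 2) * (c⁻¹) ^ 2 := by field_simp
    rw [h3, ord_mul P (sub_ne_zero.2 h0) (pow_ne_zero 2 (inv_ne_zero hc)), ord_pow, ord_inv]
    push_cast
    omega

private theorem N_odd_int_sq (h2 : ord P (2 : k) = 0) {u c : 𝓞 k} (hc : c ∉ P.asIdeal)
    (h : u - c ^ 2 ∈ P.asIdeal) : LocSq P (u : k) := by
  obtain ⟨hc1, hc2⟩ := N_odd_notMem c hc
  refine N_odd_sq h2 hc1 ?_
  rw [N_odd_mem_iff] at h
  rcases h with h | h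
  · left
    have h1 : u = c ^ 2 := sub_eq_zero.1 h
    rw [h1]
    push_cast
    rfl
  · right
    rw [hc2]
    have e : ((u - c ^ 2 : 𝓞 k) : k) = (u : k) - (c : k) ^ 2 := by
      push_cast
      rfl
    rw [e] at h
    omega

private theorem N_odd_res (h2 : ord P (2 : k) = 0) (u : 𝓞 k) (hu : u ∉ P.asIdeal) :
    LocSq P (u : k) ↔ ∃ c : 𝓞 k, u - c ^ 2 ∈ P.asIdeal := by
  obtain ⟨hu1, hu2⟩ := N_odd_notMem u hu
  constructor
  · intro h
    obtain ⟨c, hc⟩ := h 1
    rw [Nat.cast_one] at hc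
    have hc0 : c ≠ 0 := by
      rintro rfl
      rcases hc with hc | hc
      · simp at hc
      · rw [zero_pow two_ne_zero, mul_zero, zero_sub, ord_neg, ord_one] at hc
        omega
    have hord : ord P c = 0 := by
      have h1 : ord P ((u : k) * c ^ 2) = 0 := by
        rcases hc with hc | hc
        · rw [hc, ord_one]
        · have h3 := (ord_add_eq P (a := (1 : k)) (b := (u : k) * c ^ 2 - 1) one_ne_zero
            (Or.inr (by rw [ord_one]; omega))).2
          rw [add_sub_cancel, ord_one] at h3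
          exact h3
      rw [ord_mul P hu1 (pow_ne_zero 2 hc0), ord_pow, hu2] at h1
      push_cast at h1
      omega
    have hordi : ord P c⁻¹ = 0 := by rw [ord_inv, hord, neg_zero]
    obtain ⟨b, hb⟩ := ord_apx P (a := c⁻¹) hordi.ge 1
    rw [Nat.cast_one] at hb
    refine ⟨b, ?_⟩
    rw [N_odd_mem_iff]
    have e1 : ((u - b ^ 2 : 𝓞 k) : k) = ((u : k) * c ^ 2 - 1) * c⁻¹ ^ 2 +
        (c⁻¹ - b) * (c⁻¹ + b) := by
      push_cast
      field_simp
      ring
    have e2 : ((u : k) * c ^ 2 - 1) * c⁻¹ ^ 2 = 0 ∨ 1 ≤ ord P (((u : k) * c ^ 2 - 1) * c⁻¹ ^ 2) := by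
      rcases hc with hc | hc
      · left
        rw [hc, sub_self, zero_mul]
      · by_cases h0 : (u : k) * c ^ 2 - 1 = 0
        · left
          rw [h0, zero_mul]
        · right
          rw [ord_mul P h0 (pow_ne_zero 2 (inv_ne_zero hc0)), ord_pow, hordi]
          push_cast
          omega
    have e3 : (c⁻¹ - (b : k)) * (c⁻¹ + b) = 0 ∨ 1 ≤ ord P ((c⁻¹ - (b : k)) * (c⁻¹ + b)) := by
      by_cases h0 : c⁻¹ - (b : k) = 0
      · left
        rw [h0, zero_mul]
      · by_cases h0' : c⁻¹ + (b : k) = 0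
        · left
          rw [h0', mul_zero]
        · right
          rw [ord_mul P h0 h0']
          have h4 : 1 ≤ ord P (c⁻¹ - (b : k)) := by
            rcases hb with hb | hb
            · exact absurd (sub_eq_zero.2 hb) h0
            · exact hb
          have h5 := (le_ord_add P (a := c⁻¹) (b := (b : k)) 0 (Or.inr hordi.ge)
            (Or.inr (ord_int_nonneg P b))).resolve_left h0'
          omega
    rcases le_ord_add P 1 e2 e3 with h6 | h6
    · left
      rw [← e1] at h6
      exact_mod_cast h6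
    · right
      rw [e1]
      exact h6
  · rintro ⟨c, hc⟩
    have hc' : c ∉ P.asIdeal := by
      intro h
      apply hu
      have h1 : u = (u - c ^ 2) + c * c := by ring
      rw [h1]
      exact P.asIdeal.add_mem hc (P.asIdeal.mul_mem_left _ h)
    exact N_odd_int_sq h2 hc' hc

end

/-- odd primes: local squares among units are the squares of the residue field -/
theorem locSq_iff_residue (Q : HeightOneSpectrum (𝓞 k)) (h2 : ord Q (2 : k) = 0) (a : 𝓞 k)
    (ha : a ∉ Q.asIdeal) :
    LocSq Q (a : k) ↔ ∃ c : 𝓞 k, a - c ^ 2 ∈ Q.asIdeal :=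
  N_odd_res h2 a ha

end Pool.Agent.H98.MF
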