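import Pool.Agent.H98.MF.C.C9
import Pool.Agent.H98.MF.L.Sqr
import Pool.Agent.H98.MF.NChi
import Pool.Agent.H98.MF.NCntS
import Pool.Agent.H98.MF.NSplB
import Pool.Agent.H98.MF.NCheb

/-!
# Project MK4 (MP_a3214d): the system of primes of a number field
-/

set_option autoImplicit false

open scoped BigOperators Pointwise nonZeroDivisors
open NumberField IsDedekindDomain

namespace Pool.Agent.H98.MF

open Pool.Agent.H98.MK (sg)

section

variable {k : Type} [Field k] [NumberField k]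

theorem Nsys_near (S : Finset (HeightOneSpectrum (𝓞 k))) :
    ∃ n : ℕ, ∀ Q ∈ S, ∀ γ : k, (γ = 1 ∨ (n : ℤ) ≤ ord Q (γ - 1)) → LocSq Q γ := by
  classical
  refine ⟨∑ Q ∈ S, (2 * ord Q (2 : k) + 1).toNat, fun Q hQ γ hγ => ?_⟩
  refine locSq_of_prec Q 1 ?_
  rw [one_pow, mul_one]
  rcases hγ with h | h
  · exact Or.inl h
  · right
    have h1 : (2 * ord Q (2 : k) + 1).toNat ≤ ∑ Q ∈ S, (2 * ord Q (2 : k) + 1).toNat :=
      Finset.single_le_sum (f := fun Q => (2 * ord Q (2 : k) + 1).toNat)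
        (fun _ _ => Nat.zero_le _) hQ
    have h2 : 2 * ord Q (2 : k) + 1 ≤ ((2 * ord Q (2 : k) + 1).toNat : ℤ) := Int.self_le_toNat _
    have h3 : ((2 * ord Q (2 : k) + 1).toNat : ℤ) ≤
        ((∑ Q ∈ S, (2 * ord Q (2 : k) + 1).toNat : ℕ) : ℤ) := by exact_mod_cast h1
    exact h2.trans (h3.trans h)

theorem Nsys_odd {S : Finset (HeightOneSpectrum (𝓞 k))} (hS : Adm S)
    {Q : HeightOneSpectrum (𝓞 k)} (hQ : Q ∉ S) (γ : k) (h : γ = 1 ∨ 1 ≤ ord Q (γ - 1)) :
    LocSq Q γ := by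
  refine locSq_of_prec Q 1 ?_
  rw [one_pow, mul_one, B.ord_two_eq hS hQ]
  simpa using h

theorem Nsys_isSquare {a : kˣ} (h : IsSquare (a : k)) : IsSquare a := by
  obtain ⟨r, hr⟩ := h
  have hr0 : r ≠ 0 := by
    rintro rfl
    rw [mul_zero] at hr
    exact a.ne_zero hr
  exact ⟨Units.mk0 r hr0, Units.ext hr⟩

variable {S : Finset (HeightOneSpectrum (𝓞 k))}

/-- the exponent of the character `(y, c)` at `p` -/
noncomputable def gF (F : CFr S) (y : Finset (preK S).P) (c : Fin (mS S) → ZMod 2)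
    (p : (preK S).P) : ZMod 2 :=
  ∑ q ∈ y, qr (F.ppi q : k) p.1 + c ⬝ᵥ B.tyF F p

theorem gF_eq (hL : LIn k) (hS : Adm S) (F : CFr S) (y : Finset (preK S).P)
    (c : Fin (mS S) → ZMod 2) (p : (preK S).P) (hp : p ∉ y) :
    gF F y c p = qr (B.rep F c y : k) p.1 := by
  classical
  have h1 : ∀ q ∈ y, ord p.1 (F.ppi q : k) = 0 := fun q hq =>
    F.ord_other q p.1 p.2 fun h => hp (by
      have : p = q := Subtype.ext h
      rwa [this])
  have h2 : ∀ i ∈ (Finset.univ : Finset (Fin (mS S))),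
      ord p.1 ((F.u i ^ (c i).val : kˣ) : k) = 0 := fun i _ => by
    rw [Units.val_pow_eq_pow_val, B.ord_pow, B.ord_u F p i, mul_zero]
  unfold gF B.rep
  rw [B.qr_mul hL hS p.2, B.qr_units hL hS F p, add_comm]
  · exact congrArg (fun t => c ⬝ᵥ B.tyF F p + t) (B.qr_prod hL hS p.2 y (fun q => F.ppi q) h1).symm
  · rw [B.ord_prod]
    exact Finset.sum_eq_zero h2
  · rw [B.ord_prod]
    exact Finset.sum_eq_zero h1

theorem Loc_gF (hL : LIn k) (hr : RecSt k) (hS : Adm S) (F : CFr S) (n : ℕ)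
    (hn : ∀ Q ∈ S, ∀ γ : k, (γ = 1 ∨ (n : ℤ) ≤ ord Q (γ - 1)) → LocSq Q γ)
    (y : Finset (preK S).P) (c : Fin (mS S) → ZMod 2) : Loc S n y (gF F y c) := by
  classical
  intro γ hγ0 hφ h1 h2
  set g : kˣ := Units.mk0 γ hγ0 with hg
  set a : kˣ := B.rep F c y with ha
  set Y : Finset (HeightOneSpectrum (𝓞 k)) := y.image fun q => q.1 with hY
  set S2 : Finset (HeightOneSpectrum (𝓞 k)) :=
    S ∪ Y ∪ (B.ord_finite γ hγ0).toFinset with hS2
  have hS' : ∀ R : HeightOneSpectrum (𝓞 k), 0 < ord R (2 : k) → R ∈ S2 := fun R hR =>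
    Finset.mem_union_left _ (Finset.mem_union_left _ (hS.two R hR))
  have hg2 : g ∈ US S2 := B.mem_US.2 fun R hR => by
    by_contra h
    exact hR (Finset.mem_union_right _ ((Set.Finite.mem_toFinset _).2 h))
  have ha2 : a ∈ US S2 := B.mem_US.2 fun R hR => by
    have hR1 : R ∉ S := fun h => hR (Finset.mem_union_left _ (Finset.mem_union_left _ h))
    have hR2 : (⟨R, hR1⟩ : (preK S).P) ∉ y := fun h => hR (Finset.mem_union_left _
      (Finset.mem_union_right _ (Finset.mem_image.2 ⟨_, h, rfl⟩)))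
    exact (B.ord_rep F c y ⟨R, hR1⟩).trans (if_neg hR2)
  have hrec := hr S2 hS' a ha2 g hg2
  have hpl : pls S2 = S2.disjSum (Finset.univ : Finset (k →+* ℝ)) := rfl
  rw [hpl, Finset.sum_disjSum] at hrec
  have hreal : ∑ φ : k →+* ℝ, hv (Sum.inr φ) (a : k) (g : k) = 0 := by
    refine Finset.sum_eq_zero fun φ _ => ?_
    show hsR φ (a : k) γ = 0
    unfold hsR
    rw [if_neg]
    rintro ⟨-, h⟩
    exact absurd (hφ φ) (not_lt.2 h.le)
  rw [hreal, add_zero] at hrec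
  have hval : ∀ Q : (preK S).P, Q.1 ∈ S2 →
      hv (Sum.inl Q.1) (a : k) (g : k) =
        ((if Q ∈ y then 0 else ord Q.1 γ : ℤ) : ZMod 2) * gF F y c Q := by
    intro Q _
    split_ifs with hQy
    · rw [Int.cast_zero, zero_mul]
      refine B.hv_of_loc hL _ a g ((hL.memLS _ _).2 ?_)
      exact Nsys_odd hS Q.2 γ (h2 Q hQy)
    · show hs Q.1 (a : k) (g : k) = _
      have h0 : ord Q.1 (a : k) = 0 := (B.ord_rep F c y Q).trans (if_neg hQy)
      rw [hL.unt Q.1 (B.ord_two_eq hS Q.2) a g h0, gF_eq hL hS F y c Q hQy]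
      rfl
  have hzero : ∀ P ∈ S2, P ∈ S → hv (Sum.inl P) (a : k) (g : k) = 0 := by
    intro P _ hP
    exact B.hv_of_loc hL _ a g ((hL.memLS _ _).2 (hn P hP γ (h1 P hP)))
  -- the finite sum over the primes outside `S`
  refine (finsum_eq_sum_of_support_subset _
    (s := (S2.subtype (fun P => P ∉ S) : Finset (preK S).P)) ?_).trans ?_
  rotate_left
  · have h3 : ∑ P ∈ S2, hv (Sum.inl P) (a : k) (g : k) =
        ∑ P ∈ S2.filter (fun P => P ∉ S), hv (Sum.inl P) (a : k) (g : k) := by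
      rw [Finset.sum_filter]
      refine Finset.sum_congr rfl fun P hP => ?_
      by_cases h : P ∈ S
      · rw [if_neg (not_not.2 h)]
        exact hzero P hP h
      · rw [if_pos h]
    rw [h3, ← Finset.sum_subtype_eq_sum_filter] at hrec
    rw [← hrec]
    refine Finset.sum_congr rfl fun Q hQ => ?_
    exact (hval Q (Finset.mem_subtype.1 hQ)).symm
  · intro Q hQ
    rw [Finset.mem_coe, Finset.mem_subtype]
    by_contra h
    apply hQ
    have h4 : ord Q.1 γ = 0 := by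
      by_contra h'
      exact h (Finset.mem_union_right _ ((Set.Finite.mem_toFinset _).2 h'))
    show ((if Q ∈ y then 0 else ord Q.1 γ : ℤ) : ZMod 2) * gF F y c Q = 0
    rw [h4]
    simp

theorem gF_ne (hL : LIn k) (hS : Adm S) (F : CFr S) (y : Finset (preK S).P)
    (c : Fin (mS S) → ZMod 2) (h : y.Nonempty ∨ c ≠ 0) : ∃ p, p ∉ y ∧ gF F y c p ≠ 0 := by
  classical
  have hns : ¬ IsSquare ((B.rep F c y : kˣ) : k) := fun hsq => by
    obtain ⟨h1, h2⟩ := B.rep_sq F c y (Nsys_isSquare hsq)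
    rcases h with h | h
    · exact h.ne_empty h2
    · exact h h1
  obtain ⟨Q, hQ, hQ2⟩ := exists_inert (S ∪ y.image fun q => q.1) (B.rep F c y : k)
    (Units.ne_zero _) hns
  rw [Finset.mem_union, not_or] at hQ
  refine ⟨⟨Q, hQ.1⟩, fun h' => hQ.2 (Finset.mem_image.2 ⟨_, h', rfl⟩), ?_⟩
  rw [gF_eq hL hS F y c _ (fun h' => hQ.2 (Finset.mem_image.2 ⟨_, h', rfl⟩))]
  unfold qr
  rw [if_neg hQ2]
  exact one_ne_zero

open Classical in
theorem sg_ite (P : HeightOneSpectrum (𝓞 k)) (a : k) :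
    ((sg (qr a P) : ℤ) : ℝ) = if LocSq P a then (1 : ℝ) else -1 := by
  unfold qr
  split_ifs
  · simp [sg]
  · simp [sg]

/-- the system of primes of a number field -/
theorem exists_sysK (hL : LIn k) (hr : RecSt k) (hS : Adm S) (F : CFr S) :
    ∃ (κ C A δ : ℝ), 0 < κ ∧ 0 ≤ C ∧ 0 ≤ A ∧ 0 < δ ∧ δ ≤ 1 ∧
      (∀ X : ℝ, 1 ≤ X → |(((preK S).idl X).card : ℝ) - κ * X| ≤ C * X ^ (1 - δ)) ∧
      (∀ (y : Finset (preK S).P) (c : Fin (mS S) → ZMod 2), (y.Nonempty ∨ c ≠ 0) →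
        ∀ X : ℝ, 1 ≤ X →
        |∑ f ∈ (preK S).idl X, ((preK S).chv y (gF F y c) f : ℝ)| ≤
          C * ((preK S).nm y : ℝ) ^ A * X ^ (1 - δ)) := by
  obtain ⟨κ, hκ, C1, hC1, h1⟩ := cnt_S S
  obtain ⟨n, hn⟩ := Nsys_near S
  obtain ⟨C2, A, hC2, hA, h2⟩ := chi_bound S hS.prS n
  have hd : (0 : ℝ) < Module.finrank ℚ k := Nat.cast_pos.2 Module.finrank_pos
  have hd1 : (1 : ℝ) ≤ Module.finrank ℚ k := Nat.one_le_cast.2 Module.finrank_pos
  refine ⟨κ, C1 + C2, A, 1 / (Module.finrank ℚ k : ℝ), hκ, add_nonneg hC1 hC2, hA,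
    by positivity, ?_, fun X hX => ?_, fun y c hyc X hX => ?_⟩
  · rw [div_le_one hd]
    exact hd1
  · refine (h1 X hX).trans ?_
    have : 0 ≤ X ^ (1 - 1 / (Module.finrank ℚ k : ℝ)) := by positivity
    nlinarith
  · refine (h2 y (gF F y c) (Loc_gF hL hr hS F n hn y c) (gF_ne hL hS F y c hyc) X hX).trans ?_
    have h3 : 0 ≤ X ^ (1 - 1 / (Module.finrank ℚ k : ℝ)) := by positivity
    have h4 : 0 ≤ ((preK S).nm y : ℝ) ^ A := by positivity
    have h5 : 0 ≤ ((preK S).nm y : ℝ) ^ A * X ^ (1 - 1 / (Module.finrank ℚ k : ℝ)) :=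
      mul_nonneg h4 h3
    nlinarith

theorem prm_gF (hL : LIn k) (hS : Adm S) (F : CFr S) (y : Finset (preK S).P)
    (c : Fin (mS S) → ZMod 2) (h : y.Nonempty ∨ c ≠ 0) :
    ∃ K : ℝ, ∀ s : ℝ, 1 < s → s ≤ 2 →
      |∑' p : (preK S).P, ((preK S).chp y (gF F y c) p : ℝ) * ((preK S).N p : ℝ) ^ (-s)| ≤ K := by
  classical
  have hns : ¬ IsSquare ((B.rep F c y : kˣ) : k) := fun hsq => by
    obtain ⟨h1, h2⟩ := B.rep_sq F c y (Nsys_isSquare hsq)
    rcases h with h | h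
    · exact h.ne_empty h2
    · exact h h1
  obtain ⟨K, hK⟩ := prm_S S y (B.rep F c y : k) (Units.ne_zero _) hns
  refine ⟨K, fun s hs hs2 => ?_⟩
  have h1 := hK s hs hs2
  have h2 : ∀ p : (preK S).P, ((preK S).chp y (gF F y c) p : ℝ) =
      (if p ∈ y then (0 : ℝ) else if LocSq p.1 ((B.rep F c y : kˣ) : k) then 1 else -1) := by
    intro p
    unfold Pre.chp
    by_cases hp : p ∈ y
    · rw [if_pos hp, if_pos hp, Int.cast_zero]
    · rw [if_neg hp, if_neg hp, gF_eq hL hS F y c p hp]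
      convert sg_ite p.1 ((B.rep F c y : kˣ) : k)
  simp only [h2]
  convert h1

/-- the system of primes of a number field -/
noncomputable def mkSys (hL : LIn k) (hr : RecSt k) (hS : Adm S) (F : CFr S) (κ C A δ : ℝ)
    (h1 : 0 < κ) (h2 : 0 ≤ C) (h3 : 0 ≤ A) (h4 : 0 < δ) (h5 : δ ≤ 1)
    (h6 : ∀ X : ℝ, 1 ≤ X → |(((preK S).idl X).card : ℝ) - κ * X| ≤ C * X ^ (1 - δ))
    (h7 : ∀ (y : Finset (preK S).P) (c : Fin (mS S) → ZMod 2), (y.Nonempty ∨ c ≠ 0) →
        ∀ X : ℝ, 1 ≤ X →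
        |∑ f ∈ (preK S).idl X, ((preK S).chv y (gF F y c) f : ℝ)| ≤
          C * ((preK S).nm y : ℝ) ^ A * X ^ (1 - δ)) : Sys where
  toPre := preK S
  m := mS S
  ty := fun p => B.tyF F p
  l := F.l
  J := fun p q => qr (F.ppi p : k) q.1
  recip := fun p q hpq => B.recipF hL hr hS F p q hpq
  κ := κ
  C := C
  A := A
  δ := δ
  κ_pos := h1
  C_nonneg := h2
  A_nonneg := h3
  δ_pos := h4
  δ_le := h5
  cnt := h6
  chr := h7
  prm0 := prm0_S S
  prm := prm_gF hL hS F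

/-! ### the axioms `gen` and `ind` of a frame -/

theorem sy_u_u (hr : RecSt k) (hS : Adm S) (F : CFr S) (i j : Fin (mS S)) :
    B.sy S (F.u i) (F.u j) = 0 := hr S hS.two _ (F.u_mem i) _ (F.u_mem j)

theorem ind_of (hL : LIn k) (hr : RecSt k) (hS : Adm S) (F : CFr S)
    (y z : Fin (mS S) → ZMod 2)
    (h : (∏ j, F.u j ^ (y j).val) * ∏ j, F.w j ^ (z j).val ∈ KS S) : y = 0 ∧ z = 0 := by
  classical
  have hz : z = 0 := by
    funext i
    have h1 := B.sy_of_KS hL S (F.u i) _ h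
    rw [B.sy_mul hL, B.sy_prod hL, B.sy_prod hL] at h1
    rw [Finset.sum_eq_zero (fun j _ => by rw [B.sy_pow hL, sy_u_u hr hS F, mul_zero]),
      zero_add] at h1
    have h2 : ∀ j ∈ (Finset.univ : Finset (Fin (mS S))),
        B.sy S (F.u i) (F.w j ^ (z j).val) = if i = j then z j else 0 := by
      intro j _
      have h3 : B.sy S (F.u i) (F.w j) = if i = j then 1 else 0 := F.uw i j
      rw [B.sy_pow hL, h3, B.zval]
      split_ifs
      · rw [mul_one]
      · rw [mul_zero]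
    rw [Finset.sum_congr rfl h2, Finset.sum_ite_eq, if_pos (Finset.mem_univ i)] at h1
    exact h1
  refine ⟨?_, hz⟩
  funext i
  have h0 : ∏ j, F.w j ^ (z j).val = 1 := by
    rw [hz]
    simp
  rw [h0, mul_one] at h
  have h1 := B.sy_of_KS hL S (F.w i) _ h
  rw [B.sy_prod hL] at h1
  have h2 : ∀ j ∈ (Finset.univ : Finset (Fin (mS S))),
      B.sy S (F.w i) (F.u j ^ (y j).val) = if i = j then y j else 0 := by
    intro j _
    have h3 : B.sy S (F.u j) (F.w i) = if j = i then 1 else 0 := F.uw j i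
    rw [B.sy_pow hL, B.sy_comm hL, h3, B.zval]
    by_cases hij : i = j
    · rw [if_pos hij, if_pos hij.symm, mul_one]
    · rw [if_neg hij, if_neg (Ne.symm hij), mul_zero]
  rw [Finset.sum_congr rfl h2, Finset.sum_ite_eq, if_pos (Finset.mem_univ i)] at h1
  exact h1

end

end Pool.Agent.H98.MF
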