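import Pool.Agent.H98.MF.NDefs

/-!
# Project MK4 (MP_a3214d), block N: thin sets
-/

set_option autoImplicit false

open scoped BigOperators Pointwise NNReal nonZeroDivisors
open NumberField NumberField.mixedEmbedding NumberField.InfinitePlace MeasureTheory

namespace Pool.Agent.H98.MF

theorem thin_lip {κ : Type} [Fintype κ] {E : Type} [PseudoMetricSpace E] (f : (κ → ℝ) → E)
    (L : ℝ≥0) (hf : LipschitzOnWith L f (Set.Icc 0 1)) (m : ℕ) (hm : Fintype.card κ = m) :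
    Thin m (f '' Set.Icc 0 1) := by
  classical
  refine ⟨((L : ℝ) + 3) ^ m, fun t ht0 ht1 => ?_⟩
  set M : ℕ := ⌈((L : ℝ) + 1) / t⌉₊ with hM
  have hL : (0 : ℝ) ≤ L := L.coe_nonneg
  have hM1 : ((L : ℝ) + 1) / t ≤ M := Nat.le_ceil _
  have hM2 : (M : ℝ) < ((L : ℝ) + 1) / t + 1 := Nat.ceil_lt_add_one (by positivity)
  have hMpos : (0 : ℝ) < M := lt_of_lt_of_le (by positivity) hM1
  refine ⟨Finset.univ.image fun j : κ → Fin (M + 1) => f fun i => ((j i : ℕ) : ℝ) / M, ?_, ?_⟩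
  · have h1 : ((Finset.univ.image fun j : κ → Fin (M + 1) =>
        f fun i => ((j i : ℕ) : ℝ) / M).card : ℝ) ≤ ((M : ℝ) + 1) ^ m := by
      have h2 := Finset.card_image_le (s := (Finset.univ : Finset (κ → Fin (M + 1))))
        (f := fun j : κ → Fin (M + 1) => f fun i => ((j i : ℕ) : ℝ) / M)
      rw [Finset.card_univ, Fintype.card_fun, Fintype.card_fin, hm] at h2
      exact_mod_cast h2
    have h3 : ((M : ℝ) + 1) * t ≤ (L : ℝ) + 3 := by
      have h4 : (M : ℝ) * t ≤ ((L : ℝ) + 1) + t := by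
        have h5 := mul_le_mul_of_nonneg_right hM2.le ht0.le
        rw [add_mul, div_mul_cancel₀ _ ht0.ne', one_mul] at h5
        exact h5
      nlinarith
    calc ((Finset.univ.image fun j : κ → Fin (M + 1) =>
        f fun i => ((j i : ℕ) : ℝ) / M).card : ℝ) * t ^ m
        ≤ ((M : ℝ) + 1) ^ m * t ^ m := mul_le_mul_of_nonneg_right h1 (by positivity)
      _ = (((M : ℝ) + 1) * t) ^ m := by rw [mul_pow]
      _ ≤ ((L : ℝ) + 3) ^ m := pow_le_pow_left₀ (by positivity) h3 m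
  · rintro _ ⟨x, hx, rfl⟩
    have hx0 : ∀ i, 0 ≤ x i := fun i => hx.1 i
    have hx1 : ∀ i, x i ≤ 1 := fun i => hx.2 i
    have hfl : ∀ i, ⌊x i * M⌋₊ < M + 1 := by
      intro i
      have h1 : (⌊x i * M⌋₊ : ℝ) ≤ x i * M := Nat.floor_le (mul_nonneg (hx0 i) hMpos.le)
      have h2 : x i * M ≤ M := by
        have := mul_le_mul_of_nonneg_right (hx1 i) hMpos.le
        rwa [one_mul] at this
      have h3 : (⌊x i * M⌋₊ : ℝ) ≤ M := h1.trans h2
      have h4 : ⌊x i * M⌋₊ ≤ M := by exact_mod_cast h3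
      omega
    set g : κ → ℝ := fun i => ((⟨⌊x i * M⌋₊, hfl i⟩ : Fin (M + 1)) : ℕ) / (M : ℝ) with hg
    have hgv : ∀ i, g i = (⌊x i * M⌋₊ : ℝ) / M := fun i => rfl
    have hgmem : g ∈ Set.Icc (0 : κ → ℝ) 1 := by
      constructor
      · intro i
        rw [hgv]
        exact div_nonneg (Nat.cast_nonneg _) hMpos.le
      · intro i
        rw [hgv]
        rw [Pi.one_apply, div_le_one hMpos]
        have := hfl i
        have h4 : ⌊x i * M⌋₊ ≤ M := by omega
        exact_mod_cast h4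
    have hdist : dist x g ≤ 1 / M := by
      rw [dist_pi_le_iff (by positivity)]
      intro i
      rw [hgv, Real.dist_eq, abs_le]
      have h1 : (⌊x i * M⌋₊ : ℝ) ≤ x i * M := Nat.floor_le (mul_nonneg (hx0 i) hMpos.le)
      have h2 : x i * M < ⌊x i * M⌋₊ + 1 := Nat.lt_floor_add_one _
      have h3 : (⌊x i * M⌋₊ : ℝ) / M ≤ x i := by
        rw [div_le_iff₀ hMpos]
        exact h1
      have h4 : x i ≤ (⌊x i * M⌋₊ : ℝ) / M + 1 / M := by
        rw [← add_div, le_div_iff₀ hMpos]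
        exact h2.le
      have h5 : (0 : ℝ) ≤ 1 / M := by positivity
      constructor
      · linarith
      · linarith
    rw [Set.mem_iUnion₂]
    refine ⟨f g, Finset.mem_image.mpr ⟨fun i => ⟨⌊x i * M⌋₊, hfl i⟩, Finset.mem_univ _, rfl⟩, ?_⟩
    rw [Metric.mem_closedBall]
    calc dist (f x) (f g) ≤ L * dist x g := hf.dist_le_mul x hx g hgmem
      _ ≤ L * (1 / M) := mul_le_mul_of_nonneg_left hdist hL
      _ ≤ t := by
        rw [mul_one_div, div_le_iff₀ hMpos]
        have h5 := (div_le_iff₀ ht0).mp hM1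
        linarith

theorem thin_mono {E : Type} [PseudoMetricSpace E] {m : ℕ} {D D' : Set E} (h : D ⊆ D')
    (hD : Thin m D') : Thin m D := by
  obtain ⟨C, hC⟩ := hD
  refine ⟨C, fun t ht0 ht1 => ?_⟩
  obtain ⟨A, h1, h2⟩ := hC t ht0 ht1
  exact ⟨A, h1, h.trans h2⟩

theorem thin_iUnion {E : Type} [PseudoMetricSpace E] {J : Type} [Finite J] {m : ℕ}
    (D : J → Set E) (h : ∀ j, Thin m (D j)) : Thin m (⋃ j, D j) := by
  classical
  have := Fintype.ofFinite J
  choose C hC using h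
  refine ⟨∑ j, C j, fun t ht0 ht1 => ?_⟩
  choose A h1 h2 using fun j => hC j t ht0 ht1
  refine ⟨Finset.univ.biUnion A, ?_, ?_⟩
  · have h3 : ((Finset.univ.biUnion A).card : ℝ) ≤ ∑ j, ((A j).card : ℝ) := by
      exact_mod_cast Finset.card_biUnion_le
    calc ((Finset.univ.biUnion A).card : ℝ) * t ^ m ≤ (∑ j, ((A j).card : ℝ)) * t ^ m :=
          mul_le_mul_of_nonneg_right h3 (by positivity)
      _ = ∑ j, ((A j).card : ℝ) * t ^ m := by rw [Finset.sum_mul]
      _ ≤ ∑ j, C j := Finset.sum_le_sum fun j _ => h1 j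
  · refine Set.iUnion_subset fun j => (h2 j).trans ?_
    refine Set.iUnion₂_subset fun x hx => ?_
    exact Set.subset_iUnion₂_of_subset x
      (Finset.mem_biUnion.mpr ⟨j, Finset.mem_univ _, hx⟩) subset_rfl

theorem thin_image {E E' : Type} [PseudoMetricSpace E] [PseudoMetricSpace E'] {m : ℕ}
    (g : E → E') (L : ℝ≥0) (hg : LipschitzWith L g) {D : Set E} (hD : Thin m D) :
    Thin m (g '' D) := by
  classical
  obtain ⟨C, hC⟩ := hD
  refine ⟨C * ((L : ℝ) + 1) ^ m, fun t ht0 ht1 => ?_⟩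
  have hL : (0 : ℝ) ≤ L := L.coe_nonneg
  have hL1 : (0 : ℝ) < (L : ℝ) + 1 := by linarith
  have ht' : 0 < t / ((L : ℝ) + 1) := div_pos ht0 hL1
  have ht1' : t / ((L : ℝ) + 1) ≤ 1 := by
    rw [div_le_one hL1]
    linarith
  obtain ⟨A, h1, h2⟩ := hC _ ht' ht1'
  refine ⟨A.image g, ?_, ?_⟩
  · have h3 : ((A.image g).card : ℝ) ≤ A.card := by
      exact_mod_cast Finset.card_image_le
    calc ((A.image g).card : ℝ) * t ^ m ≤ A.card * t ^ m :=
          mul_le_mul_of_nonneg_right h3 (by positivity)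
      _ = (A.card * (t / ((L : ℝ) + 1)) ^ m) * ((L : ℝ) + 1) ^ m := by
        rw [div_pow]
        field_simp
      _ ≤ C * ((L : ℝ) + 1) ^ m := mul_le_mul_of_nonneg_right h1 (by positivity)
  · rintro _ ⟨x, hx, rfl⟩
    obtain ⟨a, ha, hxa⟩ := Set.mem_iUnion₂.mp (h2 hx)
    rw [Set.mem_iUnion₂]
    refine ⟨g a, Finset.mem_image_of_mem g ha, ?_⟩
    rw [Metric.mem_closedBall] at hxa ⊢
    calc dist (g x) (g a) ≤ L * dist x a := hg.dist_le_mul x a
      _ ≤ L * (t / ((L : ℝ) + 1)) := mul_le_mul_of_nonneg_left hxa hL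
      _ ≤ t := by
        rw [mul_div_assoc', div_le_iff₀ hL1]
        nlinarith

end Pool.Agent.H98.MF
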