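import Pool.Agent.H98.MF.NCell

set_option autoImplicit false

open scoped BigOperators Pointwise NNReal nonZeroDivisors
open NumberField NumberField.mixedEmbedding NumberField.InfinitePlace MeasureTheory

namespace Pool.Agent.H98.MF

private lemma nvol_mem_cellO {ι : Type} (y : ι → ℝ) (t : ℝ) (ht : 0 < t) (x : ι → ℝ)
    (z : ι → ℤ) : x ∈ cellO y t z ↔ (fun i => ⌊(x i - y i) / t⌋) = z := by
  constructor
  · intro h
    funext i
    rw [Int.floor_eq_iff]
    obtain ⟨h1, h2⟩ := h i
    constructor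
    · rw [le_div_iff₀ ht]; nlinarith
    · rw [div_lt_iff₀ ht]; nlinarith
  · intro h i
    have hi := congrFun h i
    rw [Int.floor_eq_iff] at hi
    obtain ⟨h1, h2⟩ := hi
    rw [le_div_iff₀ ht] at h1
    rw [div_lt_iff₀ ht] at h2
    constructor <;> nlinarith

private lemma nvol_corner {ι : Type} (y : ι → ℝ) (t : ℝ) (ht : 0 < t)
    (z : ι → ℤ) : (fun i => y i + t * (z i : ℝ)) ∈ cellO y t z := by
  intro i
  constructor
  · exact le_refl _
  · simp only; nlinarith

private lemma nvol_cellO_eq {ι : Type} (y : ι → ℝ) (t : ℝ) (z : ι → ℤ) :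
    cellO y t z = Set.pi Set.univ (fun i => Set.Ico (y i + t * z i) (y i + t * (z i + 1))) := by
  ext x
  simp [cellO, Set.mem_pi, Set.mem_Ico]

private lemma nvol_volume {ι : Type} [Fintype ι] (y : ι → ℝ) (t : ℝ) (ht : 0 < t)
    (z : ι → ℤ) : volume (cellO y t z) = ENNReal.ofReal (t ^ Fintype.card ι) := by
  rw [nvol_cellO_eq, Real.volume_pi_Ico]
  have : ∀ i : ι, y i + t * ((z i : ℝ) + 1) - (y i + t * (z i : ℝ)) = t := by intro i; ring
  simp only [this]
  rw [Finset.prod_const, ENNReal.ofReal_pow ht.le]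
  rfl

private lemma nvol_meas {ι : Type} [Fintype ι] (y : ι → ℝ) (t : ℝ)
    (z : ι → ℤ) : MeasurableSet (cellO y t z) := by
  rw [nvol_cellO_eq]
  exact MeasurableSet.univ_pi (fun i => measurableSet_Ico)

private lemma nvol_finite {ι : Type} [Fintype ι] (D : Set (ι → ℝ)) (hb : Bornology.IsBounded D)
    (y : ι → ℝ) (t : ℝ) (ht : 0 < t) : {z : ι → ℤ | (cellO y t z ∩ D).Nonempty}.Finite := by
  obtain ⟨R, hR⟩ := hb.subset_closedBall (0 : ι → ℝ)
  have hsub : {z : ι → ℤ | (cellO y t z ∩ D).Nonempty} ⊆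
      Set.pi Set.univ (fun i => Set.Icc ⌊(-R - y i) / t⌋ ⌊(R - y i) / t⌋) := by
    rintro z ⟨x, hx1, hx2⟩ i -
    have hz : ⌊(x i - y i) / t⌋ = z i := congrFun ((nvol_mem_cellO y t ht x z).1 hx1) i
    have hx3 : ‖x‖ ≤ R := by simpa using hR hx2
    have hxi : |x i| ≤ R := (norm_le_pi_norm x i).trans hx3
    obtain ⟨h1, h2⟩ := abs_le.1 hxi
    rw [← hz]
    constructor
    · apply Int.floor_le_floor
      apply div_le_div_of_nonneg_right _ ht.le
      linarith
    · apply Int.floor_le_floor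
      apply div_le_div_of_nonneg_right _ ht.le
      linarith
  exact (Set.Finite.pi' (fun i => Set.finite_Icc _ _)).subset (by
    intro z hz i
    exact hsub hz i (Set.mem_univ i))

theorem count_vol {ι : Type} [Fintype ι] (D : Set (ι → ℝ)) (hb : Bornology.IsBounded D)
    (hm : MeasurableSet D) (y : ι → ℝ) (t : ℝ) (ht : 0 < t) (hf : (bcells D y t).Finite) :
    (lpts D y t).Finite ∧
    |((lpts D y t).ncard : ℝ) - (volume D).toReal / t ^ Fintype.card ι|
      ≤ (bcells D y t).ncard := by
  classical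
  have hS := nvol_finite D hb y t ht
  have hl : lpts D y t ⊆ {z : ι → ℤ | (cellO y t z ∩ D).Nonempty} := fun z hz =>
    ⟨_, nvol_corner y t ht z, hz⟩
  have hlf : (lpts D y t).Finite := hS.subset hl
  refine ⟨hlf, ?_⟩
  set S : Finset (ι → ℤ) := hS.toFinset with hSdef
  have hmemS : ∀ z, z ∈ S ↔ (cellO y t z ∩ D).Nonempty := by
    intro z; rw [hSdef, Set.Finite.mem_toFinset]; rfl
  have htd : 0 < t ^ Fintype.card ι := pow_pos ht _
  have hDU : D = ⋃ z ∈ S, (D ∩ cellO y t z) := by
    ext x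
    simp only [Set.mem_iUnion, Set.mem_inter_iff, exists_prop]
    constructor
    · intro hx
      refine ⟨_, ?_, hx, (nvol_mem_cellO y t ht x _).2 rfl⟩
      rw [hmemS]
      exact ⟨x, (nvol_mem_cellO y t ht x _).2 rfl, hx⟩
    · rintro ⟨z, -, hx, -⟩
      exact hx
  have hvol : volume D = ∑ z ∈ S, volume (D ∩ cellO y t z) := by
    conv_lhs => rw [hDU]
    rw [measure_biUnion_finset]
    · intro z hz z' hz' hne
      refine Set.disjoint_left.2 ?_
      rintro x ⟨-, hx1⟩ ⟨-, hx2⟩
      exact hne (((nvol_mem_cellO y t ht x z).1 hx1).symm.trans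
        ((nvol_mem_cellO y t ht x z').1 hx2))
    · intro z hz
      exact hm.inter (nvol_meas y t z)
  have hle : ∀ z, volume (D ∩ cellO y t z) ≤ ENNReal.ofReal (t ^ Fintype.card ι) := by
    intro z
    rw [← nvol_volume y t ht z]
    exact measure_mono Set.inter_subset_right
  have hfin : ∀ z ∈ S, volume (D ∩ cellO y t z) ≠ ⊤ := fun z _ =>
    ((hle z).trans_lt ENNReal.ofReal_lt_top).ne
  have hvolR : (volume D).toReal = ∑ z ∈ S, (volume (D ∩ cellO y t z)).toReal := by
    rw [hvol, ENNReal.toReal_sum hfin]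
  have hcard : ((lpts D y t).ncard : ℝ) = ∑ z ∈ S, (if z ∈ lpts D y t then (1 : ℝ) else 0) := by
    rw [Finset.sum_ite, Finset.sum_const_zero, add_zero, Finset.sum_const, nsmul_eq_mul, mul_one]
    congr 1
    rw [← Set.ncard_coe_finset]
    congr 1
    ext z
    simp only [Finset.coe_filter, Set.mem_ofPred_eq]
    exact ⟨fun h => ⟨(hmemS z).2 (hl h), h⟩, fun h => h.2⟩
  have hterm : ∀ z ∈ S, |(if z ∈ lpts D y t then (1 : ℝ) else 0) -
      (volume (D ∩ cellO y t z)).toReal / t ^ Fintype.card ι| ≤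
      (if z ∈ bcells D y t then (1 : ℝ) else 0) := by
    intro z hz
    have h0 : 0 ≤ (volume (D ∩ cellO y t z)).toReal / t ^ Fintype.card ι :=
      div_nonneg ENNReal.toReal_nonneg htd.le
    have h1 : (volume (D ∩ cellO y t z)).toReal / t ^ Fintype.card ι ≤ 1 := by
      rw [div_le_one htd]
      exact ENNReal.toReal_le_of_le_ofReal htd.le (hle z)
    by_cases hzb : z ∈ bcells D y t
    · rw [if_pos hzb]
      by_cases hzl : z ∈ lpts D y t
      · rw [if_pos hzl, abs_le]
        constructor <;> linarith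
      · rw [if_neg hzl, abs_le]
        constructor <;> linarith
    · rw [if_neg hzb]
      have hne : (cellO y t z ∩ D).Nonempty := (hmemS z).1 hz
      have hsub : cellO y t z ⊆ D := by
        by_contra hns
        exact hzb (cell_frontier D y t ht z hne hns)
      have hzl : z ∈ lpts D y t := hsub (nvol_corner y t ht z)
      rw [if_pos hzl, Set.inter_eq_self_of_subset_right hsub, nvol_volume y t ht z,
        ENNReal.toReal_ofReal htd.le, div_self htd.ne', sub_self, abs_zero]
  calc |((lpts D y t).ncard : ℝ) - (volume D).toReal / t ^ Fintype.card ι|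
      = |∑ z ∈ S, ((if z ∈ lpts D y t then (1 : ℝ) else 0) -
        (volume (D ∩ cellO y t z)).toReal / t ^ Fintype.card ι)| := by
        rw [hcard, hvolR, Finset.sum_sub_distrib, Finset.sum_div]
    _ ≤ ∑ z ∈ S, |(if z ∈ lpts D y t then (1 : ℝ) else 0) -
        (volume (D ∩ cellO y t z)).toReal / t ^ Fintype.card ι| :=
        Finset.abs_sum_le_sum_abs _ _
    _ ≤ ∑ z ∈ S, (if z ∈ bcells D y t then (1 : ℝ) else 0) := Finset.sum_le_sum hterm
    _ ≤ (bcells D y t).ncard := by
        rw [Finset.sum_ite, Finset.sum_const_zero, add_zero, Finset.sum_const, nsmul_eq_mul,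
          mul_one, ← Set.ncard_coe_finset]
        have : ((S.filter (fun z => z ∈ bcells D y t) : Finset (ι → ℤ)) : Set (ι → ℤ)) ⊆
            bcells D y t := by
          intro z hz
          simp only [Finset.coe_filter, Set.mem_ofPred_eq] at hz
          exact hz.2
        exact_mod_cast Set.ncard_le_ncard this hf

end Pool.Agent.H98.MF
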