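import Pool.Agent.H98.MF.SBase

/-!
# Project MK4 (MP_a3214d), row A18, part 1: Abel summation (helper39)
-/

set_option autoImplicit false

open scoped BigOperators
open Filter

namespace Pool.Agent.H98.MF

/-! ### logarithms -/

theorem a18_log_diff : Tendsto (fun m : ℕ => ((m : ℝ) + 1) * (Real.log (m + 1) - Real.log m))
    atTop (nhds 1) := by
  have h1 : Tendsto (fun m : ℕ => 1 + 1 / (m : ℝ)) atTop (nhds (1 + 0)) :=
    tendsto_const_nhds.add tendsto_one_div_atTop_nhds_zero_nat
  rw [add_zero] at h1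
  refine tendsto_of_tendsto_of_tendsto_of_le_of_le' tendsto_const_nhds h1 ?_ ?_
  · filter_upwards [eventually_ge_atTop 1] with m hm
    have hm0 : (0 : ℝ) < m := by exact_mod_cast hm
    have h2 := Real.log_le_sub_one_of_pos (show (0 : ℝ) < m / (m + 1) by positivity)
    rw [Real.log_div (by positivity) (by positivity)] at h2
    have h3 : (m : ℝ) / (m + 1) - 1 = -(1 / (m + 1)) := by
      field_simp
      ring
    rw [h3] at h2
    have h4 : 1 / ((m : ℝ) + 1) ≤ Real.log (m + 1) - Real.log m := by linarith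
    calc (1 : ℝ) = ((m : ℝ) + 1) * (1 / ((m : ℝ) + 1)) := by field_simp
      _ ≤ _ := mul_le_mul_of_nonneg_left h4 (by positivity)
  · filter_upwards [eventually_ge_atTop 1] with m hm
    have hm0 : (0 : ℝ) < m := by exact_mod_cast hm
    have h2 := Real.log_le_sub_one_of_pos (show (0 : ℝ) < (m + 1) / m by positivity)
    rw [Real.log_div (by positivity) (by positivity)] at h2
    have h3 : ((m : ℝ) + 1) / m - 1 = 1 / m := by
      field_simp
      ring
    rw [h3] at h2
    calc ((m : ℝ) + 1) * (Real.log (m + 1) - Real.log m) ≤ ((m : ℝ) + 1) * (1 / m) :=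
          mul_le_mul_of_nonneg_left h2 (by positivity)
      _ = 1 + 1 / (m : ℝ) := by
          field_simp

theorem a18_log_ratio : Tendsto (fun m : ℕ => Real.log ((m : ℝ) + 1) / Real.log m) atTop
    (nhds 1) := by
  have h0 : Tendsto (fun m : ℕ => Real.log (m : ℝ)) atTop atTop :=
    Real.tendsto_log_atTop.comp tendsto_natCast_atTop_atTop
  have h1 : Tendsto (fun m : ℕ => 1 + (Real.log ((m : ℝ) + 1) - Real.log m) / Real.log m) atTop
      (nhds (1 + 0)) := by
    refine tendsto_const_nhds.add ?_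
    have h2 : Tendsto (fun m : ℕ => Real.log ((m : ℝ) + 1) - Real.log m) atTop (nhds 0) := by
      have h3 := a18_log_diff.mul
        (tendsto_one_div_add_atTop_nhds_zero_nat (𝕜 := ℝ))
      rw [one_mul] at h3
      refine h3.congr fun m => ?_
      have : (m : ℝ) + 1 ≠ 0 := by positivity
      field_simp
    exact h2.div_atTop h0
  rw [add_zero] at h1
  refine h1.congr' ?_
  filter_upwards [eventually_ge_atTop 2] with m hm
  have hm0 : (1 : ℝ) < m := by exact_mod_cast hm
  have hl : Real.log (m : ℝ) ≠ 0 := (Real.log_pos hm0).ne'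
  field_simp
  ring

/-- the increments of `log ^ (k + 1)` -/
noncomputable def a18b (k : ℕ) (m : ℕ) : ℝ :=
  Real.log ((m : ℝ) + 1) ^ (k + 1) - Real.log m ^ (k + 1)

theorem a18b_lim (k : ℕ) : Tendsto (fun m : ℕ => ((m : ℝ) + 1) * a18b k m / Real.log m ^ k) atTop
    (nhds ((k : ℝ) + 1)) := by
  have h1 : Tendsto (fun m : ℕ => ((m : ℝ) + 1) * (Real.log (m + 1) - Real.log m) *
      ∑ i ∈ Finset.range (k + 1), (Real.log ((m : ℝ) + 1) / Real.log m) ^ i) atTop
      (nhds (1 * ∑ i ∈ Finset.range (k + 1), (1 : ℝ) ^ i)) :=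
    a18_log_diff.mul (tendsto_finsetSum _ fun i _ => a18_log_ratio.pow i)
  have h2 : (1 : ℝ) * ∑ i ∈ Finset.range (k + 1), (1 : ℝ) ^ i = (k : ℝ) + 1 := by simp
  rw [h2] at h1
  refine h1.congr' ?_
  filter_upwards [eventually_ge_atTop 2] with m hm
  have hm0 : (1 : ℝ) < m := by exact_mod_cast hm
  have hl : Real.log (m : ℝ) ≠ 0 := (Real.log_pos hm0).ne'
  unfold a18b
  rw [← (Commute.all (Real.log ((m : ℝ) + 1)) (Real.log m)).geom_sum₂_mul]
  have h3 : ∑ i ∈ Finset.range (k + 1), (Real.log ((m : ℝ) + 1) / Real.log m) ^ i =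
      (∑ i ∈ Finset.range (k + 1), Real.log ((m : ℝ) + 1) ^ i * Real.log m ^ (k + 1 - 1 - i)) /
        Real.log m ^ k := by
    rw [Finset.sum_div]
    refine Finset.sum_congr rfl fun i hi => ?_
    have hik : i ≤ k := Nat.lt_succ_iff.1 (Finset.mem_range.1 hi)
    have h4 : Real.log (m : ℝ) ^ k = Real.log m ^ i * Real.log m ^ (k - i) := by
      rw [← pow_add, Nat.add_sub_cancel' hik]
    rw [Nat.add_sub_cancel, h4, div_pow]
    field_simp
  rw [h3]
  ring

theorem a18b_sum (k n : ℕ) : ∑ m ∈ Finset.range n, a18b k m = Real.log n ^ (k + 1) := by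
  induction n with
  | zero => simp
  | succ n ih =>
    rw [Finset.sum_range_succ, ih]
    unfold a18b
    push_cast
    ring

theorem a18b_nonneg (k m : ℕ) : 0 ≤ a18b k m := by
  unfold a18b
  rcases Nat.eq_zero_or_pos m with h | h
  · subst h
    simp
  · have hm : (1 : ℝ) ≤ m := by exact_mod_cast h
    have h1 : 0 ≤ Real.log (m : ℝ) := Real.log_nonneg hm
    have h2 : Real.log (m : ℝ) ≤ Real.log (m + 1) := Real.log_le_log (by linarith) (by linarith)
    have := pow_le_pow_left₀ h1 h2 (k + 1)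
    linarith

theorem a18_abel (u : ℕ → ℝ) (n : ℕ) : ∑ m ∈ Finset.Icc 1 n, u m / m =
    (∑ m ∈ Finset.Icc 1 n, u m) / (n + 1) +
      ∑ m ∈ Finset.range (n + 1), (∑ l ∈ Finset.Icc 1 m, u l) / (m * (m + 1)) := by
  induction n with
  | zero => simp
  | succ n ih =>
    rw [Finset.sum_range_succ, Finset.sum_Icc_succ_top (by omega), ih,
      Finset.sum_Icc_succ_top (by omega)]
    push_cast
    have h1 : (n : ℝ) + 1 ≠ 0 := by positivity
    have h2 : (n : ℝ) + 1 + 1 ≠ 0 := by positivity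
    field_simp
    ring

theorem a18_nat (k : ℕ) (u : ℕ → ℝ) (C : ℝ)
    (hU : Tendsto (fun n : ℕ => (∑ m ∈ Finset.Icc 1 n, u m) / (n * Real.log n ^ k)) atTop
      (nhds C)) :
    Tendsto (fun n : ℕ => (∑ m ∈ Finset.Icc 1 n, u m / m) / Real.log n ^ (k + 1)) atTop
      (nhds (C / (k + 1))) := by
  set U : ℕ → ℝ := fun n => ∑ m ∈ Finset.Icc 1 n, u m with hUdef
  set c : ℝ := C / (k + 1) with hc
  have hk : (k : ℝ) + 1 ≠ 0 := by positivity
  -- ratio of the terms
  have h1 : Tendsto (fun m : ℕ => U m / (m * (m + 1)) / a18b k m) atTop (nhds c) := by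
    have h2 : Tendsto (fun m : ℕ => (U m / (m * Real.log m ^ k)) /
        (((m : ℝ) + 1) * a18b k m / Real.log m ^ k)) atTop (nhds (C / (k + 1))) :=
      hU.div (a18b_lim k) hk
    refine h2.congr' ?_
    filter_upwards [eventually_ge_atTop 2] with m hm
    have hm0 : (1 : ℝ) < m := by exact_mod_cast hm
    have hl : Real.log (m : ℝ) ≠ 0 := (Real.log_pos hm0).ne'
    have hm1 : (m : ℝ) ≠ 0 := by linarith
    have hm2 : (m : ℝ) + 1 ≠ 0 := by linarith
    rcases eq_or_ne (a18b k m) 0 with hb | hb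
    · rw [hb]
      simp
    · field_simp
  have hbpos : ∀ᶠ m : ℕ in atTop, a18b k m ≠ 0 := by
    have h2 := (a18b_lim k).eventually_ne hk
    filter_upwards [h2] with m hm hb
    rw [hb] at hm
    simp at hm
  have h3 : (fun m : ℕ => U m / (m * (m + 1)) - c * a18b k m) =o[atTop] fun m => a18b k m := by
    rw [Asymptotics.isLittleO_iff_tendsto']
    · have h4 := h1.sub_const c
      rw [sub_self] at h4
      refine h4.congr' ?_
      filter_upwards [hbpos] with m hm
      rw [sub_div, mul_div_cancel_right₀ _ hm]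
    · filter_upwards [hbpos] with m hm h
      exact absurd h hm
  have hlog : Tendsto (fun n : ℕ => Real.log (n : ℝ)) atTop atTop :=
    Real.tendsto_log_atTop.comp tendsto_natCast_atTop_atTop
  have h5 := h3.sum_range (fun m => a18b_nonneg k m) (by
    simp only [a18b_sum]
    exact (tendsto_pow_atTop (by omega)).comp hlog)
  have h6 : Tendsto (fun n : ℕ => (∑ m ∈ Finset.range n, U m / (m * (m + 1))) /
      Real.log n ^ (k + 1)) atTop (nhds c) := by
    have h7 := h5.tendsto_div_nhds_zero.add_const c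
    rw [zero_add] at h7
    refine h7.congr' ?_
    filter_upwards [eventually_ge_atTop 2] with n hn
    have hm0 : (1 : ℝ) < n := by exact_mod_cast hn
    have hl : Real.log (n : ℝ) ≠ 0 := (Real.log_pos hm0).ne'
    rw [Finset.sum_sub_distrib, ← Finset.mul_sum, a18b_sum, sub_div,
      mul_div_cancel_right₀ _ (pow_ne_zero _ hl)]
    ring
  have h7 := (tendsto_add_atTop_iff_nat 1).2 h6
  have h8 : Tendsto (fun n : ℕ => (U n / (n * Real.log n ^ k)) * ((n : ℝ) / (n + 1)) *
      (1 / Real.log n)) atTop (nhds (C * 1 * 0)) := by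
    refine (hU.mul ?_).mul (tendsto_const_nhds.div_atTop hlog)
    exact tendsto_natCast_div_add_atTop (1 : ℝ)
  have h9 := ((a18_log_ratio.pow (k + 1)).mul h7).add h8
  rw [one_pow, one_mul, mul_zero, add_zero] at h9
  refine h9.congr' ?_
  filter_upwards [eventually_ge_atTop 2] with n hn
  have hm0 : (1 : ℝ) < n := by exact_mod_cast hn
  have hl : Real.log (n : ℝ) ≠ 0 := (Real.log_pos hm0).ne'
  have hl2 : Real.log ((n : ℝ) + 1) ≠ 0 := (Real.log_pos (by linarith)).ne'
  have hab : ∑ m ∈ Finset.Icc 1 n, u m / m = U n / (n + 1) +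
      ∑ m ∈ Finset.range (n + 1), U m / (m * (m + 1)) := a18_abel u n
  rw [hab]
  push_cast
  have hn1 : (n : ℝ) ≠ 0 := by linarith
  have hn2 : (n : ℝ) + 1 ≠ 0 := by linarith
  generalize (∑ m ∈ Finset.range (n + 1), U m / ((m : ℝ) * (m + 1))) = Z
  generalize U n = V
  have h10 : Real.log ((n : ℝ) + 1) ^ (k + 1) / Real.log n ^ (k + 1) *
      (Z / Real.log ((n : ℝ) + 1) ^ (k + 1)) = Z / Real.log n ^ (k + 1) := by
    have := pow_ne_zero (k + 1) hl2
    field_simp
  rw [div_pow, h10, pow_succ]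
  field_simp
  ring

/-- the sum over `n ≤ Y` as a function of the real number `Y` -/
theorem a18_real (k : ℕ) (u : ℕ → ℝ) (C : ℝ)
    (hU : Tendsto (fun Y : ℝ => (∑ m ∈ Finset.Icc 1 ⌊Y⌋₊, u m) / (Y * Real.log Y ^ k)) atTop
      (nhds C)) :
    Tendsto (fun Y : ℝ => (∑ m ∈ Finset.Icc 1 ⌊Y⌋₊, u m / m) / Real.log Y ^ (k + 1)) atTop
      (nhds (C / (k + 1))) := by
  have h1 : Tendsto (fun n : ℕ => (∑ m ∈ Finset.Icc 1 n, u m) / (n * Real.log n ^ k)) atTop
      (nhds C) := by
    have := hU.comp (tendsto_natCast_atTop_atTop (R := ℝ))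
    refine this.congr fun n => ?_
    simp only [Function.comp_apply, Nat.floor_natCast]
  have h2 := (a18_nat k u C h1).comp (tendsto_nat_floor_atTop (α := ℝ))
  have h3 : Tendsto (fun Y : ℝ => Real.log (⌊Y⌋₊ : ℝ) / Real.log Y) atTop (nhds 1) := by
    have h4 : Tendsto (fun Y : ℝ => 1 + Real.log ((⌊Y⌋₊ : ℝ) / Y) / Real.log Y) atTop
        (nhds (1 + 0)) := by
      refine tendsto_const_nhds.add ?_
      have h5 : Tendsto (fun Y : ℝ => Real.log ((⌊Y⌋₊ : ℝ) / Y)) atTop (nhds (Real.log 1)) :=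
        (tendsto_nat_floor_div_atTop (R := ℝ)).log one_ne_zero
      exact h5.div_atTop Real.tendsto_log_atTop
    rw [add_zero] at h4
    refine h4.congr' ?_
    filter_upwards [eventually_ge_atTop (2 : ℝ)] with Y hY
    have h6 : (1 : ℝ) ≤ ⌊Y⌋₊ := by exact_mod_cast Nat.le_floor (by norm_num; linarith)
    have hl : Real.log Y ≠ 0 := (Real.log_pos (by linarith)).ne'
    rw [Real.log_div (by linarith) (by linarith)]
    field_simp
    ring
  have h4 := (h3.pow (k + 1)).mul h2
  rw [one_pow, one_mul] at h4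
  refine h4.congr' ?_
  filter_upwards [eventually_ge_atTop (2 : ℝ)] with Y hY
  have h6 : (2 : ℝ) ≤ ⌊Y⌋₊ := by exact_mod_cast Nat.le_floor (by norm_num; linarith)
  have hl : Real.log Y ≠ 0 := (Real.log_pos (by linarith)).ne'
  have hl2 : Real.log (⌊Y⌋₊ : ℝ) ≠ 0 := (Real.log_pos (by linarith)).ne'
  simp only [Function.comp_apply]
  have h7 := pow_ne_zero (k + 1) hl2
  have h8 := pow_ne_zero (k + 1) hl
  rw [div_pow]
  generalize (∑ m ∈ Finset.Icc 1 ⌊Y⌋₊, u m / m) = Z
  field_simp

end Pool.Agent.H98.MF
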