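import Pool.Agent.H98.MF.SAsyPsi1

/-!
# Project MK4 (MP_a3214d), row A18, part 2: asymptotics of `(k + 1) ^ omega` (helper39)
-/

set_option autoImplicit false

open scoped BigOperators
open Filter

namespace Pool.Agent.H98.MF

namespace Pre

variable (S : Pre)

theorem a18_sum_bx (h : Finset S.P → ℝ) (φ : ℕ → ℝ) (t : ℝ) :
    ∑ x ∈ S.bx t, h x * φ (S.nm x) = ∑ n ∈ Finset.Icc 1 ⌊t⌋₊, S.ph h n * φ n := by
  rw [← Finset.sum_fiberwise_of_maps_to (s := S.bx t) (t := Finset.Icc 1 ⌊t⌋₊) (g := S.nm)]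
  · refine Finset.sum_congr rfl fun n hn => ?_
    unfold ph
    rw [Finset.sum_mul]
    have h1 : (S.bx t).filter (fun x => S.nm x = n) = (S.bx n).filter (fun x => S.nm x = n) := by
      ext x
      rw [Finset.mem_filter, Finset.mem_filter, S.mem_bx, S.mem_bx]
      rw [Finset.mem_Icc] at hn
      constructor
      · rintro ⟨-, h2⟩
        exact ⟨by rw [h2], h2⟩
      · rintro ⟨-, h2⟩
        refine ⟨?_, h2⟩
        rw [h2]
        exact (Nat.le_floor_iff' (by omega)).1 hn.2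
    rw [h1]
    exact Finset.sum_congr rfl fun x hx => by rw [(Finset.mem_filter.1 hx).2]
  · intro x hx
    rw [S.mem_bx] at hx
    exact Finset.mem_Icc.2 ⟨S.one_le_nm x, Nat.le_floor hx⟩

theorem a18_split (f : Finset S.P → Finset S.P → ℝ) (Y : ℝ) :
    ∑ x ∈ S.bx Y, ∑ y ∈ x.powerset, f x y =
      ∑ y ∈ S.bx Y, ∑ x ∈ S.bx (Y / S.nm y), if Disjoint x y then f (x ∪ y) y else 0 := by
  simp_rw [← Finset.sum_filter]
  rw [Finset.sum_sigma', Finset.sum_sigma']
  refine Finset.sum_bij' (fun a _ => ⟨a.2, a.1 \ a.2⟩) (fun a _ => ⟨a.2 ∪ a.1, a.1⟩) ?_ ?_ ?_ ?_ ?_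
  · rintro ⟨x, y⟩ h
    rw [Finset.mem_sigma, Finset.mem_powerset] at h
    obtain ⟨h1, h2⟩ := h
    simp only at h1 h2
    rw [S.mem_bx] at h1
    have h3 : (x \ y) ∪ y = x := Finset.sdiff_union_of_subset h2
    have h4 : Disjoint (x \ y) y := Finset.sdiff_disjoint
    have h5 : S.nm x = S.nm (x \ y) * S.nm y := by
      rw [← S.nm_union h4, h3]
    rw [Finset.mem_sigma, Finset.mem_filter, S.mem_bx]
    refine ⟨le_trans (by exact_mod_cast S.nm_mono h2) h1, S.mem_bx.2 ?_, h4⟩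
    rw [le_div_iff₀ (S.nm_posr y)]
    rw [h5] at h1
    exact_mod_cast h1
  · rintro ⟨y, x⟩ h
    rw [Finset.mem_sigma, Finset.mem_filter, S.mem_bx, S.mem_bx] at h
    obtain ⟨h1, h2, h3⟩ := h
    simp only at h1 h2 h3
    rw [Finset.mem_sigma, Finset.mem_powerset, S.mem_bx]
    refine ⟨?_, Finset.subset_union_right⟩
    simp only
    rw [S.nm_union h3]
    rw [le_div_iff₀ (S.nm_posr y)] at h2
    exact_mod_cast h2
  · rintro ⟨x, y⟩ h
    rw [Finset.mem_sigma, Finset.mem_powerset] at h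
    obtain ⟨h1, h2⟩ := h
    simp only at h1 h2
    simp only [Sigma.mk.injEq, heq_eq_eq, and_true]
    exact Finset.sdiff_union_of_subset h2
  · rintro ⟨y, x⟩ h
    rw [Finset.mem_sigma, Finset.mem_filter] at h
    obtain ⟨h1, h2, h3⟩ := h
    simp only at h1 h2 h3
    simp only [Sigma.mk.injEq, heq_eq_eq, true_and]
    exact Finset.union_sdiff_cancel_right h3
  · rintro ⟨x, y⟩ h
    rw [Finset.mem_sigma, Finset.mem_powerset] at h
    obtain ⟨h1, h2⟩ := h
    simp only at h1 h2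
    simp only
    rw [Finset.sdiff_union_of_subset h2]

theorem a18_pow_le (d : ℝ) (hd : 0 ≤ d) (t : ℝ) (ht : 1 ≤ t) :
    t ^ (1 - d) ≤ 2 * ∑ m ∈ Finset.Icc 1 ⌊t⌋₊, (m : ℝ) ^ (-d) := by
  have h1 : ∀ m ∈ Finset.Icc 1 ⌊t⌋₊, t ^ (-d) ≤ (m : ℝ) ^ (-d) := by
    intro m hm
    rw [Finset.mem_Icc] at hm
    have h2 : (m : ℝ) ≤ t := (Nat.le_floor_iff' (by omega)).1 hm.2
    have h3 : (0 : ℝ) < m := by exact_mod_cast hm.1
    exact Real.rpow_le_rpow_of_nonpos h3 h2 (by linarith)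
  have h2 := Finset.sum_le_sum h1
  rw [Finset.sum_const, Nat.card_Icc, nsmul_eq_mul, Nat.add_sub_cancel] at h2
  have h3 : t / 2 ≤ ⌊t⌋₊ := by
    have h4 := Nat.lt_floor_add_one t
    have h5 : (1 : ℝ) ≤ ⌊t⌋₊ := by exact_mod_cast Nat.le_floor (by simpa using ht)
    linarith
  have h4 : 0 ≤ t ^ (-d) := Real.rpow_nonneg (by linarith) _
  have h5 : t ^ (1 - d) = t * t ^ (-d) := by
    rw [sub_eq_add_neg, Real.rpow_add (by linarith), Real.rpow_one]
  rw [h5]
  nlinarith [mul_le_mul_of_nonneg_right h3 h4]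

/-- the sum with the weight `(Y / nm y) ^ (1 - d)` -/
theorem a18_err (h : Finset S.P → ℝ) (hh : ∀ x, 0 ≤ h x) (k : ℕ) (C0 : ℝ)
    (hs : ∀ t : ℝ, 1 ≤ t → ∑ x ∈ S.bx t, h x ≤ C0 * t * (1 + Real.log t) ^ k)
    (d : ℝ) (hd : 0 < d) :
    ∃ C : ℝ, 0 ≤ C ∧ ∀ Y : ℝ, 1 ≤ Y → ∑ y ∈ S.bx Y, h y * (Y / S.nm y) ^ (1 - d) ≤
      C * Y * (1 + Real.log Y) ^ k := by
  have hC0 : 0 ≤ C0 := by
    have h1 := hs 1 le_rfl
    have h2 : 0 ≤ ∑ x ∈ S.bx 1, h x := Finset.sum_nonneg fun x _ => hh x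
    simp only [Real.log_one, add_zero, one_pow, mul_one] at h1
    linarith
  have hsum : Summable fun m : ℕ => (m : ℝ) ^ (-(1 + d)) :=
    Real.summable_nat_rpow.2 (by linarith)
  set Z := ∑' m : ℕ, (m : ℝ) ^ (-(1 + d)) with hZ
  have hZ0 : 0 ≤ Z := tsum_nonneg fun m => Real.rpow_nonneg (Nat.cast_nonneg _) _
  refine ⟨2 * C0 * Z, by positivity, fun Y hY => ?_⟩
  have hY0 : 0 < Y := by linarith
  have hl : 0 ≤ Real.log Y := Real.log_nonneg hY
  calc ∑ y ∈ S.bx Y, h y * (Y / S.nm y) ^ (1 - d)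
      ≤ ∑ y ∈ S.bx Y, h y * (2 * ∑ m ∈ Finset.Icc 1 ⌊Y / S.nm y⌋₊, (m : ℝ) ^ (-d)) := by
        refine Finset.sum_le_sum fun y hy => mul_le_mul_of_nonneg_left ?_ (hh y)
        rw [S.mem_bx] at hy
        exact a18_pow_le d hd.le _ ((one_le_div (S.nm_posr y)).2 hy)
    _ = 2 * ∑ y ∈ S.bx Y, ∑ m ∈ Finset.Icc 1 ⌊Y / S.nm y⌋₊, h y * (m : ℝ) ^ (-d) := by
        rw [Finset.mul_sum]
        refine Finset.sum_congr rfl fun y _ => ?_
        rw [← Finset.mul_sum]
        ring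
    _ = 2 * ∑ m ∈ Finset.Icc 1 ⌊Y⌋₊, ∑ y ∈ S.bx (Y / m), h y * (m : ℝ) ^ (-d) := by
        congr 1
        refine Finset.sum_comm' fun y m => ?_
        rw [S.mem_bx, S.mem_bx, Finset.mem_Icc, Finset.mem_Icc]
        have hn := S.nm_posr y
        have hn1 := S.one_le_nmr y
        constructor
        · rintro ⟨h1, h2, h3⟩
          have hm : (0 : ℝ) < m := by exact_mod_cast h2
          have h4 : (m : ℝ) ≤ Y / S.nm y := (Nat.le_floor_iff' (by omega)).1 h3
          rw [le_div_iff₀ hn] at h4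
          refine ⟨?_, h2, ?_⟩
          · rw [le_div_iff₀ hm]
            linarith
          · refine Nat.le_floor ?_
            nlinarith
        · rintro ⟨h1, h2, h3⟩
          have hm : (1 : ℝ) ≤ m := by exact_mod_cast h2
          rw [le_div_iff₀ (by linarith)] at h1
          refine ⟨by nlinarith, h2, ?_⟩
          refine Nat.le_floor ?_
          rw [le_div_iff₀ hn]
          linarith
    _ ≤ 2 * ∑ m ∈ Finset.Icc 1 ⌊Y⌋₊, (C0 * Y * (1 + Real.log Y) ^ k) * (m : ℝ) ^ (-(1 + d)) := by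
        refine mul_le_mul_of_nonneg_left (Finset.sum_le_sum fun m hm => ?_) (by norm_num)
        rw [Finset.mem_Icc] at hm
        have hm0 : (1 : ℝ) ≤ m := by exact_mod_cast hm.1
        have hmY : (m : ℝ) ≤ Y := (Nat.le_floor_iff' (by omega)).1 hm.2
        have h1 : 1 ≤ Y / m := (one_le_div (by linarith)).2 hmY
        rw [← Finset.sum_mul]
        have h2 := hs (Y / m) h1
        have h3 : (1 + Real.log (Y / m)) ^ k ≤ (1 + Real.log Y) ^ k := by
          refine pow_le_pow_left₀ ?_ ?_ k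
          · have := Real.log_nonneg h1
            linarith
          · have := Real.log_le_log (by positivity) (div_le_self hY0.le hm0)
            linarith
        have h4 : 0 ≤ (m : ℝ) ^ (-d) := Real.rpow_nonneg (by linarith) _
        have h5 : (m : ℝ) ^ (-(1 + d)) = (m : ℝ) ^ (-d) / m := by
          rw [neg_add, Real.rpow_add (by linarith), Real.rpow_neg_one]
          field_simp
        rw [h5]
        calc (∑ y ∈ S.bx (Y / m), h y) * (m : ℝ) ^ (-d)
            ≤ (C0 * (Y / m) * (1 + Real.log (Y / m)) ^ k) * (m : ℝ) ^ (-d) :=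
              mul_le_mul_of_nonneg_right h2 h4
          _ ≤ (C0 * (Y / m) * (1 + Real.log Y) ^ k) * (m : ℝ) ^ (-d) := by
              refine mul_le_mul_of_nonneg_right ?_ h4
              exact mul_le_mul_of_nonneg_left h3 (by positivity)
          _ = _ := by ring
    _ = 2 * (C0 * Y * (1 + Real.log Y) ^ k) * ∑ m ∈ Finset.Icc 1 ⌊Y⌋₊, (m : ℝ) ^ (-(1 + d)) := by
        rw [← Finset.mul_sum]
        ring
    _ ≤ 2 * (C0 * Y * (1 + Real.log Y) ^ k) * Z := by
        refine mul_le_mul_of_nonneg_left ?_ (by positivity)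
        exact hsum.sum_le_tsum _ fun m _ => Real.rpow_nonneg (Nat.cast_nonneg _) _
    _ = 2 * C0 * Z * Y * (1 + Real.log Y) ^ k := by ring

end Pre

theorem a18_log_lim (k : ℕ) : Tendsto (fun Y : ℝ => (1 + Real.log Y) ^ k / Real.log Y ^ (k + 1))
    atTop (nhds 0) := by
  have h1 : Tendsto (fun Y : ℝ => (1 / Real.log Y + 1) ^ k * (1 / Real.log Y)) atTop
      (nhds ((0 + 1) ^ k * 0)) := by
    have h2 : Tendsto (fun Y : ℝ => 1 / Real.log Y) atTop (nhds 0) :=
      tendsto_const_nhds.div_atTop Real.tendsto_log_atTop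
    exact ((h2.add_const 1).pow k).mul h2
  rw [mul_zero] at h1
  refine h1.congr' ?_
  filter_upwards [eventually_gt_atTop (1 : ℝ)] with Y hY
  have hl : Real.log Y ≠ 0 := (Real.log_pos hY).ne'
  have h2 : 1 / Real.log Y + 1 = (1 + Real.log Y) / Real.log Y := by
    field_simp
  rw [h2, div_pow, pow_succ]
  field_simp

/-- statement of row A17 -/
def SpCntPsi (F : Sys) : Prop := ∀ (ψ : F.P → ℝ), (∀ p, 0 ≤ ψ p ∧ ψ p ≤ 1) → ∀ (B : ℝ),
    (∀ p, 1 - ψ p ≤ B / F.N p) → ∃ κ C : ℝ, 0 ≤ κ ∧ ∀ (z : Finset F.P) (t : ℝ), 1 ≤ t →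
    |∑ x ∈ F.bx t, (if Disjoint x z then ∏ p ∈ x, ψ p else 0) -
      κ * (∏ p ∈ z, (1 + ψ p / (F.N p : ℝ))⁻¹) * t| ≤ C * F.hs z * t ^ (1 - F.dl)

/-- statement of row A4 -/
def SpHsSum (F : Sys) : Prop := ∀ (k j : ℕ), 1 ≤ k → ∃ C : ℝ, ∀ t : ℝ, 1 ≤ t →
    ∑ x ∈ F.bx t, (k : ℝ) ^ x.card * F.hs x ^ j ≤ C * t * (1 + Real.log t) ^ (k - 1)

/-- the expansion of the sum for `k + 1` -/
theorem a18_expand (F : Sys) (k : ℕ) (ψ : F.P → ℝ) (z : Finset F.P) (Y : ℝ) :
    ∑ x ∈ F.bx Y, (if Disjoint x z then (((k + 1 : ℕ) : ℝ) + 1) ^ x.card * ∏ p ∈ x, ψ p else 0) =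
      ∑ y ∈ F.bx Y, (if Disjoint y z then (((k : ℝ) + 1) ^ y.card * ∏ p ∈ y, ψ p) *
        ∑ x ∈ F.bx (Y / F.nm y), (if Disjoint x (y ∪ z) then ∏ p ∈ x, ψ p else 0) else 0) := by
  have h1 : ∀ x ∈ F.bx Y, (if Disjoint x z then (((k + 1 : ℕ) : ℝ) + 1) ^ x.card *
      ∏ p ∈ x, ψ p else 0) = ∑ y ∈ x.powerset, (if Disjoint x z then ((k : ℝ) + 1) ^ y.card *
        ∏ p ∈ x, ψ p else 0) := by
    intro x _
    split_ifs
    · rw [← Finset.sum_mul]
      congr 1
      have h2 := Finset.sum_pow_mul_eq_add_pow ((k : ℝ) + 1) 1 x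
      simp only [one_pow, mul_one] at h2
      rw [h2]
      push_cast
      ring
    · simp
  rw [Finset.sum_congr rfl h1, F.a18_split]
  refine Finset.sum_congr rfl fun y _ => ?_
  split_ifs with hy
  · rw [Finset.mul_sum]
    refine Finset.sum_congr rfl fun x _ => ?_
    by_cases h2 : Disjoint x y
    · by_cases h3 : Disjoint x z
      · rw [if_pos h2, if_pos (Finset.disjoint_union_left.2 ⟨h3, hy⟩),
          if_pos (Finset.disjoint_union_right.2 ⟨h2, h3⟩), Finset.prod_union h2]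
        ring
      · rw [if_pos h2, if_neg (fun h => h3 (Finset.disjoint_union_left.1 h).1),
          if_neg (fun h => h3 (Finset.disjoint_union_right.1 h).2), mul_zero]
    · rw [if_neg h2, if_neg (fun h => h2 (Finset.disjoint_union_right.1 h).1), mul_zero]
  · refine Finset.sum_eq_zero fun x _ => ?_
    rw [if_neg (fun h => hy (Finset.disjoint_union_left.1 h).2)]
    simp

theorem asy_psi_of (F : Sys) (hcnt : SpCntPsi F) (hhs : SpHsSum F) (k : ℕ) (ψ : F.P → ℝ)
    (h0 : ∀ p, 0 ≤ ψ p ∧ ψ p ≤ 1) (B : ℝ)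
    (hB : ∀ p, 1 - ψ p ≤ B / F.N p) (z : Finset F.P) : ∃ C : ℝ,
    Tendsto (fun Y : ℝ => (∑ x ∈ F.bx Y, (if Disjoint x z
      then ((k : ℝ) + 1) ^ x.card * ∏ p ∈ x, ψ p else 0)) / (Y * Real.log Y ^ k))
      atTop (nhds C) := by
  induction k generalizing ψ B with
  | zero =>
    obtain ⟨κ, C, hκ, hC⟩ := hcnt ψ h0 B hB
    refine ⟨κ * (∏ p ∈ z, (1 + ψ p / (F.N p : ℝ))⁻¹), ?_⟩
    rw [tendsto_iff_norm_sub_tendsto_zero]
    have h1 : Tendsto (fun Y : ℝ => C * F.hs z * Y ^ (-F.dl)) atTop (nhds (C * F.hs z * 0)) :=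
      (tendsto_rpow_neg_atTop F.dl_pos).const_mul _
    rw [mul_zero] at h1
    refine squeeze_zero' (Eventually.of_forall fun Y => norm_nonneg _) ?_ h1
    filter_upwards [eventually_ge_atTop (1 : ℝ)] with Y hY
    have hY0 : 0 < Y := by linarith
    have h2 := hC z Y hY
    rw [Real.norm_eq_abs]
    simp only [CharP.cast_eq_zero, zero_add, one_pow, one_mul, pow_zero, mul_one]
    have h3 : (∑ x ∈ F.bx Y, (if Disjoint x z then ∏ p ∈ x, ψ p else 0)) / Y -
        κ * ∏ p ∈ z, (1 + ψ p / (F.N p : ℝ))⁻¹ =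
        (∑ x ∈ F.bx Y, (if Disjoint x z then ∏ p ∈ x, ψ p else 0) -
          κ * (∏ p ∈ z, (1 + ψ p / (F.N p : ℝ))⁻¹) * Y) / Y := by
      field_simp
    rw [h3, abs_div, abs_of_pos hY0, div_le_iff₀ hY0]
    refine h2.trans (le_of_eq ?_)
    rw [sub_eq_add_neg, Real.rpow_add hY0, Real.rpow_one]
    ring
  | succ k ih =>
    have hN : ∀ p, (2 : ℝ) ≤ F.N p := fun p => by exact_mod_cast F.two_le p
    set φ : F.P → ℝ := fun p => (1 + ψ p / (F.N p : ℝ))⁻¹ with hφ
    have hφ1 : ∀ p, 1 ≤ 1 + ψ p / (F.N p : ℝ) := fun p => by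
      have := div_nonneg (h0 p).1 (by linarith [hN p] : (0 : ℝ) ≤ F.N p)
      linarith
    have hφ0 : ∀ p, 0 < φ p := fun p => inv_pos.2 (by linarith [hφ1 p])
    have hφ2 : ∀ p, φ p ≤ 1 := fun p => inv_le_one_of_one_le₀ (hφ1 p)
    obtain ⟨C', hC'⟩ := ih (fun p => ψ p * φ p)
      (fun p => ⟨mul_nonneg (h0 p).1 (hφ0 p).le, by
        calc ψ p * φ p ≤ 1 * 1 := mul_le_mul (h0 p).2 (hφ2 p) (hφ0 p).le zero_le_one
          _ = 1 := one_mul 1⟩) (B + 1) (fun p => by
        have h1 : 1 - φ p ≤ ψ p / F.N p := by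
          have h2 : φ p * (1 + ψ p / (F.N p : ℝ)) = 1 := by
            simp only [hφ]
            exact inv_mul_cancel₀ (by linarith [hφ1 p])
          have h3 : φ p * (ψ p / F.N p) ≤ 1 * (ψ p / F.N p) :=
            mul_le_mul_of_nonneg_right (hφ2 p)
              (div_nonneg (h0 p).1 (by linarith [hN p] : (0 : ℝ) ≤ F.N p))
          nlinarith
        have h2 : ψ p / F.N p ≤ 1 / F.N p :=
          div_le_div_of_nonneg_right (h0 p).2 (by linarith [hN p])
        have h3 : ψ p * (1 - φ p) ≤ 1 * (1 - φ p) :=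
          mul_le_mul_of_nonneg_right (h0 p).2 (by linarith [hφ2 p])
        have h4 := hB p
        rw [add_div]
        nlinarith)
    obtain ⟨κ, C, hκ, hC⟩ := hcnt ψ h0 B hB
    obtain ⟨C0, hC0⟩ := hhs (k + 1) 1 (by omega)
    -- the sum with `g`
    set g : Finset F.P → ℝ := fun y => if Disjoint y z then
      ((k : ℝ) + 1) ^ y.card * ∏ p ∈ y, (ψ p * φ p) else 0 with hg
    have hT : Tendsto (fun Y : ℝ => (∑ y ∈ F.bx Y, g y * (1 / (F.nm y : ℝ))) /
        Real.log Y ^ (k + 1)) atTop (nhds (C' / (k + 1))) := by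
      have h1 := a18_real k (F.ph g) C' (by
        refine hC'.congr fun Y => ?_
        have h2 := F.a18_sum_bx g (fun _ => 1) Y
        simp only [mul_one] at h2
        rw [← h2])
      refine h1.congr fun Y => ?_
      rw [F.a18_sum_bx g (fun n => 1 / (n : ℝ)) Y]
      simp only [mul_one_div]
    -- the error
    obtain ⟨E, hE0, hE⟩ := F.a18_err (fun y => ((k : ℝ) + 1) ^ y.card * F.hs y)
      (fun y => mul_nonneg (by positivity) (le_trans zero_le_one (F.one_le_hs y))) k C0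
      (fun t ht => by
        have := hC0 t ht
        push_cast at this
        simpa using this) F.dl F.dl_pos
    have hzC : 0 ≤ |C| * F.hs z := mul_nonneg (abs_nonneg _) (le_trans zero_le_one (F.one_le_hs z))
    refine ⟨κ * (∏ p ∈ z, φ p) * (C' / (k + 1)), ?_⟩
    have hmain : Tendsto (fun Y : ℝ => κ * (∏ p ∈ z, φ p) *
        ((∑ y ∈ F.bx Y, g y * (1 / (F.nm y : ℝ))) / Real.log Y ^ (k + 1))) atTop
        (nhds (κ * (∏ p ∈ z, φ p) * (C' / (k + 1)))) := hT.const_mul _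
    have herr : Tendsto (fun Y : ℝ => (∑ x ∈ F.bx Y, (if Disjoint x z
        then (((k + 1 : ℕ) : ℝ) + 1) ^ x.card * ∏ p ∈ x, ψ p else 0)) /
          (Y * Real.log Y ^ (k + 1)) -
        κ * (∏ p ∈ z, φ p) * ((∑ y ∈ F.bx Y, g y * (1 / (F.nm y : ℝ))) / Real.log Y ^ (k + 1)))
        atTop (nhds 0) := by
      rw [tendsto_zero_iff_norm_tendsto_zero]
      have h1 : Tendsto (fun Y : ℝ => |C| * F.hs z * E *
          ((1 + Real.log Y) ^ k / Real.log Y ^ (k + 1))) atTop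
          (nhds (|C| * F.hs z * E * 0)) := (a18_log_lim k).const_mul _
      rw [mul_zero] at h1
      refine squeeze_zero' (Eventually.of_forall fun Y => norm_nonneg _) ?_ h1
      filter_upwards [eventually_gt_atTop (1 : ℝ)] with Y hY
      have hY0 : 0 < Y := by linarith
      have hl : 0 < Real.log Y := Real.log_pos hY
      rw [a18_expand]
      have h2 : (∑ y ∈ F.bx Y, (if Disjoint y z then (((k : ℝ) + 1) ^ y.card * ∏ p ∈ y, ψ p) *
          ∑ x ∈ F.bx (Y / F.nm y), (if Disjoint x (y ∪ z) then ∏ p ∈ x, ψ p else 0) else 0)) /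
            (Y * Real.log Y ^ (k + 1)) -
          κ * (∏ p ∈ z, φ p) * ((∑ y ∈ F.bx Y, g y * (1 / (F.nm y : ℝ))) /
            Real.log Y ^ (k + 1)) =
          (∑ y ∈ F.bx Y, ((if Disjoint y z then (((k : ℝ) + 1) ^ y.card * ∏ p ∈ y, ψ p) *
          ∑ x ∈ F.bx (Y / F.nm y), (if Disjoint x (y ∪ z) then ∏ p ∈ x, ψ p else 0) else 0) -
            κ * (∏ p ∈ z, φ p) * g y * (Y / F.nm y))) / (Y * Real.log Y ^ (k + 1)) := by
        rw [Finset.sum_sub_distrib, sub_div]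
        congr 1
        have h3 : ∑ y ∈ F.bx Y, κ * (∏ p ∈ z, φ p) * g y * (Y / F.nm y) =
            Y * (κ * (∏ p ∈ z, φ p) * ∑ y ∈ F.bx Y, g y * (1 / (F.nm y : ℝ))) := by
          rw [Finset.mul_sum, Finset.mul_sum]
          refine Finset.sum_congr rfl fun y _ => ?_
          ring
        rw [h3, mul_div_mul_left _ _ hY0.ne', mul_div_assoc]
      rw [h2, norm_div, Real.norm_eq_abs, Real.norm_eq_abs (Y * Real.log Y ^ (k + 1)),
        abs_of_pos (by positivity : 0 < Y * Real.log Y ^ (k + 1)), div_le_iff₀ (by positivity)]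
      have h4 : ∀ y ∈ F.bx Y, |(if Disjoint y z then (((k : ℝ) + 1) ^ y.card * ∏ p ∈ y, ψ p) *
          ∑ x ∈ F.bx (Y / F.nm y), (if Disjoint x (y ∪ z) then ∏ p ∈ x, ψ p else 0) else 0) -
            κ * (∏ p ∈ z, φ p) * g y * (Y / F.nm y)| ≤
          |C| * F.hs z * ((((k : ℝ) + 1) ^ y.card * F.hs y) * (Y / F.nm y) ^ (1 - F.dl)) := by
        intro y hy
        rw [F.mem_bx] at hy
        have hhy : 0 ≤ F.hs y := le_trans zero_le_one (F.one_le_hs y)
        have hhz : 0 ≤ F.hs z := le_trans zero_le_one (F.one_le_hs z)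
        have ht : 1 ≤ Y / F.nm y := (one_le_div (F.nm_posr y)).2 hy
        have hr : 0 ≤ (Y / F.nm y) ^ (1 - F.dl) := Real.rpow_nonneg (by linarith) _
        simp only [hg]
        split_ifs with hd
        · have h5 := hC (y ∪ z) (Y / F.nm y) ht
          rw [Finset.prod_union hd] at h5
          have h6 : (((k : ℝ) + 1) ^ y.card * ∏ p ∈ y, ψ p) *
              ∑ x ∈ F.bx (Y / F.nm y), (if Disjoint x (y ∪ z) then ∏ p ∈ x, ψ p else 0) -
              κ * (∏ p ∈ z, φ p) * (((k : ℝ) + 1) ^ y.card * ∏ p ∈ y, (ψ p * φ p)) *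
                (Y / F.nm y) =
              (((k : ℝ) + 1) ^ y.card * ∏ p ∈ y, ψ p) *
              (∑ x ∈ F.bx (Y / F.nm y), (if Disjoint x (y ∪ z) then ∏ p ∈ x, ψ p else 0) -
              κ * ((∏ p ∈ y, (1 + ψ p / (F.N p : ℝ))⁻¹) * ∏ p ∈ z, (1 + ψ p / (F.N p : ℝ))⁻¹) *
                (Y / F.nm y)) := by
            rw [Finset.prod_mul_distrib]
            simp only [hφ]
            ring
          rw [h6, abs_mul]
          have h7 : |((k : ℝ) + 1) ^ y.card * ∏ p ∈ y, ψ p| ≤ ((k : ℝ) + 1) ^ y.card := by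
            rw [abs_mul, abs_of_nonneg (by positivity : 0 ≤ ((k : ℝ) + 1) ^ y.card)]
            refine mul_le_of_le_one_right (by positivity) ?_
            rw [abs_of_nonneg (Finset.prod_nonneg fun p _ => (h0 p).1)]
            exact Finset.prod_le_one (fun p _ => (h0 p).1) fun p _ => (h0 p).2
          calc _ ≤ ((k : ℝ) + 1) ^ y.card *
                (C * F.hs (y ∪ z) * (Y / F.nm y) ^ (1 - F.dl)) :=
                mul_le_mul h7 h5 (abs_nonneg _) (by positivity)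
            _ ≤ ((k : ℝ) + 1) ^ y.card *
                (|C| * (F.hs y * F.hs z) * (Y / F.nm y) ^ (1 - F.dl)) := by
                refine mul_le_mul_of_nonneg_left ?_ (by positivity)
                refine mul_le_mul_of_nonneg_right ?_ hr
                exact mul_le_mul (le_abs_self C) (F.hs_union_le y z)
                  (le_trans zero_le_one (F.one_le_hs _)) (abs_nonneg _)
            _ = _ := by ring
        · simp only [mul_zero, zero_mul, sub_zero, abs_zero]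
          positivity
      calc |∑ y ∈ F.bx Y, ((if Disjoint y z then (((k : ℝ) + 1) ^ y.card * ∏ p ∈ y, ψ p) *
          ∑ x ∈ F.bx (Y / F.nm y), (if Disjoint x (y ∪ z) then ∏ p ∈ x, ψ p else 0) else 0) -
            κ * (∏ p ∈ z, φ p) * g y * (Y / F.nm y))|
          ≤ ∑ y ∈ F.bx Y, |F.hs z| * 0 + ∑ y ∈ F.bx Y,
            |C| * F.hs z * ((((k : ℝ) + 1) ^ y.card * F.hs y) * (Y / F.nm y) ^ (1 - F.dl)) := by
            simp only [mul_zero, Finset.sum_const_zero, zero_add]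
            exact (Finset.abs_sum_le_sum_abs _ _).trans (Finset.sum_le_sum h4)
        _ = |C| * F.hs z * ∑ y ∈ F.bx Y,
            (((k : ℝ) + 1) ^ y.card * F.hs y) * (Y / F.nm y) ^ (1 - F.dl) := by
            simp only [mul_zero, Finset.sum_const_zero, zero_add]
            rw [Finset.mul_sum]
        _ ≤ |C| * F.hs z * (E * Y * (1 + Real.log Y) ^ k) :=
            mul_le_mul_of_nonneg_left (hE Y hY.le) hzC
        _ = |C| * F.hs z * E * ((1 + Real.log Y) ^ k / Real.log Y ^ (k + 1)) *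
            (Y * Real.log Y ^ (k + 1)) := by
            field_simp
    have h5 := herr.add hmain
    rw [zero_add] at h5
    refine h5.congr fun Y => ?_
    ring

end Pool.Agent.H98.MF
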