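import Pool.Agent.H98.MF.SBase
import Pool.Agent.H98.MK.Bilin0

/-!
# Project MK4 (MP_a3214d), row A13: bilinear sums over hyperbolas, preliminaries
-/

set_option autoImplicit false

open scoped BigOperators

namespace Pool.Agent.H98.MF

open Pool.Agent.H98.MK (b6chi b6chi_nonneg b6chi_sum_le b6chi_sum b6_J)

/-- The number of finite sets of primes with norm in `(u, v]`. -/
theorem a13_count (F : Sys) {κ C : ℝ} (hκ : 0 < κ)
    (hC : ∀ (z : Finset F.P) (t : ℝ), 1 ≤ t →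
      |(((F.bx t).filter fun x => Disjoint x z).card : ℝ) -
        κ * (∏ p ∈ z, (1 + 1 / (F.N p : ℝ))⁻¹) * t| ≤ C * F.hs z * t ^ (1 - F.dl))
    (L u v : ℝ) (hu : 0 ≤ u) (huv : u ≤ v) (hv : 1 ≤ v) :
    (((F.bx L).filter (fun x => u < F.nm x ∧ (F.nm x : ℝ) ≤ v)).card : ℝ) ≤
      κ * (v - u) + (2 * |C| + κ) * v ^ (1 - F.dl) := by
  have hC' : ∀ t : ℝ, 1 ≤ t → |((F.bx t).card : ℝ) - κ * t| ≤ |C| * t ^ (1 - F.dl) := by
    intro t ht
    have h := hC ∅ t ht
    have h1 : (F.bx t).filter (fun x => Disjoint x (∅ : Finset F.P)) = F.bx t :=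
      Finset.filter_true_of_mem fun x _ => Finset.disjoint_empty_right x
    have h2 : F.hs ∅ = 1 := rfl
    rw [h1, Finset.prod_empty, h2, mul_one, mul_one] at h
    exact h.trans (mul_le_mul_of_nonneg_right (le_abs_self C)
      (Real.rpow_nonneg (by linarith) _))
  have he : (0 : ℝ) ≤ 1 - F.dl := by linarith [F.dl_le]
  have hv1 : (1 : ℝ) ≤ v ^ (1 - F.dl) := Real.one_le_rpow hv he
  have hCa : 0 ≤ |C| := abs_nonneg C
  have h1 := abs_le.1 (hC' v hv)
  rcases lt_or_ge u 1 with hu1 | hu1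
  · have hsub : (F.bx L).filter (fun x => u < F.nm x ∧ (F.nm x : ℝ) ≤ v) ⊆ F.bx v := by
      intro x hx
      rw [Finset.mem_filter] at hx
      exact F.mem_bx.2 hx.2.2
    have h2 : (((F.bx L).filter (fun x => u < F.nm x ∧ (F.nm x : ℝ) ≤ v)).card : ℝ) ≤
        (F.bx v).card := by exact_mod_cast Finset.card_le_card hsub
    have h3 : κ * u ≤ κ * v ^ (1 - F.dl) := mul_le_mul_of_nonneg_left (by linarith) hκ.le
    have h4 : 0 ≤ |C| * v ^ (1 - F.dl) := mul_nonneg hCa (by linarith)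
    nlinarith [h1.2]
  · have hsub : (F.bx L).filter (fun x => u < F.nm x ∧ (F.nm x : ℝ) ≤ v) ⊆
        F.bx v \ F.bx u := by
      intro x hx
      rw [Finset.mem_filter] at hx
      rw [Finset.mem_sdiff, F.mem_bx, F.mem_bx]
      exact ⟨hx.2.2, not_le.2 hx.2.1⟩
    have hcard : (F.bx v \ F.bx u).card = (F.bx v).card - (F.bx u).card :=
      Finset.card_sdiff_of_subset (F.bx_mono huv)
    have hle : (F.bx u).card ≤ (F.bx v).card := Finset.card_le_card (F.bx_mono huv)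
    have h2 : (((F.bx L).filter (fun x => u < F.nm x ∧ (F.nm x : ℝ) ≤ v)).card : ℝ) ≤
        (F.bx v).card - (F.bx u).card := by
      have h3 := Finset.card_le_card hsub
      rw [hcard] at h3
      have h4 : (((F.bx v).card - (F.bx u).card : ℕ) : ℝ) =
          ((F.bx v).card : ℝ) - (F.bx u).card := Nat.cast_sub hle
      rw [← h4]
      exact_mod_cast h3
    have h3 := abs_le.1 (hC' u hu1)
    have h4 : u ^ (1 - F.dl) ≤ v ^ (1 - F.dl) := Real.rpow_le_rpow hu huv he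
    have h5 : |C| * u ^ (1 - F.dl) ≤ |C| * v ^ (1 - F.dl) := mul_le_mul_of_nonneg_left h4 hCa
    have h6 : 0 ≤ κ * v ^ (1 - F.dl) := mul_nonneg hκ.le (by linarith)
    nlinarith [h1.2, h3.1]

/-- The error term, for fixed `y` and a box. -/
theorem a13_err (F : Sys) {κ C : ℝ} (hκ : 0 < κ)
    (hC : ∀ (z : Finset F.P) (t : ℝ), 1 ≤ t →
      |(((F.bx t).filter fun x => Disjoint x z).card : ℝ) -
        κ * (∏ p ∈ z, (1 + 1 / (F.N p : ℝ))⁻¹) * t| ≤ C * F.hs z * t ^ (1 - F.dl))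
    (L : ℝ) {P X d : ℝ} (hP : 1 ≤ P) (hX : 0 < X) (hd0 : 0 < d)
    (hPd : P ^ (-F.dl) ≤ d) (j : ℕ) (y : Finset F.P) :
    b6chi P d j (F.nm y) * ∑ x ∈ F.bx L, (if X / (P * (1 + d) ^ (j + 1)) < F.nm x ∧
      (F.nm x : ℝ) ≤ X / F.nm y ∧ (F.nm y : ℝ) ≤ X / P then (1 : ℝ) else 0) ≤
    b6chi P d j (F.nm y) * ((2 * κ + 2 * |C|) * d * X * (F.nm y : ℝ)⁻¹) := by
  have hP0 : (0 : ℝ) < P := by linarith
  have hCa : 0 ≤ |C| := abs_nonneg C
  by_cases hc : P * (1 + d) ^ j < F.nm y ∧ (F.nm y : ℝ) ≤ P * (1 + d) ^ (j + 1)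
  · refine mul_le_mul_of_nonneg_left ?_ (b6chi_nonneg _ _ _ _)
    have hn0 : (0 : ℝ) < F.nm y := F.nm_posr y
    by_cases hn : (F.nm y : ℝ) ≤ X / P
    · have h0 : (0 : ℝ) < P * (1 + d) ^ j := mul_pos hP0 (pow_pos (by linarith) _)
      have hN0 : (0 : ℝ) < P * (1 + d) ^ (j + 1) := mul_pos hP0 (pow_pos (by linarith) _)
      have hu : 0 ≤ X / (P * (1 + d) ^ (j + 1)) := by positivity
      have huv : X / (P * (1 + d) ^ (j + 1)) ≤ X / F.nm y :=
        div_le_div_of_nonneg_left hX.le hn0 hc.2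
      have hvP : P ≤ X / F.nm y := by
        rw [le_div_iff₀ hn0]
        rw [le_div_iff₀ hP0] at hn
        linarith
      have hv1 : 1 ≤ X / F.nm y := hP.trans hvP
      have h1 := a13_count F hκ hC L _ _ hu huv hv1
      have h2 : ∑ x ∈ F.bx L, (if X / (P * (1 + d) ^ (j + 1)) < F.nm x ∧
          (F.nm x : ℝ) ≤ X / F.nm y ∧ (F.nm y : ℝ) ≤ X / P then (1 : ℝ) else 0) =
          (((F.bx L).filter (fun x => X / (P * (1 + d) ^ (j + 1)) < F.nm x ∧
            (F.nm x : ℝ) ≤ X / F.nm y)).card : ℝ) := by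
        rw [Finset.card_filter]
        push_cast
        refine Finset.sum_congr rfl fun m _ => ?_
        simp only [hn, and_true]
      rw [h2]
      refine h1.trans ?_
      have h3 : X / F.nm y - X / (P * (1 + d) ^ (j + 1)) ≤ d * (X / F.nm y) := by
        have h4 : (1 - d) * (P * (1 + d) ^ (j + 1)) ≤ F.nm y := by
          have h5 : (1 - d) * (P * (1 + d) ^ (j + 1)) =
              (1 - d ^ 2) * (P * (1 + d) ^ j) := by ring
          rw [h5]
          have h6 : (1 - d ^ 2) * (P * (1 + d) ^ j) ≤ 1 * (P * (1 + d) ^ j) :=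
            mul_le_mul_of_nonneg_right (by nlinarith) h0.le
          linarith [hc.1]
        have h7 : X / F.nm y * (1 - d) ≤ X / (P * (1 + d) ^ (j + 1)) := by
          rw [le_div_iff₀ hN0]
          have h8 : X / F.nm y * (1 - d) * (P * (1 + d) ^ (j + 1)) =
              X / F.nm y * ((1 - d) * (P * (1 + d) ^ (j + 1))) := by ring
          rw [h8]
          calc X / F.nm y * ((1 - d) * (P * (1 + d) ^ (j + 1))) ≤ X / F.nm y * F.nm y :=
                mul_le_mul_of_nonneg_left h4 (by positivity)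
            _ = X := by field_simp
        linarith
      have h4 : (X / F.nm y) ^ (1 - F.dl) ≤ d * (X / F.nm y) := by
        have h5 : (0 : ℝ) < X / F.nm y := by linarith
        have h6 : (X / F.nm y) ^ (1 - F.dl) = (X / F.nm y) ^ (-F.dl) * (X / F.nm y) := by
          rw [show (1 - F.dl : ℝ) = -F.dl + 1 by ring, Real.rpow_add h5, Real.rpow_one]
        rw [h6]
        refine mul_le_mul_of_nonneg_right ?_ h5.le
        have h7 : (X / F.nm y) ^ (-F.dl) ≤ P ^ (-F.dl) :=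
          Real.rpow_le_rpow_of_nonpos hP0 hvP (by linarith [F.dl_pos])
        exact h7.trans hPd
      have h5 : κ * (X / F.nm y - X / (P * (1 + d) ^ (j + 1))) ≤ κ * (d * (X / F.nm y)) :=
        mul_le_mul_of_nonneg_left h3 hκ.le
      have h6 : (2 * |C| + κ) * (X / F.nm y) ^ (1 - F.dl) ≤
          (2 * |C| + κ) * (d * (X / F.nm y)) :=
        mul_le_mul_of_nonneg_left h4 (by linarith)
      have h7 : (2 * κ + 2 * |C|) * d * X * (F.nm y : ℝ)⁻¹ =
          κ * (d * (X / F.nm y)) + (2 * |C| + κ) * (d * (X / F.nm y)) := by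
        rw [div_eq_mul_inv]; ring
      rw [h7]
      exact add_le_add h5 h6
    · rw [Finset.sum_eq_zero fun m _ => if_neg (fun h => hn h.2.2)]
      have : (0 : ℝ) ≤ (F.nm y : ℝ)⁻¹ := inv_nonneg.2 hn0.le
      positivity
  · unfold b6chi
    rw [if_neg hc, zero_mul, zero_mul]

/-- the term -/
noncomputable def a13f (F : Sys) (a b : Finset F.P → ℝ) (x y : Finset F.P) : ℝ :=
  if Disjoint x y then a x * b y * (F.jj x y : ℝ) else 0

theorem a13f_le (F : Sys) {a b : Finset F.P → ℝ} (ha : ∀ x, |a x| ≤ 1) (hb : ∀ y, |b y| ≤ 1)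
    (x y : Finset F.P) : |a13f F a b x y| ≤ 1 := by
  unfold a13f
  split_ifs
  · rw [abs_mul, abs_mul, F.abs_jj, mul_one]
    exact mul_le_one₀ (ha x) (abs_nonneg _) (hb y)
  · rw [abs_zero]
    exact zero_le_one

theorem a13f_left (F : Sys) {a b : Finset F.P → ℝ} {x : Finset F.P} (y : Finset F.P)
    (h : a x = 0) : a13f F a b x y = 0 := by
  unfold a13f
  rw [h, zero_mul, zero_mul]
  split_ifs <;> rfl

theorem a13f_right (F : Sys) {a b : Finset F.P → ℝ} (x : Finset F.P) {y : Finset F.P}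
    (h : b y = 0) : a13f F a b x y = 0 := by
  unfold a13f
  rw [h, mul_zero, zero_mul]
  split_ifs <;> rfl

/-- The pointwise difference. -/
theorem a13_point (F : Sys) {P X d : ℝ} (hP : 1 ≤ P) (hd0 : 0 < d) {a b : Finset F.P → ℝ}
    (ha : ∀ x, |a x| ≤ 1) (hb : ∀ y, |b y| ≤ 1) (ha2 : ∀ x, a x ≠ 0 → P < F.nm x)
    (j : ℕ) (x y : Finset F.P) :
    |b6chi P d j (F.nm y) * (if (F.nm x * F.nm y : ℝ) ≤ X then a13f F a b x y else 0) -
      b6chi P d j (F.nm y) * (if (F.nm x : ℝ) ≤ X / (P * (1 + d) ^ (j + 1)) then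
        a13f F a b x y else 0)| ≤
    b6chi P d j (F.nm y) * (if X / (P * (1 + d) ^ (j + 1)) < F.nm x ∧
      (F.nm x : ℝ) ≤ X / F.nm y ∧ (F.nm y : ℝ) ≤ X / P then (1 : ℝ) else 0) := by
  have hP0 : (0 : ℝ) < P := by linarith
  by_cases hc : P * (1 + d) ^ j < F.nm y ∧ (F.nm y : ℝ) ≤ P * (1 + d) ^ (j + 1)
  · rw [← mul_sub, abs_mul, abs_of_nonneg (b6chi_nonneg P d j _)]
    refine mul_le_mul_of_nonneg_left ?_ (b6chi_nonneg P d j _)
    have hn0 : (0 : ℝ) < F.nm y := F.nm_posr y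
    have hN0 : (0 : ℝ) < P * (1 + d) ^ (j + 1) := mul_pos hP0 (pow_pos (by linarith) _)
    have hr : (0 : ℝ) ≤ (if X / (P * (1 + d) ^ (j + 1)) < F.nm x ∧
        (F.nm x : ℝ) ≤ X / F.nm y ∧ (F.nm y : ℝ) ≤ X / P then (1 : ℝ) else 0) := by
      split_ifs
      · exact zero_le_one
      · exact le_rfl
    by_cases h1 : (F.nm x : ℝ) ≤ X / (P * (1 + d) ^ (j + 1))
    · have h2 : (F.nm x * F.nm y : ℝ) ≤ X := by
        have h3 : (F.nm x : ℝ) * (P * (1 + d) ^ (j + 1)) ≤ X := (le_div_iff₀ hN0).1 h1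
        have h4 : (F.nm x : ℝ) * F.nm y ≤ F.nm x * (P * (1 + d) ^ (j + 1)) :=
          mul_le_mul_of_nonneg_left hc.2 (Nat.cast_nonneg _)
        exact h4.trans h3
      rw [if_pos h1, if_pos h2, sub_self, abs_zero]
      exact hr
    · rw [if_neg h1, sub_zero]
      by_cases h2 : (F.nm x * F.nm y : ℝ) ≤ X
      · rw [if_pos h2]
        by_cases h3 : a x = 0
        · rw [a13f_left F y h3, abs_zero]
          exact hr
        · have h4 : P < F.nm x := ha2 x h3
          have h5 : (F.nm x : ℝ) ≤ X / F.nm y := (le_div_iff₀ hn0).2 h2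
          have h6 : (F.nm y : ℝ) ≤ X / P := by
            rw [le_div_iff₀ hP0]
            have h7 : (F.nm y : ℝ) * P ≤ F.nm x * F.nm y := by
              rw [mul_comm]
              exact mul_le_mul_of_nonneg_right h4.le hn0.le
            exact h7.trans h2
          rw [if_pos ⟨not_le.1 h1, h5, h6⟩]
          exact a13f_le F ha hb x y
      · rw [if_neg h2, abs_zero]
        exact hr
  · unfold b6chi
    rw [if_neg hc]
    simp

/-- The sum over one box. -/
theorem a13_box (F : Sys) {C : ℝ} {E : ℕ}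
    (hbox : ∀ (M K P : ℝ) (a b : Finset F.P → ℝ), 1 ≤ P →
      P ≤ M → P ≤ K → (∀ x, |a x| ≤ 1) → (∀ y, |b y| ≤ 1) →
      |∑ x ∈ F.bx M, ∑ y ∈ F.bx K, (if Disjoint x y then a x * b y * (F.jj x y : ℝ) else 0)| ≤
        C * (M * K) * P ^ (-(2 * F.c0)) * (1 + Real.log (M * K)) ^ E)
    {P X d : ℝ} (hP : 1 ≤ P) (hX : 1 ≤ X) (hd0 : 0 < d) {a b : Finset F.P → ℝ}
    (ha : ∀ x, |a x| ≤ 1) (hb : ∀ y, |b y| ≤ 1) (ha2 : ∀ x, a x ≠ 0 → P < F.nm x) (j : ℕ) :
    |∑ x ∈ F.bx X, ∑ y ∈ F.bx X, b6chi P d j (F.nm y) *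
      (if (F.nm x : ℝ) ≤ X / (P * (1 + d) ^ (j + 1)) then a13f F a b x y else 0)| ≤
    |C| * X * P ^ (-(2 * F.c0)) * (1 + Real.log X) ^ E := by
  have hP0 : (0 : ℝ) < P := by linarith
  have hx0 : (0 : ℝ) < X := by linarith
  have hlog : 0 ≤ Real.log X := Real.log_nonneg hX
  have hPp := Real.rpow_nonneg hP0.le (-(2 * F.c0))
  have hrhs : 0 ≤ |C| * X * P ^ (-(2 * F.c0)) * (1 + Real.log X) ^ E := by positivity
  have hK1 : P ≤ P * (1 + d) ^ (j + 1) :=
    le_mul_of_one_le_right hP0.le (one_le_pow₀ (by linarith))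
  have hK0 : (0 : ℝ) < P * (1 + d) ^ (j + 1) := by linarith
  set K : ℝ := P * (1 + d) ^ (j + 1) with hK
  by_cases hPM : P ≤ X / K
  · have hKX : K ≤ X := by
      have h1 : (1 : ℝ) ≤ X / K := hP.trans hPM
      rwa [one_le_div hK0] at h1
    have hMX : X / K ≤ X := div_le_self hx0.le (hP.trans hK1)
    have hS : ∑ x ∈ F.bx X, ∑ y ∈ F.bx X, b6chi P d j (F.nm y) *
        (if (F.nm x : ℝ) ≤ X / K then a13f F a b x y else 0) =
        ∑ x ∈ F.bx (X / K), ∑ y ∈ F.bx K,
          (if Disjoint x y then a x * (b6chi P d j (F.nm y) * b y) * (F.jj x y : ℝ) else 0) := by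
      symm
      rw [← Finset.sum_subset (F.bx_mono hMX)]
      · refine Finset.sum_congr rfl fun x hx => ?_
        rw [F.mem_bx] at hx
        rw [← Finset.sum_subset (F.bx_mono hKX)]
        · refine Finset.sum_congr rfl fun y _ => ?_
          rw [if_pos hx]
          unfold a13f
          split_ifs
          · ring
          · rw [mul_zero]
        · intro y _ hy2
          rw [F.mem_bx] at hy2
          unfold b6chi
          rw [if_neg (fun h => hy2 h.2), zero_mul]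
      · intro x _ hx2
        rw [F.mem_bx] at hx2
        refine Finset.sum_eq_zero fun y _ => ?_
        rw [if_neg hx2, mul_zero]
    rw [hS]
    have hb' : ∀ y, |b6chi P d j (F.nm y) * b y| ≤ 1 := by
      intro y
      rw [abs_mul, abs_of_nonneg (b6chi_nonneg P d j _)]
      refine mul_le_one₀ ?_ (abs_nonneg _) (hb y)
      unfold b6chi
      split_ifs
      · exact le_rfl
      · exact zero_le_one
    refine (hbox (X / K) K P a (fun y => b6chi P d j (F.nm y) * b y) hP hPM hK1 ha hb').trans ?_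
    have hMK : X / K * K = X := by field_simp
    rw [hMK]
    have h1 : 0 ≤ (1 + Real.log X) ^ E := by positivity
    refine mul_le_mul_of_nonneg_right ?_ h1
    refine mul_le_mul_of_nonneg_right ?_ hPp
    exact mul_le_mul_of_nonneg_right (le_abs_self C) hx0.le
  · have h0 : ∑ x ∈ F.bx X, ∑ y ∈ F.bx X, b6chi P d j (F.nm y) *
        (if (F.nm x : ℝ) ≤ X / K then a13f F a b x y else 0) = 0 := by
      refine Finset.sum_eq_zero fun x _ => Finset.sum_eq_zero fun y _ => ?_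
      by_cases hax : a x = 0
      · rw [a13f_left F y hax]
        simp
      · have h3 : ¬ (F.nm x : ℝ) ≤ X / K := fun h => hPM ((ha2 x hax).le.trans h)
        rw [if_neg h3, mul_zero]
    rw [h0, abs_zero]
    exact hrhs

end Pool.Agent.H98.MF
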