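import Pool.Agent.H98.MF.SBilin0

/-!
# Project MK4 (MP_a3214d), row A13: bilinear sums over hyperbolas, main part
-/

set_option autoImplicit false

open scoped BigOperators

namespace Pool.Agent.H98.MF

open Pool.Agent.H98.MK (b6chi b6chi_nonneg b6chi_sum_le b6chi_sum b6_J)

/-- The error of replacing the hyperbola by boxes. -/
theorem a13_E (F : Sys) {κ C : ℝ} (hκ : 0 < κ)
    (hC : ∀ (z : Finset F.P) (t : ℝ), 1 ≤ t →
      |(((F.bx t).filter fun x => Disjoint x z).card : ℝ) -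
        κ * (∏ p ∈ z, (1 + 1 / (F.N p : ℝ))⁻¹) * t| ≤ C * F.hs z * t ^ (1 - F.dl))
    {H : ℝ} (hH : ∀ t : ℝ, 1 ≤ t → ∑ y ∈ F.bx t, (F.nm y : ℝ)⁻¹ ≤ H * (1 + Real.log t))
    {P X d : ℝ} (hP : 1 ≤ P) (hX : 1 ≤ X) (hd0 : 0 < d) (hPd : P ^ (-F.dl) ≤ d)
    {a b : Finset F.P → ℝ}
    (ha : ∀ x, |a x| ≤ 1) (hb : ∀ y, |b y| ≤ 1) (ha2 : ∀ x, a x ≠ 0 → P < F.nm x) (J : ℕ) :
    |∑ x ∈ F.bx X, ∑ y ∈ F.bx X, ∑ j ∈ Finset.range J,
        b6chi P d j (F.nm y) * (if (F.nm x * F.nm y : ℝ) ≤ X then a13f F a b x y else 0) -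
      ∑ x ∈ F.bx X, ∑ y ∈ F.bx X, ∑ j ∈ Finset.range J,
        b6chi P d j (F.nm y) * (if (F.nm x : ℝ) ≤ X / (P * (1 + d) ^ (j + 1)) then
          a13f F a b x y else 0)| ≤
      (2 * κ + 2 * |C|) * d * X * (H * (1 + Real.log X)) := by
  have hX0 : (0 : ℝ) < X := by linarith
  have hP0 : (0 : ℝ) < P := by linarith
  have hCa : 0 ≤ |C| := abs_nonneg C
  rw [← Finset.sum_sub_distrib]
  refine (Finset.abs_sum_le_sum_abs _ _).trans ?_
  have h1 : ∀ x ∈ F.bx X,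
      |∑ y ∈ F.bx X, ∑ j ∈ Finset.range J,
        b6chi P d j (F.nm y) * (if (F.nm x * F.nm y : ℝ) ≤ X then a13f F a b x y else 0) -
      ∑ y ∈ F.bx X, ∑ j ∈ Finset.range J,
        b6chi P d j (F.nm y) * (if (F.nm x : ℝ) ≤ X / (P * (1 + d) ^ (j + 1)) then
          a13f F a b x y else 0)| ≤
      ∑ y ∈ F.bx X, ∑ j ∈ Finset.range J,
        b6chi P d j (F.nm y) * (if X / (P * (1 + d) ^ (j + 1)) < F.nm x ∧
          (F.nm x : ℝ) ≤ X / F.nm y ∧ (F.nm y : ℝ) ≤ X / P then (1 : ℝ) else 0) := by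
    intro x _
    rw [← Finset.sum_sub_distrib]
    refine (Finset.abs_sum_le_sum_abs _ _).trans (Finset.sum_le_sum fun y _ => ?_)
    rw [← Finset.sum_sub_distrib]
    refine (Finset.abs_sum_le_sum_abs _ _).trans (Finset.sum_le_sum fun j _ => ?_)
    exact a13_point F hP hd0 ha hb ha2 j x y
  refine (Finset.sum_le_sum h1).trans ?_
  rw [Finset.sum_comm]
  have h2 : ∀ y ∈ F.bx X, ∑ x ∈ F.bx X, ∑ j ∈ Finset.range J,
        b6chi P d j (F.nm y) * (if X / (P * (1 + d) ^ (j + 1)) < F.nm x ∧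
          (F.nm x : ℝ) ≤ X / F.nm y ∧ (F.nm y : ℝ) ≤ X / P then (1 : ℝ) else 0) ≤
      (2 * κ + 2 * |C|) * d * X * (F.nm y : ℝ)⁻¹ := by
    intro y _
    rw [Finset.sum_comm]
    have h3 : ∀ j ∈ Finset.range J, ∑ x ∈ F.bx X,
        b6chi P d j (F.nm y) * (if X / (P * (1 + d) ^ (j + 1)) < F.nm x ∧
          (F.nm x : ℝ) ≤ X / F.nm y ∧ (F.nm y : ℝ) ≤ X / P then (1 : ℝ) else 0) ≤
        b6chi P d j (F.nm y) * ((2 * κ + 2 * |C|) * d * X * (F.nm y : ℝ)⁻¹) := by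
      intro j _
      rw [← Finset.mul_sum]
      exact a13_err F hκ hC X hP hX0 hd0 hPd j y
    refine (Finset.sum_le_sum h3).trans ?_
    rw [← Finset.sum_mul]
    have h4 : (0 : ℝ) ≤ (2 * κ + 2 * |C|) * d * X * (F.nm y : ℝ)⁻¹ := by
      have := inv_nonneg.2 (F.nm_posr y).le
      positivity
    exact mul_le_of_le_one_left h4 (b6chi_sum_le hP0 hd0.le J _)
  refine (Finset.sum_le_sum h2).trans ?_
  rw [← Finset.mul_sum]
  exact mul_le_mul_of_nonneg_left (hH X hX) (by positivity)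

/-- The bilinear bound, from the bound for boxes. -/
theorem bilin_of (F : Sys)
    (hcnt : ∃ κ C : ℝ, 0 < κ ∧ ∀ (z : Finset F.P) (t : ℝ), 1 ≤ t →
      |(((F.bx t).filter fun x => Disjoint x z).card : ℝ) -
        κ * (∏ p ∈ z, (1 + 1 / (F.N p : ℝ))⁻¹) * t| ≤ C * F.hs z * t ^ (1 - F.dl))
    (hharm : ∃ H : ℝ, ∀ t : ℝ, 1 ≤ t → ∑ y ∈ F.bx t, (F.nm y : ℝ)⁻¹ ≤ H * (1 + Real.log t))
    (hbx : ∃ (C : ℝ) (E : ℕ), ∀ (M K P : ℝ) (a b : Finset F.P → ℝ), 1 ≤ P →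
      P ≤ M → P ≤ K → (∀ x, |a x| ≤ 1) → (∀ y, |b y| ≤ 1) →
      |∑ x ∈ F.bx M, ∑ y ∈ F.bx K, (if Disjoint x y then a x * b y * (F.jj x y : ℝ) else 0)| ≤
        C * (M * K) * P ^ (-(2 * F.c0)) * (1 + Real.log (M * K)) ^ E) :
    ∃ (C : ℝ) (E : ℕ), ∀ (P X : ℝ) (a b : Finset F.P → ℝ), 1 ≤ P →
    1 ≤ X → (∀ x, |a x| ≤ 1) → (∀ y, |b y| ≤ 1) → (∀ x, a x ≠ 0 → P < F.nm x) →
    (∀ y, b y ≠ 0 → P < F.nm y) →
    |∑ x ∈ F.bx X, ∑ y ∈ F.bx X, (if Disjoint x y ∧ (F.nm x * F.nm y : ℝ) ≤ X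
      then a x * b y * (F.jj x y : ℝ) else 0)| ≤
      C * X * P ^ (-F.c0) * (1 + Real.log X) ^ E := by
  obtain ⟨κ, C1, hκ, hC1⟩ := hcnt
  obtain ⟨H0, hH0⟩ := hharm
  obtain ⟨C, E, hbox⟩ := hbx
  -- make the constants nonnegative
  obtain ⟨H, hHp, hH⟩ : ∃ H : ℝ, 0 ≤ H ∧ ∀ t : ℝ, 1 ≤ t →
      ∑ y ∈ F.bx t, (F.nm y : ℝ)⁻¹ ≤ H * (1 + Real.log t) := by
    refine ⟨|H0|, abs_nonneg _, fun t ht => (hH0 t ht).trans ?_⟩
    exact mul_le_mul_of_nonneg_right (le_abs_self _) (by linarith [Real.log_nonneg ht])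
  refine ⟨2 * |C| + (2 * κ + 2 * |C1|) * H, E + 1, fun P X a b hP hX ha hb ha2 hb2 => ?_⟩
  have hP0 : (0 : ℝ) < P := by linarith
  have hX0 : (0 : ℝ) < X := by linarith
  have hlog : 0 ≤ Real.log X := Real.log_nonneg hX
  have hCa : 0 ≤ |C| := abs_nonneg C
  have hCa1 : 0 ≤ |C1| := abs_nonneg C1
  obtain ⟨d, hd⟩ : ∃ d : ℝ, d = P ^ (-F.c0) := ⟨_, rfl⟩
  have hd0 : 0 < d := hd ▸ Real.rpow_pos_of_pos hP0 _
  have hd1 : d ≤ 1 := hd ▸ Real.rpow_le_one_of_one_le_of_nonpos hP (by linarith [F.c0_pos])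
  obtain ⟨J, hJ⟩ : ∃ J : ℕ, J = ⌈2 / d * Real.log X⌉₊ := ⟨_, rfl⟩
  have hJ1 : X ≤ P * (1 + d) ^ J := hJ ▸ b6_J hP hX hd0 hd1
  have hJ2 : (J : ℝ) ≤ 2 / d * (1 + Real.log X) := by
    have h1 : (J : ℝ) < 2 / d * Real.log X + 1 := hJ ▸ Nat.ceil_lt_add_one (by positivity)
    have h2 : (1 : ℝ) ≤ 2 / d := by
      rw [le_div_iff₀ hd0]
      linarith
    linarith
  have hd2 : P ^ (-(2 * F.c0)) = d * d := by
    rw [hd, ← Real.rpow_add hP0]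
    congr 1
    ring
  have hPd : P ^ (-F.dl) ≤ d := by
    rw [hd]
    refine Real.rpow_le_rpow_of_exponent_le hP ?_
    linarith [F.c0_le_dl, F.dl_pos]
  -- the sum over the boxes
  have hS : ∑ x ∈ F.bx X, ∑ y ∈ F.bx X, (if Disjoint x y ∧ (F.nm x * F.nm y : ℝ) ≤ X
      then a x * b y * (F.jj x y : ℝ) else 0) =
      ∑ x ∈ F.bx X, ∑ y ∈ F.bx X, ∑ j ∈ Finset.range J,
        b6chi P d j (F.nm y) * (if (F.nm x * F.nm y : ℝ) ≤ X then a13f F a b x y else 0) := by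
    refine Finset.sum_congr rfl fun x _ => Finset.sum_congr rfl fun y hy => ?_
    rw [← Finset.sum_mul]
    have h0 : (if Disjoint x y ∧ (F.nm x * F.nm y : ℝ) ≤ X
        then a x * b y * (F.jj x y : ℝ) else 0) =
        (if (F.nm x * F.nm y : ℝ) ≤ X then a13f F a b x y else 0) := by
      unfold a13f
      by_cases h1 : (F.nm x * F.nm y : ℝ) ≤ X
      · by_cases h2 : Disjoint x y
        · rw [if_pos ⟨h2, h1⟩, if_pos h1, if_pos h2]
        · rw [if_neg (fun h => h2 h.1), if_pos h1, if_neg h2]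
      · rw [if_neg (fun h => h1 h.2), if_neg h1]
    rw [h0]
    by_cases hby : b y = 0
    · rw [a13f_right F x hby]
      simp
    · have hnx : (F.nm y : ℝ) ≤ X := F.mem_bx.1 hy
      rw [b6chi_sum hP0 hd0.le (hb2 y hby) (hnx.trans hJ1), one_mul]
  have hT : ∑ x ∈ F.bx X, ∑ y ∈ F.bx X, ∑ j ∈ Finset.range J,
      b6chi P d j (F.nm y) * (if (F.nm x : ℝ) ≤ X / (P * (1 + d) ^ (j + 1)) then
        a13f F a b x y else 0) =
      ∑ j ∈ Finset.range J, ∑ x ∈ F.bx X, ∑ y ∈ F.bx X,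
        b6chi P d j (F.nm y) * (if (F.nm x : ℝ) ≤ X / (P * (1 + d) ^ (j + 1)) then
          a13f F a b x y else 0) := by
    symm
    rw [Finset.sum_comm]
    refine Finset.sum_congr rfl fun x _ => ?_
    rw [Finset.sum_comm]
  have hB : |∑ j ∈ Finset.range J, ∑ x ∈ F.bx X, ∑ y ∈ F.bx X,
      b6chi P d j (F.nm y) * (if (F.nm x : ℝ) ≤ X / (P * (1 + d) ^ (j + 1)) then
        a13f F a b x y else 0)| ≤ 2 * |C| * X * d * (1 + Real.log X) ^ (E + 1) := by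
    refine (Finset.abs_sum_le_sum_abs _ _).trans ?_
    refine (Finset.sum_le_sum fun j _ => a13_box F hbox hP hX hd0 ha hb ha2 j).trans ?_
    rw [Finset.sum_const, Finset.card_range, nsmul_eq_mul, hd2]
    have h1 : (J : ℝ) * (|C| * X * (d * d) * (1 + Real.log X) ^ E) ≤
        2 / d * (1 + Real.log X) * (|C| * X * (d * d) * (1 + Real.log X) ^ E) :=
      mul_le_mul_of_nonneg_right hJ2 (by positivity)
    refine h1.trans (le_of_eq ?_)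
    rw [pow_succ]
    field_simp
  have hE := a13_E F hκ hC1 hH hP hX hd0 hPd ha hb ha2 J (b := b)
  rw [hS]
  rw [hT] at hE
  have h5 := abs_sub_abs_le_abs_sub
    (∑ x ∈ F.bx X, ∑ y ∈ F.bx X, ∑ j ∈ Finset.range J,
      b6chi P d j (F.nm y) * (if (F.nm x * F.nm y : ℝ) ≤ X then a13f F a b x y else 0))
    (∑ j ∈ Finset.range J, ∑ x ∈ F.bx X, ∑ y ∈ F.bx X,
      b6chi P d j (F.nm y) * (if (F.nm x : ℝ) ≤ X / (P * (1 + d) ^ (j + 1)) then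
        a13f F a b x y else 0))
  rw [← hd]
  have h6 : (2 * κ + 2 * |C1|) * d * X * (H * (1 + Real.log X)) ≤
      (2 * κ + 2 * |C1|) * H * X * d * (1 + Real.log X) ^ (E + 1) := by
    have h7 : (1 + Real.log X) ≤ (1 + Real.log X) ^ (E + 1) :=
      le_self_pow₀ (by linarith) (by omega)
    have h8 : 0 ≤ (2 * κ + 2 * |C1|) * H * X * d := by positivity
    calc (2 * κ + 2 * |C1|) * d * X * (H * (1 + Real.log X)) =
        (2 * κ + 2 * |C1|) * H * X * d * (1 + Real.log X) := by ring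
      _ ≤ _ := mul_le_mul_of_nonneg_left h7 h8
  have h9 : (2 * |C| + (2 * κ + 2 * |C1|) * H) * X * d * (1 + Real.log X) ^ (E + 1) =
      2 * |C| * X * d * (1 + Real.log X) ^ (E + 1) +
        (2 * κ + 2 * |C1|) * H * X * d * (1 + Real.log X) ^ (E + 1) := by ring
  rw [h9]
  linarith

end Pool.Agent.H98.MF
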