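import Pool.Agent.H98.MF.SBox0

/-!
# Project MK4 (MP_a3214d), row A11: bilinear sums over boxes, the estimate
-/

set_option autoImplicit false

open scoped BigOperators
open Filter

namespace Pool.Agent.H98.MF

open Pool.Agent.H98.MK (sg)
open Pool.Agent.H98.ML (Dt Ext Wt)

open Classical in
/-- the moment of order `k` of the inner sums -/
theorem a11_moment (F : Sys) (k : ℕ) (hk : 2 * F.A + 1 ≤ k * F.dl)
    (C1 : ℝ) (E1 : ℕ) (hpairs : ∀ M : ℝ, 1 ≤ M →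
      ((((Fintype.piFinset fun _ : Fin k => F.bx M) ×ˢ
        (Fintype.piFinset fun _ : Fin k => F.bx M)).filter
        fun z => ∑ i, F.idf (z.1 i) = ∑ i, F.idf (z.2 i)).card : ℝ) ≤
        C1 * M ^ k * (1 + Real.log M) ^ E1)
    (C2 : ℝ) (hsieve : ∀ (X K : ℝ) (b : Finset F.P → ℝ), 1 ≤ X → 1 ≤ K →
      (∀ y, |b y| ≤ 1) →
      ∑ f ∈ F.idl X, (∑ y ∈ F.bx K, b y * (F.chv y (F.ex y 0) f : ℝ)) ^ 2 ≤
        C2 * (X * K + K ^ (2 * F.A + 2) * X ^ (1 - F.dl)))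
    (M K : ℝ) (a : Finset F.P → ℝ) (hK : 1 ≤ K) (hKM : K ≤ M) (ha : ∀ x, |a x| ≤ 1) :
    (∑ y ∈ F.bx K, |∑ x ∈ F.bx M, a x * (F.chv y (F.ex y 0) (F.idf x) : ℝ)| ^ k) ^ 2 ≤
      (|C1| * (2 * |C2|)) * (M ^ (2 * k) * K * (1 + Real.log M) ^ E1) := by
  have hM : 1 ≤ M := hK.trans hKM
  have hM0 : 0 < M := by linarith
  have hK0 : 0 < K := by linarith
  have hlog : 0 ≤ Real.log M := Real.log_nonneg hM
  set g : Finset F.P → ℝ := fun y =>
    ∑ x ∈ F.bx M, a x * (F.chv y (F.ex y 0) (F.idf x) : ℝ) with hg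
  set b : Finset F.P → ℝ := fun y => if 0 ≤ g y ^ k then 1 else -1 with hb
  have hb1 : ∀ y, |b y| ≤ 1 := by
    intro y
    simp only [hb]
    split_ifs <;> simp
  have hbg : ∀ y, |g y| ^ k = b y * g y ^ k := by
    intro y
    rw [← abs_pow]
    simp only [hb]
    split_ifs with h
    · rw [one_mul, abs_of_nonneg h]
    · rw [neg_one_mul, abs_of_neg (not_le.1 h)]
  have h1 : ∑ y ∈ F.bx K, |g y| ^ k =
      ∑ f ∈ F.idl (M ^ k), a11_A F k M a f *
        ∑ y ∈ F.bx K, b y * (F.chv y (F.ex y 0) f : ℝ) := by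
    have h2 : ∀ y, |g y| ^ k = ∑ f ∈ F.idl (M ^ k),
        a11_A F k M a f * (b y * (F.chv y (F.ex y 0) f : ℝ)) := by
      intro y
      rw [hbg, hg]
      simp only
      rw [a11_pow, Finset.mul_sum]
      exact Finset.sum_congr rfl fun f _ => by ring
    rw [Finset.sum_congr rfl fun y _ => h2 y, Finset.sum_comm]
    exact Finset.sum_congr rfl fun f _ => (Finset.mul_sum _ _ _).symm
  have h2 : ∑ f ∈ F.idl (M ^ k), a11_A F k M a f ^ 2 ≤ |C1| * M ^ k * (1 + Real.log M) ^ E1 := by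
    have h3 : ∑ f ∈ F.idl (M ^ k), a11_A F k M a f ^ 2 ≤ C1 * M ^ k * (1 + Real.log M) ^ E1 := by
      refine le_trans ?_ (hpairs M hM)
      rw [a11_pairs F k M]
      refine Finset.sum_le_sum fun f _ => ?_
      rw [← sq_abs]
      exact pow_le_pow_left₀ (abs_nonneg _) (a11_abs F k M a ha f) 2
    refine h3.trans ?_
    have h4 : 0 ≤ M ^ k * (1 + Real.log M) ^ E1 := by positivity
    have h5 := mul_le_mul_of_nonneg_right (le_abs_self C1) h4
    linarith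
  have h3 : ∑ f ∈ F.idl (M ^ k), (∑ y ∈ F.bx K, b y * (F.chv y (F.ex y 0) f : ℝ)) ^ 2 ≤
      2 * |C2| * (M ^ k * K) := by
    refine (hsieve (M ^ k) K b (one_le_pow₀ hM) hK hb1).trans ?_
    have h4 : K ^ (2 * F.A + 2) * (M ^ k) ^ (1 - F.dl) ≤ M ^ k * K := by
      have e1 : K ^ (2 * F.A + 2) = K * K ^ (2 * F.A + 1) := by
        rw [show 2 * F.A + 2 = 1 + (2 * F.A + 1) by ring, Real.rpow_add hK0, Real.rpow_one]
      have e2 : (M ^ k : ℝ) ^ (1 - F.dl) = M ^ k * M ^ (-(k * F.dl)) := by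
        rw [sub_eq_add_neg, Real.rpow_add (by positivity), Real.rpow_one]
        congr 1
        rw [← Real.rpow_natCast, ← Real.rpow_mul hM0.le]
        congr 1
        ring
      have e3 : K ^ (2 * F.A + 1) ≤ M ^ (k * F.dl) := by
        refine (Real.rpow_le_rpow hK0.le hKM (by linarith [F.A_nonneg])).trans ?_
        exact Real.rpow_le_rpow_of_exponent_le hM hk
      have e4 : M ^ (k * F.dl) * M ^ (-(k * F.dl)) = 1 := by
        rw [← Real.rpow_add hM0, add_neg_cancel, Real.rpow_zero]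
      have e5 : 0 ≤ M ^ (-(k * F.dl)) := Real.rpow_nonneg hM0.le _
      rw [e1, e2]
      calc K * K ^ (2 * F.A + 1) * (M ^ k * M ^ (-(k * F.dl)))
          = M ^ k * K * (K ^ (2 * F.A + 1) * M ^ (-(k * F.dl))) := by ring
        _ ≤ M ^ k * K * (M ^ (k * F.dl) * M ^ (-(k * F.dl))) := by
          refine mul_le_mul_of_nonneg_left ?_ (by positivity)
          exact mul_le_mul_of_nonneg_right e3 e5
        _ = M ^ k * K := by rw [e4, mul_one]
    have h5 : 0 ≤ M ^ k * K + K ^ (2 * F.A + 2) * (M ^ k) ^ (1 - F.dl) := by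
      have := Real.rpow_nonneg hK0.le (2 * F.A + 2)
      have h6 : 0 ≤ (M ^ k : ℝ) ^ (1 - F.dl) := Real.rpow_nonneg (by positivity) _
      positivity
    calc C2 * (M ^ k * K + K ^ (2 * F.A + 2) * (M ^ k) ^ (1 - F.dl))
        ≤ |C2| * (M ^ k * K + K ^ (2 * F.A + 2) * (M ^ k) ^ (1 - F.dl)) :=
          mul_le_mul_of_nonneg_right (le_abs_self C2) h5
      _ ≤ |C2| * (M ^ k * K + M ^ k * K) :=
          mul_le_mul_of_nonneg_left (by linarith) (abs_nonneg _)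
      _ = 2 * |C2| * (M ^ k * K) := by ring
  rw [h1]
  refine (Finset.sum_mul_sq_le_sq_mul_sq _ _ _).trans ?_
  calc (∑ f ∈ F.idl (M ^ k), a11_A F k M a f ^ 2) *
        ∑ f ∈ F.idl (M ^ k), (∑ y ∈ F.bx K, b y * (F.chv y (F.ex y 0) f : ℝ)) ^ 2
      ≤ (|C1| * M ^ k * (1 + Real.log M) ^ E1) * (2 * |C2| * (M ^ k * K)) := by
        refine mul_le_mul h2 h3 (Finset.sum_nonneg fun f _ => sq_nonneg _) ?_
        have := abs_nonneg C1
        positivity
    _ = _ := by rw [two_mul k, pow_add]; ring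

theorem box_of (F : Sys)
    (hcard : ∃ C : ℝ, ∀ t : ℝ, 1 ≤ t → ((F.bx t).card : ℝ) ≤ C * t)
    (hmom : ∃ (C : ℝ) (E : ℕ), 0 ≤ C ∧ ∀ (M K : ℝ) (a : Finset F.P → ℝ), 1 ≤ K → K ≤ M →
      (∀ x, |a x| ≤ 1) →
      (∑ y ∈ F.bx K, |∑ x ∈ F.bx M, a x * (F.chv y (F.ex y 0) (F.idf x) : ℝ)| ^ F.kk) ^ 2 ≤
        C * (M ^ (2 * F.kk) * K * (1 + Real.log M) ^ E)) :
    ∃ (C : ℝ) (E : ℕ), ∀ (M K : ℝ) (a b : Finset F.P → ℝ), 1 ≤ K → K ≤ M →
    (∀ x, |a x| ≤ 1) → (∀ y, |b y| ≤ 1) →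
    |∑ x ∈ F.bx M, ∑ y ∈ F.bx K, (if Disjoint x y then a x * b y * (F.jj x y : ℝ) else 0)| ≤
      C * M * K ^ (1 - 2 * F.c0) * (1 + Real.log M) ^ E := by
  obtain ⟨C3, h3⟩ := hcard
  obtain ⟨D, E, hD, hm⟩ := hmom
  obtain ⟨j, hj⟩ : ∃ j, F.kk = j + 1 := ⟨F.kk - 1, by have := F.four_le_kk; omega⟩
  set B : ℝ := (|C3| ^ j) ^ 2 * D with hB
  have hB0 : 0 ≤ B := by positivity
  refine ⟨1 + B, E, fun M K a b hK hKM ha hb => ?_⟩
  have hM : 1 ≤ M := hK.trans hKM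
  have hM0 : 0 < M := by linarith
  have hK0 : 0 < K := by linarith
  have hlog : 0 ≤ Real.log M := Real.log_nonneg hM
  set g : Finset F.P → ℝ := fun y =>
    ∑ x ∈ F.bx M, a x * (F.chv y (F.ex y 0) (F.idf x) : ℝ) with hg
  -- the sum over `y`
  have h1 : |∑ x ∈ F.bx M, ∑ y ∈ F.bx K,
      (if Disjoint x y then a x * b y * (F.jj x y : ℝ) else 0)| ≤ ∑ y ∈ F.bx K, |g y| := by
    rw [Finset.sum_comm]
    refine (Finset.abs_sum_le_sum_abs _ _).trans (Finset.sum_le_sum fun y _ => ?_)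
    have h2 : ∑ x ∈ F.bx M, (if Disjoint x y then a x * b y * (F.jj x y : ℝ) else 0) =
        b y * g y := by
      rw [hg]
      simp only
      rw [Finset.mul_sum]
      refine Finset.sum_congr rfl fun x _ => ?_
      rw [a11_chv_idf]
      split_ifs
      · ring
      · simp
    rw [h2, abs_mul]
    exact mul_le_of_le_one_left (abs_nonneg _) (hb y)
  refine h1.trans ?_
  have hs0 : 0 ≤ ∑ y ∈ F.bx K, |g y| := Finset.sum_nonneg fun y _ => abs_nonneg _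
  -- power mean
  have h4 : (∑ y ∈ F.bx K, |g y|) ^ (j + 1) ≤
      (|C3| * K) ^ j * ∑ y ∈ F.bx K, |g y| ^ (j + 1) := by
    refine (pow_sum_le_card_mul_sum_pow (fun y _ => abs_nonneg (g y)) j).trans ?_
    refine mul_le_mul_of_nonneg_right (pow_le_pow_left₀ (Nat.cast_nonneg _) ?_ j)
      (Finset.sum_nonneg fun y _ => pow_nonneg (abs_nonneg _) _)
    exact (h3 K hK).trans (mul_le_mul_of_nonneg_right (le_abs_self _) hK0.le)
  have h5 := hm M K a hK hKM ha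
  rw [hj] at h5
  have h6 : (∑ y ∈ F.bx K, |g y|) ^ (2 * (j + 1)) ≤
      B * (M ^ (2 * (j + 1)) * K ^ (2 * j + 1) * (1 + Real.log M) ^ E) := by
    have e1 : (∑ y ∈ F.bx K, |g y|) ^ (2 * (j + 1)) =
        ((∑ y ∈ F.bx K, |g y|) ^ (j + 1)) ^ 2 := by
      rw [← pow_mul, mul_comm]
    rw [e1]
    calc ((∑ y ∈ F.bx K, |g y|) ^ (j + 1)) ^ 2
        ≤ ((|C3| * K) ^ j * ∑ y ∈ F.bx K, |g y| ^ (j + 1)) ^ 2 :=
          pow_le_pow_left₀ (pow_nonneg hs0 _) h4 2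
      _ = ((|C3| * K) ^ j) ^ 2 * (∑ y ∈ F.bx K, |g y| ^ (j + 1)) ^ 2 := by ring
      _ ≤ ((|C3| * K) ^ j) ^ 2 *
          (D * (M ^ (2 * (j + 1)) * K * (1 + Real.log M) ^ E)) :=
          mul_le_mul_of_nonneg_left h5 (sq_nonneg _)
      _ = _ := by rw [hB, mul_pow]; ring
  have h7 : (∑ y ∈ F.bx K, |g y|) ^ (2 * (j + 1)) ≤
      ((1 + B) * M * K ^ (1 - 2 * F.c0) * (1 + Real.log M) ^ E) ^ (2 * (j + 1)) := by
    refine h6.trans ?_
    have e1 : (K ^ (1 - 2 * F.c0)) ^ (2 * (j + 1)) = K ^ (2 * j + 1) := by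
      rw [← Real.rpow_natCast, ← Real.rpow_mul hK0.le, ← Real.rpow_natCast]
      congr 1
      have e2 : (F.kk : ℝ) = j + 1 := by rw [hj]; push_cast; ring
      have e3 : (0 : ℝ) < (j : ℝ) + 1 := by positivity
      unfold Sys.c0
      rw [e2]
      push_cast
      field_simp
      ring
    have e2 : B ≤ (1 + B) ^ (2 * (j + 1)) := by
      have e3 : 1 + B ≤ (1 + B) ^ (2 * (j + 1)) := le_self_pow₀ (by linarith) (by omega)
      linarith
    have e4 : (1 + Real.log M) ^ E ≤ ((1 + Real.log M) ^ E) ^ (2 * (j + 1)) :=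
      le_self_pow₀ (one_le_pow₀ (by linarith)) (by omega)
    rw [mul_pow, mul_pow, mul_pow, e1]
    calc B * (M ^ (2 * (j + 1)) * K ^ (2 * j + 1) * (1 + Real.log M) ^ E)
        ≤ (1 + B) ^ (2 * (j + 1)) * (M ^ (2 * (j + 1)) * K ^ (2 * j + 1) *
            ((1 + Real.log M) ^ E) ^ (2 * (j + 1))) := by
          refine mul_le_mul e2 ?_ (by positivity) (by positivity)
          exact mul_le_mul_of_nonneg_left e4 (by positivity)
      _ = _ := by ring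
  by_contra hcon
  push Not at hcon
  refine absurd h7 (not_le.2 (pow_lt_pow_left₀ hcon ?_ (by omega)))
  have := Real.rpow_nonneg hK0.le (1 - 2 * F.c0)
  positivity

end Pool.Agent.H98.MF
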