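import Pool.Agent.H98.MF.SBase

/-!
# Project MK4 (MP_a3214d), row A12: bilinear bound for boxes, symmetric form
-/

set_option autoImplicit false

open scoped BigOperators
open Filter

namespace Pool.Agent.H98.MF

open Pool.Agent.H98.MK (sg)
open Pool.Agent.H98.ML (Dt Ext Wt)

/-- from the exponent `1 - 2 c` to the saving `P ^ (- 2 c)` -/
theorem a12_save {C M K P c : ℝ} (E : ℕ) (hC : 0 ≤ C) (hc : 0 ≤ c) (hP : 1 ≤ P) (hM : P ≤ M)
    (hK : P ≤ K) :
    C * M * K ^ (1 - 2 * c) * (1 + Real.log M) ^ E ≤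
      C * (M * K) * P ^ (-(2 * c)) * (1 + Real.log (M * K)) ^ E := by
  have hM1 : 1 ≤ M := hP.trans hM
  have hK1 : 1 ≤ K := hP.trans hK
  have hK0 : 0 < K := by linarith
  have h1 : K ^ (1 - 2 * c) = K * K ^ (-(2 * c)) := by
    rw [sub_eq_add_neg, Real.rpow_add hK0, Real.rpow_one]
  have h2 : K ^ (-(2 * c)) ≤ P ^ (-(2 * c)) :=
    Real.rpow_le_rpow_of_nonpos (by linarith) hK (by linarith)
  have h3 : 0 ≤ K ^ (-(2 * c)) := Real.rpow_nonneg hK0.le _
  have h4 : Real.log M ≤ Real.log (M * K) :=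
    Real.log_le_log (by linarith) (by nlinarith)
  have h5 : 0 ≤ Real.log M := Real.log_nonneg hM1
  have h6 : (1 + Real.log M) ^ E ≤ (1 + Real.log (M * K)) ^ E :=
    pow_le_pow_left₀ (by linarith) (by linarith) E
  have h7 : 0 ≤ (1 + Real.log M) ^ E := pow_nonneg (by linarith) E
  have h8 : 0 ≤ C * (M * K) := mul_nonneg hC (mul_nonneg (by linarith) hK0.le)
  rw [h1]
  calc C * M * (K * K ^ (-(2 * c))) * (1 + Real.log M) ^ E
      = C * (M * K) * K ^ (-(2 * c)) * (1 + Real.log M) ^ E := by ring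
    _ ≤ _ := by
      refine mul_le_mul (mul_le_mul_of_nonneg_left h2 h8) h6 h7 ?_
      exact mul_nonneg h8 (h3.trans h2)

theorem box_sym_of (F : Sys)
    (hbox : ∃ (C : ℝ) (E : ℕ), ∀ (M K : ℝ) (a b : Finset F.P → ℝ), 1 ≤ K → K ≤ M →
      (∀ x, |a x| ≤ 1) → (∀ y, |b y| ≤ 1) →
      |∑ x ∈ F.bx M, ∑ y ∈ F.bx K, (if Disjoint x y then a x * b y * (F.jj x y : ℝ) else 0)| ≤
        C * M * K ^ (1 - 2 * F.c0) * (1 + Real.log M) ^ E) :
    ∃ (C : ℝ) (E : ℕ), ∀ (M K P : ℝ) (a b : Finset F.P → ℝ), 1 ≤ P →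
    P ≤ M → P ≤ K → (∀ x, |a x| ≤ 1) → (∀ y, |b y| ≤ 1) →
    |∑ x ∈ F.bx M, ∑ y ∈ F.bx K, (if Disjoint x y then a x * b y * (F.jj x y : ℝ) else 0)| ≤
      C * (M * K) * P ^ (-(2 * F.c0)) * (1 + Real.log (M * K)) ^ E := by
  obtain ⟨C0, E, h0⟩ := hbox
  have hc0 := F.c0_pos.le
  -- a nonnegative constant
  have hb : ∀ (M K P : ℝ) (a b : Finset F.P → ℝ), 1 ≤ P → P ≤ M → P ≤ K → K ≤ M →
      (∀ x, |a x| ≤ 1) → (∀ y, |b y| ≤ 1) →
      |∑ x ∈ F.bx M, ∑ y ∈ F.bx K, (if Disjoint x y then a x * b y * (F.jj x y : ℝ) else 0)| ≤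
        |C0| * (M * K) * P ^ (-(2 * F.c0)) * (1 + Real.log (M * K)) ^ E := by
    intro M K P a b hP hM hK hKM ha hb
    have hK1 : 1 ≤ K := hP.trans hK
    have hM1 : 1 ≤ M := hP.trans hM
    refine (h0 M K a b hK1 hKM ha hb).trans (le_trans ?_ (a12_save E (abs_nonneg C0) hc0 hP hM hK))
    have h1 : 0 ≤ M * (K ^ (1 - 2 * F.c0) * (1 + Real.log M) ^ E) := by
      have h5 : 0 ≤ Real.log M := Real.log_nonneg hM1
      have h6 : 0 ≤ K ^ (1 - 2 * F.c0) := Real.rpow_nonneg (by linarith) _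
      positivity
    have h2 := mul_le_mul_of_nonneg_right (le_abs_self C0) h1
    linarith
  refine ⟨3 * |C0|, E, fun M K P a b hP hM hK ha hb' => ?_⟩
  have hM1 : 1 ≤ M := hP.trans hM
  have hK1 : 1 ≤ K := hP.trans hK
  have hpos : 0 ≤ |C0| * (M * K) * P ^ (-(2 * F.c0)) * (1 + Real.log (M * K)) ^ E := by
    have h5 : 0 ≤ Real.log (M * K) := Real.log_nonneg (by nlinarith)
    have h6 : 0 ≤ P ^ (-(2 * F.c0)) := Real.rpow_nonneg (by linarith) _
    have h7 : 0 ≤ M * K := by nlinarith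
    have h8 := abs_nonneg C0
    positivity
  rcases le_or_gt K M with h | h
  · refine (hb M K P a b hP hM hK h ha hb').trans ?_
    linarith
  · -- reciprocity
    set a1 : Finset F.P → ℝ := fun x => if F.l ⬝ᵥ F.tys x = 1 then a x else 0 with ha1
    set b1 : Finset F.P → ℝ := fun y => if F.l ⬝ᵥ F.tys y = 1 then b y else 0 with hb1
    have hterm : ∀ x y : Finset F.P,
        (if Disjoint x y then a x * b y * (F.jj x y : ℝ) else 0) =
          (if Disjoint y x then b y * a x * (F.jj y x : ℝ) else 0) -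
            2 * (if Disjoint y x then b1 y * a1 x * (F.jj y x : ℝ) else 0) := by
      intro x y
      by_cases hd : Disjoint x y
      · rw [if_pos hd, if_pos hd.symm, if_pos hd.symm, F.jj_recip hd, sg_mul]
        by_cases hx : F.l ⬝ᵥ F.tys x = 1
        · by_cases hy : F.l ⬝ᵥ F.tys y = 1
          · simp only [ha1, hb1, hx, hy, if_true]
            push_cast
            ring
          · simp only [ha1, hb1, hx, hy, if_true, if_false]
            push_cast
            ring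
        · simp only [ha1, hx, if_false]
          push_cast
          ring
      · rw [if_neg hd, if_neg (fun h => hd h.symm), if_neg (fun h => hd h.symm)]
        ring
    have ha1' : ∀ x, |a1 x| ≤ 1 := by
      intro x
      simp only [ha1]
      split_ifs
      · exact ha x
      · simp
    have hb1' : ∀ y, |b1 y| ≤ 1 := by
      intro y
      simp only [hb1]
      split_ifs
      · exact hb' y
      · simp
    have hsum : ∑ x ∈ F.bx M, ∑ y ∈ F.bx K,
        (if Disjoint x y then a x * b y * (F.jj x y : ℝ) else 0) =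
        (∑ y ∈ F.bx K, ∑ x ∈ F.bx M, if Disjoint y x then b y * a x * (F.jj y x : ℝ) else 0) -
        2 * ∑ y ∈ F.bx K, ∑ x ∈ F.bx M,
          (if Disjoint y x then b1 y * a1 x * (F.jj y x : ℝ) else 0) := by
      rw [Finset.sum_comm, Finset.mul_sum, ← Finset.sum_sub_distrib]
      refine Finset.sum_congr rfl fun y _ => ?_
      rw [Finset.mul_sum, ← Finset.sum_sub_distrib]
      exact Finset.sum_congr rfl fun x _ => hterm x y
    rw [hsum]
    have h1 := hb K M P b a hP hK hM h.le hb' ha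
    have h3 := hb K M P b1 a1 hP hK hM h.le hb1' ha1'
    rw [mul_comm K M] at h1 h3
    refine (abs_sub _ _).trans ?_
    rw [abs_mul, abs_two]
    linarith

end Pool.Agent.H98.MF
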