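import Pool.Agent.H98.MF.SBase

/-!
# Project MK4 (MP_a3214d), block SYS: weighted counting of finite sets of primes
-/

set_option autoImplicit false

open scoped BigOperators
open Filter

namespace Pool.Agent.H98.MF

section

variable (S : Pre)

noncomputable def cpPhi (z : Finset S.P) : ℝ := ∏ p ∈ z, (1 + 1 / (S.N p : ℝ))⁻¹

noncomputable def cpRho (ψ : S.P → ℝ) (e : Finset S.P) : ℝ := ∏ p ∈ e, (ψ p - 1)

noncomputable def cpS (ψ : S.P → ℝ) (z : Finset S.P) (t : ℝ) : ℝ :=
  ∑ x ∈ S.bx t, (if Disjoint x z then ∏ p ∈ x, ψ p else 0)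

theorem cp_card (e z : Finset S.P) (t : ℝ) :
    ((S.bx t).filter fun x => Disjoint x z ∧ e ⊆ x).card =
      if Disjoint e z then ((S.bx (t / S.nm e)).filter fun x => Disjoint x (z ∪ e)).card else 0 := by
  split_ifs with h
  · refine Finset.card_nbij' (fun x => x \ e) (fun x => x ∪ e) ?_ ?_ ?_ ?_
    · intro x hx
      rw [Finset.mem_coe, Finset.mem_filter, S.mem_bx] at hx
      obtain ⟨h1, h2, h3⟩ := hx
      rw [Finset.mem_coe, Finset.mem_filter, S.mem_bx, le_div_iff₀ (S.nm_posr e),
        Finset.disjoint_union_right]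
      refine ⟨?_, Finset.disjoint_of_subset_left Finset.sdiff_subset h2, Finset.sdiff_disjoint⟩
      have h4 := S.nm_union (x := x \ e) (y := e) Finset.sdiff_disjoint
      rw [Finset.sdiff_union_of_subset h3] at h4
      rw [← Nat.cast_mul, ← h4]
      exact h1
    · intro x hx
      rw [Finset.mem_coe, Finset.mem_filter, S.mem_bx, le_div_iff₀ (S.nm_posr e),
        Finset.disjoint_union_right] at hx
      obtain ⟨h1, h2, h3⟩ := hx
      rw [Finset.mem_coe, Finset.mem_filter, S.mem_bx, S.nm_union h3, Nat.cast_mul,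
        Finset.disjoint_union_left]
      exact ⟨h1, ⟨h2, h⟩, Finset.subset_union_right⟩
    · intro x hx
      rw [Finset.mem_coe, Finset.mem_filter] at hx
      exact Finset.sdiff_union_of_subset hx.2.2
    · intro x hx
      rw [Finset.mem_coe, Finset.mem_filter, Finset.disjoint_union_right] at hx
      exact Finset.union_sdiff_cancel_right hx.2.2
  · rw [Finset.card_eq_zero, Finset.filter_eq_empty_iff]
    rintro x _ ⟨h1, h2⟩
    exact h (Finset.disjoint_of_subset_left h2 h1)

theorem cp_ident (ψ : S.P → ℝ) (z : Finset S.P) (t : ℝ) :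
    cpS S ψ z t = ∑ e ∈ S.bx t, (if Disjoint e z then cpRho S ψ e *
      (((S.bx (t / S.nm e)).filter fun x => Disjoint x (z ∪ e)).card : ℝ) else 0) := by
  have h1 : ∀ x ∈ S.bx t, (if Disjoint x z then ∏ p ∈ x, ψ p else 0) =
      ∑ e ∈ S.bx t, (if Disjoint x z ∧ e ⊆ x then cpRho S ψ e else 0) := by
    intro x hx
    split_ifs with h
    · have h2 : ∏ p ∈ x, ψ p = ∏ p ∈ x, (1 + (ψ p - 1)) :=
        Finset.prod_congr rfl fun p _ => by ring
      rw [h2, Finset.prod_one_add, ← Finset.sum_filter]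
      refine Finset.sum_congr ?_ fun e _ => rfl
      ext e
      rw [Finset.mem_powerset, Finset.mem_filter]
      refine ⟨fun h3 => ⟨?_, h, h3⟩, fun h3 => h3.2.2⟩
      rw [S.mem_bx] at hx ⊢
      exact le_trans (by exact_mod_cast S.nm_mono h3) hx
    · symm
      refine Finset.sum_eq_zero fun e _ => if_neg fun h3 => h h3.1
  unfold cpS
  rw [Finset.sum_congr rfl h1, Finset.sum_comm]
  refine Finset.sum_congr rfl fun e _ => ?_
  rw [← Finset.sum_filter, Finset.sum_const, cp_card, nsmul_eq_mul]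
  split_ifs with h
  · rw [mul_comm]
  · rw [Nat.cast_zero, zero_mul]

theorem cp_rho (ψ : S.P → ℝ) (B : ℝ) (h0 : ∀ p, ψ p ≤ 1) (hB : ∀ p, 1 - ψ p ≤ B / S.N p)
    (e : Finset S.P) : |cpRho S ψ e| ≤ B ^ e.card * (S.nm e : ℝ)⁻¹ := by
  unfold cpRho
  rw [Finset.abs_prod]
  have h1 : B ^ e.card * (S.nm e : ℝ)⁻¹ = ∏ p ∈ e, (B / S.N p) := by
    unfold Pre.nm
    rw [Finset.prod_div_distrib, Finset.prod_const, Nat.cast_prod, div_eq_mul_inv]
  rw [h1]
  refine Finset.prod_le_prod (fun p _ => abs_nonneg _) fun p _ => ?_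
  rw [abs_sub_comm, abs_of_nonneg (by linarith [h0 p])]
  exact hB p

theorem cp_N_pos (p : S.P) : (0 : ℝ) < S.N p := by exact_mod_cast S.one_le_N p

theorem cp_phi_nonneg (z : Finset S.P) : 0 ≤ cpPhi S z :=
  Finset.prod_nonneg fun p _ => by
    have := cp_N_pos S p
    positivity

theorem cp_phi_le (z : Finset S.P) : cpPhi S z ≤ 1 := by
  refine Finset.prod_le_one (fun p _ => ?_) fun p _ => ?_
  · have := cp_N_pos S p
    positivity
  · have := cp_N_pos S p
    apply inv_le_one_of_one_le₀
    have : 0 ≤ 1 / (S.N p : ℝ) := by positivity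
    linarith

theorem cp_phi_union {x y : Finset S.P} (h : Disjoint x y) :
    cpPhi S (x ∪ y) = cpPhi S x * cpPhi S y := Finset.prod_union h

theorem cp_S_nonneg (ψ : S.P → ℝ) (h0 : ∀ p, 0 ≤ ψ p) (z : Finset S.P) (t : ℝ) :
    0 ≤ cpS S ψ z t := by
  refine Finset.sum_nonneg fun x _ => ?_
  split_ifs
  · exact Finset.prod_nonneg fun p _ => h0 p
  · exact le_rfl

/-- splitting off a prime -/
theorem cp_split (ψ : S.P → ℝ) (z : Finset S.P) {p : S.P} (hp : p ∉ z) (t : ℝ) :
    cpS S ψ z t = cpS S ψ (insert p z) t + ψ p * cpS S ψ (insert p z) (t / S.N p) := by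
  unfold cpS
  rw [← Finset.sum_filter, ← Finset.sum_filter, ← Finset.sum_filter, Finset.mul_sum,
    ← Finset.sum_filter_add_sum_filter_not _ (fun x => p ∉ x)]
  congr 1
  · refine Finset.sum_congr ?_ fun x _ => rfl
    ext x
    rw [Finset.mem_filter, Finset.mem_filter, Finset.mem_filter, Finset.disjoint_insert_right]
    tauto
  · refine Finset.sum_nbij' (fun x => x.erase p) (fun x => insert p x) ?_ ?_ ?_ ?_ ?_
    · intro x hx
      rw [Finset.mem_filter, Finset.mem_filter, S.mem_bx, not_not] at hx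
      obtain ⟨⟨h1, h2⟩, h3⟩ := hx
      rw [Finset.mem_filter, S.mem_bx, le_div_iff₀ (cp_N_pos S p), Finset.disjoint_insert_right]
      refine ⟨?_, Finset.notMem_erase p x,
        Finset.disjoint_of_subset_left (Finset.erase_subset p x) h2⟩
      have h4 := S.nm_insert (Finset.notMem_erase p x)
      rw [Finset.insert_erase h3] at h4
      rw [← Nat.cast_mul, mul_comm, ← h4]
      exact h1
    · intro x hx
      rw [Finset.mem_filter, S.mem_bx, le_div_iff₀ (cp_N_pos S p),
        Finset.disjoint_insert_right] at hx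
      obtain ⟨h1, h2, h3⟩ := hx
      rw [Finset.mem_filter, Finset.mem_filter, S.mem_bx, S.nm_insert h2, not_not,
        Finset.disjoint_insert_left]
      refine ⟨⟨?_, hp, h3⟩, Finset.mem_insert_self p x⟩
      rw [Nat.cast_mul, mul_comm]
      exact h1
    · intro x hx
      rw [Finset.mem_filter, Finset.mem_filter, not_not] at hx
      exact Finset.insert_erase hx.2
    · intro x hx
      rw [Finset.mem_filter, Finset.disjoint_insert_right] at hx
      exact Finset.erase_insert hx.2.1
    · intro x hx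
      rw [Finset.mem_filter, Finset.mem_filter, not_not] at hx
      rw [Finset.mul_prod_erase x ψ hx.2]

end

end Pool.Agent.H98.MF
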