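import Pool.Agent.H98.MF.SCntPsi0

/-!
# Project MK4 (MP_a3214d), block SYS: weighted counting, limits
-/

set_option autoImplicit false

open scoped BigOperators
open Filter

namespace Pool.Agent.H98.MF

section

variable (F : Sys)

/-- the dominating terms -/
noncomputable def cpG (B : ℝ) (e : Finset F.P) : ℝ :=
  B ^ e.card * F.hs e ^ 1 * (F.nm e : ℝ) ^ (-(2 - F.dl))

/-- the terms of the singular series -/
noncomputable def cpF (ψ : F.P → ℝ) (z e : Finset F.P) : ℝ :=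
  if Disjoint e z then cpRho F.toPre ψ e * cpPhi F.toPre e * (F.nm e : ℝ)⁻¹ else 0

variable (ψ : F.P → ℝ) (h0 : ∀ p, 0 ≤ ψ p ∧ ψ p ≤ 1) (B : ℝ) (hB0 : 0 ≤ B)
  (hB : ∀ p, 1 - ψ p ≤ B / F.N p)

include hB0 in
theorem cpG_nonneg (e : Finset F.P) : 0 ≤ cpG F B e := by
  unfold cpG
  have h1 := F.one_le_hs e
  have h2 := F.nm_posr e
  positivity

include h0 hB hB0 in
theorem cpF_le (z e : Finset F.P) :
    |cpF F ψ z e| ≤ B ^ e.card * F.hs e ^ 1 * (F.nm e : ℝ) ^ (-(2 : ℝ)) := by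
  have h1 := F.one_le_hs e
  have h2 := F.nm_posr e
  have h3 := cp_rho F.toPre ψ B (fun p => (h0 p).2) hB e
  have h5 := cp_phi_nonneg F.toPre e
  have h6 := cp_phi_le F.toPre e
  have h7 : (F.nm e : ℝ) ^ (-(2 : ℝ)) = (F.nm e : ℝ)⁻¹ * (F.nm e : ℝ)⁻¹ := by
    rw [Real.rpow_neg h2.le]
    norm_num
    ring
  have h8 : 0 ≤ B ^ e.card := pow_nonneg hB0 _
  unfold cpF
  split_ifs with h
  · rw [abs_mul, abs_mul, abs_of_nonneg h5, abs_of_pos (inv_pos.2 h2), h7, pow_one]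
    have h9 : |cpRho F.toPre ψ e| * cpPhi F.toPre e ≤ B ^ e.card * (F.nm e : ℝ)⁻¹ * 1 :=
      mul_le_mul h3 h6 h5 (by positivity)
    have h10 : B ^ e.card * (F.nm e : ℝ)⁻¹ * 1 ≤ B ^ e.card * F.hs e * (F.nm e : ℝ)⁻¹ := by
      rw [mul_one]
      exact mul_le_mul_of_nonneg_right (le_mul_of_one_le_right h8 h1) (by positivity)
    calc _ ≤ B ^ e.card * F.hs e * (F.nm e : ℝ)⁻¹ * (F.nm e : ℝ)⁻¹ :=
          mul_le_mul_of_nonneg_right (h9.trans h10) (by positivity)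
      _ = _ := by ring
  · rw [abs_zero]
    positivity

include h0 hB hB0 in
theorem cpF_le_G (z e : Finset F.P) : |cpF F ψ z e| ≤ cpG F B e := by
  refine (cpF_le F ψ h0 B hB0 hB z e).trans ?_
  unfold cpG
  have h1 := F.one_le_hs e
  refine mul_le_mul_of_nonneg_left ?_ (by positivity)
  exact Real.rpow_le_rpow_of_exponent_le (F.one_le_nmr e) (by linarith [F.dl_pos])

include h0 hB hB0 in
theorem cpF_tail (z e : Finset F.P) {t : ℝ} (ht : 0 < t) (he : t < F.nm e) :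
    |cpF F ψ z e| ≤ t ^ (-F.dl) * cpG F B e := by
  refine (cpF_le F ψ h0 B hB0 hB z e).trans ?_
  unfold cpG
  have h1 := F.one_le_hs e
  have h2 := F.nm_posr e
  have h3 : (F.nm e : ℝ) ^ (-(2 : ℝ)) = (F.nm e : ℝ) ^ (-F.dl) * (F.nm e : ℝ) ^ (-(2 - F.dl)) := by
    rw [← Real.rpow_add h2]
    congr 1
    ring
  have h4 : (F.nm e : ℝ) ^ (-F.dl) ≤ t ^ (-F.dl) :=
    Real.rpow_le_rpow_of_nonpos ht he.le (by linarith [F.dl_pos])
  rw [h3]
  have h5 : 0 ≤ (F.nm e : ℝ) ^ (-(2 - F.dl)) := by positivity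
  calc _ = B ^ e.card * F.hs e ^ 1 * ((F.nm e : ℝ) ^ (-(2 - F.dl)) * (F.nm e : ℝ) ^ (-F.dl)) := by
        ring
    _ ≤ B ^ e.card * F.hs e ^ 1 * ((F.nm e : ℝ) ^ (-(2 - F.dl)) * t ^ (-F.dl)) := by
        refine mul_le_mul_of_nonneg_left ?_ (by positivity)
        exact mul_le_mul_of_nonneg_left h4 h5
    _ = _ := by ring

include hB0 in
theorem cpG_sum {C2 : ℝ} (hC2 : ∀ t : ℝ, ∑ e ∈ F.bx t, cpG F B e ≤ C2) (u : Finset (Finset F.P)) :
    ∑ e ∈ u, cpG F B e ≤ C2 := by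
  have h1 : u ⊆ F.bx (∑ e ∈ u, (F.nm e : ℝ)) := by
    intro e he
    rw [F.mem_bx]
    exact Finset.single_le_sum (f := fun e => (F.nm e : ℝ)) (fun _ _ => Nat.cast_nonneg _) he
  exact (Finset.sum_le_sum_of_subset_of_nonneg h1 fun e _ _ => cpG_nonneg F B hB0 e).trans
    (hC2 _)

include h0 hB hB0 in
theorem cpF_tsum {C2 : ℝ} (hC2 : ∀ t : ℝ, ∑ e ∈ F.bx t, cpG F B e ≤ C2) (z : Finset F.P)
    {t : ℝ} (ht : 0 < t) :
    |∑ e ∈ F.bx t, cpF F ψ z e - ∑' e, cpF F ψ z e| ≤ t ^ (-F.dl) * C2 := by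
  have hG : Summable (cpG F B) :=
    summable_of_sum_le (fun e => cpG_nonneg F B hB0 e) (cpG_sum F B hB0 hC2)
  have hGt : ∑' e, cpG F B e ≤ C2 := hG.tsum_le_of_sum_le (cpG_sum F B hB0 hC2)
  have hf : Summable (cpF F ψ z) :=
    Summable.of_norm_bounded hG fun e => cpF_le_G F ψ h0 B hB0 hB z e
  have h1 : ∑ e ∈ F.bx t, cpF F ψ z e = ∑' e, (if e ∈ F.bx t then cpF F ψ z e else 0) := by
    rw [tsum_eq_sum (s := F.bx t)]
    · exact Finset.sum_congr rfl fun e he => (if_pos he).symm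
    · intro e he
      exact if_neg he
  have hs1 : Summable fun e => (if e ∈ F.bx t then cpF F ψ z e else 0) := by
    refine summable_of_ne_finset_zero (s := F.bx t) fun e he => if_neg he
  have hb : ∀ e, ‖(if e ∈ F.bx t then cpF F ψ z e else 0) - cpF F ψ z e‖ ≤
      t ^ (-F.dl) * cpG F B e := by
    intro e
    rw [Real.norm_eq_abs]
    split_ifs with he
    · rw [sub_self, abs_zero]
      exact mul_nonneg (Real.rpow_nonneg ht.le _) (cpG_nonneg F B hB0 e)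
    · rw [zero_sub, abs_neg]
      rw [F.mem_bx, not_le] at he
      exact cpF_tail F ψ h0 B hB0 hB z e ht he
  have hG2 : Summable fun e => t ^ (-F.dl) * cpG F B e := hG.mul_left _
  rw [h1, ← hs1.tsum_sub hf]
  have hS : Summable fun e => ‖(if e ∈ F.bx t then cpF F ψ z e else 0) - cpF F ψ z e‖ :=
    Summable.of_nonneg_of_le (fun _ => norm_nonneg _) hb hG2
  rw [← Real.norm_eq_abs]
  refine (norm_tsum_le_tsum_norm hS).trans ?_
  refine (Summable.tsum_le_tsum hb hS hG2).trans ?_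
  rw [tsum_mul_left]
  exact mul_le_mul_of_nonneg_left hGt (Real.rpow_nonneg ht.le _)

include h0 hB hB0 in
theorem cp_main {κ C C2 : ℝ} (hC : 0 ≤ C)
    (h8 : ∀ (z : Finset F.P) (t : ℝ), 1 ≤ t →
      |(((F.bx t).filter fun x => Disjoint x z).card : ℝ) -
        κ * (∏ p ∈ z, (1 + 1 / (F.N p : ℝ))⁻¹) * t| ≤ C * F.hs z * t ^ (1 - F.dl))
    (hC2 : ∀ t : ℝ, ∑ e ∈ F.bx t, cpG F B e ≤ C2) (z : Finset F.P) (t : ℝ) (ht : 1 ≤ t) :
    |cpS F.toPre ψ z t - κ * cpPhi F.toPre z * t * ∑ e ∈ F.bx t, cpF F ψ z e| ≤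
      C * F.hs z * t ^ (1 - F.dl) * C2 := by
  have ht0 : 0 < t := by linarith
  have hz := F.one_le_hs z
  rw [cp_ident, Finset.mul_sum, ← Finset.sum_sub_distrib]
  refine (Finset.abs_sum_le_sum_abs _ _).trans ?_
  have hterm : ∀ e ∈ F.bx t, |(if Disjoint e z then cpRho F.toPre ψ e *
      (((F.bx (t / F.nm e)).filter fun x => Disjoint x (z ∪ e)).card : ℝ) else 0) -
      κ * cpPhi F.toPre z * t * cpF F ψ z e| ≤ C * F.hs z * t ^ (1 - F.dl) * cpG F B e := by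
    intro e he
    rw [F.mem_bx] at he
    have he1 := F.one_le_hs e
    have h2 := F.nm_posr e
    unfold cpF
    split_ifs with h
    · have h3 : 1 ≤ t / F.nm e := by rwa [le_div_iff₀ h2, one_mul]
      have h4 := h8 (z ∪ e) (t / F.nm e) h3
      have h5 : (∏ p ∈ z ∪ e, (1 + 1 / (F.N p : ℝ))⁻¹) = cpPhi F.toPre z * cpPhi F.toPre e :=
        cp_phi_union F.toPre h.symm
      rw [h5] at h4
      have h6 : cpRho F.toPre ψ e *
          (((F.bx (t / F.nm e)).filter fun x => Disjoint x (z ∪ e)).card : ℝ) -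
          κ * cpPhi F.toPre z * t * (cpRho F.toPre ψ e * cpPhi F.toPre e * (F.nm e : ℝ)⁻¹) =
          cpRho F.toPre ψ e *
          ((((F.bx (t / F.nm e)).filter fun x => Disjoint x (z ∪ e)).card : ℝ) -
            κ * (cpPhi F.toPre z * cpPhi F.toPre e) * (t / F.nm e)) := by
        rw [div_eq_mul_inv]
        ring
      rw [h6, abs_mul]
      have h7 := cp_rho F.toPre ψ B (fun p => (h0 p).2) hB e
      have h9 : (t / F.nm e) ^ (1 - F.dl) = t ^ (1 - F.dl) * (F.nm e : ℝ) ^ (-(1 - F.dl)) := by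
        rw [Real.div_rpow ht0.le h2.le, Real.rpow_neg h2.le, div_eq_mul_inv]
      have h10 : (F.nm e : ℝ) ^ (-(2 - F.dl)) = (F.nm e : ℝ)⁻¹ * (F.nm e : ℝ) ^ (-(1 - F.dl)) := by
        rw [← Real.rpow_neg_one, ← Real.rpow_add h2]
        congr 1
        ring
      have h11 : C * F.hs (z ∪ e) * (t / F.nm e) ^ (1 - F.dl) ≤
          C * (F.hs z * F.hs e) * (t / F.nm e) ^ (1 - F.dl) := by
        refine mul_le_mul_of_nonneg_right ?_ (by positivity)
        exact mul_le_mul_of_nonneg_left (F.hs_union_le z e) hC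
      calc _ ≤ (B ^ e.card * (F.nm e : ℝ)⁻¹) * (C * (F.hs z * F.hs e) * (t / F.nm e) ^ (1 - F.dl)) :=
            mul_le_mul h7 (h4.trans h11) (abs_nonneg _) (by positivity)
        _ = C * F.hs z * t ^ (1 - F.dl) * cpG F B e := by
            unfold cpG
            rw [h9, h10]
            ring
    · rw [mul_zero, sub_zero, abs_zero]
      have := cpG_nonneg F B hB0 e
      positivity
  refine (Finset.sum_le_sum hterm).trans ?_
  rw [← Finset.mul_sum]
  exact mul_le_mul_of_nonneg_left (hC2 t) (by positivity)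

end

end Pool.Agent.H98.MF
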