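import Pool.Agent.H98.MF.SCntPsi1

/-!
# Project MK4 (MP_a3214d), block SYS: weighted counting, conclusion from the rows A4 and A8
-/

set_option autoImplicit false

open scoped BigOperators
open Filter

namespace Pool.Agent.H98.MF

/-- a number bounded by a negative power for all large `t` vanishes -/
theorem cp_zero {D C d T : ℝ} (hd : 0 < d) (h : ∀ t : ℝ, T ≤ t → D ≤ C * t ^ (-d)) : D ≤ 0 := by
  have h1 : Tendsto (fun t : ℝ => C * t ^ (-d)) atTop (nhds (C * 0)) :=
    (tendsto_rpow_neg_atTop hd).const_mul C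
  rw [mul_zero] at h1
  exact ge_of_tendsto h1 (eventually_atTop.2 ⟨T, h⟩)

theorem cp_rpow {t d : ℝ} (ht : 0 < t) : t ^ (1 - d) = t ^ (-d) * t := by
  nth_rewrite 3 [← Real.rpow_one t]
  rw [← Real.rpow_add ht]
  congr 1
  ring

/-- the product formula from the asymptotic formula -/
theorem cp_prod (F : Sys) (ψ : F.P → ℝ) (h0 : ∀ p, 0 ≤ ψ p ∧ ψ p ≤ 1)
    (L : Finset F.P → ℝ) {C : ℝ} (hC : 0 ≤ C)
    (hL : ∀ (z : Finset F.P) (t : ℝ), 1 ≤ t →
      |cpS F.toPre ψ z t - L z * t| ≤ C * F.hs z * t ^ (1 - F.dl)) (z : Finset F.P) :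
    L z = L ∅ * ∏ p ∈ z, (1 + ψ p / (F.N p : ℝ))⁻¹ := by
  induction z using Finset.induction_on with
  | empty => rw [Finset.prod_empty, mul_one]
  | insert p z hp ih =>
    have hN := cp_N_pos F.toPre p
    have hN1 : (1 : ℝ) ≤ F.N p := by exact_mod_cast F.one_le_N p
    have hpos : 0 < 1 + ψ p / (F.N p : ℝ) := by
      have : 0 ≤ ψ p / (F.N p : ℝ) := div_nonneg (h0 p).1 hN.le
      linarith
    have hkey : L z = L (insert p z) * (1 + ψ p / (F.N p : ℝ)) := by
      have h1 : |L z - L (insert p z) * (1 + ψ p / (F.N p : ℝ))| ≤ 0 := by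
        refine cp_zero F.dl_pos (C := C * F.hs z + 2 * (C * F.hs (insert p z))) (T := F.N p) ?_
        intro t ht
        have ht1 : 1 ≤ t := hN1.trans ht
        have ht0 : 0 < t := by linarith
        have h2 := hL z t ht1
        have h3 := hL (insert p z) t ht1
        have h4 := hL (insert p z) (t / F.N p) (by rwa [le_div_iff₀ hN, one_mul])
        have h5 := cp_split F.toPre ψ z hp t
        have h6 : (t / F.N p) ^ (1 - F.dl) ≤ t ^ (1 - F.dl) := by
          refine Real.rpow_le_rpow (by positivity) (div_le_self ht0.le hN1) ?_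
          linarith [F.dl_le]
        have hz1 := F.one_le_hs (insert p z)
        have h7 : C * F.hs (insert p z) * (t / F.N p) ^ (1 - F.dl) ≤
            C * F.hs (insert p z) * t ^ (1 - F.dl) :=
          mul_le_mul_of_nonneg_left h6 (by positivity)
        have h8 : |ψ p * (cpS F.toPre ψ (insert p z) (t / F.N p) -
            L (insert p z) * (t / F.N p))| ≤ C * F.hs (insert p z) * t ^ (1 - F.dl) := by
          rw [abs_mul, abs_of_nonneg (h0 p).1]
          calc _ ≤ 1 * |cpS F.toPre ψ (insert p z) (t / F.N p) - L (insert p z) * (t / F.N p)| :=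
                mul_le_mul_of_nonneg_right (h0 p).2 (abs_nonneg _)
            _ ≤ _ := by rw [one_mul]; exact h4.trans h7
        have h9 : (L z - L (insert p z) * (1 + ψ p / (F.N p : ℝ))) * t =
            -(cpS F.toPre ψ z t - L z * t) + (cpS F.toPre ψ (insert p z) t - L (insert p z) * t) +
            ψ p * (cpS F.toPre ψ (insert p z) (t / F.N p) - L (insert p z) * (t / F.N p)) := by
          rw [h5]
          ring
        have h10 : |(L z - L (insert p z) * (1 + ψ p / (F.N p : ℝ))) * t| ≤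
            (C * F.hs z + 2 * (C * F.hs (insert p z))) * t ^ (1 - F.dl) := by
          rw [h9]
          refine (abs_add_three _ _ _).trans ?_
          rw [abs_neg]
          linarith
        rw [abs_mul, abs_of_pos ht0, cp_rpow ht0, ← mul_assoc] at h10
        exact le_of_mul_le_mul_right h10 ht0
      have h11 := abs_nonpos_iff.1 h1
      linarith
    rw [Finset.prod_insert hp]
    have h12 : L (insert p z) = L z * (1 + ψ p / (F.N p : ℝ))⁻¹ := by
      rw [hkey, mul_assoc, mul_inv_cancel₀ hpos.ne', mul_one]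
    rw [h12, ih]
    ring

theorem cnt_psi_of (F : Sys)
    (h8 : ∃ κ C : ℝ, 0 < κ ∧ ∀ (z : Finset F.P) (t : ℝ), 1 ≤ t →
      |(((F.bx t).filter fun x => Disjoint x z).card : ℝ) -
        κ * (∏ p ∈ z, (1 + 1 / (F.N p : ℝ))⁻¹) * t| ≤ C * F.hs z * t ^ (1 - F.dl))
    (h4 : ∀ (B : ℝ), 0 ≤ B → ∀ (j : ℕ) (s : ℝ), 1 < s → ∃ C : ℝ, ∀ t : ℝ,
      ∑ x ∈ F.bx t, B ^ x.card * F.hs x ^ j * (F.nm x : ℝ) ^ (-s) ≤ C)
    (ψ : F.P → ℝ) (h0 : ∀ p, 0 ≤ ψ p ∧ ψ p ≤ 1) (B : ℝ)
    (hB : ∀ p, 1 - ψ p ≤ B / F.N p) : ∃ κ C : ℝ, 0 ≤ κ ∧ ∀ (z : Finset F.P) (t : ℝ), 1 ≤ t →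
    |∑ x ∈ F.bx t, (if Disjoint x z then ∏ p ∈ x, ψ p else 0) -
      κ * (∏ p ∈ z, (1 + ψ p / (F.N p : ℝ))⁻¹) * t| ≤ C * F.hs z * t ^ (1 - F.dl) := by
  obtain ⟨κ, C, hκ, h8'⟩ := h8
  have hB' : ∀ p, 1 - ψ p ≤ |B| / F.N p := fun p =>
    (hB p).trans (div_le_div_of_nonneg_right (le_abs_self B) (cp_N_pos F.toPre p).le)
  obtain ⟨C2, hC2⟩ := h4 |B| (abs_nonneg B) 1 (2 - F.dl) (by linarith [F.dl_le])
  have hC2' : ∀ t : ℝ, ∑ e ∈ F.bx t, cpG F |B| e ≤ C2 := hC2
  have hC2n : 0 ≤ C2 := by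
    refine le_trans ?_ (hC2' 0)
    exact Finset.sum_nonneg fun e _ => cpG_nonneg F |B| (abs_nonneg B) e
  have hC : 0 ≤ C := by
    have h1 := h8' ∅ 1 le_rfl
    rw [Real.one_rpow, mul_one, mul_one] at h1
    have h2 : F.hs ∅ = 1 := rfl
    rw [h2, mul_one] at h1
    exact (abs_nonneg _).trans h1
  set L : Finset F.P → ℝ := fun z => κ * cpPhi F.toPre z * ∑' e, cpF F ψ z e with hLdef
  have hL : ∀ (z : Finset F.P) (t : ℝ), 1 ≤ t →
      |cpS F.toPre ψ z t - L z * t| ≤ (C * C2 + κ * C2) * F.hs z * t ^ (1 - F.dl) := by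
    intro z t ht
    have ht0 : 0 < t := by linarith
    have h1 := cp_main F ψ h0 |B| (abs_nonneg B) hB' hC h8' hC2' z t ht
    have h2 := cpF_tsum F ψ h0 |B| (abs_nonneg B) hB' hC2' z ht0
    have hz := F.one_le_hs z
    have hφ := cp_phi_nonneg F.toPre z
    have hφ1 := cp_phi_le F.toPre z
    have h3 : cpS F.toPre ψ z t - L z * t =
        (cpS F.toPre ψ z t - κ * cpPhi F.toPre z * t * ∑ e ∈ F.bx t, cpF F ψ z e) +
        κ * cpPhi F.toPre z * t * (∑ e ∈ F.bx t, cpF F ψ z e - ∑' e, cpF F ψ z e) := by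
      rw [hLdef]
      ring
    rw [h3]
    refine (abs_add_le _ _).trans ?_
    have h4 : |κ * cpPhi F.toPre z * t * (∑ e ∈ F.bx t, cpF F ψ z e - ∑' e, cpF F ψ z e)| ≤
        κ * C2 * F.hs z * t ^ (1 - F.dl) := by
      rw [abs_mul, abs_of_nonneg (by positivity : 0 ≤ κ * cpPhi F.toPre z * t)]
      calc _ ≤ κ * cpPhi F.toPre z * t * (t ^ (-F.dl) * C2) :=
            mul_le_mul_of_nonneg_left h2 (by positivity)
        _ = κ * C2 * cpPhi F.toPre z * t ^ (1 - F.dl) := by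
            rw [cp_rpow ht0]
            ring
        _ ≤ _ := by
            refine mul_le_mul_of_nonneg_right ?_ (by positivity)
            exact mul_le_mul_of_nonneg_left (hφ1.trans hz) (by positivity)
    calc _ ≤ C * F.hs z * t ^ (1 - F.dl) * C2 + κ * C2 * F.hs z * t ^ (1 - F.dl) :=
          add_le_add h1 h4
      _ = _ := by ring
  have hC3 : 0 ≤ C * C2 + κ * C2 := by positivity
  refine ⟨L ∅, C * C2 + κ * C2, ?_, ?_⟩
  · have h1 : -L ∅ ≤ 0 := by
      refine cp_zero F.dl_pos (C := (C * C2 + κ * C2) * F.hs ∅) (T := 1) ?_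
      intro t ht
      have ht0 : 0 < t := by linarith
      have h2 := hL ∅ t ht
      have h3 := cp_S_nonneg F.toPre ψ (fun p => (h0 p).1) ∅ t
      have h4 := (abs_le.1 h2).2
      rw [cp_rpow ht0, ← mul_assoc] at h4
      refine le_of_mul_le_mul_right (a := t) ?_ ht0
      linarith
    linarith
  · intro z t ht
    rw [← cp_prod F ψ h0 L hC3 hL z]
    exact hL z t ht

end Pool.Agent.H98.MF
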