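import Pool.Agent.H98.MF.SBase

/-!
# Project MK4 (MP_a3214d), row A8: counting sets of primes prime to `z`, the Euler product
-/

set_option autoImplicit false

open scoped BigOperators
open Filter

namespace Pool.Agent.H98.MF

open Pool.Agent.H98.MK (sg)
open Pool.Agent.H98.ML (Dt Ext Wt)

/-- the factor at `p` -/
noncomputable def a8_u (S : Pre) (z : Finset S.P) (p : S.P) : ℝ :=
  if p ∈ z then 0 else -(1 / (S.N p : ℝ) ^ 2)

/-- the Euler product -/
noncomputable def a8_L (S : Pre) (z : Finset S.P) : ℝ := ∑' d : Finset S.P, ∏ p ∈ d, a8_u S z p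

theorem a8_two_le (S : Pre) (p : S.P) : (2 : ℝ) ≤ S.N p := by exact_mod_cast S.two_le p

theorem a8_nm_rpow (S : Pre) (d : Finset S.P) (s : ℝ) :
    (S.nm d : ℝ) ^ (-s) = ∏ p ∈ d, (S.N p : ℝ) ^ (-s) := by
  unfold Pre.nm
  push_cast
  exact (Real.finsetProd_rpow d (fun p => (S.N p : ℝ)) (fun p _ => Nat.cast_nonneg _) (-s)).symm

theorem a8_prod_u (S : Pre) (z d : Finset S.P) :
    ∏ p ∈ d, a8_u S z p = if Disjoint d z then (-1 : ℝ) ^ d.card * (1 / (S.nm d : ℝ) ^ 2) else 0 := by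
  split_ifs with h
  · have h1 : ∏ p ∈ d, a8_u S z p = ∏ p ∈ d, (-1) * (1 / (S.N p : ℝ) ^ 2) := by
      refine Finset.prod_congr rfl fun p hp => ?_
      unfold a8_u
      rw [if_neg (Finset.disjoint_left.1 h hp)]
      ring
    rw [h1, Finset.prod_mul_distrib, Finset.prod_const]
    congr 1
    unfold Pre.nm
    push_cast
    rw [← Finset.prod_pow, one_div, ← Finset.prod_inv_distrib]
    exact Finset.prod_congr rfl fun p _ => one_div _
  · rw [Finset.not_disjoint_iff] at h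
    obtain ⟨p, hp, hz⟩ := h
    refine Finset.prod_eq_zero hp ?_
    unfold a8_u
    rw [if_pos hz]

theorem a8_abs_prod_u (S : Pre) (z d : Finset S.P) :
    |∏ p ∈ d, a8_u S z p| ≤ 1 / (S.nm d : ℝ) ^ 2 := by
  rw [a8_prod_u]
  split_ifs
  · rw [abs_mul, abs_pow, abs_neg, abs_one, one_pow, one_mul, abs_of_nonneg (by positivity)]
  · rw [abs_zero]
    positivity

section

variable (S : Pre) (hsum : Summable fun p : S.P => (S.N p : ℝ) ^ (-(3 / 2) : ℝ))

include hsum

theorem a8_summable_nm : Summable fun d : Finset S.P => (S.nm d : ℝ) ^ (-(3 / 2) : ℝ) := by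
  have h := summable_finsetProd_of_summable_nonneg
    (fun p : S.P => Real.rpow_nonneg (Nat.cast_nonneg (S.N p)) (-(3 / 2) : ℝ)) hsum
  refine h.congr fun d => ?_
  exact (a8_nm_rpow S d (3 / 2)).symm

theorem a8_summable_u (z : Finset S.P) : Summable fun p => ‖a8_u S z p‖ := by
  refine Summable.of_nonneg_of_le (fun p => norm_nonneg _) (fun p => ?_) hsum
  unfold a8_u
  have h2 := a8_two_le S p
  split_ifs
  · rw [norm_zero]
    exact Real.rpow_nonneg (by linarith) _
  · rw [norm_neg, Real.norm_of_nonneg (by positivity), one_div, ← Real.rpow_natCast,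
      ← Real.rpow_neg (by linarith)]
    refine Real.rpow_le_rpow_of_exponent_le (by linarith) ?_
    norm_num

theorem a8_summable_prod (z : Finset S.P) :
    Summable fun d : Finset S.P => ∏ p ∈ d, a8_u S z p :=
  summable_finsetProd_of_summable_norm (a8_summable_u S hsum z)

theorem a8_L_eq (z : Finset S.P) : a8_L S z = ∏' p, (1 + a8_u S z p) :=
  (tprod_one_add (a8_summable_prod S hsum z)).symm

theorem a8_L_pos : 0 < a8_L S ∅ := by
  have hmul := multipliable_one_add_of_summable (a8_summable_u S hsum ∅)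
  have hfac : ∀ p, 0 < 1 + a8_u S ∅ p := by
    intro p
    unfold a8_u
    rw [if_neg (Finset.notMem_empty p)]
    have h2 := a8_two_le S p
    have h3 : 1 / (S.N p : ℝ) ^ 2 < 1 := by
      rw [div_lt_one (by positivity)]
      nlinarith
    linarith
  have hne := tprod_one_add_ne_zero_of_summable (fun p => (hfac p).ne')
    (a8_summable_u S hsum ∅)
  rw [a8_L_eq S hsum]
  refine lt_of_le_of_ne ?_ hne.symm
  refine ge_of_tendsto hmul.hasProd (Filter.Eventually.of_forall fun s => ?_)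
  exact Finset.prod_nonneg fun p _ => (hfac p).le

theorem a8_L_insert (z : Finset S.P) (p : S.P) (hp : p ∉ z) :
    a8_L S z = (1 - 1 / (S.N p : ℝ) ^ 2) * a8_L S (insert p z) := by
  rw [a8_L_eq S hsum, a8_L_eq S hsum]
  have h1 : ∀ q, 1 + a8_u S z q =
      (if q = p then (1 - 1 / (S.N p : ℝ) ^ 2) else 1) * (1 + a8_u S (insert p z) q) := by
    intro q
    unfold a8_u
    by_cases hq : q = p
    · subst hq
      rw [if_neg hp, if_pos rfl, if_pos (Finset.mem_insert_self _ _)]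
      ring
    · rw [if_neg hq]
      by_cases hz : q ∈ z
      · rw [if_pos hz, if_pos (Finset.mem_insert_of_mem hz), one_mul]
      · rw [if_neg hz, if_neg, one_mul]
        intro h
        rcases Finset.mem_insert.1 h with h | h
        · exact hq h
        · exact hz h
  rw [tprod_congr h1, Multipliable.tprod_mul, tprod_ite_eq]
  · exact (hasProd_ite_eq p _).multipliable
  · exact multipliable_one_add_of_summable (a8_summable_u S hsum (insert p z))

/-- the product formula -/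
theorem a8_L_z (z : Finset S.P) :
    (∏ p ∈ z, (1 - 1 / (S.N p : ℝ))) * a8_L S z =
      (∏ p ∈ z, (1 + 1 / (S.N p : ℝ))⁻¹) * a8_L S ∅ := by
  induction z using Finset.induction_on with
  | empty => simp
  | insert p z hp ih =>
    rw [Finset.prod_insert hp, Finset.prod_insert hp, mul_assoc ((1 + 1 / (S.N p : ℝ))⁻¹), ← ih,
      a8_L_insert S hsum z p hp]
    have h2 := a8_two_le S p
    have h3 : (S.N p : ℝ) ≠ 0 := by positivity
    have h4 : 1 + 1 / (S.N p : ℝ) ≠ 0 := by positivity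
    have h5 : 1 - 1 / (S.N p : ℝ) ^ 2 = (1 + 1 / (S.N p : ℝ)) * (1 - 1 / (S.N p : ℝ)) := by
      field_simp
      ring
    rw [h5]
    rw [show (1 + 1 / (S.N p : ℝ))⁻¹ * ((∏ q ∈ z, (1 - 1 / (S.N q : ℝ))) *
      ((1 + 1 / (S.N p : ℝ)) * (1 - 1 / (S.N p : ℝ)) * a8_L S (insert p z))) =
      ((1 + 1 / (S.N p : ℝ))⁻¹ * (1 + 1 / (S.N p : ℝ))) * ((1 - 1 / (S.N p : ℝ)) *
        (∏ q ∈ z, (1 - 1 / (S.N q : ℝ))) * a8_L S (insert p z)) by ring,
      inv_mul_cancel₀ h4, one_mul]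

/-- the tail of the Euler product -/
theorem a8_tail (z : Finset S.P) (t δ : ℝ) (ht : 1 ≤ t) (hδ : δ ≤ 1 / 4) :
    |a8_L S z - ∑ d ∈ S.bx (Real.sqrt t), ∏ p ∈ d, a8_u S z p| ≤
      t ^ (-δ) * ∑' d : Finset S.P, (S.nm d : ℝ) ^ (-(3 / 2) : ℝ) := by
  have hs := a8_summable_prod S hsum z
  have h1 : HasSum (fun d : Finset S.P => if d ∈ S.bx (Real.sqrt t) then ∏ p ∈ d, a8_u S z p
      else 0) (∑ d ∈ S.bx (Real.sqrt t), ∏ p ∈ d, a8_u S z p) := by
    have h2 : HasSum (fun d : Finset S.P => if d ∈ S.bx (Real.sqrt t) then ∏ p ∈ d, a8_u S z p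
        else 0) (∑ d ∈ S.bx (Real.sqrt t), if d ∈ S.bx (Real.sqrt t) then
          ∏ p ∈ d, a8_u S z p else 0) :=
      hasSum_sum_of_ne_finset_zero (fun d hd => if_neg hd)
    rwa [Finset.sum_congr rfl (fun d hd => if_pos hd)] at h2
  have h2 := hs.hasSum.sub h1
  have h3 : a8_L S z - ∑ d ∈ S.bx (Real.sqrt t), ∏ p ∈ d, a8_u S z p =
      ∑' d : Finset S.P, (∏ p ∈ d, a8_u S z p -
        if d ∈ S.bx (Real.sqrt t) then ∏ p ∈ d, a8_u S z p else 0) := h2.tsum_eq.symm
  have hg := ((a8_summable_nm S hsum).hasSum).mul_left (t ^ (-δ))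
  rw [h3, ← Real.norm_eq_abs]
  refine tsum_of_norm_bounded hg fun d => ?_
  have ht0 : 0 < t := by linarith
  have hp1 : 0 ≤ t ^ (-δ) := Real.rpow_nonneg ht0.le _
  have hn1 : (1 : ℝ) ≤ S.nm d := S.one_le_nmr d
  have hn0 : (0 : ℝ) < S.nm d := by linarith
  split_ifs with hd
  · rw [sub_self, norm_zero]
    exact mul_nonneg hp1 (Real.rpow_nonneg hn0.le _)
  · rw [sub_zero, Real.norm_eq_abs]
    refine (a8_abs_prod_u S z d).trans ?_
    have h4 : Real.sqrt t < S.nm d := by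
      by_contra hc
      exact hd (S.mem_bx.2 (not_lt.1 hc))
    have h5 : 1 / (S.nm d : ℝ) ^ 2 =
        (S.nm d : ℝ) ^ (-(1 / 2) : ℝ) * (S.nm d : ℝ) ^ (-(3 / 2) : ℝ) := by
      rw [← Real.rpow_add hn0, one_div, ← Real.rpow_natCast, ← Real.rpow_neg hn0.le]
      norm_num
    rw [h5]
    refine mul_le_mul_of_nonneg_right ?_ (Real.rpow_nonneg hn0.le _)
    have h6 : (S.nm d : ℝ) ^ (-(1 / 2) : ℝ) ≤ (Real.sqrt t) ^ (-(1 / 2) : ℝ) :=
      Real.rpow_le_rpow_of_nonpos (Real.sqrt_pos.2 ht0) h4.le (by norm_num)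
    refine h6.trans ?_
    rw [Real.sqrt_eq_rpow, ← Real.rpow_mul ht0.le]
    refine Real.rpow_le_rpow_of_exponent_le ht ?_
    linarith

end

end Pool.Agent.H98.MF
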