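import Pool.Agent.H98.MF.SCntSqf0

/-!
# Project MK4 (MP_a3214d), row A8: counting sets of primes prime to `z`
-/

set_option autoImplicit false

open scoped BigOperators
open Filter

namespace Pool.Agent.H98.MF

open Pool.Agent.H98.MK (sg)
open Pool.Agent.H98.ML (Dt Ext Wt)

theorem a8_chv_empty (S : Pre) (f : S.P →₀ ℕ) : S.chv ∅ (fun _ => 0) f = 1 := by
  unfold Pre.chv
  rw [if_pos (Finset.disjoint_empty_right _)]
  simp [sg_zero]

theorem a8_phi_le (S : Pre) (z : Finset S.P) :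
    0 ≤ ∏ p ∈ z, (1 - 1 / (S.N p : ℝ)) ∧ ∏ p ∈ z, (1 - 1 / (S.N p : ℝ)) ≤ 1 := by
  have h : ∀ p, 0 ≤ 1 - 1 / (S.N p : ℝ) ∧ 1 - 1 / (S.N p : ℝ) ≤ 1 := by
    intro p
    have h2 := a8_two_le S p
    have h3 : 1 / (S.N p : ℝ) ≤ 1 := by
      rw [div_le_one (by linarith)]
      linarith
    have h4 : 0 ≤ 1 / (S.N p : ℝ) := by positivity
    constructor <;> linarith
  exact ⟨Finset.prod_nonneg fun p _ => (h p).1,
    Finset.prod_le_one (fun p _ => (h p).1) fun p _ => (h p).2⟩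

theorem cnt_sqf_of (F : Sys)
    (hcop : ∃ C : ℝ, 0 ≤ C ∧ ∀ (z : Finset F.P) (X : ℝ), 1 ≤ X →
      |(((F.idl X).filter fun f => Disjoint f.support z).card : ℝ) -
        F.κ * (∏ p ∈ z, (1 - 1 / (F.N p : ℝ))) * X| ≤ C * F.hs z * X ^ (1 - F.dl))
    (hid : ∀ (y w : Finset F.P) (g : F.P → ZMod 2) (t : ℝ), 0 ≤ t →
      ∑ x ∈ F.bx t, (if Disjoint x (y ∪ w) then ((sg (∑ p ∈ x, g p) : ℤ) : ℝ) else 0) =
      ∑ d ∈ F.bx (Real.sqrt t), (if Disjoint d (y ∪ w) then (-1 : ℝ) ^ d.card *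
        ∑ f ∈ F.idl (t / (F.nm d : ℝ) ^ 2),
          (if Disjoint f.support w then (F.chv y g f : ℝ) else 0) else 0))
    (hsum : Summable fun p : F.P => (F.N p : ℝ) ^ (-(3 / 2) : ℝ)) :
    ∃ κ C : ℝ, 0 < κ ∧ ∀ (z : Finset F.P) (t : ℝ), 1 ≤ t →
    |(((F.bx t).filter fun x => Disjoint x z).card : ℝ) -
      κ * (∏ p ∈ z, (1 + 1 / (F.N p : ℝ))⁻¹) * t| ≤ C * F.hs z * t ^ (1 - F.dl) := by
  obtain ⟨C, hC, h1⟩ := hcop
  set D : ℝ := ∑' d : Finset F.P, (F.nm d : ℝ) ^ (-(3 / 2) : ℝ) with hD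
  have hD0 : 0 ≤ D := tsum_nonneg fun d => Real.rpow_nonneg (Nat.cast_nonneg _) _
  refine ⟨F.κ * a8_L F.toPre ∅, C * D + F.κ * D, mul_pos F.κ_pos (a8_L_pos F.toPre hsum),
    fun z t ht => ?_⟩
  have ht0 : 0 < t := by linarith
  have hhs : 1 ≤ F.hs z := F.one_le_hs z
  have htd : 0 ≤ t ^ (1 - F.dl) := Real.rpow_nonneg ht0.le _
  -- the count
  have h2 : (((F.bx t).filter fun x => Disjoint x z).card : ℝ) =
      ∑ d ∈ F.bx (Real.sqrt t), (if Disjoint d z then (-1 : ℝ) ^ d.card *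
        (((F.idl (t / (F.nm d : ℝ) ^ 2)).filter fun f => Disjoint f.support z).card : ℝ)
          else 0) := by
    have h3 := hid ∅ z (fun _ => 0) t ht0.le
    simp only [Finset.empty_union, Finset.sum_const_zero, a8_chv_empty, sg_zero, Int.cast_one] at h3
    rw [Finset.card_filter]
    push_cast
    rw [h3]
    refine Finset.sum_congr rfl fun d _ => ?_
    split_ifs with hd
    · congr 1
      rw [Finset.card_filter]
      push_cast
      rfl
    · rfl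
  set φ : ℝ := ∏ p ∈ z, (1 - 1 / (F.N p : ℝ)) with hφ
  have hφ1 := a8_phi_le F.toPre z
  -- the main term
  have h3 : F.κ * a8_L F.toPre ∅ * (∏ p ∈ z, (1 + 1 / (F.N p : ℝ))⁻¹) * t =
      F.κ * φ * t * a8_L F.toPre z := by
    have h4 := a8_L_z F.toPre hsum z
    calc F.κ * a8_L F.toPre ∅ * (∏ p ∈ z, (1 + 1 / (F.N p : ℝ))⁻¹) * t
        = F.κ * t * ((∏ p ∈ z, (1 + 1 / (F.N p : ℝ))⁻¹) * a8_L F.toPre ∅) := by ring
      _ = F.κ * t * ((∏ p ∈ z, (1 - 1 / (F.N p : ℝ))) * a8_L F.toPre z) := by rw [h4]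
      _ = _ := by rw [hφ]; ring
  -- the error from the ideal counts
  have h4 : |(((F.bx t).filter fun x => Disjoint x z).card : ℝ) -
      F.κ * φ * t * ∑ d ∈ F.bx (Real.sqrt t), ∏ p ∈ d, a8_u F.toPre z p| ≤
      C * D * F.hs z * t ^ (1 - F.dl) := by
    rw [h2, Finset.mul_sum, ← Finset.sum_sub_distrib]
    refine (Finset.abs_sum_le_sum_abs _ _).trans ?_
    have h5 : ∀ d ∈ F.bx (Real.sqrt t),
        |(if Disjoint d z then (-1 : ℝ) ^ d.card *
          (((F.idl (t / (F.nm d : ℝ) ^ 2)).filter fun f => Disjoint f.support z).card : ℝ)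
            else 0) - F.κ * φ * t * ∏ p ∈ d, a8_u F.toPre z p| ≤
        C * F.hs z * t ^ (1 - F.dl) * (F.nm d : ℝ) ^ (-(3 / 2) : ℝ) := by
      intro d hd
      have hn1 : (1 : ℝ) ≤ F.nm d := F.one_le_nmr d
      have hn0 : (0 : ℝ) < F.nm d := by linarith
      have hr : 0 ≤ C * F.hs z * t ^ (1 - F.dl) * (F.nm d : ℝ) ^ (-(3 / 2) : ℝ) := by
        have := Real.rpow_nonneg hn0.le (-(3 / 2) : ℝ)
        positivity
      rw [a8_prod_u]
      split_ifs with hdz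
      · have hX : 1 ≤ t / (F.nm d : ℝ) ^ 2 := by
          rw [one_le_div (by positivity)]
          have h6 := F.mem_bx.1 hd
          calc (F.nm d : ℝ) ^ 2 ≤ (Real.sqrt t) ^ 2 := pow_le_pow_left₀ hn0.le h6 2
            _ = t := Real.sq_sqrt ht0.le
        have h6 := h1 z _ hX
        have h7 : (-1 : ℝ) ^ d.card *
            (((F.idl (t / (F.nm d : ℝ) ^ 2)).filter fun f => Disjoint f.support z).card : ℝ) -
            F.κ * φ * t * ((-1 : ℝ) ^ d.card * (1 / (F.nm d : ℝ) ^ 2)) =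
            (-1 : ℝ) ^ d.card *
            ((((F.idl (t / (F.nm d : ℝ) ^ 2)).filter fun f => Disjoint f.support z).card : ℝ) -
              F.κ * φ * (t / (F.nm d : ℝ) ^ 2)) := by ring
        rw [h7, abs_mul, abs_pow, abs_neg, abs_one, one_pow, one_mul]
        refine h6.trans ?_
        have h8 : (t / (F.nm d : ℝ) ^ 2) ^ (1 - F.dl) ≤
            t ^ (1 - F.dl) * (F.nm d : ℝ) ^ (-(3 / 2) : ℝ) := by
          rw [div_eq_mul_inv, Real.mul_rpow ht0.le (by positivity)]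
          refine mul_le_mul_of_nonneg_left ?_ htd
          rw [← Real.rpow_natCast, ← Real.rpow_neg hn0.le, ← Real.rpow_mul hn0.le]
          refine Real.rpow_le_rpow_of_exponent_le hn1 ?_
          have := F.dl_le
          push_cast
          linarith
        calc C * F.hs z * (t / (F.nm d : ℝ) ^ 2) ^ (1 - F.dl)
            ≤ C * F.hs z * (t ^ (1 - F.dl) * (F.nm d : ℝ) ^ (-(3 / 2) : ℝ)) :=
              mul_le_mul_of_nonneg_left h8 (by positivity)
          _ = _ := by ring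
      · rw [mul_zero, sub_zero, abs_zero]
        exact hr
    refine (Finset.sum_le_sum h5).trans ?_
    rw [← Finset.mul_sum]
    have h6 : ∑ d ∈ F.bx (Real.sqrt t), (F.nm d : ℝ) ^ (-(3 / 2) : ℝ) ≤ D :=
      (a8_summable_nm F.toPre hsum).sum_le_tsum _
        fun d _ => Real.rpow_nonneg (Nat.cast_nonneg _) _
    calc C * F.hs z * t ^ (1 - F.dl) * ∑ d ∈ F.bx (Real.sqrt t), (F.nm d : ℝ) ^ (-(3 / 2) : ℝ)
        ≤ C * F.hs z * t ^ (1 - F.dl) * D := mul_le_mul_of_nonneg_left h6 (by positivity)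
      _ = _ := by ring
  -- the tail
  have h5 : |F.κ * φ * t * ∑ d ∈ F.bx (Real.sqrt t), ∏ p ∈ d, a8_u F.toPre z p -
      F.κ * φ * t * a8_L F.toPre z| ≤ F.κ * D * F.hs z * t ^ (1 - F.dl) := by
    rw [← mul_sub, abs_mul, abs_sub_comm, abs_of_nonneg (by
      have := F.κ_pos.le
      have := hφ1.1
      positivity)]
    have h6 := a8_tail F.toPre hsum z t F.dl ht F.dl_le
    have h7 : F.κ * φ * t ≤ F.κ * t := by
      have h8 : F.κ * φ ≤ F.κ := mul_le_of_le_one_right F.κ_pos.le hφ1.2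
      exact mul_le_mul_of_nonneg_right h8 ht0.le
    have h9 : t * t ^ (-F.dl) = t ^ (1 - F.dl) := by
      rw [sub_eq_add_neg, Real.rpow_add ht0, Real.rpow_one]
    have hκ := F.κ_pos.le
    calc F.κ * φ * t * |a8_L F.toPre z - ∑ d ∈ F.bx (Real.sqrt t), ∏ p ∈ d, a8_u F.toPre z p|
        ≤ F.κ * t * (t ^ (-F.dl) * D) := mul_le_mul h7 h6 (abs_nonneg _) (by positivity)
      _ = F.κ * D * t ^ (1 - F.dl) * 1 := by rw [← h9]; ring
      _ ≤ F.κ * D * t ^ (1 - F.dl) * F.hs z :=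
          mul_le_mul_of_nonneg_left hhs (by positivity)
      _ = _ := by ring
  rw [h3]
  refine (abs_sub_le _ _ _).trans ((add_le_add h4 h5).trans (le_of_eq ?_))
  ring

end Pool.Agent.H98.MF
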