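import Pool.Agent.H98.MF.SPDefs

/-!
# Project MK4 (MP_a3214d), row MF-E0: the general splitting lemma (helper64)
-/

set_option autoImplicit false

open scoped BigOperators

namespace Pool.Agent.H98.MF

open Pool.Agent.H98.MK (sg)
open Pool.Agent.H98.ML (Dt Ext Wt)

open Classical in
/-- unions along a map of indices -/
noncomputable def Sys.psh (F : Sys) {ι κ : Type} [Fintype ι] (π : ι → κ) (x : ι → Finset F.P)
    (k : κ) : Finset F.P := (Finset.univ.filter fun i => π i = k).biUnion x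

theorem e0_mem_psh (F : Sys) {ι κ : Type} [Fintype ι] (π : ι → κ) (x : ι → Finset F.P)
    (k : κ) (p : F.P) : p ∈ F.psh π x k ↔ ∃ i, π i = k ∧ p ∈ x i := by
  classical
  unfold Sys.psh
  rw [Finset.mem_biUnion]
  constructor
  · rintro ⟨i, hi, hp⟩
    exact ⟨i, (Finset.mem_filter.1 hi).2, hp⟩
  · rintro ⟨i, hi, hp⟩
    exact ⟨i, Finset.mem_filter.2 ⟨Finset.mem_univ _, hi⟩, hp⟩

theorem e0_uniq (F : Sys) {ι : Type} {x : ι → Finset F.P} (h : F.Dj x) {p : F.P} {i j : ι}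
    (hi : p ∈ x i) (hj : p ∈ x j) : i = j := by
  by_contra hne
  exact Finset.disjoint_left.1 (h i j hne) hi hj

theorem e0_Dj_psh (F : Sys) {ι κ : Type} [Fintype ι] (π : ι → κ) {x : ι → Finset F.P}
    (h : F.Dj x) : F.Dj (F.psh π x) := by
  intro k l hkl
  refine Finset.disjoint_left.2 fun p hp hq => hkl ?_
  obtain ⟨i, hi, hpi⟩ := (e0_mem_psh F π x k p).1 hp
  obtain ⟨j, hj, hpj⟩ := (e0_mem_psh F π x l p).1 hq
  rw [← hi, ← hj, e0_uniq F h hpi hpj]

open Classical in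
/-- the fibres of a map on a finite set of primes -/
noncomputable def e0f (F : Sys) {ι : Type} (U : Finset F.P) (φ : U → ι) (i : ι) : Finset F.P :=
  U.filter fun p => ∃ h : p ∈ U, φ ⟨p, h⟩ = i

theorem e0_mem_f (F : Sys) {ι : Type} (U : Finset F.P) (φ : U → ι) (i : ι) (p : F.P) :
    p ∈ e0f F U φ i ↔ ∃ h : p ∈ U, φ ⟨p, h⟩ = i := by
  classical
  unfold e0f
  rw [Finset.mem_filter]
  exact ⟨fun h => h.2, fun h => ⟨h.1, h⟩⟩

theorem e0_prod_f (F : Sys) {ι : Type} [Fintype ι] (U : Finset F.P) (φ : U → ι)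
    (G : ι → F.P → ℝ) : ∏ i, ∏ p ∈ e0f F U φ i, G i p = ∏ p : U, G (φ p) p := by
  classical
  rw [← Finset.prod_fiberwise (Finset.univ : Finset U) φ (fun p => G (φ p) p)]
  refine Finset.prod_congr rfl fun i _ => ?_
  symm
  refine Finset.prod_bij (fun (p : U) _ => (p : F.P)) ?_ ?_ ?_ ?_
  · intro p hp
    exact (e0_mem_f F U φ i _).2 ⟨p.2, (Finset.mem_filter.1 hp).2⟩
  · intro p _ q _ h
    exact Subtype.ext h
  · intro p hp
    obtain ⟨h, h1⟩ := (e0_mem_f F U φ i _).1 hp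
    exact ⟨⟨p, h⟩, Finset.mem_filter.2 ⟨Finset.mem_univ _, h1⟩, rfl⟩
  · intro p hp
    rw [(Finset.mem_filter.1 hp).2]

open Classical in
/-- the product over the primes of a tuple as a sum over the tuples above it -/
theorem e0_tuple (F : Sys) {ι κ : Type} [Fintype ι] [Fintype κ] (π : ι → κ)
    (f : ι → F.P → ℝ) (Y : ℝ) (X : κ → Finset F.P) (hX : ∀ k, X k ∈ F.bx Y) (hd : F.Dj X) :
    ∏ k, ∏ p ∈ X k, ∑ i ∈ Finset.univ.filter (fun i => π i = k), f i p =
      ∑ x ∈ (Fintype.piFinset (fun _ : ι => F.bx Y)).filter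
        (fun x => F.Dj x ∧ F.psh π x = X), ∏ i, ∏ p ∈ x i, f i p := by
  have hU : ∀ k, X k ⊆ Finset.univ.biUnion X := fun k =>
    Finset.subset_biUnion_of_mem X (Finset.mem_univ k)
  set U : Finset F.P := Finset.univ.biUnion X with hUdef
  have h1 : ∏ k, ∏ p ∈ X k, ∑ i ∈ Finset.univ.filter (fun i => π i = k), f i p =
      ∏ p ∈ U, ∑ i : ι, if p ∈ X (π i) then f i p else 0 := by
    rw [hUdef, Finset.prod_biUnion (fun i _ j _ hij => hd i j hij)]
    refine Finset.prod_congr rfl fun k _ => Finset.prod_congr rfl fun p hp => ?_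
    rw [Finset.sum_filter]
    refine Finset.sum_congr rfl fun i _ => ?_
    by_cases hk : π i = k
    · rw [if_pos hk, if_pos (by rw [hk]; exact hp)]
    · rw [if_neg hk, if_neg fun h => hk (e0_uniq F hd h hp)]
  rw [h1, ← Finset.prod_coe_sort, Finset.prod_univ_sum, Fintype.piFinset_univ]
  have h2 : ∑ φ : U → ι, ∏ p : U, (if (p : F.P) ∈ X (π (φ p)) then f (φ p) p else 0) =
      ∑ φ ∈ Finset.univ.filter (fun φ : U → ι => ∀ p : U, (p : F.P) ∈ X (π (φ p))),
        ∏ p : U, f (φ p) p := by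
    rw [Finset.sum_filter]
    refine Finset.sum_congr rfl fun φ _ => ?_
    split_ifs with h
    · exact Finset.prod_congr rfl fun p _ => if_pos (h p)
    · push Not at h
      obtain ⟨p, hp⟩ := h
      exact Finset.prod_eq_zero (Finset.mem_univ p) (if_neg hp)
  rw [h2]
  refine Finset.sum_bij (fun φ _ => e0f F U φ) ?_ ?_ ?_ ?_
  · intro φ hφ
    have hφ' := (Finset.mem_filter.1 hφ).2
    refine Finset.mem_filter.2 ⟨Fintype.mem_piFinset.2 fun i => ?_, ?_, ?_⟩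
    · have h3 : e0f F U φ i ⊆ X (π i) := by
        intro p hp
        obtain ⟨h, rfl⟩ := (e0_mem_f F U φ i _).1 hp
        exact hφ' ⟨p, h⟩
      rw [F.mem_bx]
      exact le_trans (by exact_mod_cast F.nm_mono h3) (F.mem_bx.1 (hX (π i)))
    · intro i j hij
      refine Finset.disjoint_left.2 fun p hp hq => hij ?_
      obtain ⟨h, h3⟩ := (e0_mem_f F U φ i _).1 hp
      obtain ⟨_, h4⟩ := (e0_mem_f F U φ j _).1 hq
      rw [← h3, ← h4]
    · funext k
      ext p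
      rw [e0_mem_psh]
      constructor
      · rintro ⟨i, hi, hp⟩
        obtain ⟨h, h3⟩ := (e0_mem_f F U φ i _).1 hp
        have h4 := hφ' ⟨p, h⟩
        rw [h3, hi] at h4
        exact h4
      · intro hp
        have h3 := hU k hp
        have h4 := hφ' ⟨p, h3⟩
        exact ⟨φ ⟨p, h3⟩, (e0_uniq F hd h4 hp), (e0_mem_f F U φ _ _).2 ⟨h3, rfl⟩⟩
  · intro φ _ ψ _ h
    funext p
    have h3 : (p : F.P) ∈ e0f F U φ (φ p) := (e0_mem_f F U φ _ _).2 ⟨p.2, rfl⟩
    rw [congrFun h (φ p)] at h3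
    obtain ⟨_, h4⟩ := (e0_mem_f F U ψ _ _).1 h3
    exact h4.symm
  · intro x hx
    obtain ⟨-, hxd, hxX⟩ := Finset.mem_filter.1 hx
    have hex : ∀ p : U, ∃ i : ι, (p : F.P) ∈ x i := by
      intro p
      obtain ⟨k, -, hk⟩ := Finset.mem_biUnion.1 p.2
      rw [← hxX] at hk
      obtain ⟨i, -, hi⟩ := (e0_mem_psh F π x k _).1 hk
      exact ⟨i, hi⟩
    choose φ hφ using hex
    refine ⟨φ, Finset.mem_filter.2 ⟨Finset.mem_univ _, fun p => ?_⟩, ?_⟩
    · rw [← hxX]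
      exact (e0_mem_psh F π x _ _).2 ⟨φ p, rfl, hφ p⟩
    · funext i
      ext p
      rw [e0_mem_f]
      constructor
      · rintro ⟨h, rfl⟩
        exact hφ ⟨p, h⟩
      · intro hp
        have h3 : p ∈ X (π i) := by
          rw [← hxX]
          exact (e0_mem_psh F π x _ _).2 ⟨i, rfl, hp⟩
        exact ⟨hU _ h3, e0_uniq F hxd (hφ ⟨p, hU _ h3⟩) hp⟩
  · intro φ _
    exact (e0_prod_f F U φ f).symm

open Classical in
theorem exp_gen (F : Sys) {ι κ : Type} [Fintype ι] [Fintype κ] (π : ι → κ)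
    (f : (κ → Finset F.P) → ι → F.P → ℝ) (Φ : (κ → Finset F.P) → ℝ) (Y : ℝ)
    (hΦ : ∀ X, Φ X ≠ 0 → ∀ k, X k ∈ F.bx Y) :
    ∑ x ∈ Fintype.piFinset (fun _ : ι => F.bx Y),
      (if F.Dj x then (∏ i, ∏ p ∈ x i, f (F.psh π x) i p) * Φ (F.psh π x) else 0) =
    ∑ X ∈ Fintype.piFinset (fun _ : κ => F.bx Y),
      (if F.Dj X then (∏ k, ∏ p ∈ X k, ∑ i ∈ Finset.univ.filter (fun i => π i = k), f X i p) * Φ X
        else 0) := by
  have h0 : ∑ x ∈ Fintype.piFinset (fun _ : ι => F.bx Y),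
      (if F.Dj x then (∏ i, ∏ p ∈ x i, f (F.psh π x) i p) * Φ (F.psh π x) else 0) =
    ∑ x ∈ (Fintype.piFinset (fun _ : ι => F.bx Y)).filter
        (fun x => F.Dj x ∧ Φ (F.psh π x) ≠ 0),
      (∏ i, ∏ p ∈ x i, f (F.psh π x) i p) * Φ (F.psh π x) := by
    rw [Finset.sum_filter]
    refine Finset.sum_congr rfl fun x _ => ?_
    by_cases h1 : F.Dj x
    · by_cases h2 : Φ (F.psh π x) = 0
      · rw [if_pos h1, if_neg (fun h => h.2 h2), h2, mul_zero]
      · rw [if_pos h1, if_pos ⟨h1, h2⟩]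
    · rw [if_neg h1, if_neg (fun h => h1 h.1)]
  have hmaps : ∀ x ∈ (Fintype.piFinset (fun _ : ι => F.bx Y)).filter
      (fun x => F.Dj x ∧ Φ (F.psh π x) ≠ 0),
      F.psh π x ∈ Fintype.piFinset (fun _ : κ => F.bx Y) := by
    intro x hx
    obtain ⟨-, -, h2⟩ := Finset.mem_filter.1 hx
    exact Fintype.mem_piFinset.2 (hΦ _ h2)
  rw [h0, ← Finset.sum_fiberwise_of_maps_to hmaps]
  refine Finset.sum_congr rfl fun X hX => ?_
  by_cases h2 : Φ X = 0
  · rw [h2, mul_zero, ite_self]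
    refine Finset.sum_eq_zero fun x hx => ?_
    rw [(Finset.mem_filter.1 hx).2, h2, mul_zero]
  by_cases h1 : F.Dj X
  · rw [if_pos h1, e0_tuple F π (f X) Y X (Fintype.mem_piFinset.1 hX) h1, Finset.sum_mul,
      Finset.filter_filter]
    refine Finset.sum_congr ?_ ?_
    · refine Finset.filter_congr fun x _ => ?_
      constructor
      · rintro ⟨⟨h3, -⟩, h4⟩
        exact ⟨h3, h4⟩
      · rintro ⟨h3, h4⟩
        exact ⟨⟨h3, by rw [h4]; exact h2⟩, h4⟩
    · intro x hx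
      rw [(Finset.mem_filter.1 hx).2.2]
  · rw [if_neg h1]
    refine Finset.sum_eq_zero fun x hx => ?_
    obtain ⟨h3, h4⟩ := Finset.mem_filter.1 hx
    obtain ⟨-, h5, -⟩ := Finset.mem_filter.1 h3
    exact absurd (by rw [← h4]; exact e0_Dj_psh F π h5) h1

end Pool.Agent.H98.MF
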