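import Pool.Agent.H98.MF.SCls
import Pool.Agent.H98.MF.SExpGen
import Pool.Agent.H98.ML.ExpLoc

/-!
# Project MK4 (MP_a3214d), row MF-E1, part 1: classes and local factors (helper64)
-/

set_option autoImplicit false

open scoped BigOperators

namespace Pool.Agent.H98.MF

open Pool.Agent.H98.MK (sg sum_sg)
open Pool.Agent.H98.ML (Dt Ext Wt x2_crep x2_crep_congr x2_conj_v x2_conj_ind x2_conj_one
  x2_wt_ge x2_wt_conj x2_q x2_B_symm x2_B_self x2_B_zero_left x2_mem_act card_conj sum_zrep)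

open Classical in
/-- the representative of a class of least index -/
noncomputable def e1pi {D : Dt} (w : Wt D) (g : Ext D) : Ext D :=
  if w.ind g = w.m then D.crep g else g

theorem e1_pi_conj {D : Dt} (w : Wt D) (g : Ext D) : IsConj g (e1pi w g) := by
  unfold e1pi
  split_ifs
  · exact x2_crep g
  · exact IsConj.refl g

theorem e1_pi_min {D : Dt} (w : Wt D) (g k : Ext D) (hg : w.ind g = w.m) :
    e1pi w k = g ↔ D.crep g = g ∧ IsConj k g := by
  constructor
  · intro h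
    have h1 := e1_pi_conj w k
    rw [h] at h1
    have h2 : w.ind k = w.m := by rw [← x2_conj_ind w h1]; exact hg
    unfold e1pi at h
    rw [if_pos h2] at h
    refine ⟨?_, h1⟩
    rw [← x2_crep_congr h1]
    exact h
  · rintro ⟨h, h1⟩
    have h2 : w.ind k = w.m := by rw [← x2_conj_ind w h1]; exact hg
    unfold e1pi
    rw [if_pos h2, x2_crep_congr h1, h]

theorem e1_pi_max {D : Dt} (w : Wt D) (g k : Ext D) (hg : w.ind g ≠ w.m) :
    e1pi w k = g ↔ k = g := by
  constructor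
  · intro h
    have h1 := e1_pi_conj w k
    rw [h] at h1
    have h2 : w.ind k ≠ w.m := by rw [← x2_conj_ind w h1]; exact hg
    unfold e1pi at h
    rw [if_neg h2] at h
    exact h
  · rintro rfl
    unfold e1pi
    rw [if_neg hg]

theorem e1_cls (F : Sys) {D : Dt} (w : Wt D) (x : Ext D → Finset F.P) :
    F.psh (e1pi w) x = F.cls w x := by
  classical
  funext g
  ext p
  rw [e0_mem_psh]
  unfold Sys.cls
  by_cases hg : w.ind g = w.m
  · rw [if_pos hg]
    by_cases hr : D.crep g = g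
    · rw [if_pos hr, Finset.mem_biUnion]
      constructor
      · rintro ⟨k, hk, hp⟩
        exact ⟨k, Finset.mem_filter.2 ⟨Finset.mem_univ _, ((e1_pi_min w g k hg).1 hk).2⟩, hp⟩
      · rintro ⟨k, hk, hp⟩
        exact ⟨k, (e1_pi_min w g k hg).2 ⟨hr, (Finset.mem_filter.1 hk).2⟩, hp⟩
    · rw [if_neg hr]
      constructor
      · rintro ⟨k, hk, -⟩
        exact absurd ((e1_pi_min w g k hg).1 hk).1 hr
      · intro h
        exact absurd h (Finset.notMem_empty _)
  · rw [if_neg hg]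
    constructor
    · rintro ⟨k, hk, hp⟩
      rwa [(e1_pi_max w g k hg).1 hk] at hp
    · intro h
      exact ⟨g, (e1_pi_max w g g hg).2 rfl, h⟩

theorem e1_clx (F : Sys) {D : Dt} (x : F.IX D → Finset F.P) :
    F.psh (fun i : F.IX D => i.1.1) x = F.clx x := by
  classical
  funext g
  ext p
  rw [e0_mem_psh]
  unfold Sys.clx
  rw [Finset.mem_biUnion]
  constructor
  · rintro ⟨k, hk, hp⟩
    exact ⟨k, Finset.mem_filter.2 ⟨Finset.mem_univ _, hk⟩, hp⟩
  · rintro ⟨k, hk, hp⟩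
    exact ⟨k, (Finset.mem_filter.1 hk).2, hp⟩

theorem e1_mem_mV (F : Sys) {D : Dt} (x : Ext D → Finset F.P) (v : D.V) (p : F.P) :
    p ∈ F.mV x v ↔ v ≠ 0 ∧ ∃ g : Ext D, g.v = v ∧ p ∈ x g := by
  classical
  unfold Sys.mV
  by_cases hv : v = 0
  · rw [if_pos hv]
    exact ⟨fun h => absurd h (Finset.notMem_empty _), fun h => absurd hv h.1⟩
  · rw [if_neg hv, Finset.mem_biUnion]
    constructor
    · rintro ⟨g, hg, hp⟩
      exact ⟨hv, g, (Finset.mem_filter.1 hg).2, hp⟩
    · rintro ⟨-, g, hg, hp⟩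
      exact ⟨g, Finset.mem_filter.2 ⟨Finset.mem_univ _, hg⟩, hp⟩

theorem e1_mem_mof (F : Sys) {D : Dt} (x : F.IX D → Finset F.P) (v : D.V) (p : F.P) :
    p ∈ F.mof x v ↔ v ≠ 0 ∧ ∃ i : F.IX D, i.1.1.v = v ∧ p ∈ x i := by
  classical
  unfold Sys.mof
  by_cases hv : v = 0
  · rw [if_pos hv]
    exact ⟨fun h => absurd h (Finset.notMem_empty _), fun h => absurd hv h.1⟩
  · rw [if_neg hv, Finset.mem_biUnion]
    constructor
    · rintro ⟨g, hg, hp⟩
      exact ⟨hv, g, (Finset.mem_filter.1 hg).2, hp⟩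
    · rintro ⟨-, g, hg, hp⟩
      exact ⟨g, Finset.mem_filter.2 ⟨Finset.mem_univ _, hg⟩, hp⟩

theorem e1_mV_psh (F : Sys) {D : Dt} {ι : Type} [Fintype ι] (π : ι → Ext D)
    (x : ι → Finset F.P) (v : D.V) (p : F.P) :
    p ∈ F.mV (F.psh π x) v ↔ v ≠ 0 ∧ ∃ i : ι, (π i).v = v ∧ p ∈ x i := by
  rw [e1_mem_mV]
  refine and_congr_right fun _ => ?_
  constructor
  · rintro ⟨g, hg, hp⟩
    obtain ⟨i, hi, hp⟩ := (e0_mem_psh F π x g p).1 hp
    exact ⟨i, by rw [hi]; exact hg, hp⟩
  · rintro ⟨i, hi, hp⟩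
    exact ⟨π i, hi, (e0_mem_psh F π x _ p).2 ⟨i, rfl, hp⟩⟩

/-- conjugate elements have the same vector -/
theorem mV_cls (F : Sys) {D : Dt} (w : Wt D) (x : Ext D → Finset F.P) :
    F.mV (F.cls w x) = F.mV x := by
  funext v
  ext p
  rw [← e1_cls, e1_mV_psh, e1_mem_mV]
  refine and_congr_right fun _ => ?_
  constructor
  · rintro ⟨i, hi, hp⟩
    exact ⟨i, by rw [← x2_conj_v (e1_pi_conj w i)]; exact hi, hp⟩
  · rintro ⟨i, hi, hp⟩
    exact ⟨i, by rw [x2_conj_v (e1_pi_conj w i)]; exact hi, hp⟩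

theorem mV_clx (F : Sys) {D : Dt} (x : F.IX D → Finset F.P) :
    F.mV (F.clx x) = F.mof x := by
  funext v
  ext p
  rw [← e1_clx, e1_mV_psh, e1_mem_mof]

/-! ### sizes -/

theorem e1_size (F : Sys) {D : Dt} (w : Wt D) {ι : Type} [Fintype ι] (π : ι → Ext D)
    (x : ι → Finset F.P) (hd : F.Dj x) :
    ∏ g, (F.nm (F.psh π x g) : ℝ) ^ w.wt g = ∏ i, (F.nm (x i) : ℝ) ^ w.wt (π i) := by
  classical
  rw [← Finset.prod_fiberwise Finset.univ π (fun i => (F.nm (x i) : ℝ) ^ w.wt (π i))]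
  refine Finset.prod_congr rfl fun g _ => ?_
  unfold Sys.psh
  rw [F.nm_biUnion _ _ (fun i _ j _ hij => hd i j hij), Nat.cast_prod,
    ← Real.finsetProd_rpow _ _ (fun ζ _ => Nat.cast_nonneg _)]
  refine Finset.prod_congr ?_ fun k hk => ?_
  · congr!
  · rw [(Finset.mem_filter.1 hk).2]

theorem e1_box (F : Sys) {D : Dt} (w : Wt D) (Y : ℝ) (X : Ext D → Finset F.P)
    (hY : ∏ g, (F.nm (X g) : ℝ) ^ w.wt g ≤ Y) (g : Ext D) : X g ∈ F.bx Y := by
  rw [F.mem_bx]
  have h0 : ∀ u, (1 : ℝ) ≤ F.nm (X u) := fun u => F.one_le_nmr _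
  have h1 : ∀ u, (F.nm (X u) : ℝ) ≤ (F.nm (X u) : ℝ) ^ w.wt u := fun u =>
    Real.self_le_rpow_of_one_le (h0 u) (x2_wt_ge w u)
  have h2 : (F.nm (X g) : ℝ) ^ w.wt g ≤ ∏ g, (F.nm (X g) : ℝ) ^ w.wt g := by
    rw [← Finset.mul_prod_erase Finset.univ (fun g => (F.nm (X g) : ℝ) ^ w.wt g)
      (Finset.mem_univ g)]
    refine le_mul_of_one_le_right ((zero_le_one.trans (h0 g)).trans (h1 g)) ?_
    exact Finset.one_le_prod fun u _ => (h0 u).trans (h1 u)
  exact (h1 g).trans (h2.trans hY)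

/-! ### local factors -/

theorem e1_fib {D : Dt} (f : D.P → ℝ) (g : Ext D) :
    ∑ k ∈ Finset.univ.filter (fun k : D.P => k.1 = g), f k = ∑ ζ : D.Z, f (g, ζ) :=
  ML.x2_fib f g

open Classical in
theorem e1_local0 {D : Dt} (w : Wt D) (X : D.V → D.Z)
    (hX : ∀ v, D.q v = 0 → ∃ u, X v = D.B v u) (g : Ext D) :
    ∑ k ∈ Finset.univ.filter (fun k : Ext D => e1pi w k = g),
      (if k = 1 then (0 : ℝ) else if X k.v = 0 then 1 else 0) =
    ∑ ζ : D.Z, (if (g, ζ) ∈ w.act then (if w.ind g = w.m then 1 else 1 / 2 ^ D.s) *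
      (sg (ζ ⬝ᵥ X g.v) : ℝ) else 0) := by
  by_cases hg : g = 1
  · subst hg
    rw [Finset.sum_eq_zero, Finset.sum_eq_zero]
    · intro ζ _
      rw [if_neg]
      rw [x2_mem_act]
      exact fun h => h.1 rfl
    · intro k hk
      have h1 := (Finset.mem_filter.1 hk).2
      have h2 := e1_pi_conj w k
      rw [h1] at h2
      rw [if_pos ((x2_conj_one h2).1 rfl)]
  · by_cases hi : w.ind g = w.m
    · by_cases hr : D.crep g = g
      · obtain ⟨u, hu⟩ := hX g.v (x2_q w g hi)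
        have hL : ∑ k ∈ Finset.univ.filter (fun k : Ext D => e1pi w k = g),
            (if k = 1 then (0 : ℝ) else if X k.v = 0 then 1 else 0) =
            (Nat.card {h : Ext D // IsConj g h} : ℝ) * (if X g.v = 0 then 1 else 0) := by
          have h1 : Finset.univ.filter (fun k : Ext D => e1pi w k = g) =
              Finset.univ.filter (fun k : Ext D => IsConj g k) := by
            refine Finset.filter_congr fun k _ => ?_
            rw [e1_pi_min w g k hi]
            exact ⟨fun h => h.2.symm, fun h => ⟨hr, h.symm⟩⟩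
          rw [h1]
          have h2 : ∀ k ∈ Finset.univ.filter (fun k : Ext D => IsConj g k),
              (if k = 1 then (0 : ℝ) else if X k.v = 0 then 1 else 0) =
                if X g.v = 0 then 1 else 0 := by
            intro k hk
            have h3 := (Finset.mem_filter.1 hk).2
            rw [if_neg fun h4 => hg ((x2_conj_one h3).1 h4), x2_conj_v h3]
          rw [Finset.sum_congr rfl h2, Finset.sum_const, nsmul_eq_mul]
          congr 1
          rw [Nat.card_eq_fintype_card, Fintype.card_subtype]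
        have hR : ∑ ζ : D.Z, (if (g, ζ) ∈ w.act then
            (if w.ind g = w.m then 1 else 1 / 2 ^ D.s) * (sg (ζ ⬝ᵥ X g.v) : ℝ) else 0) =
            (Nat.card {ζ : D.Z // D.zrep g.v ζ = ζ} : ℝ) * (if X g.v = 0 then 1 else 0) := by
          have h1 : ∀ ζ : D.Z, (if (g, ζ) ∈ w.act then
              (if w.ind g = w.m then 1 else 1 / 2 ^ D.s) * (sg (ζ ⬝ᵥ X g.v) : ℝ) else 0) =
              if D.zrep g.v ζ = ζ then (sg (ζ ⬝ᵥ D.B g.v u) : ℝ) else 0 := by
            intro ζ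
            by_cases h2 : D.zrep g.v ζ = ζ
            · rw [if_pos h2, if_pos ((x2_mem_act w (g, ζ)).2 ⟨hg, fun _ => ⟨hr, h2⟩⟩),
                if_pos hi, one_mul, hu]
            · rw [if_neg h2, if_neg fun h3 => h2 (((x2_mem_act w (g, ζ)).1 h3).2 hi).2]
          rw [Finset.sum_congr rfl fun ζ _ => h1 ζ, ← Finset.sum_filter]
          have h3 := sum_zrep D g.v u
          have h4 : ∑ ζ ∈ Finset.univ.filter (fun ζ : D.Z => D.zrep g.v ζ = ζ),
              (sg (ζ ⬝ᵥ D.B g.v u) : ℝ) = ((∑ ζ ∈ Finset.univ.filter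
                (fun ζ : D.Z => D.zrep g.v ζ = ζ), sg (ζ ⬝ᵥ D.B g.v u) : ℤ) : ℝ) := by
            push_cast
            rfl
          rw [h4, h3, hu]
          by_cases h5 : D.B g.v u = 0
          · rw [if_pos h5, if_pos h5, mul_one]
            push_cast
            rfl
          · rw [if_neg h5, if_neg h5, mul_zero]
            simp
        rw [hL, hR, card_conj]
      · rw [Finset.sum_eq_zero, Finset.sum_eq_zero]
        · intro ζ _
          rw [if_neg]
          rw [x2_mem_act]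
          exact fun h => hr (h.2 hi).1
        · intro k hk
          exfalso
          exact hr ((e1_pi_min w g k hi).1 (Finset.mem_filter.1 hk).2).1
    · have h1 : Finset.univ.filter (fun k : Ext D => e1pi w k = g) = {g} := by
        ext k
        rw [Finset.mem_filter, Finset.mem_singleton, e1_pi_max w g k hi]
        exact ⟨fun h => h.2, fun h => ⟨Finset.mem_univ _, h⟩⟩
      rw [h1, Finset.sum_singleton]
      have h2 : ∀ ζ : D.Z, (if (g, ζ) ∈ w.act then
            (if w.ind g = w.m then 1 else 1 / 2 ^ D.s) * (sg (ζ ⬝ᵥ X g.v) : ℝ) else 0) =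
          1 / 2 ^ D.s * (sg (ζ ⬝ᵥ X g.v) : ℝ) := by
        intro ζ
        rw [if_pos ((x2_mem_act w (g, ζ)).2 ⟨hg, fun h => absurd h hi⟩), if_neg hi]
      rw [Finset.sum_congr rfl fun ζ _ => h2 ζ, ← Finset.mul_sum]
      have h3 := sum_sg (X g.v)
      have h4 : ∑ ζ : D.Z, (sg (ζ ⬝ᵥ X g.v) : ℝ) =
          ((∑ ζ : D.Z, sg (ζ ⬝ᵥ X g.v) : ℤ) : ℝ) := by
        push_cast
        rfl
      rw [h4, h3, if_neg hg]
      by_cases h5 : X g.v = 0
      · rw [if_pos h5, if_pos h5]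
        push_cast
        rw [one_div, inv_mul_cancel₀]
        positivity
      · rw [if_neg h5, if_neg h5]
        simp

end Pool.Agent.H98.MF
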