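import Pool.Agent.H98.MF.SExpLoc

/-!
# Project MK4 (MP_a3214d), row MF-E1, part 2: the local condition and the sign (helper64)
-/

set_option autoImplicit false

open scoped BigOperators

namespace Pool.Agent.H98.MF

open Pool.Agent.H98.MK (sg sum_sg)
open Pool.Agent.H98.ML (Dt Ext Wt x2_crep x2_crep_congr x2_conj_v x2_conj_ind x2_conj_one
  x2_wt_ge x2_wt_conj x2_q x2_B_symm x2_B_self x2_B_zero_left x2_mem_act)

/-- the obstruction at `p` -/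
def e1X (F : Sys) {D : Dt} (a : Fin F.m → D.V) (μ : D.V → Finset F.P) (p : F.P) (v : D.V) :
    D.Z :=
  ∑ u : D.V, (∑ q ∈ μ u, F.J q p) • D.B u v + ∑ j, F.ty p j • D.B (a j) v + F.lam p • D.q v

theorem e1_okp (F : Sys) {D : Dt} (a : Fin F.m → D.V) (μ : D.V → Finset F.P) (v : D.V)
    (p : F.P) : F.okp a μ v p ↔ e1X F a μ p v = 0 := by
  unfold Sys.okp e1X
  have h2 := Ext.two_Z (F.lam p • D.q v)
  constructor
  · intro h
    rw [h]
    exact h2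
  · intro h
    calc ∑ u : D.V, (∑ q ∈ μ u, F.J q p) • D.B u v + ∑ j, F.ty p j • D.B (a j) v
        = ∑ u : D.V, (∑ q ∈ μ u, F.J q p) • D.B u v + ∑ j, F.ty p j • D.B (a j) v +
          (F.lam p • D.q v + F.lam p • D.q v) := by rw [h2, add_zero]
      _ = F.lam p • D.q v := by rw [← add_assoc, h, zero_add]

/-- the obstruction is a commutator with `v` if `q v = 0` -/
theorem e1_X_iso (F : Sys) {D : Dt} (a : Fin F.m → D.V) (μ : D.V → Finset F.P) (p : F.P)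
    (v : D.V) (hv : D.q v = 0) : ∃ w, e1X F a μ p v = D.B v w := by
  refine ⟨∑ u : D.V, (∑ q ∈ μ u, F.J q p) • u + ∑ j, F.ty p j • a j, ?_⟩
  unfold e1X
  rw [hv, smul_zero, add_zero]
  unfold Dt.B
  simp only [map_add, map_sum, map_smul, LinearMap.add_apply, LinearMap.smul_apply,
    LinearMap.sum_apply, smul_add, Finset.sum_add_distrib]
  abel

theorem e1_dot (F : Sys) {D : Dt} (a : Fin F.m → D.V) (μ : D.V → Finset F.P) (p : F.P)
    (v : D.V) (ζ : D.Z) :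
    ζ ⬝ᵥ e1X F a μ p v = ∑ u : D.V, (∑ q ∈ μ u, F.J q p) * (ζ ⬝ᵥ D.B u v) +
      ∑ j, F.ty p j * (ζ ⬝ᵥ D.B (a j) v) + F.lam p * (ζ ⬝ᵥ D.q v) := by
  unfold e1X
  simp only [dotProduct_add, dotProduct_sum, dotProduct_smul, smul_eq_mul]

theorem e1_JJ_mof (F : Sys) {D : Dt} (x : F.IX D → Finset F.P) (hd : F.Dj x)
    (y : Finset F.P) (v : D.V) (ζ : D.Z) :
    ∑ p ∈ y, ∑ u : D.V, (∑ q ∈ F.mof x u, F.J q p) * (ζ ⬝ᵥ D.B u v) =
      ∑ j : F.IX D, (ζ ⬝ᵥ D.B v j.1.1.v) * F.JJ y (x j) := by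
  classical
  rw [Finset.sum_comm]
  rw [← Finset.sum_fiberwise (s := Finset.univ) (g := fun j : F.IX D => j.1.1.v)
    (f := fun j : F.IX D => (ζ ⬝ᵥ D.B v j.1.1.v) * F.JJ y (x j))]
  refine Finset.sum_congr rfl fun u _ => ?_
  rw [← Finset.sum_mul]
  by_cases hu : u = 0
  · subst hu
    rw [x2_B_zero_left, dotProduct_zero, mul_zero]
    symm
    refine Finset.sum_eq_zero fun j hj => ?_
    rw [(Finset.mem_filter.1 hj).2, x2_B_symm, x2_B_zero_left, dotProduct_zero, zero_mul]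
  · have h1 : ∑ p ∈ y, ∑ q ∈ F.mof x u, F.J q p = F.JJ y (F.mof x u) := rfl
    have h2 : F.mof x u = (Finset.univ.filter fun i : F.IX D => i.1.1.v = u).biUnion x := by
      ext p
      rw [e1_mem_mof, Finset.mem_biUnion]
      constructor
      · rintro ⟨-, i, hi, hp⟩
        exact ⟨i, Finset.mem_filter.2 ⟨Finset.mem_univ _, hi⟩, hp⟩
      · rintro ⟨i, hi, hp⟩
        exact ⟨hu, i, (Finset.mem_filter.1 hi).2, hp⟩
    rw [h1, h2, F.JJ_biUnion_right _ _ _ (fun i _ j _ hij => hd i j hij), Finset.sum_mul]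
    refine Finset.sum_congr rfl fun j hj => ?_
    rw [(Finset.mem_filter.1 hj).2, x2_B_symm, mul_comm]

/-- the sign of an expanded term -/
theorem e1_sign (F : Sys) {D : Dt} (a : Fin F.m → D.V) (x : F.IX D → Finset F.P)
    (hd : F.Dj x) :
    ∏ i : F.IX D, ∏ p ∈ x i,
      sg (i.1.2 ⬝ᵥ e1X F a (F.mof x) p i.1.1.v + i.2 ⬝ᵥ F.ty p) = F.sgn a x := by
  unfold Sys.sgn
  have h0 : ∀ i : F.IX D, ∏ p ∈ x i,
      sg (i.1.2 ⬝ᵥ e1X F a (F.mof x) p i.1.1.v + i.2 ⬝ᵥ F.ty p) =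
      sg (∑ j : F.IX D, D.e i.1 j.1 * F.JJ (x i) (x j) +
        (F.l ⬝ᵥ F.tys (x i)) * (i.1.2 ⬝ᵥ D.q i.1.1.v) +
        ∑ k, F.tys (x i) k * (i.1.2 ⬝ᵥ D.B (a k) i.1.1.v) + i.2 ⬝ᵥ F.tys (x i)) := by
    intro i
    rw [← sg_sum]
    congr 1
    rw [Finset.sum_add_distrib, F.dot_tys i.2]
    congr 1
    rw [Finset.sum_congr rfl fun p _ => e1_dot F a (F.mof x) p i.1.1.v i.1.2]
    rw [Finset.sum_add_distrib, Finset.sum_add_distrib, e1_JJ_mof F x hd]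
    have h1 : ∑ p ∈ x i, ∑ j, F.ty p j * (i.1.2 ⬝ᵥ D.B (a j) i.1.1.v) =
        ∑ k, F.tys (x i) k * (i.1.2 ⬝ᵥ D.B (a k) i.1.1.v) := by
      rw [Finset.sum_comm]
      refine Finset.sum_congr rfl fun k _ => ?_
      unfold Sys.tys
      rw [Finset.sum_apply, Finset.sum_mul]
    have h2 : ∑ p ∈ x i, F.lam p * (i.1.2 ⬝ᵥ D.q i.1.1.v) =
        (F.l ⬝ᵥ F.tys (x i)) * (i.1.2 ⬝ᵥ D.q i.1.1.v) := by
      rw [F.dot_tys, Finset.sum_mul]
      rfl
    rw [h1, h2]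
    unfold Dt.e
    ring
  rw [Finset.prod_congr rfl fun i _ => h0 i, ← sg_sum]
  congr 1
  rw [Finset.sum_add_distrib, Finset.sum_add_distrib, Finset.sum_add_distrib]

end Pool.Agent.H98.MF
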