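import Pool.Agent.H98.MF.SExpGen
import Pool.Agent.H98.ML.CardConj

/-!
# Project MK4 (MP_a3214d), row MF-P3: the expansion of the positive family (helper17)
-/

set_option autoImplicit false

open scoped BigOperators

namespace Pool.Agent.H98.MF

open Pool.Agent.H98.MK (sg)
open Pool.Agent.H98.ML (Dt Ext Wt)

/-! ### representatives -/

theorem p3_crep_mk {D : Dt} (g : Ext D) : ConjClasses.mk (D.crep g) = ConjClasses.mk g :=
  Quotient.out_eq _

theorem p3_crep_conj {D : Dt} (g : Ext D) : IsConj (D.crep g) g :=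
  ConjClasses.mk_eq_mk_iff_isConj.1 (p3_crep_mk g)

theorem p3_crep_congr {D : Dt} {g h : Ext D} (hgh : IsConj g h) : D.crep g = D.crep h := by
  unfold Dt.crep
  rw [ConjClasses.mk_eq_mk_iff_isConj.2 hgh]

theorem p3_crep_crep {D : Dt} (g : Ext D) : D.crep (D.crep g) = D.crep g :=
  p3_crep_congr (p3_crep_conj g)

theorem p3_conj_v {D : Dt} {g h : Ext D} (hgh : IsConj g h) : g.v = h.v := by
  obtain ⟨c, rfl⟩ := isConj_iff.1 hgh
  simp only [Ext.mul_v, Ext.inv_v]
  calc g.v = g.v + (c.v + c.v) := by rw [Ext.two_V, add_zero]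
    _ = c.v + g.v + c.v := by abel

theorem p3_crep_v {D : Dt} (g : Ext D) : (D.crep g).v = g.v := p3_conj_v (p3_crep_conj g)

theorem p3_IsM_conj {D : Dt} (w : Wt D) {g h : Ext D} (hgh : IsConj g h) :
    w.IsM g ↔ w.IsM h := by
  obtain ⟨c, rfl⟩ := isConj_iff.1 hgh
  unfold Wt.IsM
  rw [w.conj]
  refine and_congr_left fun _ => not_congr ?_
  rw [conj_eq_one_iff]

theorem p3_IsM_crep {D : Dt} (w : Wt D) (g : Ext D) : w.IsM (D.crep g) ↔ w.IsM g :=
  p3_IsM_conj w (p3_crep_conj g)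

open Classical in
theorem p3_mem_actM {D : Dt} (w : Wt D) (i : D.P) :
    i ∈ w.actM ↔ (w.IsM i.1 ∧ D.crep i.1 = i.1) ∧ D.zrep i.1.v i.2 = i.2 := by
  unfold Wt.actM Wt.act Wt.IsM
  simp only [Finset.mem_filter, Finset.mem_univ, true_and]
  tauto

/-- the commutator map -/
noncomputable def p3B {D : Dt} (v : D.V) : D.V →ₗ[ZMod 2] D.Z := D.β v + D.β.flip v

theorem p3B_apply {D : Dt} (v w : D.V) : p3B v w = D.B v w := rfl

theorem p3_B_zero {D : Dt} (v : D.V) : D.B v 0 = 0 := by rw [← p3B_apply, map_zero]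

open Classical in
/-- the coefficients of both expansions agree -/
theorem p3_coef {D : Dt} (w : Wt D) (k : Ext D) (hk : w.IsM k ∧ D.crep k = k) (W : D.V) :
    ∑ g ∈ (Finset.univ.filter fun g => w.IsM g).filter (fun g => D.crep g = k),
      (if D.B g.v W = 0 then (1 : ℤ) else 0) =
    ∑ i ∈ w.actM.filter (fun i => i.1 = k), sg (i.2 ⬝ᵥ D.B i.1.v W) := by
  have h1 : ∑ i ∈ w.actM.filter (fun i => i.1 = k), sg (i.2 ⬝ᵥ D.B i.1.v W) =
      ∑ ζ ∈ Finset.univ.filter (fun ζ : D.Z => D.zrep k.v ζ = ζ), sg (ζ ⬝ᵥ D.B k.v W) := by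
    refine Finset.sum_bij' (fun i _ => i.2) (fun ζ _ => (k, ζ)) ?_ ?_ ?_ ?_ ?_
    · intro i hi
      obtain ⟨h2, h3⟩ := Finset.mem_filter.1 hi
      rw [p3_mem_actM] at h2
      rw [← h3]
      exact Finset.mem_filter.2 ⟨Finset.mem_univ _, h2.2⟩
    · intro ζ hζ
      refine Finset.mem_filter.2 ⟨(p3_mem_actM w _).2 ⟨hk, (Finset.mem_filter.1 hζ).2⟩, rfl⟩
    · intro i hi
      have h3 := (Finset.mem_filter.1 hi).2
      exact Prod.ext h3.symm rfl
    · intro ζ _
      rfl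
    · intro i hi
      have h3 := (Finset.mem_filter.1 hi).2
      rw [h3]
  have h2 : (Finset.univ.filter fun g => w.IsM g).filter (fun g => D.crep g = k) =
      Finset.univ.filter fun g => IsConj k g := by
    ext g
    simp only [Finset.mem_filter, Finset.mem_univ, true_and]
    constructor
    · rintro ⟨-, rfl⟩
      exact p3_crep_conj g
    · intro h
      exact ⟨(p3_IsM_conj w h).1 hk.1, by rw [← p3_crep_congr h, hk.2]⟩
  have h3 : ∀ g ∈ Finset.univ.filter fun g => IsConj k g,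
      (if D.B g.v W = 0 then (1 : ℤ) else 0) = if D.B k.v W = 0 then 1 else 0 := by
    intro g hg
    rw [p3_conj_v (Finset.mem_filter.1 hg).2]
  rw [h1, Pool.Agent.H98.ML.sum_zrep, h2, Finset.sum_congr rfl h3, Finset.sum_const, nsmul_eq_mul,
    ← Pool.Agent.H98.ML.card_conj D k, Nat.card_eq_fintype_card, Fintype.card_subtype]
  split_ifs
  · rw [mul_one]
  · rw [mul_zero]

/-! ### signs -/

/-- the vector of a prime -/
noncomputable def p3W (F : Sys) {D : Dt} (π : Pr F D) (μ : D.V → Finset F.P) (p : F.P) : D.V :=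
  F.frob π p + ∑ u : D.V, (∑ q ∈ μ u, F.J q p) • u

theorem p3_dot (F : Sys) {D : Dt} (π : Pr F D) (μ : D.V → Finset F.P) (p : F.P) (v : D.V)
    (ζ : D.Z) : ζ ⬝ᵥ D.B v (p3W F π μ p) = ζ ⬝ᵥ D.B v (F.frob π p) +
      ∑ u : D.V, (∑ q ∈ μ u, F.J q p) * (ζ ⬝ᵥ D.B v u) := by
  unfold p3W
  rw [← p3B_apply, map_add, map_sum, dotProduct_add, dotProduct_sum, p3B_apply]
  congr 1
  refine Finset.sum_congr rfl fun u _ => ?_
  rw [map_smul, dotProduct_smul, smul_eq_mul, p3B_apply]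

/-- the exponent of one index -/
theorem p3_one (F : Sys) {D : Dt} (π : Pr F D) (μ : D.V → Finset F.P) (x : Finset F.P) (v : D.V)
    (ζ : D.Z) : ∑ p ∈ x, ζ ⬝ᵥ D.B v (p3W F π μ p) =
      ∑ u : D.V, F.JJ x (μ u) * (ζ ⬝ᵥ D.B v u) + ζ ⬝ᵥ D.B v (F.frobs π x) := by
  rw [Finset.sum_congr rfl fun p _ => p3_dot F π μ p v ζ, Finset.sum_add_distrib, add_comm]
  congr 1
  · rw [Finset.sum_comm]
    refine Finset.sum_congr rfl fun u _ => ?_
    unfold Sys.JJ
    rw [Finset.sum_mul]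
  · unfold Sys.frobs
    rw [← dotProduct_sum, ← p3B_apply, map_sum]
    rfl

theorem p3_two (F : Sys) {D : Dt} (x : D.P → Finset F.P) (hd : F.Dj x) (i : D.P) :
    ∑ u : D.V, F.JJ (x i) (F.mP x u) * (i.2 ⬝ᵥ D.B i.1.v u) =
      ∑ j, D.e i j * F.JJ (x i) (x j) := by
  classical
  rw [← Finset.sum_fiberwise (Finset.univ : Finset D.P) (fun j => j.1.v)
    (fun j => D.e i j * F.JJ (x i) (x j))]
  refine Finset.sum_congr rfl fun u _ => ?_
  have h1 : ∑ j ∈ Finset.univ.filter (fun j : D.P => j.1.v = u), D.e i j * F.JJ (x i) (x j) =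
      (i.2 ⬝ᵥ D.B i.1.v u) *
        ∑ j ∈ Finset.univ.filter (fun j : D.P => j.1.v = u), F.JJ (x i) (x j) := by
    rw [Finset.mul_sum]
    refine Finset.sum_congr rfl fun j hj => ?_
    unfold Dt.e
    rw [(Finset.mem_filter.1 hj).2]
  rw [h1, mul_comm]
  by_cases hu : u = 0
  · rw [hu, p3_B_zero, dotProduct_zero, zero_mul, zero_mul]
  · congr 1
    unfold Sys.mP
    rw [if_neg hu, F.JJ_biUnion_right _ _ _ fun i _ j _ hij => hd i j hij]

/-- the sign of a tuple -/
theorem p3_sign (F : Sys) {D : Dt} (π : Pr F D) (x : D.P → Finset F.P) (hd : F.Dj x) :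
    ∏ i : D.P, ∏ p ∈ x i, sg (i.2 ⬝ᵥ D.B i.1.v (p3W F π (F.mP x) p)) = F.sgF π x := by
  unfold Sys.sgF
  rw [Finset.prod_congr rfl fun i _ => (sg_sum (x i) fun p =>
    i.2 ⬝ᵥ D.B i.1.v (p3W F π (F.mP x) p)).symm, ← sg_sum]
  congr 1
  rw [← Finset.sum_add_distrib]
  refine Finset.sum_congr rfl fun i _ => ?_
  rw [p3_one, p3_two F x hd]

/-! ### grouped tuples -/

theorem p3_mV_psh (F : Sys) {D : Dt} {ι : Type} [Fintype ι] (φ : ι → Ext D)
    (y : ι → Finset F.P) (v : D.V) (p : F.P) :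
    p ∈ F.mV (F.psh φ y) v ↔ v ≠ 0 ∧ ∃ i, (φ i).v = v ∧ p ∈ y i := by
  classical
  unfold Sys.mV
  split_ifs with hv
  · simp [hv]
  · rw [Finset.mem_biUnion]
    constructor
    · rintro ⟨g, hg, hp⟩
      obtain ⟨i, hi, hpi⟩ := (e0_mem_psh F φ y g p).1 hp
      refine ⟨hv, i, ?_, hpi⟩
      rw [hi]
      exact (Finset.mem_filter.1 hg).2
    · rintro ⟨-, i, hi, hpi⟩
      exact ⟨φ i, Finset.mem_filter.2 ⟨Finset.mem_univ _, hi⟩,
        (e0_mem_psh F φ y _ p).2 ⟨i, rfl, hpi⟩⟩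

theorem p3_mV_crep (F : Sys) {D : Dt} (y : Ext D → Finset F.P) :
    F.mV (F.psh D.crep y) = F.mV y := by
  classical
  funext v
  ext p
  rw [p3_mV_psh]
  unfold Sys.mV
  split_ifs with hv
  · simp [hv]
  · rw [Finset.mem_biUnion]
    constructor
    · rintro ⟨-, g, hg, hp⟩
      rw [p3_crep_v] at hg
      exact ⟨g, Finset.mem_filter.2 ⟨Finset.mem_univ _, hg⟩, hp⟩
    · rintro ⟨g, hg, hp⟩
      refine ⟨hv, g, ?_, hp⟩
      rw [p3_crep_v]
      exact (Finset.mem_filter.1 hg).2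

theorem p3_mV_fst (F : Sys) {D : Dt} (x : D.P → Finset F.P) :
    F.mV (F.psh Prod.fst x) = F.mP x := by
  classical
  funext v
  ext p
  rw [p3_mV_psh]
  unfold Sys.mP
  split_ifs with hv
  · simp [hv]
  · rw [Finset.mem_biUnion]
    constructor
    · rintro ⟨-, g, hg, hp⟩
      exact ⟨g, Finset.mem_filter.2 ⟨Finset.mem_univ _, hg⟩, hp⟩
    · rintro ⟨g, hg, hp⟩
      exact ⟨hv, g, (Finset.mem_filter.1 hg).2, hp⟩

theorem p3_cop (F : Sys) {D : Dt} (π : Pr F D) {ι : Type} [Fintype ι] (φ : ι → Ext D)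
    (y : ι → Finset F.P) : F.Cop π (F.psh φ y) ↔ F.Cop π y := by
  unfold Sys.Cop
  constructor
  · intro h i k hk
    exact h (φ i) k ((e0_mem_psh F φ y _ _).2 ⟨i, rfl, hk⟩)
  · intro h g k hk
    obtain ⟨i, -, hi⟩ := (e0_mem_psh F φ y _ _).1 hk
    exact h i k hi

theorem p3_nm (F : Sys) {D : Dt} {ι : Type} [Fintype ι] (φ : ι → Ext D)
    (y : ι → Finset F.P) (hd : F.Dj y) :
    ∏ g, (F.nm (F.psh φ y g) : ℝ) = ∏ i, (F.nm (y i) : ℝ) := by
  classical
  rw [← Finset.prod_fiberwise (Finset.univ : Finset ι) φ (fun i => (F.nm (y i) : ℝ))]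
  refine Finset.prod_congr rfl fun g _ => ?_
  unfold Sys.psh
  rw [F.nm_biUnion _ _ fun i _ j _ hij => hd i j hij, Nat.cast_prod]
  refine Finset.prod_congr ?_ fun _ _ => rfl
  ext i
  simp

/-- the conditions on the grouped tuple -/
def p3P (F : Sys) {D : Dt} (w : Wt D) (π : Pr F D) (Y : ℝ) (M : Ext D → Finset F.P) : Prop :=
  (∀ g, ¬ (w.IsM g ∧ D.crep g = g) → M g = ∅) ∧ F.Cop π M ∧ (∏ g, (F.nm (M g) : ℝ)) ≤ Y ∧
    F.Cnd π (F.mV M)

open Classical in
/-- the indicator of the conditions -/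
noncomputable def p3Phi (F : Sys) {D : Dt} (w : Wt D) (π : Pr F D) (Y : ℝ)
    (M : Ext D → Finset F.P) : ℝ := if p3P F w π Y M then 1 else 0

theorem p3_Phi_ne (F : Sys) {D : Dt} (w : Wt D) (π : Pr F D) (Y : ℝ)
    (M : Ext D → Finset F.P) (h : p3Phi F w π Y M ≠ 0) (k : Ext D) : M k ∈ F.bx Y := by
  have hP : p3P F w π Y M := by
    by_contra h1
    exact h (if_neg h1)
  rw [F.mem_bx]
  have h1 : F.nm (M k) ≤ ∏ g, F.nm (M g) :=
    Finset.single_le_prod' (f := fun g => F.nm (M g)) (fun g _ => F.one_le_nm (M g))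
      (Finset.mem_univ k)
  have h2 : (F.nm (M k) : ℝ) ≤ ((∏ g, F.nm (M g) : ℕ) : ℝ) := by exact_mod_cast h1
  rw [Nat.cast_prod] at h2
  exact h2.trans hP.2.2.1

open Classical in
/-- the local factor on the left -/
noncomputable def p3L (F : Sys) {D : Dt} (w : Wt D) (π : Pr F D) (M : Ext D → Finset F.P)
    (g : Ext D) (p : F.P) : ℝ :=
  if w.IsM g ∧ D.B g.v (p3W F π (F.mV M) p) = 0 then 1 else 0

open Classical in
/-- the local factor on the right -/
noncomputable def p3R (F : Sys) {D : Dt} (w : Wt D) (π : Pr F D) (M : Ext D → Finset F.P)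
    (i : D.P) (p : F.P) : ℝ :=
  if i ∈ w.actM then ((sg (i.2 ⬝ᵥ D.B i.1.v (p3W F π (F.mV M) p)) : ℤ) : ℝ) else 0

theorem p3_pi {ι β : Type} [Fintype ι] (d1 d2 : DecidableEq ι) (t : ι → Finset β) :
    @Fintype.piFinset ι d1 _ (fun _ => β) t = @Fintype.piFinset ι d2 _ (fun _ => β) t := by
  rw [Subsingleton.elim d1 d2]

theorem p3_fl {α : Type} (s : Finset α) (p : α → Prop) (d1 d2 : DecidablePred p) :
    @Finset.filter α p d1 s = @Finset.filter α p d2 s := by
  rw [Subsingleton.elim d1 d2]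

open Classical in
/-- the positive family in terms of grouped tuples -/
theorem p3_left (F : Sys) {D : Dt} (w : Wt D) (π : Pr F D) (Y : ℝ) :
    F.FF w π Y = ∑ y ∈ Fintype.piFinset (fun _ : Ext D => F.bx Y),
      (if F.Dj y then (∏ g, ∏ p ∈ y g, p3L F w π (F.psh D.crep y) g p) *
        p3Phi F w π Y (F.psh D.crep y) else 0) := by
  unfold Sys.FF
  refine Finset.sum_congr (p3_pi _ _ _) fun y _ => ?_
  by_cases hd : F.Dj y
  · rw [if_pos hd]
    by_cases hA : ∀ g, ¬ w.IsM g → y g = ∅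
    · have hP : p3P F w π Y (F.psh D.crep y) ↔
          F.Cop π y ∧ (∏ g, (F.nm (y g) : ℝ)) ≤ Y ∧ F.Cnd π (F.mV y) := by
        unfold p3P
        rw [p3_cop, p3_nm F _ _ hd, p3_mV_crep]
        refine and_iff_right fun g hg => ?_
        rw [Finset.eq_empty_iff_forall_notMem]
        intro p hp
        obtain ⟨i, hi, hpi⟩ := (e0_mem_psh F D.crep y g p).1 hp
        have h1 : w.IsM i := by
          by_contra h1
          rw [hA i h1] at hpi
          exact Finset.notMem_empty p hpi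
        refine hg ⟨?_, ?_⟩
        · rw [← hi, p3_IsM_crep]
          exact h1
        · rw [← hi, p3_crep_crep]
      by_cases hc : F.Cop π y ∧ (∏ g, (F.nm (y g) : ℝ)) ≤ Y ∧ F.Cnd π (F.mV y)
      · have hPhi : p3Phi F w π Y (F.psh D.crep y) = 1 := if_pos (hP.2 hc)
        rw [hPhi, mul_one]
        by_cases hl : ∀ g, ∀ p ∈ y g,
            D.B g.v (F.frob π p + ∑ u : D.V, (∑ q ∈ F.mV y u, F.J q p) • u) = 0
        · rw [if_pos ⟨hA, hd, hc.1, hc.2.1, hc.2.2, hl⟩]
          symm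
          refine Finset.prod_eq_one fun g _ => Finset.prod_eq_one fun p hp => ?_
          unfold p3L
          rw [p3_mV_crep]
          refine if_pos ⟨?_, hl g p hp⟩
          by_contra h1
          rw [hA g h1] at hp
          exact Finset.notMem_empty p hp
        · rw [if_neg fun h => hl h.2.2.2.2.2]
          push Not at hl
          obtain ⟨g, p, hp, hne⟩ := hl
          symm
          refine Finset.prod_eq_zero (Finset.mem_univ g) (Finset.prod_eq_zero hp ?_)
          unfold p3L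
          rw [p3_mV_crep]
          exact if_neg fun h => hne h.2
      · have hPhi : p3Phi F w π Y (F.psh D.crep y) = 0 := if_neg fun h => hc (hP.1 h)
        rw [hPhi, mul_zero, if_neg fun h => hc ⟨h.2.2.1, h.2.2.2.1, h.2.2.2.2.1⟩]
    · rw [if_neg fun h => hA h.1]
      push Not at hA
      obtain ⟨g, hg, hne⟩ := hA
      obtain ⟨p, hp⟩ := hne
      have h1 : ∏ g, ∏ p ∈ y g, p3L F w π (F.psh D.crep y) g p = 0 := by
        refine Finset.prod_eq_zero (Finset.mem_univ g) (Finset.prod_eq_zero hp ?_)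
        exact if_neg fun h => hg h.1
      rw [h1, zero_mul]
  · rw [if_neg hd, if_neg fun h => hd h.2.1]

open Classical in
/-- the signed sum in terms of grouped tuples -/
theorem p3_right (F : Sys) {D : Dt} (w : Wt D) (π : Pr F D) (Y : ℝ) :
    (∑ x ∈ Fintype.piFinset (fun _ : D.P => F.bx Y),
      if (∀ i, i ∉ w.actM → x i = ∅) ∧ F.Dj x ∧ F.Cop π x ∧ (∏ i, (F.nm (x i) : ℝ)) ≤ Y ∧
        F.Cnd π (F.mP x) then (F.sgF π x : ℝ) else 0) =
    ∑ x ∈ Fintype.piFinset (fun _ : D.P => F.bx Y),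
      (if F.Dj x then (∏ i, ∏ p ∈ x i, p3R F w π (F.psh Prod.fst x) i p) *
        p3Phi F w π Y (F.psh Prod.fst x) else 0) := by
  refine Finset.sum_congr rfl fun x _ => ?_
  by_cases hd : F.Dj x
  · rw [if_pos hd]
    by_cases hA : ∀ i, i ∉ w.actM → x i = ∅
    · have hP : p3P F w π Y (F.psh Prod.fst x) ↔
          F.Cop π x ∧ (∏ i, (F.nm (x i) : ℝ)) ≤ Y ∧ F.Cnd π (F.mP x) := by
        unfold p3P
        rw [p3_cop, p3_nm F _ _ hd, p3_mV_fst]
        refine and_iff_right fun g hg => ?_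
        rw [Finset.eq_empty_iff_forall_notMem]
        intro p hp
        obtain ⟨i, hi, hpi⟩ := (e0_mem_psh F Prod.fst x g p).1 hp
        have h1 : i ∈ w.actM := by
          by_contra h1
          rw [hA i h1] at hpi
          exact Finset.notMem_empty p hpi
        refine hg ?_
        have h2 := ((p3_mem_actM w i).1 h1).1
        rwa [hi] at h2
      by_cases hc : F.Cop π x ∧ (∏ i, (F.nm (x i) : ℝ)) ≤ Y ∧ F.Cnd π (F.mP x)
      · have hPhi : p3Phi F w π Y (F.psh Prod.fst x) = 1 := if_pos (hP.2 hc)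
        rw [hPhi, mul_one, if_pos ⟨hA, hd, hc⟩, ← p3_sign F π x hd, Int.cast_prod]
        refine Finset.prod_congr rfl fun i _ => ?_
        rw [Int.cast_prod]
        refine Finset.prod_congr rfl fun p hp => ?_
        unfold p3R
        rw [p3_mV_fst, if_pos]
        by_contra h1
        rw [hA i h1] at hp
        exact Finset.notMem_empty p hp
      · have hPhi : p3Phi F w π Y (F.psh Prod.fst x) = 0 := if_neg fun h => hc (hP.1 h)
        rw [hPhi, mul_zero, if_neg fun h => hc h.2.2]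
    · rw [if_neg fun h => hA h.1]
      push Not at hA
      obtain ⟨i, hi, hne⟩ := hA
      obtain ⟨p, hp⟩ := hne
      have h1 : ∏ i, ∏ p ∈ x i, p3R F w π (F.psh Prod.fst x) i p = 0 := by
        refine Finset.prod_eq_zero (Finset.mem_univ i) (Finset.prod_eq_zero hp ?_)
        exact if_neg hi
      rw [h1, zero_mul]
  · rw [if_neg hd, if_neg fun h => hd h.2.1]

private theorem p3_mem {α : Type} (i1 : DecidableEq α) [Fintype α] {δ : α → Type}
    (t : ∀ a, Finset (δ a)) (f : ∀ a, δ a) :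
    f ∈ @Fintype.piFinset α i1 _ δ t ↔ ∀ a, f a ∈ t a := Fintype.mem_piFinset

open Classical in
/-- splitting by exact supports -/
theorem p3_split (F : Sys) {D : Dt} (w : Wt D) (π : Pr F D) (Y : ℝ) (hY : 1 ≤ Y) :
    (∑ x ∈ Fintype.piFinset (fun _ : D.P => F.bx Y),
      if (∀ i, i ∉ w.actM → x i = ∅) ∧ F.Dj x ∧ F.Cop π x ∧ (∏ i, (F.nm (x i) : ℝ)) ≤ Y ∧
        F.Cnd π (F.mP x) then (F.sgF π x : ℝ) else 0) =
      ∑ σ ∈ w.actM.powerset, F.FX π σ Y := by
  have hN : ∅ ∈ F.bx Y := F.empty_mem_bx hY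
  have h1 : (∑ x ∈ Fintype.piFinset (fun _ : D.P => F.bx Y),
      if (∀ i, i ∉ w.actM → x i = ∅) ∧ F.Dj x ∧ F.Cop π x ∧ (∏ i, (F.nm (x i) : ℝ)) ≤ Y ∧
        F.Cnd π (F.mP x) then (F.sgF π x : ℝ) else 0) =
      ∑ x ∈ (Fintype.piFinset (fun _ : D.P => F.bx Y)).filter
        (fun x => ∀ i, i ∉ w.actM → x i = ∅),
        if F.Dj x ∧ F.Cop π x ∧ (∏ i, (F.nm (x i) : ℝ)) ≤ Y ∧ F.Cnd π (F.mP x)
        then (F.sgF π x : ℝ) else 0 := by
    rw [Finset.sum_filter]
    refine Finset.sum_congr rfl fun x _ => ?_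
    by_cases hx : ∀ i, i ∉ w.actM → x i = ∅
    · rw [if_pos hx]
      by_cases hc : F.Dj x ∧ F.Cop π x ∧ (∏ i, (F.nm (x i) : ℝ)) ≤ Y ∧ F.Cnd π (F.mP x)
      · rw [if_pos ⟨hx, hc⟩, if_pos hc]
      · rw [if_neg fun h => hc h.2, if_neg hc]
    · rw [if_neg hx, if_neg (fun hc => hx hc.1)]
  rw [h1, ← Finset.sum_fiberwise_of_maps_to (t := w.actM.powerset)
    (g := fun x : D.P → Finset F.P => Finset.univ.filter fun i => x i ≠ ∅)]
  · refine Finset.sum_congr rfl fun σ hσ => ?_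
    unfold Sys.FX
    have h0 := Finset.mem_powerset.1 hσ
    refine Finset.sum_congr ?_ fun x _ => rfl
    ext x
    rw [Finset.mem_filter, Finset.mem_filter, p3_mem, p3_mem]
    constructor
    · rintro ⟨⟨hx, -⟩, rfl⟩ i
      have hi := hx i
      by_cases hi1 : x i = ∅
      · rw [if_neg (by simp [hi1]), Finset.mem_singleton]
        exact hi1
      · rw [if_pos (by simp [hi1]), Finset.mem_erase]
        exact ⟨hi1, hi⟩
    · intro hx
      refine ⟨⟨fun i => ?_, fun i hi' => ?_⟩, ?_⟩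
      · have hi := hx i
        by_cases hs : i ∈ σ
        · rw [if_pos hs, Finset.mem_erase] at hi
          exact hi.2
        · rw [if_neg hs, Finset.mem_singleton] at hi
          rw [hi]
          exact hN
      · have hi := hx i
        have hs : i ∉ σ := fun hc => hi' (h0 hc)
        rwa [if_neg hs, Finset.mem_singleton] at hi
      · ext i
        simp only [Finset.mem_filter, Finset.mem_univ, true_and]
        have hi := hx i
        by_cases hs : i ∈ σ
        · rw [if_pos hs, Finset.mem_erase] at hi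
          simp only [hs, iff_true]
          exact hi.1
        · rw [if_neg hs, Finset.mem_singleton] at hi
          simp [hs, hi]
  · intro x hx
    rw [Finset.mem_powerset]
    intro i hi
    by_contra hc
    exact (Finset.mem_filter.1 hi).2 ((Finset.mem_filter.1 hx).2 i hc)

open Classical in
/-- the local sums agree -/
theorem p3_fib (F : Sys) {D : Dt} (w : Wt D) (π : Pr F D) (M : Ext D → Finset F.P)
    (k : Ext D) (hk : w.IsM k ∧ D.crep k = k) (p : F.P) :
    ∑ g ∈ Finset.univ.filter (fun g => D.crep g = k), p3L F w π M g p =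
      ∑ i ∈ Finset.univ.filter (fun i : D.P => i.1 = k), p3R F w π M i p := by
  have h1 := congrArg (fun z : ℤ => (z : ℝ)) (p3_coef w k hk (p3W F π (F.mV M) p))
  simp only [Int.cast_sum] at h1
  have h2 : ∑ g ∈ Finset.univ.filter (fun g => D.crep g = k), p3L F w π M g p =
      ∑ g ∈ (Finset.univ.filter fun g => w.IsM g).filter (fun g => D.crep g = k),
        (((if D.B g.v (p3W F π (F.mV M) p) = 0 then (1 : ℤ) else 0) : ℤ) : ℝ) := by
    rw [Finset.filter_filter, Finset.sum_filter, Finset.sum_filter]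
    refine Finset.sum_congr rfl fun g _ => ?_
    unfold p3L
    by_cases hg : D.crep g = k <;> by_cases hM : w.IsM g <;>
      by_cases hB : D.B g.v (p3W F π (F.mV M) p) = 0 <;> simp [hg, hM, hB]
  have h3 : ∑ i ∈ Finset.univ.filter (fun i : D.P => i.1 = k), p3R F w π M i p =
      ∑ i ∈ w.actM.filter (fun i => i.1 = k),
        ((sg (i.2 ⬝ᵥ D.B i.1.v (p3W F π (F.mV M) p)) : ℤ) : ℝ) := by
    unfold p3R
    rw [← Finset.sum_filter]
    refine Finset.sum_congr ?_ fun _ _ => rfl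
    ext i
    simp only [Finset.mem_filter, Finset.mem_univ, true_and]
    exact and_comm
  rw [h2, h3]
  exact h1

open Classical in
theorem F_expand (F : Sys) {D : Dt} (w : Wt D) (π : Pr F D) (Y : ℝ) (hY : 1 ≤ Y) :
    F.FF w π Y = ∑ σ ∈ w.actM.powerset, F.FX π σ Y := by
  rw [← p3_split F w π Y hY, p3_right, p3_left]
  have eL := exp_gen F D.crep (p3L F w π) (p3Phi F w π Y) Y (p3_Phi_ne F w π Y)
  have eR := exp_gen F (Prod.fst : D.P → Ext D) (p3R F w π) (p3Phi F w π Y) Y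
    (p3_Phi_ne F w π Y)
  refine Eq.trans (Eq.trans ?_ (eL.trans (Eq.trans ?_ eR.symm))) ?_
  · exact Finset.sum_congr (p3_pi _ _ _) fun _ _ => rfl
  swap
  · exact Finset.sum_congr (p3_pi _ _ _) fun _ _ => rfl
  refine Finset.sum_congr rfl fun M _ => ?_
  by_cases hd : F.Dj M
  · rw [if_pos hd, if_pos hd]
    by_cases hM : p3P F w π Y M
    · congr 1
      refine Finset.prod_congr rfl fun k _ => ?_
      by_cases hk : w.IsM k ∧ D.crep k = k
      · refine Finset.prod_congr rfl fun p _ => ?_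
        exact (Finset.sum_congr (p3_fl _ _ _ _) fun _ _ => rfl).trans
          ((p3_fib F w π M k hk p).trans (Finset.sum_congr (p3_fl _ _ _ _) fun _ _ => rfl))
      · rw [hM.1 k hk, Finset.prod_empty, Finset.prod_empty]
    · have hPhi : p3Phi F w π Y M = 0 := if_neg hM
      rw [hPhi, mul_zero, mul_zero]
  · rw [if_neg hd, if_neg hd]

end Pool.Agent.H98.MF
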