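import Pool.Agent.H98.MF.SFXUU
import Pool.Agent.H98.MF.SExpGen
import Pool.Agent.H98.ML.UUSum

/-!
# Project MK4 (MP_a3214d), row MF-P6: the sum over the supports compatible with a choice of
dual vectors (helper91)
-/

set_option autoImplicit false

open scoped BigOperators

namespace Pool.Agent.H98.MF

open Pool.Agent.H98.MK (sg)
open Pool.Agent.H98.ML (Dt Ext Wt fxB fxB_apply fx_B_zero fx_mem_actM us_coef)

variable {D : Dt}

theorem u6_pi {ι β : Type} [Fintype ι] (d1 d2 : DecidableEq ι) (t : ι → Finset β) :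
    @Fintype.piFinset ι d1 _ (fun _ => β) t = @Fintype.piFinset ι d2 _ (fun _ => β) t := by
  rw [Subsingleton.elim d1 d2]

theorem u6_fl {α : Type} (s : Finset α) (p q : α → Prop) (d1 : DecidablePred p)
    (d2 : DecidablePred q) (h : ∀ a ∈ s, (p a ↔ q a)) :
    @Finset.filter α p d1 s = @Finset.filter α q d2 s := Finset.filter_congr h

theorem u6_fl2 {α : Type} [Fintype α] (s : Finset α) (p : α → Prop)
    (d1 : DecidablePred fun a => p a ∧ a ∈ s) (d2 : DecidablePred p) :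
    @Finset.filter α (fun a => p a ∧ a ∈ s) d1 Finset.univ = @Finset.filter α p d2 s := by
  ext a
  rw [Finset.mem_filter, Finset.mem_filter]
  exact ⟨fun h => ⟨h.2.2, h.2.1⟩, fun h => ⟨Finset.mem_univ _, h.2, h.1⟩⟩

open Classical in
/-- splitting by exact supports -/
theorem u6_split (F : Sys) (A : Finset D.P) (C : (D.P → Finset F.P) → Prop)
    (G : (D.P → Finset F.P) → ℝ) (Y : ℝ) (hY : 1 ≤ Y) :
    (∑ x ∈ Fintype.piFinset (fun _ : D.P => F.bx Y),
      if (∀ i, i ∉ A → x i = ∅) ∧ C x then G x else 0) = ∑ σ ∈ A.powerset,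
      ∑ x ∈ Fintype.piFinset (fun i : D.P => if i ∈ σ then (F.bx Y).erase ∅ else {∅}),
        if C x then G x else 0 := by
  have h1 : (∑ x ∈ Fintype.piFinset (fun _ : D.P => F.bx Y),
      if (∀ i, i ∉ A → x i = ∅) ∧ C x then G x else 0) =
      ∑ x ∈ (Fintype.piFinset (fun _ : D.P => F.bx Y)).filter
        (fun x => ∀ i, i ∉ A → x i = ∅), if C x then G x else 0 := by
    rw [Finset.sum_filter]
    refine Finset.sum_congr rfl fun x _ => ?_
    by_cases hx : ∀ i, i ∉ A → x i = ∅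
    · rw [if_pos hx]
      by_cases hc : C x
      · rw [if_pos ⟨hx, hc⟩, if_pos hc]
      · rw [if_neg fun h => hc h.2, if_neg hc]
    · rw [if_neg hx, if_neg (fun hc => hx hc.1)]
  rw [h1, ← Finset.sum_fiberwise_of_maps_to (t := A.powerset)
    (g := fun x : D.P → Finset F.P => Finset.univ.filter fun i => x i ≠ ∅)]
  · refine Finset.sum_congr rfl fun σ hσ => ?_
    have h0 := Finset.mem_powerset.1 hσ
    refine Finset.sum_congr ?_ fun x _ => rfl
    ext x
    rw [Finset.mem_filter, Finset.mem_filter, Fintype.mem_piFinset, Fintype.mem_piFinset]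
    constructor
    · rintro ⟨⟨hx, -⟩, rfl⟩ i
      have hi := hx i
      by_cases hi1 : x i = ∅
      · rw [if_neg (by simp [hi1]), Finset.mem_singleton]
        exact hi1
      · rw [if_pos (by simp [hi1]), Finset.mem_erase]
        exact ⟨hi1, hi⟩
    · intro hx
      refine ⟨⟨fun i => ?_, fun i hi => ?_⟩, ?_⟩
      · have hi := hx i
        by_cases hs : i ∈ σ
        · rw [if_pos hs, Finset.mem_erase] at hi
          exact hi.2
        · rw [if_neg hs, Finset.mem_singleton] at hi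
          rw [hi]
          exact F.empty_mem_bx hY
      · have hi2 := hx i
        rwa [if_neg (fun h => hi (h0 h)), Finset.mem_singleton] at hi2
      · ext i
        rw [Finset.mem_filter]
        have hi := hx i
        by_cases hs : i ∈ σ
        · rw [if_pos hs, Finset.mem_erase] at hi
          exact ⟨fun _ => hs, fun _ => ⟨Finset.mem_univ _, hi.1⟩⟩
        · rw [if_neg hs, Finset.mem_singleton] at hi
          exact ⟨fun h => absurd hi h.2, fun h => absurd h hs⟩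
  · intro x hx
    rw [Finset.mem_powerset]
    intro i hi
    by_contra hi2
    exact (Finset.mem_filter.1 hi).2 ((Finset.mem_filter.1 hx).2 i hi2)

/-- the sign of a tuple as a product over its primes -/
theorem u6_sg (F : Sys) (π : Pr F D) (ζ : D.V → D.Z) (σ : Finset D.P)
    (x : D.P → Finset F.P) (hx1 : ∀ i, i ∉ σ → x i = ∅) :
    sg (∑ i ∈ σ, (i.2 + ζ i.1.v) ⬝ᵥ D.B i.1.v (F.frobs π (x i))) =
      ∏ i, ∏ p ∈ x i, sg ((i.2 + ζ i.1.v) ⬝ᵥ D.B i.1.v (F.frob π p)) := by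
  classical
  have h2 : ∑ i ∈ σ, (i.2 + ζ i.1.v) ⬝ᵥ D.B i.1.v (F.frobs π (x i)) =
      ∑ i : D.P, (i.2 + ζ i.1.v) ⬝ᵥ D.B i.1.v (F.frobs π (x i)) := by
    refine Finset.sum_subset (Finset.subset_univ σ) fun i _ hi => ?_
    rw [hx1 i hi, u5_frobs_empty, fx_B_zero, dotProduct_zero]
  rw [h2, sg_sum]
  refine Finset.prod_congr rfl fun i _ => ?_
  rw [← sg_sum, ← dotProduct_sum]
  congr 2
  unfold Sys.frobs
  rw [← fxB_apply, map_sum]
  rfl

/-- the unions along the group elements -/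
theorem u6_psh_mV (F : Sys) (x : D.P → Finset F.P) :
    F.mV (F.psh (fun i : D.P => i.1) x) = F.mP x := by
  classical
  funext v
  unfold Sys.mV Sys.mP
  by_cases hv : v = 0
  · rw [if_pos hv, if_pos hv]
  · rw [if_neg hv, if_neg hv]
    ext p
    rw [Finset.mem_biUnion, Finset.mem_biUnion]
    constructor
    · rintro ⟨g, hg, hp⟩
      obtain ⟨i, hi, hpi⟩ := (e0_mem_psh F _ x g p).1 hp
      refine ⟨i, Finset.mem_filter.2 ⟨Finset.mem_univ _, ?_⟩, hpi⟩
      rw [hi]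
      exact (Finset.mem_filter.1 hg).2
    · rintro ⟨i, hi, hpi⟩
      exact ⟨i.1, Finset.mem_filter.2 ⟨Finset.mem_univ _, (Finset.mem_filter.1 hi).2⟩,
        (e0_mem_psh F _ x i.1 p).2 ⟨i, rfl, hpi⟩⟩

theorem u6_psh_nm (F : Sys) (x : D.P → Finset F.P) (hx : F.Dj x) :
    ∏ g, (F.nm (F.psh (fun i : D.P => i.1) x g) : ℝ) = ∏ i, (F.nm (x i) : ℝ) := by
  classical
  rw [← Finset.prod_fiberwise (Finset.univ : Finset D.P) (fun i => i.1)
    (fun i => (F.nm (x i) : ℝ))]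
  refine Finset.prod_congr rfl fun g _ => ?_
  unfold Sys.psh
  rw [F.nm_biUnion _ x fun i _ j _ hij => hx i j hij, Nat.cast_prod]
  exact Finset.prod_congr (u6_fl _ _ _ _ _ fun _ _ => Iff.rfl) fun _ _ => rfl

theorem u6_psh_Cop (F : Sys) (π : Pr F D) (x : D.P → Finset F.P) :
    F.Cop π (F.psh (fun i : D.P => i.1) x) ↔ F.Cop π x := by
  constructor
  · intro h i k hp
    exact h i.1 k ((e0_mem_psh F _ x i.1 _).2 ⟨i, rfl, hp⟩)
  · intro h g k hp
    obtain ⟨i, -, hpi⟩ := (e0_mem_psh F _ x g _).1 hp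
    exact h i k hpi

theorem u6_psh_supp (F : Sys) (w : Wt D) (ζ : D.V → D.Z) (x : D.P → Finset F.P)
    (hx : ∀ i, i ∉ w.UU ζ → x i = ∅) (g : Ext D) (hg : ¬ (w.IsM g ∧ D.crep g = g)) :
    F.psh (fun i : D.P => i.1) x g = ∅ := by
  classical
  refine Finset.eq_empty_iff_forall_notMem.2 fun p hp => ?_
  obtain ⟨i, hi, hpi⟩ := (e0_mem_psh F _ x g p).1 hp
  by_cases hU : i ∈ w.UU ζ
  · have h1 := ((fx_mem_actM w i).1 (Finset.mem_filter.1 hU).1).1
    rw [hi] at h1
    exact hg h1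
  · rw [hx i hU] at hpi
    exact Finset.notMem_empty p hpi

/-- the condition on the unions -/
def u6P (F : Sys) (w : Wt D) (π : Pr F D) (Y : ℝ) (X : Ext D → Finset F.P) : Prop :=
  (∀ g, ¬ (w.IsM g ∧ D.crep g = g) → X g = ∅) ∧ F.Cop π X ∧
    (∏ g, (F.nm (X g) : ℝ)) ≤ Y ∧ F.Cnd π (F.mV X)

theorem u6P_bx (F : Sys) (w : Wt D) (π : Pr F D) (Y : ℝ) (X : Ext D → Finset F.P)
    (h : u6P F w π Y X) (k : Ext D) : X k ∈ F.bx Y := by
  classical
  rw [F.mem_bx]
  refine le_trans ?_ h.2.2.1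
  rw [← Finset.mul_prod_erase Finset.univ (fun g => (F.nm (X g) : ℝ)) (Finset.mem_univ k)]
  refine le_mul_of_one_le_right (Nat.cast_nonneg _) ?_
  exact Finset.one_le_prod fun g _ => F.one_le_nmr (X g)

theorem u6P_psh (F : Sys) (w : Wt D) (π : Pr F D) (ζ : D.V → D.Z) (Y : ℝ)
    (x : D.P → Finset F.P) (hx : ∀ i, i ∉ w.UU ζ → x i = ∅) (hd : F.Dj x) :
    u6P F w π Y (F.psh (fun i : D.P => i.1) x) ↔
      (F.Cop π x ∧ (∏ i, (F.nm (x i) : ℝ)) ≤ Y ∧ F.Cnd π (F.mP x)) := by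
  unfold u6P
  rw [u6_psh_Cop, u6_psh_nm F x hd, u6_psh_mV]
  exact and_iff_right fun g hg => u6_psh_supp F w ζ x hx g hg

open Classical in
/-- the general splitting lemma for the indices compatible with the choice -/
theorem u6_exp (F : Sys) (w : Wt D) (π : Pr F D) (ζ : D.V → D.Z) (Y : ℝ) :
    (∑ x ∈ Fintype.piFinset (fun _ : D.P => F.bx Y),
      if (∀ i, i ∉ w.UU ζ → x i = ∅) ∧
        (F.Dj x ∧ F.Cop π x ∧ (∏ i, (F.nm (x i) : ℝ)) ≤ Y ∧ F.Cnd π (F.mP x))
      then ((∏ i, ∏ p ∈ x i, sg ((i.2 + ζ i.1.v) ⬝ᵥ D.B i.1.v (F.frob π p)) : ℤ) : ℝ)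
      else 0) = F.GG w π Y := by
  have h := exp_gen F (fun i : D.P => i.1)
    (fun _ i p => if i ∈ w.UU ζ
      then ((sg ((i.2 + ζ i.1.v) ⬝ᵥ D.B i.1.v (F.frob π p)) : ℤ) : ℝ) else 0)
    (fun X => if u6P F w π Y X then 1 else 0) Y (by
      intro X hX k
      by_cases h1 : u6P F w π Y X
      · exact u6P_bx F w π Y X h1 k
      · rw [if_neg h1] at hX
        exact absurd rfl hX)
  refine Eq.trans ?_ (Eq.trans h ?_)
  · refine Finset.sum_congr (u6_pi _ _ _) fun x _ => ?_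
    by_cases hd : F.Dj x
    · rw [if_pos hd]
      by_cases hx : ∀ i, i ∉ w.UU ζ → x i = ∅
      · have h1 := u6P_psh F w π ζ Y x hx hd
        by_cases hc : F.Cop π x ∧ (∏ i, (F.nm (x i) : ℝ)) ≤ Y ∧ F.Cnd π (F.mP x)
        · rw [if_pos ⟨hx, hd, hc⟩, if_pos (h1.2 hc), mul_one]
          push_cast
          refine Finset.prod_congr rfl fun i _ => Finset.prod_congr rfl fun p hp => ?_
          rw [if_pos]
          by_contra hU
          rw [hx i hU] at hp
          exact Finset.notMem_empty p hp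
        · rw [if_neg fun h2 => hc h2.2.2, if_neg fun h2 => hc (h1.1 h2), mul_zero]
      · rw [if_neg fun h2 => hx h2.1]
        push Not at hx
        obtain ⟨i, hi, hne⟩ := hx
        obtain ⟨p, hp⟩ := hne
        rw [Finset.prod_eq_zero (Finset.mem_univ i), zero_mul]
        exact Finset.prod_eq_zero hp (if_neg hi)
    · rw [if_neg fun h2 => hd h2.2.1, if_neg hd]
  · unfold Sys.GG
    refine Finset.sum_congr (u6_pi _ _ _) fun X _ => ?_
    by_cases hd : F.Dj X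
    · rw [if_pos hd]
      by_cases hc : u6P F w π Y X
      · rw [if_pos hc, mul_one, if_pos ⟨hc.1, hd, hc.2.1, hc.2.2.1, hc.2.2.2⟩]
        refine Finset.prod_congr rfl fun k _ => ?_
        by_cases hk : w.IsM k ∧ D.crep k = k
        · refine Finset.prod_congr rfl fun p _ => ?_
          rw [← us_coef w ζ k hk (F.frob π p), ← Finset.sum_filter, Finset.filter_filter,
            Int.cast_sum]
          exact Finset.sum_congr (u6_fl2 _ _ _ _) fun _ _ => rfl
        · rw [hc.1 k hk, Finset.prod_empty, Finset.prod_empty]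
      · rw [if_neg hc, mul_zero, if_neg]
        exact fun h2 => hc ⟨h2.1, h2.2.2.1, h2.2.2.2.1, h2.2.2.2.2⟩
    · rw [if_neg hd, if_neg fun h2 => hd h2.2.1]

open Classical in
theorem UU_sum (F : Sys) {D : Dt} (w : Wt D) (π : Pr F D) (ζ : D.V → D.Z) (hζ : w.Cmp ζ)
    (Y : ℝ) (hY : 1 ≤ Y) : ∑ σ ∈ (w.UU ζ).powerset, F.FX π σ Y = F.GG w π Y := by
  have hs := u6_split F (w.UU ζ)
    (fun x => F.Dj x ∧ F.Cop π x ∧ (∏ i, (F.nm (x i) : ℝ)) ≤ Y ∧ F.Cnd π (F.mP x))
    (fun x => ((∏ i, ∏ p ∈ x i, sg ((i.2 + ζ i.1.v) ⬝ᵥ D.B i.1.v (F.frob π p)) : ℤ) : ℝ))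
    Y hY
  refine Eq.trans (Eq.trans ?_ hs.symm) (Eq.trans ?_ (u6_exp F w π ζ Y))
  swap
  · refine Finset.sum_congr rfl fun x _ => ?_
    by_cases hc : (∀ i, i ∉ w.UU ζ → x i = ∅) ∧
        (F.Dj x ∧ F.Cop π x ∧ (∏ i, (F.nm (x i) : ℝ)) ≤ Y ∧ F.Cnd π (F.mP x))
    · rw [if_pos hc, if_pos hc]
    · rw [if_neg hc, if_neg hc]
  refine Finset.sum_congr rfl fun σ hσ => ?_
  rw [FX_UU F w π ζ hζ σ (Finset.mem_powerset.1 hσ) Y]
  refine Finset.sum_congr rfl fun x hx => ?_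
  by_cases hc : F.Dj x ∧ F.Cop π x ∧ (∏ i, (F.nm (x i) : ℝ)) ≤ Y ∧ F.Cnd π (F.mP x)
  · rw [if_pos hc, if_pos hc, u6_sg F π ζ σ x]
    intro i hi
    have h1 := Fintype.mem_piFinset.1 hx i
    rwa [if_neg hi, Finset.mem_singleton] at h1
  · rw [if_neg hc, if_neg hc]

theorem GG_nonneg (F : Sys) {D : Dt} (w : Wt D) (π : Pr F D) (Y : ℝ) : 0 ≤ F.GG w π Y := by
  classical
  unfold Sys.GG
  refine Finset.sum_nonneg fun y _ => ?_
  split_ifs
  · refine Finset.prod_nonneg fun g _ => Finset.prod_nonneg fun p _ => ?_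
    unfold Wt.ff
    split_ifs
    · positivity
    · exact le_rfl
  · exact le_rfl

end Pool.Agent.H98.MF
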