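import Pool.Agent.H98.MF.SPDefs
import Pool.Agent.H98.MF.SFExpand
import Pool.Agent.H98.MF.SFXSmall
import Pool.Agent.H98.MF.SUUSum
import Pool.Agent.H98.ML.FGG

/-!
# Project MK4, row MF-P7: the lower bound for the positive family (helper78)
-/

set_option autoImplicit false

open scoped BigOperators
open Filter

namespace Pool.Agent.H98.MF

open Pool.Agent.H98.MK (sg)
open Pool.Agent.H98.ML (Dt Ext Wt p6U p6_count p6_mem_U p6_card_one p6_nonempty)

theorem F_GG_of (F : Sys) {D : Dt} (w : Wt D) (π : Pr F D)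
    (hexp : ∀ Y : ℝ, 1 ≤ Y → F.FF w π Y = ∑ σ ∈ w.actM.powerset, F.FX π σ Y)
    (hsm : ∀ σ : Finset D.P, σ ⊆ w.actM → ¬ w.Sb σ →
      Tendsto (fun Y : ℝ => F.FX π σ Y / (Y * Real.log Y ^ (w.b - 1))) atTop (nhds 0))
    (hUU : ∀ ζ : D.V → D.Z, w.Cmp ζ → ∀ Y : ℝ, 1 ≤ Y →
      ∑ σ ∈ (w.UU ζ).powerset, F.FX π σ Y = F.GG w π Y)
    (hG : ∀ Y : ℝ, 0 ≤ F.GG w π Y) (ε : ℝ) (hε : 0 < ε) :
    ∀ᶠ Y : ℝ in atTop, F.GG w π Y - ε * (Y * Real.log Y ^ (w.b - 1)) ≤ F.FF w π Y := by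
  classical
  set n : Finset D.P → ℝ := fun σ => (((p6U w).filter fun U => σ ⊆ U).card : ℝ) with hn
  have h1 : ∀ Y : ℝ, 1 ≤ Y → F.FF w π Y - (p6U w).card * F.GG w π Y =
      ∑ σ ∈ w.actM.powerset.filter fun σ => ¬ w.Sb σ, (1 - n σ) * F.FX π σ Y := by
    intro Y hY
    have h2 : (p6U w).card * F.GG w π Y = ∑ σ ∈ w.actM.powerset, n σ * F.FX π σ Y := by
      rw [← p6_count w, ← nsmul_eq_mul, ← Finset.sum_const]
      refine Finset.sum_congr rfl fun U hU => ?_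
      obtain ⟨ζ, hζ, rfl⟩ := (p6_mem_U w U).1 hU
      exact (hUU ζ hζ.1 Y hY).symm
    rw [h2, hexp Y hY, ← Finset.sum_sub_distrib, Finset.sum_filter]
    refine Finset.sum_congr rfl fun σ hσ => ?_
    by_cases hS : w.Sb σ
    · rw [if_neg (not_not.2 hS)]
      have h3 : n σ = 1 := by
        rw [hn]
        simp only
        rw [p6_card_one w (Finset.mem_powerset.1 hσ) hS]
        simp
      rw [h3]
      ring
    · rw [if_pos hS]
      ring
  have h2 : Tendsto (fun Y : ℝ => ∑ σ ∈ w.actM.powerset.filter fun σ => ¬ w.Sb σ,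
      (1 - n σ) * (F.FX π σ Y / (Y * Real.log Y ^ (w.b - 1)))) atTop (nhds 0) := by
    have h3 : Tendsto (fun Y : ℝ => ∑ σ ∈ w.actM.powerset.filter fun σ => ¬ w.Sb σ,
      (1 - n σ) * (F.FX π σ Y / (Y * Real.log Y ^ (w.b - 1)))) atTop
        (nhds (∑ σ ∈ w.actM.powerset.filter fun σ => ¬ w.Sb σ, (1 - n σ) * 0)) := by
      refine tendsto_finsetSum _ fun σ hσ => ?_
      rw [Finset.mem_filter, Finset.mem_powerset] at hσ
      exact (hsm σ hσ.1 hσ.2).const_mul _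
    simpa using h3
  have h4 : (1 : ℝ) ≤ (p6U w).card := by
    exact_mod_cast (p6_nonempty w).card_pos
  filter_upwards [eventually_gt_atTop (1 : ℝ), h2.eventually (lt_mem_nhds (neg_lt_zero.2 hε))]
    with Y hY h5
  have hlog : 0 < Real.log Y := Real.log_pos hY
  have hpos : 0 < Y * Real.log Y ^ (w.b - 1) := mul_pos (by linarith) (pow_pos hlog _)
  have h6 : (∑ σ ∈ w.actM.powerset.filter fun σ => ¬ w.Sb σ,
      (1 - n σ) * (F.FX π σ Y / (Y * Real.log Y ^ (w.b - 1)))) =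
      (F.FF w π Y - (p6U w).card * F.GG w π Y) / (Y * Real.log Y ^ (w.b - 1)) := by
    rw [h1 Y hY.le, Finset.sum_div]
    refine Finset.sum_congr rfl fun σ _ => ?_
    rw [mul_div_assoc]
  rw [h6, lt_div_iff₀ hpos] at h5
  have h7 : F.GG w π Y ≤ (p6U w).card * F.GG w π Y := by
    have h8 := hG Y
    nlinarith
  linarith

theorem F_GG (F : Sys) {D : Dt} (w : Wt D) (π : Pr F D) (ε : ℝ) (hε : 0 < ε) :
    ∀ᶠ Y : ℝ in atTop, F.GG w π Y - ε * (Y * Real.log Y ^ (w.b - 1)) ≤ F.FF w π Y :=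
  F_GG_of F w π (F_expand F w π) (FX_small F w π) (UU_sum F w π) (GG_nonneg F w π) ε hε

end Pool.Agent.H98.MF
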