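import Pool.Agent.H98.MF.SFLeA

/-!
# Project MK4 (MP_a3214d), block SYS, row P2: the positive family embeds in the full sum
-/

set_option autoImplicit false

open scoped BigOperators

namespace Pool.Agent.H98.MF

open Pool.Agent.H98.MK (sg)
open Pool.Agent.H98.ML (Dt Ext Wt)

theorem F_le (F : Sys) {D : Dt} (w : Wt D) (π : Pr F D)
    (θ : (Fin F.m → D.V) → (D.V → F.T) → Finset D.V → ℝ) (h0 : ∀ a δ Q, 0 ≤ θ a δ Q)
    (h1 : ∀ Q, F.Span (fun _ => (0 : D.V)) Q → 1 ≤ θ (fun _ => 0) (fun _ => 0) Q) :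
    ∃ C1 : ℝ, 1 ≤ C1 ∧ ∀ Y : ℝ, 1 ≤ Y → F.FF w π Y ≤ F.S w θ (C1 * Y) := by
  classical
  set C1 : ℝ := ∏ g, (F.nm (sflePP π g) : ℝ) ^ w.wt g with hC1
  have hwt0 : ∀ g, 0 ≤ w.wt g := fun g => zero_le_one.trans (sfle_wt w g)
  have hC1' : 1 ≤ C1 := by
    rw [hC1]
    exact Finset.one_le_prod fun g _ => Real.one_le_rpow (F.one_le_nmr _) (hwt0 g)
  refine ⟨C1, hC1', fun Y hY => ?_⟩
  set T : (Ext D → Finset F.P) → ℝ := fun x =>
    if x 1 = ∅ ∧ F.Dj x ∧ (∏ g, (F.nm (x g) : ℝ) ^ w.wt g) ≤ C1 * Y ∧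
        ∀ g, ∀ p ∈ x g, F.okp (fun _ => 0) (F.mV x) g.v p
      then θ (fun _ => 0) (fun v => F.tys (F.mV x v))
        (Finset.univ.filter fun v => (F.mV x v).Nonempty)
      else 0 with hT
  have e2 : ∑ x ∈ Fintype.piFinset (fun _ : Ext D => F.bx (C1 * Y)), T x ≤ F.S w θ (C1 * Y) := by
    unfold Sys.S
    refine le_trans (le_of_eq ?_) (Finset.single_le_sum (fun a _ => Finset.sum_nonneg fun x _ => ?_)
      (Finset.mem_univ (fun _ => 0 : Fin F.m → D.V)))
    · refine Finset.sum_congr rfl fun x _ => ?_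
      rw [hT]
    · split_ifs
      · exact h0 _ _ _
      · exact le_refl 0
  refine le_trans ?_ e2
  unfold Sys.FF
  rw [← Finset.sum_filter]
  set A := (Fintype.piFinset (fun _ : Ext D => F.bx Y)).filter fun y =>
      (∀ g, ¬ w.IsM g → y g = ∅) ∧ F.Dj y ∧ F.Cop π y ∧ (∏ g, (F.nm (y g) : ℝ)) ≤ Y ∧
      F.Cnd π (F.mV y) ∧
      ∀ g, ∀ p ∈ y g,
        D.B g.v (F.frob π p + ∑ u : D.V, (∑ q ∈ F.mV y u, F.J q p) • u) = 0 with hA
  set μ : (Ext D → Finset F.P) → (Ext D → Finset F.P) := fun y g => y g ∪ sflePP π g with hμ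
  have hμi : Set.InjOn μ (A : Set (Ext D → Finset F.P)) := by
    intro y hy y' hy' h
    rw [Finset.mem_coe, hA, Finset.mem_filter] at hy hy'
    funext g
    have h2 : y g ∪ sflePP π g = y' g ∪ sflePP π g := congrFun h g
    have h3 := sfle_disj_PP π y hy.2.2.2.1 g g
    have h4 := sfle_disj_PP π y' hy'.2.2.2.1 g g
    rw [← Finset.union_sdiff_cancel_right h3, h2, Finset.union_sdiff_cancel_right h4]
  have hkey : ∀ y ∈ A, 1 ≤ T (μ y) ∧
      μ y ∈ Fintype.piFinset (fun _ : Ext D => F.bx (C1 * Y)) := by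
    intro y hy
    rw [hA, Finset.mem_filter] at hy
    obtain ⟨-, hy1, hy2, hy2', hy3, hy4, hy5⟩ := hy
    have b1 : μ y 1 = ∅ := by
      show y 1 ∪ sflePP π 1 = ∅
      rw [sfle_PP_one, Finset.union_empty]
      exact hy1 1 fun h => h.1 rfl
    have b2 : F.Dj (μ y) := sfle_Dj π y hy2 hy2'
    have b3 : (∏ g, (F.nm (μ y g) : ℝ) ^ w.wt g) = C1 * ∏ g, (F.nm (y g) : ℝ) := by
      have c1 : ∀ g, (F.nm (μ y g) : ℝ) ^ w.wt g =
          (F.nm (sflePP π g) : ℝ) ^ w.wt g * (F.nm (y g) : ℝ) := by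
        intro g
        show ((F.nm (y g ∪ sflePP π g) : ℕ) : ℝ) ^ w.wt g = _
        rw [F.nm_union (sfle_disj_PP π y hy2' g g), Nat.cast_mul,
          Real.mul_rpow (Nat.cast_nonneg _) (Nat.cast_nonneg _), mul_comm]
        congr 1
        by_cases hg : w.IsM g
        · have : w.wt g = 1 := by
            unfold Wt.wt
            rw [if_neg hg.1, hg.2]
            have h2 : (0 : ℝ) < w.m := by exact_mod_cast w.pos
            exact div_self h2.ne'
          rw [this, Real.rpow_one]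
        · rw [hy1 g hg, F.nm_empty, Nat.cast_one, Real.one_rpow]
      rw [Finset.prod_congr rfl fun g _ => c1 g, Finset.prod_mul_distrib]
    have b4 : (∏ g, (F.nm (μ y g) : ℝ) ^ w.wt g) ≤ C1 * Y := by
      rw [b3]
      exact mul_le_mul_of_nonneg_left hy3 (zero_le_one.trans hC1')
    have b5 : ∀ g, ∀ p ∈ μ y g, F.okp (fun _ => 0) (F.mV (μ y)) g.v p := by
      intro g p hp
      rcases Finset.mem_union.1 hp with hd | hd
      · have hg : w.IsM g := by
          by_contra hc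
          rw [hy1 g hc] at hd
          exact absurd hd (Finset.notMem_empty p)
        exact sfle_ok1 w π y hy2' g hg p (hy5 g p hd)
      · obtain ⟨k, hk, rfl⟩ := (sfle_mem_PP π g p).1 hd
        rw [← hk]
        exact sfle_ok2 π y hy2' hy4 k
    have hμr : ∀ g, (1 : ℝ) ≤ (F.nm (μ y g) : ℝ) := fun g => F.one_le_nmr _
    constructor
    · rw [hT]
      show 1 ≤ ite _ _ _
      rw [if_pos ⟨b1, b2, b4, b5⟩]
      have c2 : (fun v => F.tys (F.mV (μ y) v)) = fun _ => 0 := by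
        funext v
        exact sfle_tys π y hy2' hy4 v
      rw [c2]
      refine h1 _ (sfle_span F D _ fun k => ?_)
      rw [Finset.mem_filter]
      refine ⟨Finset.mem_univ _, π.p k, ?_⟩
      show π.p k ∈ F.mV (fun g => y g ∪ sflePP π g) (Pi.single k 1)
      rw [sfle_mV]
      exact Finset.mem_union_right _ ((sfle_mem_QQ π _ _).2 ⟨k, rfl, rfl⟩)
    · rw [Fintype.mem_piFinset]
      intro g
      rw [F.mem_bx]
      refine le_trans ?_ b4
      rw [← Finset.mul_prod_erase Finset.univ _ (Finset.mem_univ g)]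
      have d1 : (F.nm (μ y g) : ℝ) ≤ (F.nm (μ y g) : ℝ) ^ w.wt g := by
        calc (F.nm (μ y g) : ℝ) = (F.nm (μ y g) : ℝ) ^ (1 : ℝ) := (Real.rpow_one _).symm
          _ ≤ _ := Real.rpow_le_rpow_of_exponent_le (hμr g) (sfle_wt w g)
      have d2 : (1 : ℝ) ≤ ∏ x ∈ Finset.univ.erase g, (F.nm (μ y x) : ℝ) ^ w.wt x :=
        Finset.one_le_prod fun x _ => Real.one_le_rpow (hμr x) (hwt0 x)
      have d3 : (0 : ℝ) ≤ (F.nm (μ y g) : ℝ) ^ w.wt g := Real.rpow_nonneg (Nat.cast_nonneg _) _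
      calc (F.nm (μ y g) : ℝ) ≤ (F.nm (μ y g) : ℝ) ^ w.wt g := d1
        _ = (F.nm (μ y g) : ℝ) ^ w.wt g * 1 := (mul_one _).symm
        _ ≤ _ := mul_le_mul_of_nonneg_left d2 d3
  calc ∑ y ∈ A, (1 : ℝ) ≤ ∑ y ∈ A, T (μ y) := Finset.sum_le_sum fun y hy => (hkey y hy).1
    _ = ∑ m ∈ A.image μ, T m := (Finset.sum_image fun y hy y' hy' h => hμi hy hy' h).symm
    _ ≤ ∑ m ∈ Fintype.piFinset (fun _ : Ext D => F.bx (C1 * Y)), T m := by
        refine Finset.sum_le_sum_of_subset_of_nonneg ?_ ?_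
        · intro m hm
          obtain ⟨y, hy, rfl⟩ := Finset.mem_image.1 hm
          exact (hkey y hy).2
        · intro m _ _
          rw [hT]
          show 0 ≤ ite _ _ _
          split_ifs
          · exact h0 _ _ _
          · exact le_refl 0

end Pool.Agent.H98.MF
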