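import Pool.Agent.H98.MF.SPDefs

/-!
# Project MK4 (MP_a3214d), block SYS, row P2: auxiliary lemmas
-/

set_option autoImplicit false

open scoped BigOperators

namespace Pool.Agent.H98.MF

open Pool.Agent.H98.MK (sg)
open Pool.Agent.H98.ML (Dt Ext Wt)

variable {F : Sys} {D : Dt}

theorem sfle_inj {k l : Fin D.r} (h : (Pi.single k 1 : D.V) = Pi.single l 1) : k = l := by
  by_contra hne
  have h1 := congrFun h k
  rw [Pi.single_eq_same, Pi.single_eq_of_ne hne] at h1
  exact one_ne_zero h1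

theorem sfle_ne (k : Fin D.r) : (Pi.single k 1 : D.V) ≠ 0 := by
  intro h
  have h1 := congrFun h k
  rw [Pi.single_eq_same] at h1
  exact one_ne_zero h1

open Classical in
/-- the auxiliary primes of an element -/
noncomputable def sflePP (π : Pr F D) (g : Ext D) : Finset F.P :=
  (Finset.univ.filter fun k => (⟨Pi.single k 1, 0⟩ : Ext D) = g).image π.p

open Classical in
/-- the auxiliary primes of a vector -/
noncomputable def sfleQQ (π : Pr F D) (u : D.V) : Finset F.P :=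
  (Finset.univ.filter fun k => (Pi.single k 1 : D.V) = u).image π.p

theorem sfle_mem_PP (π : Pr F D) (g : Ext D) (p : F.P) :
    p ∈ sflePP π g ↔ ∃ k, (⟨Pi.single k 1, 0⟩ : Ext D) = g ∧ π.p k = p := by
  unfold sflePP
  simp only [Finset.mem_image, Finset.mem_filter, Finset.mem_univ, true_and]

theorem sfle_mem_QQ (π : Pr F D) (u : D.V) (p : F.P) :
    p ∈ sfleQQ π u ↔ ∃ k, (Pi.single k 1 : D.V) = u ∧ π.p k = p := by
  unfold sfleQQ
  simp only [Finset.mem_image, Finset.mem_filter, Finset.mem_univ, true_and]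

theorem sfle_PP_one (π : Pr F D) : sflePP π 1 = ∅ := by
  rw [Finset.eq_empty_iff_forall_notMem]
  intro p hp
  obtain ⟨k, hk, -⟩ := (sfle_mem_PP π 1 p).1 hp
  exact sfle_ne k (congrArg Ext.v hk)

theorem sfle_mem_mV (y : Ext D → Finset F.P) (u : D.V) (p : F.P) :
    p ∈ F.mV y u ↔ u ≠ 0 ∧ ∃ g : Ext D, g.v = u ∧ p ∈ y g := by
  unfold Sys.mV
  by_cases h : u = 0
  · rw [if_pos h]
    constructor
    · intro h1
      exact absurd h1 (Finset.notMem_empty p)
    · intro h1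
      exact absurd h h1.1
  · rw [if_neg h]
    simp only [Finset.mem_biUnion, Finset.mem_filter, Finset.mem_univ, true_and]
    exact ⟨fun h1 => ⟨h, h1⟩, fun h1 => h1.2⟩

theorem sfle_mV (π : Pr F D) (y : Ext D → Finset F.P) (u : D.V) :
    F.mV (fun g => y g ∪ sflePP π g) u = F.mV y u ∪ sfleQQ π u := by
  ext p
  rw [Finset.mem_union, sfle_mem_mV, sfle_mem_mV, sfle_mem_QQ]
  constructor
  · rintro ⟨h0, g, hg, hp⟩
    rcases Finset.mem_union.1 hp with hp | hp
    · exact Or.inl ⟨h0, g, hg, hp⟩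
    · obtain ⟨k, hk, hkp⟩ := (sfle_mem_PP π g p).1 hp
      refine Or.inr ⟨k, ?_, hkp⟩
      rw [← hg, ← hk]
  · rintro (⟨h0, g, hg, hp⟩ | ⟨k, hk, hkp⟩)
    · exact ⟨h0, g, hg, Finset.mem_union_left _ hp⟩
    · refine ⟨hk ▸ sfle_ne k, ⟨Pi.single k 1, 0⟩, hk, Finset.mem_union_right _ ?_⟩
      exact (sfle_mem_PP π _ p).2 ⟨k, rfl, hkp⟩

theorem sfle_disj_mV (π : Pr F D) (y : Ext D → Finset F.P) (hc : F.Cop π y) (u : D.V) :
    Disjoint (F.mV y u) (sfleQQ π u) := by
  rw [Finset.disjoint_left]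
  intro p hp hq
  obtain ⟨-, g, -, hg⟩ := (sfle_mem_mV y u p).1 hp
  obtain ⟨k, -, hk⟩ := (sfle_mem_QQ π u p).1 hq
  exact hc g k (hk ▸ hg)

theorem sfle_disj_PP (π : Pr F D) (y : Ext D → Finset F.P) (hc : F.Cop π y) (g h : Ext D) :
    Disjoint (y g) (sflePP π h) := by
  rw [Finset.disjoint_left]
  intro p hp hq
  obtain ⟨k, -, hk⟩ := (sfle_mem_PP π h p).1 hq
  exact hc g k (hk ▸ hp)

theorem sfle_PP_PP (π : Pr F D) {g h : Ext D} (hne : g ≠ h) :
    Disjoint (sflePP π g) (sflePP π h) := by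
  rw [Finset.disjoint_left]
  intro p hp hq
  obtain ⟨k, hk, hk'⟩ := (sfle_mem_PP π g p).1 hp
  obtain ⟨l, hl, hl'⟩ := (sfle_mem_PP π h p).1 hq
  have h1 := π.inj (hk'.trans hl'.symm)
  exact hne (by rw [← hk, ← hl, h1])

theorem sfle_Dj (π : Pr F D) (y : Ext D → Finset F.P) (hd : F.Dj y) (hc : F.Cop π y) :
    F.Dj (fun g => y g ∪ sflePP π g) := by
  intro g h hne
  rw [Finset.disjoint_union_left, Finset.disjoint_union_right, Finset.disjoint_union_right]
  exact ⟨⟨hd g h hne, sfle_disj_PP π y hc g h⟩,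
    ⟨(sfle_disj_PP π y hc h g).symm, sfle_PP_PP π hne⟩⟩

/-- commutators as a linear map -/
def sfleBL (D : Dt) (v : D.V) : D.V →ₗ[ZMod 2] D.Z := D.β v + D.β.flip v

theorem sfle_BL (v u : D.V) : sfleBL D v u = D.B v u := rfl

theorem sfle_comm (v u : D.V) : D.B v u = D.B u v := add_comm _ _

theorem sfle_self (v : D.V) : D.B v v = 0 := Ext.two_Z _

theorem sfle_zero (v : D.V) : D.B 0 v = 0 := by
  unfold Dt.B
  simp

theorem sfle_QQ_sum (π : Pr F D) (f : F.P → ZMod 2) (u : D.V) :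
    ∑ q ∈ sfleQQ π u, f q = ∑ k, if (Pi.single k 1 : D.V) = u then f (π.p k) else 0 := by
  classical
  unfold sfleQQ
  rw [Finset.sum_image fun k _ l _ h => π.inj h, Finset.sum_filter]

theorem sfle_QQ_tot (π : Pr F D) (f : F.P → ZMod 2) (v : D.V) :
    ∑ u : D.V, (∑ q ∈ sfleQQ π u, f q) • D.B u v = ∑ k, f (π.p k) • D.B (Pi.single k 1) v := by
  have h1 : ∀ u : D.V, (∑ q ∈ sfleQQ π u, f q) • D.B u v =
      ∑ k, if (Pi.single k 1 : D.V) = u then f (π.p k) • D.B u v else 0 := by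
    intro u
    rw [sfle_QQ_sum, Finset.sum_smul]
    refine Finset.sum_congr rfl fun k _ => ?_
    split_ifs
    · rfl
    · rw [zero_smul]
  rw [Finset.sum_congr rfl fun u _ => h1 u, Finset.sum_comm]
  refine Finset.sum_congr rfl fun k _ => ?_
  rw [Finset.sum_ite_eq, if_pos (Finset.mem_univ _)]

theorem sfle_frob (π : Pr F D) (p : F.P) (v : D.V) :
    ∑ k, F.J (π.p k) p • D.B (Pi.single k 1) v = D.B v (F.frob π p) := by
  have h1 : F.frob π p = ∑ k, F.J (π.p k) p • (Pi.single k 1 : D.V) := by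
    funext j
    rw [Finset.sum_apply, Finset.sum_eq_single j]
    · simp [Sys.frob]
    · intro l _ hl
      rw [Pi.smul_apply, Pi.single_eq_of_ne hl.symm, smul_zero]
    · intro h
      exact absurd (Finset.mem_univ j) h
  rw [← sfle_BL v (F.frob π p), h1, map_sum]
  refine Finset.sum_congr rfl fun k _ => ?_
  rw [map_smul, sfle_BL, sfle_comm]

theorem sfle_split (π : Pr F D) (y : Ext D → Finset F.P) (hc : F.Cop π y) (f : F.P → ZMod 2)
    (v : D.V) :
    ∑ u : D.V, (∑ q ∈ F.mV (fun g => y g ∪ sflePP π g) u, f q) • D.B u v =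
      ∑ u : D.V, (∑ q ∈ F.mV y u, f q) • D.B u v +
        ∑ k, f (π.p k) • D.B (Pi.single k 1) v := by
  rw [← sfle_QQ_tot, ← Finset.sum_add_distrib]
  refine Finset.sum_congr rfl fun u _ => ?_
  rw [sfle_mV, Finset.sum_union (sfle_disj_mV π y hc u), add_smul]

theorem sfle_ok1 (w : Wt D) (π : Pr F D) (y : Ext D → Finset F.P) (hc : F.Cop π y) (g : Ext D)
    (hg : w.IsM g) (p : F.P)
    (hB : D.B g.v (F.frob π p + ∑ u : D.V, (∑ q ∈ F.mV y u, F.J q p) • u) = 0) :
    F.okp (fun _ => 0) (F.mV fun g => y g ∪ sflePP π g) g.v p := by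
  have hq : D.q g.v = 0 := by
    have h1 : g * g = 1 := by
      by_contra hc
      have h2 := w.sqr g hc
      rw [hg.2] at h2
      exact lt_irrefl _ h2
    have h2 := congrArg Ext.z h1
    rw [Ext.mul_z, Ext.two_Z, zero_add, Ext.one_z] at h2
    exact h2
  unfold Sys.okp
  rw [hq, smul_zero, sfle_split π y hc (fun q => F.J q p), sfle_frob]
  simp only [sfle_zero, smul_zero, Finset.sum_const_zero, add_zero]
  have h2 : ∑ u : D.V, (∑ q ∈ F.mV y u, F.J q p) • D.B u g.v =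
      D.B g.v (∑ u : D.V, (∑ q ∈ F.mV y u, F.J q p) • u) := by
    rw [← sfle_BL g.v (∑ u : D.V, (∑ q ∈ F.mV y u, F.J q p) • u), map_sum]
    refine Finset.sum_congr rfl fun u _ => ?_
    rw [map_smul, sfle_BL, sfle_comm]
  rw [h2, add_comm, ← sfle_BL, ← sfle_BL, ← map_add, sfle_BL]
  exact hB

theorem sfle_ok2 (π : Pr F D) (y : Ext D → Finset F.P) (hc : F.Cop π y)
    (hC : F.Cnd π (F.mV y)) (k : Fin D.r) :
    F.okp (fun _ => 0) (F.mV fun g => y g ∪ sflePP π g) (Pi.single k 1) (π.p k) := by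
  have hlam : F.lam (π.p k) = 0 := by
    unfold Sys.lam
    rw [π.ty k, dotProduct_zero]
  unfold Sys.okp
  rw [hlam, zero_smul, sfle_split π y hc (fun q => F.J q (π.p k))]
  simp only [sfle_zero, smul_zero, Finset.sum_const_zero, add_zero]
  rw [Finset.sum_eq_zero, Finset.sum_eq_zero, add_zero]
  · intro l _
    by_cases hl : l = k
    · rw [hl, sfle_self, smul_zero]
    · rw [π.res l k hl, zero_smul]
  · intro u _
    have h1 : ∑ q ∈ F.mV y u, F.J q (π.p k) = (F.frobs π (F.mV y u)) k := by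
      unfold Sys.frobs
      rw [Finset.sum_apply]
      refine Finset.sum_congr rfl fun q hq => ?_
      obtain ⟨-, g, -, hg⟩ := (sfle_mem_mV y u q).1 hq
      have hne : q ≠ π.p k := fun h => hc g k (h ▸ hg)
      have h2 := F.recip q (π.p k) hne
      rw [π.ty k, dotProduct_zero, mul_zero] at h2
      have h3 : F.J (π.p k) q = - F.J q (π.p k) := by
        rw [eq_neg_iff_add_eq_zero, add_comm]
        exact h2
      show F.J q (π.p k) = F.J (π.p k) q
      rw [h3, CharTwo.neg_eq]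
    rw [h1, (hC u).2, Pi.zero_apply, zero_smul]

theorem sfle_tys (π : Pr F D) (y : Ext D → Finset F.P) (hc : F.Cop π y)
    (hC : F.Cnd π (F.mV y)) (v : D.V) :
    F.tys (F.mV (fun g => y g ∪ sflePP π g) v) = 0 := by
  rw [sfle_mV, F.tys_union (sfle_disj_mV π y hc v), (hC v).1, zero_add]
  unfold Sys.tys
  refine Finset.sum_eq_zero fun p hp => ?_
  obtain ⟨k, -, rfl⟩ := (sfle_mem_QQ π v p).1 hp
  exact π.ty k

theorem sfle_span (F : Sys) (D : Dt) (Q : Finset D.V) (h : ∀ k : Fin D.r, Pi.single k 1 ∈ Q) :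
    F.Span (fun _ => (0 : D.V)) Q := by
  unfold Sys.Span
  rw [eq_top_iff]
  intro x _
  have h1 : x = ∑ k, x k • (Pi.single k 1 : D.V) := by
    funext j
    rw [Finset.sum_apply, Finset.sum_eq_single j]
    · simp
    · intro l _ hl
      rw [Pi.smul_apply, Pi.single_eq_of_ne hl.symm, smul_zero]
    · intro h
      exact absurd (Finset.mem_univ j) h
  rw [h1]
  refine Submodule.sum_mem _ fun k _ => Submodule.smul_mem _ _ (Submodule.subset_span ?_)
  exact Set.mem_union_right _ (Finset.mem_coe.2 (h k))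

theorem sfle_wt (w : Wt D) (g : Ext D) : 1 ≤ w.wt g := by
  unfold Wt.wt
  split_ifs with h
  · exact le_refl 1
  · have h1 : (0 : ℝ) < w.m := by exact_mod_cast w.pos
    rw [le_div_iff₀ h1, one_mul]
    exact_mod_cast w.min g h

end Pool.Agent.H98.MF
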