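import Pool.Agent.H98.MF.SFXSmallA

/-!
# Project MK4 (MP_a3214d), row MF-P4: the basic sums with the auxiliary primes as variables
-/

set_option autoImplicit false

open scoped BigOperators
open Filter

namespace Pool.Agent.H98.MF

open Pool.Agent.H98.MK (sg)
open Pool.Agent.H98.ML (Dt Ext Wt fsK fs_B_sum fsL fsW fs_prod_coe fs_mem fs_le_prod)

/-- the one-variable weights of the extended sums -/
noncomputable def sxA (F : Sys) {D : Dt} (π : Pr F D) (σ : Finset D.P)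
    (c : D.P × Fin F.m → ZMod 2) : {i // i ∈ σ} ⊕ Fin D.r → Finset F.P → ℝ
  | .inl i, x => if x.Nonempty then (F.ps (fun k => c (i.1, k)) x : ℝ) else 0
  | .inr k, x => if x = {π.p k} then 1 else 0

/-- the extended tuple -/
def sxY (F : Sys) {D : Dt} (π : Pr F D) (σ : Finset D.P) (x : D.P → Finset F.P) :
    {i // i ∈ σ} ⊕ Fin D.r → Finset F.P :=
  Sum.elim (fun i => x i.1) (fun k => {π.p k})

/-- the characters of the extended sums -/
def sxC (F : Sys) {D : Dt} (σ : Finset D.P) (c : D.P × Fin F.m → ZMod 2) :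
    {i // i ∈ σ} ⊕ Fin D.r → F.T :=
  Sum.elim (fun i k => c (i.1, k)) (fun _ => 0)

theorem sxY_jp (F : Sys) {D : Dt} (π : Pr F D) (σ : Finset D.P) (T : Finset (D.V × Fin D.r))
    (x : D.P → Finset F.P) (hx1 : ∀ i, i ∉ σ → x i = ∅) :
    (open Classical in (F.jp D.L x : ℤ) *
      ∏ i : D.P, ∏ k, if fsK T i k then F.jj (x i) {π.p k} else 1) =
      F.jp (fsL σ T) (sxY F π σ x) := by
  classical
  unfold Sys.jp
  rw [Fintype.prod_sum_type]
  have h1 : ∀ k : Fin D.r, (∏ j, if fsL σ T (Sum.inr k) j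
      then F.jj (sxY F π σ x (Sum.inr k)) (sxY F π σ x j) else 1) = 1 := by
    intro k
    refine Finset.prod_eq_one fun j _ => ?_
    rw [if_neg (by intro h; cases j <;> exact h)]
  rw [Finset.prod_congr rfl fun k _ => h1 k, Finset.prod_const_one, mul_one,
    ← Finset.prod_mul_distrib]
  have h2 : ∀ i : {i // i ∈ σ}, (∏ j, if fsL σ T (Sum.inl i) j
      then F.jj (sxY F π σ x (Sum.inl i)) (sxY F π σ x j) else 1) =
      (∏ j, if D.L i.1 j then F.jj (x i.1) (x j) else 1) *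
      ∏ k, if fsK T i.1 k then F.jj (x i.1) {π.p k} else 1 := by
    intro i
    rw [Fintype.prod_sum_type]
    congr 1
    exact fs_prod_coe σ (fun j => if D.L i.1 j then F.jj (x i.1) (x j) else 1)
      fun j hj => by rw [hx1 j hj, F.jj_empty_right, ite_self]
  rw [Finset.prod_congr rfl fun i _ => h2 i]
  refine (fs_prod_coe σ (fun i => (∏ j, if D.L i j then F.jj (x i) (x j) else 1) *
      ∏ k, if fsK T i k then F.jj (x i) {π.p k} else 1) fun i hi => ?_).symm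
  rw [hx1 i hi]
  simp [F.jj_empty_left]

theorem sxY_Dj (F : Sys) {D : Dt} (π : Pr F D) (σ : Finset D.P) (x : D.P → Finset F.P)
    (hx1 : ∀ i, i ∉ σ → x i = ∅) : F.Dj (sxY F π σ x) ↔ F.Dj x ∧ F.Cop π x := by
  constructor
  · intro h
    refine ⟨fun i j hij => ?_, fun i k hik => ?_⟩
    · by_cases hi : i ∈ σ
      · by_cases hj : j ∈ σ
        · refine h (Sum.inl ⟨i, hi⟩) (Sum.inl ⟨j, hj⟩) ?_
          intro h1
          exact hij (congrArg Subtype.val (Sum.inl_injective h1))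
        · rw [hx1 j hj]
          exact Finset.disjoint_empty_right _
      · rw [hx1 i hi]
        exact Finset.disjoint_empty_left _
    · by_cases hi : i ∈ σ
      · have h1 : Disjoint (x i) {π.p k} := h (Sum.inl ⟨i, hi⟩) (Sum.inr k) Sum.inl_ne_inr
        exact Finset.disjoint_left.1 h1 hik (Finset.mem_singleton_self _)
      · rw [hx1 i hi] at hik
        exact absurd hik (Finset.notMem_empty _)
  · rintro ⟨h, hc⟩ i j hij
    rcases i with i | k
    · rcases j with j | l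
      · refine h i.1 j.1 ?_
        intro h1
        exact hij (congrArg Sum.inl (Subtype.ext h1))
      · exact Finset.disjoint_singleton_right.2 (hc i.1 l)
    · rcases j with j | l
      · exact Finset.disjoint_singleton_left.2 (hc j.1 k)
      · refine Finset.disjoint_singleton.2 ?_
        intro h1
        exact hij (congrArg Sum.inr (π.inj h1))

theorem sxY_size (F : Sys) {D : Dt} (π : Pr F D) (σ : Finset D.P) (x : D.P → Finset F.P)
    (hx1 : ∀ i, i ∉ σ → x i = ∅) :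
    ∏ i, (F.nm (sxY F π σ x i) : ℝ) ^ fsW σ i =
      (∏ i, (F.nm (x i) : ℝ)) * ∏ k, (F.N (π.p k) : ℝ) ^ 2 := by
  rw [Fintype.prod_sum_type]
  congr 1
  · rw [← fs_prod_coe σ (fun i => (F.nm (x i) : ℝ)) fun i hi => by
      rw [hx1 i hi, F.nm_empty, Nat.cast_one]]
    refine Finset.prod_congr rfl fun i _ => ?_
    show (F.nm (x i.1) : ℝ) ^ (1 : ℝ) = _
    rw [Real.rpow_one]
  · refine Finset.prod_congr rfl fun k _ => ?_
    show (F.nm {π.p k} : ℝ) ^ (2 : ℝ) = _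
    have h1 : F.nm {π.p k} = F.N (π.p k) := Finset.prod_singleton _ _
    rw [h1, ← Real.rpow_natCast]
    norm_num

theorem sx_one_le (F : Sys) {D : Dt} (π : Pr F D) : (1 : ℝ) ≤ ∏ k, (F.N (π.p k) : ℝ) ^ 2 :=
  Finset.one_le_prod fun k _ => one_le_pow₀ (by exact_mod_cast F.one_le_N (π.p k))

theorem sx_pos (F : Sys) {D : Dt} (π : Pr F D) : 0 < ∏ k, (F.N (π.p k) : ℝ) ^ 2 :=
  lt_of_lt_of_le one_pos (sx_one_le F π)

open Classical in
/-- the summands agree -/
theorem sx_val (F : Sys) {D : Dt} (π : Pr F D) (σ : Finset D.P) (T : Finset (D.V × Fin D.r))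
    (c : D.P × Fin F.m → ZMod 2) (Y : ℝ) (x : D.P → Finset F.P) (hx1 : ∀ i, i ∉ σ → x i = ∅)
    (hx2 : ∀ i ∈ σ, (x i).Nonempty) :
    (if F.Dj x ∧ F.Cop π x ∧ (∏ i, (F.nm (x i) : ℝ)) ≤ Y then
      (((∏ i : D.P, F.ps (fun k => c (i, k)) (x i) : ℤ) : ℝ) * (F.jp D.L x : ℝ)) *
       ((∏ i : D.P, ∏ k, if fsK T i k then F.jj (x i) {π.p k} else 1 : ℤ) : ℝ) else 0) =
    if F.Dj (sxY F π σ x) ∧
        ∏ i, (F.nm (sxY F π σ x i) : ℝ) ^ fsW σ i ≤ Y * ∏ k, (F.N (π.p k) : ℝ) ^ 2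
    then (∏ i, sxA F π σ c i (sxY F π σ x i)) * (F.jp (fsL σ T) (sxY F π σ x) : ℝ) else 0 := by
  have h0 : (∏ i, (F.nm (x i) : ℝ)) * ∏ k, (F.N (π.p k) : ℝ) ^ 2 ≤
      Y * ∏ k, (F.N (π.p k) : ℝ) ^ 2 ↔ (∏ i, (F.nm (x i) : ℝ)) ≤ Y :=
    mul_le_mul_iff_left₀ (sx_pos F π)
  have hiff : (F.Dj (sxY F π σ x) ∧
      ∏ i, (F.nm (sxY F π σ x i) : ℝ) ^ fsW σ i ≤ Y * ∏ k, (F.N (π.p k) : ℝ) ^ 2) ↔
      (F.Dj x ∧ F.Cop π x ∧ (∏ i, (F.nm (x i) : ℝ)) ≤ Y) := by
    rw [sxY_size F π σ x hx1, sxY_Dj F π σ x hx1, h0, and_assoc]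
  by_cases hc : F.Dj x ∧ F.Cop π x ∧ (∏ i, (F.nm (x i) : ℝ)) ≤ Y
  · rw [if_pos hc, if_pos (hiff.2 hc), ← sxY_jp F π σ T x hx1]
    have h1 : (∏ i, sxA F π σ c i (sxY F π σ x i)) =
        ((∏ i : D.P, F.ps (fun k => c (i, k)) (x i) : ℤ) : ℝ) := by
      rw [Fintype.prod_sum_type]
      have h2 : (∏ k : Fin D.r, sxA F π σ c (Sum.inr k) (sxY F π σ x (Sum.inr k))) = 1 :=
        Finset.prod_eq_one fun k _ => if_pos rfl
      rw [h2, mul_one, Int.cast_prod, ← fs_prod_coe σ (fun i =>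
        ((F.ps (fun k => c (i, k)) (x i) : ℤ) : ℝ)) fun i hi => by
          rw [hx1 i hi, F.ps_empty, Int.cast_one]]
      refine Finset.prod_congr rfl fun i _ => ?_
      exact if_pos (hx2 i.1 i.2)
    rw [h1]
    push_cast
    ring
  · rw [if_neg hc, if_neg (fun h => hc (hiff.1 h))]

open Classical in
theorem sx_GW (F : Sys) {D : Dt} (π : Pr F D) (σ : Finset D.P) (T : Finset (D.V × Fin D.r))
    (c : D.P × Fin F.m → ZMod 2) (Y : ℝ) :
    ∑ x ∈ Fintype.piFinset (fun i : D.P => if i ∈ σ then (F.bx Y).erase ∅ else {∅}),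
      (if F.Dj x ∧ F.Cop π x ∧ (∏ i, (F.nm (x i) : ℝ)) ≤ Y then
      (((∏ i : D.P, F.ps (fun k => c (i, k)) (x i) : ℤ) : ℝ) * (F.jp D.L x : ℝ)) *
       ((∏ i : D.P, ∏ k, if fsK T i k then F.jj (x i) {π.p k} else 1 : ℤ) : ℝ) else 0) =
    F.GW (fsW σ) (fsL σ T) (sxA F π σ c) (Y * ∏ k, (F.N (π.p k) : ℝ) ^ 2) := by
  have hbox : ∀ x ∈ Fintype.piFinset (fun i : D.P => if i ∈ σ then (F.bx Y).erase ∅ else {∅}),
      (∀ i, i ∉ σ → x i = ∅) ∧ ∀ i ∈ σ, (x i).Nonempty := by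
    intro x hx
    rw [Fintype.mem_piFinset] at hx
    refine ⟨fun i hi => ?_, fun i hi => ?_⟩
    · have := hx i
      rwa [if_neg hi, Finset.mem_singleton] at this
    · have := hx i
      rw [if_pos hi, Finset.mem_erase] at this
      exact Finset.nonempty_iff_ne_empty.2 this.1
  unfold Sys.GW
  refine Finset.sum_bij_ne_zero (fun x _ _ => sxY F π σ x) ?_ ?_ ?_ ?_
  · intro x hx h0
    obtain ⟨hx1, hx2⟩ := hbox x hx
    rw [sx_val F π σ T c Y x hx1 hx2] at h0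
    have hc : F.Dj (sxY F π σ x) ∧
        ∏ i, (F.nm (sxY F π σ x i) : ℝ) ^ fsW σ i ≤ Y * ∏ k, (F.N (π.p k) : ℝ) ^ 2 := by
      by_contra hc
      exact h0 (if_neg hc)
    refine (fs_mem _ _ _).2 fun i => ?_
    rw [F.mem_bx]
    have h2 : (1 : ℝ) ≤ F.nm (sxY F π σ x i) := F.one_le_nmr _
    have h3 : (1 : ℝ) ≤ fsW σ i := by
      rcases i with i | k
      · exact le_rfl
      · exact one_le_two
    refine le_trans ?_ hc.2
    refine le_trans ?_ (fs_le_prod (fun i => (F.nm (sxY F π σ x i) : ℝ) ^ fsW σ i)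
      (fun j => ?_) i)
    · exact Real.self_le_rpow_of_one_le h2 h3
    · refine Real.one_le_rpow (F.one_le_nmr _) ?_
      rcases j with j | k
      · exact zero_le_one
      · exact zero_le_two
  · intro x hx _ y hy _ hxy
    obtain ⟨hx1, hx2⟩ := hbox x hx
    obtain ⟨hy1, hy2⟩ := hbox y hy
    funext i
    by_cases hi : i ∈ σ
    · exact congrFun hxy (Sum.inl ⟨i, hi⟩)
    · rw [hx1 i hi, hy1 i hi]
  · intro y hy h0
    have hc : F.Dj y ∧
        ∏ i, (F.nm (y i) : ℝ) ^ fsW σ i ≤ Y * ∏ k, (F.N (π.p k) : ℝ) ^ 2 := by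
      by_contra hc
      exact h0 (if_neg hc)
    have h2 : ∏ i, sxA F π σ c i (y i) ≠ 0 := by
      intro h3
      rw [h3, zero_mul, ite_self] at h0
      exact h0 rfl
    have h3 : ∀ i, sxA F π σ c i (y i) ≠ 0 := fun i => Finset.prod_ne_zero_iff.1 h2 i
      (Finset.mem_univ i)
    have h4 : ∀ i : {i // i ∈ σ}, (y (Sum.inl i)).Nonempty := by
      intro i
      by_contra h5
      exact h3 (Sum.inl i) (if_neg h5)
    have h5 : ∀ k, y (Sum.inr k) = {π.p k} := by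
      intro k
      by_contra h5
      exact h3 (Sum.inr k) (if_neg h5)
    set x : D.P → Finset F.P := fun i => if h : i ∈ σ then y (Sum.inl ⟨i, h⟩) else ∅ with hx
    have hx1 : ∀ i, i ∉ σ → x i = ∅ := fun i hi => by
      rw [hx]
      exact dif_neg hi
    have hx3 : ∀ i (hi : i ∈ σ), x i = y (Sum.inl ⟨i, hi⟩) := fun i hi => by
      rw [hx]
      exact dif_pos hi
    have hx2 : ∀ i ∈ σ, (x i).Nonempty := fun i hi => by
      rw [hx3 i hi]
      exact h4 _
    have hxy : sxY F π σ x = y := by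
      funext i
      rcases i with i | k
      · exact hx3 i.1 i.2
      · exact (h5 k).symm
    have hle : (∏ i, (F.nm (x i) : ℝ)) ≤ Y := by
      have h6 := hc.2
      rw [← hxy, sxY_size F π σ x hx1] at h6
      exact le_of_mul_le_mul_right h6 (sx_pos F π)
    have hxb : x ∈ Fintype.piFinset
        (fun i : D.P => if i ∈ σ then (F.bx Y).erase ∅ else {∅}) := by
      rw [Fintype.mem_piFinset]
      intro i
      by_cases hi : i ∈ σ
      · rw [if_pos hi, Finset.mem_erase, F.mem_bx]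
        exact ⟨(hx2 i hi).ne_empty, (fs_le_prod (fun i => (F.nm (x i) : ℝ))
          (fun i => F.one_le_nmr _) i).trans hle⟩
      · rw [if_neg hi, Finset.mem_singleton]
        exact hx1 i hi
    refine ⟨x, hxb, ?_, hxy⟩
    rw [sx_val F π σ T c Y x hx1 hx2, hxy]
    exact h0
  · intro x hx _
    obtain ⟨hx1, hx2⟩ := hbox x hx
    exact sx_val F π σ T c Y x hx1 hx2

end Pool.Agent.H98.MF
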