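import Pool.Agent.H98.MF.SFXSmallB

/-!
# Project MK4 (MP_a3214d), row MF-P4: supports without main term, from the basic sums
-/

set_option autoImplicit false

open scoped BigOperators
open Filter

namespace Pool.Agent.H98.MF

open Pool.Agent.H98.MK (sg)
open Pool.Agent.H98.ML (Dt Ext Wt fsK fs_B_sum fsL fsW fs_prod_coe fs_mem fs_le_prod fs_card
  fs_log fs_scale)

open Classical in
theorem sx_term (F : Sys) {D : Dt} (π : Pr F D) (x : D.P → Finset F.P) (hd : F.Dj x) :
    (if F.Cnd π (F.mP x) then (F.sgF π x : ℝ) else 0) =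
      ∑ c : D.P × Fin F.m → ZMod 2, ∑ T : Finset (D.V × Fin D.r),
        (sxF (sxG F D) c * (1 / 2 : ℝ) ^ (Fintype.card (D.V × Fin D.r))) *
        ((((∏ i : D.P, F.ps (fun k => c (i, k)) (x i) : ℤ) : ℝ) * (F.jp D.L x : ℝ)) *
        ((∏ i : D.P, ∏ k, if fsK T i k then F.jj (x i) {π.p k} else 1 : ℤ) : ℝ)) := by
  have h1 := sx_types F x hd
  have h2 := sx_res F π x hd
  have h3 : (if F.Cnd π (F.mP x) then (F.sgF π x : ℝ) else 0) =
      (((sg (∑ i, ∑ j, D.e i j * F.JJ (x i) (x j)) : ℤ) : ℝ) *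
      (if ∀ v : D.V, F.tys (F.mP x v) = 0 then 1 else 0)) *
      ((if ∀ v : D.V, F.frobs π (F.mP x v) = 0 then (1 : ℝ) else 0) *
      ((sg (∑ i : D.P, i.2 ⬝ᵥ D.B i.1.v (F.frobs π (x i))) : ℤ) : ℝ)) := by
    by_cases ha : ∀ v : D.V, F.tys (F.mP x v) = 0
    · by_cases hb : ∀ v : D.V, F.frobs π (F.mP x v) = 0
      · rw [if_pos (show F.Cnd π (F.mP x) from fun v => ⟨ha v, hb v⟩), if_pos ha, if_pos hb]
        unfold Sys.sgF
        rw [sg_add, Int.cast_mul]
        ring
      · rw [if_neg (fun h : F.Cnd π (F.mP x) => hb fun v => (h v).2), if_neg hb]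
        ring
    · rw [if_neg (fun h : F.Cnd π (F.mP x) => ha fun v => (h v).1), if_neg ha]
      ring
  rw [h3, h1, h2, Finset.sum_mul_sum]
  refine Finset.sum_congr rfl fun c _ => Finset.sum_congr rfl fun T _ => ?_
  ring

open Classical in
theorem sx_expand (F : Sys) {D : Dt} (π : Pr F D) (σ : Finset D.P) (Y : ℝ) :
    F.FX π σ Y = ∑ c : D.P × Fin F.m → ZMod 2, ∑ T : Finset (D.V × Fin D.r),
      (sxF (sxG F D) c * (1 / 2 : ℝ) ^ (Fintype.card (D.V × Fin D.r))) *
        F.GW (fsW σ) (fsL σ T) (sxA F π σ c) (Y * ∏ k, (F.N (π.p k) : ℝ) ^ 2) := by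
  unfold Sys.FX
  simp only [← sx_GW F π σ _ _ Y]
  simp only [Finset.mul_sum]
  rw [Finset.sum_congr rfl fun c _ => Finset.sum_comm, Finset.sum_comm]
  refine Finset.sum_congr rfl fun x _ => ?_
  by_cases hc : F.Dj x ∧ F.Cop π x ∧ (∏ i, (F.nm (x i) : ℝ)) ≤ Y
  · have h1 := sx_term F π x hc.1
    by_cases hd : F.Cnd π (F.mP x)
    · rw [if_pos ⟨hc.1, hc.2.1, hc.2.2, hd⟩]
      rw [if_pos hd] at h1
      rw [h1]
      refine Finset.sum_congr rfl fun c _ => Finset.sum_congr rfl fun T _ => ?_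
      rw [if_pos hc]
    · rw [if_neg (fun h => hd h.2.2.2)]
      rw [if_neg hd] at h1
      rw [h1]
      refine Finset.sum_congr rfl fun c _ => Finset.sum_congr rfl fun T _ => ?_
      rw [if_pos hc]
  · rw [if_neg (fun h => hc ⟨h.1, h.2.1, h.2.2.1⟩)]
    symm
    refine Finset.sum_eq_zero fun c _ => Finset.sum_eq_zero fun T _ => ?_
    rw [if_neg hc, mul_zero]

theorem sx_card (F : Sys) {D : Dt} {w : Wt D} (σ : Finset D.P) (hσ : σ ⊆ w.actM)
    (hS : ¬ w.Sb σ) (T : Finset (D.V × Fin D.r)) (c : D.P × Fin F.m → ZMod 2) :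
    Nat.card {i // F.Free (fsW σ) (fsL σ T) (sxC F σ c) i} < w.b := by
  classical
  refine lt_of_le_of_lt ?_ (fs_card σ hσ hS T 0)
  refine Nat.card_le_card_of_injective
    (fun i => (⟨i.1, i.2.1, by rcases i.1 with j | k <;> rfl, i.2.2.2⟩ :
      {i // Pool.Agent.H98.ML.Free (fsW σ) (fsL σ T) (Pool.Agent.H98.ML.fsC σ 0) i})) ?_
  intro i j h
  have h2 := congrArg Subtype.val h
  exact Subtype.ext h2

/-- the statement of row MF-A22 -/
def SATS (F : Sys) : Prop :=
  ∀ (ι : Type) [Fintype ι] (w : ι → ℝ), (∀ i, 1 ≤ w i) →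
    ∀ L : ι → ι → Prop, (∀ i j, L i j → ¬ L j i) → ∀ (c : ι → F.T)
    (a : ι → Finset F.P → ℝ), (∀ l x, |a l x| ≤ 1) → (∀ l x, a l x ≠ 0 → x.Nonempty) →
    (∀ i, w i = 1 → ∀ x, a i x =
      (open Classical in if x.Nonempty then (F.ps (c i) x : ℝ) else 0)) →
    (∀ k, Nat.card {l // F.Free w L c l} = k + 1 → ∃ C : ℝ,
      Tendsto (fun Y : ℝ => F.GW w L a Y / (Y * Real.log Y ^ k)) atTop (nhds C)) ∧
    (Nat.card {l // F.Free w L c l} = 0 →
      Tendsto (fun Y : ℝ => F.GW w L a Y / Y) atTop (nhds 0))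

theorem FX_small_of (F : Sys) (hATS : SATS F) {D : Dt} (w : Wt D) (π : Pr F D)
    (σ : Finset D.P) (hσ : σ ⊆ w.actM) (hS : ¬ w.Sb σ) :
    Tendsto (fun Y : ℝ => F.FX π σ Y / (Y * Real.log Y ^ (w.b - 1))) atTop (nhds 0) := by
  classical
  have hterm : ∀ (c : D.P × Fin F.m → ZMod 2) (T : Finset (D.V × Fin D.r)),
      Tendsto (fun Y : ℝ => F.GW (fsW σ) (fsL σ T) (sxA F π σ c)
        (Y * ∏ k, (F.N (π.p k) : ℝ) ^ 2) / (Y * Real.log Y ^ (w.b - 1))) atTop (nhds 0) := by
    intro c T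
    have hA := hATS ({i // i ∈ σ} ⊕ Fin D.r) (fsW σ)
      (fun i => by
        rcases i with i | k
        · exact le_rfl
        · exact one_le_two) (fsL σ T)
      (fun i j hij hji => by
        rcases i with i | k
        · rcases j with j | k
          · have h3 := hij.2.symm.trans hji.1
            exact absurd h3 (by decide)
          · exact hji
        · exact hij) (sxC F σ c) (sxA F π σ c)
      (fun i x => by
        rcases i with i | k
        · show |if x.Nonempty then (F.ps (fun k => c (i.1, k)) x : ℝ) else 0| ≤ 1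
          split_ifs
          · exact (F.abs_ps _ _).le
          · norm_num
        · show |if x = {π.p k} then (1 : ℝ) else 0| ≤ 1
          split_ifs <;> norm_num)
      (fun i x hn => by
        rcases i with i | k
        · by_contra h2
          exact hn (if_neg h2)
        · by_contra h2
          apply hn
          refine if_neg ?_
          rintro rfl
          exact h2 (Finset.singleton_nonempty _))
      (fun i hi x => by
        rcases i with i | k
        · show (if x.Nonempty then (F.ps (fun k => c (i.1, k)) x : ℝ) else 0) = _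
          split_ifs <;> rfl
        · have h1 : (2 : ℝ) = 1 := hi
          norm_num at h1)
    have hlt := sx_card F σ hσ hS T c
    refine fs_scale _ _ (sx_pos F π) _ ?_
    rcases Nat.eq_zero_or_pos (Nat.card {i // F.Free (fsW σ) (fsL σ T) (sxC F σ c) i}) with
      h0 | h0
    · have h1 := hA.2 h0
      rcases Nat.eq_zero_or_pos (w.b - 1) with hb | hb
      · rw [hb]
        simpa using h1
      · exact fs_log _ 0 0 _ hb (by simpa using h1)
    · obtain ⟨k, hk⟩ := Nat.exists_eq_succ_of_ne_zero h0.ne'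
      obtain ⟨C, hC⟩ := hA.1 k hk
      exact fs_log _ C k _ (by omega) hC
  have hsum : Tendsto (fun Y : ℝ => ∑ c : D.P × Fin F.m → ZMod 2,
      ∑ T : Finset (D.V × Fin D.r),
      (sxF (sxG F D) c * (1 / 2 : ℝ) ^ (Fintype.card (D.V × Fin D.r))) *
        (F.GW (fsW σ) (fsL σ T) (sxA F π σ c) (Y * ∏ k, (F.N (π.p k) : ℝ) ^ 2) /
        (Y * Real.log Y ^ (w.b - 1)))) atTop
      (nhds (∑ c : D.P × Fin F.m → ZMod 2, ∑ T : Finset (D.V × Fin D.r),
      (sxF (sxG F D) c * (1 / 2 : ℝ) ^ (Fintype.card (D.V × Fin D.r))) * 0)) :=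
    tendsto_finsetSum _ fun c _ => tendsto_finsetSum _ fun T _ => (hterm c T).const_mul _
  simp only [mul_zero, Finset.sum_const_zero] at hsum
  refine hsum.congr fun Y => ?_
  rw [sx_expand F π σ Y]
  simp only [Finset.sum_div, mul_div_assoc]

end Pool.Agent.H98.MF
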