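import Pool.Agent.H98.MF.SPDefs
import Pool.Agent.H98.ML.FXUU

/-!
# Project MK4 (MP_a3214d), row MF-P5: the main supports, the summand (helper91)
-/

set_option autoImplicit false

open scoped BigOperators

namespace Pool.Agent.H98.MF

open Pool.Agent.H98.MK (sg)
open Pool.Agent.H98.ML (Dt Ext Wt uuE uu_e uu_symm fxB fxB_apply fx_B_zero fx_B_zero_left
  fx_B_self)

variable {D : Dt}

theorem u5_frobs_empty (F : Sys) (π : Pr F D) : F.frobs π ∅ = 0 := rfl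

theorem u5_frobs_biUnion (F : Sys) (π : Pr F D) {ι : Type*} (s : Finset ι) (x : ι → Finset F.P)
    (h : ∀ i ∈ s, ∀ j ∈ s, i ≠ j → Disjoint (x i) (x j)) :
    F.frobs π (s.biUnion x) = ∑ i ∈ s, F.frobs π (x i) := by
  unfold Sys.frobs
  exact Finset.sum_biUnion fun i hi j hj hij => h i hi j hj hij

theorem u5_mP_zero (F : Sys) (x : D.P → Finset F.P) : F.mP x 0 = ∅ := by
  unfold Sys.mP
  rw [if_pos rfl]

open Classical in
theorem u5_mP (F : Sys) (x : D.P → Finset F.P) {v : D.V} (hv : v ≠ 0) :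
    F.mP x v = (Finset.univ.filter fun i : D.P => i.1.v = v).biUnion x := by
  unfold Sys.mP
  rw [if_neg hv]

theorem u5_mem (F : Sys) (x : D.P → Finset F.P) (v : D.V) (p : F.P) (h : p ∈ F.mP x v) :
    v ≠ 0 ∧ ∃ i : D.P, i.1.v = v ∧ p ∈ x i := by
  classical
  by_cases hv : v = 0
  · subst hv
    rw [u5_mP_zero] at h
    exact absurd h (Finset.notMem_empty p)
  · rw [u5_mP F x hv, Finset.mem_biUnion] at h
    obtain ⟨i, hi, hp⟩ := h
    exact ⟨hv, i, (Finset.mem_filter.1 hi).2, hp⟩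

theorem u5_disj (F : Sys) (x : D.P → Finset F.P) (hx : F.Dj x) {u v : D.V} (huv : u ≠ v) :
    Disjoint (F.mP x u) (F.mP x v) := by
  refine Finset.disjoint_left.2 fun p hp hq => huv ?_
  obtain ⟨-, i, hi, hpi⟩ := u5_mem F x u p hp
  obtain ⟨-, j, hj, hpj⟩ := u5_mem F x v p hq
  have h : i = j := by
    by_contra hne
    exact Finset.disjoint_left.1 (hx i j hne) hpi hpj
  rw [← hi, ← hj, h]

theorem u5_uuE_zero (ζ : D.V → D.Z) (u : D.V) : uuE ζ u 0 = 0 := by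
  unfold uuE
  rw [fx_B_zero, dotProduct_zero]

theorem u5_uuE_zero_left (ζ : D.V → D.Z) (v : D.V) : uuE ζ 0 v = 0 := by
  unfold uuE
  rw [fx_B_zero_left, dotProduct_zero]

theorem u5_uuE_self (ζ : D.V → D.Z) (v : D.V) : uuE ζ v v = 0 := by
  unfold uuE
  rw [fx_B_self, dotProduct_zero]

open Classical in
/-- the symbols over all pairs of indices, grouped by vectors -/
theorem u5_group (F : Sys) (x : D.P → Finset F.P) (hx : F.Dj x) (ζ : D.V → D.Z) :
    ∑ i : D.P, ∑ j : D.P, uuE ζ i.1.v j.1.v * F.JJ (x i) (x j) =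
      ∑ u : D.V, ∑ v : D.V, uuE ζ u v * F.JJ (F.mP x u) (F.mP x v) := by
  rw [← Finset.sum_fiberwise (Finset.univ : Finset D.P) (fun i => i.1.v)]
  refine Finset.sum_congr rfl fun u _ => ?_
  by_cases hu : u = 0
  · subst hu
    rw [Finset.sum_eq_zero, Finset.sum_eq_zero]
    · intro v _
      rw [u5_uuE_zero_left, zero_mul]
    · intro i hi
      refine Finset.sum_eq_zero fun j _ => ?_
      rw [(Finset.mem_filter.1 hi).2, u5_uuE_zero_left, zero_mul]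
  have h1 : ∀ i ∈ Finset.univ.filter (fun i : D.P => i.1.v = u),
      ∑ j : D.P, uuE ζ i.1.v j.1.v * F.JJ (x i) (x j) =
        ∑ v : D.V, uuE ζ u v * F.JJ (x i) (F.mP x v) := by
    intro i hi
    rw [← Finset.sum_fiberwise (Finset.univ : Finset D.P) (fun j => j.1.v)]
    refine Finset.sum_congr rfl fun v _ => ?_
    by_cases hv : v = 0
    · subst hv
      rw [u5_uuE_zero, zero_mul]
      refine Finset.sum_eq_zero fun j hj => ?_
      rw [(Finset.mem_filter.1 hj).2, u5_uuE_zero, zero_mul]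
    · rw [u5_mP F x hv, F.JJ_biUnion_right (x i) _ x fun a _ b _ hab => hx a b hab,
        Finset.mul_sum]
      refine Finset.sum_congr rfl fun j hj => ?_
      rw [(Finset.mem_filter.1 hi).2, (Finset.mem_filter.1 hj).2]
  rw [Finset.sum_congr rfl h1, Finset.sum_comm]
  refine Finset.sum_congr rfl fun v _ => ?_
  rw [u5_mP F x hu, F.JJ_biUnion_left _ x _ fun a _ b _ hab => hx a b hab, Finset.mul_sum]

/-- the symbols cancel by reciprocity -/
theorem u5_one (F : Sys) {w : Wt D} (π : Pr F D) {ζ : D.V → D.Z} (hζ : w.Cmp ζ)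
    {σ : Finset D.P} (hσ : σ ⊆ w.UU ζ) (x : D.P → Finset F.P) (hx1 : ∀ i, i ∉ σ → x i = ∅)
    (hx : F.Dj x) (hc : F.Cnd π (F.mP x)) :
    ∑ u : D.V, ∑ v : D.V, uuE ζ u v * F.JJ (F.mP x u) (F.mP x v) = 0 := by
  classical
  have hsup : ∀ u : D.V, F.mP x u ≠ ∅ → ∃ i ∈ σ, i.1.v = u := by
    intro u hu
    obtain ⟨p, hp⟩ := Finset.nonempty_iff_ne_empty.2 hu
    obtain ⟨-, i, hi, hpi⟩ := u5_mem F x u p hp
    refine ⟨i, ?_, hi⟩
    by_contra h
    rw [hx1 i h] at hpi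
    exact Finset.notMem_empty p hpi
  rw [← Fintype.sum_prod_type'
    (fun u v : D.V => uuE ζ u v * F.JJ (F.mP x u) (F.mP x v))]
  refine Finset.sum_involution (fun a _ => (a.2, a.1)) ?_ ?_ ?_ ?_
  · rintro ⟨u, v⟩ _
    simp only
    by_cases huv : u = v
    · subst huv
      rw [u5_uuE_self, zero_mul, zero_add]
    by_cases hu1 : F.mP x u = ∅
    · rw [hu1, F.JJ_empty_left, F.JJ_empty_right, mul_zero, mul_zero, zero_add]
    by_cases hv1 : F.mP x v = ∅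
    · rw [hv1, F.JJ_empty_left, F.JJ_empty_right, mul_zero, mul_zero, zero_add]
    obtain ⟨i, hi, rfl⟩ := hsup u hu1
    obtain ⟨j, hj, rfl⟩ := hsup v hv1
    rw [uu_symm hζ hσ hj hi, ← mul_add, F.JJ_recip (u5_disj F x hx huv), (hc i.1.v).1,
      dotProduct_zero, zero_mul, mul_zero]
  · rintro ⟨u, v⟩ _ h1 h2
    have h3 : u = v := (Prod.ext_iff.1 h2).2
    subst h3
    apply h1
    simp only
    rw [u5_uuE_self, zero_mul]
  · intro _ _
    exact Finset.mem_univ _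
  · rintro ⟨u, v⟩ _
    rfl

/-- the auxiliary signs of the choice cancel -/
theorem u5_aux (F : Sys) (π : Pr F D) (ζ : D.V → D.Z) (x : D.P → Finset F.P) (hx : F.Dj x)
    (hc : F.Cnd π (F.mP x)) :
    ∑ i : D.P, ζ i.1.v ⬝ᵥ D.B i.1.v (F.frobs π (x i)) = 0 := by
  classical
  rw [← Finset.sum_fiberwise (Finset.univ : Finset D.P) (fun i => i.1.v)]
  refine Finset.sum_eq_zero fun u _ => ?_
  have h1 : ∀ i ∈ Finset.univ.filter (fun i : D.P => i.1.v = u),
      ζ i.1.v ⬝ᵥ D.B i.1.v (F.frobs π (x i)) = ζ u ⬝ᵥ fxB u (F.frobs π (x i)) := by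
    intro i hi
    rw [(Finset.mem_filter.1 hi).2, fxB_apply]
  rw [Finset.sum_congr rfl h1, ← dotProduct_sum, ← map_sum]
  by_cases hu : u = 0
  · subst hu
    rw [fxB_apply, fx_B_zero_left, dotProduct_zero]
  · rw [← u5_frobs_biUnion F π _ x fun a _ b _ hab => hx a b hab, ← u5_mP F x hu, (hc u).2,
      map_zero, dotProduct_zero]

/-- the sign of a tuple supported in `UU` -/
theorem u5_sgF (F : Sys) {w : Wt D} (π : Pr F D) {ζ : D.V → D.Z} (hζ : w.Cmp ζ)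
    {σ : Finset D.P} (hσ : σ ⊆ w.UU ζ) (x : D.P → Finset F.P) (hx1 : ∀ i, i ∉ σ → x i = ∅)
    (hx : F.Dj x) (hc : F.Cnd π (F.mP x)) :
    F.sgF π x = sg (∑ i ∈ σ, (i.2 + ζ i.1.v) ⬝ᵥ D.B i.1.v (F.frobs π (x i))) := by
  classical
  unfold Sys.sgF
  congr 1
  have h1 : ∑ i : D.P, ∑ j : D.P, D.e i j * F.JJ (x i) (x j) =
      ∑ i : D.P, ∑ j : D.P, uuE ζ i.1.v j.1.v * F.JJ (x i) (x j) := by
    refine Finset.sum_congr rfl fun i _ => Finset.sum_congr rfl fun j _ => ?_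
    by_cases hi : i ∈ σ
    · by_cases hj : j ∈ σ
      · rw [uu_e hσ hi hj]
      · rw [hx1 j hj, F.JJ_empty_right, mul_zero, mul_zero]
    · rw [hx1 i hi, F.JJ_empty_left, mul_zero, mul_zero]
  rw [h1, u5_group F x hx ζ, u5_one F π hζ hσ x hx1 hx hc, zero_add]
  have h2 : ∑ i ∈ σ, (i.2 + ζ i.1.v) ⬝ᵥ D.B i.1.v (F.frobs π (x i)) =
      ∑ i : D.P, (i.2 + ζ i.1.v) ⬝ᵥ D.B i.1.v (F.frobs π (x i)) := by
    refine Finset.sum_subset (Finset.subset_univ σ) fun i _ hi => ?_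
    rw [hx1 i hi, u5_frobs_empty, fx_B_zero, dotProduct_zero]
  rw [h2]
  simp only [add_dotProduct]
  rw [Finset.sum_add_distrib, u5_aux F π ζ x hx hc, add_zero]

open Classical in
theorem FX_UU (F : Sys) {D : Dt} (w : Wt D) (π : Pr F D) (ζ : D.V → D.Z) (hζ : w.Cmp ζ)
    (σ : Finset D.P) (hσ : σ ⊆ w.UU ζ) (Y : ℝ) :
    F.FX π σ Y =
      ∑ x ∈ Fintype.piFinset (fun i : D.P => if i ∈ σ then (F.bx Y).erase ∅ else {∅}),
        if F.Dj x ∧ F.Cop π x ∧ (∏ i, (F.nm (x i) : ℝ)) ≤ Y ∧ F.Cnd π (F.mP x)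
        then ((sg (∑ i ∈ σ, (i.2 + ζ i.1.v) ⬝ᵥ D.B i.1.v (F.frobs π (x i))) : ℤ) : ℝ)
        else 0 := by
  unfold Sys.FX
  refine Finset.sum_congr rfl fun x hx => ?_
  by_cases hc : F.Dj x ∧ F.Cop π x ∧ (∏ i, (F.nm (x i) : ℝ)) ≤ Y ∧ F.Cnd π (F.mP x)
  · rw [if_pos hc, if_pos hc]
    have hx1 : ∀ i, i ∉ σ → x i = ∅ := by
      intro i hi
      have h1 := Fintype.mem_piFinset.1 hx i
      rwa [if_neg hi, Finset.mem_singleton] at h1
    rw [u5_sgF F π hζ hσ x hx1 hc.1 hc.2.2.2]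
  · rw [if_neg hc, if_neg hc]

end Pool.Agent.H98.MF
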