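import Pool.Agent.H98.MF.SClassSum
import Pool.Agent.H98.ML.GGLower1

/-!
# Project MK4 (MP_a3214d), block SYS, row P9: the local weight on average
-/

set_option autoImplicit false

open scoped BigOperators

namespace Pool.Agent.H98.MF

open Pool.Agent.H98.MK (sg)
open Pool.Agent.H98.ML (Dt Ext Wt)

variable {D : Dt}

namespace Sys

/-- the local weight of a prime -/
noncomputable def ggh (F : Sys) (w : Wt D) (π : Pr F D) (p : F.P) : ℝ :=
  ∑ g ∈ w.Mr, w.ff g.v (F.frob π p)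

end Sys

theorem ggl_nonneg (F : Sys) (w : Wt D) (π : Pr F D) (p : F.P) : 0 ≤ F.ggh w π p :=
  Finset.sum_nonneg fun _ _ => w.ff_nonneg _ _

/-- bound for the local weight -/
theorem ggl_bdd (F : Sys) (w : Wt D) (π : Pr F D) (p : F.P) :
    F.ggh w π p ≤ ∑ g ∈ w.Mr, ∑ κ : D.V, w.ff g.v κ :=
  Finset.sum_le_sum fun g _ => Finset.single_le_sum (f := fun κ => w.ff g.v κ)
    (fun _ _ => w.ff_nonneg _ _) (Finset.mem_univ _)

/-- one vector -/
theorem ggl_one (F : Sys) (w : Wt D) (π : Pr F D) (v : D.V)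
    (hff : ∑ κ : D.V, w.ff v κ = (Fintype.card D.V : ℝ)) : ∃ K : ℝ,
    ∀ s : ℝ, 1 < s → s ≤ 2 →
      Real.log (1 / (s - 1)) - K ≤ ∑' p : F.P, w.ff v (F.frob π p) * (F.N p : ℝ) ^ (-s) := by
  classical
  set z : Finset F.P := Finset.univ.image π.p with hz
  have hzc : z.card = D.r := by
    rw [hz, Finset.card_image_of_injective _ π.inj, Finset.card_univ, Fintype.card_fin]
  -- the classes
  have he : ∀ κ : D.V, ∃ e : F.P → ZMod 2, ∀ k, e (π.p k) = κ k := fun κ =>
    ⟨Function.extend π.p κ 0, fun k => π.inj.extend_apply κ 0 k⟩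
  choose e he using he
  have hK : ∀ κt : D.V × F.T, ∃ K : ℝ, ∀ s : ℝ, 1 < s → s ≤ 2 →
      |∑' p : F.P, (if p ∉ z ∧ F.ty p = κt.2 ∧ ∀ q ∈ z, F.J q p = e κt.1 q
          then (F.N p : ℝ) ^ (-s) else 0) -
        (1 / 2 ^ (z.card + F.m)) * Real.log (1 / (s - 1))| ≤ K :=
    fun κt => class_sum F z (e κt.1) κt.2
  choose K hK using hK
  refine ⟨∑ κt : D.V × F.T, w.ff v κt.1 * K κt, fun s h1 h2 => ?_⟩
  have h3 : ∀ p : F.P, ∑ κt : D.V × F.T, w.ff v κt.1 *
      (if p ∉ z ∧ F.ty p = κt.2 ∧ ∀ q ∈ z, F.J q p = e κt.1 q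
          then (F.N p : ℝ) ^ (-s) else 0) ≤ w.ff v (F.frob π p) * (F.N p : ℝ) ^ (-s) := by
    intro p
    have hn := cls_N_nonneg F p s
    rw [Finset.sum_eq_single (F.frob π p, F.ty p)]
    · refine mul_le_mul_of_nonneg_left ?_ (w.ff_nonneg _ _)
      split_ifs
      · exact le_rfl
      · exact hn
    · intro κt _ hne
      rw [if_neg, mul_zero]
      rintro ⟨-, h4, h5⟩
      refine hne (Prod.ext ?_ h4.symm)
      funext k
      show κt.1 k = F.J (π.p k) p
      rw [h5 (π.p k) (Finset.mem_image_of_mem _ (Finset.mem_univ k)), he]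
    · intro h
      exact absurd (Finset.mem_univ _) h
  have hs1 : ∀ κt : D.V × F.T, Summable fun p : F.P =>
      (if p ∉ z ∧ F.ty p = κt.2 ∧ ∀ q ∈ z, F.J q p = e κt.1 q
          then (F.N p : ℝ) ^ (-s) else 0) := by
    intro κt
    refine Summable.of_nonneg_of_le (fun p => ?_) (fun p => ?_) (summable_N F s h1)
    · split_ifs
      · exact cls_N_nonneg F p s
      · exact le_rfl
    · split_ifs
      · exact le_rfl
      · exact cls_N_nonneg F p s
  have hs2 : Summable fun p : F.P => w.ff v (F.frob π p) * (F.N p : ℝ) ^ (-s) := by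
    refine Summable.of_nonneg_of_le (fun p => mul_nonneg (w.ff_nonneg _ _)
      (cls_N_nonneg F p s)) (fun p => ?_) ((summable_N F s h1).mul_left
        (∑ κ : D.V, w.ff v κ))
    exact mul_le_mul_of_nonneg_right (Finset.single_le_sum (f := fun κ => w.ff v κ)
      (fun _ _ => w.ff_nonneg _ _) (Finset.mem_univ _)) (cls_N_nonneg F p s)
  have h4 : ∑ κt : D.V × F.T, w.ff v κt.1 *
      ∑' p : F.P, (if p ∉ z ∧ F.ty p = κt.2 ∧ ∀ q ∈ z, F.J q p = e κt.1 q
          then (F.N p : ℝ) ^ (-s) else 0) ≤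
      ∑' p : F.P, w.ff v (F.frob π p) * (F.N p : ℝ) ^ (-s) := by
    rw [Finset.sum_congr rfl fun κt _ => tsum_mul_left.symm, ← Summable.tsum_finsetSum]
    · exact Summable.tsum_le_tsum h3 (summable_sum fun κt _ => (hs1 κt).mul_left _) hs2
    · exact fun κt _ => (hs1 κt).mul_left _
  refine le_trans ?_ h4
  have h5 : Real.log (1 / (s - 1)) = ∑ κt : D.V × F.T, w.ff v κt.1 *
      ((1 / 2 ^ (z.card + F.m)) * Real.log (1 / (s - 1))) := by
    have hT : (Fintype.card F.T : ℝ) = 2 ^ F.m := by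
      rw [Fintype.card_fun, ZMod.card, Fintype.card_fin]
      push_cast
      rfl
    have hV : (Fintype.card D.V : ℝ) = 2 ^ D.r := by
      rw [Fintype.card_fun, ZMod.card, Fintype.card_fin]
      push_cast
      rfl
    rw [← Finset.sum_mul, Fintype.sum_prod_type]
    have h6 : ∀ κ : D.V, ∑ t : F.T, w.ff v (κ, t).1 = 2 ^ F.m * w.ff v κ := by
      intro κ
      show ∑ _t : F.T, w.ff v κ = _
      rw [Finset.sum_const, Finset.card_univ, nsmul_eq_mul, hT]
    rw [Finset.sum_congr rfl fun κ _ => h6 κ, ← Finset.mul_sum, hff, hV, hzc, ← mul_assoc,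
      pow_add]
    field_simp
  rw [h5, ← Finset.sum_sub_distrib]
  refine Finset.sum_le_sum fun κt _ => ?_
  rw [← mul_sub]
  refine mul_le_mul_of_nonneg_left ?_ (w.ff_nonneg _ _)
  have h7 := (abs_le.1 (hK κt s h1 h2)).1
  linarith

/-- the mean value of the local weight -/
theorem ggl_mean (F : Sys) (w : Wt D) (π : Pr F D)
    (hff : ∀ v : D.V, ∑ κ : D.V, w.ff v κ = (Fintype.card D.V : ℝ)) : ∃ K : ℝ,
    ∀ s : ℝ, 1 < s → s ≤ 2 →
      w.b * Real.log (1 / (s - 1)) - K ≤ ∑' p : F.P, F.ggh w π p * (F.N p : ℝ) ^ (-s) := by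
  have h := fun g : Ext D => ggl_one F w π g.v (hff g.v)
  choose K hK using h
  refine ⟨∑ g ∈ w.Mr, K g, fun s h1 h2 => ?_⟩
  have hs2 : ∀ g : Ext D, Summable fun p : F.P =>
      w.ff g.v (F.frob π p) * (F.N p : ℝ) ^ (-s) := by
    intro g
    refine Summable.of_nonneg_of_le (fun p => mul_nonneg (w.ff_nonneg _ _)
      (cls_N_nonneg F p s)) (fun p => ?_) ((summable_N F s h1).mul_left
        (∑ κ : D.V, w.ff g.v κ))
    exact mul_le_mul_of_nonneg_right (Finset.single_le_sum (f := fun κ => w.ff g.v κ)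
      (fun _ _ => w.ff_nonneg _ _) (Finset.mem_univ _)) (cls_N_nonneg F p s)
  have h3 : ∑' p : F.P, F.ggh w π p * (F.N p : ℝ) ^ (-s) =
      ∑ g ∈ w.Mr, ∑' p : F.P, w.ff g.v (F.frob π p) * (F.N p : ℝ) ^ (-s) := by
    rw [← Summable.tsum_finsetSum fun g _ => hs2 g]
    refine tsum_congr fun p => ?_
    unfold Sys.ggh
    rw [Finset.sum_mul]
  rw [h3]
  refine le_trans ?_ (Finset.sum_le_sum fun g _ => hK g s h1 h2)
  rw [Finset.sum_sub_distrib, Finset.sum_const, nsmul_eq_mul]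
  have h4 : 0 ≤ Real.log (1 / (s - 1)) := by
    refine Real.log_nonneg ?_
    rw [le_div_iff₀ (by linarith)]
    linarith
  have h5 : (w.b : ℝ) ≤ w.Mr.card := by exact_mod_cast w.gl_b_le
  have := mul_le_mul_of_nonneg_right h5 h4
  linarith

end Pool.Agent.H98.MF
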