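import Pool.Agent.H98.MF.SGGLow1
import Pool.Agent.H98.MF.SExpGen

/-!
# Project MK4 (MP_a3214d), block SYS, row P9: removal of the conditions
-/

set_option autoImplicit false

open scoped BigOperators

namespace Pool.Agent.H98.MF

open Pool.Agent.H98.MK (sg)
open Pool.Agent.H98.ML (Dt Ext Wt)

variable {D : Dt}

/-- a one element type -/
inductive GGU : Type
  | u

instance : Fintype GGU := ⟨{GGU.u}, fun x => by
  cases x
  exact Finset.mem_singleton_self _⟩

open Classical in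
/-- the sum over sets is a sum over tuples -/
theorem ggl_tuples (F : Sys) {κ : Type} [Fintype κ] (M : Finset κ) (f : κ → F.P → ℝ)
    (z : Finset F.P) (Y : ℝ) :
    (∑ x ∈ F.bx Y, if Disjoint x z then ∏ p ∈ x, ∑ g ∈ M, f g p else 0) =
    ∑ y ∈ Fintype.piFinset (fun _ : κ => F.bx Y),
      if (∀ g, g ∉ M → y g = ∅) ∧ F.Dj y ∧ (∀ g, Disjoint (y g) z) ∧
        (∏ g, (F.nm (y g) : ℝ)) ≤ Y
      then ∏ g, ∏ p ∈ y g, f g p else 0 := by
  have h := exp_gen F (fun _ : κ => GGU.u) (fun _ g p => if g ∈ M then f g p else 0)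
    (fun X => if Disjoint (X GGU.u) z ∧ (F.nm (X GGU.u) : ℝ) ≤ Y then (1 : ℝ) else 0) Y
    (fun X hX k => by
      have h1 : Disjoint (X GGU.u) z ∧ (F.nm (X GGU.u) : ℝ) ≤ Y := by
        by_contra h2
        exact hX (if_neg h2)
      cases k
      exact F.mem_bx.2 h1.2)
  refine Eq.trans ?_ (h.symm.trans ?_)
  · symm
    refine Finset.sum_bij (fun X _ => X GGU.u)
      (fun X hX => Fintype.mem_piFinset.1 hX GGU.u)
      (fun X _ X' _ h1 => funext fun k => by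
        cases k
        exact h1)
      (fun x hx => ⟨fun _ => x, Fintype.mem_piFinset.2 fun _ => hx, rfl⟩) ?_
    intro X hX
    have hX1 := F.mem_bx.1 (Fintype.mem_piFinset.1 hX GGU.u)
    have hD : F.Dj X := by
      intro i j hij
      cases i
      cases j
      exact absurd rfl hij
    rw [if_pos hD]
    by_cases hz : Disjoint (X GGU.u) z
    · have hu : (Finset.univ : Finset GGU) = {GGU.u} := rfl
      rw [if_pos ⟨hz, hX1⟩, if_pos hz, mul_one, hu, Finset.prod_singleton]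
      refine Finset.prod_congr rfl fun p _ => ?_
      rw [Finset.filter_true_of_mem fun _ _ => rfl, Finset.sum_ite_mem, Finset.univ_inter]
    · rw [if_neg hz, if_neg fun h1 => hz h1.1, mul_zero]
  refine Finset.sum_congr rfl fun y _ => ?_
  have hU : F.psh (fun _ : κ => GGU.u) y GGU.u = Finset.univ.biUnion y := by
    unfold Sys.psh
    rw [Finset.filter_true_of_mem fun _ _ => rfl]
  by_cases hD : F.Dj y
  · have hn : (F.nm (Finset.univ.biUnion y) : ℝ) = ∏ g, (F.nm (y g) : ℝ) := by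
      rw [F.nm_biUnion Finset.univ y fun i _ j _ hij => hD i j hij]
      push_cast
      rfl
    have hz : Disjoint (Finset.univ.biUnion y) z ↔ ∀ g, Disjoint (y g) z := by
      rw [Finset.disjoint_biUnion_left]
      exact ⟨fun h1 g => h1 g (Finset.mem_univ g), fun h1 g _ => h1 g⟩
    rw [if_pos hD, hU, hn]
    by_cases hM : ∀ g, g ∉ M → y g = ∅
    · have h2 : ∏ g, ∏ p ∈ y g, (if g ∈ M then f g p else 0) = ∏ g, ∏ p ∈ y g, f g p := by
        refine Finset.prod_congr rfl fun g _ => ?_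
        by_cases hg : g ∈ M
        · simp only [if_pos hg]
        · rw [hM g hg]
          rfl
      rw [h2]
      by_cases hc : Disjoint (Finset.univ.biUnion y) z ∧ ∏ g, (F.nm (y g) : ℝ) ≤ Y
      · rw [if_pos hc, mul_one, if_pos ⟨hM, hD, hz.1 hc.1, hc.2⟩]
      · rw [if_neg hc, mul_zero, if_neg fun h3 => hc ⟨hz.2 h3.2.2.1, h3.2.2.2⟩]
    · have h5 : ¬ ((∀ g, g ∉ M → y g = ∅) ∧ F.Dj y ∧ (∀ g, Disjoint (y g) z) ∧
          (∏ g, (F.nm (y g) : ℝ)) ≤ Y) := fun h3 => hM h3.1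
      rw [if_neg h5]
      obtain ⟨g, hg⟩ := not_forall.1 hM
      obtain ⟨hg1, hg2⟩ := Classical.not_imp.1 hg
      obtain ⟨p, hp⟩ := Finset.nonempty_iff_ne_empty.2 hg2
      rw [Finset.prod_eq_zero (Finset.mem_univ g) (Finset.prod_eq_zero hp (if_neg hg1)),
        zero_mul]
  · rw [if_neg hD, if_neg fun h1 => hD h1.2.1]

open Classical in
theorem ggl_tuples2 (F : Sys) {κ : Type} [Fintype κ] [d : DecidableEq κ] (M : Finset κ)
    (f : κ → F.P → ℝ) (z : Finset F.P) (Y : ℝ) :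
    (∑ x ∈ F.bx Y, if Disjoint x z then ∏ p ∈ x, ∑ g ∈ M, f g p else 0) =
    ∑ y ∈ Fintype.piFinset (fun _ : κ => F.bx Y),
      if (∀ g, g ∉ M → y g = ∅) ∧ F.Dj y ∧ (∀ g, Disjoint (y g) z) ∧
        (∏ g, (F.nm (y g) : ℝ)) ≤ Y
      then ∏ g, ∏ p ∈ y g, f g p else 0 := by
  have h : d = fun a b => Classical.propDecidable (a = b) := Subsingleton.elim _ _
  subst h
  exact ggl_tuples F M f z Y

/-! ### the vectors -/

theorem ggl_mem_mV (F : Sys) (y : Ext D → Finset F.P) (v : D.V) (p : F.P) :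
    p ∈ F.mV y v ↔ v ≠ 0 ∧ ∃ g : Ext D, g.v = v ∧ p ∈ y g := by
  classical
  unfold Sys.mV
  split_ifs with h
  · simp [h]
  · rw [Finset.mem_biUnion]
    constructor
    · rintro ⟨g, hg, hp⟩
      exact ⟨h, g, (Finset.mem_filter.1 hg).2, hp⟩
    · rintro ⟨-, g, hg, hp⟩
      exact ⟨g, Finset.mem_filter.2 ⟨Finset.mem_univ _, hg⟩, hp⟩

theorem ggl_mV_union (F : Sys) (y y' : Ext D → Finset F.P) (v : D.V) :
    F.mV (fun g => y g ∪ y' g) v = F.mV y v ∪ F.mV y' v := by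
  ext p
  rw [Finset.mem_union, ggl_mem_mV, ggl_mem_mV, ggl_mem_mV]
  constructor
  · rintro ⟨h, g, hg, hp⟩
    rcases Finset.mem_union.1 hp with hp | hp
    · exact Or.inl ⟨h, g, hg, hp⟩
    · exact Or.inr ⟨h, g, hg, hp⟩
  · rintro (⟨h, g, hg, hp⟩ | ⟨h, g, hg, hp⟩)
    · exact ⟨h, g, hg, Finset.mem_union_left _ hp⟩
    · exact ⟨h, g, hg, Finset.mem_union_right _ hp⟩

theorem ggl_mV_disj (F : Sys) {y y' : Ext D → Finset F.P} (h : ∀ g g', Disjoint (y g) (y' g'))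
    (v : D.V) : Disjoint (F.mV y v) (F.mV y' v) := by
  refine Finset.disjoint_left.2 fun p hp hq => ?_
  obtain ⟨-, g, -, h1⟩ := (ggl_mem_mV F y v p).1 hp
  obtain ⟨-, g', -, h2⟩ := (ggl_mem_mV F y' v p).1 hq
  exact Finset.disjoint_left.1 (h g g') h1 h2

theorem ggl_two {n : ℕ} (v : Fin n → ZMod 2) : v + v = 0 := by
  funext i
  exact CharTwo.add_self_eq_zero (v i)

/-- the data of a tuple -/
noncomputable def ggdat (F : Sys) (π : Pr F D) (y : Ext D → Finset F.P) :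
    (D.V → F.T) × (D.V → D.V) :=
  (fun v => F.tys (F.mV y v), fun v => F.frobs π (F.mV y v))

/-- admissible tuples -/
def GGd (F : Sys) (w : Wt D) (π : Pr F D) (y : Ext D → Finset F.P) : Prop :=
  (∀ g, ¬ (w.IsM g ∧ D.crep g = g) → y g = ∅) ∧ F.Dj y ∧ F.Cop π y

/-- the weight of a tuple -/
noncomputable def ggw (F : Sys) (w : Wt D) (π : Pr F D) (y : Ext D → Finset F.P) : ℝ :=
  ∏ g, ∏ p ∈ y g, w.ff g.v (F.frob π p)

variable (F : Sys) (w : Wt D) (π : Pr F D)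

theorem ggw_nonneg (y : Ext D → Finset F.P) : 0 ≤ ggw F w π y :=
  Finset.prod_nonneg fun _ _ => Finset.prod_nonneg fun _ _ => w.ff_nonneg _ _

theorem ggw_one_le (y : Ext D → Finset F.P) (h : ggw F w π y ≠ 0) : 1 ≤ ggw F w π y := by
  unfold ggw at h ⊢
  rw [Finset.prod_ne_zero_iff] at h
  refine Finset.one_le_prod fun g hg => Finset.one_le_prod fun p hp => ?_
  exact w.ff_one_le _ _ (Finset.prod_ne_zero_iff.1 (h g hg) p hp)

variable {F w π} {y y' : Ext D → Finset F.P}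

theorem GGd.cnd (h' : ∀ g g', Disjoint (y g) (y' g')) (hd : ggdat F π y = ggdat F π y') :
    F.Cnd π (F.mV (fun g => y g ∪ y' g)) := by
  intro v
  have h1 : F.tys (F.mV y v) = F.tys (F.mV y' v) := congrFun (congrArg Prod.fst hd) v
  have h2 : F.frobs π (F.mV y v) = F.frobs π (F.mV y' v) := congrFun (congrArg Prod.snd hd) v
  have h3 := ggl_mV_disj F h' v
  rw [ggl_mV_union]
  constructor
  · rw [F.tys_union h3, h1]
    exact ggl_two _
  · unfold Sys.frobs at h2 ⊢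
    rw [Finset.sum_union h3, h2]
    exact ggl_two _

theorem GGd.mul (h : GGd F w π y) (h' : GGd F w π y') (hc : ∀ g g', Disjoint (y g) (y' g')) :
    GGd F w π (fun g => y g ∪ y' g) := by
  refine ⟨fun g hg => ?_, fun i j hij => ?_, fun i k hk => ?_⟩
  · show y g ∪ y' g = ∅
    rw [h.1 g hg, h'.1 g hg, Finset.union_empty]
  · show Disjoint (y i ∪ y' i) (y j ∪ y' j)
    rw [Finset.disjoint_union_left, Finset.disjoint_union_right, Finset.disjoint_union_right]
    exact ⟨⟨h.2.1 i j hij, hc i j⟩, (hc j i).symm, h'.2.1 i j hij⟩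
  · rcases Finset.mem_union.1 hk with h1 | h1
    · exact h.2.2 i k h1
    · exact h'.2.2 i k h1

theorem ggw_mul (hc : ∀ g g', Disjoint (y g) (y' g')) :
    ggw F w π (fun g => y g ∪ y' g) = ggw F w π y * ggw F w π y' := by
  unfold ggw
  rw [← Finset.prod_mul_distrib]
  exact Finset.prod_congr rfl fun g _ => Finset.prod_union (hc g g)

variable (F w π)

open Classical in
theorem ggl_fib (ρ : (D.V → F.T) × (D.V → D.V)) (y0 : Ext D → Finset F.P) (h0 : GGd F w π y0)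
    (hw0 : ggw F w π y0 ≠ 0) (hd0 : ggdat F π y0 = ρ) (A Y : ℝ) (hY : 0 ≤ Y)
    (hA : (∏ g, (F.nm (y0 g) : ℝ)) ≤ A) :
    (∑ y ∈ Fintype.piFinset (fun _ : Ext D => F.bx Y),
      if ggdat F π y = ρ ∧ GGd F w π y ∧ (∀ g g', Disjoint (y g) (y0 g')) ∧
        (∏ g, (F.nm (y g) : ℝ)) ≤ Y then ggw F w π y else 0) ≤ F.GG w π (A * Y) := by
  unfold Sys.GG
  rw [← Finset.sum_filter]
  have hinj : Set.InjOn (fun (y : Ext D → Finset F.P) (g : Ext D) => y g ∪ y0 g)
      ((Fintype.piFinset (fun _ : Ext D => F.bx Y)).filter (fun y =>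
        ggdat F π y = ρ ∧ GGd F w π y ∧ (∀ g g', Disjoint (y g) (y0 g')) ∧
        (∏ g, (F.nm (y g) : ℝ)) ≤ Y) : Finset (Ext D → Finset F.P)) := by
    intro y hy y' hy' h
    obtain ⟨-, -, -, h1, -⟩ := Finset.mem_filter.1 (Finset.mem_coe.1 hy)
    obtain ⟨-, -, -, h2, -⟩ := Finset.mem_filter.1 (Finset.mem_coe.1 hy')
    funext g
    have h3 : y g ∪ y0 g = y' g ∪ y0 g := congrFun h g
    rw [← Finset.union_sdiff_cancel_right (h1 g g), h3,
      Finset.union_sdiff_cancel_right (h2 g g)]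
  obtain ⟨T, hT⟩ : ∃ T : (Ext D → Finset F.P) → ℝ, T = fun y =>
    if (∀ g, ¬ (w.IsM g ∧ D.crep g = g) → y g = ∅) ∧ F.Dj y ∧ F.Cop π y ∧
      (∏ g, (F.nm (y g) : ℝ)) ≤ A * Y ∧ F.Cnd π (F.mV y)
    then ∏ g, ∏ p ∈ y g, w.ff g.v (F.frob π p) else 0 := ⟨_, rfl⟩
  have hT0 : ∀ y, 0 ≤ T y := by
    intro y
    rw [hT]
    simp only
    split_ifs
    · exact ggw_nonneg F w π y
    · exact le_rfl
  refine le_trans (b := ∑ y ∈ (Fintype.piFinset (fun _ : Ext D => F.bx Y)).filter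
      (fun y => ggdat F π y = ρ ∧ GGd F w π y ∧ (∀ g g', Disjoint (y g) (y0 g')) ∧
        (∏ g, (F.nm (y g) : ℝ)) ≤ Y), T (fun g => y g ∪ y0 g)) ?_ ?_
  · refine Finset.sum_le_sum fun y hy => ?_
    obtain ⟨-, h1, h2, h3, h4⟩ := Finset.mem_filter.1 hy
    have h5 := h2.mul h0 h3
    have h6 : T (fun g => y g ∪ y0 g) = ggw F w π (fun g => y g ∪ y0 g) := by
      rw [hT]
      simp only
      rw [if_pos]
      · rfl
      · refine ⟨h5.1, h5.2.1, h5.2.2, ?_, GGd.cnd h3 (h1.trans hd0.symm)⟩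
        have h7 : ∀ g, (F.nm (y g ∪ y0 g) : ℝ) = (F.nm (y g) : ℝ) * (F.nm (y0 g) : ℝ) := by
          intro g
          rw [F.nm_union (h3 g g)]
          push_cast
          rfl
        rw [Finset.prod_congr rfl fun g _ => h7 g, Finset.prod_mul_distrib, mul_comm A Y]
        exact mul_le_mul h4 hA (Finset.prod_nonneg fun g _ => (F.nm_posr _).le) hY
    rw [h6, ggw_mul h3]
    exact le_mul_of_one_le_right (ggw_nonneg F w π y) (ggw_one_le F w π y0 hw0)
  · rw [← Finset.sum_image (f := T) hinj]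
    have e : (∑ y ∈ Fintype.piFinset (fun _ : Ext D => F.bx (A * Y)),
        if (∀ g, ¬ (w.IsM g ∧ D.crep g = g) → y g = ∅) ∧ F.Dj y ∧ F.Cop π y ∧
          (∏ g, (F.nm (y g) : ℝ)) ≤ A * Y ∧ F.Cnd π (F.mV y)
        then ∏ g, ∏ p ∈ y g, w.ff g.v (F.frob π p) else 0) =
        ∑ y ∈ Fintype.piFinset (fun _ : Ext D => F.bx (A * Y)), T y := by
      rw [hT]
    rw [e]
    refine Finset.sum_le_sum_of_subset_of_nonneg ?_ fun y _ _ => hT0 y
    intro z hz
    obtain ⟨y, hy, rfl⟩ := Finset.mem_image.1 hz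
    obtain ⟨hy1, h1, h2, h3, h4⟩ := Finset.mem_filter.1 hy
    rw [Fintype.mem_piFinset] at hy1 ⊢
    intro g
    rw [F.mem_bx]
    have h5 : ∀ (x : Ext D → Finset F.P), (F.nm (x g) : ℝ) ≤ ∏ g, (F.nm (x g) : ℝ) := by
      intro x
      rw [← Finset.mul_prod_erase Finset.univ _ (Finset.mem_univ g)]
      exact le_mul_of_one_le_right (F.nm_posr _).le
        (Finset.one_le_prod fun i _ => F.one_le_nmr _)
    rw [F.nm_union (h3 g g), Nat.cast_mul, mul_comm A Y]
    exact mul_le_mul ((h5 y).trans h4) ((h5 y0).trans hA) (F.nm_posr _).le hY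

theorem ggl_GG_nonneg (Y : ℝ) : 0 ≤ F.GG w π Y := by
  unfold Sys.GG
  refine Finset.sum_nonneg fun y _ => ?_
  split_ifs
  · exact ggw_nonneg F w π y
  · exact le_rfl

end Pool.Agent.H98.MF
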