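import Pool.Agent.H98.MF.SGWBlock1

/-!
# Project MK4 (MP_a3214d), row A21: the dyadic block of the largest non-free variable, expansion
-/

set_option autoImplicit false

open scoped BigOperators

namespace Pool.Agent.H98.MF

open Pool.Agent.H98.MK (sg)

/-! ### one large non-free variable -/

open Classical in
theorem gb_core (F : Sys) {ι : Type} [Fintype ι] (w : ι → ℝ) (hw : ∀ i, 1 ≤ w i) (L : ι → ι → Prop)
    (hL : ∀ i j, L i j → ¬ L j i) (c : ι → F.T) (hpair : GBPair F w L c) (han : GBAn F w L c)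
    (hchar : GBChar F w L c) (i : ι) (hF : ¬ F.Free w L c i) :
    ∃ C : ℝ, 0 ≤ C ∧ ∀ (α : ι → Finset F.P → ℝ) (M Y : ℝ),
      GBOk F w L c α M Y → (∀ x, α i x ≠ 0 → M < F.nm x) →
      (w i = 1 →
        ∀ x, α i x = if M < F.nm x ∧ (F.nm x : ℝ) ≤ 2 * M then (F.ps (c i) x : ℝ) else 0) →
      |F.GW w L α Y| ≤ C * gbB F w L c M Y := by
  rcases (hw i).lt_or_eq with hi | hi
  · obtain ⟨C, hC, h⟩ := gb_an' F w L c han i hi
    exact ⟨C, hC, fun α M Y ho h1 _ => h α M Y ho h1⟩
  have hi' : w i = 1 := hi.symm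
  -- the exponent `A`
  have hA : ∀ j, ∃ A₀ : ℕ, (L i j ∨ L j i) → ∀ A : ℕ, A₀ ≤ A → ∃ C : ℝ, 0 ≤ C ∧
      ∀ (α : ι → Finset F.P → ℝ) (M Y : ℝ),
      GBOk F w L c α M Y → (∀ x, α i x ≠ 0 → M < F.nm x) →
      (∀ x, α j x ≠ 0 → (1 + Real.log M) ^ A < F.nm x) →
      |F.GW w L α Y| ≤ C * gbB F w L c M Y := by
    intro j
    by_cases hj : L i j ∨ L j i
    · rcases (hw j).lt_or_eq with h1 | h1
      · obtain ⟨A₀, h⟩ := gb_an F w L c han j h1
        refine ⟨A₀, fun _ A hA => ?_⟩
        obtain ⟨C, hC, h⟩ := h A hA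
        exact ⟨C, hC, fun α M Y ho _ h3 => h α M Y ho h3⟩
      · obtain ⟨A₀, h⟩ := gb_pair F w L c hpair i j hj hi' h1.symm
        exact ⟨A₀, fun _ => h⟩
    · exact ⟨0, fun h => absurd h hj⟩
  choose A₀ hA₀ using hA
  set A : ℕ := ∑ j, A₀ j with hAdef
  have hAle : ∀ j, A₀ j ≤ A := fun j =>
    Finset.single_le_sum (f := A₀) (fun l _ => Nat.zero_le _) (Finset.mem_univ j)
  have hC1 : ∀ j, ∃ C : ℝ, 0 ≤ C ∧ ((L i j ∨ L j i) → ∀ (α : ι → Finset F.P → ℝ) (M Y : ℝ),
      GBOk F w L c α M Y → (∀ x, α i x ≠ 0 → M < F.nm x) →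
      (∀ x, α j x ≠ 0 → (1 + Real.log M) ^ A < F.nm x) →
      |F.GW w L α Y| ≤ C * gbB F w L c M Y) := by
    intro j
    by_cases hj : L i j ∨ L j i
    · obtain ⟨C, hC, h⟩ := hA₀ j hj A (hAle j)
      exact ⟨C, hC, fun _ => h⟩
    · exact ⟨0, le_rfl, fun h => absurd h hj⟩
  choose C1 hC10 hC1 using hC1
  obtain ⟨C2, hC20, hC2⟩ := gb_char F w L c hchar i hi' hF A
  set C3 : ℝ := C2 + ∑ j, C1 j with hC3
  have hS0 : 0 ≤ ∑ j, C1 j := Finset.sum_nonneg fun j _ => hC10 j
  have hC30 : 0 ≤ C3 := by linarith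
  have hC1le : ∀ j, C1 j ≤ C3 := fun j => by
    have := Finset.single_le_sum (f := C1) (fun l _ => hC10 l) (Finset.mem_univ j)
    linarith
  refine ⟨Fintype.card (ι → Bool) * C3, by positivity, fun α M Y ho hαi hαi' => ?_⟩
  have hB := gbB_nonneg F w L c ho.M1 ho.Y1
  -- expansion
  set H : ι → Bool → Finset F.P → ℝ := fun l b n =>
    if (L i l ∨ L l i) ∧ (1 + Real.log M) ^ A < (F.nm n : ℝ) then (if b = true then α l n else 0)
    else (if b = true then 0 else α l n) with hFdef
  have hsum : α = fun l n => H l false n + H l true n := by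
    funext l n
    rw [hFdef]
    by_cases h1 : (L i l ∨ L l i) ∧ (1 + Real.log M) ^ A < (F.nm n : ℝ)
    · simp only [if_pos h1]
      norm_num
    · simp only [if_neg h1]
      norm_num
  have hFα : ∀ l b n, H l b n ≠ 0 → H l b n = α l n := by
    intro l b n h
    rw [hFdef] at h ⊢
    simp only at h ⊢
    split_ifs at h ⊢ with h1 h2 h3 <;> first | rfl | exact absurd rfl h
  have hok : ∀ s : ι → Bool, GBOk F w L c (fun l n => H l (s l) n) M Y := by
    intro s
    refine ⟨fun l n => ?_, fun l n h => ?_, ho.M1, ho.Y1, fun l hl n h => ?_⟩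
    · by_cases h : H l (s l) n = 0
      · simp only [h, abs_zero]
        exact zero_le_one
      · simp only [hFα l _ n h]
        exact ho.one l n
    · exact ho.two l n (by rw [← hFα l _ n h]; exact h)
    · exact ho.sup l hl n (by rw [← hFα l _ n h]; exact h)
  have hlarge : ∀ l n, H l true n ≠ 0 → (L i l ∨ L l i) ∧ (1 + Real.log M) ^ A < (F.nm n : ℝ) := by
    intro l n h
    by_contra h1
    apply h
    rw [hFdef]
    simp only [if_neg h1, if_true]
  have hii : ¬ (L i i ∨ L i i) := fun h => h.elim (fun h1 => hL i i h1 h1) fun h1 => hL i i h1 h1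
  have hFi : ∀ n, H i false n = α i n := by
    intro n
    rw [hFdef]
    have h1 : ¬ ((L i i ∨ L i i) ∧ (1 + Real.log M) ^ A < (F.nm n : ℝ)) := fun h => hii h.1
    simp only [if_neg h1]
    norm_num
  have key : ∀ s : ι → Bool, |F.GW w L (fun l n => H l (s l) n) Y| ≤ C3 * gbB F w L c M Y := by
    intro s
    have hz : ∀ l n, s l = true → ¬ (L i l ∨ L l i) → H l (s l) n = 0 := by
      intro l n h1 h2
      by_contra h3
      rw [h1] at h3
      exact h2 (hlarge l n h3).1
    by_cases h1 : ∃ l, s l = true ∧ ¬ (L i l ∨ L l i)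
    · obtain ⟨l, h2, h3⟩ := h1
      rw [gb_zero F w L _ Y l (fun n => hz l n h2 h3), abs_zero]
      positivity
    push Not at h1
    have hsi : s i = false := by
      by_contra h2
      rw [Bool.not_eq_false] at h2
      exact hii (by
        by_contra h3
        exact h3 ((h1 i h2)))
    have hi1 : ∀ n, H i (s i) n = α i n := by
      intro n
      rw [hsi]
      exact hFi n
    by_cases h2 : ∃ j, s j = true
    · obtain ⟨j, hj⟩ := h2
      refine (hC1 j (h1 j hj) (fun l n => H l (s l) n) M Y (hok s)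
        (fun n hn => hαi n (by rw [← hi1 n]; exact hn)) (fun n hn => ?_)).trans
        (mul_le_mul_of_nonneg_right (hC1le j) hB)
      simp only [hj] at hn
      exact (hlarge j n hn).2
    · push Not at h2
      have hs : ∀ l, s l = false := fun l => Bool.eq_false_iff.2 (h2 l)
      refine (hC2 (fun l n => H l (s l) n) M Y (hok s) (fun n => ?_) (fun j hj n hn => ?_)).trans
        (mul_le_mul_of_nonneg_right (by linarith) hB)
      · rw [hi1 n]
        exact hαi' hi' n
      · by_contra h4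
        push Not at h4
        apply hn
        simp only [hs j]
        rw [hFdef]
        simp only [if_pos (And.intro hj h4)]
        norm_num
  calc |F.GW w L α Y| = |∑ s : ι → Bool, F.GW w L (fun l n => H l (s l) n) Y| := by
        rw [← gb_split F w L H Y, ← hsum]
    _ ≤ ∑ s : ι → Bool, |F.GW w L (fun l n => H l (s l) n) Y| := Finset.abs_sum_le_sum_abs _ _
    _ ≤ ∑ _s : ι → Bool, C3 * gbB F w L c M Y := Finset.sum_le_sum fun s _ => key s
    _ = Fintype.card (ι → Bool) * C3 * gbB F w L c M Y := by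
        rw [Finset.sum_const, Finset.card_univ, nsmul_eq_mul]
        ring

/-! ### the block -/

open Classical in
theorem gb_block (F : Sys) {ι : Type} [Fintype ι] (w : ι → ℝ) (hw : ∀ i, 1 ≤ w i) (L : ι → ι → Prop)
    (hL : ∀ i j, L i j → ¬ L j i) (c : ι → F.T) (a : ι → Finset F.P → ℝ) (ha : ∀ l x, |a l x| ≤ 1)
    (ha2 : ∀ l x, a l x ≠ 0 → x.Nonempty)
    (hiso : ∀ i, w i = 1 → ∀ x, a i x = if x.Nonempty then (F.ps (c i) x : ℝ) else 0)
    (hpair : GBPair F w L c) (han : GBAn F w L c) (hchar : GBChar F w L c) :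
    ∃ C : ℝ, ∀ M Y : ℝ, 1 ≤ M → 1 ≤ Y →
      |F.GW w L (fun l n => if ¬ F.Free w L c l ∧ 2 * M < F.nm n then 0 else a l n) Y -
        F.GW w L (fun l n => if ¬ F.Free w L c l ∧ M < F.nm n then 0 else a l n) Y| ≤
      C * Y * (1 + Real.log Y) ^ (Nat.card {l // F.Free w L c l} - 1) *
        (1 + Real.log M) ^ (-2 : ℝ) := by
  have hC1 : ∀ i, ∃ C : ℝ, 0 ≤ C ∧ (¬ F.Free w L c i → ∀ (α : ι → Finset F.P → ℝ) (M Y : ℝ),
      GBOk F w L c α M Y → (∀ x, α i x ≠ 0 → M < F.nm x) →
      (w i = 1 →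
        ∀ x, α i x = if M < F.nm x ∧ (F.nm x : ℝ) ≤ 2 * M then (F.ps (c i) x : ℝ) else 0) →
      |F.GW w L α Y| ≤ C * gbB F w L c M Y) := by
    intro i
    by_cases hF : F.Free w L c i
    · exact ⟨0, le_rfl, fun h => absurd hF h⟩
    · obtain ⟨C, hC, h⟩ := gb_core F w hw L hL c hpair han hchar i hF
      exact ⟨C, hC, fun _ => h⟩
  choose C1 hC10 hC1 using hC1
  set C3 : ℝ := ∑ j, C1 j with hC3
  have hC30 : 0 ≤ C3 := Finset.sum_nonneg fun j _ => hC10 j
  have hC1le : ∀ j, C1 j ≤ C3 := fun j =>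
    Finset.single_le_sum (f := C1) (fun l _ => hC10 l) (Finset.mem_univ j)
  refine ⟨Fintype.card (ι → Bool) * C3, fun M Y hM hY => ?_⟩
  have hB := gbB_nonneg F w L c hM hY
  set H : ι → Bool → Finset F.P → ℝ := fun l b n =>
    if ¬ F.Free w L c l ∧ M < (F.nm n : ℝ) then
      (if b = true then (if (F.nm n : ℝ) ≤ 2 * M then a l n else 0) else 0)
    else (if b = true then 0 else a l n) with hFdef
  have hsum : (fun l n => if ¬ F.Free w L c l ∧ 2 * M < F.nm n then 0 else a l n) =
      fun l n => H l false n + H l true n := by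
    funext l n
    rw [hFdef]
    by_cases h1 : ¬ F.Free w L c l ∧ M < (F.nm n : ℝ)
    · simp only [if_pos h1]
      by_cases h2 : (F.nm n : ℝ) ≤ 2 * M
      · have h3 : ¬ (¬ F.Free w L c l ∧ 2 * M < (F.nm n : ℝ)) := fun h => absurd h2 (not_le.2 h.2)
        simp only [if_neg h3, if_pos h2]
        norm_num
      · have h3 : ¬ F.Free w L c l ∧ 2 * M < (F.nm n : ℝ) := ⟨h1.1, not_le.1 h2⟩
        simp only [if_pos h3, if_neg h2]
        norm_num
    · have h3 : ¬ (¬ F.Free w L c l ∧ 2 * M < (F.nm n : ℝ)) := fun h => h1 ⟨h.1, by linarith [h.2]⟩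
      simp only [if_neg h1, if_neg h3]
      norm_num
  have hlow : (fun l n => if ¬ F.Free w L c l ∧ M < F.nm n then 0 else a l n) =
      fun l n => H l ((fun _ => false : ι → Bool) l) n := by
    funext l n
    rw [hFdef]
    by_cases h1 : ¬ F.Free w L c l ∧ M < (F.nm n : ℝ)
    · simp only [if_pos h1]
      norm_num
    · simp only [if_neg h1]
      norm_num
  have hFa : ∀ l b n, H l b n ≠ 0 → H l b n = a l n := by
    intro l b n h
    rw [hFdef] at h ⊢
    simp only at h ⊢
    split_ifs at h ⊢ <;> first | rfl | exact absurd rfl h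
  have hFsup : ∀ l b n, ¬ F.Free w L c l → H l b n ≠ 0 → (F.nm n : ℝ) ≤ 2 * M := by
    intro l b n hl h
    by_contra h1
    push Not at h1
    apply h
    have h2 : ¬ F.Free w L c l ∧ M < (F.nm n : ℝ) := ⟨hl, by linarith⟩
    rw [hFdef]
    simp only [if_pos h2, if_neg (not_le.2 h1), ite_self]
  have hok : ∀ s : ι → Bool, GBOk F w L c (fun l n => H l (s l) n) M Y := by
    intro s
    refine ⟨fun l n => ?_, fun l n h => ?_, hM, hY, fun l hl n h => hFsup l _ n hl h⟩
    · by_cases h : H l (s l) n = 0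
      · simp only [h, abs_zero]
        exact zero_le_one
      · simp only [hFa l _ n h]
        exact ha l n
    · exact ha2 l n (by rw [← hFa l _ n h]; exact h)
  have key : ∀ s : ι → Bool, s ≠ (fun _ => false) →
      |F.GW w L (fun l n => H l (s l) n) Y| ≤ C3 * gbB F w L c M Y := by
    intro s hs
    obtain ⟨i, hi⟩ : ∃ i, s i = true := by
      by_contra h1
      push Not at h1
      apply hs
      funext i
      exact Bool.eq_false_iff.2 (h1 i)
    by_cases hFi : F.Free w L c i
    · have h0 : ∀ n, H i (s i) n = 0 := by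
        intro n
        have h1 : ¬ (¬ F.Free w L c i ∧ M < (F.nm n : ℝ)) := fun h => h.1 hFi
        rw [hi, hFdef]
        simp only [if_neg h1, if_true]
      rw [gb_zero F w L _ Y i h0, abs_zero]
      positivity
    · refine (hC1 i hFi (fun l n => H l (s l) n) M Y (hok s) (fun n hn => ?_)
        (fun hwi n => ?_)).trans (mul_le_mul_of_nonneg_right (hC1le i) hB)
      · by_contra h1
        apply hn
        have h2 : ¬ (¬ F.Free w L c i ∧ M < (F.nm n : ℝ)) := fun h => h1 h.2
        simp only [hi]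
        rw [hFdef]
        simp only [if_neg h2, if_true]
      · simp only [hi]
        rw [hFdef]
        by_cases h1 : M < (F.nm n : ℝ)
        · have h2 : ¬ F.Free w L c i ∧ M < (F.nm n : ℝ) := ⟨hFi, h1⟩
          simp only [if_pos h2, if_true]
          by_cases h3 : (F.nm n : ℝ) ≤ 2 * M
          · have h4 : M < (F.nm n : ℝ) ∧ (F.nm n : ℝ) ≤ 2 * M := ⟨h1, h3⟩
            have h5 : n.Nonempty := by
              rw [Finset.nonempty_iff_ne_empty]
              rintro rfl
              rw [F.nm_empty, Nat.cast_one] at h1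
              linarith
            rw [if_pos h3, if_pos h4, hiso i hwi n, if_pos h5]
          · have h4 : ¬ (M < (F.nm n : ℝ) ∧ (F.nm n : ℝ) ≤ 2 * M) := fun h => h3 h.2
            rw [if_neg h3, if_neg h4]
        · have h2 : ¬ (¬ F.Free w L c i ∧ M < (F.nm n : ℝ)) := fun h => h1 h.2
          have h4 : ¬ (M < (F.nm n : ℝ) ∧ (F.nm n : ℝ) ≤ 2 * M) := fun h => h1 h.1
          simp only [if_neg h2, if_neg h4, if_true]
  have hmain : F.GW w L (fun l n => if ¬ F.Free w L c l ∧ 2 * M < F.nm n then 0 else a l n) Y -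
      F.GW w L (fun l n => if ¬ F.Free w L c l ∧ M < F.nm n then 0 else a l n) Y =
      ∑ s ∈ Finset.univ.erase (fun _ => false : ι → Bool), F.GW w L (fun l n => H l (s l) n) Y := by
    rw [hsum, hlow, gb_split F w L H Y,
      ← Finset.add_sum_erase Finset.univ _ (Finset.mem_univ (fun _ => false : ι → Bool))]
    ring
  rw [hmain]
  calc |∑ s ∈ Finset.univ.erase (fun _ => false : ι → Bool), F.GW w L (fun l n => H l (s l) n) Y|
      ≤ ∑ s ∈ Finset.univ.erase (fun _ => false : ι → Bool),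
        |F.GW w L (fun l n => H l (s l) n) Y| := Finset.abs_sum_le_sum_abs _ _
    _ ≤ ∑ _s ∈ Finset.univ.erase (fun _ => false : ι → Bool), C3 * gbB F w L c M Y :=
        Finset.sum_le_sum fun s hs => key s (Finset.ne_of_mem_erase hs)
    _ ≤ ∑ _s : ι → Bool, C3 * gbB F w L c M Y :=
        Finset.sum_le_sum_of_subset_of_nonneg (Finset.erase_subset _ _)
          fun _ _ _ => mul_nonneg hC30 hB
    _ = Fintype.card (ι → Bool) * C3 * Y *
        (1 + Real.log Y) ^ (Nat.card {l // F.Free w L c l} - 1) * (1 + Real.log M) ^ (-2 : ℝ) := by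
        rw [Finset.sum_const, Finset.card_univ, nsmul_eq_mul]
        unfold gbB
        ring

end Pool.Agent.H98.MF
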