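import Pool.Agent.H98.MF.SBase

/-!
# Project MK4, row A16: the bound of a single inner sum
-/

set_option autoImplicit false

open scoped BigOperators

namespace Pool.Agent.H98.MF

open Pool.Agent.H98.MK (sg)
open Pool.Agent.H98.ML (Dt Ext Wt)

/-- refined character sums over finite sets of primes, with the constant `C` -/
def b16_CSq (F : Sys) (C : ℝ) : Prop :=
  ∀ (y z : Finset F.P) (c : F.T), (y.Nonempty ∨ c ≠ 0) → ∀ t : ℝ, 1 ≤ t →
    |∑ x ∈ F.bx t, (if Disjoint x (y ∪ z)
      then ((sg (F.JJ x y + c ⬝ᵥ F.tys x) : ℤ) : ℝ) else 0)| ≤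
      C * (F.nm y : ℝ) ^ F.A * F.hs z * t ^ (1 - F.dl)

theorem b16_bx (F : Sys) (f : Finset F.P → ℝ) (t T : ℝ) (h : t ≤ T) :
    ∑ x ∈ F.bx t, f x = ∑ x ∈ F.bx T, if (F.nm x : ℝ) ≤ t then f x else 0 := by
  rw [← Finset.sum_filter]
  refine Finset.sum_congr ?_ fun _ _ => rfl
  ext x
  rw [Finset.mem_filter, F.mem_bx, F.mem_bx]
  exact ⟨fun h1 => ⟨h1.trans h, h1⟩, fun h1 => h1.2⟩

theorem b16_inner (F : Sys) (C : ℝ) (hC0 : 0 ≤ C) (hC : b16_CSq F C) (y z : Finset F.P)
    (hyz : y ⊆ z) (c : F.T) (h : y.Nonempty ∨ c ≠ 0) (K X T : ℝ) (hK : 1 ≤ K) (hX : 0 ≤ X)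
    (hXT : X ≤ T) :
    |∑ n ∈ F.bx T, (if Disjoint n z ∧ K < (F.nm n : ℝ) ∧ (F.nm n : ℝ) ≤ X
      then ((sg (F.JJ n y + c ⬝ᵥ F.tys n) : ℤ) : ℝ) else 0)| ≤
      2 * (C * (F.nm y : ℝ) ^ F.A * F.hs z) * (X * K ^ (-F.dl)) := by
  have hK0 : 0 < K := by linarith
  have hh : 1 ≤ F.hs z := F.one_le_hs z
  have hA : 0 ≤ (F.nm y : ℝ) ^ F.A := Real.rpow_nonneg (Nat.cast_nonneg _) _
  obtain ⟨B, hB⟩ : ∃ B : ℝ, B = C * (F.nm y : ℝ) ^ F.A * F.hs z := ⟨_, rfl⟩
  have hB0 : 0 ≤ B := by
    rw [hB]
    exact mul_nonneg (mul_nonneg hC0 hA) (by linarith)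
  have hKd : 0 ≤ K ^ (-F.dl) := Real.rpow_nonneg hK0.le _
  have hu : y ∪ z = z := Finset.union_eq_right.2 hyz
  rw [← hB]
  rcases le_or_gt X K with hXK | hKX
  · rw [Finset.sum_eq_zero, abs_zero]
    · positivity
    · intro n _
      rw [if_neg]
      rintro ⟨-, h2, h3⟩
      linarith
  · have hX1 : 1 ≤ X := by linarith
    have hX0 : 0 < X := by linarith
    have e : (∑ n ∈ F.bx T, (if Disjoint n z ∧ K < (F.nm n : ℝ) ∧ (F.nm n : ℝ) ≤ X
        then ((sg (F.JJ n y + c ⬝ᵥ F.tys n) : ℤ) : ℝ) else 0)) =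
        (∑ n ∈ F.bx X, (if Disjoint n (y ∪ z)
          then ((sg (F.JJ n y + c ⬝ᵥ F.tys n) : ℤ) : ℝ) else 0)) -
        ∑ n ∈ F.bx K, (if Disjoint n (y ∪ z)
          then ((sg (F.JJ n y + c ⬝ᵥ F.tys n) : ℤ) : ℝ) else 0) := by
      rw [hu, b16_bx F _ X T hXT, b16_bx F _ K T (hKX.le.trans hXT), ← Finset.sum_sub_distrib]
      refine Finset.sum_congr rfl fun n _ => ?_
      by_cases c1 : Disjoint n z
      · rw [if_pos c1]
        by_cases c2 : (F.nm n : ℝ) ≤ K
        · rw [if_neg (fun h => absurd h.2.1 (not_lt.2 c2)), if_pos (c2.trans hKX.le), if_pos c2,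
            sub_self]
        · by_cases c3 : (F.nm n : ℝ) ≤ X
          · rw [if_pos ⟨c1, not_le.1 c2, c3⟩, if_pos c3, if_neg c2, sub_zero]
          · rw [if_neg (fun h => c3 h.2.2), if_neg c3, if_neg c2, sub_zero]
      · rw [if_neg (fun h => c1 h.1), if_neg c1]
        simp
    rw [e]
    have b1 := hC y z c h X hX1
    have b2 := hC y z c h K hK
    rw [← hB] at b1 b2
    have d1 : X ^ (1 - F.dl) ≤ X * K ^ (-F.dl) := by
      rw [sub_eq_add_neg, Real.rpow_add hX0, Real.rpow_one]
      refine mul_le_mul_of_nonneg_left ?_ hX0.le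
      exact Real.rpow_le_rpow_of_nonpos hK0 hKX.le (by linarith [F.dl_pos])
    have d2 : K ^ (1 - F.dl) ≤ X * K ^ (-F.dl) := by
      rw [sub_eq_add_neg, Real.rpow_add hK0, Real.rpow_one]
      exact mul_le_mul_of_nonneg_right hKX.le hKd
    have b3 : B * X ^ (1 - F.dl) ≤ B * (X * K ^ (-F.dl)) := mul_le_mul_of_nonneg_left d1 hB0
    have b4 : B * K ^ (1 - F.dl) ≤ B * (X * K ^ (-F.dl)) := mul_le_mul_of_nonneg_left d2 hB0
    refine (abs_sub _ _).trans ?_
    linarith

theorem b16_hs_biUnion (F : Sys) {ι : Type} (s : Finset ι) (z : ι → Finset F.P) :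
    F.hs (s.biUnion z) ≤ ∏ j ∈ s, F.hs (z j) := by
  classical
  induction s using Finset.induction_on with
  | empty => simp [Pre.hs]
  | insert a s ha ih =>
    rw [Finset.biUnion_insert, Finset.prod_insert ha]
    exact (F.hs_union_le _ _).trans
      (mul_le_mul_of_nonneg_left ih (le_trans zero_le_one (F.one_le_hs _)))

open Classical in
/-- splitting off one coordinate -/
theorem b16_split {α : Type} {ι : Type} [Fintype ι] (i : ι) (e : α) (B : Finset α)
    (f : (ι → α) → ℝ) :
    ∑ x ∈ Fintype.piFinset (fun _ : ι => B), f x =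
      ∑ z ∈ Fintype.piFinset (fun j : ι => if j = i then ({e} : Finset α) else B),
        ∑ n ∈ B, f (Function.update z i n) := by
  rw [← Finset.sum_product']
  refine Finset.sum_nbij' (fun x => (Function.update x i e, x i))
    (fun p => Function.update p.1 i p.2) ?_ ?_ ?_ ?_ ?_
  · intro x hx
    rw [Fintype.mem_piFinset] at hx
    rw [Finset.mem_product, Fintype.mem_piFinset]
    refine ⟨fun j => ?_, hx i⟩
    by_cases hj : j = i
    · subst hj
      simp
    · simp only [hj, if_false]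
      rw [Function.update_of_ne hj]
      exact hx j
  · intro p hp
    rw [Finset.mem_product, Fintype.mem_piFinset] at hp
    rw [Fintype.mem_piFinset]
    intro j
    by_cases hj : j = i
    · subst hj
      rw [Function.update_self]
      exact hp.2
    · have h := hp.1 j
      rw [if_neg hj] at h
      rw [Function.update_of_ne hj]
      exact h
  · intro x _
    simp
  · intro p hp
    rw [Finset.mem_product, Fintype.mem_piFinset] at hp
    have h := hp.1 i
    rw [if_pos rfl, Finset.mem_singleton] at h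
    refine Prod.ext ?_ ?_
    · simp only [Function.update_idem]
      rw [← h, Function.update_eq_self]
    · simp
  · intro x _
    simp

open Classical in
theorem b16_upd {α : Type} {ι : Type} [Fintype ι] {M : Type} [CommMonoid M] (i : ι) (z : ι → α)
    (n : α) (f : ι → α → M) : ∏ j, f j (Function.update z i n j) =
      f i n * ∏ j ∈ Finset.univ.erase i, f j (z j) := by
  rw [← Finset.mul_prod_erase Finset.univ _ (Finset.mem_univ i), Function.update_self]
  refine congrArg (f i n * ·) (Finset.prod_congr rfl fun j hj => ?_)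
  rw [Function.update_of_ne (Finset.ne_of_mem_erase hj)]

open Classical in
theorem b16_jp (F : Sys) {ι : Type} [Fintype ι] (L : ι → ι → Prop)
    (hL : ∀ i j, L i j → ¬ L j i) (i : ι) (z : ι → Finset F.P) (hz : z i = ∅)
    (n : Finset F.P) :
    F.jp L (Function.update z i n) = (∏ k, if L i k then F.jj n (z k) else 1) *
      (∏ j, if L j i then F.jj (z j) n else 1) * F.jp L z := by
  have hG : (∏ k, if L i k then F.jj n (z k) else 1) =
      ∏ j, ∏ k, (if j = i then (if L i k then F.jj n (z k) else 1) else 1) := by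
    symm
    rw [Finset.prod_eq_single i]
    · simp
    · intro b _ hb
      simp [hb]
    · simp
  have hH : (∏ j, if L j i then F.jj (z j) n else 1) =
      ∏ j, ∏ k, (if k = i then (if L j i then F.jj (z j) n else 1) else 1) := by
    refine Finset.prod_congr rfl fun j _ => ?_
    simp
  rw [hG, hH, Sys.jp, Sys.jp, ← Finset.prod_mul_distrib, ← Finset.prod_mul_distrib]
  refine Finset.prod_congr rfl fun j _ => ?_
  rw [← Finset.prod_mul_distrib, ← Finset.prod_mul_distrib]
  refine Finset.prod_congr rfl fun k _ => ?_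
  by_cases hjk : L j k
  · rw [if_pos hjk, if_pos hjk]
    have hne : j ≠ k := fun h => by
      subst h
      exact hL _ _ hjk hjk
    by_cases hj : j = i
    · subst hj
      have hk : k ≠ j := fun h => hne h.symm
      rw [Function.update_self, Function.update_of_ne hk, if_pos rfl, if_pos hjk, if_neg hk, hz,
        F.jj_empty_left, mul_one, mul_one]
    · by_cases hk : k = i
      · subst hk
        rw [Function.update_self, Function.update_of_ne hj, if_neg hj, if_pos rfl, if_pos hjk, hz,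
          F.jj_empty_right, mul_one, one_mul]
      · rw [Function.update_of_ne hj, Function.update_of_ne hk, if_neg hj, if_neg hk]
        simp
  · rw [if_neg hjk, if_neg hjk]
    by_cases hj : j = i
    · subst hj
      by_cases hk : k = j
      · subst hk
        simp [hjk]
      · simp [hjk, hk]
    · by_cases hk : k = i
      · subst hk
        simp [hj, hjk]
      · simp [hj, hk]

open Classical in
/-- the product of all symbols containing `n` -/
theorem b16_sym (F : Sys) {ι : Type} [Fintype ι] (L : ι → ι → Prop)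
    (hL : ∀ i j, L i j → ¬ L j i) (i : ι) (c : F.T) (z : ι → Finset F.P)
    (hz : ∀ j k, j ≠ k → Disjoint (z j) (z k)) (n : Finset F.P)
    (hn : ∀ j, Disjoint n (z j)) :
    F.ps c n * ((∏ k, if L i k then F.jj n (z k) else 1) *
      (∏ j, if L j i then F.jj (z j) n else 1)) =
    sg (F.JJ n ((Finset.univ.filter fun j => L i j ∨ L j i).biUnion z) +
      (c + ∑ j, if L j i then (F.l ⬝ᵥ F.tys (z j)) • F.l else 0) ⬝ᵥ F.tys n) := by
  have e1 : (∏ k, if L i k then F.jj n (z k) else 1) =
      sg (∑ k, if L i k then F.JJ n (z k) else 0) := by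
    rw [sg_sum]
    refine Finset.prod_congr rfl fun k _ => ?_
    split_ifs
    · rfl
    · rfl
  have e2 : (∏ j, if L j i then F.jj (z j) n else 1) =
      sg (∑ j, if L j i then F.JJ (z j) n else 0) := by
    rw [sg_sum]
    refine Finset.prod_congr rfl fun k _ => ?_
    split_ifs
    · rfl
    · rfl
  have e3 : F.JJ n ((Finset.univ.filter fun j => L i j ∨ L j i).biUnion z) =
      ∑ j, ((if L i j then F.JJ n (z j) else 0) + (if L j i then F.JJ n (z j) else 0)) := by
    rw [F.JJ_biUnion_right n _ z (fun j _ k _ h => hz j k h), Finset.sum_filter]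
    refine Finset.sum_congr rfl fun j _ => ?_
    by_cases h1 : L i j
    · have h2 : ¬ L j i := hL _ _ h1
      simp [h1, h2]
    · by_cases h2 : L j i
      · simp [h1, h2]
      · simp [h1, h2]
  have e4 : (∑ j, if L j i then (F.l ⬝ᵥ F.tys (z j)) • F.l else 0) ⬝ᵥ F.tys n =
      ∑ j, if L j i then (F.l ⬝ᵥ F.tys (z j)) * (F.l ⬝ᵥ F.tys n) else 0 := by
    rw [sum_dotProduct]
    refine Finset.sum_congr rfl fun j _ => ?_
    split_ifs
    · rw [smul_dotProduct, smul_eq_mul]
    · rw [zero_dotProduct]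
  rw [e1, e2, e3, add_dotProduct, e4, Sys.ps, ← sg_add, ← sg_add]
  congr 1
  rw [Finset.sum_add_distrib]
  have e5 : ∑ j, (if L j i then F.JJ (z j) n else 0) =
      ∑ j, (if L j i then F.JJ n (z j) else 0) +
      ∑ j, (if L j i then (F.l ⬝ᵥ F.tys (z j)) * (F.l ⬝ᵥ F.tys n) else 0) := by
    rw [← Finset.sum_add_distrib]
    refine Finset.sum_congr rfl fun j _ => ?_
    split_ifs
    · have h := F.JJ_recip (hn j)
      have h2 : F.JJ (z j) n = F.JJ n (z j) + (F.JJ n (z j) + F.JJ (z j) n) := by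
        rw [← add_assoc, CharTwo.add_self_eq_zero, zero_add]
      rw [h2, h]
      ring
    · rw [add_zero]
  rw [e5]
  ring

end Pool.Agent.H98.MF
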