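import Pool.Agent.H98.MF.SGWChar1

/-!
# Project MK4, row A16: the inner sum with all data
-/

set_option autoImplicit false

open scoped BigOperators

namespace Pool.Agent.H98.MF

open Pool.Agent.H98.MK (sg)
open Pool.Agent.H98.ML (Dt Ext Wt)

open Classical in
/-- the bound of a single inner sum, with all data -/
theorem b16_term (F : Sys) (C : ℝ) (hC0 : 0 ≤ C) (hC : b16_CSq F C) {ι : Type} [Fintype ι]
    (w : ι → ℝ) (hw : ∀ i, 1 ≤ w i) (L : ι → ι → Prop)
    (hL : ∀ i j, L i j → ¬ L j i) (R : ι → Prop) (i : ι) (hi : w i = 1) (c : F.T)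
    (hc : c ≠ 0 ∨ ∃ j, L i j ∨ L j i) (a : ι → Finset F.P → ℝ) (P K M Y : ℝ)
    (ha : ∀ l x, |a l x| ≤ 1)
    (hP : 1 ≤ P) (hK : 1 ≤ K) (hKM : K ≤ M) (hY : 1 ≤ Y)
    (haR : ∀ l, ¬ R l → l ≠ i → ∀ x, a l x ≠ 0 → (F.nm x : ℝ) ≤ M)
    (hai : ∀ x, a i x = if K < F.nm x ∧ (F.nm x : ℝ) ≤ 2 * K then (F.ps c x : ℝ) else 0)
    (haj : ∀ j, L i j ∨ L j i → ∀ x, a j x ≠ 0 → x.Nonempty ∧ (F.nm x : ℝ) ≤ P)
    (z : ι → Finset F.P) (hzi : z i = ∅) (D : (x : ι → Finset F.P) →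
      Decidable (F.Dj x ∧ ∏ j, (F.nm (x j) : ℝ) ^ w j ≤ Y)) :
    |∑ n ∈ F.bx Y, @ite ℝ (F.Dj (Function.update z i n) ∧
        ∏ j, (F.nm (Function.update z i n j) : ℝ) ^ w j ≤ Y) (D (Function.update z i n))
        ((∏ j, a j (Function.update z i n j)) * (F.jp L (Function.update z i n) : ℝ)) 0| ≤
      if (∀ j, ¬ R j → (F.nm (z j) : ℝ) ≤ 2 * M) ∧ ∏ j, (F.nm (z j) : ℝ) ^ w j ≤ Y then
      (2 * C * (P ^ (F.A * Fintype.card ι) * K ^ (-F.dl))) *
        ((∏ j, F.hs (z j)) * min (Y / ∏ j, (F.nm (z j) : ℝ) ^ w j) (2 * M)) else 0 := by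
  have hLi : ¬ L i i := fun h => hL _ _ h h
  obtain ⟨W, hWd⟩ : ∃ W : ℝ, W = ∏ j, (F.nm (z j) : ℝ) ^ w j := ⟨_, rfl⟩
  obtain ⟨Ap, hApd⟩ : ∃ Ap : ℝ, Ap = ∏ j ∈ Finset.univ.erase i, a j (z j) := ⟨_, rfl⟩
  obtain ⟨U, hU⟩ : ∃ U : Finset F.P, U = Finset.univ.biUnion z := ⟨_, rfl⟩
  rw [← hWd]
  have hzr : ∀ j, (1 : ℝ) ≤ F.nm (z j) := fun j => F.one_le_nmr _
  have hW1 : 1 ≤ W := by
    rw [hWd]
    exact Finset.one_le_prod fun j _ => Real.one_le_rpow (hzr j) (by linarith [hw j])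
  have hW0 : 0 < W := by linarith
  have eW : ∀ n : Finset F.P,
      ∏ j, (F.nm (Function.update z i n j) : ℝ) ^ w j = F.nm n * W := fun n => by
    have h1 := b16_upd (M := ℝ) i z n (fun j x => (F.nm x : ℝ) ^ w j)
    have h2 : W = (F.nm (z i) : ℝ) ^ w i *
        ∏ j ∈ Finset.univ.erase i, (F.nm (z j) : ℝ) ^ w j := by
      rw [hWd]
      exact (Finset.mul_prod_erase Finset.univ (fun j => (F.nm (z j) : ℝ) ^ w j)
        (Finset.mem_univ i)).symm
    rw [h1, h2, hzi, hi, Real.rpow_one, F.nm_empty, Nat.cast_one, Real.rpow_one, one_mul]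
  have eA : ∀ n : Finset F.P, ∏ j, a j (Function.update z i n j) = a i n * Ap := fun n => by
    rw [hApd]
    exact b16_upd (M := ℝ) i z n (fun j x => a j x)
  have eD : ∀ n : Finset F.P, F.Dj (Function.update z i n) ↔ F.Dj z ∧ Disjoint n U := by
    intro n
    rw [hU, Finset.disjoint_biUnion_right]
    constructor
    · intro h
      refine ⟨fun j k hjk => ?_, fun j _ => ?_⟩
      · by_cases hj : j = i
        · rw [hj, hzi]
          exact Finset.disjoint_empty_left _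
        · by_cases hk : k = i
          · rw [hk, hzi]
            exact Finset.disjoint_empty_right _
          · have h1 := h j k hjk
            rwa [Function.update_of_ne hj, Function.update_of_ne hk] at h1
      · by_cases hj : j = i
        · rw [hj, hzi]
          exact Finset.disjoint_empty_right _
        · have h1 := h i j (Ne.symm hj)
          rwa [Function.update_self, Function.update_of_ne hj] at h1
    · rintro ⟨h1, h2⟩ j k hjk
      by_cases hj : j = i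
      · have hk : k ≠ i := fun h => hjk (hj.trans h.symm)
        rw [hj, Function.update_self, Function.update_of_ne hk]
        exact h2 k (Finset.mem_univ _)
      · by_cases hk : k = i
        · rw [hk, Function.update_self, Function.update_of_ne hj]
          exact (h2 j (Finset.mem_univ _)).symm
        · rw [Function.update_of_ne hj, Function.update_of_ne hk]
          exact h1 j k hjk
  have hAp : |Ap| ≤ 1 := by
    rw [hApd, Finset.abs_prod]
    exact Finset.prod_le_one (fun _ _ => abs_nonneg _) fun j _ => ha _ _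
  have hK0 : 0 < K := by linarith
  have hM0 : 0 < M := by linarith
  have hP0 : 0 < P := by linarith
  have hY0 : 0 < Y := by linarith
  have hKd : 0 ≤ K ^ (-F.dl) := Real.rpow_nonneg hK0.le _
  have hPA : 0 ≤ P ^ (F.A * Fintype.card ι) := Real.rpow_nonneg hP0.le _
  have hmin0 : 0 ≤ min (Y / W) (2 * K) := le_min (by positivity) (by positivity)
  have hmin1 : min (Y / W) (2 * K) ≤ min (Y / W) (2 * M) :=
    min_le_min_left _ (by linarith)
  have hpr0 : 0 ≤ ∏ j, F.hs (z j) := Finset.prod_nonneg fun j _ =>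
    le_trans zero_le_one (F.one_le_hs _)
  have hR : 0 ≤ if (∀ j, ¬ R j → (F.nm (z j) : ℝ) ≤ 2 * M) ∧ W ≤ Y then
      (2 * C * (P ^ (F.A * Fintype.card ι) * K ^ (-F.dl))) *
        ((∏ j, F.hs (z j)) * min (Y / W) (2 * M)) else 0 := by
    split_ifs
    · have := hmin0.trans hmin1
      positivity
    · exact le_rfl
  by_cases h0 : (F.Dj z ∧ Ap ≠ 0) ∧ W ≤ Y
  swap
  · have e0 : (∑ n ∈ F.bx Y, @ite ℝ (F.Dj (Function.update z i n) ∧
        ∏ j, (F.nm (Function.update z i n j) : ℝ) ^ w j ≤ Y) (D (Function.update z i n))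
        ((∏ j, a j (Function.update z i n j)) * (F.jp L (Function.update z i n) : ℝ)) 0) = 0 := by
      refine Finset.sum_eq_zero fun n hn => ?_
      by_cases hA : Ap = 0
      · rw [eA, hA, mul_zero, zero_mul]
        exact ite_self _
      · rw [if_neg]
        rintro ⟨h, h'⟩
        apply h0
        refine ⟨⟨((eD n).1 h).1, hA⟩, ?_⟩
        rw [eW] at h'
        have hn1 : (1 : ℝ) ≤ F.nm n := F.one_le_nmr n
        nlinarith
    rw [e0, abs_zero]
    exact hR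
  obtain ⟨⟨hDj, hAp0⟩, hWY⟩ := h0
  have hane : ∀ j, j ≠ i → a j (z j) ≠ 0 := fun j hj => by
    rw [hApd] at hAp0
    exact Finset.prod_ne_zero_iff.1 hAp0 j (Finset.mem_erase.2 ⟨hj, Finset.mem_univ _⟩)
  have hz2K : ∀ j, ¬ R j → (F.nm (z j) : ℝ) ≤ 2 * M := by
    intro j hj
    by_cases hji : j = i
    · rw [hji, hzi, F.nm_empty, Nat.cast_one]
      linarith
    · exact (haR j hj hji _ (hane j hji)).trans (by linarith)
  rw [if_pos ⟨hz2K, hWY⟩]
  obtain ⟨A, hAd⟩ : ∃ A : Finset ι, A = Finset.univ.filter fun j => L i j ∨ L j i := ⟨_, rfl⟩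
  obtain ⟨c', hc'⟩ : ∃ c' : F.T, c' = c + ∑ j, if L j i then (F.l ⬝ᵥ F.tys (z j)) • F.l else 0 :=
    ⟨_, rfl⟩
  obtain ⟨Q, hQd⟩ : ∃ Q : Finset F.P, Q = A.biUnion z := ⟨_, rfl⟩
  have hAm : ∀ j, j ∈ A ↔ L i j ∨ L j i := fun j => by
    rw [hAd, Finset.mem_filter]
    exact ⟨fun h => h.2, fun h => ⟨Finset.mem_univ _, h⟩⟩
  have hQU : Q ⊆ U := by
    rw [hQd, hU]
    exact Finset.biUnion_subset_biUnion_of_subset_left _ (Finset.subset_univ _)
  have hlink : ∀ j ∈ A, (z j).Nonempty ∧ (F.nm (z j) : ℝ) ≤ P := by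
    intro j hj
    have hj' := (hAm j).1 hj
    refine haj j hj' (z j) (hane j ?_)
    rintro rfl
    rcases hj' with h | h <;> exact hLi h
  have hQc : Q.Nonempty ∨ c' ≠ 0 := by
    by_cases hE : A = ∅
    · right
      have h1 : ∀ j, ¬ L j i := fun j hj => by
        have : j ∈ A := (hAm j).2 (Or.inr hj)
        rw [hE] at this
        exact absurd this (Finset.notMem_empty j)
      rw [hc', Finset.sum_eq_zero fun j _ => if_neg (h1 j), add_zero]
      rcases hc with h | ⟨j, hj⟩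
      · exact h
      · exfalso
        have : j ∈ A := (hAm j).2 hj
        rw [hE] at this
        exact absurd this (Finset.notMem_empty j)
    · left
      obtain ⟨j, hj⟩ := Finset.nonempty_iff_ne_empty.2 hE
      obtain ⟨p, hp⟩ := (hlink j hj).1
      exact ⟨p, by
        rw [hQd, Finset.mem_biUnion]
        exact ⟨j, hj, hp⟩⟩
  have hQP : (F.nm Q : ℝ) ≤ P ^ (Fintype.card ι) := by
    rw [hQd, F.nm_biUnion A z fun j _ k _ h => hDj j k h]
    push_cast
    calc ∏ j ∈ A, (F.nm (z j) : ℝ) ≤ ∏ j ∈ A, P :=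
          Finset.prod_le_prod (fun j _ => by positivity) fun j hj => (hlink j hj).2
      _ = P ^ A.card := by rw [Finset.prod_const]
      _ ≤ P ^ (Fintype.card ι) := pow_le_pow_right₀ hP (Finset.card_le_univ _)
  have hQA : (F.nm Q : ℝ) ^ F.A ≤ P ^ (F.A * Fintype.card ι) := by
    calc (F.nm Q : ℝ) ^ F.A ≤ (P ^ (Fintype.card ι)) ^ F.A :=
          Real.rpow_le_rpow (Nat.cast_nonneg _) hQP F.A_nonneg
      _ = P ^ (F.A * Fintype.card ι) := by
          rw [← Real.rpow_natCast, ← Real.rpow_mul hP0.le, mul_comm]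
  have hXY : min (Y / W) (2 * K) ≤ Y := (min_le_left _ _).trans (div_le_self hY0.le hW1)
  have key := b16_inner F C hC0 hC Q U hQU c' hQc K (min (Y / W) (2 * K)) Y hK hmin0 hXY
  have e1 : (∑ n ∈ F.bx Y, @ite ℝ (F.Dj (Function.update z i n) ∧
        ∏ j, (F.nm (Function.update z i n j) : ℝ) ^ w j ≤ Y) (D (Function.update z i n))
        ((∏ j, a j (Function.update z i n j)) * (F.jp L (Function.update z i n) : ℝ)) 0) =
      (Ap * (F.jp L z : ℝ)) * ∑ n ∈ F.bx Y,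
        (if Disjoint n U ∧ K < (F.nm n : ℝ) ∧ (F.nm n : ℝ) ≤ min (Y / W) (2 * K)
          then ((sg (F.JJ n Q + c' ⬝ᵥ F.tys n) : ℤ) : ℝ) else 0) := by
    rw [Finset.mul_sum]
    refine Finset.sum_congr rfl fun n hn => ?_
    have hiff : (F.nm n : ℝ) ≤ Y / W ↔ F.nm n * W ≤ Y := le_div_iff₀ hW0
    rw [eA, hai]
    by_cases c1 : Disjoint n U ∧ K < (F.nm n : ℝ) ∧ (F.nm n : ℝ) ≤ min (Y / W) (2 * K)
    · have c1' := le_min_iff.1 c1.2.2
      rw [if_pos c1, if_pos (show K < (F.nm n : ℝ) ∧ (F.nm n : ℝ) ≤ 2 * K from ⟨c1.2.1, c1'.2⟩)]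
      rw [if_pos ⟨(eD n).2 ⟨hDj, c1.1⟩, by rw [eW]; exact hiff.1 c1'.1⟩]
      have hn' : ∀ j, Disjoint n (z j) := fun j => by
        have h1 := c1.1
        rw [hU, Finset.disjoint_biUnion_right] at h1
        exact h1 j (Finset.mem_univ _)
      have h := b16_sym F L hL i c z (fun j k hjk => hDj j k hjk) n hn'
      rw [← hAd, ← hc', ← hQd] at h
      rw [b16_jp F L hL i z hzi n, ← h]
      push_cast
      ring
    · rw [if_neg c1, mul_zero]
      by_cases c3 : K < (F.nm n : ℝ) ∧ (F.nm n : ℝ) ≤ 2 * K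
      · rw [if_neg]
        rintro ⟨h, h'⟩
        rw [eW] at h'
        exact c1 ⟨((eD n).1 h).2, c3.1, le_min (hiff.2 h') c3.2⟩
      · rw [if_neg c3, zero_mul, zero_mul]
        exact ite_self _
  rw [e1, abs_mul, abs_mul]
  have hJ : |((F.jp L z : ℤ) : ℝ)| ≤ 1 := (F.abs_jp L z).le
  have hAJ : |Ap| * |((F.jp L z : ℤ) : ℝ)| ≤ 1 := mul_le_one₀ hAp (abs_nonneg _) hJ
  refine (mul_le_of_le_one_left (abs_nonneg _) hAJ).trans (key.trans ?_)
  have htau : F.hs U ≤ ∏ j, F.hs (z j) := by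
    rw [hU]
    exact b16_hs_biUnion F Finset.univ z
  have hU0 : 0 ≤ F.hs U := le_trans zero_le_one (F.one_le_hs _)
  obtain ⟨u, hu⟩ : ∃ u : ℝ, u = ∏ j, F.hs (z j) := ⟨_, rfl⟩
  obtain ⟨v, hv⟩ : ∃ v : ℝ, v = min (Y / W) (2 * K) := ⟨_, rfl⟩
  obtain ⟨v', hv'⟩ : ∃ v' : ℝ, v' = min (Y / W) (2 * M) := ⟨_, rfl⟩
  rw [← hu] at htau hpr0 ⊢
  rw [← hv, ← hv'] at hmin1
  rw [← hv] at hmin0 ⊢
  rw [← hv']
  calc 2 * (C * (F.nm Q : ℝ) ^ F.A * F.hs U) * (v * K ^ (-F.dl))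
      ≤ 2 * (C * P ^ (F.A * Fintype.card ι) * u) * (v' * K ^ (-F.dl)) := by
        have h1 : C * (F.nm Q : ℝ) ^ F.A * F.hs U ≤ C * P ^ (F.A * Fintype.card ι) * u :=
          mul_le_mul (mul_le_mul_of_nonneg_left hQA hC0) htau hU0 (mul_nonneg hC0 hPA)
        have h2 : v * K ^ (-F.dl) ≤ v' * K ^ (-F.dl) := mul_le_mul_of_nonneg_right hmin1 hKd
        have h3 : 0 ≤ C * P ^ (F.A * Fintype.card ι) * u := mul_nonneg (mul_nonneg hC0 hPA) hpr0
        exact mul_le_mul (by linarith) h2 (mul_nonneg hmin0 hKd) (by linarith)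
    _ = 2 * C * (P ^ (F.A * Fintype.card ι) * K ^ (-F.dl)) * (u * v') := by
        ring

end Pool.Agent.H98.MF
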