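import Pool.Agent.H98.MF.SBase
import Pool.Agent.H98.MK.AT1

/-!
# Project MK4 (MP_a3214d), block SYS, row A20: bounded non-free variables
-/

set_option autoImplicit false

open scoped BigOperators
open Filter

namespace Pool.Agent.H98.MF

open Pool.Agent.H98.MK (sg)
open Pool.Agent.H98.MK.AT1aux (prod_split tendsto_rescale)

namespace GWLimAux

section split

variable (F : Sys) {ι : Type} [Fintype ι] (w : ι → ℝ) (L : ι → ι → Prop) (R : ι → Prop)
  (a : ι → Finset F.P → ℝ)

open Classical in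
/-- the weight and the sign of the bounded variables -/
noncomputable def Gz (z : {i // ¬ R i} → Finset F.P) : ℝ :=
  (∏ j : {i // ¬ R i}, a j (z j)) *
    ((∏ i : {i // ¬ R i}, ∏ j : {i // ¬ R i},
      if L i j then F.jj (z i) (z j) else 1 : ℤ) : ℝ)

open Classical in
/-- the size of the bounded variables -/
noncomputable def qz (z : {i // ¬ R i} → Finset F.P) : ℝ :=
  ∏ j : {i // ¬ R i}, (F.nm (z j) : ℝ) ^ w j

open Classical in
/-- the union of the bounded variables -/
noncomputable def un (z : {i // ¬ R i} → Finset F.P) : Finset F.P := Finset.univ.biUnion z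

variable {w L R a}

open Classical in
theorem sign_split (hR : ∀ i, R i → w i = 1 ∧ ∀ j, ¬ L i j ∧ ¬ L j i)
    (haR : ∀ l, R l → ∀ x, a l x = if x = ∅ then 0 else 1) (x : ι → Finset F.P) :
    (∏ i, a i (x i)) * (F.jp L x : ℝ) =
      (∏ i : {i // R i}, if x i = ∅ then (0 : ℝ) else 1) * Gz F L R a fun j => x j := by
  unfold Gz
  rw [← mul_assoc]
  congr 1
  · rw [prod_split R]
    congr 1
    exact Finset.prod_congr rfl fun i _ => haR i i.2 _
  · unfold Sys.jp
    congr 1
    rw [prod_split R]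
    have h1 : (∏ i : {i // R i}, ∏ j, if L i j then F.jj (x i) (x j) else 1) = 1 :=
      Finset.prod_eq_one fun i _ => Finset.prod_eq_one fun j _ => by
        rw [if_neg ((hR i i.2).2 j).1]
    rw [h1, one_mul]
    refine Finset.prod_congr rfl fun i _ => ?_
    rw [prod_split R]
    have h2 : (∏ j : {i // R i}, if L i j then F.jj (x i) (x j) else 1) = 1 :=
      Finset.prod_eq_one fun j _ => by
        rw [if_neg ((hR j j.2).2 i).2]
    rw [h2, one_mul]

open Classical in
theorem weight_split (hR : ∀ i, R i → w i = 1 ∧ ∀ j, ¬ L i j ∧ ¬ L j i) (x : ι → Finset F.P) :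
    ∏ i, (F.nm (x i) : ℝ) ^ w i =
      ((∏ i : {i // R i}, F.nm (x i) : ℕ) : ℝ) * qz F w R fun j => x j := by
  rw [prod_split R]
  unfold qz
  push_cast
  congr 1
  refine Finset.prod_congr rfl fun i _ => ?_
  rw [(hR i i.2).1, Real.rpow_one]

theorem one_le_qz (hw : ∀ i, 1 ≤ w i) (z : {i // ¬ R i} → Finset F.P) :
    1 ≤ qz F w R z := by
  classical
  unfold qz
  have : ∀ j ∈ (Finset.univ : Finset {i // ¬ R i}), (1:ℝ) ≤ (F.nm (z j) : ℝ) ^ w j := by
    intro j _
    exact Real.one_le_rpow (F.one_le_nmr _) (by linarith [hw j])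
  exact Finset.one_le_prod this

open Classical in
theorem Gz_eq_zero {K : ℝ} (hK : ∀ l, ¬ R l → ∀ x, a l x ≠ 0 → (F.nm x : ℝ) ≤ K)
    {z : {i // ¬ R i} → Finset F.P} (hz : ∃ j, K < F.nm (z j)) : Gz F L R a z = 0 := by
  obtain ⟨j, hj⟩ := hz
  have h1 : a j (z j) = 0 := by
    by_contra h
    exact absurd (hK j j.2 _ h) (not_le.2 hj)
  unfold Gz
  rw [Finset.prod_eq_zero (Finset.mem_univ j) h1, zero_mul]

theorem disjoint_un {z : {i // ¬ R i} → Finset F.P} {y : Finset F.P} :
    Disjoint y (un F R z) ↔ ∀ j, Disjoint y (z j) := by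
  classical
  unfold un
  rw [Finset.disjoint_biUnion_right]
  exact ⟨fun h j => h j (Finset.mem_univ j), fun h j _ => h j⟩

theorem dj_split (x : ι → Finset F.P) : F.Dj x ↔
    (∀ i j : {i // R i}, i ≠ j → Disjoint (x i) (x j)) ∧
      (∀ i : {i // R i}, Disjoint (x i) (un F R fun j => x j)) ∧
        F.Dj (fun j : {i // ¬ R i} => x j) := by
  classical
  constructor
  · intro h
    refine ⟨fun i j hij => h i j fun h1 => hij (Subtype.ext h1), fun i => ?_,
      fun i j hij => h i j fun h1 => hij (Subtype.ext h1)⟩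
    rw [disjoint_un]
    intro j
    exact h i j fun h1 => j.2 (h1 ▸ i.2)
  · rintro ⟨h1, h2, h3⟩ i j hij
    by_cases hi : R i
    · by_cases hj : R j
      · exact h1 ⟨i, hi⟩ ⟨j, hj⟩ fun h => hij (congrArg Subtype.val h)
      · exact (disjoint_un F).1 (h2 ⟨i, hi⟩) ⟨j, hj⟩
    · by_cases hj : R j
      · exact ((disjoint_un F).1 (h2 ⟨j, hj⟩) ⟨i, hi⟩).symm
      · exact h3 ⟨i, hi⟩ ⟨j, hj⟩ fun h => hij (congrArg Subtype.val h)

theorem count_eq {k : ℕ} {u : Finset F.P} {q Y : ℝ} (hq : 1 ≤ q) (hY : 1 ≤ Y) :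
    (((Fintype.piFinset fun _ : Fin k => (F.bx Y).erase ∅).filter fun y =>
      (∀ i j, i ≠ j → Disjoint (y i) (y j)) ∧ (∀ i, Disjoint (y i) u) ∧
        ((∏ i, F.nm (y i) : ℕ) : ℝ) * q ≤ Y).card : ℕ) = F.NN k u (Y / q) := by
  classical
  unfold Pre.NN
  congr 1
  ext y
  rw [Finset.mem_filter, Finset.mem_filter, Fintype.mem_piFinset, Fintype.mem_piFinset]
  have hq0 : 0 < q := by linarith
  constructor
  · rintro ⟨h1, h2, h3, h4⟩
    have h5 : ((∏ i, F.nm (y i) : ℕ) : ℝ) ≤ Y / q := by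
      rw [le_div_iff₀ hq0]
      exact h4
    refine ⟨fun i => ?_, h2, h3, h5⟩
    rw [Finset.mem_erase]
    refine ⟨(Finset.mem_erase.1 (h1 i)).1, F.mem_bx.2 (le_trans ?_ h5)⟩
    have h6 : F.nm (y i) ≤ ∏ i, F.nm (y i) :=
      Finset.single_le_prod' (f := fun i => F.nm (y i)) (fun j _ => F.one_le_nm _)
        (Finset.mem_univ i)
    exact_mod_cast h6
  · rintro ⟨h1, h2, h3, h4⟩
    refine ⟨fun i => ?_, h2, h3, ?_⟩
    · have h7 := Finset.mem_erase.1 (h1 i)
      exact Finset.mem_erase.2 ⟨h7.1, F.bx_mono (div_le_self (by linarith) hq) h7.2⟩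
    · rwa [le_div_iff₀ hq0] at h4

open Classical in
/-- the sum as a finite sum over the bounded variables -/
theorem GW_eq {k : ℕ} (e : Fin (k + 1) ≃ {i // R i}) (hw : ∀ i, 1 ≤ w i)
    (hR : ∀ i, R i → w i = 1 ∧ ∀ j, ¬ L i j ∧ ¬ L j i)
    (haR : ∀ l, R l → ∀ x, a l x = if x = ∅ then 0 else 1) {K : ℝ}
    (hK : ∀ l, ¬ R l → ∀ x, a l x ≠ 0 → (F.nm x : ℝ) ≤ K) {Y : ℝ} (hY : 1 ≤ Y) (hYK : K ≤ Y) :
    F.GW w L a Y = ∑ z ∈ Fintype.piFinset (fun _ : {i // ¬ R i} => F.bx K),
      (if F.Dj z then Gz F L R a z else 0) * (F.NN (k + 1) (un F R z) (Y / qz F w R z) : ℝ) := by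
  set E : (ι → Finset F.P) ≃ (Fin (k + 1) → Finset F.P) × ({i // ¬ R i} → Finset F.P) :=
    (Equiv.piEquivPiSubtypeProd R (fun _ => Finset F.P)).trans
      (Equiv.prodCongr (Equiv.arrowCongr e.symm (Equiv.refl (Finset F.P))) (Equiv.refl _)) with hE
  have hE1 : ∀ x a, (E x).1 a = x (e a) := fun x a => rfl
  have hE2 : ∀ x j, (E x).2 j = x j := fun x j => rfl
  have step : F.GW w L a Y = ∑ p ∈ (Fintype.piFinset (fun _ : Fin (k + 1) => F.bx Y)) ×ˢ
      (Fintype.piFinset (fun _ : {i // ¬ R i} => F.bx Y)),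
      if ((∀ i j, i ≠ j → Disjoint (p.1 i) (p.1 j)) ∧ (∀ i, Disjoint (p.1 i) (un F R p.2)) ∧
        F.Dj p.2) ∧ ((∏ a, F.nm (p.1 a) : ℕ) : ℝ) * qz F w R p.2 ≤ Y
      then (∏ b, if p.1 b = ∅ then (0 : ℝ) else 1) * Gz F L R a p.2 else 0 := by
    unfold Sys.GW
    refine Finset.sum_equiv E (fun x => ?_) fun x _ => ?_
    · rw [Finset.mem_product, Fintype.mem_piFinset, Fintype.mem_piFinset, Fintype.mem_piFinset]
      constructor
      · intro hx
        exact ⟨fun a => hx _, fun j => hx _⟩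
      · rintro ⟨h1, h2⟩ i
        by_cases hi : R i
        · have := h1 (e.symm ⟨i, hi⟩)
          rw [hE1, Equiv.apply_symm_apply] at this
          exact this
        · exact h2 ⟨i, hi⟩
    · have e1 : ∏ a, F.nm ((E x).1 a) = ∏ i : {i // R i}, F.nm (x i) := by
        simp only [hE1]
        exact Equiv.prod_comp e fun i : {i // R i} => F.nm (x i)
      have e1' : (∏ b, if (E x).1 b = ∅ then (0 : ℝ) else 1) =
          ∏ i : {i // R i}, if x i = ∅ then (0 : ℝ) else 1 := by
        simp only [hE1]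
        exact Equiv.prod_comp e fun i : {i // R i} => if x i = ∅ then (0 : ℝ) else 1
      have e3 : (E x).2 = fun j : {i // ¬ R i} => x j := rfl
      have e4 : ((∀ i j, i ≠ j → Disjoint ((E x).1 i) ((E x).1 j)) ∧
          (∀ i, Disjoint ((E x).1 i) (un F R (E x).2)) ∧ F.Dj (E x).2) ↔ F.Dj x := by
        rw [dj_split F (R := R) x, e3]
        refine and_congr ?_ (and_congr_left fun _ => ?_)
        · constructor
          · intro h i j hij
            have := h (e.symm i) (e.symm j) (fun h1 => hij (e.symm.injective h1))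
            rwa [hE1, hE1, Equiv.apply_symm_apply, Equiv.apply_symm_apply] at this
          · intro h i j hij
            exact h (e i) (e j) fun h1 => hij (e.injective h1)
        · constructor
          · intro h i
            have := h (e.symm i)
            rwa [hE1, Equiv.apply_symm_apply] at this
          · intro h i
            exact h (e i)
      rw [e1, e1']
      refine if_congr ?_ ?_ rfl
      · rw [e4, e3, weight_split F hR]
      · rw [e3, ← sign_split F hR haR x]
  rw [step, Finset.sum_product_right]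
  have hsub : Fintype.piFinset (fun _ : {i // ¬ R i} => F.bx K) ⊆
      Fintype.piFinset (fun _ : {i // ¬ R i} => F.bx Y) :=
    Fintype.piFinset_subset _ _ fun _ => F.bx_mono hYK
  rw [← Finset.sum_subset hsub]
  · refine Finset.sum_congr rfl fun z hz => ?_
    simp only
    by_cases hzD : F.Dj z
    · rw [if_pos hzD, ← count_eq F (one_le_qz F hw z) hY]
      have hsub2 : Fintype.piFinset (fun _ : Fin (k + 1) => (F.bx Y).erase ∅) ⊆
          Fintype.piFinset (fun _ : Fin (k + 1) => F.bx Y) :=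
        Fintype.piFinset_subset _ _ fun _ => Finset.erase_subset _ _
      rw [← Finset.sum_subset hsub2]
      · rw [← Finset.sum_filter]
        have h2 : (Fintype.piFinset (fun _ : Fin (k + 1) => (F.bx Y).erase ∅)).filter
            (fun y => ((∀ i j, i ≠ j → Disjoint (y i) (y j)) ∧
              (∀ i, Disjoint (y i) (un F R z)) ∧ F.Dj z) ∧
              ((∏ i, F.nm (y i) : ℕ) : ℝ) * qz F w R z ≤ Y) =
            (Fintype.piFinset (fun _ : Fin (k + 1) => (F.bx Y).erase ∅)).filter
            (fun y => (∀ i j, i ≠ j → Disjoint (y i) (y j)) ∧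
              (∀ i, Disjoint (y i) (un F R z)) ∧
              ((∏ i, F.nm (y i) : ℕ) : ℝ) * qz F w R z ≤ Y) := by
          refine Finset.filter_congr fun y _ => ?_
          constructor
          · rintro ⟨⟨h1, h2, _⟩, h3⟩
            exact ⟨h1, h2, h3⟩
          · rintro ⟨h1, h2, h3⟩
            exact ⟨⟨h1, h2, hzD⟩, h3⟩
        rw [h2]
        have h3 : ∀ y ∈ (Fintype.piFinset (fun _ : Fin (k + 1) => (F.bx Y).erase ∅)).filter
            (fun y => (∀ i j, i ≠ j → Disjoint (y i) (y j)) ∧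
              (∀ i, Disjoint (y i) (un F R z)) ∧
              ((∏ i, F.nm (y i) : ℕ) : ℝ) * qz F w R z ≤ Y),
            (∏ b, if y b = ∅ then (0 : ℝ) else 1) * Gz F L R a z = Gz F L R a z := by
          intro y hy
          have h4 := Fintype.mem_piFinset.1 (Finset.mem_filter.1 hy).1
          rw [Finset.prod_eq_one fun b _ => if_neg (Finset.mem_erase.1 (h4 b)).1, one_mul]
        rw [Finset.sum_congr rfl h3, Finset.sum_const, nsmul_eq_mul, mul_comm]
      · intro y hy1 hy2
        have h4 := Fintype.mem_piFinset.1 hy1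
        have h5 : ∃ b, y b = ∅ := by
          by_contra h
          push Not at h
          exact hy2 (Fintype.mem_piFinset.2 fun b => Finset.mem_erase.2 ⟨(h b).ne_empty, h4 b⟩)
        obtain ⟨b, hb⟩ := h5
        have h6 : (∏ b, if y b = ∅ then (0 : ℝ) else 1) = 0 :=
          Finset.prod_eq_zero (Finset.mem_univ b) (if_pos hb)
        rw [h6, zero_mul, ite_self]
    · rw [if_neg hzD, zero_mul]
      refine Finset.sum_eq_zero fun y _ => if_neg ?_
      rintro ⟨⟨_, _, h⟩, _⟩
      exact hzD h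
  · intro z hz1 hz2
    have h5 : ∃ j, K < F.nm (z j) := by
      by_contra h
      push Not at h
      exact hz2 (Fintype.mem_piFinset.2 fun b => F.mem_bx.2 (h b))
    simp only [Gz_eq_zero F hK h5, mul_zero, ite_self, Finset.sum_const_zero]

open Classical in
/-- the limit of a summand -/
theorem exists_lim (hNN : ∀ (k : ℕ) (z : Finset F.P), ∃ C : ℝ,
      Tendsto (fun Y : ℝ => (F.NN (k + 1) z Y : ℝ) / (Y * Real.log Y ^ k)) atTop (nhds C))
    (k : ℕ) (z : {i // ¬ R i} → Finset F.P) (hq : 0 < qz F w R z) (c : ℝ) :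
    ∃ C : ℝ, Tendsto (fun Y : ℝ => c * (F.NN (k + 1) (un F R z) (Y / qz F w R z) : ℝ) /
      (Y * Real.log Y ^ k)) atTop (nhds C) := by
  obtain ⟨C, hlim⟩ := hNN k (un F R z)
  refine ⟨c * (C / qz F w R z), ?_⟩
  have h3 := (tendsto_rescale (N := fun x => (F.NN (k + 1) (un F R z) x : ℝ)) hq hlim).const_mul c
  refine h3.congr fun Y => ?_
  rw [mul_div_assoc]

end split

end GWLimAux

open GWLimAux in
/-- The sums with bounded non-free variables, from the asymptotic formula for `NN`. -/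
theorem GW_lim_of (F : Sys) (hNN : ∀ (k : ℕ) (z : Finset F.P), ∃ C : ℝ,
      Tendsto (fun Y : ℝ => (F.NN (k + 1) z Y : ℝ) / (Y * Real.log Y ^ k)) atTop (nhds C))
    {ι : Type} [Fintype ι] (w : ι → ℝ) (hw : ∀ i, 1 ≤ w i)
    (L : ι → ι → Prop) (R : ι → Prop) (hR : ∀ i, R i → w i = 1 ∧ ∀ j, ¬ L i j ∧ ¬ L j i)
    (a : ι → Finset F.P → ℝ) (K : ℝ)
    (hK : ∀ l, ¬ R l → ∀ x, a l x ≠ 0 → (F.nm x : ℝ) ≤ K)
    (haR : ∀ l, R l → ∀ x, a l x = if x = ∅ then 0 else 1) :
    (∀ k, Nat.card {l // R l} = k + 1 → ∃ C : ℝ,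
      Tendsto (fun Y : ℝ => F.GW w L a Y / (Y * Real.log Y ^ k)) atTop (nhds C)) ∧
    (Nat.card {l // R l} = 0 → Tendsto (fun Y : ℝ => F.GW w L a Y / Y) atTop (nhds 0)) := by
  classical
  constructor
  · intro k hk
    have hcard : Nat.card (Fin (k + 1)) = Nat.card {i // R i} := by
      rw [hk, Nat.card_eq_fintype_card, Fintype.card_fin]
    have e : Fin (k + 1) ≃ {i // R i} := Fintype.equivOfCardEq (by
      rw [← Nat.card_eq_fintype_card, ← Nat.card_eq_fintype_card]; exact hcard)
    set S := Fintype.piFinset (fun _ : {i // ¬ R i} => F.bx K) with hS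
    have hlim : ∀ z : {i // ¬ R i} → Finset F.P, ∃ C : ℝ, Tendsto (fun Y : ℝ =>
        (if F.Dj z then Gz F L R a z else 0) *
        (F.NN (k + 1) (un F R z) (Y / qz F w R z) : ℝ) / (Y * Real.log Y ^ k)) atTop (nhds C) := by
      intro z
      exact exists_lim F hNN k z (by linarith [one_le_qz F hw z]) _
    choose C hC using hlim
    refine ⟨∑ z ∈ S, C z, (tendsto_finsetSum S fun z _ => hC z).congr' ?_⟩
    filter_upwards [eventually_ge_atTop (1:ℝ), eventually_ge_atTop K] with Y hY hYK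
    rw [GW_eq F e hw hR haR hK hY hYK, Finset.sum_div]
  · intro h0
    have hem : IsEmpty {l // R l} := by
      rw [Nat.card_eq_fintype_card] at h0
      exact Fintype.card_eq_zero_iff.1 h0
    have hnR : ∀ l, ¬ R l := fun l hl => hem.false ⟨l, hl⟩
    set S := Fintype.piFinset (fun _ : ι => F.bx K) with hS
    have hb : ∀ Y : ℝ, |F.GW w L a Y| ≤ ∑ x ∈ S, |∏ i, a i (x i)| := by
      intro Y
      unfold Sys.GW
      refine (Finset.abs_sum_le_sum_abs _ _).trans ?_
      have h1 : ∀ x ∈ Fintype.piFinset (fun _ : ι => F.bx Y),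
          |if F.Dj x ∧ ∏ i, (F.nm (x i) : ℝ) ^ w i ≤ Y
            then (∏ i, a i (x i)) * (F.jp L x : ℝ) else 0| ≤
              if x ∈ S then |∏ i, a i (x i)| else 0 := by
        intro x hx
        by_cases hxS : x ∈ S
        · rw [if_pos hxS]
          split_ifs
          · rw [abs_mul, F.abs_jp, mul_one]
          · rw [abs_zero]
            exact abs_nonneg _
        · rw [if_neg hxS]
          have h5 : ∃ j, K < F.nm (x j) := by
            by_contra h
            push Not at h
            exact hxS (Fintype.mem_piFinset.2 fun b => F.mem_bx.2 (h b))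
          obtain ⟨j, hj⟩ := h5
          have h6 : a j (x j) = 0 := by
            by_contra h
            exact absurd (hK j (hnR j) _ h) (not_le.2 hj)
          have h7 : ∏ i, a i (x i) = 0 := Finset.prod_eq_zero (Finset.mem_univ j) h6
          rw [h7, zero_mul, ite_self, abs_zero]
      refine (Finset.sum_le_sum h1).trans ?_
      rw [← Finset.sum_filter]
      exact Finset.sum_le_sum_of_subset_of_nonneg (fun x hx => (Finset.mem_filter.1 hx).2)
        fun x _ _ => abs_nonneg _
    have h2 : Tendsto (fun Y : ℝ => (∑ x ∈ S, |∏ i, a i (x i)|) / Y) atTop (nhds 0) :=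
      tendsto_const_nhds.div_atTop tendsto_id
    refine squeeze_zero_norm' ?_ h2
    filter_upwards [eventually_gt_atTop (0:ℝ)] with Y hY
    rw [Real.norm_eq_abs, abs_div, abs_of_pos hY]
    exact div_le_div_of_nonneg_right (hb Y) hY.le

end Pool.Agent.H98.MF
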