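import Pool.Agent.H98.MF.SBase
import Pool.Agent.H98.MK.GSPair1

/-!
# Project MK4, row A14: a linked pair of large variables, algebra
-/

set_option autoImplicit false

open scoped BigOperators

namespace Pool.Agent.H98.MF

open Pool.Agent.H98.MK (sg gpS gp_split gp_prod_abs gp_mul_abs gp_prod_absR gp_mul_absR)

section generic

variable {ι : Type} [Fintype ι] [DecidableEq ι] {β : Type}

/-- changing two coordinates -/
def p14_U (i j : ι) (z : ι → β) (m n : β) : ι → β :=
  Function.update (Function.update z i m) j n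

omit [Fintype ι] in
theorem p14_U_j (i j : ι) (z : ι → β) (m n : β) : p14_U i j z m n j = n := by
  simp [p14_U]

omit [Fintype ι] in
theorem p14_U_i {i j : ι} (hij : i ≠ j) (z : ι → β) (m n : β) : p14_U i j z m n i = m := by
  simp [p14_U, Function.update_of_ne hij]

omit [Fintype ι] in
theorem p14_U_ne {i j l : ι} (h1 : l ≠ i) (h2 : l ≠ j) (z : ι → β) (m n : β) :
    p14_U i j z m n l = z l := by
  unfold p14_U
  rw [Function.update_of_ne h2, Function.update_of_ne h1]

theorem p14_U_of {i j l : ι} (hl : l ∈ gpS i j) (z : ι → β) (m n : β) :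
    p14_U i j z m n l = z l := by
  unfold gpS at hl
  rw [Finset.mem_sdiff, Finset.mem_insert, Finset.mem_singleton, not_or] at hl
  exact p14_U_ne hl.2.1 hl.2.2 z m n

/-- the decomposition of the sum -/
theorem p14_sum [DecidableEq β] {i j : ι} (hij : i ≠ j) (B : Finset β) (e : β) (he : e ∈ B)
    (f : (ι → β) → ℝ) :
    ∑ x ∈ Fintype.piFinset (fun _ : ι => B), f x =
      ∑ z ∈ (Fintype.piFinset (fun _ : ι => B)).filter (fun z => z i = e ∧ z j = e),
        ∑ m ∈ B, ∑ n ∈ B, f (p14_U i j z m n) := by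
  have e1 : ∀ z : ι → β, ∑ m ∈ B, ∑ n ∈ B, f (p14_U i j z m n) =
      ∑ p ∈ B ×ˢ B, f (p14_U i j z p.1 p.2) := fun z => by
    rw [Finset.sum_product]
  simp only [e1]
  rw [← Finset.sum_product']
  have hmemU : ∀ (z : ι → β) (m n : β), (∀ l, z l ∈ B) → m ∈ B → n ∈ B →
      ∀ l, p14_U i j z m n l ∈ B := by
    intro z m n hz hm hn l
    by_cases h1 : l = j
    · rw [h1, p14_U_j]
      exact hn
    · by_cases h2 : l = i
      · rw [h2, p14_U_i hij]
        exact hm
      · rw [p14_U_ne h2 h1]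
        exact hz l
  refine Finset.sum_nbij' (fun x => (p14_U i j x e e, (x i, x j)))
    (fun y => p14_U i j y.1 y.2.1 y.2.2) ?_ ?_ ?_ ?_ ?_
  · intro x hx
    have hx' := Fintype.mem_piFinset.1 hx
    refine Finset.mem_product.2 ⟨Finset.mem_filter.2 ⟨Fintype.mem_piFinset.2
      (hmemU x e e hx' he he), p14_U_i hij _ _ _, p14_U_j _ _ _ _ _⟩,
      Finset.mem_product.2 ⟨hx' i, hx' j⟩⟩
  · rintro ⟨z, m, n⟩ hy
    obtain ⟨h1, h2⟩ := Finset.mem_product.1 hy
    obtain ⟨h3, -⟩ := Finset.mem_filter.1 h1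
    obtain ⟨h4, h5⟩ := Finset.mem_product.1 h2
    exact Fintype.mem_piFinset.2 (hmemU z m n (Fintype.mem_piFinset.1 h3) h4 h5)
  · intro x hx
    funext l
    show p14_U i j (p14_U i j x e e) (x i) (x j) l = x l
    by_cases h1 : l = j
    · rw [h1, p14_U_j]
    · by_cases h2 : l = i
      · rw [h2, p14_U_i hij]
      · rw [p14_U_ne h2 h1, p14_U_ne h2 h1]
  · rintro ⟨z, m, n⟩ hy
    obtain ⟨h1, h2⟩ := Finset.mem_product.1 hy
    obtain ⟨-, h3, h4⟩ := Finset.mem_filter.1 h1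
    have h3' : z i = e := h3
    have h4' : z j = e := h4
    refine Prod.ext ?_ (Prod.ext (p14_U_i hij _ _ _) (p14_U_j _ _ _ _ _))
    funext l
    show p14_U i j (p14_U i j z m n) e e l = z l
    by_cases h1 : l = j
    · rw [h1, p14_U_j, h4']
    · by_cases h2 : l = i
      · rw [h2, p14_U_i hij, h3']
      · rw [p14_U_ne h2 h1, p14_U_ne h2 h1]
  · intro x hx
    congr 1
    funext l
    show x l = p14_U i j (p14_U i j x e e) (x i) (x j) l
    by_cases h1 : l = j
    · rw [h1, p14_U_j]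
    · by_cases h2 : l = i
      · rw [h2, p14_U_i hij]
      · rw [p14_U_ne h2 h1, p14_U_ne h2 h1]

end generic

open Classical in
/-- one symbol -/
noncomputable def p14_G (F : Sys) {ι : Type} (L : ι → ι → Prop) (p q : ι) (u v : Finset F.P) : ℤ :=
  if L p q then F.jj u v else 1

theorem p14_jp (F : Sys) {ι : Type} [Fintype ι] (L : ι → ι → Prop) (x : ι → Finset F.P) :
    F.jp L x = ∏ p, ∏ q, p14_G F L p q (x p) (x q) := rfl

theorem p14_abs (F : Sys) {ι : Type} (L : ι → ι → Prop) (p q : ι) (u v : Finset F.P) :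
    |p14_G F L p q u v| ≤ 1 := by
  unfold p14_G
  split_ifs
  · exact (abs_sg _).le
  · norm_num

section

variable (F : Sys) {ι : Type} [Fintype ι] [DecidableEq ι]

/-- the factor of the first variable -/
noncomputable def p14_A (L : ι → ι → Prop) (i j : ι) (z : ι → Finset F.P) (m : Finset F.P) : ℤ :=
  (∏ p ∈ gpS i j, p14_G F L p i (z p) m) * ∏ q ∈ gpS i j, p14_G F L i q m (z q)

/-- the factor of the second variable -/
noncomputable def p14_B (L : ι → ι → Prop) (i j : ι) (z : ι → Finset F.P) (n : Finset F.P) : ℤ :=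
  (∏ p ∈ gpS i j, p14_G F L p j (z p) n) * ∏ q ∈ gpS i j, p14_G F L j q n (z q)

/-- the constant factor -/
noncomputable def p14_K (L : ι → ι → Prop) (i j : ι) (z : ι → Finset F.P) : ℤ :=
  ∏ p ∈ gpS i j, ∏ q ∈ gpS i j, p14_G F L p q (z p) (z q)

theorem p14_A_abs (L : ι → ι → Prop) (i j : ι) (z : ι → Finset F.P) (m : Finset F.P) :
    |p14_A F L i j z m| ≤ 1 :=
  gp_mul_abs (gp_prod_abs _ _ fun _ => p14_abs F _ _ _ _ _)
    (gp_prod_abs _ _ fun _ => p14_abs F _ _ _ _ _)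

theorem p14_B_abs (L : ι → ι → Prop) (i j : ι) (z : ι → Finset F.P) (m : Finset F.P) :
    |p14_B F L i j z m| ≤ 1 :=
  gp_mul_abs (gp_prod_abs _ _ fun _ => p14_abs F _ _ _ _ _)
    (gp_prod_abs _ _ fun _ => p14_abs F _ _ _ _ _)

theorem p14_K_abs (L : ι → ι → Prop) (i j : ι) (z : ι → Finset F.P) : |p14_K F L i j z| ≤ 1 :=
  gp_prod_abs _ _ fun _ => gp_prod_abs _ _ fun _ => p14_abs F _ _ _ _ _

theorem p14_jp_upd (L : ι → ι → Prop) {i j : ι} (hij : i ≠ j) (h1 : ¬ L i i) (h2 : ¬ L j j)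
    (h3 : ¬ L j i) (h4 : L i j) (z : ι → Finset F.P) (m n : Finset F.P) :
    F.jp L (p14_U i j z m n) =
      p14_K F L i j z * p14_A F L i j z m * p14_B F L i j z n * F.jj m n := by
  have e1 : ∀ p : ι, ∏ q, p14_G F L p q (p14_U i j z m n p) (p14_U i j z m n q) =
      p14_G F L p i (p14_U i j z m n p) m * p14_G F L p j (p14_U i j z m n p) n *
        ∏ q ∈ gpS i j, p14_G F L p q (p14_U i j z m n p) (z q) := by
    intro p
    rw [gp_split hij, p14_U_i hij, p14_U_j]
    congr 1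
    exact Finset.prod_congr rfl fun q hq => by rw [p14_U_of hq]
  rw [p14_jp]
  simp only [e1]
  rw [gp_split hij, p14_U_i hij, p14_U_j]
  have e2 : ∏ l ∈ gpS i j, (p14_G F L l i (p14_U i j z m n l) m *
        p14_G F L l j (p14_U i j z m n l) n *
        ∏ q ∈ gpS i j, p14_G F L l q (p14_U i j z m n l) (z q)) =
      (∏ p ∈ gpS i j, p14_G F L p i (z p) m) * (∏ p ∈ gpS i j, p14_G F L p j (z p) n) *
        p14_K F L i j z := by
    unfold p14_K
    rw [← Finset.prod_mul_distrib, ← Finset.prod_mul_distrib]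
    exact Finset.prod_congr rfl fun q hq => by rw [p14_U_of hq]
  rw [e2]
  have g1 : p14_G F L i i m m = 1 := if_neg h1
  have g2 : p14_G F L j j n n = 1 := if_neg h2
  have g3 : p14_G F L j i n m = 1 := if_neg h3
  have g4 : p14_G F L i j m n = F.jj m n := if_pos h4
  rw [g1, g2, g3, g4]
  unfold p14_A p14_B
  ring

omit [Fintype ι] in
theorem p14_Dj {i j : ι} (hij : i ≠ j) (z : ι → Finset F.P) (hi : z i = ∅) (hj : z j = ∅)
    (x y : Finset F.P) : F.Dj (p14_U i j z x y) ↔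
      F.Dj z ∧ (∀ l, Disjoint x (z l)) ∧ (∀ l, Disjoint y (z l)) ∧ Disjoint x y := by
  constructor
  · intro h
    refine ⟨?_, ?_, ?_, ?_⟩
    · intro p q hpq
      by_cases hp1 : p = i
      · rw [hp1, hi]
        exact Finset.disjoint_empty_left _
      by_cases hp2 : p = j
      · rw [hp2, hj]
        exact Finset.disjoint_empty_left _
      by_cases hq1 : q = i
      · rw [hq1, hi]
        exact Finset.disjoint_empty_right _
      by_cases hq2 : q = j
      · rw [hq2, hj]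
        exact Finset.disjoint_empty_right _
      have h1 := h p q hpq
      rwa [p14_U_ne hp1 hp2, p14_U_ne hq1 hq2] at h1
    · intro l
      by_cases hq1 : l = i
      · rw [hq1, hi]
        exact Finset.disjoint_empty_right _
      by_cases hq2 : l = j
      · rw [hq2, hj]
        exact Finset.disjoint_empty_right _
      have h1 := h i l (Ne.symm hq1)
      rwa [p14_U_i hij, p14_U_ne hq1 hq2] at h1
    · intro l
      by_cases hq1 : l = i
      · rw [hq1, hi]
        exact Finset.disjoint_empty_right _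
      by_cases hq2 : l = j
      · rw [hq2, hj]
        exact Finset.disjoint_empty_right _
      have h1 := h j l (Ne.symm hq2)
      rwa [p14_U_j, p14_U_ne hq1 hq2] at h1
    · have h1 := h i j hij
      rwa [p14_U_i hij, p14_U_j] at h1
  · rintro ⟨h1, h2, h3, h4⟩ p q hpq
    by_cases hp2 : p = j
    · rw [hp2, p14_U_j]
      by_cases hq1 : q = i
      · rw [hq1, p14_U_i hij]
        exact h4.symm
      · rw [p14_U_ne hq1 (fun h => hpq (hp2.trans h.symm))]
        exact h3 q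
    by_cases hp1 : p = i
    · rw [hp1, p14_U_i hij]
      by_cases hq2 : q = j
      · rw [hq2, p14_U_j]
        exact h4
      · rw [p14_U_ne (fun h => hpq (hp1.trans h.symm)) hq2]
        exact h2 q
    rw [p14_U_ne hp1 hp2]
    by_cases hq2 : q = j
    · rw [hq2, p14_U_j]
      exact (h3 p).symm
    by_cases hq1 : q = i
    · rw [hq1, p14_U_i hij]
      exact (h2 p).symm
    rw [p14_U_ne hq1 hq2]
    exact h1 p q hpq

open Classical in
/-- the indicator of the sets that are disjoint from all sets of `z` -/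
noncomputable def p14_I {ι : Type} (F : Sys) (z : ι → Finset F.P) (x : Finset F.P) : ℝ :=
  if ∀ l, Disjoint x (z l) then 1 else 0

theorem p14_I_abs {ι : Type} (F : Sys) (z : ι → Finset F.P) (x : Finset F.P) :
    |p14_I F z x| ≤ 1 := by
  unfold p14_I
  split_ifs <;> norm_num

theorem p14_W {i j : ι} (hij : i ≠ j) (w : ι → ℝ) (z : ι → Finset F.P) (hzi : z i = ∅)
    (hzj : z j = ∅) : ∏ l, (F.nm (z l) : ℝ) ^ w l = ∏ l ∈ gpS i j, (F.nm (z l) : ℝ) ^ w l := by
  rw [gp_split hij, hzi, hzj, F.nm_empty]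
  simp

open Classical in
theorem p14_term (w : ι → ℝ) (L : ι → ι → Prop) {i j : ι} (hij : i ≠ j) (h1 : ¬ L i i)
    (h2 : ¬ L j j) (h3 : ¬ L j i) (h4 : L i j) (hi : w i = 1) (hj : w j = 1)
    (a : ι → Finset F.P → ℝ) (Y : ℝ) (z : ι → Finset F.P) (hzi : z i = ∅) (hzj : z j = ∅)
    (m n : Finset F.P) :
    (if F.Dj (p14_U i j z m n) ∧ ∏ l, (F.nm (p14_U i j z m n l) : ℝ) ^ w l ≤ Y
      then (∏ l, a l (p14_U i j z m n l)) * (F.jp L (p14_U i j z m n) : ℝ) else 0) =
    if F.Dj z then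
      ((∏ l ∈ gpS i j, a l (z l)) * (p14_K F L i j z : ℝ)) *
      (if Disjoint m n ∧ (F.nm m * F.nm n : ℝ) ≤ Y / ∏ l, (F.nm (z l) : ℝ) ^ w l then
        (a i m * (p14_A F L i j z m : ℝ) * p14_I F z m) *
        (a j n * (p14_B F L i j z n : ℝ) * p14_I F z n) * (F.jj m n : ℝ) else 0)
      else 0 := by
  have hw : 0 < ∏ l ∈ gpS i j, (F.nm (z l) : ℝ) ^ w l :=
    Finset.prod_pos fun l _ => Real.rpow_pos_of_pos (F.nm_posr _) _
  have e2 : ∏ l, (F.nm (p14_U i j z m n l) : ℝ) ^ w l =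
      F.nm m * F.nm n * ∏ l ∈ gpS i j, (F.nm (z l) : ℝ) ^ w l := by
    rw [gp_split hij, p14_U_i hij, p14_U_j, hi, hj, Real.rpow_one, Real.rpow_one]
    congr 1
    exact Finset.prod_congr rfl fun l hl => by rw [p14_U_of hl]
  have e3 : ∏ l, a l (p14_U i j z m n l) = a i m * a j n * ∏ l ∈ gpS i j, a l (z l) := by
    rw [gp_split hij, p14_U_i hij, p14_U_j]
    congr 1
    exact Finset.prod_congr rfl fun l hl => by rw [p14_U_of hl]
  rw [e2, e3, p14_jp_upd F L hij h1 h2 h3 h4, p14_W F hij w z hzi hzj]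
  have hiff : (F.Dj (p14_U i j z m n) ∧
      F.nm m * F.nm n * ∏ l ∈ gpS i j, (F.nm (z l) : ℝ) ^ w l ≤ Y) ↔
      (F.Dj z ∧ (∀ l, Disjoint m (z l)) ∧ (∀ l, Disjoint n (z l)) ∧ Disjoint m n) ∧
      (F.nm m * F.nm n : ℝ) ≤ Y / ∏ l ∈ gpS i j, (F.nm (z l) : ℝ) ^ w l := by
    rw [p14_Dj F hij z hzi hzj, le_div_iff₀ hw]
  unfold p14_I
  by_cases c1 : F.Dj z
  swap
  · rw [if_neg (fun h => c1 (hiff.1 h).1.1), if_neg c1]
  rw [if_pos c1]
  by_cases c2 : Disjoint m n ∧ (F.nm m * F.nm n : ℝ) ≤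
      Y / ∏ l ∈ gpS i j, (F.nm (z l) : ℝ) ^ w l
  swap
  · rw [if_neg (fun h => c2 ⟨(hiff.1 h).1.2.2.2, (hiff.1 h).2⟩), if_neg c2, mul_zero]
  rw [if_pos c2]
  by_cases c3 : ∀ l, Disjoint m (z l)
  swap
  · rw [if_neg (fun h => c3 (hiff.1 h).1.2.1), if_neg c3]
    ring
  by_cases c4 : ∀ l, Disjoint n (z l)
  swap
  · rw [if_neg (fun h => c4 (hiff.1 h).1.2.2.1), if_neg c4]
    ring
  rw [if_pos c3, if_pos c4, if_pos (hiff.2 ⟨⟨c1, c3, c4, c2.1⟩, c2.2⟩)]
  push_cast
  ring

end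

end Pool.Agent.H98.MF
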