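import Pool.Agent.H98.MF.SGWPair1

/-!
# Project MK4, row A14: a linked pair of large variables, the inner sums
-/

set_option autoImplicit false

open scoped BigOperators

namespace Pool.Agent.H98.MF

open Pool.Agent.H98.MK (sg gpS gp_split gp_prod_abs gp_mul_abs gp_prod_absR gp_mul_absR)

/-- the bilinear estimate -/
def p14_Bil (F : Sys) (C : ℝ) (E : ℕ) : Prop := ∀ (P X : ℝ) (a b : Finset F.P → ℝ), 1 ≤ P →
    1 ≤ X → (∀ x, |a x| ≤ 1) → (∀ y, |b y| ≤ 1) → (∀ x, a x ≠ 0 → P < F.nm x) →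
    (∀ y, b y ≠ 0 → P < F.nm y) →
    |∑ x ∈ F.bx X, ∑ y ∈ F.bx X, (if Disjoint x y ∧ (F.nm x * F.nm y : ℝ) ≤ X
      then a x * b y * (F.jj x y : ℝ) else 0)| ≤
      C * X * P ^ (-F.c0) * (1 + Real.log X) ^ E

/-- the bilinear sum with both variables at most `M` -/
theorem p14_bil (F : Sys) {C : ℝ} {E : ℕ} (hC : 0 ≤ C) (hb : p14_Bil F C E) (P M Y W : ℝ)
    (hP : 1 ≤ P) (hM : 1 ≤ M) (hY : 1 ≤ Y) (hW : 1 ≤ W) (hWY : W ≤ Y)
    (A B : Finset F.P → ℝ) (hAabs : ∀ m, |A m| ≤ 1) (hBabs : ∀ m, |B m| ≤ 1)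
    (hAne : ∀ n, A n ≠ 0 → P < F.nm n) (hBne : ∀ n, B n ≠ 0 → P < F.nm n)
    (hAM : ∀ n, A n ≠ 0 → (F.nm n : ℝ) ≤ M) (hBM : ∀ n, B n ≠ 0 → (F.nm n : ℝ) ≤ M) :
    |∑ m ∈ F.bx Y, ∑ n ∈ F.bx Y,
      (if Disjoint m n ∧ (F.nm m * F.nm n : ℝ) ≤ Y / W
        then A m * B n * (F.jj m n : ℝ) else 0)| ≤
      2 ^ E * C * P ^ (-F.c0) * (1 + Real.log M) ^ E * min (Y / W) (M ^ 2) := by
  have hWpos : 0 < W := by linarith
  have hYW : 1 ≤ Y / W := by rwa [le_div_iff₀ hWpos, one_mul]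
  have hYWY : Y / W ≤ Y := div_le_self (by linarith) hW
  have hM2 : (1 : ℝ) ≤ M ^ 2 := one_le_pow₀ hM
  set x : ℝ := min (Y / W) (M ^ 2) with hx
  have hx1 : 1 ≤ x := le_min hYW hM2
  have hxY : x ≤ Y := (min_le_left _ _).trans hYWY
  set f : Finset F.P → Finset F.P → ℝ := fun m n =>
    if Disjoint m n ∧ (F.nm m * F.nm n : ℝ) ≤ x then A m * B n * (F.jj m n : ℝ) else 0 with hf
  have hterm : ∀ m n : Finset F.P, (if Disjoint m n ∧ (F.nm m * F.nm n : ℝ) ≤ Y / W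
      then A m * B n * (F.jj m n : ℝ) else 0) = f m n := by
    intro m n
    rw [hf]
    show _ = (if Disjoint m n ∧ (F.nm m * F.nm n : ℝ) ≤ x
      then A m * B n * (F.jj m n : ℝ) else 0)
    by_cases hA0 : A m = 0
    · rw [hA0]
      simp
    by_cases hB0 : B n = 0
    · rw [hB0]
      simp
    have h1 := hAM m hA0
    have h2 := hBM n hB0
    have h3 : (F.nm m * F.nm n : ℝ) ≤ M ^ 2 := by
      have h4 : (0 : ℝ) ≤ F.nm m := Nat.cast_nonneg _
      have h5 : (0 : ℝ) ≤ F.nm n := Nat.cast_nonneg _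
      nlinarith
    by_cases h6 : Disjoint m n ∧ (F.nm m * F.nm n : ℝ) ≤ Y / W
    · rw [if_pos h6, if_pos ⟨h6.1, le_min h6.2 h3⟩]
    · rw [if_neg h6, if_neg (fun h => h6 ⟨h.1, h.2.trans (min_le_left _ _)⟩)]
  simp only [hterm]
  have hvan : ∀ m n : Finset F.P, (x < F.nm m ∨ x < F.nm n) → f m n = 0 := by
    intro m n h
    have hm' : (1 : ℝ) ≤ F.nm m := F.one_le_nmr m
    have hn' : (1 : ℝ) ≤ F.nm n := F.one_le_nmr n
    refine if_neg fun h9 => absurd h9.2 (not_le.2 ?_)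
    rcases h with h | h
    · nlinarith
    · nlinarith
  have hsub : F.bx x ⊆ F.bx Y := F.bx_mono hxY
  have hnot : ∀ m : Finset F.P, m ∉ F.bx x → x < F.nm m := by
    intro m hm'
    by_contra hcon
    exact hm' (F.mem_bx.2 (not_lt.1 hcon))
  have e1 : ∑ m ∈ F.bx Y, ∑ n ∈ F.bx Y, f m n = ∑ m ∈ F.bx x, ∑ n ∈ F.bx x, f m n := by
    rw [← Finset.sum_subset hsub]
    · refine Finset.sum_congr rfl fun m hm => ?_
      rw [← Finset.sum_subset hsub]
      intro n hn hn'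
      exact hvan m n (Or.inr (hnot n hn'))
    · intro m hm hm'
      refine Finset.sum_eq_zero fun n hn => ?_
      exact hvan m n (Or.inl (hnot m hm'))
  rw [e1]
  refine (hb P x A B hP hx1 hAabs hBabs hAne hBne).trans ?_
  have hlogM : 0 ≤ Real.log M := Real.log_nonneg hM
  have hlog1 : 0 ≤ Real.log x := Real.log_nonneg hx1
  have hlog2 : Real.log x ≤ 2 * Real.log M := by
    have h7 : Real.log x ≤ Real.log (M ^ 2) := Real.log_le_log (by linarith) (min_le_right _ _)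
    rwa [Real.log_pow] at h7
  have h8 : (1 + Real.log x) ^ E ≤ (2 * (1 + Real.log M)) ^ E :=
    pow_le_pow_left₀ (by linarith) (by linarith) E
  have hPp : 0 < P ^ (-F.c0) := Real.rpow_pos_of_pos (by linarith) _
  calc C * x * P ^ (-F.c0) * (1 + Real.log x) ^ E
      ≤ C * x * P ^ (-F.c0) * (2 * (1 + Real.log M)) ^ E := by
        refine mul_le_mul_of_nonneg_left h8 ?_
        positivity
    _ = 2 ^ E * C * P ^ (-F.c0) * (1 + Real.log M) ^ E * x := by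
        rw [mul_pow]
        ring

section

variable (F : Sys) {ι : Type} [Fintype ι] [DecidableEq ι]

open Classical in
theorem p14_inner (w : ι → ℝ) (hw : ∀ l, 1 ≤ w l) (L : ι → ι → Prop) (R : ι → Prop) {i j : ι}
    (hij : i ≠ j) (h1 : ¬ L i i) (h2 : ¬ L j j) (h3 : ¬ L j i) (h4 : L i j) (hi : w i = 1)
    (hj : w j = 1) (hRi : ¬ R i) (hRj : ¬ R j) {C : ℝ} {E : ℕ} (hC : 0 ≤ C)
    (hb : p14_Bil F C E) (a : ι → Finset F.P → ℝ) (P M Y : ℝ) (ha : ∀ l n, |a l n| ≤ 1)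
    (hP : 1 ≤ P) (hM : 1 ≤ M) (hY : 1 ≤ Y)
    (haM : ∀ l, ¬ R l → ∀ n, a l n ≠ 0 → (F.nm n : ℝ) ≤ M)
    (hPi : ∀ n, a i n ≠ 0 → P < F.nm n) (hPj : ∀ n, a j n ≠ 0 → P < F.nm n)
    (z : ι → Finset F.P) (hzi : z i = ∅) (hzj : z j = ∅) :
    |∑ m ∈ F.bx Y, ∑ n ∈ F.bx Y,
      (if F.Dj (p14_U i j z m n) ∧ ∏ l, (F.nm (p14_U i j z m n l) : ℝ) ^ w l ≤ Y
        then (∏ l, a l (p14_U i j z m n l)) * (F.jp L (p14_U i j z m n) : ℝ) else 0)| ≤
      2 ^ E * C * P ^ (-F.c0) * (1 + Real.log M) ^ E *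
        (if (∀ l, ¬ R l → (F.nm (z l) : ℝ) ≤ M) ∧ ∏ l, (F.nm (z l) : ℝ) ^ w l ≤ Y then
          min (Y / ∏ l, (F.nm (z l) : ℝ) ^ w l) (M ^ 2) else 0) := by
  have hlogM : 0 ≤ Real.log M := Real.log_nonneg hM
  have hPp : 0 < P ^ (-F.c0) := Real.rpow_pos_of_pos (by linarith) _
  have hz1 : ∀ l, (1 : ℝ) ≤ F.nm (z l) := fun l => F.one_le_nmr _
  have hw1 : (1 : ℝ) ≤ ∏ l, (F.nm (z l) : ℝ) ^ w l := by
    calc (1 : ℝ) = ∏ l : ι, (1 : ℝ) := by rw [Finset.prod_const_one]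
      _ ≤ ∏ l, (F.nm (z l) : ℝ) ^ w l :=
        Finset.prod_le_prod (fun _ _ => zero_le_one) fun l _ =>
          Real.one_le_rpow (hz1 l) (by linarith [hw l])
  have hmin0 : 0 ≤ (if (∀ l, ¬ R l → (F.nm (z l) : ℝ) ≤ M) ∧
        ∏ l, (F.nm (z l) : ℝ) ^ w l ≤ Y then
          min (Y / ∏ l, (F.nm (z l) : ℝ) ^ w l) (M ^ 2) else 0) := by
    split_ifs
    · exact le_min (by positivity) (by positivity)
    · exact le_rfl
  have hrhs : 0 ≤ 2 ^ E * C * P ^ (-F.c0) * (1 + Real.log M) ^ E *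
        (if (∀ l, ¬ R l → (F.nm (z l) : ℝ) ≤ M) ∧ ∏ l, (F.nm (z l) : ℝ) ^ w l ≤ Y then
          min (Y / ∏ l, (F.nm (z l) : ℝ) ^ w l) (M ^ 2) else 0) := by
    have : 0 ≤ 2 ^ E * C * P ^ (-F.c0) * (1 + Real.log M) ^ E := by positivity
    exact mul_nonneg this hmin0
  -- the sum in the factored form
  by_cases c1 : F.Dj z
  swap
  · rw [Finset.sum_eq_zero]
    · rw [abs_zero]
      exact hrhs
    · intro m _
      refine Finset.sum_eq_zero fun n _ => ?_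
      rw [p14_term F w L hij h1 h2 h3 h4 hi hj a Y z hzi hzj m n, if_neg c1]
  set K : ℝ := (∏ l ∈ gpS i j, a l (z l)) * (p14_K F L i j z : ℝ) with hK
  set A : Finset F.P → ℝ := fun m => a i m * (p14_A F L i j z m : ℝ) * p14_I F z m with hA
  set B : Finset F.P → ℝ := fun n => a j n * (p14_B F L i j z n : ℝ) * p14_I F z n with hB
  set W : ℝ := ∏ l, (F.nm (z l) : ℝ) ^ w l with hWdef
  have hsum : ∑ m ∈ F.bx Y, ∑ n ∈ F.bx Y,
      (if F.Dj (p14_U i j z m n) ∧ ∏ l, (F.nm (p14_U i j z m n l) : ℝ) ^ w l ≤ Y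
        then (∏ l, a l (p14_U i j z m n l)) * (F.jp L (p14_U i j z m n) : ℝ) else 0) =
      K * ∑ m ∈ F.bx Y, ∑ n ∈ F.bx Y,
        (if Disjoint m n ∧ (F.nm m * F.nm n : ℝ) ≤ Y / W
          then A m * B n * (F.jj m n : ℝ) else 0) := by
    rw [Finset.mul_sum]
    refine Finset.sum_congr rfl fun m _ => ?_
    rw [Finset.mul_sum]
    refine Finset.sum_congr rfl fun n hn => ?_
    rw [p14_term F w L hij h1 h2 h3 h4 hi hj a Y z hzi hzj m n, if_pos c1]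
  rw [hsum, abs_mul]
  by_cases c0 : ∀ l, ¬ R l → (F.nm (z l) : ℝ) ≤ M
  swap
  · push Not at c0
    obtain ⟨l, hl1, hl2⟩ := c0
    have hlS : l ∈ gpS i j := by
      unfold gpS
      rw [Finset.mem_sdiff, Finset.mem_insert, Finset.mem_singleton, not_or]
      refine ⟨Finset.mem_univ _, ?_, ?_⟩
      · rintro rfl
        rw [hzi, F.nm_empty] at hl2
        push_cast at hl2
        linarith
      · rintro rfl
        rw [hzj, F.nm_empty] at hl2
        push_cast at hl2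
        linarith
    have h5 : a l (z l) = 0 := by
      by_contra h6
      linarith [haM l hl1 (z l) h6]
    have h6 : K = 0 := by
      rw [hK, Finset.prod_eq_zero hlS h5, zero_mul]
    rw [h6, abs_zero, zero_mul]
    exact hrhs
  by_cases c2 : W ≤ Y
  swap
  · rw [Finset.sum_eq_zero, abs_zero, mul_zero]
    · exact hrhs
    · intro m hm
      refine Finset.sum_eq_zero fun n hn => ?_
      have h5 : (1 : ℝ) ≤ F.nm m := F.one_le_nmr m
      have h6 : (1 : ℝ) ≤ F.nm n := F.one_le_nmr n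
      refine if_neg fun h9 => absurd h9.2 (not_le.2 ?_)
      have h7 : Y / W < 1 := by
        rw [div_lt_one (by linarith)]
        exact not_le.1 c2
      nlinarith
  rw [if_pos ⟨c0, c2⟩]
  have hKabs : |K| ≤ 1 := by
    refine gp_mul_absR (gp_prod_absR _ _ fun l => ha l _) ?_
    rw [← Int.cast_abs]
    exact_mod_cast p14_K_abs F L i j z
  have hAabs : ∀ m, |A m| ≤ 1 := fun m => by
    refine gp_mul_absR (gp_mul_absR (ha i m) ?_) (p14_I_abs _ _ _)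
    rw [← Int.cast_abs]
    exact_mod_cast p14_A_abs F L i j z m
  have hBabs : ∀ m, |B m| ≤ 1 := fun m => by
    refine gp_mul_absR (gp_mul_absR (ha j m) ?_) (p14_I_abs _ _ _)
    rw [← Int.cast_abs]
    exact_mod_cast p14_B_abs F L i j z m
  have hA0 : ∀ n, A n ≠ 0 → a i n ≠ 0 := fun n hn =>
    left_ne_zero_of_mul (left_ne_zero_of_mul hn)
  have hB0 : ∀ n, B n ≠ 0 → a j n ≠ 0 := fun n hn =>
    left_ne_zero_of_mul (left_ne_zero_of_mul hn)
  have hmain := p14_bil F hC hb P M Y W hP hM hY hw1 c2 A B hAabs hBabs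
    (fun n hn => hPi n (hA0 n hn)) (fun n hn => hPj n (hB0 n hn))
    (fun n hn => haM i hRi n (hA0 n hn)) (fun n hn => haM j hRj n (hB0 n hn))
  calc |K| * |∑ m ∈ F.bx Y, ∑ n ∈ F.bx Y,
        (if Disjoint m n ∧ (F.nm m * F.nm n : ℝ) ≤ Y / W
          then A m * B n * (F.jj m n : ℝ) else 0)|
      ≤ 1 * (2 ^ E * C * P ^ (-F.c0) * (1 + Real.log M) ^ E * min (Y / W) (M ^ 2)) :=
        mul_le_mul hKabs hmain (abs_nonneg _) zero_le_one
    _ = _ := one_mul _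

end

end Pool.Agent.H98.MF
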