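import Pool.Agent.H98.MF.SGWPair1

/-!
# Project MK4, row A14: the sum over the other variables
-/

set_option autoImplicit false

open scoped BigOperators

namespace Pool.Agent.H98.MF

open Pool.Agent.H98.MK (sg)

/-- the sum over the free variables -/
theorem p14_rsum (S : Pre) (κ : Type) [Fintype κ] [DecidableEq κ]
    (hrs : ∃ C : ℝ, ∀ Y H : ℝ, 1 ≤ Y → 1 ≤ H →
      ∑ r ∈ Fintype.piFinset (fun _ : κ => S.bx Y),
        (if ∏ i, (S.nm (r i) : ℝ) ≤ Y
          then (∏ i : κ, (fun _ : Finset S.P => (1 : ℝ)) (r i)) *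
            min (Y / ∏ i, (S.nm (r i) : ℝ)) H else 0) ≤
      C * Y * (1 + Real.log Y) ^ (Fintype.card κ - 1) * (1 + Real.log H)) :
    ∃ C : ℝ, 0 ≤ C ∧ ∀ (Y V M : ℝ), 1 ≤ Y → 1 ≤ V → 1 ≤ M →
    ∑ r ∈ Fintype.piFinset (fun _ : κ => S.bx Y),
      (if (∏ i, (S.nm (r i) : ℝ)) * V ≤ Y
        then min (Y / ((∏ i, (S.nm (r i) : ℝ)) * V)) (M ^ 2) else 0) ≤
    C * Y * (1 + Real.log Y) ^ (Fintype.card κ - 1) * (1 + Real.log M) * V⁻¹ := by
  obtain ⟨C, hC⟩ := hrs
  refine ⟨2 * max C 0, by positivity, fun Y V M hY hV hM => ?_⟩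
  have hlogM : 0 ≤ Real.log M := Real.log_nonneg hM
  have hlogY : 0 ≤ Real.log Y := Real.log_nonneg hY
  have hVpos : 0 < V := by linarith
  have hM2 : (1 : ℝ) ≤ M ^ 2 := one_le_pow₀ hM
  have hVinv : 0 < V⁻¹ := inv_pos.2 hVpos
  have hone : ∀ r : κ → Finset S.P, (1 : ℝ) ≤ ∏ i, (S.nm (r i) : ℝ) := fun r => by
    calc (1 : ℝ) = ∏ i : κ, (1 : ℝ) := by rw [Finset.prod_const_one]
      _ ≤ ∏ i, (S.nm (r i) : ℝ) :=
        Finset.prod_le_prod (fun _ _ => zero_le_one) fun l _ => S.one_le_nmr _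
  by_cases hYV : V ≤ Y
  swap
  · rw [Finset.sum_eq_zero]
    · have : 0 ≤ Y := by linarith
      positivity
    · intro r hr
      refine if_neg (not_le.2 ?_)
      have h1 := hone r
      nlinarith [not_le.1 hYV]
  have hY2 : 1 ≤ Y / V := by rwa [le_div_iff₀ hVpos, one_mul]
  have hY2Y : Y / V ≤ Y := div_le_self (by linarith) hV
  have hsub : Fintype.piFinset (fun _ : κ => S.bx (Y / V)) ⊆
      Fintype.piFinset (fun _ : κ => S.bx Y) := by
    intro r hr
    refine Fintype.mem_piFinset.2 fun l => ?_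
    exact S.bx_mono hY2Y (Fintype.mem_piFinset.1 hr l)
  have hiff : ∀ x : ℝ, x * V ≤ Y ↔ x ≤ Y / V := fun x => by rw [le_div_iff₀ hVpos]
  have e1 : ∑ r ∈ Fintype.piFinset (fun _ : κ => S.bx Y),
      (if (∏ i, (S.nm (r i) : ℝ)) * V ≤ Y
        then min (Y / ((∏ i, (S.nm (r i) : ℝ)) * V)) (M ^ 2) else 0) =
      ∑ r ∈ Fintype.piFinset (fun _ : κ => S.bx (Y / V)),
        (if ∏ i, (S.nm (r i) : ℝ) ≤ Y / V then
          (∏ i : κ, (fun _ : Finset S.P => (1 : ℝ)) (r i)) *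
            min (Y / V / ∏ i, (S.nm (r i) : ℝ)) (M ^ 2) else 0) := by
    rw [← Finset.sum_subset hsub]
    · refine Finset.sum_congr rfl fun r _ => ?_
      rw [Finset.prod_const_one, one_mul, div_div, mul_comm V]
      simp only [hiff]
    · intro r hr hr'
      refine if_neg fun h => hr' ?_
      rw [hiff] at h
      refine Fintype.mem_piFinset.2 fun l => S.mem_bx.2 ?_
      refine le_trans ?_ h
      have h2 : (1 : ℝ) ≤ ∏ k ∈ Finset.univ.erase l, (S.nm (r k) : ℝ) := by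
        calc (1 : ℝ) = ∏ k ∈ Finset.univ.erase l, (1 : ℝ) := by rw [Finset.prod_const_one]
          _ ≤ ∏ k ∈ Finset.univ.erase l, (S.nm (r k) : ℝ) :=
            Finset.prod_le_prod (fun _ _ => zero_le_one) fun k _ => S.one_le_nmr _
      rw [← Finset.mul_prod_erase Finset.univ (fun k => (S.nm (r k) : ℝ)) (Finset.mem_univ l)]
      nlinarith [S.one_le_nmr (r l)]
  rw [e1]
  refine (hC (Y / V) (M ^ 2) hY2 hM2).trans ?_
  have hl1 : 0 ≤ Real.log (Y / V) := Real.log_nonneg hY2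
  have hl2 : Real.log (Y / V) ≤ Real.log Y := Real.log_le_log (by linarith) hY2Y
  have hl3 : 1 + Real.log (M ^ 2) ≤ 2 * (1 + Real.log M) := by
    rw [Real.log_pow]
    push_cast
    linarith
  have hl4 : 0 ≤ Real.log (M ^ 2) := Real.log_nonneg hM2
  have hYV0 : 0 ≤ Y / V := by linarith
  calc C * (Y / V) * (1 + Real.log (Y / V)) ^ (Fintype.card κ - 1) * (1 + Real.log (M ^ 2))
      ≤ max C 0 * (Y / V) * (1 + Real.log Y) ^ (Fintype.card κ - 1) * (2 * (1 + Real.log M)) := by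
        have h5 : (1 + Real.log (Y / V)) ^ (Fintype.card κ - 1) ≤
            (1 + Real.log Y) ^ (Fintype.card κ - 1) :=
          pow_le_pow_left₀ (by linarith) (by linarith) _
        have h6 : C * (Y / V) ≤ max C 0 * (Y / V) :=
          mul_le_mul_of_nonneg_right (le_max_left _ _) hYV0
        have h7 : 0 ≤ max C 0 * (Y / V) := mul_nonneg (le_max_right _ _) hYV0
        have h8 : 0 ≤ (1 + Real.log (Y / V)) ^ (Fintype.card κ - 1) := by positivity
        have h9 : 0 ≤ (1 + Real.log Y) ^ (Fintype.card κ - 1) := by positivity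
        have h10 : C * (Y / V) * (1 + Real.log (Y / V)) ^ (Fintype.card κ - 1) ≤
            max C 0 * (Y / V) * (1 + Real.log Y) ^ (Fintype.card κ - 1) :=
          mul_le_mul h6 h5 h8 h7
        exact mul_le_mul h10 hl3 (by linarith) (mul_nonneg h7 h9)
    _ = 2 * max C 0 * Y * (1 + Real.log Y) ^ (Fintype.card κ - 1) * (1 + Real.log M) * V⁻¹ := by
        rw [div_eq_mul_inv]
        ring

open Classical in
/-- the sum over all variables -/
theorem p14_count (S : Pre) {ι : Type} [Fintype ι] (w : ι → ℝ) (hw : ∀ i, 1 ≤ w i) (R : ι → Prop)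
    (hR : ∀ i, R i → w i = 1)
    (hrs : ∃ C : ℝ, ∀ Y H : ℝ, 1 ≤ Y → 1 ≤ H →
      ∑ r ∈ Fintype.piFinset (fun _ : {l // R l} => S.bx Y),
        (if ∏ i, (S.nm (r i) : ℝ) ≤ Y
          then (∏ i : {l // R l}, (fun _ : Finset S.P => (1 : ℝ)) (r i)) *
            min (Y / ∏ i, (S.nm (r i) : ℝ)) H else 0) ≤
      C * Y * (1 + Real.log Y) ^ (Fintype.card {l // R l} - 1) * (1 + Real.log H))
    {Ch : ℝ} (hCh : 0 ≤ Ch)
    (hharm : ∀ t : ℝ, 1 ≤ t → ∑ x ∈ S.bx t, ((S.nm x : ℝ))⁻¹ ≤ Ch * (1 + Real.log t)) :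
    ∃ C : ℝ, 0 ≤ C ∧ ∀ (Y M : ℝ), 1 ≤ Y → 1 ≤ M →
    ∑ z ∈ Fintype.piFinset (fun _ : ι => S.bx Y),
      (if (∀ l, ¬ R l → (S.nm (z l) : ℝ) ≤ M) ∧ ∏ l, (S.nm (z l) : ℝ) ^ w l ≤ Y then
          min (Y / ∏ l, (S.nm (z l) : ℝ) ^ w l) (M ^ 2) else 0) ≤
    C * Y * (1 + Real.log Y) ^ (Nat.card {l // R l} - 1) *
      (1 + Real.log M) ^ (1 + Nat.card {l // ¬ R l}) := by
  obtain ⟨C, hC0, hC⟩ := p14_rsum S {l // R l} hrs
  refine ⟨C * Ch ^ Fintype.card {l // ¬ R l}, by positivity, fun Y M hY hM => ?_⟩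
  have hlogM : 0 ≤ Real.log M := Real.log_nonneg hM
  have hlogY : 0 ≤ Real.log Y := Real.log_nonneg hY
  have hM0 : 0 ≤ M := by linarith
  have hY0 : 0 ≤ Y := by linarith
  rw [Nat.card_eq_fintype_card, Nat.card_eq_fintype_card]
  -- split the index set
  have e1 : ∑ z ∈ Fintype.piFinset (fun _ : ι => S.bx Y),
      (if (∀ l, ¬ R l → (S.nm (z l) : ℝ) ≤ M) ∧ ∏ l, (S.nm (z l) : ℝ) ^ w l ≤ Y then
          min (Y / ∏ l, (S.nm (z l) : ℝ) ^ w l) (M ^ 2) else 0) =
      ∑ p ∈ Fintype.piFinset (fun _ : {l // ¬ R l} => S.bx Y) ×ˢ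
        Fintype.piFinset (fun _ : {l // R l} => S.bx Y),
        (if (∀ l, (S.nm (p.1 l) : ℝ) ≤ M) ∧
            (∏ l, (S.nm (p.2 l) : ℝ)) * (∏ l, (S.nm (p.1 l) : ℝ) ^ w l) ≤ Y then
          min (Y / ((∏ l, (S.nm (p.2 l) : ℝ)) * (∏ l, (S.nm (p.1 l) : ℝ) ^ w l))) (M ^ 2)
            else 0) := by
    refine Finset.sum_nbij' (fun z => (fun l => z l, fun l => z l))
      (fun p l => if h : R l then p.2 ⟨l, h⟩ else p.1 ⟨l, h⟩) ?_ ?_ ?_ ?_ ?_
    · intro z hz
      have hz' := Fintype.mem_piFinset.1 hz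
      exact Finset.mem_product.2 ⟨Fintype.mem_piFinset.2 fun l => hz' l,
        Fintype.mem_piFinset.2 fun l => hz' l⟩
    · intro p hp
      obtain ⟨h1, h2⟩ := Finset.mem_product.1 hp
      refine Fintype.mem_piFinset.2 fun l => ?_
      by_cases h : R l
      · rw [dif_pos h]
        exact Fintype.mem_piFinset.1 h2 _
      · rw [dif_neg h]
        exact Fintype.mem_piFinset.1 h1 _
    · intro z _
      funext l
      by_cases h : R l
      · exact dif_pos h
      · exact dif_neg h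
    · rintro ⟨p, q⟩ _
      refine Prod.ext ?_ ?_
      · funext l
        exact dif_neg l.2
      · funext l
        exact dif_pos l.2
    · intro z _
      have h1 : ∏ l, (S.nm (z l) : ℝ) ^ w l = (∏ l : {l // R l}, (S.nm (z l) : ℝ)) *
          (∏ l : {l // ¬ R l}, (S.nm (z l) : ℝ) ^ w l) := by
        rw [← Fintype.prod_subtype_mul_prod_subtype R]
        congr 1
        refine Finset.prod_congr rfl fun l _ => ?_
        rw [hR l l.2, Real.rpow_one]
      have h2 : (∀ l, ¬ R l → (S.nm (z l) : ℝ) ≤ M) ↔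
          ∀ l : {l // ¬ R l}, (S.nm (z l) : ℝ) ≤ M :=
        ⟨fun h l => h l l.2, fun h l hl => h ⟨l, hl⟩⟩
      rw [h1]
      simp only [h2]
  rw [e1, Finset.sum_product]
  have hB0 : 0 ≤ C * Y * (1 + Real.log Y) ^ (Fintype.card {l // R l} - 1) * (1 + Real.log M) := by
    positivity
  calc _ ≤ ∑ v ∈ Fintype.piFinset (fun _ : {l // ¬ R l} => S.bx Y),
        C * Y * (1 + Real.log Y) ^ (Fintype.card {l // R l} - 1) * (1 + Real.log M) *
          ∏ l, (if (S.nm (v l) : ℝ) ≤ M then ((S.nm (v l) : ℝ))⁻¹ else 0) := by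
        refine Finset.sum_le_sum fun v hv => ?_
        have hv1 : ∀ l, (1 : ℝ) ≤ S.nm (v l) := fun l => S.one_le_nmr _
        by_cases hvM : ∀ l, (S.nm (v l) : ℝ) ≤ M
        · have hV1 : (1 : ℝ) ≤ ∏ l, (S.nm (v l) : ℝ) ^ w l := by
            calc (1 : ℝ) = ∏ l : {l // ¬ R l}, (1 : ℝ) := by rw [Finset.prod_const_one]
              _ ≤ ∏ l : {l // ¬ R l}, (S.nm (v l) : ℝ) ^ w l :=
                Finset.prod_le_prod (fun _ _ => zero_le_one) fun l _ =>
                  Real.one_le_rpow (hv1 l) (by linarith [hw l])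
          have h3 := hC Y (∏ l, (S.nm (v l) : ℝ) ^ w l) M hY hV1 hM
          simp only [hvM, implies_true, true_and, if_true]
          refine h3.trans (mul_le_mul_of_nonneg_left ?_ hB0)
          rw [← Finset.prod_inv_distrib]
          refine Finset.prod_le_prod (fun l _ => by positivity) fun l _ => ?_
          refine inv_anti₀ (by linarith [hv1 l]) ?_
          calc (S.nm (v l) : ℝ) = (S.nm (v l) : ℝ) ^ (1 : ℝ) := (Real.rpow_one _).symm
            _ ≤ (S.nm (v l) : ℝ) ^ w l := Real.rpow_le_rpow_of_exponent_le (hv1 l) (hw l)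
        · rw [Finset.sum_eq_zero]
          · refine mul_nonneg hB0 (Finset.prod_nonneg fun l _ => ?_)
            split_ifs
            · positivity
            · exact le_rfl
          · intro r _
            exact if_neg fun h => hvM h.1
    _ = C * Y * (1 + Real.log Y) ^ (Fintype.card {l // R l} - 1) * (1 + Real.log M) *
        (∑ n ∈ S.bx Y, (if (S.nm n : ℝ) ≤ M then ((S.nm n : ℝ))⁻¹ else 0)) ^
          Fintype.card {l // ¬ R l} := by
        rw [← Finset.mul_sum]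
        congr 1
        have h7 := Finset.prod_univ_sum (fun _ : {l // ¬ R l} => S.bx Y)
          (fun (_ : {l // ¬ R l}) (n : Finset S.P) =>
            (if (S.nm n : ℝ) ≤ M then ((S.nm n : ℝ))⁻¹ else 0))
        rw [← h7, Finset.prod_const, Finset.card_univ]
    _ ≤ C * Y * (1 + Real.log Y) ^ (Fintype.card {l // R l} - 1) * (1 + Real.log M) *
        (Ch * (1 + Real.log M)) ^ Fintype.card {l // ¬ R l} := by
        refine mul_le_mul_of_nonneg_left ?_ hB0
        refine pow_le_pow_left₀ (Finset.sum_nonneg fun n _ => ?_) ?_ _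
        · split_ifs
          · positivity
          · exact le_rfl
        · refine le_trans ?_ (hharm M hM)
          rw [← Finset.sum_filter]
          refine Finset.sum_le_sum_of_subset_of_nonneg ?_ fun n _ _ => by positivity
          intro n hn
          obtain ⟨h1, h2⟩ := Finset.mem_filter.1 hn
          exact S.mem_bx.2 h2
    _ = C * Ch ^ Fintype.card {l // ¬ R l} * Y *
          (1 + Real.log Y) ^ (Fintype.card {l // R l} - 1) *
        (1 + Real.log M) ^ (1 + Fintype.card {l // ¬ R l}) := by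
        rw [pow_add, pow_one, mul_pow]
        ring

end Pool.Agent.H98.MF
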