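import Pool.Agent.H98.MF.SGWPair2
import Pool.Agent.H98.MF.SGWPair3

/-!
# Project MK4, row A14: a linked pair of large variables, from the estimates of rows A1, A3, A13
-/

set_option autoImplicit false

open scoped BigOperators

namespace Pool.Agent.H98.MF

open Pool.Agent.H98.MK (sg)

/-- the sum over the free variables does not depend on the decision procedure -/
theorem p14_inst (S : Pre) (κ : Type) [Fintype κ] [hd : DecidableEq κ] (C : ℝ)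
    (h : ∀ Y H : ℝ, 1 ≤ Y → 1 ≤ H →
      ∑ r ∈ @Fintype.piFinset κ (fun a b => Classical.propDecidable (a = b)) _ _
          (fun _ : κ => S.bx Y),
        (if ∏ i, (S.nm (r i) : ℝ) ≤ Y
          then (∏ i : κ, (fun _ : Finset S.P => (1 : ℝ)) (r i)) *
            min (Y / ∏ i, (S.nm (r i) : ℝ)) H else 0) ≤
      C * Y * (1 + Real.log Y) ^ (Fintype.card κ - 1) * (1 + Real.log H)) :
    ∀ Y H : ℝ, 1 ≤ Y → 1 ≤ H →
      ∑ r ∈ Fintype.piFinset (fun _ : κ => S.bx Y),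
        (if ∏ i, (S.nm (r i) : ℝ) ≤ Y
          then (∏ i : κ, (fun _ : Finset S.P => (1 : ℝ)) (r i)) *
            min (Y / ∏ i, (S.nm (r i) : ℝ)) H else 0) ≤
      C * Y * (1 + Real.log Y) ^ (Fintype.card κ - 1) * (1 + Real.log H) := by
  have e : hd = fun a b => Classical.propDecidable (a = b) := Subsingleton.elim _ _
  subst e
  exact h

/-- a linked pair of large variables, from the estimates of rows A1, A3, A13 -/
theorem GW_pair_of (F : Sys)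
    (hcard : ∃ C : ℝ, ∀ t : ℝ, 1 ≤ t → ((F.bx t).card : ℝ) ≤ C * t)
    (hrs : ∀ (κ : Type) [Fintype κ] (h : Finset F.P → ℝ), (∀ x, 0 ≤ h x) → ∀ C0 : ℝ,
      (∀ t : ℝ, 1 ≤ t → ∑ x ∈ F.bx t, h x ≤ C0 * t) →
      ∃ C : ℝ, ∀ Y H : ℝ, 1 ≤ Y → 1 ≤ H →
        ∑ r ∈ @Fintype.piFinset κ (fun a b => Classical.propDecidable (a = b)) _ _
            (fun _ : κ => F.bx Y),
          (if ∏ i, (F.nm (r i) : ℝ) ≤ Y
            then (∏ i, h (r i)) * min (Y / ∏ i, (F.nm (r i) : ℝ)) H else 0) ≤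
        C * Y * (1 + Real.log Y) ^ (Fintype.card κ - 1) * (1 + Real.log H))
    (hharm : ∀ (h : Finset F.P → ℝ), (∀ x, 0 ≤ h x) → ∀ C0 : ℝ,
      (∀ t : ℝ, 1 ≤ t → ∑ x ∈ F.bx t, h x ≤ C0 * t) →
      ∃ C : ℝ, ∀ t w : ℝ, 1 ≤ t → 1 ≤ w →
        ∑ x ∈ F.bx t, h x * (F.nm x : ℝ) ^ (-w) ≤ C * (1 + Real.log t))
    (hbil : ∃ (C : ℝ) (E : ℕ), p14_Bil F C E)
    {ι : Type} [Fintype ι] (w : ι → ℝ) (hw : ∀ i, 1 ≤ w i)
    (L : ι → ι → Prop) (hL : ∀ i j, L i j → ¬ L j i) (R : ι → Prop)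
    (hR : ∀ i, R i → w i = 1 ∧ ∀ j, ¬ L i j ∧ ¬ L j i)
    (i j : ι) (hij : L i j) (hi : w i = 1) (hj : w j = 1) :
    ∃ C : ℝ, ∃ k : ℕ, ∀ (a : ι → Finset F.P → ℝ) (P M Y : ℝ), (∀ l x, |a l x| ≤ 1) → 1 ≤ P →
      1 ≤ M → 1 ≤ Y → (∀ l, ¬ R l → ∀ x, a l x ≠ 0 → (F.nm x : ℝ) ≤ M) →
      (∀ x, a i x ≠ 0 → P < F.nm x) → (∀ x, a j x ≠ 0 → P < F.nm x) →
      |F.GW w L a Y| ≤ C * Y * (1 + Real.log Y) ^ (Nat.card {l // R l} - 1) *
        P ^ (-F.c0) * (1 + Real.log M) ^ k := by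
  classical
  obtain ⟨C0, E, hC0⟩ := hbil
  obtain ⟨Cc, hCc⟩ := hcard
  have hone : ∀ t : ℝ, 1 ≤ t → ∑ x ∈ F.bx t, (fun _ : Finset F.P => (1 : ℝ)) x ≤ Cc * t := by
    intro t ht
    rw [Finset.sum_const, nsmul_eq_mul, mul_one]
    exact hCc t ht
  have hne : i ≠ j := by
    rintro rfl
    exact hL _ _ hij hij
  have hC1 : p14_Bil F (max C0 0) E := by
    intro P x a b hP hx h1 h2 h3 h4
    refine (hC0 P x a b hP hx h1 h2 h3 h4).trans ?_
    have hlog : 0 ≤ Real.log x := Real.log_nonneg hx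
    have hPp : 0 < P ^ (-F.c0) := Real.rpow_pos_of_pos (by linarith) _
    have hx0 : 0 ≤ x := by linarith
    gcongr
    exact le_max_left _ _
  have hRi : ¬ R i := fun h => ((hR i h).2 j).1 hij
  have hRj : ¬ R j := fun h => ((hR j h).2 i).2 hij
  obtain ⟨Cr, hCr⟩ := hrs {l // R l} (fun _ => 1) (fun _ => zero_le_one) Cc hone
  obtain ⟨Ch, hCh⟩ := hharm (fun _ => 1) (fun _ => zero_le_one) Cc hone
  have hCh' : ∀ t : ℝ, 1 ≤ t → ∑ x ∈ F.bx t, ((F.nm x : ℝ))⁻¹ ≤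
      max Ch 0 * (1 + Real.log t) := by
    intro t ht
    have h1 := hCh t 1 ht le_rfl
    have h2 : 0 ≤ Real.log t := Real.log_nonneg ht
    calc ∑ x ∈ F.bx t, ((F.nm x : ℝ))⁻¹ = ∑ x ∈ F.bx t, 1 * (F.nm x : ℝ) ^ (-1 : ℝ) := by
          refine Finset.sum_congr rfl fun x _ => ?_
          rw [one_mul, Real.rpow_neg_one]
      _ ≤ Ch * (1 + Real.log t) := h1
      _ ≤ max Ch 0 * (1 + Real.log t) :=
        mul_le_mul_of_nonneg_right (le_max_left _ _) (by linarith)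
  obtain ⟨C2, hC20, hC2⟩ := p14_count F.toPre w hw R (fun l hl => (hR l hl).1)
    ⟨Cr, p14_inst F.toPre {l // R l} Cr hCr⟩ (le_max_right Ch 0) hCh'
  refine ⟨2 ^ E * max C0 0 * C2, E + (1 + Nat.card {l // ¬ R l}), ?_⟩
  intro a P M Y ha hP hM hY haM hPi hPj
  have hlogM : 0 ≤ Real.log M := Real.log_nonneg hM
  have hPp : 0 < P ^ (-F.c0) := Real.rpow_pos_of_pos (by linarith) _
  have hCn : 0 ≤ max C0 0 := le_max_right _ _
  set E' : ℝ := 2 ^ E * max C0 0 * P ^ (-F.c0) * (1 + Real.log M) ^ E with hE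
  have hE0 : 0 ≤ E' := by positivity
  set g : (ι → Finset F.P) → ℝ := fun z =>
    (if (∀ l, ¬ R l → (F.nm (z l) : ℝ) ≤ M) ∧ ∏ l, (F.nm (z l) : ℝ) ^ w l ≤ Y then
          min (Y / ∏ l, (F.nm (z l) : ℝ) ^ w l) (M ^ 2) else 0) with hg
  have hg0 : ∀ z, 0 ≤ g z := fun z => by
    rw [hg]
    show 0 ≤ (if (∀ l, ¬ R l → (F.nm (z l) : ℝ) ≤ M) ∧ ∏ l, (F.nm (z l) : ℝ) ^ w l ≤ Y then
          min (Y / ∏ l, (F.nm (z l) : ℝ) ^ w l) (M ^ 2) else 0)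
    split_ifs
    · have h1 : 0 ≤ ∏ l, (F.nm (z l) : ℝ) ^ w l :=
        Finset.prod_nonneg fun l _ => Real.rpow_nonneg (Nat.cast_nonneg _) _
      exact le_min (div_nonneg (by linarith) h1) (by positivity)
    · exact le_rfl
  unfold Sys.GW
  rw [p14_sum hne (F.bx Y) ∅ (F.empty_mem_bx hY)]
  refine (Finset.abs_sum_le_sum_abs _ _).trans ?_
  refine (Finset.sum_le_sum (g := fun z => E' * g z) (fun z hz => ?_)).trans ?_
  · obtain ⟨hz1, hz2, hz3⟩ := Finset.mem_filter.1 hz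
    exact p14_inner F w hw L R hne (fun h => hL _ _ h h) (fun h => hL _ _ h h) (hL _ _ hij)
      hij hi hj hRi hRj hCn hC1 a P M Y ha hP hM hY haM hPi hPj z hz2 hz3
  refine (Finset.sum_le_sum_of_subset_of_nonneg (t := Fintype.piFinset (fun _ : ι => F.bx Y))
    (Finset.filter_subset _ _) fun z _ _ => mul_nonneg hE0 (hg0 z)).trans ?_
  calc ∑ z ∈ Fintype.piFinset (fun _ : ι => F.bx Y), E' * g z
      = E' * ∑ z ∈ Fintype.piFinset (fun _ : ι => F.bx Y), g z := by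
        rw [Finset.mul_sum]
    _ ≤ E' * (C2 * Y * (1 + Real.log Y) ^ (Nat.card {l // R l} - 1) *
          (1 + Real.log M) ^ (1 + Nat.card {l // ¬ R l})) :=
        mul_le_mul_of_nonneg_left (hC2 Y M hY hM) hE0
    _ = 2 ^ E * max C0 0 * C2 * Y * (1 + Real.log Y) ^ (Nat.card {l // R l} - 1) *
          P ^ (-F.c0) * (1 + Real.log M) ^ (E + (1 + Nat.card {l // ¬ R l})) := by
        rw [hE, pow_add (1 + Real.log M) E]
        ring

end Pool.Agent.H98.MF
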