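import Pool.Agent.H98.MF.SBase

/-!
# Project MK4 (MP_a3214d), block SYS: the loss function `hs`, double counting of subsets
-/

set_option autoImplicit false

open scoped BigOperators

namespace Pool.Agent.H98.MF

namespace Pre

variable (S : Pre)

/-- the loss at a prime -/
noncomputable def shf (p : S.P) : ℝ := (1 - (S.N p : ℝ) ^ (-(1 / 2) : ℝ))⁻¹

theorem sh_hs (x : Finset S.P) (j : ℕ) : S.hs x ^ j = ∏ p ∈ x, S.shf p ^ j := by
  unfold hs shf
  rw [Finset.prod_pow]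

theorem sh_one_le (p : S.P) : 1 ≤ S.shf p := S.one_le_hs_factor p

theorem sh_root (p : S.P) : (S.N p : ℝ) ^ (-(1 / 2) : ℝ) ≤ 3 / 4 := by
  have h2 : (2 : ℝ) ≤ S.N p := by exact_mod_cast S.two_le p
  have h1 : (S.N p : ℝ) ^ (-(1 / 2) : ℝ) ≤ (2 : ℝ) ^ (-(1 / 2) : ℝ) :=
    Real.rpow_le_rpow_of_nonpos (by norm_num) h2 (by norm_num)
  refine h1.trans ?_
  have h3 : (0 : ℝ) ≤ (2 : ℝ) ^ (-(1 / 2) : ℝ) := by positivity
  have h4 : ((2 : ℝ) ^ (-(1 / 2) : ℝ)) ^ 2 = 1 / 2 := by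
    rw [← Real.rpow_natCast, ← Real.rpow_mul (by norm_num)]
    norm_num
  nlinarith

theorem sh_root_nonneg (p : S.P) : 0 ≤ (S.N p : ℝ) ^ (-(1 / 2) : ℝ) :=
  Real.rpow_nonneg (Nat.cast_nonneg _) _

theorem sh_le_four (p : S.P) : S.shf p ≤ 4 := by
  unfold shf
  have h1 := S.sh_root p
  rw [inv_le_comm₀ (by linarith) (by norm_num)]
  linarith

theorem sh_sub_one (p : S.P) : S.shf p - 1 ≤ 4 * (S.N p : ℝ) ^ (-(1 / 2) : ℝ) := by
  unfold shf
  have h1 := S.sh_root p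
  have h0 := S.sh_root_nonneg p
  set a := (S.N p : ℝ) ^ (-(1 / 2) : ℝ)
  have h2 : 0 < 1 - a := by linarith
  have h3 : (1 - a)⁻¹ - 1 = a * (1 - a)⁻¹ := by
    field_simp
    ring
  have h4 : (1 - a)⁻¹ ≤ 4 := by
    rw [inv_le_comm₀ h2 (by norm_num)]
    linarith
  rw [h3]
  nlinarith

theorem sh_pow_sub_one (j : ℕ) : ∃ C : ℝ, 0 ≤ C ∧
    ∀ p, S.shf p ^ j - 1 ≤ C * (S.N p : ℝ) ^ (-(1 / 2) : ℝ) := by
  induction j with
  | zero => exact ⟨0, le_rfl, fun p => by simp⟩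
  | succ j ih =>
    obtain ⟨C, hC, h⟩ := ih
    refine ⟨4 * C + 4, by linarith, fun p => ?_⟩
    have h1 := h p
    have h2 := S.sh_sub_one p
    have h3 := S.sh_le_four p
    have h4 := S.sh_one_le p
    have h5 : 0 ≤ S.shf p ^ j - 1 := sub_nonneg.2 (one_le_pow₀ h4)
    have h6 : S.shf p ^ (j + 1) - 1 = S.shf p * (S.shf p ^ j - 1) + (S.shf p - 1) := by ring
    rw [h6]
    have h7 : S.shf p * (S.shf p ^ j - 1) ≤ 4 * (C * (S.N p : ℝ) ^ (-(1 / 2) : ℝ)) :=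
      mul_le_mul h3 h1 h5 (by norm_num)
    linarith

/-- double counting of the subsets of the members of a box -/
theorem sh_double (G : Finset S.P → Finset S.P → ℝ) (hG : ∀ y z, 0 ≤ G y z) (t : ℝ) :
    ∑ x ∈ S.bx t, ∑ y ∈ x.powerset, G y (x \ y) ≤
      ∑ y ∈ S.bx t, ∑ z ∈ S.bx (t / S.nm y), G y z := by
  have h1 : ∑ x ∈ S.bx t, ∑ y ∈ x.powerset, G y (x \ y) =
      ∑ y ∈ S.bx t, ∑ x ∈ (S.bx t).filter (fun x => y ⊆ x), G y (x \ y) := by
    apply Finset.sum_comm'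
    intro x y
    rw [Finset.mem_powerset, Finset.mem_filter]
    constructor
    · rintro ⟨hx, hy⟩
      exact ⟨⟨hx, hy⟩, S.mem_bx.2 (le_trans (by exact_mod_cast S.nm_mono hy) (S.mem_bx.1 hx))⟩
    · rintro ⟨⟨hx, hy⟩, _⟩
      exact ⟨hx, hy⟩
  rw [h1]
  refine Finset.sum_le_sum fun y _ => ?_
  have h2 : Set.InjOn (fun x : Finset S.P => x \ y)
      (((S.bx t).filter (fun x => y ⊆ x) : Finset (Finset S.P)) : Set (Finset S.P)) := by
    intro a ha b hb hab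
    rw [Finset.mem_coe, Finset.mem_filter] at ha hb
    have h3 : a \ y ∪ y = b \ y ∪ y := congrArg (fun z => z ∪ y) hab
    rwa [Finset.sdiff_union_of_subset ha.2, Finset.sdiff_union_of_subset hb.2] at h3
  rw [← Finset.sum_image (f := fun z => G y z) h2]
  apply Finset.sum_le_sum_of_subset_of_nonneg
  · intro z hz
    rw [Finset.mem_image] at hz
    obtain ⟨x, hx, rfl⟩ := hz
    rw [Finset.mem_filter, S.mem_bx] at hx
    rw [S.mem_bx, le_div_iff₀ (S.nm_posr y)]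
    have h4 : S.nm (x \ y) * S.nm y = S.nm x := by
      rw [← S.nm_union Finset.sdiff_disjoint, Finset.sdiff_union_of_subset hx.2]
    have h5 : (S.nm (x \ y) : ℝ) * (S.nm y : ℝ) = (S.nm x : ℝ) := by exact_mod_cast h4
    rw [h5]
    exact hx.1
  · intro z _ _
    exact hG y z

theorem sh_nm_rpow (x : Finset S.P) (s : ℝ) :
    (S.nm x : ℝ) ^ s = ∏ p ∈ x, (S.N p : ℝ) ^ s := by
  unfold nm
  push_cast
  rw [Real.finsetProd_rpow _ _ fun p _ => Nat.cast_nonneg _]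

end Pre

end Pool.Agent.H98.MF
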