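import Pool.Agent.H98.MF.SPDefs

/-!
# Project MK4 (MP_a3214d), row E7: the analytic theorem from the basic sums
-/

set_option autoImplicit false

open scoped BigOperators
open Filter

namespace Pool.Agent.H98.MF

open Pool.Agent.H98.MK (sg)
open Pool.Agent.H98.ML (Dt Ext Wt)

/-- A nonzero coefficient forces a nonzero weight. -/
theorem e7_coef (F : Sys) {D : Dt} (θ : (Fin F.m → D.V) → (D.V → F.T) → Finset D.V → ℝ)
    (a : Fin F.m → D.V) (σ : Finset (F.IX D)) (c : F.IX D → F.T) (h : F.coef θ a σ c ≠ 0) :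
    ∃ δ, θ a δ (F.supV σ) ≠ 0 := by
  by_contra hne
  push Not at hne
  apply h
  rw [Sys.coef, Finset.sum_eq_zero, mul_zero]
  intro u _
  rw [Sys.Psi, hne, mul_zero, zero_mul]

theorem main_an_of (F : Sys) {D : Dt} (w : Wt D)
    (θ : (Fin F.m → D.V) → (D.V → F.T) → Finset D.V → ℝ)
    (hE : ∀ Y : ℝ, 1 ≤ Y → F.S w θ Y = ∑ a : Fin F.m → D.V,
      ∑ σ ∈ (F.act w (fun _ => {0})).powerset, ∑ c ∈ F.UT σ, F.coef θ a σ c * F.TS w σ c Y)
    (hR : ∀ (a : Fin F.m → D.V) (σ : Finset (F.IX D)), σ ⊆ F.act w (fun _ => {0}) →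
      ∀ c : F.IX D → F.T, F.coef θ a σ c ≠ 0 → F.Span a (F.supV σ) → (F.R w σ c).card ≤ w.b)
    (hL : ∀ (σ : Finset (F.IX D)), σ ⊆ F.act w (fun _ => {0}) → ∀ (c : F.IX D → F.T) (n : ℕ),
      (F.R w σ c).card ≤ n + 1 →
      ∃ C : ℝ, Tendsto (fun Y : ℝ => F.TS w σ c Y / (Y * Real.log Y ^ n)) atTop (nhds C))
    (hb : 1 ≤ w.b)
    (hθ : ∀ a δ Q, θ a δ Q ≠ 0 → F.Span a Q) :
    ∃ C : ℝ, Tendsto (fun Y : ℝ => F.S w θ Y / (Y * Real.log Y ^ (w.b - 1))) atTop (nhds C) := by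
  have hT : ∀ (a : Fin F.m → D.V) (σ : Finset (F.IX D)) (c : F.IX D → F.T), ∃ C : ℝ,
      σ ⊆ F.act w (fun _ => {0}) →
      Tendsto (fun Y : ℝ => F.coef θ a σ c * F.TS w σ c Y /
        (Y * Real.log Y ^ (w.b - 1))) atTop (nhds C) := by
    intro a σ c
    by_cases hσ : σ ⊆ F.act w (fun _ => {0})
    · by_cases hc : F.coef θ a σ c = 0
      · refine ⟨0, fun _ => ?_⟩
        simp only [hc, zero_mul, zero_div]
        exact tendsto_const_nhds
      obtain ⟨δ, hδ⟩ := e7_coef F θ a σ c hc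
      have hle := hR a σ hσ c hc (hθ a δ _ hδ)
      obtain ⟨C, hC⟩ := hL σ hσ c (w.b - 1) (by omega)
      refine ⟨F.coef θ a σ c * C, fun _ => (hC.const_mul _).congr fun Y => ?_⟩
      rw [mul_div_assoc]
    · exact ⟨0, fun h => absurd h hσ⟩
  choose C hC using hT
  refine ⟨∑ a : Fin F.m → D.V, ∑ σ ∈ (F.act w (fun _ => {0})).powerset,
    ∑ c ∈ F.UT σ, C a σ c, ?_⟩
  have hlim : Tendsto (fun Y : ℝ => ∑ a : Fin F.m → D.V,
      ∑ σ ∈ (F.act w (fun _ => {0})).powerset,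
      ∑ c ∈ F.UT σ, F.coef θ a σ c * F.TS w σ c Y / (Y * Real.log Y ^ (w.b - 1))) atTop
      (nhds (∑ a : Fin F.m → D.V, ∑ σ ∈ (F.act w (fun _ => {0})).powerset,
        ∑ c ∈ F.UT σ, C a σ c)) := by
    refine tendsto_finsetSum _ fun a _ => tendsto_finsetSum _ fun σ hσ =>
      tendsto_finsetSum _ fun c _ => ?_
    exact hC a σ c (Finset.mem_powerset.1 hσ)
  refine hlim.congr' ?_
  filter_upwards [eventually_ge_atTop (1 : ℝ)] with Y hY
  rw [hE Y hY]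
  simp only [Finset.sum_div]

end Pool.Agent.H98.MF
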