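import Pool.Agent.H98.MF.SClassSum
import Pool.Agent.H98.MF.SFLe
import Pool.Agent.H98.MF.SFExpand
import Pool.Agent.H98.MF.SUUSum
import Pool.Agent.H98.MF.SFGG
import Pool.Agent.H98.ML.MainPos2Of

/-!
# Project MK4 (MP_a3214d), row MF-P10: positivity, from P4 and P9 (helper91)
-/

set_option autoImplicit false

open scoped BigOperators
open Filter

namespace Pool.Agent.H98.MF

open Pool.Agent.H98.MK (sg)
open Pool.Agent.H98.ML (Dt Ext Wt p10_core)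

theorem main_pos_of (F : Sys) {D : Dt} (w : Wt D)
    (θ : (Fin F.m → D.V) → (D.V → F.T) → Finset D.V → ℝ) (h0 : ∀ a δ Q, 0 ≤ θ a δ Q)
    (h1 : ∀ Q, F.Span (fun _ => (0 : D.V)) Q → 1 ≤ θ (fun _ => 0) (fun _ => 0) Q)
    (hsm : ∀ (π : Pr F D) (σ : Finset D.P), σ ⊆ w.actM → ¬ w.Sb σ →
      Tendsto (fun Y : ℝ => F.FX π σ Y / (Y * Real.log Y ^ (w.b - 1))) atTop (nhds 0))
    (hL : ∀ π : Pr F D, ∃ c : ℝ, 0 < c ∧ ∀ Y0 : ℝ, ∃ Y : ℝ, Y0 ≤ Y ∧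
      c * (Y * Real.log Y ^ (w.b - 1)) ≤ F.GG w π Y) :
    ∃ c : ℝ, 0 < c ∧ ∀ Y0 : ℝ, ∃ Y : ℝ, Y0 ≤ Y ∧
      c * (Y * Real.log Y ^ (w.b - 1)) ≤ F.S w θ Y := by
  obtain ⟨π⟩ := exists_Pr F D
  exact p10_core (w.b - 1) (fun Y => F.FF w π Y) (fun Y => F.GG w π Y) (fun Y => F.S w θ Y)
    (F_le F w π θ h0 h1) (fun ε hε => F_GG_of F w π (fun Y hY => F_expand F w π Y hY)
      (fun σ h2 h3 => hsm π σ h2 h3) (fun ζ hζ Y hY => UU_sum F w π ζ hζ Y hY)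
      (fun Y => GG_nonneg F w π Y) ε hε) (hL π)

end Pool.Agent.H98.MF
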