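import Pool.Agent.H98.MF.SBase

/-!
# Project MK4 (MP_a3214d), block SYS: counting tuples of disjoint sets of primes
-/

set_option autoImplicit false

open scoped BigOperators
open Filter

namespace Pool.Agent.H98.MF

namespace Pre

variable (S : Pre)

/-- tuples of disjoint sets of primes, prime to `z` -/
noncomputable def snnT (k : ℕ) (z : Finset S.P) (Y : ℝ) : Finset (Fin k → Finset S.P) :=
  (Fintype.piFinset fun _ : Fin k => S.bx Y).filter fun x =>
    (∀ i j, i ≠ j → Disjoint (x i) (x j)) ∧ (∀ i, Disjoint (x i) z) ∧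
      ((∏ i, S.nm (x i) : ℕ) : ℝ) ≤ Y

theorem snn_mem {k : ℕ} {z : Finset S.P} {Y : ℝ} {x : Fin k → Finset S.P} :
    x ∈ S.snnT k z Y ↔ (∀ i j, i ≠ j → Disjoint (x i) (x j)) ∧ (∀ i, Disjoint (x i) z) ∧
      ((∏ i, S.nm (x i) : ℕ) : ℝ) ≤ Y := by
  unfold snnT
  rw [Finset.mem_filter, Fintype.mem_piFinset]
  refine ⟨fun h => h.2, fun h => ⟨fun i => ?_, h⟩⟩
  rw [S.mem_bx]
  refine le_trans ?_ h.2.2
  exact_mod_cast Finset.single_le_prod' (f := fun i => S.nm (x i))
    (fun j _ => S.one_le_nm _) (Finset.mem_univ i)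

/-- the parts of `u` given by a function -/
noncomputable def snnG (k : ℕ) (u : Finset S.P) (f : u → Fin k) (i : Fin k) : Finset S.P :=
  (u.attach.filter fun p => f p = i).map (Function.Embedding.subtype _)

theorem snn_mem_G {k : ℕ} {u : Finset S.P} {f : u → Fin k} {i : Fin k} {p : S.P} :
    p ∈ S.snnG k u f i ↔ ∃ h : p ∈ u, f ⟨p, h⟩ = i := by
  unfold snnG
  rw [Finset.mem_map]
  constructor
  · rintro ⟨q, hq, rfl⟩
    exact ⟨q.2, (Finset.mem_filter.1 hq).2⟩
  · rintro ⟨h, h1⟩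
    exact ⟨⟨p, h⟩, Finset.mem_filter.2 ⟨Finset.mem_attach _ _, h1⟩, rfl⟩

theorem snn_G_inj (k : ℕ) (u : Finset S.P) : Function.Injective (S.snnG k u) := by
  intro f g h
  funext p
  have h1 : p.1 ∈ S.snnG k u f (f p) := S.snn_mem_G.2 ⟨p.2, rfl⟩
  rw [h] at h1
  obtain ⟨h2, h3⟩ := S.snn_mem_G.1 h1
  exact h3.symm

theorem snn_G_union (k : ℕ) (u : Finset S.P) (f : u → Fin k) :
    Finset.univ.biUnion (S.snnG k u f) = u := by
  ext p
  rw [Finset.mem_biUnion]
  constructor
  · rintro ⟨i, _, hi⟩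
    exact (S.snn_mem_G.1 hi).1
  · intro h
    exact ⟨f ⟨p, h⟩, Finset.mem_univ _, S.snn_mem_G.2 ⟨h, rfl⟩⟩

theorem snn_G_disj (k : ℕ) (u : Finset S.P) (f : u → Fin k) (i j : Fin k) (hij : i ≠ j) :
    Disjoint (S.snnG k u f i) (S.snnG k u f j) := by
  rw [Finset.disjoint_left]
  intro p hp hq
  obtain ⟨h1, h2⟩ := S.snn_mem_G.1 hp
  obtain ⟨h3, h4⟩ := S.snn_mem_G.1 hq
  exact hij (h2.symm.trans h4)

theorem snn_nm_union {k : ℕ} {x : Fin k → Finset S.P}
    (h : ∀ i j, i ≠ j → Disjoint (x i) (x j)) :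
    S.nm (Finset.univ.biUnion x) = ∏ i, S.nm (x i) :=
  S.nm_biUnion Finset.univ x fun i _ j _ hij => h i j hij

theorem snn_card (k : ℕ) (z : Finset S.P) (Y : ℝ) :
    (S.snnT k z Y).card = ∑ u ∈ (S.bx Y).filter (fun u => Disjoint u z), k ^ u.card := by
  rw [Finset.card_eq_sum_card_fiberwise (f := fun x : Fin k → Finset S.P => Finset.univ.biUnion x)
    (t := (S.bx Y).filter (fun u => Disjoint u z))]
  · refine Finset.sum_congr rfl fun u hu => ?_
    obtain ⟨hu1, hu2⟩ := Finset.mem_filter.1 hu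
    rw [S.mem_bx] at hu1
    have h1 : (S.snnT k z Y).filter (fun x => Finset.univ.biUnion x = u) =
        (Finset.univ : Finset (u → Fin k)).map ⟨S.snnG k u, S.snn_G_inj k u⟩ := by
      ext x
      rw [Finset.mem_filter, S.snn_mem, Finset.mem_map]
      constructor
      · rintro ⟨⟨h1, h2, h3⟩, rfl⟩
        have h4 : ∀ p : (Finset.univ.biUnion x : Finset S.P), ∃ i, p.1 ∈ x i := fun p => by
          obtain ⟨i, _, hi⟩ := Finset.mem_biUnion.1 p.2
          exact ⟨i, hi⟩
        choose f hf using h4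
        refine ⟨f, Finset.mem_univ _, ?_⟩
        funext i
        ext p
        change p ∈ S.snnG k _ f i ↔ _
        rw [S.snn_mem_G]
        constructor
        · rintro ⟨h, rfl⟩
          exact hf ⟨p, h⟩
        · intro hp
          have h5 : p ∈ Finset.univ.biUnion x := Finset.mem_biUnion.2 ⟨i, Finset.mem_univ i, hp⟩
          refine ⟨h5, ?_⟩
          by_contra hne
          exact Finset.disjoint_left.1 (h1 _ _ hne) (hf ⟨p, h5⟩) hp
      · rintro ⟨f, _, rfl⟩
        change ((∀ i j, i ≠ j → Disjoint (S.snnG k u f i) (S.snnG k u f j)) ∧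
          (∀ i, Disjoint (S.snnG k u f i) z) ∧
          ((∏ i, S.nm (S.snnG k u f i) : ℕ) : ℝ) ≤ Y) ∧
          Finset.univ.biUnion (S.snnG k u f) = u
        refine ⟨⟨S.snn_G_disj k u f, fun i => ?_, ?_⟩, S.snn_G_union k u f⟩
        · refine Finset.disjoint_of_subset_left (fun p hp => ?_) hu2
          exact (S.snn_mem_G.1 hp).1
        · rw [← S.snn_nm_union (S.snn_G_disj k u f), S.snn_G_union]
          exact hu1
    rw [h1, Finset.card_map, Finset.card_univ, Fintype.card_fun, Fintype.card_coe, Fintype.card_fin]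
  · intro x hx
    obtain ⟨h1, h2, h3⟩ := S.snn_mem.1 (Finset.mem_coe.1 hx)
    rw [Finset.mem_coe, Finset.mem_filter, S.mem_bx, S.snn_nm_union h1]
    refine ⟨h3, ?_⟩
    rw [Finset.disjoint_biUnion_left]
    exact fun i _ => h2 i

theorem snn_NN_le (k : ℕ) (z : Finset S.P) (Y : ℝ) : S.NN k z Y ≤ (S.snnT k z Y).card := by
  unfold NN
  refine Finset.card_le_card fun x hx => ?_
  rw [S.snn_mem]
  exact (Finset.mem_filter.1 hx).2

/-- the tuples with an empty entry at a given place -/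
theorem snn_one (k : ℕ) (z : Finset S.P) (Y : ℝ) (i : Fin (k + 1)) :
    ((S.snnT (k + 1) z Y).filter (fun x => x i = ∅)).card ≤ (S.snnT k z Y).card := by
  refine Finset.card_le_card_of_injOn (fun x => fun j => x (i.succAbove j)) ?_ ?_
  · intro x hx
    obtain ⟨h1, h2⟩ := Finset.mem_filter.1 (Finset.mem_coe.1 hx)
    obtain ⟨h3, h4, h5⟩ := S.snn_mem.1 h1
    refine Finset.mem_coe.2 (S.snn_mem.2 ⟨fun j l hjl => h3 _ _ fun h => hjl ?_,
      fun j => h4 _, ?_⟩)
    · exact Fin.succAbove_right_injective h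
    · rw [Fin.prod_univ_succAbove _ i, h2, S.nm_empty, one_mul] at h5
      exact h5
  · intro x hx y hy h
    have h2 := (Finset.mem_filter.1 (Finset.mem_coe.1 hx)).2
    have h2' := (Finset.mem_filter.1 (Finset.mem_coe.1 hy)).2
    funext j
    rcases Fin.eq_self_or_eq_succAbove i j with rfl | ⟨j', rfl⟩
    · rw [h2, h2']
    · exact congrFun h j'

theorem snn_le_NN (k : ℕ) (z : Finset S.P) (Y : ℝ) :
    (S.snnT (k + 1) z Y).card ≤ S.NN (k + 1) z Y + (k + 1) * (S.snnT k z Y).card := by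
  have h1 : (S.snnT (k + 1) z Y).card ≤ S.NN (k + 1) z Y +
      (Finset.univ.biUnion fun i : Fin (k + 1) =>
        (S.snnT (k + 1) z Y).filter (fun x => x i = ∅)).card := by
    unfold NN
    refine (Finset.card_le_card (fun x hx => ?_)).trans (Finset.card_union_le _ _)
    rw [Finset.mem_union, Finset.mem_filter, Fintype.mem_piFinset]
    by_cases h : ∃ i, x i = ∅
    · right
      obtain ⟨i, hi⟩ := h
      exact Finset.mem_biUnion.2 ⟨i, Finset.mem_univ i, Finset.mem_filter.2 ⟨hx, hi⟩⟩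
    · left
      push Not at h
      refine ⟨fun j => ?_, S.snn_mem.1 hx⟩
      unfold snnT at hx
      rw [Finset.mem_filter, Fintype.mem_piFinset] at hx
      exact Finset.mem_erase.2 ⟨(h j).ne_empty, hx.1 j⟩
  refine h1.trans (Nat.add_le_add_left ?_ _)
  refine Finset.card_biUnion_le.trans ((Finset.sum_le_sum fun i _ => S.snn_one k z Y i).trans ?_)
  simp

end Pre

theorem snn_asymp_of (F : Sys) (k : ℕ) (z : Finset F.P)
    (h : ∃ C : ℝ, Tendsto (fun Y : ℝ => (∑ x ∈ F.bx Y, (if Disjoint x z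
      then ((k : ℝ) + 1) ^ x.card * ∏ p ∈ x, (1 : ℝ) else 0)) / (Y * Real.log Y ^ k))
      atTop (nhds C)) :
    ∃ C : ℝ, Tendsto (fun Y : ℝ => ((F.snnT (k + 1) z Y).card : ℝ) / (Y * Real.log Y ^ k))
      atTop (nhds C) := by
  obtain ⟨C, hC⟩ := h
  refine ⟨C, hC.congr fun Y => ?_⟩
  rw [F.snn_card, ← Finset.sum_filter]
  push_cast
  congr 1
  refine Finset.sum_congr rfl fun x _ => ?_
  rw [Finset.prod_const_one, mul_one]

theorem snn_zero_of (F : Sys) (z : Finset F.P)
    (h : ∀ k : ℕ, ∃ C : ℝ, Tendsto (fun Y : ℝ => (∑ x ∈ F.bx Y, (if Disjoint x z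
      then ((k : ℝ) + 1) ^ x.card * ∏ p ∈ x, (1 : ℝ) else 0)) / (Y * Real.log Y ^ k))
      atTop (nhds C)) (k : ℕ) :
    Tendsto (fun Y : ℝ => ((F.snnT k z Y).card : ℝ) / (Y * Real.log Y ^ k)) atTop (nhds 0) := by
  rcases k with _ | k
  · have h1 : ∀ Y : ℝ, ((F.snnT 0 z Y).card : ℝ) ≤ 1 := by
      intro Y
      have : (F.snnT 0 z Y).card ≤ 1 := Finset.card_le_one_of_subsingleton _
      exact_mod_cast this
    refine squeeze_zero' (g := fun x : ℝ => x⁻¹) ?_ ?_ tendsto_inv_atTop_zero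
    · filter_upwards [eventually_gt_atTop (0 : ℝ)] with x hx
      positivity
    · filter_upwards [eventually_gt_atTop (0 : ℝ)] with x hx
      rw [pow_zero, mul_one, div_eq_mul_inv]
      have : 0 ≤ x⁻¹ := by positivity
      nlinarith [h1 x]
  · obtain ⟨C, hC⟩ := snn_asymp_of F k z (h k)
    have h1 := hC.mul (Real.tendsto_log_atTop.inv_tendsto_atTop)
    rw [mul_zero] at h1
    refine h1.congr' ?_
    filter_upwards [eventually_gt_atTop (1 : ℝ)] with x hx
    have h2 : 0 < Real.log x := Real.log_pos hx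
    have h3 : 0 < x := by linarith
    simp only [Pi.inv_apply]
    field_simp
    ring

theorem NN_asymp_of (F : Sys) (z : Finset F.P)
    (h : ∀ k : ℕ, ∃ C : ℝ, Tendsto (fun Y : ℝ => (∑ x ∈ F.bx Y, (if Disjoint x z
      then ((k : ℝ) + 1) ^ x.card * ∏ p ∈ x, (1 : ℝ) else 0)) / (Y * Real.log Y ^ k))
      atTop (nhds C)) (k : ℕ) :
    ∃ C : ℝ,
    Tendsto (fun Y : ℝ => (F.NN (k + 1) z Y : ℝ) / (Y * Real.log Y ^ k)) atTop (nhds C) := by
  obtain ⟨C, hC⟩ := snn_asymp_of F k z (h k)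
  refine ⟨C, ?_⟩
  have h1 : Tendsto (fun x : ℝ => (((F.snnT (k + 1) z x).card : ℝ) - F.NN (k + 1) z x) /
      (x * Real.log x ^ k)) atTop (nhds 0) := by
    have h2 := (snn_zero_of F z h k).const_mul ((k : ℝ) + 1)
    rw [mul_zero] at h2
    refine squeeze_zero' ?_ ?_ h2
    · filter_upwards [eventually_gt_atTop (1 : ℝ)] with x hx
      have h3 : 0 < Real.log x := Real.log_pos hx
      have h4 : 0 < x := by linarith
      have h5 : (F.NN (k + 1) z x : ℝ) ≤ (F.snnT (k + 1) z x).card := by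
        exact_mod_cast F.snn_NN_le (k + 1) z x
      exact div_nonneg (by linarith) (by positivity)
    · filter_upwards [eventually_gt_atTop (1 : ℝ)] with x hx
      have h3 : 0 < Real.log x := Real.log_pos hx
      have h4 : 0 < x := by linarith
      have h5 : ((F.snnT (k + 1) z x).card : ℝ) ≤
          F.NN (k + 1) z x + (k + 1) * (F.snnT k z x).card := by
        exact_mod_cast F.snn_le_NN k z x
      rw [← mul_div_assoc]
      exact div_le_div_of_nonneg_right (by linarith) (by positivity)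
  have h2 := hC.sub h1
  rw [sub_zero] at h2
  refine h2.congr fun x => ?_
  rw [← sub_div]
  congr 1
  ring

end Pool.Agent.H98.MF
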