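import Pool.Agent.H98.MF.SBase
import Pool.Agent.H98.ML.PDefs

/-!
# Project MK4 (MP_a3214d), block SYS: definitions for positivity
-/

set_option autoImplicit false

open scoped BigOperators

namespace Pool.Agent.H98.MF

open Pool.Agent.H98.MK (sg)
open Pool.Agent.H98.ML (Dt Ext Wt)

/-- auxiliary primes -/
structure Pr (F : Sys) (D : Dt) where
  /-- the primes -/
  p : Fin D.r → F.P
  ty : ∀ k, F.ty (p k) = 0
  inj : Function.Injective p
  res : ∀ k l, k ≠ l → F.J (p k) (p l) = 0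

namespace Sys

variable (F : Sys) {D : Dt}

/-- the Frobenius vector of a prime for the auxiliary primes -/
def frob (π : Pr F D) (p : F.P) : D.V := fun k => F.J (π.p k) p

/-- the Frobenius vector of a finite set of primes -/
def frobs (π : Pr F D) (x : Finset F.P) : D.V := ∑ p ∈ x, F.frob π p

/-- the conditions at the auxiliary primes -/
def Cnd (π : Pr F D) (μ : D.V → Finset F.P) : Prop :=
  ∀ v, F.tys (μ v) = 0 ∧ F.frobs π (μ v) = 0

/-- prime to the auxiliary primes -/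
def Cop {ι : Type} (π : Pr F D) (x : ι → Finset F.P) : Prop := ∀ i k, π.p k ∉ x i

open Classical in
/-- the positive family -/
noncomputable def FF (w : Wt D) (π : Pr F D) (Y : ℝ) : ℝ :=
  ∑ y ∈ Fintype.piFinset (fun _ : Ext D => F.bx Y),
    if (∀ g, ¬ w.IsM g → y g = ∅) ∧ F.Dj y ∧ F.Cop π y ∧ (∏ g, (F.nm (y g) : ℝ)) ≤ Y ∧
      F.Cnd π (F.mV y) ∧
      ∀ g, ∀ p ∈ y g,
        D.B g.v (F.frob π p + ∑ u : D.V, (∑ q ∈ F.mV y u, F.J q p) • u) = 0
    then 1 else 0

open Classical in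
/-- the primes with a given nonzero vector, variables indexed by `D.P` -/
noncomputable def mP (x : D.P → Finset F.P) (v : D.V) : Finset F.P :=
  if v = 0 then ∅ else (Finset.univ.filter fun i : D.P => i.1.v = v).biUnion x

/-- the sign -/
def sgF (π : Pr F D) (x : D.P → Finset F.P) : ℤ :=
  sg (∑ i, ∑ j, D.e i j * F.JJ (x i) (x j) + ∑ i, i.2 ⬝ᵥ D.B i.1.v (F.frobs π (x i)))

open Classical in
/-- the part with exact support `σ` -/
noncomputable def FX (π : Pr F D) (σ : Finset D.P) (Y : ℝ) : ℝ :=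
  ∑ x ∈ Fintype.piFinset (fun i : D.P => if i ∈ σ then (F.bx Y).erase ∅ else {∅}),
    if F.Dj x ∧ F.Cop π x ∧ (∏ i, (F.nm (x i) : ℝ)) ≤ Y ∧ F.Cnd π (F.mP x)
    then (F.sgF π x : ℝ) else 0

open Classical in
/-- the nonnegative main part -/
noncomputable def GG (w : Wt D) (π : Pr F D) (Y : ℝ) : ℝ :=
  ∑ y ∈ Fintype.piFinset (fun _ : Ext D => F.bx Y),
    if (∀ g, ¬ (w.IsM g ∧ D.crep g = g) → y g = ∅) ∧ F.Dj y ∧ F.Cop π y ∧
      (∏ g, (F.nm (y g) : ℝ)) ≤ Y ∧ F.Cnd π (F.mV y)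
    then ∏ g, ∏ p ∈ y g, w.ff g.v (F.frob π p) else 0

end Sys

end Pool.Agent.H98.MF
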