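import Pool.Agent.H98.MF.SBase

/-!
# Project MK4 (MP_a3214d), row A9: coincidences of `k`-fold products
-/

set_option autoImplicit false

open scoped BigOperators
open Filter

namespace Pool.Agent.H98.MF

open Pool.Agent.H98.MK (sg)
open Pool.Agent.H98.ML (Dt Ext Wt)

open Classical in
/-- the number of tuples with a given total -/
theorem a9_fibre (S : Pre) (k : ℕ) (M : ℝ) (z : Fin k → Finset S.P) :
    ((Fintype.piFinset fun _ : Fin k => S.bx M).filter
      fun w => ∑ i, S.idf (z i) = ∑ i, S.idf (w i)).card ≤ ∏ i, (2 ^ k) ^ (z i).card := by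
  set U : Finset S.P := Finset.univ.biUnion z with hU
  have hsub : ((Fintype.piFinset fun _ : Fin k => S.bx M).filter
      fun w => ∑ i, S.idf (z i) = ∑ i, S.idf (w i)) ⊆
      Fintype.piFinset fun _ : Fin k => U.powerset := by
    intro w hw
    have hw2 := (Finset.mem_filter.1 hw).2
    rw [Fintype.mem_piFinset]
    intro i
    rw [Finset.mem_powerset]
    intro p hp
    have h1 : (∑ i, S.idf (z i)) p = (∑ i, S.idf (w i)) p := by rw [hw2]
    rw [Finsupp.finsetSum_apply, Finsupp.finsetSum_apply] at h1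
    have h2 : 1 ≤ ∑ i, S.idf (w i) p := by
      refine le_trans ?_ (Finset.single_le_sum (f := fun i => S.idf (w i) p)
        (fun _ _ => Nat.zero_le _) (Finset.mem_univ i))
      rw [S.idf_apply, if_pos hp]
    rw [hU, Finset.mem_biUnion]
    by_contra hcon
    push Not at hcon
    have h3 : ∑ i, S.idf (z i) p = 0 := by
      refine Finset.sum_eq_zero fun j _ => ?_
      rw [S.idf_apply, if_neg (hcon j (Finset.mem_univ j))]
    omega
  refine (Finset.card_le_card hsub).trans ?_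
  rw [Fintype.card_piFinset]
  simp only [Finset.card_powerset, Finset.prod_const, Finset.card_univ, Fintype.card_fin]
  have hc : U.card ≤ ∑ i, (z i).card := Finset.card_biUnion_le
  rw [Finset.prod_pow_eq_pow_sum, ← pow_mul, ← pow_mul]
  exact Nat.pow_le_pow_right (by norm_num) (by rw [mul_comm]; exact Nat.mul_le_mul_left k hc)

open Classical in
theorem pairs_of (F : Sys) (k : ℕ)
    (hhs : ∃ C : ℝ, ∀ t : ℝ, 1 ≤ t →
      ∑ x ∈ F.bx t, ((2 ^ k : ℕ) : ℝ) ^ x.card * F.hs x ^ 0 ≤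
        C * t * (1 + Real.log t) ^ (2 ^ k - 1)) :
    ∃ (C : ℝ) (E : ℕ), ∀ M : ℝ, 1 ≤ M →
    ((((Fintype.piFinset fun _ : Fin k => F.bx M) ×ˢ (Fintype.piFinset fun _ : Fin k => F.bx M)).filter
      fun z => ∑ i, F.idf (z.1 i) = ∑ i, F.idf (z.2 i)).card : ℝ) ≤
      C * M ^ k * (1 + Real.log M) ^ E := by
  obtain ⟨C, hC⟩ := hhs
  refine ⟨|C| ^ k, (2 ^ k - 1) * k, fun M hM => ?_⟩
  have hlog : 0 ≤ Real.log M := Real.log_nonneg hM
  have h1 : (((Fintype.piFinset fun _ : Fin k => F.bx M) ×ˢ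
      (Fintype.piFinset fun _ : Fin k => F.bx M)).filter
      fun z => ∑ i, F.idf (z.1 i) = ∑ i, F.idf (z.2 i)).card ≤
      ∑ z ∈ Fintype.piFinset fun _ : Fin k => F.bx M, ∏ i, (2 ^ k) ^ (z i).card := by
    rw [Finset.card_filter, Finset.sum_product]
    refine Finset.sum_le_sum fun z _ => ?_
    refine le_trans (le_of_eq ?_) (a9_fibre F.toPre k M z)
    rw [Finset.card_filter]
  have h2 : ∑ z ∈ Fintype.piFinset fun _ : Fin k => F.bx M, ∏ i, (2 ^ k) ^ (z i).card =
      (∑ x ∈ F.bx M, (2 ^ k) ^ x.card) ^ k := by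
    rw [← Finset.prod_univ_sum (fun _ : Fin k => F.bx M)
      (fun _ x => (2 ^ k) ^ x.card)]
    simp
  rw [h2] at h1
  have h3 : ((∑ x ∈ F.bx M, (2 ^ k) ^ x.card : ℕ) : ℝ) ≤
      |C| * M * (1 + Real.log M) ^ (2 ^ k - 1) := by
    have h4 := hC M hM
    simp only [pow_zero, mul_one] at h4
    push_cast at h4 ⊢
    refine h4.trans ?_
    have h5 : 0 ≤ M * (1 + Real.log M) ^ (2 ^ k - 1) := by positivity
    have h6 := mul_le_mul_of_nonneg_right (le_abs_self C) h5
    linarith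
  calc _ ≤ (((∑ x ∈ F.bx M, (2 ^ k) ^ x.card) ^ k : ℕ) : ℝ) := by exact_mod_cast h1
    _ = ((∑ x ∈ F.bx M, (2 ^ k) ^ x.card : ℕ) : ℝ) ^ k := by push_cast; rfl
    _ ≤ (|C| * M * (1 + Real.log M) ^ (2 ^ k - 1)) ^ k :=
        pow_le_pow_left₀ (Nat.cast_nonneg _) h3 k
    _ = |C| ^ k * M ^ k * (1 + Real.log M) ^ ((2 ^ k - 1) * k) := by
        rw [mul_pow, mul_pow, ← pow_mul]

end Pool.Agent.H98.MF
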