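import Pool.Agent.H98.MF.SBase

/-!
# Project MK4 (MP_a3214d), row A10: mean square over ideals
-/

set_option autoImplicit false

open scoped BigOperators symmDiff
open Filter

namespace Pool.Agent.H98.MF

open Pool.Agent.H98.MK (sg)
open Pool.Agent.H98.ML (Dt Ext Wt)

theorem a10_ex_symm (F : Sys) (y y' : Finset F.P) (p : F.P) :
    F.ex y 0 p + F.ex y' 0 p = F.ex (y ∆ y') 0 p := by
  unfold Sys.ex
  simp only [zero_dotProduct, add_zero]
  have h1 : ∑ q ∈ y ∆ y', F.J q p = ∑ q ∈ y \ y', F.J q p + ∑ q ∈ y' \ y, F.J q p := by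
    rw [← Finset.sum_union]
    · rfl
    · exact disjoint_sdiff_sdiff
  have h2 : ∑ q ∈ y, F.J q p = ∑ q ∈ y \ y', F.J q p + ∑ q ∈ y ∩ y', F.J q p := by
    rw [← Finset.sum_union (Finset.disjoint_sdiff_inter y y'), Finset.sdiff_union_inter]
  have h3 : ∑ q ∈ y', F.J q p = ∑ q ∈ y' \ y, F.J q p + ∑ q ∈ y ∩ y', F.J q p := by
    rw [Finset.inter_comm, ← Finset.sum_union (Finset.disjoint_sdiff_inter y' y),
      Finset.sdiff_union_inter]
  rw [h1, h2, h3]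
  have h4 : ∀ a b c : ZMod 2, a + b + (c + b) = a + c := by decide
  exact h4 _ _ _

theorem a10_mul (F : Sys) (y y' : Finset F.P) (f : F.P →₀ ℕ) :
    F.chv y (F.ex y 0) f * F.chv y' (F.ex y' 0) f =
      if Disjoint f.support (y ∩ y') then F.chv (y ∆ y') (F.ex (y ∆ y') 0) f else 0 := by
  have hsum : (f.sum fun p k => (k : ZMod 2) * F.ex y 0 p) +
      (f.sum fun p k => (k : ZMod 2) * F.ex y' 0 p) =
      f.sum fun p k => (k : ZMod 2) * F.ex (y ∆ y') 0 p := by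
    unfold Finsupp.sum
    rw [← Finset.sum_add_distrib]
    refine Finset.sum_congr rfl fun p _ => ?_
    simp only
    rw [← mul_add, a10_ex_symm]
  have hiff : (Disjoint f.support y ∧ Disjoint f.support y') ↔
      (Disjoint f.support (y ∩ y') ∧ Disjoint f.support (y ∆ y')) := by
    simp only [Finset.disjoint_left, Finset.mem_inter, Finset.mem_symmDiff]
    constructor
    · rintro ⟨h1, h2⟩
      exact ⟨fun p hp h => h1 hp h.1, fun p hp h => h.elim (fun h => h1 hp h.1)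
        fun h => h2 hp h.1⟩
    · rintro ⟨h1, h2⟩
      constructor
      · intro p hp hy
        by_cases hy' : p ∈ y'
        · exact h1 hp ⟨hy, hy'⟩
        · exact h2 hp (Or.inl ⟨hy, hy'⟩)
      · intro p hp hy'
        by_cases hy : p ∈ y
        · exact h1 hp ⟨hy, hy'⟩
        · exact h2 hp (Or.inr ⟨hy', hy⟩)
  unfold Pre.chv
  by_cases h1 : Disjoint f.support y
  · by_cases h2 : Disjoint f.support y'
    · have h3 := hiff.1 ⟨h1, h2⟩
      rw [if_pos h1, if_pos h2, if_pos h3.1, if_pos h3.2, ← sg_add, hsum]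
    · rw [if_neg h2, mul_zero]
      split_ifs with h3 h4
      · exact absurd (hiff.2 ⟨h3, h4⟩).2 h2
      · rfl
      · rfl
  · rw [if_neg h1, zero_mul]
    split_ifs with h3 h4
    · exact absurd (hiff.2 ⟨h3, h4⟩).1 h1
    · rfl
    · rfl

theorem a10_abs_chv (S : Pre) (y : Finset S.P) (g : S.P → ZMod 2) (f : S.P →₀ ℕ) :
    |(S.chv y g f : ℝ)| ≤ 1 := by
  unfold Pre.chv
  split_ifs
  · exact (abs_sgr _).le
  · simp

/-- the kernel -/
noncomputable def a10_k (F : Sys) (X : ℝ) (y y' : Finset F.P) : ℝ :=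
  ∑ f ∈ F.idl X, (F.chv y (F.ex y 0) f : ℝ) * (F.chv y' (F.ex y' 0) f : ℝ)

theorem a10_expand (F : Sys) (X K : ℝ) (b : Finset F.P → ℝ) :
    ∑ f ∈ F.idl X, (∑ y ∈ F.bx K, b y * (F.chv y (F.ex y 0) f : ℝ)) ^ 2 =
      ∑ y ∈ F.bx K, ∑ y' ∈ F.bx K, b y * b y' * a10_k F X y y' := by
  have h1 : ∀ f : F.P →₀ ℕ, (∑ y ∈ F.bx K, b y * (F.chv y (F.ex y 0) f : ℝ)) ^ 2 =
      ∑ y ∈ F.bx K, ∑ y' ∈ F.bx K, b y * b y' *
        ((F.chv y (F.ex y 0) f : ℝ) * (F.chv y' (F.ex y' 0) f : ℝ)) := by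
    intro f
    rw [sq, Finset.sum_mul_sum]
    refine Finset.sum_congr rfl fun y _ => Finset.sum_congr rfl fun y' _ => ?_
    ring
  rw [Finset.sum_congr rfl fun f _ => h1 f, Finset.sum_comm]
  refine Finset.sum_congr rfl fun y _ => ?_
  rw [Finset.sum_comm]
  refine Finset.sum_congr rfl fun y' _ => ?_
  unfold a10_k
  rw [Finset.mul_sum]

theorem a10_diag (F : Sys) (X : ℝ) (y y' : Finset F.P) :
    |a10_k F X y y'| ≤ ((F.idl X).card : ℝ) := by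
  unfold a10_k
  refine (Finset.abs_sum_le_sum_abs _ _).trans ?_
  rw [Finset.card_eq_sum_ones]
  push_cast
  refine Finset.sum_le_sum fun f _ => ?_
  rw [abs_mul]
  exact mul_le_one₀ (a10_abs_chv _ _ _ _) (abs_nonneg _) (a10_abs_chv _ _ _ _)

theorem a10_off (F : Sys) (C : ℝ) (hC : 0 ≤ C)
    (hcop : ∀ (y z : Finset F.P) (c : F.T), (y.Nonempty ∨ c ≠ 0) → ∀ X : ℝ, 1 ≤ X →
      |∑ f ∈ F.idl X, (if Disjoint f.support z then (F.chv y (F.ex y c) f : ℝ) else 0)| ≤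
        C * (F.nm y : ℝ) ^ F.A * F.hs z * X ^ (1 - F.dl))
    (X K : ℝ) (hX : 1 ≤ X) (hK : 1 ≤ K) (y y' : Finset F.P) (hy : y ∈ F.bx K)
    (hy' : y' ∈ F.bx K) (hne : y ≠ y') :
    |a10_k F X y y'| ≤ C * K ^ (2 * F.A) * F.hs y * X ^ (1 - F.dl) := by
  have hK0 : 0 < K := by linarith
  have h1 : a10_k F X y y' = ∑ f ∈ F.idl X,
      (if Disjoint f.support (y ∩ y') then (F.chv (y ∆ y') (F.ex (y ∆ y') 0) f : ℝ) else 0) := by
    unfold a10_k
    refine Finset.sum_congr rfl fun f _ => ?_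
    have h2 := a10_mul F y y' f
    have h3 : ((F.chv y (F.ex y 0) f * F.chv y' (F.ex y' 0) f : ℤ) : ℝ) =
        ((if Disjoint f.support (y ∩ y') then F.chv (y ∆ y') (F.ex (y ∆ y') 0) f else 0 : ℤ) :
          ℝ) := by rw [h2]
    push_cast at h3
    exact h3
  have hnon : (y ∆ y').Nonempty := by
    rw [Finset.nonempty_iff_ne_empty]
    intro h
    exact hne (symmDiff_eq_bot.1 h)
  rw [h1]
  refine (hcop (y ∆ y') (y ∩ y') 0 (Or.inl hnon) X hX).trans ?_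
  have h4 : (F.nm (y ∆ y') : ℝ) ≤ K ^ (2 : ℝ) := by
    have h5 : F.nm (y ∆ y') ≤ F.nm y * F.nm y' := by
      refine (F.nm_mono ?_).trans (F.nm_union_le y y')
      intro p hp
      rw [Finset.mem_symmDiff] at hp
      rw [Finset.mem_union]
      exact hp.elim (fun h => Or.inl h.1) fun h => Or.inr h.1
    have h6 := F.mem_bx.1 hy
    have h7 := F.mem_bx.1 hy'
    calc (F.nm (y ∆ y') : ℝ) ≤ (F.nm y : ℝ) * F.nm y' := by exact_mod_cast h5
      _ ≤ K * K := mul_le_mul h6 h7 (Nat.cast_nonneg _) hK0.le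
      _ = K ^ (2 : ℝ) := by rw [Real.rpow_two, sq]
  have h5 : (F.nm (y ∆ y') : ℝ) ^ F.A ≤ K ^ (2 * F.A) := by
    rw [Real.rpow_mul hK0.le]
    exact Real.rpow_le_rpow (Nat.cast_nonneg _) h4 F.A_nonneg
  have h6 : F.hs (y ∩ y') ≤ F.hs y := F.hs_mono Finset.inter_subset_left
  have h7 : 0 ≤ F.hs (y ∩ y') := le_trans zero_le_one (F.one_le_hs _)
  have h8 : 0 ≤ X ^ (1 - F.dl) := Real.rpow_nonneg (by linarith) _
  have h9 : 0 ≤ K ^ (2 * F.A) := Real.rpow_nonneg hK0.le _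
  refine mul_le_mul_of_nonneg_right ?_ h8
  refine mul_le_mul ?_ h6 h7 (mul_nonneg hC h9)
  exact mul_le_mul_of_nonneg_left h5 hC

theorem sieve_of (F : Sys)
    (hcop : ∃ C : ℝ, 0 ≤ C ∧ ∀ (y z : Finset F.P) (c : F.T),
      (y.Nonempty ∨ c ≠ 0) → ∀ X : ℝ, 1 ≤ X →
      |∑ f ∈ F.idl X, (if Disjoint f.support z then (F.chv y (F.ex y c) f : ℝ) else 0)| ≤
        C * (F.nm y : ℝ) ^ F.A * F.hs z * X ^ (1 - F.dl))
    (hidl : ∃ C : ℝ, ∀ t : ℝ, 1 ≤ t → ((F.idl t).card : ℝ) ≤ C * t)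
    (hbx : ∃ C : ℝ, ∀ t : ℝ, 1 ≤ t → ((F.bx t).card : ℝ) ≤ C * t)
    (hhs : ∃ C : ℝ, ∀ t : ℝ, 1 ≤ t → ∑ x ∈ F.bx t, F.hs x ≤ C * t) :
    ∃ C : ℝ, ∀ (X K : ℝ) (b : Finset F.P → ℝ), 1 ≤ X → 1 ≤ K →
    (∀ y, |b y| ≤ 1) →
    ∑ f ∈ F.idl X, (∑ y ∈ F.bx K, b y * (F.chv y (F.ex y 0) f : ℝ)) ^ 2 ≤
      C * (X * K + K ^ (2 * F.A + 2) * X ^ (1 - F.dl)) := by
  obtain ⟨C, hC, h1⟩ := hcop
  obtain ⟨C1, h2⟩ := hidl
  obtain ⟨C3, h3⟩ := hbx
  obtain ⟨C4, h4⟩ := hhs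
  refine ⟨|C1| * |C3| + C * |C4| * |C3|, fun X K b hX hK hb => ?_⟩
  have hK0 : 0 < K := by linarith
  have hX0 : 0 < X := by linarith
  have hx : 0 ≤ X ^ (1 - F.dl) := Real.rpow_nonneg hX0.le _
  have hk : 0 ≤ K ^ (2 * F.A) := Real.rpow_nonneg hK0.le _
  have a1 : ((F.idl X).card : ℝ) ≤ |C1| * X :=
    (h2 X hX).trans (mul_le_mul_of_nonneg_right (le_abs_self _) hX0.le)
  have a3 : ((F.bx K).card : ℝ) ≤ |C3| * K :=
    (h3 K hK).trans (mul_le_mul_of_nonneg_right (le_abs_self _) hK0.le)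
  have a4 : ∑ y ∈ F.bx K, F.hs y ≤ |C4| * K :=
    (h4 K hK).trans (mul_le_mul_of_nonneg_right (le_abs_self _) hK0.le)
  rw [a10_expand]
  have hterm : ∀ y ∈ F.bx K, ∀ y' ∈ F.bx K, b y * b y' * a10_k F X y y' ≤
      (if y = y' then |C1| * X else 0) + C * K ^ (2 * F.A) * F.hs y * X ^ (1 - F.dl) := by
    intro y hy y' hy'
    have hle : b y * b y' * a10_k F X y y' ≤ |a10_k F X y y'| := by
      refine (le_abs_self _).trans ?_
      rw [abs_mul, abs_mul]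
      exact mul_le_of_le_one_left (abs_nonneg _) (mul_le_one₀ (hb y) (abs_nonneg _) (hb y'))
    have hnn : 0 ≤ C * K ^ (2 * F.A) * F.hs y * X ^ (1 - F.dl) := by
      have h7 : 0 ≤ F.hs y := le_trans zero_le_one (F.one_le_hs _)
      positivity
    by_cases h : y = y'
    · rw [if_pos h]
      have := (a10_diag F X y y').trans a1
      linarith
    · rw [if_neg h, zero_add]
      exact hle.trans (a10_off F C hC h1 X K hX hK y y' hy hy' h)
  refine (Finset.sum_le_sum fun y hy => Finset.sum_le_sum fun y' hy' => hterm y hy y' hy').trans ?_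
  have e1 : ∑ y ∈ F.bx K, ∑ y' ∈ F.bx K, ((if y = y' then |C1| * X else 0) +
      C * K ^ (2 * F.A) * F.hs y * X ^ (1 - F.dl)) =
      ((F.bx K).card : ℝ) * (|C1| * X) +
      ((F.bx K).card : ℝ) * (C * K ^ (2 * F.A) * X ^ (1 - F.dl)) * ∑ y ∈ F.bx K, F.hs y := by
    have e2 : ∀ y ∈ F.bx K, ∑ y' ∈ F.bx K, ((if y = y' then |C1| * X else 0) +
        C * K ^ (2 * F.A) * F.hs y * X ^ (1 - F.dl)) = |C1| * X +
        ((F.bx K).card : ℝ) * (C * K ^ (2 * F.A) * X ^ (1 - F.dl)) * F.hs y := by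
      intro y hy
      rw [Finset.sum_add_distrib, Finset.sum_ite_eq, if_pos hy, Finset.sum_const, nsmul_eq_mul]
      ring
    rw [Finset.sum_congr rfl e2, Finset.sum_add_distrib, Finset.sum_const, nsmul_eq_mul,
      ← Finset.mul_sum]
  rw [e1]
  have e3 : K ^ (2 * F.A + 2) = K ^ (2 * F.A) * (K * K) := by
    rw [Real.rpow_add hK0, Real.rpow_two, sq]
  have hhs0 : 0 ≤ ∑ y ∈ F.bx K, F.hs y :=
    Finset.sum_nonneg fun y _ => le_trans zero_le_one (F.one_le_hs _)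
  have t1 : ((F.bx K).card : ℝ) * (|C1| * X) ≤ |C1| * |C3| * (X * K) := by
    have := mul_le_mul_of_nonneg_right a3 (mul_nonneg (abs_nonneg C1) hX0.le)
    linarith
  have t2 : ((F.bx K).card : ℝ) * (C * K ^ (2 * F.A) * X ^ (1 - F.dl)) *
      ∑ y ∈ F.bx K, F.hs y ≤ C * |C4| * |C3| * (K ^ (2 * F.A + 2) * X ^ (1 - F.dl)) := by
    rw [e3]
    calc ((F.bx K).card : ℝ) * (C * K ^ (2 * F.A) * X ^ (1 - F.dl)) * ∑ y ∈ F.bx K, F.hs y
        ≤ (|C3| * K) * (C * K ^ (2 * F.A) * X ^ (1 - F.dl)) * (|C4| * K) := by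
          refine mul_le_mul (mul_le_mul_of_nonneg_right a3 (by positivity)) a4 hhs0 ?_
          positivity
      _ = _ := by ring
  have p1 : 0 ≤ X * K := by positivity
  have p2 : 0 ≤ K ^ (2 * F.A + 2) * X ^ (1 - F.dl) := by
    have := Real.rpow_nonneg hK0.le (2 * F.A + 2)
    positivity
  have q1 : 0 ≤ |C1| * |C3| := by positivity
  have q2 : 0 ≤ C * |C4| * |C3| := by positivity
  nlinarith [mul_nonneg q1 p2, mul_nonneg q2 p1]

end Pool.Agent.H98.MF
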