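import Pool.Agent.H98.MF.SSgnPsi

/-!
# Project MK4 (MP_a3214d), block SYS, row E4: the sum is a finite combination of the basic sums
-/

set_option autoImplicit false

open scoped BigOperators

namespace Pool.Agent.H98.MF

open Pool.Agent.H98.MK (sg)
open Pool.Agent.H98.ML (Dt Ext Wt)

theorem S_eq_Sx (F : Sys) {D : Dt} (w : Wt D)
    (θ : (Fin F.m → D.V) → (D.V → F.T) → Finset D.V → ℝ) (Y : ℝ) :
    F.S w θ Y = F.Sx w (fun _ => {0}) θ Y := by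
  classical
  unfold Sys.S Sys.Sx
  refine Finset.sum_congr rfl fun a _ => Finset.sum_congr rfl fun x _ => ?_
  have h1 : ∏ g, ∏ p ∈ x g, ((∑ ξ ∈ ({0} : Finset F.T), sg (ξ ⬝ᵥ F.ty p) : ℤ) : ℝ) = 1 := by
    refine Finset.prod_eq_one fun g _ => Finset.prod_eq_one fun p _ => ?_
    rw [Finset.sum_singleton, zero_dotProduct, sg_zero, Int.cast_one]
  rw [h1, one_mul]

theorem sx_congr (F : Sys) {D : Dt} (w : Wt D) (σ : Finset (F.IX D)) (Y : ℝ)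
    (h h' : (F.IX D → Finset F.P) → ℝ)
    (H : ∀ x : F.IX D → Finset F.P, (∀ i, (x i).Nonempty ↔ i ∈ σ) → F.Dj x → h x = h' x) :
    F.SX w σ Y h = F.SX w σ Y h' := by
  classical
  unfold Sys.SX
  refine Finset.sum_congr rfl fun x hx => ?_
  split_ifs with hc
  · refine H x (fun i => ?_) hc.1
    have h1 := Fintype.mem_piFinset.1 hx i
    by_cases hi : i ∈ σ
    · rw [if_pos hi, Finset.mem_erase] at h1
      exact ⟨fun _ => hi, fun _ => Finset.nonempty_iff_ne_empty.2 h1.1⟩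
    · rw [if_neg hi, Finset.mem_singleton] at h1
      rw [h1]
      exact ⟨fun h2 => absurd rfl (Finset.nonempty_iff_ne_empty.1 h2), fun h2 => absurd h2 hi⟩
  · rfl

theorem sx_sum (F : Sys) {D : Dt} (w : Wt D) (σ : Finset (F.IX D)) (Y : ℝ) {κ : Type}
    (C : Finset κ) (a : κ → ℝ) (h : κ → (F.IX D → Finset F.P) → ℝ) :
    F.SX w σ Y (fun x => ∑ c ∈ C, a c * h c x) = ∑ c ∈ C, a c * F.SX w σ Y (h c) := by
  classical
  unfold Sys.SX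
  simp_rw [Finset.mul_sum]
  rw [Finset.sum_comm]
  refine Finset.sum_congr rfl fun x _ => ?_
  split_ifs with hc
  · rfl
  · simp

open Classical in
/-- one support: a function of the types times the symbols is a combination of basic sums -/
theorem sx_fun (F : Sys) {D : Dt} (w : Wt D) (Ξ : Ext D → Finset F.T) (σ : Finset (F.IX D))
    (f : (F.IX D → F.T) → ℝ) (Y : ℝ)
    (hfourier : ∀ u ∈ F.UT σ,
      f u = ∑ c ∈ F.UT σ, ((1 / 2 ^ F.m) ^ σ.card *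
      ∑ u' ∈ F.UT σ, f u' * ((sg (∑ i ∈ σ, c i ⬝ᵥ u' i) : ℤ) : ℝ)) *
        ((sg (∑ i ∈ σ, c i ⬝ᵥ u i) : ℤ) : ℝ))
    (hSX : ∀ c : F.IX D → F.T,
      F.SX w σ Y (fun x => ((sg (∑ i ∈ σ, c i ⬝ᵥ F.tys (x i)) : ℤ) : ℝ) *
        (∏ i ∈ F.act w Ξ, F.kap w i (x i)) * (F.jp (fun i j : F.IX D => D.L i.1 j.1) x : ℝ)) =
      F.TS w σ c Y) :
    F.SX w σ Y (fun x => f (fun i => F.tys (x i)) * (∏ i ∈ F.act w Ξ, F.kap w i (x i)) *
        (F.jp (fun i j : F.IX D => D.L i.1 j.1) x : ℝ)) =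
      ∑ c ∈ F.UT σ, ((1 / 2 ^ F.m) ^ σ.card *
        ∑ u ∈ F.UT σ, f u * ((sg (∑ i ∈ σ, c i ⬝ᵥ u i) : ℤ) : ℝ)) * F.TS w σ c Y := by
  have h1 : F.SX w σ Y (fun x => f (fun i => F.tys (x i)) *
        (∏ i ∈ F.act w Ξ, F.kap w i (x i)) *
        (F.jp (fun i j : F.IX D => D.L i.1 j.1) x : ℝ)) =
      F.SX w σ Y (fun x => ∑ c ∈ F.UT σ, ((1 / 2 ^ F.m) ^ σ.card *
        ∑ u ∈ F.UT σ, f u * ((sg (∑ i ∈ σ, c i ⬝ᵥ u i) : ℤ) : ℝ)) *
        (((sg (∑ i ∈ σ, c i ⬝ᵥ F.tys (x i)) : ℤ) : ℝ) *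
        (∏ i ∈ F.act w Ξ, F.kap w i (x i)) *
        (F.jp (fun i j : F.IX D => D.L i.1 j.1) x : ℝ))) := by
    refine sx_congr F w σ Y _ _ fun x hx hd => ?_
    have h2 : (fun i => F.tys (x i)) ∈ F.UT σ := by
      unfold Sys.UT
      rw [Fintype.mem_piFinset]
      intro i
      by_cases hi : i ∈ σ
      · rw [if_pos hi]
        exact Finset.mem_univ _
      · rw [if_neg hi, Finset.mem_singleton]
        have h3 : x i = ∅ := by
          by_contra h4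
          exact hi ((hx i).1 (Finset.nonempty_iff_ne_empty.2 h4))
        rw [h3, F.tys_empty]
    rw [hfourier _ h2, Finset.sum_mul, Finset.sum_mul]
    refine Finset.sum_congr rfl fun c _ => ?_
    ring
  rw [h1, sx_sum]
  refine Finset.sum_congr rfl fun c _ => ?_
  rw [hSX]

open Classical in
theorem Sx_expand_of (F : Sys) {D : Dt} (w : Wt D) (Ξ : Ext D → Finset F.T)
    (θ : (Fin F.m → D.V) → (D.V → F.T) → Finset D.V → ℝ) (Y : ℝ)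
    (hexpand : F.Sx w Ξ θ Y = ∑ a : Fin F.m → D.V,
      ∑ x ∈ Fintype.piFinset (fun _ : F.IX D => F.bx Y),
        if (∀ i, i ∉ F.act w Ξ → x i = ∅) ∧ F.Dj x ∧
          ∏ i, (F.nm (x i) : ℝ) ^ w.wt i.1.1 ≤ Y
        then (F.sgn a x : ℝ) * (∏ i ∈ F.act w Ξ, F.kap w i (x i)) *
          θ a (fun v => F.tys (F.mof x v)) (Finset.univ.filter fun v => (F.mof x v).Nonempty)
        else 0)
    (hsplit : ∀ h : (F.IX D → Finset F.P) → ℝ,
      ∑ x ∈ Fintype.piFinset (fun _ : F.IX D => F.bx Y),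
        (if (∀ i, i ∉ F.act w Ξ → x i = ∅) ∧ F.Dj x ∧
          ∏ i, (F.nm (x i) : ℝ) ^ w.wt i.1.1 ≤ Y then h x else 0) =
      ∑ σ ∈ (F.act w Ξ).powerset, F.SX w σ Y h)
    (hfourier : ∀ (σ : Finset (F.IX D)) (f : (F.IX D → F.T) → ℝ), ∀ u ∈ F.UT σ,
      f u = ∑ c ∈ F.UT σ, ((1 / 2 ^ F.m) ^ σ.card *
      ∑ u' ∈ F.UT σ, f u' * ((sg (∑ i ∈ σ, c i ⬝ᵥ u' i) : ℤ) : ℝ)) *
        ((sg (∑ i ∈ σ, c i ⬝ᵥ u i) : ℤ) : ℝ))
    (hSX : ∀ σ : Finset (F.IX D), σ ⊆ F.act w Ξ → ∀ c : F.IX D → F.T,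
      F.SX w σ Y (fun x => ((sg (∑ i ∈ σ, c i ⬝ᵥ F.tys (x i)) : ℤ) : ℝ) *
        (∏ i ∈ F.act w Ξ, F.kap w i (x i)) * (F.jp (fun i j : F.IX D => D.L i.1 j.1) x : ℝ)) =
      F.TS w σ c Y) :
    F.Sx w Ξ θ Y = ∑ a : Fin F.m → D.V, ∑ σ ∈ (F.act w Ξ).powerset,
      ∑ c ∈ F.UT σ, F.coef θ a σ c * F.TS w σ c Y := by
  rw [hexpand]
  refine Finset.sum_congr rfl fun a _ => ?_
  rw [hsplit]
  refine Finset.sum_congr rfl fun σ hσ => ?_
  have h0 : σ ⊆ F.act w Ξ := Finset.mem_powerset.1 hσ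
  have h1 : F.SX w σ Y (fun x => (F.sgn a x : ℝ) * (∏ i ∈ F.act w Ξ, F.kap w i (x i)) *
        θ a (fun v => F.tys (F.mof x v)) (Finset.univ.filter fun v => (F.mof x v).Nonempty)) =
      F.SX w σ Y (fun x => F.Psi θ a σ (fun i => F.tys (x i)) *
        (∏ i ∈ F.act w Ξ, F.kap w i (x i)) *
        (F.jp (fun i j : F.IX D => D.L i.1 j.1) x : ℝ)) := by
    refine sx_congr F w σ Y _ _ fun x hx hd => ?_
    rw [mul_right_comm, sgn_psi F θ a σ x hx hd]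
    ring
  rw [h1, sx_fun F w Ξ σ (F.Psi θ a σ) Y (hfourier σ _) (hSX σ h0)]
  rfl

end Pool.Agent.H98.MF
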