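import Pool.Agent.H98.MF.SPDefs

/-!
# Project MK4 (MP_a3214d), row E6: limits of the basic sums
-/

set_option autoImplicit false

open scoped BigOperators
open Filter

namespace Pool.Agent.H98.MF

open Pool.Agent.H98.MK (sg)
open Pool.Agent.H98.ML (Dt Ext Wt)

theorem e6_zmod (x y : ZMod 2) : (¬ (x = 1 ∧ y = 0) ∧ ¬ (y = 1 ∧ x = 0)) ↔ x = y := by
  revert x y
  decide

theorem e6_wt {D : Dt} (w : Wt D) {g : Ext D} (hg : g ≠ 1) : w.wt g = 1 ↔ w.ind g = w.m := by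
  have hm : (0 : ℝ) < w.m := by exact_mod_cast w.pos
  rw [Wt.wt, if_neg hg, div_eq_one_iff_eq hm.ne']
  exact Nat.cast_inj

theorem e6_one_le {D : Dt} (w : Wt D) (g : Ext D) : 1 ≤ w.wt g := by
  have hm : (0 : ℝ) < w.m := by exact_mod_cast w.pos
  rw [Wt.wt]
  split_ifs with hg
  · exact le_rfl
  · rw [one_le_div hm]
    exact_mod_cast w.min g hg

theorem e6_ne_one (F : Sys) {D : Dt} (w : Wt D) (Ξ : Ext D → Finset F.T) {i : F.IX D}
    (hi : i ∈ F.act w Ξ) : i.1.1 ≠ 1 := by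
  classical
  have h1 : i.1 ∈ w.act := by
    rw [Sys.act, Finset.mem_filter] at hi
    exact hi.2.1
  rw [Wt.act, Finset.mem_filter] at h1
  exact h1.2.1

theorem e6_cardR (F : Sys) {D : Dt} (w : Wt D) (Ξ : Ext D → Finset F.T) (σ : Finset (F.IX D))
    (hσ : σ ⊆ F.act w Ξ) (c : F.IX D → F.T) :
    Nat.card {i : {i // i ∈ σ} // F.Free (fun i : {i // i ∈ σ} => w.wt i.1.1.1)
      (fun i j => D.L i.1.1 j.1.1) (fun i => c i.1) i} = (F.R w σ c).card := by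
  classical
  have hcard : Nat.card {i // i ∈ F.R w σ c} = (F.R w σ c).card := by
    rw [Nat.card_eq_fintype_card, Fintype.card_coe]
  rw [← hcard]
  refine Nat.card_congr ⟨fun i => ⟨i.1.1, ?_⟩, fun i => ⟨⟨i.1, ?_⟩, ?_⟩, fun i => rfl,
    fun i => rfl⟩
  · obtain ⟨⟨i, hi⟩, h1, h2, h3⟩ := i
    rw [Sys.R, Finset.mem_filter]
    refine ⟨hi, (e6_wt w (e6_ne_one F w Ξ (hσ hi))).1 h1, h2, fun j hj => ?_⟩
    exact (e6_zmod _ _).1 (h3 ⟨j, hj⟩)
  · exact (Finset.mem_filter.1 i.2).1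
  · obtain ⟨i, hi⟩ := i
    have h0 := (Finset.mem_filter.1 hi).1
    have h := (Finset.mem_filter.1 hi).2
    refine ⟨(e6_wt w (e6_ne_one F w Ξ (hσ h0))).2 h.1, h.2.1, fun j => ?_⟩
    exact (e6_zmod _ _).2 (h.2.2 j.1 j.2)

theorem e6_log (f : ℝ → ℝ) (C : ℝ) (k K : ℕ) (hk : k ≤ K)
    (hf : Tendsto (fun Y : ℝ => f Y / (Y * Real.log Y ^ k)) atTop (nhds C)) :
    ∃ C' : ℝ, Tendsto (fun Y : ℝ => f Y / (Y * Real.log Y ^ K)) atTop (nhds C') := by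
  obtain ⟨d, rfl⟩ := Nat.exists_eq_add_of_le hk
  have h1 : ∃ C1 : ℝ, Tendsto (fun Y : ℝ => (Real.log Y ^ d)⁻¹) atTop (nhds C1) := by
    rcases Nat.eq_zero_or_pos d with rfl | hd
    · exact ⟨1, by simp⟩
    · exact ⟨0, ((tendsto_pow_atTop hd.ne').comp Real.tendsto_log_atTop).inv_tendsto_atTop⟩
  obtain ⟨C1, hC1⟩ := h1
  refine ⟨C * C1, (hf.mul hC1).congr fun Y => ?_⟩
  rw [pow_add, div_eq_mul_inv, div_eq_mul_inv, mul_inv, mul_inv, mul_inv]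
  ring

theorem e6_kap (F : Sys) {D : Dt} (w : Wt D) (i : F.IX D) (x : Finset F.P) :
    |F.kap w i x| ≤ 1 := by
  unfold Sys.kap
  split_ifs
  · norm_num
  · rw [abs_of_nonneg (by positivity)]
    apply pow_le_one₀ (by positivity)
    rw [div_le_one (by positivity)]
    exact one_le_pow₀ (by norm_num)

theorem e6_aw (F : Sys) {D : Dt} (w : Wt D) (c : F.IX D → F.T) (i : F.IX D) (x : Finset F.P) :
    |F.aw w c i x| ≤ 1 := by
  unfold Sys.aw
  split_ifs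
  · rw [abs_mul]
    exact mul_le_one₀ (F.abs_ps _ _).le (abs_nonneg _) (e6_kap F w i x)
  · norm_num

/-- the trivial bound -/
theorem e6_GW_le (F : Sys) {ι : Type} [Fintype ι] (w : ι → ℝ) (L : ι → ι → Prop)
    (a : ι → Finset F.P → ℝ) (ha : ∀ i x, |a i x| ≤ 1) (Y Y0 : ℝ) (hY : Y ≤ Y0) :
    |F.GW w L a Y| ≤ ((F.bx Y0).card : ℝ) ^ Fintype.card ι := by
  classical
  unfold Sys.GW
  refine (Finset.abs_sum_le_sum_abs _ _).trans ?_
  have h1 : ∀ x ∈ Fintype.piFinset (fun _ : ι => F.bx Y),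
      |if F.Dj x ∧ ∏ i, (F.nm (x i) : ℝ) ^ w i ≤ Y
        then (∏ i, a i (x i)) * (F.jp L x : ℝ) else 0| ≤ 1 := by
    intro x _
    split_ifs
    · rw [abs_mul, F.abs_jp, mul_one, Finset.abs_prod]
      exact Finset.prod_le_one (fun i _ => abs_nonneg _) fun i _ => ha i _
    · rw [abs_zero]
      exact zero_le_one
  have h2 := Finset.sum_le_sum h1
  rw [Finset.sum_const, nsmul_eq_mul, mul_one] at h2
  refine le_trans (le_of_eq_of_le ?_ h2) ?_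
  · exact Finset.sum_congr (by congr) fun _ _ => rfl
  · have h3 : (Fintype.piFinset (fun _ : ι => F.bx Y)).card ≤ (F.bx Y0).card ^ Fintype.card ι := by
      rw [Fintype.card_piFinset]
      simp only [Finset.prod_const, Finset.card_univ]
      exact Nat.pow_le_pow_left (Finset.card_le_card (F.bx_mono hY)) _
    have h4 : ((Fintype.piFinset (fun _ : ι => F.bx Y)).card : ℝ) ≤
        (((F.bx Y0).card ^ Fintype.card ι : ℕ) : ℝ) := by exact_mod_cast h3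
    refine le_trans (le_of_eq ?_) (h4.trans (le_of_eq (by push_cast; rfl)))
    congr

theorem e6_GW_bdd (F : Sys) {ι : Type} [Fintype ι] (w : ι → ℝ) (L : ι → ι → Prop)
    (a : ι → Finset F.P → ℝ) (ha : ∀ i x, |a i x| ≤ 1) (Y0 : ℝ) :
    ∃ B : ℝ, 0 ≤ B ∧ ∀ Y, Y ≤ Y0 → |F.GW w L a Y| ≤ B :=
  ⟨((F.bx Y0).card : ℝ) ^ Fintype.card ι, by positivity, fun Y hY => e6_GW_le F w L a ha Y Y0 hY⟩

theorem e6_TS_bdd (F : Sys) {D : Dt} (w : Wt D) (σ : Finset (F.IX D)) (c : F.IX D → F.T)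
    (Y0 : ℝ) : ∃ B : ℝ, 0 ≤ B ∧ ∀ Y, Y ≤ Y0 → |F.TS w σ c Y| ≤ B := by
  exact e6_GW_bdd F (ι := {i // i ∈ σ}) (fun i => w.wt i.1.1.1) (fun i j => D.L i.1.1 j.1.1)
    (fun i x => F.aw w c i.1 x) (fun i x => e6_aw F w c i.1 x) Y0

/-- Row A22. -/
def E6ATS (F : Sys) : Prop := ∀ (ι : Type) [Fintype ι] (w : ι → ℝ), (∀ i, 1 ≤ w i) →
    ∀ (L : ι → ι → Prop), (∀ i j, L i j → ¬ L j i) → ∀ (c : ι → F.T)
    (a : ι → Finset F.P → ℝ), (∀ l x, |a l x| ≤ 1) → (∀ l x, a l x ≠ 0 → x.Nonempty) →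
    (∀ i, w i = 1 → ∀ x, a i x = if x.Nonempty then (F.ps (c i) x : ℝ) else 0) →
    (∀ k, Nat.card {l // F.Free w L c l} = k + 1 → ∃ C : ℝ,
      Tendsto (fun Y : ℝ => F.GW w L a Y / (Y * Real.log Y ^ k)) atTop (nhds C)) ∧
    (Nat.card {l // F.Free w L c l} = 0 →
      Tendsto (fun Y : ℝ => F.GW w L a Y / Y) atTop (nhds 0))

theorem TS_lim_of (F : Sys) (hA : E6ATS F) {D : Dt} (w : Wt D) (Ξ : Ext D → Finset F.T)
    (σ : Finset (F.IX D)) (hσ : σ ⊆ F.act w Ξ) (c : F.IX D → F.T) (n : ℕ)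
    (hn : (F.R w σ c).card ≤ n + 1) :
    ∃ C : ℝ, Tendsto (fun Y : ℝ => F.TS w σ c Y / (Y * Real.log Y ^ n)) atTop (nhds C) := by
  have h1 := hA {i // i ∈ σ} (fun i => w.wt i.1.1.1) (fun i => e6_one_le w _)
    (fun i j => D.L i.1.1 j.1.1) (fun i j hij hji => by
        have h3 := hij.2.symm.trans hji.1
        exact absurd h3 (by decide)) (fun i => c i.1) (fun i x => F.aw w c i.1 x)
    (fun i x => e6_aw F w c i.1 x)
    (fun i x hx => by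
      by_contra h2
      apply hx
      rw [Sys.aw, if_neg h2])
    (fun i hi x => by
      have h2 : w.ind i.1.1.1 = w.m := (e6_wt w (e6_ne_one F w Ξ (hσ i.2))).1 hi
      rw [Sys.aw, Sys.kap, if_pos h2, mul_one])
  rw [e6_cardR F w Ξ σ hσ c] at h1
  rcases Nat.eq_zero_or_pos (F.R w σ c).card with h0 | h0
  · have h2 := h1.2 h0
    apply e6_log (F.TS w σ c) 0 0 n (Nat.zero_le _)
    simp only [pow_zero, mul_one]
    exact h2
  · obtain ⟨k, hk⟩ := Nat.exists_eq_succ_of_ne_zero h0.ne'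
    obtain ⟨C, hC⟩ := h1.1 k hk
    exact e6_log (F.TS w σ c) C k n (by omega) hC

theorem TS_le_of (F : Sys) {D : Dt} (w : Wt D) (σ : Finset (F.IX D)) (c : F.IX D → F.T) (n : ℕ)
    (hlim : ∃ C : ℝ, Tendsto (fun Y : ℝ => F.TS w σ c Y / (Y * Real.log Y ^ n)) atTop (nhds C)) :
    ∃ C : ℝ, ∀ Y : ℝ, 1 ≤ Y → |F.TS w σ c Y| ≤ C * Y * (1 + Real.log Y) ^ n := by
  obtain ⟨C, hC⟩ := hlim
  have h1 : ∀ᶠ Y : ℝ in atTop, |F.TS w σ c Y / (Y * Real.log Y ^ n)| ≤ |C| + 1 :=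
    (hC.abs.eventually_lt_const (lt_add_one |C|)).mono fun Y h => h.le
  obtain ⟨Y0, hY0⟩ := Filter.eventually_atTop.1 (h1.and (eventually_gt_atTop (1 : ℝ)))
  obtain ⟨B, hB0, hB⟩ := e6_TS_bdd F w σ c Y0
  refine ⟨|C| + 1 + B, fun Y hY => ?_⟩
  have hlog : 0 ≤ Real.log Y := Real.log_nonneg hY
  have hC0 := abs_nonneg C
  have hp1 : Real.log Y ^ n ≤ (1 + Real.log Y) ^ n := pow_le_pow_left₀ hlog (by linarith) n
  have hp2 : 1 ≤ (1 + Real.log Y) ^ n := one_le_pow₀ (by linarith)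
  have hY1 : 1 ≤ Y * (1 + Real.log Y) ^ n := by nlinarith
  rcases le_total Y Y0 with h | h
  · have h2 : |F.TS w σ c Y| ≤ B := hB Y h
    calc |F.TS w σ c Y| ≤ B * 1 := by rw [mul_one]; exact h2
      _ ≤ B * (Y * (1 + Real.log Y) ^ n) := mul_le_mul_of_nonneg_left hY1 hB0
      _ ≤ (|C| + 1 + B) * (Y * (1 + Real.log Y) ^ n) :=
          mul_le_mul_of_nonneg_right (by linarith) (by linarith)
      _ = _ := by ring
  · obtain ⟨h2, h3⟩ := hY0 Y h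
    have hY0' : 0 < Y := by linarith
    have hlogp : 0 < Real.log Y := Real.log_pos h3
    have hden : 0 < Y * Real.log Y ^ n := by positivity
    rw [abs_div, abs_of_pos hden, div_le_iff₀ hden] at h2
    calc |F.TS w σ c Y| ≤ (|C| + 1) * (Y * Real.log Y ^ n) := h2
      _ ≤ (|C| + 1) * (Y * (1 + Real.log Y) ^ n) :=
          mul_le_mul_of_nonneg_left (mul_le_mul_of_nonneg_left hp1 hY0'.le) (by linarith)
      _ ≤ (|C| + 1 + B) * (Y * (1 + Real.log Y) ^ n) :=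
          mul_le_mul_of_nonneg_right (by linarith) (by linarith)
      _ = _ := by ring

end Pool.Agent.H98.MF
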