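import Pool.Agent.H98.MF.TDefs
import Pool.Agent.H98.MF.SBase

/-!
# Project MK4 (MP_a3214d), block SYS-T: reciprocals of the norms of sets with few primes
-/

set_option autoImplicit false

open scoped BigOperators

open Filter

namespace Pool.Agent.H98.MF

open Pool.Agent.H98.MK (sg)
open Pool.Agent.H98.ML (Dt Ext Wt)

namespace Sys

variable (F : Sys) {D : Dt}

/-- splitting off a prime -/
theorem ss_split (A : Finset (Finset F.P)) (B : Finset (F.P × Finset F.P))
    (hAB : ∀ x ∈ A, ∃ q ∈ B, q.1 ∉ q.2 ∧ insert q.1 q.2 = x) :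
    (∑ x ∈ A, (1 / F.nm x : ℝ)) ≤ ∑ q ∈ B, (1 / F.N q.1 : ℝ) * (1 / F.nm q.2) := by
  classical
  rcases A.eq_empty_or_nonempty with hA | hA
  · rw [hA, Finset.sum_empty]
    exact Finset.sum_nonneg fun q _ => by positivity
  have : Nonempty (F.P × Finset F.P) := by
    obtain ⟨x, hx⟩ := hA
    obtain ⟨q, _, _⟩ := hAB x hx
    exact ⟨q⟩
  choose! f hf using hAB
  have hinj : Set.InjOn f (A : Set (Finset F.P)) := by
    intro x hx y hy hxy
    have h1 := (hf x hx).2.2
    have h2 := (hf y hy).2.2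
    rw [← h1, ← h2, hxy]
  have h1 : (∑ x ∈ A, (1 / F.nm x : ℝ)) =
      ∑ x ∈ A, (1 / F.N (f x).1 : ℝ) * (1 / F.nm (f x).2) := by
    refine Finset.sum_congr rfl fun x hx => ?_
    obtain ⟨_, h3, h4⟩ := hf x hx
    have h5 : F.nm x = F.N (f x).1 * F.nm (f x).2 := by
      conv_lhs => rw [← h4]
      exact F.nm_insert h3
    rw [h5]
    push_cast
    rw [one_div_mul_one_div]
  rw [h1, ← Finset.sum_image (f := fun q : F.P × Finset F.P =>
    (1 / F.N q.1 : ℝ) * (1 / F.nm q.2)) hinj]
  refine Finset.sum_le_sum_of_subset_of_nonneg ?_ fun q _ _ => by positivity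
  intro q hq
  obtain ⟨x, hx, rfl⟩ := Finset.mem_image.1 hq
  exact (hf x hx).1

/-- the sum of the reciprocals of the primes -/
noncomputable def ssP (M : ℝ) : ℝ := ∑ p ∈ F.pr M, (1 / F.N p : ℝ)

/-- the first sum -/
noncomputable def ssA (h : ℕ) (M : ℝ) : ℝ :=
  ∑ x ∈ (F.bx M).filter (fun x => x.card ≤ h), (1 / F.nm x : ℝ)

theorem ssP_nonneg (M : ℝ) : 0 ≤ F.ssP M := Finset.sum_nonneg fun p _ => by positivity

theorem ssA_nonneg (h : ℕ) (M : ℝ) : 0 ≤ F.ssA h M := Finset.sum_nonneg fun p _ => by positivity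

theorem ssA_le (h : ℕ) (M : ℝ) (hM : 1 ≤ M) : F.ssA h M ≤ (1 + F.ssP M) ^ h := by
  induction h with
  | zero =>
    unfold ssA
    have h1 : (F.bx M).filter (fun x => x.card ≤ 0) ⊆ {∅} := by
      intro x hx
      rw [Finset.mem_filter] at hx
      rw [Finset.mem_singleton]
      exact Finset.card_eq_zero.1 (Nat.le_zero.1 hx.2)
    refine (Finset.sum_le_sum_of_subset_of_nonneg h1 fun q _ _ => by positivity).trans ?_
    rw [Finset.sum_singleton, F.nm_empty]
    simp
  | succ h ih =>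
    have h1 : F.ssA (h + 1) M ≤ 1 + F.ssP M * F.ssA h M := by
      unfold ssA
      have h2 : (F.bx M).filter (fun x => x.card ≤ h + 1) ⊆
          insert ∅ ((F.bx M).filter (fun x => x.card ≤ h + 1 ∧ x.Nonempty)) := by
        intro x hx
        rw [Finset.mem_filter] at hx
        rw [Finset.mem_insert, Finset.mem_filter]
        rcases x.eq_empty_or_nonempty with h3 | h3
        · exact Or.inl h3
        · exact Or.inr ⟨hx.1, hx.2, h3⟩
      refine (Finset.sum_le_sum_of_subset_of_nonneg h2 fun q _ _ => by positivity).trans ?_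
      have h5 : (∅ : Finset F.P) ∉ (F.bx M).filter (fun x => x.card ≤ h + 1 ∧ x.Nonempty) := by
        rw [Finset.mem_filter]
        rintro ⟨_, _, h6⟩
        exact Finset.not_nonempty_empty h6
      rw [Finset.sum_insert h5, F.nm_empty]
      have h3 := F.ss_split ((F.bx M).filter (fun x => x.card ≤ h + 1 ∧ x.Nonempty))
        (F.pr M ×ˢ (F.bx M).filter (fun x => x.card ≤ h)) (by
          intro x hx
          rw [Finset.mem_filter] at hx
          obtain ⟨hx1, hx2, p, hp⟩ := hx
          rw [F.mem_bx] at hx1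
          refine ⟨(p, x.erase p), ?_, Finset.notMem_erase p x, Finset.insert_erase hp⟩
          rw [Finset.mem_product, Finset.mem_filter, F.mem_bx, F.mem_pr (by linarith)]
          refine ⟨le_trans (by exact_mod_cast F.N_le_nm hp) hx1,
            le_trans (by exact_mod_cast F.nm_mono (Finset.erase_subset p x)) hx1, ?_⟩
          show (x.erase p).card ≤ h
          rw [Finset.card_erase_of_mem hp]
          omega)
      rw [Finset.sum_product] at h3
      dsimp only at h3
      rw [← Finset.sum_mul_sum] at h3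
      unfold ssP
      simpa using h3
    have h2 := F.ssP_nonneg M
    have h3 : F.ssP M * F.ssA h M ≤ F.ssP M * (1 + F.ssP M) ^ h :=
      mul_le_mul_of_nonneg_left ih h2
    have h4 : (1 : ℝ) ≤ (1 + F.ssP M) ^ h := one_le_pow₀ (by linarith)
    calc F.ssA (h + 1) M ≤ 1 + F.ssP M * F.ssA h M := h1
      _ ≤ (1 + F.ssP M) ^ h + F.ssP M * (1 + F.ssP M) ^ h := add_le_add h4 h3
      _ = (1 + F.ssP M) ^ (h + 1) := by ring

/-- dyadic sums over the primes -/
theorem ss_dyad (hch : ∃ C : ℝ, ∀ x : ℝ, 2 ≤ x → ((F.pr x).card : ℝ) ≤ C * x / Real.log x) :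
    ∃ C : ℝ, 0 ≤ C ∧ ∀ X : ℝ, 1 ≤ X →
      (∑ p ∈ (F.pr (2 * X)).filter (fun p => X < F.N p), (1 / F.N p : ℝ)) ≤
        C / Real.log (2 * X) := by
  obtain ⟨C, hC⟩ := hch
  refine ⟨2 * |C|, by positivity, fun X hX => ?_⟩
  have h1 : 0 < Real.log (2 * X) := Real.log_pos (by linarith)
  have h2 : (∑ p ∈ (F.pr (2 * X)).filter (fun p => X < F.N p), (1 / F.N p : ℝ)) ≤
      ∑ p ∈ (F.pr (2 * X)).filter (fun p => X < F.N p), (1 / X : ℝ) := by
    refine Finset.sum_le_sum fun p hp => ?_
    exact one_div_le_one_div_of_le (by linarith) (Finset.mem_filter.1 hp).2.le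
  refine h2.trans ?_
  rw [Finset.sum_const, nsmul_eq_mul]
  have h3 : (((F.pr (2 * X)).filter (fun p => X < F.N p)).card : ℝ) ≤ (F.pr (2 * X)).card := by
    exact_mod_cast Finset.card_le_card (Finset.filter_subset _ _)
  have h4 := hC (2 * X) (by linarith)
  have h5 : C * (2 * X) / Real.log (2 * X) ≤ |C| * (2 * X) / Real.log (2 * X) :=
    div_le_div_of_nonneg_right (mul_le_mul_of_nonneg_right (le_abs_self C) (by linarith)) h1.le
  calc (((F.pr (2 * X)).filter (fun p => X < F.N p)).card : ℝ) * (1 / X)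
      ≤ |C| * (2 * X) / Real.log (2 * X) * (1 / X) :=
        mul_le_mul_of_nonneg_right (h3.trans (h4.trans h5)) (by positivity)
    _ = 2 * |C| / Real.log (2 * X) := by
        field_simp

theorem ss_pow (C : ℝ) (hC : ∀ X : ℝ, 1 ≤ X →
      (∑ p ∈ (F.pr (2 * X)).filter (fun p => X < F.N p), (1 / F.N p : ℝ)) ≤
        C / Real.log (2 * X)) (J : ℕ) :
    F.ssP (2 ^ J) ≤ C / Real.log 2 * (harmonic J : ℝ) := by
  induction J with
  | zero =>
    have h1 : F.pr (2 ^ 0) = ∅ := by
      rw [Finset.eq_empty_iff_forall_notMem]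
      intro p hp
      rw [F.mem_pr (by norm_num)] at hp
      have h2 := F.two_le p
      norm_num at hp
      omega
    unfold ssP
    rw [h1]
    simp
  | succ J ih =>
    have h0 : (1 : ℝ) ≤ 2 ^ J := one_le_pow₀ (by norm_num)
    have h1 : F.ssP (2 ^ (J + 1)) ≤ F.ssP (2 ^ J) +
        ∑ p ∈ (F.pr (2 * 2 ^ J)).filter (fun p => (2 : ℝ) ^ J < F.N p), (1 / F.N p : ℝ) := by
      unfold ssP
      have h2 : F.pr (2 ^ (J + 1)) ⊆ F.pr (2 ^ J) ∪
          (F.pr (2 * 2 ^ J)).filter (fun p => (2 : ℝ) ^ J < F.N p) := by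
        intro p hp
        rw [F.mem_pr (by positivity)] at hp
        rw [Finset.mem_union, Finset.mem_filter, F.mem_pr (by positivity),
          F.mem_pr (by positivity)]
        rcases le_or_gt (F.N p : ℝ) (2 ^ J) with h3 | h3
        · exact Or.inl h3
        · refine Or.inr ⟨?_, h3⟩
          rw [pow_succ] at hp
          linarith
      refine (Finset.sum_le_sum_of_subset_of_nonneg h2 fun q _ _ => by positivity).trans ?_
      have h3 := Finset.sum_union_inter (s₁ := F.pr (2 ^ J))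
        (s₂ := (F.pr (2 * 2 ^ J)).filter (fun p => (2 : ℝ) ^ J < F.N p))
        (f := fun p => (1 / F.N p : ℝ))
      have h4 : 0 ≤ ∑ p ∈ F.pr (2 ^ J) ∩
          (F.pr (2 * 2 ^ J)).filter (fun p => (2 : ℝ) ^ J < F.N p), (1 / F.N p : ℝ) :=
        Finset.sum_nonneg fun q _ => by positivity
      linarith
    have h2 := hC (2 ^ J) h0
    have h3 : Real.log (2 * 2 ^ J) = (J + 1) * Real.log 2 := by
      rw [← pow_succ', Real.log_pow]
      push_cast
      ring
    rw [h3] at h2
    have h4 : Real.log 2 ≠ 0 := (Real.log_pos (by norm_num)).ne'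
    have h5 : (J + 1 : ℝ) ≠ 0 := by positivity
    rw [harmonic_succ]
    push_cast
    have h6 : C / ((J + 1) * Real.log 2) = C / Real.log 2 * (J + 1 : ℝ)⁻¹ := by
      field_simp
    rw [h6] at h2
    calc F.ssP (2 ^ (J + 1)) ≤ C / Real.log 2 * (harmonic J : ℝ) +
          C / Real.log 2 * (J + 1 : ℝ)⁻¹ := by linarith
      _ = C / Real.log 2 * ((harmonic J : ℝ) + (J + 1 : ℝ)⁻¹) := by ring

theorem ss_prime (hch : ∃ C : ℝ, ∀ x : ℝ, 2 ≤ x → ((F.pr x).card : ℝ) ≤ C * x / Real.log x) :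
    ∃ C : ℝ, 0 ≤ C ∧ ∀ M : ℝ, 1 ≤ M →
      F.ssP M ≤ C * (1 + Real.log (1 + Real.log M)) := by
  obtain ⟨C, hC0, hC⟩ := F.ss_dyad hch
  have hl2 : 0 < Real.log 2 := Real.log_pos (by norm_num)
  refine ⟨C / Real.log 2 * 2, by positivity, fun M hM => ?_⟩
  have hlM : 0 ≤ Real.log M := Real.log_nonneg hM
  set J : ℕ := ⌈Real.log M / Real.log 2⌉₊ with hJ
  have h1 : Real.log M / Real.log 2 ≤ J := Nat.le_ceil _
  have h2 : M ≤ 2 ^ J := by
    rw [div_le_iff₀ hl2] at h1
    rw [← Real.log_le_log_iff (by linarith) (by positivity), Real.log_pow]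
    exact h1
  have h3 : F.ssP M ≤ F.ssP (2 ^ J) := by
    unfold ssP
    refine Finset.sum_le_sum_of_subset_of_nonneg ?_ fun q _ _ => by positivity
    intro p hp
    rw [F.mem_pr (by linarith)] at hp
    rw [F.mem_pr (by positivity)]
    linarith
  have h4 := F.ss_pow C hC J
  have h5 : (harmonic J : ℝ) ≤ 2 * (1 + Real.log (1 + Real.log M)) := by
    have hL : 0 ≤ Real.log (1 + Real.log M) := Real.log_nonneg (by linarith)
    rcases Nat.eq_zero_or_pos J with h6 | h6
    · rw [h6]
      simp only [harmonic_zero, Rat.cast_zero]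
      linarith
    have h7 := harmonic_le_one_add_log J
    have h8 : (J : ℝ) ≤ 2 * (1 + Real.log M) := by
      have h9 : (J : ℝ) < Real.log M / Real.log 2 + 1 := Nat.ceil_lt_add_one (by positivity)
      have h10 : Real.log M / Real.log 2 ≤ 2 * Real.log M := by
        rw [div_le_iff₀ hl2]
        have := Real.log_two_gt_d9
        nlinarith
      linarith
    have h9 : Real.log J ≤ Real.log 2 + Real.log (1 + Real.log M) := by
      rw [← Real.log_mul (by norm_num) (by linarith)]
      exact Real.log_le_log (by exact_mod_cast h6) h8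
    have h10 := Real.log_two_lt_d9
    linarith
  calc F.ssP M ≤ C / Real.log 2 * (harmonic J : ℝ) := h3.trans h4
    _ ≤ C / Real.log 2 * (2 * (1 + Real.log (1 + Real.log M))) :=
        mul_le_mul_of_nonneg_left h5 (by positivity)
    _ = C / Real.log 2 * 2 * (1 + Real.log (1 + Real.log M)) := by ring

end Sys

end Pool.Agent.H98.MF
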