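import Pool.Agent.H98.MF.Switch1

/-!
# Project MK4 (MP_a3214d), block SYS-T: the switching theorem, assembly from the two bounds
-/

set_option autoImplicit false

open scoped BigOperators

open Filter

namespace Pool.Agent.H98.MF

open Pool.Agent.H98.MK (sg)
open Pool.Agent.H98.ML (Dt Ext Wt)

namespace Sys

variable (F : Sys) {D : Dt}

open Classical in
theorem t5_key (w : Wt D) (θ : (Fin F.m → D.V) → (D.V → F.T) → Finset D.V → ℝ) (g0 : Ext D)
    (h1 : g0 ≠ 1) (hg : w.ind g0 = w.m) (w0 : D.V) (hz : D.B g0.v w0 ≠ 0) (c : F.T) (hc : c ≠ 0)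
    (ε : (Fin F.m → D.V) → (Ext D → Finset F.P) → ℝ) (hε : F.Swi θ g0 (D.B g0.v w0) c ε)
    (h : ℕ) (Y : ℝ) :
    |F.Sg w (fun a x => F.ofT θ a x * ε a x) Y| ≤
      (1 / 2 : ℝ) ^ h * |F.Sx w (F.Xi g0 c) (fun a δ Q => |θ a δ Q|) Y| +
      |F.Sg w (fun a x => if (F.cU g0 x).card ≤ h
        then F.ofT (fun a δ Q => |θ a δ Q|) a x else 0) Y| := by
  have hof : ∀ a x, F.ofT (fun a δ Q => |θ a δ Q|) a x = |F.ofT θ a x| := fun a x => rfl
  rw [F.sw_prop w θ g0 h1 hg w0 hz c ε hε Y, F.Sx_pc w _ g0 c hc Y]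
  have hle : |F.Sg w (fun a x => if F.Pc g0 c x then F.ofT θ a x * ε a x else 0) Y| ≤
      (1 / 2 : ℝ) ^ h * F.Sg w (fun a x => if F.Pc g0 c x then
        2 ^ (F.cU g0 x).card * F.ofT (fun a δ Q => |θ a δ Q|) a x else 0) Y +
      F.Sg w (fun a x => if (F.cU g0 x).card ≤ h
        then F.ofT (fun a δ Q => |θ a δ Q|) a x else 0) Y := by
    unfold Sg
    rw [Finset.mul_sum, ← Finset.sum_add_distrib]
    refine (Finset.abs_sum_le_sum_abs _ _).trans (Finset.sum_le_sum fun a _ => ?_)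
    rw [Finset.mul_sum, ← Finset.sum_add_distrib]
    refine (Finset.abs_sum_le_sum_abs _ _).trans (Finset.sum_le_sum fun x _ => ?_)
    by_cases hC : F.Cf w Y a x
    swap
    · rw [if_neg hC, if_neg hC, if_neg hC]
      simp
    rw [if_pos hC, if_pos hC, if_pos hC]
    beta_reduce
    rw [hof]
    have h0 : 0 ≤ |F.ofT θ a x| := abs_nonneg _
    by_cases hP : F.Pc g0 c x
    swap
    · rw [if_neg hP, if_neg hP, abs_zero, mul_zero, zero_add]
      split_ifs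
      · exact h0
      · exact le_rfl
    rw [if_pos hP, if_pos hP, abs_mul]
    have h2 : |F.ofT θ a x| * |ε a x| ≤ |F.ofT θ a x| :=
      mul_le_of_le_one_right h0 (hε.bd a x)
    refine h2.trans ?_
    by_cases hcd : (F.cU g0 x).card ≤ h
    · rw [if_pos hcd]
      have : 0 ≤ (1 / 2 : ℝ) ^ h * (2 ^ (F.cU g0 x).card * |F.ofT θ a x|) := by positivity
      linarith
    · rw [if_neg hcd, add_zero]
      push Not at hcd
      have h3 : (1 : ℝ) ≤ (1 / 2 : ℝ) ^ h * 2 ^ (F.cU g0 x).card := by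
        have h4 : (2 : ℝ) ^ h ≤ 2 ^ (F.cU g0 x).card := pow_le_pow_right₀ (by norm_num) hcd.le
        have h5 : (1 / 2 : ℝ) ^ h * 2 ^ h = 1 := by
          rw [← mul_pow]
          norm_num
        exact h5.symm.le.trans (mul_le_mul_of_nonneg_left h4 (by positivity))
      calc |F.ofT θ a x| = 1 * |F.ofT θ a x| := (one_mul _).symm
        _ ≤ (1 / 2 : ℝ) ^ h * 2 ^ (F.cU g0 x).card * |F.ofT θ a x| :=
            mul_le_mul_of_nonneg_right h3 h0
        _ = _ := by ring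
  refine hle.trans (add_le_add ?_ (le_abs_self _))
  exact mul_le_mul_of_nonneg_left (le_abs_self _) (by positivity)

open Classical in
/-- the switching theorem from the two bounds -/
theorem switch_of (w : Wt D) (θ : (Fin F.m → D.V) → (D.V → F.T) → Finset D.V → ℝ)
    (hθ : ∀ a δ Q, θ a δ Q ≠ 0 → F.Span a Q) (g0 : Ext D) (h1 : g0 ≠ 1)
    (hg : w.ind g0 = w.m) (w0 : D.V) (hz : D.B g0.v w0 ≠ 0) (c : F.T) (hc : c ≠ 0)
    (ε : (Fin F.m → D.V) → (Ext D → Finset F.P) → ℝ) (hε : F.Swi θ g0 (D.B g0.v w0) c ε)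
    (HS : ∀ θ' : (Fin F.m → D.V) → (D.V → F.T) → Finset D.V → ℝ,
      (∀ a δ Q, θ' a δ Q ≠ 0 → F.Span a Q) →
      ∃ C : ℝ, ∀ᶠ Y : ℝ in atTop,
        |F.Sx w (F.Xi g0 c) θ' Y| ≤ C * (Y * Real.log Y ^ (w.b - 1)))
    (HF : ∀ θ' : (Fin F.m → D.V) → (D.V → F.T) → Finset D.V → ℝ,
      (∀ a δ Q, θ' a δ Q ≠ 0 → F.Span a Q) → ∀ h : ℕ,
      Tendsto (fun Y : ℝ => F.Sg w
        (fun a x => if (F.cU g0 x).card ≤ h then F.ofT θ' a x else 0) Y /
          (Y * Real.log Y ^ (w.b - 1))) atTop (nhds 0)) :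
    Tendsto (fun Y : ℝ => F.Sg w (fun a x => F.ofT θ a x * ε a x) Y /
      (Y * Real.log Y ^ (w.b - 1))) atTop (nhds 0) := by
  have hθ' : ∀ a δ Q, (fun a δ Q => |θ a δ Q|) a δ Q ≠ 0 → F.Span a Q := fun a δ Q h =>
    hθ a δ Q fun h2 => h (by simp only [h2, abs_zero])
  obtain ⟨C, hC⟩ := HS (fun a δ Q => |θ a δ Q|) hθ'
  rw [Metric.tendsto_nhds]
  intro η hη
  obtain ⟨h, hh⟩ : ∃ h : ℕ, (1 / 2 : ℝ) ^ h * |C| < η / 2 := by
    obtain ⟨h, hh⟩ := exists_pow_lt_of_lt_one (x := η / 2 / (|C| + 1)) (y := (1 / 2 : ℝ))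
      (by positivity) (by norm_num)
    refine ⟨h, ?_⟩
    rw [lt_div_iff₀ (by positivity)] at hh
    have : 0 < (1 / 2 : ℝ) ^ h := by positivity
    nlinarith
  have hF := Metric.tendsto_nhds.1 (HF (fun a δ Q => |θ a δ Q|) hθ' h) (η / 2) (by positivity)
  filter_upwards [hC, hF, eventually_ge_atTop (Real.exp 1)] with Y hY1 hY2 hY3
  have hY0 : 0 < Y := lt_of_lt_of_le (Real.exp_pos 1) hY3
  have hlog : 1 ≤ Real.log Y := by
    rw [Real.le_log_iff_exp_le hY0]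
    exact hY3
  have hL : 0 < Y * Real.log Y ^ (w.b - 1) := by
    have : 0 < Real.log Y := by linarith
    positivity
  rw [Real.dist_eq, sub_zero, abs_div, abs_of_pos hL, div_lt_iff₀ hL] at hY2 ⊢
  have h2 := F.t5_key w θ g0 h1 hg w0 hz c hc ε hε h Y
  have h3 : (1 / 2 : ℝ) ^ h * |F.Sx w (F.Xi g0 c) (fun a δ Q => |θ a δ Q|) Y| ≤
      (1 / 2 : ℝ) ^ h * (|C| * (Y * Real.log Y ^ (w.b - 1))) :=
    mul_le_mul_of_nonneg_left (hY1.trans (mul_le_mul_of_nonneg_right (le_abs_self C) hL.le))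
      (by positivity)
  have h4 : (1 / 2 : ℝ) ^ h * (|C| * (Y * Real.log Y ^ (w.b - 1))) <
      η / 2 * (Y * Real.log Y ^ (w.b - 1)) := by
    rw [← mul_assoc]
    exact mul_lt_mul_of_pos_right hh hL
  linarith

end Sys

end Pool.Agent.H98.MF
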